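import Pool.Agent.Lib.MP_696deb_nt.Y3.Top
import Pool.Agent.Lib.MP_696deb_nt.ED.Fin

/-! Almost all curves of the families `k n ^ 2` and `k n ^ 4`. -/

set_option autoImplicit false

open scoped Classical

namespace Pool.Agent.Lib.MP_696deb_nt.Y3

open CX (Alm)
open CQ (Wq rootNumber)

variable {b k : ℤ} {r : ℕ}

theorem Bsd.root (h : Bsd b r) (hr : r ≤ 1) : Bsd b (if rootNumber b = 1 then 0 else 1) := by
  have e := (h _ _ rfl rfl).1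
  split_ifs with u
  · rwa [e.2 u] at h
  · rwa [show r = 1 from le_antisymm hr (Nat.pos_of_ne_zero (e.1.mt u))] at h

theorem fam_le (P : Prop) : (if P then 0 else 1 : ℕ) ≤ 1 := by split_ifs <;> simp

theorem fam_sq {c n : ℕ} (hc : c ≠ 0) (hn : n ≠ 0)
    (h : ¬ ∃ i ≤ 441 ^ 2, ∃ t : ℕ, c ^ 2 * n = i * t ^ 3) : Gen (c * n ^ 2) := by
  rintro ⟨i, hi, t, e⟩
  have h0 : i * t ^ 3 ≠ 0 := e ▸ mul_ne_zero hc (pow_ne_zero 2 hn)
  have i0 := left_ne_zero_of_mul h0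
  have t0 : t ≠ 0 := fun u => by simp [u] at h0
  obtain ⟨m, s, m0, m1, s0, e1⟩ := exists_cf (mul_ne_zero (pow_ne_zero 2 hc) hn)
  have e2 : m * (s * n) ^ 3 = i ^ 2 * (t ^ 2) ^ 3 := by
    rw [mul_pow, ← mul_assoc, ← e1, show c ^ 2 * n * n ^ 3 = (c * n ^ 2) ^ 2 by ring, e]
    ring
  refine h ⟨m, (Nat.le_of_dvd (by positivity) ((Nat.factorization_le_iff_dvd m0
    (pow_ne_zero 2 i0)).1 fun q => ?_)).trans (Nat.pow_le_pow_left hi 2), s, e1⟩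
  have e3 := congrArg (fun x => x.factorization q) e2
  simp only [Nat.factorization_mul m0 (pow_ne_zero 3 (mul_ne_zero s0 hn)),
    Nat.factorization_mul (pow_ne_zero 2 i0) (pow_ne_zero 3 (pow_ne_zero 2 t0)),
    Nat.factorization_pow _ 3, Finsupp.add_apply, Finsupp.smul_apply, smul_eq_mul] at e3
  have := m1 q
  omega

/-- The family `k n ^ 2`. -/
theorem alm2 (hk : k ≠ 0) : Alm fun n =>
    Bsd (k * (n : ℤ) ^ 2) (if rootNumber (k * (n : ℤ) ^ 2) = 1 then 0 else 1) := by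
  have c0 : 2 * k.natAbs ^ 2 ≠ 0 :=
    mul_ne_zero two_ne_zero (pow_ne_zero 2 (Int.natAbs_ne_zero.2 hk))
  have D0 : -3 * k ≠ 0 := mul_ne_zero (by norm_num) hk
  obtain ⟨δ, h1, h2⟩ := CX.alm_gro CU.CV.core
    (fun δ _ l hn => CU.CV.finite_Zs (δ := δ) hn 1 l) D0
  obtain ⟨δ1, h3, h4⟩ := CX.alm_gro4 (D := -7 * (-3 * k)) (c := 49 * (2 * k.natAbs ^ 2) ^ 2)
    (mul_ne_zero (by norm_num) D0) (mul_ne_zero (by norm_num) (pow_ne_zero 2 c0))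
  exact (((h2.and (alm_cube 441)).mul c0).and h4).mono fun n hn e =>
    (inp.bsd (CX.tw hk hn) e.1.2 h1 e.1.1 h3 (by rw [mul_pow, ← mul_assoc]; exact e.2)).root
      (fam_le _)

/-- The family `k n ^ 4`. -/
theorem alm4 (hk : k ≠ 0) : Alm fun n =>
    Bsd (k * (n : ℤ) ^ 4) (if rootNumber (k * (n : ℤ) ^ 4) = 1 then 0 else 1) := by
  have c0 : 2 * k.natAbs ^ 2 ≠ 0 :=
    mul_ne_zero two_ne_zero (pow_ne_zero 2 (Int.natAbs_ne_zero.2 hk))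
  have c1 : 49 * (2 * k.natAbs ^ 2) ^ 2 ≠ 0 := mul_ne_zero (by norm_num) (pow_ne_zero 2 c0)
  have D0 : -3 * k ≠ 0 := mul_ne_zero (by norm_num) hk
  obtain ⟨δ, h1, h2⟩ := CX.alm_gro4 D0 c0
  obtain ⟨δ1, h3, h4⟩ := CX.alm_gro CU.CV.core
    (fun δ _ l hn => CU.CV.finite_Zs (δ := δ) hn 1 l) (mul_ne_zero (by norm_num : (-7 : ℤ) ≠ 0) D0)
  exact ((h2.and (h4.mul c1)).and ((alm_cube (441 ^ 2)).mul (pow_ne_zero 2 c0))).mono fun n hn e =>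
    (inp.bsd (CX.tw4 hk hn) (fam_sq c0 hn e.2) h1 e.1.1 h3 (by
      rw [show 49 * (2 * k.natAbs ^ 2 * n ^ 2) ^ 2 = 49 * (2 * k.natAbs ^ 2) ^ 2 * n * n ^ 3 by ring,
        EV.D.fin_ac (mul_ne_zero c1 hn) hn]
      exact e.1.2)).root (fam_le _)

end Pool.Agent.Lib.MP_696deb_nt.Y3
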