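import Pool.Agent.Lib.MP_696deb_nt.Y3.TH1

/-! The section satisfies the conditions of the analytic side. -/

set_option autoImplicit false

open Complex Finset CongruenceSubgroup
open UpperHalfPlane hiding I
open scoped Real ComplexConjugate Classical MatrixGroups Modular

namespace Pool.Agent.Lib.MP_696deb_nt.Y3

open CL (O nm om th op wC Per FT mem_reps)

variable {M : ℕ} {a : O → ℂ} {c d l : ℤ} {z : ℂ}

/-- The form of a row without its weight. -/
noncomputable def F0 (M : ℕ) (a : O → ℂ) (c d : ℤ) (z : ℂ) : ℂ :=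
  sm M fun x => a x * Th2 0 1 0 (c * CL.toC x / M) (d * CL.toC x / M) z

theorem hasSum_norm {g : O → ℂ} {F : ℤ → ℂ} {s : ℂ} (h : HasSum (fun A : O => g A * F (nm A)) s) :
    HasSum (fun n : ℕ => (∑ A ∈ CL.reps n, g A) * F n) s := by
  refine (h.tsum_fiberwise fun A => (nm A).toNat).congr_fun fun n => ?_
  have e : (fun A : O => (nm A).toNat) ⁻¹' {n} = (CL.reps n : Set O) := by
    ext A
    have := CL.nm_nonneg A
    simp only [Set.mem_preimage, Set.mem_singleton_iff, mem_coe, mem_reps]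
    omega
  rw [e, Finset.tsum_subtype' (CL.reps n) fun A => g A * F (nm A), sum_mul]
  exact sum_congr rfl fun A hA => by rw [mem_reps.1 hA]

theorem Adm.sec_F (h : Adm M a) (hz : 0 < z.im) (c d : ℤ) :
    (sec M a).F c d z = Wt c d * F0 M a c d z := by
  have h1 := hasSum_norm (g := ph M a c d) (F := fun n => q1 (n * z / M ^ 2))
    ((hasSum_sm (M := M) fun x => (hasSum_cf h.pos hz c d x).mul_left (a x)).congr_fun fun A => by
      rw [ph, mul_comm, ← sm_mul_left]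
      exact sm_congr fun x => by ring)
  refine ((h1.mul_left (Wt c d)).congr_fun fun n => ?_).tsum_eq
  simp only [sec]
  push_cast
  ring

theorem norm_toC_le {x : O} (h : nm x ≤ 1) : ‖CL.toC x‖ ≤ 1 := by
  rw [← sq_le_one_iff₀ (norm_nonneg _), Complex.sq_norm, CL.normSq_toC]
  exact_mod_cast h

theorem norm_div_th_le {x : O} (h : nm x ≤ 3) : ‖CL.toC x / CL.toC th‖ ≤ 1 := by
  rw [← sq_le_one_iff₀ (norm_nonneg _), Complex.sq_norm, map_div₀, CL.normSq_toC, CL.normSq_toC,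
    show nm th = 3 from rfl, div_le_one (by norm_num)]
  exact_mod_cast h

theorem norm_Wt_le (c d : ℤ) : ‖Wt c d‖ ≤ 1 := by
  rw [Wt]
  split_ifs
  · rw [norm_conj]
    exact norm_toC_le ((by decide : ∀ r : ZMod 7, nm (ep r) ≤ 1) d)
  · simp

theorem norm_ph_le (M : ℕ) (a : O → ℂ) : ∃ K : ℝ, 0 ≤ K ∧ ∀ c d A, ‖ph M a c d A‖ ≤ K :=
  ⟨_, sum_nonneg fun _ _ => sum_nonneg fun _ _ => norm_nonneg _, fun _ _ A =>
    norm_sm_le (B := fun x => ‖a x‖) fun x =>
      (norm_mul_le _ _).trans (mul_le_of_le_one_right (norm_nonneg _) (norm_cf_le x A))⟩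

theorem Wt_congr {c' d' : ℤ} (hc : 21 ∣ c' - c) (hd : 7 ∣ d' - d) : Wt c' d' = Wt c d := by
  rw [Wt, Wt, ep_congr hd]
  exact if_congr (by omega) rfl rfl

theorem ph_congr (h0 : 0 < M) {c' d' : ℤ} (hc : (M : ℤ) ^ 2 ∣ c' - c)
    (hd : (M : ℤ) ^ 2 ∣ d' - d) (A : O) : ph M a c' d' A = ph M a c d A := by
  obtain ⟨s, hs⟩ := hc
  obtain ⟨t, ht⟩ := hd
  obtain rfl : c' = c + M ^ 2 * s := by omega
  obtain rfl : d' = d + M ^ 2 * t := by omega
  have M0 : (M : ℂ) ≠ 0 := by exact_mod_cast h0.ne'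
  refine sm_congr fun x => congrArg _ ?_
  rw [cf, cf, show A - (c + M ^ 2 * s : ℤ) * x = A - c * x - M * (M * s * x) by push_cast; ring]
  refine if_congr (dvd_sub_left (dvd_mul_right _ _)) (q1_congr
    (t * (bil A x - c * nm x) - (d + M ^ 2 * t) * s * nm x) ?_) rfl
  push_cast
  field_simp
  ring

theorem ph_neg (c d : ℤ) (A : O) : ph M a (-c) (-d) (-A) = ph M a c d A := by
  refine sm_congr fun x => congrArg _ ?_
  rw [cf, cf, show -A - (-c : ℤ) * x = -(A - c * x) by push_cast; ring]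
  refine if_congr dvd_neg (congrArg _ ?_) rfl
  simp only [bil, QuadraticAlgebra.re_neg, QuadraticAlgebra.im_neg]
  push_cast
  ring

theorem Wt_law {A B C D : ℤ} (h : A * D - B * C = 1) (hC : 21 ∣ C) (c d : ℤ) :
    Wt c d * et D = CL.toC (nb D) * Wt (c * A + d * C) (c * B + d * D) := by
  obtain ⟨C, rfl⟩ := hC
  have e0 : ∀ p q : ℤ, p * q = 21 → (p ∣ c * A + d * (21 * C) ↔ p ∣ c) := fun p q e =>
    ⟨fun k => by
      rw [show c = D * (c * A + d * (21 * C)) - p * (q * C * (c * B + d * D)) by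
        linear_combination -c * h + C * (c * B + d * D) * e]
      exact (k.mul_left _).sub (dvd_mul_right _ _),
    fun k => (k.mul_right _).add ⟨d * q * C, by linear_combination -d * C * e⟩⟩
  rw [Wt, Wt, if_congr (and_congr (not_congr (e0 3 7 rfl)) (e0 7 3 rfl)) rfl rfl]
  split_ifs with h1
  · have h2 : (D : ZMod 7) ≠ 0 := fun e => by
      obtain ⟨r, rfl⟩ := (ZMod.intCast_zmod_eq_zero_iff_dvd D 7).1 e
      have : 7 * (A * r - B * (3 * C)) = 1 := by linear_combination h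
      omega
    have h3 := congrArg CL.toC (ep_unit D h2).1
    rw [map_mul, CL.toC_star, map_one] at h3
    rw [ep_congr (s := c * B + d * D) (t := d * D) (by simpa using h1.2.mul_right B), Int.cast_mul,
      ep_mul, nb_int, map_mul, map_mul, map_mul, map_intCast]
    linear_combination -(et D * conj (CL.toC (ep d))) * h3
  · simp

theorem Th2_law (g : SL(2, ℤ)) (z : ℍ) (c d : ℤ) (x : O) :
    Th2 0 1 0 (c * CL.toC x / M) (d * CL.toC x / M) (g • z : ℍ) = Y2.An.jac g z *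
      Th2 0 (CL.toC (wa (g 1 0) (g 1 1)) / CL.toC th) (CL.toC (wb (g 1 0) (g 1 1)) / CL.toC th)
        ((c * g 0 0 + d * g 1 0 : ℤ) * CL.toC x / M) ((c * g 0 1 + d * g 1 1 : ℤ) * CL.toC x / M)
        z := by
  rw [coe_smul_eq_mob, (law zero_le_one (det_SL g)).2 _ _ _ z.im_pos, Y2.An.jac, zero_add, pow_one]
  congr 2 <;> push_cast <;> ring

/-- The coefficients at an arbitrary cusp. -/
noncomputable def cg (M : ℕ) (s t : ℂ) (c d : ℤ) (x A : O) : ℂ :=
  if (M : O) ∣ A - c * th * x then (if M * th ∣ A - c * th * x then s else t) *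
    q1 (d * (bil A (th * x) - c * 3 * nm x : ℤ) / (3 * M ^ 2)) else 0

theorem hasSum_cg (hM : 0 < M) (hz : 0 < z.im) (s t : ℂ) (c d : ℤ) (x : O) :
    HasSum (fun A : O => cg M s t c d x A * q1 (nm A * z / (3 * M ^ 2)))
      (Th2 0 s t (c * CL.toC x / M) (d * CL.toC x / M) z) := by
  have M0 : (M : O) ≠ 0 := by exact_mod_cast hM.ne'
  have inj : Function.Injective fun b : O => M * b + c * th * x :=
    fun b b' e => mul_left_cancel₀ M0 (add_right_cancel e)
  refine (inj.hasSum_iff fun A hA => ?_).1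
    ((hasSum_Th2 zero_le_one hz s t _ _).congr_fun fun b => ?_)
  · rw [cg, if_neg, zero_mul]
    rintro ⟨b, e⟩
    exact hA ⟨b, by linear_combination -e⟩
  · rw [Function.comp, cg, if_pos ⟨b, by ring⟩, add_sub_cancel_right, thT,
      thE_rat hM (n := 3) (CL.normSq_toC th) three_pos c d x b rfl, mul_assoc,
      if_congr (mul_dvd_mul_iff_left M0) rfl rfl]
    rfl

theorem norm_cg_le {s t : ℂ} (hs : ‖s‖ ≤ 1) (ht : ‖t‖ ≤ 1) (x A : O) : ‖cg M s t c d x A‖ ≤ 1 := by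
  rw [cg]
  split_ifs
  all_goals simp only [norm_mul, norm_zero, zero_le_one]
  all_goals
    rw [show (d * (bil A (th * x) - c * 3 * nm x : ℤ) / (3 * M ^ 2) : ℂ) =
      (d * (bil A (th * x) - c * 3 * nm x : ℤ) / (3 * M ^ 2) : ℝ) by push_cast; rfl, norm_q1_real,
      mul_one]
    assumption

theorem cg_zero (h0 : 0 < M) (h3 : 3 ∣ M) {u : ℤ} (hu : (M : ℤ) ^ 2 ∣ u ^ 2 - 1) (s t : ℂ) (x : O) :
    cg M s t c d (u * x) 0 = cg M s t c d x 0 := by
  obtain ⟨r, hr⟩ := hu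
  obtain ⟨H, hH⟩ := h3
  have M0 : (M : ℂ) ≠ 0 := by exact_mod_cast h0.ne'
  have h1 : (u : O) ^ 2 - 1 = M ^ 2 * r := by exact_mod_cast hr
  have h2 : (u : ℂ) ^ 2 - 1 = M ^ 2 * r := by exact_mod_cast hr
  have h4 : (M : O) = 3 * H := by exact_mod_cast hH
  have e : ∀ n m : O, M ^ 2 = n * m → (n ∣ 0 - c * th * (u * x) ↔ n ∣ 0 - c * th * x) := fun n m k =>
    ⟨fun ⟨y, hy⟩ => ⟨u * y + m * r * c * th * x, by
      linear_combination u * hy + c * th * x * h1 + r * c * th * x * k⟩,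
      fun ⟨y, hy⟩ => ⟨u * y, by linear_combination u * hy⟩⟩
  rw [cg, cg, if_congr (e _ _ (sq _)) rfl rfl, if_congr (e (M * th) (-(th * H)) (by
    linear_combination M * h4 + M * H * (by decide : th * th = -3))) rfl rfl, CL.nm_mul, CL.nm_int]
  refine if_congr Iff.rfl (congrArg _ (q1_congr (-(d * c * r * nm x)) ?_)) rfl
  simp [bil]
  field_simp
  linear_combination (-(d * c * nm x) : ℂ) * h2

theorem summable_gauss {t : ℝ} (ht : 0 < t) : Summable fun A : O => Real.exp (-π * t * nm A) := by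
  refine (hasSum_Th0 zero_le_one (z := t / 2 * I) (by simpa using ht) 1 0 0).summable.norm.congr
    fun A => ?_
  rw [thE, pow_zero, one_mul, one_mul, norm_q1, add_zero, CL.normSq_toC]
  congr 1
  simp
  ring

theorem Th2_sub_le (h0 : 0 < M) (h3 : 3 ∣ M) {u : ℤ} (hu : (M : ℤ) ^ 2 ∣ u ^ 2 - 1) :
    ∃ C : ℝ, 0 ≤ C ∧ ∀ (s t : ℂ) (c d : ℤ) (x : O) (z : ℂ), ‖s‖ ≤ 1 → ‖t‖ ≤ 1 → 1 / 2 ≤ z.im →
      ‖Th2 0 s t (c * CL.toC x / M) (d * CL.toC x / M) z -
        Th2 0 s t (c * CL.toC (u * x) / M) (d * CL.toC (u * x) / M) z‖ ≤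
        C * Real.exp (-(π / (3 * M ^ 2)) * z.im) := by
  have M0 : (0 : ℝ) < M := by exact_mod_cast h0
  have hs := summable_gauss (t := 1 / (6 * M ^ 2)) (by positivity)
  refine ⟨2 * ∑' A : O, Real.exp (-π * (1 / (6 * M ^ 2)) * nm A),
    mul_nonneg two_pos.le (tsum_nonneg fun _ => (Real.exp_pos _).le),
    fun s t c d x z h1 h2 hz => ?_⟩
  have hz' : 0 < z.im := by linarith
  have h := (hasSum_cg h0 hz' s t c d x).sub (hasSum_cg h0 hz' s t c d (u * x))
  refine h.norm_le_of_bounded ((hs.hasSum.mul_left 2).mul_right _) fun A => ?_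
  rw [← sub_mul]
  rcases eq_or_ne A 0 with rfl | hA
  · rw [cg_zero h0 h3 hu, sub_self, zero_mul, norm_zero]
    positivity
  have h4 : (1 : ℝ) ≤ nm A := by
    exact_mod_cast (CL.nm_nonneg A).lt_of_ne' (mt CL.nm_eq_zero.1 hA)
  rw [norm_mul, norm_q1, mul_assoc 2, ← Real.exp_add]
  refine mul_le_mul ((norm_sub_le _ _).trans ((add_le_add (norm_cg_le h1 h2 _ _)
    (norm_cg_le h1 h2 _ _)).trans one_add_one_eq_two.le)) (Real.exp_le_exp.2 ?_) (by positivity)
    two_pos.le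
  rw [show (nm A * z / (3 * M ^ 2) : ℂ) = ((nm A / (3 * M ^ 2) : ℝ) : ℂ) * z by
    push_cast; ring, im_ofReal_mul]
  have h5 : 0 ≤ π / (6 * M ^ 2) * (2 * (nm A - 1) * z.im + nm A * (2 * z.im - 1)) :=
    mul_nonneg (by positivity) (by nlinarith)
  calc _ = -π * (1 / (6 * M ^ 2)) * nm A + -(π / (3 * M ^ 2)) * z.im -
        π / (6 * M ^ 2) * (2 * (nm A - 1) * z.im + nm A * (2 * z.im - 1)) := by
        field_simp
        ring
    _ ≤ _ := by linarith

theorem Adm.three (h : Adm M a) : 3 ∣ M := Dvd.dvd.trans ⟨7, rfl⟩ h.lev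

theorem Adm.dec (h : Adm M a) : ∃ δ C : ℝ, 0 < δ ∧ ∀ g : SL(2, ℤ), ∀ z ∈ 𝒟, ∀ c d : ℤ,
    ‖(sec M a).F c d (g • z : ℍ)‖ * √(g • z).im ≤ C * Real.exp (-δ * z.im) := by
  obtain ⟨-, -, u, -, -, -, hu, ho⟩ := h.odd
  obtain ⟨C, C0, hC⟩ := Th2_sub_le h.pos h.three hu
  have M0 : (0 : ℝ) < M := by exact_mod_cast h.pos
  obtain ⟨δ, hδ⟩ : ∃ δ : ℝ, δ = π / (6 * M ^ 2) := ⟨_, rfl⟩
  have δ0 : 0 < δ := by rw [hδ]; positivity
  obtain ⟨K, hK⟩ : ∃ K : ℝ, K = ∑ x ∈ range M, ∑ y ∈ range M, ‖a ⟨x, y⟩‖ := ⟨_, rfl⟩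
  have K0 : 0 ≤ K := by rw [hK]; positivity
  refine ⟨δ, K * C * (1 + 1 / δ), δ0, fun g z hz c d => ?_⟩
  have y0 := z.im_pos
  have hy : 1 / 2 ≤ z.im := by
    have := ModularGroup.three_le_four_mul_im_sq_of_mem_fd hz
    nlinarith
  rw [h.sec_F (g • z).im_pos]
  have hp : Per M fun x : O => Th2 0 1 0 (c * CL.toC x / M) (d * CL.toC x / M) (g • z : ℍ) :=
    fun x γ => (hasSum_cf h.pos (g • z).im_pos c d _).unique
      ((hasSum_cf h.pos (g • z).im_pos c d x).congr_fun fun A =>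
        congrArg (· * _) (cf_per h.pos c d A x γ))
  have hu' : (M : O) ∣ u * u - 1 := by
    obtain ⟨t, ht⟩ := hu
    exact ⟨M * t, by exact_mod_cast (show u * u - 1 = M * (M * t) by linear_combination ht)⟩
  have e1 := sm_mul h.pos
    (f := fun x => a x * Th2 0 1 0 (c * CL.toC x / M) (d * CL.toC x / M) (g • z : ℍ))
    (fun x γ => congrArg₂ _ (h.per x γ) (hp x γ)) hu'
  simp only [ho, neg_mul, sm_neg] at e1
  have e2 : 2 * F0 M a c d (g • z : ℍ) = sm M fun x => a x *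
      (Th2 0 1 0 (c * CL.toC x / M) (d * CL.toC x / M) (g • z : ℍ) -
        Th2 0 1 0 (c * CL.toC (u * x) / M) (d * CL.toC (u * x) / M) (g • z : ℍ)) := by
    simp only [mul_sub, sm_sub]
    rw [F0]
    linear_combination -e1
  have e3 : ‖2 * F0 M a c d (g • z : ℍ)‖ ≤
      K * (‖Y2.An.jac g z‖ * (C * Real.exp (-(2 * δ) * z.im))) := by
    have k : ∀ c d : ZMod 3, nm (wa c d) ≤ 3 ∧ nm (wb c d) ≤ 3 := by decide
    rw [e2, hK, sum_mul]
    simp only [sum_mul]
    refine norm_sm_le (B := fun x => ‖a x‖ * _) fun x => ?_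
    rw [Th2_law, Th2_law, ← mul_sub, norm_mul, norm_mul,
      show 2 * δ = π / (3 * M ^ 2) by rw [hδ]; ring]
    gcongr
    exact hC _ _ _ _ _ _ (norm_div_th_le (k _ _).1) (norm_div_th_le (k _ _).2) hy
  have e4 : ‖Y2.An.jac g z‖ * √(g • z).im = √z.im := by
    have hj : 0 < ‖Y2.An.jac g z‖ := norm_pos_iff.2 (den_ne (det_SL g ▸ one_ne_zero) y0)
    rw [← coe_im (g • z), coe_smul_eq_mob, im_mob, det_SL, Int.cast_one, one_mul,
      Real.sqrt_div' _ (sq_nonneg _), Real.sqrt_sq (norm_nonneg _), coe_im]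
    exact mul_div_cancel₀ _ hj.ne'
  have e5 : √z.im ≤ (1 + 1 / δ) * Real.exp (δ * z.im) := by
    have h1 := Real.add_one_le_exp (δ * z.im)
    have h2 : √z.im ≤ 1 + z.im := Real.sqrt_le_iff.2 ⟨by positivity, by nlinarith⟩
    calc _ ≤ 1 + z.im + (δ * z.im + 1 / δ) := by
          have : 0 ≤ δ * z.im + 1 / δ := by positivity
          linarith
      _ = (1 + 1 / δ) * (δ * z.im + 1) := by field_simp; ring
      _ ≤ _ := by gcongr
  rw [norm_mul, Complex.norm_two] at e3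
  calc _ ≤ 1 * (K * (‖Y2.An.jac g z‖ * (C * Real.exp (-(2 * δ) * z.im)))) * √(g • z).im := by
        rw [norm_mul]
        gcongr
        exacts [norm_Wt_le c d, by linarith [norm_nonneg (F0 M a c d (g • z : ℍ))]]
    _ = K * C * (√z.im * Real.exp (-(2 * δ) * z.im)) := by rw [← e4]; ring
    _ ≤ K * C * ((1 + 1 / δ) * Real.exp (δ * z.im) * Real.exp (-(2 * δ) * z.im)) := by gcongr
    _ = _ := by rw [mul_assoc (1 + 1 / δ), ← Real.exp_add]; ring_nf

theorem Adm.ok (h : Adm M a) : (sec M a).Ok levY := by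
  have h21 : (21 : ℤ) ∣ M ^ 2 :=
    (Int.natCast_dvd_natCast.2 h.lev).trans (dvd_pow_self _ two_ne_zero)
  have h7 : (7 : ℤ) ∣ M ^ 2 := Dvd.dvd.trans ⟨3, rfl⟩ h21
  refine ⟨pow_pos h.pos 2, one_dvd _, fun n c d => ?_, fun n c d => ?_,
    fun n c d => ?_, fun ε hε => ?_, fun g hg c d z => ?_, h.dec⟩
  · simp only [sec]
    rw [Wt_congr (c := c) (d := d) (by simpa using h21) (by simp),
      sum_congr rfl fun A _ => ph_congr (c := c) (d := d) h.pos (by simp) (by simp) A]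
  · simp only [sec]
    rw [Wt_congr (c := c) (d := d) (by simp) (by simpa using h7),
      sum_congr rfl fun A _ => ph_congr (c := c) (d := d) h.pos (by simp) (by simp) A]
  · have e : Wt (-c) (-d) = -Wt c d := by
      rw [Wt, Wt, Int.cast_neg, ep_neg, map_neg, map_neg, apply_ite Neg.neg, neg_zero]
      exact if_congr (by omega) rfl rfl
    have k : ∀ A : O, nm (-A) = nm A := fun A => by simp [nm]
    simp only [sec]
    rw [e, neg_mul]
    congr 2
    exact sum_nbij' Neg.neg Neg.neg (by simp [mem_reps, k]) (by simp [mem_reps, k]) (by simp)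
      (by simp) fun A _ => by rw [← ph_neg c d, neg_neg]
  · obtain ⟨C, C0, hC⟩ := card_reps_rpow hε
    obtain ⟨K, K0, hK⟩ := norm_ph_le M a
    refine ⟨K * C, fun n c d => ?_⟩
    simp only [sec]
    rw [norm_mul, mul_assoc]
    refine (mul_le_of_le_one_left (norm_nonneg _) (norm_Wt_le c d)).trans
      ((norm_sum_le_of_le _ fun A _ => hK c d A).trans ?_)
    rw [sum_const, nsmul_eq_mul, mul_comm]
    exact mul_le_mul_of_nonneg_left (hC n) K0
  · have hC : (21 : ℤ) ∣ g 1 0 := (ZMod.intCast_zmod_eq_zero_iff_dvd _ 21).1 (Gamma0_mem.1 hg)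
    have e := Wt_law (det_SL g) hC c d
    have e1 : ∀ x : O, Th2 0 1 0 (c * CL.toC x / M) (d * CL.toC x / M) (g • z : ℍ) =
        et (g 1 1) * Y2.An.jac g z * Th2 0 1 0 ((c * g 0 0 + d * g 1 0 : ℤ) * CL.toC x / M)
          ((c * g 0 1 + d * g 1 1 : ℤ) * CL.toC x / M) z := fun x => by
      rw [coe_smul_eq_mob, law_three zero_le_one (det_SL g) (Dvd.dvd.trans ⟨7, rfl⟩ hC) _ _
        z.im_pos, Y2.An.jac, zero_add, pow_one]
      congr 2 <;> push_cast <;> ring
    rw [h.sec_F (g • z).im_pos, h.sec_F z.im_pos, F0, F0]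
    simp only [e1, mul_left_comm (a _), sm_mul_left, levY]
    linear_combination (Y2.An.jac g z * sm M fun x => a x * Th2 0 1 0
      ((c * g 0 0 + d * g 1 0 : ℤ) * CL.toC x / M) ((c * g 0 1 + d * g 1 1 : ℤ) * CL.toC x / M) z) * e

end Pool.Agent.Lib.MP_696deb_nt.Y3
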