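import Pool.Agent.Lib.MP_696deb_nt.Y3.B2
import Pool.Agent.Lib.MP_696deb_nt.Y3.TH2
import Pool.Agent.Lib.MP_696deb_nt.CX.Glue
import Pool.Agent.Lib.MP_696deb_nt.CQ.Fe
import Pool.Agent.Lib.MP_696deb_nt.EV.Fin

/-! The Euler product of the curve and the series of its character. -/

set_option autoImplicit false

open scoped Classical

namespace Pool.Agent.Lib.MP_696deb_nt.Y3

open CL (O nm om Per)

variable {b d D : ℤ} {n t : ℕ} {φ : O → O} {F L : ℂ → ℂ}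

theorem b3_red {A B u v : ℤ} {k p : ℕ} (hp : p.Prime) (hk : k ≠ 0) (hu : u ≠ 0)
    (e : A * u ^ k = B * v ^ k) (hA : ¬ (p : ℤ) ∣ A) (hB : ¬ (p : ℤ) ^ k ∣ B) : ¬ (p : ℤ) ∣ B ∧
      ∃ u v : ℤ, ¬ (p : ℤ) ∣ u ∧ ¬ (p : ℤ) ∣ v ∧ A * u ^ k = B * v ^ k := by
  obtain ⟨g, u, v, g0, c, rfl, rfl⟩ := Int.exists_gcd_one' (Int.gcd_pos_of_ne_zero_left v hu)
  rw [mul_pow, mul_pow, ← mul_assoc, ← mul_assoc, mul_left_inj' (by positivity)] at e
  have q := Nat.prime_iff_prime_int.1 hp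
  have h1 : ¬ (p : ℤ) ∣ u := fun x => hB
    (((Int.isCoprime_iff_gcd_eq_one.2 c).of_isCoprime_of_dvd_left x).pow.dvd_of_dvd_mul_right
      (e ▸ (pow_dvd_pow_of_dvd x k).mul_left A))
  have h2 : ¬ (p : ℤ) ∣ B * v ^ k := fun x =>
    (q.dvd_or_dvd (e ▸ x)).elim hA fun x => h1 (q.dvd_of_dvd_pow x)
  exact ⟨fun x => h2 (x.mul_right _), u, v, h1, fun x => h2 ((dvd_pow x hk).mul_left _), e⟩

theorem b3_cnt (w : CX.Tw b D (n * t ^ 3)) (r : RelD D d) (h : Red d n) {p : ℕ} (hp : p.Prime)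
    (k : ¬ (p : ℤ) ∣ 6 * b) : ¬ p ∣ n ∧ ¬ (p : ℤ) ∣ d ∧ ∃ j : ℤ, (p % 3 = 1 → j = jacobiSym d p) ∧
      (p : ℤ) - CQ.cnb b p = j * (p - CL.cnt n p) := by
  have := Fact.mk hp
  have q := Nat.prime_iff_prime_int.1 hp
  have k2 : p ≠ 2 := fun e => k (e ▸ Dvd.dvd.mul_right ⟨3, rfl⟩ b)
  have k3 : ¬ (p : ℤ) ∣ -3 * b := fun e => k (e.trans ⟨-2, by ring⟩)
  have D0 := w.D_ne
  have e0 := w.eq
  push_cast at e0
  obtain ⟨n1, u, v, u1, v1, e1⟩ := b3_red (A := (2 * b.natAbs ^ 2 : ℕ)) (B := n) (u := 2 * D ^ 2)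
    (v := 9 * n * t ^ 4) hp three_ne_zero (by positivity) (by
      push_cast
      rw [sq_abs]
      linear_combination (4 * b * D ^ 3 - 27 * (n * t ^ 3 : ℤ) ^ 2) * e0)
    (fun e => k (q.dvd_of_dvd_pow (n := 2) (e.trans ⟨18, by push_cast; rw [sq_abs]; ring⟩)))
    fun e => (h.cf p).not_ge ((hp.pow_dvd_iff_le_factorization h.ne).1 (by exact_mod_cast e))
  have e2 : CL.cnt (2 * b.natAbs ^ 2) p = CL.cnt n p := by
    rw [← CT.fin_cnt hp (mt Int.natCast_dvd.2 u1), ← CT.fin_cnt (a := n) hp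
      (mt Int.natCast_dvd.2 v1)]
    congr 1
    simpa only [Int.natAbs_mul, Int.natAbs_pow, Int.natAbs_natCast] using congrArg Int.natAbs e1
  obtain ⟨s, c, s0, -, e3⟩ := r
  obtain ⟨x, x1, e3⟩ : ∃ x : ℤ, (x = 1 ∨ x = -3) ∧ D * s ^ 2 = x * d * c ^ 2 :=
    e3.elim (fun e => ⟨1, .inl rfl, by rw [e, one_mul]⟩) fun e => ⟨-3, .inr rfl, e⟩
  have x2 : IsCoprime (p : ℤ) x := q.irreducible.coprime_iff_not_dvd.2 fun e => k3
    (e.trans (by rcases x1 with rfl | rfl <;> simp))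
  obtain ⟨d1, u, v, u1, v1, e4⟩ := b3_red (A := -3 * b) (B := x * d) (u := 2 * D ^ 2 * s)
    (v := 9 * n * t ^ 3 * c) hp two_ne_zero (by positivity) (by
      linear_combination -3 * D * s ^ 2 * e0 + 81 * (n * t ^ 3 : ℤ) ^ 2 * e3) k3
    fun e => h.sq hp k2 (x2.pow_left.dvd_of_dvd_mul_left e)
  have e5 := congrArg (jacobiSym · p) e4
  simp only [jacobiSym.mul_left _ (_ ^ 2), CQ.jac_sq hp u1, CQ.jac_sq hp v1, mul_one] at e5
  refine ⟨mt Int.natCast_dvd_natCast.2 n1, fun e => d1 (e.mul_left _), jacobiSym (-3 * b) p,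
    fun e => ?_, e2 ▸ CQ.count_tw k2 (by push_cast; rw [sq_abs]; ring) k3⟩
  rw [e5, jacobiSym.mul_left]
  rcases x1 with rfl | rfl
  · rw [jacobiSym.one_left, one_mul]
  · rw [show (-3 : ℤ) = CQ.qst 3 by decide, CQ.qst_jac (by decide) (hp.odd_of_ne_two k2),
      CQ.jac_three (by omega), if_pos (by omega), one_mul]

theorem b3_sum {a : ℕ → ℤ} (ha : ∀ m, ∑ α ∈ CL.reps m, φ α * α = 6 * (a m : O))
    (hL : IsL (qt d φ) L) {s : ℂ} (hs : 3 / 2 < s.re) :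
    LSeriesHasSum (fun m => (EV.D.kr d m : ℂ) * a m) s (L s / 6) := by
  refine ((hasSum_norm (g := fun α => CL.toC (qt d φ α) * CL.toC α) (F := fun n => 1 / (n : ℂ) ^ s)
    ((hL.2 s hs).congr_fun fun α => mul_one_div _ _)).div_const 6).congr_fun fun m => ?_
  rcases eq_or_ne m 0 with rfl | h0
  · simp [show CL.reps 0 = {0} by decide]
  have k := congrArg CL.toC (ha m)
  rw [map_sum, map_mul, map_ofNat, map_intCast] at k
  rw [LSeries.term_of_ne_zero h0, Finset.sum_congr rfl (g := fun α =>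
    (EV.D.kr d m : ℂ) * CL.toC (φ α * α)) fun α hα => ?_, ← Finset.mul_sum, k, Int.cast_natCast]
  · ring
  · rw [qt, EV.D.kN, EV.nm, CL.mem_reps.1 hα, Int.natAbs_natCast, map_mul, map_mul, map_intCast]
    ring

/-- The two functions differ by a factor that does not vanish at one. -/
theorem exists_E (w : CX.Tw b D (n * t ^ 3)) (r : RelD D d) (h : Red d n) (hφ : EV.Phi n φ)
    (hL : IsL (qt d φ) L) (hF : Differentiable ℂ F) (e : CX.Eul 0 b F) :
    ∃ E : ℂ → ℂ, Differentiable ℂ E ∧ E 1 ≠ 0 ∧ ∀ s, F s = E s * L s := by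
  obtain ⟨a, a1, a2, a3, a4⟩ := hφ.gch.hecke
  have m1 : 2 * (-4 * 0 ^ 3 - 27 * b ^ 2) = 6 * b * (-(9 * b)) := by ring
  have m0 : 2 * (-4 * 0 ^ 3 - 27 * b ^ 2) ≠ 0 := by
    rw [m1]
    simp [w.b_ne]
  have t3 : ∀ p : ℕ, p.Prime → ¬ (p : ℤ) ∣ 3 * n → p % 3 = 1 ∨ p % 3 = 2 := fun p hp k => by
    have : ¬ 3 ∣ p := fun e => k (by
      rw [← (Nat.prime_dvd_prime_iff_eq Nat.prime_three hp).1 e]
      exact dvd_mul_right _ _)
    omega
  have hE : Differentiable ℂ fun s => (∏ p ∈ (2 * (-4 * 0 ^ 3 - 27 * b ^ 2)).natAbs.primeFactors,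
      loc (fun n => (EV.D.kr d n : ℂ)) a (fun p => if (p : ℤ) ∣ 3 * n then 0 else p) p s) / 6 :=
    (Differentiable.fun_finsetProd fun p hp =>
      loc_differentiable _ _ _ (Nat.mem_primeFactors.mp hp).1.ne_zero).div_const _
  refine ⟨_, hE, div_ne_zero (Finset.prod_ne_zero_iff.2 fun p hp => ?_) (by norm_num),
    congrFun ((hF.differentiableOn.analyticOnNhd isOpen_univ).eq_of_eventuallyEq
      ((hE.mul hL.1).differentiableOn.analyticOnNhd isOpen_univ) (z₀ := 2)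
      (((isOpen_lt continuous_const Complex.continuous_re).eventually_mem
        (show (3 : ℝ) / 2 < (2 : ℂ).re by norm_num)).mono fun s hs => ?_))⟩
  · have hp := (Nat.mem_primeFactors.mp hp).1
    have p1 : (1 : ℤ) < p := by exact_mod_cast hp.one_lt
    have j : EV.D.kr d p = 0 ∨ EV.D.kr d p = 1 ∨ EV.D.kr d p = -1 := by
      rw [EV.D.kr]
      split_ifs
      exacts [jacobiSym.trichotomy _ _, jacobiSym.trichotomy _ _, .inl rfl]
    refine loc_one_ne_zero _ _ _ hp.ne_zero (j.imp (fun e => by simp [e]) fun j =>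
      ⟨j.imp (fun e => by simp [e]) fun e => by simp [e], ?_⟩)
    split_ifs with k
    · have e := a2 p
      rw [Finset.sum_eq_zero fun α hα => by
        rw [hφ.gch.zero p hp k α (by rw [CL.mem_reps.1 hα]), zero_mul]] at e
      have e1 : 0 = 6 * a p := by exact_mod_cast e
      rw [show a p = 0 by omega, abs_zero]
      nlinarith
    suffices e : a p ^ 2 ≤ 4 * p by
      have : |a p| < p + 1 := abs_lt_of_sq_lt_sq (by nlinarith) (by positivity)
      nlinarith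
    rcases t3 p hp k with e | e
    · obtain ⟨z, z1, -⟩ := CL.f3_exists hp e
      have e1 := congrArg QuadraticAlgebra.re (a4 p z hp e z1)
      have e2 := CL.f0_im (φ z * z)
      have e3 := hφ.gch.bd z
      rw [CL.nm_mul, z1] at e2
      simp only [QuadraticAlgebra.re_add, QuadraticAlgebra.re_star,
        QuadraticAlgebra.re_intCast, Int.cast_id] at e1
      rw [show a p = 2 * (φ z * z).re - (φ z * z).im by rw [e1]; ring]
      nlinarith [sq_nonneg (φ z * z).im]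
    · rw [a3 p hp e]
      positivity
  have S := b3_sum a2 hL hs
  rw [(e s hs).unique (hasProd_frozen a1 (by rw [h.kr_odd odd_one, jacobiSym.one_right, Int.cast_one])
    (fun _ _ => by rw [h.kr_mul, Int.cast_mul]) S.LSeriesSummable m0
    (fun p => (p : ℂ) - (CQ.cnb b p : ℂ)) fun p hp k => ?_), S.LSeries_eq]
  · ring
  have := Fact.mk hp
  have k0 : ¬ (p : ℤ) ∣ 6 * b := fun e => k (m1 ▸ e.mul_right _)
  obtain ⟨k4, k5, j, j1, j2⟩ := b3_cnt w r h hp k0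
  have k1 : ¬ (p : ℤ) ∣ 3 * n := fun e => ((Nat.prime_iff_prime_int.1 hp).dvd_or_dvd e).elim
    (fun e => k0 ((e.trans ⟨2, rfl⟩).mul_right b)) fun e => k4 (Int.natCast_dvd_natCast.1 e)
  rw [h.kr_odd (hp.odd_of_ne_two fun e => k0 (e ▸ Dvd.dvd.mul_right ⟨3, rfl⟩ b))]
  refine ⟨?_, by rw [← Int.cast_pow, ← jacobiSym.pow_left, CQ.jac_sq hp k5, Int.cast_one], if_neg k1⟩
  suffices e : jacobiSym d p * a p = p - CQ.cnb b p by exact_mod_cast congrArg (Int.cast : ℤ → ℂ) e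
  rw [j2]
  rcases t3 p hp k1 with e | e
  · obtain ⟨z, ρ, χ, hq⟩ := CL.exists_qc e
    have k9 := a4 p z hp e hq.norm
    rw [hφ.qc p z ρ χ hq k4, star_mul', star_star, ← hq.count k4, Int.cast_inj] at k9
    rw [k9, j1 e]
  · rw [a3 p hp e, CL.count_two e, sub_self, mul_zero, mul_zero]

end Pool.Agent.Lib.MP_696deb_nt.Y3
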