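import Pool.Agent.Lib.MP_696deb_nt.Y3.B1
import Pool.Agent.Lib.MP_696deb_nt.CR.Wq

/-! Root numbers of the reduced pairs. -/

set_option autoImplicit false

open scoped Classical

namespace Pool.Agent.Lib.MP_696deb_nt.Y3

open CQ (Wq)

variable {d d1 D : ℤ} {n n1 t : ℕ}

theorem b5_mem {q : ℕ} (h : n.factorization q % 3 ≠ 0) : q ∈ n.primeFactors := by
  rw [← Nat.support_factorization, Finsupp.mem_support_iff]
  omega

theorem b5_set {m : ℕ} {D D' : ℤ}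
    (h : ∀ q : ℕ, q % 3 = 2 → (m.factorization q % 3 = 0 ↔ n.factorization q % 3 = 0) ∧
      (CQ.Unr D' q ↔ CQ.Unr D q)) :
    (m.primeFactors.filter fun q => q % 3 = 2 ∧ m.factorization q % 3 ≠ 0 ∧ CQ.Unr D' q) =
      n.primeFactors.filter fun q => q % 3 = 2 ∧ n.factorization q % 3 ≠ 0 ∧ CQ.Unr D q := by
  ext q
  simp only [Finset.mem_filter]
  exact ⟨fun ⟨_, a, b, c⟩ => ⟨b5_mem (mt (h q a).1.2 b), a, mt (h q a).1.2 b, (h q a).2.1 c⟩,
    fun ⟨_, a, b, c⟩ => ⟨b5_mem (mt (h q a).1.1 b), a, mt (h q a).1.1 b, (h q a).2.2 c⟩⟩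

theorem b5_nine {u : ℕ} (h : ¬ 3 ∣ u) :
    u % 9 = 1 ∨ u % 9 = 2 ∨ u % 9 = 4 ∨ u % 9 = 5 ∨ u % 9 = 7 ∨ u % 9 = 8 := by omega

theorem wq_cube (hn : n ≠ 0) (ht : t ≠ 0) (D : ℤ) : Wq D (n * t ^ 3) ↔ Wq D n := by
  have e : ∀ q, (n * t ^ 3).factorization q % 3 = n.factorization q % 3 := fun q => by
    rw [Nat.factorization_mul hn (pow_ne_zero _ ht), Nat.factorization_pow]
    exact Nat.add_mul_mod_self_left _ _ _
  have k : CQ.W3 D (n * t ^ 3) ↔ CQ.W3 D n := by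
    rw [CQ.W3, CQ.W3, e, Nat.ordCompl_mul, pow_three, Nat.ordCompl_mul, Nat.ordCompl_mul,
      Nat.mul_mod, Nat.mul_mod (t / _), Nat.mul_mod (t / _) (t / _)]
    rcases b5_nine (Nat.not_dvd_ordCompl Nat.prime_three hn) with a | a | a | a | a | a <;>
      rcases b5_nine (Nat.not_dvd_ordCompl Nat.prime_three ht) with b | b | b | b | b | b <;>
      simp [a, b]
  rw [CQ.Wq, CQ.Wq, k, b5_set (n := n) (D := D) fun q _ => ⟨by rw [e], .rfl⟩]

theorem RelD.wq (h : RelD D d) (hD : D ≠ 0) (n : ℕ) : Wq D n ↔ Wq d n := by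
  obtain ⟨s, c, s0, c0, h⟩ := h
  have d0 : d ≠ 0 := by
    rintro rfl
    exact mul_ne_zero hD (pow_ne_zero 2 s0) (by simpa using h)
  obtain ⟨x, hx⟩ := CL.exists_rel hD
  obtain ⟨y, hy⟩ := CL.exists_rel d0
  have k1 : CL.Rel (D * s ^ 2) x := by
    obtain ⟨a, a0, e⟩ := hx.eq
    exact ⟨hx.sf, hx.three, a * s, mul_ne_zero a0 s0,
      e.imp (fun e => by rw [e]; ring) fun e => by rw [e]; ring⟩
  have k2 : CL.Rel (D * s ^ 2) y := by
    obtain ⟨a, a0, e⟩ := hy.eq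
    have ac := mul_ne_zero a0 c0
    refine ⟨hy.sf, hy.three, ?_⟩
    rcases h with h | h <;> rcases e with e | e <;> rw [h, e]
    exacts [⟨a * c, ac, .inl (by ring)⟩, ⟨a * c, ac, .inr (by ring)⟩, ⟨a * c, ac, .inr (by ring)⟩,
      ⟨3 * (a * c), mul_ne_zero three_ne_zero ac, .inl (by ring)⟩]
  rw [hx.wq, hy.wq, ← k1.wq, k2.wq]

theorem wq_flip (hD : D ≠ 0) (hn : n ≠ 0) : Wq (-7 * D) (49 * n ^ 2) ↔ ¬ Wq D n := by
  have p7 : Nat.Prime 7 := by norm_num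
  have e : ∀ q, q ≠ 7 → (49 * n ^ 2).factorization q = 2 * n.factorization q := fun q h => by
    rw [Nat.factorization_mul (by norm_num) (pow_ne_zero _ hn), Nat.factorization_pow,
      show 49 = 7 ^ 2 from rfl, p7.factorization_pow, Finsupp.add_apply, Finsupp.single_eq_of_ne h,
      zero_add]
    rfl
  have f : ∀ q, q ≠ 7 → (-7 * D).natAbs.factorization q = D.natAbs.factorization q := fun q h => by
    rw [Int.natAbs_mul, Nat.factorization_mul (by norm_num) (Int.natAbs_ne_zero.2 hD),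
      show (-7 : ℤ).natAbs = 7 from rfl, p7.factorization, Finsupp.add_apply,
      Finsupp.single_eq_of_ne h, zero_add]
  obtain ⟨g1, g2⟩ := CQ.d3_spec hD
  have g : CQ.d3 (-7 * D) = -7 * CQ.d3 D := by
    rw [CQ.d3, f 3 (by norm_num)]
    exact Int.ediv_eq_of_eq_mul_right (by positivity) (by linear_combination -7 * g1)
  have u : ∀ q : ℕ, q % 3 = 2 → (CQ.Unr (-7 * D) q ↔ CQ.Unr D q) := fun q h => by
    have k := (CQ.int_part Nat.prime_two (CQ.d3_ne hD)).1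
    rw [CQ.d3_fac hD (by norm_num), Nat.cast_ofNat] at k
    rw [CQ.Unr, CQ.Unr, f q (by omega), f 2 (by norm_num), g, Int.mul_ediv_assoc _ ⟨_, k⟩]
    exact and_congr_right fun _ => imp_congr_right fun _ => by omega
  have k : CQ.W3 (-7 * D) (49 * n ^ 2) ↔ CQ.W3 D n := by
    rw [CQ.W3, CQ.W3, Nat.ordCompl_mul, pow_two, Nat.ordCompl_mul, ← pow_two n, e 3 (by norm_num),
      g, Nat.factorization_eq_zero_of_not_dvd (n := 49) (by norm_num), Nat.mul_mod 2,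
      Nat.mul_mod (49 / _), Nat.mul_mod (n / _)]
    rcases (by omega : CQ.d3 D % 3 = 1 ∧ ¬ -7 * CQ.d3 D % 3 = 1 ∨
      ¬ CQ.d3 D % 3 = 1 ∧ -7 * CQ.d3 D % 3 = 1) with ⟨c, c'⟩ | ⟨c, c'⟩ <;>
      simp only [c, c', if_true, if_false] <;>
      rcases b5_nine (Nat.not_dvd_ordCompl Nat.prime_three hn) with a | a | a | a | a | a <;>
      rcases (by omega : n.factorization 3 % 3 = 0 ∨ n.factorization 3 % 3 = 1 ∨
        n.factorization 3 % 3 = 2) with b | b | b <;> simp [a, b]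
  have s : 0 < -7 * CQ.d3 D ↔ ¬ 0 < CQ.d3 D := by omega
  rw [CQ.Wq, CQ.Wq, k, g, s, b5_set (n := n) fun q h => ⟨by rw [e q (by omega)]; omega, u q h⟩]
  tauto

/-- The companion has the opposite root number. -/
theorem Cmp.wq (h : Cmp d n d1 n1) : Wq d1 n1 ↔ ¬ Wq d n := by
  obtain ⟨t, e⟩ := h.cb
  have t0 : t ≠ 0 := fun k => by
    rw [k] at e
    exact h.red.ne (by simpa using e)
  rw [← wq_flip h.red.d_ne h.red.ne, ← e, wq_cube h.red1.ne t0,
    h.rel.wq (mul_ne_zero (by norm_num) h.red.d_ne)]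

end Pool.Agent.Lib.MP_696deb_nt.Y3
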