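import Pool.Agent.Lib.MP_696deb_nt.EV.T0
import Pool.Agent.Lib.MP_696deb_nt.EV.C6
import Pool.Agent.Lib.MP_696deb_nt.Y3.K0x

/-! The first derivative of the tame series and special primes. -/

set_option autoImplicit false

open scoped Classical NNReal
open Finset PowerSeries

namespace Pool.Agent.Lib.MP_696deb_nt.EV

/-- The first derivative of the series of central values in the direction of a prime. -/
noncomputable def kur (φ : O → O) (m b : O) {r : TP} {u : ℕ} (x : Ix r u) : Qbar :=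
  ∑ P ∈ Im (m * r.π), io (star (φ (co (m * r.π) P))) * ((x.ind (co (m * r.π) P)).val : Qbar) * dl b P

/-- Admissible primes. -/
structure AdmR (φ : O → O) (r : TP) (u : ℕ) : Prop where
  split : nm r.π = r.v.p
  one : (3 : O) ^ u ∣ φ r.π * r.π - 1
  seven : ¬ (7 : ℤ) ∣ r.π.im

/-- The finite part of a self-dual Hecke character modulo `m`. -/
structure Hk (m : O) (φ : O → O) : Prop where
  ne : m ≠ 0
  three : 3 ∣ m
  per : ∀ a b, m ∣ a - b → φ a = φ b
  mul : ∀ a b, φ (a * b) = φ a * φ b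
  unit : φ om * om = 1
  neg : φ (-1) = -1
  conj : ∀ a, φ (star a) = star (φ a)
  zero : ∀ a, ¬ IsCoprime a m → φ a = 0

/-- The first derivatives have bounded valuation along a sequence of admissible primes. -/
def Kur (φ : O → O) : Prop := ∃ (m b : O) (a : ℕ), Hk m φ ∧ Prime b ∧ ¬ b ∣ m ∧ ∀ v, ∃ u ≥ v,
  ∃ (r : TP) (x : Ix r u), AdmR φ r u ∧ w3.V (3 ^ a) ≤ w3.V (kur φ m b x)

/-- The vanishing of the sums of logarithmic derivatives. -/
def Hz (M : ℕ) (φ : O → O) : Prop := ∀ m : ℕ, 0 < m → M ∣ m → ∀ (b d : O) (R : Finset O),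
  IsCoprime b m → IsCoprime d m → EW.IsRep m R →
    ∑ a ∈ R with Prim a, io (star (φ a)) * dl b (a • tq d m) = 0

/-- The derivatives tend to zero. -/
def Cb.Small (c : Cb) : Prop := ∀ e a : ℕ, ∃ v, ∀ u ≥ v, ∀ (r : TP) (x : Ix r u),
  AdmR c.φ r u → w3.V (kur c.φ (c.m0 e) (c.α true).π x) < w3.V (3 ^ a)

/-- Special stages. -/
def Cx.Sp (c : Cx) (s : c.Stg 1) : Prop := ∀ k, ∃ r : DP (k + 1), s.J k = {r} ∧ r.t = s.t k none ∧
  r.x.ind w = 0 ∧ AdmR c.φ r.t (k + 1)

theorem Ix.ig_Hw {t : TP} {s : ℕ} (x : Ix t s) (h : x.ind w = 0) : ∀ g ∈ Hw, x.ig g = 0 :=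
  k0_ig x h

end Pool.Agent.Lib.MP_696deb_nt.EV
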