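import Pool.Agent.Lib.MP_696deb_nt.Y3.K0
import Pool.Agent.Lib.MP_696deb_nt.EV.T5
import Pool.Agent.Lib.MP_696deb_nt.EV.C8

/-! Special primes exist. -/

set_option autoImplicit false

open scoped Classical NNReal
open Finset PowerSeries

namespace Pool.Agent.Lib.MP_696deb_nt.EV

theorem ks_root {v : Plc} (hv : v.p ≠ 3) {g : Gam} (hg : g ∈ G) {e : ℕ} {a : O}
    (ha : v.V (io a) = 1) (h : v.V (rt3 e (io a)) = 1 → v.V (g (rt3 e (io a)) - rt3 e (io a)) < 1) :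
    g (rt3 e (io a)) = rt3 e (io a) := by
  have h1 := rt3_pow e (io a)
  generalize rt3 e (io a) = y at h h1 ⊢
  have h2 : v.V y = 1 := (pow_eq_one_iff_of_nonneg zero_le (pow_ne_zero e three_ne_zero)).1 (by
    rw [← map_pow, h1, ha])
  have h0 : y ≠ 0 := fun k => by simp [k] at h2
  refine (div_eq_one_iff_eq h0).1 (root_eq (e := e) hv ?_ (one_pow _) ?_)
  · rw [div_pow, ← map_pow, h1, io_fx a g hg, div_self fun k => by simp [k] at ha]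
  · rw [div_sub_one h0, map_div₀, h2, div_one]
    exact h h2

theorem ks_ine {v : Plc} (hv : v.p ≠ 3) {g : Gam} (hg : g ∈ Ine v) (e : ℕ) {a : O}
    (ha : v.V (io a) = 1) : g (rt3 e (io a)) = rt3 e (io a) :=
  ks_root hv (ine_le hv hg) ha fun h => hg.2 _ h.le

/-- A prime above seven. -/
def ka : O := ⟨1, 3⟩

theorem ka_prime : Prime ka ∧ Prime (star ka) :=
  ⟨CL.f3_prime (by norm_num : Nat.Prime 7) rfl (by decide),
    CL.f3_prime (by norm_num : Nat.Prime 7) rfl (by decide)⟩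

theorem ka_prim : Prim ka ∧ Prim (star ka) := ⟨⟨by decide, by decide⟩, by decide, by decide⟩

theorem ka_dvd : ka ∣ 7 ∧ star ka ∣ 7 := ⟨⟨star ka, by decide⟩, ⟨ka, by decide⟩⟩

theorem ks_cube (t : TP) {π : O} (h1 : Prime π) (h2 : Prim π) (h : ¬ t.π ∣ π) :
    t.φ (rt3 1 (io π)) = rt3 1 (io π) ↔ ∃ b, π ∣ t.π - b ^ 3 := by
  obtain ⟨s, rfl⟩ := exists_tp h1 h2
  rw [← chC_zero t.φ_mem (rt3_pow 1 _), cm2 s t.φ_mem]
  have k := cm_frob t h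
  exact exists_congr fun b => ⟨fun e => by simpa using dvd_sub e k, fun e => by
    simpa using dvd_add k e⟩

theorem ks_seven (t : TP) (h : ¬ t.π ∣ 7) (h1 : t.φ (rt3 1 (io ka)) ≠ rt3 1 (io ka))
    (h2 : t.φ (rt3 1 (io (star ka))) = rt3 1 (io (star ka))) : ¬ (7 : ℤ) ∣ t.π.im := by
  rintro ⟨j, e⟩
  obtain ⟨b, c, hb⟩ := (ks_cube t ka_prime.2 ka_prim.2 fun k => h (k.trans ka_dvd.2)).1 h2
  refine h1 ((ks_cube t ka_prime.1 ka_prim.1 fun k => h (k.trans ka_dvd.1)).2 ⟨star b, ?_⟩)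
  have k1 := congrArg star hb
  rw [star_sub, star_pow, star_mul', star_star] at k1
  have k2 : t.π - star t.π = 7 * ⟨j, 2 * j⟩ := by
    rw [show (7 : O) = ⟨7, 0⟩ by decide]
    ext <;> simp [e]
    ring
  rw [← sub_add_sub_cancel _ (star t.π), k1, k2]
  exact dvd_add (ka_dvd.1.mul_right _) (dvd_mul_right _ _)

theorem ks_odd {U : Subgroup Gam} (hU : Nice U) {y : Qbar} (h : ∀ u ∈ U, u y = y) {x : Gam}
    (hx : x ∈ G) {a : ℕ} (ha : ¬ 3 ∣ a) (k : (x ^ a) y = y) : x y = y := by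
  obtain ⟨n, hn⟩ := hU.three x hx
  have h1 : x ^ a ∈ MulAction.stabilizer Gam y := k
  have h2 : x ^ 3 ^ n ∈ MulAction.stabilizer Gam y := h _ hn
  have h3 := mul_mem (zpow_mem h1 (a.gcdA (3 ^ n))) (zpow_mem h2 (a.gcdB (3 ^ n)))
  rwa [← zpow_natCast, ← zpow_natCast, ← zpow_mul, ← zpow_mul, ← zpow_add, ← Nat.gcd_eq_gcd_ab,
    (Nat.prime_three.coprime_iff_not_dvd.2 ha).symm.pow_right n, Nat.cast_one, zpow_one] at h3

theorem ks_pow (t : Tw) {g : Gam} (hg : g ∈ G) (b : ℕ) : rho0 t (g ^ b) = rho0 t g ^ b := by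
  induction b with
  | zero => rw [pow_zero, pow_zero, rho0_one]
  | succ b ih => rw [pow_succ, rho0_mul t (pow_mem hg b) hg, ih, pow_succ]

theorem ks_three {u : ZMod 3} {j : Ow} (hj : j = oW om ∨ j = oW (om ^ 2)) :
    ∃ b : ℕ, oW (un u) * j ^ b = 1 := by
  have k : ∀ u : ZMod 3, (∃ b : Fin 3, un u * om ^ b.val = 1) ∧
      ∃ b : Fin 3, un u * (om ^ 2) ^ b.val = 1 := by decide
  rcases hj with rfl | rfl
  · exact (k u).1.elim fun b e => ⟨b, by rw [← map_pow, ← map_mul, e, map_one]⟩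
  · exact (k u).2.elim fun b e => ⟨b, by rw [← map_pow, ← map_mul, e, map_one]⟩

namespace Cx

variable (c : Cx)

theorem exists_y (h5 : ¬ (c.tp c.i0).π ∣ 7) : ∃ y ∈ G, y (rt3 1 (io ka)) ≠ rt3 1 (io ka) ∧
    y (rt3 1 (io (star ka))) = rt3 1 (io (star ka)) ∧
    ∀ k, y (rt3 (k + 1) (io w)) = rt3 (k + 1) (io w) ∧ ∀ s : c.Stg 0, s.InN k y := by
  obtain ⟨t, ht⟩ := exists_tp ka_prime.1 ka_prim.1
  obtain ⟨b, hb⟩ := ks_three (u := kk c.t.N t.σ) (j := rho0 c.t c.g0) (c.sig c.i0)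
  have o := (c.tp c.i0).odd
  have h3 : c.g0 ^ b ∈ Ine (c.tp c.i0).v := pow_mem (c.tp c.i0).σ_ine b
  have h4 := ine_le o h3
  rw [← mul_one (oW _), ← psi_ine t.odd t.σ_ine, ← rho0, ← ks_pow _ c.g0_mem,
    ← rho0_mul _ t.σ_mem h4] at hb
  rw [psi_ine t.odd t.σ_ine] at hb
  refine ⟨t.σ * c.g0 ^ b, mul_mem t.σ_mem h4, fun e => ?_, ?_, fun k => ⟨?_, fun s =>
    ⟨fun j => ?_, ?_, by simp [s.J0], by simp [s.J0]⟩⟩⟩
  · rw [AlgEquiv.mul_apply, ks_ine o h3 1 ((c.tp c.i0).V_eq.2 fun k => h5 (k.trans ka_dvd.1)),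
      ← ht] at e
    exact chC_sigma t ((chC_zero t.σ_mem (rt3_pow 1 _)).2 e)
  · rw [AlgEquiv.mul_apply, ks_ine o h3 1 ((c.tp c.i0).V_eq.2 fun k => h5 (k.trans ka_dvd.2)),
      ks_ine t.odd t.σ_ine 1 (t.V_eq.2 fun k => absurd (prim_assoc t.prim ka_prim.2
        (t.prime.associated_of_dvd ka_prime.2 k)) (by rw [ht]; decide))]
  · rw [AlgEquiv.mul_apply, ks_ine o h3 _ (p1_V_w o), ks_ine t.odd t.σ_ine _ (p1_V_w t.odd)]
  · have h6 : (c.lv k).lam.π ≠ t.π := fun e => by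
      have h7 := (pow_dvd_pow 3 (show 2 ≤ _ + 1 from Nat.add_le_add_right (c.lv k).x.pos 1)).trans
        (c.lv k).x.dvd
      rw [e, ht] at h7
      exact absurd h7 (by decide)
    rw [c.ρ_of_ig j (by
      rw [(c.lv k).x.hom_ig _ t.σ_mem _ h4, (c.lv k).x.ig_ine t.odd (t5_V h6) t.σ_ine,
        (c.lv k).x.ig_ine o (t5_V (c.t1b_ne k c.i0).symm) h3, add_zero])]
    cases j <;> simp [Cb.r0, hb]
  · rw [cy, H3.cyc_mul, t.cyc_σ, H3.cyc_ine o h3, one_mul, map_one]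

variable {c}

theorem Stg.exists_dp1 (s : c.Stg 0) (k : ℕ) {x : Gam} (hx : x ∈ G) (h : s.InN k x)
    (h1 : x (rt3 1 (io ka)) ≠ rt3 1 (io ka))
    (h1' : x (rt3 1 (io (star ka))) = rt3 1 (io (star ka))) (h2 : x (rt3 (k + 1) (io w)) = rt3 (k + 1) (io w))
    {U : Subgroup Gam} (hU : Nice U) : ∃ (r : DP (k + 1)) (a : ℕ) (φ : Gam), ¬ 3 ∣ a ∧ φ ∈ G ∧
      φ⁻¹ * x ^ a ∈ U ∧ φ⁻¹ * r.t.φ ∈ Ine r.t.v ∧ (∀ i, (s.t k i).π ≠ r.t.π) ∧
      (∀ b, Good (c.m k) (c.α b).π (md (aa k) (c.θ k)) c.g0 (insert r (s.J k))) ∧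
      r.x.ind w = 0 ∧ AdmR c.φ r.t (k + 1) := by
  obtain ⟨V, hV, hV'⟩ := s.nice k
  obtain ⟨V1, v1, v1'⟩ := nice_root (k + 1) (io_fx w)
  obtain ⟨V2, v2, v2'⟩ := nice_root 1 (io_fx ka)
  obtain ⟨V3, v3, v3'⟩ := nice_root 1 (io_fx (star ka))
  obtain ⟨t, a, ha, hB, hn, hm, m1, m2, m3⟩ := cheb ((hU.inf hV).inf (v1.inf (v2.inf v3))) hx
    (insert 7
    ((univ.image fun i => (s.t k i).v.p) ∪ univ.image fun b => (c.α b).v.p))
  obtain ⟨hB5, hB⟩ := not_or.1 (mt mem_insert.2 hB)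
  have e1 : ∀ i, (s.t k i).π ≠ t.π := fun i => t5_ne fun e =>
    hB (mem_union_left _ (mem_image.2 ⟨i, mem_univ _, e⟩))
  have e2 : ∀ b, (c.α b).π ≠ t.π := fun b => t5_ne fun e =>
    hB (mem_union_right _ (mem_image.2 ⟨b, mem_univ _, e⟩))
  have h3 : ∀ i, (c.t0 k i).π ≠ t.π := fun i => s.base k i ▸ e1 _
  have hJ := s.t5_J e1
  have hφ : s.InN k t.φ := by
    have := (Stg.t5_pow hx h a).mul ((hV' _ hm.2).inv (hV.le hm.2)) (pow_mem hx a)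
      (inv_mem (hV.le hm.2))
    rwa [mul_inv_rev, inv_inv, mul_inv_cancel_left] at this
  have hq : 3 ^ (k + 1 + 1) ∣ nm t.π - 1 := by
    have h4 : 1 ≤ nm t.π := by have := t.nm_mod; omega
    have h5 := hφ.cy
    rw [cy, t.cyc_φ, map_natCast] at h5
    rw [← ZMod.natCast_eq_zero_iff, Nat.cast_sub h4, Nat.cast_one]
    exact sub_eq_zero.2 h5
  obtain ⟨y⟩ := exists_ix t k.succ_pos hq
  have hσ : t.σ ^ (-y.ig t.φ).val ∈ Ine t.v := pow_mem t.σ_ine _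
  have hσ' := ine_le t.odd hσ
  have hN : ¬ t.π ∣ (c.t.N : O) := fun e => by
    rcases c.all _ t.prime e with e | ⟨i, e⟩
    · exact t.V_eq.1 (p1_V_w t.odd) e
    · exact t.not_dvd _ (h3 (some i)).symm e
  have n5 : ¬ t.π ∣ 7 := fun e =>
    hB5 ((Nat.prime_dvd_prime_iff_eq t.v.prime (by norm_num)).1 (c8_dvd (n := 7) t e))
  have fix {z : Qbar} (e : (t.φ⁻¹ * x ^ a) z = z) : (x ^ a) z = t.φ z := by
    rw [← congrArg t.φ e, ← AlgEquiv.mul_apply, mul_inv_cancel_left]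
  refine ⟨⟨t.adj _ hσ, y.adj _ hσ⟩, a, t.φ, ha, t.φ_mem, hm.1, ?_, e1, fun b => ?_, ?_,
    hn, ?_, ?_⟩
  · change t.φ⁻¹ * (t.φ * _) ∈ _
    rwa [inv_mul_cancel_left]
  rotate_left
  · have h4 : ¬ t.π ∣ w := t.V_eq.1 (p1_V_w t.odd)
    obtain ⟨z, hz⟩ := pow_of_fix t hn h4 ((fix (v1' _ m1)).symm.trans
      ((MulAction.stabilizer Gam _).pow_mem h2 a))
    have h5 : ¬ t.π ∣ z := fun e => h4 (by
      simpa using dvd_add hz (dvd_pow e (pow_pos three_pos (k + 1)).ne'))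
    change y.ind w = 0
    rw [y.per _ _ hz, y.pow h5, ZMod.natCast_self, zero_mul]
  · have h4 := mem_aa.1 (hφ.ρ true) 0 k.zero_le
    have h5 : ¬ t.π ∣ c.m0 0 := c.nd_m0 0 t hN
    rw [coeff_zero_eq_constantCoeff_apply, map_sub, map_one, c.ρ_const, Cb.r0, rho0, psi_frob,
      ← c.phi.link c.t (c.m0_ne 0) (c.dvd_m0 0).2.1 t.φ_mem,
      c.phi.per' (c.dvd_m0 0).2.1 (cm_frob t h5), ← map_mul, ← map_one oW, ← map_sub] at h4
    exact dvd_oW.1 h4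
  · exact ks_seven t n5 (fun e => h1 (ks_odd v2 v2' hx ha ((fix (v2' _ m2)).trans e)))
      ((fix (v3' _ m3)).symm.trans ((MulAction.stabilizer Gam _).pow_mem h1' a))
  have g := s.good k b
  refine ⟨g.mem, g.cy0, forall_mem_insert .. |>.2 ⟨fun e => ?_, g.nd⟩,
    forall_mem_insert .. |>.2 ⟨?_, g.cop⟩, forall_mem_insert .. |>.2 ⟨?_, g.th⟩,
    forall_mem_insert .. |>.2 ⟨?_, g.ig0⟩,
    forall_mem_insert .. |>.2 ⟨forall_mem_insert .. |>.2 ⟨t5_adj y, fun r hr => ?_⟩,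
      fun r hr => forall_mem_insert .. |>.2 ⟨?_, g.ig r hr⟩⟩,
    forall_mem_insert .. |>.2 ⟨forall_mem_insert .. |>.2 ⟨fun _ => rfl,
      fun r hr e => absurd e.symm (hJ r hr)⟩, fun r hr => forall_mem_insert .. |>.2
        ⟨fun e => absurd e (hJ r hr), g.inj r hr⟩⟩⟩
  · exact (t.prime.dvd_or_dvd e).elim (c.nd_m0 _ t hN) (t.not_dvd _ (h3 none).symm)
  · exact t.prime.coprime_iff_not_dvd.2 (t.not_dvd _ (e2 b).symm)
  · have e := c.cy_θ (k := k) (fa k) (mul_mem t.φ_mem hσ')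
    rw [show cy (k + 1) (t.φ * _) = 1 from k2_cy ⟨t.adj _ hσ, y.adj _ hσ⟩, map_one, one_mul,
      (c.chr true k).mul _ t.φ_mem _ hσ', md, md, md, c.ρ_ine true (t5_off h3) hσ, ← map_mul, mul_one,
      Ideal.Quotient.eq.2 (hφ.ρ true), map_one] at e
    exact e
  · exact y.ig_ine (c.tp c.i0).odd (t5_V (h3 (some c.i0)).symm) (c.tp c.i0).σ_ine
  · change r.x.ig (t.φ * _) = 0
    rw [r.x.hom_ig _ t.φ_mem _ hσ', hφ.ig r hr, r.x.ig_ine t.odd (t5_V (hJ r hr)) hσ, add_zero]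
  · have h4 := t.not_dvd _ (hJ r hr).symm
    obtain ⟨z, hz⟩ := pow_of_fix t hn h4 (hφ.rt r hr)
    have h5 : ¬ t.π ∣ z := fun e => h4 (by
      simpa using dvd_add hz (dvd_pow e (pow_pos three_pos (k + 1)).ne'))
    change y.ig r.t.φ = 0
    rw [y.ig_frob _ (hJ r hr), y.per _ _ hz, y.pow h5, ZMod.natCast_self, zero_mul]

theorem Stg.ks_ex {n : ℕ} (s : c.Stg n) (r : ∀ k, DP (k + 1)) (h1 : ∀ k i, (s.t k i).π ≠ (r k).t.π)
    (h2 : ∀ k b, Good (c.m k) (c.α b).π (md (aa k) (c.θ k)) c.g0 (insert (r k) (s.J k))) :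
    ∃ s' : c.Stg (n + 1), s.Ex s' ∧
      ∀ k, s'.t k none = (r k).t ∧ s'.J k = insert (r k) (s.J k) := by
  let t : ℕ → Option (Jx c.κ n) → TP := fun k o => o.elim (r k).t (s.t k)
  choose L hL hL' using fun b k =>
    (s.val b k).ext (c.chr b k) (s.adm b k).unr (t' := t k) fun _ => rfl
  let M : Bool → ℕ → Gam → Option (Jx c.κ n) ⊕ Fin 2 → La := fun b k g =>
    Sum.elim (fun o => o.elim (Quotient.out (L b k g (.inl none))) fun i => s.L b k g (.inl i))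
      fun i => s.L b k g (.inr i)
  have hM (b : Bool) (k : ℕ) : mdL (aa k) (M b k) = L b k := by
    funext g j
    rcases j with (_ | i) | i
    exacts [Ideal.Quotient.mk_out _, (hL' b k g (.inl i)).symm, (hL' b k g (.inr i)).symm]
  refine ⟨⟨t, fun k => insert (r k) (s.J k), M, s.base, fun k i hi => ?_, fun k r' hr => ?_,
    fun k i j e => ?_, h2, fun b k => hM b k ▸ hL b k⟩, ⟨fun _ _ => rfl, fun k g j => ?_,
      fun k => ⟨r k, fun h => s.t5_J (h1 k) _ h rfl, rfl, rfl⟩⟩, fun _ => ⟨rfl, rfl⟩⟩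
  · rcases i with _ | i
    · exact ⟨r k, mem_insert_self _ _, rfl⟩
    · exact (s.toJ k i hi).imp fun _ h => ⟨mem_insert_of_mem h.1, h.2⟩
  · rcases mem_insert.1 hr with rfl | hr
    · exact ⟨none, trivial, rfl⟩
    · obtain ⟨i, h⟩ := s.ofJ k r' hr
      exact ⟨some i, h⟩
  · rcases i with _ | i <;> rcases j with _ | j
    exacts [rfl, absurd e.symm (h1 k j), absurd e (h1 k i), congrArg some (s.inj k i j e)]
  · rcases j with i | i <;> rfl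

variable (c)

theorem ok_step1 (h5 : ¬ (c.tp c.i0).π ∣ 7) : ∃ (N : Subgroup GG) (y : GG),
    N ≤ c.dat.N c.dat.s0 ∧ y ∈ c.dat.N c.dat.s0 ∧ (∀ g, cmt c.dat.g0 (cmt c.dat.g0 g) ∈ N) ∧
    ∀ x ∈ N, ∀ (m : ℕ) (f : Fin m → GG → La) (b : Fin m → Bool) (J : Fin m → Ideal La),
    (∀ i, Pr (J i) ∧ f i ∈ c.dat.Z c.dat.s0 (b i) (J i)) →
    ∃ (s : c.dat.St 1) (t : La), c.dat.Ext c.dat.s0 s ∧ c.Sp s ∧ IsUnit t ∧
      ∀ i, f i (c.dat.φ s none) - t * f i (y * x) ∈ J i := by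
  obtain ⟨y, y0, y1, y1', y2⟩ := c.exists_y h5
  let N : Subgroup GG := c.dat.N c.dat.s0 ⊓ ⨅ k, (MulAction.stabilizer Gam (rt3 (k + 1) (io w)) ⊓
    (MulAction.stabilizer Gam (rt3 1 (io ka)) ⊓
      MulAction.stabilizer Gam (rt3 1 (io (star ka))))).comap (G.subtype.comp (Pi.evalMonoidHom _ k))
  refine ⟨N, fun _ => ⟨y, y0⟩, inf_le_left, fun k => (y2 k).2 _, fun g =>
    ⟨fun k => Stg.inN_cmt _ k (g k).2, Subgroup.mem_iInf.2 fun k =>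
      ⟨comm_root _ (io_fx w) c.g0_mem (g k).2 c.cyc_g0,
        comm_root _ (io_fx _) c.g0_mem (g k).2 c.cyc_g0,
        comm_root _ (io_fx _) c.g0_mem (g k).2 c.cyc_g0⟩⟩, fun x0 hx0 m f b J hf => ?_⟩
  have x3 := Subgroup.mem_iInf.1 hx0.2
  obtain ⟨x, ex⟩ : ∃ x : GG, x = (fun _ => ⟨y, y0⟩) * x0 := ⟨_, rfl⟩
  have x4 (k : ℕ) : (x k : Gam) = y * x0 k := ex ▸ rfl
  have x1 (k : ℕ) : (x k : Gam) (rt3 1 (io ka)) ≠ rt3 1 (io ka) := by
    rwa [x4, AlgEquiv.mul_apply, show (x0 k : Gam) _ = _ from (x3 k).2.1]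
  have x1' (k : ℕ) : (x k : Gam) (rt3 1 (io (star ka))) = rt3 1 (io (star ka)) := by
    rwa [x4, AlgEquiv.mul_apply, show (x0 k : Gam) _ = _ from (x3 k).2.2]
  have x2 (k : ℕ) : (x k : Gam) (rt3 (k + 1) (io w)) = rt3 (k + 1) (io w) := by
    rw [x4, AlgEquiv.mul_apply, show (x0 k : Gam) _ = _ from (x3 k).1, (y2 k).1]
  rw [← ex]
  let s : c.Stg 0 := c.dat.s0
  have hx (k : ℕ) : s.InN k (x k) := x4 k ▸ ((y2 k).2 s).mul (hx0.1 k) y0 (x0 k).2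
  choose z hz e using fun i => (hf i).2
  obtain ⟨jj, j1, j2, j3⟩ := diag fun j => Filter.eventually_all.2 fun i => hz i j
  have hU (k : ℕ) : ∃ U, Nice U ∧ ∀ u ∈ U, ∀ i,
      Zc G (md (J i ⊔ aa (jj k)) (c.ρ (b i) k)) (md (J i ⊔ aa (jj k)) (z i k)) →
        md (J i ⊔ aa (jj k)) (z i k) u = 0 := nice_fin fun i => by
    by_cases h : Zc G (md (J i ⊔ aa (jj k)) (c.ρ (b i) k)) (md (J i ⊔ aa (jj k)) (z i k))
    · have := (hf i).1.lo2 (jj k)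
      obtain ⟨p, hp⟩ := Lo2.kill (La ⧸ (J i ⊔ aa (jj k)))
      obtain ⟨U, h1, h2⟩ := nice_coc (hp _)
        (((c.chr (b i) k).fac (aa_le_sup (j1 k) _)).act le_rfl) (zc_iff.1 h)
      exact ⟨U, h1, fun u hu _ => (h2 u hu).1⟩
    · exact ⟨G, nice_G, fun _ _ h' => absurd h' h⟩
  choose U hU hU' using hU
  choose r a φ a1 a2 a3 a4 a5 a6 a7 using
    fun k => Stg.exists_dp1 s k (x k).2 (hx k) (x1 k) (x1' k) (x2 k) (hU k)
  obtain ⟨s', h1, h2⟩ := Stg.ks_ex s r a5 a6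
  refine ⟨s', ul fun k => (a k : La), h1.t5_ext, fun k => ⟨r k, by
    rw [(h2 k).2, Stg.J0]; rfl, (h2 k).1.symm, a7 k⟩, ul_unit (.of_forall fun k => t5_unit (a1 k)),
    fun i => ?_⟩
  rw [e i, lim, lim, ← ul_mul, ← ul_sub, ul_mem_iff]
  refine fun j => (j2.and (j3 j)).mono fun k hk => sup_le_sup_left (aa_anti hk.2) _ ?_
  obtain ⟨b1, b2⟩ := hk.1 i
  have l := aa_le_sup (j1 k) (J i)
  rw [← Ideal.Quotient.eq, map_mul, map_natCast]
  change md _ (z i k) (s'.t k none).φ = _ * md _ (z i k) (x k)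
  rw [(h2 k).1, t5_mul b1 (a2 k) (r k).t.φ_mem (b2 _ (t5_off (a5 k)) _ (a4 k)),
    ← t5_mul b1 (a2 k) (pow_mem (x k).2 _) (hU' k _ (a3 k) i b1),
    t5_pow b1 ((c.chr (b i) k).fac l) (x k).2
      ((Ideal.Quotient.eq.2 (l ((hx k).ρ (b i)))).trans (map_one _))]

end Cx

end Pool.Agent.Lib.MP_696deb_nt.EV
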