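import Pool.Agent.Lib.MP_696deb_nt.EV.Sel

/-! Two Selmer classes are dependent. -/

set_option autoImplicit false

open scoped Classical NNReal
open Finset

namespace Pool.Agent.Lib.MP_696deb_nt.EV

/-- Selmer cocycles over the rational numbers. -/
structure KsQ (t : Tw) (e : ℕ) (ξ : Gam → A) : Prop where
  sm : Sm ⊤ ξ
  tor : ∀ g, (3 : O) ^ e • ξ g = 0
  coc : ∀ g h, ξ (g * h) = ξ g + t.tw g (ξ h)
  loc : ∀ v : Plc, ∃ S, ∀ g ∈ Dec v, ξ g = t.cob S g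

/-- Cohomologous cochains. -/
def ksR (t : Tw) (e : ℕ) : Setoid (Gam → A) where
  r ξ η := ∃ S : A, (3 : O) ^ e • S = 0 ∧ ∀ g, ξ g - η g = t.cob S g
  iseqv :=
    { refl := fun ξ => ⟨0, smul_zero _, fun g => by rw [Tw.cob, map_zero, sub_self, sub_self]⟩
      symm := fun ⟨S, h1, h2⟩ => ⟨-S, by rw [smul_neg, h1, neg_zero], fun g => by
        rw [← neg_sub, h2, Tw.cob, Tw.cob, map_neg]
        abel⟩
      trans := fun ⟨S, h1, h2⟩ ⟨S', h3, h4⟩ => ⟨S + S', by rw [smul_add, h1, h3, add_zero],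
        fun g => by rw [sl_add, ← h2, ← h4, sub_add_sub_cancel]⟩ }

theorem ks_count (t : Tw) (h : CU.Gro t.N 3) : ∃ C : ℕ, ∀ (e : ℕ)
    (s : Finset (Gam → A)), (∀ ξ ∈ s, KsQ t e ξ) → (∀ ξ ∈ s, ∀ η ∈ s, ksR t e ξ η → ξ = η) →
    s.card ≤ C * 3 ^ e := by
  obtain ⟨C, hC⟩ := h
  obtain ⟨v, hv⟩ := B2.exists_plc Nat.prime_two
  obtain ⟨r, -⟩ := exists_tp_v (v := v) (by omega)
  have h1 : un (kk t.N r.φ) * r.π - 1 ≠ 0 := fun k => selg_one r _ (k ▸ dvd_zero _)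
  refine ⟨C * (En (un (kk t.N r.φ) * r.π - 1)).card, fun e s hs hi => ?_⟩
  have c3 : ∀ (k : ℕ) (P : A), (3 : O) ^ k • P = 3 ^ k • P := fun k P => by
    rw [← Nat.cast_smul_eq_nsmul O, Nat.cast_pow, Nat.cast_ofNat]
  have c4 : ∀ P : A, (3 : O) ^ e • P = 0 ↔ w ^ (2 * e) • P = 0 := fun P => by
    rw [c3, CU.three_pow_iff]
  have : Finite (CU.Zs t.N 1 (2 * e)) := (CU.finite_Zs t.ne 1 _).to_subtype
  have h2 : Nat.card (CK.lkD t.N e).ker ≤ (En (un (kk t.N r.φ) * r.π - 1)).card := by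
    rw [← Nat.card_eq_finsetCard]
    exact Nat.card_le_card_of_injective (fun x => ⟨x.1.1, (EW.mem_En h1).2
      ((selg_cob t r (selg_three r e) ((c4 _).2 x.1.2)).symm.trans
        (congrFun (congrArg Subtype.val x.2) _))⟩)
      fun x y k => Subtype.ext (Subtype.ext (Subtype.mk.inj k))
  have h3 : s.card ≤ Nat.card (CU.Zs t.N 1 (2 * e) ⧸ (CK.lkD t.N e).range) := by
    rw [← Nat.card_eq_finsetCard]
    refine Nat.card_le_card_of_injective (fun x : s => QuotientAddGroup.mk ⟨x.1, CK.mem_Zs_of_loc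
      ⟨(hs _ x.2).sm, fun g _ k _ => (hs _ x.2).coc g k⟩ (fun g => (c4 _).1 ((hs _ x.2).tor g))
      fun q _ => (hs _ x.2).loc _⟩) fun x y k => Subtype.ext (hi _ x.2 _ y.2 ?_)
    obtain ⟨S, hS⟩ := QuotientAddGroup.eq_iff_sub_mem.1 k
    exact ⟨S, (c4 _).2 S.2, fun g => (congrFun (congrArg Subtype.val hS) g).symm⟩
  have h5 := hC e
  rw [AddSubgroup.card_eq_card_quotient_mul_card_addSubgroup (CK.lkD t.N e).range] at h5
  refine Nat.le_of_mul_le_mul_right (c := 3 ^ (2 * e)) ?_ (by positivity)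
  calc s.card * 3 ^ (2 * e)
      = s.card * Nat.card (CK.lkD t.N e).range * Nat.card (CK.lkD t.N e).ker := by
        rw [mul_assoc, CK.lk_mul]
    _ ≤ _ := Nat.mul_le_mul ((Nat.mul_le_mul_right _ h3).trans h5) h2
    _ = _ := by ring

theorem ks_cl {t : Tw} {e M : ℕ} (hM : ∀ s : Finset (Gam → A), (∀ ξ ∈ s, KsQ t e ξ) →
    (∀ ξ ∈ s, ∀ η ∈ s, ksR t e ξ η → ξ = η) → s.card ≤ M) {ι : Type} [Fintype ι]
    {f : ι → Gam → A} (hf : ∀ i, KsQ t e (f i)) : ∃ c : ι → Gam → A,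
      (univ.image c).card ≤ M ∧ ∀ i j, c i = c j → ksR t e (f i) (f j) := by
  let r : Setoid ι := (ksR t e).comap f
  have k : ∀ i, ksR t e (f (Quotient.mk r i).out) (f i) := fun i => Quotient.mk_out (s := r) i
  refine ⟨fun i => f (Quotient.mk r i).out, hM _ (fun x hx => ?_) fun x hx y hy c => ?_,
    fun i j c => ?_⟩
  · obtain ⟨i, -, rfl⟩ := mem_image.1 hx
    exact hf _
  · obtain ⟨i, -, rfl⟩ := mem_image.1 hx
    obtain ⟨j, -, rfl⟩ := mem_image.1 hy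
    rw [Quotient.out_equiv_out.1 (show r _ _ from c)]
  · exact (ksR t e).trans ((ksR t e).symm (k i)) ((congrArg (ksR t e · (f j)) c).mpr (k j))

theorem ks_cor {t : Tw} {e : ℕ} {ξ : Gam → A} (sm : Sm G ξ)
    (tor : ∀ g ∈ G, (3 : O) ^ e • ξ g = 0)
    (coc : ∀ g ∈ G, ∀ h ∈ G, ξ (g * h) = ξ g + t.tw g (ξ h))
    (loc : ∀ v : Plc, ∃ S, ∀ g ∈ G ⊓ Dec v, ξ g = t.cob S g) :
    KsQ t e fun g => (2 : O) • slC t ξ g := by
  have c := slC_coc coc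
  refine ⟨(slC_sm sm).comp ((2 : O) • ·), fun g => ?_, fun g k => ?_, fun v => ?_⟩
  · rw [smul_comm, slC_tor tor, smul_zero]
  · rw [c, smul_add, two_smul O (slC t ξ k), map_add, two_smul O (t.tw g _)]
  · obtain ⟨S, hS⟩ := slC_loc loc v
    exact sl_half c hS

theorem ks_lin {t : Tw} {e : ℕ} {ξ η : Gam → A} (hξ : Zt t e ξ) (hη : Zt t e η) (a b : O) :
    KsQ t e fun g => (2 : O) • slC t (fun x => a • ξ x + b • η x) g := by
  refine ks_cor (hξ.sm.comp₂ hη.sm fun P Q => a • P + b • Q) (fun g hg => ?_)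
    (fun g hg k hk => ?_) fun v => ?_
  · rw [smul_add, smul_comm _ a, smul_comm _ b, hξ.tor g hg, hη.tor g hg, smul_zero, smul_zero,
      add_zero]
  · rw [hξ.coc g hg k hk, hη.coc g hg k hk, map_add, tw_smul t hg, tw_smul t hg]
    module
  · obtain ⟨R, hR⟩ := hξ.loc' v
    obtain ⟨R', hR'⟩ := hη.loc' v
    exact ⟨a • R + b • R', fun g hg => by
      rw [hR g hg, hR' g hg, sl_add, sl_cob t hg.1, sl_cob t hg.1]⟩

theorem ks_val (k : ℕ) (d d' : O) (h : ¬ (w ^ k ∣ d ∧ w ^ k ∣ d')) : ∃ b ≤ k, ∃ u u' : O,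
    d = w ^ b * u ∧ d' = w ^ b * u' ∧ (¬ w ∣ u ∨ ¬ w ∣ u') := by
  induction k with
  | zero => exact (h (by simp)).elim
  | succ k ih =>
    by_cases c : w ^ k ∣ d ∧ w ^ k ∣ d'
    · obtain ⟨⟨u, rfl⟩, u', rfl⟩ := c
      refine ⟨k, k.le_succ, u, u', rfl, rfl, not_and_or.1 fun c => h ?_⟩
      rw [pow_succ]
      exact ⟨mul_dvd_mul_left _ c.1, mul_dvd_mul_left _ c.2⟩
    · obtain ⟨b, hb, r⟩ := ih c
      exact ⟨b, hb.trans k.le_succ, r⟩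

/-- The Eisenstein integer with given coordinates. -/
def ksO {M : ℕ} (x : Fin M × Fin M) : O := ⟨(x.1 : ℕ), (x.2 : ℕ)⟩

theorem ksO_inj {a : ℕ} {x y : Fin (3 ^ a) × Fin (3 ^ a)} (h : w ^ (2 * a) ∣ ksO x - ksO y) :
    x = y := by
  have h1 : ((3 ^ a : ℕ) : O) ∣ ksO x - ksO y := by
    refine Dvd.dvd.trans ⟨(-1) ^ a, ?_⟩ h
    rw [Nat.cast_pow, Nat.cast_ofNat, ← mul_pow, pow_mul]
    exact congrArg (· ^ a) (by decide)
  obtain ⟨h2, h3⟩ := CL.nat_dvd.1 h1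
  exact Prod.ext
    (Fin.ext ((Nat.modEq_iff_dvd.2 h2).symm.eq_of_lt_of_lt x.1.2 y.1.2))
    (Fin.ext ((Nat.modEq_iff_dvd.2 h3).symm.eq_of_lt_of_lt x.2.2 y.2.2))

theorem sel2 (t : Tw) (h : CU.Gro t.N 3) : ∃ n : ℕ, ∀ (e : ℕ) (ξ η : Gam → A),
    Zt t e ξ → Zt t e η → ∃ (u u' : O) (S : A) (m a : ℕ), (¬ w ∣ u ∨ ¬ w ∣ u') ∧ 2 * a ≤ e + n ∧
      (3 : O) ^ m • S = 0 ∧ ∀ g ∈ G, (3 : O) ^ a • (u • ξ g + u' • η g) = t.cob S g := by
  obtain ⟨C, hC⟩ := ks_count t h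
  refine ⟨C + 5, fun e ξ η hξ hη => ?_⟩
  obtain ⟨a, a1, a2⟩ : ∃ a, e + C ≤ 2 * a ∧ 2 * a ≤ e + C + 1 := ⟨(e + C + 1) / 2, by omega⟩
  obtain ⟨c, c1, c2⟩ := ks_cl (hC e) fun x : (Fin (3 ^ a) × Fin (3 ^ a)) × Fin (3 ^ a) × Fin (3 ^ a) =>
    ks_lin hξ hη (ksO x.1) (ksO x.2)
  obtain ⟨c', c3, c4⟩ := ks_cl (hC e) fun x : (Fin (3 ^ a) × Fin (3 ^ a)) × Fin (3 ^ a) × Fin (3 ^ a) =>
    ks_lin hξ hη (om * ksO x.1) (om * ksO x.2)
  have lt : C * 3 ^ e < 3 ^ a * 3 ^ a := by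
    rw [← pow_add, ← two_mul]
    refine lt_of_lt_of_le ?_ (Nat.pow_le_pow_right three_pos a1)
    rw [pow_add, mul_comm]
    exact mul_lt_mul_of_pos_left (Nat.lt_pow_self (by norm_num)) (by positivity)
  obtain ⟨x, -, y, -, ne, k⟩ := exists_ne_map_eq_of_card_lt_of_maps_to (s := univ)
    (t := univ.image c ×ˢ univ.image c') (f := fun x => (c x, c' x)) (by
      simp only [card_product, card_univ, Fintype.card_prod, Fintype.card_fin]
      exact Nat.mul_lt_mul'' (c1.trans_lt lt) (c3.trans_lt lt)) fun x _ =>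
      mem_coe.2 (mem_product.2 ⟨mem_image_of_mem _ (mem_univ _), mem_image_of_mem _ (mem_univ _)⟩)
  obtain ⟨S, s1, s2⟩ := c2 x y (congrArg Prod.fst k)
  obtain ⟨S', s3, s4⟩ := c4 x y (congrArg Prod.snd k)
  obtain ⟨b, hb, u, u', d1, d2, hu⟩ := ks_val (2 * a) (ksO x.1 - ksO y.1) (ksO x.2 - ksO y.2)
    fun k => ne (Prod.ext (ksO_inj k.1) (ksO_inj k.2))
  obtain ⟨q, hq⟩ : w ^ b ∣ (3 : O) ^ a := (pow_dvd_pow _ hb).trans ⟨(-1) ^ a, by
    rw [pow_mul, ← mul_pow]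
    exact congrArg (· ^ a) (by decide)⟩
  obtain ⟨α, β, hab⟩ : IsCoprime (2 : O) (3 ^ e) := IsCoprime.pow_right ⟨-1, 1, by norm_num⟩
  refine ⟨u, u', q • ((α * w * star om) • S + (-α * w) • S'), e, a + 1, hu, by omega, ?_,
    fun g hg => ?_⟩
  · rw [smul_comm, smul_add, smul_comm, s1, smul_comm _ (-α * w), s3, smul_zero, smul_zero,
      add_zero, smul_zero]
  have k4 : (3 : O) • ((ksO x.1 • ξ g + ksO x.2 • η g) - (ksO y.1 • ξ g + ksO y.2 • η g)) =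
      t.cob ((α * w * star om) • S + (-α * w) • S') g := by
    have z : ∀ a b : O, (3 : O) ^ e • (a • ξ g + b • η g) = 0 := fun a b => by
      rw [smul_add, smul_comm, hξ.tor g hg, smul_comm _ b, hη.tor g hg, smul_zero, smul_zero,
        add_zero]
    have z1 := z (ksO x.1) (ksO x.2)
    have z2 := z (ksO y.1) (ksO y.2)
    have k : w * (star om - om) = 3 := by decide
    rw [sl_add, sl_cob t hg, sl_cob t hg, ← s2, ← s4]
    simp only [slC_mem hg, mul_smul om, ← smul_add om, sl_ii t om]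
    generalize ksO x.1 • ξ g + ksO x.2 • η g = P at z1 ⊢
    generalize ksO y.1 • ξ g + ksO y.2 • η g = Q at z2 ⊢
    linear_combination (norm := module) (3 * β) • (z1 - z2) - hab • (3 : O) • (P - Q) -
      k • (2 * α) • (P - Q)
  rw [sl_cob t hg, ← k4, add_sub_add_comm, ← sub_smul, ← sub_smul, d1, d2, pow_add, hq]
  module

end Pool.Agent.Lib.MP_696deb_nt.EV
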