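import Pool.Agent.Lib.MP_696deb_nt.Y3.K0
import Pool.Agent.Lib.MP_696deb_nt.EV.T8
import Pool.Agent.Lib.MP_696deb_nt.Y3.KSel

/-! Rank at most one at the bottom of the tower. -/

set_option autoImplicit false

open scoped Classical NNReal
open Finset PowerSeries

namespace Pool.Agent.Lib.MP_696deb_nt.EV

theorem kt1_unit {a : O} (h : ¬ w ∣ a) : IsUnit (C (oW (star a)) : La) := by
  rw [unit_La, constantCoeff_C]
  exact fun k => prime_wO.not_isUnit
    (((g1_w.coprime_iff_not_dvd.2 (t2_star h)).map oW).isUnit_of_dvd' dvd_rfl k)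

theorem kt1_cancel {j J a : ℕ} (h : a + j ≤ J) {z : La} (k : 3 ^ a * z ∈ JX J) : z ∈ JX j := by
  have h1 := (pow_dvd_pow (3 : Ow) (show a + (j + 1) ≤ J + 1 by omega)).trans (mem_X_sup.1 k)
  rw [map_mul, map_pow, map_ofNat, pow_add, mul_dvd_mul_iff_left (pow_ne_zero _ fun e =>
    pr_X.2 (mem_span_X.2 (by rw [map_ofNat, e])))] at h1
  exact mem_X_sup.2 h1

/-- Conjugation of the constant term. -/
noncomputable def kt1_ψ : La →+* La := (C : Ow →+* La).comp ((starRingEnd Ow).comp constantCoeff)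

theorem kt1_ψ_mem (j : ℕ) (z : La) : kt1_ψ z ∈ JX j ↔ z ∈ JX j := by
  rw [mem_X_sup, mem_X_sup]
  simp only [kt1_ψ, RingHom.comp_apply, constantCoeff_C, starRingEnd_apply]
  exact ⟨fun h => star_star (constantCoeff z) ▸ t7_star h, t7_star⟩

namespace Cx

variable (c : Cx)

theorem kt1_zt {j k : ℕ} (hjk : j ≤ k) {f : Gam → La}
    (hf : Zc G (md (JX j) (c.ρ false k)) (md (JX j) f)) (hu : Unr (c.t0 k) (md (JX j) f))
    {x y : La} (hl : ∀ g ∈ Hw, f g - (x * (c.ρ false k g - 1) + y * c.ks k g) ∈ JX j) :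
    Zt c.t (j + 1) fun g => xi j (Ideal.Quotient.mk (JX j) (c.δ k) * md (JX j) f g) := by
  have := pr_X.lo2 j
  have ad : Adm (c.t0 k) (md (JX j) (c.ρ false k)) := (c.adm0 false k).fac (aa_le_sup hjk _)
  have hD : Ideal.Quotient.mk (JX j) (c.δ k) = (md (JX j) (c.ρ false k) (c.lv k).lam.φ - 1) *
      ∏ i, (md (JX j) (c.ρ false k) (c.tp i).σ - 1) := by
    simp only [δ, md, map_mul, map_prod, map_sub, map_one]
  generalize Ideal.Quotient.mk (JX j) (c.δ k) = D at hD ⊢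
  have tame : ∀ i, ∃ u, ∀ h ∈ G ⊓ Dec (c.t0 k i).v,
      D * md (JX j) f h = (md (JX j) (c.ρ false k) h - 1) * u := by
    rintro (_ | i)
    · exact ⟨_, fun h hh => by
        have e := (hf.mono inf_le_left).cob_φ ad.chr (ad.geo none) h hh
        rw [hD, mul_right_comm]
        exact (congrArg (· * _) e).trans (mul_assoc _ _ _)⟩
    · obtain ⟨E, hE⟩ : md (JX j) (c.ρ false k) (c.tp i).σ - 1 ∣ D :=
        hD ▸ (dvd_prod_of_mem _ (mem_univ i)).mul_left _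
      exact ⟨_, fun h hh => by
        have e := (hf.mono inf_le_left).cob_σ ad.chr (ad.geo (some i)) h hh
        rw [hE, mul_right_comm]
        exact (congrArg (· * _) e).trans (mul_assoc _ _ _)⟩
  refine ⟨hf.1.comp fun z => xi j (D * z), fun g _ => xi_tor _ _, fun g hg h hh => ?_,
    fun v => ?_⟩
  · rw [hf.2 g hg h hh, mul_add, xi_add, smul_eq_mul, mul_left_comm, c.xi_ρ j k hg]
  by_cases hv : v.p = 3
  · obtain ⟨a, ha, rfl⟩ := conj_w3 hv
    obtain ⟨b, hb⟩ := oq_surj j (D * Ideal.Quotient.mk _ y)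
    refine .inl ⟨a⁻¹, inv_mem ha, xi j (D * Ideal.Quotient.mk _ x) +
      star b • (3 : O) ^ (k - j) • c.Q1 (k + 1), fun h hh => ?_⟩
    rw [inv_smul_smul] at hh
    refine Eq.trans (congrArg (xi j) ?_) (c.xi_km hjk hh (D * Ideal.Quotient.mk _ x) b)
    rw [hb, md, Ideal.Quotient.eq.2 (hl h hh), map_add, map_mul, map_mul, map_sub, map_one,
      mul_add, mul_assoc, mul_assoc]
    rfl
  rcases off_or (c.t0 k) hv with ho | ⟨i, a, ha, rfl⟩
  · exact .inr ⟨hv, c.off ⟨hv, fun i => ho.2 (some i)⟩, fun σ hσ => by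
      rw [hu v ho σ hσ, mul_zero, xi_eq_zero]⟩
  · obtain ⟨u, e⟩ := tame i
    refine .inl ⟨a⁻¹, inv_mem ha, xi j u, fun h hh => ?_⟩
    rw [inv_smul_smul] at hh
    rw [e h hh, c.xi_cob j k hh.1]

theorem kt1_fin {j : ℕ} (k : ℕ) (F : Gam → La ⧸ JX j) {S : A} {m : ℕ} (h1 : (3 : O) ^ m • S = 0)
    (e : ∀ g ∈ G, xi j (F g) = c.t.cob S g) {g : Gam} (hg : g ∈ G) :
    (md (JX j) (c.ρ false k) c.g0 - 1) * F g - (md (JX j) (c.ρ false k) g - 1) * F c.g0 = 0 := by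
  obtain ⟨a, ha⟩ := exists_ap m (rho0 c.t g)
  obtain ⟨b, hb⟩ := exists_ap m (rho0 c.t c.g0)
  refine xi_eq_zero.1 ?_
  rw [xi_sub, c.xi_cob j k hg, c.xi_cob j k c.g0_mem, e g hg, e _ c.g0_mem]
  simp only [Tw.cob, map_sub, tw_rho0 c.t hg h1 ha, tw_rho0 c.t c.g0_mem h1 hb,
    tw_smul c.t hg, tw_smul c.t c.g0_mem]
  rw [smul_comm a b]
  abel

theorem kt1_lam : (ul fun k => c.ρ true k (c.lv k).lam.φ) - 1 ∉ Ideal.span {(X : La)} := by
  intro k
  rw [mem_span_X, map_sub, map_one, sub_eq_zero, ← coeff_zero_eq_constantCoeff_apply, ul,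
    coeff_mk] at k
  obtain ⟨j, hj⟩ := (ulO_spec (fun k => coeff 0 (c.ρ true k (c.lv k).lam.φ)) 2).exists
  rw [k, coeff_zero_eq_constantCoeff_apply, ρ_const] at hj
  exact (c.lv j).r3 ((pow_dvd_pow_of_dvd la_two 2).trans hj)

theorem sel_fin2 (h : CU.Gro c.t.N 3) : ∃ n : ℕ, ∀ j k, j ≤ k →
    ∀ f f' : Gam → La, Zc G (md (JX j) (c.ρ false k)) (md (JX j) f) → Unr (c.t0 k) (md (JX j) f) →
    Zc G (md (JX j) (c.ρ false k)) (md (JX j) f') → Unr (c.t0 k) (md (JX j) f') →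
    ∀ x y x' y' : La, (∀ g ∈ Hw, f g - (x * (c.ρ false k g - 1) + y * c.ks k g) ∈ JX j) →
    (∀ g ∈ Hw, f' g - (x' * (c.ρ false k g - 1) + y' * c.ks k g) ∈ JX j) →
    ∃ (u u' : La) (a : ℕ), (IsUnit u ∨ IsUnit u') ∧ 2 * a ≤ j + n ∧ ∀ g ∈ G, 3 ^ a * c.δ k *
      (u * ((c.ρ false k c.g0 - 1) * f g - (c.ρ false k g - 1) * f c.g0) +
        u' * ((c.ρ false k c.g0 - 1) * f' g - (c.ρ false k g - 1) * f' c.g0)) ∈ JX j := by
  obtain ⟨n, hn⟩ := sel2 c.t h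
  refine ⟨n + 1, fun j k hjk f f' hf hu hf' hu' x y x' y' hl hl' => ?_⟩
  obtain ⟨u, u', S, m, a, h0, ha, h1, h2⟩ :=
    hn _ _ _ (c.kt1_zt hjk hf hu hl) (c.kt1_zt hjk hf' hu' hl')
  refine ⟨C (oW (star u)), C (oW (star u')), a, h0.imp kt1_unit kt1_unit, by omega,
    fun g hg => ?_⟩
  have e := c.kt1_fin k (fun g => oq (JX j) (3 ^ a) *
    (oq (JX j) (star u) * (Ideal.Quotient.mk (JX j) (c.δ k) * md (JX j) f g) +
      oq (JX j) (star u') * (Ideal.Quotient.mk (JX j) (c.δ k) * md (JX j) f' g))) h1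
    (fun g hg => by
      rw [xi_mul, xi_add, xi_mul, xi_mul, star_pow, star_ofNat, star_star, star_star, h2 g hg]) hg
  refine Ideal.Quotient.eq_zero_iff_mem.1 (Eq.trans ?_ e)
  simp only [md, oq, RingHom.comp_apply, map_mul, map_add, map_sub, map_one, map_pow, map_ofNat]
  ring

theorem ok_sel2 (h : CU.Gro c.t.N 3) :
    ∀ f ∈ c.dat.Z c.dat.s0 false (Ideal.span {X}), ∀ f' ∈ c.dat.Z c.dat.s0 false (Ideal.span {X}),
      c.dat.Km f → c.dat.Km f' → ¬ c.dat.Two false (Ideal.span {X}) f f' := by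
  rintro _ ⟨f, hf, rfl⟩ _ ⟨f', hf', rfl⟩ ⟨d, x, y, hd, hk⟩ ⟨d', x', y', hd', hk'⟩ H
  obtain ⟨n, hn⟩ := c.sel_fin2 h
  have e0 : ∀ k, (c.exists_s0.some : c.Stg 0).t k = c.t0 k := fun k =>
    funext fun i => Stg.t_zero _ k i
  obtain ⟨u, hu⟩ := lima_diag (p := fun j k (u : La × La) => (IsUnit u.1 ∨ IsUnit u.2) ∧
    ∀ g ∈ G, c.δ k * (u.1 * ((c.ρ false k c.g0 - 1) * (d * f k g) -
      (c.ρ false k g - 1) * (d * f k c.g0)) + u.2 * ((c.ρ false k c.g0 - 1) * (d' * f' k g) -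
      (c.ρ false k g - 1) * (d' * f' k c.g0))) ∈ JX j)
    (fun j => ((((hf.smul d (2 * j + n)).and (c.km_loc (t8_lw hf) hk (2 * j + n))).and
      ((hf'.smul d' (2 * j + n)).and (c.km_loc (t8_lw hf') hk' (2 * j + n)))).and
      (ev_ge (2 * j + n))).mono fun k ⟨⟨⟨a1, a2⟩, b1, b2⟩, hk⟩ => by
        obtain ⟨u, u', a, h1, h2, h3⟩ := hn _ k hk (fun g => d * f k g) (fun g => d' * f' k g)
          a1.1 (e0 k ▸ a1.2) b1.1 (e0 k ▸ b1.2) x y x' y' a2 b2
        exact ⟨(u, u'), h1, fun g hg =>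
          kt1_cancel (a := a) (J := 2 * j + n) (by omega) (by
            rw [← mul_assoc]
            exact h3 g hg)⟩)
    fun j j' k u e h => ⟨h.1, fun g hg => sup_le_sup_left (aa_anti e) _ (h.2 g hg)⟩
  obtain ⟨k1, k2⟩ := H (ul (fun k => (u k).1) * d) (ul (fun k => (u k).2) * d') fun g => by
    have key := ul_mem_iff.2 fun j => (hu j).mono fun k hk => hk.2 _ (g k).2
    simp only [ul_mul, ul_add, ul_sub, ul_const] at key
    convert (pr_X.1.mem_or_mem key).resolve_left c.δ_notMem using 1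
    show _ * (((ul fun k => c.ρ false k c.g0) - 1) * (ul fun k => f k (g k)) -
      ((ul fun k => c.ρ false k (g k)) - 1) * ul fun k => f k c.g0) +
      _ * (((ul fun k => c.ρ false k c.g0) - 1) * (ul fun k => f' k (g k)) -
      ((ul fun k => c.ρ false k (g k)) - 1) * ul fun k => f' k c.g0) = _
    ring
  rcases Ultrafilter.eventually_or.1 ((hu 0).mono fun k hk => hk.1) with e | e
  · exact hd ((Ideal.unit_mul_mem_iff_mem _ (ul_unit e)).1 k1)
  · exact hd' ((Ideal.unit_mul_mem_iff_mem _ (ul_unit e)).1 k2)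

theorem ok_conj : ∀ f ∈ c.dat.Z c.dat.s0 false (Ideal.span {X}),
    ∃ f' ∈ c.dat.Z c.dat.s0 true (Ideal.span {X}),
      ∀ g, f' g ∈ Ideal.span {(X : La)} ↔ f g ∈ Ideal.span {(X : La)} := by
  rintro _ ⟨f, hf, rfl⟩
  refine ⟨lim fun k g => kt1_ψ (f k g), ⟨_, fun j => (hf j).mono fun k hk => ⟨(hk.1.map
    (Ideal.quotientMap (JX j) kt1_ψ fun z hz => (kt1_ψ_mem j z).2 hz)).congr (fun g _ => ?_)
      fun g _ => rfl, fun v hv σ hσ => Ideal.Quotient.eq_zero_iff_mem.2 ((kt1_ψ_mem j _).2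
        (Ideal.Quotient.eq_zero_iff_mem.1 (hk.2 v hv σ hσ)))⟩, rfl⟩, fun g =>
    ul_mem_iff.trans ((forall_congr' fun j => Filter.eventually_congr
      (.of_forall fun k => kt1_ψ_mem j _)).trans ul_mem_iff.symm)⟩
  rw [md, md, Ideal.quotientMap_mk, mk_JX, c.ρ_const]
  simp only [kt1_ψ, RingHom.comp_apply, c.ρ_const, starRingEnd_apply, Cb.r0, star_star]

theorem ok_recip' : ∀ s : c.dat.St 1, ∀ f ∈ c.dat.Z s true (Ideal.span {X}),
    ∀ f' ∈ c.dat.Z s false (Ideal.span {X}), (∀ i, f (c.dat.e i) ∈ Ideal.span {(X : La)}) →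
    f' (c.dat.φ s none) * f (c.dat.gen s (.inl none)) -
      f' (c.dat.gen s (.inl none)) * f (c.dat.φ s none) ∈ Ideal.span {(X : La)} := by
  intro s f hf f' hf' h0
  have key := recip_lim c.dual.symm (Stg.adm s false) (Stg.adm s true) pr_X Jx.deep
    (fun k i hi => by
      obtain ⟨h1, h2, h3⟩ := Stg.deep s true k hi
      exact ⟨h1, by rw [h2, sub_self]; exact zero_mem _, (pow_dvd_pow 3 (by omega)).trans h3⟩)
    (fun i hi => by
      obtain ⟨j, rfl⟩ := Jx.not_deep.1 hi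
      change (ul fun k => c.ρ true k (Stg.t s k (Jx.emb j)).σ) - 1 ∉ _ ∨
        (ul fun k => c.ρ true k (Stg.t s k (Jx.emb j)).φ) - 1 ∉ _
      simp only [Stg.base]
      rcases j with _ | j
      · exact .inr c.kt1_lam
      · exact .inl (c.t4_const (fun k => c.ρ_σ true k j) (c.r0_σ true j).2.1 pr_X))
    f' hf' f hf h0
  rw [t8_sum, Ideal.unit_mul_mem_iff_mem _ (uL_unit _ _), ← neg_mem_iff, neg_sub, mul_comm,
    mul_comm (f _)] at key
  exact key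

end Cx

end Pool.Agent.Lib.MP_696deb_nt.EV
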