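import Pool.Agent.Lib.MP_696deb_nt.Y3.KErl
import Pool.Agent.Lib.MP_696deb_nt.Y3.KKp
import Pool.Agent.Lib.MP_696deb_nt.EV.T8

/-! The reciprocity law for the derived class in the limit. -/

set_option autoImplicit false

open scoped Classical NNReal
open Finset PowerSeries

namespace Pool.Agent.Lib.MP_696deb_nt.EV

theorem TP.eq_of_σ {t t' : TP} (h : t.σ = t'.σ) : t.π = t'.π := by
  by_contra k
  exact chC_sigma t (h ▸ p1_sig t' t.prime t.prim k)

theorem kt2_sum {κ M : Type} [Fintype κ] [AddCommMonoid M] (f : Jx κ 2 → M) :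
    ∑ i : Jx κ 2 with i.deep, f i = f none + f (some none) := by
  rw [← t8_sum fun i : Jx κ 1 => f (some i), sum_filter, sum_filter]
  refine (Fintype.sum_option (α := Jx κ 1) _).trans ?_
  exact congrArg₂ (· + ·) (if_pos trivial) (sum_congr rfl fun i _ => if_congr Iff.rfl rfl rfl)

theorem kt2_unit (j : ℕ) (f : ZMod (3 ^ (j + 1)) →+* La ⧸ JX j) (r : TP) :
    IsUnit ((du (j + 1) r).val : La) := by
  refine (unit_mk (J := JX j) (sup_ne_top pr_X.ne_top j)).1 ?_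
  rw [map_natCast, ← hom_val f]
  exact (du_unit _ _).map _

theorem kt2_imp {E A B : ℕ → La} (hE : ul E ∉ Ideal.span {(X : La)})
    (h : ∀ j, ∀ᶠ k in UU, ∃ u u' : La, IsUnit u' ∧ E k * (u * A k + u' * B k) ∈ JX j)
    (hA : ul A ∈ Ideal.span {(X : La)}) : ul B ∈ Ideal.span {(X : La)} := by
  refine (pr_X.1.mem_or_mem ?_).resolve_left hE
  rw [← ul_mul]
  refine ul_mem_iff.2 fun j =>
    ((h j).and (ul_mem_iff.1 hA j)).mono fun k ⟨⟨u, u', hu, h1⟩, h2⟩ => ?_
  rw [← Ideal.unit_mul_mem_iff_mem _ hu]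
  convert sub_mem h1 (Ideal.mul_mem_left _ (E k * u) h2) using 1
  ring

theorem kt2_two {j n : ℕ} {y : La} (h : 3 ^ n * y ∈ JX (n + j)) : y ∈ JX j := by
  have h1 := mem_X_sup.1 h
  rw [map_mul, map_pow, map_ofNat, add_assoc, pow_add,
    mul_dvd_mul_iff_left (pow_ne_zero _ fun e => pr_X.2 (mem_span_X.2 (by
      rw [map_ofNat, e])))] at h1
  exact mem_X_sup.2 h1

namespace Cx

variable (c : Cx)

theorem erl_lev1 (s : c.Stg 1) (s' : c.Stg 2) : ∃ a : ℕ, ∀ j k τ, j ≤ k → 2 * j + a ≤ 3 * τ →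
    (∀ i, (s'.t k (some i)).π = (s.t k i).π) → ∀ r : DP (k + 1), s.J k = {r} → r.x.ind w = 0 →
    w3.V (kur c.φ (c.m0 (j + 1)) (c.α true).π r.x) < w3.V (3 ^ (2 * j + a)) →
    ∀ f : Gam → La, Zc G (md (JX j) (c.ρ false k)) (md (JX j) f) → Unr (s'.t k) (md (JX j) f) →
    ∀ x y : La, (∀ g ∈ Hw, f g - (x * (c.ρ false k g - 1) + y * c.ks k g) ∈ JX j) →
    ∃ u u' : La, IsUnit u ∧ IsUnit u' ∧ 3 ^ (τ + 1) * (c.t.N * c.δ k *
      (u * (f (s'.t k (some none)).φ * s.kp true k (s'.t k (some none)).σ -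
          f (s'.t k (some none)).σ * s.kp true k (s'.t k (some none)).φ) +
        u' * (f (s'.t k none).φ * s.kp true k (s'.t k none).σ -
          f (s'.t k none).σ * s.kp true k (s'.t k none).φ))) ∈ JX j := by
  obtain ⟨a, ha⟩ := c.erl_fin1
  refine ⟨a, fun j k τ hjk hτ hπ r hr hi hk f hf hu x y hl => ?_⟩
  have hJ : aa k ≤ JX j := aa_le_sup hjk _
  have := pr_X.lo2 j
  let f0 : ZMod (3 ^ (j + 1)) →+* La ⧸ JX j := fz (two_pow_zero le_sup_right)
  let f1 : ZMod (3 ^ (k + 1)) →+* La ⧸ JX j := fz (two_pow_zero hJ)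
  have a0 := (s'.adm false k).fac hJ
  have a1 := (s'.adm true k).fac hJ
  have hd := c.dual.symm.cy hJ f0
  have z1 := (s.zc_kp true k).1.fac hJ
  have u0 := (s.zc_kp true k).2.fac hJ
  obtain ⟨z, u, hz⟩ := kp_down s hjk hr hi f1
  have rm : r ∈ s.J k := hr ▸ mem_singleton_self r
  have r1 : ¬ r.t.π ∣ (c.t.N : O) := fun e => (s.good k true).nd r rm
    (e.trans (by
      rw [m, c.m0_eq, mul_assoc]
      exact dvd_mul_right _ _))
  have r2 : r.t.π ≠ (c.α true).π := fun e => r.t.prime.not_isUnit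
    (((s.good k true).cop r rm).isUnit_of_dvd' dvd_rfl e.dvd)
  obtain ⟨M, hM⟩ : ∃ M : La ⧸ JX j, M = 3 ^ (τ + 1) * c.t.N := ⟨_, rfl⟩
  obtain ⟨D, hD⟩ : ∃ D, D = Ideal.Quotient.mk (JX j) (c.δ k) := ⟨_, rfl⟩
  have key := recip (c := fun g => M * md (JX j) f g) (δ := D) f0 a0 a1 hd Jx.deep
    (fun i hi => by
      obtain ⟨k1, k2, k3⟩ := s'.deep false k hi
      refine ⟨?_, ?_, ?_⟩
      · exact (Ideal.Quotient.eq.2 (hJ k1)).trans (map_one _)
      · rw [md, k2, map_one]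
      · rw [p3_pos, Nat.cast_add, (ZMod.natCast_eq_zero_iff _ _).2
          ((pow_dvd_pow 3 (by omega)).trans k3), zero_add, Nat.cast_one])
    (fun i hi => by
      obtain ⟨i, rfl⟩ := Jx.not_deep.1 hi
      rw [s'.base, hD, δ, map_mul, map_prod]
      rcases i with _ | i
      · refine .inr (Dvd.dvd.mul_right ?_ _)
        rw [map_sub, map_one]
        rfl
      · refine .inl (Dvd.dvd.mul_left ?_ _)
        refine Dvd.dvd.trans ?_ (dvd_prod_of_mem _ (mem_univ i))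
        rw [map_sub, map_one]
        rfl)
    (hf.smul M) (fun v hv σ hσ => (congrArg (M * ·) (hu v hv σ hσ)).trans (mul_zero _)) z1
    (fun v hv => u0 v ⟨hv.1, fun i => hπ i ▸ hv.2 (some i)⟩) fun l => by
      refine t8_spl f0 inf_le_left a0.chr a1.chr hd (z1.mono inf_le_left) (c.zc_ks hjk)
        (x := D * M * Ideal.Quotient.mk _ x) (y := D * M * Ideal.Quotient.mk _ y)
        (fun g hg => ?_) hz l ?_
      · have e := Ideal.Quotient.eq.2 (hl g hg)
        simp only [map_add, map_mul, map_sub, map_one] at e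
        simp only [md]
        linear_combination (D * M) * e
      · refine spl_congr (ha j k τ hjk hτ r r1 r2 hi hk f1 l (z * D * Ideal.Quotient.mk _ y))
          fun g _ h _ => ?_
        rw [cupR, cupR, ← hM]
        exact congrArg l (by ring)
  refine ⟨_, _, kt2_unit j f0 (s'.t k (some none)), kt2_unit j f0 (s'.t k none), ?_⟩
  rw [kt2_sum, hom_val f0, hom_val f0] at key
  rw [← Ideal.Quotient.eq_zero_iff_mem]
  simp only [map_mul, map_add, map_sub, map_pow, map_ofNat, map_natCast]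
  simp only [md, hM, hD] at key
  linear_combination key

theorem ok_erl1 (hs : c.Small) : ∀ s : c.dat.St 1, c.Sp s → ∀ s' : c.dat.St 2, c.dat.Ext s s' →
    ∀ f ∈ c.dat.Z s' false (Ideal.span {X}), c.dat.Km f →
    (f (c.dat.φ s' (some none)) * c.dat.kap s true (c.dat.gen s' (.inl (some none))) -
        f (c.dat.gen s' (.inl (some none))) * c.dat.kap s true (c.dat.φ s' (some none)) ∈
          Ideal.span {(X : La)} ↔
      f (c.dat.φ s' none) * c.dat.kap s true (c.dat.gen s' (.inl none)) -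
        f (c.dat.gen s' (.inl none)) * c.dat.kap s true (c.dat.φ s' none) ∈
          Ideal.span {(X : La)}) := by
  rintro (s : c.Stg 1) hp (s' : c.Stg 2) hE _ ⟨f, hf, rfl⟩ ⟨d, x, y, hd, hk⟩
  obtain ⟨a, ha⟩ := c.erl_lev1 s s'
  have hπ : ∀ k i, (s'.t k (some i)).π = (s.t k i).π := fun k i =>
    TP.eq_of_σ (congrArg Subtype.val (congrFun (hE.gen (.inl i)) k))
  obtain ⟨T, hT⟩ : ∃ T : Jx c.κ 2 → ℕ → La, ∀ i k, T i k =
      f k (s'.t k i).φ * s.kp true k (s'.t k i).σ - f k (s'.t k i).σ * s.kp true k (s'.t k i).φ :=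
    ⟨_, fun _ _ => rfl⟩
  have e : ∀ i, lim f (c.dat.φ s' i) * c.dat.kap s true (c.dat.gen s' (.inl i)) -
      lim f (c.dat.gen s' (.inl i)) * c.dat.kap s true (c.dat.φ s' i) = ul (T i) := fun i => by
    rw [funext (hT i), ul_sub, ul_mul, ul_mul]
    rfl
  have hN : (c.t.N : La) ∉ Ideal.span {(X : La)} := fun e => by
    rw [mem_span_X, map_natCast, ← map_natCast oW, ← map_zero oW] at e
    exact c.m0_ne 0 (by rw [c.m0_eq, oW_inj e, zero_mul])
  have hU : ul (fun k => d * ((c.t.N : La) * c.δ k)) ∉ Ideal.span {(X : La)} := fun k => by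
    rw [t8_smul, t8_smul] at k
    exact (pr_X.1.mem_or_mem k).elim hd fun k => (pr_X.1.mem_or_mem k).elim hN c.δ_notMem
  have key : ∀ j, ∀ᶠ k in UU, ∃ u u' : La, IsUnit u ∧ IsUnit u' ∧
      d * ((c.t.N : La) * c.δ k) * (u * T (some none) k + u' * T none k) ∈ JX j := fun j => by
    obtain ⟨J, hJ⟩ : ∃ J, J = 2 * j + a + 4 + 1 + j := ⟨_, rfl⟩
    obtain ⟨v, hv⟩ := hs (J + 1) (2 * J + a)
    refine ((((hf.smul d J).and (c.km_loc (t8_lw hf) hk J)).and (ev_ge J)).and (ev_ge v)).mono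
      fun k hk => ?_
    obtain ⟨r, r1, -, r2, r3⟩ := hp k
    obtain ⟨u, u', h1, h2, h3⟩ := ha J k (2 * j + a + 4) hk.1.2 (by omega) (hπ k) r r1 r2
      (hv _ (Nat.le_succ_of_le hk.2) _ r.x r3) (fun g => d * f k g) hk.1.1.1.1 hk.1.1.1.2 x y
      hk.1.1.2
    refine ⟨u, u', h1, h2, kt2_two (n := 2 * j + a + 4 + 1) ?_⟩
    rw [← hJ, hT, hT]
    convert h3 using 1
    ring
  rw [e, e]
  refine ⟨kt2_imp hU fun j => (key j).mono fun k ⟨u, u', _, h1, h2⟩ => ⟨u, u', h1, h2⟩,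
    kt2_imp hU fun j => (key j).mono fun k ⟨u, u', h1, _, h2⟩ => ⟨u', u, h1, ?_⟩⟩
  rwa [add_comm]

end Cx

end Pool.Agent.Lib.MP_696deb_nt.EV
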