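import Pool.Agent.Lib.MP_696deb_nt.Y3.B1
import Pool.Agent.Lib.MP_696deb_nt.CR.Lk

/-! Points and Selmer groups of the reduced pairs. -/

set_option autoImplicit false

open scoped Classical

namespace Pool.Agent.Lib.MP_696deb_nt.Y3

open CU (A)
open B2 (Qbar Gam GK)
open CX (ac GroA Ek)

variable {b d D : ℤ} {n t s : ℕ} {δ δ' : Qbar} {g : Gam} {P : A}

theorem ac_cube (hn : n ≠ 0) (ht : t ≠ 0) (δ : Qbar) : ac δ (n * t ^ 3) = ac δ n := by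
  funext g
  ext P
  rw [CX.ac_apply, CX.ac_apply, CU.act_apply, CU.act_apply, CU.kk_mul hn (pow_ne_zero 3 ht),
    CU.kk_pow, show ((3 : ℕ) : CU.F3) = 0 from rfl, zero_mul, add_zero]

theorem b6_ne (hD : D ≠ 0) (hδ : δ ^ 2 = D) : δ ≠ 0 := fun e => hD (by simpa [e] using hδ.symm)

theorem b6_s3 (hD : D ≠ 0) (hδ : δ ^ 2 = D) (hn : n ≠ 0) :
    GroA (ac (δ * CX.s3) n) s ↔ GroA (ac δ n) s := by
  have h0 := b6_ne hD hδ
  by_cases h1 : IsSquare D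
  · rw [CX.ac_one (CX.fix_of_sq hδ h1), CX.lk_one hn, CX.ac_zero fun g => by
      rw [CX.sg_s3 h0 hδ, CX.sg, if_pos (CX.fix_of_sq hδ h1 g), one_mul], CX.lk_zero hn]
  by_cases h2 : IsSquare (-3 * D)
  · rw [CX.ac_one (CX.fix_of_sq (CX.d1_sq hδ) h2), CX.lk_one hn,
      CX.ac_zero (CX.sg_of_sq h0 hδ h2), CX.lk_zero hn]
  obtain ⟨Q, rfl⟩ := CX.exists_Qd h1 h2
  have e := CX.lk_sg (δ := δ) (r := Q.r0) one_ne_zero (by rw [hδ, Int.cast_one, one_mul, Q.h0])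
  rw [CX.lk_ac e, CX.lk_cv hn, CX.lk_ac (r := Q.sw.r0) fun g =>
    ((CX.sg_s3 h0 hδ g).trans (congrArg (· * _) (e g))).trans (CU.CV.sg_sw g).symm,
    CX.lk_cv (δ := Q.sw) hn]
  exact ⟨CU.CV.gro_sw hn, CU.CV.gro_sw (δ := Q.sw) hn⟩

theorem b6_rel (h : RelD D d) (hD : D ≠ 0) (hδ : δ ^ 2 = D) (hδ' : δ' ^ 2 = d) : d ≠ 0 ∧
    ((∀ g, CX.sg δ g = CX.sg δ' g) ∨ ∀ g, CX.sg δ g = CX.sg (δ' * CX.s3) g) := by
  obtain ⟨u, c, u0, c0, h⟩ := h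
  have k : ∀ {r : Qbar} {e : ℤ}, r ^ 2 = e → D * u ^ 2 = e * c ^ 2 → ∀ g, CX.sg δ g = CX.sg r g :=
    fun hr e g => (CX.lk_sg (δ := u * δ) u0 rfl g).symm.trans (CX.lk_sg c0 (by
      rw [mul_pow, mul_pow, hδ, hr, mul_comm, mul_comm (_ ^ 2)]
      exact_mod_cast e) g)
  refine ⟨?_, h.imp (k hδ') (k (CX.d1_sq hδ'))⟩
  rintro rfl
  simp [hD, u0] at h

theorem RelD.gro (h : RelD D d) (hD : D ≠ 0) (hδ : δ ^ 2 = D) (hn : n ≠ 0) :
    GroA (ac δ n) s ↔ GroD d n s := by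
  have k : ∀ r : Qbar, r ^ 2 = d → (GroA (CX.ac δ n) s ↔ GroA (CX.ac r n) s) := fun r hr => by
    obtain ⟨d0, e | e⟩ := b6_rel h hD hδ hr
    · rw [CX.lk_ac e]
    · rw [CX.lk_ac e, b6_s3 d0 hr hn]
  exact ⟨fun e r hr => (k r hr).1 e, fun e => (k _ (B2.rt_sq d)).2 (e _ (B2.rt_sq d))⟩

theorem RelD.ac (h : RelD D d) (hD : D ≠ 0) (hδ : δ ^ 2 = D) (hδ' : δ' ^ 2 = d) (hg : g ∈ GK 3)
    (n : ℕ) : ac δ n g = ac δ' n g := by
  obtain ⟨d0, e | e⟩ := b6_rel h hD hδ hδ'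
  · rw [CX.ac, CX.ac, e]
  · rw [CX.ac, CX.ac, e, CX.sg_s3 (b6_ne d0 hδ') hδ', CU.ep, if_pos (CU.mem_GK.1 hg), mul_one]

/-- The parity theorem lowers the bound. -/
theorem GroD.two (h : GroD d n 3) (hd : d ≠ 0) (hn : n ≠ 0) (hw : CQ.Wq d n) : GroD d n 2 :=
  fun δ hδ => by
    obtain ⟨s, s1, s2⟩ := CX.exists_groA hd hδ hn
    have k := (s2 3).1 (h δ hδ)
    obtain ⟨m, rfl⟩ := s1.2 hw
    exact (s2 2).2 (by omega)

/-- From the Eisenstein field to the rational numbers. -/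
theorem exists_fix (hD : D ≠ 0) (hδ : δ ^ 2 = D) (hn : n ≠ 0) (hP : ∀ g ∈ GK 3, ac δ n g P = P)
    (h : ¬ IsOfFinAddOrder P) : ∃ Q : A, (∀ g, ac δ n g Q = Q) ∧ ¬ IsOfFinAddOrder Q := by
  have _ := hn
  have m := CX.ac_mul (n := n) (b6_ne hD hδ) hδ
  have c : B2.cc ∉ GK 3 := B2.cc_notMem three_pos
  have z : ∀ (g : Gam) (a : CU.O) (R : A),
      ac δ n g (a • R) = (if CU.chi g = 1 then a else star a) • ac δ n g R := fun g a R => by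
    rw [CX.ac_apply, CX.ac_apply, CU.act_smul, smul_comm]
  have k : ∀ R : A, (∀ g ∈ GK 3, ac δ n g R = R) → ∀ g,
      ac δ n g (R + ac δ n B2.cc R) = R + ac δ n B2.cc R := fun R hR g => by
    have e : ∀ x, x ∉ GK 3 → ac δ n x R = ac δ n B2.cc R := fun x hx => by
      rw [← mul_inv_cancel_left B2.cc x, m, hR _ (B2.mul_mem_GK (mt inv_mem_iff.1 c) hx)]
    rw [map_add, ← m]
    by_cases hg : g ∈ GK 3
    · rw [hR g hg, e _ (mt (mul_mem_cancel_left hg).1 c)]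
    · rw [e g hg, hR _ (B2.mul_mem_GK hg c), add_comm]
  by_contra! a
  have h1 := a _ (k P hP)
  have h2 := a _ (k (CU.th • P) fun g hg => by rw [z, if_pos (CU.mem_GK.1 hg), hP g hg])
  rw [z, if_neg (mt CU.mem_GK.2 c), show star CU.th = -CU.th by decide] at h2
  generalize ac δ n B2.cc P = R at h1 h2
  have e : 6 • P = 3 • (P + R) + -CU.th • (CU.th • P + -CU.th • R) := by
    rw [← Nat.cast_smul_eq_nsmul CU.O, ← Nat.cast_smul_eq_nsmul CU.O]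
    linear_combination (norm := module) CU.th_sq • P - CU.th_sq • R
  exact h (IsOfFinAddOrder.of_nsmul (n := 6) (e ▸ (h1.nsmul (n := 3)).add
    ((DistribSMul.toAddMonoidHom A (-CU.th)).isOfFinAddOrder h2)) (by norm_num))

theorem rank_pos (w : CX.Tw b D n) (hδ : δ ^ 2 = D) (hP : ∀ g ∈ GK 3, ac δ n g P = P)
    (h : ¬ IsOfFinAddOrder P) [Module.Finite ℤ (Ek b).toAffine.Point] :
    1 ≤ Module.finrank ℤ (Ek b).toAffine.Point := by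
  obtain ⟨Q, q1, q2⟩ := exists_fix w.D_ne hδ w.ne hP h
  obtain ⟨f, -, hf⟩ := (CX.lnk w hδ).pts
  obtain ⟨R, rfl⟩ := (hf Q).2 q1
  by_contra! e
  exact q2 (f.isOfFinAddOrder (isOfFinAddOrder_iff_zsmul_eq_zero.2
    (Module.finrank_eq_zero_iff.1 (Nat.lt_one_iff.1 e) R)))

theorem tors_of_gro (hD : D ≠ 0) (hδ : δ ^ 2 = D) (hn : n ≠ 0) (h : GroA (ac δ n) 2)
    (hP : ∀ g ∈ GK 3, ac δ n g P = P) : IsOfFinAddOrder P := by
  have t0 : 2 * D.natAbs ≠ 0 := mul_ne_zero two_ne_zero (Int.natAbs_ne_zero.2 hD)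
  have w : CX.Tw (-432 * n ^ 2 * D ^ 3) D (n * (2 * D.natAbs) ^ 3) :=
    ⟨mul_ne_zero hn (pow_ne_zero 3 t0), by
      have := Int.natAbs_sq D
      generalize D.natAbs = a at this
      push_cast
      linear_combination 1728 * n ^ 2 * (a ^ 4 + a ^ 2 * D ^ 2 + D ^ 4) * this⟩
  rw [← ac_cube hn t0] at h hP
  generalize -432 * n ^ 2 * D ^ 3 = b at w
  have : (Ek b).IsElliptic := ⟨IsUnit.mk0 _ (by
    simp [Ek, WeierstrassCurve.Δ, WeierstrassCurve.b₂, WeierstrassCurve.b₄, WeierstrassCurve.b₆,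
      WeierstrassCurve.b₈, w.b_ne])⟩
  have := (CX.lnk w hδ).fg h
  have r := (CX.lnk w hδ).rank h
  by_contra e
  have := rank_pos w hδ hP e
  omega

end Pool.Agent.Lib.MP_696deb_nt.Y3
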