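import Pool.Agent.Lib.MP_696deb_nt.Y3.KB

/-! The limit argument in the case of rank one. -/

set_option autoImplicit false

open scoped Classical NNReal
open Finset Matrix PowerSeries

namespace Pool.Agent.Lib.MP_696deb_nt.EV

namespace Dat

variable {Γ κ : Type} [Group Γ] [Fintype κ] (D : Dat Γ κ)

/-- The properties in the case of rank at most one. -/
structure Ok2 (Sp : D.St 1 → Prop) : Prop extends D.Ok0 where
  erl : ∀ s : D.St 1, D.Ext D.s0 s → ∀ c ∈ D.Z s false (Ideal.span {X}), D.Km c →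
    c (D.gen s (.inl none)) * D.F true (D.φ s none) ∈ Ideal.span {(X : La)}
  sel2 : ∀ c ∈ D.Z D.s0 false (Ideal.span {X}), ∀ c' ∈ D.Z D.s0 false (Ideal.span {X}),
    D.Km c → D.Km c' → ¬ D.Two false (Ideal.span {X}) c c'
  conj : ∀ c ∈ D.Z D.s0 false (Ideal.span {X}), ∃ c' ∈ D.Z D.s0 true (Ideal.span {X}),
    ∀ g, c' g ∈ Ideal.span {(X : La)} ↔ c g ∈ Ideal.span {(X : La)}
  recip' : ∀ s : D.St 1, ∀ c ∈ D.Z s true (Ideal.span {X}), ∀ c' ∈ D.Z s false (Ideal.span {X}),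
    (∀ i, c (D.e i) ∈ Ideal.span {(X : La)}) →
    c' (D.φ s none) * c (D.gen s (.inl none)) - c' (D.gen s (.inl none)) * c (D.φ s none) ∈
      Ideal.span {(X : La)}
  step1 : ∃ (N : Subgroup Γ) (y : Γ), N ≤ D.N D.s0 ∧ y ∈ D.N D.s0 ∧
    (∀ g, cmt D.g0 (cmt D.g0 g) ∈ N) ∧ ∀ x ∈ N, ∀ (m : ℕ) (c : Fin m → Γ → La) (b : Fin m → Bool)
    (J : Fin m → Ideal La), (∀ i, Pr (J i) ∧ c i ∈ D.Z D.s0 (b i) (J i)) →
    ∃ (s : D.St 1) (t : La), D.Ext D.s0 s ∧ Sp s ∧ IsUnit t ∧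
      ∀ i, c i (D.φ s none) - t * c i (y * x) ∈ J i
  erl1 : ∀ s : D.St 1, Sp s → ∀ s' : D.St 2, D.Ext s s' →
    ∀ c ∈ D.Z s' false (Ideal.span {X}), D.Km c →
    (c (D.φ s' (some none)) * D.kap s true (D.gen s' (.inl (some none))) -
        c (D.gen s' (.inl (some none))) * D.kap s true (D.φ s' (some none)) ∈ Ideal.span {(X : La)} ↔
      c (D.φ s' none) * D.kap s true (D.gen s' (.inl none)) -
        c (D.gen s' (.inl none)) * D.kap s true (D.φ s' none) ∈ Ideal.span {(X : La)})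

variable {D} {Sp : D.St 1 → Prop}

theorem Ok2.new1 (h : D.Ok2 Sp) {m : ℕ} (c : Fin m → Γ → La) (b : Fin m → Bool)
    (J : Fin m → Ideal La) (hc : ∀ i, Pr (J i) ∧ c i ∈ D.Z D.s0 (b i) (J i))
    (h0 : ∀ i, ∃ g, D.hat (b i) (c i) g ∉ J i) :
    ∃ s : D.St 1, D.Ext D.s0 s ∧ Sp s ∧ ∀ i, c i (D.φ s none) ∉ J i := by
  obtain ⟨N, y, hN, hy, hg, hs⟩ := h.step1
  have k : ∀ T : Finset (Fin m), ∃ x ∈ N, ∀ i ∈ T, c i x ∉ J i := fun T => by
    induction T using Finset.induction_on with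
    | empty => exact ⟨1, one_mem _, fun i hi => absurd hi (notMem_empty i)⟩
    | insert j T _ ih =>
      obtain ⟨x, hx, k⟩ := ih
      obtain ⟨g, e0⟩ := h0 j
      have k1 : c j (cmt D.g0 (cmt D.g0 g)) ∉ J j := fun e =>
        ((hc j).1.1.mem_or_mem (((J j).sub_mem_iff_right e).1 (h.toOk0.val_cmt (hc j).2 g))).elim
          (h.vp _ _ (hc j).1) e0
      obtain ⟨t, ht⟩ := ((insert j T).finite_toSet.biUnion fun i hi =>
        (h.toOk0.topA_sub (hc i).1 (hc i).2 (hN hx) (hN (hg g)) ((mem_insert.1 hi).symm.imp (k i)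
          fun e : i = j => e ▸ k1)).finite).exists_notMem
      exact ⟨_, mul_mem hx (pow_mem (hg g) t), fun i hi e => ht (Set.mem_biUnion hi e)⟩
  obtain ⟨x, hx, k⟩ := k univ
  obtain ⟨t, ht⟩ := (Set.finite_iUnion fun i => (h.toOk0.topA_sub (hc i).1 (hc i).2 hy (hN hx)
    (.inr (k i (mem_univ i)))).finite).exists_notMem
  obtain ⟨s, u, h1, h2, h3, h4⟩ := hs _ (pow_mem hx t) m c b J hc
  exact ⟨s, h1, h2, fun i e => ht (Set.mem_iUnion.2 ⟨i,
    ((J i).unit_mul_mem_iff_mem h3).1 (((J i).sub_mem_iff_right e).1 (h4 i))⟩)⟩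

theorem ktop_one : (1 : La) ∉ Ideal.span {(X : La)} := (Ideal.ne_top_iff_one _).1 pr_X.ne_top

omit [Fintype κ] in
theorem ktop_zero {c : Γ → La} (he : ∀ i, c (D.e i) ∈ Ideal.span {(X : La)}) : D.Km c :=
  ⟨1, 0, 0, ktop_one, fun i => by simpa using he i⟩

theorem Ok0.ktop_km (h : D.Ok0) {n : ℕ} {s : D.St n} {c c' : Γ → La}
    (c1 : c ∈ D.Z s false (Ideal.span {X})) (c2 : c' ∈ D.Z s false (Ideal.span {X}))
    (k : D.Two false (Ideal.span {X}) c c') : ∃ t t' : La, D.Km (t • c + t' • c') ∧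
      ∃ g, D.hat false (t • c + t' • c') g ∉ Ideal.span {(X : La)} := by
  by_cases hc : D.Km c
  · refine ⟨1, 0, ?_⟩
    rw [one_smul, zero_smul, add_zero]
    refine ⟨hc, ?_⟩
    by_contra! e
    exact ktop_one (k 1 0 fun g => by simpa using e g).1
  have i2 : Indep (Ideal.span {(X : La)}) ![fun i => D.ρ false (D.e i) - 1, D.k] := fun t ht => by
    simp only [Fin.sum_univ_two, cons_val_zero, cons_val_one] at ht
    have h1 := h.ind _ _ ht
    obtain ⟨i, hi⟩ := h.ne _ pr_X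
    refine Fin.forall_fin_two.2 ⟨(pr_X.1.mem_or_mem ?_).resolve_right hi, h1⟩
    exact (Ideal.add_mem_iff_left _ (Ideal.mul_mem_right _ _ h1)).1 (ht i)
  have i3 := i2.cons pr_X.1 (y := fun i => c (D.e i)) fun d t ht => by
    by_contra e
    exact hc ⟨d, t 0, t 1, e, fun i => by
      simpa only [Fin.sum_univ_two, cons_val_zero, cons_val_one] using ht i⟩
  have i4 := mt (i3.cons pr_X.1 (y := fun i => c' (D.e i))) (h.topd_four pr_X fun i => by
    refine Fin.cases (h.W_mem s _ _ c2) (fun i => Fin.cases (h.W_mem s _ _ c1) (fun i => ?_) i) i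
    revert i
    exact Fin.forall_fin_two.2 ⟨h.W_mem s _ _ ((h.pres s false).cob _), h.k_mem⟩)
  push Not at i4
  obtain ⟨d, t, h1, h2⟩ := i4
  refine ⟨-t 0, d, ⟨1, t 1, t 2, ktop_one, fun i => ?_⟩, ?_⟩
  · convert h1 i using 1
    rw [Fin.sum_univ_three]
    change 1 * (-t 0 * c (D.e i) + d * c' (D.e i)) - _ = d * c' (D.e i) -
      (t 0 * c (D.e i) + t 1 * (D.ρ false (D.e i) - 1) + t 2 * D.k i)
    ring
  · by_contra! e
    refine h2 (k (-t 0) d fun g => ?_).2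
    convert e g using 1
    simp only [hat, Pi.add_apply, Pi.smul_apply, smul_eq_mul]
    ring

/-- A dual class with Kummer values at three that vanishes at the first new Frobenius element. -/
theorem Ok0.exists_km2 (h : D.Ok0) (s : D.St 2) : ∃ c ∈ D.Z s false (Ideal.span {X}), D.Km c ∧
    c (D.φ s (some none)) ∈ Ideal.span {(X : La)} ∧
    ∃ g, D.hat false c g ∉ Ideal.span {(X : La)} := by
  obtain ⟨x, x1, x2⟩ := exists_indep pr_X.1 (m := 3) (Matrix.of fun i : Option (Jx κ 0) =>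
    i.elim (D.L s false (D.φ s (some none))) fun i =>
      relR (D.ρ false) (D.gen s) (D.φ s) (D.L s false) (some (some i))) (by
      rw [Fintype.card_sum, Fintype.card_option, Jx.card, Jx.card, Fintype.card_fin])
  have z (i : Jx κ 2) (hi : i.deep) (a : Fin 3) :
      relR (D.ρ false) (D.gen s) (D.φ s) (D.L s false) i ⬝ᵥ x a ∈ Ideal.span {(X : La)} := by
    rw [topA_rel, (h.deep s false i hi).1, (h.deep s false i hi).2, sub_self, zero_mul, zero_mul,
      sub_self]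
    exact Ideal.zero_mem _
  choose c c1 c2 using fun a => (h.pres s false).ex _ pr_X (x a) fun j => by
    rcases j with _ | _ | j
    exacts [z none trivial a, z (some none) trivial a, x2 a (some j)]
  have c3 : ∀ a, c a (D.φ s (some none)) ∈ Ideal.span {(X : La)} := fun a => by
    have k1 : D.L s false (D.φ s (some none)) ⬝ᵥ x a ∈ Ideal.span {(X : La)} := x2 a none
    have k2 := topA_dot (D.L s false (D.φ s (some none))) (c2 a)
    have k3 := (h.pres s false).val _ pr_X _ (c1 a) (D.φ s (some none))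
    convert Ideal.add_mem _ (Ideal.add_mem _ k3 k2) k1 using 1
    simp only [dotProduct, mul_sub, sum_sub_distrib]
    ring
  obtain ⟨i, j, k⟩ := h.two pr_X c c1 (topb_indep x1 c2)
  obtain ⟨t, t', k1, k2⟩ := h.ktop_km (c1 i) (c1 j) k
  exact ⟨_, add_mem (Submodule.smul_mem _ _ (c1 i)) (Submodule.smul_mem _ _ (c1 j)), k1,
    Ideal.add_mem _ (Ideal.mul_mem_left _ _ (c3 i)) (Ideal.mul_mem_left _ _ (c3 j)), k2⟩

theorem Ok0.ktop_rat (h : D.Ok0) : ∃ p : La, p ∉ Ideal.span {(X : La)} ∧ Rat (D.B D.s0)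
    (fun j => D.ρ true (D.gen D.s0 j) - 1) (fun j => D.kap D.s0 true (D.gen D.s0 j)) p 1 := by
  obtain ⟨R, hR⟩ := h.ratio true
  refine ⟨(D.ρ true D.g0 - 1) * R, fun e => (pr_X.1.mem_or_mem e).elim (h.vp true _ pr_X)
    fun e => h.ratio_ne hR (mem_span_X.1 e), fun l l' => ?_⟩
  have e : (fun j => D.kap D.s0 true (D.gen D.s0 j)) =
      (D.ρ true D.g0 - 1) • (fun j => D.F true (D.gen D.s0 j)) -
        D.F true D.g0 • fun j => D.ρ true (D.gen D.s0 j) - 1 := funext fun j => by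
    rw [h.kap0, hat, mul_comm _ (D.F true D.g0)]
    rfl
  rw [mul_assoc, ← hR l l', e]
  simp only [wd, dotProduct_sub, dotProduct_smul, smul_eq_mul]
  ring

/-- The derived class of one new prime is not zero at the bottom of the tower. -/
theorem Ok0.kap_ne (h : D.Ok0) {s : D.St 1} (E : D.Ext D.s0 s)
    (h0 : D.kap D.s0 true (D.φ s none) ≠ 0) (hz : ¬ D.Zr s (Ideal.span {X}) 3) :
    ∃ g, D.hat true (D.kap s true) g ∉ Ideal.span {(X : La)} := by
  by_contra! k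
  obtain ⟨p, p1, p2⟩ := h.ktop_rat
  obtain ⟨-, ε, r2, r3⟩ := rat_step (B := D.B D.s0) (B' := D.B s)
    (a' := fun j => D.ρ true (D.gen s j) - 1) (c' := fun j => D.kap s true (D.gen s j))
    E.B (h.topc_cob s) (funext fun i => h.ker pr_bot (h.kap_mem s true) (h.kap_φ s true) i)
    (fun e => X_ne_zero ((sub_eq_iff_eq_add'.2 h.σ_lam).symm.trans (congrFun e (.inl none))))
    (fun j => by rw [E.gen]) (sub_eq_zero.2 (h.deep s true none trivial).2)
    ((E.kap true).trans (congrArg Neg.neg ((sub_eq_zero.1 ((h.pres D.s0 true).val ⊥ pr_bot _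
      (h.kap_mem D.s0 true) _)).trans (congrArg (· ⬝ᵥ _) (funext E.B_none).symm))))
    ((E.kap true).trans_ne (neg_ne_zero.2 h0)) one_ne_zero p2
  refine hz (three_of_dt pr_X.1 fun l l' => ?_)
  have k1 : ε * p * Dt (D.B s) l l' ∈ Ideal.span {(X : La)} :=
    (congrArg (· ∈ Ideal.span {(X : La)}) (r3 l l')).mp
      (Ideal.mul_mem_left _ 1 (h.hat_wd (s := s) pr_X k l l'))
  rw [mul_assoc, Ideal.unit_mul_mem_iff_mem _ r2] at k1
  exact (pr_X.1.mem_or_mem k1).resolve_left p1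

theorem Ok0.kap0_ne (h : D.Ok0) : ∃ g, D.hat true (D.kap D.s0 true) g ∉ (⊥ : Ideal La) := by
  by_contra! k
  obtain ⟨p, p1, p2⟩ := h.ktop_rat
  have d1 := h.dt0.not_dvd
  have k1 := (Ideal.mem_bot.1 (h.hat_wd (s := D.s0) pr_bot k (Pi.single (.inl none) 1)
    (Pi.single (.inr 0) 1)))
  have k2 := p2 (Pi.single (.inl none) 1) (Pi.single (.inr 0) 1)
  rw [k1, mul_zero] at k2
  rcases mul_eq_zero.1 k2.symm with e | e
  · exact p1 (e ▸ Ideal.zero_mem _)
  · exact d1 (e ▸ dvd_zero _)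

theorem Ok2.caseA (h : D.Ok2 Sp) (hF : ∃ g, D.hat true (D.F true) g ∉ Ideal.span {(X : La)}) :
    False := by
  by_cases hs : ∀ c ∈ D.Z D.s0 false (Ideal.span {X}), D.Km c →
      ∀ g, D.hat false c g ∈ Ideal.span {(X : La)}
  · exact Ok.false { h.toOk0 with sel := hs, erl := h.erl }
  push Not at hs
  obtain ⟨c, hc, km, h0⟩ := hs
  obtain ⟨s, E, sp, hn⟩ := h.new1 ![D.F true, c] ![true, false] (fun _ => Ideal.span {X})
    (fun i => by
      fin_cases i
      exacts [⟨pr_X, (h.pres _ _).mono _ (h.F_mem true)⟩, ⟨pr_X, hc⟩])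
    (fun i => by
      fin_cases i
      exacts [hF, h0])
  have n0 : D.F true (D.φ s none) ∉ Ideal.span {(X : La)} := hn 0
  have n1 : c (D.φ s none) ∉ Ideal.span {(X : La)} := hn 1
  obtain ⟨s', E', -⟩ := h.toOk0.new s (m := 0) Fin.elim0 Fin.elim0 Fin.elim0 (fun i => i.elim0)
    fun i => i.elim0
  have k := (h.erl1 s sp s' E' c (E'.le _ _ (E.le _ _ hc)) km).2 (Ideal.sub_mem _
    (Ideal.mul_mem_left _ _ (E'.zero _ _ _ ((h.pres _ _).mono _ (h.kap_mem s true))))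
    (Ideal.mul_mem_right _ _ (E'.zero _ _ _ (E.le _ _ hc))))
  have e1 : D.φ s' (some none) = D.φ s none := E'.φ none
  have e2 : D.gen s' (.inl (some none)) = D.gen s (.inl none) := E'.gen (.inl none)
  rw [e1, e2, h.kap_φ s true none trivial, mul_zero, sub_zero, E.kap, h.kap0, hat,
    (h.deep s true none trivial).1, sub_self, zero_mul, sub_zero] at k
  exact (pr_X.1.mem_or_mem k).elim n1 fun k =>
    (pr_X.1.mem_or_mem (neg_mem_iff.1 k)).elim (h.vp true _ pr_X) n0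

theorem Ok2.caseB (h : D.Ok2 Sp) {c : Γ → La} (hc : c ∈ D.Z D.s0 false (Ideal.span {X}))
    (he : ∀ i, c (D.e i) ∈ Ideal.span {(X : La)})
    (h0 : ∃ g, D.hat false c g ∉ Ideal.span {(X : La)}) : False := by
  obtain ⟨c', hc', cj⟩ := h.conj c hc
  obtain ⟨s, E, sp, hn⟩ := h.new1 ![c, D.kap D.s0 true] ![false, true] ![Ideal.span {X}, ⊥]
    (fun i => by
      fin_cases i
      exacts [⟨pr_X, hc⟩, ⟨pr_bot, h.kap_mem _ true⟩])
    (fun i => by
      fin_cases i
      exacts [h0, h.toOk0.kap0_ne])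
  have n0 : c (D.φ s none) ∉ Ideal.span {(X : La)} := hn 0
  have n1 : D.kap D.s0 true (D.φ s none) ≠ 0 := hn 1
  have L : ∀ d ∈ D.Z s false (Ideal.span {X}), D.Km d → d (D.φ s none) ∈ Ideal.span {(X : La)} →
      ∀ g, D.hat false d g ∈ Ideal.span {(X : La)} := fun d hd km d0 g => by
    have r := h.recip' s c' (E.le _ _ hc') d hd fun i => (cj _).2 (he i)
    rw [Submodule.sub_mem_iff_right _ (Ideal.mul_mem_right _ _ d0)] at r
    have d1 := E.unr _ _ pr_X d hd ((pr_X.1.mem_or_mem r).resolve_right fun e => n0 ((cj _).1 e))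
    by_contra e
    refine h.sel2 c hc d d1 (ktop_zero he) km fun t t' k => ?_
    have k1 := k (D.φ s none)
    simp only [hat, (h.deep s false none trivial).1, sub_self, zero_mul, sub_zero] at k1
    rw [Ideal.add_mem_iff_left _ (Ideal.mul_mem_left _ _ (Ideal.mul_mem_left _ _ d0))] at k1
    have k2 := (pr_X.1.mem_or_mem k1).resolve_right fun e =>
      (pr_X.1.mem_or_mem e).elim (h.vp false _ pr_X) n0
    exact ⟨k2, (pr_X.1.mem_or_mem ((Ideal.add_mem_iff_right _ (Ideal.mul_mem_right _ _ k2)).1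
      (k g))).resolve_right e⟩
  have hz : ¬ D.Zr s (Ideal.span {X}) 3 := fun hz => by
    obtain ⟨-, d, d1, d2, d3, g, d4⟩ := h.toOk0.dual pr_X hz
    exact d4 (L d d1 (ktop_zero d3) (d2 none trivial) g)
  have km := (h.pres s true).mono (Ideal.span {X}) (h.kap_mem s true)
  obtain ⟨s', E', n2⟩ := h.toOk0.new s (m := 1) (fun _ => D.kap s true) (fun _ => true)
    (fun _ => Ideal.span {X}) (fun _ => ⟨pr_X, km⟩) fun _ => h.toOk0.kap_ne E n1 hz
  obtain ⟨d, d1, d2, d3, g, d4⟩ := h.toOk0.exists_km2 s'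
  have e1 : D.φ s' (some none) = D.φ s none := E'.φ none
  have k := (h.erl1 s sp s' E' d d1 d2).1 (Ideal.sub_mem _ (Ideal.mul_mem_right _ _ d3) (by
    rw [e1, h.kap_φ s true none trivial, mul_zero]
    exact Ideal.zero_mem _))
  rw [Submodule.sub_mem_iff_right _ (Ideal.mul_mem_left _ _ (E'.zero _ _ _ km))] at k
  exact d4 (L d (E'.unr _ _ pr_X d d1 ((pr_X.1.mem_or_mem k).resolve_right (n2 0))) d2 (e1 ▸ d3) g)

theorem Ok2.false (h : D.Ok2 Sp) : False := by
  by_cases k : ∃ g, D.hat true (D.F true) g ∉ Ideal.span {(X : La)}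
  · exact h.caseA k
  push Not at k
  obtain ⟨R, hR⟩ := h.toOk0.ratio true
  obtain ⟨-, c, c1, -, c2, c3⟩ := h.toOk0.dual pr_X (three_of_dt pr_X.1 fun l l' =>
    (pr_X.1.mem_or_mem (hR l l' ▸ h.toOk0.hat_wd pr_X k l l')).resolve_left
      fun e => h.toOk0.ratio_ne hR (mem_span_X.1 e))
  exact h.caseB c1 c2 c3

end Dat

end Pool.Agent.Lib.MP_696deb_nt.EV
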