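import Pool.Agent.Lib.MP_696deb_nt.EV.Main
import Pool.Agent.Lib.MP_696deb_nt.Y3.KTop
import Pool.Agent.Lib.MP_696deb_nt.Y3.KT1
import Pool.Agent.Lib.MP_696deb_nt.Y3.KT2
import Pool.Agent.Lib.MP_696deb_nt.Y3.KStep

/-! Rank at most one: a first derivative of bounded valuation. -/

set_option autoImplicit false

open scoped Classical NNReal
open Finset PowerSeries

namespace Pool.Agent.Lib.MP_696deb_nt.EV

theorem exists_cb7 {D : ℕ} (hD : D ≠ 0 ∧ ∀ q : ℕ, D.factorization q < 3) {q : ℕ} (hq : q.Prime)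
    (h2 : q ≠ 3) (h7 : q ≠ 7) (hv : q ∣ D) {φ : O → O} (hφ : Phi D φ) :
    ∃ c : Cb, c.t.N = D ∧ c.φ = φ ∧ ¬ (c.tp c.i0).π ∣ 7 := by
  obtain ⟨c, rfl, rfl⟩ := exists_cb hD hq h2 hv hφ
  obtain ⟨v, rfl⟩ := B2.exists_plc hq
  obtain ⟨π, p1, p2, p3⟩ := g1_pi h2
  have p4 := (g1_lt p1 p3).1 (g1_p v)
  obtain ⟨i, hi⟩ := (c.all π p1 (p4.trans (Nat.cast_dvd_cast hv))).resolve_left fun e =>
    (g1_dvd p3 e).ne (p1_V_w h2)
  refine ⟨{ c with i0 := i }, rfl, rfl, fun k => h7 ?_⟩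
  have k1 := (((Nat.coprime_primes hq (by norm_num : Nat.Prime 7)).2.mt fun e =>
    p1.not_isUnit ((Nat.Coprime.cast (R := O) e).isUnit_of_dvd' p4 (hi.trans k))))
  exact not_not.1 k1

theorem Cx.ok0 (c : Cx) : c.dat.Ok0 :=
  ⟨c.ok_vp, c.ok_ne, c.ok_pres, c.ok_deep, c.ok_W_mem, c.ok_lw, c.ok_unit, c.ok_recip, c.ok_N_ρ,
    c.ok_comm, c.ok_step, c.ok_kap_mem, c.ok_kap_φ, c.ok_F_mem, c.ok_kap0, c.ok_σ_w, c.ok_φ_T,
    c.ok_σ_lam, c.ok_L_lam, c.ok_gi_w, c.ok_F_T, c.ok_sym, c.ok_cc_T, c.ok_cc_0, c.ok_cc_ev,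
    c.ok_k_mem, c.ok_ind⟩

theorem Phi.hk {D : ℕ} {φ : O → O} (h : Phi D φ) (hD : D ≠ 0) (e : ℕ) :
    Hk ((D * 3 ^ (e + 2) : ℕ) : O) φ :=
  ⟨Nat.cast_ne_zero.2 (by positivity), ⟨D * 3 ^ (e + 1), by push_cast; ring⟩,
    fun _ _ k => h.per' ⟨3 ^ e, by push_cast; ring⟩ k, h.gch.mul, h.gch.unit, h.gch.neg,
    h.gch.conj, fun _ => c8_zero h.gch⟩

/-- If the Selmer group has corank at most one and the central value vanishes, the first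
derivatives have bounded valuation. -/
theorem kur_main {D : ℕ} (hD : D ≠ 0 ∧ ∀ q : ℕ, D.factorization q < 3) {q : ℕ} (hq : q.Prime)
    (h2 : q ≠ 3) (h7 : q ≠ 7) (hv : q ∣ D) (h : CU.Gro D 3) {φ : O → O} (hφ : Phi D φ)
    (hz : Hz (9 * D) φ) : Kur φ := by
  obtain ⟨c, rfl, rfl, h6⟩ := exists_cb7 hD hq h2 h7 hv hφ
  let d : Cx := ⟨c, fun k => (c.exists_lv k).some⟩
  have k : ¬ c.Small := fun hs => Dat.Ok2.false (Sp := d.Sp) ⟨d.ok0, d.ok_erl (c.van hz),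
    d.ok_sel2 h, d.ok_conj, d.ok_recip', d.ok_step1 h6, d.ok_erl1 hs⟩
  unfold Cb.Small at k
  push Not at k
  obtain ⟨e, a, k⟩ := k
  exact ⟨c.m0 e, _, a, hφ.hk hD.1 (e + 1), (c.α true).prime, c.nd_m0 e _ (c.α_nd _), k⟩

/-- If the Selmer group is finite, the central value does not vanish. -/
theorem not_hz {D : ℕ} (hD : D ≠ 0 ∧ ∀ q : ℕ, D.factorization q < 3) {q : ℕ} (hq : q.Prime)
    (h2 : q ≠ 3) (hv : q ∣ D) (h : CU.Gro D 2) {φ : O → O} (hφ : Phi D φ) : ¬ Hz (9 * D) φ :=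
  fun hz => by
    obtain ⟨c, rfl, rfl⟩ := exists_cb hD hq h2 hv hφ
    exact (Cx.ok ⟨c, fun k => (c.exists_lv k).some⟩ h (c.van hz)).false

end Pool.Agent.Lib.MP_696deb_nt.EV
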