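import Pool.Agent.Lib.MP_696deb_nt.Y3.B2
import Pool.Agent.Lib.MP_696deb_nt.Y3.B6
import Pool.Agent.Lib.MP_696deb_nt.Y3.KMain

/-! The central value and the sums of logarithmic derivatives of elliptic units. -/

set_option autoImplicit false

open scoped Classical ComplexConjugate
open Filter Topology

namespace Pool.Agent.Lib.MP_696deb_nt.Y3

open CL (O nm om Per Gch)

variable {d : ℤ} {n q M : ℕ} {φ ψ : O → O} {L : ℂ → ℂ}

theorem hz_of {N : ℤ} (h : Gch N ψ) (per : Per M ψ) (h3 : 3 ∣ M) (hL : IsL ψ L) (h1 : L 1 = 0) :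
    EV.Hz M ψ := fun m hm k b c R hb hc hR => by
  have p := CL.f8_per per k
  have p' : Per m fun α => CL.toC (ψ α) := fun α γ => congrArg _ (p α γ)
  obtain ⟨L', a1, a2, a3⟩ := ent_per hm p' fun α => by
    have k : ((nm (ψ α) : ℤ) : ℝ) ≤ 1 := by exact_mod_cast h.bd α
    rw [← CL.normSq_toC, Complex.normSq_eq_norm_sq] at k
    exact (sq_le_one_iff₀ (norm_nonneg _)).1 k
  have e := tendsto_nhds_unique a3 (EW.tendsto_Ph hm p' (by
    rw [EW.phi_zero h (by decide), map_zero]))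
  rw [← hL.uniq ⟨a1, a2⟩, h1, eq_comm, map_eq_zero, mul_eq_zero] at e
  refine EW.sum_prim h hm p ?_ hR (h3.trans k) hb hc
  simpa only [CL.toC_star] using e.resolve_left
    (div_ne_zero EW.Om_ne (Nat.cast_ne_zero.2 hm.ne'))

namespace Red

variable (h : Red d n) (hφ : EV.Phi n φ)
include h hφ

theorem gch : Gch (3 * n * d) (qt d φ) := by
  refine ⟨h.qt_one hφ, h.qt_mul hφ, h.qt_om hφ, by rw [h.qt_neg hφ, h.qt_one hφ], h.qt_star hφ,
    fun p hp k α e => h.qt_zero hφ fun c => ?_, ⟨n * d, by ring⟩, fun p hp k => ?_, h.qt_le hφ⟩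
  · refine (Nat.prime_iff_prime_int.1 hp).not_isUnit ((cop_norm.1 c).isUnit_of_dvd' e ?_)
    rwa [← Int.dvd_natAbs, Int.natAbs_mul, Int.natAbs_mul] at k
  · have c := (Nat.prime_iff_prime_int.1 hp).irreducible.coprime_iff_not_dvd.2 k
    have e := hφ.gch.int p hp fun e => k (e.mul_right d)
    rw [qt, ← Int.cast_natCast (R := O) p, h.kN_int c.of_mul_right_right, Int.cast_natCast,
      Int.cast_one, mul_one, e]

theorem hk : EV.Hk ((9 * n * d.natAbs : ℕ) : O) (qt d φ) := by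
  refine ⟨Nat.cast_ne_zero.2 (mul_ne_zero (mul_ne_zero (by norm_num) h.ne)
    (Int.natAbs_ne_zero.2 h.d_ne)), ⟨3 * n * d.natAbs, by push_cast; ring⟩,
    fun _ _ k => EW.per_dvd (h.qt_per hφ) k, h.qt_mul hφ, h.qt_om hφ, (h.gch hφ).neg,
    h.qt_star hφ, fun a k => h.qt_zero hφ fun c => k ?_⟩
  exact (c.pow_right (n := 2)).of_isCoprime_of_dvd_right ⟨n * d.natAbs, by push_cast; ring⟩

theorem hz (hL : IsL (qt d φ) L) (h1 : L 1 = 0) : EV.Hz (9 * n * d.natAbs) (qt d φ) :=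
  hz_of (h.gch hφ) (h.qt_per hφ) ⟨3 * n * d.natAbs, by ring⟩ hL h1

end Red

theorem qt_one_left (φ : O → O) : qt 1 φ = φ := funext fun a => by
  rw [qt, EV.D.kN, kr_one_left, Int.cast_one, mul_one]

theorem GroD.one {s : ℕ} (h : GroD 1 n s) (hn : n ≠ 0) : CU.Gro n s := by
  have k := h 1 (by simp)
  rwa [CX.ac_one (map_one ·), CX.lk_one hn] at k

/-- The central value does not vanish in corank zero: the statement for nontrivial `d`. -/
def NzD : Prop := ∀ (d : ℤ) (n q : ℕ) (φ : O → O), EV.D.Fd d → Red d n → EV.Phi n φ → q.Prime →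
  q ≠ 3 → q ∣ n → GroD d n 2 → ¬ EV.Hz (9 * n * d.natAbs) (qt d φ)

/-- The first derivatives in corank at most one: the statement for nontrivial `d`. -/
def KuD : Prop := ∀ (d : ℤ) (n q : ℕ) (φ : O → O), EV.D.Fd d → Red d n → EV.Phi n φ → q.Prime →
  q ≠ 3 → q ≠ 7 → q ∣ n → GroD d n 3 → EV.Hz (9 * n * d.natAbs) (qt d φ) → EV.Kur (qt d φ)

theorem NzD.all (k : NzD) (h : Red d n) (hφ : EV.Phi n φ) (hq : q.Prime) (h3 : q ≠ 3) (hv : q ∣ n)
    (g : GroD d n 2) : ¬ EV.Hz (9 * n * d.natAbs) (qt d φ) := by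
  rcases h.fd with rfl | e
  · rw [qt_one_left, Int.natAbs_one, mul_one]
    exact EV.not_hz ⟨h.ne, h.cf⟩ hq h3 hv (g.one h.ne) hφ
  · exact k d n q φ e h hφ hq h3 hv g

theorem KuD.all (k : KuD) (h : Red d n) (hφ : EV.Phi n φ) (hq : q.Prime) (h3 : q ≠ 3) (h7 : q ≠ 7)
    (hv : q ∣ n) (g : GroD d n 3) (hz : EV.Hz (9 * n * d.natAbs) (qt d φ)) :
    EV.Kur (qt d φ) := by
  rcases h.fd with rfl | e
  · rw [qt_one_left, Int.natAbs_one, mul_one] at *
    exact EV.kur_main ⟨h.ne, h.cf⟩ hq h3 h7 hv (g.one h.ne) hφ hz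
  · exact k d n q φ e h hφ hq h3 h7 hv g hz

theorem NzD.cv0 (k : NzD) : Cv0 := fun _ _ _ _ _ h hφ hq h3 hv g hL h1 =>
  k.all h hφ hq h3 hv g (h.hz hφ hL h1)

end Pool.Agent.Lib.MP_696deb_nt.Y3
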