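import Pool.Agent.Lib.MP_696deb_nt.ED.B0
import Pool.Agent.Lib.MP_696deb_nt.EV.C7
import Pool.Agent.Lib.MP_696deb_nt.CX.D0
import Pool.Agent.Lib.MP_696deb_nt.CQ.W

/-! Sextic twists in reduced form: definitions. -/

set_option autoImplicit false

open scoped Classical

namespace Pool.Agent.Lib.MP_696deb_nt.Y3

open CL (O nm)
open B2 (Qbar)

/-- Reduced pairs: the twist of the curve `x ^ 3 + y ^ 3 = n` by the discriminant `d`. -/
structure Red (d : ℤ) (n : ℕ) : Prop where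
  ne : n ≠ 0
  cf : ∀ q : ℕ, n.factorization q < 3
  fd : d = 1 ∨ EV.D.Fd d

/-- The quadratic twist of the finite part of a Hecke character. -/
def qt (d : ℤ) (φ : O → O) (a : O) : O := φ a * EV.D.kN d a

/-- The growth condition for the pair; the Selmer corank is at most `s - 2`. -/
def GroD (d : ℤ) (n s : ℕ) : Prop := ∀ δ : Qbar, δ ^ 2 = d → CX.GroA (CX.ac δ n) s

/-- The entire function `L` continues the series of `ψ`. -/
def IsL (ψ : O → O) (L : ℂ → ℂ) : Prop := Differentiable ℂ L ∧ ∀ s : ℂ, 3 / 2 < s.re →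
  HasSum (fun α : O => CL.toC (ψ α) * CL.toC α / (nm α : ℂ) ^ s) (L s)

/-- The pair `(d1, n1)` is the companion of `(d, n)`. -/
structure Cmp (d : ℤ) (n : ℕ) (d1 : ℤ) (n1 : ℕ) : Prop where
  red : Red d n
  red1 : Red d1 n1
  sq : ∃ s : ℤ, d1 * s ^ 2 = -7 * d
  cb : ∃ t : ℕ, n1 * t ^ 3 = 49 * n ^ 2

/-- The numbers `D` and `d` generate the same extension of the Eisenstein field. -/
def RelD (D d : ℤ) : Prop := ∃ s c : ℤ, s ≠ 0 ∧ c ≠ 0 ∧
  (D * s ^ 2 = d * c ^ 2 ∨ D * s ^ 2 = -3 * d * c ^ 2)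

/-- The converse theorem in corank zero. -/
def Cv0 : Prop := ∀ (d : ℤ) (n q : ℕ) (φ : O → O) (L : ℂ → ℂ), Red d n → EV.Phi n φ → q.Prime →
  q ≠ 3 → q ∣ n → GroD d n 2 → IsL (qt d φ) L → L 1 ≠ 0

end Pool.Agent.Lib.MP_696deb_nt.Y3
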