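import Pool.Agent.Lib.MP_696deb_nt.Y2.AG1

/-! A curve of genus one with a rotation and an additional involution: definitions. -/

set_option autoImplicit false

open Complex Filter Topology Set MeasureTheory CongruenceSubgroup
open UpperHalfPlane hiding I
open scoped Real MatrixGroups ComplexConjugate Modular Classical
open Pool.Agent.Shared.Weier Pool.Agent.Dih Pool.Agent.Lib.MP_696deb_nt.Y2.An

namespace Pool.Agent.Lib.MP_696deb_nt.Y3.An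

/-- The factor of automorphy of a real matrix. -/
noncomputable def jacR (g : SL(2, ℝ)) (z : ℂ) : ℂ := g 1 0 * z + g 1 1

/-- The mirror image of a matrix. -/
def mir {R : Type} [CommRing R] (g : SL(2, R)) : SL(2, R) :=
  ⟨!![g 0 0, -g 0 1; -g 1 0, g 1 1], by
    rw [Matrix.det_fin_two_of, neg_mul_neg, ← Matrix.det_fin_two]
    exact g.det_coe⟩

/-- A curve with an involution. -/
structure CrvW extends Crv where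
  W : SL(2, ℝ)
  lam : ℂ
  c0 : ℂ

/-- The conditions on the curve. -/
structure CrvW.Ok (Y : CrvW) : Prop where
  lev : Y.toLev.Ok
  cf : Y.toLev.Cf Y.f
  three : 3 ≤ Y.u
  rho : Y.ρ ≠ 0
  rot : ∀ ζ : ℂ, ζ ^ Y.u = 1 → ∀ l ∈ Y.L.lattice, ζ * l ∈ Y.L.lattice
  pow : ∀ g ∈ Gamma0 Y.N, Y.ξ g ^ Y.u = 1
  onto : ∀ ζ : ℂ, ζ ^ Y.u = 1 → ∃ g ∈ Gamma0 Y.N, Y.ξ g = ζ
  a0 : Y.a 0 = 0
  ne : ∃ m, Y.a m ≠ 0
  qf : QE (fun z => Y.f (Y.h * z)) (PowerSeries.mk Y.a)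
  qφ : QE (fun z => Y.φ (Y.h * z) - Y.c0) (PowerSeries.mk fun m => Y.ρ * Y.a m / m)
  law : ∀ g ∈ Gamma0 Y.N, ∀ z : ℍ, Y.φ (g • z : ℍ) - Y.ξ g * Y.φ z ∈ Y.L.lattice
  inj : ∀ z w : ℍ, Y.φ z - Y.φ w ∈ Y.L.lattice →
    ∃ g ∈ Gamma0 Y.N, Y.ξ g = 1 ∧ z = g • w ∨ Y.ξ g * Y.lam = 1 ∧ z = g • Y.W • w
  cusp : ∀ g : SL(2, ℤ), ∃ c : ℂ, Tendsto (fun z : ℍ => Y.φ (g • z : ℍ)) atImInfty (𝓝 c) ∧
    ∀ w : ℍ, c - Y.φ w ∉ Y.L.lattice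
  Wpow : Y.lam ^ Y.u = 1
  Wf : ∀ z : ℍ, Y.f (Y.W • z : ℍ) = Y.lam * jacR Y.W z ^ 2 * Y.f z
  Wφ : ∀ z : ℍ, Y.φ (Y.W • z : ℍ) - Y.lam * Y.φ z ∈ Y.L.lattice
  Wl : ∀ g ∈ Gamma0 Y.N, ∃ g' ∈ Gamma0 Y.N, Y.ξ g' = Y.ξ g ∧
    (g : SL(2, ℝ)) * Y.W = Y.W * (g' : SL(2, ℝ))
  Wr : ∀ g' ∈ Gamma0 Y.N, ∃ g ∈ Gamma0 Y.N, (g : SL(2, ℝ)) * Y.W = Y.W * (g' : SL(2, ℝ))
  Wne : ∀ g : SL(2, ℤ), (g : SL(2, ℝ)) ≠ Y.W
  mirξ : ∀ g ∈ Gamma0 Y.N, Y.ξ (mir g) = Y.ξ g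
  mirW : ∃ g ∈ Gamma0 Y.N, Y.ξ g = -1 ∧ mir Y.W = Y.W * (g : SL(2, ℝ))

/-- Points with trivial stabiliser in the extended group. -/
def CrvW.Fr (Y : CrvW) (w : ℍ) : Prop := Free Y.N w ∧ ∀ g ∈ Gamma0 Y.N, w ≠ g • Y.W • w

/-- Points in different orbits of the extended group. -/
def CrvW.Sep (Y : CrvW) (z w : ℍ) : Prop := ∀ g ∈ Gamma0 Y.N, z ≠ g • w ∧ z ≠ g • Y.W • w

/-- The kernel summed over the rotations with a weight. -/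
noncomputable def CrvW.Zk (Y : CrvW) (k : ℕ) (p q : ℂ) : ℂ :=
  ∑ ζ ∈ mu Y.u, ζ ^ k * ZL Y.L (p - ζ * q)

/-- The level with the character that belongs to the weight `k`. -/
noncomputable def CrvW.lk (Y : CrvW) (k : ℕ) : Lev := ⟨Y.N, Y.h, fun g => Y.ξ g * conj (Y.ξ g) ^ k⟩

/-- The action of the involution on forms of weight two. -/
noncomputable def CrvW.sw (Y : CrvW) (Φ : ℂ → ℂ) (z : ℂ) : ℂ :=
  Φ (Y.W⁻¹ • ofComplex z : ℍ) * jacR Y.W (Y.W⁻¹ • ofComplex z : ℍ) ^ 2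

/-- The mirror image of a function. -/
noncomputable def mirF (Φ : ℂ → ℂ) (z : ℂ) : ℂ := conj (Φ (-conj z))

/-- Measurable functions with bounded invariant norm. -/
structure Bdd (Φ : ℂ → ℂ) : Prop where
  meas : Measurable fun z : ℍ => Φ z
  bd : ∃ C : ℝ, ∀ z : ℍ, ‖Φ z‖ * z.im ≤ C

/-- The statement on the Green function. -/
def GreenW (Y : CrvW) : Prop := ∀ z w : ℍ, Y.Fr w → Y.Sep z w →
  (∀ ε : ℝ, 0 < ε → Summable fun g : Gamma0 Y.N =>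
    kerK ε (Real.cosh (dist z ((g : SL(2, ℤ)) • w)))) ∧
  Tendsto (Y.toLev.gsum z w) (𝓝[>] 0)
    (𝓝 (-(Y.gr (Y.φ z) (Y.φ w) + Y.gr (Y.φ (-conj (z : ℂ))) (Y.φ (-conj (w : ℂ))))))

end Pool.Agent.Lib.MP_696deb_nt.Y3.An
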