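import Pool.Agent.Lib.MP_696deb_nt.Y3.AP2

/-! The formula of Jensen for two orbits. -/

set_option autoImplicit false

open Complex Filter Topology Set MeasureTheory CongruenceSubgroup
open UpperHalfPlane hiding I
open scoped Real MatrixGroups ComplexConjugate Modular Classical
open Pool.Agent.Shared.Weier Pool.Agent.Dih Pool.Agent.Lib.MP_696deb_nt.Y2.An

namespace Pool.Agent.Lib.MP_696deb_nt.Y3.An

variable {Y : CrvW} {ζ : ℂ} {w : ℍ}

theorem CrvW.Ok.f_ne (h : Y.Ok) (hw : Y.Fr w) : Y.f w ≠ 0 := fun h0 => by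
  have fin := (((B5.HA.finite_near w w 2).image (· • w)).union
    ((B5.HA.finite_near w (Y.W • w) 2).image (· • Y.W • w))).sdiff (t := {w})
  obtain ⟨ε, e0, hε⟩ := Metric.mem_nhds_iff.1 (fin.isClosed.isOpen_compl.mem_nhds
    (x := w) fun k => k.2 rfl)
  refine deriv_ne_of_injOn (F := Y.φ) (z := w) (DifferentiableOn.analyticAt
    (fun z hz => (h.hol_φ z hz).differentiableWithinAt)
    ((isOpen_lt continuous_const Complex.continuous_im).mem_nhds w.im_pos))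
    (isOpenEmbedding_coe.isOpenMap.image_mem_nhds
      (Metric.ball_mem_nhds w (lt_min (half_pos e0) one_pos))) ?_
    (by rw [(h.hasDerivAt_φ w.im_pos).deriv, h0, mul_zero])
  rintro _ ⟨z, hz, rfl⟩ _ ⟨z', hz', rfl⟩ e
  rw [Metric.mem_ball, lt_min_iff] at hz hz'
  obtain ⟨g, hg, ⟨-, rfl⟩ | ⟨-, rfl⟩⟩ := h.inj z z' (by rw [e, sub_self]; exact zero_mem _)
  · have d := dist_triangle_left w (g • w) (g • z')
    rw [show dist (g • z') (g • w) = dist z' w from dist_smul (g : SL(2, ℝ)) z' w] at d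
    have k : g • w = w := by_contra fun k =>
      hε (a := g • w) (by rw [Metric.mem_ball, dist_comm]; linarith)
        ⟨Or.inl ⟨g, by rw [mem_ofPred_eq]; linarith, rfl⟩, k⟩
    rcases hw.1 g hg k with rfl | rfl <;> simp
  · have d := dist_triangle_left w (g • Y.W • w) (g • Y.W • z')
    rw [show dist (g • Y.W • z') (g • Y.W • w) = dist z' w from
      (dist_smul (g : SL(2, ℝ)) _ _).trans (dist_smul Y.W z' w)] at d
    exact (hε (a := g • Y.W • w) (by rw [Metric.mem_ball, dist_comm]; linarith)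
      ⟨Or.inr ⟨g, by rw [mem_ofPred_eq]; linarith, rfl⟩, (hw.2 g hg).symm⟩).elim

theorem CrvW.Ok.hol_sig (h : Y.Ok) (ζ v : ℂ) :
    Hol fun z => Shared.Weier.sig Y.L (ζ * Y.φ z - v) := fun z hz =>
  (differentiable_sig Y.L _).comp z (((h.hol_φ z hz).const_mul ζ).sub_const v)

theorem CrvW.Ok.deriv_sig_ne (h : Y.Ok) (hw : Y.Fr w) (hζ : ζ ^ Y.u = 1) (z : ℂ) (hz : 0 < z.im)
    (h0 : Shared.Weier.sig Y.L (ζ * Y.φ z - Y.φ w) = 0) :
    deriv (fun z => Shared.Weier.sig Y.L (ζ * Y.φ z - Y.φ w)) z ≠ 0 := by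
  have h1 := sig_eq_zero_iff.1 h0
  have := ((differentiable_sig Y.L (ζ * Y.φ z - Y.φ w)).hasDerivAt.comp z
    (((h.hasDerivAt_φ hz).const_mul ζ).sub_const (Y.φ w))).deriv
  simp only [Function.comp_def] at this
  have n : Y.f (⟨z, hz⟩ : ℍ) ≠ 0 := by
    obtain ⟨g, hg, ⟨-, e⟩ | ⟨-, e⟩⟩ := (h.mem_iff' hζ ⟨z, hz⟩ w).1 h1
    · exact e ▸ h.f_smul_ne (h.f_ne hw) hg
    · exact e ▸ h.f_smul_ne (h.f_W_ne (h.f_ne hw)) hg
  rw [this]
  refine mul_ne_zero (Y2.An.deriv_sig_ne h1) (mul_ne_zero (fun e => ?_) (mul_ne_zero (div_ne_zero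
    (mul_ne_zero two_pi_I_ne_zero h.rho) (Nat.cast_ne_zero.2 h.lev.hpos.ne')) n))
  simp [e, h.upos.ne'] at hζ

theorem ag1_two {P Q : SL(2, ℤ) → Prop} (h : Y.Ok) (hw : Y.Fr w)
    (hP : ∀ γ ∈ Gamma0 Y.N, P γ → P (-γ)) (hQ : ∀ γ ∈ Gamma0 Y.N, Q γ → Q (-γ)) {κ : ℍ → ℂ}
    (hκ : Function.Injective κ) {D : ℂ → ℝ} (hf : (Function.support D).Finite)
    (hD : ∀ s, D s ≠ 0 → ∃ γ ∈ Gamma0 Y.N, P γ ∧ κ (γ • w) = s ∨ Q γ ∧ κ (γ • Y.W • w) = s) :
    HasSum (fun γ : Gamma0 Y.N => (if P γ then D (κ ((γ : SL(2, ℤ)) • w)) else 0) +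
      if Q γ then D (κ ((γ : SL(2, ℤ)) • Y.W • w)) else 0) (2 * ∑ᶠ s, D s) := by
  let S := {s | ∃ γ ∈ Gamma0 Y.N, κ (γ • w) = s}
  have sp : ∀ {T : Set ℂ} {s}, T.indicator D s ≠ 0 → D s ≠ 0 := fun h =>
    (indicator_apply_ne_zero.1 h).2
  have f1 : (Function.support (S.indicator D)).Finite := hf.subset fun _ => sp
  have f2 : (Function.support (Sᶜ.indicator D)).Finite := hf.subset fun _ => sp
  have n : ∀ γ ∈ Gamma0 Y.N, κ (γ • Y.W • w) ∈ Sᶜ := fun γ m ⟨g, hg, e⟩ => hw.ne hg m (hκ e)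
  have a := (ag1_hasSum hw.1 hP hκ f1 fun s hs => by
    obtain ⟨γ, m, k⟩ := hD s (sp hs)
    exact ⟨γ, m, k.resolve_right fun k => n γ m (k.2 ▸ mem_of_indicator_ne_zero hs)⟩).add
    (ag1_hasSum (h.free_W hw.1) hQ hκ f2 fun s hs => by
    obtain ⟨γ, m, k⟩ := hD s (sp hs)
    exact ⟨γ, m, k.resolve_left fun k => mem_of_indicator_ne_zero hs ⟨γ, m, k.2⟩⟩)
  rw [← mul_add, ← finsum_add_distrib f1 f2] at a
  simp only [indicator_self_add_compl_apply] at a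
  refine a.congr_fun fun γ => ?_
  rw [indicator_of_mem (show _ ∈ S from ⟨γ, γ.2, rfl⟩), indicator_of_mem (n γ γ.2)]

theorem CrvW.Ok.jensen (h : Y.Ok) (hw : Y.Fr w) (hζ : ζ ^ Y.u = 1) (g : SL(2, ℝ))
    (h0 : Y.Sep (g • UpperHalfPlane.I) w) {r : ℝ} (hr : r ∈ Ioo (0 : ℝ) 1) :
    CircleIntegrable
      (fun p => Real.log ‖Shared.Weier.sig Y.L (ζ * Y.φ (g • cay p : ℍ) - Y.φ w)‖) 0 r ∧
    HasSum (fun γ : Gamma0 Y.N => (if ζ * Y.ξ γ = 1 then Real.posLog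
      (r / Real.tanh (dist (g • UpperHalfPlane.I) ((γ : SL(2, ℤ)) • w) / 2)) else 0) +
      if ζ * (Y.ξ γ * Y.lam) = 1 then Real.posLog
      (r / Real.tanh (dist (g • UpperHalfPlane.I) ((γ : SL(2, ℤ)) • Y.W • w) / 2)) else 0)
      (2 * (Real.circleAverage
        (fun p => Real.log ‖Shared.Weier.sig Y.L (ζ * Y.φ (g • cay p : ℍ) - Y.φ w)‖) 0 r -
        Real.log ‖Shared.Weier.sig Y.L (ζ * Y.φ (g • UpperHalfPlane.I : ℍ) - Y.φ w)‖)) := by
  have zi : ∀ z : ℍ, Shared.Weier.sig Y.L (ζ * Y.φ z - Y.φ w) = 0 ↔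
      ∃ γ ∈ Gamma0 Y.N, ζ * Y.ξ γ = 1 ∧ z = γ • w ∨
        ζ * (Y.ξ γ * Y.lam) = 1 ∧ z = γ • Y.W • w := fun z =>
    sig_eq_zero_iff.trans (h.mem_iff' hζ z w)
  obtain ⟨F, hF⟩ : ∃ F : ℂ → ℂ, F = fun z => Shared.Weier.sig Y.L (ζ * Y.φ z - Y.φ w) := ⟨_, rfl⟩
  have hol : Hol F := hF ▸ h.hol_sig ζ (Y.φ w)
  have e : ∀ z, Shared.Weier.sig Y.L (ζ * Y.φ z - Y.φ w) = F z := fun z => by rw [hF]
  have dn : ∀ z : ℍ, F z = 0 → deriv F z ≠ 0 := fun z k =>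
    hF ▸ h.deriv_sig_ne hw hζ z z.im_pos ((e z).trans k)
  simp only [e] at zi ⊢
  have n0 : F (g • cay 0 : ℍ) ≠ 0 := fun k => by
    obtain ⟨γ, h1, ⟨-, h2⟩ | ⟨-, h2⟩⟩ := (zi _).1 k
    · exact (h0 γ h1).1 (cay_zero ▸ h2)
    · exact (h0 γ h1).2 (cay_zero ▸ h2)
  have hd : ∀ u : ℂ, ‖u‖ < 1 → AnalyticAt ℂ (fun u => F (g • cay u : ℍ)) u := fun u hu =>
    AnalyticAt.comp (f := fun u => ((g • cay u : ℍ) : ℂ)) (DifferentiableOn.analyticAt
      (fun z hz => (hol z hz).differentiableWithinAt)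
      ((isOpen_lt continuous_const Complex.continuous_im).mem_nhds (im_pos _)))
      (B5.HA.analyticAt_smul_cay g hu)
  have cb : ∀ u, u ∈ Metric.closedBall (0 : ℂ) |r| ↔ ‖u‖ ≤ r := fun u => by
    rw [mem_closedBall_zero_iff, abs_of_pos hr.1]
  have han : AnalyticOnNhd ℂ (fun u => F (g • cay u : ℍ)) (Metric.closedBall 0 |r|) :=
    fun u hu => hd u (((cb u).1 hu).trans_lt hr.2)
  refine ⟨(han.mono Metric.sphere_subset_closedBall).meromorphicOn.circleIntegrable_log_norm, ?_⟩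
  rw [han.circleAverage_log_norm hr.1.ne' n0, cay_zero, add_sub_cancel_right]
  refine (ag1_two h hw (P := fun γ => ζ * Y.ξ γ = 1) (Q := fun γ => ζ * (Y.ξ γ * Y.lam) = 1)
    (fun γ m k => by rwa [h.lev.neg' m]) (fun γ m k => by rwa [h.lev.neg' m])
    (κ := fun z => cayInv (g⁻¹ • z)) (fun z z' k => by
      simpa only [cay_cayInv, smul_inv_smul] using congrArg (fun u => g • cay u) k)
    (((MeromorphicOn.divisor _ _).finiteSupport (isCompact_closedBall _ _)).subset fun u hu k =>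
      hu (by rw [k]; simp)) fun u hu => ?_).congr_fun fun γ => ?_
  · have h1 : u ∈ Metric.closedBall (0 : ℂ) |r| := by_contra fun k => hu (by
      rw [Function.locallyFinsuppWithin.apply_eq_zero_of_notMem _ k]; simp)
    have h2 := ((cb u).1 h1).trans_lt hr.2
    obtain ⟨γ, m, h3⟩ := (zi (g • cay u)).1 (by_contra fun k => hu (by
      rw [MeromorphicOn.AnalyticOnNhd.divisor_apply han h1,
        (hd u h2).analyticOrderAt_eq_zero.mpr k]; simp))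
    exact ⟨γ, m, h3.imp (And.imp_right fun h4 => by rw [← h4, inv_smul_smul, cayInv_cay h2])
      (And.imp_right fun h4 => by rw [← h4, inv_smul_smul, cayInv_cay h2])⟩
  suffices k : ∀ v : ℍ, F v = 0 → Real.posLog (r / Real.tanh (dist (g • UpperHalfPlane.I) v / 2)) =
      MeromorphicOn.divisor (fun u => F (g • cay u : ℍ)) (Metric.closedBall 0 |r|)
        (cayInv (g⁻¹ • v)) * Real.log (r * ‖0 - cayInv (g⁻¹ • v)‖⁻¹) by
    congr 1
    · exact if_ctx_congr Iff.rfl (fun a => k _ ((zi _).2 ⟨γ, γ.2, Or.inl ⟨a, rfl⟩⟩)) fun _ => rfl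
    · exact if_ctx_congr Iff.rfl (fun a => k _ ((zi _).2 ⟨γ, γ.2, Or.inr ⟨a, rfl⟩⟩)) fun _ => rfl
  intro v hv
  have h3 : F (g • cay (cayInv (g⁻¹ • v)) : ℍ) = 0 := by rwa [cay_cayInv, smul_inv_smul]
  rw [← dist_smul g⁻¹, inv_smul_smul, dist_comm, ← B5.HA.norm_cayInv]
  generalize cayInv (g⁻¹ • v) = u at h3
  have h7 : 0 < ‖u‖ := norm_pos_iff.2 fun k => n0 (k ▸ h3)
  by_cases hu : ‖u‖ ≤ r
  · have h2 := hu.trans_lt hr.2
    rw [MeromorphicOn.AnalyticOnNhd.divisor_apply han ((cb u).2 hu),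
      (hd u h2).analyticOrderAt_eq_one_of_zero_deriv_ne_zero h3,
      Real.posLog_eq_log (by rw [abs_of_pos (div_pos hr.1 h7), one_le_div h7]; exact hu)]
    · simp [div_eq_mul_inv]
    have h8 := (analyticAt_smul (g := (g : GL (Fin 2) ℝ)) (by simp)
      (cay u)).differentiableAt.hasDerivAt
    have h9 := deriv_smul_ne_zero (g := (g : GL (Fin 2) ℝ)) (by simp) (cay u)
    rw [coe_cay h2] at h8 h9
    have h10 := (HasDerivAt.comp (h := fun u => ((g • cay u : ℍ) : ℂ)) u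
      (hol _ (g • cay u).im_pos).hasDerivAt (h8.comp u (hasDerivAt_cayC h2))).deriv
    simp only [Function.comp_def] at h10
    rw [h10]
    exact mul_ne_zero (dn _ h3) (mul_ne_zero h9 (div_ne_zero (by simp)
      (pow_ne_zero _ (one_sub_ne h2))))
  · rw [Function.locallyFinsuppWithin.apply_eq_zero_of_notMem _ (mt (cb u).1 hu),
      (Real.posLog_eq_zero_iff _).2 (by
        rw [abs_of_pos (div_pos hr.1 h7), div_le_one h7]; exact (not_le.1 hu).le)]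
    simp

end Pool.Agent.Lib.MP_696deb_nt.Y3.An
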