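import Pool.Agent.Lib.MP_696deb_nt.Y3.AG1
import Pool.Agent.Lib.MP_696deb_nt.Y2.AG2

/-! The averages of the Green function tend to zero. -/

set_option autoImplicit false

open Complex Filter Topology Set MeasureTheory CongruenceSubgroup
open UpperHalfPlane hiding I
open scoped Real MatrixGroups ComplexConjugate Modular Classical
open Pool.Agent.Shared.Weier Pool.Agent.Dih Pool.Agent.Lib.MP_696deb_nt.Y2.An

namespace Pool.Agent.Lib.MP_696deb_nt.Y3.An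

variable {Y : CrvW} {ζ : ℂ} {w : ℍ}

theorem CrvW.Ok.lam0_ae (h : Y.Ok) (hζ : ζ ^ Y.u = 1) (w : ℍ) :
    Y.lam0 ζ w =ᵐ[volume] fun z : ℍ => lamL Y.L (ζ * Y.φ z - Y.φ w) := by
  have k : ∀ w : ℍ, ∀ᵐ z : ℍ, ∀ g : SL(2, ℤ), z ≠ g • w := fun w => ae_all_iff.mpr fun g => by
    have : volume ({g • w} : Set ℍ) = 0 := by
      rw [volume_eq_lintegral, image_singleton]
      simp
    simpa [ae_iff] using this
  filter_upwards [k w, k (Y.W • w)] with z hz hz'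
  exact if_neg fun e => ((h.mem_iff' hζ z w).1 e).elim fun g k =>
    k.2.elim (fun k => hz g k.2) fun k => hz' g k.2

theorem CrvW.Ok.lam0_smul (h : Y.Ok) (hζ : ζ ^ Y.u = 1) (w : ℍ) {g : SL(2, ℤ)}
    (hg : g ∈ Gamma0 Y.N) (z : ℍ) : Y.lam0 ζ w (g • z) = Y.lam0 (ζ * Y.ξ g) w z := by
  have h3 := h.rot ζ hζ _ (h.law g hg z)
  have e : ζ * Y.φ (g • z : ℍ) - Y.φ w =
      ζ * Y.ξ g * Y.φ z - Y.φ w + ζ * (Y.φ (g • z : ℍ) - Y.ξ g * Y.φ z) := by ring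
  rw [Crv.lam0, Crv.lam0, e]
  by_cases h4 : ζ * Y.ξ g * Y.φ z - Y.φ w ∈ Y.L.lattice
  · rw [if_pos h4, if_pos (add_mem h4 h3)]
  · rw [if_neg h4, if_neg fun h5 => h4 ((add_mem_cancel_right h3).mp h5), lamL_add h3 _ h4]

theorem CrvW.Ok.tame (h : Y.Ok) (hw : Y.Fr w) (hζ : ζ ^ Y.u = 1) {n : ℕ} (hn : Y.N ∣ n)
    (hk : ∀ g ∈ CongruenceSubgroup.Gamma n, Y.ξ g = 1) :
    Tame (CongruenceSubgroup.Gamma n) (Y.lam0 ζ w) := by
  have c0 := h.hol_φ.continuous_coe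
  have c1 : Continuous fun z : ℍ => ζ * Y.φ z - Y.φ w := by fun_prop
  refine ⟨Measurable.ite (c1.measurable Y.L.isClosed_lattice.measurableSet) measurable_const
    ((measurable_lamL _).comp c1.measurable), fun γ hγ z => ?_, ?_, fun g => ?_⟩
  · rw [h.lam0_smul hζ w (Gamma0_mem.2 ((ZMod.intCast_zmod_eq_zero_iff_dvd _ _).2
      ((Int.natCast_dvd_natCast.2 hn).trans ((ZMod.intCast_zmod_eq_zero_iff_dvd _ _).1
        (Gamma_mem.1 hγ).2.2.1)))), hk γ hγ, mul_one]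
  · exact ((ag2_loc (h.hol_sig ζ _) (h.deriv_sig_ne hw hζ)).sub
      (Continuous.locallyIntegrable (f := fun z : ℍ => ((ζ * Y.φ z - Y.φ w) *
        Shared.Weier.eta Y.L (ζ * Y.φ z - Y.φ w)).re / 2) (by fun_prop))).congr
      (h.lam0_ae hζ w).symm
  · obtain ⟨c, h1, h2⟩ := h.cusp' g
    have h3 := (h1.const_mul ζ).sub_const (Y.φ w)
    have h4 : Tendsto (fun z : ℍ => Y.lam0 ζ w (g • z)) atImInfty (𝓝 (lamL Y.L (ζ * c - Y.φ w))) :=
      ((continuousAt_lamL (h2 ζ hζ w)).tendsto.comp h3).congr' ((h3.eventually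
        (Y.L.isClosed_lattice.isOpen_compl.mem_nhds (h2 ζ hζ w))).mono fun z hz =>
          (if_neg hz).symm)
    obtain ⟨B, hB⟩ := (atImInfty_mem _).1 (h4.abs.eventually (eventually_le_nhds (lt_add_one _)))
    exact ⟨B, _, fun z _ hz => hB z hz⟩

theorem CrvW.Ok.integrable_lam0 (h : Y.Ok) (hw : Y.Fr w) (hζ : ζ ^ Y.u = 1) {ε : ℝ}
    (hε : 0 < ε) (z : ℍ) : Integrable fun v => akr ε z v * Y.lam0 ζ w v := by
  obtain ⟨n, h1, h2, h3⟩ := h.lev.ker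
  have : NeZero n := ⟨h1.ne'⟩
  exact (h.tame hw hζ h2 h3).integrable hε z

theorem CrvW.Ok.tendsto_avg (h : Y.Ok) (hw : Y.Fr w) (c : ℂ → ℝ)
    (hc : ∑ ζ ∈ mu Y.u, c ζ = 0) (z : ℍ) :
    Tendsto (fun ε => ∑ ζ ∈ mu Y.u, c ζ * avg ε (Y.lam0 ζ w) z) (𝓝[>] 0) (𝓝 0) := by
  obtain ⟨n, h1, h2, h3⟩ := h.lev.ker
  have : NeZero n := ⟨h1.ne'⟩
  choose! g k1 k2 using h.onto
  refine ((h.tame hw (one_pow _) h2 h3).tendsto_sum _ c (fun ζ => g ζ • z) hc).congr fun ε =>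
    Finset.sum_congr rfl fun ζ hζ => congrArg (c ζ * ·) ?_
  rw [mem_mu h.upos] at hζ
  refine (avg_smul ε _ (g ζ) z).trans (congrArg (avg ε · z) (funext fun v => ?_))
  exact (h.lam0_smul (one_pow _) w (k1 ζ hζ) v).trans (by rw [k2 ζ hζ, one_mul])

end Pool.Agent.Lib.MP_696deb_nt.Y3.An
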