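import Pool.Agent.Lib.MP_696deb_nt.Y3.AG2

/-! The Green function as a limit of sums over the group. -/

set_option autoImplicit false

open Complex Filter Topology Set MeasureTheory CongruenceSubgroup
open UpperHalfPlane hiding I
open scoped Real MatrixGroups ComplexConjugate Modular Classical
open Pool.Agent.Shared.Weier Pool.Agent.Dih Pool.Agent.Lib.MP_696deb_nt.Y2.An

namespace Pool.Agent.Lib.MP_696deb_nt.Y3.An

variable {Y : CrvW} {z w : ℍ}

theorem CrvW.Ok.gr_eq (h : Y.Ok) (c : ℂ → ℝ) (hc : ∑ ζ ∈ mu Y.u, c ζ = 0) (q : ℂ) :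
    ∃ H : ℂ → ℂ, Differentiable ℂ H ∧ ∀ p : ℂ, ∑ ζ ∈ mu Y.u, c ζ * lamL Y.L (ζ * p - q) =
      ∑ ζ ∈ mu Y.u, c ζ * Real.log ‖Shared.Weier.sig Y.L (ζ * p - q)‖ + (H p).re := by
  obtain ⟨a, b, -, hη⟩ := exists_eta_eq Y.L
  refine ⟨fun p => ∑ ζ ∈ mu Y.u, c ζ * (b * (ζ * p * conj q) - a * (ζ * p - q) ^ 2 / 2),
    by fun_prop, fun p => ?_⟩
  have e : ∑ ζ ∈ mu Y.u, c ζ * (b * (normSq p + normSq q) / 2) = 0 := by
    rw [← Finset.sum_mul, hc, zero_mul]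
  rw [re_sum, ← Finset.sum_add_distrib, ← add_zero (∑ ζ ∈ mu Y.u, c ζ * lamL _ _), ← e,
    ← Finset.sum_add_distrib]
  refine Finset.sum_congr rfl fun ζ hζ => ?_
  have n := congrArg Complex.re (h.conj_pow ((mem_mu h.upos).1 hζ)).2
  simp only [lamL, nerLam, hη, sq, normSq_apply, mul_re, mul_im, add_re, add_im, sub_re, sub_im,
    conj_re, conj_im, ofReal_re, ofReal_im, div_ofNat_re, div_ofNat_im, one_re] at n ⊢
  linear_combination -(c ζ * b * (p.re ^ 2 + p.im ^ 2) / 2) * n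

theorem ag3_single (h : Y.Ok) {x : ℂ} (hx : x ^ Y.u = 1) (c : ℂ → ℝ) (t : ℝ) :
    ∑ ζ ∈ mu Y.u, c ζ * (if ζ * x = 1 then t else 0) = c (conj x) * t := by
  obtain ⟨k1, k⟩ := h.conj_pow hx
  rw [Finset.sum_eq_single_of_mem _ ((mem_mu h.upos).2 k1) fun ζ _ j => by
    rw [if_neg fun e => j (by linear_combination conj x * e - ζ * k), mul_zero],
    if_pos (by rwa [mul_comm])]

theorem ag3_int {N : ℕ} (hz : ∀ g ∈ Gamma0 N, z ≠ g • w) {a : Gamma0 N → ℝ} {B ε : ℝ}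
    (ha : ∀ γ, ‖a γ‖ ≤ B) (hε : 0 < ε) {F : Gamma0 N → ℝ → ℝ} (hF : F = fun γ ρ => a γ *
      (nuK ε ρ * Real.posLog (ρ / Real.tanh (dist z ((γ : SL(2, ℤ)) • w) / 2)))) :
    (∀ γ, Integrable (F γ) (volume.restrict (Ioo 0 1))) ∧
      (Summable fun γ => ∫ ρ in Ioo 0 1, ‖F γ ρ‖) ∧ ∀ γ, ∫ ρ in Ioo 0 1, F γ ρ =
        a γ * kerK ε (Real.cosh (dist z ((γ : SL(2, ℤ)) • w))) := by
  subst hF
  have h2 := fun γ : Gamma0 N => integral_nuK_posLog hε
    (⟨B5.HA.tanh_pos (half_pos (dist_pos.mpr (hz γ γ.2))), Real.tanh_lt_one _⟩ :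
      Real.tanh (dist z ((γ : SL(2, ℤ)) • w) / 2) ∈ Ioo (0 : ℝ) 1)
  simp only [B5.HA.ch_eq_tanh] at h2
  refine ⟨fun γ => (h2 γ).1.const_mul _,
    .of_nonneg_of_le (fun _ => integral_nonneg fun _ => norm_nonneg _) (fun γ => ?_)
      ((B5.HA.summable_kerK _ hε z w).mul_left B), fun γ => by rw [integral_const_mul, (h2 γ).2]⟩
  simp only [norm_mul (a _), integral_const_mul]
  rw [setIntegral_congr_fun measurableSet_Ioo fun ρ hρ =>
    Real.norm_of_nonneg (mul_nonneg (nuK_nonneg hε hρ) Real.posLog_nonneg), (h2 γ).2]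
  exact mul_le_mul_of_nonneg_right (ha γ) (kerK_nonneg _ _)

theorem CrvW.Ok.hasSum_gr (h : Y.Ok) (hw : Y.Fr w) (hz : Y.Sep z w)
    (c : ℂ → ℝ) (hc : ∑ ζ ∈ mu Y.u, c ζ = 0) {ε : ℝ} (hε : 0 < ε) :
    HasSum (fun g : Gamma0 Y.N =>
      c (conj (Y.ξ g)) * kerK ε (Real.cosh (dist z ((g : SL(2, ℤ)) • w))) +
      c (conj (Y.ξ g * Y.lam)) * kerK ε (Real.cosh (dist z ((g : SL(2, ℤ)) • Y.W • w))))
      (2 * (∑ ζ ∈ mu Y.u, c ζ * avg ε (Y.lam0 ζ w) z -
        ∑ ζ ∈ mu Y.u, c ζ * lamL Y.L (ζ * Y.φ z - Y.φ w))) := by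
  obtain ⟨g, rfl⟩ : ∃ g : SL(2, ℝ), g • UpperHalfPlane.I = z := ⟨_, toSL2R_smul_I z⟩
  obtain ⟨H, hH, hG⟩ := h.gr_eq c hc (Y.φ w)
  have hμ : ∀ ζ ∈ mu Y.u, ζ ^ Y.u = 1 := fun ζ => (mem_mu h.upos).1
  have hξ : ∀ γ : Gamma0 Y.N, (Y.ξ γ * Y.lam) ^ Y.u = 1 := fun γ => by
    rw [mul_pow, h.pow γ γ.2, h.Wpow, one_mul]
  have hB : ∀ x : ℂ, x ^ Y.u = 1 → ‖c (conj x)‖ ≤ ∑ ζ ∈ mu Y.u, ‖c ζ‖ := fun x hx =>
    Finset.single_le_sum (f := fun ζ => ‖c ζ‖) (fun _ _ => norm_nonneg _)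
      ((mem_mu h.upos).2 (h.conj_pow hx).1)
  have hF : Hol fun z => H (Y.φ z) := fun z hz => (hH _).comp z (h.hol_φ z hz)
  set G : ℍ → ℝ := fun v => ∑ ζ ∈ mu Y.u, c ζ * lamL Y.L (ζ * Y.φ v - Y.φ w) with hGd
  have h1 : ∀ ρ ∈ Ioo (0 : ℝ) 1, HasSum (fun γ : Gamma0 Y.N => c (conj (Y.ξ γ)) * (nuK ε ρ *
      Real.posLog (ρ / Real.tanh (dist (g • UpperHalfPlane.I) ((γ : SL(2, ℤ)) • w) / 2))) +
      c (conj (Y.ξ γ * Y.lam)) * (nuK ε ρ * Real.posLog
        (ρ / Real.tanh (dist (g • UpperHalfPlane.I) ((γ : SL(2, ℤ)) • Y.W • w) / 2))))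
      (2 * (nuK ε ρ * Real.circleAverage
        (fun p => G (g • cay p) - G (g • UpperHalfPlane.I)) 0 ρ)) := by
    intro ρ hρ
    have h2 := fun ζ k => h.jensen hw (hμ ζ k) g hz hρ
    have h3 : ∀ ζ ∈ mu Y.u, CircleIntegrable (fun p => c ζ *
        Real.log ‖Shared.Weier.sig Y.L (ζ * Y.φ (g • cay p : ℍ) - Y.φ w)‖) 0 ρ := fun ζ k =>
      IntervalIntegrable.const_mul (h2 ζ k).1 _
    have h4 := CircleIntegrable.fun_sum _ h3
    have h5 := circleIntegrable_cay (f := fun z => (H (Y.φ (g • z : ℍ))).re)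
      (continuous_re.comp (hF.continuous_coe.comp (continuous_const_smul g))) hρ
    have h6 : Real.circleAverage (fun p => (H (Y.φ (g • cay p : ℍ))).re) 0 ρ =
      (H (Y.φ (g • UpperHalfPlane.I : ℍ))).re := circ_hol_clm hF reCLM g hρ
    simp only [hGd, hG]
    rw [Real.circleAverage_fun_sub (h4.fun_add h5) (circleIntegrable_const _ _ _),
      Real.circleAverage_fun_add h4 h5, h6, Real.circleAverage_const, add_sub_add_right_eq_sub,
      Real.circleAverage_fun_sum h3, mul_left_comm]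
    convert! (hasSum_sum fun ζ k => (h2 ζ k).2.mul_left (c ζ)).mul_left (nuK ε ρ) using 2 with γ
    · simp only [mul_add, Finset.sum_add_distrib]
      rw [ag3_single h (h.pow γ γ.2), ag3_single h (hξ γ)]
      ring
    · rw [← Finset.sum_sub_distrib, Finset.mul_sum]
      refine Finset.sum_congr rfl fun ζ _ => ?_
      simp only [← smul_eq_mul (a := c ζ)]
      rw [Real.circleAverage_fun_smul]
      simp only [smul_eq_mul]
      ring
  obtain ⟨a1, a2, a3⟩ := ag3_int (fun γ k => (hz γ k).1) (fun γ => hB _ (h.pow γ γ.2)) hε rfl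
  obtain ⟨b1, b2, b3⟩ := ag3_int (fun γ k => (hz γ k).2) (fun γ => hB _ (hξ γ)) hε rfl
  have h3 := hasSum_integral_of_summable_integral_norm (fun γ => (a1 γ).add (b1 γ))
    (.of_nonneg_of_le (fun _ => integral_nonneg fun _ => norm_nonneg _) (fun γ =>
      (integral_mono ((a1 γ).add (b1 γ)).norm ((a1 γ).norm.add (b1 γ).norm) fun _ =>
        norm_add_le _ _).trans_eq (integral_add (a1 γ).norm (b1 γ).norm)) (a2.add b2))
  have h4 : ∀ ζ ∈ mu Y.u, (fun v => c ζ * (akr ε (g • UpperHalfPlane.I) v * Y.lam0 ζ w v)) =ᵐ[volume]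
      fun v => akr ε (g • UpperHalfPlane.I) v * (c ζ * lamL Y.L (ζ * Y.φ v - Y.φ w)) :=
    fun ζ k => (h.lam0_ae (hμ ζ k) w).mono fun v hv => by simp only [hv, mul_left_comm]
  have h5 := fun ζ k =>
    ((h.integrable_lam0 hw (hμ ζ k) hε (g • UpperHalfPlane.I)).const_mul (c ζ)).congr (h4 ζ k)
  have h6 : Integrable fun v => akr ε (g • UpperHalfPlane.I) v * G v := by
    simp only [hGd, Finset.mul_sum]
    exact integrable_finsetSum _ h5
  have hm : Measurable G := Finset.measurable_fun_sum _ fun ζ _ => ((measurable_lamL _).comp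
    ((h.hol_φ.continuous_coe.measurable.const_mul _).sub_const _)).const_mul _
  have h7 : ∑ ζ ∈ mu Y.u, c ζ * avg ε (Y.lam0 ζ w) (g • UpperHalfPlane.I) -
      G (g • UpperHalfPlane.I) =
      avg ε (fun v => G v - G (g • UpperHalfPlane.I)) (g • UpperHalfPlane.I) := by
    simp only [avg, mul_sub]
    rw [integral_sub h6 ((integrable_akr hε _).mul_const _), integral_mul_const, integral_akr hε,
      one_mul]
    congr 1
    simp only [hGd, Finset.mul_sum]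
    rw [integral_finsetSum _ h5]
    exact Finset.sum_congr rfl fun ζ k => by
      rw [← integral_const_mul, integral_congr_ae (h4 ζ k)]
  rw [h7, avg_smul, avg_polar (u := fun v => G (g • v) - G (g • UpperHalfPlane.I))
    ((hm.comp (continuous_const_smul g).measurable).sub_const _).aestronglyMeasurable
    (integrable_akr_smul (u := fun v => G v - G (g • UpperHalfPlane.I)) g
      (by simp only [mul_sub]; exact h6.sub ((integrable_akr hε _).mul_const _))),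
    ← integral_const_mul,
    setIntegral_congr_fun measurableSet_Ioo fun ρ hρ => (h1 ρ hρ).tsum_eq.symm]
  convert! h3 using 2 with γ
  rw [integral_add' (a1 γ) (b1 γ), a3, b3]

theorem ag3_sum (h : Y.Ok) {ε : ℝ} (hε : 0 < ε) (z w : ℍ) : Summable fun g : Gamma0 Y.N =>
    Y.ξ g * kerK ε (Real.cosh (dist z ((g : SL(2, ℤ)) • w))) :=
  .of_norm_bounded (B5.HA.summable_kerK _ hε z w) fun g => by
    rw [norm_mul, h.lev.norm g g.2, one_mul, norm_real, Real.norm_of_nonneg (kerK_nonneg _ _)]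

/-- The sum over both cosets. -/
theorem CrvW.Ok.green_both (h : Y.Ok) (hw : Y.Fr w) (hz : Y.Sep z w) :
    Tendsto (fun ε => Y.toLev.gsum z w ε + Y.lam * Y.toLev.gsum z (Y.W • w) ε) (𝓝[>] 0)
      (𝓝 (-2 * Y.gr (Y.φ z) (Y.φ w))) := by
  have h0 := sum_mu_conj (Nat.le_of_succ_le h.three)
  have h1 : ∑ ζ ∈ mu Y.u, (conj ζ).re = 0 := by rw [← re_sum, h0, zero_re]
  have h2 : ∑ ζ ∈ mu Y.u, (conj ζ).im = 0 := by rw [← im_sum, h0, zero_im]
  have t1 := (((h.tendsto_avg hw _ h1 z).sub_const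
    (∑ ζ ∈ mu Y.u, (conj ζ).re * lamL Y.L (ζ * Y.φ z - Y.φ w))).const_mul 2).ofReal
  have t2 := (((h.tendsto_avg hw _ h2 z).sub_const
    (∑ ζ ∈ mu Y.u, (conj ζ).im * lamL Y.L (ζ * Y.φ z - Y.φ w))).const_mul 2).ofReal
  convert (t1.add (t2.mul_const I)).congr' ?_ using 2
  · apply Complex.ext <;> simp [Crv.gr, lamL]
  · filter_upwards [self_mem_nhdsWithin] with ε hε
    refine HasSum.unique ((Complex.hasSum_iff _ _).2 ⟨?_, ?_⟩)
      ((ag3_sum h hε z w).hasSum.add ((ag3_sum h hε z (Y.W • w)).hasSum.mul_left Y.lam))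
    · convert h.hasSum_gr hw hz _ h1 hε using 1
      · ext g
        simp
        ring
      · simp
    · convert h.hasSum_gr hw hz _ h2 hε using 1
      · ext g
        simp
        ring
      · simp

theorem CrvW.Ok.gsum_J (h : Y.Ok) (z w : ℍ) (ε : ℝ) :
    Y.toLev.gsum (J • z) (J • w) ε = Y.toLev.gsum z w ε := by
  let m : Gamma0 Y.N → Gamma0 Y.N := fun g => ⟨mir g, mir_mem g.2⟩
  have hm : Function.Involutive m := fun g => Subtype.ext (mir_mir _)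
  refine (hm.toPerm.tsum_eq _).symm.trans (tsum_congr fun g => ?_)
  change Y.ξ (mir g) * kerK ε (Real.cosh (dist (J • z) (mir (g : SL(2, ℤ)) • J • w))) = _
  rw [h.mirξ g g.2, ← J_smulZ, dist_J]

theorem CrvW.Ok.gsum_JW (h : Y.Ok) (z w : ℍ) (ε : ℝ) :
    Y.toLev.gsum (J • z) (Y.W • J • w) ε = -Y.toLev.gsum z (Y.W • w) ε := by
  obtain ⟨g, hg, e, k⟩ := h.J_W
  rw [← J_J (Y.W • J • w), k, h.gsum_J, ← neg_eq_iff_eq_neg, Lev.gsum, ← tsum_neg]
  refine Eq.trans (tsum_congr fun γ => ?_) ((Equiv.mulRight (⟨g, hg⟩ : Gamma0 Y.N)).tsum_eq _)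
  change _ = Y.ξ (γ * g) * kerK ε (Real.cosh (dist z (((γ : SL(2, ℤ)) * g) • Y.W • w)))
  rw [h.lev.mul γ γ.2 g hg, e, mul_smul]
  ring

theorem CrvW.Ok.green (h : Y.Ok) : GreenW Y := fun z w hw hz => by
  refine ⟨fun ε hε => B5.HA.summable_kerK _ hε z w, ?_⟩
  have t := ((h.green_both hw hz).add (h.green_both (h.fr_J hw) (h.sep_J hz))).div_const 2
  simp only [h.gsum_J, h.gsum_JW, coe_J_smul] at t
  convert t using 2 <;> ring

end Pool.Agent.Lib.MP_696deb_nt.Y3.An
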