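import Pool.Agent.Lib.MP_696deb_nt.CL.F0

/-! The characters of level twenty-one. -/

set_option autoImplicit false

namespace Pool.Agent.Lib.MP_696deb_nt.Y3

open CL (O nm toC)

/-- Powers of the primitive sixth root of unity. -/
def ip (k : ZMod 6) : O := (⟨1, 1⟩ : O) ^ k.val

/-- The residue modulo `1 + 3 ω`. -/
def r7 (α : O) : ZMod 7 := α.re + 2 * α.im

/-- The sextic character modulo seven. -/
def ep (r : ZMod 7) : O :=
  if r = 1 then 1 else if r = 2 then ⟨-1, -1⟩ else if r = 3 then ⟨0, -1⟩ else if r = 4 then ⟨0, 1⟩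
  else if r = 5 then ⟨1, 1⟩ else if r = 6 then -1 else 0

/-- The character modulo three. -/
def c3 (r : ZMod 3) : ℤ := if r = 1 then 1 else if r = 2 then -1 else 0

/-- The character modulo three on the integers. -/
def et (k : ℤ) : ℤ := c3 k

/-- The even character of conductor twenty-one and order six. -/
def nb (d : ZMod 21) : O := c3 d.cast * ep d.cast

theorem ip_add : ∀ a b : ZMod 6, ip (a + b) = ip a * ip b := by decide

theorem ip_neg : ∀ a : ZMod 6, ip (-a) = star (ip a) := by decide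

theorem ip_inj : ∀ a b : ZMod 6, ip a = ip b → a = b := by decide

theorem ep_mul : ∀ a b : ZMod 7, ep (a * b) = ep a * ep b := by decide

theorem ep_zero : ep 0 = 0 := by decide

theorem ep_one : ep 1 = 1 := by decide

theorem ep_neg : ∀ a : ZMod 7, ep (-a) = -ep a := by decide

theorem ep_unit : ∀ a : ZMod 7, a ≠ 0 → ep a * star (ep a) = 1 ∧ ep a ^ 6 = 1 ∧ nm (ep a) = 1 ∧
    r7 (ep a) * a = 1 := by decide

theorem ep_inv : ∀ a b : ZMod 7, a * b = 1 → star (ep a) = ep b := by decide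

theorem c3_mul : ∀ a b : ZMod 3, c3 (a * b) = c3 a * c3 b := by decide

theorem c3_neg : ∀ a : ZMod 3, c3 (-a) = -c3 a := by decide

theorem c3_sq : ∀ a : ZMod 3, a ≠ 0 → c3 a * c3 a = 1 := by decide

theorem nb_mul : ∀ a b : ZMod 21, nb (a * b) = nb a * nb b := by decide +kernel

theorem nb_one : nb 1 = 1 := by decide

theorem nb_neg : ∀ a : ZMod 21, nb (-a) = nb a := by decide

theorem nb_inv : ∀ a d : ZMod 21, a * d = 1 → nb a ≠ 0 ∧ nb d = star (nb a) ∧ nb d ^ 6 = 1 := by
  decide +kernel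

theorem nb_int (k : ℤ) : nb k = et k * ep k := by
  rw [nb, et, ZMod.cast_intCast (by norm_num), ZMod.cast_intCast (by norm_num)]

theorem et_mul (a b : ℤ) : et (a * b) = et a * et b := by rw [et, Int.cast_mul, c3_mul, et, et]

theorem et_neg (a : ℤ) : et (-a) = -et a := by rw [et, Int.cast_neg, c3_neg, et]

theorem et_one : et 1 = 1 := by decide

theorem et_congr {a b : ℤ} (h : 3 ∣ a - b) : et a = et b := by
  rw [et, et, (ZMod.intCast_eq_intCast_iff_dvd_sub b a 3).2 h]

theorem et_zero {a : ℤ} (h : 3 ∣ a) : et a = 0 := et_congr (b := 0) (by simpa using h)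

theorem et_sq {a : ℤ} (h : ¬ 3 ∣ a) : et a * et a = 1 :=
  c3_sq _ fun e => h ((ZMod.intCast_zmod_eq_zero_iff_dvd a 3).1 e)

theorem ep_congr {s t : ℤ} (h : 7 ∣ s - t) : ep s = ep t := by
  rw [(ZMod.intCast_eq_intCast_iff_dvd_sub t s 7).2 h]

theorem r7_add (α β : O) : r7 (α + β) = r7 α + r7 β := by
  simp only [r7, QuadraticAlgebra.re_add, QuadraticAlgebra.im_add]
  push_cast
  ring

theorem r7_mul (α β : O) : r7 (α * β) = r7 α * r7 β := by
  simp only [r7, QuadraticAlgebra.re_mul, QuadraticAlgebra.im_mul]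
  push_cast
  linear_combination (-(α.im * β.im) : ZMod 7) * (by decide : (7 : ZMod 7) = 0)

theorem r7_int (k : ℤ) : r7 k = k := by simp [r7]

end Pool.Agent.Lib.MP_696deb_nt.Y3
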