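import Pool.Agent.Lib.MP_696deb_nt.QE
import Pool.Agent.Lib.MP_696deb_nt.Y3.E0
import Pool.Agent.Lib.MP_696deb_nt.CL.F6

/-! Theta series with characteristics of the hexagonal lattice and their transformation law. -/

set_option autoImplicit false

open Complex
open scoped Real ComplexConjugate Classical

namespace Pool.Agent.Lib.MP_696deb_nt.Y3

open CL (O nm om th op wC)

/-- A term of the theta series. -/
noncomputable def thE (k : ℕ) (s u v z : ℂ) : ℂ :=
  (s + u) ^ k * q1 (normSq (s + u) * z + (2 * ((s + u / 2) * conj v).re : ℝ))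

/-- The term of the theta series of the dual lattice with weights. -/
noncomputable def thT (k : ℕ) (s t u v z : ℂ) (y : O) : ℂ :=
  (if th ∣ y then s else t) * thE k (CL.toC y / CL.toC th) u v z

/-- The theta series of the dual lattice with the weight `s` on the lattice and `t` outside. -/
noncomputable def Th2 (k : ℕ) (s t u v z : ℂ) : ℂ := ∑' y : O, thT k s t u v z y

/-- The weight on the lattice, times the prime above three. -/
def wa (c d : ZMod 3) : O := if c = 0 then c3 d * th else c3 c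

/-- The weight outside the lattice, times the prime above three. -/
def wb (c d : ZMod 3) : O := if c = 0 then 0 else c3 c * op (c * d)

variable {k : ℕ} {s t u v z : ℂ} {a b c d : ℤ}

theorem q1_congr {x y : ℂ} (k : ℤ) (h : x = y + k) : q1 x = q1 y := by
  rw [h, q1_add, q1_int, mul_one]

theorem norm_q1_real (t : ℝ) : ‖q1 t‖ = 1 := by rw [norm_q1]; simp

theorem exists_of_q1 (h : q1 z = 1) : ∃ k : ℤ, z = k := by
  obtain ⟨k, hk⟩ := exp_eq_one_iff.1 h
  exact ⟨k, mul_left_cancel₀ two_pi_I_ne_zero (hk.trans (mul_comm _ _))⟩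

theorem toC_th : CL.toC th = √3 * I := by
  rw [CL.toC_apply, th, wC]
  push_cast
  ring

theorem th_ne : CL.toC th ≠ 0 := toC_th ▸ mul_ne_zero CL.f6_ne I_ne_zero

theorem th_sq : CL.toC th ^ 2 = -3 := by
  rw [toC_th, mul_pow, CL.f6_sq, I_sq]
  ring

theorem th_dvd {y : O} : th ∣ y ↔ 3 ∣ y.re + y.im := by
  refine ⟨fun ⟨x, e⟩ => ⟨x.re - x.im, ?_⟩, fun ⟨r, e⟩ => ⟨⟨y.im - r, y.im - 2 * r⟩, ?_⟩⟩
  · simp [e, th]
    ring
  · ext <;> simp [th] <;> omega

theorem q1_third : q1 (1 / 3) = wC := by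
  rw [q1, mul_one_div, ← CL.toC_om, CL.toC_apply]
  simp [om]

theorem th0_half : q1 (-1 / 2) = -1 := by
  rw [q1, show 2 * π * I * (-1 / 2) = -(π * I) by ring, exp_neg_pi_mul_I]

theorem th0_sum {ι : Type} {f g : ι → ℂ} {x y : ℂ} (h : HasSum f x) (e : ∀ i, g i = f i)
    (e' : y = x) : HasSum g y := e' ▸ h.congr_fun e

/-- A term of the theta series in one variable. -/
noncomputable def t1T (k : ℕ) (x u v z : ℂ) : ℂ :=
  (x + u) ^ k * q1 ((x + u) ^ 2 * z + 2 * (x + u / 2) * v)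

theorem t1_S (hz : 0 < z.im) {r : ℝ} (hr : 0 < r) (h u v : ℂ) : ∃ S : ℕ → ℂ, ∀ k ≤ 1,
    HasSum (fun n : ℤ => t1T k (r * n + h) u v (-1 / z))
      ((-I * (z / (2 * r ^ 2))) ^ (1 / 2 : ℂ) * z ^ k * S k) ∧
    HasSum (fun m : ℤ => q1 (-(m * h) / r) * t1T k (m / (2 * r)) v (-u) z) (S k) := by
  have z0 : z ≠ 0 := fun h => by simp [h] at hz
  have r0 : (r : ℂ) ≠ 0 := ofReal_ne_zero.2 hr.ne'
  obtain ⟨τ, hτ⟩ : ∃ τ, τ = z / (2 * r ^ 2) := ⟨_, rfl⟩
  obtain ⟨ζ, hζ⟩ : ∃ ζ, ζ = (v * z - u - h) / r := ⟨_, rfl⟩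
  have t0 : 0 < τ.im := by
    rw [hτ, show (2 * r ^ 2 : ℂ) = (2 * r ^ 2 : ℝ) by push_cast; rfl, div_ofReal_im]
    positivity
  have τ0 : τ ≠ 0 := fun h => by simp [h] at t0
  have t1 : 0 < (-1 / τ).im := by
    simpa [mob] using im_mob_pos (a := 0) (b := -1) (c := 1) (d := 0) (by norm_num) t0
  have s0 : (-I * τ) ^ (1 / 2 : ℂ) ≠ 0 :=
    cpow_ne_zero_iff.2 (.inl (mul_ne_zero (neg_ne_zero.2 I_ne_zero) τ0))
  have e1 : ∀ n : ℤ, q1 ((r * n + h + u) ^ 2 * (-1 / z) + 2 * (r * n + h + u / 2) * v) =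
      q1 (v ^ 2 * z - u * v) * cexp (-π * I * ζ ^ 2 / τ) *
        jacobiTheta₂_term n (ζ / τ) (-1 / τ) := fun n => by
    rw [jacobiTheta₂_term, q1, q1, ← exp_add, ← exp_add, hζ, hτ]
    congr 1
    field_simp
    ring
  have e2 : ∀ m : ℤ, q1 (-(m * h) / r) * q1 ((m / (2 * r) + v) ^ 2 * z +
      2 * (m / (2 * r) + v / 2) * -u) = q1 (v ^ 2 * z - u * v) * jacobiTheta₂_term m ζ τ :=
    fun m => by
    rw [jacobiTheta₂_term, q1, q1, q1, ← exp_add, ← exp_add, hζ, hτ]
    congr 1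
    field_simp
    ring
  have f0 := jacobiTheta₂_functional_equation ζ τ
  have f1 := jacobiTheta₂'_functional_equation ζ τ
  have a0 := hasSum_jacobiTheta₂_term (ζ / τ) t1
  have a1 := hasSum_jacobiTheta₂'_term (ζ / τ) t1
  have b0 := hasSum_jacobiTheta₂_term ζ t0
  have b1 := hasSum_jacobiTheta₂'_term ζ t0
  rw [← hτ]
  generalize (-I * τ) ^ (1 / 2 : ℂ) = ρ at s0 f0 f1
  refine ⟨fun k => q1 (v ^ 2 * z - u * v) * if k = 0 then jacobiTheta₂ ζ τ else
    jacobiTheta₂' ζ τ / (2 * π * I) / (2 * r) + v * jacobiTheta₂ ζ τ, fun k hk => ?_⟩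
  obtain rfl | rfl : k = 0 ∨ k = 1 := by omega
  · refine ⟨th0_sum (a0.mul_left (q1 (v ^ 2 * z - u * v) * cexp (-π * I * ζ ^ 2 / τ)))
      (fun n => by rw [t1T, pow_zero, one_mul, e1]) ?_,
      (b0.mul_left _).congr_fun fun m => by rw [t1T, pow_zero, one_mul, e2]⟩
    simp only [if_pos, f0]
    field_simp
  · refine ⟨th0_sum ((((a1.div_const (2 * π * I)).mul_left (r : ℂ)).add
      (a0.mul_left (h + u))).mul_left (q1 (v ^ 2 * z - u * v) * cexp (-π * I * ζ ^ 2 / τ)))
      (fun n => ?_) ?_, ((((b1.div_const _).div_const _).add (b0.mul_left v)).mul_left _).congr_fun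
      fun m => ?_⟩
    · rw [t1T, e1, jacobiTheta₂'_term]
      field_simp
      ring
    · simp only [if_neg one_ne_zero, f0, f1]
      generalize cexp (-π * I * ζ ^ 2 / τ) = E
      generalize jacobiTheta₂ (ζ / τ) (-1 / τ) = J
      generalize jacobiTheta₂' (ζ / τ) (-1 / τ) = J'
      rw [hτ, hζ]
      field_simp
      ring
    · rw [t1T, mul_left_comm, e2, jacobiTheta₂'_term]
      field_simp

theorem thE_split (x y : ℝ) (u v z : ℂ) :
    thE 0 (x + y * I) u v z = t1T 0 x u.re v.re z * t1T 0 y u.im v.im z ∧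
    thE 1 (x + y * I) u v z = t1T 1 x u.re v.re z * t1T 0 y u.im v.im z +
      I * (t1T 0 x u.re v.re z * t1T 1 y u.im v.im z) := by
  have e : q1 (normSq (x + y * I + u) * z + (2 * ((x + y * I + u / 2) * conj v).re : ℝ)) =
      q1 ((x + u.re) ^ 2 * z + 2 * (x + u.re / 2) * v.re) *
        q1 ((y + u.im) ^ 2 * z + 2 * (y + u.im / 2) * v.im) := by
    rw [← q1_add]
    congr 1
    simp [normSq_apply]
    ring
  simp only [thE, t1T, e, pow_zero, pow_one, one_mul, true_and]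
  linear_combination -(q1 ((x + u.re) ^ 2 * z + 2 * (x + u.re / 2) * v.re) *
    q1 ((y + u.im) ^ 2 * z + 2 * (y + u.im / 2) * v.im)) * re_add_im u

theorem t2_S (hk : k ≤ 1) (hz : 0 < z.im) (g h : ℝ) (u v : ℂ) : ∃ S : ℂ,
    HasSum (fun p : ℤ × ℤ => thE k ((p.1 + g : ℝ) + (√3 * p.2 + h : ℝ) * I) u v (-1 / z))
      (z ^ (k + 1) / (2 * CL.toC th) * S) ∧
    HasSum (fun p : ℤ × ℤ => q1 (-(p.1 * g + p.2 * h / √3)) *
      thE k ((p.1 / 2 : ℝ) + (p.2 / (2 * √3) : ℝ) * I) v (-u) z) S := by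
  obtain ⟨S, hS⟩ := t1_S hz one_pos g u.re v.re
  obtain ⟨T, hT⟩ := t1_S hz (r := √3) (by positivity) h u.im v.im
  have z0 : -I * (z / 2) ≠ 0 := mul_ne_zero (neg_ne_zero.2 I_ne_zero) fun h => by
    simp [div_eq_zero_iff] at h
    simp [h] at hz
  have e : (-I * (z / (2 * (1 : ℝ) ^ 2))) ^ (1 / 2 : ℂ) * (-I * (z / (2 * (√3 : ℝ) ^ 2))) ^ (1 / 2 : ℂ) =
      z / (2 * CL.toC th) := by
    have h3 := CL.f6_ne
    have h4 : (0 : ℝ) < (√3)⁻¹ := by positivity
    have h5 := ofReal_ne_zero.2 h4.ne'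
    rw [show -I * (z / (2 * (√3 : ℝ) ^ 2)) = ((√3)⁻¹ : ℝ) * (((√3)⁻¹ : ℝ) * (-I * (z / 2))) by
      push_cast; ring, ofReal_one, one_pow, mul_one, cpow_def_of_ne_zero z0,
      cpow_def_of_ne_zero (mul_ne_zero h5 (mul_ne_zero h5 z0)),
      log_ofReal_mul h4 (mul_ne_zero h5 z0), log_ofReal_mul h4 z0, ← exp_add,
      show ∀ x y : ℂ, x * (1 / 2) + (y + (y + x)) * (1 / 2) = x + y from fun x y => by ring,
      exp_add, exp_log z0, ← ofReal_exp, Real.exp_log h4, toC_th]
    push_cast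
    field_simp
    rw [I_sq]
    ring
  have q : ∀ p : ℤ × ℤ, q1 (-(p.1 * g + p.2 * h / √3)) =
      q1 (-(p.1 * g) / (1 : ℝ)) * q1 (-(p.2 * h) / √3) := fun p => by
    rw [← q1_add]
    congr 1
    push_cast
    ring
  have m := fun i j (hi : i ≤ 1) (hj : j ≤ 1) => CL.f6_mul (hS i hi).1 (hT j hj).1
  have n := fun i j (hi : i ≤ 1) (hj : j ≤ 1) => CL.f6_mul (hS i hi).2 (hT j hj).2
  obtain rfl | rfl : k = 0 ∨ k = 1 := by omega
  · refine ⟨_, th0_sum (m 0 0 hk hk) (fun p => ?_) ?_, (n 0 0 hk hk).congr_fun fun p => ?_⟩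
    · rw [(thE_split ..).1]
      push_cast
      rw [one_mul]
    · linear_combination -(S 0 * T 0) * e
    · rw [(thE_split ..).1, q, neg_re, neg_im]
      push_cast
      ring_nf
  · refine ⟨_, th0_sum ((m 1 0 hk zero_le_one).add ((m 0 1 zero_le_one hk).mul_left I))
      (fun p => ?_) ?_, ((n 1 0 hk zero_le_one).add ((n 0 1 zero_le_one hk).mul_left I)).congr_fun
      fun p => ?_⟩
    · rw [(thE_split ..).2]
      push_cast
      rw [one_mul]
    · linear_combination -(z * (S 1 * T 0 + I * (S 0 * T 1))) * e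
    · rw [(thE_split ..).2, q, neg_re, neg_im]
      push_cast
      ring_nf

theorem div_th (y : O) :
    CL.toC y / CL.toC th = (y.im / 2 : ℝ) + ((y.im - 2 * y.re : ℤ) / (2 * √3) : ℝ) * I := by
  have h3 := CL.f6_ne
  rw [div_eq_iff th_ne, toC_th, CL.toC_apply, wC]
  push_cast
  field_simp
  linear_combination (2 * y.re - y.im : ℂ) * I_mul_I

theorem th_core (hk : k ≤ 1) (hz : 0 < z.im) (s t u v : ℂ) : ∃ S : ℂ,
    HasSum (thT k s t u v (-1 / z)) (z ^ (k + 1) * S) ∧
    HasSum (thT k ((s + 2 * t) / CL.toC th) ((s - t) / CL.toC th) v (-u) z) S := by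
  have h3 := CL.f6_ne
  choose S h1 h2 using fun j : ℕ => t2_S hk hz (j / 2) (j / (2 * √3)) u v
  have h4 := hasSum_sum fun j (_ : j ∈ Finset.range 6) =>
    (h2 j).mul_left ((if 3 ∣ j then s else t) / (2 * CL.toC th))
  refine ⟨_, ?_, ((Function.Injective.hasSum_iff (g := fun y : O => (y.im, y.im - 2 * y.re))
    (fun x y e => ?_) fun p hp => ?_).2 h4).congr_fun fun y => ?_⟩
  · have key : ∀ j ∈ Finset.range 6, HasSum (fun y : O => if (y.im - 2 * y.re) % 6 = j then
        thT k s t u v (-1 / z) y else 0)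
        (z ^ (k + 1) * ((if 3 ∣ j then s else t) / (2 * CL.toC th) * S j)) := fun j hj => by
      rw [Finset.mem_range] at hj
      refine (Function.Injective.hasSum_iff
        (g := fun p : ℤ × ℤ => (⟨p.1 - 3 * p.2, j + 2 * p.1⟩ : O)) (fun p q e => ?_)
        fun y hy => if_neg fun e => hy ⟨((y.im - j) / 2, (y.im - 2 * y.re) / 6), ?_⟩).1 ?_
      · simp only [QuadraticAlgebra.ext_iff] at e
        ext <;> omega
      · ext <;> simp only <;> omega
      · refine th0_sum ((h1 j).mul_left (if 3 ∣ j then s else t)) (fun p => ?_) (by ring)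
        rw [Function.comp, if_pos (by simp only; omega), thT, div_th,
          if_congr (th_dvd.trans (show _ ↔ 3 ∣ j by simp only; omega)) rfl rfl]
        congr 3
        · push_cast
          ring
        · push_cast
          field_simp
          linear_combination (-2 * p.2 : ℂ) * CL.f6_sq
    rw [Finset.mul_sum]
    refine (hasSum_sum key).congr_fun fun y => ?_
    rw [Finset.sum_eq_single_of_mem ((y.im - 2 * y.re) % 6).toNat (Finset.mem_range.2 (by omega))
      fun j _ hj => if_neg (by omega), if_pos (by omega)]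
  · simp only [Prod.mk.injEq] at e
    ext <;> omega
  all_goals
    have e : ∀ (m n : ℤ) (j : ℕ), q1 (-(m * (j / 2 : ℝ) + n * (j / (2 * √3) : ℝ) / √3)) =
        q1 (-(3 * m + n) / 6) ^ j := fun m n j => by
      rw [← q1_nat_mul]
      congr 1
      push_cast
      field_simp
      linear_combination (2 * n * j : ℂ) * CL.f6_sq
    have e' : ∀ ε E : ℂ, ∑ j ∈ Finset.range 6, (if 3 ∣ j then s else t) / (2 * CL.toC th) *
        (ε ^ j * E) = (1 + ε ^ 3) * (s + t * (ε + ε ^ 2)) / (2 * CL.toC th) * E := fun ε E => by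
      simp [Finset.sum_range_succ]
      ring
  · have h : (3 * p.1 + p.2) % 2 = 1 := by
      by_contra c
      exact hp ⟨⟨(p.1 - p.2) / 2, p.1⟩, Prod.ext rfl (by dsimp only; omega)⟩
    obtain ⟨r, hr⟩ : ∃ r, 3 * p.1 + p.2 = 2 * r + 1 := ⟨(3 * p.1 + p.2) / 2, by omega⟩
    have hr' : (3 * p.1 + p.2 : ℂ) = 2 * r + 1 := by exact_mod_cast hr
    simp only [e, e']
    rw [← q1_nat_mul 3, q1_congr (y := -1 / 2) (-r) (by rw [hr']; push_cast; ring), th0_half]
    ring
  · simp only [Function.comp, e, e']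
    rw [thT, div_th, ← q1_nat_mul 3, q1_congr (y := (0 : ℤ)) (y.re - 2 * y.im) (by push_cast; ring),
      q1_int]
    congr 1
    have w := CL.wC_sq
    obtain ⟨r, hr | hr | hr⟩ : ∃ r, y.re - 2 * y.im = 3 * r ∨ y.re - 2 * y.im = 3 * r + 1 ∨
      y.re - 2 * y.im = 3 * r + 2 := ⟨(y.re - 2 * y.im) / 3, by omega⟩
    all_goals replace hr' := congrArg (Int.cast : ℤ → ℂ) hr
    all_goals push_cast at hr' ⊢
    · rw [if_pos (th_dvd.2 (by omega)), q1_congr (y := (0 : ℤ)) r (by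
        linear_combination hr' / 3), q1_int]
      ring
    · rw [if_neg (mt th_dvd.1 (by omega)), q1_congr (y := 1 / 3) r (by
        linear_combination hr' / 3), q1_third]
      linear_combination (-t / CL.toC th) * w
    · rw [if_neg (mt th_dvd.1 (by omega)), q1_congr (y := 1 / 3 + 1 / 3) r (by
        linear_combination hr' / 3), q1_add, q1_third]
      linear_combination (-t * (wC * wC - wC + 1) / CL.toC th) * w

theorem hasSum_Th2 (hk : k ≤ 1) (hz : 0 < z.im) (s t u v : ℂ) :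
    HasSum (thT k s t u v z) (Th2 k s t u v z) := by
  obtain ⟨S, h, -⟩ := th_core hk (z := -1 / z) (by
    simpa [mob] using im_mob_pos (a := 0) (b := -1) (c := 1) (d := 0) (by norm_num) hz) s t u v
  rw [show -1 / (-1 / z) = z by simp] at h
  exact h.summable.hasSum

/-- The series of the lattice itself. -/
theorem hasSum_Th0 (hk : k ≤ 1) (hz : 0 < z.im) (s u v : ℂ) :
    HasSum (fun b : O => s * thE k (CL.toC b) u v z) (Th2 k s 0 u v z) := by
  refine ((Function.Injective.hasSum_iff (g := fun b : O => th * b)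
    (mul_right_injective₀ (by decide)) fun y hy => ?_).2 (hasSum_Th2 hk hz s 0 u v)).congr_fun
    fun b => ?_
  · rw [thT, if_neg fun ⟨b, e⟩ => hy ⟨b, e.symm⟩, zero_mul]
  · rw [Function.comp, thT, if_pos (dvd_mul_right _ _), map_mul, mul_div_cancel_left₀ _ th_ne]

theorem Th2_smul (r s t u v z : ℂ) : Th2 k (r * s) (r * t) u v z = r * Th2 k s t u v z := by
  rw [Th2, Th2, ← tsum_mul_left]
  refine tsum_congr fun y => ?_
  rw [thT, thT, ← mul_assoc, mul_ite]

theorem Th2_T (s t u v z : ℂ) : Th2 k s t u v (z + 1) = Th2 k s (wC * t) u (u + v) z := by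
  refine tsum_congr fun y => ?_
  have e : thE k (CL.toC y / CL.toC th) u v (z + 1) =
      q1 (nm y / 3) * thE k (CL.toC y / CL.toC th) u (u + v) z := by
    have e1 : normSq (CL.toC y / CL.toC th) = nm y / 3 := by
      rw [map_div₀, CL.normSq_toC, CL.normSq_toC]
      rfl
    rw [thE, thE, mul_left_comm, ← q1_add, show (nm y / 3 : ℂ) = (nm y / 3 : ℝ) by push_cast; rfl,
      ← e1]
    generalize CL.toC y / CL.toC th = x
    congr 2
    simp [normSq_apply]
    ring
  rw [thT, thT, e, ← mul_assoc]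
  congr 1
  have e2 : nm y = (y.re + y.im) ^ 2 - 3 * (y.re * y.im) := by rw [nm]; ring
  split_ifs with h
  · obtain ⟨r, hr⟩ := CL.three_dvd_nm.2 (th_dvd.1 h)
    rw [hr, q1_congr (y := (0 : ℤ)) r (by push_cast; ring), q1_int, mul_one]
  · obtain ⟨r, hr⟩ : ∃ r, nm y = 3 * r + 1 := by
      obtain ⟨r, hr | hr⟩ : ∃ r, y.re + y.im = 3 * r + 1 ∨ y.re + y.im = 3 * r - 1 :=
        ⟨(y.re + y.im + 1) / 3, by rw [th_dvd] at h; omega⟩
      exacts [⟨3 * r ^ 2 + 2 * r - y.re * y.im, by rw [e2, hr]; ring⟩,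
        ⟨3 * r ^ 2 - 2 * r - y.re * y.im, by rw [e2, hr]; ring⟩]
    rw [hr, q1_congr (y := 1 / 3) r (by push_cast; ring), q1_third, mul_comm]

theorem Th2_S (hk : k ≤ 1) (hz : 0 < z.im) (s t u v : ℂ) : Th2 k s t u v (-1 / z) =
    z ^ (k + 1) * Th2 k ((s + 2 * t) / CL.toC th) ((s - t) / CL.toC th) v (-u) z := by
  obtain ⟨S, h, h'⟩ := th_core hk hz s t u v
  rw [Th2, Th2, h.tsum_eq, h'.tsum_eq]

/-- The transformation law under one matrix. -/
def Law (k : ℕ) (a b c d : ℤ) : Prop := a * d - b * c = 1 ∧ ∀ u v z : ℂ, 0 < z.im →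
  Th2 k 1 0 u v (mob a b c d z) = (c * z + d) ^ (k + 1) *
    Th2 k (CL.toC (wa c d) / CL.toC th) (CL.toC (wb c d) / CL.toC th) (u * a + v * c) (u * b + v * d) z

theorem w_T : ∀ c d : ZMod 3, wa c (c + d) = wa c d ∧ wb c (c + d) = om * wb c d := by decide

theorem w_S : ∀ a b c d : ZMod 3, a * d - b * c = 1 →
    wa c d + 2 * wb c d = th * wa d (-c) ∧ wa c d - wb c d = th * wb d (-c) := by decide

theorem Law.T (h : Law k a b c d) : Law k a (a + b) c (c + d) := by
  refine ⟨by linear_combination h.1, fun u v z hz => ?_⟩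
  have e : mob a (a + b) c (c + d) z = mob a b c d (z + 1) := by
    rw [mob, mob]
    congr 1 <;> push_cast <;> ring
  rw [e, h.2 u v _ (by simpa using hz), Th2_T]
  push_cast
  rw [(w_T c d).1, (w_T c d).2, map_mul, show CL.toC om = wC by simp [CL.toC_apply, om],
    mul_div_assoc, show u * a + v * c + (u * b + v * d) = u * (a + b) + v * (c + d) by ring]
  ring

theorem Law.S (hk : k ≤ 1) (h : Law k a b c d) : Law k b (-a) d (-c) := by
  refine ⟨by linear_combination h.1, fun u v z hz => ?_⟩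
  have z0 : z ≠ 0 := fun h => by simp [h] at hz
  obtain ⟨h4, h5⟩ := w_S a b c d (by exact_mod_cast congr_arg (Int.cast : ℤ → ZMod 3) h.1)
  have h6 := congrArg CL.toC h4
  have h7 := congrArg CL.toC h5
  rw [map_add, map_mul, map_mul, map_ofNat] at h6
  rw [map_sub, map_mul] at h7
  have e0 : -1 / z = mob 0 (-1) 1 0 z := by simp [mob]
  have e : mob b (-a) d (-c) z = mob a b c d (-1 / z) := by
    rw [e0, mob_mob (by norm_num) _ _ _ _ hz]
    congr 1 <;> ring
  rw [e, h.2 u v _ (e0 ▸ im_mob_pos (by norm_num) hz), Th2_S hk hz, ← mul_div_assoc 2, ← add_div,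
    ← sub_div, h6, h7, mul_div_cancel_left₀ _ th_ne, mul_div_cancel_left₀ _ th_ne, ← mul_assoc,
    ← mul_pow]
  push_cast
  rw [show -(u * a + v * c) = u * -a + v * -c by ring,
    show (c * (-1 / z) + d) * z = d * z + -c by field_simp; ring_nf]

theorem law (hk : k ≤ 1) (h : a * d - b * c = 1) : Law k a b c d := by
  have h1 : Law k 1 0 0 1 := ⟨by norm_num, fun u v z hz => by
    rw [show wa ((0 : ℤ) : ZMod 3) ((1 : ℤ) : ZMod 3) = th by decide,
      show wb ((0 : ℤ) : ZMod 3) ((1 : ℤ) : ZMod 3) = 0 by decide, div_self th_ne]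
    simp [mob]⟩
  refine euclid (N := 1) (.inl rfl) (Law k) (fun a b c d _ => ⟨fun H => ?_, fun H => ?_⟩)
    (fun a b c d _ => ⟨fun H => ?_, fun H => ?_⟩) h1 ?_ a b c d (by simpa using h)
  · simpa using H.T
  · convert ((((((H.S hk).T.S hk).T.S hk).S hk).S hk)) using 1 <;> ring
  · convert (H.T.S hk).T using 1 <;> ring
  · convert (((((H.S hk).T.S hk).S hk).S hk)) using 1 <;> ring
  · simpa using (h1.S hk).S hk

/-- The law on `Γ₀(3)`. -/
theorem law_three (hk : k ≤ 1) (h : a * d - b * c = 1) (h3 : 3 ∣ c) (u v : ℂ) (hz : 0 < z.im) :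
    Th2 k 1 0 u v (mob a b c d z) =
      et d * (c * z + d) ^ (k + 1) * Th2 k 1 0 (u * a + v * c) (u * b + v * d) z := by
  have e := (ZMod.intCast_zmod_eq_zero_iff_dvd c 3).2 h3
  rw [(law hk h).2 u v z hz, wa, wb, if_pos e, if_pos e, map_mul, mul_div_assoc, div_self th_ne,
    map_zero, zero_div, ← mul_zero (CL.toC (c3 d)), Th2_smul, map_intCast, et]
  ring_nf

/-- The law for matrices whose last entry is divisible by three. -/
theorem law_dual (hk : k ≤ 1) (h : a * d - b * c = 1) (h3 : 3 ∣ d) (u v : ℂ) (hz : 0 < z.im) :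
    Th2 k 1 0 u v (mob a b c d z) = et c / CL.toC th * (c * z + d) ^ (k + 1) *
      Th2 k 1 1 (u * a + v * c) (u * b + v * d) z := by
  have e := (ZMod.intCast_zmod_eq_zero_iff_dvd d 3).2 h3
  have e' : (c : ZMod 3) ≠ 0 := fun k => by
    have := congr_arg (Int.cast : ℤ → ZMod 3) h
    simp [e, k] at this
  rw [(law hk h).2 u v z hz, wa, wb, if_neg e', if_neg e', e, mul_zero, CL.op_zero, mul_one,
    ← mul_one (_ / CL.toC th), Th2_smul, map_intCast, et]
  ring

end Pool.Agent.Lib.MP_696deb_nt.Y3
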