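import Pool.Agent.Lib.MP_696deb_nt.Y3.M0
import Pool.Agent.Lib.MP_696deb_nt.Y3.TH0

/-! The cusp form of level twenty-one as a theta series. -/

set_option autoImplicit false

open Filter Topology Complex PowerSeries
open scoped Real ComplexConjugate Classical

namespace Pool.Agent.Lib.MP_696deb_nt.Y3

open CL (O nm om wC)

variable {z τ : ℂ} {a b c d : ℤ}

theorem mf_qe {g : O → ℂ} {F : ℂ → ℂ}
    (h : ∀ z : ℂ, 0 < z.im → HasSum (fun α : O => g α * q1 (nm α * z)) (F z)) :
    QE F (PowerSeries.mk fun m => ∑ α ∈ CL.reps m, g α) := QE.of_hasSum fun z hz => by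
  convert! (h z hz).tsum_fiberwise fun α => (nm α).natAbs using 2 with n
  have e : (fun α : O => (nm α).natAbs) ⁻¹' {n} = CL.reps n := by
    ext α
    have := CL.nm_nonneg α
    simp only [Set.mem_preimage, Set.mem_singleton_iff, Finset.mem_coe, CL.mem_reps]
    omega
  rw [e, Finset.tsum_subtype' (CL.reps n) fun α => g α * q1 (nm α * z),
    Finset.sum_congr rfl (g := fun α => g α * q1 z ^ n) fun α hα => by
      rw [CL.mem_reps.1 hα, Int.cast_natCast, q1_nat_mul],
    ← Finset.sum_mul, coeff_mk]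

theorem p7_mul : CL.toC p7 * conj (CL.toC p7) = 7 := by
  rw [← CL.toC_star, ← map_mul, show p7 * star p7 = 7 by decide, map_ofNat]

theorem p7_ne : CL.toC p7 ≠ 0 := fun h => by simpa [h] using p7_mul

theorem mf_conj : conj (CL.toC CL.th) = -CL.toC CL.th := by
  rw [← CL.toC_star, show star CL.th = -CL.th by decide, map_neg]

/-- Translations of the second characteristic by the dual lattice. -/
theorem Th_shift (hz : 0 < z.im) (u : ℂ) (y : O) {k : ℤ}
    (h : (u * conj (CL.toC y / CL.toC CL.th)).re = k) :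
    Th2 1 1 0 u (CL.toC y / CL.toC CL.th) z = Th2 1 1 0 u 0 z := by
  refine (hasSum_Th0 le_rfl hz ..).unique ((hasSum_Th0 le_rfl hz 1 u 0).congr_fun fun β => ?_)
  have e : (CL.toC β * conj (CL.toC y / CL.toC CL.th)).re * 2 = -((β * star y).im : ℤ) := by
    rw [map_div₀, mf_conj, ← CL.toC_star, ← mul_div_assoc, ← map_mul, toC_th, CL.toC_apply, wC]
    have h3 : (√3 : ℝ) ≠ 0 := by positivity
    simp [div_re, normSq_apply]
    field_simp
    rw [Real.sq_sqrt (by norm_num)]
    ring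
  rw [thE, thE]
  congr 2
  refine q1_congr (k - (β * star y).im) ?_
  rw [add_mul, add_re, div_mul_eq_mul_div u, div_ofNat_re, h, mul_add, mul_comm 2, e]
  push_cast
  simp
  ring

/-- The dual lattice. -/
theorem Th_dual (hz : 0 < z.im) (u v : ℂ) :
    Th2 1 1 1 u v (3 * z) = Th2 1 1 0 (CL.toC CL.th * u) (-v / CL.toC CL.th) z / CL.toC CL.th := by
  refine (hasSum_Th2 le_rfl (im_mul_pos hz) ..).unique
    (((hasSum_Th0 le_rfl hz 1 _ _).div_const _).congr_fun fun y => ?_)
  have h0 := th_ne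
  have e1 : CL.toC y + CL.toC CL.th * u = CL.toC CL.th * (CL.toC y / CL.toC CL.th + u) := by field_simp
  have e2 : normSq (CL.toC CL.th) = 3 := by rw [CL.normSq_toC, show nm CL.th = 3 by decide]; simp
  have e3 : (CL.toC y + CL.toC CL.th * u / 2) * conj (-v / CL.toC CL.th) =
      (CL.toC y / CL.toC CL.th + u / 2) * conj v := by
    rw [map_div₀, mf_conj, map_neg]
    field_simp
  rw [thT, ite_self, thE, thE, e3, e1, map_mul, e2]
  push_cast
  field_simp

/-- The theta series of a residue class. -/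
noncomputable def fc (γ : O) (z : ℂ) : ℂ :=
  CL.toC p7 * Th2 1 1 0 (CL.toC γ / CL.toC p7) 0 (7 * z)

theorem r7_eq {α γ : O} : r7 α = r7 γ ↔ ∃ β, p7 * β + γ = α := by
  constructor
  · intro h
    have h7 : (7 : ℤ) ∣ α.re + 2 * α.im - (γ.re + 2 * γ.im) :=
      (ZMod.intCast_eq_intCast_iff_dvd_sub _ _ 7).1 (by simpa [r7] using h.symm)
    obtain ⟨k, hk⟩ := h7
    refine ⟨⟨α.im - γ.im - 2 * k, α.im - γ.im - 3 * k⟩, ?_⟩
    ext <;> simp [p7] <;> omega
  · rintro ⟨β, rfl⟩
    rw [r7_add, r7_mul, show r7 p7 = 0 by decide, zero_mul, zero_add]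

theorem hasSum_fc (hz : 0 < z.im) (γ : O) :
    HasSum (fun α : O => (if r7 α = r7 γ then CL.toC α else 0) * q1 (nm α * z)) (fc γ z) := by
  have inj : Function.Injective fun β : O => p7 * β + γ := fun x y e =>
    mul_left_cancel₀ (show p7 ≠ 0 by decide) (add_right_cancel e)
  refine (inj.hasSum_iff fun α hα => ?_).1
    (((hasSum_Th0 le_rfl (im_mul_pos hz) 1 _ 0).mul_left _).congr_fun fun β => ?_)
  · rw [if_neg (mt r7_eq.1 hα), zero_mul]
  have h0 := p7_ne
  have e1 : CL.toC (p7 * β + γ) = CL.toC p7 * (CL.toC β + CL.toC γ / CL.toC p7) := by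
    rw [map_add, map_mul]; field_simp
  have e2 : (nm (p7 * β + γ) : ℂ) = 7 * normSq (CL.toC β + CL.toC γ / CL.toC p7) := by
    have := CL.normSq_toC (p7 * β + γ)
    rw [e1, map_mul, CL.normSq_toC, show nm p7 = 7 by decide] at this
    exact_mod_cast this.symm
  rw [Function.comp, if_pos (r7_eq.2 ⟨β, rfl⟩), e2, e1, thE]
  simp
  ring_nf

theorem fc_eq (hz : 0 < z.im) {γ : O} (h : r7 γ ≠ 0) :
    fc γ z = CL.toC (star (ep (r7 γ))) * fc 1 z := by
  obtain ⟨h1, -, h3, h4⟩ := ep_unit _ h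
  let e : O ≃ O := ⟨(ep (r7 γ) * ·), (star (ep (r7 γ)) * ·),
    fun x => by linear_combination x * h1,
    fun x => by simp only [← mul_assoc, h1, one_mul]⟩
  refine (hasSum_fc hz γ).unique
    (((e.hasSum_iff.2 (hasSum_fc hz 1)).mul_left _).congr_fun fun α => ?_)
  have k : r7 (ep (r7 γ) * α) = r7 1 ↔ r7 α = r7 γ := by
    rw [r7_mul, show r7 1 = 1 by decide]
    exact ⟨fun e => by linear_combination r7 γ * e - r7 α * h4, fun e => e ▸ h4⟩
  simp only [Function.comp, e, Equiv.coe_fn_mk, k, CL.nm_mul, h3, one_mul]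
  split_ifs
  · rw [← mul_assoc, ← map_mul, ← mul_assoc, mul_comm (star _), h1, one_mul]
  · simp

theorem qe_fc : QE (fc 1) (PowerSeries.mk fun m => CL.toC (aG m)) := by
  convert mf_qe fun z hz => hasSum_fc hz 1 using 3 with m
  rw [aG, map_sum, Finset.sum_filter, show r7 1 = 1 by decide]

theorem fY_eq (hz : 0 < z.im) : fY z = fc 1 z := by
  simpa [fY] using (qe_fc.hasSum hz).tsum_eq

theorem qe_fY : QE fY (PowerSeries.mk fun m => CL.toC (aG m)) := qe_fc.congr fun _ => fY_eq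

theorem hasSum_fY (hz : 0 < z.im) :
    HasSum (fun α : O => (if r7 α = 1 then CL.toC α else 0) * q1 (nm α * z)) (fY z) :=
  fY_eq hz ▸ hasSum_fc hz 1

theorem hol_fY : Hol fY := qe_fY.hol

theorem fY_mob (hd : a * d - b * (21 * c) = 1) (hz : 0 < z.im) :
    sl a b (21 * c) d fY z = CL.toC (nb d) * fY z := by
  have h0 := p7_ne
  have h1 := th_ne
  have h7 := p7_mul
  have had : (a : ZMod 7) * d = 1 := by
    have := congrArg (Int.cast : ℤ → ZMod 7) hd
    push_cast at this
    linear_combination this + 3 * b * c * (by decide : (7 : ZMod 7) = 0)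
  have e := mul_mob (m := 7) a b (3 * c) d z
  have k := law_three (k := 1) (a := a) (b := 7 * b) (c := 3 * c) (d := d) le_rfl
    (by linear_combination hd) ⟨c, rfl⟩ (CL.toC 1 / CL.toC p7) 0 (im_mul_pos (r := 7) hz)
  have e1 : CL.toC 1 / CL.toC p7 * ((7 * b : ℤ) : ℂ) + 0 * d =
      CL.toC (CL.th * star p7 * b) / CL.toC CL.th := by
    simp only [map_mul, map_one, map_intCast, CL.toC_star]
    push_cast
    field_simp
    linear_combination -b * h7
  have e2 : CL.toC 1 / CL.toC p7 * (a : ℂ) + 0 * ((3 * c : ℤ) : ℂ) = CL.toC a / CL.toC p7 := by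
    simp [div_eq_inv_mul]
  rw [e1, e2, Th_shift (k := a * b) (im_mul_pos hz) _ _ (by
    rw [show CL.toC a / CL.toC p7 * conj (CL.toC (CL.th * star p7 * b) / CL.toC CL.th) = (a * b : ℤ) by
      simp only [map_mul, map_div₀, map_intCast, CL.toC_star, mf_conj, conj_conj]
      push_cast
      field_simp, intCast_re])] at k
  have k2 := fc_eq (γ := a) hz (by
    rw [r7_int]
    exact fun e => absurd (e ▸ had) (by rw [zero_mul]; decide))
  rw [r7_int, ep_inv _ _ had, fc, map_intCast] at k2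
  have hd0 := den_ne (a := a) (b := b) (c := 21 * c) (d := d) (by omega) hz
  rw [show (7 : ℤ) * (3 * c) = 21 * c by ring, Int.cast_ofNat] at e
  rw [sl, fY_eq (im_mob_pos (by omega) hz), fY_eq hz, fc, e, k, hd, nb_int, map_mul, map_intCast,
    map_intCast, div_eq_iff (pow_ne_zero 2 hd0)]
  push_cast
  linear_combination (et d * (21 * c * z + d) ^ 2) * k2

theorem fY_W3 (hz : 0 < z.im) : sl 3 (-1) 21 (-6) fY z = wC * fY z := by
  have h0 := p7_ne
  have h1 := th_ne
  have h7 := p7_mul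
  have hd0 := den_ne (a := 3) (b := -1) (c := 21) (d := -6) (by omega) hz
  have e : 7 * mob 3 (-1) 21 (-6) z = mob 1 (-7) 1 (-6) (3 * (7 * z)) := by
    simp only [mob]
    push_cast
    rw [← mul_div_assoc]
    congr 1 <;> ring
  have k := law_dual (k := 1) (a := 1) (b := -7) (c := 1) (d := -6) le_rfl
    (by norm_num) (by norm_num) (CL.toC 1 / CL.toC p7) 0 (im_mul_pos (r := 3) (im_mul_pos (r := 7) hz))
  have e1 : -(CL.toC 1 / CL.toC p7 * ((-7 : ℤ) : ℂ) + 0 * ((-6 : ℤ) : ℂ)) = CL.toC (star p7) := by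
    simp only [map_one, CL.toC_star]
    push_cast
    field_simp
    linear_combination -h7
  have e2 : CL.toC CL.th * (CL.toC 1 / CL.toC p7 * ((1 : ℤ) : ℂ) + 0 * ((1 : ℤ) : ℂ)) =
      CL.toC CL.th / CL.toC p7 := by simp [div_eq_mul_inv]
  rw [Th_dual (im_mul_pos hz), e1, e2, Th_shift (k := -1) (im_mul_pos hz) _ _ (by
    rw [show CL.toC CL.th / CL.toC p7 * conj (CL.toC (star p7) / CL.toC CL.th) = (-1 : ℤ) by
      simp only [map_div₀, CL.toC_star, mf_conj, conj_conj]
      push_cast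
      field_simp, intCast_re]), et_one] at k
  have k2 := fc_eq (γ := CL.th) hz (by decide)
  rw [show star (ep (r7 CL.th)) = -om by decide, map_neg, show CL.toC om = wC by simp [CL.toC_apply, om],
    fc] at k2
  rw [sl, fY_eq (im_mob_pos (by omega) hz), fY_eq hz, fc, e, k, div_eq_iff (pow_ne_zero 2 hd0)]
  push_cast
  field_simp
  linear_combination (3 * (21 * z - 6) ^ 2) * k2 - (wC * fc 1 z * (21 * z - 6) ^ 2) * th_sq

/-- The form vanishes at the cusp zero. -/
theorem fY_W21 : ∃ B, QE (sl 0 (-1) 21 0 fY) (X ^ 1 * B) := by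
  set v := CL.toC 1 / CL.toC p7 / CL.toC CL.th
  have h : ∀ z : ℂ, 0 < z.im → HasSum (fun α : O =>
      CL.toC α * q1 (2 * (CL.toC α * conj v).re : ℝ) * q1 (nm α * z)) (Th2 1 1 0 0 v z) :=
    fun z hz => (hasSum_Th0 le_rfl hz 1 0 v).congr_fun fun α => by
      rw [thE, add_zero, zero_div, add_zero, CL.normSq_toC, q1_add]
      push_cast
      ring
  obtain ⟨B, hB⟩ : X ∣ PowerSeries.mk fun m => ∑ α ∈ CL.reps m,
      CL.toC α * q1 (2 * (CL.toC α * conj v).re : ℝ) := X_dvd_iff.2 (by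
    rw [← coeff_zero_eq_constantCoeff_apply, coeff_mk]
    refine Finset.sum_eq_zero fun α hα => ?_
    rw [CL.nm_eq_zero.1 (CL.mem_reps.1 hα), map_zero, zero_mul])
  refine ⟨C (-CL.toC p7 / 7) * B, ?_⟩
  rw [pow_one, mul_left_comm, ← hB]
  refine ((mf_qe h).smul _).congr fun z hz => ?_
  have h1 := th_ne
  have z0 : z ≠ 0 := fun e => by simp [e] at hz
  have e : 7 * mob 0 (-1) 21 0 z = mob 0 (-1) 1 0 (3 * z) := by
    simp only [mob]
    push_cast
    field_simp
    ring
  have k := law_dual (k := 1) (a := 0) (b := -1) (c := 1) (d := 0) le_rfl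
    (by norm_num) (by norm_num) (CL.toC 1 / CL.toC p7) 0 (im_mul_pos (r := 3) hz)
  rw [Th_dual hz, et_one] at k
  rw [sl, fY_eq (im_mob_pos (by omega) hz), fc, e, k]
  simp only [Int.cast_zero, Int.cast_one, Int.cast_neg, mul_zero, add_zero, mul_neg, mul_one,
    neg_neg, v]
  push_cast
  field_simp
  linear_combination (21 * CL.toC p7 * Th2 1 1 0 0 (CL.toC 1 / (CL.toC p7 * CL.toC CL.th)) z) * th_sq

end Pool.Agent.Lib.MP_696deb_nt.Y3
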