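import Pool.Agent.Lib.MP_696deb_nt.Y3.MS1
import Pool.Agent.Lib.MP_696deb_nt.Y3.MF

/-! The sixth power of the cusp form in terms of the Hauptmodul. -/

set_option autoImplicit false

open Filter Topology Complex ModularForm Finset
open scoped Real

namespace Pool.Agent.Lib.MP_696deb_nt.Y3

open CL (O nm om wC)

variable {z : ℂ} {a b c d : ℤ}

theorem ms_aG (m : ℕ) : aG m = ∑ x ∈ Icc (-(2 * m : ℤ)) (2 * m) ×ˢ Icc (-(2 * m : ℤ)) (2 * m),
    if nm ⟨x.1, x.2⟩ = m ∧ r7 ⟨x.1, x.2⟩ = 1 then ⟨x.1, x.2⟩ else 0 := by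
  rw [aG, CL.reps, filter_filter, sum_filter, sum_image fun x _ y _ e =>
    Prod.ext (congrArg QuadraticAlgebra.re e) (congrArg QuadraticAlgebra.im e)]

theorem qt_fY : QT CL.toC 6 fY [0, 1, 0, ⟨-1, 1⟩, ⟨-2, -2⟩, 0] :=
  ⟨_, qe_fY, fun i hi => by
    rw [PowerSeries.coeff_mk, ms_aG]
    congr 1
    interval_cases i <;> decide +kernel⟩

theorem ms_six {κ ξ : ℂ} (h : a * d - b * c ≠ 0) (hz : 0 < z.im) {g : ℂ}
    (e : sl a b c d fY z = ξ * g) (h6 : ξ ^ 6 = 1)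
    (k : κ * (a * d - b * c : ℤ) = (c * z + d) ^ 2) : fY (mob a b c d z) ^ 6 = κ ^ 6 * g ^ 6 := by
  rw [sl, div_eq_iff (pow_ne_zero 2 (den_ne h hz)), ← k] at e
  have : fY (mob a b c d z) = ξ * (κ * g) :=
    mul_left_cancel₀ (a := ((a * d - b * c : ℤ) : ℂ)) (by exact_mod_cast h) (by linear_combination e)
  rw [this, mul_pow, h6, one_mul, mul_pow]

theorem S3' (hz : 0 < z.im) : fY z ^ 6 * tt z ^ 2 / DD z -
    (tt z - CL.toC (star p7)) * (tt z - CL.toC ⟨-2, 1⟩) ^ 3 = 0 := by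
  refine zeroS (F := fun z => fY z ^ 6 * tt z ^ 2 / DD z -
      (tt z - CL.toC (star p7)) * (tt z - CL.toC ⟨-2, 1⟩) ^ 3)
    (fun z hz => ?_) (fun a b c d h z hz => ?_) (fun z hz => ?_) ?_ ?_ hz
  · have := hol_tt z hz
    have := hol_fY z hz
    have := hol_DD z hz
    have := DD_ne hz
    fun_prop (disch := assumption)
  · have h0 := den_ne (a := a) (b := b) (c := 21 * c) (d := d) (by omega) hz
    rw [ms_six (κ := _ ^ 2) (by omega) hz (fY_mob h hz)
      (by rw [← map_pow, (nb_inv _ _ (det_cast h)).2.2, map_one])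
      (by rw [h, Int.cast_one, mul_one]), tt_mob h hz, DD_mob h hz]
    push_cast at h0 ⊢
    field_simp
  · have h0 := W3_den hz
    rw [ms_six (κ := 3 * (7 * z - 2) ^ 2) (by norm_num) hz (fY_W3 hz)
      (by linear_combination (wC ^ 4 - wC ^ 3 + wC - 1) * CL.wC_sq)
      (by push_cast; ring), tt_W3 hz, DD_W3 hz]
    field_simp
    ring
  · have ha := (qt_ea.mono (k := 5) (by norm_num)).map (ψ := CL.toC) (Int.castRingHom O) (by simp)
    have hb := (qt_eb7.mono (k := 5) (by norm_num)).map (ψ := CL.toC) (Int.castRingHom O) (by simp)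
    have h1 := qt_fY.div_q
    have h2 := ha.add (-⟨-2, 1⟩) hb.q_mul
    have h3 := ((h1.mul h1.sq).sq.add (-1) (((ha.mul hb).sq.sq.mul (ha.add (-star p7) hb.q_mul)).mul
      (h2.mul h2.sq))).zero (k := 4) (by norm_num) (by decide +kernel)
    have h9 := h3.div ((tendsto_ea.pow 4).mul (tendsto_eb7.pow 8)) (by simp)
    rw [zero_div] at h9
    refine h9.congr' (ev_pos.mono fun z hz => ?_)
    have := ea_ne hz
    have := eb7_ne hz
    have := q1_ne z
    simp only [Pi.div_apply, DD_ab, tt_ab, map_neg, map_one]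
    field_simp
    ring
  · obtain ⟨B, hB⟩ := fY_W21
    have h2 := (((hB.of_X_pow_mul.tendsto.pow 6).const_mul (7 ^ 2)).div
      ((tendsto_ea.pow 8).mul (tendsto_eb7.pow 4)) (by simp)).sub
      ((tt_zero.sub_const (CL.toC (star p7))).mul ((tt_zero.sub_const (CL.toC ⟨-2, 1⟩)).pow 3))
    refine (Bdd.of_tendsto h2).congr fun z hz => ?_
    have := ea_ne hz
    have := eb7_ne hz
    have := q1_ne z
    have z0 : z ≠ 0 := fun e => by simp [e] at hz
    simp only [Pi.div_apply]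
    congr 1
    rw [tt_W21 hz, DD_W21 hz, ms_six (κ := 21 * z ^ 2) (by norm_num) hz (one_mul _).symm (one_pow _)
      (by push_cast; ring), DD_ab, tt_ab]
    field_simp

theorem S3 (hz : 0 < z.im) : fY z ^ 6 * tt z ^ 2 =
    DD z * (tt z - CL.toC (star p7)) * (tt z - CL.toC ⟨-2, 1⟩) ^ 3 := by
  have h := S3' hz
  rw [sub_eq_zero, div_eq_iff (DD_ne hz)] at h
  linear_combination h

theorem eta13_bd : ∃ K : ℝ, ∀ z : ℂ, 0 < z.im → ‖eta13 z * √z.im‖ ≤ K := by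
  obtain ⟨C, hC⟩ := eta_bound
  refine ⟨max 1 (C * C), fun z hz => ?_⟩
  have h1 := hC z hz
  have h2 := hC (3 * z) (im_mul_pos hz)
  have h3 : ‖eta13 z * √z.im‖ ^ 4 ≤ C * C := by
    have e : (3 * z).im = 3 * z.im := by simp
    have p : 0 ≤ ‖η (3 * z)‖ ^ 4 * z.im := by positivity
    rw [e] at h2
    rw [eta13, norm_mul, norm_mul, norm_real, Real.norm_of_nonneg (Real.sqrt_nonneg _), mul_pow,
      mul_pow, show √z.im ^ 4 = (√z.im ^ 2) ^ 2 by ring, Real.sq_sqrt hz.le]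
    calc _ = ‖η z‖ ^ 4 * z.im * (‖η (3 * z)‖ ^ 4 * z.im) := by ring
      _ ≤ C * C := mul_le_mul h1 (by linarith) p (le_trans (by positivity) h1)
  by_contra k
  rw [not_le, max_lt_iff] at k
  exact absurd ((le_self_pow₀ k.1.le (by norm_num)).trans h3) k.2.not_ge

theorem sy_fY : SY fY := by
  refine ⟨hol_fY, fun a b c d h z hz => fY_mob h hz, ?_⟩
  obtain ⟨K, hK⟩ := eta13_bd
  refine ⟨max 1 (K ^ 4 * K ^ 4 * (K + ‖CL.toC (star p7)‖ * K) * (K + ‖CL.toC ⟨-2, 1⟩‖ * K) ^ 3),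
    fun z hz => ?_⟩
  have h1 := hK z hz
  have h2 : ‖eta13 (7 * z) * √z.im‖ ≤ K := by
    refine le_trans ?_ (hK _ (im_mul_pos (r := 7) hz))
    simp only [norm_mul, norm_real, Real.norm_of_nonneg (Real.sqrt_nonneg _)]
    gcongr
    simp only [mul_im, re_ofNat, im_ofNat]
    linarith
  have h3 := S3 hz
  have a0 := eta13_ne hz
  have b0 := eta13_ne (τ := 7 * z) (im_mul_pos hz)
  have r2 : ((√z.im : ℝ) : ℂ) ^ 2 = z.im := by exact_mod_cast Real.sq_sqrt hz.le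
  rw [tt, DD] at h3
  generalize eta13 z = A, eta13 (7 * z) = B, CL.toC (star p7) = s, CL.toC ⟨-2, 1⟩ = t,
    ((√z.im : ℝ) : ℂ) = r at h1 h2 h3 a0 b0 r2 ⊢
  have h4 : (fY z * z.im) ^ 6 =
      (A * r) ^ 4 * (B * r) ^ 4 * (A * r - s * (B * r)) * (A * r - t * (B * r)) ^ 3 := by
    rw [← r2]
    field_simp at h3
    linear_combination r ^ 12 * h3
  have h5 : ∀ s : ℂ, ‖A * r - s * (B * r)‖ ≤ K + ‖s‖ * K := fun s =>
    (norm_sub_le _ _).trans (by rw [norm_mul s]; gcongr)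
  have h6 : (‖fY z‖ * z.im) ^ 6 ≤ K ^ 4 * K ^ 4 * (K + ‖s‖ * K) * (K + ‖t‖ * K) ^ 3 := by
    have k0 := (norm_nonneg _).trans h1
    rw [← Real.norm_of_nonneg hz.le, ← norm_real, ← norm_mul, ← norm_pow, h4, norm_mul, norm_mul,
      norm_mul, norm_pow, norm_pow, norm_pow]
    gcongr
    exacts [h5 s, h5 t]
  by_contra k
  rw [not_le, max_lt_iff] at k
  exact absurd ((le_self_pow₀ k.1.le (by norm_num)).trans h6) k.2.not_ge

end Pool.Agent.Lib.MP_696deb_nt.Y3
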