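import Pool.Agent.Lib.MP_696deb_nt.Y3.M3j
import Pool.Agent.Lib.MP_696deb_nt.Y3.MS2

/-! The elliptic points. -/

set_option autoImplicit false

open Filter Topology Complex PeriodPair ModularForm PowerSeries Pool.Agent.Shared.Weier
open scoped Real ComplexConjugate

namespace Pool.Agent.Lib.MP_696deb_nt.Y3

open CL (O nm om wC wC_sq)

variable {τ z w v : ℂ} {a b c d A B C D : ℤ}

theorem p7_coe : CL.toC p7 = 1 + 3 * wC := by simp [CL.toC_apply, p7]

theorem p7_star : CL.toC (star p7) = -2 - 3 * wC := by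
  rw [show star p7 = ⟨-2, -3⟩ by decide, CL.toC_apply]
  push_cast
  ring

theorem me_im : 0 < wC.im := by simp [wC]

/-- A fixed point of a product with the involution. -/
theorem me_fix (hv : 0 < v.im) (e : a * 3 + b * 21 = A ∧ a * -1 + b * -6 = B ∧
    c * 3 + d * 21 = C ∧ c * -1 + d * -6 = D) (hd : a * d - b * c = 1)
    (h : v * (C * v + D) = A * v + B) : v = mob a b c d (mob 3 (-1) 21 (-6) v) := by
  obtain ⟨rfl, rfl, rfl, rfl⟩ := e
  rw [mob_mob (by norm_num) _ _ _ _ hv, mob, eq_div_iff (den_ne (a := a * 3 + b * 21)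
    (b := a * -1 + b * -6) (fun k => by linarith) hv), h]

/-- The cusp form vanishes at a fixed point where the multiplier is not the character. -/
theorem me_zero (hv : 0 < v.im) (hd : a * d - b * (21 * c) = 1)
    (h : v = mob a b (21 * c) d (mob 3 (-1) 21 (-6) v))
    (hne : CL.toC (nb d * om) * (21 * (3 * c + d) * v - (21 * c + 6 * d)) ^ 2 ≠ 3) :
    tt v = -2 - 3 * wC ∨ tt v = -2 + wC := by
  have h1 := fY_mob hd (W3_pos hv)
  have h2 := fY_W3 hv
  have n1 := den_ne (a := a) (b := b) (c := 21 * c) (d := d) (by omega) (W3_pos hv)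
  have n2 := den_ne (a := 3) (b := -1) (c := 21) (d := -6) (by norm_num) hv
  rw [sl, ← h, hd, div_eq_iff (pow_ne_zero 2 n1), mob_den (by norm_num) _ _ hv, div_pow,
    ← mul_div_assoc, eq_div_iff (pow_ne_zero 2 n2)] at h1
  rw [sl, div_eq_iff (pow_ne_zero 2 n2)] at h2
  rw [map_mul, EW.om_coe] at hne
  have h3 : fY v = 0 := by
    refine mul_left_cancel₀ (mul_ne_zero (sub_ne_zero.2 hne) (pow_ne_zero 2 n2)) ?_
    push_cast at h1 h2 ⊢
    linear_combination -3 * h1 -
      CL.toC (nb d) * (21 * (3 * c + d) * v - (21 * c + 6 * d)) ^ 2 * h2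
  have h4 := S3 hv
  rw [h3, zero_pow (by norm_num), zero_mul, eq_comm, mul_eq_zero, mul_eq_zero,
    or_iff_right (DD_ne hv), pow_eq_zero_iff (by norm_num), p7_star, CL.toC_apply] at h4
  exact h4.imp sub_eq_zero.1 fun e => by simpa using sub_eq_zero.1 e

/-- All points with the same value have conjugate stabilisers. -/
theorem me_conj {χ : O} (hv : 0 < v.im) (h : EqX χ v v) (hz : 0 < z.im) (e : tt z = tt v) :
    EqX χ z z := by
  obtain ⟨ξ, f1⟩ := (eqS_of_tt hz hv e).eqX hz hv
  obtain ⟨ξ', f2, f3⟩ := f1.symm hz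
  have := (f1.trans h hz).trans f3 hz
  rwa [show ξ' * (χ * ξ) = χ by linear_combination χ * f2] at this

theorem e2_pos : 0 < ((5 + wC) / 21).im := by simpa using me_im

theorem e2_fix' : (5 + wC) / 21 = mob (-5) 1 (21 * -1) 4 (mob 3 (-1) 21 (-6) ((5 + wC) / 21)) :=
  me_fix (A := 6) (B := -1) (C := 21) (D := -3) e2_pos (by norm_num) (by norm_num)
    (by push_cast; linear_combination wC_sq / 21)

theorem e2_fix : EqX (om ^ 2) ((5 + wC) / 21) ((5 + wC) / 21) :=
  ⟨-5, 1, -1, 4, by norm_num, .inr ⟨by decide, e2_fix'⟩⟩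

theorem t3_e2 : t3 ((5 + wC) / 21) = -27 := by
  have hv := e2_pos
  have f1 : mob 5 (-1) 21 (-4) ((5 + wC) / 21) = (5 + wC) / 21 := by
    rw [mob, div_eq_iff (den_ne (a := 5) (b := -1) (by norm_num) hv)]
    push_cast
    linear_combination -wC_sq / 21
  have f2 : mob 6 (-1) 21 (-3) ((5 + wC) / 21) = (5 + wC) / 21 := by
    rw [mob, div_eq_iff (den_ne (a := 6) (b := -1) (by norm_num) hv)]
    push_cast
    linear_combination -wC_sq / 21
  have h1 := Y2.J2.E4_mob (a := 5) (b := -1) (c := 21) (d := -4) (by norm_num) hv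
  have h2 := t3_mob (a := 1) (b := 2) (c := 1) (d := 7) (τ := mob 0 (-1) 3 0 ((5 + wC) / 21))
    (by norm_num) (im_mob_pos (by norm_num) hv)
  rw [mob_mob (by norm_num) _ _ _ _ hv, ← W_eq, t3_W hv, eq_div_iff (t3_ne hv)] at h2
  norm_num only at h2
  rw [f2] at h2
  rw [f1] at h1
  have h3 : E4 ((5 + wC) / 21) = 0 := by
    refine mul_left_cancel₀ (a := wC + 2) (fun e => me_im.ne' ?_) ?_
    · simpa using congrArg im e
    · push_cast at h1
      linear_combination h1 + (wC ^ 2 + 3 * wC + 2) * E4 ((5 + wC) / 21) * wC_sq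
  have h4 := jf_t3 hv
  rw [jf, h3] at h4
  generalize t3 _ = t at h2 h4
  have h5 : (t + 27) * (t + 243) ^ 3 = 0 := by rw [← h4]; simp
  rcases mul_eq_zero.1 h5 with e | e
  · linear_combination e
  · rw [show t = -243 by linear_combination pow_eq_zero_iff three_ne_zero |>.1 e] at h2
    norm_num at h2

theorem tt_e2 : tt ((5 + wC) / 21) = CL.toC (star p7) := by
  have hv := e2_pos
  rw [p7_star]
  refine (me_zero (c := -1) hv (by norm_num) e2_fix' ?_).resolve_right fun e => ?_
  · rw [show nb (4 : ℤ) * om = om ^ 2 by decide, map_pow, EW.om_coe]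
    intro e
    push_cast at e
    have : wC = -1 := by linear_combination -e / 3 + (wC ^ 2 + 3 * wC) / 3 * wC_sq
    simpa [this] using me_im
  · have h := S1 hv
    rw [t3_e2, e] at h
    have h1 : (8 - 4 * wC) * (5 + wC) ^ 6 = 0 := by
      linear_combination h / 27 - (5 + wC) ^ 6 * wC_sq
    rcases mul_eq_zero.1 h1 with k | k
    · simpa [me_im.ne'] using congrArg im k
    · simpa [me_im.ne'] using congrArg im (pow_eq_zero_iff (by norm_num) |>.1 k)

theorem e1_pos : 0 < e1.im := by simpa [e1] using me_im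

theorem e1_fix' : e1 = mob 13 (-2) (21 * -4) 13 (mob 3 (-1) 21 (-6) e1) :=
  me_fix (A := -3) (B := -1) (C := 21) (D := 6) e1_pos (by norm_num) (by norm_num)
    (by rw [e1]; push_cast; linear_combination wC_sq / 21)

theorem e1_fix : EqX (-om) e1 e1 := ⟨13, -2, -4, 13, by norm_num, .inr ⟨by decide, e1_fix'⟩⟩

theorem tt_e1 : tt e1 = CL.toC p7 := by
  have e : e1 = mob 0 (-1) 21 0 ((5 + wC) / 21) := by
    rw [mob, eq_div_iff (den_ne (a := 0) (b := -1) (by norm_num) e2_pos), e1]
    push_cast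
    linear_combination wC_sq / 21
  rw [e, tt_W21 e2_pos, tt_e2, div_eq_iff (EW.coe_ne (by decide)), ← map_mul,
    show p7 * star p7 = 7 by decide, map_ofNat]

theorem d2_pos : 0 < ((wC - 4) * 2 / 21).im := by simpa using me_im

theorem t3_d2 : t3 ((wC - 4) * 2 / 21) = 27 := by
  have h0 : 0 < (1 + 2 * wC).im := by simpa using me_im
  have n0 : 1 + 2 * wC ≠ 0 := fun e => by simp [e] at h0
  have e0 : -1 / (1 + 2 * wC) = (1 + 2 * wC) / 3 := by
    rw [div_eq_iff n0]
    linear_combination -4 / 3 * wC_sq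
  have h1 : 0 < ((1 + 2 * wC) / 3).im := by simpa using me_im
  have e : (wC - 4) * 2 / 21 = mob (-1) (-1) (3 * 1) 2 ((1 + 2 * wC) / 3) := by
    rw [mob, eq_div_iff (den_ne (a := -1) (b := -1) (by norm_num) h1)]
    push_cast
    linear_combination 4 / 21 * wC_sq
  rw [e, t3_mob (by norm_num) h1, t3, mul_div_cancel₀ _ three_ne_zero, ← e0, eta2_S h0,
    mul_div_cancel_right₀ _ (eta2_ne h0), show 6 = 2 * 3 from rfl, pow_mul, mul_pow, neg_sq, I_sq,
    show (1 + 2 * wC) ^ 2 = -3 by linear_combination 4 * wC_sq]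
  norm_num

theorem tt_d2 : tt ((wC - 4) * 2 / 21) = -2 + wC := by
  have hv := d2_pos
  refine (me_zero (a := -46) (b := 7) (c := 5) (d := -16) hv (by norm_num)
    (me_fix (A := 9) (B := 4) (C := -21) (D := -9) hv (by norm_num) (by norm_num)
      (by push_cast; linear_combination -4 / 21 * wC_sq)) ?_).resolve_left fun e => ?_
  · rw [show nb (-16 : ℤ) * om = 1 by decide, map_one]
    intro e
    push_cast at e
    have : (6 : ℂ) = 0 := by linear_combination -e + 4 * wC_sq
    norm_num at this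
  · have h := S1 hv
    rw [t3_d2, show tt _ ^ 2 + tt _ + 7 = 0 by rw [e]; linear_combination 9 * wC_sq] at h
    simp [tt_ne hv] at h

theorem v2_pos : 0 < ((5 + wC) / 42).im := by simpa using me_im

theorem v2_fix : EqX (-1) ((5 + wC) / 42) ((5 + wC) / 42) :=
  ⟨-11, 2, -5, 19, by norm_num, .inr ⟨by decide,
    me_fix (A := 9) (B := -1) (C := 84) (D := -9) v2_pos (by norm_num) (by norm_num)
      (by push_cast; linear_combination wC_sq / 21)⟩⟩

theorem tt_v2 : tt ((5 + wC) / 42) = -3 - wC := by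
  have e : (5 + wC) / 42 = mob 0 (-1) 21 0 ((wC - 4) * 2 / 21) := by
    rw [mob, eq_div_iff (den_ne (a := 0) (b := -1) (by norm_num) d2_pos)]
    push_cast
    linear_combination wC_sq / 21
  rw [e, tt_W21 d2_pos, div_eq_iff (tt_ne d2_pos), tt_d2]
  linear_combination wC_sq

theorem ell6 (hz : 0 < z.im) (h : tt z = CL.toC p7) : EqX (-om) z z :=
  me_conj e1_pos e1_fix hz (h.trans tt_e1.symm)

theorem ell3 (hz : 0 < z.im) (h : tt z = CL.toC (star p7)) : EqX (om ^ 2) z z :=
  me_conj e2_pos e2_fix hz (h.trans tt_e2.symm)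

theorem ell2 (hz : 0 < z.im) (h : tt z = -3 - wC) : EqX (-1) z z :=
  me_conj v2_pos v2_fix hz (h.trans tt_v2.symm)

end Pool.Agent.Lib.MP_696deb_nt.Y3
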