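import Pool.Agent.Lib.MP_696deb_nt.Y3.M6
import Pool.Agent.Lib.MP_696deb_nt.Y3.M7e
import Pool.Agent.Lib.MP_696deb_nt.Y2.M7

/-! The uniformisation. -/

set_option autoImplicit false

open Filter Topology Complex PeriodPair ModularForm PowerSeries Pool.Agent.Shared.Weier
open scoped Real ComplexConjugate

namespace Pool.Agent.Lib.MP_696deb_nt.Y3

open CL (O nm om wC)

variable {τ z w : ℂ} {a b c d : ℤ}

theorem hasDerivAt_uu (h : 0 < τ.im) : HasDerivAt uu (rho * (2 * π * I * fY τ)) τ :=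
  ((hasDerivAt_phi h).sub_const _).const_mul rho

theorem hol_uu : Hol uu := fun _ h => (hasDerivAt_uu h).differentiableAt

theorem uu_cusp : ∃ c0 r : ℂ, r ≠ 0 ∧ Tendsto (fun z => (uu z - c0) / q1 z) atI (𝓝 r) := by
  refine ⟨-(rho * phi e1), rho, rho_ne, ?_⟩
  have := tendsto_phi.const_mul rho
  rw [mul_one] at this
  exact this.congr fun z => by rw [uu]; ring

theorem m7_an {G : ℂ → ℂ} (hG : Hol G) : AnalyticOnNhd ℂ G {z | 0 < z.im} := fun _ hz =>
  Unif.Hol.analyticAt hG hz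

theorem m7_ev {G : ℂ → ℂ} (hG : Hol G) (hw : 0 < w.im) (h : G w ≠ 0) (hz : 0 < z.im) :
    ∀ᶠ v in 𝓝[≠] z, G v ≠ 0 :=
  (m7_an hG z hz).eventually_eq_zero_or_eventually_ne_zero.resolve_left fun k =>
    h ((m7_an hG).eqOn_zero_of_preconnected_of_eventuallyEq_zero
      (convex_halfSpace_im_gt 0).isPreconnected hz k hw)

/-- The complement of the zeros of a holomorphic function is connected. -/
theorem m7_conn {G : ℂ → ℂ} (hG : Hol G) (hw : 0 < w.im) (h : G w ≠ 0) :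
    IsPreconnected {z | 0 < z.im ∧ G z ≠ 0} := by
  have hS : {z | 0 < z.im ∧ G z = 0}.Countable := by
    have := discreteTopology_subtype_iff.2 fun z (hz : z ∈ {z | 0 < z.im ∧ G z = 0}) =>
      inf_principal_eq_bot.2 ((m7_ev hG hw h hz.1).mono fun v e k => e k.2)
    exact TopologicalSpace.separableSpace_iff_countable.1 inferInstance
  let φ : ℂ → ℂ := fun z => ⟨z.re, Real.exp z.im⟩
  have h1 : Function.Injective φ := fun a b h => by
    simp only [φ, Complex.mk.injEq, Real.exp_eq_exp] at h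
    exact Complex.ext h.1 h.2
  have h3 : Continuous φ := Complex.equivRealProdCLM.symm.continuous.comp
    (Complex.continuous_re.prodMk (Real.continuous_exp.comp Complex.continuous_im))
  convert ((hS.preimage h1).isConnected_compl_of_one_lt_rank (by simp)).2.image _ h3.continuousOn
  ext z
  constructor
  · rintro ⟨k1, k2⟩
    have e : φ ⟨z.re, Real.log z.im⟩ = z := by simp [φ, Real.exp_log k1]
    exact ⟨_, fun k => k2 (e ▸ k.2), e⟩
  · rintro ⟨v, k, rfl⟩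
    exact ⟨Real.exp_pos _, fun e => k ⟨Real.exp_pos _, e⟩⟩

theorem wp_unit {χ : O} (hχ : χ ^ 6 = 1) (u : ℂ) :
    (CL.toC χ * u ∈ EW.LG.lattice ↔ u ∈ EW.LG.lattice) ∧
      ℘[EW.LG] (CL.toC χ * u) = CL.toC χ ^ 4 * ℘[EW.LG] u ∧
      ℘'[EW.LG] (CL.toC χ * u) = CL.toC χ ^ 3 * ℘'[EW.LG] u := by
  let P : ℂ → Prop := fun ξ => ∀ u, (ξ * u ∈ EW.LG.lattice ↔ u ∈ EW.LG.lattice) ∧
    ℘[EW.LG] (ξ * u) = ξ ^ 4 * ℘[EW.LG] u ∧ ℘'[EW.LG] (ξ * u) = ξ ^ 3 * ℘'[EW.LG] u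
  have mul : ∀ x y, P x → P y → P (x * y) := fun x y hx hy u => by
    rw [mul_assoc, (hx _).1, (hx _).2.1, (hx _).2.2, (hy _).1, (hy _).2.1, (hy _).2.2]
    exact ⟨Iff.rfl, by ring, by ring⟩
  have h1 : P wC := fun u =>
    ⟨EW.I_mem_LG, by rw [EW.wp_I, pow_succ, EW.wC_cube, one_mul], by rw [EW.wp'_I, EW.wC_cube, one_mul]⟩
  have h2 : P (-1) := fun u => by
    rw [neg_one_mul, neg_mem_iff, weierstrassP_neg, derivWeierstrassP_neg]
    exact ⟨Iff.rfl, by ring, by ring⟩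
  have h3 : ∀ n, P (wC ^ n) := fun n => by
    induction n with
    | zero => intro u; simp
    | succ n ih => exact pow_succ wC n ▸ mul _ _ ih h1
  have e : nm χ ^ 6 = 1 := by rw [CL.nm_eq, ← map_pow, hχ, map_one]
  obtain ⟨k, rfl | rfl⟩ := CL.nm_eq_one ((pow_eq_one_iff_of_nonneg (CL.nm_nonneg χ) (by norm_num)).1 e)
  · rw [CL.op, map_pow, EW.om_coe]
    exact h3 _ u
  · rw [map_neg, CL.op, map_pow, EW.om_coe, ← neg_one_mul]
    exact mul _ _ h2 (h3 _) u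

/-- The function whose zeros are excluded. -/
noncomputable def bad (z : ℂ) : ℂ :=
  fY z * ((tt z - (1 + 3 * wC)) * ((tt z + 2 + 3 * wC) * (tt z + 3 + wC)))

theorem hol_bad : Hol bad := fun z hz => by
  have := hol_tt z hz
  have := hol_fY z hz
  unfold bad
  fun_prop

theorem exists_good : ∃ z : ℂ, 0 < z.im ∧ bad z ≠ 0 := by
  have k : ∀ s : ℂ, Tendsto (fun z => q1 z * (tt z + s)) atI (𝓝 1) := fun s => by
    simpa [mul_add] using tendsto_tt.add (tendsto_q1.mul_const s)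
  have h := tendsto_fY.mul ((k (-(1 + 3 * wC))).mul ((k (2 + 3 * wC)).mul (k (3 + wC))))
  obtain ⟨z, h1, h2⟩ := (ev_pos.and (h.eventually_ne (b₂ := 0) (by simp))).exists
  refine ⟨z, h1, fun e => h2 ?_⟩
  rw [bad] at e
  linear_combination (q1 z ^ 3 / q1 z) * e

/-- The quotient of the two differentials. -/
noncomputable def gq (z : ℂ) : ℂ := EE z * tt z / fY z

/-- The first coordinate. -/
noncomputable def ux (z : ℂ) : ℂ := -gq z ^ 2 /
  (rho ^ 2 * (2 + wC) * ((tt z - (1 + 3 * wC)) ^ 2 * (tt z + 2 + 3 * wC) * (tt z + 3 + wC)))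

/-- Twice the second coordinate. -/
noncomputable def uy (z : ℂ) : ℂ := -wC ^ 2 * gq z ^ 3 /
  (rho ^ 3 * ((tt z - (1 + 3 * wC)) ^ 3 * (tt z + 2 + 3 * wC) ^ 2 * (tt z + 3 + wC)))

theorem m7_ne : wC ≠ 0 ∧ 2 + wC ≠ 0 ∧ 2 + 3 * wC ≠ 0 ∧ 1 + 2 * wC ≠ 0 := by
  have := EW.wC_im
  refine ⟨?_, ?_, ?_, ?_⟩ <;> intro e <;> simpa [this] using congrArg im e

theorem gq_six (hz : 0 < z.im) (h : bad z ≠ 0) : gq z ^ 6 =
    (tt z - (1 + 3 * wC)) ^ 5 * (tt z + 2 + 3 * wC) ^ 4 * (tt z + 3 + wC) ^ 3 := by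
  have h1 := ODE' hz
  have h2 := S3 hz
  have f0 := left_ne_zero_of_mul h
  rw [sub_eq_zero, div_eq_iff (DD_ne hz)] at h1
  rw [p7_star, CL.toC_apply] at h2
  push_cast at h2
  have e1 : tt z ^ 2 + tt z + 7 = (tt z - (1 + 3 * wC)) * (tt z + 2 + 3 * wC) := by
    linear_combination 9 * CL.wC_sq
  have e2 : tt z ^ 2 + 5 * tt z + 7 = (tt z + 3 + wC) * (tt z - (-2 + 1 * wC)) := by
    linear_combination CL.wC_sq
  rw [e1, e2] at h1
  rw [gq, div_pow, div_eq_iff (pow_ne_zero _ f0)]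
  refine mul_right_cancel₀ (pow_ne_zero 2 (tt_ne hz)) ?_
  linear_combination h1 - (tt z - (1 + 3 * wC)) ^ 5 * (tt z + 2 + 3 * wC) ^ 4 *
    (tt z + 3 + wC) ^ 3 * h2

theorem u_eq (hz : 0 < z.im) (h : bad z ≠ 0) :
    -(2 + 3 * wC) * (tt z - (1 + 3 * wC)) * ux z ^ 3 = 27 * (tt z + 2 + 3 * wC) ∧
    -(2 + 3 * wC) * (tt z - (1 + 3 * wC)) * uy z ^ 2 = 81 * (2 + wC) * (tt z + 3 + wC) ∧
    ux z ^ 2 * uy z * (rho * fY z) * ((2 + 3 * wC) * (tt z - (1 + 3 * wC)) ^ 2) =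
      27 * (1 + 2 * wC) * (EE z * tt z) := by
  have h6 := gq_six hz h
  have r0 := rho_ne
  obtain ⟨n0, n1, n2, n3⟩ := m7_ne
  simp only [bad, ne_eq, mul_eq_zero, not_or] at h
  obtain ⟨f0, a0, b0, c0⟩ := h
  have e : EE z * tt z = gq z * fY z := by rw [gq, div_mul_cancel₀ _ f0]
  have w := CL.wC_sq
  have k1 : 27 * (2 + wC) ^ 3 * rho ^ 6 = 2 + 3 * wC := by rw [rho_six]; grind
  have k2 : 81 * (2 + wC) * rho ^ 6 = -(2 + 3 * wC) * wC ^ 4 := by rw [rho_six]; grind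
  have k3 : 27 * (1 + 2 * wC) * (2 + wC) ^ 2 * rho ^ 6 = -(2 + 3 * wC) * wC ^ 2 := by
    rw [rho_six]; grind
  rw [ux, uy, e]
  generalize tt z - (1 + 3 * wC) = A, tt z + 2 + 3 * wC = B, tt z + 3 + wC = C, gq z = g at *
  refine ⟨?_, ?_, ?_⟩ <;> field_simp
  · rw [h6, ← k1]; ring
  · linear_combination -(wC ^ 4 * (2 + 3 * wC)) * h6 - A ^ 5 * B ^ 4 * C ^ 3 * k2
  · linear_combination -(g * wC ^ 2 * (2 + 3 * wC)) * h6 - g * A ^ 5 * B ^ 4 * C ^ 3 * k3

theorem u_spec : ∃ c, ∀ z : ℂ, 0 < z.im → bad z ≠ 0 → uu z + c ∉ EW.LG.lattice ∧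
    ux z = ℘[EW.LG] (uu z + c) ∧ uy z = ℘'[EW.LG] (uu z + c) := by
  obtain ⟨z₀, h0, h1⟩ := exists_good
  obtain ⟨n0, n1, n2, n3⟩ := m7_ne
  have r0 := rho_ne
  have hU : IsOpen {z | 0 < z.im ∧ bad z ≠ 0} := isOpen_iff_mem_nhds.2 fun z hz =>
    inter_mem (Unif.upper_mem_nhds hz.1) ((hol_bad z hz.1).continuousAt.eventually_ne hz.2)
  have dd : ∀ z, 0 < z.im → bad z ≠ 0 → DifferentiableAt ℂ ux z ∧ DifferentiableAt ℂ uy z :=
    fun z hz h => by
      have := hol_tt z hz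
      have := hol_fY z hz
      have := hol_EE z hz
      simp only [bad, ne_eq, mul_eq_zero, not_or] at h
      obtain ⟨f0, a0, b0, c0⟩ := h
      unfold ux uy gq
      constructor <;> fun_prop (disch := simp [*])
  have ne : ∀ z, 0 < z.im → bad z ≠ 0 → ux z ≠ 0 ∧ uy z ≠ 0 := fun z hz h => by
    obtain ⟨e1, e2, -⟩ := u_eq hz h
    simp only [bad, ne_eq, mul_eq_zero, not_or] at h
    constructor <;> intro e
    · simp [e, h] at e1
    · simp [e, h, n1] at e2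
  refine (Y2.P_comp' EW.LG hU (m7_conn hol_bad h0 h1) (F := uu) (A := ux) (A₁ := uy)
    (g := fun z => rho * (2 * π * I * fY z)) (fun z hz => hasDerivAt_uu hz.1) (fun z hz => ?_) (fun z hz => (dd z hz.1 hz.2).2)
    (fun z hz => ?_) ⟨h0, h1⟩ (mul_ne_zero r0 (mul_ne_zero two_pi_I (left_ne_zero_of_mul h1)))
    (ne _ h0 h1).2).imp fun c hc z hz h => hc z ⟨hz, h⟩
  · have hx := (dd z hz.1 hz.2).1.hasDerivAt
    have ht := hasDerivAt_tt hz.1
    have k := ((((ht.sub_const (1 + 3 * wC)).const_mul (-(2 + 3 * wC))).mul (hx.pow 3)).unique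
      ((((ht.add_const 2).add_const (3 * wC)).const_mul 27).congr_of_eventuallyEq
        (mem_of_superset (hU.mem_nhds hz) fun v hv => (u_eq hv.1 hv.2).1)))
    obtain ⟨e1, -, e3⟩ := u_eq hz.1 hz.2
    have a0 := left_ne_zero_of_mul (right_ne_zero_of_mul hz.2)
    refine hx.congr_deriv (mul_left_cancel₀ (mul_ne_zero (mul_ne_zero n2 (pow_ne_zero 2 a0))
      (mul_ne_zero three_ne_zero (pow_ne_zero 2 (ne z hz.1 hz.2).1))) ?_)
    simp only [Nat.cast_ofNat, Nat.add_one_sub_one, Pi.pow_apply] at k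
    linear_combination (-(tt z - (1 + 3 * wC))) * k - (6 * π * I) * e3 +
      (2 * π * I * EE z * tt z) * e1
  · obtain ⟨e1, e2, -⟩ := u_eq hz.1 hz.2
    rw [EW.g2_LG, EW.g3_LG]
    refine mul_left_cancel₀ (mul_ne_zero (neg_ne_zero.2 n2)
      (left_ne_zero_of_mul (right_ne_zero_of_mul hz.2))) ?_
    linear_combination e2 - 4 * e1 + 324 * CL.wC_sq

theorem m7_law {κ : ℂ} (hc : ∀ z : ℂ, 0 < z.im → bad z ≠ 0 → uu z + κ ∉ EW.LG.lattice ∧
      ux z = ℘[EW.LG] (uu z + κ) ∧ uy z = ℘'[EW.LG] (uu z + κ)) {χ : O} (hχ : χ ^ 6 = 1)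
    (hd : 0 < a * d - b * c) (ht : ∀ z : ℂ, 0 < z.im → tt (mob a b c d z) = tt z)
    (hf : ∀ z : ℂ, 0 < z.im → sl a b c d fY z = CL.toC χ * fY z) :
    ∃ l ∈ EW.LG.lattice, ∀ z : ℂ, 0 < z.im →
      uu (mob a b c d z) + κ = CL.toC χ * (uu z + κ) + l := by
  obtain ⟨l, hl⟩ := const_of_deriv (G := fun z => uu (mob a b c d z) + κ - CL.toC χ * (uu z + κ))
    fun z hz => ((((hasDerivAt_uu (im_mob_pos hd hz)).comp z (hasDerivAt_mob hd.ne' hz)).add_const
      κ).sub (((hasDerivAt_uu hz).add_const κ).const_mul _)).congr_deriv (by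
        have := hf z hz
        rw [sl] at this
        linear_combination rho * (2 * π * I) * this)
  refine ⟨l, ?_, fun z hz => by rw [← hl z hz]; ring⟩
  obtain ⟨z, hz, h⟩ := exists_good
  have x6 : CL.toC χ ^ 6 = 1 := by rw [← map_pow, hχ, map_one]
  have x0 : CL.toC χ ≠ 0 := fun e => by simp [e] at x6
  have d0 : ((a * d - b * c : ℤ) : ℂ) ≠ 0 := by exact_mod_cast hd.ne'
  have j0 := pow_ne_zero 2 (den_ne hd.ne' hz)
  have e1 := EE_of hd ht hz (div_mul_cancel₀ _ d0)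
  have e2 := hf z hz
  rw [sl, div_eq_iff j0, mul_comm, ← eq_div_iff d0] at e2
  have f0 := left_ne_zero_of_mul h
  have e3 : gq (mob a b c d z) = CL.toC χ ^ 5 * gq z := by
    rw [gq, e1, e2, ht z hz, gq]
    generalize ((c : ℂ) * z + d) ^ 2 = J, ((a * d - b * c : ℤ) : ℂ) = D at *
    field_simp
    linear_combination -(EE z * tt z) * x6
  have h' : bad (mob a b c d z) ≠ 0 := by
    rw [bad, ht z hz, e2]
    exact mul_ne_zero (div_ne_zero (mul_ne_zero (mul_ne_zero x0 f0) j0) d0) (right_ne_zero_of_mul h)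
  obtain ⟨k1, k2, k3⟩ := hc z hz h
  obtain ⟨l1, l2, l3⟩ := hc _ (im_mob_pos hd hz) h'
  obtain ⟨m1, m2, m3⟩ := wp_unit hχ (uu z + κ)
  rw [← hl z hz]
  refine Unif.sub_mem_of_P_eq _ l1 (mt m1.1 k1) ?_ ?_
  · rw [← l2, m2, ← k2, ux, ux, e3, ht z hz, ← mul_div_assoc]
    congr 1
    linear_combination -(CL.toC χ ^ 4 * gq z ^ 2) * x6
  · rw [← l3, m3, ← k3, uy, uy, e3, ht z hz, ← mul_div_assoc]
    congr 1
    linear_combination -(wC ^ 2 * CL.toC χ ^ 3 * gq z ^ 3 * (CL.toC χ ^ 6 + 1)) * x6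

theorem m7_W3 (hz : 0 < z.im) : sl 3 (-1) 21 (-6) fY z = CL.toC om * fY z := EW.om_coe ▸ fY_W3 hz

theorem uu_spec (hz : 0 < z.im) (h : bad z ≠ 0) : uu z ∉ EW.LG.lattice ∧
    ℘[EW.LG] (uu z) = ux z ∧ ℘'[EW.LG] (uu z) = uy z := by
  obtain ⟨c, hc⟩ := u_spec
  obtain ⟨l, l1, l2⟩ := m7_law hc (χ := om) (by decide) (by norm_num) (fun _ => tt_W3) fun _ => m7_W3
  obtain ⟨m, m1, m2⟩ := m7_law hc (a := 13) (b := -2) (c := 21 * -4) (d := 13) (χ := -1) (by decide)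
    (by norm_num) (fun _ => tt_mob (by norm_num)) fun _ hz =>
      (show nb (13 : ℤ) = -1 by decide) ▸ fY_mob (by norm_num) hz
  have k := m2 _ (W3_pos e1_pos)
  rw [← e1_fix', l2 _ e1_pos, EW.om_coe, show uu e1 = 0 by simp [uu], map_neg, map_one] at k
  have hL : c ∈ EW.LG.lattice := by
    have := EW.I_mem_LG.2 (sub_mem l1 m1)
    rwa [show wC * (l - m) = c by linear_combination wC * k - c * CL.wC_sq] at this
  obtain ⟨k1, k2, k3⟩ := hc z hz h
  exact ⟨fun h => k1 (add_mem h hL), (k2.trans (EW.LG.weierstrassP_add_coe _ ⟨c, hL⟩)).symm,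
    (k3.trans (EW.LG.derivWeierstrassP_add_coe _ ⟨c, hL⟩)).symm⟩

theorem m7_law' {χ : O} (hχ : χ ^ 6 = 1)
    (hd : 0 < a * d - b * c) (ht : ∀ z : ℂ, 0 < z.im → tt (mob a b c d z) = tt z)
    (hf : ∀ z : ℂ, 0 < z.im → sl a b c d fY z = CL.toC χ * fY z) :
    ∃ l ∈ EW.LG.lattice, ∀ z : ℂ, 0 < z.im → uu (mob a b c d z) = CL.toC χ * uu z + l := by
  simpa only [add_zero] using m7_law (κ := 0) (fun z hz h => by
    obtain ⟨k1, k2, k3⟩ := uu_spec hz h
    rw [add_zero]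
    exact ⟨k1, k2.symm, k3.symm⟩) hχ hd ht hf

/-- The period does not depend on the point. -/
theorem uu_mob' (h : a * d - b * (21 * c) = 1) : ∃ l ∈ EW.LG.lattice, ∀ z : ℂ, 0 < z.im →
    uu (mob a b (21 * c) d z) = CL.toC (nb d) * uu z + l :=
  m7_law' (nb_inv _ _ (det_cast h)).2.2 (by omega) (fun _ => tt_mob h) fun _ => fY_mob h

theorem uu_W3' : ∃ l ∈ EW.LG.lattice, ∀ z : ℂ, 0 < z.im →
    uu (mob 3 (-1) 21 (-6) z) = wC * uu z + l :=
  EW.om_coe ▸ m7_law' (χ := om) (by decide) (by norm_num) (fun _ => tt_W3) fun _ => m7_W3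

theorem uu_mob (h : a * d - b * (21 * c) = 1) (hz : 0 < z.im) :
    uu (mob a b (21 * c) d z) - CL.toC (nb d) * uu z ∈ EW.LG.lattice := by
  obtain ⟨l, h1, h2⟩ := uu_mob' h
  rwa [h2 z hz, add_sub_cancel_left]

theorem uu_W3 (hz : 0 < z.im) : uu (mob 3 (-1) 21 (-6) z) - wC * uu z ∈ EW.LG.lattice := by
  obtain ⟨l, h1, h2⟩ := uu_W3'
  rwa [h2 z hz, add_sub_cancel_left]

theorem uu_eqX {χ : O} (h : EqX χ z w) (hz : 0 < z.im) :
    uu w - CL.toC χ * uu z ∈ EW.LG.lattice := by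
  obtain ⟨a, b, c, d, h, ⟨rfl, rfl⟩ | ⟨rfl, rfl⟩⟩ := h
  · exact uu_mob h hz
  · convert add_mem (uu_mob h (W3_pos hz)) (EW.mul_mem_LG (nb d) (uu_W3 hz)) using 1
    rw [map_mul, EW.om_coe]
    ring

theorem ev_good (hz : 0 < z.im) : ∀ᶠ v in 𝓝[≠] z, 0 < v.im ∧ bad v ≠ 0 := by
  obtain ⟨w, hw, h⟩ := exists_good
  exact inter_mem (mem_nhdsWithin_of_mem_nhds (Unif.upper_mem_nhds hz)) (m7_ev hol_bad hw h hz)

theorem tt_wp (hz : 0 < z.im) (h : uu z ∉ EW.LG.lattice) :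
    CL.toC (star p7) * (tt z - CL.toC p7) * ℘[EW.LG] (uu z) ^ 3 =
      27 * (tt z - CL.toC (star p7)) := by
  have h1 := (hol_tt z hz).continuousAt
  have h2 := ((hasDerivAt_wp h).comp z (hasDerivAt_uu hz)).continuousAt
  refine tendsto_nhds_unique_of_eventuallyEq (l := 𝓝[≠] z)
    ((((h1.sub continuousAt_const).const_mul _).mul (h2.pow 3)).mono_left nhdsWithin_le_nhds)
    (((h1.sub continuousAt_const).const_mul 27).mono_left nhdsWithin_le_nhds)
    ((ev_good hz).mono fun v hv => ?_)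
  simp only [Function.comp, Pi.mul_apply, Pi.pow_apply, Pi.sub_apply, (uu_spec hv.1 hv.2).2.1,
    p7_coe, p7_star]
  linear_combination (u_eq hv.1 hv.2).1

theorem tt_wp' (hz : 0 < z.im) (h : uu z ∉ EW.LG.lattice) :
    4 * CL.toC (star p7) * (tt z - CL.toC p7) * (℘'[EW.LG] (uu z) / 2) ^ 2 =
      81 * (2 + wC) * (tt z + 3 + wC) := by
  have h1 := tt_wp hz h
  have h2 := EW.LG.derivWeierstrassP_sq _ h
  rw [EW.g2_LG, EW.g3_LG] at h2
  rw [p7_coe, p7_star] at h1 ⊢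
  linear_combination 4 * h1 + (-2 - 3 * wC) * (tt z - (1 + 3 * wC)) * h2 - 324 * CL.wC_sq

theorem uu_mem (hz : 0 < z.im) : uu z ∈ EW.LG.lattice ↔ tt z = CL.toC p7 := by
  refine ⟨fun h => ?_, fun h => by_contra fun k => ?_⟩
  · by_contra k
    obtain ⟨w, hw, h0⟩ := exists_good
    have k1 : ∀ᶠ v in 𝓝[≠] z, uu v ∈ ({uu z}ᶜ : Set ℂ) := by
      refine ((m7_an hol_uu z hz).eventually_eq_or_eventually_ne analyticAt_const).resolve_left
        fun e => ?_
      obtain ⟨v, k1, k2⟩ := ((ev_good hz).and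
        ((EventuallyEq.deriv e).filter_mono nhdsWithin_le_nhds)).exists
      rw [(hasDerivAt_uu k1.1).deriv, deriv_const] at k2
      exact mul_ne_zero rho_ne (mul_ne_zero two_pi_I (left_ne_zero_of_mul k1.2)) k2
    have k2 := (tendsto_pow_cobounded_cobounded three_ne_zero).comp ((Unif.tendsto_P _ h).comp
      (tendsto_nhdsWithin_iff.2 ⟨(hol_uu z hz).continuousAt.mono_left nhdsWithin_le_nhds, k1⟩))
    have h1 := (hol_tt z hz).continuousAt
    have n : CL.toC (star p7) ≠ 0 := EW.coe_ne (by decide)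
    refine ((((h1.sub (continuousAt_const (y := CL.toC (star p7)))).const_mul 27).div
      ((h1.sub (continuousAt_const (y := CL.toC p7))).const_mul _)
      (mul_ne_zero n (sub_ne_zero.2 k))).mono_left nhdsWithin_le_nhds).not_tendsto
      (Metric.disjoint_nhds_cobounded _) (k2.congr' ((ev_good hz).mono fun v hv => ?_))
    have a0 := left_ne_zero_of_mul (right_ne_zero_of_mul hv.2)
    rw [← p7_coe] at a0
    exact eq_div_of_mul_eq (mul_ne_zero n a0) ((mul_comm _ _).trans (tt_wp hv.1 (uu_spec hv.1 hv.2).1))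
  · have := tt_wp hz k
    rw [h, p7_coe, p7_star] at this
    exact m7_ne.2.2.2 (by linear_combination -this / 81)

theorem eqS_of (hz : 0 < z.im) (hw : 0 < w.im) {u : O} (hu : u ^ 6 = 1)
    (h : uu z - CL.toC u * uu w ∈ EW.LG.lattice) : EqS z w := by
  refine eqS_of_tt hz hw ?_
  obtain ⟨m1, m2, -⟩ := wp_unit hu (uu w)
  by_cases k : uu w ∈ EW.LG.lattice
  · rw [(uu_mem hw).1 k, (uu_mem hz).1 (by simpa using add_mem h (m1.2 k))]
  have k' : uu z ∉ EW.LG.lattice := fun e => k (m1.1 (by simpa using sub_mem e h))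
  have e : uu z = CL.toC u * uu w + (⟨_, h⟩ : EW.LG.lattice) := by simp
  have h1 := tt_wp hz k'
  have h2 := tt_wp hw k
  have x6 : CL.toC u ^ 6 = 1 := by rw [← map_pow, hu, map_one]
  rw [e, weierstrassP_add_coe, m2, mul_pow, ← pow_mul, show 4 * 3 = 6 * 2 from rfl, pow_mul, x6,
    one_pow, one_mul] at h1
  rw [p7_coe, p7_star] at h1 h2
  refine sub_eq_zero.1 (mul_left_cancel₀ m7_ne.2.2.2 ?_)
  linear_combination ((tt w - (1 + 3 * wC)) * h1 - (tt z - (1 + 3 * wC)) * h2) / 81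

theorem six_cases {u : O} (h : u ^ 6 = 1) :
    u = 1 ∨ u = -1 ∨ u = om ∨ u = -om ∨ u = om * om ∨ u = -(om * om) := by
  have e : om * om = -1 - om := by decide
  have : (u - 1) * ((u + 1) * ((u - om) * ((u + om) * ((u - om * om) * (u + om * om))))) = 0 := by
    rw [e]
    linear_combination h + ((u ^ 2 - 1) * (om ^ 2 + om - 1 - 2 * u ^ 2)) * e
  simpa only [mul_eq_zero, sub_eq_zero, add_eq_zero_iff_eq_neg] using this

/-- The stabiliser of a point realises every unit that fixes its image. -/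
theorem uu_stab (hz : 0 < z.im) {u : O} (hu : u ^ 6 = 1)
    (h : uu z - CL.toC u * uu z ∈ EW.LG.lattice) : EqX u z z := by
  by_cases h0 : uu z ∈ EW.LG.lattice
  · have k1 := ell6 hz ((uu_mem hz).1 h0)
    have k2 := k1.trans k1 hz
    have k3 := k2.trans k1 hz
    rcases six_cases hu with rfl | rfl | rfl | rfl | rfl | rfl
    · exact .one z
    · exact (by decide : -om * (-om * -om) = -1) ▸ k3
    · exact (by decide : -om * -om * (-om * -om) = om) ▸ k2.trans k2 hz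
    · exact k1
    · exact neg_mul_neg om om ▸ k2
    · exact (by decide : -om * (-om * -om) * (-om * -om) = -(om * om)) ▸ k2.trans k3 hz
  obtain ⟨-, k2, k3⟩ := wp_unit hu (uu z)
  have e : CL.toC u * uu z = uu z - (⟨_, h⟩ : EW.LG.lattice) := by simp
  rw [e, weierstrassP_sub_coe, ← map_pow] at k2
  rw [e, derivWeierstrassP_sub_coe, ← map_pow] at k3
  have l : ∀ {v : O} {x : ℂ}, v ≠ 1 → x = CL.toC v * x → x = 0 := fun {v x} hv hx =>
    mul_left_cancel₀ (EW.coe_ne (sub_ne_zero.2 hv)) (by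
      rw [map_sub, map_one]
      linear_combination -hx)
  have l3 : u ^ 4 ≠ 1 → tt z = CL.toC (star p7) := fun k => by
    have := tt_wp hz h0
    rw [l k k2] at this
    linear_combination -this / 27
  have l2 : u ^ 3 ≠ 1 → tt z = -3 - wC := fun k => by
    have := tt_wp' hz h0
    rw [l k k3] at this
    exact mul_left_cancel₀ m7_ne.2.1 (by linear_combination -this / 81)
  have l6 : u ^ 4 ≠ 1 → u ^ 3 ≠ 1 → EqX u z z := fun k k' => by
    have := (l3 k).symm.trans (l2 k')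
    rw [p7_star] at this
    have k : 2 * wC = 1 := by linear_combination -this
    simpa [me_im.ne'] using congrArg im k
  rcases six_cases hu with rfl | rfl | rfl | rfl | rfl | rfl
  · exact .one z
  · exact ell2 hz (l2 (by decide))
  · have := ell3 hz (l3 (by decide))
    exact (by decide : om ^ 2 * om ^ 2 = om) ▸ this.trans this hz
  · exact l6 (by decide) (by decide)
  · exact sq om ▸ ell3 hz (l3 (by decide))
  · exact l6 (by decide) (by decide)

theorem uu_inj (hz : 0 < z.im) (hw : 0 < w.im) : uu z - uu w ∈ EW.LG.lattice ↔ EqY z w := by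
  constructor
  · intro h
    obtain ⟨χ, h1⟩ := (eqS_of hz hw (one_pow 6) (by simpa using h)).eqX hz hw
    obtain ⟨χ', h2, h3⟩ := h1.symm hz
    have := (uu_stab hz h3.six (by
      simpa [mul_sub] using sub_mem (uu_eqX h3 hw) (EW.mul_mem_LG χ' h))).trans h1 hz
    rwa [h2] at this
  · intro h
    simpa using neg_mem (uu_eqX h hz)

end Pool.Agent.Lib.MP_696deb_nt.Y3
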