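import Pool.Agent.Lib.MP_696deb_nt.Y3.TH3
import Pool.Agent.Lib.MP_696deb_nt.Y3.M7
import Pool.Agent.Lib.MP_696deb_nt.Y3.MS2
import Pool.Agent.Lib.MP_696deb_nt.Y2.A9
import Pool.Agent.Lib.MP_696deb_nt.Y3.AP7
import Pool.Agent.Lib.MP_696deb_nt.Y3.AG3

/-! The curve of level twenty-one satisfies the conditions of the analytic side. -/

set_option autoImplicit false

open Complex Filter Topology CongruenceSubgroup Pool.Agent.Shared.Weier
open UpperHalfPlane hiding I
open scoped Real ComplexConjugate Classical MatrixGroups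

namespace Pool.Agent.Lib.MP_696deb_nt.Y3

open CL (O nm om wC mem_reps)

theorem ai_s : 3 * ((√3 : ℝ)⁻¹ * (√3)⁻¹) = 1 := by
  rw [← mul_inv, Real.mul_self_sqrt (by norm_num)]
  norm_num

/-- The involution at three as a real matrix of determinant one. -/
noncomputable def WR : SL(2, ℝ) :=
  ⟨!![3 * (√3)⁻¹, -(√3)⁻¹; 21 * (√3)⁻¹, -6 * (√3)⁻¹], by
    rw [Matrix.det_fin_two_of]
    linear_combination ai_s⟩

/-- The curve. -/
noncomputable def crvY : An.CrvW :=
  { levY with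
    u := 6, L := EW.LG, ρ := rho, a := fun m => CL.toC (aG m), f := fY, φ := uu, W := WR
    lam := wC, c0 := -(rho * phi e1) }

theorem ai_sC : 3 * (((√3 : ℝ)⁻¹ : ℝ) : ℂ) ^ 2 = 1 := by
  rw [sq]
  exact_mod_cast ai_s

theorem WR_jac (z : ℂ) : An.jacR WR z = (((√3 : ℝ)⁻¹ : ℝ) : ℂ) * (21 * z - 6) := by
  simp only [An.jacR, WR, Matrix.of_apply, Matrix.cons_val', Matrix.cons_val_zero,
    Matrix.cons_val_one, Matrix.cons_val_fin_one, ofReal_mul, ofReal_neg, ofReal_ofNat]
  ring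

theorem WR_smul (z : ℍ) : ((WR • z : ℍ) : ℂ) = mob 3 (-1) 21 (-6) z := by
  have h : (((√3 : ℝ)⁻¹ : ℝ) : ℂ) ≠ 0 := fun e => by simpa [e] using ai_sC
  rw [mob, ← mul_div_mul_left _ _ h, coe_specialLinearGroup_apply]
  simp only [WR, Matrix.of_apply, Matrix.cons_val', Matrix.cons_val_zero, Algebra.algebraMap_self,
    RingHom.id_apply, Matrix.cons_val_one, Matrix.cons_val_fin_one, ofReal_mul, ofReal_neg,
    ofReal_ofNat, Int.cast_ofNat, Int.cast_neg, Int.cast_one]
  congr 1 <;> ring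

theorem crvY_W (z : ℍ) : ((crvY.W • z : ℍ) : ℂ) = mob 3 (-1) 21 (-6) z := WR_smul z

/-- The matrix with given entries. -/
def mk21 {a b c d : ℤ} (h : a * d - b * (21 * c) = 1) : SL(2, ℤ) :=
  ⟨!![a, b; 21 * c, d], by rw [Matrix.det_fin_two_of, h]⟩

theorem mk21_mem {a b c d : ℤ} (h : a * d - b * (21 * c) = 1) : mk21 h ∈ Gamma0 21 :=
  Gamma0_mem.2 ((ZMod.intCast_zmod_eq_zero_iff_dvd _ 21).2 ⟨c, rfl⟩)

theorem mk21_smul {a b c d : ℤ} (h : a * d - b * (21 * c) = 1) (z : ℍ) :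
    ((mk21 h • z : ℍ) : ℂ) = mob a b (21 * c) d z := coe_smul_eq_mob _ z

theorem exists_mob21 {g : SL(2, ℤ)} (hg : g ∈ Gamma0 21) : ∃ c : ℤ, g 1 0 = 21 * c ∧
    g 0 0 * g 1 1 - g 0 1 * (21 * c) = 1 ∧
      ∀ z : ℍ, ((g • z : ℍ) : ℂ) = mob (g 0 0) (g 0 1) (21 * c) (g 1 1) z := by
  obtain ⟨c, hc⟩ := (ZMod.intCast_zmod_eq_zero_iff_dvd _ 21).mp (Gamma0_mem.mp hg)
  rw [Nat.cast_ofNat] at hc
  exact ⟨c, hc, hc ▸ det_SL g, fun z => hc ▸ coe_smul_eq_mob g z⟩

theorem exists_mk21 {g : SL(2, ℤ)} (hg : g ∈ Gamma0 21) :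
    ∃ (a b c d : ℤ) (h : a * d - b * (21 * c) = 1), g = mk21 h := by
  obtain ⟨c, e, h, -⟩ := exists_mob21 hg
  refine ⟨_, _, c, _, h, ?_⟩
  ext i j
  fin_cases i <;> fin_cases j <;> simp [mk21, e]

theorem ai_six {a b c d : ℤ} (h : a * d - b * (21 * c) = 1) : CL.toC (nb d) ^ 6 = 1 := by
  rw [← map_pow, (nb_inv _ _ (det_cast h)).2.2, map_one]

theorem ai_norm {a b c d : ℤ} (h : a * d - b * (21 * c) = 1) : ‖CL.toC (nb d)‖ = 1 :=
  norm_eq_one_of_pow_eq_one (ai_six h) (by norm_num)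

theorem levY_ok : levY.Ok where
  Npos := by decide
  hpos := by decide
  mul g hg g' hg' := by
    obtain ⟨c, e, -⟩ := exists_mob21 hg
    simp only [levY]
    rw [← map_mul, ← nb_comp (b := g' 0 1) (c' := c), ← e]
    simp [Matrix.mul_apply, Fin.sum_univ_two]
  norm g hg := by
    obtain ⟨c, -, h, -⟩ := exists_mob21 hg
    exact ai_norm h
  neg := by simp [levY, nb_neg, nb_one]
  ker := ⟨21, by decide, by decide, fun g hg => by
    simp only [levY]
    rw [(Gamma_mem.1 hg).2.2.2, nb_one, map_one]⟩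

theorem fY_cf : levY.Cf fY where
  hol := hol_fY
  law g hg z := by
    obtain ⟨c, e, h, e'⟩ := exists_mob21 hg
    have h1 := fY_mob h z.im_pos
    have h2 := Y2.An.jac_ne g z
    rw [sl, h, ← e', ← e, Int.cast_one, one_mul, ← Y2.An.jac, div_eq_iff (pow_ne_zero 2 h2)] at h1
    rw [h1, mul_right_comm]
    rfl
  bd := sy_fY.bd.imp fun _ h z => h z z.im_pos

theorem exists_unit {ζ : ℂ} (h : ζ ^ 6 = 1) : ∃ d : ℤ, IsCoprime d 21 ∧ CL.toC (nb d) = ζ := by
  have e : (ζ - 1) * (ζ + 1) * (ζ - wC) * (ζ + wC) * (ζ - (1 + wC)) * (ζ + (1 + wC)) = 0 := by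
    linear_combination h - (ζ ^ 2 - 1) * ((2 * ζ ^ 2 - wC ^ 2 - wC + 1)) * CL.wC_sq
  simp only [mul_eq_zero, sub_eq_zero, add_eq_zero_iff_eq_neg] at e
  have k : ∀ {d : ℤ} {x y : ℤ}, nb d = ⟨x, y⟩ → CL.toC (nb d) = x + y * wC := fun e => by
    rw [e, CL.toC_apply]
  rcases e with ((((e | e) | e) | e) | e) | e <;> subst e
  exacts [⟨1, by decide, by simpa using k (d := 1) (x := 1) (y := 0) (by decide)⟩,
    ⟨8, by decide, by simpa using k (d := 8) (x := -1) (y := 0) (by decide)⟩,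
    ⟨4, by decide, by simpa using k (d := 4) (x := 0) (y := 1) (by decide)⟩,
    ⟨10, by decide, by simpa using k (d := 10) (x := 0) (y := -1) (by decide)⟩,
    ⟨2, by decide, by simpa using k (d := 2) (x := 1) (y := 1) (by decide)⟩,
    ⟨5, by decide, by simpa [add_comm] using k (d := 5) (x := -1) (y := -1) (by decide)⟩]

/-- The uniformising function has a limit at every cusp. -/
theorem ai_lim {a b c d : ℤ} (h : a * d - b * c = 1) :
    ∃ u, Tendsto (fun z => uu (mob a b c d z)) atI (𝓝 u) := by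
  obtain ⟨C, hC⟩ := sy_fY.bd
  have h0 : 0 < a * d - b * c := by omega
  have h1 : ∀ z : ℂ, 0 < z.im → 0 < (21 * z).im := fun z hz => by simpa using hz
  obtain ⟨u, hu⟩ := Y2.exists_lim (F := fun z => uu (mob a b c d (21 * z)))
    (g := fun z => sl a b c d fY (21 * z)) (κ := rho * (2 * π * I) * 21)
    (fun z hz => (hol_fY.sl h0 _ (h1 z hz)).comp z (by fun_prop))
    (fun z hz => by
      have k := fY_mob (a := 1 - 21 * a * c) (b := 21 * a ^ 2) (c := -c ^ 2) (d := 1 + 21 * a * c)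
        (by ring) (im_mob_pos h0 (h1 z hz))
      have e : ((1 + 21 * a * c : ℤ) : ZMod 21) = 1 := by
        rw [Int.cast_add, mul_assoc, Int.cast_mul, show ((21 : ℤ) : ZMod 21) = 0 from rfl]
        simp
      rw [e, nb_one, map_one, one_mul] at k
      have k1 := sl_sl h0.ne' (1 - 21 * a * c) (21 * a ^ 2) (21 * -c ^ 2) (1 + 21 * a * c) fY (h1 z hz)
      have k2 := sl_sl (a' := 1) (b' := 21) (c' := 0) (d' := 1) (by decide) a b c d fY (h1 z hz)
      rw [sl, k, ← sl] at k1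
      rw [k1, show (1 - 21 * a * c) * a + 21 * a ^ 2 * c = a * 1 + b * 0 by ring,
        show (1 - 21 * a * c) * b + 21 * a ^ 2 * d = a * 21 + b * 1 by linear_combination 21 * a * h,
        show 21 * -c ^ 2 * a + (1 + 21 * a * c) * c = c * 1 + d * 0 by ring,
        show 21 * -c ^ 2 * b + (1 + 21 * a * c) * d = c * 21 + d * 1 by
          linear_combination 21 * c * h, ← k2, mul_add]
      simp [sl, mob])
    (((tendsto_zero_of_bd (bd_sl hC h0)).comp (tendsto_affine (r := 21) (by norm_num) 0)).congr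
      fun z => by simp)
    fun z hz => (((((hasDerivAt_phi (im_mob_pos h0 (h1 z hz))).sub_const (phi e1)).const_mul
      rho).comp _ (hasDerivAt_mob h0.ne' (h1 z hz))).comp z
        ((hasDerivAt_id z).const_mul 21)).congr_deriv (by rw [sl]; ring)
  exact ⟨u, (hu.comp (tendsto_affine (r := 1 / 21) (by norm_num) 0)).congr fun z => by simp⟩

/-- The Hauptmodul tends to infinity or to zero at every cusp. -/
theorem ai_tt {a b c d : ℤ} (h : a * d - b * c = 1) :
    Tendsto (fun z => (tt (mob a b c d z))⁻¹) atI (𝓝 0) ∨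
      Tendsto (fun z => tt (mob a b c d z)) atI (𝓝 0) := by
  obtain ⟨i, Q, k, α, β, γ, δ, hQ, -, -, -, -, hd, e⟩ := exists_decomp h
  have Q0 : (0 : ℝ) < Q := by exact_mod_cast hQ
  have t : Tendsto (fun z : ℂ => (z + k) / Q) atI atI :=
    (tendsto_affine (inv_pos.2 Q0) (k / Q)).congr fun z => by push_cast; ring
  have e' : ∀ᶠ z in atI, 0 < ((z + k) / Q : ℂ).im ∧
      tt (mob a b c d z) = tt (al i ((z + k) / Q)) :=
    (ev_pos.and (t.eventually ev_pos)).mono fun z hz =>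
      ⟨hz.2, by rw [e z hz.1, tt_mob hd (al_im_pos i hz.2)]⟩
  fin_cases i
  · exact .inl ((tt_inf.comp t).congr' (e'.mono fun z hz =>
      congrArg (·⁻¹) (hz.2.trans (congrArg tt (al_zero _))).symm))
  · exact .inl ((tt_inf.comp t).congr' (e'.mono fun z hz =>
      congrArg (·⁻¹) (hz.2.trans (tt_W3 hz.1)).symm))
  · exact .inr ((tt_zero.comp t).congr' (e'.mono fun z hz => hz.2.symm))
  · exact .inr ((tt_zero.comp t).congr' (e'.mono fun z hz =>
      (hz.2.trans ((congrArg tt (al_three hz.1)).trans (tt_W3 (W21_pos hz.1)))).symm))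

theorem ai_val {F : ℂ → ℂ} {u s : ℂ} (h : Tendsto F atI (𝓝 u))
    (h1 : ∀ᶠ z in atI, F z ∉ EW.LG.lattice)
    (h2 : Tendsto (fun z => EW.LG.weierstrassP (F z) ^ 3) atI (𝓝 s)) :
    u ∉ EW.LG.lattice ∧ EW.LG.weierstrassP u ^ 3 = s := by
  have hn : u ∉ EW.LG.lattice := fun k =>
    h2.not_tendsto (Metric.disjoint_nhds_cobounded _)
      ((tendsto_pow_cobounded_cobounded three_ne_zero).comp ((Unif.tendsto_P _ k).comp
        (tendsto_nhdsWithin_iff.mpr ⟨h, h1.mono fun z hz e => hz (Set.mem_singleton_iff.mp e ▸ k)⟩)))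
  exact ⟨hn, tendsto_nhds_unique (((hasDerivAt_wp hn).continuousAt.tendsto.comp h).pow 3) h2⟩

/-- The values at the cusps are not values in the upper half plane. -/
theorem ai_cusp {a b c d : ℤ} (h : a * d - b * c = 1) {u : ℂ}
    (hu : Tendsto (fun z => uu (mob a b c d z)) atI (𝓝 u)) {w : ℂ} (hw : 0 < w.im) :
    u - uu w ∉ EW.LG.lattice := fun k => by
  have p0 := p7_ne
  have p1 : CL.toC (star p7) ≠ 0 := EW.coe_ne (by decide)
  have p2 : CL.toC p7 - CL.toC (star p7) ≠ 0 := map_sub CL.toC _ _ ▸ EW.coe_ne (by decide)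
  have hp : ∀ᶠ z in atI, 0 < (mob a b c d z).im := ev_pos.mono fun z hz => im_mob_pos (by omega) hz
  have key : ∀ s, (∀ᶠ z in atI, tt (mob a b c d z) ≠ CL.toC p7) →
      Tendsto (fun z => 27 * (tt (mob a b c d z) - CL.toC (star p7)) /
        (CL.toC (star p7) * (tt (mob a b c d z) - CL.toC p7))) atI (𝓝 s) →
      CL.toC (star p7) * (tt w - CL.toC p7) * s = 27 * (tt w - CL.toC (star p7)) := fun s k1 k2 => by
    obtain ⟨k3, k4⟩ := ai_val hu ((hp.and k1).mono fun z hz => mt (uu_mem hz.1).1 hz.2)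
      (k2.congr' ((hp.and k1).mono fun z hz => by
        rw [div_eq_iff (mul_ne_zero p1 (sub_ne_zero.2 hz.2)), mul_comm (_ ^ 3)]
        exact (tt_wp hz.1 (mt (uu_mem hz.1).1 hz.2)).symm))
    have k5 := EW.LG.weierstrassP_add_coe (uu w) ⟨_, k⟩
    rw [add_sub_cancel] at k5
    rw [← k4, k5]
    exact tt_wp hw fun e => k3 (sub_add_cancel u (uu w) ▸ add_mem k e)
  rcases ai_tt h with t | t
  · have := key (27 * (1 - CL.toC (star p7) * 0) / (CL.toC (star p7) * (1 - CL.toC p7 * 0)))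
      ((t.eventually_ne (inv_ne_zero p0).symm).mono fun z hz e => hz (by rw [e]))
      (((((t.const_mul _).const_sub 1).const_mul 27).div (((t.const_mul _).const_sub 1).const_mul _)
        (by simpa using p1)).congr' (hp.mono fun z hz => by
          have := tt_ne hz
          simp only [Pi.div_apply]
          rw [← mul_div_mul_right _ _ this]
          congr 1 <;> field_simp))
    field_simp at this
    exact p2 (by linear_combination -this)
  · have := key (27 * (0 - CL.toC (star p7)) / (CL.toC (star p7) * (0 - CL.toC p7)))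
      (t.eventually_ne p0.symm) (((t.sub_const _).const_mul 27).div ((t.sub_const _).const_mul _)
        (by simpa using ⟨p1, p0⟩))
    rw [zero_sub, zero_sub] at this
    field_simp at this
    exact mul_ne_zero p2 (tt_ne hw) (by linear_combination -this)

theorem crvY_ok : crvY.Ok where
  lev := levY_ok
  cf := fY_cf
  three := by decide
  rho := rho_ne
  rot ζ h l hl := by
    obtain ⟨d, -, rfl⟩ := exists_unit h
    exact EW.mul_mem_LG _ hl
  pow g hg := by
    obtain ⟨c, -, h, -⟩ := exists_mob21 hg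
    exact ai_six h
  onto ζ h := by
    obtain ⟨d, ⟨a, b, e⟩, rfl⟩ := exists_unit h
    exact ⟨mk21 (a := a) (b := -b) (c := 1) (d := d) (by linear_combination e), mk21_mem _, rfl⟩
  a0 := by simp [crvY, aG_zero]
  ne := ⟨1, by simp [crvY, aG_one]⟩
  qf := qe_fY.congr fun z _ => by simp [crvY, levY]
  qφ := by
    have e : (PowerSeries.mk fun m => rho * CL.toC (aG m) / m) =
        PowerSeries.C rho * PowerSeries.mk fun m => CL.toC (aG m) / m := by
      ext m
      simp [mul_div_assoc]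
    exact e ▸ (qe_phi.smul rho).congr fun z _ => by simp [crvY, levY, uu, mul_sub]
  law g hg z := by
    obtain ⟨c, -, h, e⟩ := exists_mob21 hg
    exact e z ▸ uu_mob h z.im_pos
  inj z w h := by
    obtain ⟨a, b, c, d, h1, h2⟩ := (uu_inj w.im_pos z.im_pos).1
      (neg_sub (uu z) (uu w) ▸ neg_mem h)
    refine ⟨mk21 h1, mk21_mem h1, h2.imp (fun k => ⟨(congrArg CL.toC k.1).trans (map_one _),
      UpperHalfPlane.ext (k.2.trans (mk21_smul h1 w).symm)⟩) fun k => ⟨?_, UpperHalfPlane.ext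
        (k.2.trans ((mk21_smul h1 _).trans (congrArg _ (WR_smul w))).symm)⟩⟩
    have := congrArg CL.toC k.1
    rwa [map_mul, EW.om_coe, map_one] at this
  cusp g := by
    obtain ⟨u, hu⟩ := ai_lim (det_SL g)
    exact ⟨u, (hu.comp (tendsto_comap_iff.2 tendsto_comap :
      Tendsto (fun z : ℍ => (z : ℂ)) atImInfty atI)).congr
        fun z => congrArg uu (coe_smul_eq_mob g z).symm, fun w => ai_cusp (det_SL g) hu w.im_pos⟩
  Wpow := by
    change wC ^ (3 * 2) = 1
    rw [pow_mul, EW.wC_cube, one_pow]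
  Wf z := by
    have k := fY_W3 z.im_pos
    rw [sl, div_eq_iff (pow_ne_zero 2 (den_ne (a := 3) (b := -1) (by decide) z.im_pos))] at k
    change fY (WR • z : ℍ) = wC * An.jacR WR z ^ 2 * fY z
    rw [WR_smul, WR_jac]
    push_cast at k
    linear_combination (((√3 : ℝ)⁻¹ : ℝ) : ℂ) ^ 2 * k - fY (mob 3 (-1) 21 (-6) z) * ai_sC
  Wφ z := by
    change uu (WR • z : ℍ) - wC * uu z ∈ _
    rw [WR_smul]
    exact uu_W3 z.im_pos
  Wl g hg := by
    obtain ⟨a, b, c, d, h, rfl⟩ := exists_mk21 hg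
    refine ⟨mk21 (a := -6 * a - 42 * b + 21 * c + 7 * d) (b := 2 * a + 12 * b - 7 * c - 2 * d)
      (c := -a - 7 * b + 3 * c + d) (d := 7 * a + 42 * b - 21 * c - 6 * d)
      (by linear_combination h), mk21_mem _, congrArg CL.toC ((congrArg nb ?_).trans (W3_nb h)), ?_⟩
    · exact (ZMod.intCast_eq_intCast_iff_dvd_sub _ _ 21).2 ⟨-b - c, by simp [mk21]; ring⟩
    · ext i j
      fin_cases i <;> fin_cases j <;> simp [crvY, WR, mk21, Matrix.mul_apply] <;> ring
  Wr g hg := by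
    obtain ⟨a, b, c, d, h, rfl⟩ := exists_mk21 hg
    refine ⟨mk21 (W3_det h), mk21_mem _, ?_⟩
    ext i j
    fin_cases i <;> fin_cases j <;> simp [crvY, WR, mk21, Matrix.mul_apply] <;> ring
  Wne g e := by
    have k : ((g 0 0 : ℤ) : ℝ) = 3 * (√3)⁻¹ := by
      simpa [crvY, WR] using congrArg (fun m : SL(2, ℝ) => m 0 0) e
    have k1 : g 0 0 * g 0 0 = 3 := by
      exact_mod_cast show ((g 0 0 : ℤ) : ℝ) * (g 0 0 : ℤ) = 3 by
        rw [k]; linear_combination 3 * ai_s
    have k2 : g 0 0 ≤ 1 := by nlinarith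
    have k3 : -1 ≤ g 0 0 := by nlinarith
    nlinarith
  mirξ g _ := rfl
  mirW := by
    refine ⟨mk21 (a := -13) (b := -4) (c := -2) (d := -13) (by decide), mk21_mem _, ?_, ?_⟩
    · change CL.toC (nb ((-13 : ℤ) : ZMod 21)) = -1
      rw [show nb ((-13 : ℤ) : ZMod 21) = -1 by decide, map_neg, map_one]
    · ext i j
      fin_cases i <;> fin_cases j <;> simp [crvY, WR, mk21, An.mir, Matrix.mul_apply] <;> ring

theorem norm_aG_le : ∃ C : ℝ, ∀ m : ℕ, ‖CL.toC (aG m)‖ ≤ C * (1 + m : ℝ) ^ 2 := by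
  obtain ⟨C, C0, hC⟩ := card_reps_rpow one_pos
  refine ⟨C, fun m => ?_⟩
  have h1 : ∀ α ∈ (CL.reps m).filter fun α => r7 α = 1, ‖CL.toC α‖ ≤ 1 + m := fun α hα => by
    have e : ‖CL.toC α‖ ^ 2 = m := by
      rw [Complex.sq_norm, CL.normSq_toC, mem_reps.1 (Finset.mem_filter.1 hα).1, Int.cast_natCast]
    nlinarith [sq_nonneg (‖CL.toC α‖ - 1), norm_nonneg (CL.toC α)]
  have h2 : (((CL.reps m).filter fun α => r7 α = 1).card : ℝ) ≤ (CL.reps m).card := by
    exact_mod_cast Finset.card_filter_le _ _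
  have h3 := hC m
  rw [Real.rpow_one] at h3
  rw [aG, map_sum, sq, ← mul_assoc]
  refine (norm_sum_le _ _).trans ((Finset.sum_le_card_nsmul _ _ _ h1).trans ?_)
  rw [nsmul_eq_mul]
  exact mul_le_mul_of_nonneg_right (h2.trans h3) (by positivity)

theorem fY_cusp : Y2.An.Cusp 21 fY g7 3 3 fun m => wC / 3 * CL.toC (aG m) where
  npos := by decide
  epos := by decide
  width j := by
    rw [Gamma0_mem, ZMod.intCast_zmod_eq_zero_iff_dvd]
    have : (g7⁻¹ * ModularGroup.T ^ j * g7) 1 0 = -49 * j := by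
      simp [g7, ModularGroup.coe_T_zpow, Matrix.SpecialLinearGroup.SL2_inv_expl, Matrix.mul_apply]
      ring
    rw [this]
    omega
  zero := by simp [aG_zero]
  bd := by
    obtain ⟨C, hC⟩ := norm_aG_le
    exact ⟨‖wC / 3‖ * C, fun m => by
      rw [norm_mul, mul_assoc]; exact mul_le_mul_of_nonneg_left (hC m) (norm_nonneg _)⟩
  sum w := by
    obtain ⟨a1, a2, a3, a4⟩ := g7_inv
    have hj : Y2.An.jac g7⁻¹ w * Y2.An.jac g7 (g7⁻¹ • w : ℍ) = 1 := by
      rw [mul_comm, ← Y2.An.jac_mul, mul_inv_cancel, Y2.An.jac_one]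
    have h0 : 0 < (w / 3 : ℂ).im := by simpa using w.im_pos
    have h := (qe_fY.hasSum h0).mul_left (wC / 3)
    have e : Y2.An.fs fY g7 w = wC / 3 * fY (w / 3) := by
      have e1 : mob 3 (-1) 21 (-6) (w / 3) = mob 1 (-1) 7 (-6) w := by
        simp only [mob]
        push_cast
        congr 1 <;> ring
      rw [Y2.An.fs, eq_inv_of_mul_eq_one_right hj, coe_smul_eq_mob, Y2.An.jac, a1, a2, a3, a4,
        div_mul_eq_mul_div, ← fY_W3 h0, sl, e1]
      push_cast
      rw [show (21 : ℂ) * (w / 3) = 7 * w by ring, inv_pow]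
      generalize ((7 : ℂ) * w + -6) ^ 2 = x
      ring
    refine e ▸ Y2.hasSum_congr h fun m => ?_
    rw [PowerSeries.coeff_mk, ← q1_nat_mul, mul_assoc, mul_div_assoc, Nat.cast_ofNat]

/-- The analytic side for the curve of level twenty-one. -/
theorem anY : Y2.An.AnStmt levY (fun m => CL.toC (aG m)) g7 3 fun m => wC / 3 * CL.toC (aG m) :=
  Y2.An.an_of_proj levY_ok fY_cf crvY_ok.proj fY_cusp

/-- The Green function of the curve of level twenty-one. -/
theorem greenY : An.GreenW crvY := crvY_ok.green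

end Pool.Agent.Lib.MP_696deb_nt.Y3
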