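import Pool.Agent.Lib.MP_696deb_nt.Y3.AP4

/-! A residue computation on horocycles. -/

set_option autoImplicit false

open Complex Filter Topology Set MeasureTheory CongruenceSubgroup
open UpperHalfPlane hiding I
open scoped Real MatrixGroups ComplexConjugate Modular Classical
open Pool.Agent.Shared.Weier Pool.Agent.Dih Pool.Agent.Lib.MP_696deb_nt.Y2.An

namespace Pool.Agent.Lib.MP_696deb_nt.Y3.An

variable {Y : CrvW}

theorem ap4b_fibreF {N : ℕ} {w : ℍ} (hw : Free N w) (t : ℍ → ℂ) (S : Finset ℍ)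
    (hS : ∀ z ∈ S, ∃ g ∈ Gamma0 N, z = g • w) :
    HasSum (fun γ : Gamma0 N => if (γ : SL(2, ℤ)) • w ∈ S then t ((γ : SL(2, ℤ)) • w) else 0)
      (2 * ∑ z ∈ S, t z) := by
  have h1 : ∀ z ∈ S, HasSum (fun γ : Gamma0 N => if (γ : SL(2, ℤ)) • w = z then t z else 0)
      (2 * t z) := fun z hz => by
    obtain ⟨g, hg, rfl⟩ := hS z hz
    have h4 : (⟨g, hg⟩ : Gamma0 N) ≠ ⟨-g, neg_mem hg⟩ := fun e => by
      have e1 : g = -g := congrArg Subtype.val e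
      have e2 : (1 : SL(2, ℤ)) = -1 := mul_left_cancel (a := g) (by simpa using e1)
      simpa using congrArg (fun γ : SL(2, ℤ) => γ 0 0) e2
    have h5 := hasSum_sum_of_ne_finset_zero (s := {⟨g, hg⟩, ⟨-g, neg_mem hg⟩})
      (f := fun γ : Gamma0 N => if (γ : SL(2, ℤ)) • w = g • w then t (g • w) else 0)
      (L := .unconditional _) fun γ hγ => by
        refine if_neg fun h6 => hγ ?_
        rw [← inv_smul_eq_iff, ← mul_smul] at h6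
        rw [Finset.mem_insert, Finset.mem_singleton]
        refine (hw _ (mul_mem (inv_mem hg) γ.2) h6).imp (fun e => Subtype.ext ?_) fun e => Subtype.ext ?_
        · exact (inv_mul_eq_one.mp e).symm
        · simpa using inv_mul_eq_iff_eq_mul.mp e
    rwa [Finset.sum_pair h4, if_pos rfl, if_pos (ModularGroup.SL_neg_smul g w), ← two_mul] at h5
  rw [Finset.mul_sum]
  convert hasSum_sum h1 using 2 with γ
  rw [Finset.sum_ite_eq]

/-- Counting the points of an orbit in a wide strip. -/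
theorem tsum_wideF {N k : ℕ} {w : ℍ} (hw : Free N w) {y : ℝ} {t : ℍ → ℂ}
    (ht : ∀ g ∈ Gamma0 N, t (ModularGroup.T • g • w) = t (g • w)) (S : Finset ℍ)
    (hS : ∀ z : ℍ, z ∈ S ↔ (0 ≤ z.re ∧ z.re < k ∧ y < z.im) ∧ ∃ g ∈ Gamma0 N, z = g • w) :
    k * (∑' γ : Gamma0 N, if (γ : SL(2, ℤ)) • w ∈ Str ∧ y < ((γ : SL(2, ℤ)) • w).im then
      t ((γ : SL(2, ℤ)) • w) else 0) = 2 * ∑ z ∈ S, t z := by
  rcases k.eq_zero_or_pos with rfl | hk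
  · rw [Finset.eq_empty_of_forall_notMem (s := S) fun z hz =>
      ((hS z).1 hz).1.1.not_gt (by simpa using ((hS z).1 hz).1.2.1)]
    simp
  have k1 : (1 : ℝ) ≤ k := by exact_mod_cast hk
  have h0 : ∀ z : ℍ, z ∈ S.filter (fun z => z.re < 1) ↔
      (z ∈ Str ∧ y < z.im) ∧ ∃ g ∈ Gamma0 N, z = g • w := fun z => by
    rw [Finset.mem_filter, hS]
    exact ⟨fun h => ⟨⟨⟨h.1.1.1, h.2⟩, h.1.1.2.2⟩, h.1.2⟩,
      fun h => ⟨⟨⟨h.1.1.1, h.1.1.2.trans_le k1, h.1.2⟩, h.2⟩, h.1.1.2⟩⟩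
  have h1 := (ap4b_fibreF hw t _ fun z hz => ((h0 z).1 hz).2).tsum_eq
  have hm : ∀ (j : ℤ) (z : ℍ), (∃ g ∈ Gamma0 N, z = g • w) →
      ∃ g ∈ Gamma0 N, ModularGroup.T ^ j • z = g • w := by
    rintro j _ ⟨g, hg, rfl⟩
    exact ⟨_, mul_mem (T_mem N j) hg, (mul_smul _ _ _).symm⟩
  have hT : ∀ (j : ℕ) (z : ℍ), (∃ g ∈ Gamma0 N, z = g • w) →
      t (ModularGroup.T ^ (j : ℤ) • z) = t z := fun j z hz => by
    induction j with
    | zero => simp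
    | succ j ih =>
      obtain ⟨g, hg, e⟩ := hm j z hz
      rw [← ih, zpow_natCast, pow_succ', mul_smul, ← zpow_natCast, e, ht g hg]
  rw [tsum_congr fun γ : Gamma0 N => if_congr (P := (γ : SL(2, ℤ)) • w ∈ Str ∧
    y < ((γ : SL(2, ℤ)) • w).im) ⟨fun h => (h0 _).2 ⟨h, γ, γ.2, rfl⟩, fun h => ((h0 _).1 h).1⟩
    rfl rfl, h1, mul_left_comm, ← nsmul_eq_mul, ← Finset.card_range k, ← Finset.sum_const,
    ← Finset.sum_product']
  congr 1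
  refine Finset.sum_bij (fun p _ => ModularGroup.T ^ (p.1 : ℤ) • p.2) (fun p hp => ?_)
    (fun p hp q hq e => ?_) (fun z hz => ?_) fun p hp =>
      (hT _ _ ((h0 _).1 (Finset.mem_product.1 hp).2).2).symm
  · obtain ⟨a1, a2⟩ := Finset.mem_product.1 hp
    obtain ⟨⟨⟨b1, b2⟩, b3⟩, b4⟩ := (h0 _).1 a2
    have a3 : (p.1 : ℝ) + 1 ≤ k := by exact_mod_cast Finset.mem_range.1 a1
    rw [hS, ModularGroup.re_T_zpow_smul, ModularGroup.im_T_zpow_smul, Int.cast_natCast]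
    exact ⟨⟨by positivity, by linarith, b3⟩, hm _ _ b4⟩
  · obtain ⟨b1, b2⟩ := ((h0 _).1 (Finset.mem_product.1 hp).2).1.1
    obtain ⟨c1, c2⟩ := ((h0 _).1 (Finset.mem_product.1 hq).2).1.1
    have e1 := congrArg UpperHalfPlane.re e
    simp only [ModularGroup.re_T_zpow_smul, Int.cast_natCast] at e1
    have e2 : p.1 < q.1 + 1 := by exact_mod_cast (by linarith : (p.1 : ℝ) < q.1 + 1)
    have e3 : q.1 < p.1 + 1 := by exact_mod_cast (by linarith : (q.1 : ℝ) < p.1 + 1)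
    have e4 : p.1 = q.1 := by omega
    exact Prod.ext e4 (smul_left_cancel _ (e4 ▸ e))
  · obtain ⟨⟨b1, b2, b3⟩, b4⟩ := (hS z).1 hz
    refine ⟨(⌊z.re⌋₊, ModularGroup.T ^ (-(⌊z.re⌋₊ : ℤ)) • z), Finset.mem_product.2
      ⟨Finset.mem_range.2 ((Nat.floor_lt b1).2 b2), (h0 _).2 ⟨⟨⟨?_, ?_⟩, ?_⟩, hm _ _ b4⟩⟩, ?_⟩
    · rw [ModularGroup.re_T_zpow_smul, Int.cast_neg, Int.cast_natCast]
      linarith [Nat.floor_le b1]
    · rw [ModularGroup.re_T_zpow_smul, Int.cast_neg, Int.cast_natCast]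
      linarith [Nat.lt_floor_add_one z.re]
    · rwa [ModularGroup.im_T_zpow_smul]
    · rw [zpow_neg, smul_inv_smul]

theorem ap4b_xi (h : Y.Ok) {w : ℍ} (hw : Free Y.N w) {g g' : SL(2, ℤ)} (hg : g ∈ Gamma0 Y.N)
    (hg' : g' ∈ Gamma0 Y.N) (e : g • w = g' • w) : Y.ξ g' = Y.ξ g := by
  rw [← inv_smul_eq_iff, ← mul_smul] at e
  rcases hw _ (mul_mem (inv_mem hg') hg) e with e | e
  · rw [inv_mul_eq_one.1 e]
  · rw [inv_mul_eq_iff_eq_mul.1 e, mul_neg, mul_one, h.lev.neg' hg']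

/-- The weight of a pole. -/
noncomputable def ap4bC (Y : CrvW) (k : ℕ) (w z : ℍ) : ℂ :=
  ∑ ζ ∈ mu Y.u, if Y.φ z - ζ * Y.φ w ∈ Y.L.lattice then ζ ^ k else 0

theorem ap4b_one (h : Y.Ok) (k : ℕ) {w : ℍ} (hw : Y.Fr w) {g : SL(2, ℤ)} (hg : g ∈ Gamma0 Y.N) :
    ap4bC Y k w (g • w) = Y.ξ g ^ k := by
  rw [ap4bC, Finset.sum_eq_single_of_mem _ ((mem_mu h.upos).2 (h.pow g hg)) fun ζ hζ n =>
    if_neg fun e => n ?_, if_pos (h.law g hg w)]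
  obtain ⟨g', hg', ⟨rfl, e'⟩ | ⟨-, e'⟩⟩ := (h.mem_iff ((mem_mu h.upos).1 hζ) _ _).1 e
  · exact ap4b_xi h hw.1 hg hg' e'
  · exact absurd e' (hw.ne hg hg')

theorem ap4b_two (h : Y.Ok) (k : ℕ) {w : ℍ} (hw : Y.Fr w) {g : SL(2, ℤ)} (hg : g ∈ Gamma0 Y.N) :
    ap4bC Y k w (g • Y.W • w) = (Y.ξ g * Y.lam) ^ k := by
  have p : (Y.ξ g * Y.lam) ^ Y.u = 1 := by rw [mul_pow, h.pow g hg, h.Wpow, one_mul]
  rw [ap4bC, Finset.sum_eq_single_of_mem _ ((mem_mu h.upos).2 p) fun ζ hζ n =>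
    if_neg fun e => n ?_, if_pos ((h.mem_iff p _ _).2 ⟨g, hg, .inr ⟨rfl, rfl⟩⟩)]
  obtain ⟨g', hg', ⟨-, e'⟩ | ⟨rfl, e'⟩⟩ := (h.mem_iff ((mem_mu h.upos).1 hζ) _ _).1 e
  · exact absurd e'.symm (hw.ne hg' hg)
  · rw [ap4b_xi h (h.free_W hw.1) hg hg' e']

theorem CrvW.Ok.res_horo (h : Y.Ok) (k : ℕ) {α : ℂ} {β : ℝ}
    (hη : ∀ v, Shared.Weier.eta Y.L v = α * v + β * conj v) {m : ℕ} (hm : 0 < m)
    (hT : q1 (m / Y.h) = (Y.lk k).ξ ModularGroup.T) {y : ℝ} (hy : 0 < y) {w : ℍ} (hw : Y.Fr w)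
    (hf : Y.f w ≠ 0) (hne : ∀ g : SL(2, ℤ), (g • w).im ≠ y)
    (hne' : ∀ g : SL(2, ℤ), (g • Y.W • w).im ≠ y) :
    2 * ∫ x in (0 : ℝ)..1, Y.Zk k (Y.φ (x + y * I)) (Y.φ w) * q1 (m * (x + y * I) / Y.h) =
      Y.h / Y.ρ * ((∑' γ : Gamma0 Y.N,
        if (γ : SL(2, ℤ)) • w ∈ Str ∧ y < ((γ : SL(2, ℤ)) • w).im then Y.ξ γ ^ k *
          (q1 (m * ((γ : SL(2, ℤ)) • w : ℍ) / Y.h) / Y.f ((γ : SL(2, ℤ)) • w : ℍ)) else 0) +
        ∑' γ : Gamma0 Y.N,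
        if (γ : SL(2, ℤ)) • Y.W • w ∈ Str ∧ y < ((γ : SL(2, ℤ)) • Y.W • w).im then
          (Y.ξ γ * Y.lam) ^ k * (q1 (m * ((γ : SL(2, ℤ)) • Y.W • w : ℍ) / Y.h) /
            Y.f ((γ : SL(2, ℤ)) • Y.W • w : ℍ)) else 0) -
      2 * ((∑ ζ ∈ mu Y.u, ζ ^ k) * β * conj (Y.ρ * Y.a m) / m *
        Real.exp (-4 * π * m * y / Y.h)) := by
  have hu := h.upos
  have hh : (Y.h : ℂ) ≠ 0 := Nat.cast_ne_zero.2 h.lev.hpos.ne'
  have mT : ModularGroup.T ∈ Gamma0 Y.N := by simpa only [zpow_one] using T_mem Y.N 1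
  have cT : ∀ z : ℍ, ((ModularGroup.T • z : ℍ) : ℂ) = z + 1 := fun z => by
    simpa only [zpow_one, Int.cast_one] using coe_T 1 z
  have jT : ∀ z : ℂ, jac ModularGroup.T z = 1 := fun z => by simpa using jac_T 1 z
  have qT : ∀ z : ℂ, q1 (m * (z + 1) / Y.h) = q1 (m * z / Y.h) * (Y.lk k).ξ ModularGroup.T :=
    fun z => by rw [← hT, ← q1_add, mul_add, mul_one, add_div]
  have nT := h.lev.mul_conj mT
  have nk : (Y.lk k).ξ ModularGroup.T * conj ((Y.lk k).ξ ModularGroup.T) = 1 :=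
    (h.lk_ok k).mul_conj mT
  have tT : ∀ (z : ℍ) (c : ℂ), Y.ξ ModularGroup.T ^ k * c * (q1 (m * (ModularGroup.T • z : ℍ) / Y.h) /
      Y.f (ModularGroup.T • z : ℍ)) = c * (q1 (m * z / Y.h) / Y.f z) := fun z c => by
    have e : Y.ξ ModularGroup.T ^ k * conj (Y.ξ ModularGroup.T) ^ k = 1 := by
      rw [← mul_pow, nT, one_pow]
    rw [h.cf.law _ mT, cT, qT, jT, one_pow, mul_one]
    change _ * (_ * (Y.ξ ModularGroup.T * conj (Y.ξ ModularGroup.T) ^ k) / _) = _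
    rw [mul_left_comm (q1 _), mul_div_mul_left _ _ (left_ne_zero_of_mul_eq_one nT)]
    linear_combination c * (q1 (m * z / Y.h) / Y.f z) * e
  choose! S h1 h2 h3 using fun ζ (k : ζ ∈ mu Y.u) =>
    h.res_one hη hm hy hf hne hne' ((mem_mu hu).1 k)
  have hq : Continuous fun x : ℝ => q1 (m * (x + y * I) / Y.h) := by unfold q1; fun_prop
  have hU : ∀ z : ℍ, z ∈ (mu Y.u).biUnion S ↔ (0 ≤ z.re ∧ z.re < Y.h ∧ y < z.im) ∧
      ((∃ g ∈ Gamma0 Y.N, z = g • w) ∨ ∃ g ∈ Gamma0 Y.N, z = g • Y.W • w) := fun z => by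
    rw [Finset.mem_biUnion]
    constructor
    · rintro ⟨ζ, k, a⟩
      obtain ⟨g, hg, e⟩ := (h.mem_iff ((mem_mu hu).1 k) _ _).1 ((h1 ζ k z).1 a).2
      exact ⟨((h1 ζ k z).1 a).1, e.imp (fun e => ⟨g, hg, e.2⟩) fun e => ⟨g, hg, e.2⟩⟩
    · rintro ⟨a, ⟨g, hg, e⟩ | ⟨g, hg, e⟩⟩
      · have k := (mem_mu hu).2 (h.pow g hg)
        exact ⟨_, k, (h1 _ k z).2 ⟨a, (h.mem_iff (h.pow g hg) _ _).2 ⟨g, hg, .inl ⟨rfl, e⟩⟩⟩⟩
      · have p : (Y.ξ g * Y.lam) ^ Y.u = 1 := by rw [mul_pow, h.pow g hg, h.Wpow, one_mul]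
        have k := (mem_mu hu).2 p
        exact ⟨_, k, (h1 _ k z).2 ⟨a, (h.mem_iff p _ _).2 ⟨g, hg, .inr ⟨rfl, e⟩⟩⟩⟩
  have hS : ∀ ζ ∈ mu Y.u, S ζ ⊆ (mu Y.u).biUnion S := fun ζ k => Finset.subset_biUnion_of_mem S k
  generalize (mu Y.u).biUnion S = U at hU hS
  have h4 := tsum_wideF (k := Y.h) hw.1 (y := y)
    (t := fun z => ap4bC Y k w z * (q1 (m * z / Y.h) / Y.f z))
    (fun g hg => by
      have e := ap4b_one h k hw (mul_mem mT hg)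
      rw [mul_smul, h.lev.mul _ mT g hg, mul_pow] at e
      rw [e, ap4b_one h k hw hg, tT])
    (U.filter fun z => ∃ g ∈ Gamma0 Y.N, z = g • w) fun z => by
      rw [Finset.mem_filter, hU]
      exact ⟨fun a => ⟨a.1.1, a.2⟩, fun a => ⟨⟨a.1, .inl a.2⟩, a.2⟩⟩
  have h4' := tsum_wideF (k := Y.h) (h.free_W hw.1) (y := y)
    (t := fun z => ap4bC Y k w z * (q1 (m * z / Y.h) / Y.f z))
    (fun g hg => by
      have e := ap4b_two h k hw (mul_mem mT hg)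
      rw [mul_smul, h.lev.mul _ mT g hg, mul_assoc, mul_pow] at e
      rw [e, ap4b_two h k hw hg, tT])
    (U.filter fun z => ¬∃ g ∈ Gamma0 Y.N, z = g • w) fun z => by
      rw [Finset.mem_filter, hU]
      refine ⟨fun a => ⟨a.1.1, a.1.2.resolve_left a.2⟩, fun a => ⟨⟨a.1, .inr a.2⟩, ?_⟩⟩
      rintro ⟨g, hg, rfl⟩
      obtain ⟨g', hg', e⟩ := a.2
      exact hw.ne hg hg' e
  simp only [fun γ : Gamma0 Y.N => ap4b_one h k hw γ.2] at h4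
  simp only [fun γ : Gamma0 Y.N => ap4b_two h k hw γ.2] at h4'
  have h5 := integral_nat_period (F := fun x : ℝ =>
    Y.Zk k (Y.φ (x + y * I)) (Y.φ w) * q1 (m * (x + y * I) / Y.h)) (fun x => by
      have e := h.Zk_left k mT (z := ⟨x + y * I, by simpa using hy⟩) (w := w) fun γ _ =>
        ⟨fun e => hne γ (by rw [← e]; simp [UpperHalfPlane.im]),
          fun e => hne' γ (by rw [← e]; simp [UpperHalfPlane.im])⟩
      rw [cT] at e
      rw [show ((x + 1 : ℝ) : ℂ) + y * I = x + y * I + 1 by push_cast; ring, qT]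
      exact (congrArg (· * _) e).trans (by
        linear_combination Y.Zk k (Y.φ (x + y * I)) (Y.φ w) * q1 (m * (x + y * I) / Y.h) * nk))
    (((continuous_finsetSum _ fun ζ a => (h2 ζ a).const_mul _).mul hq).intervalIntegrable _ _) Y.h
  have h6 : ∑ ζ ∈ mu Y.u, ζ ^ k * ∑ z ∈ S ζ, q1 (m * z / Y.h) / (Y.ρ * Y.f z) =
      (∑ z ∈ U, ap4bC Y k w z * (q1 (m * z / Y.h) / Y.f z)) / Y.ρ := by
    simp only [ap4bC, Finset.sum_mul, Finset.sum_div, Finset.mul_sum]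
    rw [Finset.sum_comm]
    refine Finset.sum_congr rfl fun ζ a => ?_
    rw [← Finset.sum_subset (hS ζ a) fun z b c => by
      rw [if_neg fun e => c ((h1 ζ a z).2 ⟨((hU z).1 b).1, e⟩), zero_mul, zero_div]]
    refine Finset.sum_congr rfl fun z b => ?_
    rw [if_pos ((h1 ζ a z).1 b).2, mul_div_assoc (ζ ^ k), div_div, mul_comm (Y.f z)]
  generalize (∫ x in (0 : ℝ)..1, Y.Zk k (Y.φ (x + y * I)) (Y.φ w) *
    q1 (m * (x + y * I) / Y.h)) = J₀ at h5 ⊢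
  simp only [CrvW.Zk, Finset.sum_mul, mul_assoc (_ ^ k)] at h5
  rw [intervalIntegral.integral_finsetSum fun ζ a =>
    (((h2 ζ a).fun_mul hq).const_mul _).intervalIntegrable _ _] at h5
  simp only [intervalIntegral.integral_const_mul] at h5
  rw [Finset.sum_congr rfl fun ζ a => by rw [h3 ζ a, mul_left_comm, mul_sub], ← Finset.mul_sum,
    Finset.sum_sub_distrib, h6, ← Finset.sum_mul,
    ← Finset.sum_filter_add_sum_filter_not U fun z => ∃ g ∈ Gamma0 Y.N, z = g • w] at h5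
  rw [← mul_left_cancel₀ hh h5, div_mul_eq_mul_div (Y.h : ℂ), mul_add (Y.h : ℂ), h4, h4']
  ring

end Pool.Agent.Lib.MP_696deb_nt.Y3.An
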