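import Pool.Agent.Lib.MP_696deb_nt.Y3.AP4b
import Pool.Agent.Lib.MP_696deb_nt.Y2.AP6

/-! The Cauchy transform. -/

set_option autoImplicit false

open Complex Filter Topology Set MeasureTheory CongruenceSubgroup
open UpperHalfPlane hiding I
open scoped Real MatrixGroups ComplexConjugate Modular Classical
open Pool.Agent.Shared.Weier Pool.Agent.Dih Pool.Agent.Lib.MP_696deb_nt.Y2.An

namespace Pool.Agent.Lib.MP_696deb_nt.Y3.An

variable {Y : CrvW} {Φ : ℂ → ℂ} {k : ℕ}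

/-- The Cauchy transform. -/
noncomputable def CrvW.cau (Y : CrvW) (k : ℕ) (Φ : ℂ → ℂ) (z : ℂ) : ℂ :=
  ∫ w in XN Y.N, Y.Zk k (Y.φ z) (Y.φ w) * (conj (Φ w) * Y.f w * (w.im : ℂ) ^ 2)

theorem ap6w_neg {A B : Lev} {f : ℂ → ℂ} (hA : A.Ok) (hf : A.Cf f) (hne : ∃ z : ℍ, f z ≠ 0)
    (h : B.Dec Φ) :
    ∃ s : ℝ, 0 < s ∧ ∫⁻ z in XN A.N,
      ENNReal.ofReal ((‖Φ z‖ * z.im) ^ (2 + s) * (‖f z‖ * z.im) ^ (-s)) < ⊤ := by
  obtain ⟨δ, C, hδ, hC⟩ := h.dec
  have := finite_quot hA.Npos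
  choose a ha H using fun q : SL(2, ℤ) ⧸ Gamma0 A.N => hf.integrableOn_neg hA hne q.out⁻¹ hδ
  obtain ⟨r, hr⟩ := Finite.exists_min a
  refine ⟨a r, ha r, ?_⟩
  rw [XN, ofPred_exists]
  refine (lintegral_iUnion_le _ _).trans_lt ?_
  have := Fintype.ofFinite (SL(2, ℤ) ⧸ Gamma0 A.N)
  rw [tsum_fintype]
  refine ENNReal.sum_lt_top.2 fun q _ => ?_
  rw [← (anf_mp q.out⁻¹).setLIntegral_comp_preimage_emb (anf_emb _)]
  refine lt_of_le_of_lt ((lintegral_mono_set fun z hz => ModularGroup.fdo_subset_fd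
    (by simpa using hz)).trans (setLIntegral_mono' ModularGroup.isClosed_fd.measurableSet
      fun z hz => ENNReal.ofReal_le_ofReal ?_))
    ((H q _ ⟨ha r, hr q⟩).const_mul (|C| ^ (2 + a r))).lintegral_lt_top
  have i := (q.out⁻¹ • z).im_pos
  have k := ha r
  rw [← mul_assoc]
  refine mul_le_mul_of_nonneg_right ((Real.rpow_le_rpow (by positivity) ((hC _ z hz).trans
    (mul_le_mul_of_nonneg_right (le_abs_self C) (Real.exp_pos _).le)) (by positivity)).trans ?_)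
    (by positivity)
  rw [Real.mul_rpow (abs_nonneg C) (Real.exp_pos _).le, ← Real.exp_mul]
  refine mul_le_mul_of_nonneg_left (Real.exp_le_exp.2 ?_) (by positivity)
  nlinarith [mul_pos hδ z.im_pos, mul_pos (mul_pos hδ z.im_pos) k]

theorem ap6w_meas (h : Y.Ok) (hΦ : Bdd Φ) : Measurable (ap6G Y.toCrv Φ) :=
  ((continuous_conj.measurable.comp hΦ.meas).mul (ano_cont h.cf.hol).measurable).mul
    ((continuous_ofReal.comp UpperHalfPlane.continuous_im).pow 2).measurable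

theorem ap6w_int (h : Y.Ok) (hΦ : Bdd Φ) : IntegrableOn (ap6G Y.toCrv Φ) (XN Y.N) := by
  obtain ⟨C, hC⟩ := hΦ.bd
  obtain ⟨D, hD⟩ := h.cf.bd
  refine Measure.integrableOn_of_bounded (M := D * C) (volume_XN_lt h.lev.Npos).ne
    (ap6w_meas h hΦ).aestronglyMeasurable (ae_of_all _ fun z => ?_)
  have := z.im_pos
  rw [ap6_norm]
  exact mul_le_mul (hD z) (hC z) (by positivity) ((by positivity : _ ≤ _).trans (hD z))

theorem ap6w_ker (h : Y.Ok) (hΦ : Bdd Φ) (k : ℕ) {X : Type} [MeasurableSpace X] {u : X → ℂ}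
    (hu : Measurable u) :
    Measurable fun v : X × ℍ => Y.Zk k (u v.1) (Y.φ v.2) * ap6G Y.toCrv Φ v.2 :=
  ((Y.measurable_Zk k).comp ((hu.comp measurable_fst).prodMk
    ((ano_cont h.hol_φ).measurable.comp measurable_snd))).mul
    ((ap6w_meas h hΦ).comp measurable_snd)

theorem CrvW.Ok.lintegral_Zk (h : Y.Ok) (hΦ : (Y.lk k).Dec Φ) : ∃ C : ℝ, ∀ v : ℂ,
    ∫⁻ z in XN Y.N, ‖Y.Zk k v (Y.φ z) * (conj (Φ z) * Y.f z * (z.im : ℂ) ^ 2)‖ₑ ≤
      ENNReal.ofReal C := by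
  obtain ⟨s, s0, hK⟩ := ap6w_neg h.lev h.cf h.exists_ne hΦ
  obtain ⟨B, hB⟩ := h.lintegral_ZL (r := (2 + s) / (1 + s)) (by positivity)
    (by rw [div_lt_iff₀ (by positivity)]; linarith)
  have mi := UpperHalfPlane.continuous_im.measurable
  have mf := (ano_cont h.cf.hol).measurable.norm.mul mi
  have m2 : Measurable fun z : ℍ =>
      ENNReal.ofReal ((‖Φ z‖ * z.im) ^ (2 + s) * (‖Y.f z‖ * z.im) ^ (-s)) :=
    (((hΦ.meas.norm.mul mi).pow_const _).mul (mf.pow_const _)).ennreal_ofReal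
  refine ⟨_, fun v => le_trans ?_ (ENNReal.ofReal_toReal (a := ∑ _ζ ∈ mu Y.u,
    (ENNReal.ofReal B + ∫⁻ z in XN Y.N,
      ENNReal.ofReal ((‖Φ z‖ * z.im) ^ (2 + s) * (‖Y.f z‖ * z.im) ^ (-s))))
    (ENNReal.sum_ne_top.2 fun _ _ => ENNReal.add_ne_top.2 ⟨ENNReal.ofReal_ne_top, hK.ne⟩)).ge⟩
  have m1 : ∀ ζ : ℂ, Measurable fun z : ℍ => ENNReal.ofReal
      (‖ZL Y.L (v - ζ * Y.φ z)‖ ^ ((2 + s) / (1 + s)) * (‖Y.f z‖ * z.im) ^ 2) := fun ζ =>
    ((((measurable_ZL Y.L).comp (((ano_cont h.hol_φ).measurable.const_mul ζ).const_sub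
      v)).norm.pow_const _).mul (mf.pow_const 2)).ennreal_ofReal
  refine le_trans ?_ (Finset.sum_le_sum fun ζ hζ =>
    add_le_add (hB ζ ((mem_mu h.upos).1 hζ) v) le_rfl)
  simp only [← lintegral_add_right _ m2]
  refine le_trans (lintegral_mono fun z => ?_)
    (lintegral_finsetSum _ fun ζ _ => (m1 ζ).fun_add m2).le
  have hz := z.im_pos
  change ‖Y.Zk k v (Y.φ z) * ap6G Y.toCrv Φ z‖ₑ ≤ _
  rw [CrvW.Zk, Finset.sum_mul]
  refine (enorm_sum_le _ _).trans (Finset.sum_le_sum fun ζ hζ => ?_)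
  rw [← ofReal_norm, ← ENNReal.ofReal_add (by positivity) (by positivity), norm_mul, ap6_norm,
    ← mul_assoc, norm_mul, norm_pow,
    norm_eq_one_of_pow_eq_one ((mem_mu h.upos).1 hζ) h.upos.ne', one_pow, one_mul]
  exact ENNReal.ofReal_le_ofReal (young_neg (norm_nonneg _) (by positivity) (by positivity) s0)

theorem CrvW.Ok.cau_meas (h : Y.Ok) (hΦ : (Y.lk k).Dec Φ) :
    Measurable fun z : ℍ => Y.cau k Φ z :=
  (ap6w_ker h (dec_bdd hΦ) k
    (ano_cont h.hol_φ).measurable).stronglyMeasurable.integral_prod_right'.measurable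

theorem CrvW.Ok.cau_bd (h : Y.Ok) (hΦ : (Y.lk k).Dec Φ) :
    ∃ C : ℝ, ∀ z : ℍ, ‖Y.cau k Φ z‖ ≤ C := by
  obtain ⟨C, hC⟩ := h.lintegral_Zk hΦ
  refine ⟨|C|, fun z => ?_⟩
  have := (enorm_integral_le_lintegral_enorm _).trans
    ((hC (Y.φ z)).trans (ENNReal.ofReal_le_ofReal (le_abs_self C)))
  rwa [← ofReal_norm, ENNReal.ofReal_le_ofReal_iff (abs_nonneg C)] at this

theorem CrvW.Ok.cau_law (h : Y.Ok) (Φ : ℂ → ℂ) {g : SL(2, ℤ)} (hg : g ∈ Gamma0 Y.N) (z : ℍ) :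
    Y.cau k Φ (g • z : ℍ) = conj ((Y.lk k).ξ g) * Y.cau k Φ z := by
  rw [CrvW.cau, CrvW.cau, ← integral_const_mul]
  refine integral_congr_ae (ae_restrict_of_ae (((ae_im_ne z.im).and (ae_im_W Y.W z.im)).mono
    fun w hw => ?_))
  simp only
  rw [h.Zk_left k hg fun γ _ => ⟨fun e => hw.1 γ (by rw [← e]), fun e => hw.2 γ (by rw [← e])⟩,
    mul_assoc]

theorem Bdd.int (h : Bdd Φ) {m k : ℕ} (hm : 0 < m) (hk : 0 < k) {y : ℝ} (hy : 0 < y) :
    IntegrableOn (fun z : ℍ => ap6F Φ m k y z) Str := by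
  obtain ⟨C, hC⟩ := h.bd
  have hC0 : 0 ≤ C := (mul_nonneg (norm_nonneg _) UpperHalfPlane.I.im_pos.le).trans (hC _)
  refine integrableOn_Str (g := fun t => C / y * Real.exp (-(2 * π * m / k) * t) * t ^ 2) ?_ ?_
    fun z _ => ?_
  · exact Measurable.ite (measurableSet_lt measurable_const UpperHalfPlane.continuous_im.measurable)
      (((continuous_conj.measurable.comp h.meas).mul
        ((continuous_ofReal.comp UpperHalfPlane.continuous_im).pow 2).measurable).mul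
        (ano_q1.comp ((continuous_const.mul UpperHalfPlane.continuous_coe).div_const _)).measurable)
      measurable_const
  · refine IntegrableOn.congr_fun (Integrable.const_mul
      (exp_neg_integrableOn_Ioi 0 (by positivity : 0 < 2 * π * m / k)) (C / y)) (fun t ht => ?_)
      measurableSet_Ioi
    exact (mul_div_cancel_right₀ _ (pow_ne_zero 2 (ne_of_gt ht))).symm
  · rw [ap6F]
    split_ifs with k
    · have hz := z.im_pos
      have h1 := hC z
      rw [norm_mul, norm_mul, ap6_q, norm_conj, norm_pow, norm_real, coe_im,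
        Real.norm_of_nonneg hz.le, mul_right_comm]
      refine mul_le_mul_of_nonneg_right (mul_le_mul_of_nonneg_right ?_ (Real.exp_pos _).le)
        (sq_nonneg _)
      rw [le_div_iff₀ hy]
      exact (mul_le_mul_of_nonneg_left (le_of_lt k) (norm_nonneg _)).trans h1
    · rw [norm_zero]
      positivity

theorem Bdd.eq (h : Bdd Φ) {m k : ℕ} (hm : 0 < m) (hk : 0 < k) {y : ℝ} (hy : 0 < y) :
    ∫ z in Str, ap6F Φ m k y z =
      ∫ t in Ioi y, ∫ x in (0 : ℝ)..1, conj (Φ (x + t * I)) * q1 (m * (x + t * I) / k) := by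
  rw [(integral_Str (h.int hm hk hy)).2, ← inter_eq_left.2 (Ioi_subset_Ioi hy.le), inter_comm,
    ← setIntegral_indicator measurableSet_Ioi]
  refine setIntegral_congr_fun measurableSet_Ioi fun t ht => ?_
  have h0 : (t : ℂ) ≠ 0 := ofReal_ne_zero.2 (ne_of_gt ht)
  simp only [ap6F, ano_im, indicator, mem_Ioi]
  split_ifs
  · rw [← intervalIntegral.integral_const_mul]
    refine intervalIntegral.integral_congr fun x _ => ?_
    generalize q1 _ = c
    push_cast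
    field_simp
  · simp

theorem ap6w_sum {N : ℕ} {h : ℍ → ℂ} (hh : Integrable h) :
    ∀ᵐ w ∂volume.restrict (XN N), Summable fun γ : Gamma0 N => h ((γ : SL(2, ℤ)) • w) := by
  obtain ⟨h1, h2, -⟩ := integral_unfoldN (N := N) hh
  refine (summable_norm_of_tsum_eLpNorm_ne_top le_rfl (fun γ => (h1 γ).1) ?_).mono
    fun w hw => hw.of_norm
  simp only [eLpNorm_one_eq_lintegral_enorm, ← ofReal_integral_norm_eq_lintegral_enorm (h1 _)]
  rw [← ENNReal.ofReal_tsum_of_nonneg (fun _ => integral_nonneg fun _ => norm_nonneg _) h2]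
  exact ENNReal.ofReal_ne_top

theorem ap6w_law (h : Y.Ok) (hΦ : (Y.lk k).Law 2 Φ) {g : SL(2, ℤ)} (hg : g ∈ Gamma0 Y.N) (z : ℍ) :
    ap6G Y.toCrv Φ (g • z) = Y.ξ g ^ k * ap6G Y.toCrv Φ z := by
  have n := jac_ne g z
  have n' : conj (jac g z) ≠ 0 := (map_ne_zero _).2 n
  rw [ap6G, ap6G, hΦ g hg, h.cf.law g hg, im_jac, ofReal_div, ← Complex.mul_conj]
  simp only [CrvW.lk, map_mul, map_pow, conj_conj]
  field_simp
  linear_combination conj (Φ z) * Y.f z * (z.im : ℂ) ^ 2 * Y.ξ g ^ k * h.lev.mul_conj hg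

theorem ap6w_W (h : Y.Ok) (Φ : ℂ → ℂ) (z : ℍ) :
    conj (Y.sw Φ (Y.W • z : ℍ)) * Y.f (Y.W • z : ℍ) * ((Y.W • z).im : ℂ) ^ 2 =
      Y.lam * ap6G Y.toCrv Φ z := by
  have n := jacR_ne Y.W z
  have n' : conj (jacR Y.W z) ≠ 0 := (map_ne_zero _).2 n
  rw [ap6G, Y.sw_coe, h.Wf, im_jacR, ofReal_div, ← Complex.mul_conj, map_mul, map_pow]
  field_simp

theorem CrvW.Ok.cau_horo (h : Y.Ok) (hΦ : (Y.lk k).Dec Φ) {α : ℂ} {β : ℝ}
    (hη : ∀ v, Shared.Weier.eta Y.L v = α * v + β * conj v) {m : ℕ} (hm : 0 < m)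
    (hT : q1 (m / Y.h) = (Y.lk k).ξ ModularGroup.T) {y : ℝ} (hy : 0 < y) :
    ∫ x in (0 : ℝ)..1, Y.cau k Φ (x + y * I) * q1 (m * (x + y * I) / Y.h) =
      Y.h / Y.ρ * ((∫ t in Ioi y, ∫ x in (0 : ℝ)..1,
        conj (Φ (x + t * I)) * q1 (m * (x + t * I) / Y.h)) + Y.lam ^ k * conj Y.lam *
        ∫ t in Ioi y, ∫ x in (0 : ℝ)..1, conj (Y.sw Φ (x + t * I)) * q1 (m * (x + t * I) / Y.h)) -
      (∑ ζ ∈ mu Y.u, ζ ^ k) * β * conj (Y.ρ * Y.a m) / m * Real.exp (-4 * π * m * y / Y.h) *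
        ∫ w in XN Y.N, conj (Φ w) * Y.f w * (w.im : ℂ) ^ 2 := by
  have hb := dec_bdd hΦ
  have hu : Continuous fun x : ℝ => Y.φ (x + y * I) := continuous_iff_continuousAt.2 fun x =>
    (h.hol_φ _ (by rwa [ano_im])).continuousAt.comp (f := fun x : ℝ => (x : ℂ) + y * I)
      (by fun_prop)
  have hq : Continuous fun x : ℝ => q1 (m * (x + y * I) / Y.h) := ano_q1.comp (by fun_prop)
  obtain ⟨C, hC⟩ := h.lintegral_Zk hΦ
  have hI : Integrable (Function.uncurry fun (x : ℝ) (w : ℍ) =>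
      Y.Zk k (Y.φ (x + y * I)) (Y.φ w) * ap6G Y.toCrv Φ w * q1 (m * (x + y * I) / Y.h))
      ((volume.restrict (uIoc 0 1)).prod (volume.restrict (XN Y.N))) := by
    have hk : Measurable (Function.uncurry fun (x : ℝ) (w : ℍ) =>
        Y.Zk k (Y.φ (x + y * I)) (Y.φ w) * ap6G Y.toCrv Φ w * q1 (m * (x + y * I) / Y.h)) :=
      (ap6w_ker h hb k hu.measurable).mul (hq.measurable.comp measurable_fst)
    refine ⟨hk.aestronglyMeasurable, ?_⟩
    rw [hasFiniteIntegral_iff_enorm, lintegral_prod _ hk.enorm.aemeasurable]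
    refine (lintegral_mono (g := fun _ => ENNReal.ofReal C) fun x : ℝ =>
      (lintegral_mono fun w => ?_).trans (hC (Y.φ (x + y * I)))).trans_lt ?_
    swap
    · simp
    refine enorm_le_iff_norm_le.2 ((norm_mul _ _).trans_le (mul_le_of_le_one_right
      (norm_nonneg _) ?_))
    rw [ap6_q, ano_im, Real.exp_le_one_iff]
    exact mul_nonpos_of_nonpos_of_nonneg (neg_nonpos.2 (by positivity)) hy.le
  have hA := hI.integral_prod_right
  have hh : Integrable (Str.indicator fun z : ℍ => ap6F Φ m Y.h y z) :=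
    (integrable_indicator_iff measurableSet_Str).2 (hb.int hm h.lev.hpos hy)
  have hh' : Integrable fun w : ℍ => Str.indicator (fun z : ℍ => ap6F (Y.sw Φ) m Y.h y z)
      (Y.W • w) := ((mpR Y.W).integrable_comp_of_integrable
    ((integrable_indicator_iff measurableSet_Str).2 ((hb.sw Y).int hm h.lev.hpos hy)) :)
  have h1 := congrArg (Y.h / Y.ρ * ·)
    (integral_unfoldN (N := Y.N) (hh.fun_add (hh'.const_mul (Y.lam ^ k * conj Y.lam)))).2.2.2
  rw [integral_add hh (hh'.const_mul _), integral_const_mul, (mpR Y.W).integral_comp (embR Y.W),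
    integral_indicator measurableSet_Str, integral_indicator measurableSet_Str,
    hb.eq hm h.lev.hpos hy, (hb.sw Y).eq hm h.lev.hpos hy, ← integral_const_mul] at h1
  have h2 : ∫ x in (0 : ℝ)..1, Y.cau k Φ (x + y * I) * q1 (m * (x + y * I) / Y.h) = ∫ w in XN Y.N,
      ∫ x in (0 : ℝ)..1,
        Y.Zk k (Y.φ (x + y * I)) (Y.φ w) * ap6G Y.toCrv Φ w * q1 (m * (x + y * I) / Y.h) := by
    rw [← intervalIntegral_integral_swap hI]
    exact intervalIntegral.integral_congr fun x _ => (integral_mul_const _ _).symm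
  set c : ℂ := (∑ ζ ∈ mu Y.u, ζ ^ k) * β * conj (Y.ρ * Y.a m) / m *
    Real.exp (-4 * π * m * y / Y.h)
  have hA' : IntegrableOn (fun w : ℍ => ∫ x in (0 : ℝ)..1,
      Y.Zk k (Y.φ (x + y * I)) (Y.φ w) * ap6G Y.toCrv Φ w * q1 (m * (x + y * I) / Y.h))
      (XN Y.N) := by
    simpa only [IntegrableOn, Function.uncurry, uIoc_of_le zero_le_one,
      intervalIntegral.integral_of_le zero_le_one] using hA
  obtain ⟨σ, hσ⟩ := h.exists_sigma
  have h3 : ∫ w in XN Y.N, Y.h / Y.ρ * ∑' γ : Gamma0 Y.N,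
      (Str.indicator (fun z : ℍ => ap6F Φ m Y.h y z) ((γ : SL(2, ℤ)) • w) + Y.lam ^ k * conj Y.lam *
        Str.indicator (fun z : ℍ => ap6F (Y.sw Φ) m Y.h y z) (Y.W • (γ : SL(2, ℤ)) • w)) =
      ∫ w in XN Y.N, 2 * ((∫ x in (0 : ℝ)..1, Y.Zk k (Y.φ (x + y * I)) (Y.φ w) *
        ap6G Y.toCrv Φ w * q1 (m * (x + y * I) / Y.h)) + c * ap6G Y.toCrv Φ w) := by
    refine integral_congr_ae ?_
    filter_upwards [ae_restrict_of_ae (ae_im_ne y), ae_restrict_of_ae (ae_im_W Y.W y),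
      ae_restrict_mem (measurableSet_XN Y.N), ae_restrict_of_ae h.ae_ne,
      ae_restrict_of_ae h.ae_fr, ap6w_sum hh, ap6w_sum hh'] with w k1 k1' k2 k0 k5 s1 s2
    have e := eq_sub_iff_add_eq.1
      (h.res_horo k hη hm hT hy ⟨fun g _ => stab_XN k2, fun g _ => k5 g⟩ k0 k1 k1')
    simp only [mul_right_comm _ (ap6G Y.toCrv Φ w)]
    rw [intervalIntegral.integral_mul_const, ← add_mul, ← mul_assoc, mul_add, e, mul_assoc,
      add_mul, ← tsum_mul_right, ← tsum_mul_right, s1.tsum_add (s2.mul_left _)]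
    refine congrArg _ (congrArg₂ _ (tsum_congr fun γ => ?_)
      ((σ.tsum_eq _).symm.trans (tsum_congr fun γ => ?_)))
    · have := h.f_smul_ne k0 γ.2
      rw [ite_mul, zero_mul, mul_right_comm, ← ap6w_law h hΦ.law γ.2 w, ap6G]
      generalize (γ : SL(2, ℤ)) • w = z at this ⊢
      by_cases k3 : z ∈ Str <;> by_cases k4 : y < z.im <;> simp [ap6F, k3, k4]
      generalize q1 _ = c
      field_simp
    · have := h.f_W_ne (h.f_smul_ne k0 (σ γ).2)
      have e1 := ap6w_W h Φ ((σ γ : SL(2, ℤ)) • w)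
      rw [ap6w_law h hΦ.law (σ γ).2 w, (hσ γ).1] at e1
      rw [(hσ γ).2]
      generalize Y.W • (σ γ : SL(2, ℤ)) • w = z at this e1 ⊢
      by_cases k3 : z ∈ Str <;> by_cases k4 : y < z.im <;> simp [ap6F, k3, k4]
      generalize q1 _ = c
      field_simp
      linear_combination c * Y.lam ^ k * conj Y.lam * e1 +
        c * Y.lam ^ k * Y.ξ γ ^ k * ap6G Y.toCrv Φ w * (h.conj_pow h.Wpow).2
  rw [h3, integral_const_mul, integral_add hA' ((ap6w_int h hb).const_mul c), integral_const_mul,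
    ← h2, mul_left_comm] at h1
  exact eq_sub_of_add_eq (mul_left_cancel₀ two_ne_zero h1)

end Pool.Agent.Lib.MP_696deb_nt.Y3.An
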