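import Pool.Agent.Lib.MP_696deb_nt.Y3.AW1

/-! The involution and the mirror on forms. -/

set_option autoImplicit false

open Complex Filter Topology Set MeasureTheory CongruenceSubgroup
open UpperHalfPlane hiding I
open scoped Real MatrixGroups ComplexConjugate Modular Classical
open Pool.Agent.Shared.Weier Pool.Agent.Dih Pool.Agent.Lib.MP_696deb_nt.Y2.An

namespace Pool.Agent.Lib.MP_696deb_nt.Y3.An

variable {Y : CrvW} {Φ : ℂ → ℂ}

theorem CrvW.Ok.lk_ok (h : Y.Ok) (k : ℕ) : (Y.lk k).Ok :=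
  ⟨h.lev.Npos, h.lev.hpos, fun g hg g' hg' => by
    simp only [CrvW.lk, h.lev.mul g hg g' hg', map_mul, mul_pow]
    ring, fun g hg => by
    simp only [CrvW.lk, norm_mul, norm_pow, norm_conj, h.lev.norm g hg, one_pow, mul_one], by
    simp only [CrvW.lk, h.lev.neg, map_one, one_pow, mul_one],
    h.lev.ker.imp fun n hn => ⟨hn.1, hn.2.1, fun g hg => by
      simp only [CrvW.lk, hn.2.2 g hg, map_one, one_pow, mul_one]⟩⟩

theorem CrvW.lk_zero (Y : CrvW) : Y.lk 0 = Y.toLev := by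
  simp only [CrvW.lk, pow_zero, mul_one]

theorem dec_bdd {A : Lev} (h : A.Dec Φ) : Bdd Φ := ⟨h.meas, h.bd⟩

theorem CrvW.sw_coe (Y : CrvW) (Φ : ℂ → ℂ) (w : ℍ) :
    Y.sw Φ (Y.W • w : ℍ) = Φ w * jacR Y.W w ^ 2 := by
  rw [CrvW.sw, ofComplex_apply, inv_smul_smul]

theorem Bdd.sw (h : Bdd Φ) (Y : CrvW) : Bdd (Y.sw Φ) := by
  obtain ⟨C, hC⟩ := h.bd
  refine ⟨?_, C, fun z => ?_⟩
  · have c : Continuous fun w : ℍ => jacR Y.W w ^ 2 := by
      unfold jacR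
      fun_prop
    simp only [CrvW.sw, ofComplex_apply]
    exact (h.meas.mul c.measurable).comp (embR Y.W⁻¹).measurable
  · obtain ⟨w, rfl⟩ : ∃ w : ℍ, z = Y.W • w := ⟨_, (smul_inv_smul _ _).symm⟩
    have n := norm_ne_zero_iff.2 (jacR_ne Y.W w)
    refine le_of_eq_of_le ?_ (hC w)
    rw [Y.sw_coe, im_jacR, norm_mul, norm_pow, normSq_eq_norm_sq]
    field_simp

theorem CrvW.Ok.law_sw (h : Y.Ok) (hΦ : Y.toLev.Law 2 Φ) : Y.toLev.Law 2 (Y.sw Φ) := by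
  intro g hg z
  obtain ⟨w, rfl⟩ : ∃ w : ℍ, z = Y.W • w := ⟨_, (smul_inv_smul _ _).symm⟩
  obtain ⟨g', h1, h2, h3⟩ := h.Wl g hg
  have e := jacR_mul g Y.W w
  rw [h3, jacR_mul, coe_smulR, jacR_coe, jacR_coe] at e
  rw [← coe_smulR, ← mul_smul, h3, mul_smul, coe_smulR, Y.sw_coe, Y.sw_coe, hΦ g' h1, h2]
  linear_combination Y.ξ g * Φ w * (jacR Y.W (g' • w : ℍ) * jac g' w +
    jac g (Y.W • w : ℍ) * jacR Y.W w) * e

theorem aw_mirF (Φ : ℂ → ℂ) (z : ℍ) : mirF Φ z = conj (Φ (J • z : ℍ)) := by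
  rw [mirF, coe_J_smul]

theorem CrvW.Ok.aw_two (h : Y.Ok) {g : SL(2, ℤ)} (hg : g ∈ Gamma0 Y.N) :
    (Y.lk 2).ξ g = conj (Y.ξ g) := by
  simp only [CrvW.lk]
  rw [sq, ← mul_assoc, h.lev.mul_conj hg, one_mul]

theorem CrvW.Ok.dec_mir (h : Y.Ok) (hΦ : Y.toLev.Dec Φ) : (Y.lk 2).Dec (mirF Φ) := by
  obtain ⟨δ, C, hδ, hC⟩ := hΦ.dec
  refine ⟨?_, fun g hg z => ?_, δ, C, hδ, fun g z hz => ?_⟩
  · simp only [aw_mirF]
    exact continuous_conj.measurable.comp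
      (hΦ.meas.comp (Isometry.of_dist_eq dist_J).continuous.measurable)
  · rw [h.aw_two hg, aw_mirF, aw_mirF, J_smulZ, hΦ.law _ (mir_mem hg), h.mirξ g hg, ← jacR_coe,
      ← mir_coe, coe_J_smul, jacR_mir, jacR_coe, map_mul, map_mul, map_pow, conj_conj]
  · rw [aw_mirF, norm_conj, ← im_J (g • z), ← im_J z, J_smulZ]
    refine hC _ _ ⟨?_, ?_⟩
    · rw [coe_J_smul, normSq_neg, normSq_conj]
      exact hz.1
    · rw [← coe_re, coe_J_smul, neg_re, conj_re, abs_neg]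
      exact hz.2

theorem CrvW.Ok.sw_mir (h : Y.Ok) (hΦ : Y.toLev.Law 2 Φ) (z : ℍ) :
    Y.sw (mirF Φ) z = -mirF (Y.sw Φ) z := by
  obtain ⟨w, rfl⟩ : ∃ w : ℍ, z = Y.W • w := ⟨_, (smul_inv_smul _ _).symm⟩
  obtain ⟨g, h1, h2, h3⟩ := h.mirW
  have e := jacR_mul Y.W g (J • w)
  rw [← h3, coe_smulR, jacR_coe, coe_J_smul, jacR_mir, ← coe_J_smul] at e
  rw [Y.sw_coe, aw_mirF, aw_mirF, J_smulR, h3, mul_smul, coe_smulR, Y.sw_coe, hΦ g h1, h2,
    ← conj_conj (jacR Y.W w), e]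
  simp only [map_mul, map_pow, map_neg, map_one]
  ring

theorem CrvW.Ok.xi_T (h : Y.Ok) : (Y.lk 2).ξ ModularGroup.T = Y.ξ ModularGroup.T := by
  have m : ModularGroup.T ∈ Gamma0 Y.N := zpow_one ModularGroup.T ▸ T_mem Y.N 1
  rw [h.aw_two m, ← h.lev.inv m, ← mir_T, h.mirξ _ m]

/-- The regularised coefficients of the mirror image. -/
theorem reg_mir {A : Lev} (hΦ : A.Law 2 Φ) {m : ℕ} (hT : q1 (m / A.h) = A.ξ ModularGroup.T)
    (ε : ℝ) : reg A.h m (mirF Φ) ε = conj (reg A.h m Φ ε) := by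
  rw [reg, reg, ← integral_conj]
  refine setIntegral_congr_fun measurableSet_Ioi fun y hy => ?_
  have p : Function.Periodic (fun x : ℝ => Φ (x + y * I) * q1 (-(m * x / A.h))) 1 := fun x => by
    have e := hΦ _ (T_mem A.N 1) ⟨x + y * I, by simpa using hy⟩
    rw [coe_T, jac_T, zpow_one, ← hT] at e
    simp only [Int.cast_one, one_pow, mul_one] at e
    simp only [ofReal_add, ofReal_one]
    rw [add_right_comm, e, mul_comm (q1 _), mul_assoc, ← q1_add]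
    congr 2
    ring
  have e := p.intervalIntegral_add_eq (-1) 0
  rw [neg_add_cancel, zero_add] at e
  simp only [map_mul, conj_ofReal]
  rw [← e, ← neg_zero, ← intervalIntegral.integral_comp_neg, neg_zero,
    intervalIntegral.integral_of_le zero_le_one, intervalIntegral.integral_of_le zero_le_one,
    ← integral_conj]
  refine congrArg _ (integral_congr_ae (ae_of_all _ fun x => ?_))
  simp only [mirF, q1, map_mul, map_add, ← exp_conj, conj_ofReal, conj_I, map_neg, map_div₀,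
    map_natCast, map_ofNat, ofReal_neg]
  congr 2 <;> ring_nf

end Pool.Agent.Lib.MP_696deb_nt.Y3.An
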