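import Pool.Agent.Lib.MP_696deb_nt.Y3.A0

/-! Real matrices and the mirror. -/

set_option autoImplicit false

open Complex Filter Topology Set MeasureTheory CongruenceSubgroup
open UpperHalfPlane hiding I
open scoped Real MatrixGroups ComplexConjugate Modular Classical
open Pool.Agent.Shared.Weier Pool.Agent.Dih Pool.Agent.Lib.MP_696deb_nt.Y2.An

namespace Pool.Agent.Lib.MP_696deb_nt.Y3.An

theorem coe_smulR (g : SL(2, ℤ)) (z : ℍ) : (g : SL(2, ℝ)) • z = g • z := rfl

theorem coeR_inj {g g' : SL(2, ℤ)} (h : (g : SL(2, ℝ)) = (g' : SL(2, ℝ))) : g = g' := by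
  ext i j
  have := congrArg (fun m : SL(2, ℝ) => m i j) h
  simpa using this

theorem jacR_coe (g : SL(2, ℤ)) (z : ℂ) : jacR (g : SL(2, ℝ)) z = jac g z := by
  simp [jacR, jac]

theorem jacR_ne (g : SL(2, ℝ)) (z : ℍ) : jacR g z ≠ 0 :=
  denom_ne_zero (Matrix.SpecialLinearGroup.mapGL ℝ g) z

theorem jacR_mul (g g' : SL(2, ℝ)) (z : ℍ) : jacR (g * g') z = jacR g (g' • z : ℍ) * jacR g' z := by
  have h := jacR_ne g' z
  simp only [jacR, coe_specialLinearGroup_apply, Algebra.algebraMap_self, RingHom.id_apply,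
    Matrix.SpecialLinearGroup.coe_mul, Matrix.mul_apply, Fin.sum_univ_two] at h ⊢
  push_cast
  field_simp
  ring

theorem im_jacR (g : SL(2, ℝ)) (z : ℍ) : (g • z).im = z.im / normSq (jacR g z) := by
  have := UpperHalfPlane.im_smul_eq_div_normSq (Matrix.SpecialLinearGroup.mapGL ℝ g) z
  rw [Matrix.SpecialLinearGroup.det_mapGL, Units.val_one, abs_one, one_mul] at this
  exact this

theorem mpR (g : SL(2, ℝ)) : MeasurePreserving (fun z : ℍ => g • z) volume volume :=
  measurePreserving_smul (Matrix.SpecialLinearGroup.mapGL ℝ g) volume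

theorem embR (g : SL(2, ℝ)) : MeasurableEmbedding fun z : ℍ => g • z :=
  measurableEmbedding_const_smul (Matrix.SpecialLinearGroup.mapGL ℝ g)

theorem mir_mir {R : Type} [CommRing R] (g : SL(2, R)) : mir (mir g) = g := by
  ext i j; fin_cases i <;> fin_cases j <;> simp [mir]

theorem mir_mul {R : Type} [CommRing R] (g g' : SL(2, R)) : mir (g * g') = mir g * mir g' := by
  ext i j
  fin_cases i <;> fin_cases j <;> simp [mir, Matrix.mul_apply, Fin.sum_univ_two] <;> ring

theorem mir_coe (g : SL(2, ℤ)) : mir (g : SL(2, ℝ)) = ((mir g : SL(2, ℤ)) : SL(2, ℝ)) := by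
  ext i j; fin_cases i <;> fin_cases j <;> simp [mir]

theorem mir_mem {N : ℕ} {g : SL(2, ℤ)} (hg : g ∈ Gamma0 N) : mir g ∈ Gamma0 N := by
  rw [Gamma0_mem] at hg ⊢
  simpa [mir] using hg

theorem mir_T : mir ModularGroup.T = ModularGroup.T⁻¹ := by
  ext i j
  rw [ModularGroup.coe_T_inv]
  fin_cases i <;> fin_cases j <;> simp [mir, ModularGroup.coe_T]

theorem J_J (z : ℍ) : J • J • z = z := by
  ext; simp [coe_J_smul]

theorem J_smulR (g : SL(2, ℝ)) (z : ℍ) : J • g • z = mir g • J • z := by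
  ext
  simp only [coe_J_smul, coe_specialLinearGroup_apply, mir, Algebra.algebraMap_self,
    RingHom.id_apply, map_div₀, map_add, map_mul, conj_ofReal]
  simp [← neg_div, add_comm]

theorem J_smulZ (g : SL(2, ℤ)) (z : ℍ) : J • g • z = mir g • J • z := by
  rw [← coe_smulR, J_smulR, mir_coe, coe_smulR]

theorem im_J (z : ℍ) : (J • z).im = z.im := by
  rw [← coe_im, coe_J_smul]; simp

theorem dist_J (z w : ℍ) : dist (J • z) (J • w) = dist z w := by
  rw [UpperHalfPlane.dist_eq, UpperHalfPlane.dist_eq, im_J, im_J, coe_J_smul, coe_J_smul, dist_neg_neg,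
    Complex.dist_conj_conj]

theorem jacR_mir (g : SL(2, ℝ)) (z : ℂ) : jacR (mir g) (-conj z) = conj (jacR g z) := by
  simp [jacR, mir]

end Pool.Agent.Lib.MP_696deb_nt.Y3.An
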