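import Pool.Agent.Lib.MP_696deb_nt.Y3.AW0

/-! The involution. -/

set_option autoImplicit false

open Complex Filter Topology Set MeasureTheory CongruenceSubgroup
open UpperHalfPlane hiding I
open scoped Real MatrixGroups ComplexConjugate Modular Classical
open Pool.Agent.Shared.Weier Pool.Agent.Dih Pool.Agent.Lib.MP_696deb_nt.Y2.An

namespace Pool.Agent.Lib.MP_696deb_nt.Y3.An

variable {Y : CrvW} {z w : ℍ}

theorem aw1_act {W : SL(2, ℝ)} {g g' : SL(2, ℤ)} (e : (g : SL(2, ℝ)) * W = W * (g' : SL(2, ℝ)))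
    (z : ℍ) : g • W • z = W • g' • z := by
  rw [← coe_smulR, ← coe_smulR g', ← mul_smul, e, mul_smul]

theorem aw1_mir {g : SL(2, ℤ)} (h : mir g = 1 ∨ mir g = -1) : g = 1 ∨ g = -1 :=
  h.imp (fun e => by rw [← mir_mir g, e]; decide) fun e => by rw [← mir_mir g, e]; decide

theorem aw1_fix {γ : SL(2, ℝ)} {w : ℍ} (h : w = γ • w) :
    2 * γ 1 0 * w.re + γ 1 1 - γ 0 0 = 0 ∧ γ 1 0 * (w.re ^ 2 + w.im ^ 2) + γ 0 1 = 0 := by
  have e := congrArg (fun z : ℍ => (z : ℂ)) h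
  have n : (γ 1 0 * w + γ 1 1 : ℂ) ≠ 0 := jacR_ne γ w
  simp only [coe_specialLinearGroup_apply, Algebra.algebraMap_self, RingHom.id_apply] at e
  rw [eq_div_iff n] at e
  have e1 := congrArg Complex.re e
  have e2 := congrArg Complex.im e
  simp only [mul_re, mul_im, add_re, add_im, ofReal_re, ofReal_im, coe_re, coe_im] at e1 e2
  have e3 : 2 * γ 1 0 * w.re + γ 1 1 - γ 0 0 = 0 :=
    mul_left_cancel₀ w.im_pos.ne' (by linear_combination e2)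
  exact ⟨e3, by linear_combination w.re * e3 - e1⟩

theorem aw1_sub {γ : SL(2, ℝ)} (h1 : γ ≠ 1) (h2 : γ ≠ -1) : {w : ℍ | w = γ • w}.Subsingleton := by
  intro w hw v hv
  obtain ⟨a, b⟩ := aw1_fix hw
  obtain ⟨c, d⟩ := aw1_fix hv
  have e0 : γ 1 0 ≠ 0 := fun e => by
    have k := γ.det_coe
    rw [Matrix.det_fin_two] at k
    have k1 : γ 1 1 = γ 0 0 := by linear_combination a - 2 * w.re * e
    have k2 : γ 0 1 = 0 := by linear_combination b - (w.re ^ 2 + w.im ^ 2) * e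
    rw [k1, k2, zero_mul, sub_zero] at k
    rcases mul_self_eq_one_iff.1 k with k3 | k3
    · refine h1 (Matrix.SpecialLinearGroup.ext _ _ fun i j => ?_)
      fin_cases i <;> fin_cases j <;> simp [e, k1, k2, k3]
    · refine h2 (Matrix.SpecialLinearGroup.ext _ _ fun i j => ?_)
      fin_cases i <;> fin_cases j <;> simp [e, k1, k2, k3]
  have e1 : w.re = v.re := mul_left_cancel₀ (mul_ne_zero two_ne_zero e0) (by linear_combination a - c)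
  rw [e1] at b
  exact UpperHalfPlane.ext (Complex.ext e1 ((pow_left_inj₀ w.im_pos.le v.im_pos.le two_ne_zero).1
    (mul_left_cancel₀ e0 (by linear_combination b - d))))

/-- Conjugation by the involution. -/
theorem CrvW.Ok.exists_sigma (h : Y.Ok) : ∃ σ : Gamma0 Y.N ≃ Gamma0 Y.N, ∀ g : Gamma0 Y.N,
    Y.ξ (σ g) = Y.ξ g ∧ ∀ z : ℍ, (g : SL(2, ℤ)) • Y.W • z = Y.W • (σ g : SL(2, ℤ)) • z := by
  choose s s1 s2 s3 using h.Wl
  refine ⟨Equiv.ofBijective (fun g => ⟨s g.1 g.2, s1 g.1 g.2⟩) ⟨fun g g' e => ?_, fun g' => ?_⟩,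
    fun g => ⟨s2 g.1 g.2, aw1_act (s3 g.1 g.2)⟩⟩
  · have e' : s g.1 g.2 = s g'.1 g'.2 := congrArg Subtype.val e
    exact Subtype.ext (coeR_inj (mul_right_cancel ((s3 g.1 g.2).trans (e' ▸ (s3 g'.1 g'.2).symm))))
  · obtain ⟨g, hg, e⟩ := h.Wr g'.1 g'.2
    exact ⟨⟨g, hg⟩, Subtype.ext (coeR_inj (mul_left_cancel ((s3 g hg).symm.trans e)))⟩

theorem CrvW.Ok.W_left (h : Y.Ok) {g : SL(2, ℤ)} (hg : g ∈ Gamma0 Y.N) :
    ∃ g' ∈ Gamma0 Y.N, Y.ξ g' = Y.ξ g ∧ ∀ z : ℍ, g • Y.W • z = Y.W • g' • z :=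
  (h.Wl g hg).imp fun _ k => ⟨k.1, k.2.1, aw1_act k.2.2⟩

theorem CrvW.Ok.W_right (h : Y.Ok) {g' : SL(2, ℤ)} (hg : g' ∈ Gamma0 Y.N) :
    ∃ g ∈ Gamma0 Y.N, Y.ξ g = Y.ξ g' ∧ ∀ z : ℍ, g • Y.W • z = Y.W • g' • z := by
  obtain ⟨g, k, e⟩ := h.Wr g' hg
  obtain ⟨g'', -, k2, e'⟩ := h.Wl g k
  exact ⟨g, k, coeR_inj (mul_left_cancel (e'.symm.trans e)) ▸ k2.symm, aw1_act e⟩

theorem CrvW.Ok.free_W (h : Y.Ok) (hw : Free Y.N w) : Free Y.N (Y.W • w) := by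
  intro g hg e
  obtain ⟨g', k, -, e'⟩ := h.Wl g hg
  rw [aw1_act e'] at e
  refine (hw g' k (smul_left_cancel _ e)).imp (fun t => coeR_inj (mul_right_cancel (b := Y.W) ?_))
    fun t => coeR_inj (mul_right_cancel (b := Y.W) ?_)
  · rw [e', t, map_one, mul_one, one_mul]
  · rw [e', t, Matrix.SpecialLinearGroup.coe_int_neg, map_one, mul_neg, neg_mul, mul_one, one_mul]

theorem CrvW.Fr.ne (hw : Y.Fr w) {g g' : SL(2, ℤ)} (hg : g ∈ Gamma0 Y.N) (hg' : g' ∈ Gamma0 Y.N) :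
    g • w ≠ g' • Y.W • w := fun e =>
  hw.2 (g⁻¹ * g') (mul_mem (inv_mem hg) hg') (by rw [mul_smul, ← e, inv_smul_smul])

/-- The mirror image of the involution. -/
theorem CrvW.Ok.J_W (h : Y.Ok) :
    ∃ g ∈ Gamma0 Y.N, Y.ξ g = -1 ∧ ∀ z : ℍ, J • Y.W • J • z = g • Y.W • z := by
  obtain ⟨g', k, k1, e⟩ := h.mirW
  obtain ⟨g, t, t1, t2⟩ := h.W_right k
  exact ⟨g, t, t1.trans k1, fun z => by rw [J_smulR, J_J, e, mul_smul, coe_smulR, t2]⟩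

theorem CrvW.Ok.fr_J (h : Y.Ok) (hw : Y.Fr w) : Y.Fr (J • w) := by
  obtain ⟨g', k, -, e'⟩ := h.J_W
  refine ⟨fun g hg e => aw1_mir (hw.1 _ (mir_mem hg) ?_),
    fun g hg e => hw.2 _ (mul_mem (mir_mem hg) k) ?_⟩
  · rw [← J_J w, ← J_smulZ, e]
  · rw [mul_smul, ← e', ← J_smulZ, ← e, J_J]

theorem CrvW.Ok.sep_J (h : Y.Ok) (hz : Y.Sep z w) : Y.Sep (J • z) (J • w) := by
  obtain ⟨g', k, -, e'⟩ := h.J_W
  refine fun g hg => ⟨fun e => (hz _ (mir_mem hg)).1 ?_,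
    fun e => (hz _ (mul_mem (mir_mem hg) k)).2 ?_⟩
  · rw [← J_J w, ← J_smulZ, ← e, J_J]
  · rw [mul_smul, ← e', ← J_smulZ, ← e, J_J]

theorem CrvW.Ok.ae_fr (h : Y.Ok) : ∀ᵐ w : ℍ, ∀ g : SL(2, ℤ), w ≠ g • Y.W • w := by
  refine ae_all_iff.mpr fun g => ?_
  have s := aw1_sub (γ := (g : SL(2, ℝ)) * Y.W)
    (fun e => h.Wne g⁻¹ (by rw [map_inv, inv_eq_of_mul_eq_one_right e]))
    fun e => h.Wne (-g⁻¹) (by
      rw [Matrix.SpecialLinearGroup.coe_int_neg, map_inv, eq_inv_mul_of_mul_eq e, mul_neg, mul_one])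
  have : volume {w : ℍ | w = ((g : SL(2, ℝ)) * Y.W) • w} = 0 := by
    rcases s.eq_empty_or_singleton with e | ⟨v, e⟩ <;> rw [e]
    · exact measure_empty
    · rw [volume_eq_lintegral, image_singleton]
      simp
  simpa only [ae_iff, not_not, mul_smul, coe_smulR] using this

theorem ae_im_W (W : SL(2, ℝ)) (y : ℝ) : ∀ᵐ w : ℍ, ∀ g : SL(2, ℤ), (g • W • w).im ≠ y :=
  (mpR W).quasiMeasurePreserving.ae (ae_im_ne y)

end Pool.Agent.Lib.MP_696deb_nt.Y3.An
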