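import Pool.Agent.Lib.MP_696deb_nt.Y3.D0

/-! Matrices and weights. -/

set_option autoImplicit false

open Finset
open scoped Classical

namespace Pool.Agent.Lib.MP_696deb_nt.Y3

open CL (O nm om wC Per Prim)

variable {α β γ δ t : O} {g h Y : MZ} {k : ℤ} {w : MZ → O}

theorem mb_det (α β : O) : (mb α β).det = nm α - nm β := by
  simp only [mb, Matrix.det_fin_two_of, nm]
  ring

theorem mb_mul (α β γ δ : O) :
    mb α β * mb γ δ = mb (α * γ + star β * δ) (β * γ + star α * δ) := by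
  ext i j
  fin_cases i <;> fin_cases j <;> simp [mb, Matrix.mul_apply, Fin.sum_univ_two] <;> ring

theorem mb_adj (α β : O) : (mb α β).adjugate = mb (star α) (-β) := by
  ext i j
  fin_cases i <;> fin_cases j <;> simp [mb, Matrix.adjugate_fin_two] <;> ring

theorem mb_add (α β γ δ : O) : mb (α + γ) (β + δ) = mb α β + mb γ δ := by
  ext i j
  fin_cases i <;> fin_cases j <;> simp [mb] <;> ring

theorem mb_smul (k : ℤ) (α β : O) : mb (k * α) (k * β) = k • mb α β := by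
  ext i j
  fin_cases i <;> fin_cases j <;> simp [mb] <;> ring

theorem mb_one : mb 1 0 = 1 := by decide

theorem mb_inj (h : mb α β = mb γ δ) : α = γ ∧ β = δ := by
  have a := congrFun (congrFun h 0) 0
  have b := congrFun (congrFun h 0) 1
  have c := congrFun (congrFun h 1) 0
  have d := congrFun (congrFun h 1) 1
  simp [mb] at a b c d
  constructor <;> ext <;> omega

theorem mb_surj (Y : MZ) : ∃ α β, mb (CL.th * α) (CL.th * β) = (3 : ℤ) • Y :=
  ⟨⟨Y 1 0 - Y 1 1 - Y 0 1, -Y 0 0 - Y 1 1⟩, ⟨Y 0 1 + Y 1 0, Y 1 0 - Y 1 1 + Y 0 0⟩, by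
    ext i j
    fin_cases i <;> fin_cases j <;> simp [mb, CL.th] <;> ring⟩

theorem row_mb (B : MZ) (α β : O) (i : Fin 2) :
    row (B * mb α β) i = α * row B i + β * star (row B i) := by
  ext <;> simp [row, mb, Matrix.mul_apply] <;> ring

theorem row_mul (g B : MZ) (i : Fin 2) :
    row (g * B) i = g i 0 * row B 0 + g i 1 * row B 1 := by
  ext <;> simp [row, Matrix.mul_apply]

theorem row_smul (k : ℤ) (B : MZ) (i : Fin 2) : row (k • B) i = k * row B i := by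
  ext <;> simp [row]

theorem row_inj {B B' : MZ} (h : ∀ i, row B i = row B' i) : B = B' := by
  ext i j
  fin_cases j
  exacts [congrArg QuadraticAlgebra.im (h i), congrArg QuadraticAlgebra.re (h i)]

theorem act_row (B : MZ) : act B wC = CL.toC (row B 0) / CL.toC (row B 1) := by
  simp only [act, mob, CL.toC_apply, row, add_comm]

/-- The reflection of a point. -/
theorem act_conj (B : MZ) : -(starRingEnd ℂ) (act B wC) = act (!![-1, 0; 0, 1] * B * mb 0 1) wC := by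
  rw [act_row, act_row, row_mb, row_mb, row_mul, row_mul, map_div₀, ← CL.toC_star, ← CL.toC_star]
  simp [neg_div]

theorem sc_smul (hk : k ≠ 0) (g : MZ) : sc w k (k • g) = w g := by
  rw [sc, if_pos (show ∀ i j, k ∣ (k • g) i j from fun i j => dvd_mul_right k (g i j))]
  congr 1
  ext i j
  exact Int.mul_ediv_cancel_left _ hk

theorem sc_ne (h : sc w k Y ≠ 0) : ∃ g, Y = k • g := by
  rw [sc] at h
  split_ifs at h with e
  · exact ⟨Y.map (· / k), by
      ext i j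
      exact (Int.mul_ediv_cancel' (e i j)).symm⟩
  · exact absurd rfl h

theorem sc_scale (hk : k ≠ 0) (j : ℤ) (Y : MZ) : sc w (k * j) (k • Y) = sc w j Y := by
  rw [sc, sc]
  by_cases hj : ∀ a b, j ∣ Y a b
  · rw [if_pos hj, if_pos (show ∀ a b, k * j ∣ (k • Y) a b from
      fun a b => mul_dvd_mul_left k (hj a b))]
    congr 1
    ext a b
    obtain ⟨c, hc⟩ := hj a b
    show k * Y a b / (k * j) = Y a b / j
    by_cases j0 : j = 0
    · simp [j0]
    rw [hc, ← mul_assoc, Int.mul_ediv_cancel_left _ (mul_ne_zero hk j0),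
      Int.mul_ediv_cancel_left _ j0]
  · rw [if_neg hj, if_neg fun e => hj fun a b => (mul_dvd_mul_iff_left hk).1 (e a b)]

theorem d1_smul (h : ∀ i j, k ∣ Y i j) : ∃ g, Y = k • g :=
  ⟨Y.map (· / k), by
    ext i j
    exact (Int.mul_ediv_cancel' (h i j)).symm⟩

theorem sc_mul_left {c : O} (hk : k ≠ 0) (hg : IsCoprime g.det k) (hw : ∀ h, w (g * h) = c * w h)
    (Y : MZ) : sc w k (g * Y) = c * sc w k Y := by
  by_cases e : ∀ i j, k ∣ Y i j
  · obtain ⟨Z, rfl⟩ := d1_smul e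
    rw [Matrix.mul_smul, sc_smul hk, sc_smul hk, hw]
  · rw [sc, sc, if_neg e, mul_zero, if_neg fun d => e fun i j => ?_]
    obtain ⟨Z, hZ⟩ := d1_smul d
    have := congrArg (g.adjugate * ·) hZ
    simp only [← Matrix.mul_assoc, Matrix.adjugate_mul, Matrix.smul_mul, Matrix.one_mul,
      Matrix.mul_smul] at this
    exact hg.symm.dvd_of_dvd_mul_left ⟨_, congrFun (congrFun this i) j⟩

theorem sc_mul_right {c : O} (hk : k ≠ 0) (hg : IsCoprime g.det k) (hw : ∀ h, w (h * g) = c * w h)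
    (Y : MZ) : sc w k (Y * g) = c * sc w k Y := by
  by_cases e : ∀ i j, k ∣ Y i j
  · obtain ⟨Z, rfl⟩ := d1_smul e
    rw [Matrix.smul_mul, sc_smul hk, sc_smul hk, hw]
  · rw [sc, sc, if_neg e, mul_zero, if_neg fun d => e fun i j => ?_]
    obtain ⟨Z, hZ⟩ := d1_smul d
    have := congrArg (· * g.adjugate) hZ
    simp only [Matrix.mul_assoc, Matrix.mul_adjugate, Matrix.smul_mul, Matrix.mul_one,
      Matrix.mul_smul] at this
    exact hg.symm.dvd_of_dvd_mul_left ⟨_, congrFun (congrFun this i) j⟩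

theorem sc_add (hk : k ≠ 0) (hw : ∀ g, w (g + h) = w g) (Y : MZ) :
    sc w k (Y + k • h) = sc w k Y := by
  by_cases e : ∃ g, Y = k • g
  · obtain ⟨g, rfl⟩ := e
    rw [← smul_add, sc_smul hk, sc_smul hk, hw]
  · rw [not_not.1 fun z => e (sc_ne z)]
    by_contra z
    obtain ⟨g, hg⟩ := sc_ne z
    exact e ⟨g - h, by rw [smul_sub, ← hg, add_sub_cancel_right]⟩

theorem d1_unit : ∀ x : ZMod 21, nb x ≠ 0 ↔ ∃ y, x * y = 1 := by decide +kernel

theorem d1_six : ∀ x : ZMod 21, nb x ≠ 0 → nb x ^ 6 = 1 ∧ star (nb x) * nb x = 1 := by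
  decide +kernel

theorem nb_ne {a : ℤ} : nb a ≠ 0 ↔ IsCoprime a 21 := by
  rw [d1_unit, ← isUnit_iff_exists_inv, ZMod.coe_int_isUnit_iff_isCoprime, isCoprime_comm]
  rfl

theorem nb_six {a : ℤ} (h : IsCoprime a 21) : nb a ^ 6 = 1 ∧ star (nb a) * nb a = 1 := d1_six _ (nb_ne.2 h)

theorem nb_congr {a b : ℤ} (h : 21 ∣ a - b) : nb a = nb b := by
  rw [(ZMod.intCast_eq_intCast_iff_dvd_sub b a 21).2 h]

theorem w0_bd (g : MZ) : w0 g = 0 ∨ w0 g ^ 6 = 1 := by
  rw [w0]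
  split_ifs
  · exact or_iff_not_imp_left.2 fun e => (d1_six _ e).1
  · exact .inl rfl

theorem w0_ne (h : w0 g ≠ 0) : 21 ∣ g 1 0 ∧ IsCoprime (g 0 0) 21 := by
  rw [w0] at h
  split_ifs at h with e
  exacts [⟨e, nb_ne.1 h⟩, absurd rfl h]

theorem w0_neg (g : MZ) : w0 (-g) = w0 g := by
  simp only [w0, Matrix.neg_apply, dvd_neg, Int.cast_neg, nb_neg]

theorem w0_per (g h : MZ) (h0 : 21 ∣ h 0 0) (h2 : 21 ∣ h 1 0) : w0 (g + h) = w0 g := by
  simp only [w0, Matrix.add_apply, dvd_add_left h2]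
  rw [nb_congr (b := g 0 0) (by rwa [add_sub_cancel_left])]

theorem wh_per (g h : MZ) (h0 : 21 ∣ h 0 0) (h2 : 21 ∣ h 1 0) (h3 : 3 ∣ h 1 1) :
    wh (g + h) = wh g := by
  simp only [wh, Matrix.add_apply, dvd_add_left h2,
    dvd_add_left ((show (3 : ℤ) ∣ 21 by norm_num).trans h0)]
  rw [et_congr (b := g 1 1) (by rwa [add_sub_cancel_left]),
    ep_congr (t := 5 * g 0 0) (by omega)]

theorem d1_left {a b n : ℤ} (h : IsCoprime a n) : n ∣ a * b ↔ n ∣ b :=
  ⟨h.symm.dvd_of_dvd_mul_left, fun e => e.mul_left a⟩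

theorem d1_right {a b n : ℤ} (h : IsCoprime a n) : n ∣ b * a ↔ n ∣ b :=
  mul_comm a b ▸ d1_left h

theorem d1_diag (hc : 21 ∣ g 1 0) (hd : IsCoprime g.det 21) :
    IsCoprime (g 0 0) 21 ∧ IsCoprime (g 1 1) 21 := by
  obtain ⟨c, e⟩ := hc
  obtain ⟨a, b, k⟩ := hd
  rw [Matrix.det_fin_two, e] at k
  exact ⟨⟨a * g 1 1, b - a * g 0 1 * c, by linear_combination k⟩,
    a * g 0 0, b - a * g 0 1 * c, by linear_combination k⟩

theorem w0_mul_left (hc : 21 ∣ g 1 0) (hd : IsCoprime g.det 21) (h : MZ) :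
    w0 (g * h) = w0 g * w0 h := by
  have k := d1_diag hc hd
  simp only [w0, if_pos hc, Matrix.mul_apply, Fin.sum_univ_two, dvd_add_right (hc.mul_right _),
    d1_left k.2]
  split_ifs with e
  · rw [← nb_mul, ← Int.cast_mul]
    exact nb_congr (by simpa using e.mul_left _)
  · rw [mul_zero]

theorem w0_mul_right (hc : 21 ∣ g 1 0) (hd : IsCoprime g.det 21) (h : MZ) :
    w0 (h * g) = w0 g * w0 h := by
  have k := d1_diag hc hd
  simp only [w0, if_pos hc, Matrix.mul_apply, Fin.sum_univ_two, dvd_add_left (hc.mul_left _),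
    d1_right k.1]
  split_ifs with e
  · rw [← nb_mul, ← Int.cast_mul]
    exact nb_congr (by simpa [mul_comm (g 0 0)] using hc.mul_left _)
  · rw [mul_zero]

theorem d1_c3 : ∀ a b : ZMod 3, a * b = 1 → c3 a = c3 b := by decide

theorem d1_wh (hc : 21 ∣ g 1 0) (hd : g.det % 3 = 1) (h7 : ¬ 7 ∣ g.det) :
    IsCoprime (g 0 0) 21 ∧ IsCoprime (g 1 1) 21 ∧ IsCoprime (g 0 0) 3 ∧
      w0 g = et (g 1 1) * ep (g 0 0 : ℤ) := by
  have p7 : Prime (7 : ℤ) := Int.prime_iff_natAbs_prime.2 (by norm_num)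
  have k := d1_diag hc ((Int.prime_three.coprime_iff_not_dvd.2 (by omega)).symm.mul_right
    (p7.coprime_iff_not_dvd.2 h7).symm)
  refine ⟨k.1, k.2, k.1.of_isCoprime_of_dvd_right (by norm_num), ?_⟩
  rw [w0, if_pos hc, nb_int, et, et, d1_c3 _ (g 1 1 : ℤ)]
  rw [← Int.cast_mul, ← Int.cast_one, ZMod.intCast_eq_intCast_iff_dvd_sub]
  obtain ⟨c, e⟩ := hc
  rw [Matrix.det_fin_two, e, show g 0 1 * (21 * c) = 21 * (g 0 1 * c) by ring] at hd
  omega

theorem wh_mul_left (hc : 21 ∣ g 1 0) (hd : g.det % 3 = 1) (h7 : ¬ 7 ∣ g.det) (h : MZ) :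
    wh (g * h) = w0 g * wh h := by
  obtain ⟨k0, k1, k2, k3⟩ := d1_wh hc hd h7
  have t3 : (3 : ℤ) ∣ 21 := by norm_num
  have t7 : (7 : ℤ) ∣ 21 := by norm_num
  simp only [wh, k3, Matrix.mul_apply, Fin.sum_univ_two, dvd_add_right (hc.mul_right _),
    d1_left k1]
  by_cases e : 21 ∣ h 1 0
  · simp only [dvd_add_left ((t3.trans e).mul_left _), d1_left k2]
    split_ifs
    · rw [et_congr (b := g 1 1 * h 1 1) (by simpa using (t3.trans hc).mul_right _), et_mul,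
        ep_congr (t := g 0 0 * (5 * h 0 0)) (by
          rw [show ∀ a b : ℤ, 5 * (g 0 0 * a + b) - g 0 0 * (5 * a) = 5 * b from fun a b => by ring]
          exact ((t7.trans e).mul_left _).mul_left _), Int.cast_mul (g 0 0), ep_mul]
      push_cast
      ring
    · rw [mul_zero]
  · simp [e]

theorem wh_mul_right (hc : 21 ∣ g 1 0) (hd : g.det % 3 = 1) (h7 : ¬ 7 ∣ g.det) (h : MZ) :
    wh (h * g) = w0 g * wh h := by
  obtain ⟨k0, k1, k2, k3⟩ := d1_wh hc hd h7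
  have t3 : (3 : ℤ) ∣ 21 := by norm_num
  have t7 : (7 : ℤ) ∣ 21 := by norm_num
  simp only [wh, k3, Matrix.mul_apply, Fin.sum_univ_two, dvd_add_left (hc.mul_left _),
    d1_right k0, dvd_add_left ((t3.trans hc).mul_left _), d1_right k2]
  split_ifs with e
  · rw [et_congr (b := g 1 1 * h 1 1) (by simpa [mul_comm (g 1 1)] using (t3.trans e.2).mul_right _),
      et_mul, ep_congr (t := g 0 0 * (5 * h 0 0)) (by
        rw [show ∀ a b : ℤ, 5 * (a * g 0 0 + b) - g 0 0 * (5 * a) = 5 * b from fun a b => by ring]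
        exact ((t7.trans hc).mul_left _).mul_left _), Int.cast_mul (g 0 0), ep_mul]
    push_cast
    ring
  · rw [mul_zero]

theorem w0_gamma {a b c d : ℤ} (hd : a * d - b * (21 * c) = 1) :
    w0 !![a, b; 21 * c, d] = star (nb d) := by
  rw [w0, if_pos (by simp)]
  refine (nb_inv d a ?_).2.1
  have := congrArg (Int.cast : ℤ → ZMod 21) hd
  push_cast at this
  linear_combination this + (b * c : ZMod 21) * (by decide : (21 : ZMod 21) = 0)

theorem w0_ut (a k d : ℤ) : w0 !![a, k; 0, d] = nb a := if_pos (by simp)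

theorem Tri.w0 (h : Tri g) : w0 g = 1 := by
  rw [Y3.w0, if_pos h.c, nb_congr h.a, Int.cast_one, nb_one]

theorem Tri.mul (h : Tri g) (h' : Tri Y) : Tri (g * Y) := by
  constructor <;> rw [Matrix.mul_apply, Fin.sum_univ_two]
  · exact (h.c.mul_right _).add (h'.c.mul_left _)
  · exact (((h.a.mul_right (Y 0 0)).add h'.a).add (h'.c.mul_left (g 0 1))).trans
      (dvd_of_eq (by ring))

theorem Tri.w0_adj (h : Tri g) (hd : g.det % 3 = 1) : Y3.w0 g.adjugate = ep (g.det : ℤ) := by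
  rw [Y3.w0, Matrix.adjugate_fin_two, if_pos (by simpa using h.c), nb_congr (b := g.det), nb_int,
    et_congr (b := 1) (by omega), et_one, Int.cast_one, one_mul]
  refine ((h.c.mul_left (g 0 1)).sub (h.a.mul_right (g 1 1))).trans (dvd_of_eq ?_)
  simp [Matrix.det_fin_two]
  ring

theorem cop_star {M : ℕ} {u : O} (h : IsCoprime u (M : O)) : IsCoprime (star u) (M : O) := by
  simpa [starRingEnd_apply] using h.map (starRingEnd O)

theorem cop_norm {M : ℕ} {u : O} : IsCoprime u (M : O) ↔ IsCoprime (nm u) (M : ℤ) := by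
  refine ⟨fun h => ?_, fun ⟨a, b, e⟩ => ⟨a * star u, b, ?_⟩⟩
  · obtain ⟨a, b, e⟩ := h.mul_left (cop_star h)
    rw [CL.mul_star_self] at e
    exact ⟨a.re, b.re, by simpa [QuadraticAlgebra.re_one] using congrArg QuadraticAlgebra.re e⟩
  · rw [mul_assoc, mul_comm (star u), CL.mul_star_self]
    exact_mod_cast congrArg (Int.cast : ℤ → O) e

theorem cop_int {M : ℕ} : IsCoprime (k : O) (M : O) ↔ IsCoprime k (M : ℤ) := by
  rw [cop_norm, CL.nm_int, IsCoprime.pow_left_iff two_pos]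

theorem norm_seven (u : O) : ((nm u : ℤ) : ZMod 7) = r7 u * r7 (star u) := by
  rw [← r7_mul, CL.mul_star_self, r7_int]

theorem norm_three {u : O} (h : ¬ 3 ∣ nm u) : nm u % 3 = 1 := by
  rw [CL.three_dvd_nm] at h
  obtain ⟨c, e | e⟩ : ∃ c, u.re + u.im = 3 * c + 1 ∨ u.re + u.im = 3 * c - 1 :=
    ⟨(u.re + u.im + 1) / 3, by omega⟩
  · rw [show nm u = 1 + 3 * (3 * c ^ 2 + 2 * c - u.re * u.im) by
      rw [nm]; linear_combination (u.re + u.im + 3 * c + 1) * e]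
    omega
  · rw [show nm u = 1 + 3 * (3 * c ^ 2 - 2 * c - u.re * u.im) by
      rw [nm]; linear_combination (u.re + u.im + 3 * c - 1) * e]
    omega

theorem d1_cop {m t c : ℤ} (hm : m ≠ 0)
    (h : ∀ l : ℕ, l.Prime → (l : ℤ) ∣ m → (l : ℤ) ∣ t → ¬ (l : ℤ) ∣ c) :
    ∃ j : ℤ, IsCoprime m (t + c * j) := by
  refine ⟨∏ l ∈ m.natAbs.primeFactors.filter (fun l : ℕ => ¬ (l : ℤ) ∣ t), (l : ℤ), ?_⟩
  rw [Int.isCoprime_iff_nat_coprime]
  refine Nat.coprime_of_dvd fun l hl h1 h2 => ?_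
  rw [← Int.natCast_dvd] at h1 h2
  have hp := Nat.prime_iff_prime_int.1 hl
  by_cases ht : (l : ℤ) ∣ t
  · rcases hp.dvd_or_dvd ((dvd_add_right ht).1 h2) with h4 | h4
    · exact h l hl h1 ht h4
    · obtain ⟨l', hl', h5⟩ := (Prime.dvd_finsetProd_iff hp _).1 h4
      rw [mem_filter, Nat.mem_primeFactors] at hl'
      have := (Nat.prime_dvd_prime_iff_eq hl hl'.1.1).1 (Int.natCast_dvd_natCast.1 h5)
      exact hl'.2 (this ▸ ht)
  · exact ht ((dvd_add_left (Dvd.dvd.mul_left (dvd_prod_of_mem _ (mem_filter.2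
      ⟨Nat.mem_primeFactors.2 ⟨hl, Int.natCast_dvd.1 h1, Int.natAbs_ne_zero.2 hm⟩, ht⟩)) c)).1 h2)

theorem d1_sl {M : MZ} {n : ℤ} (hn : n ≠ 0) (h : n ∣ M.det - 1) :
    ∃ σ : MZ, σ.det = 1 ∧ ∀ i j, n ∣ σ i j - M i j := by
  rw [Matrix.det_fin_two] at h
  obtain ⟨c, c0, e, hc⟩ : ∃ c : ℤ, c ≠ 0 ∧ ∃ e, c = M 1 0 + n * e := by
    by_cases h0 : M 1 0 = 0
    · exact ⟨n, hn, 1, by simp [h0]⟩
    · exact ⟨M 1 0, h0, 0, by simp⟩
  obtain ⟨j, u, v, huv⟩ := d1_cop (t := M 1 1) (c := n) c0 fun l hl h1 h2 h3 => by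
    have h4 : (l : ℤ) ∣ M 1 0 := (dvd_add_left (h3.mul_right e)).1 (hc ▸ h1)
    have h5 := (dvd_sub (h2.mul_left (M 0 0)) (h4.mul_left (M 0 1))).sub (h3.trans h)
    rw [sub_sub_cancel] at h5
    exact (Nat.prime_iff_prime_int.1 hl).not_dvd_one h5
  obtain ⟨f, hf⟩ := h
  subst hc
  refine ⟨!![v + (u * M 0 0 + v * M 0 1) * (M 1 0 + n * e),
    -u + (u * M 0 0 + v * M 0 1) * (M 1 1 + n * j); M 1 0 + n * e, M 1 1 + n * j], ?_,
    fun i j' => ?_⟩
  · rw [Matrix.det_fin_two_of]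
    linear_combination huv
  · fin_cases i <;> fin_cases j'
    · exact ⟨-v * (f + M 0 0 * j - M 0 1 * e), by
        simp
        linear_combination M 0 0 * huv - v * hf⟩
    · exact ⟨u * (f + M 0 0 * j - M 0 1 * e), by
        simp
        linear_combination M 0 1 * huv + u * hf⟩
    · simp
    · simp

theorem exists_isS {M : ℕ} (hM : 0 < M) {u : O} (h : IsCoprime u (M : O)) : ∃ S, IsS M u S := by
  obtain ⟨a, b, e⟩ := h
  have e1 := congrArg QuadraticAlgebra.re e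
  simp [QuadraticAlgebra.re_one] at e1
  obtain ⟨S, h1, h2⟩ := d1_sl (M := !![u.im, u.re; -a.re, -a.im]) (n := M) (by omega)
    ⟨-b.re, by rw [Matrix.det_fin_two_of]; linear_combination e1⟩
  exact ⟨S, h1, CL.nat_dvd.2 ⟨h2 0 1, h2 0 0⟩⟩

theorem bs_spec {M : ℕ} (hM : 0 < M) {u : O} (h : IsCoprime u (M : O)) : IsS M u (bs M u) := by
  rw [bs, dif_pos (exists_isS hM h)]
  exact (exists_isS hM h).choose_spec

/-- A matrix whose first row agrees with that of a basis. -/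
theorem IsS.eq {M : ℕ} {u : O} {S X : MZ} (h : IsS M u S) (e : (M : O) ∣ row X 0 - u) :
    ∃ g : MZ, X = g * S ∧ (M : ℤ) ∣ g 0 0 - 1 ∧ (M : ℤ) ∣ g 0 1 := by
  obtain ⟨⟨p, hp⟩, q, hq⟩ := CL.nat_dvd.1 (e.sub h.2)
  have d := h.1
  refine ⟨X * S.adjugate, by rw [mul_assoc, Matrix.adjugate_mul, d, one_smul, mul_one], ?_⟩
  rw [Matrix.det_fin_two] at d
  simp [row] at hp hq
  simp only [Matrix.mul_apply, Fin.sum_univ_two, Matrix.adjugate_fin_two, Matrix.of_apply,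
    Matrix.cons_val]
  exact ⟨⟨q * S 1 1 - p * S 1 0, by linear_combination d + S 1 1 * hq - S 1 0 * hp⟩,
    p * S 0 0 - q * S 0 1, by linear_combination S 0 0 * hp - S 0 1 * hq⟩

theorem IsS.unit {M : ℕ} {u : O} {S : MZ} (h : IsS M u S) : IsCoprime (row S 0) (row S 1) := by
  have d := h.1
  rw [Matrix.det_fin_two] at d
  refine ⟨(-S 1 0 : ℤ), (S 0 0 : ℤ), ?_⟩
  ext <;> simp [row, QuadraticAlgebra.re_one, QuadraticAlgebra.im_one] <;> linarith

theorem red_mem {M : ℕ} (hM : 0 < M) (u : O) : red M u ∈ box M := by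
  have m0 : (0 : ℤ) < M := by exact_mod_cast hM
  refine mem_image.2 ⟨((u.re % M).toNat, (u.im % M).toNat), mem_product.2
    ⟨mem_range.2 ((Int.toNat_lt' hM).2 (Int.emod_lt_of_pos _ m0)),
      mem_range.2 ((Int.toNat_lt' hM).2 (Int.emod_lt_of_pos _ m0))⟩, ?_⟩
  simp only [red, Int.toNat_of_nonneg (Int.emod_nonneg _ m0.ne')]

theorem red_dvd (M : ℕ) (u : O) : (M : O) ∣ red M u - u :=
  ⟨⟨-(u.re / M), -(u.im / M)⟩, by ext <;> simp [red, Int.emod_def]⟩

theorem box_rep {M : ℕ} (hM : 0 < M) : EW.IsRep M (box M) := EW.isRep_box hM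

/-- The Chinese remainder theorem. -/
theorem crt {m n : ℕ} (h : m.Coprime n) (a b : O) : ∃ t : O, (m : O) ∣ t - a ∧ (n : O) ∣ t - b := by
  obtain ⟨r, s, e⟩ : IsCoprime (m : O) (n : O) := Nat.Coprime.cast h
  exact ⟨a * s * n + b * r * m, ⟨(b - a) * r, by linear_combination a * e⟩,
    ⟨(a - b) * s, by linear_combination b * e⟩⟩

end Pool.Agent.Lib.MP_696deb_nt.Y3
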