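import Pool.Agent.Lib.MP_696deb_nt.Y3.B0
import Pool.Agent.Lib.MP_696deb_nt.Y3.D1
import Pool.Agent.Lib.MP_696deb_nt.ED.B1
import Pool.Agent.Lib.MP_696deb_nt.CR.W

/-! Elementary properties of the reduced pairs. -/

set_option autoImplicit false

open scoped Classical

namespace Pool.Agent.Lib.MP_696deb_nt.Y3

open CL (O nm om Per)
open EV.D (kN kr)

variable {d d1 D : ℤ} {n n1 q : ℕ} {φ : O → O} {a b : O}

theorem b1_shape (h : d = 1 ∨ EV.D.Fd d) : ¬ 3 ∣ d ∧ ∃ m : ℤ, Squarefree m ∧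
    (d = m ∧ m % 4 = 1 ∨ d = 4 * m ∧ (m % 4 = 2 ∨ m % 4 = 3)) := by
  obtain rfl | ⟨⟨h1, h2, -⟩ | ⟨m, e, h1, h2⟩, h3⟩ := h
  exacts [⟨by norm_num, 1, squarefree_one, .inl ⟨rfl, rfl⟩⟩, ⟨h3, d, h1, .inl ⟨rfl, h2⟩⟩,
    ⟨h3, m, h1, .inr ⟨e, h2⟩⟩]

theorem b1_mk {m : ℤ} (h3 : ¬ 3 ∣ d) (h1 : Squarefree m)
    (h : d = m ∧ m % 4 = 1 ∨ d = 4 * m ∧ (m % 4 = 2 ∨ m % 4 = 3)) : d = 1 ∨ EV.D.Fd d := by
  obtain ⟨rfl, h⟩ | ⟨e, h⟩ := h
  exacts [(em _).imp_right fun k => ⟨.inl ⟨h1, h, k⟩, h3⟩, .inr ⟨.inr ⟨m, e, h1, h⟩, h3⟩]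

theorem b1_sf {u v x y : ℤ} (hu : Squarefree u) (hv : Squarefree v) (hx : x ≠ 0)
    (e : u * x ^ 2 = v * y ^ 2) : u = v := by
  obtain ⟨x', y', c, e1, e2⟩ := Int.exists_gcd_one (Int.gcd_pos_of_ne_zero_left y hx)
  have g : (x.gcd y : ℤ) ≠ 0 := fun k => hx (by rw [e1, k, mul_zero])
  have c' := Int.isCoprime_iff_gcd_eq_one.2 c
  have e3 : u * x' ^ 2 = v * y' ^ 2 := mul_right_cancel₀ (pow_ne_zero 2 g) (by
    rw [mul_assoc, mul_assoc, ← mul_pow, ← mul_pow, ← e1, ← e2, e])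
  have h1 := hv x' (pow_two x' ▸ c'.pow.dvd_of_dvd_mul_right ⟨u, by rw [← e3, mul_comm]⟩)
  have h2 := hu y' (pow_two y' ▸ c'.symm.pow.dvd_of_dvd_mul_right ⟨v, by rw [e3, mul_comm]⟩)
  rwa [Int.isUnit_sq h1, Int.isUnit_sq h2, mul_one, mul_one] at e3

theorem b1_uniq {x y : ℤ} (h : d = 1 ∨ EV.D.Fd d) (h1 : d1 = 1 ∨ EV.D.Fd d1) (hx : x ≠ 0)
    (e : d * x ^ 2 = d1 * y ^ 2) : d = d1 := by
  obtain ⟨-, m, s, ⟨rfl, k⟩ | ⟨rfl, k⟩⟩ := b1_shape h <;>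
    obtain ⟨-, m1, s1, ⟨rfl, k1⟩ | ⟨rfl, k1⟩⟩ := b1_shape h1
  · exact b1_sf s s1 hx e
  · have := b1_sf (y := 2 * y) s s1 hx (by linear_combination e)
    omega
  · have := b1_sf (y := y) s s1 (mul_ne_zero two_ne_zero hx) (by linear_combination e)
    omega
  · rw [b1_sf (y := 2 * y) s s1 (mul_ne_zero two_ne_zero hx) (by linear_combination e)]

theorem b1_twin (h : d = 1 ∨ EV.D.Fd d) : ∃ e, (e = 1 ∨ EV.D.Fd e) ∧
    (e = -7 * d ∧ ¬ 7 ∣ d ∨ d = -7 * e ∧ ¬ 7 ∣ e) := by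
  obtain ⟨h3, m, s, k⟩ := b1_shape h
  have p : Prime (-7 : ℤ) := (Int.prime_ofNat_iff.2 Nat.prime_seven).neg
  by_cases c : -7 ∣ m
  · obtain ⟨u, rfl⟩ := c
    have n : ¬ 7 ∣ u := fun ⟨v, e⟩ => by
      have := s 7 ⟨-v, by rw [e]; ring⟩
      norm_num [Int.isUnit_iff] at this
    obtain ⟨e, k⟩ | ⟨e, k⟩ := k
    · exact ⟨u, b1_mk (by omega) s.of_mul_right (.inl ⟨rfl, by omega⟩), .inr ⟨e, n⟩⟩
    · exact ⟨4 * u, b1_mk (by omega) s.of_mul_right (.inr ⟨rfl, by omega⟩),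
        .inr ⟨by omega, by omega⟩⟩
  · refine ⟨-7 * d, b1_mk (m := -7 * m) (by omega) (squarefree_mul_iff.2
      ⟨(p.coprime_iff_not_dvd.2 c).isRelPrime, p.squarefree, s⟩) (by omega), .inl ⟨rfl, ?_⟩⟩
    rw [neg_dvd] at c
    omega

theorem kr_one_left (m : ℕ) : kr 1 m = 1 := (if_pos rfl).trans (jacobiSym.one_right _)

theorem exists_relD (hD : D ≠ 0) : ∃ d, (d = 1 ∨ EV.D.Fd d) ∧ RelD D d := by
  obtain ⟨m, s, h3, c, c0, e⟩ := CL.exists_rel hD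
  have h4 : ¬ 4 ∣ m := fun k => by
    have := s 2 k
    norm_num [Int.isUnit_iff] at this
  by_cases k : m % 4 = 1
  · exact ⟨m, b1_mk h3 s (.inl ⟨rfl, k⟩), 1, c, one_ne_zero, c0, by simpa using e⟩
  · exact ⟨4 * m, b1_mk (by omega) s (.inr ⟨rfl, by omega⟩), 2, c, two_ne_zero, c0,
      e.imp (fun e => by rw [e]; ring) fun e => by rw [e]; ring⟩

theorem exists_cf (hn : n ≠ 0) :
    ∃ m t : ℕ, m ≠ 0 ∧ (∀ q : ℕ, m.factorization q < 3) ∧ t ≠ 0 ∧ n = m * t ^ 3 := by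
  induction n using Nat.strong_induction_on with
  | _ n ih =>
    by_cases h : ∀ q : ℕ, n.factorization q < 3
    · exact ⟨n, 1, hn, h, one_ne_zero, by rw [one_pow, mul_one]⟩
    obtain ⟨q, hq⟩ := not_forall.1 h
    have hp : q.Prime := by_contra fun h1 =>
      hq (by rw [Nat.factorization_eq_zero_of_not_prime n h1]; norm_num)
    obtain ⟨b, hb⟩ := (hp.pow_dvd_iff_le_factorization hn).2 (not_lt.1 hq)
    have b0 : b ≠ 0 := fun h1 => hn (by rw [hb, h1, mul_zero])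
    obtain ⟨m, t, m0, h1, t0, e⟩ := ih b (hb ▸ lt_mul_of_one_lt_left (Nat.pos_of_ne_zero b0)
      (one_lt_pow₀ hp.one_lt three_ne_zero)) b0
    exact ⟨m, q * t, m0, h1, mul_ne_zero hp.ne_zero t0, by rw [hb, e]; ring⟩

theorem b1_zero (g : CL.Gch (3 * n) φ) (k : ¬ IsCoprime a ((3 * n : ℕ) : O)) : φ a = 0 := by
  rw [cop_norm, Int.isCoprime_iff_gcd_eq_one] at k
  obtain ⟨p, hp, h1, h2⟩ := Nat.Prime.not_coprime_iff_dvd.1 k
  exact g.zero p hp (by exact_mod_cast Int.natCast_dvd.2 h2) a (Int.natCast_dvd.2 h1)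

theorem b1_int (g : CL.Gch (3 * n) φ) (k : ℕ) : IsCoprime (k : ℤ) (3 * n) → φ k = et k := by
  induction k using induction_on_primes with
  | zero =>
    intro _
    rw [g.zero 3 Nat.prime_three g.three _ (by decide), et_zero (by simp), Int.cast_zero]
  | one => exact fun _ => by rw [Nat.cast_one, Nat.cast_one, g.one, et_one, Int.cast_one]
  | prime_mul p k hp ih =>
    intro c
    rw [Nat.cast_mul] at c
    have h1 := (Nat.prime_iff_prime_int.1 hp).coprime_iff_not_dvd.1 c.of_mul_left_left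
    have h2 : ¬ (3 : ℤ) ∣ p := fun e => h1 (by
      rw [← (Nat.prime_dvd_prime_iff_eq Nat.prime_three hp).1 (Int.natCast_dvd_natCast.1 e)]
      exact g.three)
    have h3 : CL.qs p = et p * p := by
      unfold CL.qs
      split_ifs with l
      · rw [et_congr (b := 1) (by omega), et_one, one_mul]
      · rw [et_congr (b := -1) (by omega), et_neg, et_one, neg_one_mul]
    have h4 := g.int p hp h1
    rw [h3, Int.cast_mul, Int.cast_natCast] at h4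
    rw [Nat.cast_mul, Nat.cast_mul, g.mul, et_mul, ih c.of_mul_left_right,
      mul_right_cancel₀ (Nat.cast_ne_zero.2 hp.ne_zero) h4, Int.cast_mul]

namespace Red

variable (h : Red d n)
include h

theorem d_ne : d ≠ 0 := h.fd.elim (fun e => e ▸ one_ne_zero) fun f => f.fund.ne

theorem three : ¬ 3 ∣ d := (b1_shape h.fd).1

/-- An odd prime divides the discriminant at most once. -/
theorem sq (hq : q.Prime) (h2 : q ≠ 2) : ¬ (q : ℤ) ^ 2 ∣ d := fun k => by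
  have p := Nat.prime_iff_prime_int.1 hq
  have c : IsCoprime (q : ℤ) 2 :=
    Nat.isCoprime_iff_coprime.2 ((Nat.coprime_primes hq Nat.prime_two).2 h2)
  obtain ⟨-, m, s, ⟨rfl, -⟩ | ⟨rfl, -⟩⟩ := b1_shape h.fd
  exacts [p.not_isUnit (s _ (pow_two (q : ℤ) ▸ k)),
    p.not_isUnit (s _ (pow_two (q : ℤ) ▸ (c.pow (n := 2)).dvd_of_dvd_mul_left k))]

theorem kr_mul (k m : ℕ) : kr d (k * m) = kr d k * kr d m :=
  h.fd.elim (fun e => by simp only [e, kr_one_left, mul_one]) fun f => EV.D.kr_mul f.fund k m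

theorem kr_odd {m : ℕ} (k : Odd m) : kr d m = jacobiSym d m :=
  h.fd.elim (fun e => by rw [e, kr_one_left, jacobiSym.one_left]) fun f => EV.D.kr_odd f.fund k

theorem kN_mul (a b : O) : kN d (a * b) = kN d a * kN d b := by
  rw [kN, EV.g1_nm_mul, h.kr_mul, kN, kN]

theorem kN_per (k : (d : O) ∣ a - b) : kN d a = kN d b :=
  h.fd.elim (fun e => by simp only [e, kN, kr_one_left]) fun f => EV.D.kN_per f.fund k

theorem kN_zero : kN d a = 0 ↔ ¬ IsCoprime a (d : O) :=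
  h.fd.elim (fun e => by simp [e, kN, kr_one_left, isCoprime_one_right]) EV.D.kN_zero

theorem kN_sq (k : IsCoprime a (d : O)) : kN d a * kN d a = 1 :=
  h.fd.elim (fun e => by simp only [e, kN, kr_one_left, mul_one]) fun f => EV.D.kN_sq f k

theorem kN_int {k : ℤ} (e : IsCoprime k d) : kN d (k : O) = 1 :=
  h.fd.elim (fun e => by simp only [e, kN, kr_one_left]) fun f => EV.D.kN_int f.fund e

theorem exists_phi : ∃ φ, EV.Phi n φ :=
  (EW.final ⟨h.ne, h.cf⟩).imp fun _ k => ⟨k.1, k.2.1, k.2.2.1⟩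

theorem exists_cmp : ∃ d1 n1, Cmp d n d1 n1 := by
  obtain ⟨m, t, m0, h1, -, e⟩ := exists_cf (n := 49 * n ^ 2) (by have := h.ne; positivity)
  obtain ⟨u, f, k⟩ := b1_twin h.fd
  exact ⟨u, m, h, ⟨m0, h1, f⟩, k.elim (fun k => ⟨1, by rw [k.1]; ring⟩)
    fun k => ⟨7, by rw [k.1]; ring⟩, t, e.symm⟩

variable (hφ : EV.Phi n φ)
include hφ

theorem qt_mul (a b : O) : qt d φ (a * b) = qt d φ a * qt d φ b := by
  rw [qt, qt, qt, hφ.gch.mul, h.kN_mul, Int.cast_mul, mul_mul_mul_comm]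

theorem qt_one : qt d φ 1 = 1 := by rw [qt, hφ.gch.one, EV.D.kN_one, Int.cast_one, mul_one]

theorem qt_per : Per (9 * n * d.natAbs) (qt d φ) := fun a c => by
  rw [qt, qt, hφ.per' (b := a) dvd_rfl ⟨d.natAbs * c, by rw [Nat.cast_mul (9 * n)]; ring⟩,
    h.kN_per (b := a) (EV.D.b1_dvd.1 ⟨(9 * n : ℕ) * c, by rw [Nat.cast_mul (9 * n)]; ring⟩)]

theorem qt_star (a : O) : qt d φ (star a) = star (qt d φ a) := by
  rw [qt, qt, hφ.gch.conj, star_mul', star_intCast, kN, kN, EV.nm, EV.nm, CL.nm_star]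

theorem qt_le (a : O) : nm (qt d φ a) ≤ 1 := by
  have := hφ.gch.bd a
  rw [qt, CL.nm_mul, CL.nm_int, kN]
  rcases EV.D.kr_cases d (EV.nm a) with e | e | e <;> simp [e, this]

theorem qt_norm (a : O) : ‖CL.toC (qt d φ a)‖ ≤ 1 := by
  rw [← sq_le_one_iff₀ (norm_nonneg _), Complex.sq_norm, CL.normSq_toC]
  exact_mod_cast h.qt_le hφ a

theorem qt_om : qt d φ om * om = 1 := by
  rw [qt, EV.D.kN_unit (.of_mul_eq_one (om * om) (by decide)), Int.cast_one, mul_one, hφ.gch.unit]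

theorem qt_neg (a : O) : qt d φ (-a) = -qt d φ a := by
  rw [← neg_one_mul a, h.qt_mul hφ, qt, EV.D.kN_unit isUnit_one.neg, hφ.gch.neg, Int.cast_one,
    mul_one, neg_one_mul]

theorem qt_zero (k : ¬ IsCoprime a ((3 * n * d.natAbs : ℕ) : O)) : qt d φ a = 0 := by
  rw [Nat.cast_mul, IsCoprime.mul_right_iff, not_and_or, EV.D.b1_cop] at k
  rcases k with k | k
  · rw [qt, b1_zero hφ.gch k, zero_mul]
  · rw [qt, h.kN_zero.2 k, Int.cast_zero, mul_zero]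

theorem qt_six (k : IsCoprime a ((3 * n * d.natAbs : ℕ) : O)) :
    qt d φ a ^ 6 = 1 ∧ qt d φ a * star (qt d φ a) = 1 := by
  rw [Nat.cast_mul, IsCoprime.mul_right_iff, EV.D.b1_cop] at k
  obtain ⟨h1, h2⟩ := hφ.unit h.ne k.1
  have h3 : (kN d a : O) * kN d a = 1 := by rw [← Int.cast_mul, h.kN_sq k.2, Int.cast_one]
  rw [qt, star_mul', star_intCast, mul_mul_mul_comm, h2, h3, mul_pow, h1,
    show (kN d a : O) ^ 6 = (kN d a * kN d a) ^ 3 by ring, h3]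
  exact ⟨by simp, mul_one _⟩

theorem qt_int {k : ℤ} (e : IsCoprime k (3 * n * d)) : qt d φ k = et k := by
  have c := e.of_mul_right_left
  rw [qt, h.kN_int e.of_mul_right_right, Int.cast_one, mul_one]
  obtain ⟨m, rfl | rfl⟩ := k.eq_nat_or_neg
  · exact_mod_cast b1_int hφ.gch m c
  · rw [et_neg, Int.cast_neg, Int.cast_neg, ← neg_one_mul, hφ.gch.mul, hφ.gch.neg,
      Int.cast_natCast, b1_int hφ.gch m (by simpa using c.neg_left), neg_one_mul]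

end Red

namespace Cmp

variable (h : Cmp d n d1 n1)
include h

theorem b1_val : ∃ t : ℕ, t ≠ 0 ∧ n1 * t ^ 3 = 49 * n ^ 2 ∧ ∀ q : ℕ, n1.factorization q +
    3 * t.factorization q = 2 * Nat.factorization 7 q + 2 * n.factorization q := by
  obtain ⟨t, e⟩ := h.cb
  have n0 := h.red.ne
  have t0 : t ≠ 0 := fun k => (show 49 * n ^ 2 ≠ 0 by positivity) (by rw [← e, k]; simp)
  refine ⟨t, t0, e, fun q => ?_⟩
  have := congrArg (fun m : ℕ => m.factorization q) e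
  simpa only [Nat.factorization_mul h.red1.ne (pow_ne_zero 3 t0), show 49 = 7 ^ 2 from rfl,
    Nat.factorization_mul (pow_ne_zero 2 (show 7 ≠ 0 by norm_num)) (pow_ne_zero 2 n0),
    Nat.factorization_pow, Finsupp.add_apply, Finsupp.smul_apply, smul_eq_mul] using this

theorem dvd_n (hq : q.Prime) (h7 : q ≠ 7) : q ∣ n1 ↔ q ∣ n := by
  obtain ⟨t, -, -, e⟩ := h.b1_val
  have h1 := e q
  have h2 := h.red.cf q
  have h3 := h.red1.cf q
  rw [Nat.factorization_eq_zero_of_not_dvd (n := 7)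
    (mt (Nat.prime_dvd_prime_iff_eq hq Nat.prime_seven).1 h7)] at h1
  rw [hq.dvd_iff_one_le_factorization h.red.ne, hq.dvd_iff_one_le_factorization h.red1.ne]
  omega

theorem b1_cases : d1 = -7 * d ∧ ¬ 7 ∣ d ∨ d = -7 * d1 ∧ ¬ 7 ∣ d1 := by
  obtain ⟨s, e⟩ := h.sq
  obtain ⟨u, f, k⟩ := b1_twin h.red.fd
  rcases k with k | k
  · exact .inl (b1_uniq (y := s) f h.red1.fd one_ne_zero (by linear_combination k.1 - e) ▸ k)
  · exact .inr (b1_uniq (x := 7) (y := s) f h.red1.fd (by norm_num)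
      (by linear_combination 7 * k.1 - e) ▸ k)

theorem dvd_d (hq : q.Prime) (h7 : q ≠ 7) : (q : ℤ) ∣ d1 ↔ (q : ℤ) ∣ d := by
  have c : IsCoprime (q : ℤ) (-7) := IsCoprime.neg_right
    (Nat.isCoprime_iff_coprime.2 ((Nat.coprime_primes hq Nat.prime_seven).2 h7))
  obtain ⟨e, -⟩ | ⟨e, -⟩ := h.b1_cases <;> rw [e]
  exacts [d1_left c.symm, (d1_left c.symm).symm]

theorem cases : d1 = -7 * d ∧ ¬ 7 ∣ d ∨ d = -7 * d1 ∧ ¬ 7 ∣ d1 := h.b1_cases

theorem rel : RelD (-7 * d) d1 := by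
  obtain ⟨e, -⟩ | ⟨e, -⟩ := h.cases
  exacts [⟨1, 1, one_ne_zero, one_ne_zero, .inl (by rw [e])⟩,
    ⟨1, 7, one_ne_zero, by norm_num, .inl (by rw [e]; ring)⟩]

/-- The relation is symmetric. -/
theorem symm : Cmp d1 n1 d n := by
  obtain ⟨t, t0, e, v⟩ := h.b1_val
  have n0 := h.red.ne
  obtain ⟨u, hu⟩ : t ^ 2 ∣ 7 ^ 2 * n := (Nat.factorization_le_iff_dvd (pow_ne_zero 2 t0)
    (by positivity)).1 fun q => by
      have h1 := v q
      have h2 := h.red.cf q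
      have h3 := Nat.prime_seven.squarefree.natFactorization_le_one q
      simp only [Nat.factorization_mul (pow_ne_zero 2 (show 7 ≠ 0 by norm_num)) n0,
        Nat.factorization_pow, Finsupp.add_apply, Finsupp.smul_apply, smul_eq_mul]
      omega
  refine ⟨h.red1, h.red, h.cases.elim (fun k => ⟨7, by rw [k.1]; ring⟩)
    fun k => ⟨1, by rw [k.1]; ring⟩, u, mul_right_cancel₀ (pow_ne_zero 6 t0) ?_⟩
  calc n * u ^ 3 * t ^ 6 = n * (t ^ 2 * u) ^ 3 := by ring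
    _ = 49 * (49 * n ^ 2) ^ 2 := by rw [← hu]; ring
    _ = _ := by rw [← e]; ring

end Cmp

end Pool.Agent.Lib.MP_696deb_nt.Y3
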