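import Pool.Agent.Lib.MP_696deb_nt.EV.G1
import Pool.Agent.Lib.MP_696deb_nt.EW.K3

/-! Dirichlet series of periodic functions on the Eisenstein integers. -/

set_option autoImplicit false

open scoped Classical NNReal ComplexConjugate Real
open Finset Filter Topology

namespace Pool.Agent.Lib.MP_696deb_nt.Y3.TL

open EV
open EW (IsRep)

/-- The series of a function. -/
noncomputable def DS (g : O → ℂ) (s : ℂ) : ℂ :=
  ∑' γ : O, g γ * conj (CL.toC γ) / (nm γ : ℂ) ^ s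

/-- The double series with a weight. -/
noncomputable def DD (W g h : O → ℂ) (s : ℂ) : ℂ :=
  ∑' p : O × O, W (p.1 * p.2) * (g p.1 * conj (CL.toC p.1)) * (h p.2 * CL.toC p.2) /
    (nm (p.1 * p.2) : ℂ) ^ s

/-- Functions on a half plane that extend to entire functions. -/
def Ent (F : ℂ → ℂ) : Prop := ∃ L : ℂ → ℂ, Differentiable ℂ L ∧ ∀ s : ℂ, 2 < s.re → L s = F s

/-- The value at one of the extension. -/
noncomputable def val1 (F : ℂ → ℂ) : ℂ := if h : Ent F then h.choose 1 else 0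

/-- Periodic functions. -/
def Pd {β : Type} (n : O) (g : O → β) : Prop := ∀ a b, n ∣ a - b → g a = g b

/-- The central value. -/
noncomputable def Lc (g : O → ℂ) : ℂ := val1 (DS g)

theorem Pd.mono {β : Type} {n n' : O} {g : O → β} (h : Pd n g) (k : n ∣ n') : Pd n' g :=
  fun a b e => h a b (k.trans e)

theorem Pd.per {β : Type} {n : ℕ} {g : O → β} (h : Pd n g) : Per n g :=
  fun _ γ => h _ _ ⟨γ, add_sub_cancel_left _ _⟩

theorem nm_cast (a : O) : (nm a : ℤ) = CL.nm a := Int.natAbs_of_nonneg (CL.nm_nonneg a)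

theorem nm_real (a : O) : (nm a : ℝ) = (CL.nm a : ℝ) := by exact_mod_cast nm_cast a

theorem nm_star (a : O) : nm (star a) = nm a := by rw [nm, nm, CL.nm_star]

theorem mem_reps {m : ℕ} {y : O} : y ∈ CL.reps m ↔ nm y = m := by
  rw [CL.mem_reps, ← nm_cast, Int.natCast_inj]

theorem val1_eq {F L : ℂ → ℂ} (hL : Differentiable ℂ L) (h : ∀ s : ℂ, 2 < s.re → L s = F s) :
    val1 F = L 1 := by
  have k : Ent F := ⟨L, hL, h⟩
  rw [val1, dif_pos k]
  refine congrFun (AnalyticOnNhd.eq_of_eventuallyEq (fun z _ => k.choose_spec.1.analyticAt z)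
    (fun z _ => hL.analyticAt z) (z₀ := 3) ?_) 1
  filter_upwards [(isOpen_lt continuous_const Complex.continuous_re).mem_nhds
    (show (3 : ℂ) ∈ {s : ℂ | (2 : ℝ) < s.re} by norm_num)] with s hs
  rw [k.choose_spec.2 s hs, h s hs]

theorem val1_mul {F Λ c : ℂ → ℂ} (hF : Ent F) (hΛ : Differentiable ℂ Λ)
    (hc : DifferentiableOn ℂ c {s | 0 < s.re}) {σ : ℝ} (h : ∀ s : ℂ, σ < s.re → Λ s = c s * F s) :
    Λ 1 = c 1 * val1 F := by
  obtain ⟨L, hL, k⟩ := hF
  rw [val1_eq hL k]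
  have o : IsOpen {s : ℂ | 0 < s.re} := isOpen_lt continuous_const Complex.continuous_re
  have m : ((max σ 2 + 1 : ℝ) : ℂ) ∈ {s : ℂ | max σ 2 < s.re} := lt_add_one (max σ 2)
  refine AnalyticOnNhd.eqOn_of_preconnected_of_eventuallyEq (f := Λ) (g := fun s => c s * L s)
    (hΛ.differentiableOn.analyticOnNhd o) ((hc.mul hL.differentiableOn).analyticOnNhd o)
    (convex_halfSpace_re_gt 0).isPreconnected (z₀ := (max σ 2 + 1 : ℝ))
    (lt_trans (lt_of_lt_of_le two_pos (le_max_right σ 2)) m) ?_ (show (0 : ℝ) < (1 : ℂ).re by simp)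
  filter_upwards [(isOpen_lt continuous_const Complex.continuous_re).mem_nhds m] with s hs
  rw [h s ((le_max_left _ _).trans_lt hs), k s ((le_max_right _ _).trans_lt hs)]

theorem Pd.bd {n : O} (hn : n ≠ 0) {g : O → ℂ} (hg : Pd n g) : ∃ K : ℝ, 0 < K ∧ ∀ a, ‖g a‖ ≤ K := by
  obtain ⟨R, hR, -⟩ := EW.exists_rep hn
  refine ⟨∑ r ∈ R, ‖g r‖ + 1, by positivity, fun a => ?_⟩
  obtain ⟨r, hr, e⟩ := hR.ex a
  rw [hg a r e]
  exact (single_le_sum (f := fun r => ‖g r‖) (fun _ _ => norm_nonneg _) hr).trans (lt_add_one _).le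

theorem DS_sum {g : O → ℂ} {K : ℝ} (hg : ∀ a, ‖g a‖ ≤ K) {s : ℂ} (hs : 3 / 2 < s.re) :
    Summable fun γ : O => ‖g γ * conj (CL.toC γ) / (nm γ : ℂ) ^ s‖ := by
  refine .of_nonneg_of_le (fun _ => norm_nonneg _) (fun γ => ?_)
    ((CL.f7_sum (f := fun _ => 1) (fun _ => norm_one.le) one_pos hs).mul_left K)
  have e := nm_real γ
  rw [norm_div, Complex.norm_natCast_cpow_of_re_ne_zero _ (by linarith), norm_mul, RCLike.norm_conj,
    one_mul, one_mul, e, mul_div_assoc]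
  exact mul_le_mul_of_nonneg_right (hg γ) (div_nonneg (norm_nonneg _) (Real.rpow_nonneg
    (by exact_mod_cast CL.nm_nonneg γ) _))

open Complex MeasureTheory in
open CL (tht f7_cont f7_bound f7_sum summable_tht) in
theorem tl1b_an {f f' : O → ℂ} (bd : ∀ α, ‖f α‖ ≤ 1) (bd' : ∀ α, ‖f' α‖ ≤ 1) {l : ℝ} (hl : 0 < l)
    {c : ℂ} (hw : c ≠ 0) (fe : ∀ t : ℝ, 0 < t → tht f (l / t) = c * t ^ 2 * tht f' (l * t)) :
    ∃ L : ℂ → ℂ, Differentiable ℂ L ∧ (∀ s : ℂ, 3 / 2 < s.re →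
      HasSum (fun α : O => f α * CL.toC α / (nm α : ℂ) ^ s) (L s)) ∧
      Tendsto (EW.Ph f) (𝓝[>] 0) (𝓝 (L 1)) := by
  have hi : ∀ {f : O → ℂ}, (∀ α, ‖f α‖ ≤ 1) →
      LocallyIntegrableOn (fun t => tht f (l * t)) (Set.Ioi 0) := fun bd =>
    ((f7_cont bd).comp (by fun_prop) fun t ht => mul_pos hl ht).locallyIntegrableOn
      measurableSet_Ioi
  have ht : ∀ {f : O → ℂ}, (∀ α, ‖f α‖ ≤ 1) → ∀ r : ℝ,
      (fun t => tht f (l * t) - 0) =O[Filter.atTop] (· ^ r) := fun {f} bd r => by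
    refine Asymptotics.IsBigO.trans ?_
      (isLittleO_exp_neg_mul_rpow_atTop (mul_pos Real.pi_pos hl) r).isBigO
    refine .of_bound ((∑' α : O, ‖f α * CL.toC α * (Real.exp (-π * l * (CL.nm α : ℝ)) : ℝ)‖) *
      Real.exp (π * l)) ((Filter.eventually_ge_atTop 1).mono fun t h => ?_)
    rw [sub_zero, Real.norm_of_nonneg (Real.exp_pos _).le, mul_assoc, ← Real.exp_add]
    convert f7_bound bd hl (le_mul_of_one_le_right hl.le h) using 3
    ring
  let P : WeakFEPair ℂ := ⟨fun t => tht f (l * t), fun t => tht f' (l * t), 2, c, 0, 0, hi bd,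
    hi bd', two_pos, hw, fun x hx => by
      rw [mul_one_div, fe x hx, Real.rpow_two, ofReal_pow, smul_eq_mul], ht bd, ht bd'⟩
  have hP : IsStrongFEPair P := ⟨rfl, rfl⟩
  have l0 : (l : ℂ) ≠ 0 := ofReal_ne_zero.2 hl.ne'
  have p0 : (π : ℂ) ≠ 0 := ofReal_ne_zero.2 Real.pi_ne_zero
  refine ⟨fun s => π ^ s * l ^ s * (Gamma s)⁻¹ * P.Λ s,
    (((differentiable_id.const_cpow (.inl p0)).mul (differentiable_id.const_cpow (.inl l0))).mul
      differentiable_one_div_Gamma).mul hP.differentiable_Λ, fun s hs => ?_, ?_⟩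
  · have s0 : 0 < s.re := by linarith
    have h1 := (hasSum_mellin_pi_mul (a := fun α : O => f α * CL.toC α)
      (q := fun α => l * (CL.nm α : ℝ)) (F := P.f) (fun α => (eq_or_ne α 0).imp
        (fun e => by simp [e]) fun e => mul_pos hl (by exact_mod_cast EW.nm_pos e))
      s0 (fun t ht => (summable_tht bd (mul_pos hl ht)).of_norm.hasSum.congr_fun fun α => by
        congr 3
        ring) (f7_sum bd hl hs)).mul_left (π ^ s * l ^ s * (Gamma s)⁻¹)
    simp only [hP.Λ_eq]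
    refine h1.congr_fun fun α => ?_
    have g0 := Gamma_ne_zero_of_re_pos s0
    have := cpow_ne_zero_iff.2 (.inl p0 : _ ∨ s = 0)
    have := cpow_ne_zero_iff.2 (.inl l0 : _ ∨ s = 0)
    rw [ofReal_mul, mul_cpow_ofReal_nonneg hl.le (by exact_mod_cast CL.nm_nonneg α),
      cpow_neg, ← nm_real, ofReal_natCast]
    field_simp
  · have h1 : IntegrableOn (fun t => tht f (l * t)) (Set.Ioi 0) := by
      simpa [MellinConvergent, P] using (hP.hasMellin 1).1
    have h2 := ((h1.continuousWithinAt_Ici_primitive_Ioi.mono Set.Ioi_subset_Ici_self).tendsto.comp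
      (show Tendsto (fun t : ℝ => t / l) (𝓝[>] 0) (𝓝[>] 0) from
        tendsto_nhdsWithin_iff.2 ⟨(Continuous.tendsto' (by fun_prop) 0 _ (zero_div l)).mono_left
          nhdsWithin_le_nhds, eventually_mem_nhdsWithin.mono fun t ht => div_pos ht hl⟩)).const_mul
      (π * l : ℂ)
    convert h2.congr' (eventually_mem_nhdsWithin.mono fun t ht => ?_) using 2
    · simp only [hP.Λ_eq, mellin, cpow_one, Gamma_one, sub_self, cpow_zero, one_smul, P]
      ring
    · rw [Function.comp_apply, ← EW.k3_int bd hl (div_pos ht hl), mul_div_cancel₀ _ hl.ne']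

open Complex in
open CL (tht FT poisson) in
theorem tl1b_per {M : ℕ} (hM : 0 < M) {f : O → ℂ} (per : Per M f) (bd : ∀ α, ‖f α‖ ≤ 1) :
    ∃ L : ℂ → ℂ, Differentiable ℂ L ∧ (∀ s : ℂ, 3 / 2 < s.re →
      HasSum (fun α : O => f α * CL.toC α / (nm α : ℂ) ^ s) (L s)) ∧
      Tendsto (EW.Ph f) (𝓝[>] 0) (𝓝 (L 1)) := by
  have M0 : (0 : ℝ) < M := by positivity
  have M1 : (M : ℂ) ≠ 0 := by exact_mod_cast hM.ne'
  have b : ∀ ξ, ‖FT M f ξ‖ ≤ M ^ 2 := fun ξ => by
    refine (norm_sum_le_of_le _ fun x _ => norm_sum_le_of_le (n := fun _ => (1 : ℝ)) _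
      fun y _ => ?_).trans_eq (by simp [pow_two])
    generalize (y * ξ.re - x * ξ.im : ℤ) = k
    rw [norm_mul, show 2 * π * I * (k : ℂ) / M = ((2 * π * k / M : ℝ) : ℂ) * I by
      push_cast; ring, norm_exp_ofReal_mul_I, mul_one]
    exact bd _
  have r0 : (0 : ℝ) < √3 := by positivity
  have r1 : ((√3 : ℝ) : ℂ) ≠ 0 := by exact_mod_cast r0.ne'
  refine tl1b_an (f' := fun ξ => ((M : ℂ) ^ 2)⁻¹ * FT M f ξ) bd (fun ξ => ?_)
    (l := 2 / (√3 * M)) (by positivity) (c := M) M1 fun t ht => ?_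
  · rw [norm_mul, norm_inv, norm_pow, norm_natCast]
    exact inv_mul_le_one_of_le₀ (b ξ) (by positivity)
  · have t1 : (t : ℂ) ≠ 0 := by exact_mod_cast ht.ne'
    have e : ∀ x, tht (fun ξ => ((M : ℂ) ^ 2)⁻¹ * FT M f ξ) x =
        ((M : ℂ) ^ 2)⁻¹ * tht (FT M f) x := fun x => by
      rw [tht, tht, ← tsum_mul_left]
      simp only [mul_assoc]
    have r2 : √3 ^ 2 = (3 : ℝ) := Real.sq_sqrt (by norm_num)
    rw [poisson hM per (by positivity), e,
      show 4 / (3 * (M : ℝ) ^ 2 * (2 / (√3 * M) / t)) = 2 / (√3 * M) * t by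
        field_simp
        rw [r2]
        ring]
    push_cast
    field_simp
    rw [CL.f6_sq]
    ring

theorem DS_ent' {n : O} (hn : n ≠ 0) {g : O → ℂ} (hg : Pd n g) :
    ∃ L : ℂ → ℂ, Differentiable ℂ L ∧ (∀ s : ℂ, 3 / 2 < s.re → L s = DS g s) ∧
      Tendsto (EW.Ph fun a => g (star a)) (𝓝[>] 0) (𝓝 (L 1)) := by
  obtain ⟨K, K0, hK⟩ := hg.bd hn
  have K1 : (K : ℂ) ≠ 0 := Complex.ofReal_ne_zero.2 K0.ne'
  have d : n ∣ (nm n : O) := ⟨star n, by
    rw [CL.mul_star_self, ← nm_cast, Int.cast_natCast]⟩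
  obtain ⟨L, h1, h2, h3⟩ := tl1b_per (M := nm n) (f := fun a => (K : ℂ)⁻¹ * g (star a))
    (Int.natAbs_pos.2 (EW.nm_pos hn).ne') (fun α γ => congrArg _ (hg _ _ (by
      rw [star_add, add_sub_cancel_left, star_mul', star_natCast]
      exact d.mul_right _))) fun α => by
      rw [norm_mul, norm_inv, Complex.norm_real, Real.norm_of_nonneg K0.le]
      exact inv_mul_le_one_of_le₀ (hK _) K0.le
  refine ⟨fun s => K * L s, h1.const_mul _, fun s hs => ?_,
    (h3.const_mul (K : ℂ)).congr fun t => ?_⟩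
  · refine (((star_involutive (R := O)).toPerm.hasSum_iff.2 ((h2 s hs).mul_left (K : ℂ))).congr_fun
      fun γ => ?_).tsum_eq.symm
    simp only [Function.comp_apply, Function.Involutive.coe_toPerm, star_star, nm_star,
      CL.toC_star]
    field_simp
  · rw [EW.Ph, EW.Ph, ← tsum_mul_left]
    refine tsum_congr fun α => ?_
    field_simp

theorem DS_ent {n : O} (hn : n ≠ 0) {g : O → ℂ} (hg : Pd n g) : Ent (DS g) :=
  (DS_ent' hn hg).imp fun _ h => ⟨h.1, fun s hs => h.2.1 s (by linarith)⟩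

theorem t3a_term (c : ℂ) (g h : O → ℂ) (s : ℂ) (p : O × O) :
    c * (g p.1 * conj (CL.toC p.1)) * (h p.2 * CL.toC p.2) / (nm (p.1 * p.2) : ℂ) ^ s =
      c * (g p.1 * conj (CL.toC p.1) / (nm p.1 : ℂ) ^ s * (h p.2 * CL.toC p.2 / (nm p.2 : ℂ) ^ s)) := by
  rw [g1_nm_mul, Nat.cast_mul, Complex.natCast_mul_natCast_cpow, div_mul_div_comm, mul_assoc,
    mul_div_assoc]

theorem t3a_star (h : O → ℂ) (s : ℂ) (γ : O) :
    h (star (star γ)) * conj (CL.toC (star γ)) / (nm (star γ) : ℂ) ^ s =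
      h γ * CL.toC γ / (nm γ : ℂ) ^ s := by
  rw [star_star, CL.toC_star, Complex.conj_conj, nm_star]

theorem t3a_sum {h : O → ℂ} {K : ℝ} (hh : ∀ a, ‖h a‖ ≤ K) {s : ℂ} (hs : 3 / 2 < s.re) :
    Summable fun γ : O => ‖h γ * CL.toC γ / (nm γ : ℂ) ^ s‖ :=
  ((DS_sum (g := fun a => h (star a)) (fun _ => hh _) hs).comp_injective star_injective).congr
    fun γ => congrArg _ (t3a_star h s γ)

theorem t3a_DS (h : O → ℂ) (s : ℂ) :
    DS (fun a => h (star a)) s = ∑' γ : O, h γ * CL.toC γ / (nm γ : ℂ) ^ s :=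
  ((star_involutive.toPerm star).tsum_eq _).symm.trans (tsum_congr (t3a_star h s))

theorem DD_sum {W g h : O → ℂ} {K : ℝ} (hW : ∀ a, ‖W a‖ ≤ K) (hg : ∀ a, ‖g a‖ ≤ K)
    (hh : ∀ a, ‖h a‖ ≤ K) {s : ℂ} (hs : 3 / 2 < s.re) :
    Summable fun p : O × O => ‖W (p.1 * p.2) * (g p.1 * conj (CL.toC p.1)) * (h p.2 * CL.toC p.2) /
      (nm (p.1 * p.2) : ℂ) ^ s‖ := by
  refine .of_nonneg_of_le (fun _ => norm_nonneg _) (fun p => ?_)
    (((DS_sum hg hs).mul_norm (t3a_sum hh hs)).mul_left K)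
  rw [t3a_term, norm_mul]
  exact mul_le_mul_of_nonneg_right (hW _) (norm_nonneg _)

theorem DD_one {g h : O → ℂ} {K : ℝ} (hg : ∀ a, ‖g a‖ ≤ K) (hh : ∀ a, ‖h a‖ ≤ K) {s : ℂ}
    (hs : 3 / 2 < s.re) : DD (fun _ => 1) g h s = DS g s * DS (fun a => h (star a)) s := by
  rw [t3a_DS, DS, tsum_mul_tsum_of_summable_norm (DS_sum hg hs) (t3a_sum hh hs), DD]
  exact tsum_congr fun p => (t3a_term 1 g h s p).trans (one_mul _)

theorem t3a_pd {n : O} (hn : n ≠ 0) {g h : O → ℂ} (hg : Pd n g) (hh : Pd n h) {s : ℂ}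
    (hs : 3 / 2 < s.re) : HasSum (fun p : O × O => 1 * (g p.1 * conj (CL.toC p.1)) *
      (h p.2 * CL.toC p.2) / (nm (p.1 * p.2) : ℂ) ^ s) (DS g s * DS (fun a => h (star a)) s) := by
  obtain ⟨K, -, h1⟩ := hg.bd hn
  obtain ⟨K', -, h2⟩ := hh.bd hn
  have k1 : ∀ a, ‖g a‖ ≤ max 1 (max K K') := fun a =>
    (h1 a).trans ((le_max_left _ _).trans (le_max_right _ _))
  have k2 : ∀ a, ‖h a‖ ≤ max 1 (max K K') := fun a =>
    (h2 a).trans ((le_max_right _ _).trans (le_max_right _ _))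
  rw [← DD_one k1 k2 hs]
  exact (DD_sum (W := fun _ => 1) (fun _ => norm_one.trans_le (le_max_left _ _)) k1 k2
    hs).of_norm.hasSum

theorem DD_val {r n : O} {R : Finset O} (hR : IsRep r R) (hn : n ≠ 0) {W g h : O → ℂ} (hW : Pd r W)
    (hg : Pd n g) (hh : Pd n h) : Ent (DD W g h) ∧ val1 (DD W g h) =
      ∑ x ∈ R, Lc (fun a => if r ∣ a - x then g a else 0) *
        Lc fun a => W (x * star a) * h (star a) := by
  have n0 := mul_ne_zero hR.ne hn
  have p1 : ∀ x, Pd (r * n) fun a => if r ∣ a - x then g a else 0 := fun x a b e => by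
    have k := (dvd_mul_right r n).trans e
    exact if_congr ⟨fun d => by simpa using dvd_sub d k, fun d => by simpa using dvd_add k d⟩
      (hg a b ((dvd_mul_left n r).trans e)) rfl
  have p2 : ∀ x, Pd (r * n) fun a => W (x * a) * h a := fun x a b e =>
    congrArg₂ (· * ·) (hW _ _ (mul_sub x a b ▸ ((dvd_mul_right r n).trans e).mul_left x))
      (hh a b ((dvd_mul_left n r).trans e))
  have p3 : ∀ x, Pd (star (r * n)) fun a => W (x * star a) * h (star a) := fun x a b ⟨c, e⟩ =>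
    p2 x _ _ ⟨star c, by rw [← star_sub, e, star_mul', star_star]⟩
  choose L1 a1 b1 using fun x => DS_ent n0 (p1 x)
  choose L2 a2 b2 using fun x => DS_ent (star_ne_zero.2 n0) (p3 x)
  have d : Differentiable ℂ fun s => ∑ x ∈ R, L1 x s * L2 x s :=
    .fun_sum fun x _ => (a1 x).mul (a2 x)
  have e : ∀ s : ℂ, 2 < s.re → ∑ x ∈ R, L1 x s * L2 x s = DD W g h s := fun s hs => by
    simp only [b1 _ s hs, b2 _ s hs]
    rw [← (hasSum_sum fun x (_ : x ∈ R) => t3a_pd n0 (p1 x) (p2 x) (s := s) (by linarith)).tsum_eq]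
    refine tsum_congr fun p => ?_
    obtain ⟨x, hx, k⟩ := hR.ex p.1
    rw [sum_eq_single_of_mem x hx fun y hy ne => by
      rw [if_neg fun d => ne (hR.uq y hy x hx (by simpa using dvd_sub k d)), zero_mul, mul_zero,
        zero_mul, zero_div], if_pos k, hW (p.1 * p.2) (x * p.2) (sub_mul p.1 x p.2 ▸ k.mul_right _)]
    ring
  refine ⟨⟨_, d, e⟩, (val1_eq d e).trans (sum_congr rfl fun x _ => ?_)⟩
  rw [Lc, Lc, val1_eq (a1 x) (b1 x), val1_eq (a2 x) (b2 x)]

end Pool.Agent.Lib.MP_696deb_nt.Y3.TL
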