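import Pool.Agent.Lib.MP_696deb_nt.Y3.B1
import Pool.Agent.Lib.MP_696deb_nt.Y3.TLa

/-! The continuation of the series of the characters. -/

set_option autoImplicit false

open scoped Classical
open Filter Topology

namespace Pool.Agent.Lib.MP_696deb_nt.Y3

open CL (O nm om Per)

/-- The series of a bounded periodic function is entire. -/
theorem ent_per {M : ℕ} (hM : 0 < M) {f : O → ℂ} (per : Per M f) (bd : ∀ α, ‖f α‖ ≤ 1) :
    ∃ L : ℂ → ℂ, Differentiable ℂ L ∧ (∀ s : ℂ, 3 / 2 < s.re →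
      HasSum (fun α : O => f α * CL.toC α / (nm α : ℂ) ^ s) (L s)) ∧
      Tendsto (EW.Ph f) (𝓝[>] 0) (𝓝 (L 1)) := by
  simpa only [← TL.nm_cast, Int.cast_natCast] using TL.tl1b_per hM per bd

theorem Red.exists_isL {d : ℤ} {n : ℕ} {φ : O → O} (h : Red d n) (hφ : EV.Phi n φ) :
    ∃ L, IsL (qt d φ) L := by
  obtain ⟨L, h1, h2, -⟩ := ent_per (M := 9 * n * d.natAbs) (f := fun α => CL.toC (qt d φ α))
    (by
      have := h.ne
      have := Int.natAbs_ne_zero.2 h.d_ne
      positivity) (fun α γ => congrArg _ (h.qt_per hφ α γ)) (h.qt_norm hφ)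
  exact ⟨L, h1, h2⟩

theorem IsL.uniq {ψ : O → O} {L L' : ℂ → ℂ} (h : IsL ψ L) (h' : IsL ψ L') : L = L' :=
  (h.1.differentiableOn.analyticOnNhd isOpen_univ).eq_of_eventuallyEq
    (h'.1.differentiableOn.analyticOnNhd isOpen_univ) (z₀ := 2)
    (((isOpen_lt continuous_const Complex.continuous_re).eventually_mem
      (show (3 : ℝ) / 2 < (2 : ℂ).re by norm_num)).mono fun s hs => (h.2 s hs).unique (h'.2 s hs))

end Pool.Agent.Lib.MP_696deb_nt.Y3
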