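import Pool.Agent.Lib.MP_696deb_nt.Y3.B1

/-! The character of the companion. -/

set_option autoImplicit false

open scoped Classical

namespace Pool.Agent.Lib.MP_696deb_nt.Y3

open CL (O nm om Per)

variable {d d1 : ℤ} {n n1 : ℕ} {φ φ1 : O → O} {a : O}

theorem b4_ind {P : O → Prop} (mul : ∀ a b, P a → P b → P (a * b)) (neg : P (-1)) (o : P om)
    (three : ∀ a, 3 ∣ nm a → P a) (inert : ∀ p : ℕ, p.Prime → p % 3 = 2 → P p)
    (split : ∀ (p : ℕ) [Fact p.Prime] z ρ χ, CL.Qc p z ρ χ → P z ∧ P (star z)) (a : O) : P a := by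
  induction hn : (nm a).natAbs using Nat.strong_induction_on generalizing a with | _ m ih => ?_
  have h0 := CL.nm_nonneg a
  by_cases h1 : m = 1
  · have u (k : ZMod 3) : P (CL.op k) := by
      rw [CL.op]
      induction k.val with
      | zero => simpa using mul _ _ neg neg
      | succ j hj => exact pow_succ om j ▸ mul _ _ hj o
    obtain ⟨k, rfl | rfl⟩ := CL.nm_eq_one (u := a) (by omega)
    · exact u k
    · exact neg_one_mul (CL.op k) ▸ mul _ _ neg (u k)
  by_cases h3 : 3 ∣ nm a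
  · exact three a h3
  obtain ⟨p, hp, hd⟩ := Nat.exists_prime_and_dvd h1
  replace hd : (p : ℤ) ∣ nm a := Int.natCast_dvd.2 (hn ▸ hd)
  have h2 := hp.two_le
  have step : ∀ w : O, w ∣ a → 1 < nm w → P w → P a := by
    rintro w ⟨b, rfl⟩ k h
    have := CL.nm_nonneg b
    rw [CL.nm_mul] at hn h3
    have : nm b ≠ 0 := fun e => h3 (by simp [e])
    have : nm b < nm w * nm b := lt_mul_left (by omega) k
    exact mul _ _ h (ih _ (by omega) b rfl)
  have := Fact.mk hp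
  by_cases h4 : p % 3 = 1
  · obtain ⟨z, ρ, χ, hq⟩ := CL.exists_qc h4
    have k : 1 < nm z := by rw [hq.norm]; omega
    have d4 : z ∣ a * star a := by
      obtain ⟨c, hc⟩ := hd
      rw [CL.mul_star_self, hc, Int.cast_mul, Int.cast_natCast, ← CL.f3_mul hq.norm, mul_assoc]
      exact dvd_mul_right _ _
    rcases (CL.f3_prime hp h4 hq.norm).dvd_or_dvd d4 with e | e
    · exact step z e k (split p z ρ χ hq).1
    · exact step _ (CL.f3_star e) (by rwa [CL.nm_star]) (split p z ρ χ hq).2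
  · have h5 : p % 3 = 2 := by
      have : ¬ (3 : ℤ) ∣ p := fun e => h3 (e.trans hd)
      omega
    exact step p (CL.dvd_of_nm hp h5 hd) (by rw [CL.nm_nat]; nlinarith) (inert p hp h5)

theorem b4_om {x : O} (h : x * om = 1) : x = star om := by
  rw [← mul_one x, show (1 : O) = om * star om by decide, ← mul_assoc, h, one_mul]

theorem b4_dec : ∀ (u v : ZMod 7) (k : ZMod 3), u ≠ 0 → v ≠ 0 → u * u = r7 (CL.op k) * (v * v) →
    ((1 : ZMod 7) = (u * v) ^ 3 → ep u * star (ep v) = CL.op k) ∧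
    (-1 = (u * v) ^ 3 → ep u * star (ep v) = -CL.op k) := by decide +kernel

theorem b4_x7 {X : O → O} (hX : CL.IsX 7 X) (k : IsCoprime a 7) :
    x7 a = X a * (jacobiSym (nm a) 7 : ℤ) := by
  have := Fact.mk Nat.prime_seven
  obtain ⟨k1, k2⟩ := r7_ne k
  have k3 : ¬ ((7 : ℕ) : ℤ) ∣ nm a := fun e => mul_ne_zero k1 k2 (by
    rw [← norm_seven, (ZMod.intCast_zmod_eq_zero_iff_dvd _ 7).2 e])
  obtain ⟨j, hj⟩ := CL.cube_eq_one (hX.cube a k3)
  have k4 := r7_congr (hX.spec1 rfl a k3)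
  rw [hj, show 7 / 3 = 2 from rfl, pow_two, pow_two, r7_mul, r7_mul, r7_mul] at k4
  have k5 := legendreSym.eq_pow 7 (nm a)
  rw [norm_seven] at k5
  obtain ⟨e1, e2⟩ := b4_dec _ _ j k1 k2 k4
  rw [x7, hj, ← jacobiSym.legendreSym.to_jacobiSym]
  rcases legendreSym.eq_one_or_neg_one 7 (a := nm a) (mt (ZMod.intCast_zmod_eq_zero_iff_dvd _ 7).1 k3)
    with e | e <;> rw [e] at k5 ⊢
  · rw [e1 (by exact_mod_cast k5), Int.cast_one, mul_one]
  · rw [e2 (by exact_mod_cast k5), Int.cast_neg, Int.cast_one, mul_neg_one]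

/-- The character is determined by the curve. -/
theorem phi_uniq (hφ : EV.Phi n φ) (hφ1 : EV.Phi n φ1) (hn : n ≠ 0) : φ = φ1 := by
  have bad (p : ℕ) (hp : p.Prime) (h : (p : ℤ) ∣ 3 * n) (a : O) (ha : (p : ℤ) ∣ nm a) :
      φ a = φ1 a := (hφ.gch.zero p hp h a ha).trans (hφ1.gch.zero p hp h a ha).symm
  refine funext (b4_ind (fun a b h k => by rw [hφ.gch.mul, hφ1.gch.mul, h, k])
    (hφ.gch.neg.trans hφ1.gch.neg.symm) ((b4_om hφ.gch.unit).trans (b4_om hφ1.gch.unit).symm)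
    (bad 3 Nat.prime_three (dvd_mul_right _ _)) (fun p hp _ => ?_) fun p _ z ρ χ hq => ?_)
  · by_cases h : (p : ℤ) ∣ 3 * n
    · exact bad p hp h p (by rw [CL.nm_nat]; exact dvd_pow_self _ two_ne_zero)
    · exact mul_right_cancel₀ (Nat.cast_ne_zero.2 hp.ne_zero)
        ((hφ.gch.int p hp h).trans (hφ1.gch.int p hp h).symm)
  · have hz : φ z = φ1 z := by
      by_cases h : p ∣ n
      · exact bad p Fact.out ((Int.natCast_dvd_natCast.2 h).mul_left _) z hq.norm.symm.dvd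
      · exact (hφ.qc p z ρ χ hq h).trans (hφ1.qc p z ρ χ hq h).symm
    exact ⟨hz, by rw [hφ.gch.conj, hφ1.gch.conj, hz]⟩

/-- The character of the companion. -/
theorem Cmp.eq (h : Cmp d n d1 n1) (hφ : EV.Phi n φ) (hφ1 : EV.Phi n1 φ1) (k : IsCoprime a 7) :
    qt d1 φ1 a = star (qt d φ a) * x7 a := by
  have iff {p : ℕ} (hp : p.Prime) (h7 : p ≠ 7) :
      p ∣ 3 * n1 * d1.natAbs ↔ p ∣ 3 * n * d.natAbs := by
    simp only [hp.dvd_mul, h.dvd_n hp h7, ← Int.natCast_dvd, h.dvd_d hp h7]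
  have zero {p M : ℕ} (hp : p.Prime) (e : p ∣ M) {a : O} (ha : (p : ℤ) ∣ nm a) :
      ¬ IsCoprime a (M : O) := fun k => (Nat.prime_iff_prime_int.1 hp).not_isUnit
    ((cop_norm.1 k).isUnit_of_dvd' ha (Int.natCast_dvd_natCast.2 e))
  have bad {p : ℕ} (hp : p.Prime) (h7 : p ≠ 7) (e : p ∣ 3 * n * d.natAbs) {a : O}
      (ha : (p : ℤ) ∣ nm a) : qt d1 φ1 a = star (qt d φ a) * x7 a := by
    rw [h.red.qt_zero hφ (zero hp e ha), h.red1.qt_zero hφ1 (zero hp ((iff hp h7).2 e) ha),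
      star_zero, zero_mul]
  refine b4_ind (P := fun a => IsCoprime a 7 → qt d1 φ1 a = star (qt d φ a) * x7 a)
    (fun a b ha hb k => ?_) (fun _ => ?_) (fun _ => ?_)
    (fun a e _ => bad Nat.prime_three (by decide) ((dvd_mul_right _ _).mul_right _) e)
    (fun p hp h3 k => ?_) (fun p _ z ρ χ hq => ?_) a k
  · rw [h.red.qt_mul hφ, h.red1.qt_mul hφ1, ha k.of_mul_left_left, hb k.of_mul_left_right, x7_mul,
      star_mul']
    ring
  · rw [h.red.qt_neg hφ, h.red1.qt_neg hφ1, h.red.qt_one hφ, h.red1.qt_one hφ1]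
    decide
  · rw [b4_om (h.red.qt_om hφ), b4_om (h.red1.qt_om hφ1)]
    decide
  · have h7 : p ≠ 7 := by omega
    by_cases e : p ∣ 3 * n * d.natAbs
    · exact bad hp h7 e (by rw [CL.nm_nat]; exact dvd_pow_self _ two_ne_zero)
    have c {d : ℤ} {n : ℕ} (e : ¬ p ∣ 3 * n * d.natAbs) : IsCoprime (p : ℤ) (3 * n * d) :=
      (Nat.prime_iff_prime_int.1 hp).coprime_iff_not_dvd.2 fun k => e (by
        simpa [Int.natAbs_mul] using Int.natCast_dvd.1 k)
    rw [← Int.cast_natCast] at k ⊢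
    rw [h.red.qt_int hφ (c e), h.red1.qt_int hφ1 (c (mt (iff hp h7).1 e)), x7_int k, star_intCast,
      mul_one]
  have hp : p.Prime := Fact.out
  have key (k : IsCoprime z 7) : qt d1 φ1 z = star (qt d φ z) * x7 z := by
    have h7 : p ≠ 7 := fun e => zero (M := 7) hp e.dvd hq.norm.symm.dvd k
    by_cases e : p ∣ 3 * n * d.natAbs
    · exact bad hp h7 e hq.norm.symm.dvd
    have e1 : ¬ p ∣ n := fun k => e ((k.mul_left _).mul_right _)
    have e2 : ¬ (p : ℤ) ∣ d := fun k => e ((Int.natCast_dvd.1 k).mul_left _)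
    have e3 : ¬ p ∣ 7 := fun k => h7 ((Nat.prime_dvd_prime_iff_eq hp Nat.prime_seven).1 k)
    have o : Odd p := hp.odd_of_ne_two fun e => by have := hq.mod; omega
    obtain ⟨X, hX⟩ := CL.exists_X Nat.prime_seven (by decide)
    obtain ⟨s, hs⟩ := h.sq
    obtain ⟨t, ht⟩ := h.cb
    have pi := Nat.prime_iff_prime_int.1 hp
    have e4 : ¬ (p : ℤ) ∣ s := fun k => (pi.dvd_or_dvd (hs ▸ (dvd_pow k two_ne_zero).mul_left d1)).elim
      (fun k => e3 (by simpa using Int.natCast_dvd.1 k)) e2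
    have e5 : ¬ p ∣ t := fun k => (hp.dvd_mul.1 (ht ▸ (dvd_pow k three_ne_zero).mul_left n1)).elim
      (fun k => e3 (hp.dvd_of_dvd_pow (n := 2) k)) fun k => e1 (hp.dvd_of_dvd_pow k)
    have j := congrArg (jacobiSym · p) hs
    simp only [jacobiSym.mul_left] at j
    rw [jacobiSym.sq_one' (Int.isCoprime_iff_gcd_eq_one.1 (pi.coprime_iff_not_dvd.2 e4).symm),
      mul_one, ← H3.T.cnq1_rec (d := -7) (by decide) o] at j
    have c := congrArg (fun m : ℕ => χ m) ht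
    simp only [show 49 = 7 ^ 2 from rfl, Nat.cast_mul, Nat.cast_pow, map_mul, map_pow, hq.q0.sq] at c
    rw [hq.cube _ (mt (ZMod.natCast_eq_zero_iff t p).1 e5), mul_one,
      hq.recip Nat.prime_seven (by decide) h7.symm hX] at c
    have m : EV.nm z = p := by rw [EV.nm, hq.norm, Int.natAbs_natCast]
    rw [qt, qt, hφ.qc p z ρ χ hq e1, hφ1.qc p z ρ χ hq (mt (h.dvd_n hp h7).1 e1), c, EV.D.kN,
      EV.D.kN, m, h.red.kr_odd o, h.red1.kr_odd o, j, b4_x7 hX k, hq.norm]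
    simp only [star_mul', star_star, star_intCast, Int.cast_mul, Int.reduceNeg, Int.natAbs_neg]
    rw [show (7 : ℤ).natAbs = 7 from rfl]
    ring
  refine ⟨key, fun k => ?_⟩
  rw [h.red.qt_star hφ, h.red1.qt_star hφ1, x7_star, ← star_mul',
    key (by simpa using cop_star (M := 7) k)]

end Pool.Agent.Lib.MP_696deb_nt.Y3
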