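import Pool.Agent.Lib.MP_696deb_nt.Y3.M0
import Pool.Agent.Lib.MP_696deb_nt.EW.L3

/-! Points with complex multiplication on the curve of level twenty-one: definitions. -/

set_option autoImplicit false

open scoped Classical
open Complex Finset Pool.Agent.Shared.Weier

namespace Pool.Agent.Lib.MP_696deb_nt.Y3

open EW hiding om
open CL (om wC Per)

/-- The determinant of a pair of Eisenstein integers. -/
def dt (ω : O × O) : ℤ := ω.1.im * ω.2.re - ω.1.re * ω.2.im

/-- The point of the upper half plane attached to an oriented basis. -/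
noncomputable def tb (ω : O × O) : ℂ := CL.toC ω.1 / CL.toC ω.2

/-- The action of an integral matrix on pairs. -/
def mv (p q r s : ℤ) (ω : O × O) : O × O := (p * ω.1 + q * ω.2, r * ω.1 + s * ω.2)

/-- Multiplication by `g` maps the basis `ω` to a matrix of level twenty-one applied to `ω'`, and
`e` is the character of the matrix. -/
def Tr (g : O) (ω ω' : O × O) (e : O) : Prop := ∃ p q r s : ℤ,
  (g * ω.1, g * ω.2) = mv p q (21 * r) s ω' ∧ IsCoprime p 21 ∧ e = star (nb p)

/-- The algebraic point attached to a basis. -/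
noncomputable def Pz (ω : O × O) : A :=
  if h : ∃ P : A, cp P = un (uu (tb ω)) then h.choose else 0

/-- The lattice spanned by `ω₁` and `ω₂`. -/
def Lb (ω : O × O) (y : O) : Prop := ∃ a b : ℤ, y = a * ω.1 + b * ω.2

/-- The lattice spanned by `21 ω₁` and `ω₂`. -/
def La (ω : O × O) (y : O) : Prop := ∃ a b : ℤ, y = a * (21 * ω.1) + b * ω.2

/-- The kernel of the isogeny. -/
noncomputable def Cs (m : ℕ) (ω : O × O) : Finset A :=
  (En m).filter fun S => ∃ y, La ω y ∧ S = tq y m

/-- The point of order twenty-one. -/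
noncomputable def Sp (m : ℕ) (ω : O × O) : A := tq ω.1 m

/-- The traces of the first coordinates after multiplication by `g`. -/
noncomputable def pq (g : O) (m : ℕ) (ω : O × O) (j : ℤ) : Qbar :=
  ∑ S ∈ Cs m ω, xco (g • (j • Sp m ω + S))

/-- The character by which the Galois group moves the points that are killed by `star p7`. -/
def eb (g : O) : O := ep (r7 (star g))

/-- Weighted families of bases. -/
structure Fam (ι : Type) where
  w : ι → O × O
  wt : ι → O

/-- The representatives of the Hecke operator. -/
def HI (m : ℕ) : Finset (Σ _ : ℕ × ℕ, ℕ) := m.divisorsAntidiagonal.sigma fun x => range x.2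

/-- The Klein form. -/
noncomputable def kl (z : ℂ) : ℂ := Shared.Weier.sig LG z * cexp (-(eta LG z * z / 2))

/-- The Green function with a character of order six. -/
noncomputable def Gr (p q : ℂ) : ℂ :=
  ∑ k : ZMod 6, CL.toC (star (ip k)) * (Real.log ‖kl (CL.toC (ip k) * p - q)‖ : ℝ)

namespace Fam

variable {ι κ : Type}

/-- All bases have determinant `d` and all weights are units. -/
structure Ok (F : Fam ι) (d : ℕ) : Prop where
  pos : 0 < d
  det : ∀ j, dt (F.w j) = d
  six : ∀ j, F.wt j ^ 6 = 1

/-- No point of the family is the origin. -/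
def Nz (F : Fam ι) : Prop := ∀ j, uu (tb (F.w j)) ∉ LG.lattice

/-- The family is permuted by the primary elements prime to `M`, with the character `χ`. -/
def Stable (F : Fam ι) (M : ℕ) (χ : O → O) : Prop := ∀ g, Prim g → IsCoprime g M →
  ∃ s : ι ≃ ι, ∀ j, ∃ e, Tr g (F.w j) (F.w (s j)) e ∧ F.wt (s j) = χ g * e * F.wt j

/-- The points of the family. -/
noncomputable def pt (F : Fam ι) (j : ι) : A := F.wt j • Pz (F.w j)

/-- Their complex lifts. -/
noncomputable def z (F : Fam ι) (j : ι) : ℂ := CL.toC (F.wt j) * uu (tb (F.w j))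

/-- The image under a Hecke operator. -/
def hk (F : Fam ι) (m : ℕ) : Fam (ι × HI m) where
  w x := mv x.2.1.1.1 x.2.1.2 0 x.2.1.1.2 (F.w x.1)
  wt x := nb x.2.1.1.1 * F.wt x.1

/-- The archimedean pairing of two families. -/
noncomputable def arch [Fintype ι] [Fintype κ] (F : Fam ι) (F' : Fam κ) : ℂ :=
  ∑ j, ∑ k, Gr (F.z j) (F'.z k)

end Fam

/-- The function `φ` is periodic and its values on the units are roots of unity. -/
structure Lk (M : ℕ) (φ : O → O) : Prop where
  pos : 0 < M
  per : Per M φ
  six : ∀ u : O, IsCoprime u (M : O) → φ u ^ 6 = 1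

/-- The twisted action. -/
noncomputable def tw (M : ℕ) (φ : O → O) (g : Gam) : A →+ A where
  toFun P := φ (cm M g) • g • P
  map_zero' := by rw [smul_zero, smul_zero]
  map_add' P Q := by rw [smul_add, smul_add]

theorem tw_apply (M : ℕ) (φ : O → O) (g : Gam) (P : A) : tw M φ g P = φ (cm M g) • g • P := rfl

/-- The points that are fixed by the twisted action have finite order. -/
def Tors (M : ℕ) (φ : O → O) : Prop :=
  ∀ P : A, (∀ g ∈ GK 3, tw M φ g P = P) → ∃ n : ℕ, 0 < n ∧ n • P = 0

/-- The determinant of three points. -/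
noncomputable def de (P S R : A) : Qbar :=
  (yh R - yh P) * (xco S - xco P) - (yh S - yh P) * (xco R - xco P)

/-- The product of the quotients of lines along the chain of sums that starts at `B`. -/
noncomputable def Sy : List A → A → A → Qbar
  | [], _, _ => 1
  | P :: l, B, R => de P B R / de P B (-R) * Sy l (B + P) R

/-- The starting point is generic. -/
def Ge : List A → A → A → Prop
  | [], B, R => B ≠ 0 ∧ B ≠ R ∧ B ≠ -R
  | P :: l, B, R => (B ≠ 0 ∧ B ≠ R ∧ B ≠ -R ∧ B ≠ P ∧ B ≠ -P) ∧ Ge l (B + P) R

/-- The point is off the divisor. -/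
def Off (l : List A) (R : A) : Prop := R ≠ 0 ∧ ∀ P ∈ l, P ≠ R ∧ P ≠ -R

/-- The value at `R` of the odd function with divisor the sum of the `(P) - (-P)`. -/
noncomputable def sy (l : List A) (R : A) : Qbar :=
  if h : ∃ B, Ge l B R then Sy l h.choose R else 1

/-- The analytic factor. -/
noncomputable def rz (p z : ℂ) : ℂ :=
  cexp (2 * eta LG p * z) * Shared.Weier.sig LG (z - p) / Shared.Weier.sig LG (z + p)

/-- A complex lift of a point. -/
noncomputable def lf (P : A) : ℂ := (un_surj (cp P)).choose

theorem un_lf (P : A) : cp P = un (lf P) := (un_surj (cp P)).choose_spec.symm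

/-- Additive functions on the positive rational numbers that only depend on the class modulo `l`. -/
structure Lg {M : Type} [AddCommGroup M] (l : ℕ) (L : ℚ → M) : Prop where
  add : ∀ x y, 0 < x → 0 < y → L (x * y) = L x + L y
  one : ∀ a d : ℕ, ¬ l ∣ d → (l : ℤ) ∣ (a : ℤ) - d → L (a / d) = 0

end Pool.Agent.Lib.MP_696deb_nt.Y3
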