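import Pool.Agent.Lib.MP_23455a_nt.Mod
import Pool.Agent.Lib.MP_696deb_nt.Cusp15

/-! A modular unit of level twenty-one as a function of lattices. -/

set_option autoImplicit false

open Filter Topology Complex PeriodPair Pool.Agent.Shared.Weier
open scoped Real

namespace Pool.Agent.Lib.MP_696deb_nt.Y3

open Klein Gal
open Pool.Agent.Lib.MP_23455a_nt (lat lat_ω₁ lat_ω₂ mem_lat)

/-- The values at the multiples of the point of order twenty-one. -/
noncomputable def pL (z : ℂ) (j : ℤ) : ℂ := ℘[lat (21 * z)] (j * z)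

/-- The same values seen from another cusp. -/
noncomputable def lp (N : ℕ) (a s : ℤ) (z : ℂ) (j : ℤ) : ℂ :=
  ℘[lat (N * z)] (j * (a * z + s / 21))

/-- The unit as a function of the values at the multiples. -/
def kU {F : Type} [Field F] (p : ℤ → F) : F :=
  (p 1 - p 5) * (p 4 - p 9) / ((p 1 - p 4) * (p 5 - p 9))

/-- The involution. -/
noncomputable def iz : ℂ → ℂ := mob 9 4 (-21) (-9)

/-- The symmetrised unit and its conjugates. -/
noncomputable def VU (k : ℤ) (z : ℂ) : ℂ :=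
  kU (fun j => pL z (k * j)) * kU fun j => pL (iz z) (k * j)

variable {z : ℂ} {a b c d i j k s : ℤ} {N : ℕ}

theorem kU_congr {F : Type} [Field F] {p p' : ℤ → F} {c : F} (hc : c ≠ 0)
    (h : ∀ i j : ℤ, 0 < i → i < j → j < 10 → p i - p j = c * (p' i - p' j)) : kU p = kU p' := by
  simp (disch := norm_num) only [kU, h]
  rw [mul_mul_mul_comm, mul_mul_mul_comm c _ c, mul_div_mul_left _ _ (mul_ne_zero hc hc)]

theorem im_nat (hN : 0 < N) (hz : 0 < z.im) : 0 < (N * z).im := by simpa [hN] using hz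

theorem im21 (hz : 0 < z.im) : 0 < (21 * z).im := by simpa using hz

theorem mem_lp (hN : 0 < N) (hz : 0 < z.im) :
    a * z + s / 21 ∈ (lat (N * z)).lattice ↔ (N : ℤ) ∣ a ∧ 21 ∣ s := by
  rw [mem_lat (im_nat hN hz)]
  refine ⟨fun ⟨m, n, e⟩ => ?_, fun ⟨⟨m, e⟩, n, e'⟩ => ⟨m, n, by rw [e, e']; push_cast; ring⟩⟩
  have h1 := congr_arg im e
  simp only [mul_im, intCast_re, intCast_im, zero_mul, add_zero, add_im, natCast_re, natCast_im,
    div_ofNat_im, zero_div] at h1
  have h2 : a = N * m := by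
    exact_mod_cast mul_right_cancel₀ hz.ne' (show (a : ℝ) * z.im = N * m * z.im by linarith)
  refine ⟨⟨m, h2⟩, n, ?_⟩
  rw [h2] at e
  push_cast at e
  exact_mod_cast (show (s : ℂ) = 21 * n by linear_combination 21 * e)

/-- The point has order twenty-one. -/
theorem ord_pL (hz : 0 < z.im) : j * z ∈ (lat (21 * z)).lattice ↔ 21 ∣ j := by
  simpa using mem_lp (N := 21) (a := j) (s := 0) (by norm_num) hz

theorem pL_congr (hz : 0 < z.im) (h : 21 ∣ i - j) : pL z i = pL z j := by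
  rw [pL, pL, ← (lat (21 * z)).weierstrassP_add_coe (j * z) ⟨_, (ord_pL hz).2 h⟩]
  congr 1
  push_cast
  ring

theorem pL_lp (z : ℂ) (j : ℤ) : pL z j = lp 21 1 0 z j := by simp [pL, lp]

theorem pL_mob {g x y w : ℤ} (hz : 0 < z.im) (hg : 0 < g) (hN : 0 < N) (h1 : 21 * b = g * s)
    (h2 : 21 * a = N * x) (h3 : x * w - s * y = 1) : ∃ e : ℂ, e ≠ 0 ∧ ∀ j,
      pL (mob (g * a) b (g * (N * y)) (g * w) z) j = e * lp N a s z j := by
  have hd : 0 < g * a * (g * w) - b * (g * (N * y)) := by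
    have : 21 * (g * a * (g * w) - b * (g * (N * y))) = g * g * N := by
      linear_combination g * g * w * h2 - g * N * y * h1 + g * g * N * h3
    have : 0 < g * g * N := by positivity
    omega
  have g0 : (g : ℂ) ≠ 0 := by exact_mod_cast hg.ne'
  have hj := den_ne hd.ne' hz
  have hj' : (N * y * z + w : ℂ) ≠ 0 := fun e => hj (by push_cast; linear_combination g * e)
  have e1 : (21 * b : ℂ) = g * s := by exact_mod_cast h1
  have e2 : (21 * a : ℂ) = N * x := by exact_mod_cast h2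
  have e : (N * y * z + w) * mob (g * a) b (g * (N * y)) (g * w) z = a * z + s / 21 := by
    rw [mob, mul_div_assoc', div_eq_iff hj]
    push_cast
    linear_combination (N * y * z + w) / 21 * e1
  have sc : Sc (N * y * z + w) (lat (21 * mob (g * a) b (g * (N * y)) (g * w) z)) (lat (N * z)) := by
    refine MP_23455a_nt.ModB.sc_of_basis hj' (a := x) (b := s) (a' := y) (b' := w) (e := 1)
      (by linear_combination h3) ?_ ?_
    · rw [lat_ω₁ (im21 (im_mob_pos hd hz)), lat_ω₁ (im_nat hN hz), lat_ω₂]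
      linear_combination 21 * e + z * e2
    · rw [lat_ω₂, lat_ω₁ (im_nat hN hz), lat_ω₂]
      ring
  refine ⟨(N * y * z + w) ^ 2, pow_ne_zero _ hj', fun j => ?_⟩
  rw [lp, ← e, mul_left_comm (j : ℂ), sc.wp, pL, inv_pow,
    mul_inv_cancel_left₀ (pow_ne_zero _ hj')]

theorem pL_gam (h : a * d - b * (21 * c) = 1) (hz : 0 < z.im) :
    ∃ e : ℂ, e ≠ 0 ∧ ∀ j, pL (mob a b (21 * c) d z) j = e * pL z (a * j) := by
  obtain ⟨e, e0, he⟩ := pL_mob (g := 1) (N := 21) (a := a) (b := b) (s := 21 * b) (x := a) (y := c)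
    (w := d) hz one_pos (by norm_num) (by ring) (by norm_num) (by linear_combination h)
  refine ⟨e, e0, fun j => ?_⟩
  have := he j
  simp only [one_mul, Nat.cast_ofNat] at this
  rw [this, lp, pL, Nat.cast_ofNat, ← (lat (21 * z)).weierstrassP_add_coe ((a * j : ℤ) * z)
    ⟨_, (mem_lat (im21 hz)).2 ⟨0, j * b, rfl⟩⟩]
  congr 2
  push_cast
  ring

theorem iz_pos (hz : 0 < z.im) : 0 < (iz z).im := im_mob_pos (by norm_num) hz

theorem iz_iz (hz : 0 < z.im) : iz (iz z) = z := by
  rw [iz, mob_mob (by norm_num) _ _ _ _ hz]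
  simp [mob]

theorem iz_gam (h : a * d - b * (21 * c) = 1) (hz : 0 < z.im) : iz (mob a b (21 * c) d z) =
    mob (-27 * a - 252 * c + 63 * b + 28 * d) (-12 * a - 112 * c + 27 * b + 12 * d)
      (21 * (3 * a + 27 * c - 7 * b - 3 * d)) (28 * a + 252 * c - 63 * b - 27 * d) (iz z) := by
  rw [iz, mob_mob (by omega) _ _ _ _ hz, mob_mob (by norm_num) _ _ _ _ hz]
  congr 1 <;> ring

theorem three_dvd (h : (a * d - b * (21 * c)) % 3 = 1) : 3 ∣ a - d := by
  have e : ((a * d - b * (21 * c) : ℤ) : ZMod 3) = (1 : ℤ) :=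
    (ZMod.intCast_eq_intCast_iff' _ _ 3).2 h
  refine (ZMod.intCast_zmod_eq_zero_iff_dvd _ 3).1 ?_
  push_cast at e ⊢
  generalize (a : ZMod 3) = x at e ⊢
  generalize (d : ZMod 3) = y at e ⊢
  generalize (b : ZMod 3) = u at e
  generalize (c : ZMod 3) = v at e
  revert x y u v
  decide

theorem VU_congr (hz : 0 < z.im) (h : 21 ∣ i - j) : VU i z = VU j z := by
  have e : ∀ k, 21 ∣ i * k - j * k := fun k => sub_mul i j k ▸ h.mul_right k
  simp only [VU, fun k => pL_congr hz (e k), fun k => pL_congr (iz_pos hz) (e k)]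

theorem VU_iz (hz : 0 < z.im) : VU k (iz z) = VU k z := by rw [VU, VU, iz_iz hz, mul_comm]

theorem VU_mob (h : a * d - b * (21 * c) = 1) (hz : 0 < z.im) :
    VU k (mob a b (21 * c) d z) = VU (k * a) z := by
  obtain ⟨e, e0, he⟩ := pL_gam h hz
  obtain ⟨e', e1, he'⟩ := pL_gam (a := -27 * a - 252 * c + 63 * b + 28 * d)
    (b := -12 * a - 112 * c + 27 * b + 12 * d) (c := 3 * a + 27 * c - 7 * b - 3 * d)
    (d := 28 * a + 252 * c - 63 * b - 27 * d) (by linear_combination h) (iz_pos hz)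
  obtain ⟨t, ht⟩ := three_dvd (a := a) (b := b) (c := c) (d := d) (by rw [h]; rfl)
  have e2 : ∀ j, pL (iz z) ((-27 * a - 252 * c + 63 * b + 28 * d) * (k * j)) =
      pL (iz z) (k * a * j) := fun j => pL_congr (iz_pos hz)
        ⟨(3 * b - 12 * c - 4 * t) * (k * j), by linear_combination -28 * k * j * ht⟩
  rw [VU, VU, iz_gam h hz]
  congr 1
  · exact kU_congr e0 fun i j _ _ _ => by
      rw [he, he, ← mul_sub, mul_left_comm, mul_left_comm a, mul_assoc, mul_assoc]
  · exact kU_congr e1 fun i j _ _ _ => by rw [he', he', e2, e2, mul_sub]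

theorem VU_inf (hz : 0 < z.im) :
    VU k z = kU (fun j => lp 21 1 0 z (k * j)) * kU fun j => lp 7 3 28 z (k * j) := by
  obtain ⟨e, e0, he⟩ := pL_mob (g := 3) (N := 7) (a := 3) (b := 4) (s := 28) (x := 9) (y := -1)
    (w := -3) hz (by norm_num) (by norm_num) (by norm_num) (by norm_num) (by norm_num)
  norm_num at he
  rw [VU, funext fun j => pL_lp z (k * j), iz]
  congr 1
  exact kU_congr e0 fun i j _ _ _ => by rw [he, he, mul_sub]

theorem iz_W (hz : 0 < z.im) : iz (mob 0 (-1) 21 0 z) = mob 28 (-3) (-63) 7 z := by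
  rw [iz, mob_mob (by norm_num) _ _ _ _ hz, ← mob_scale (Q := 3) (by norm_num) 28]
  norm_num

theorem VU_zero (hz : 0 < z.im) : VU k (mob 0 (-1) 21 0 z) =
    kU (fun j => lp 1 0 (-1) z (k * j)) * kU fun j => lp 3 4 (-9) z (k * j) := by
  obtain ⟨e, e0, he⟩ := pL_mob (g := 21) (N := 1) (a := 0) (b := -1) (s := -1) (x := 0) (y := 1)
    (w := 0) hz (by norm_num) (by norm_num) (by norm_num) (by norm_num) (by norm_num)
  obtain ⟨e', e1, he'⟩ := pL_mob (g := 7) (N := 3) (a := 4) (b := -3) (s := -9) (x := 28) (y := -3)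
    (w := 1) hz (by norm_num) (by norm_num) (by norm_num) (by norm_num) (by norm_num)
  norm_num at he he'
  rw [VU, iz_W hz]
  congr 1
  · exact kU_congr e0 fun i j _ _ _ => by rw [he, he, mul_sub]
  · exact kU_congr e1 fun i j _ _ _ => by rw [he', he', mul_sub]

end Pool.Agent.Lib.MP_696deb_nt.Y3
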