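import Pool.Agent.Lib.MP_696deb_nt.Y3.C0
import Pool.Agent.Lib.MP_696deb_nt.Y3.L0

/-! Sums of the Weierstrass function over the kernel of an isogeny. -/

set_option autoImplicit false

open scoped Classical
open Complex Finset PeriodPair Pool.Agent.Shared.Weier

namespace Pool.Agent.Lib.MP_696deb_nt.Y3

open EW hiding om
open CL (om wC Per)
open MP_23455a_nt (lat mem_lat)

variable {ω : O × O} {m : ℕ} {p q r s i j : ℤ} {g y : O} {S : A}

/-- The Weierstrass function of a larger lattice. -/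
theorem wp_sum {L M : PeriodPair} {R : Finset ℂ} (hle : ∀ z ∈ M.lattice, z ∈ L.lattice)
    (h1 : ∀ r ∈ R, r ∈ L.lattice) (ex : ∀ l ∈ L.lattice, ∃ r ∈ R, l - r ∈ M.lattice)
    (uq : ∀ r ∈ R, ∀ r' ∈ R, r - r' ∈ M.lattice → r = r') (z w : ℂ) :
    ℘[L] z - ℘[L] w = ∑ r ∈ R, (℘[M] (z + r) - ℘[M] (w + r)) := by
  have key : ∀ r ∈ R, HasSum (fun l : L.lattice => if (l : ℂ) + r ∈ M.lattice then
      1 / (z - l) ^ 2 - 1 / (w - l) ^ 2 else 0) (℘[M] (z + r) - ℘[M] (w + r)) := fun r hr => by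
    refine (Function.Injective.hasSum_iff
      (g := fun x : M.lattice => (⟨x - r, sub_mem (hle _ x.2) (h1 r hr)⟩ : L.lattice))
      (fun a b e => Subtype.ext (sub_left_inj.1 (congrArg Subtype.val e)))
      fun l hl => if_neg fun e => hl ⟨⟨_, e⟩, Subtype.ext (add_sub_cancel_right _ _)⟩).1 ?_
    refine ((M.hasSum_weierstrassP (z + r)).sub (M.hasSum_weierstrassP (w + r))).congr_fun
      fun x => ?_
    simp only [Function.comp, sub_add_cancel, x.2, if_true]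
    ring
  refine (((L.hasSum_weierstrassP z).sub (L.hasSum_weierstrassP w)).unique
    ((hasSum_sum key).congr_fun fun l => ?_))
  obtain ⟨r, hr, e⟩ := ex (-l) (neg_mem l.2)
  have e1 : (l : ℂ) + r ∈ M.lattice := by
    have := neg_mem e
    rwa [neg_sub, sub_neg_eq_add, add_comm] at this
  rw [sum_eq_single_of_mem r hr fun r' hr' k => if_neg fun e' => k (uq _ hr' _ hr (by
    simpa using sub_mem e' e1)), if_pos e1]
  ring

theorem dt_mv : dt (mv p q r s ω) = (p * s - q * r) * dt ω := by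
  simp [dt, mv]
  ring

theorem dt_mul : dt (g * ω.1, g * ω.2) = nm g * dt ω := by
  simp [dt, nm]
  ring

theorem mv_mv {p' q' r' s' : ℤ} : mv p q r s (mv p' q' r' s' ω) =
    mv (p * p' + q * r') (p * q' + q * s') (r * p' + s * r') (r * q' + s * s') ω := by
  simp only [mv, Int.cast_add, Int.cast_mul, Prod.mk.injEq]
  constructor <;> ring

theorem mv_one : mv 1 0 0 1 ω = ω := by simp [mv]

theorem mul_mv (g : O) (p q r s : ℤ) (ω : O × O) :
    (g * (mv p q r s ω).1, g * (mv p q r s ω).2) = mv p q r s (g * ω.1, g * ω.2) :=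
  Prod.ext (by simp only [mv]; ring) (by simp only [mv]; ring)

theorem c1_ind (h : dt ω ≠ 0) {p' q' : ℤ} (e : p * ω.1 + q * ω.2 = p' * ω.1 + q' * ω.2) :
    p = p' ∧ q = q' := by
  have h1 := congrArg QuadraticAlgebra.re e
  have h2 := congrArg QuadraticAlgebra.im e
  simp at h1 h2
  exact ⟨mul_right_cancel₀ h (by rw [dt]; linear_combination ω.2.re * h2 - ω.2.im * h1),
    mul_right_cancel₀ h (by rw [dt]; linear_combination ω.1.im * h1 - ω.1.re * h2)⟩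

theorem mv_inj (h : dt ω ≠ 0) {p' q' r' s' : ℤ} (e : mv p q r s ω = mv p' q' r' s' ω) :
    p = p' ∧ q = q' ∧ r = r' ∧ s = s' := by
  obtain ⟨e1, e2⟩ := Prod.mk.inj e
  exact ⟨(c1_ind h e1).1, (c1_ind h e1).2, c1_ind h e2⟩

theorem snd_ne (h : dt ω ≠ 0) : ω.2 ≠ 0 := fun e => h (by simp [dt, e])

theorem tb_pos (h : 0 < dt ω) : 0 < (tb ω).im := by
  have h1 : 0 < normSq (CL.toC ω.2) := normSq_pos.2 (coe_ne (snd_ne h.ne'))
  have h2 : (0 : ℝ) < dt ω := by exact_mod_cast h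
  have h3 : 0 < wC.im := by simp [wC]
  rw [tb, div_im, ← sub_div]
  refine div_pos ?_ h1
  convert mul_pos h2 h3 using 1
  simp [CL.toC_apply, dt]
  ring

theorem tb_mv (h : dt ω ≠ 0) : tb (mv p q r s ω) = mob p q r s (tb ω) := by
  have h1 := coe_ne (snd_ne h)
  rw [mob, ← mul_div_mul_right _ _ h1]
  simp only [tb, mv, map_add, map_mul, map_intCast, add_mul, mul_assoc, div_mul_cancel₀ _ h1]

theorem tb_mul (hg : g ≠ 0) : tb (g * ω.1, g * ω.2) = tb ω := by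
  simp only [tb, map_mul, mul_div_mul_left _ _ (coe_ne hg)]

theorem Lb_lev (h : dt ω ∣ m) (y : O) : Lb ω (m * y) := by
  obtain ⟨k, e⟩ := h
  refine ⟨k * dt (y, ω.2), k * dt (ω.1, y), ?_⟩
  rw [← Int.cast_natCast, e]
  ext <;> simp [dt] <;> ring

theorem La_lev (h : 21 * dt ω ∣ m) (y : O) : La ω (m * y) := by
  have e : dt (mv 21 0 0 1 ω) = 21 * dt ω := by rw [dt_mv]; norm_num
  obtain ⟨a, b, k⟩ := Lb_lev (ω := mv 21 0 0 1 ω) (m := m) (e ▸ h) y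
  exact ⟨a, b, by simpa [mv] using k⟩

theorem La.lb (h : La ω y) : Lb ω y := by
  obtain ⟨a, b, rfl⟩ := h
  exact ⟨21 * a, b, by push_cast; ring⟩

theorem La.add {x : O} (hx : La ω x) (hy : La ω y) : La ω (x + y) := by
  obtain ⟨a, b, rfl⟩ := hx
  obtain ⟨c, d, rfl⟩ := hy
  exact ⟨a + c, b + d, by push_cast; ring⟩

theorem c1_ne (hm : 0 < m) : (m : O) ≠ 0 := Nat.cast_ne_zero.2 hm.ne'

theorem tq_add {n : O} (hn : n ≠ 0) (a b : O) : tq (a + b) n = tq a n + tq b n := by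
  rw [tq_eq _ hn, tq_eq a hn, tq_eq b hn, add_smul]

theorem tq_neg {n : O} (hn : n ≠ 0) (a : O) : tq (-a) n = -tq a n := by
  rw [tq_eq _ hn, tq_eq a hn, neg_smul]

theorem tq_iff {n a b : O} (hn : n ≠ 0) : tq a n = tq b n ↔ n ∣ a - b := by
  rw [← smul_tq_one hn, sub_smul, ← tq_eq _ hn, ← tq_eq _ hn, sub_eq_zero]

theorem mem_Cs (hm : 0 < m) : S ∈ Cs m ω ↔ ∃ y, La ω y ∧ S = tq y m := by
  rw [Cs, mem_filter, mem_En (c1_ne hm), and_iff_right_iff_imp]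
  rintro ⟨y, -, rfl⟩
  rw [smul_tq _ _ (c1_ne hm), tq_eq_zero (c1_ne hm)]
  exact dvd_mul_right _ _

theorem c1_add (hm : 0 < m) {S' : A} (h : S ∈ Cs m ω) (h' : S' ∈ Cs m ω) : S + S' ∈ Cs m ω := by
  obtain ⟨_, a, rfl⟩ := (mem_Cs hm).1 h
  obtain ⟨_, b, rfl⟩ := (mem_Cs hm).1 h'
  exact (mem_Cs hm).2 ⟨_, a.add b, (tq_add (c1_ne hm) _ _).symm⟩

theorem c1_neg (hm : 0 < m) (h : S ∈ Cs m ω) : -S ∈ Cs m ω := by
  obtain ⟨_, ⟨a, b, rfl⟩, rfl⟩ := (mem_Cs hm).1 h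
  exact (mem_Cs hm).2 ⟨_, ⟨-a, -b, by push_cast; ring⟩, (tq_neg (c1_ne hm) _).symm⟩

theorem Sp_add (hm : 0 < m) (j : ℤ) (y : O) : j • Sp m ω + tq y m = tq (j * ω.1 + y) m := by
  rw [tq_add (c1_ne hm), ← smul_tq _ _ (c1_ne hm), Int.cast_smul_eq_zsmul, Sp]

theorem Sp_kill (hm : 0 < m) (hS : S ∈ Cs m ω) (j : ℤ) : (m : O) • (j • Sp m ω + S) = 0 := by
  obtain ⟨y, -, rfl⟩ := (mem_Cs hm).1 hS
  rw [Sp_add hm, smul_tq _ _ (c1_ne hm), tq_eq_zero (c1_ne hm)]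
  exact dvd_mul_right _ _

theorem Sp_ne (hd : 0 < dt ω) (hm : 0 < m) (h : 21 * dt ω ∣ m) (hj : ¬ 21 ∣ j) (hS : S ∈ Cs m ω) :
    j • Sp m ω + S ≠ 0 := fun e => by
  obtain ⟨_, ⟨a, b, rfl⟩, rfl⟩ := (mem_Cs hm).1 hS
  rw [Sp_add hm, tq_eq_zero (c1_ne hm)] at e
  obtain ⟨t, e⟩ := e
  obtain ⟨a', b', k⟩ := La_lev h t
  have := c1_ind (p := j) (q := 0) (p' := 21 * (a' - a)) (q' := b' - b) hd.ne'
    (by push_cast; linear_combination e + k)
  omega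

theorem c1_cp (P : A) {z : ℂ} (h : cp P = un z) : z - lf P ∈ LG.lattice := by
  rw [← un_eq_zero, map_sub, ← h, ← un_lf, sub_self]

/-- The traces are values of the Weierstrass function of the lattice attached to the basis. -/
theorem jc_pq (hd : 0 < dt ω) (hm : 0 < m) (h : 21 * dt ω ∣ m) (hi : ¬ 21 ∣ i) (hj : ¬ 21 ∣ j) :
    EW.jc (pq 1 m ω i - pq 1 m ω j) =
      (m / (CL.toC ω.2 * Om)) ^ 2 * (pL (tb ω) i - pL (tb ω) j) := by
  have n2 := coe_ne (snd_ne hd.ne')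
  have n1 : (m : ℂ) ≠ 0 := Nat.cast_ne_zero.2 hm.ne'
  have nO := Om_ne
  have hc : CL.toC ω.2 * Om / m ≠ 0 := div_ne_zero (mul_ne_zero n2 nO) n1
  have sc := Gal.sc_scale (lat (21 * tb ω)) hc
  have hτ := tb_pos hd
  generalize Gal.scale (lat (21 * tb ω)) hc = L at sc
  have mL : ∀ z, z ∈ L.lattice ↔ ∃ y, La ω y ∧ z = Om * CL.toC y / CL.toC (m : O) := fun z => by
    rw [← sc.symm.mem, mem_lat (im21 hτ)]
    refine ⟨fun ⟨a, b, e⟩ => ⟨_, ⟨a, b, rfl⟩, ?_⟩, ?_⟩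
    · rw [inv_mul_eq_iff_eq_mul₀ hc] at e
      simp only [e, tb, map_add, map_mul, map_intCast, map_natCast, map_ofNat]
      field_simp
    · rintro ⟨_, ⟨a, b, rfl⟩, rfl⟩
      refine ⟨a, b, ?_⟩
      simp only [tb, map_add, map_mul, map_intCast, map_natCast, map_ofNat]
      field_simp
  have hle : ∀ z ∈ LG.lattice, z ∈ L.lattice := fun z hz => by
    obtain ⟨t, rfl⟩ := mem_LG.1 hz
    refine (mL _).2 ⟨_, La_lev h t, ?_⟩
    simp only [map_mul, map_natCast]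
    field_simp
  have inj : ∀ P P' : A, lf P - lf P' ∈ LG.lattice → P = P' := fun P P' e => cp_inj (by
    rw [← un_eq_zero, map_sub, ← un_lf, ← un_lf, sub_eq_zero] at e
    exact e)
  have key : ∀ k : ℤ, ¬ 21 ∣ k → ∀ S ∈ Cs m ω, EW.jc (xco ((1 : O) • (k • Sp m ω + S))) =
      ℘[LG] (CL.toC ω.2 * Om / m * (k * tb ω) + lf S) := fun k hk S hS => by
    rw [one_smul]
    refine (cp_co ?_ (Sp_ne hd hm h hk hS)).1
    rw [map_add, map_add, ← un_lf, map_zsmul, Sp, cp_tq _ (c1_ne hm), ← map_zsmul]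
    congr 2
    simp only [tb, zsmul_eq_mul, map_natCast]
    field_simp
  have e := wp_sum (L := L) (M := LG) (R := (Cs m ω).image lf) hle (fun r hr => by
      obtain ⟨S, hS, rfl⟩ := mem_image.1 hr
      obtain ⟨y, hy, rfl⟩ := (mem_Cs hm).1 hS
      simpa using sub_mem ((mL _).2 ⟨y, hy, rfl⟩) (hle _ (c1_cp _ (cp_tq y (c1_ne hm)))))
    (fun l hl => by
      obtain ⟨y, hy, rfl⟩ := (mL _).1 hl
      exact ⟨_, mem_image_of_mem _ ((mem_Cs hm).2 ⟨y, hy, rfl⟩), c1_cp _ (cp_tq y (c1_ne hm))⟩)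
    (fun r hr r' hr' e => by
      obtain ⟨S, -, rfl⟩ := mem_image.1 hr
      obtain ⟨S', -, rfl⟩ := mem_image.1 hr'
      rw [inj _ _ e]) (CL.toC ω.2 * Om / m * (i * tb ω)) (CL.toC ω.2 * Om / m * (j * tb ω))
  rw [sc.wp, sc.wp, sum_image fun P _ P' _ e => inj P P' (by rw [e, sub_self]; exact zero_mem _),
    inv_div, ← mul_sub] at e
  rw [pL, pL, e, pq, pq, ← sum_sub_distrib, map_sum]
  exact sum_congr rfl fun S hS => by rw [map_sub, key i hi S hS, key j hj S hS]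

theorem pq_ne (hd : 0 < dt ω) (hm : 0 < m) (h : 21 * dt ω ∣ m) (hi : ¬ 21 ∣ i) (hj : ¬ 21 ∣ j)
    (h1 : ¬ 21 ∣ i - j) (h2 : ¬ 21 ∣ i + j) : pq 1 m ω i - pq 1 m ω j ≠ 0 := fun e => by
  have n2 := coe_ne (snd_ne hd.ne')
  have n1 : (m : ℂ) ≠ 0 := Nat.cast_ne_zero.2 hm.ne'
  have hτ := tb_pos hd
  have k := jc_pq hd hm h hi hj
  rw [e, map_zero, eq_comm, mul_eq_zero, or_iff_right (pow_ne_zero 2
    (div_ne_zero n1 (mul_ne_zero n2 Om_ne))), sub_eq_zero, pL, pL,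
    wp_eq_iff (mt (ord_pL hτ).1 hi) (mt (ord_pL hτ).1 hj), ← add_mul, ← sub_mul, ← Int.cast_add,
    ← Int.cast_sub, ord_pL hτ, ord_pL hτ] at k
  exact k.elim h2 h1

theorem pq_per (hm : 0 < m) (h : 21 ∣ i - j) : pq g m ω i = pq g m ω j := by
  obtain ⟨k, e⟩ := h
  have h0 : (21 * k) • Sp m ω ∈ Cs m ω := by
    refine (mem_Cs hm).2 ⟨21 * k * ω.1, ⟨k, 0, by push_cast; ring⟩, ?_⟩
    rw [← Int.cast_smul_eq_zsmul O, Sp, smul_tq _ _ (c1_ne hm)]
    congr 1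
    push_cast
    ring
  refine sum_nbij' (fun S => (21 * k) • Sp m ω + S) (fun S => -((21 * k) • Sp m ω) + S)
    (fun S hS => c1_add hm h0 hS) (fun S hS => c1_add hm (c1_neg hm h0) hS)
    (fun S _ => neg_add_cancel_left _ _) (fun S _ => add_neg_cancel_left _ _) fun S _ => ?_
  rw [← add_assoc, ← add_zsmul, show j + 21 * k = i by omega]

end Pool.Agent.Lib.MP_696deb_nt.Y3
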