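import Pool.Agent.Lib.MP_696deb_nt.Y3.L1
import Pool.Agent.Lib.MP_696deb_nt.Y3.M7

/-! The unit is a coordinate on the curve. -/

set_option autoImplicit false

open Filter Topology Complex PeriodPair Asymptotics Pool.Agent.Shared.Weier
open scoped Real MatrixGroups

namespace Pool.Agent.Lib.MP_696deb_nt.Y3

open CL (O nm om wC wC_sq)
open EW (LG mul_mem_LG)

/-- A holomorphic function invariant under `Γ₁(N)` and bounded at all cusps is constant. -/
theorem const_one (N : ℕ) [NeZero N] {h : ℂ → ℂ} (hh : Hol h)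
    (hinv : ∀ a b c d : ℤ, a * d - b * (N * c) = 1 → (N : ℤ) ∣ 1 * a - 1 → ∀ z : ℂ, 0 < z.im →
      h (mob a b (N * c) d z) = h z)
    (hb : ∀ a b c d : ℤ, a * d - b * c = 1 → Bdd fun z => h (mob a b c d z)) :
    ∃ c, ∀ z : ℂ, 0 < z.im → h z = c := by
  let f : ModularForm (CongruenceSubgroup.Gamma1 N : Subgroup (GL (Fin 2) ℝ)) 0 :=
    { toFun := fun τ => h τ
      slash_action_eq' := by
        rintro _ ⟨γ, hγ, rfl⟩
        ext τ
        obtain ⟨k1, -, k2⟩ := (CongruenceSubgroup.Gamma1_mem N γ).1 hγ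
        obtain ⟨c, hc⟩ := (ZMod.intCast_zmod_eq_zero_iff_dvd _ _).mp k2
        have h2 := ModularForm.SL_slash_apply (f := fun τ : UpperHalfPlane => h τ) (k := 0) γ τ
        rw [coe_smul_eq_mob, hc, hinv _ _ _ _ (by rw [← hc]; exact det_SL γ)
          ((ZMod.intCast_zmod_eq_zero_iff_dvd _ _).1 (by simp [k1])) _ τ.im_pos] at h2
        exact h2.trans (by simp)
      holo' := hh.mdiff
      bdd_at_cusps' := by
        intro c hc
        rw [Subgroup.IsArithmetic.isCusp_iff_isCusp_SL2Z] at hc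
        rw [OnePoint.isBoundedAt_iff_forall_SL2Z hc]
        intro γ _
        convert (hb _ _ _ _ (det_SL γ)).atImInfty using 1
        ext τ
        rw [ModularForm.SL_slash_apply, coe_smul_eq_mob]
        simp }
  obtain ⟨c, hc⟩ := ModularForm.eq_const_of_weight_zero f
  exact ⟨c, fun z hz => congr_fun hc ⟨z, hz⟩⟩

theorem wp_pole (L : PeriodPair) : Tendsto (fun w => w ^ 2 * ℘[L] w) (𝓝[≠] 0) (𝓝 1) := by
  have h := (((continuous_pow 2).tendsto (0 : ℂ)).mul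
    (L.analyticAt_weierstrassPExcept 0).continuousAt.tendsto).const_add 1
  rw [zero_pow two_ne_zero, zero_mul, add_zero] at h
  refine (h.mono_left nhdsWithin_le_nhds).congr' (eventually_mem_nhdsWithin.mono fun w hw => ?_)
  beta_reduce
  rw [Shared.Weier.wp_eq, mul_add, mul_one_div_cancel (pow_ne_zero 2 hw)]

theorem l2_per {x y : ℂ} (h : x - y ∈ LG.lattice) : ℘[LG] x = ℘[LG] y := by
  rw [← LG.weierstrassP_add_coe y ⟨_, h⟩, add_sub_cancel]

theorem wp_ode {x : ℂ} (h : x ∉ LG.lattice) : ℘'[LG] x ^ 2 = 4 * ℘[LG] x ^ 3 - 27 := by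
  rw [LG.derivWeierstrassP_sq x h, EW.g2_LG, EW.g3_LG, zero_mul, sub_zero]

theorem bdd_of_pow {F : ℂ → ℂ} {n : ℕ} (hn : n ≠ 0) (h : Bdd fun z => F z ^ n) : Bdd F :=
  IsBigO.of_pow hn (h.congr_right fun _ => (one_pow n).symm)

theorem bdd_add {v : ℂ → ℂ} {c e : ℂ} (hc : c ∉ LG.lattice) (hv : ∀ᶠ z in atI, v z ∉ LG.lattice ∧
    v z - c ∉ LG.lattice ∧ v z + c ∉ LG.lattice)
    (ht : Tendsto (fun z => ℘[LG] (v z) ^ 3) atI (𝓝 e)) (he : e - ℘[LG] c ^ 3 ≠ 0) :
    Bdd fun z => ℘[LG] (v z - c) := by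
  have b1 := bdd_of_pow three_ne_zero (.of_tendsto ht)
  have b2 : Bdd fun z => ℘'[LG] (v z) := bdd_of_pow two_ne_zero
    (IsBigO.congr' (Bdd.of_tendsto ((ht.const_mul 4).sub_const 27))
      (hv.mono fun z h => (wp_ode h.1).symm) EventuallyEq.rfl)
  have b3 := (((b2.add (.const (℘'[LG] c))).mul (((b1.mul b1).add (b1.mul (.const (℘[LG] c)))).add
    (.const (℘[LG] c ^ 2)))).mul (.of_tendsto ((ht.sub_const _).inv₀ he))).mul (.const (1 / 2))
  refine IsBigO.congr' (((b3.mul b3).sub b1).sub (.const (℘[LG] c))) ?_ EventuallyEq.rfl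
  filter_upwards [hv, (ht.sub_const _).eventually_ne he] with z h k
  have n := mt neg_mem_iff.1 hc
  have a1 := zet_add_formula h.1 n (sub_eq_add_neg (v z) c ▸ h.2.1) (by simpa using h.2.2)
  rw [sub_eq_add_neg (v z), wp_add h.1 n (sub_eq_add_neg (v z) c ▸ h.2.1) (by simpa using h.2.2)]
  rw [LG.weierstrassP_neg, LG.derivWeierstrassP_neg, sub_neg_eq_add] at a1
  rw [LG.weierstrassP_neg, a1, ← sq]
  congr 3
  field_simp
  ring

variable {c0 r z : ℂ} {k : ℤ} {u : O}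

theorem l2_ne : CL.toC p7 ≠ 0 ∧ CL.toC (star p7) ≠ 0 ∧ CL.toC p7 ≠ CL.toC (star p7) :=
  ⟨EW.coe_ne (by decide), EW.coe_ne (by decide), CL.toC_inj.ne (by decide)⟩

theorem l2_w (h0 : r ≠ 0) (h : Tendsto (fun z => (uu z - c0) / q1 z) atI (𝓝 r)) :
    Tendsto (fun z => uu z - c0) atI (𝓝[≠] 0) := by
  refine tendsto_nhdsWithin_iff.2 ⟨?_, (h.eventually_ne h0).mono fun z e k => e ?_⟩
  · simpa [q1_ne] using h.mul tendsto_q1
  · rw [k, zero_div]

/-- The cusp at infinity. -/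
theorem l2_cusp (h0 : r ≠ 0) (h : Tendsto (fun z => (uu z - c0) / q1 z) atI (𝓝 r)) :
    c0 ∉ LG.lattice ∧ CL.toC (star p7) * ℘[LG] c0 ^ 3 = 27 := by
  have hw := l2_w h0 h
  have h1 : Tendsto (fun z => CL.toC (star p7) * ℘[LG] (uu z) ^ 3) atI (𝓝 27) := by
    have a := (tt_inf.const_mul (CL.toC p7)).const_sub 1
    have b := (((tt_inf.const_mul (CL.toC (star p7))).const_sub 1).const_mul 27).div a (by simp)
    simp only [mul_zero, sub_zero, mul_one, div_one] at a b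
    refine b.congr' ?_
    filter_upwards [ev_pos, a.eventually_ne one_ne_zero] with z hz e
    have t := tt_ne hz
    have := tt_wp hz fun k => e (by rw [(uu_mem hz).1 k, mul_inv_cancel₀ l2_ne.1, sub_self])
    rw [Pi.div_apply, div_eq_iff e]
    field_simp
    linear_combination -this
  have h2 : c0 ∉ LG.lattice := fun k => by
    have a := ((((wp_pole LG).comp hw).pow 3).const_mul (CL.toC (star p7))).congr
      (f₂ := fun z => (uu z - c0) ^ 6 * (CL.toC (star p7) * ℘[LG] (uu z) ^ 3)) fun z => by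
        rw [Function.comp, l2_per (x := uu z - c0) (y := uu z) (by simpa using k)]
        ring
    have := tendsto_nhds_unique a (((hw.mono_right nhdsWithin_le_nhds).pow 6).mul h1)
    exact l2_ne.2.1 (by simpa using this)
  have h3 : Tendsto uu atI (𝓝 c0) := by
    simpa using (hw.mono_right nhdsWithin_le_nhds).add_const c0
  exact ⟨h2, tendsto_nhds_unique
    ((((hasDerivAt_wp h2).continuousAt.tendsto.comp h3).pow 3).const_mul _) h1⟩

section
variable (h : c0 ∉ LG.lattice ∧ CL.toC (star p7) * ℘[LG] c0 ^ 3 = 27)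
include h

theorem l2_tors : CL.toC (star p7) * c0 ∈ LG.lattice := by
  have x0 : ℘[LG] c0 ≠ 0 := fun e => by simpa [e] using h.2
  have w := m7_ne
  have n1 : -(wC * c0) ∉ LG.lattice := mt (fun k => EW.I_mem_LG.1 (neg_mem_iff.1 k)) h.1
  have e1 : ℘[LG] (-(wC * c0)) = wC * ℘[LG] c0 := by rw [LG.weierstrassP_neg, EW.wp_I]
  have w1 : 1 - wC ≠ 0 := fun e => EW.wC_im (by rw [← sub_eq_zero.1 e]; simp)
  have n2 : c0 + -(wC * c0) ∉ LG.lattice := fun k => mul_ne_zero w1 x0 (by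
    linear_combination (wp_eq_iff h.1 n1).2 (.inl k) + e1)
  have n3 : c0 - -(wC * c0) ∉ LG.lattice := fun k => h.1 (EW.I_mem_LG.1 (EW.I_mem_LG.1 (by
    convert neg_mem k using 1
    linear_combination c0 * wC_sq)))
  have a1 := zet_add_formula h.1 n1 n2 n3
  have a2 := wp_add h.1 n1 n2 n3
  have a3 := wp_ode h.1
  have a4 := h.2
  rw [e1, LG.derivWeierstrassP_neg, EW.wp'_I] at a1
  rw [e1] at a2
  rw [p7_star] at a4 ⊢
  have a5 : ℘[LG] (c0 + -(wC * c0)) = ℘[LG] (-(wC * c0)) := by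
    rw [a2, e1]
    generalize zet LG _ - _ - _ = Z at a1
    refine mul_left_cancel₀ (mul_ne_zero (pow_ne_zero 2 w1) (pow_ne_zero 2 x0)) ?_
    linear_combination (-((1 - wC) * ℘[LG] c0 * Z + ℘'[LG] c0) / 2) * a1 + a3 + a4 +
      (5 - 2 * wC) * ℘[LG] c0 ^ 3 * wC_sq
  rcases (wp_eq_iff n2 n1).1 a5 with k | k
  · convert neg_mem (EW.I_mem_LG.2 k) using 1
    linear_combination -2 * c0 * wC_sq
  · exact absurd (by simpa using k) h.1

theorem l2_off (hu : u ^ 6 = 1) (hz : 0 < z.im) : CL.toC u * uu z - c0 ∉ LG.lattice := fun k => by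
  obtain ⟨a, b, -⟩ := wp_unit hu (uu z)
  have e := tt_wp hz fun e => h.1 (by simpa using sub_mem (a.2 e) k)
  have u6 : CL.toC u ^ 6 = 1 := by rw [← map_pow, hu, map_one]
  have := h.2
  rw [← l2_per k, b, mul_pow, ← pow_mul, show 4 * 3 = 6 * 2 from rfl, pow_mul, u6, one_pow,
    one_mul] at this
  exact l2_ne.2.2 (by linear_combination ((tt z - CL.toC p7) * this - e) / 27)

theorem l2_zero (hu : u ^ 6 = 1) :
    Bdd fun z => ℘[LG] (CL.toC u * uu (mob 0 (-1) 21 0 z) - c0) := by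
  have a := (tt_zero.sub_const (CL.toC p7)).const_mul (CL.toC (star p7))
  have a0 : CL.toC (star p7) * (0 - CL.toC p7) ≠ 0 := by simp [l2_ne.1, l2_ne.2.1]
  have ev : ∀ᶠ z in atI, 0 < z.im ∧ uu (mob 0 (-1) 21 0 z) ∉ LG.lattice ∧
      CL.toC (star p7) * (tt (mob 0 (-1) 21 0 z) - CL.toC p7) ≠ 0 := by
    filter_upwards [ev_pos, a.eventually_ne a0] with z hz e
    exact ⟨hz, fun k => e (by rw [(uu_mem (W21_pos hz)).1 k, sub_self, mul_zero]), e⟩
  refine bdd_add h.1 (ev.mono fun z k => ⟨mt (wp_unit hu _).1.1 k.2.1, l2_off h hu (W21_pos k.1),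
    fun e => l2_off h ((Even.neg_pow (by decide) u).trans hu) (W21_pos k.1) (by
      rwa [map_neg, neg_mul, ← neg_add', neg_mem_iff])⟩) ((((tt_zero.sub_const
        (CL.toC (star p7))).const_mul 27).div a a0).congr' (ev.mono fun z k => ?_)) fun e => ?_
  · have u6 : CL.toC u ^ 6 = 1 := by rw [← map_pow, hu, map_one]
    beta_reduce
    rw [(wp_unit hu _).2.1, mul_pow, ← pow_mul, show 4 * 3 = 6 * 2 from rfl, pow_mul, u6, one_pow,
      one_mul, Pi.div_apply, ← tt_wp (W21_pos k.1) k.2.1, mul_div_cancel_left₀ _ k.2.2]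
  · rw [sub_eq_zero, div_eq_iff a0] at e
    exact l2_ne.2.2 (by linear_combination (e - CL.toC p7 * h.2) / 27)

theorem l2_near (hw : Tendsto (fun z => (uu z - c0) / q1 z) atI (𝓝 r)) {i : ZMod 6} {c : O}
    (e : u - 1 = ip i + c * star p7) :
    (fun z => ℘[LG] (CL.toC u * uu z - c0) - CL.toC (ip i) ^ 4 * ℘[LG] c0) =O[atI] q1 := by
  obtain ⟨a, b, -⟩ := wp_unit ((by decide : ∀ i, ip i ^ 6 = 1) i) c0
  have h1 : (fun z => CL.toC u * (uu z - c0)) =O[atI] q1 :=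
    (isBigO_of_div_tendsto_nhds (.of_forall fun z e => absurd e (q1_ne z)) r hw).const_mul_left _
  have h2 := (h1.trans_tendsto tendsto_q1).const_add (CL.toC (ip i) * c0)
  rw [add_zero] at h2
  refine ((hasDerivAt_wp (mt a.1 h.1)).isBigO_sub.comp_tendsto h2).congr_left (fun z => ?_)
    |>.trans (h1.congr_left fun z => by simp)
  rw [Function.comp, b, l2_per (y := CL.toC u * uu z - c0)]
  convert neg_mem (mul_mem_LG c (l2_tors h)) using 1
  rw [← mul_assoc, ← map_mul, ← sub_eq_iff_eq_add'.2 e, map_sub, map_sub, map_one]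
  ring

end

/-- The quotient that is constant. -/
noncomputable def RQ (c0 : ℂ) (k : ℤ) (z : ℂ) : ℂ :=
  (℘[LG] (CL.toC (star (nb k)) * uu z - c0) - wC * ℘[LG] c0) / VU k z

theorem RQ_congr {j : ℤ} (h : 21 ∣ k - j) (hz : 0 < z.im) : RQ c0 k z = RQ c0 j z := by
  rw [RQ, RQ, VU_congr hz h, (ZMod.intCast_eq_intCast_iff_dvd_sub j k 21).2 h]

theorem RQ_of {w : ℂ} {j : ℤ} {χ : O} (h : uu w - CL.toC χ * uu z ∈ LG.lattice)
    (e : χ = star (nb j)) (hV : VU k w = VU (k * j) z) : RQ c0 k w = RQ c0 (k * j) z := by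
  rw [RQ, RQ, hV, l2_per (y := CL.toC (star (nb (k * j : ℤ))) * uu z - c0)]
  convert mul_mem_LG (star (nb k)) h using 1
  rw [e, Int.cast_mul, nb_mul, star_mul', map_mul]
  ring

theorem RQ_mob {a b c d : ℤ} (h : a * d - b * (21 * c) = 1) (hz : 0 < z.im) :
    RQ c0 k (mob a b (21 * c) d z) = RQ c0 (k * a) z :=
  RQ_of (uu_mob h hz) (nb_inv _ _ (det_cast h)).2.1 (VU_mob h hz)

theorem RQ_W3 (hz : 0 < z.im) : RQ c0 k (mob 3 (-1) 21 (-6) z) = RQ c0 (k * -16) z := by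
  refine RQ_of (χ := om) (EW.om_coe ▸ uu_W3 hz) (by decide) ?_
  rw [← VU_iz hz, ← VU_mob (b := -7) (c := -5) (d := -46) (by norm_num) (iz_pos hz), iz,
    mob_mob (by norm_num) _ _ _ _ hz]
  norm_num

theorem l2_tab : ∀ k ∈ Finset.Ico (0 : ℤ) 21, Int.gcd k 21 = 1 → star (nb k) ^ 6 = 1 ∧
    oP 1 21 0 k + oP 3 7 4 k = 0 ∧ (nb k = 1 ∧ oP 21 1 1 k + oP 7 3 3 k = -84 ∨
      ∃ i j : ZMod 6, ∃ c ∈ [(0 : O), 1], star (nb k) - 1 = ip i + c * ip j * star p7 ∧
        (oP 21 1 1 k + oP 7 3 3 k = 0 ∨ oP 21 1 1 k + oP 7 3 3 k = 42 ∧ ip i ^ 4 = om)) := by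
  decide +kernel

theorem l2_third : q1 (2 / 3) = wC ^ 2 := by
  rw [← EW.om_coe, CL.toC_om, ← exp_nat_mul, q1]
  congr 1
  push_cast
  ring

theorem RQ_bdd (h0 : r ≠ 0) (hw : Tendsto (fun z => (uu z - c0) / q1 z) atI (𝓝 r))
    (hk : IsCoprime k 21) : Bdd (RQ c0 k) ∧ Bdd fun z => RQ c0 k (mob 0 (-1) 21 0 z) := by
  have h := l2_cusp h0 hw
  wlog h1 : k ∈ Finset.Ico (0 : ℤ) 21 generalizing k
  · obtain ⟨a, b⟩ := this (k := k % 21) (by rwa [Int.emod_def, IsCoprime.sub_mul_left_left_iff])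
      (Finset.mem_Ico.2 (by omega))
    exact ⟨a.congr fun z => RQ_congr (by omega),
      b.congr fun z hz => RQ_congr (by omega) (W21_pos hz)⟩
  obtain ⟨t1, t2, t3⟩ := l2_tab k h1 (Int.isCoprime_iff_gcd_eq_one.1 hk)
  refine ⟨(od_inf (Subfield.mem_top _) hk).bdd ?_, (od_zero hk).bdd ?_⟩
  · rcases t3 with ⟨a, b⟩ | ⟨i, j, c, -, e, b | ⟨b, d⟩⟩ <;> rw [b]
    · refine (Bdd.of_tendsto ((((wp_pole LG).comp (l2_w h0 hw)).mul ((hw.inv₀ h0).pow 2)).sub
        ((tendsto_q1.pow 2).const_mul (wC * ℘[LG] c0)))).congr' ?_ EventuallyEq.rfl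
      filter_upwards [(l2_w h0 hw).eventually eventually_mem_nhdsWithin] with z (e : _ ≠ _)
      have := q1_ne z
      rw [a, star_one, map_one, one_mul, show ((-84 : ℤ) : ℂ) * z / 42 = (-2 : ℤ) * z by
        push_cast; ring, q1_int_mul, Function.comp]
      field_simp
    · exact ((Bdd.of_tendsto ((l2_near h hw e).trans_tendsto tendsto_q1)).add (.const
        (CL.toC (ip i) ^ 4 * ℘[LG] c0 - wC * ℘[LG] c0))).congr fun z _ => by simp [Klein.q1_zero]
    · have := (l2_near h hw e).mul (isBigO_refl (fun z => (q1 z)⁻¹) atI)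
      rw [← map_pow, d, show CL.toC om = wC from EW.om_coe] at this
      simpa [Bdd, q1_ne, mul_div_cancel_left₀, ← div_eq_mul_inv] using this
  · simpa [t2, Klein.q1_zero] using (l2_zero h t1).sub (.const (wC * ℘[LG] c0))

theorem unit_spec (S : Subfield ℂ) (hS : wC ∈ S) : ∃ c0 β : ℂ, β ∈ S ∧ c0 ∉ LG.lattice ∧
    CL.toC (star p7) * c0 ∈ LG.lattice ∧ ∀ k : ℤ, IsCoprime k 21 → ∀ z : ℂ, 0 < z.im →
      CL.toC (star (nb k)) * uu z - c0 ∉ LG.lattice ∧
      ℘[LG] (CL.toC (star (nb k)) * uu z - c0) = ℘[LG] c0 * (wC + β * VU k z) := by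
  obtain ⟨c0, r, h0, hw⟩ := uu_cusp
  have h := l2_cusp h0 hw
  obtain ⟨β, hβ⟩ := const_one 21 (h := RQ c0 1) (fun z hz => by
      have := (hol_uu z hz).const_mul (CL.toC (star (nb (1 : ℤ)))) |>.sub_const c0
      exact (((hasDerivAt_wp (l2_off h (by decide) hz)).differentiableAt.comp z this).sub_const
        _).div (hol_VU isCoprime_one_left hz).1 (hol_VU isCoprime_one_left hz).2)
    (fun a b c d e k z hz => (RQ_mob e hz).trans (RQ_congr k hz)) fun a b c d e => by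
      obtain ⟨i, Q, k, α, β, γ, δ, q0, -, -, -, -, e1, e2⟩ := exists_decomp e
      have c1 : IsCoprime (1 * α) 21 := ⟨δ, -(β * γ), by linear_combination e1⟩
      have c2 := c1.mul_left (show IsCoprime (-16 : ℤ) 21 from ⟨-4, -3, by norm_num⟩)
      have b : Bdd fun z => RQ c0 (1 * α) (al i z) := by
        fin_cases i
        · exact (RQ_bdd h0 hw c1).1.congr fun z _ => congrArg _ (al_zero z)
        · exact (RQ_bdd h0 hw c2).1.congr fun z => RQ_W3
        · exact (RQ_bdd h0 hw c1).2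
        · exact (RQ_bdd h0 hw c2).2.congr fun z hz =>
            (congrArg _ (al_three hz)).trans (RQ_W3 (W21_pos hz))
      have q1 : (0 : ℝ) < (Q : ℝ)⁻¹ := inv_pos.2 (by exact_mod_cast q0)
      refine (b.comp_affine q1 (k / Q)).congr fun z hz => ?_
      have e3 : (((Q : ℝ)⁻¹ : ℝ) : ℂ) * z + k / Q = (z + k) / Q := by push_cast; ring
      rw [e2 z hz, e3, RQ_mob e1 (al_im_pos i ?_)]
      rw [← e3]
      simpa using mul_pos q1 hz
  have key : ∀ k : ℤ, IsCoprime k 21 → ∀ z : ℂ, 0 < z.im →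
      ℘[LG] (CL.toC (star (nb k)) * uu z - c0) - wC * ℘[LG] c0 = β * VU k z := fun k hk z hz => by
    obtain ⟨d, b, e⟩ := id hk
    have e1 : k * d - -b * (21 * 1) = 1 := by linear_combination e
    rw [← div_eq_iff (hol_VU hk hz).2, ← RQ, ← one_mul k, ← RQ_mob e1 hz,
      hβ _ (im_mob_pos (by omega) hz)]
  obtain ⟨c, c1, c2, c3⟩ := od_inf (k := 8) (l2_third ▸ pow_mem hS 2) ⟨8, -3, by norm_num⟩
  rw [show oP 21 1 1 8 + oP 7 3 3 8 = 0 by decide] at c3
  have e := ((l2_near h hw (u := star (nb (8 : ℤ))) (i := 1) (c := -om) (by decide)).trans_tendsto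
    tendsto_q1).add_const ((wC ^ 2 - wC) * ℘[LG] c0)
  have e1 := tendsto_nhds_unique e ((c3.const_mul β).congr' (ev_pos.mono fun z hz => by
    have := key 8 ⟨8, -3, by norm_num⟩ z hz
    rw [← map_pow, show ip 1 ^ 4 = om ^ 2 by decide, map_pow, show CL.toC om = wC from EW.om_coe]
    simp only [Int.cast_zero, zero_mul, zero_div, Klein.q1_zero, div_one]
    linear_combination -this))
  refine ⟨c0, (wC ^ 2 - wC) / c, div_mem (sub_mem (pow_mem hS 2) hS) c1, h.1, l2_tors h,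
    fun k hk z hz => ⟨l2_off h ?_ hz, ?_⟩⟩
  · obtain ⟨d, b, e⟩ := hk
    rw [← star_pow, nb_det_six (a := d) (b := -b) (c := 1) (by linear_combination e), star_one]
  · rw [← sub_eq_iff_eq_add.1 (key k hk z hz) |>.symm, eq_div_of_mul_eq c2 e1.symm]
    ring

end Pool.Agent.Lib.MP_696deb_nt.Y3
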