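import Pool.Agent.Lib.MP_696deb_nt.Y3.C1
import Pool.Agent.Lib.MP_696deb_nt.Y3.L2

/-! The algebraic points attached to bases and their transport. -/

set_option autoImplicit false

open scoped Classical
open Complex Finset PeriodPair Pool.Agent.Shared.Weier

namespace Pool.Agent.Lib.MP_696deb_nt.Y3

open EW hiding om
open CL (om wC Per)

variable {ω ω' ω'' : O × O} {m : ℕ} {p q r s : ℤ} {g g' e e' : O} {P : A}

theorem nb_cop (h : IsCoprime p 21) : nb p * star (nb p) = 1 ∧ nb p ^ 6 = 1 := by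
  have key : ∀ a b : ZMod 21, b * a = 1 → nb a * star (nb a) = 1 ∧ nb a ^ 6 = 1 := by
    decide +kernel
  obtain ⟨u, v, e⟩ := h
  have := congrArg (Int.cast (R := ZMod 21)) e
  push_cast at this
  exact key _ u (by rwa [show (21 : ZMod 21) = 0 from rfl, mul_zero, add_zero] at this)

theorem nb_cong {p' : ℤ} (h : 21 ∣ p - p') : nb p = nb p' := by
  rw [(ZMod.intCast_eq_intCast_iff_dvd_sub p' p 21).2 h]

theorem six_ip (he : e ^ 6 = 1) : ∃ k, e = ip k := by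
  have h : nm e ^ 6 = 1 := by rw [CL.nm_eq, ← map_pow, he, map_one]
  obtain ⟨k, e | e⟩ := CL.nm_eq_one
    ((pow_eq_one_iff_of_nonneg (CL.nm_nonneg e) (by norm_num)).1 h) <;>
  subst e <;> revert k <;> decide

theorem Tr.six (h : Tr g ω ω' e) : e ^ 6 = 1 := by
  obtain ⟨p, q, r, s, -, h, rfl⟩ := h
  rw [← star_pow, (nb_cop h).2, star_one]

theorem Tr.refl (ω : O × O) : Tr 1 ω ω 1 :=
  ⟨1, 0, 0, 1, by simp [mv], isCoprime_one_left, by decide⟩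

theorem Tr.trans (h : Tr g ω ω' e) (h' : Tr g' ω' ω'' e') : Tr (g * g') ω ω'' (e * e') := by
  obtain ⟨p, q, r, s, h1, h5, rfl⟩ := h
  obtain ⟨p', q', r', s', k1, k5, rfl⟩ := h'
  refine ⟨p * p' + q * (21 * r'), p * q' + q * s', r * p' + s * r', 21 * r * q' + s * s', ?_, ?_,
    ?_⟩
  · simp only [mv, Prod.mk.injEq] at h1 k1 ⊢
    push_cast at h1 k1 ⊢
    exact ⟨by linear_combination g' * h1.1 + p * k1.1 + q * k1.2,
      by linear_combination g' * h1.2 + 21 * r * k1.1 + s * k1.2⟩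
  · rw [mul_left_comm]
    exact (h5.mul_left k5).add_mul_left_left _
  · rw [nb_cong (p := p * p' + q * (21 * r')) (p' := p * p') ⟨q * r', by ring⟩,
      Int.cast_mul, nb_mul, star_mul']

theorem Tr.uniq (h0 : dt ω' ≠ 0) (h : Tr g ω ω' e) (h' : Tr g ω ω' e') : e = e' := by
  obtain ⟨p, q, r, s, h1, -, rfl⟩ := h
  obtain ⟨p', q', r', s', k1, -, rfl⟩ := h'
  rw [(mv_inj h0 (h1.symm.trans k1)).1]

theorem co_smul (he : e ^ 6 = 1) (P : A) :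
    xco (e • P) = io e ^ 4 * xco P ∧ yh (e • P) = io e ^ 3 * yh P := by
  obtain ⟨k, rfl⟩ := six_ip he
  have h : ∀ P : A, xco ((⟨1, 1⟩ : O) • P) = io ⟨1, 1⟩ ^ 4 * xco P ∧
      yh ((⟨1, 1⟩ : O) • P) = io ⟨1, 1⟩ ^ 3 * yh P := fun P => by
    rw [← map_pow, ← map_pow, show (⟨1, 1⟩ : O) ^ 4 = CU.om * CU.om by decide,
      show (⟨1, 1⟩ : O) ^ 3 = -1 by decide, show (⟨1, 1⟩ : O) = -(CU.om * CU.om) by decide,
      neg_smul, mul_smul, xco_neg, co_neg, x_om, x_om, yh_om, yh_om, map_mul, io_om, map_neg,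
      map_one, mul_assoc, neg_one_mul]
    exact ⟨rfl, rfl⟩
  rw [ip]
  induction k.val with
  | zero => simp
  | succ n ih =>
    rw [pow_succ', mul_smul, (h _).1, (h _).2, ih.1, ih.2, map_mul, mul_pow, mul_pow, mul_assoc,
      mul_assoc]
    exact ⟨rfl, rfl⟩

theorem exists_Cz : ∃ (C : A) (b : Qbar), C ≠ 0 ∧ star p7 • C = 0 ∧ (∀ g ∈ GK 3, g b = b) ∧
    ∃ c0, cp C = un c0 ∧ ∀ k : ℤ, IsCoprime k 21 → ∀ z : ℂ, 0 < z.im →
      CL.toC (star (nb k)) * uu z - c0 ∉ LG.lattice ∧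
      ℘[LG] (CL.toC (star (nb k)) * uu z - c0) = ℘[LG] c0 * (wC + EW.jc b * VU k z) := by
  obtain ⟨c0, _, ⟨b, hb, rfl⟩, h1, h2, h3⟩ := unit_spec
    ((FixedPoints.subfield (GK 3) Qbar).map EW.jc)
    ⟨io CU.om, fun g => io_fix g.2 _, (jc_io _).trans om_coe⟩
  have p0 : star p7 ≠ 0 := by decide
  obtain ⟨a, ha⟩ := mem_LG.1 h2
  have e : cp (tq a (star p7)) = un c0 := by
    rw [cp_tq _ p0, ← ha, mul_div_cancel_left₀ _ (coe_ne p0)]
  exact ⟨_, b, mt (cp_ne e).2 h1, (cp_ne (cp_smul _ e)).1 h2, fun g hg => hb ⟨g, hg⟩, c0, e, h3⟩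

/-- The point over the cusp at infinity. -/
noncomputable def Cz : A := exists_Cz.choose

/-- The constant in front of the unit. -/
noncomputable def bz : Qbar := exists_Cz.choose_spec.choose

theorem Cz_ne : Cz ≠ 0 := exists_Cz.choose_spec.choose_spec.1

theorem Cz_kill : star p7 • Cz = 0 := exists_Cz.choose_spec.choose_spec.2.1

theorem bz_fix {σ : Gam} (h : σ ∈ GK 3) : σ bz = bz := exists_Cz.choose_spec.choose_spec.2.2.1 σ h

theorem Cz_spec : ∃ c0, cp Cz = un c0 ∧ ∀ k : ℤ, IsCoprime k 21 → ∀ z : ℂ, 0 < z.im →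
    CL.toC (star (nb k)) * uu z - c0 ∉ LG.lattice ∧
    ℘[LG] (CL.toC (star (nb k)) * uu z - c0) = ℘[LG] c0 * (wC + EW.jc bz * VU k z) :=
  exists_Cz.choose_spec.choose_spec.2.2.2

theorem jc_om : EW.jc (io CU.om) = wC := (jc_io _).trans om_coe

/-- The involution on bases. -/
def iw (ω : O × O) : O × O := mv 9 4 (-21) (-9) ω

/-- The algebraic value of the unit. -/
noncomputable def VV (g : O) (m : ℕ) (ω : O × O) : Qbar := kU (pq g m ω) * kU (pq g m (iw ω))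

theorem dt_iw : dt (iw ω) = 3 * dt ω := by rw [iw, dt_mv]; norm_num

theorem iw_pos (h : 0 < dt ω) : 0 < dt (iw ω) := by rw [dt_iw]; omega

theorem lev_iw (hl : 63 * dt ω ∣ m) : 21 * dt ω ∣ m ∧ 21 * dt (iw ω) ∣ m :=
  ⟨Dvd.dvd.trans ⟨3, by ring⟩ hl, by rwa [dt_iw, ← mul_assoc]⟩

theorem map_kU {F L : Type} [Field F] [Field L] (f : F →+* L) (p : ℤ → F) :
    f (kU p) = kU fun j => f (p j) := by
  simp only [kU, map_div₀, map_mul, map_sub]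

theorem c2_k (hd : 0 < dt ω) (hm : 0 < m) (hl : 21 * dt ω ∣ m) (hp : IsCoprime p 21) :
    EW.jc (kU fun j => pq 1 m ω (p * j)) = kU fun j => pL (tb ω) (p * j) := by
  have n : ∀ j : ℤ, 0 < j → j < 10 → ¬ 21 ∣ p * j := fun j a b h => by
    have := hp.symm.dvd_of_dvd_mul_left h
    omega
  rw [map_kU]
  refine kU_congr (pow_ne_zero 2 (div_ne_zero (Nat.cast_ne_zero.2 hm.ne')
    (mul_ne_zero (coe_ne (snd_ne hd.ne')) Om_ne))) fun i j a b c => ?_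
  rw [← map_sub, jc_pq hd hm hl (n i a (by omega)) (n j (by omega) c)]

theorem c2_V (hd : 0 < dt ω) (hm : 0 < m) (hl : 63 * dt ω ∣ m) (hp : IsCoprime p 21) :
    EW.jc (kU (fun j => pq 1 m ω (p * j)) * kU fun j => pq 1 m (iw ω) (p * j)) = VU p (tb ω) := by
  rw [map_mul, c2_k hd hm (lev_iw hl).1 hp, c2_k (iw_pos hd) hm (lev_iw hl).2 hp, iw,
    tb_mv hd.ne', VU, iz]

theorem pt_spec (hd : 0 < dt ω) : cp (Pz ω) = un (uu (tb ω)) := by
  have hl : 63 * dt ω ∣ ((63 * dt ω).natAbs : ℕ) := Int.dvd_natAbs.2 dvd_rfl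
  obtain ⟨c0, h1, h2⟩ := Cz_spec
  obtain ⟨h3, h4⟩ := h2 1 isCoprime_one_left _ (tb_pos hd)
  rw [Int.cast_one, nb_one, star_one, map_one, one_mul] at h3 h4
  obtain ⟨k, e⟩ := un_some h3
  obtain ⟨Q, hQ⟩ : ∃ Q : A, cp Q = un (uu (tb ω) - c0) := by
    refine exists_cp ?_
    rw [e, xco_some, h4, ← c2_V hd (by omega) hl isCoprime_one_left, ← (cp_co h1 Cz_ne).1,
      ← jc_om, ← map_mul, ← map_add, ← map_mul]
    exact (Algebra.IsAlgebraic.isAlgebraic _).algHom EW.jc.toRatAlgHom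
  have h : ∃ P : A, cp P = un (uu (tb ω)) :=
    ⟨Q + Cz, by rw [map_add, hQ, h1, ← map_add, sub_add_cancel]⟩
  rw [Pz, dif_pos h]
  exact h.choose_spec

theorem pt_mul (hg : g ≠ 0) : Pz (g * ω.1, g * ω.2) = Pz ω := by
  simp only [Pz, tb_mul hg]

/-- The change of basis. -/
theorem pt_tr (hd : 0 < dt ω') (h : Tr g ω ω' e) (hg : nm g * dt ω = dt ω') :
    Pz ω = e • Pz ω' := by
  obtain ⟨p, q, r, s, h1, -, rfl⟩ := h
  have g0 : g ≠ 0 := fun e => hd.ne (by rw [← hg, CL.nm_eq_zero.2 e, zero_mul])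
  have d0 : 0 < dt ω := (mul_pos_iff_of_pos_left (nm_pos g0)).1 (hg ▸ hd)
  have h2 : p * s - q * (21 * r) = 1 := by
    have := congrArg dt h1
    rw [dt_mul, dt_mv, hg] at this
    exact mul_right_cancel₀ hd.ne' (this.symm.trans (one_mul _).symm)
  have h3 : (p : ZMod 21) * s = 1 := by
    rw [← Int.cast_mul, ← Int.cast_one]
    exact (ZMod.intCast_eq_intCast_iff_dvd_sub _ _ 21).2 ⟨-(q * r), by linear_combination -h2⟩
  refine cp_inj ?_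
  rw [pt_spec d0, cp_smul _ (pt_spec hd), ← sub_eq_zero, ← map_sub, un_eq_zero, ← tb_mul g0, h1,
    tb_mv hd.ne', ← (nb_inv _ _ h3).2.1]
  exact uu_mob h2 (tb_pos hd)

/-- Multiplication by `g` transports the traces. -/
theorem pq_map (hm : 0 < m) (h : (g * ω.1, g * ω.2) = mv p q (21 * r) s ω') (hp : IsCoprime p 21)
    (hd : dt ω' ≠ 0) (hl : 21 * dt ω' ∣ m) (inj : ∀ y, Lb ω y → (m : O) ∣ g * y → (m : O) ∣ y)
    (surj : ∀ y', Lb ω' y' → ∃ y, Lb ω y ∧ (m : O) ∣ g * y - y') (j : ℤ) :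
    pq g m ω j = pq 1 m ω' (p * j) := by
  have m0 := c1_ne hm
  obtain ⟨h1, h2⟩ := Prod.mk.inj h
  push_cast at h2
  have key : ∀ y, g • (j • Sp m ω + tq y m) =
      (1 : O) • ((p * j) • Sp m ω' + tq (j * q * ω'.2 + g * y) m) := fun y => by
    rw [Sp_add hm, Sp_add hm, smul_tq _ _ m0, one_smul]
    congr 1
    push_cast
    linear_combination j * h1
  have hφ : ∀ y, tq (j * q * ω'.2) m + g • tq y m = tq (j * q * ω'.2 + g * y) m :=
    fun y => by rw [smul_tq _ _ m0, tq_add m0]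
  refine sum_nbij (fun S => tq (j * q * ω'.2) m + g • S) (fun S hS => ?_)
    (fun S hS S' hS' e => ?_) (fun S hS => ?_) fun S hS => ?_
  · obtain ⟨y, ⟨a, b, rfl⟩, rfl⟩ := (mem_Cs hm).1 hS
    refine (mem_Cs hm).2 ⟨_, ⟨a * p + b * r, j * q + 21 * a * q + b * s, ?_⟩, hφ _⟩
    push_cast
    linear_combination 21 * a * h1 + b * h2
  · obtain ⟨y, hy, rfl⟩ := (mem_Cs hm).1 hS
    obtain ⟨y', hy', rfl⟩ := (mem_Cs hm).1 hS'
    obtain ⟨a, b, e1⟩ := hy.lb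
    obtain ⟨c, d, e2⟩ := hy'.lb
    simp only [hφ, tq_iff m0, add_sub_add_left_eq_sub, ← mul_sub] at e
    exact (tq_iff m0).2 (inj _ ⟨a - c, b - d, by rw [e1, e2]; push_cast; ring⟩ e)
  · obtain ⟨y', hy', rfl⟩ := (mem_Cs hm).1 hS
    have l1 : La ω' (y' + -(j * q * ω'.2)) := hy'.add ⟨0, -(j * q), by push_cast; ring⟩
    obtain ⟨y, ⟨a, b, rfl⟩, z, hz⟩ := surj _ l1.lb
    obtain ⟨c, d, e⟩ := l1.add (La_lev hl z)
    obtain ⟨e1, -⟩ := c1_ind hd (p := a * p + 21 * (r * b)) (q := q * a + s * b) (p' := 21 * c)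
      (q' := d) (by
        push_cast
        linear_combination e + hz - a * h1 - b * h2)
    obtain ⟨a0, rfl⟩ : 21 ∣ a := hp.symm.dvd_of_dvd_mul_right ⟨c - r * b, by linear_combination e1⟩
    refine ⟨_, (mem_Cs hm).2 ⟨_, ⟨a0, b, rfl⟩, rfl⟩, (hφ _).trans ((tq_iff m0).2 ⟨z, ?_⟩)⟩
    push_cast at hz
    linear_combination hz
  · obtain ⟨y, -, rfl⟩ := (mem_Cs hm).1 hS
    rw [key, hφ]

theorem Lb_iw {y : O} : Lb (iw ω) y ↔ ∃ a b : ℤ, y = 3 * a * ω.1 + b * ω.2 := by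
  refine ⟨fun ⟨a, b, e⟩ => ⟨3 * a - 7 * b, 4 * a - 9 * b, ?_⟩,
    fun ⟨a, b, e⟩ => ⟨7 * b - 9 * a, 3 * b - 4 * a, ?_⟩⟩ <;>
  simp only [e, iw, mv] <;> push_cast <;> ring

/-- The first coordinate of the transported point. -/
theorem res (hm : 0 < m) (h : Tr g ω ω' e) (hd : 0 < dt ω') (hω : dt ω = dt ω')
    (h3 : nm g % 3 = 1) (hl : 63 * dt ω' ∣ m) (inj : ∀ y, Lb ω y → (m : O) ∣ g * y → (m : O) ∣ y)
    (surj : ∀ y', Lb ω' y' → ∃ y, Lb ω y ∧ (m : O) ∣ g * y - y') :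
    (∃ p : ℤ, IsCoprime p 21 ∧ (∀ j, pq g m ω j = pq 1 m ω' (p * j)) ∧
      ∀ j, pq g m (iw ω) j = pq 1 m (iw ω') (p * j)) ∧
    e • Pz ω' - Cz ≠ 0 ∧ xco (e • Pz ω' - Cz) = xco Cz * (io CU.om + bz * VV g m ω) := by
  obtain ⟨p, q, r, s, h1, hp, rfl⟩ := h
  have h2 : nm g = p * s - q * (21 * r) := mul_right_cancel₀ hd.ne' (by
    rw [← dt_mv, ← h1, dt_mul, hω])
  obtain ⟨t, ht⟩ := three_dvd (h2 ▸ h3)
  have H := pq_map hm h1 hp hd.ne' (lev_iw hl).1 inj surj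
  have c1 : 21 ∣ -27 * p - 252 * r + 63 * q + 28 * s - p :=
    ⟨3 * q - 12 * r - 4 * t, by linear_combination -28 * ht⟩
  have H' : ∀ j, pq g m (iw ω) j = pq 1 m (iw ω') (p * j) := fun j => by
    refine (pq_map hm (p := -27 * p - 252 * r + 63 * q + 28 * s)
      (q := -12 * p - 112 * r + 27 * q + 12 * s) (r := 3 * p + 27 * r - 7 * q - 3 * s)
      (s := 28 * p + 252 * r - 63 * q - 27 * s) ?_ ?_ (iw_pos hd).ne' (lev_iw hl).2
      (fun y hy => inj y ?_) (fun y' hy => ?_) j).trans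
      (pq_per hm (sub_mul _ p j ▸ c1.mul_right j))
    · rw [iw, iw, mul_mv, h1, mv_mv, mv_mv]
      congr 1 <;> ring
    · obtain ⟨k, hk⟩ := c1
      rw [eq_add_of_sub_eq' hk]
      exact hp.add_mul_left_left k
    · obtain ⟨a, b, rfl⟩ := Lb_iw.1 hy
      exact ⟨3 * a, b, by push_cast; rfl⟩
    · obtain ⟨a, b, rfl⟩ := Lb_iw.1 hy
      obtain ⟨_, ⟨c, d, rfl⟩, z, hz⟩ := surj _ ⟨3 * a, b, rfl⟩
      obtain ⟨x, y, k⟩ := La_lev (lev_iw hl).1 z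
      obtain ⟨k1, k2⟩ := Prod.mk.inj h1
      obtain ⟨e1, -⟩ := c1_ind hd.ne' (p := c * p + 21 * (r * d)) (q := q * c + s * d)
        (p' := 21 * x + 3 * a) (q' := y + b) (by
          push_cast at hz k2 ⊢
          linear_combination k + hz - c * k1 - d * k2)
      obtain ⟨c, rfl⟩ : 3 ∣ c := (hp.symm.of_isCoprime_of_dvd_left ⟨7, rfl⟩).dvd_of_dvd_mul_right
        ⟨7 * x + a - 7 * (r * d), by linear_combination e1⟩
      exact ⟨_, Lb_iw.2 ⟨c, d, rfl⟩, z, by push_cast at hz; exact hz⟩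
  refine ⟨⟨p, hp, H, H'⟩, ?_⟩
  obtain ⟨c0, k1, k2⟩ := Cz_spec
  obtain ⟨k3, k4⟩ := k2 p hp _ (tb_pos hd)
  have k5 : cp (star (nb p) • Pz ω' - Cz) = un (CL.toC (star (nb p)) * uu (tb ω') - c0) := by
    rw [map_sub, map_sub, cp_smul _ (pt_spec hd), k1]
  have k6 := mt (cp_ne k5).2 k3
  refine ⟨k6, EW.jc.injective ?_⟩
  rw [(cp_co k5 k6).1, k4, map_mul, map_add, map_mul, jc_om, VV, funext H, funext H',
    c2_V hd hm hl hp, (cp_co k1 Cz_ne).1]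

theorem pt_x (hm : 0 < m) (hd : 0 < dt ω) (hl : 63 * dt ω ∣ m) :
    Pz ω - Cz ≠ 0 ∧ xco (Pz ω - Cz) = xco Cz * (io CU.om + bz * VV 1 m ω) := by
  simpa using (res hm (Tr.refl ω) hd rfl (by decide) hl (fun y _ h => by simpa using h)
    fun y h => ⟨y, h, by simp⟩).2

/-- A matrix that changes the sign of the point. -/
def g8 (ω : O × O) : O × O := mv 8 3 21 8 ω

theorem dt_g8 : dt (g8 ω) = dt ω := by rw [g8, dt_mv]; norm_num

theorem tr_g8 (ω : O × O) : Tr 1 (g8 ω) ω (-1) :=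
  ⟨8, 3, 1, 8, by simp [g8], ⟨8, -3, by norm_num⟩, by decide⟩

theorem Tr.g8 (h : Tr g ω ω' e) : Tr g (g8 ω) ω' (-e) := by simpa using (tr_g8 ω).trans h

theorem pt_g8 (hd : 0 < dt ω) : Pz (g8 ω) = -Pz ω := by
  rw [pt_tr hd (tr_g8 ω) (by rw [dt_g8]; exact one_mul _), neg_one_smul]

theorem Lb_g8 {y : O} : Lb (g8 ω) y ↔ Lb ω y := by
  refine ⟨fun ⟨a, b, e⟩ => ⟨8 * a + 21 * b, 3 * a + 8 * b, ?_⟩,
    fun ⟨a, b, e⟩ => ⟨8 * a - 21 * b, 8 * b - 3 * a, ?_⟩⟩ <;>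
  simp only [e, g8, mv] <;> push_cast <;> ring

namespace Fam

variable {ι : Type} {F : Fam ι} {d : ℕ}

theorem Ok.dpos (h : F.Ok d) (j : ι) : 0 < dt (F.w j) := by
  rw [h.det]
  exact_mod_cast h.pos

theorem Ok.cp_pt (h : F.Ok d) (j : ι) : cp (F.pt j) = un (F.z j) := cp_smul _ (pt_spec (h.dpos j))

theorem Ok.pt_ne (h : F.Ok d) (nz : F.Nz) (j : ι) : F.pt j ≠ 0 := fun e =>
  nz j ((cp_ne (pt_spec (h.dpos j))).2
    ((IsUnit.of_pow_eq_one (h.six j) (by norm_num)).smul_eq_zero.1 e))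

end Fam

end Pool.Agent.Lib.MP_696deb_nt.Y3
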