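import Pool.Agent.Lib.MP_696deb_nt.Y3.C2

/-! The Galois action on the points with complex multiplication. -/

set_option autoImplicit false

open scoped Classical
open Complex Finset PeriodPair Pool.Agent.Shared.Weier

namespace Pool.Agent.Lib.MP_696deb_nt.Y3

open EW hiding om
open CL (om wC Per)

variable {ω ω' : O × O} {a b e : O} {g : Gam}

theorem c3_dvd : star p7 ∣ a ↔ r7 (star a) = 0 := by
  refine ⟨fun ⟨c, h⟩ => by rw [h, star_mul', r7_mul, show r7 (star (star p7)) = 0 by decide,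
    zero_mul], fun h => ?_⟩
  obtain ⟨c, hc⟩ := (ZMod.intCast_zmod_eq_zero_iff_dvd (a.re - 3 * a.im) 7).1 (by
    rw [← h, r7]
    simp
    ring)
  refine ⟨⟨c, a.im + 3 * c⟩, QuadraticAlgebra.ext ?_ ?_⟩ <;> simp [p7] <;> omega

theorem c3_sub : star p7 ∣ a - b ↔ r7 (star a) = r7 (star b) := by
  rw [c3_dvd, star_sub, ← add_left_inj (r7 (star b)), ← r7_add, sub_add_cancel, zero_add]

theorem c3_seven : star p7 ∣ 7 := c3_dvd.2 (by decide)

theorem eb_congr (h : (7 : O) ∣ a - b) : eb a = eb b := by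
  rw [eb, eb, c3_sub.1 (c3_seven.trans h)]

theorem eb_six (h : IsCoprime a 7) : eb a ^ 6 = 1 := (ep_unit _ fun k =>
  absurd (isUnit_iff.1 (h.isUnit_of_dvd' (c3_dvd.2 k) c3_seven)) (by decide)).2.1

theorem eb_Cz (a : O) : a • Cz = eb a • Cz := by
  obtain ⟨c, h⟩ : star p7 ∣ a - eb a :=
    c3_sub.2 ((by decide : ∀ r : ZMod 7, r7 (star (ep r)) = r) _).symm
  rw [← sub_eq_zero, ← sub_smul, h, mul_comm, mul_smul, Cz_kill, smul_zero]

theorem four_Cz (h : a ^ 6 = 1) : (4 : O) • a • Cz ≠ 0 := fun e => Cz_ne (by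
  have k : (1 : O) = a ^ 5 * 2 * (4 * a) - p7 * star p7 := by
    rw [show p7 * star p7 = 7 by decide]
    linear_combination -8 * h
  rw [← one_smul O Cz, k, sub_smul, mul_smul, mul_smul 4, e, mul_smul p7, Cz_kill, smul_zero,
    smul_zero, sub_zero])

theorem nm_cop {m : ℕ} (h : IsCoprime a m) : IsCoprime (nm a) m := by
  obtain ⟨u, v, e⟩ := h
  have k := congrArg nm (eq_sub_of_add_eq e)
  rw [CL.nm_mul] at k
  refine ⟨nm u, 2 * v.re - v.im - m * nm v, ?_⟩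
  rw [k]
  simp [nm, QuadraticAlgebra.re_one, QuadraticAlgebra.im_one]
  ring

theorem c3_surj {m : ℕ} (h0 : dt ω ≠ 0) (hd' : dt ω' = dt ω) (hc : IsCoprime a m)
    (h : Tr a ω ω' e) (y' : O) (hy : Lb ω' y') : ∃ y, Lb ω y ∧ (m : O) ∣ a * y - y' := by
  obtain ⟨p, q, r, s, h1, -⟩ := h
  obtain ⟨α, β, rfl⟩ := hy
  have h2 : nm a = p * s - q * (21 * r) :=
    mul_right_cancel₀ h0 (by rw [← dt_mul, h1, dt_mv, hd'])
  obtain ⟨c, d, k3⟩ := nm_cop hc
  have k4 := congrArg (Int.cast : ℤ → O) (h2 ▸ k3)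
  have e1 := congrArg Prod.fst h1
  have e2 := congrArg Prod.snd h1
  simp only [mv] at e1 e2
  push_cast at k4 e1 e2
  refine ⟨_, ⟨c * (α * s - β * (21 * r)), c * (β * p - α * q), rfl⟩,
    -(d * (α * ω'.1 + β * ω'.2)), ?_⟩
  push_cast
  linear_combination c * (α * s - β * (21 * r)) * e1 + c * (β * p - α * q) * e2 +
    (α * ω'.1 + β * ω'.2) * k4

theorem lev_dvd {m : ℕ} (hl : 63 * dt ω ∣ m) : (3 : O) ∣ m ∧ (7 : O) ∣ m := by
  have h : (63 : O) ∣ m := by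
    exact_mod_cast map_dvd (Int.castRingHom O) ((dvd_mul_right 63 (dt ω)).trans hl)
  exact ⟨Dvd.dvd.trans ⟨21, by norm_num⟩ h, Dvd.dvd.trans ⟨9, by norm_num⟩ h⟩

theorem gal_x (hg : g ∈ GK 3) (hd : 0 < dt ω) (hd' : dt ω' = dt ω) {m : ℕ} (hm : 0 < m)
    (hl : 63 * dt ω ∣ m) (h : Tr (cm m g) ω ω' e) :
    g • Pz ω - eb (cm m g) • Cz = (eb (cm m g) * e) • Pz ω' - eb (cm m g) • Cz ∨
    g • Pz ω - eb (cm m g) • Cz = -((eb (cm m g) * e) • Pz ω' - eb (cm m g) • Cz) := by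
  have m0 := c1_ne hm
  have c0 := cm_cop m0 hg
  have h4 := eb_six (c0.of_isCoprime_of_dvd_right (lev_dvd hl).2)
  have h7 : ∀ ω j, g (pq 1 m ω j) = pq (cm m g) m ω j := fun ω j => by
    rw [pq, pq, map_sum]
    exact sum_congr rfl fun S hS => by rw [← cm_spec m0 hg (Sp_kill hm hS j), xco_act, one_smul]
  have h3 := prim_norm (prim_iff.2 (cm_prim m0 (lev_dvd hl).1 hg))
  have := CL.nm_nonneg (cm m g)
  obtain ⟨-, a1, a2⟩ := res hm h (hd' ▸ hd) hd'.symm (by omega) (hd' ▸ hl)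
    (fun y _ k => c0.symm.dvd_of_dvd_mul_left k) (c3_surj hd.ne' hd' c0 h)
  obtain ⟨b1, b2⟩ := pt_x hm hd hl
  have h8 : g • Cz = eb (cm m g) • Cz := by
    obtain ⟨c, k⟩ := c3_seven.trans (lev_dvd hl).2
    rw [cm_spec m0 hg (by rw [k, mul_comm, mul_smul, Cz_kill, smul_zero]), eb_Cz]
  rw [mul_smul, ← smul_sub, ← h8, ← smul_sub]
  refine x_eq (mt (smul_eq_zero_iff_eq g).1 b1)
    (mt (IsUnit.of_pow_eq_one h4 (by norm_num)).smul_eq_zero.1 a1) ?_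
  rw [(co_smul h4 _).1, a2, ← mul_assoc, ← (co_smul h4 _).1, ← h8, xco_act, xco_act, b2, map_mul,
    map_add, map_mul, io_fix hg, bz_fix hg]
  simp only [VV, kU, map_div₀, map_mul, map_sub, h7]

theorem gal (hg : g ∈ GK 3) (hd : 0 < dt ω) (hd' : dt ω' = dt ω) {m : ℕ} (hm : 0 < m)
    (hl : 63 * dt ω ∣ m) (h : Tr (cm m g) ω ω' e) : g • Pz ω = (eb (cm m g) * e) • Pz ω' := by
  have h1 := gal_x hg hd hd' hm hl h
  have h2 := gal_x hg (by rwa [dt_g8]) (hd'.trans dt_g8.symm) hm (by rwa [dt_g8]) h.g8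
  rw [pt_g8 hd, smul_neg, mul_neg, neg_smul, sub_left_inj, neg_inj] at h2
  refine h1.elim sub_left_inj.1 fun k1 => h2.elim id fun k2 => absurd ?_
    (four_Cz (eb_six ((cm_cop (c1_ne hm) hg).of_isCoprime_of_dvd_right (lev_dvd hl).2)))
  generalize g • Pz ω = P at k1 k2
  linear_combination (norm := module) -k1 - k2

theorem tw_smul {M : ℕ} {φ : O → O} (hg : g ∈ GK 3) (a : O) (P : A) :
    tw M φ g (a • P) = a • tw M φ g P := by
  rw [tw_apply, tw_apply, vm_smul hg, smul_comm]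

theorem Lk.tw_six {M : ℕ} {φ : O → O} (hL : Lk M φ) (hg : g ∈ GK 3) : φ (cm M g) ^ 6 = 1 :=
  hL.six _ (cm_cop (c1_ne hL.pos) hg)

/-- The twisted action permutes the points of a stable family. -/
theorem Fam.gal {ι : Type} {F : Fam ι} {d M N : ℕ} {φ : O → O} (hL : Lk M φ)
    (ok : F.Ok d) (hN : 0 < N) (st : F.Stable N fun a => φ a * eb a) (hg : g ∈ GK 3) :
    ∃ s : ι ≃ ι, ∀ j, tw M φ g (F.pt j) = F.pt (s j) := by
  have m1 : 0 < 63 * d * (M * N) := Nat.mul_pos (Nat.mul_pos (by norm_num) ok.pos)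
    (Nat.mul_pos hL.pos hN)
  have m0 := c1_ne m1
  have hl : ∀ j, 63 * dt (F.w j) ∣ (63 * d * (M * N) : ℕ) := fun j => by
    rw [ok.det]
    exact_mod_cast dvd_mul_right (63 * d) (M * N)
  obtain ⟨s, hs⟩ := st _ (prim_iff.2 (cm_prim m0 ⟨21 * d * (M * N), by push_cast; ring⟩ hg))
    ((cm_cop m0 hg).of_isCoprime_of_dvd_right (Nat.cast_dvd_cast ((dvd_mul_left N M).mul_left _)))
  refine ⟨s, fun j => ?_⟩
  obtain ⟨e, h1, h2⟩ := hs j
  rw [Fam.pt, Fam.pt, tw_smul hg, tw_apply, Y3.gal hg (ok.dpos j)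
    ((ok.det _).trans (ok.det j).symm) m1 (hl j) h1, h2,
    per_dvd hL.per (cm_dvd m0 (Nat.cast_dvd_cast ((dvd_mul_right M N).mul_left _)) hg),
    smul_smul, smul_smul]
  congr 1
  ring

end Pool.Agent.Lib.MP_696deb_nt.Y3
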