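import Pool.Agent.Lib.MP_696deb_nt.Y3.C3

/-! The congruence of Kronecker. -/

set_option autoImplicit false

open scoped Classical
open Complex Finset PeriodPair Pool.Agent.Shared.Weier

namespace Pool.Agent.Lib.MP_696deb_nt.Y3

open EW hiding om
open CL (om wC Per)

variable {ω ω' : O × O} {m l : ℕ} {r g e : O} {v : Plc}

theorem kr_ae {P : A} (h : P ≠ 0) : ∃ B : Finset ℕ, ∀ v : Plc, v.p ∉ B → P ∉ Kr v := by
  by_cases k : xco P = 0
  · exact ⟨∅, fun v _ e => (mem_Kr.1 e).elim h (by simp [k])⟩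
  · obtain ⟨B, hB⟩ := B2.finite_supp k
    exact ⟨B, fun v hv e => (mem_Kr.1 e).elim h (hB v hv).not_gt⟩

theorem c4_fin (s : Finset Qbar) :
    ∃ B : Finset ℕ, ∀ v : Plc, v.p ∉ B → ∀ x ∈ s, x ≠ 0 → v.V x = 1 := by
  induction s using Finset.induction_on with
  | empty => exact ⟨∅, by simp⟩
  | insert x s _ ih =>
    obtain ⟨B, hB⟩ := ih
    by_cases k : x = 0
    · exact ⟨B, fun v hv => forall_mem_insert _ _ _ |>.2 ⟨fun e => absurd k e, hB v hv⟩⟩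
    · obtain ⟨B', hB'⟩ := B2.finite_supp k
      exact ⟨B ∪ B', fun v hv => forall_mem_insert _ _ _ |>.2
        ⟨fun _ => hB' v fun e => hv (mem_union_right _ e), hB v fun e => hv (mem_union_left _ e)⟩⟩

/-- The place is good for the basis. -/
structure Gd (v : Plc) (m : ℕ) (ω : O × O) : Prop where
  lev : v.V (m : Qbar) = 1
  be : v.V bz ≤ 1
  un : ∀ i j : ℤ, ¬ 21 ∣ i → ¬ 21 ∣ j → ¬ 21 ∣ i - j → ¬ 21 ∣ i + j →
    v.V (pq 1 m ω i - pq 1 m ω j) = 1 ∧ v.V (pq 1 m (iw ω) i - pq 1 m (iw ω) j) = 1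

theorem c4_un (hd : 0 < dt ω) (hm : 0 < m) (h : 21 * dt ω ∣ m) :
    ∃ B : Finset ℕ, ∀ v : Plc, v.p ∉ B → ∀ i j : ℤ, ¬ 21 ∣ i → ¬ 21 ∣ j → ¬ 21 ∣ i - j →
      ¬ 21 ∣ i + j → v.V (pq 1 m ω i - pq 1 m ω j) = 1 := by
  refine (c4_fin ((Ico (0 : ℤ) 21 ×ˢ Ico (0 : ℤ) 21).image fun x =>
    pq 1 m ω x.1 - pq 1 m ω x.2)).imp fun B hB v hv i j hi hj h1 h2 =>
      hB v hv _ (mem_image.2 ⟨(i % 21, j % 21), ?_, ?_⟩) (pq_ne hd hm h hi hj h1 h2)
  · simp only [mem_product, mem_Ico]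
    omega
  · rw [pq_per (i := i % 21) (j := i) hm (by omega), pq_per (i := j % 21) (j := j) hm (by omega)]

theorem gd_ae (hd : 0 < dt ω) (hm : 0 < m) (h : 63 * dt ω ∣ m) :
    ∃ B : Finset ℕ, ∀ v : Plc, v.p ∉ B → Gd v m ω := by
  obtain ⟨B, hB⟩ := c4_fin {(m : Qbar), bz}
  obtain ⟨B1, h1⟩ := c4_un hd hm (lev_iw h).1
  obtain ⟨B2, h2⟩ := c4_un (iw_pos hd) hm (lev_iw h).2
  refine ⟨B ∪ (B1 ∪ B2), fun v hv => ?_⟩
  rw [notMem_union, notMem_union] at hv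
  refine ⟨hB v hv.1 _ (by simp) (Nat.cast_ne_zero.2 hm.ne'), ?_, fun i j a b c d =>
    ⟨h1 v hv.2.1 i j a b c d, h2 v hv.2.2 i j a b c d⟩⟩
  rcases eq_or_ne bz 0 with e | e
  · simp [e]
  · exact (hB v hv.1 _ (by simp) e).le

/-- Congruent units. -/
def C4g (v : Plc) (x y : Qbar) : Prop := v.V y = 1 ∧ v.V (x - y) < 1

theorem C4g.one {x y : Qbar} (h : C4g v x y) : v.V x = 1 := by
  rw [← sub_add_cancel x y, v.V.map_add_eq_of_lt_right (h.2.trans_eq h.1.symm), h.1]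

theorem C4g.mul {x y x' y' : Qbar} (h : C4g v x y) (k : C4g v x' y') : C4g v (x * x') (y * y') := by
  refine ⟨by rw [map_mul, h.1, k.1, one_mul], ?_⟩
  rw [show x * x' - y * y' = (x - y) * x' + y * (x' - y') by ring]
  exact v.V.map_add_lt (by simpa [k.one] using h.2) (by simpa [h.1] using k.2)

theorem C4g.div {x y x' y' : Qbar} (h : C4g v x y) (k : C4g v x' y') : C4g v (x / x') (y / y') := by
  rw [div_eq_mul_inv, div_eq_mul_inv]
  refine h.mul ⟨by rw [map_inv₀, k.1, inv_one], ?_⟩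
  rw [inv_sub_inv (fun e => by simpa [e] using k.one) (fun e => by simpa [e] using k.1),
    map_div₀, map_mul, k.one, k.1, one_mul, div_one, v.V.map_sub_swap]
  exact k.2

theorem V_kU {p p' : ℤ → Qbar} (h : ∀ j, ¬ 21 ∣ j → v.V (p j - p' j) < 1)
    (h' : ∀ i j : ℤ, ¬ 21 ∣ i → ¬ 21 ∣ j → ¬ 21 ∣ i - j → ¬ 21 ∣ i + j → v.V (p' i - p' j) = 1) :
    C4g v (kU p) (kU p') := by
  have b : ∀ i j : ℤ, ¬ 21 ∣ i ∧ ¬ 21 ∣ j ∧ ¬ 21 ∣ i - j ∧ ¬ 21 ∣ i + j →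
      C4g v (p i - p j) (p' i - p' j) := fun i j ⟨a, b, c, d⟩ => ⟨h' i j a b c d, by
    rw [sub_sub_sub_comm]
    exact v.V.map_sub_lt (h i a) (h j b)⟩
  exact ((b 1 5 (by decide)).mul (b 4 9 (by decide))).div
    ((b 1 4 (by decide)).mul (b 5 9 (by decide)))

theorem pq_scale (hl : 0 < l) (hr : nm r = l) (hd : 0 < dt ω) (hm : 0 < m) (h : 21 * dt ω ∣ m)
    {i j : ℤ} (hi : ¬ 21 ∣ i) (hj : ¬ 21 ∣ j) :
    pq 1 (m * l) (r * ω.1, r * ω.2) i - pq 1 (m * l) (r * ω.1, r * ω.2) j =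
      io (star r) ^ 2 * (pq 1 m ω i - pq 1 m ω j) := by
  have r0 : r ≠ 0 := fun e => hl.ne' (by exact_mod_cast hr.symm.trans (CL.nm_eq_zero.2 e))
  have e : (l : ℂ) = CL.toC r * CL.toC (star r) := by rw [← map_mul, CL.f3_mul hr, map_natCast]
  refine EW.jc.injective ?_
  rw [jc_pq (by rw [dt_mul, hr]; positivity) (mul_pos hm hl) (by
      rw [dt_mul, hr, mul_comm (l : ℤ), ← mul_assoc, Nat.cast_mul]
      exact mul_dvd_mul_right h _) hi hj, map_mul EW.jc, map_pow,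
    jc_io, jc_pq hd hm h hi hj, tb_mul r0, ← mul_assoc, ← mul_pow, Nat.cast_mul, e, map_mul]
  congr 2
  rw [mul_assoc, mul_left_comm, mul_div_mul_left _ _ (coe_ne r0), mul_comm, mul_div_assoc]

theorem mod_of_norm (hr : nm r = l) (hp : Prim r) : l % 3 = 1 := by
  simpa [hr] using prim_norm hp

theorem prime_of_norm (hl : l.Prime) (hr : nm r = l) (hp : Prim r) : Prime r :=
  CL.f3_prime hl (mod_of_norm hr hp) hr

theorem p_of_norm (hl : l.Prime) (hr : nm r = l) (hv : v.V (io r) < 1) : v.p = l := by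
  by_contra k
  exact hv.ne (V_io_one fun e => k ((Nat.prime_dvd_prime_iff_eq v.prime hl).1
    (Int.natCast_dvd_natCast.1 (hr ▸ e))))

theorem c4_cop_star (hl : l.Prime) (hr : nm r = l) (hp : Prim r) : IsCoprime r (star r) := by
  have h2 := mod_of_norm hr hp
  have h3 := Nat.prime_iff_prime_int.1 hl
  refine (prime_of_norm hl hr hp).irreducible.coprime_iff_not_dvd.2 fun d => ?_
  obtain ⟨c, e⟩ : r ∣ (r.im : O) * CU.th := by
    rw [show (r.im : O) * CU.th = r - star r by ext <;> simp [CU.th]; ring]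
    exact dvd_sub dvd_rfl d
  have h1 := congrArg nm e
  rw [CL.nm_mul, CL.nm_mul, CL.nm_int, hr, show nm CU.th = 3 by decide] at h1
  rw [nm] at hr
  obtain ⟨y, hy⟩ : (l : ℤ) ∣ r.im := h3.dvd_of_dvd_pow ((h3.dvd_or_dvd ⟨_, h1⟩).resolve_right
    fun k => by
      have := (Nat.prime_dvd_prime_iff_eq hl Nat.prime_three).1 (Int.natCast_dvd_natCast.1 k)
      omega)
  obtain ⟨x, hx⟩ : (l : ℤ) ∣ r.re := h3.dvd_of_dvd_pow (n := 2)
    ⟨1 + y * r.re - y * r.im, by linear_combination hr + (r.re - r.im) * hy⟩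
  exact h3.not_dvd_one ⟨x * x - x * y + y * y, mul_left_cancel₀ h3.ne_zero (by
    rw [hx, hy] at hr
    linear_combination -hr)⟩

theorem V_star (hl : l.Prime) (hr : nm r = l) (hp : Prim r) (hv : v.V (io r) < 1) :
    v.V (io (star r)) = 1 := by
  obtain ⟨a, b, e⟩ := c4_cop_star hl hr hp
  refine (V_io_le v _).eq_of_not_lt fun k => ?_
  have := v.V.map_add_lt (x := io (a * r)) (y := io (b * star r))
    (by rw [mul_comm, map_mul, map_mul]; exact mul_lt_one_of_lt_of_le hv (V_io_le v a))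
    (by rw [mul_comm, map_mul, map_mul]; exact mul_lt_one_of_lt_of_le k (V_io_le v b))
  rw [← map_add, e, map_one, map_one] at this
  exact this.false

theorem V_io_dvd {a b : O} (h : a ∣ b) (hb : v.V (io b) = 1) : v.V (io a) = 1 := by
  obtain ⟨c, rfl⟩ := h
  rw [map_mul, map_mul] at hb
  exact le_antisymm (V_io_le v a) (hb.ge.trans (mul_le_of_le_one_right' (V_io_le v c)))

theorem c4_near (hl : l.Prime) (hr : nm r = l) (hp : Prim r) (hv : v.V (io r) < 1) (hd : 0 < dt ω)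
    (hm : 0 < m) (lv : 21 * dt ω ∣ (m * l : ℕ)) (lev : v.V (m : Qbar) = 1)
    (h1 : m * star r ∣ g - 1)
    (inj : ∀ y, Lb ω y → ((m * l : ℕ) : O) ∣ g * y → ((m * l : ℕ) : O) ∣ y) (h2 : r ∣ g) (j : ℤ)
    (hj : ¬ 21 ∣ j) : v.V (pq 1 (m * l) ω j - pq g (m * l) ω j) < 1 := by
  have n0 := mul_pos hm hl.pos
  have n1 := c1_ne n0
  rw [pq, pq, ← sum_sub_distrib]
  refine v.V.map_sum_lt one_ne_zero fun S hS => ?_
  have k0 := Sp_ne hd n0 lv hj hS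
  have k1 := Sp_kill n0 hS j
  obtain ⟨y, hy, rfl⟩ := (mem_Cs n0).1 hS
  obtain ⟨a, b, rfl⟩ := hy.lb
  obtain ⟨c, hc⟩ := h1
  obtain ⟨c', rfl⟩ := h2
  have e0 : ((m * l : ℕ) : O) = r * (m * star r) := by
    rw [Nat.cast_mul, ← CL.f3_mul hr]; ring
  rw [Sp_add n0] at k0 k1 ⊢
  rw [one_smul, v.V.map_sub_swap]
  refine (near_of_Kr (fun k => k0 ?_)
    (mem_Kr_of (prime_of_norm hl hr hp) (prim_red hp) hv ?_)).1
  · have k2 := Kr_tors (n := m * star r) (by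
      rw [map_mul, map_mul, V_star hl hr hp hv, map_natCast, lev, one_mul]) k
      (by rw [smul_smul, mul_comm, mul_right_comm, ← e0, mul_comm, mul_smul, k1, smul_zero])
    rw [smul_tq _ _ n1, tq_eq_zero n1] at k2
    exact (tq_eq_zero n1).2 (inj _ ⟨j + a, b, by push_cast; ring⟩ k2)
  · rw [← one_smul O (tq _ _), smul_smul, mul_one, ← sub_smul, hc, smul_smul, ← mul_assoc, ← e0,
      mul_comm, mul_smul, k1, smul_zero]

theorem Gd.cz (gd : Gd v m ω) (h : 63 * dt ω ∣ m) : v.p ≠ 3 ∧ (4 : O) • Cz ∉ Kr v := by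
  have k : v.V (io m) = 1 := by rw [map_natCast, gd.lev]
  refine ⟨fun e => ?_, fun e => four_Cz (one_pow 6) ?_⟩
  · have := B2.b2a_p_lt v
    rw [e, ← map_natCast io, Nat.cast_ofNat, V_io_dvd (lev_dvd h).1 k] at this
    exact this.false
  · rw [one_smul]
    exact Kr_tors (V_io_dvd (c3_seven.trans (lev_dvd h).2) k) e
      (by rw [smul_comm, Cz_kill, smul_zero])

theorem kron_x (hl : l.Prime) (hr : nm r = l) (hp : Prim r) (hv : v.V (io r) < 1) (hd : 0 < dt ω')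
    (hm : 0 < m) (h : 63 * dt ω' ∣ m) (gd : Gd v m ω') (hω : dt ω = l * dt ω')
    (h1 : m * star r ∣ g - 1) (h2 : r ∣ g) (tr : Tr g ω (r * ω'.1, r * ω'.2) e)
    (inj : ∀ y, Lb ω y → ((m * l : ℕ) : O) ∣ g * y → ((m * l : ℕ) : O) ∣ y)
    (surj : ∀ y', Lb ω' y' → ∃ y, Lb ω y ∧ ((m * l : ℕ) : O) ∣ g * y - r * y') :
    Pz ω - Cz - (e • Pz ω' - Cz) ∈ Kr v ∨ Pz ω - Cz + (e • Pz ω' - Cz) ∈ Kr v := by
  have n0 := mul_pos hm hl.pos
  have d0 : 0 < dt ω := hω ▸ mul_pos (Int.natCast_pos.2 hl.pos) hd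
  have d1 : dt (r * ω'.1, r * ω'.2) = dt ω := by rw [dt_mul, hr, hω]
  have lv : 63 * dt ω ∣ (m * l : ℕ) := by
    rw [hω, mul_comm (l : ℤ), ← mul_assoc, Nat.cast_mul]
    exact mul_dvd_mul_right h _
  have h3 := prim_norm (prim_iff.2 (((lev_dvd h).1.mul_right _).trans h1))
  have := CL.nm_nonneg g
  obtain ⟨⟨p, cop, hp1, hp2⟩, x0, x1⟩ := res n0 tr (d1 ▸ d0) d1.symm (by omega) (d1 ▸ lv) inj
    fun y' ⟨a, b, e⟩ => by
      obtain ⟨y, k⟩ := surj _ ⟨a, b, rfl⟩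
      exact ⟨y, by rwa [e, mul_left_comm, mul_left_comm (b : O), ← mul_add]⟩
  obtain ⟨x2, x3⟩ := pt_x n0 d0 lv
  rw [pt_mul (prime_of_norm hl hr hp).ne_zero] at x0 x1
  rw [iw, iw, ← mul_mv, ← iw, ← iw] at hp2
  have nd : ∀ i : ℤ, ¬ 21 ∣ i → ¬ 21 ∣ p * i := fun i hi k => hi (cop.symm.dvd_of_dvd_mul_left k)
  have k : C4g v (VV 1 (m * l) ω) (VV g (m * l) ω) :=
    (V_kU (c4_near hl hr hp hv d0 hm (lev_iw lv).1 gd.lev h1 inj h2) fun i j a b c d => by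
      rw [hp1, hp1, pq_scale hl.pos hr hd hm (lev_iw h).1 (nd i a) (nd j b), map_mul, map_pow,
        V_star hl hr hp hv, (gd.un _ _ (nd i a) (nd j b) (mul_sub p i j ▸ nd _ c)
          (mul_add p i j ▸ nd _ d)).1, one_pow, one_mul]).mul
    (V_kU (c4_near hl hr hp hv (iw_pos d0) hm (lev_iw lv).2 gd.lev h1 (fun y hy => by
      obtain ⟨a, b, rfl⟩ := Lb_iw.1 hy
      exact inj _ ⟨3 * a, b, by push_cast; rfl⟩) h2) fun i j a b c d => by
      rw [hp2, hp2, pq_scale hl.pos hr (iw_pos hd) hm (lev_iw h).2 (nd i a) (nd j b), map_mul,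
        map_pow, V_star hl hr hp hv, (gd.un _ _ (nd i a) (nd j b) (mul_sub p i j ▸ nd _ c)
          (mul_add p i j ▸ nd _ d)).2, one_pow, one_mul])
  have c := V_x (mt ((Kr v).smul_mem 4) (gd.cz h).2)
  have nk : ∀ {P : A} {x : Qbar}, P ≠ 0 → xco P = xco Cz * (io CU.om + bz * x) → v.V x = 1 →
      P ∉ Kr v := fun a b d k => (mem_Kr.1 k).elim a (not_lt.2 (by
    rw [b, map_mul]
    exact mul_le_one' c (v.V.map_add_le (V_io_le v _) (by rw [map_mul, d, mul_one]; exact gd.be))))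
  refine near_or (gd.cz h).1 (nk x2 x3 k.one) (nk x0 x1 k.1) ?_
  rw [x1, x3, ← mul_sub, add_sub_add_left_eq_sub, ← mul_sub, map_mul, map_mul]
  exact (mul_le_of_le_one_left' c).trans_lt ((mul_le_of_le_one_left' gd.be).trans_lt k.2)

theorem kron (hl : l.Prime) (hr : nm r = l) (hp : Prim r) (hv : v.V (io r) < 1) (hd : 0 < dt ω')
    (hm : 0 < m) (h : 63 * dt ω' ∣ m) (gd : Gd v m ω') (hω : dt ω = l * dt ω')
    (h1 : m * star r ∣ g - 1) (h2 : r ∣ g) (tr : Tr g ω (r * ω'.1, r * ω'.2) e)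
    (inj : ∀ y, Lb ω y → ((m * l : ℕ) : O) ∣ g * y → ((m * l : ℕ) : O) ∣ y)
    (surj : ∀ y', Lb ω' y' → ∃ y, Lb ω y ∧ ((m * l : ℕ) : O) ∣ g * y - r * y') :
    Pz ω - e • Pz ω' ∈ Kr v := by
  have k1 := kron_x hl hr hp hv hd hm h gd hω h1 h2 tr inj surj
  have k2 := kron_x hl hr hp hv hd hm h gd (dt_g8.trans hω) h1 h2 tr.g8
    (fun y hy => inj y (Lb_g8.1 hy)) fun y hy => (surj y hy).imp fun _ k => ⟨Lb_g8.2 k.1, k.2⟩
  rw [pt_g8 (hω ▸ mul_pos (Int.natCast_pos.2 hl.pos) hd), neg_smul, sub_sub_sub_cancel_right,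
    ← neg_sub', neg_mem_iff] at k2
  rw [sub_sub_sub_cancel_right] at k1
  refine k1.elim id fun a => k2.elim id fun b => absurd ?_ (gd.cz h).2
  convert neg_mem (add_mem a b) using 1
  module

end Pool.Agent.Lib.MP_696deb_nt.Y3
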