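import Pool.Agent.Lib.MP_696deb_nt.Y3.C3
import Pool.Agent.Lib.MP_696deb_nt.ModPoly

/-! The image of a family under a Hecke operator. -/

set_option autoImplicit false

open scoped Classical
open Complex Finset PeriodPair Pool.Agent.Shared.Weier

namespace Pool.Agent.Lib.MP_696deb_nt.Y3

open EW hiding om
open CL (om wC Per)

variable {ι : Type} {F : Fam ι} {d m N : ℕ} {χ : O → O}

theorem mem_HI {x : Σ _ : ℕ × ℕ, ℕ} : x ∈ HI m ↔ (x.1.1 * x.1.2 = m ∧ m ≠ 0) ∧ x.2 < x.1.2 := by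
  rw [HI, mem_sigma, Nat.mem_divisorsAntidiagonal, mem_range]

theorem card_HI (hm : m.Prime) : (HI m).card = m + 1 := by
  rw [HI, card_sigma]
  simp only [card_range]
  rw [Nat.sum_divisorsAntidiagonal' fun _ y => y, hm.sum_divisors]

/-- The Hermite normal form. -/
theorem exists_HI (m0 : 0 < m) {p q r s n : ℤ} (h : p * s - q * r = m * n) (hn : 0 < n) :
    ∃ x ∈ HI m, ∃ a b c e : ℤ, p = a * x.1.1 ∧ q = a * x.2 + b * x.1.2 ∧
      r = c * x.1.1 ∧ s = c * x.2 + e * x.1.2 := by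
  have hd : (!![p, q; r, s] : MZ).det = m * n := by rw [Matrix.det_fin_two_of, h]
  obtain ⟨A, B, D, g, -, h2, h3⟩ := exists_ut (hd ▸ mul_pos (by exact_mod_cast m0) hn)
  rw [h3, Matrix.det_mul, h2, det_ut, one_mul] at hd
  have e1 := congrFun (congrFun h3 0) 0
  have e2 := congrFun (congrFun h3 0) 1
  have e3 := congrFun (congrFun h3 1) 0
  have e4 := congrFun (congrFun h3 1) 1
  simp [ut, Matrix.mul_apply, Fin.sum_univ_two] at e1 e2 e3 e4
  obtain ⟨A', d', k1, k2, k3⟩ := Nat.exists_coprime A m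
  have t0 : 0 < A.gcd m := Nat.gcd_pos_of_pos_right _ m0
  generalize A.gcd m = t at k2 k3 t0
  have k4 : (A : ℤ) = A' * t := by exact_mod_cast k2
  have k5 : (m : ℤ) = d' * t := by exact_mod_cast k3
  have c1 : IsCoprime (A' : ℤ) d' := Nat.isCoprime_iff_coprime.2 k1
  obtain ⟨D', k6⟩ : (d' : ℤ) ∣ D := c1.symm.dvd_of_dvd_mul_left ⟨n, mul_left_cancel₀
    (show (t : ℤ) ≠ 0 by omega) (by linear_combination hd - D * k4 + n * k5)⟩
  obtain ⟨u, v, k7⟩ := c1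
  have d0 : (0 : ℤ) < d' := by exact_mod_cast Nat.pos_of_mul_pos_right (k3 ▸ m0)
  have k8 := Int.emod_nonneg (u * B) d0.ne'
  have k9 := Int.emod_lt_of_pos (u * B) d0
  have k10 := Int.emod_add_mul_ediv (u * B) d'
  generalize u * B / d' = z at k10
  lift u * B % d' to ℕ using k8 with k hk
  have k11 : (B : ℤ) = A' * k + (A' * z + v * B) * d' := by
    linear_combination -B * k7 - A' * k10
  refine ⟨⟨(t, d'), k⟩, mem_HI.2 ⟨⟨(mul_comm _ _).trans k3.symm, m0.ne'⟩, by exact_mod_cast k9⟩,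
    g 0 0 * A', g 0 0 * (A' * z + v * B) + g 0 1 * D', g 1 0 * A',
    g 1 0 * (A' * z + v * B) + g 1 1 * D', ?_, ?_, ?_, ?_⟩ <;> dsimp only
  · linear_combination e1 + g 0 0 * k4
  · linear_combination e2 + g 0 0 * k11 + g 0 1 * k6
  · linear_combination e3 + g 1 0 * k4
  · linear_combination e4 + g 1 0 * k11 + g 1 1 * k6

theorem HI_uniq {x y : Σ _ : ℕ × ℕ, ℕ} (hx : x ∈ HI m) (hy : y ∈ HI m)
    {a b c e : ℤ} (h1 : (x.1.1 : ℤ) = a * y.1.1) (h2 : (x.2 : ℤ) = a * y.2 + b * y.1.2)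
    (h3 : 0 = c * y.1.1) (h4 : (x.1.2 : ℤ) = c * y.2 + e * y.1.2) : x = y := by
  obtain ⟨⟨a1, d1⟩, k1⟩ := x
  obtain ⟨⟨a2, d2⟩, k2⟩ := y
  obtain ⟨⟨x1, m0⟩, x2⟩ := mem_HI.1 hx
  obtain ⟨⟨y1, -⟩, y2⟩ := mem_HI.1 hy
  dsimp only at *
  have a0 : a2 ≠ 0 := left_ne_zero_of_mul (y1 ▸ m0)
  have x3 : (a1 * d1 : ℤ) = m := by exact_mod_cast x1
  have y3 : (a2 * d2 : ℤ) = m := by exact_mod_cast y1
  obtain rfl : c = 0 := (mul_eq_zero.1 h3.symm).resolve_right (by omega)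
  have e1 : a * e = 1 := mul_right_cancel₀ (show (m : ℤ) ≠ 0 by omega) (by
    linear_combination x3 - a * e * y3 - d1 * h1 - a * a2 * h4)
  obtain rfl : a = 1 := (Int.eq_one_or_neg_one_of_mul_eq_one e1).resolve_right fun k => by
    rw [k] at h1
    omega
  obtain rfl : e = 1 := by omega
  obtain rfl : a1 = a2 := by omega
  obtain rfl : d1 = d2 := by omega
  have e2 : (d1 : ℤ) ∣ k1 - k2 := ⟨b, by linear_combination h2⟩
  have e3 := Int.eq_zero_of_abs_lt_dvd e2 (abs_lt.2 ⟨by omega, by omega⟩)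
  obtain rfl : k1 = k2 := by omega
  rfl

theorem c5_div (hm : m.Coprime 21) {x : Σ _ : ℕ × ℕ, ℕ} (hx : x ∈ HI m) :
    (x.1.1 * x.1.2 : ℤ) = m ∧ IsCoprime (x.1.1 : ℤ) 21 := by
  obtain ⟨⟨x1, -⟩, -⟩ := mem_HI.1 hx
  exact ⟨by exact_mod_cast x1,
    Nat.isCoprime_iff_coprime.2 (hm.coprime_dvd_left ⟨_, x1.symm⟩)⟩

theorem tr_HI (hm : m.Coprime 21) {x : Σ _ : ℕ × ℕ, ℕ} (hx : x ∈ HI m) (ω : O × O) :
    Tr 1 (mv x.1.1 x.2 0 x.1.2 ω) ω (star (nb x.1.1)) ∧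
      (nb x.1.1 : O) * star (nb x.1.1) = 1 :=
  ⟨⟨x.1.1, x.2, 0, x.1.2, by rw [one_mul, one_mul, mul_zero], (c5_div hm hx).2,
    by rw [Int.cast_natCast]⟩, by simpa using (nb_cop (c5_div hm hx).2).1⟩

theorem c5_pos (hm : m.Coprime 21) : 0 < m := Nat.pos_of_ne_zero fun e => by simp [e] at hm

theorem Fam.hk_ok (ok : F.Ok d) (hm : m.Coprime 21) : (F.hk m).Ok (m * d) := by
  refine ⟨mul_pos (c5_pos hm) ok.pos, fun x => ?_, fun x => ?_⟩ <;>
    obtain ⟨h1, h2⟩ := c5_div hm x.2.2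
  · rw [Fam.hk, dt_mv, ok.det, h1, mul_zero, sub_zero, Nat.cast_mul]
  · rw [Fam.hk, mul_pow, ok.six, ← Int.cast_natCast, (nb_cop h2).2, one_mul]

theorem c5_row {a1 b1 d1 p q r s α1 β1 γ1 ε1 a' b' d' x z α β m n : ℤ}
    (e1 : a1 * p + b1 * r = α1 * a') (e2 : a1 * q + b1 * s = α1 * b' + β1 * d')
    (e3 : d1 * r = γ1 * a') (e4 : d1 * s = γ1 * b' + ε1 * d')
    (f1 : x * p + z * r = α * a') (f2 : x * q + z * s = α * b' + β * d') (hm : a1 * d1 = m)
    (hn : p * s - q * r = n) (hg : α1 * ε1 - β1 * γ1 = n) (n0 : n ≠ 0) (hc : IsCoprime n m) :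
    ∃ a b, x = a * a1 ∧ z = a * b1 + b * d1 := by
  obtain ⟨u, v, h⟩ := hc
  have k1 : ((α * ε1 - β * γ1) * a1 - n * x) * p +
      ((α * ε1 - β * γ1) * b1 + (β * α1 - α * β1) * d1 - n * z) * r = 0 := by
    linear_combination (α * ε1 - β * γ1) * e1 + (β * α1 - α * β1) * e3 - n * f1 + α * a' * hg
  have k2 : ((α * ε1 - β * γ1) * a1 - n * x) * q +
      ((α * ε1 - β * γ1) * b1 + (β * α1 - α * β1) * d1 - n * z) * s = 0 := by
    linear_combination (α * ε1 - β * γ1) * e2 + (β * α1 - α * β1) * e4 - n * f2 +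
      (α * b' + β * d') * hg
  have k3 : (α * ε1 - β * γ1) * a1 - n * x = 0 := mul_left_cancel₀ n0 (by
    linear_combination s * k1 - r * k2 - ((α * ε1 - β * γ1) * a1 - n * x) * hn)
  have k4 : (α * ε1 - β * γ1) * b1 + (β * α1 - α * β1) * d1 - n * z = 0 := mul_left_cancel₀ n0 (by
    linear_combination p * k2 - q * k1 -
      ((α * ε1 - β * γ1) * b1 + (β * α1 - α * β1) * d1 - n * z) * hn)
  exact ⟨u * (α * ε1 - β * γ1) + v * x * d1, u * (β * α1 - α * β1) + v * (z * a1 - x * b1),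
    by linear_combination -x * h - u * k3 - v * x * hm,
    by linear_combination -z * h - u * k4 - v * z * hm⟩

theorem Fam.hk_stable [Finite ι] (ok : F.Ok d) (hm : m.Coprime 21)
    (st : F.Stable N χ) : (F.hk m).Stable (m * N) χ := fun g hg hc => by
  rw [Nat.cast_mul] at hc
  obtain ⟨σ, hσ⟩ := st g hg hc.of_mul_right_right
  choose e hT hw using hσ
  choose p q r s h1 h3 h4 using id hT
  have cop := nm_cop hc.of_mul_right_left
  have n0 : 0 < nm g := nm_pos (ne_of_red (prim_red hg))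
  have m2 := c5_pos hm
  have hn : ∀ j, p j * s j - q j * (21 * r j) = nm g := fun j => by
    have k := congrArg dt (h1 j)
    rw [dt_mul, dt_mv, ok.det, ok.det] at k
    exact (mul_right_cancel₀ (Nat.cast_ne_zero.2 ok.pos.ne') k).symm
  have key : ∀ x : ι × HI m, ∃ y : HI m, ∃ a b c f : ℤ,
      x.2.1.1.1 * p x.1 + x.2.1.2 * (21 * r x.1) = a * y.1.1.1 ∧
      x.2.1.1.1 * q x.1 + x.2.1.2 * s x.1 = a * y.1.2 + b * y.1.1.2 ∧
      x.2.1.1.2 * (21 * r x.1) = c * y.1.1.1 ∧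
      x.2.1.1.2 * s x.1 = c * y.1.2 + f * y.1.1.2 := fun x => by
    obtain ⟨y, hy, k⟩ := exists_HI m2 (p := x.2.1.1.1 * p x.1 + x.2.1.2 * (21 * r x.1))
      (q := x.2.1.1.1 * q x.1 + x.2.1.2 * s x.1) (r := x.2.1.1.2 * (21 * r x.1))
      (s := x.2.1.1.2 * s x.1) (by
        linear_combination (p x.1 * s x.1 - q x.1 * (21 * r x.1)) * (c5_div hm x.2.2).1 +
          m * hn x.1) n0
    exact ⟨⟨y, hy⟩, k⟩
  choose y a b c f k1 k2 k3 k4 using key
  have dg : ∀ x, a x * f x - b x * c x = nm g := fun x =>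
    mul_left_cancel₀ (show (m : ℤ) ≠ 0 by omega) (by
      have l1 := k1 x
      have l2 := k2 x
      have l3 := k3 x
      have l4 := k4 x
      have l5 := (c5_div hm x.2.2).1
      have l6 := (c5_div hm (y x).2).1
      have l7 := hn x.1
      linear_combination -(a x * f x - b x * c x) * l6 - x.2.1.1.2 * s x.1 * l1 -
        a x * (y x).1.1.1 * l4 + x.2.1.1.2 * (21 * r x.1) * l2 +
        (a x * (y x).1.2 + b x * (y x).1.1.2) * l3 +
        (p x.1 * s x.1 - q x.1 * (21 * r x.1)) * l5 + m * l7)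
  have inj : Function.Injective fun x : ι × HI m => (σ x.1, y x) := by
    rintro ⟨j, x⟩ ⟨j', x'⟩ k
    obtain ⟨l1, l2⟩ := Prod.mk.inj k
    obtain rfl : j = j' := σ.injective l1
    have row := fun {X Z α β : ℤ} f1 f2 => c5_row (x := X) (z := Z) (α := α) (β := β) (k1 (j, x'))
      (k2 (j, x')) (k3 (j, x')) (k4 (j, x')) f1 f2 (c5_div hm x'.2).1 (hn j) (dg (j, x'))
      n0.ne' cop
    rw [← l2] at row
    obtain ⟨u, v, u1, u2⟩ := row (k1 (j, x)) (k2 (j, x))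
    obtain ⟨u', v', u3, u4⟩ := row (X := 0) (by rw [zero_mul, zero_add]; exact k3 (j, x))
      (by rw [zero_mul, zero_add]; exact k4 (j, x))
    rw [Subtype.ext (HI_uniq x.2 x'.2 u1 u2 u3 u4)]
  refine ⟨Equiv.ofBijective _ (Finite.injective_iff_bijective.1 inj), fun x => ?_⟩
  obtain ⟨c', hc'⟩ : (21 : ℤ) ∣ c x := (c5_div hm (y x).2).2.symm.dvd_of_dvd_mul_right
    (k3 x ▸ (dvd_mul_right _ _).mul_left _)
  have t : Tr g ((F.hk m).w x) ((F.hk m).w (σ x.1, y x)) (star (nb (a x))) := by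
    refine ⟨a x, b x, c', f x, ?_, ?_, rfl⟩
    · simp only [Fam.hk]
      rw [mul_mv, h1, mv_mv, mv_mv, ← hc']
      congr 1
      · linear_combination k1 x
      · linear_combination k2 x
      · linear_combination k3 x
      · linear_combination k4 x
    · refine IsCoprime.of_mul_left_left (y := ((y x).1.1.1 : ℤ)) ?_
      rw [← k1, mul_left_comm]
      exact ((c5_div hm x.2.2).2.mul_left (h3 _)).add_mul_left_left _
  refine ⟨_, t, ?_⟩
  obtain ⟨t1, t2⟩ := tr_HI hm x.2.2 (F.w x.1)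
  obtain ⟨t3, t4⟩ := tr_HI hm (y x).2 (F.w (σ x.1))
  have t5 := t1.trans (hT x.1)
  have t6 := t.trans t3
  rw [one_mul] at t5
  rw [mul_one] at t6
  have t7 := t5.uniq (ok.dpos _).ne' t6
  change nb (y x).1.1.1 * F.wt (σ x.1) = χ g * star (nb (a x)) * (nb x.2.1.1.1 * F.wt x.1)
  rw [hw]
  linear_combination χ g * F.wt x.1 * (nb x.2.1.1.1 * nb (y x).1.1.1 * t7 -
    nb (y x).1.1.1 * e x.1 * t2 + nb x.2.1.1.1 * star (nb (a x)) * t4)

theorem Fam.sum_hk [Fintype ι] (ok : F.Ok d) {β : Type} [AddCommMonoid β] (f : ℂ → β) :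
    ∑ x, f ((F.hk m).z x) = ∑ j, ∑ x ∈ m.divisorsAntidiagonal, ∑ k ∈ range x.2,
      f (CL.toC (nb x.1 * F.wt j) * uu ((x.1 * tb (F.w j) + k) / x.2)) := by
  rw [Fintype.sum_prod_type]
  refine sum_congr rfl fun j _ => ?_
  rw [sum_sigma', ← HI, ← sum_coe_sort (HI m)]
  refine sum_congr rfl fun x _ => ?_
  simp [Fam.z, Fam.hk, tb_mv (ok.dpos j).ne', mob]

end Pool.Agent.Lib.MP_696deb_nt.Y3
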