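import Pool.Agent.Lib.MP_696deb_nt.Y3.C4
import Pool.Agent.Lib.MP_696deb_nt.Y3.C5

/-! The Hecke operator at a split prime modulo the prime. -/

set_option autoImplicit false

open scoped Classical
open Complex Finset PeriodPair Pool.Agent.Shared.Weier

namespace Pool.Agent.Lib.MP_696deb_nt.Y3

open EW hiding om
open CL (om wC Per)

variable {ι : Type} {F : Fam ι} {d N : ℕ} {χ : O → O}

theorem c6_comb {ω : O × O} {y y' : O} (h : Lb ω y) (h' : Lb ω y') (a b : ℤ) :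
    Lb ω (a * y + b * y') := by
  obtain ⟨p, q, rfl⟩ := h
  obtain ⟨p', q', rfl⟩ := h'
  exact ⟨a * p + b * p', a * q + b * q', by push_cast; ring⟩

theorem c6_row {ω : O × O} (p q r s : ℤ) : Lb ω (mv p q r s ω).1 ∧ Lb ω (mv p q r s ω).2 :=
  ⟨⟨p, q, rfl⟩, r, s, rfl⟩

/-- Modulo an element of prime norm every Eisenstein integer is an integer. -/
theorem c6_int {l : ℕ} {r : O} (hl : l.Prime) (hr : nm r = l) (z : O) : ∃ c : ℤ, r ∣ z - c := by
  have hp := Nat.prime_iff_prime_int.1 hl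
  rw [nm] at hr
  obtain ⟨x, y, h⟩ : IsCoprime (l : ℤ) r.im :=
    hp.irreducible.coprime_iff_not_dvd.2 fun ⟨b, hb⟩ => by
      obtain ⟨a, ha⟩ : (l : ℤ) ∣ r.re := hp.dvd_of_dvd_pow (n := 2)
        ⟨1 + b * r.re - b * r.im, by linear_combination hr + (r.re - r.im) * hb⟩
      refine hp.not_isUnit (isUnit_of_dvd_one
        ⟨a * a - a * b + b * b, mul_left_cancel₀ hp.ne_zero ?_⟩)
      rw [ha, hb] at hr
      linear_combination -hr
  refine ⟨z.re - z.im * y * r.re, z.im * (y + x * om * star r), ?_⟩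
  ext
  · simp [om]
    ring
  · simp [om]
    linear_combination -z.im * h - z.im * x * hr

/-- A sublattice of prime index has a cyclic quotient. -/
theorem c6_cyc {l : ℕ} (hl : l.Prime) {x : Σ _ : ℕ × ℕ, ℕ} (hx : x ∈ HI l) {ω : O × O} {z z₀ : O}
    (h₀ : Lb ω z₀) (hn : ¬ Lb (mv x.1.1 x.2 0 x.1.2 ω) z₀) (h : Lb ω z) :
    ∃ c : ℤ, Lb (mv x.1.1 x.2 0 x.1.2 ω) (z - c * z₀) := by
  obtain ⟨u, w, k⟩ : ∃ u w : ℤ, ∀ a b : ℤ, (l : ℤ) ∣ u * a + w * b →
      Lb (mv x.1.1 x.2 0 x.1.2 ω) (a * ω.1 + b * ω.2) := by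
    obtain ⟨⟨A, D⟩, B⟩ := x
    have hm : A * D = l := (mem_HI.1 hx).1.1
    rcases (Nat.dvd_prime hl).1 ⟨D, hm.symm⟩ with rfl | rfl
    · rw [one_mul] at hm
      subst hm
      refine ⟨-B, 1, fun a b ⟨c, hc⟩ => ⟨a, c, ?_⟩⟩
      obtain rfl : b = D * c + B * a := by linear_combination hc
      simp only [mv]
      push_cast
      ring
    · obtain rfl : D = 1 := (Nat.mul_eq_left hl.ne_zero).1 hm
      refine ⟨1, 0, fun a b ⟨c, hc⟩ => ⟨c, b - B * c, ?_⟩⟩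
      obtain rfl : a = A * c := by linear_combination hc
      simp only [mv]
      push_cast
      ring
  obtain ⟨a₀, b₀, rfl⟩ := h₀
  obtain ⟨a, b, rfl⟩ := h
  obtain ⟨s, t, e⟩ := (Nat.prime_iff_prime_int.1 hl).irreducible.coprime_iff_not_dvd.2
    (mt (k a₀ b₀) hn)
  refine ⟨t * (u * a + w * b), ?_⟩
  convert k (a - t * (u * a + w * b) * a₀) (b - t * (u * a + w * b) * b₀)
    ⟨s * (u * a + w * b), by linear_combination -(u * a + w * b) * e⟩ using 1
  push_cast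
  ring

theorem c6_det (ok : F.Ok d) {l : ℕ} {r : O} (hr : nm r = l) {j j' : ι} {p q t s : ℤ}
    (h : (r * (F.w j').1, r * (F.w j').2) = mv p q t s (F.w j)) : p * s - q * t = l := by
  have := congrArg dt h
  rw [dt_mul, dt_mv, ok.det, ok.det, hr] at this
  exact mul_right_cancel₀ (Int.natCast_ne_zero.2 ok.pos.ne') this.symm

theorem c6_dt (ok : F.Ok d) {l : ℕ} (j : ι) {x : Σ _ : ℕ × ℕ, ℕ} (hx : x ∈ HI l) :
    dt (mv x.1.1 x.2 0 x.1.2 (F.w j)) = l * d := by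
  rw [dt_mv, ok.det, ← (mem_HI.1 hx).1.1]
  push_cast
  ring

/-- The points attached to the conjugate prime. -/
theorem Fam.exact (ok : F.Ok d) {l : ℕ} {r : O} (hl : l.Coprime 21) (hr : nm r = l)
    {j j' : ι} {e : O} (tr : Tr r (F.w j') (F.w j) e) (hw : F.wt j = χ r * e * F.wt j') :
    ∃ k : HI l, (F.hk l).pt (j, k) = χ r • F.pt j' ∧
      ∀ y, Lb ((F.hk l).w (j, k)) y → r ∣ y := by
  obtain ⟨p, q, t, s, h1, h3, -⟩ := id tr
  have det := c6_det ok hr h1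
  obtain ⟨x, hx, a, b, c, f, e1, e2, e3, e4⟩ := exists_HI (c5_pos hl)
    (det.trans (mul_one _).symm) one_pos
  have hm := (mem_HI.1 hx).1.1
  obtain ⟨c, rfl⟩ : (21 : ℤ) ∣ c := (c5_div hl hx).2.symm.dvd_of_dvd_mul_right ⟨t, e3.symm⟩
  have det1 : a * f - b * (21 * c) = 1 := by
    refine mul_right_cancel₀ (Int.natCast_ne_zero.2 (c5_pos hl).ne') ?_
    rw [e1, e2, e3, e4] at det
    rw [← hm] at det ⊢
    push_cast at det ⊢
    linear_combination det
  have k1 : (r * (F.w j').1, r * (F.w j').2) =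
      mv a b (21 * c) f (mv x.1.1 x.2 0 x.1.2 (F.w j)) := by
    rw [h1, mv_mv, e1, e2, e3, e4]
    simp only [mul_zero, add_zero]
  have tr1 : Tr r (F.w j') (mv x.1.1 x.2 0 x.1.2 (F.w j)) (star (nb a)) :=
    ⟨a, b, c, f, k1, (e1 ▸ h3).of_mul_left_left, rfl⟩
  obtain ⟨t1, t2⟩ := tr_HI hl hx (F.w j)
  have he := Tr.uniq (ok.dpos j).ne' tr (mul_one r ▸ tr1.trans t1)
  have dp := c6_dt ok j hx
  refine ⟨⟨x, hx⟩, ?_, ?_⟩
  · change (nb x.1.1 * F.wt j) • Pz (mv x.1.1 x.2 0 x.1.2 (F.w j)) = χ r • F.wt j' • Pz _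
    rw [pt_tr (dp ▸ Int.mul_pos (Int.natCast_pos.2 (c5_pos hl)) (Int.natCast_pos.2 ok.pos)) tr1
      (by rw [dp, hr, ok.det]), smul_smul, smul_smul, hw, he]
    congr 1
    linear_combination χ r * star (nb a) * F.wt j' * t2
  · rintro _ ⟨u, w, rfl⟩
    change r ∣ u * (mv x.1.1 x.2 0 x.1.2 (F.w j)).1 +
      w * (mv x.1.1 x.2 0 x.1.2 (F.w j)).2
    generalize mv x.1.1 x.2 0 x.1.2 (F.w j) = ω at k1
    have k2 : r * (F.w j').1 = a * ω.1 + b * ω.2 := congrArg Prod.fst k1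
    have k3 : r * (F.w j').2 = (21 * c : ℤ) * ω.1 + f * ω.2 := congrArg Prod.snd k1
    have k4 := congrArg (Int.cast : ℤ → O) det1
    push_cast at k3 k4
    exact ⟨u * (f * (F.w j').1 - b * (F.w j').2) + w * (a * (F.w j').2 - 21 * c * (F.w j').1), by
      linear_combination (w * 21 * c - u * f) * k2 + (u * b - w * a) * k3 -
        (u * ω.1 + w * ω.2) * k4⟩

/-- All other points are congruent. -/
theorem Fam.cong (ok : F.Ok d) {l : ℕ} {r : O} {v : Plc} (hl : l.Prime) (h5 : l.Coprime 21)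
    (hp : Prim r) (hr : nm r = l) (hv : v.V (io r) < 1) {j j' : ι} {e : O}
    (gd : Gd v (63 * d) (F.w j')) (tr : Tr r (F.w j') (F.w j) e) (hw : F.wt j = χ r * e * F.wt j')
    {k : HI l} (hk : ¬ ∀ y, Lb ((F.hk l).w (j, k)) (63 * d * star r * y)) :
    (F.hk l).pt (j, k) - χ r • F.pt j' ∈ Kr v := by
  obtain ⟨x, hx⟩ := k
  change ¬ ∀ y, Lb (mv x.1.1 x.2 0 x.1.2 (F.w j)) (63 * d * star r * y) at hk
  obtain ⟨p, q, t, s, h1, -, rfl⟩ := tr
  have det := c6_det ok hr h1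
  have dp := c6_dt ok j hx
  have t2 := (tr_HI h5 hx (F.w j)).2
  have rr := CL.f3_mul hr
  have lm : ¬ (l : ℤ) ∣ (63 * d : ℕ) := p_of_norm hl hr hv ▸ v.V_int_eq_one.1
    (by rw [Int.cast_natCast]; exact gd.lev)
  obtain ⟨l', n, hn⟩ := (Nat.prime_iff_prime_int.1 hl).irreducible.coprime_iff_not_dvd.2 lm
  obtain ⟨u, w, huw⟩ := c4_cop_star hl hr hp
  have hn' := congrArg (Int.cast : ℤ → O) hn
  have det' := congrArg (Int.cast : ℤ → O) det
  have k1 : r * (F.w j').1 = p * (F.w j).1 + q * (F.w j).2 := congrArg Prod.fst h1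
  have k2 : r * (F.w j').2 = (21 * t : ℤ) * (F.w j).1 + s * (F.w j).2 := congrArg Prod.snd h1
  push_cast at hn hn' det' k2
  obtain ⟨g, hg⟩ : ∃ g : O, g = l' * l + 63 * d * n * u * r := ⟨_, rfl⟩
  have g1 : g - 1 = 63 * d * star r * -(n * w) := by
    linear_combination hg + hn' + 63 * d * n * huw
  have g2 : g = r * (l' * star r + 63 * d * n * u) := by linear_combination hg - l' * rr
  have lv := fun y => Lb_lev (ω := F.w j') (m := d) (by rw [ok.det]) y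
  obtain ⟨a, b, hab⟩ := lv (3 * n * u * (mv x.1.1 x.2 0 x.1.2 (F.w j)).1)
  obtain ⟨c, f, hcf⟩ := lv (3 * n * u * (mv x.1.1 x.2 0 x.1.2 (F.w j)).2)
  obtain ⟨P, hP⟩ : ∃ P, P = l' * (x.1.1 * s - 21 * x.2 * t) + 21 * a := ⟨_, rfl⟩
  have e1 : P * p = x.1.1 + 21 * (a * p - l' * (x.2 * p - x.1.1 * q) * t - 3 * d * n * x.1.1) := by
    rw [hP]
    linear_combination l' * x.1.1 * det + x.1.1 * hn
  have e4 : star (nb P) * star (nb p) = star (nb x.1.1) := by
    rw [← star_mul', ← nb_mul, ← Int.cast_mul, nb_cong (p' := x.1.1) ⟨_, sub_eq_of_eq_add' e1⟩,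
      Int.cast_natCast]
  have tr : Tr g (mv x.1.1 x.2 0 x.1.2 (F.w j)) (r * (F.w j').1, r * (F.w j').2) (star (nb P)) := by
    refine ⟨P, l' * (x.2 * p - x.1.1 * q) + 21 * b, -(l' * x.1.2 * t) + c,
      l' * x.1.2 * p + 21 * f, ?_, IsCoprime.of_mul_left_left (y := p) ?_, rfl⟩
    · rw [hP, hg]
      simp only [mv] at hab hcf ⊢
      push_cast at hab hcf ⊢
      refine Prod.ext ?_ ?_ <;> dsimp only
      · linear_combination 21 * r * hab - l' * (x.1.1 * s - 21 * x.2 * t) * k1 -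
          l' * (x.2 * p - x.1.1 * q) * k2 - l' * (x.1.1 * (F.w j).1 + x.2 * (F.w j).2) * det'
      · linear_combination 21 * r * hcf + 21 * l' * x.1.2 * t * k1 - l' * x.1.2 * p * k2 -
          l' * x.1.2 * (F.w j).2 * det'
    · rw [e1]
      exact (c5_div h5 hx).2.add_mul_left_left _
  have key := kron hl hr hp hv (ok.dpos j') (by have := ok.pos; omega : 0 < 63 * d)
    (by rw [ok.det]; push_cast; rfl) gd (by rw [dp, ok.det])
    ⟨-(n * w), by push_cast; linear_combination g1⟩ ⟨_, g2⟩ tr ?_ ?_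
  · change (nb x.1.1 * F.wt j) • Pz (mv x.1.1 x.2 0 x.1.2 (F.w j)) - χ r • F.wt j' • Pz _ ∈ _
    convert (Kr v).smul_mem (nb x.1.1 * F.wt j) key using 1
    rw [smul_sub, smul_smul, smul_smul, hw]
    congr 2
    linear_combination -χ r * F.wt j' * (nb x.1.1 * e4 + t2)
  · rintro y hy ⟨z, hz⟩
    push_cast at hz ⊢
    obtain ⟨y, rfl⟩ : 63 * d * star r ∣ y := ⟨r * z + n * w * y, by
      linear_combination hz - y * g1 - 63 * d * z * rr⟩
    rw [← rr, mul_comm r, ← mul_assoc]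
    refine mul_dvd_mul_left _ (by_contra fun h => hk fun y₀ => ?_)
    obtain ⟨α, β, e⟩ := (prime_of_norm hl hr hp).irreducible.coprime_iff_not_dvd.2 h
    obtain ⟨γ, z, hz⟩ := c6_int hl hr (β * y₀)
    convert c6_comb hy (Lb_lev (m := l * d) (by rw [dp]; push_cast; rfl)
      (α * y₀ + z * y)) γ 63 using 1
    push_cast
    linear_combination 63 * d * star r * (y * hz - y₀ * e) + 63 * d * (α * y₀ + z * y) * rr
  · rintro _ ⟨α, β, rfl⟩
    obtain ⟨y₀, h₀⟩ := not_forall.1 hk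
    have := c6_row (ω := F.w j) p q (21 * t) s
    rw [← h1] at this
    obtain ⟨γ, hγ⟩ := c6_cyc hl hx (by
      convert Lb_lev (ω := F.w j) (m := d) (by rw [ok.det]) (63 * star r * y₀) using 1
      ring) h₀ (c6_comb this.1 this.2 α β)
    refine ⟨_, hγ, -(n * w * (α * (F.w j').1 + β * (F.w j').2)) -
      γ * (l' * star r + 63 * d * n * u) * y₀, ?_⟩
    push_cast
    rw [← rr]
    linear_combination r * (α * (F.w j').1 + β * (F.w j').2) * g1 -
      γ * (63 * d * star r * y₀) * g2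

theorem Fam.kron [Finite ι] (ok : F.Ok d) (hN : 0 < N) (st : F.Stable N χ) :
    ∃ B : Finset ℕ, ∀ (l : ℕ) (r : O) (v : Plc), l.Prime → l ∉ B → Prim r → nm r = l →
      v.V (io r) < 1 → ∃ (s s' : ι ≃ ι) (k0 : ι → HI l), ∀ j,
        (F.hk l).pt (j, k0 j) = χ (star r) • F.pt (s' j) ∧
        ∀ k, k ≠ k0 j → (F.hk l).pt (j, k) - χ r • F.pt (s j) ∈ Kr v := by
  have d0 : 0 < 63 * d := by have := ok.pos; omega
  choose B hB using fun j => gd_ae (ok.dpos j) d0 (by rw [ok.det]; push_cast; rfl)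
  have := Fintype.ofFinite ι
  refine ⟨(63 * d * N).primeFactors ∪ univ.biUnion B, fun l r v hl hb hp hr hv => ?_⟩
  rw [mem_union, not_or, mem_biUnion, Nat.mem_primeFactors] at hb
  have cop : l.Coprime (63 * d * N) :=
    hl.coprime_iff_not_dvd.2 fun h => hb.1 ⟨hl, h, (Nat.mul_pos d0 hN).ne'⟩
  have l5 : l.Coprime 21 := cop.coprime_dvd_right ⟨3 * d * N, by ring⟩
  have rr := CL.f3_mul hr
  have cN : IsCoprime (r * star r) (N : O) := by
    simpa [rr] using (Nat.isCoprime_iff_coprime.2 cop.coprime_mul_left_right).intCast (R := O)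
  obtain ⟨s, hs⟩ := st r hp cN.of_mul_left_left
  obtain ⟨s', hs'⟩ := st _ (prim_star hp) cN.of_mul_left_right
  choose k0 h0 h1 using fun j => (hs' (s'.symm j)).elim fun e h =>
    Fam.exact (χ := χ) (j := j) ok l5 ((CL.nm_star r).trans hr)
      (by simpa using h.1) (by simpa using h.2)
  refine ⟨s.symm, s'.symm, k0, fun j => ⟨h0 j, fun k hk => ?_⟩⟩
  obtain ⟨e, tr, hw⟩ := hs (s.symm j)
  rw [Equiv.apply_symm_apply] at tr hw
  refine Fam.cong ok hl l5 hp hr hv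
    (hB _ v fun h => hb.2 ⟨_, mem_univ _, p_of_norm hl hr hv ▸ h⟩) tr hw fun h => hk ?_
  obtain ⟨α, β, e⟩ := Nat.isCoprime_iff_coprime.2 cop.coprime_mul_right_right
  have hm : (k.1.1.1 : O) * k.1.1.2 = l := by exact_mod_cast (mem_HI.1 k.2).1.1
  have sub : ∀ y, Lb (F.w j) y → Lb ((F.hk l).w (j, k0 j)) y → Lb ((F.hk l).w (j, k)) y := by
    rintro _ ⟨a, b, rfl⟩ hy
    obtain ⟨y, hy⟩ := h1 j _ hy
    have e' := congrArg (Int.cast : ℤ → O) e
    have : Lb ((F.hk l).w (j, k)) (l * (a * (F.w j).1 + b * (F.w j).2)) :=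
      ⟨a * k.1.1.2, b * k.1.1.1 - k.1.2 * a, by
        simp only [Fam.hk, mv]
        push_cast
        linear_combination -(a * (F.w j).1 + b * (F.w j).2) * hm⟩
    convert c6_comb this (h y) α β using 1
    push_cast at e'
    linear_combination -(a * (F.w j).1 + b * (F.w j).2) * e' + β * 63 * d * hy
  obtain ⟨a, b, e1⟩ := sub ((F.hk l).w (j, k0 j)).1 (c6_row _ _ _ _).1 ⟨1, 0, by simp⟩
  obtain ⟨c, f, e2⟩ := sub ((F.hk l).w (j, k0 j)).2 (c6_row _ _ _ _).2 ⟨0, 1, by simp⟩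
  obtain ⟨u1, u2, u3, u4⟩ := mv_inj (ok.dpos j).ne'
    ((Prod.ext e1 e2 : (F.hk l).w (j, k0 j) = mv a b c f ((F.hk l).w (j, k))).trans mv_mv)
  exact Subtype.ext (HI_uniq (k0 j).2 k.2 (a := a) (b := b) (c := c) (e := f)
    (by simpa using u1) u2 (by simpa using u3) u4).symm

end Pool.Agent.Lib.MP_696deb_nt.Y3
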