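import Pool.Agent.Lib.MP_696deb_nt.Y3.C2
import Pool.Agent.Shared.Weier.Leg

/-! Lines and the sigma function. -/

set_option autoImplicit false

open scoped Classical
open Complex Finset PeriodPair Pool.Agent.Shared.Weier

namespace Pool.Agent.Lib.MP_696deb_nt.Y3

open EW hiding om
open CL (om wC Per)

variable {p s z l : ℂ}

open Filter Topology in
theorem c7_ext {f g : ℂ → ℂ} (hf : ContinuousAt f z) (hg : ContinuousAt g z)
    (h : ∀ᶠ w in 𝓝[≠] z, f w = g w) : f z = g z :=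
  tendsto_nhds_unique_of_eventuallyEq (hf.tendsto.mono_left nhdsWithin_le_nhds)
    (hg.tendsto.mono_left nhdsWithin_le_nhds) h

open Filter Topology in
theorem c7_ev (z p : ℂ) : ∀ᶠ w in 𝓝[≠] z, w + p ∉ LG.lattice :=
  (tendsto_add_nhdsNE z p).eventually (ev_notMem _)

theorem c7_gen (hp : p ∉ LG.lattice) (hz : z ∉ LG.lattice) (hs : s ∉ LG.lattice)
    (h1 : z + p ∉ LG.lattice) (h2 : s + p ∉ LG.lattice) (h3 : z + p / 2 ∉ LG.lattice) :
    (zet LG (z + p) - zet LG z - zet LG (s + p) + zet LG s) *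
      (Shared.Weier.sig LG (s + p) * Shared.Weier.sig LG s) *
      (Shared.Weier.sig LG (z + p) * Shared.Weier.sig LG z) =
      Shared.Weier.sig LG p * (Shared.Weier.sig LG (z + p + s) * Shared.Weier.sig LG (z - s)) := by
  have hb : p / 2 ∉ LG.lattice := fun h => hp (add_halves p ▸ add_mem h h)
  have e1 : ∀ w, p / 2 + (w + p / 2) = w + p := fun w => by ring
  have e2 : ∀ w, p / 2 - (w + p / 2) = -w := fun w => by ring
  have c := (differentiable_sig LG).continuous
  have c1 := (analyticAt_zet hs).continuousAt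
  have c2 : ContinuousAt (fun w => zet LG (w + p)) s :=
    ((hasDerivAt_zet h2).comp_add_const s p).continuousAt
  refine c7_ext (z := s) (f := fun s => (_ - zet LG (s + p) + zet LG s) *
    (Shared.Weier.sig LG (s + p) * Shared.Weier.sig LG s) * _) (g := fun s =>
      _ * (Shared.Weier.sig LG (z + p + s) * Shared.Weier.sig LG (z - s))) (by fun_prop)
      (by fun_prop) ?_
  filter_upwards [ev_notMem (L := LG) s, c7_ev s p, c7_ev s (p / 2)] with s hs h2 h4
  have a1 := zet_aux hb h3 (by rwa [e1]) (by rwa [e2, neg_mem_iff])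
  have a2 := zet_aux hb h4 (by rwa [e1]) (by rwa [e2, neg_mem_iff])
  have w1 := wp_sub' hb h3
  have w2 := wp_sub' hb h4
  have w3 := wp_sub' h3 h4
  have d := sig_two_mul hb
  rw [e1, e2, zet_neg] at a1 a2
  rw [e1, e2, sig_neg, mul_neg, neg_inj] at w1 w2
  rw [show z + p / 2 + (s + p / 2) = z + p + s by ring, add_sub_add_right_eq_sub] at w3
  rw [mul_div_cancel₀ _ two_ne_zero] at d
  rw [w1, w2, w3, d]
  linear_combination Shared.Weier.sig LG (p / 2) ^ 4 * Shared.Weier.sig LG (z + p / 2) ^ 2 *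
    Shared.Weier.sig LG (s + p / 2) ^ 2 * ((℘[LG] (p / 2) - ℘[LG] (z + p / 2)) * a2 -
      (℘[LG] (p / 2) - ℘[LG] (s + p / 2)) * a1)

/-- The line through two points in terms of sigma. -/
theorem line_sig (hp : p ∉ LG.lattice) (hs : s ∉ LG.lattice) (h1 : p + s ∉ LG.lattice)
    (h2 : p - s ∉ LG.lattice) : ∃ c : ℂ, c ≠ 0 ∧ ∀ z ∉ LG.lattice,
      ((℘'[LG] z / 2 - ℘'[LG] p / 2) * (℘[LG] s - ℘[LG] p) -
        (℘'[LG] s / 2 - ℘'[LG] p / 2) * (℘[LG] z - ℘[LG] p)) * Shared.Weier.sig LG z ^ 3 =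
      c * (Shared.Weier.sig LG (z - p) * Shared.Weier.sig LG (z - s) *
        Shared.Weier.sig LG (z + p + s)) := by
  rw [add_comm] at h1
  rw [← neg_mem_iff, neg_sub] at h2
  have n1 := sig_ne hp
  have n2 := sig_ne hs
  have n3 := sig_ne h1
  refine ⟨-(℘[LG] s - ℘[LG] p) / (Shared.Weier.sig LG p *
    (Shared.Weier.sig LG (s + p) * Shared.Weier.sig LG s)),
    div_ne_zero (neg_ne_zero.2 (wp_ne hs hp h1 h2)) (mul_ne_zero n1 (mul_ne_zero n3 n2)),
    fun z hz => ?_⟩
  have c := (differentiable_sig LG).continuous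
  have c1 := (hasDerivAt_wp hz).continuousAt
  have c2 := (hasDerivAt_wp' hz).continuousAt
  refine c7_ext (z := z) (f := fun z => ((℘'[LG] z / 2 - _) * _ - _ * (℘[LG] z - _)) *
    Shared.Weier.sig LG z ^ 3) (g := fun z => _ * (Shared.Weier.sig LG (z - p) *
      Shared.Weier.sig LG (z - s) * Shared.Weier.sig LG (z + p + s))) (by fun_prop) (by fun_prop) ?_
  filter_upwards [ev_notMem (L := LG) z, c7_ev z p, c7_ev z (p / 2), c7_ev z (-p)]
    with z hz k1 k2 k3
  have a1 := zet_add_formula hz hp k1 (by rwa [sub_eq_add_neg])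
  have a2 := zet_add_formula hs hp h1 h2
  have a3 := c7_gen hp hz hs k1 h1 k2
  have a4 := wp_sub' hz hp
  rw [div_mul_eq_mul_div, eq_div_iff (mul_ne_zero n1 (mul_ne_zero n3 n2)), ← sub_div, ← sub_div,
    a1, a2]
  refine mul_left_cancel₀ n1 ?_
  linear_combination (℘[LG] s - ℘[LG] p) * ((zet LG (z + p) - zet LG z - zet LG (s + p) +
    zet LG s) * (Shared.Weier.sig LG (s + p) * Shared.Weier.sig LG s) * Shared.Weier.sig LG z * a4 -
      Shared.Weier.sig LG (z - p) * a3)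

theorem rz_add (hl : l ∈ LG.lattice) : rz (p + l) z = rz p z := by
  obtain ⟨e, he, -, h⟩ := sig_add hl
  have k : cexp (2 * (eta LG p + eta LG l) * z) = cexp (2 * eta LG p * z) *
      cexp (eta LG l * (z - (p + l) + l / 2)) * cexp (eta LG l * (z + p + l / 2)) := by
    rw [← Complex.exp_add, ← Complex.exp_add]
    congr 1
    ring
  have n := exp_ne_zero (eta LG l * (z + p + l / 2))
  rw [rz, rz, ← add_assoc, h, show z - p = z - (p + l) + l by ring, h, map_add, k,
    div_eq_mul_inv _ (Shared.Weier.sig _ _), div_eq_mul_inv, mul_inv]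
  generalize (Shared.Weier.sig LG (z + p))⁻¹ = x
  rcases he with rfl | rfl <;> field_simp

theorem rz_ne (h1 : z - p ∉ LG.lattice) (h2 : z + p ∉ LG.lattice) : rz p z ≠ 0 :=
  div_ne_zero (mul_ne_zero (exp_ne_zero _) (sig_ne h1)) (sig_ne h2)

theorem rz_neg (h1 : z - p ∉ LG.lattice) (h2 : z + p ∉ LG.lattice) : rz (-p) z * rz p z = 1 := by
  have n1 := sig_ne h1
  have n2 := sig_ne h2
  have n3 := exp_ne_zero (2 * eta LG p * z)
  rw [rz, rz, map_neg, mul_neg, neg_mul, exp_neg, sub_neg_eq_add, ← sub_eq_add_neg]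
  field_simp

theorem rz_neg' (h1 : z - p ∉ LG.lattice) (h2 : z + p ∉ LG.lattice) :
    rz p (-z) * rz p z = 1 := by
  have n1 := sig_ne h1
  have n2 := sig_ne h2
  have n3 := exp_ne_zero (2 * eta LG p * z)
  rw [rz, rz, mul_neg, exp_neg, ← neg_add', neg_add_eq_sub, ← neg_sub z, sig_neg, sig_neg]
  field_simp

theorem norm_kl_add (hl : l ∈ LG.lattice) : ‖kl (z + l)‖ = ‖kl z‖ := norm_klein_add hl z

theorem c7_sig (z : ℂ) : Shared.Weier.sig LG (wC * z) = wC * Shared.Weier.sig LG z := by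
  have h : ∀ f : ℂ → ℂ, ∏' l : LG.lattice, f l = ∏' γ : O, f (Om * CL.toC γ) := fun f =>
    ((eO Om_ne).tprod_eq fun l => f l).symm
  rw [Shared.Weier.sig, Shared.Weier.sig, sig0, sig0, mul_assoc, h fun l => E2 (wC * z / l),
    h fun l => E2 (z / l), ← (Units.mulLeft (⟨om, om * om, by decide, by decide⟩ : Oˣ)).tprod_eq
      fun γ : O => E2 (wC * z / (Om * CL.toC γ))]
  congr 3
  funext γ
  rw [Units.mulLeft_apply, map_mul, om_coe, mul_left_comm, mul_div_mul_left _ _ wC_ne]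

theorem norm_kl_om : ‖kl (wC * z)‖ = ‖kl z‖ := by
  have h := eta_mul om z
  have k : ‖wC‖ = 1 := norm_eq_one_of_pow_eq_one wC_cube three_ne_zero
  rw [om_coe, CL.f0_conj] at h
  rw [kl, kl, c7_sig, h, mul_assoc, norm_mul, k, one_mul,
    show (-1 - wC) * eta LG z * (wC * z) = eta LG z * z by
      linear_combination -(eta LG z * z) * CL.wC_sq]

theorem norm_kl_neg : ‖kl (-z)‖ = ‖kl z‖ := by
  rw [kl, kl, sig_neg, map_neg, neg_mul_neg, neg_mul, norm_neg]

theorem log_rz (h1 : z - p ∉ LG.lattice) (h2 : z + p ∉ LG.lattice) :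
    Real.log ‖rz p z‖ = Real.log ‖kl (p - z)‖ - Real.log ‖kl (-p - z)‖ := by
  have n1 := norm_ne_zero_iff.2 (sig_ne h1)
  have n2 := norm_ne_zero_iff.2 (sig_ne h2)
  have h := re_eta_form (L := LG) p z
  rw [← neg_sub z, ← neg_add', norm_kl_neg, norm_kl_neg, add_comm p]
  simp only [rz, kl, norm_div, norm_mul, norm_exp, Real.log_mul, Real.log_div, n1, n2,
    Real.exp_ne_zero, ne_eq, not_false_eq_true, mul_eq_zero, or_self, Real.log_exp]
  have e : 2 * eta LG p * z = -(eta LG (z - p) * (z - p) / 2) - -(eta LG (z + p) * (z + p) / 2) +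
      (eta LG p * z - eta LG z * p) := by
    rw [map_sub, map_add]
    ring
  rw [e, add_re, h, sub_re]
  ring

theorem c7_kl (k : ZMod 6) (z : ℂ) : ‖kl (CL.toC (ip k) * z)‖ = ‖kl z‖ := by
  rw [ip, map_pow, show (⟨1, 1⟩ : O) = -(om * om) by decide, map_neg, map_mul, om_coe]
  induction k.val with
  | zero => rw [pow_zero, one_mul]
  | succ n ih =>
    rw [pow_succ', mul_assoc, neg_mul, norm_kl_neg, mul_assoc, norm_kl_om, norm_kl_om, ih]

theorem Gr_eq (h : ∀ η : O, η ^ 6 = 1 → CL.toC η * z - p ∉ LG.lattice) :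
    Gr p z = ∑ k : ZMod 3, CL.toC (om ^ k.val) *
      (Real.log ‖rz p (CL.toC (om ^ k.val) * z)‖ : ℝ) := by
  have e : ∀ η : O, η ^ 6 = 1 → Real.log ‖rz p (CL.toC η * z)‖ =
      Real.log ‖kl (CL.toC (star η) * p - z)‖ - Real.log ‖kl (CL.toC (-star η) * p - z)‖ :=
    fun η k => by
    have k1 := h (-η) ((Even.neg_pow (by decide) η).trans k)
    rw [map_neg, neg_mul, ← neg_add', neg_mem_iff] at k1
    obtain ⟨j, rfl⟩ := six_ip k
    have k2 : CL.toC (ip j) * CL.toC (star (ip j)) = 1 := by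
      rw [← map_mul, (by decide : ∀ j, ip j * star (ip j) = 1), map_one]
    rw [log_rz (h _ k) k1, ← c7_kl j (_ * p - z), ← c7_kl j (_ * p - z), map_neg, mul_sub, mul_sub,
      neg_mul, mul_neg, ← mul_assoc, k2, one_mul]
  rw [sum_congr rfl fun k _ => by rw [e _ (by revert k; decide)]]
  refine (Fin.sum_univ_six _).trans (Eq.trans ?_ (Fin.sum_univ_three _).symm)
  rw [show ip (0 : Fin 6) = star (om ^ ZMod.val (n := 3) (0 : Fin 3)) by decide,
    show ip (1 : Fin 6) = -star (om ^ ZMod.val (n := 3) (1 : Fin 3)) by decide,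
    show ip (2 : Fin 6) = star (om ^ ZMod.val (n := 3) (2 : Fin 3)) by decide,
    show ip (3 : Fin 6) = -star (om ^ ZMod.val (n := 3) (0 : Fin 3)) by decide,
    show ip (4 : Fin 6) = star (om ^ ZMod.val (n := 3) (1 : Fin 3)) by decide,
    show ip (5 : Fin 6) = -star (om ^ ZMod.val (n := 3) (2 : Fin 3)) by decide]
  simp only [star_neg, star_star, map_neg CL.toC (om ^ _)]
  push_cast
  ring

theorem Gr_add_left (hl : l ∈ LG.lattice) : Gr (p + l) z = Gr p z :=
  sum_congr rfl fun k _ => by rw [mul_add, add_sub_right_comm, norm_kl_add (mul_mem_LG _ hl)]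

theorem Gr_add_right (hl : l ∈ LG.lattice) : Gr p (z + l) = Gr p z :=
  sum_congr rfl fun k _ => by
    rw [← sub_sub, sub_eq_add_neg _ l, norm_kl_add (neg_mem hl)]

theorem Gr_unit {a b : O} (ha : a ^ 6 = 1) (hb : b ^ 6 = 1) :
    Gr (CL.toC a * p) (CL.toC b * z) = CL.toC a * CL.toC (star b) * Gr p z := by
  obtain ⟨i, rfl⟩ := six_ip ha
  obtain ⟨j, rfl⟩ := six_ip hb
  have e1 : ∀ i j k : ZMod 6, star (ip (k + (j - i))) = ip i * star (ip j) * star (ip k) := by
    decide +kernel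
  have e2 : ∀ i j k : ZMod 6, ip (k + (j - i)) * ip i = ip j * ip k := by decide +kernel
  rw [Gr, Gr, mul_sum, ← Equiv.sum_comp (Equiv.addRight (j - i))]
  refine sum_congr rfl fun k _ => ?_
  rw [Equiv.coe_addRight, e1, ← mul_assoc, ← map_mul, e2, map_mul _ (ip j),
    mul_assoc (CL.toC (ip j)), ← mul_sub, c7_kl, map_mul, map_mul,
    mul_assoc _ (_ : ℂ) (Real.log _ : ℂ)]

end Pool.Agent.Lib.MP_696deb_nt.Y3
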