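import Pool.Agent.Lib.MP_696deb_nt.Y3.C7
import Pool.Agent.Lib.MP_696deb_nt.Y3.C4

/-! The values of a function with prescribed divisor. -/

set_option autoImplicit false

open scoped Classical
open Complex Finset PeriodPair Pool.Agent.Shared.Weier

namespace Pool.Agent.Lib.MP_696deb_nt.Y3

open EW hiding om
open CL (om wC Per)

variable {l : List A} {P S B R : A} {z : ℂ}

theorem exists_ge (l : List A) (R : A) : ∃ B, Ge l B R := by
  have : Infinite A := not_finite_iff_infinite.1 fun _ => by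
    have := Fintype.ofFinite A
    have h1 := card_En (n := ((Fintype.card A + 1 : ℕ) : O)) (Nat.cast_ne_zero.2 (by omega))
    have h2 := card_le_univ (En ((Fintype.card A + 1 : ℕ) : O))
    rw [CL.nm_nat, sq] at h1
    have h3 : (En ((Fintype.card A + 1 : ℕ) : O)).card =
      (Fintype.card A + 1) * (Fintype.card A + 1) := by exact_mod_cast h1
    nlinarith
  suffices ∃ S : Finset A, ∀ B ∉ S, Ge l B R from
    this.elim fun S h => (Infinite.exists_notMem_finset S).imp h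
  induction l with
  | nil => exact ⟨{0, R, -R}, fun B h => by simpa [Ge, not_or] using h⟩
  | cons P l ih =>
    obtain ⟨S, h⟩ := ih
    refine ⟨{0, R, -R, P, -P} ∪ S.image (· - P), fun B k => ⟨?_, h _ fun e => k ?_⟩⟩
    · simpa [not_or] using notMem_mono subset_union_left k
    · exact mem_union_right _ (mem_image.2 ⟨_, e, add_sub_cancel_right _ _⟩)

theorem c8_sub {p : ℂ} (hz : cp R = un z) (hp : cp P = un p) (h : P ≠ R) :
    z - p ∉ LG.lattice := fun e =>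
  h (sub_eq_zero.1 ((cp_ne (by rw [map_sub, map_sub, hz, hp])).1 e)).symm

theorem c8_add {p : ℂ} (hz : cp R = un z) (hp : cp P = un p) (h : P ≠ -R) :
    z + p ∉ LG.lattice := fun e =>
  h (eq_neg_of_add_eq_zero_right ((cp_ne (by rw [map_add, map_add, hz, hp])).1 e))

theorem c8_jc_de {p s : ℂ} (hP : P ≠ 0) (hS : S ≠ 0) (hR : R ≠ 0) (hp : cp P = un p)
    (hs : cp S = un s) (hz : cp R = un z) : EW.jc (de P S R) =
      (℘'[LG] z / 2 - ℘'[LG] p / 2) * (℘[LG] s - ℘[LG] p) -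
        (℘'[LG] s / 2 - ℘'[LG] p / 2) * (℘[LG] z - ℘[LG] p) := by
  simp only [de, map_sub, map_mul, cp_co hp hP, cp_co hs hS, cp_co hz hR]

theorem de_spec (hP : P ≠ 0) (hS : S ≠ 0) (hR : R ≠ 0) (h1 : S ≠ P) (h2 : S ≠ -P) (h3 : P ≠ R)
    (h4 : P ≠ -R) (h5 : S ≠ R) (h6 : S ≠ -R) (h7 : S + P ≠ R) (h8 : S + P ≠ -R)
    (hz : cp R = un z) : de P S R ≠ 0 ∧ de P S (-R) ≠ 0 ∧
      EW.jc (de P S R / de P S (-R)) * rz (lf (S + P)) z = rz (lf P) z * rz (lf S) z := by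
  have p := un_lf P
  have s := un_lf S
  have ps : cp (S + P) = un (lf P + lf S) := by rw [map_add, map_add, p, s, add_comm]
  have nz : cp (-R) = un (-z) := by rw [map_neg, map_neg, hz]
  have z0 := mt (cp_ne hz).1 hR
  obtain ⟨c, c0, hc⟩ := line_sig (mt (cp_ne p).1 hP) (mt (cp_ne s).1 hS) (c8_add p s h2)
    (c8_sub p s h1)
  have e1 := hc z z0
  have e2 := hc (-z) (mt (cp_ne nz).1 (neg_ne_zero.2 hR))
  rw [← c8_jc_de hP hS hR p s hz] at e1
  rw [← c8_jc_de hP hS (neg_ne_zero.2 hR) p s nz, show -z - lf P = -(z + lf P) by ring,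
    show -z - lf S = -(z + lf S) by ring, show -z + lf P + lf S = -(z - (lf P + lf S)) by ring,
    sig_neg, sig_neg, sig_neg, sig_neg] at e2
  rw [add_assoc] at e1
  have a1 := sig_ne (c8_sub hz p h3)
  have a2 := sig_ne (c8_add hz p h4)
  have a3 := sig_ne (c8_sub hz s h5)
  have a4 := sig_ne (c8_add hz s h6)
  have a5 := sig_ne (c8_sub hz ps h7)
  have a6 := sig_ne (c8_add hz ps h8)
  have a7 := sig_ne z0
  have b1 : de P S R ≠ 0 := fun e => by
    rw [e, map_zero, zero_mul] at e1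
    exact mul_ne_zero c0 (mul_ne_zero (mul_ne_zero a1 a3) a6) e1.symm
  have b2 : de P S (-R) ≠ 0 := fun e => by
    rw [e, map_zero, zero_mul] at e2
    exact mul_ne_zero c0 (mul_ne_zero (mul_ne_zero (neg_ne_zero.2 a2) (neg_ne_zero.2 a4))
      (neg_ne_zero.2 a5)) e2.symm
  refine ⟨b1, b2, ?_⟩
  have b3 := (map_ne_zero EW.jc).2 b2
  have hl : lf (S + P) - (lf P + lf S) ∈ LG.lattice :=
    un_eq_zero.1 (by rw [map_sub, ← un_lf, ps, sub_self])
  rw [← add_sub_cancel (lf P + lf S) (lf (S + P)), rz_add hl, rz, rz, rz, map_div₀, map_add,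
    mul_add, add_mul, Complex.exp_add, eq_div_of_mul_eq (pow_ne_zero 3 a7) e1,
    eq_div_of_mul_eq (pow_ne_zero 3 (neg_ne_zero.2 a7)) e2]
  field_simp

theorem Ge.hd (h : Ge l B R) : B ≠ 0 ∧ B ≠ R ∧ B ≠ -R := by
  cases l with
  | nil => exact h
  | cons P l => exact ⟨h.1.1, h.1.2.1, h.1.2.2.1⟩

theorem c8_off (off : Off (P :: l) R) : Off l R :=
  ⟨off.1, fun Q h => off.2 Q (List.mem_cons_of_mem _ h)⟩

theorem c8_de (h0 : ∀ Q ∈ P :: l, Q ≠ 0) (off : Off (P :: l) R) (ge : Ge (P :: l) B R)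
    (hz : cp R = un z) : de P B R ≠ 0 ∧ de P B (-R) ≠ 0 ∧
      EW.jc (de P B R / de P B (-R)) * rz (lf (B + P)) z = rz (lf P) z * rz (lf B) z :=
  de_spec (h0 P List.mem_cons_self) ge.1.1 off.1 ge.1.2.2.2.1 ge.1.2.2.2.2
    (off.2 P List.mem_cons_self).1 (off.2 P List.mem_cons_self).2 ge.1.2.1 ge.1.2.2.1
    ge.2.hd.2.1 ge.2.hd.2.2 hz

theorem jc_Sy (h0 : ∀ P ∈ l, P ≠ 0) (off : Off l R) (ge : Ge l B R) (hz : cp R = un z) :
    EW.jc (Sy l B R) * rz (lf (B + l.sum)) z = (l.map fun P => rz (lf P) z).prod * rz (lf B) z := by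
  induction l generalizing B with
  | nil => simp [Sy]
  | cons P l ih =>
    have e := ih (fun Q h => h0 Q (List.mem_cons_of_mem _ h)) (c8_off off) ge.2
    have d := (c8_de h0 off ge hz).2.2
    rw [Sy, map_mul, List.sum_cons, ← add_assoc, List.map_cons, List.prod_cons]
    linear_combination EW.jc (de P B R / de P B (-R)) * e +
      (l.map fun P => rz (lf P) z).prod * d

theorem c8_jc (h0 : ∀ P ∈ l, P ≠ 0) (hs : l.sum = 0) (off : Off l R) (ge : Ge l B R)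
    (hz : cp R = un z) : EW.jc (Sy l B R) = (l.map fun P => rz (lf P) z).prod := by
  have e := jc_Sy h0 off ge hz
  rw [hs, add_zero] at e
  exact mul_right_cancel₀
    (rz_ne (c8_sub hz (un_lf B) ge.hd.2.1) (c8_add hz (un_lf B) ge.hd.2.2)) e

theorem jc_sy (h0 : ∀ P ∈ l, P ≠ 0) (hs : l.sum = 0) (off : Off l R) (hz : cp R = un z) :
    EW.jc (sy l R) = (l.map fun P => rz (lf P) z).prod := by
  have h := exists_ge l R
  rw [sy, dif_pos h]
  exact c8_jc h0 hs off h.choose_spec hz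

theorem Sy_eq (h0 : ∀ P ∈ l, P ≠ 0) (hs : l.sum = 0) (off : Off l R) (ge : Ge l B R) :
    Sy l B R = sy l R :=
  EW.jc.injective ((c8_jc h0 hs off ge (un_lf R)).trans (jc_sy h0 hs off (un_lf R)).symm)

theorem sy_ne (h0 : ∀ P ∈ l, P ≠ 0) (hs : l.sum = 0) (off : Off l R) : sy l R ≠ 0 := fun e => by
  have h := jc_sy h0 hs off (un_lf R)
  rw [e, map_zero, eq_comm, List.prod_eq_zero_iff, List.mem_map] at h
  obtain ⟨P, h1, h2⟩ := h
  exact rz_ne (c8_sub (un_lf R) (un_lf P) (off.2 P h1).1)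
    (c8_add (un_lf R) (un_lf P) (off.2 P h1).2) h2

theorem Off.neg (off : Off l R) : Off l (-R) :=
  ⟨neg_ne_zero.2 off.1, fun P h => ⟨(off.2 P h).2, by rw [neg_neg]; exact (off.2 P h).1⟩⟩

theorem sy_neg (h0 : ∀ P ∈ l, P ≠ 0) (hs : l.sum = 0) (off : Off l R) :
    sy l (-R) = (sy l R)⁻¹ := by
  refine eq_inv_of_mul_eq_one_left (EW.jc.injective ?_)
  rw [map_mul, map_one, jc_sy h0 hs off (un_lf R),
    jc_sy (z := -lf R) h0 hs off.neg (by rw [map_neg, map_neg, un_lf]), ← List.prod_map_mul]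
  refine List.prod_eq_one fun x hx => ?_
  obtain ⟨P, h1, rfl⟩ := List.mem_map.1 hx
  exact rz_neg' (c8_sub (un_lf R) (un_lf P) (off.2 P h1).1)
    (c8_add (un_lf R) (un_lf P) (off.2 P h1).2)

section
variable {M : ℕ} {φ : O → O} {g : Gam}

theorem c8_de_tw (h : φ (cm M g) ^ 6 = 1) (P S R : A) :
    de (tw M φ g P) (tw M φ g S) (tw M φ g R) = io (φ (cm M g)) ^ 7 * g (de P S R) := by
  simp only [de, tw_apply, co_smul h, xco_act, yh_act, map_sub, map_mul]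
  ring

theorem c8_Sy_tw (h : φ (cm M g) ^ 6 = 1) (l : List A) (B R : A) :
    Sy (l.map (tw M φ g)) (tw M φ g B) (tw M φ g R) = g (Sy l B R) := by
  have k : io (φ (cm M g)) ^ 7 ≠ 0 := pow_ne_zero _ (io_ne fun e => by simp [e] at h)
  induction l generalizing B with
  | nil => exact (map_one g).symm
  | cons P l ih =>
    rw [List.map_cons, Sy, Sy, ← map_neg, ← map_add, ih, c8_de_tw h, c8_de_tw h,
      mul_div_mul_left _ _ k, map_mul, map_div₀]

theorem c8_ge_tw {T : A →+ A} (inj : Function.Injective T) (ge : Ge l B R) :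
    Ge (l.map T) (T B) (T R) := by
  induction l generalizing B with
  | nil => exact ⟨(map_ne_zero_iff _ inj).2 ge.1, inj.ne ge.2.1, map_neg T R ▸ inj.ne ge.2.2⟩
  | cons P l ih =>
    obtain ⟨⟨a, b, c, d, e⟩, k⟩ := ge
    exact ⟨⟨(map_ne_zero_iff _ inj).2 a, inj.ne b, map_neg T R ▸ inj.ne c, inj.ne d,
      map_neg T P ▸ inj.ne e⟩, map_add T B P ▸ ih k⟩

/-- Equivariance. -/
theorem sy_tw (h0 : ∀ P ∈ l, P ≠ 0) (hs : l.sum = 0) (off : Off l R)
    (hg : φ (cm M g) ^ 6 = 1) (hp : (l.map (tw M φ g)).Perm l) : sy l (tw M φ g R) = g (sy l R) := by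
  have inj : Function.Injective (tw M φ g) := fun P Q e => MulAction.injective g
    ((IsUnit.of_pow_eq_one hg (by norm_num)).smul_left_cancel.1 e)
  obtain ⟨B, ge⟩ := exists_ge l R
  have h1 : ∀ P ∈ l.map (tw M φ g), P ≠ 0 := fun P h => h0 P (hp.mem_iff.1 h)
  have h2 : (l.map (tw M φ g)).sum = 0 := hp.sum_eq.trans hs
  have h3 : Off (l.map (tw M φ g)) (tw M φ g R) := ⟨(map_ne_zero_iff _ inj).2 off.1, fun P h => by
    obtain ⟨Q, k, rfl⟩ := List.mem_map.1 h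
    rw [← map_neg]
    exact ⟨inj.ne (off.2 Q k).1, inj.ne (off.2 Q k).2⟩⟩
  have h4 : Off l (tw M φ g R) := ⟨h3.1, fun P h => h3.2 P (hp.mem_iff.2 h)⟩
  rw [← Sy_eq h0 hs off ge, ← c8_Sy_tw hg, Sy_eq h1 h2 h3 (c8_ge_tw inj ge)]
  refine EW.jc.injective ?_
  rw [jc_sy h0 hs h4 (un_lf _), jc_sy h1 h2 h3 (un_lf _)]
  exact (hp.map _).prod_eq.symm

end

theorem c8_and {Q Q' : Plc → Prop} (h : ∃ B : Finset ℕ, ∀ v : Plc, v.p ∉ B → Q v)
    (h' : ∃ B : Finset ℕ, ∀ v : Plc, v.p ∉ B → Q' v) :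
    ∃ B : Finset ℕ, ∀ v : Plc, v.p ∉ B → Q v ∧ Q' v :=
  h.elim fun B k => h'.elim fun B' k' => ⟨B ∪ B', fun v hv =>
    ⟨k v (notMem_mono subset_union_left hv), k' v (notMem_mono subset_union_right hv)⟩⟩

theorem c8_ne (h1 : P ≠ R) (h2 : P ≠ -R) : ∃ B : Finset ℕ, ∀ v : Plc, v.p ∉ B →
    ∀ R', R' - R ∈ Kr v → P ≠ R' ∧ P ≠ -R' :=
  (c8_and (kr_ae (sub_ne_zero.2 h1)) (kr_ae (mt eq_neg_of_add_eq_zero_left h2))).imp
    fun _ h v hv R' k => ⟨fun e => (h v hv).1 (e ▸ k), fun e => (h v hv).2 (by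
      rw [e, show -R' + R = -(R' - R) by abel]; exact neg_mem k)⟩

section
variable {v : Plc} {a a' b b' : Qbar} {R' : A}

theorem c8_mul (ha : v.V a = 1) (hb : v.V b = 1) (h : v.V (a' - a) < 1) (k : v.V (b' - b) < 1) :
    v.V (a' * b' - a * b) < 1 := by
  rw [show a' * b' - a * b = a' * (b' - b) + (a' - a) * b by ring]
  refine v.V.map_add_lt ?_ ?_
  · rwa [map_mul, v.V.map_eq_of_sub_lt (ha ▸ h), ha, one_mul]
  · rwa [map_mul, hb, mul_one]

theorem c8_inv (ha : v.V a = 1) (h : v.V (a' - a) < 1) : v.V (a'⁻¹ - a⁻¹) < 1 := by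
  have h' : v.V a' = 1 := (v.V.map_eq_of_sub_lt (ha ▸ h)).trans ha
  have a0 : a ≠ 0 := fun e => by simp [e] at ha
  have a1 : a' ≠ 0 := fun e => by simp [e] at h'
  rwa [inv_sub_inv a1 a0, map_div₀, map_mul, ha, h', mul_one, div_one, v.V.map_sub_swap]

theorem c8_de_near (hP : P ∉ Kr v) (hS : S ∉ Kr v) (hR : R ∉ Kr v) (k : R' - R ∈ Kr v) :
    v.V (de P S R' - de P S R) < 1 := by
  obtain ⟨h1, h2⟩ := near_of_Kr (Q := R') hR (neg_sub R' R ▸ neg_mem k)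
  have n : ∀ {Q : A}, Q ∉ Kr v → Q ≠ 0 := fun h e => h (e ▸ zero_mem _)
  rw [show de P S R' - de P S R = (xco R - xco R') * (yco S - yco P) -
    (yco R - yco R') * (xco S - xco P) by
      rw [de, de, yh_eq (n hP), yh_eq (n hS), yh_eq (n hR),
        yh_eq (n fun e => hR (by simpa using sub_mem e k))]
      ring]
  refine v.V.map_sub_lt ?_ ?_
  · rw [map_mul]
    exact (mul_le_of_le_one_right' (v.V.map_sub_le (V_y hS) (V_y hP))).trans_lt h1
  · rw [map_mul]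
    exact (mul_le_of_le_one_right' (v.V.map_sub_le (V_x hS) (V_x hP))).trans_lt h2

end

theorem c8_cong (h0 : ∀ P ∈ l, P ≠ 0) (off : Off l R) (ge : Ge l B R) :
    ∃ S : Finset ℕ, ∀ v : Plc, v.p ∉ S → v.V (Sy l B R) = 1 ∧ ∀ R', R' - R ∈ Kr v →
      Off l R' ∧ Ge l B R' ∧ v.V (Sy l B R' - Sy l B R) < 1 := by
  induction l generalizing B with
  | nil =>
    refine (c8_and (kr_ae off.1) (c8_ne ge.2.1 ge.2.2)).imp fun S h v hv =>
      ⟨map_one _, fun R' k => ⟨⟨fun e => (h v hv).1 (by simpa [e] using k), by simp⟩,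
        ⟨ge.1, (h v hv).2 R' k⟩, by simp [Sy]⟩⟩
  | cons P l ih =>
    obtain ⟨d1, d2, -⟩ := c8_de h0 off ge (un_lf R)
    have m := off.2 P List.mem_cons_self
    refine (c8_and (c8_and (c8_and (kr_ae (h0 P List.mem_cons_self)) (kr_ae ge.1.1))
      (c8_and (kr_ae off.1) (c8_and (B2.finite_supp d1) (B2.finite_supp d2))))
      (c8_and (c8_and (c8_ne m.1 m.2) (c8_ne ge.1.2.1 ge.1.2.2.1))
        (ih (fun Q h => h0 Q (List.mem_cons_of_mem _ h)) (c8_off off) ge.2))).imp fun S h v hv => ?_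
    obtain ⟨⟨⟨a1, a2⟩, a3, a4, a5⟩, ⟨a6, a7⟩, a8, a9⟩ := h v hv
    have q : v.V (de P B R / de P B (-R)) = 1 := by rw [map_div₀, a4, a5, div_one]
    refine ⟨by rw [Sy, map_mul, q, a8, mul_one], fun R' k => ?_⟩
    obtain ⟨b1, b2, b3⟩ := a9 R' k
    refine ⟨⟨b1.1, List.forall_mem_cons.2 ⟨a6 R' k, b1.2⟩⟩,
      ⟨⟨ge.1.1, (a7 R' k).1, (a7 R' k).2, ge.1.2.2.2⟩, b2⟩, c8_mul q a8 ?_ b3⟩
    rw [div_eq_mul_inv, div_eq_mul_inv]
    exact c8_mul a4 (by rw [map_inv₀, a5, inv_one]) (c8_de_near a1 a2 a3 k) (c8_inv a5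
      (c8_de_near a1 a2 (mt neg_mem_iff.1 a3) (by rw [← neg_sub']; exact neg_mem k)))

/-- Compatibility with reduction. -/
theorem sy_cong (h0 : ∀ P ∈ l, P ≠ 0) (hs : l.sum = 0) (off : Off l R) :
    ∃ B : Finset ℕ, ∀ v : Plc, v.p ∉ B → v.V (sy l R) = 1 ∧
      ∀ R', R' - R ∈ Kr v → Off l R' ∧ v.V (sy l R' - sy l R) < 1 := by
  obtain ⟨B, ge⟩ := exists_ge l R
  refine (c8_cong h0 off ge).imp fun S h v hv => ?_
  rw [← Sy_eq h0 hs off ge]
  refine ⟨(h v hv).1, fun R' k => ?_⟩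
  obtain ⟨a, b, c⟩ := (h v hv).2 R' k
  rw [← Sy_eq h0 hs a b]
  exact ⟨a, c⟩

end Pool.Agent.Lib.MP_696deb_nt.Y3
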