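import Pool.Agent.Lib.MP_696deb_nt.Y3.C4

/-! Eisenstein numbers among the algebraic numbers. -/

set_option autoImplicit false

open scoped Classical
open Complex Finset PeriodPair Pool.Agent.Shared.Weier

namespace Pool.Agent.Lib.MP_696deb_nt.Y3

open EW hiding om
open CL (om wC Per)

variable {x : Qbar} {l : ℕ} {r : O}

theorem c9_th {g : Gam} (h : g ∉ GK 3) : g (io CU.th) = -io CU.th := by
  rw [B2.chi_spec (a := -(3 : ℕ)) (by rw [← map_pow, ← map_intCast io]; congr 1), B2.B4c_notMem.1 h]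
  simp

theorem c9_star {g : Gam} (h : g ∉ GK 3) (a : O) : g (io a) = io (star a) := by
  have e : ∀ a : O, 2 * io a = (2 * a.re - a.im : ℤ) + a.im * io CU.th := fun a => by
    simp [io_apply, CU.th]
    ring
  refine mul_left_cancel₀ two_ne_zero ?_
  rw [← map_ofNat g, ← map_mul, e, map_ofNat, e, map_add, map_mul, c9_th h, map_intCast,
    map_intCast]
  simp
  ring

theorem c9_rat (h : ∀ g : Gam, g x = x) : ∃ q : ℚ, x = q := by
  obtain ⟨q, hq⟩ := (InfiniteGalois.mem_range_algebraMap_iff_fixed (k := ℚ) x).2 h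
  exact ⟨q, hq.symm⟩

/-- The numbers that are fixed by the Galois group of the Eisenstein field. -/
theorem exists_frac (h : ∀ g : Gam, g ∈ GK 3 → g x = x) :
    ∃ a d : O, d ≠ 0 ∧ IsCoprime a d ∧ x * io d = io a := by
  have c := B2.cc_notMem (q := 3) three_pos
  have k : ∀ (g : Gam) y, B2.cc (g y) = x → g y = B2.cc x := fun g y e => by
    rw [← e, ← AlgEquiv.mul_apply, B2.cc_mul_cc, AlgEquiv.one_apply]
  have k1 : ∀ g ∈ GK 3, g (B2.cc x) = B2.cc x := fun g hg => k g _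
    (h (B2.cc * (g * B2.cc)) (B2.mul_mem_GK c (mt (mul_mem_cancel_left hg).1 c)))
  have k2 : ∀ g ∉ GK 3, g x = B2.cc x ∧ g (B2.cc x) = x := fun g hg =>
    ⟨k g _ (h _ (B2.mul_mem_GK c hg)), h _ (B2.mul_mem_GK hg c)⟩
  obtain ⟨a, ha⟩ := c9_rat (x := x + B2.cc x) fun g => by
    by_cases e : g ∈ GK 3
    · rw [map_add, h g e, k1 g e]
    · rw [map_add, (k2 g e).1, (k2 g e).2, add_comm]
  obtain ⟨b, hb⟩ := c9_rat (x := io CU.th * (x - B2.cc x)) fun g => by
    by_cases e : g ∈ GK 3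
    · rw [map_mul, map_sub, h g e, k1 g e, io_fix e]
    · rw [map_mul, map_sub, (k2 g e).1, (k2 g e).2, c9_th e]
      ring
  obtain ⟨n, d, hd, e⟩ : ∃ n d : O, d ≠ 0 ∧ x * io d = io n := by
    refine ⟨3 * a.num * b.den - b.num * a.den * CU.th, ((6 * a.den * b.den : ℕ) : O), ?_, ?_⟩
    · exact Nat.cast_ne_zero.2 (mul_ne_zero (mul_ne_zero (by norm_num) a.den_nz) b.den_nz)
    · have e1 : (a.num : Qbar) = a * a.den := by exact_mod_cast (Rat.mul_den_eq_num a).symm
      have e2 : (b.num : Qbar) = b * b.den := by exact_mod_cast (Rat.mul_den_eq_num b).symm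
      have e3 : io CU.th * io CU.th = -3 := by
        rw [← map_mul, ← map_ofNat io, ← map_neg]
        congr 1
      simp only [map_natCast, map_sub, map_mul, map_intCast, map_ofNat]
      push_cast
      rw [e1, e2, ← ha, ← hb]
      linear_combination (a.den * b.den * (x - B2.cc x)) * e3
  obtain ⟨d', n', c, k, rfl, rfl⟩ := UniqueFactorizationMonoid.exists_reduced_factors d hd n
  refine ⟨n', d', right_ne_zero_of_mul hd, k.isCoprime.symm,
    mul_left_cancel₀ (io_ne (left_ne_zero_of_mul hd)) ?_⟩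
  rw [map_mul, map_mul] at e
  linear_combination e

/-- The norm of an Eisenstein number. -/
noncomputable def nq (x : Qbar) : ℚ := if h : ∃ q : ℚ, (q : ℝ) = ‖EW.jc x‖ ^ 2 then h.choose else 1

/-- The nonzero Eisenstein numbers. -/
def KU (x : Qbar) : Prop := x ≠ 0 ∧ ∀ g : Gam, g ∈ GK 3 → g x = x

theorem KU.mul {y : Qbar} (h : KU x) (h' : KU y) : KU (x * y) :=
  ⟨mul_ne_zero h.1 h'.1, fun g hg => by rw [map_mul, h.2 g hg, h'.2 g hg]⟩

theorem KU.inv (h : KU x) : KU x⁻¹ :=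
  ⟨inv_ne_zero h.1, fun g hg => by rw [map_inv₀, h.2 g hg]⟩

theorem c9_norm {a d : O} (hd : d ≠ 0) (e : x * io d = io a) :
    (((nm a : ℚ) / nm d : ℚ) : ℝ) = ‖EW.jc x‖ ^ 2 := by
  have e1 := congrArg (fun y => Complex.normSq (EW.jc y)) e
  simp only [map_mul, jc_io] at e1
  rw [CL.normSq_toC, CL.normSq_toC, Complex.normSq_eq_norm_sq] at e1
  have h0 : (nm d : ℝ) ≠ 0 := by exact_mod_cast (nm_pos hd).ne'
  push_cast
  rw [div_eq_iff h0, e1]

theorem KU.nq_eq (h : KU x) : (nq x : ℝ) = ‖EW.jc x‖ ^ 2 := by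
  obtain ⟨a, d, hd, -, e⟩ := exists_frac h.2
  have k : ∃ q : ℚ, (q : ℝ) = ‖EW.jc x‖ ^ 2 := ⟨_, c9_norm hd e⟩
  rw [nq, dif_pos k]
  exact k.choose_spec

theorem KU.nq_pos (h : KU x) : 0 < nq x := by
  have : (0 : ℝ) < nq x := by
    rw [h.nq_eq]
    exact pow_pos (norm_pos_iff.2 ((map_ne_zero EW.jc).2 h.1)) 2
  exact_mod_cast this

theorem KU.log_nq (h : KU x) : Real.log (nq x) = 2 * Real.log ‖EW.jc x‖ := by
  rw [h.nq_eq, Real.log_pow, Nat.cast_ofNat]

theorem c9_mul_lt {v : Plc} {a : O} (h : v.V (io a) < 1) (b : O) : v.V (io (a * b)) < 1 := by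
  rw [map_mul, map_mul]
  exact (mul_le_of_le_one_right' (V_io_le v b)).trans_lt h

theorem c9_cop {v : Plc} {a d : O} (h : IsCoprime a d) (ha : v.V (io a) < 1)
    (hd : v.V (io d) < 1) : False := by
  obtain ⟨s, u, e⟩ := h
  have := v.V.map_add_lt (c9_mul_lt ha s) (c9_mul_lt hd u)
  rw [← map_add io, mul_comm a, mul_comm d, e, map_one, map_one] at this
  exact lt_irrefl _ this

theorem c9_den {v : Plc} {a d : O} (h : IsCoprime a d) (e : x * io d = io a) (h1 : v.V x = 1) :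
    v.V (io d) = 1 := by
  refine (V_io_le v d).eq_or_lt.resolve_right fun k => c9_cop h ?_ k
  rwa [← e, map_mul, h1, one_mul]

theorem c9_pow (hl : l.Prime) (hr : nm r = l) (y : O) : r ∣ y ^ l - y := by
  have := Fact.mk hl
  have hc : Nat.card (O ⧸ Ideal.span {r}) = l := by exact_mod_cast (card_quot r).trans hr
  have : Finite (O ⧸ Ideal.span {r}) := Nat.finite_of_card_ne_zero (hc ▸ hl.ne_zero)
  have := Fintype.ofFinite (O ⧸ Ideal.span {r})
  obtain ⟨z, hz⟩ := (ZMod.ringEquivOfPrime (O ⧸ Ideal.span {r}) hl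
    (Nat.card_eq_fintype_card.symm.trans hc)).surjective (Ideal.Quotient.mk _ y)
  rw [← Ideal.mem_span_singleton, ← Ideal.Quotient.eq, map_pow, ← hz, ← map_pow, ZMod.pow_card]

theorem KU.fermat (h : KU x) (hl : l.Prime) (hr : nm r = l) {v : Plc} (hv : v.V (io r) < 1)
    (h1 : v.V x = 1) : v.V (x ^ l - x) < 1 := by
  obtain ⟨a, d, -, hc, e⟩ := exists_frac h.2
  obtain ⟨s, hs⟩ := c9_pow hl hr a
  obtain ⟨u, hu⟩ := c9_pow hl hr d
  have k : (x ^ l - x) * (io d ^ l * io d) = io (r * (s * d - a * u)) := by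
    rw [show r * (s * d - a * u) = a ^ l * d - a * d ^ l by linear_combination a * hu - d * hs,
      map_sub, map_mul, map_mul, map_pow, map_pow, ← e, mul_pow]
    ring
  have := c9_mul_lt hv (s * d - a * u)
  rwa [← k, map_mul, map_mul, map_pow, c9_den hc e h1, one_pow, mul_one, mul_one] at this

theorem exists_plc_of (hl : l.Prime) (hr : nm r = l) : ∃ v : Plc, v.V (io r) < 1 := by
  obtain ⟨w, rfl⟩ := B2.exists_plc hl
  have h := B2.b2a_p_lt w
  rw [← map_natCast io, ← CL.f3_mul hr, map_mul, map_mul] at h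
  rcases (V_io_le w r).eq_or_lt with e | e
  · refine ⟨B2.cc • w, ?_⟩
    rw [e, one_mul] at h
    rwa [B2.smul_V, inv_eq_of_mul_eq_one_right B2.cc_mul_cc, c9_star (B2.cc_notMem three_pos)]
  · exact ⟨w, e⟩

theorem c9_one (hp : Irreducible r) {v : Plc} (hv : v.V (io r) < 1) {a d : O} (hc : IsCoprime a d)
    (e : x * io d = io a) (h1 : v.V (x - 1) < 1) : r ∣ a - d ∧ ¬ r ∣ d := by
  have hx : v.V x = 1 := by
    have := v.V.map_one_add_of_lt h1
    rwa [add_sub_cancel] at this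
  have hd := c9_den hc e hx
  refine ⟨by_contra fun k => c9_cop (hp.coprime_iff_not_dvd.2 k) hv ?_, ?_⟩
  · rwa [map_sub, ← e, ← sub_one_mul, map_mul, hd, mul_one]
  · rintro ⟨s, rfl⟩
    exact (c9_mul_lt hv s).ne hd

section

variable {M : Type} [AddCommGroup M] {L : ℚ → M}

theorem c9_nq_mul {y : Qbar} (h : KU x) (h' : KU y) : nq (x * y) = nq x * nq y := by
  have : (nq (x * y) : ℝ) = nq x * nq y := by
    rw [(h.mul h').nq_eq, h.nq_eq, h'.nq_eq, map_mul, norm_mul, mul_pow]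
  exact_mod_cast this

theorem Lg.nq_mul (hL : Lg l L) {y : Qbar} (h : KU x) (h' : KU y) :
    L (nq (x * y)) = L (nq x) + L (nq y) := by
  rw [c9_nq_mul h h', hL.add _ _ h.nq_pos h'.nq_pos]

theorem Lg.nq_inv (hL : Lg l L) (h : KU x) : L (nq x⁻¹) = -L (nq x) := by
  have k : KU 1 := ⟨one_ne_zero, fun g _ => map_one g⟩
  have e := hL.nq_mul k k
  rw [mul_one, left_eq_add] at e
  rw [eq_neg_iff_add_eq_zero, ← hL.nq_mul h.inv h, inv_mul_cancel₀ h.1, e]

/-- Numbers that are one at a place above each of two conjugate primes. -/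
theorem Lg.nq_one (hL : Lg l L) (hl : l.Prime) (hr : nm r = l) (hp : Prim r)
    {v v' : Plc} (hv : v.V (io r) < 1) (hv' : v'.V (io (star r)) < 1) (h : KU x)
    (h1 : v.V (x - 1) < 1) (h2 : v'.V (x - 1) < 1) : L (nq x) = 0 := by
  obtain ⟨a, d, hd, hcd, e⟩ := exists_frac h.2
  have pr := prime_of_norm hl hr hp
  obtain ⟨k1, n1⟩ := c9_one pr.irreducible hv hcd e h1
  obtain ⟨k2, n2⟩ := c9_one (CL.f3_pstar pr).irreducible hv' hcd e h2
  obtain ⟨s, hs⟩ := (c4_cop_star hl hr hp).mul_dvd k1 k2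
  rw [CL.f3_mul hr, sub_eq_iff_eq_add] at hs
  have e1 : nq x = ((nm a).natAbs : ℚ) / ((nm d).natAbs : ℚ) := by
    rw [← Int.cast_natCast, ← Int.cast_natCast (nm d).natAbs,
      Int.natAbs_of_nonneg (CL.nm_nonneg a), Int.natAbs_of_nonneg (CL.nm_nonneg d)]
    exact_mod_cast h.nq_eq.trans (c9_norm hd e).symm
  rw [e1]
  refine hL.one _ _ (fun k => ?_) ?_
  · have k' : (l : O) ∣ d * star d := by
      rw [CL.mul_star_self, ← Int.cast_natCast]
      exact Int.cast_dvd_cast _ _ (Int.natCast_dvd.2 k)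
    rw [← CL.f3_mul hr] at k'
    exact (pr.dvd_or_dvd ((dvd_mul_right r _).trans k')).elim n1 fun q => n2 (CL.f3_star q)
  · rw [Int.natAbs_of_nonneg (CL.nm_nonneg a), Int.natAbs_of_nonneg (CL.nm_nonneg d), hs]
    refine ⟨l * nm s + 2 * (s.re * d.re + s.im * d.im) - s.re * d.im - s.im * d.re, ?_⟩
    simp [nm]
    ring

end

end Pool.Agent.Lib.MP_696deb_nt.Y3
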