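import Pool.Agent.Lib.MP_696deb_nt.Y3.C6
import Pool.Agent.Lib.MP_696deb_nt.Y3.C8
import Pool.Agent.Lib.MP_696deb_nt.Y3.C9

/-! The symbol of two families. -/

set_option autoImplicit false

open scoped Classical
open Complex Finset PeriodPair Pool.Agent.Shared.Weier

namespace Pool.Agent.Lib.MP_696deb_nt.Y3

open EW hiding om
open CL (om wC Per)

variable {ι κ : Type} [Fintype ι] [Fintype κ] {F : Fam ι} {F' : Fam κ} {d d' M N N' n : ℕ} {φ : O → O}

/-- The points of a family, each `n` times. -/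
noncomputable def Fam.ls (F : Fam ι) (n : ℕ) : List A := (n • univ.val.map F.pt).toList

/-- The value of the function on a rotated family. -/
noncomputable def bb (l : List A) (F' : Fam κ) (η : O) : Qbar := ∏ k, sy l (η • F'.pt k)

/-- The families do not meet. -/
def Sep (l : List A) (F' : Fam κ) : Prop := ∀ η : O, η ^ 6 = 1 → ∀ k, Off l (η • F'.pt k)

theorem ce_mem {P : A} (h : P ∈ F.ls n) : ∃ j, F.pt j = P := by
  obtain ⟨j, -, e⟩ := Multiset.mem_map.1 (Multiset.mem_of_mem_nsmul (Multiset.mem_toList.1 h))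
  exact ⟨j, e⟩

theorem ce_mem' (hn : n ≠ 0) (j : ι) : F.pt j ∈ F.ls n :=
  Multiset.mem_toList.2 ((Multiset.mem_nsmul_of_ne_zero hn).2
    (Multiset.mem_map_of_mem _ (mem_univ j)))

theorem ce_prod (f : A → ℂ) : ((F.ls n).map f).prod = (∏ j, f (F.pt j)) ^ n := by
  rw [← Multiset.prod_coe, ← Multiset.map_coe, Fam.ls, Multiset.coe_toList, Multiset.map_nsmul,
    Multiset.prod_nsmul, Multiset.map_map]
  rfl

theorem ce_perm {T : A → A} {s : ι ≃ ι} (h : ∀ j, T (F.pt j) = F.pt (s j)) :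
    ((F.ls n).map T).Perm (F.ls n) := by
  rw [← Multiset.coe_eq_coe, ← Multiset.map_coe, Fam.ls, Multiset.coe_toList, Multiset.map_nsmul,
    Multiset.map_map, show T ∘ F.pt = F.pt ∘ s from funext h, ← Multiset.map_map,
    Multiset.map_univ_val_equiv]

theorem ce_ne (ok : F.Ok d) (ok' : F'.Ok d') {j : ι} {k : κ}
    (h : ¬ EqS (tb (F.w j)) (tb (F'.w k))) {η : O} (hη : η ^ 6 = 1) : F.pt j ≠ η • F'.pt k := by
  intro e
  have e1 : Pz (F.w j) = (F.wt j ^ 5 * η * F'.wt k) • Pz (F'.w k) := by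
    have := congrArg (F.wt j ^ 5 • ·) e
    simp only [Fam.pt, smul_smul] at this
    rwa [← pow_succ, ok.six, one_smul, ← mul_assoc] at this
  have e2 := cp_smul (F.wt j ^ 5 * η * F'.wt k) (pt_spec (ok'.dpos k))
  rw [← e1, pt_spec (ok.dpos j), ← sub_eq_zero, ← map_sub, un_eq_zero] at e2
  exact h (eqS_of (tb_pos (ok.dpos j)) (tb_pos (ok'.dpos k)) (by
    rw [mul_pow, mul_pow, pow_right_comm, ok.six, hη, ok'.six, one_pow, one_mul, one_mul]) e2)

theorem ce_off (ok : F.Ok d) (ok' : F'.Ok d') (hn : n ≠ 0) (sep : Sep (F.ls n) F') {η : O}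
    (h : η ^ 6 = 1) (j : ι) (k : κ) :
    CL.toC η * F'.z k - F.z j ∉ LG.lattice ∧ CL.toC η * F'.z k + F.z j ∉ LG.lattice := by
  obtain ⟨h1, h2⟩ := (sep η h k).2 _ (ce_mem' hn j)
  rw [← un_eq_zero, ← un_eq_zero, map_sub, map_add, ← cp_smul η (ok'.cp_pt k), ← ok.cp_pt,
    ← map_sub, ← map_add, map_eq_zero_iff _ cp_inj, map_eq_zero_iff _ cp_inj]
  exact ⟨fun e => h1 (sub_eq_zero.1 e).symm, fun e => h2 (eq_neg_of_add_eq_zero_right e)⟩

theorem ls_ne (ok : F.Ok d) (nz : F.Nz) : ∀ P ∈ F.ls n, P ≠ 0 := fun _ h =>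
  (ce_mem h).elim fun j e => e ▸ ok.pt_ne nz j

theorem sep_of (ok : F.Ok d) (ok' : F'.Ok d') (nz' : F'.Nz)
    (h : ∀ j k, ¬ EqS (tb (F.w j)) (tb (F'.w k))) : Sep (F.ls n) F' := fun η hη k => by
  refine ⟨fun e => ok'.pt_ne nz' k ?_, fun P hP => ?_⟩
  · rw [← one_smul O (F'.pt k), ← hη, pow_succ, mul_smul, e, smul_zero]
  · obtain ⟨j, rfl⟩ := ce_mem hP
    exact ⟨ce_ne ok ok' (h j k) hη, neg_smul η (F'.pt k) ▸ ce_ne ok ok' (h j k)
      ((Even.neg_pow (by decide) η).trans hη)⟩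

theorem bb_KU (hL : Lk M φ) (ok : F.Ok d) (nz : F.Nz) (hN : 0 < N)
    (st : F.Stable N fun a => φ a * eb a) (hN' : 0 < N') (ok' : F'.Ok d') (st' : F'.Stable N' fun a => φ a * eb a)
    (hs : (F.ls n).sum = 0) (sep : Sep (F.ls n) F') {η : O} (h : η ^ 6 = 1) :
    KU (bb (F.ls n) F' η) := by
  refine ⟨prod_ne_zero_iff.2 fun k _ => sy_ne (ls_ne ok nz) hs (sep η h k), fun g hg => ?_⟩
  obtain ⟨s, h1⟩ := Fam.gal hL ok hN st hg
  obtain ⟨s', h2⟩ := Fam.gal hL ok' hN' st' hg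
  rw [bb, map_prod, ← Equiv.prod_comp s' fun k => sy (F.ls n) (η • F'.pt k)]
  exact prod_congr rfl fun k _ => by
    rw [← sy_tw (ls_ne ok nz) hs (sep η h k) (hL.tw_six hg) (ce_perm h1), tw_smul hg, h2]

theorem bb_neg (ok : F.Ok d) (nz : F.Nz) (hs : (F.ls n).sum = 0) (sep : Sep (F.ls n) F')
    {η : O} (h : η ^ 6 = 1) : bb (F.ls n) F' (-η) = (bb (F.ls n) F' η)⁻¹ := by
  rw [bb, bb, ← prod_inv_distrib]
  exact prod_congr rfl fun k _ => by rw [neg_smul, sy_neg (ls_ne ok nz) hs (sep η h k)]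

theorem ce_log (ok : F.Ok d) (nz : F.Nz) (ok' : F'.Ok d') (hs : (F.ls n).sum = 0)
    (sep : Sep (F.ls n) F') {η : O} (h : η ^ 6 = 1) : Real.log ‖EW.jc (bb (F.ls n) F' η)‖ =
      n * ∑ j, ∑ k, Real.log ‖rz (F.z j) (CL.toC η * F'.z k)‖ := by
  have e : ∀ j w, rz (lf (F.pt j)) w = rz (F.z j) w := fun j w => by
    rw [← rz_add (p := F.z j) (l := lf (F.pt j) - F.z j) (by
      rw [← un_eq_zero, map_sub, ← un_lf, ok.cp_pt, sub_self]), add_sub_cancel]
  rw [bb, map_prod, prod_congr rfl fun k _ => (jc_sy (ls_ne ok nz) hs (sep η h k)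
    (cp_smul η (ok'.cp_pt k))).trans (ce_prod _), prod_pow, norm_pow, Real.log_pow]
  rcases eq_or_ne n 0 with rfl | hn
  · simp
  have ne := fun j k => norm_ne_zero_iff.2
    (rz_ne (ce_off ok ok' hn sep h j k).1 (ce_off ok ok' hn sep h j k).2)
  simp only [e, norm_prod]
  rw [prod_comm, Real.log_prod fun j _ => prod_ne_zero_iff.2 fun k _ => ne j k,
    sum_congr rfl fun j _ => Real.log_prod fun k _ => ne j k]

theorem bb_arch (ok : F.Ok d) (nz : F.Nz) (ok' : F'.Ok d') (hs : (F.ls n).sum = 0)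
    (sep : Sep (F.ls n) F') : ∑ c : ZMod 3, CL.toC (om ^ c.val) *
      (Real.log ‖EW.jc (bb (F.ls n) F' (om ^ c.val))‖ : ℝ) = n * F.arch F' := by
  rw [sum_congr rfl fun c _ => by rw [ce_log ok nz ok' hs sep (by revert c; decide)]]
  rcases eq_or_ne n 0 with rfl | hn
  · simp
  rw [Fam.arch, sum_congr rfl fun j _ => sum_congr rfl fun k _ =>
    Gr_eq fun η h => (ce_off ok ok' hn sep h j k).1]
  push_cast
  simp only [mul_sum, mul_left_comm (n : ℂ)]
  exact sum_comm.trans (sum_congr rfl fun j _ => sum_comm)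

theorem bb_cong (ok : F.Ok d) (nz : F.Nz) (hN' : 0 < N') (ok' : F'.Ok d') {χ : O → O}
    (st' : F'.Stable N' χ) (hs : (F.ls n).sum = 0) (sep : Sep (F.ls n) F') :
    ∃ B : Finset ℕ, ∀ (l : ℕ) (r : O) (v : Plc), l.Prime → l ∉ B → Prim r → nm r = l →
      v.V (io r) < 1 → χ r ^ 6 = 1 → χ (star r) ^ 6 = 1 → Sep (F.ls n) (F'.hk l) ∧
      ∀ η : O, η ^ 6 = 1 → v.V (bb (F.ls n) F' η) = 1 ∧ v.V (bb (F.ls n) (F'.hk l) η -
        bb (F.ls n) F' (η * χ (star r)) * bb (F.ls n) F' (η * χ r) ^ l) < 1 := by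
  choose B hB using fun x : ZMod 6 × κ => sy_cong (ls_ne ok nz) hs (sep (ip x.1) (by
    generalize x.1 = c
    revert c
    decide) x.2)
  obtain ⟨B', hB'⟩ := Fam.kron ok' hN' st'
  refine ⟨univ.biUnion B ∪ B', fun l r v hl hb hp hr hv c1 c2 => ?_⟩
  rw [notMem_union] at hb
  obtain ⟨s, s', k0, hk⟩ := hB' l r v hl hb.2 hp hr hv
  have H : ∀ η : O, η ^ 6 = 1 → ∀ k, v.V (sy (F.ls n) (η • F'.pt k)) = 1 ∧
      ∀ R', R' - η • F'.pt k ∈ Kr v → Off (F.ls n) R' ∧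
        v.V (sy (F.ls n) R' - sy (F.ls n) (η • F'.pt k)) < 1 := fun η hη k => by
    obtain ⟨c, rfl⟩ := six_ip hη
    exact hB (c, k) v fun e => hb.1 (p_of_norm hl hr hv ▸ mem_biUnion.2 ⟨_, mem_univ _, e⟩)
  let T : O → κ × HI l → A := fun η x =>
    if x.2 = k0 x.1 then (η * χ (star r)) • F'.pt (s' x.1) else (η * χ r) • F'.pt (s x.1)
  have K : ∀ η : O, η ^ 6 = 1 → ∀ x, v.V (sy (F.ls n) (T η x)) = 1 ∧
      Off (F.ls n) (η • (F'.hk l).pt x) ∧
      v.V (sy (F.ls n) (η • (F'.hk l).pt x) - sy (F.ls n) (T η x)) < 1 := fun η hη ⟨j, k⟩ => by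
    simp only [T]
    split_ifs with e
    · have := H (η * χ (star r)) (by rw [mul_pow, hη, c2, mul_one]) (s' j)
      exact ⟨this.1, this.2 _ (by rw [e, (hk j).1, mul_smul, sub_self]; exact zero_mem _)⟩
    · have := H (η * χ r) (by rw [mul_pow, hη, c1, mul_one]) (s j)
      exact ⟨this.1, this.2 _ (by
        rw [mul_smul, ← smul_sub]
        exact (Kr v).smul_mem η ((hk j).2 k e))⟩
  refine ⟨fun η hη x => (K η hη x).2.1, fun η hη => ⟨?_, ?_⟩⟩
  · rw [bb, map_prod]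
    exact prod_eq_one fun k _ => (H η hη k).1
  have e : bb (F.ls n) F' (η * χ (star r)) * bb (F.ls n) F' (η * χ r) ^ l =
      ∏ x, sy (F.ls n) (T η x) := by
    rw [bb, bb, ← Equiv.prod_comp s', ← Equiv.prod_comp s fun k => sy _ ((η * χ r) • F'.pt k),
      ← prod_pow, ← prod_mul_distrib, Fintype.prod_prod_type]
    refine prod_congr rfl fun j _ => ?_
    rw [← mul_prod_erase _ _ (mem_univ (k0 j)), prod_congr rfl fun k hk =>
      congrArg (sy (F.ls n)) (if_neg (ne_of_mem_erase hk) :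
        T η (j, k) = (η * χ r) • F'.pt (s j)), prod_const, card_erase_of_mem (mem_univ _),
      card_univ, Fintype.card_coe, card_HI hl, Nat.add_sub_cancel, show T η (j, k0 j) = _ from if_pos rfl]
  rw [e]
  refine V_prod_cong univ (fun x _ => ?_) (fun x _ => (K η hη x).1.le) fun x _ => (K η hη x).2.2
  rw [← sub_add_cancel (sy _ _) (sy (F.ls n) (T η x))]
  exact v.V.map_add_le (K η hη x).2.2.le (K η hη x).1.le

end Pool.Agent.Lib.MP_696deb_nt.Y3
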