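import Pool.Agent.Lib.MP_696deb_nt.Y3.CE

/-! The symbol of two families: the final statements. -/

set_option autoImplicit false

open scoped Classical
open Complex Finset PeriodPair Pool.Agent.Shared.Weier

namespace Pool.Agent.Lib.MP_696deb_nt.Y3

open EW hiding om
open CL (om wC Per)

variable {ι κ : Type} [Fintype ι] [Fintype κ] {F : Fam ι} {F' : Fam κ} {d d' M N N' n : ℕ} {φ : O → O}

theorem ls_sum (F : Fam ι) (n : ℕ) : (F.ls n).sum = n • ∑ j, F.pt j := by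
  rw [Fam.ls, Multiset.sum_toList, Multiset.sum_nsmul]
  rfl

theorem cp_sum (ok : F.Ok d) : cp (∑ j, F.pt j) = un (∑ j, F.z j) := by
  rw [map_sum, map_sum]
  exact sum_congr rfl fun j _ => ok.cp_pt j

theorem tors_iff (ok : F.Ok d) (n : ℕ) :
    n • ∑ j, F.pt j = 0 ↔ (n : ℂ) * ∑ j, F.z j ∈ LG.lattice := by
  rw [← un_eq_zero, ← nsmul_eq_mul, map_nsmul, ← cp_sum ok, ← map_nsmul,
    map_eq_zero_iff _ cp_inj]

theorem arch_hk_one (ok : F'.Ok d') : F.arch (F'.hk 1) = F.arch F' := by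
  refine sum_congr rfl fun j _ => ?_
  rw [Fam.sum_hk ok fun z => Gr (F.z j) z]
  simp [nb_one, Fam.z]

omit [Fintype κ] in
theorem cg_six (ok : F'.Ok d') {χ : O → O} (st : F'.Stable N' χ) [Nonempty κ] {r : O}
    (hp : Prim r) (hc : IsCoprime r N') : χ r ^ 6 = 1 := by
  obtain ⟨s, hs⟩ := st r hp hc
  obtain ⟨j⟩ := ‹Nonempty κ›
  obtain ⟨e, h1, h2⟩ := hs j
  have := ok.six (s j)
  rwa [h2, mul_pow, mul_pow, h1.six, ok.six, mul_one, mul_one] at this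

theorem cg_cop {l : ℕ} {r : O} (hl : l.Prime) (hr : nm r = l) (h : ¬ l ∣ N) : IsCoprime r N := by
  have k : IsCoprime ((l : ℤ) : O) ((N : ℤ) : O) :=
    (Nat.isCoprime_iff_coprime.2 ((Nat.Prime.coprime_iff_not_dvd hl).2 h)).map (Int.castRingHom O)
  rw [← hr, ← CL.mul_star_self, Int.cast_natCast] at k
  exact k.of_mul_left_left

theorem cg_rot {Z : Type} [AddCommGroup Z] {b : O → Z} (h : ∀ η, η ^ 6 = 1 → b (-η) = -b η) {u : O}
    (hu : u ^ 6 = 1) : b (1 * u) - b (om ^ 2 * u) =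
      (star u).re • (b 1 - b (om ^ 2)) - (star u).im • (b om - b (om ^ 2)) ∧
    b (om * u) - b (om ^ 2 * u) = (star u).im • (b 1 - b (om ^ 2)) +
      ((star u).re - (star u).im) • (b om - b (om ^ 2)) := by
  have h1 : b ⟨-1, 0⟩ = -b ⟨1, 0⟩ := h 1 (one_pow 6)
  have h2 : b ⟨0, -1⟩ = -b ⟨0, 1⟩ := h om (by decide)
  have h3 : b ⟨1, 1⟩ = -b ⟨-1, -1⟩ := h (om ^ 2) (by decide)
  obtain ⟨k, rfl⟩ := six_ip hu
  rcases (by decide : ∀ k, ip k = ⟨1, 0⟩ ∨ ip k = ⟨-1, 0⟩ ∨ ip k = ⟨0, 1⟩ ∨ ip k = ⟨0, -1⟩ ∨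
    ip k = ⟨1, 1⟩ ∨ ip k = ⟨-1, -1⟩) k with e | e | e | e | e | e <;>
  simp [e, sq, show (1 : O) = ⟨1, 0⟩ from rfl, om, QuadraticAlgebra.mk_mul_mk, h1, h2, h3] <;>
  constructor <;> abel

theorem cg_log {b : O → Qbar} (hb : ∀ η, η ^ 6 = 1 → KU (b η)) {c : ℂ}
    (h : ∑ k : ZMod 3, CL.toC (om ^ k.val) * (Real.log ‖EW.jc (b (om ^ k.val))‖ : ℝ) = n * c) :
    ((Real.log (nq (b 1 * (b (om ^ 2))⁻¹)) : ℝ) +
      wC * (Real.log (nq (b om * (b (om ^ 2))⁻¹)) : ℝ) : ℂ) = (2 * n : ℕ) * c := by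
  have k : ∀ η, η ^ 6 = 1 → Real.log (nq (b η * (b (om ^ 2))⁻¹)) =
      2 * (Real.log ‖EW.jc (b η)‖ - Real.log ‖EW.jc (b (om ^ 2))‖) := fun η e => by
    have n := fun η e => norm_ne_zero_iff.2 ((map_ne_zero EW.jc).2 (hb η e).1)
    rw [((hb η e).mul (hb _ (by decide)).inv).log_nq, map_mul, map_inv₀, norm_mul, norm_inv,
      ← div_eq_mul_inv, Real.log_div (n η e) (n _ (by decide))]
  have e := (Fin.sum_univ_three _).symm.trans h
  rw [show ZMod.val (n := 3) (0 : Fin 3) = 0 from rfl, show ZMod.val (n := 3) (1 : Fin 3) = 1 from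
    rfl, show ZMod.val (n := 3) (2 : Fin 3) = 2 from rfl, pow_zero, pow_one, map_one, map_pow,
    show CL.toC om = wC from om_coe] at e
  rw [k 1 (one_pow 6), k om (by decide)]
  push_cast at e ⊢
  linear_combination 2 * e - 2 * (Real.log ‖EW.jc (b (om ^ 2))‖ : ℝ) * CL.wC_sq

theorem cg_val {v : Plc} {l : ℕ} {r : O} (hl : l.Prime) (hr : nm r = l) (hv : v.V (io r) < 1)
    {x y z : Qbar} (hz : KU z) (h1 : v.V y = 1) (h2 : v.V z = 1) (h : v.V (x - y * z ^ l) < 1) :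
    v.V (x * (y * z)⁻¹ - 1) < 1 := by
  have k : v.V (y * z) = 1 := by rw [map_mul, h1, h2, mul_one]
  have k0 : y * z ≠ 0 := fun e => by simp [e] at k
  have e : x * (y * z)⁻¹ - 1 = ((x - y * z ^ l) + y * (z ^ l - z)) * (y * z)⁻¹ := by
    linear_combination mul_inv_cancel₀ k0
  rw [e, map_mul, map_inv₀, k, inv_one, mul_one]
  refine v.V.map_add_lt h ?_
  rw [map_mul, h1, one_mul]
  exact hz.fermat hl hr hv h2

/-- The symbol. -/
theorem sym_end (hL : Lk M φ) (ok : F.Ok d) (nz : F.Nz) (hN : 0 < N)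
    (st : F.Stable N fun a => φ a * eb a) (hN' : 0 < N') (ok' : F'.Ok d') (nz' : F'.Nz)
    (st' : F'.Stable N' fun a => φ a * eb a) [Nonempty κ]
    (h : ∀ j k, ¬ EqS (tb (F.w j)) (tb (F'.w k)))
    (hT : ∃ n : ℕ, 0 < n ∧ (n : ℂ) * ∑ j, F.z j ∈ LG.lattice) :
    ∃ (n : ℕ) (R1 R2 : ℚ) (B : Finset ℕ), 0 < n ∧ 0 < R1 ∧ 0 < R2 ∧
      ((Real.log R1 : ℝ) + wC * (Real.log R2 : ℝ) : ℂ) = n * F.arch (F'.hk 1) ∧
      ∀ (l : ℕ) (r z : O), l.Prime → l ∉ B → Prim r → nm r = l →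
        z = star (φ r * eb r + φ (star r) * eb (star r)) → ∃ S1 S2 : ℚ, 0 < S1 ∧ 0 < S2 ∧
          ((Real.log S1 : ℝ) + wC * (Real.log S2 : ℝ) : ℂ) = n * F.arch (F'.hk l) ∧
          ∀ (Z : Type) [AddCommGroup Z] (L : ℚ → Z), Lg l L →
            L S1 = z.re • L R1 - z.im • L R2 ∧ L S2 = z.im • L R1 + (z.re - z.im) • L R2 := by
  obtain ⟨n, n0, hn⟩ := hT
  have hs : (F.ls n).sum = 0 := by rw [ls_sum, tors_iff ok]; exact hn
  have sep : Sep (F.ls n) F' := sep_of ok ok' nz' h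
  have i1 : om ^ 6 = 1 := by decide
  have i2 : (om ^ 2) ^ 6 = 1 := by decide
  have ku : ∀ η : O, η ^ 6 = 1 → KU (bb (F.ls n) F' η) := fun η k =>
    bb_KU hL ok nz hN st hN' ok' st' hs sep k
  obtain ⟨B, hB⟩ := bb_cong ok nz hN' ok' st' hs sep
  refine ⟨2 * n, _, _, B ∪ (21 * N').primeFactors, by omega,
    ((ku 1 (one_pow 6)).mul (ku _ i2).inv).nq_pos, ((ku _ i1).mul (ku _ i2).inv).nq_pos, ?_,
    fun l r z hl hb hp hr hz => ?_⟩
  · rw [arch_hk_one ok']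
    exact cg_log ku (bb_arch ok nz ok' hs sep)
  rw [notMem_union, Nat.mem_primeFactors] at hb
  have b1 : ¬ l ∣ 21 * N' := fun e => hb.2 ⟨hl, e, by omega⟩
  have l5 : l.Coprime 21 := hl.coprime_iff_not_dvd.2 fun e => b1 (e.mul_right _)
  have hr' : nm (star r) = l := by rw [CL.nm_star, hr]
  have b2 : ¬ l ∣ N' := fun e => b1 (e.mul_left _)
  have c1 := cg_six ok' st' hp (cg_cop hl hr b2)
  have c2 := cg_six ok' st' (prim_star hp) (cg_cop hl hr' b2)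
  obtain ⟨v, hv⟩ := exists_plc_of hl hr
  obtain ⟨v', hv'⟩ := exists_plc_of hl hr'
  obtain ⟨sp, k1⟩ := hB l r v hl hb.1 hp hr hv c1 c2
  obtain ⟨-, k2⟩ := hB l (star r) v' hl hb.1 (prim_star hp) hr' hv' c2 (by rwa [star_star])
  have okl := Fam.hk_ok ok' l5
  have kl : ∀ η : O, η ^ 6 = 1 → KU (bb (F.ls n) (F'.hk l) η) := fun η k =>
    bb_KU hL ok nz hN st (Nat.mul_pos hl.pos hN') okl (Fam.hk_stable ok' l5 st') hs sp k
  refine ⟨_, _, ((kl 1 (one_pow 6)).mul (kl _ i2).inv).nq_pos,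
    ((kl _ i1).mul (kl _ i2).inv).nq_pos, cg_log kl (bb_arch ok nz okl hs sp),
    fun Z _ L hg => ?_⟩
  rw [star_star] at k2
  generalize φ r * eb r = a at *
  generalize φ (star r) * eb (star r) = a' at *
  have key : ∀ η : O, η ^ 6 = 1 → L (nq (bb (F.ls n) (F'.hk l) η)) =
      L (nq (bb (F.ls n) F' (η * a))) + L (nq (bb (F.ls n) F' (η * a'))) := fun η k => by
    have e1 : (η * a) ^ 6 = 1 := by rw [mul_pow, k, c1, mul_one]
    have e2 : (η * a') ^ 6 = 1 := by rw [mul_pow, k, c2, mul_one]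
    have e3 := ((ku _ e1).mul (ku _ e2)).inv
    have e4 := hg.nq_one hl hr hp hv hv' ((kl η k).mul e3)
      (by rw [mul_comm (bb _ F' (η * a))]
          exact cg_val hl hr hv (ku _ e1) (k1 _ e2).1 (k1 _ e1).1 (k1 η k).2)
      (cg_val hl hr' hv' (ku _ e2) (k2 _ e1).1 (k2 _ e2).1 (k2 η k).2)
    rwa [hg.nq_mul (kl η k) e3, hg.nq_inv ((ku _ e1).mul (ku _ e2)),
      hg.nq_mul (ku _ e1) (ku _ e2), add_neg_eq_zero] at e4
  have rot := fun u hu => cg_rot (b := fun η => L (nq (bb (F.ls n) F' η))) (u := u)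
    (fun η k => by rw [bb_neg ok nz hs sep k, hg.nq_inv (ku η k)]) hu
  have dv : ∀ {x y : Qbar}, KU x → KU y → L (nq (x * y⁻¹)) = L (nq x) - L (nq y) := fun a b => by
    rw [hg.nq_mul a b.inv, hg.nq_inv b, sub_eq_add_neg]
  rw [dv (kl 1 (one_pow 6)) (kl _ i2), dv (kl _ i1) (kl _ i2), dv (ku 1 (one_pow 6)) (ku _ i2),
    dv (ku _ i1) (ku _ i2), key 1 (one_pow 6), key _ i1, key _ i2, add_sub_add_comm,
    add_sub_add_comm, (rot a c1).1, (rot a c1).2, (rot a' c2).1, (rot a' c2).2, hz, star_add,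
    QuadraticAlgebra.re_add, QuadraticAlgebra.im_add]
  constructor <;> module

theorem log_kl {z : ℂ} : Real.log ‖kl z‖ = if z ∈ LG.lattice then 0 else
    Real.log ‖Shared.Weier.sig LG z‖ - (z * eta LG z).re / 2 := by
  split_ifs with h
  · simp [kl, sig_eq_zero_iff.2 h]
  rw [kl, norm_mul, Real.log_mul (norm_ne_zero_iff.2 (sig_ne h))
    (norm_ne_zero_iff.2 (exp_ne_zero _)), norm_exp, Real.log_exp, neg_re, div_ofNat_re, mul_comm z]
  rfl

/-- The Green function as a sum over the complex roots of unity. -/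
theorem Gr_roots (p q : ℂ) : Gr p q = ∑ ζ ∈ Polynomial.nthRootsFinset 6 (1 : ℂ),
    (starRingEnd ℂ) ζ * (Real.log ‖kl (ζ * p - q)‖ : ℝ) := by
  have inj : ∀ a b, CL.toC (ip a) = CL.toC (ip b) → a = b := fun a b e => ip_inj a b (CL.toC_inj e)
  have m : ∀ k, CL.toC (ip k) ∈ Polynomial.nthRootsFinset 6 (1 : ℂ) := fun k => by
    rw [Polynomial.mem_nthRootsFinset (by norm_num), ← map_pow,
      (by decide : ∀ k, ip k ^ 6 = 1), map_one]
  refine sum_nbij (fun k => CL.toC (ip k)) (fun k _ => m k) (fun a _ b _ => inj a b)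
    (surjOn_of_injOn_of_card_le _ (fun k _ => m k) (fun a _ b _ => inj a b) ?_)
    fun k _ => by rw [CL.toC_star]
  rw [(isPrimitiveRoot_exp 6 (by norm_num)).card_nthRootsFinset]
  rfl

/-- A point of infinite order. -/
theorem exists_inf (hL : Lk M φ) (ok : F.Ok d) (hN : 0 < N)
    (st : F.Stable N fun a => φ a * eb a)
    (h : ¬ ∃ n : ℕ, 0 < n ∧ (n : ℂ) * ∑ j, F.z j ∈ LG.lattice) :
    ∃ P : A, (∀ g ∈ GK 3, tw M φ g P = P) ∧ ¬ IsOfFinAddOrder P := by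
  refine ⟨∑ j, F.pt j, fun g hg => ?_, fun k => h
    ((isOfFinAddOrder_iff_nsmul_eq_zero.1 k).imp fun n e => ⟨e.1, (tors_iff ok n).1 e.2⟩)⟩
  obtain ⟨s, hs⟩ := Fam.gal hL ok hN st hg
  rw [map_sum, sum_congr rfl fun j _ => hs j, Equiv.sum_comp s F.pt]

end Pool.Agent.Lib.MP_696deb_nt.Y3
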