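import Pool.Agent.Lib.MP_696deb_nt.Y3.E0
import Pool.Agent.Lib.MP_696deb_nt.JFun
import Pool.Agent.Lib.MP_696deb_nt.EW.K8

/-! The points with complex multiplication and the coefficients of the kernel: definitions. -/

set_option autoImplicit false

open Finset
open scoped Classical

namespace Pool.Agent.Lib.MP_696deb_nt.Y3

open CL (O nm om wC Per Prim)

/-- The matrix of the map `z ↦ α z + β conj z` on the basis `(ω, 1)`. -/
def mb (α β : O) : MZ :=
  !![α.re - α.im - β.re, β.im - α.im - β.re; α.im + β.im, α.re + β.re]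

/-- The rows of a matrix as Eisenstein integers. -/
def row (B : MZ) (i : Fin 2) : O := ⟨B i 1, B i 0⟩

/-- The weight of an integer matrix. -/
def w0 (g : MZ) : O := if 21 ∣ g 1 0 then nb (g 0 0 : ℤ) else 0

/-- The value of `w` at `Y / k`, zero if this matrix is not integral. -/
noncomputable def sc (w : MZ → O) (k : ℤ) (Y : MZ) : O :=
  if ∀ i j, k ∣ Y i j then w (Y.map (· / k)) else 0

/-- The weight after the Fourier transform at three. -/
def wh (Y : MZ) : O :=
  if 3 ∣ Y 0 0 ∧ 21 ∣ Y 1 0 then et (Y 1 1) * ep (5 * Y 0 0 : ℤ) else 0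

/-- The matrices that act without changing weights. -/
structure Tri (d : MZ) : Prop where
  c : 21 ∣ d 1 0
  a : 21 ∣ d 0 0 - 1

/-- The part at three of the bases of the second family. -/
def hy (b : Fin 3) : MZ := !![1, ((b : ℕ) : ℤ); 0, 3]

/-- `S` is an oriented basis `(s₁, s₂)` with `s₁ = u` modulo `M`. -/
def IsS (M : ℕ) (u : O) (S : MZ) : Prop := S.det = 1 ∧ (M : O) ∣ row S 0 - u

/-- A chosen basis. -/
noncomputable def bs (M : ℕ) (u : O) : MZ := if h : ∃ S, IsS M u S then h.choose else 1

/-- The residues modulo `M`. -/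
def box (M : ℕ) : Finset O := (range M ×ˢ range M).image fun p : ℕ × ℕ => (⟨p.1, p.2⟩ : O)

/-- The reduction modulo `M`. -/
def red (M : ℕ) (u : O) : O := ⟨u.re % M, u.im % M⟩

/-- The sextic character modulo seven that is trivial on the integers. -/
def x7 (u : O) : O := ep (r7 u) * star (ep (r7 (star u)))

/-- The finite part of a self-dual Hecke character with its level. -/
structure Dat where
  N : ℕ
  φ : O → O
  pos : 0 < N
  dvd : 63 ∣ N
  mul : ∀ α β, φ (α * β) = φ α * φ β
  per : Per N φ
  unit : φ om * om = 1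
  conj : ∀ α, φ (star α) = star (φ α)
  int : ∀ k : ℤ, IsCoprime k (N : ℤ) → φ k = et k
  six : ∀ u : O, IsCoprime u (N : O) → φ u ^ 6 = 1
  prim : ∀ p : ℕ, p.Prime → p ∣ N → p ≠ 3 → p ≠ 7 →
    ∃ t : O, IsCoprime t (N : O) ∧ ((N / p : ℕ) : O) ∣ t - 1 ∧ φ t ≠ 1

theorem x7_mul (α β : O) : x7 (α * β) = x7 α * x7 β := by
  rw [x7, x7, x7, star_mul', r7_mul, r7_mul, ep_mul, ep_mul, star_mul']
  ring

theorem x7_star (α : O) : x7 (star α) = star (x7 α) := by
  rw [x7, x7, star_star, star_mul', star_star, mul_comm]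

theorem r7_congr {α β : O} (h : (7 : O) ∣ α - β) : r7 α = r7 β := by
  obtain ⟨γ, e⟩ := h
  rw [eq_add_of_sub_eq' e, r7_add, r7_mul, show r7 7 = 0 by decide, zero_mul, add_zero]

theorem x7_congr {α β : O} (h : (7 : O) ∣ α - β) : x7 α = x7 β := by
  have k : (7 : O) ∣ star α - star β := by
    obtain ⟨γ, e⟩ := h
    exact ⟨star γ, by rw [← star_sub, e, star_mul', star_ofNat]⟩
  rw [x7, x7, r7_congr h, r7_congr k]

theorem r7_ne {α : O} (h : IsCoprime α 7) : r7 α ≠ 0 ∧ r7 (star α) ≠ 0 := by
  have k : ∀ α : O, IsCoprime α 7 → r7 α ≠ 0 := fun α ⟨a, b, e⟩ z => by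
    have := congrArg r7 e
    rw [r7_add, r7_mul, r7_mul, z, show r7 7 = 0 by decide, mul_zero, mul_zero] at this
    exact absurd this (by decide)
  refine ⟨k α h, k _ ?_⟩
  obtain ⟨a, b, e⟩ := h
  exact ⟨star a, star b, by
    rw [← star_mul', ← star_ofNat (R := O) 7, ← star_mul', ← star_add, e, star_one]⟩

theorem x7_six {α : O} (h : IsCoprime α 7) : x7 α ^ 6 = 1 := by
  rw [x7, mul_pow, ← star_pow, (ep_unit _ (r7_ne h).1).2.1, (ep_unit _ (r7_ne h).2).2.1, star_one,
    one_mul]

theorem x7_int {k : ℤ} (h : IsCoprime (k : O) 7) : x7 k = 1 := by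
  rw [x7, star_intCast, (ep_unit _ (r7_ne h).1).1]

namespace Dat

variable (d : Dat)

theorem seven_dvd : (7 : O) ∣ d.N := by
  obtain ⟨k, e⟩ := d.dvd
  exact ⟨9 * k, by rw [e]; push_cast; ring⟩

/-- The companion. -/
def cmp : Dat where
  N := d.N
  φ u := star (d.φ u) * x7 u
  pos := d.pos
  dvd := d.dvd
  mul α β := by
    rw [d.mul, star_mul', x7_mul]
    ring
  per α γ := by
    beta_reduce
    rw [d.per, x7_congr (β := α) (by simpa using d.seven_dvd.mul_right γ)]
  unit := by
    have h := congrArg star d.unit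
    rw [star_mul', star_one] at h
    rw [mul_assoc, show x7 om * om = star om by decide, h]
  conj α := by rw [d.conj, x7_star, star_mul']
  int k h := by
    have e : IsCoprime (k : O) (d.N : O) := by simpa using h.map (Int.castRingHom O)
    rw [d.int k h, star_intCast, x7_int (e.of_isCoprime_of_dvd_right d.seven_dvd), mul_one]
  six u h := by
    rw [mul_pow, ← star_pow, d.six u h, x7_six (h.of_isCoprime_of_dvd_right d.seven_dvd), star_one,
      one_mul]
  prim p hp h h3 h7 := by
    obtain ⟨t, t1, t2, t3⟩ := d.prim p hp h h3 h7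
    have k : 7 ∣ d.N / p := by
      obtain ⟨c, e⟩ := h
      rw [e, Nat.mul_div_cancel_left _ hp.pos]
      exact ((Nat.coprime_primes (by norm_num) hp).2 h7.symm).dvd_of_dvd_mul_left
        (e ▸ (show 7 ∣ 63 by norm_num).trans d.dvd)
    refine ⟨t, t1, t2, fun e => t3 ?_⟩
    rw [x7_congr (β := 1) ((Nat.cast_dvd_cast (α := O) k).trans t2), show x7 1 = 1 by decide,
      mul_one] at e
    rw [← star_star (d.φ t), e, star_one]

/-- The modulus of the index set. -/
def M : ℕ := 63 * d.N

/-- The weights; they vanish on the elements that are not prime to `N`. -/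
noncomputable def kap (u : O) : O :=
  if IsCoprime u (d.N : O) then d.φ u * ep (r7 (star u)) else 0

/-- The index set: the units modulo `M`. -/
noncomputable def U : Finset O := (box d.M).filter fun u => IsCoprime u (d.M : O)

/-- The reflection of the index set. -/
def cj (u : O) : O := red d.M (-star u)

/-- The bases of the first family, as matrices on `(ω, 1)`. -/
noncomputable def Bx (u : O) : MZ := !![1, 0; 0, (d.N : ℤ)] * bs d.M u

/-- The bases of the second family. -/
noncomputable def By (u : O) (b : Fin 3) : MZ := hy b * d.Bx u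

/-- The points of the first family. -/
noncomputable def tx (u : O) : ℂ := act (d.Bx u) wC

/-- The points of the second family. -/
noncomputable def ty (u : O) (b : Fin 3) : ℂ := act (d.By u b) wC

/-- The weight of the matrix `g` with `3 N g By = Bx (mb (θ α) (θ β))`. -/
noncomputable def Phi0 (u u' : O) (b : Fin 3) (α β : O) : O :=
  sc w0 (9 * d.N ^ 2) (d.Bx u * mb (CL.th * α) (CL.th * β) * (d.By u' b).adjugate)

/-- The coefficients of the kernel; the quadratic form is `(N α - N β) / (3 N) ^ 2`. -/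
noncomputable def Phi (α β : O) : O :=
  ∑ u ∈ d.U, ∑ u' ∈ d.U, ∑ b : Fin 3, star (d.kap u) * d.kap u' * d.Phi0 u u' b α β

/-- The transformed weight of the matrix `Y` with `Y By = 3 Bx (mb y 0)`. -/
noncomputable def Psi0 (u u' : O) (b : Fin 3) (y : O) : O :=
  sc wh d.N (d.Bx u * mb y 0 * (d.By u' b).adjugate)

/-- The function that defines the section. -/
noncomputable def Psi (y : O) : O :=
  ∑ u ∈ d.U, ∑ u' ∈ d.U, ∑ b : Fin 3, star (d.kap u) * d.kap u' * d.Psi0 u u' b y

end Dat

end Pool.Agent.Lib.MP_696deb_nt.Y3
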