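import Pool.Agent.Lib.MP_696deb_nt.Y3.D1

/-! The weights and the bases of a datum. -/

set_option autoImplicit false

open Finset
open scoped Classical

namespace Pool.Agent.Lib.MP_696deb_nt.Y3

open CL (O nm om wC Per Prim)

namespace Dat

variable (d : Dat) {u u' t α β y : O} {b : Fin 3}

theorem N_ne : (d.N : ℤ) ≠ 0 := by exact_mod_cast d.pos.ne'

theorem M_pos : 0 < d.M := Nat.mul_pos (by norm_num) d.pos

theorem nine_dvd : (9 : ℤ) ∣ d.N := by
  obtain ⟨k, e⟩ := d.dvd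
  exact ⟨7 * k, by rw [e]; push_cast; ring⟩

theorem d2_cop {k : ℕ} (hk : k ∣ 63) : IsCoprime u ((k * d.N : ℕ) : O) ↔ IsCoprime u (d.N : O) := by
  rw [Nat.cast_mul]
  exact ⟨fun h => h.of_mul_right_right, fun h =>
    (h.of_isCoprime_of_dvd_right (Nat.cast_dvd_cast (hk.trans d.dvd))).mul_right h⟩

theorem d2_NM : (d.N : O) ∣ (d.M : O) := Nat.cast_dvd_cast (Dvd.intro_left 63 rfl)

theorem d2_congr {M : O} (h : M ∣ α - β) (k : IsCoprime β M) : IsCoprime α M := by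
  obtain ⟨c, hc⟩ := h
  rw [eq_add_of_sub_eq' hc]
  exact k.add_mul_left_left c

theorem cop_M : IsCoprime u (d.M : O) ↔ IsCoprime u (d.N : O) := d.d2_cop dvd_rfl

theorem cop_three : IsCoprime u ((3 * d.N : ℕ) : O) ↔ IsCoprime u (d.N : O) :=
  d.d2_cop (by norm_num)

theorem r7_ne (h : IsCoprime u (d.N : O)) : r7 u ≠ 0 ∧ r7 (star u) ≠ 0 :=
  Y3.r7_ne (h.of_isCoprime_of_dvd_right d.seven_dvd)

theorem norm_mod (h : IsCoprime u (d.N : O)) : nm u % 3 = 1 ∧ ¬ 7 ∣ nm u := by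
  have k := cop_norm.1 h
  have e : (63 : ℤ) ∣ d.N := by exact_mod_cast d.dvd
  refine ⟨norm_three fun l => ?_, fun l => ?_⟩
  · exact absurd (k.isUnit_of_dvd' l ((show (3 : ℤ) ∣ 63 by norm_num).trans e)) (by decide)
  · exact absurd (k.isUnit_of_dvd' l ((show (7 : ℤ) ∣ 63 by norm_num).trans e)) (by decide)

theorem φ_one : d.φ 1 = 1 := by simpa [et_one] using d.int 1 isCoprime_one_left

theorem φ_neg (α : O) : d.φ (-α) = -d.φ α := by
  have := d.int (-1) isCoprime_one_left.neg_left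
  rw [et_neg, et_one] at this
  push_cast at this
  rw [← neg_one_mul α, d.mul, this, neg_one_mul]

theorem φ_congr (h : (d.N : O) ∣ α - β) : d.φ α = d.φ β := by
  obtain ⟨γ, e⟩ := h
  rw [eq_add_of_sub_eq' e, d.per]

theorem cmp_N : d.cmp.N = d.N := rfl

theorem cmp_M : d.cmp.M = d.M := rfl

theorem cmp_U : d.cmp.U = d.U := rfl

theorem cmp_Bx : d.cmp.Bx = d.Bx := rfl

theorem cmp_By : d.cmp.By = d.By := rfl

theorem cmp_tx : d.cmp.tx = d.tx := rfl

theorem cmp_ty : d.cmp.ty = d.ty := rfl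

theorem kap_mul (α β : O) : d.kap (α * β) = d.kap α * d.kap β := by
  rw [kap, kap, kap]
  by_cases h1 : IsCoprime α (d.N : O)
  · by_cases h2 : IsCoprime β (d.N : O)
    · rw [if_pos (h1.mul_left h2), if_pos h1, if_pos h2, d.mul, star_mul', r7_mul, ep_mul]
      ring
    · rw [if_neg fun h => h2 h.of_mul_left_right, if_neg h2, mul_zero]
  · rw [if_neg fun h => h1 h.of_mul_left_left, if_neg h1, zero_mul]

theorem kap_per : Per d.N d.kap := fun α γ => by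
  have k : r7 (star (α + d.N * γ)) = r7 (star α) := r7_congr (by
    rw [star_add, star_mul', star_natCast, add_sub_cancel_left]
    exact d.seven_dvd.mul_right _)
  simp only [kap, IsCoprime.add_mul_left_left_iff, d.per α γ, k]

theorem kap_congr (h : (d.N : O) ∣ α - β) : d.kap α = d.kap β := by
  obtain ⟨γ, e⟩ := h
  rw [eq_add_of_sub_eq' e, d.kap_per]

theorem kap_unit (h : IsCoprime u (d.N : O)) : d.kap u = d.φ u * ep (r7 (star u)) := if_pos h

theorem kap_zero (h : ¬ IsCoprime u (d.N : O)) : d.kap u = 0 := if_neg h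

theorem kap_int {k : ℤ} (h : IsCoprime k (d.N : ℤ)) : d.kap k = nb k := by
  rw [d.kap_unit (cop_int.2 h), d.int k h, star_intCast, r7_int, nb_int]

theorem kap_one : d.kap 1 = 1 := by
  simpa [nb_one] using d.kap_int (k := 1) isCoprime_one_left

theorem kap_om : d.kap om = 1 := by
  rw [d.kap_unit ⟨om * om, 0, by rw [zero_mul, add_zero]; decide⟩,
    show ep (r7 (star om)) = om by decide, d.unit]

theorem kap_neg (α : O) : d.kap (-α) = d.kap α := by
  have := d.kap_int (k := -1) isCoprime_one_left.neg_left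
  push_cast at this
  rw [← neg_one_mul α, d.kap_mul, this, nb_neg, nb_one, one_mul]

theorem kap_six (h : IsCoprime u (d.N : O)) : d.kap u ^ 6 = 1 := by
  rw [d.kap_unit h, mul_pow, d.six u h, (ep_unit _ (d.r7_ne h).2).2.1, mul_one]

theorem kap_star (h : IsCoprime u (d.N : O)) : star (d.kap u) * d.kap u = 1 := by
  have e : nm (d.kap u) ^ 6 = 1 := by rw [CL.nm_eq, ← map_pow, d.kap_six h, map_one]
  rw [mul_comm, CL.mul_star_self,
    (pow_eq_one_iff_of_nonneg (CL.nm_nonneg _) (by norm_num)).1 e, Int.cast_one]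

theorem kap_conj (h : IsCoprime t (d.N : O)) : star (d.kap (star t)) * ep (nm t : ℤ) = d.kap t := by
  rw [d.kap_unit h, d.kap_unit (cop_star h), star_star, d.conj, star_mul', star_star, norm_seven,
    ep_mul, mul_assoc, ← mul_assoc (star _), mul_comm (star _), (ep_unit _ (d.r7_ne h).1).1, one_mul]

/-- The weights of the companion. -/
theorem kap_cmp (u : O) : d.cmp.kap u = d.kap (star u) := by
  by_cases h : IsCoprime u (d.N : O)
  · rw [d.cmp.kap_unit h, d.kap_unit (cop_star h), star_star, d.conj]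
    change star (d.φ u) * x7 u * _ = _
    rw [x7, mul_assoc, mul_assoc, mul_comm (star (ep _)), (ep_unit _ (d.r7_ne h).2).1, mul_one]
  · rw [d.cmp.kap_zero h, d.kap_zero fun k => h (by simpa using cop_star k)]

theorem mem_U : u ∈ d.U ↔ u ∈ box d.M ∧ IsCoprime u (d.M : O) := mem_filter

theorem cop (hu : u ∈ d.U) : IsCoprime u (d.N : O) := d.cop_M.1 (d.mem_U.1 hu).2

theorem red_U' (h : IsCoprime u (d.N : O)) : red d.M u ∈ d.U :=
  d.mem_U.2 ⟨red_mem d.M_pos u, d2_congr (red_dvd _ _) (d.cop_M.2 h)⟩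

theorem red_U (ht : IsCoprime t (d.N : O)) (hu : u ∈ d.U) : red d.M (t * u) ∈ d.U :=
  d.red_U' (ht.mul_left (d.cop hu))

theorem red_inj (ht : IsCoprime t (d.N : O)) (hu : u ∈ d.U) (hu' : u' ∈ d.U)
    (e : red d.M (t * u) = red d.M (t * u')) : u = u' := by
  refine (box_rep d.M_pos).uq _ (d.mem_U.1 hu).1 _ (d.mem_U.1 hu').1
    ((d.cop_M.2 ht).symm.dvd_of_dvd_mul_left ?_)
  have := dvd_sub (red_dvd d.M (t * u')) (red_dvd d.M (t * u))
  rwa [e, sub_sub_sub_cancel_left, ← mul_sub] at this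

theorem one_U : (1 : O) ∈ d.U := by
  have := d.pos
  refine d.mem_U.2 ⟨mem_image.2 ⟨(1, 0), ?_, rfl⟩, isCoprime_one_left⟩
  simp only [mem_product, mem_range, M]
  omega

theorem red_self (hu : u ∈ d.U) : red d.M u = u :=
  (box_rep d.M_pos).uq _ (red_mem d.M_pos u) _ (d.mem_U.1 hu).1 (red_dvd _ _)

/-- Multiplication by a unit permutes the index set. -/
theorem sum_red {A : Type} [AddCommMonoid A] (ht : IsCoprime t (d.N : O)) (F : O → A) :
    ∑ u ∈ d.U, F (red d.M (t * u)) = ∑ u ∈ d.U, F u := by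
  have i : Set.InjOn (fun u => red d.M (t * u)) d.U := fun _ hu _ hu' => d.red_inj ht hu hu'
  rw [← sum_image i, eq_of_subset_of_card_le (image_subset_iff.2 fun _ => d.red_U ht)
    (card_image_of_injOn i).ge]

theorem kap_red (u : O) : d.kap (red d.M u) = d.kap u :=
  d.kap_congr (d.d2_NM.trans (red_dvd _ _))

theorem exists_two : ∃ k : ℤ, IsCoprime k (d.N : ℤ) ∧ nb k = -1 := by
  obtain ⟨p, h1, hp, h2⟩ := Nat.forall_exists_prime_gt_and_modEq d.N (q := 21) (a := 8)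
    (by norm_num) (by norm_num)
  refine ⟨p, Nat.isCoprime_iff_coprime.2
    (hp.coprime_iff_not_dvd.2 (Nat.not_dvd_of_pos_of_lt d.pos h1)), ?_⟩
  rw [nb_congr (b := 8) (by unfold Nat.ModEq at h2; omega)]
  decide

theorem sum_kap : ∑ u ∈ d.U, d.kap u = 0 := by
  obtain ⟨k, h1, h2⟩ := d.exists_two
  have := d.sum_red (cop_int.2 h1) d.kap
  simp only [kap_red, kap_mul, d.kap_int h1, h2, neg_one_mul, sum_neg_distrib] at this
  exact (mul_eq_zero.1 (by linear_combination -this : (2 : O) * _ = 0)).resolve_left (by decide)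

theorem cj_U (hu : u ∈ d.U) : d.cj u ∈ d.U := d.red_U' (cop_star (d.cop hu)).neg_left

theorem cj_cj (hu : u ∈ d.U) : d.cj (d.cj u) = u := by
  refine (box_rep d.M_pos).uq _ (red_mem d.M_pos _) _ (d.mem_U.1 hu).1 ?_
  obtain ⟨a, ha⟩ := red_dvd d.M (-star u)
  obtain ⟨c, hc⟩ := red_dvd d.M (-star (d.cj u))
  have e := congrArg star ha
  rw [star_sub, star_neg, star_star, star_mul', star_natCast] at e
  exact ⟨c - star a, by rw [cj] at hc ⊢; linear_combination hc - e⟩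

theorem kap_cj (u : O) : d.kap (d.cj u) = d.cmp.kap u := by
  rw [cj, kap_red, kap_neg, kap_cmp]

theorem sum_cj {A : Type} [AddCommMonoid A] (F : O → A) :
    ∑ u ∈ d.U, F (d.cj u) = ∑ u ∈ d.U, F u :=
  sum_nbij' d.cj d.cj (fun _ h => d.cj_U h) (fun _ h => d.cj_U h) (fun _ h => d.cj_cj h)
    (fun _ h => d.cj_cj h) fun _ _ => rfl

theorem spec (hu : u ∈ d.U) : IsS d.M u (bs d.M u) := bs_spec d.M_pos (d.mem_U.1 hu).2

theorem Bx_det (hu : u ∈ d.U) : (d.Bx u).det = d.N := by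
  rw [Bx, Matrix.det_mul, (d.spec hu).1]
  simp

theorem By_det (hu : u ∈ d.U) (b : Fin 3) : (d.By u b).det = 3 * d.N := by
  rw [By, Matrix.det_mul, d.Bx_det hu]
  simp [hy]

theorem row_Bx (u : O) :
    row (d.Bx u) 0 = row (bs d.M u) 0 ∧ row (d.Bx u) 1 = d.N * row (bs d.M u) 1 := by
  rw [Bx, row_mul, row_mul]
  simp

theorem row_By (u : O) (b : Fin 3) :
    row (d.By u b) 0 = row (bs d.M u) 0 + (b : ℕ) * d.N * row (bs d.M u) 1 ∧
      row (d.By u b) 1 = 3 * d.N * row (bs d.M u) 1 := by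
  rw [By, row_mul, row_mul, (d.row_Bx u).1, (d.row_Bx u).2]
  simp [hy, mul_assoc]

theorem row_cong (hu : u ∈ d.U) (b : Fin 3) :
    (d.N : O) ∣ row (d.Bx u) 0 - u ∧ (d.N : O) ∣ row (d.By u b) 0 - u := by
  have h := d.d2_NM.trans (d.spec hu).2
  rw [(d.row_Bx u).1, (d.row_By u b).1, add_sub_right_comm]
  exact ⟨h, dvd_add h ((dvd_mul_left _ _).mul_right _)⟩

theorem d2_wC : 0 < wC.im := by simp [wC]

theorem tx_pos (hu : u ∈ d.U) : 0 < (d.tx u).im :=
  act_pos (by rw [d.Bx_det hu]; exact_mod_cast d.pos) d2_wC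

theorem ty_pos (hu : u ∈ d.U) (b : Fin 3) : 0 < (d.ty u b).im :=
  act_pos (by rw [d.By_det hu]; have := d.pos; omega) d2_wC

/-- The points of the second family lie above those of the first. -/
theorem ty_eq (hu : u ∈ d.U) (b : Fin 3) : d.ty u b = (d.tx u + (b : ℕ)) / 3 := by
  rw [ty, By, act_mul _ (by rw [d.Bx_det hu]; exact d.N_ne) d2_wC, hy, act_of, tx]
  simp [mob]

/-- A matrix whose first row agrees with that of a chosen basis. -/
theorem Bx_of (hu : u ∈ d.U) {X : MZ} (e : (d.M : O) ∣ row X 0 - u) : ∃ g : MZ,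
    63 ∣ g 0 0 - 1 ∧ 63 ∣ g 0 1 ∧ 63 ∣ g 1 0 ∧ g.det = X.det ∧
      !![1, 0; 0, (d.N : ℤ)] * X = g * d.Bx u := by
  obtain ⟨g, h1, h2, c, h3⟩ := (d.spec hu).eq e
  have k : !![1, 0; 0, (d.N : ℤ)] * g =
      !![g 0 0, 63 * c; d.N * g 1 0, g 1 1] * !![1, 0; 0, (d.N : ℤ)] := by
    ext p q
    fin_cases p <;> fin_cases q <;> simp [Matrix.mul_apply, h3, M] <;> ring
  refine ⟨!![g 0 0, 63 * c; d.N * g 1 0, g 1 1], ?_, by simp, ?_, ?_, ?_⟩
  · simpa using (show (63 : ℤ) ∣ d.M from ⟨d.N, by simp [M]⟩).trans h2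
  · simpa using (show (63 : ℤ) ∣ d.N by exact_mod_cast d.dvd).mul_right _
  · rw [h1, Matrix.det_mul, (d.spec hu).1, Matrix.det_fin_two_of, Matrix.det_fin_two, h3, M]
    push_cast
    ring
  · rw [h1, ← mul_assoc, k, Bx, mul_assoc]

theorem hy_conj {g : MZ} (h0 : 63 ∣ g 0 0 - 1) (h1 : 63 ∣ g 0 1) (h2 : 63 ∣ g 1 0)
    (hd : g.det % 3 = 1) (b : Fin 3) : ∃ g' : MZ, Tri g' ∧ g'.det = g.det ∧ hy b * g = g' * hy b := by
  obtain ⟨x, hx⟩ := h0
  obtain ⟨y, h1⟩ := h1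
  obtain ⟨z, h2⟩ := h2
  have h0 : g 0 0 = 1 + 63 * x := by omega
  obtain ⟨w, h3⟩ : ∃ w, g 1 1 = 1 + 3 * w := by
    rw [Matrix.det_fin_two, h0, h1, h2, show (1 + 63 * x) * g 1 1 - 63 * y * (63 * z) =
      g 1 1 + 3 * (21 * x * g 1 1 - 21 * y * (63 * z)) by ring] at hd
    exact ⟨g 1 1 / 3, by omega⟩
  refine ⟨!![g 0 0 + (b : ℕ) * g 1 0, 21 * y + (b : ℕ) * w - 21 * (b : ℕ) * x - 21 * (b : ℕ) ^ 2 * z;
    3 * g 1 0, g 1 1 - (b : ℕ) * g 1 0], ⟨⟨9 * z, ?_⟩, ⟨3 * x + 3 * (b : ℕ) * z, ?_⟩⟩, ?_, ?_⟩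
  · simp [h2]
    ring
  · simp [h0, h2]
    ring
  · rw [Matrix.det_fin_two_of, Matrix.det_fin_two, h0, h1, h2, h3]
    ring
  · ext p q
    fin_cases p <;> fin_cases q <;> simp [hy, Matrix.mul_apply, h0, h1, h2, h3] <;> ring

theorem d2_tri {g : MZ} (h0 : 63 ∣ g 0 0 - 1) (h2 : 63 ∣ g 1 0) : Tri g :=
  ⟨(show (21 : ℤ) ∣ 63 by norm_num).trans h2, (show (21 : ℤ) ∣ 63 by norm_num).trans h0⟩

theorem d2_mul (ht : IsCoprime t (d.N : O)) (hu : u ∈ d.U) : ∃ g : MZ,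
    63 ∣ g 0 0 - 1 ∧ 63 ∣ g 0 1 ∧ 63 ∣ g 1 0 ∧ g.det = nm t ∧
      d.Bx u * mb t 0 = g * d.Bx (red d.M (t * u)) := by
  obtain ⟨g, h0, h1, h2, h3, h4⟩ := d.Bx_of (d.red_U ht hu) (X := bs d.M u * mb t 0) (by
    obtain ⟨a, ha⟩ := (d.spec hu).2
    obtain ⟨c, hc⟩ := red_dvd d.M (t * u)
    exact ⟨t * a - c, by rw [row_mb]; linear_combination t * ha - hc⟩)
  refine ⟨g, h0, h1, h2, ?_, by rw [← h4, Bx, mul_assoc]⟩
  rw [h3, Matrix.det_mul, (d.spec hu).1, mb_det]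
  simp [nm]

theorem d2_cj (hu : u ∈ d.U) : ∃ g : MZ,
    63 ∣ g 0 0 - 1 ∧ 63 ∣ g 0 1 ∧ 63 ∣ g 1 0 ∧ g.det = 1 ∧
      !![-1, 0; 0, 1] * d.Bx u * mb 0 1 = g * d.Bx (d.cj u) := by
  obtain ⟨g, h0, h1, h2, h3, h4⟩ := d.Bx_of (d.cj_U hu)
    (X := !![-1, 0; 0, 1] * bs d.M u * mb 0 1) (by
      obtain ⟨a, ha⟩ := (d.spec hu).2
      obtain ⟨c, hc⟩ := red_dvd d.M (-star u)
      have e := congrArg star ha
      rw [star_sub, star_mul', star_natCast] at e
      refine ⟨-star a - c, ?_⟩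
      rw [row_mb, row_mul, cj]
      simp only [Matrix.of_apply, Matrix.cons_val', Matrix.cons_val_zero, Matrix.cons_val_one,
        Matrix.cons_val_fin_one, Int.cast_neg, Int.cast_one, Int.cast_zero, zero_mul, add_zero,
        neg_mul, one_mul, star_neg]
      linear_combination -e - hc)
  refine ⟨g, h0, h1, h2, ?_, ?_⟩
  · rw [h3, Matrix.det_mul, Matrix.det_mul, (d.spec hu).1, mb_det]
    decide
  · rw [← h4, Bx, ← mul_assoc, ← mul_assoc, ← mul_assoc]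
    congr 2
    simp

/-- The first family is stable. -/
theorem Bx_mul (ht : IsCoprime t (d.N : O)) (hu : u ∈ d.U) : ∃ g : MZ, Tri g ∧ g.det = nm t ∧
    d.Bx u * mb t 0 = g * d.Bx (red d.M (t * u)) := by
  obtain ⟨g, h0, -, h2, h⟩ := d.d2_mul ht hu
  exact ⟨g, d2_tri h0 h2, h⟩

/-- The second family is stable. -/
theorem By_mul (ht : IsCoprime t (d.N : O)) (hu : u ∈ d.U) (b : Fin 3) : ∃ g : MZ, Tri g ∧
    g.det = nm t ∧ d.By u b * mb t 0 = g * d.By (red d.M (t * u)) b := by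
  obtain ⟨g, h0, h1, h2, h3, h4⟩ := d.d2_mul ht hu
  obtain ⟨g', k1, k2, k3⟩ := hy_conj h0 h1 h2 (h3 ▸ (d.norm_mod ht).1) b
  exact ⟨g', k1, k2.trans h3, by rw [By, By, mul_assoc, h4, ← mul_assoc, k3, mul_assoc]⟩

/-- The reflection of the first family. -/
theorem Bx_cj (hu : u ∈ d.U) : ∃ g : MZ, Tri g ∧ g.det = 1 ∧
    !![-1, 0; 0, 1] * d.Bx u * mb 0 1 = g * d.Bx (d.cj u) := by
  obtain ⟨g, h0, -, h2, h⟩ := d.d2_cj hu
  exact ⟨g, d2_tri h0 h2, h⟩

/-- The reflection of the second family. -/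
theorem By_cj (hu : u ∈ d.U) (b : Fin 3) : ∃ g : MZ, Tri g ∧ g.det = 1 ∧
    !![-1, 0; 0, 1] * d.By u b * mb 0 1 = g * d.By (d.cj u) (-b) := by
  obtain ⟨g, h0, h1, h2, h3, h4⟩ := d.d2_cj hu
  obtain ⟨g', k1, k2, k3⟩ := hy_conj h0 h1 h2 (by rw [h3]; rfl) (-b)
  obtain ⟨c, hc⟩ : ∃ c : ℤ, !![-1, 0; 0, 1] * hy b = !![1, c; 0, 1] * hy (-b) * !![-1, 0; 0, 1] := by
    fin_cases b
    exacts [⟨0, by decide⟩, ⟨-1, by decide⟩, ⟨-1, by decide⟩]
  refine ⟨!![1, c; 0, 1] * g', Tri.mul ⟨by simp, by simp⟩ k1, by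
    rw [Matrix.det_mul, k2, h3]
    simp, ?_⟩
  rw [By, By, ← mul_assoc _ (hy b), hc, mul_assoc _ _ (d.Bx u), mul_assoc, h4, mul_assoc,
    ← mul_assoc (hy _), k3]
  simp only [mul_assoc]

/-- The adjoint form of the relation between a matrix and a pair. -/
theorem pair_adj (hu : u ∈ d.U) (hu' : u' ∈ d.U) {g : MZ} {k : ℤ}
    (h : k • (g * d.By u' b) = d.Bx u * mb α β) :
    (3 * k) • (g.adjugate * d.Bx u) = d.By u' b * mb (star α) (-β) := by
  have e := congrArg (fun X => d.By u' b * X.adjugate * d.Bx u) h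
  simp only [Matrix.adjugate_smul, Matrix.adjugate_mul_distrib, mb_adj, Fintype.card_fin] at e
  rw [mul_smul_comm, ← mul_assoc, Matrix.mul_adjugate, mul_assoc, mul_assoc,
    Matrix.adjugate_mul, d.Bx_det hu, d.By_det hu'] at e
  refine smul_right_injective MZ d.N_ne ?_
  simp only [smul_mul_assoc, mul_smul_comm, one_mul, mul_one, smul_smul] at e ⊢
  rw [← e]
  congr 1
  ring

/-- The rows of the bases generate the unit ideal. -/
theorem Bx_unit (hu : u ∈ d.U) : IsCoprime (row (d.Bx u) 0) (row (d.Bx u) 1) := by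
  have h := d2_congr (d.row_cong hu 0).1 (d.cop hu)
  rw [(d.row_Bx u).2]
  refine h.mul_right ?_
  rw [(d.row_Bx u).1]
  exact (d.spec hu).unit

theorem By_unit (hu : u ∈ d.U) (b : Fin 3) : IsCoprime (row (d.By u b) 0) (row (d.By u b) 1) := by
  have h := d.cop_three.2 (d2_congr (d.row_cong hu b).2 (d.cop hu))
  push_cast at h
  rw [(d.row_By u b).2]
  refine h.mul_right ?_
  rw [(d.row_By u b).1]
  exact (d.spec hu).unit.add_mul_right_left _

end Dat

end Pool.Agent.Lib.MP_696deb_nt.Y3
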