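import Pool.Agent.Lib.MP_696deb_nt.Y3.D2

/-! The symmetries of the coefficients. -/

set_option autoImplicit false

open Finset
open scoped Classical

namespace Pool.Agent.Lib.MP_696deb_nt.Y3

open CL (O nm om wC Per Prim)

namespace Dat

variable (d : Dat) {u u' t α β y : O} {b : Fin 3}

theorem d3_k : 9 * (d.N : ℤ) ^ 2 ≠ 0 := mul_ne_zero (by norm_num) (pow_ne_zero _ d.N_ne)

theorem d3_adj (hu' : u' ∈ d.U) {k j : ℤ} {g X : MZ} (hj : j = k * (3 * d.N)) :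
    k • (g * d.By u' b) = X ↔ X * (d.By u' b).adjugate = j • g := by
  constructor
  · rintro rfl
    rw [smul_mul_assoc, mul_assoc, Matrix.mul_adjugate, d.By_det hu', mul_smul_comm, mul_one,
      smul_smul, hj]
  · intro h
    have e := congrArg (· * d.By u' b) h
    simp only [mul_assoc X, Matrix.adjugate_mul, d.By_det hu', mul_smul_comm, mul_one,
      smul_mul_assoc] at e
    refine smul_right_injective MZ (r := (3 * d.N : ℤ)) (mul_ne_zero three_ne_zero d.N_ne) ?_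
    simp only [e, smul_smul, hj, mul_comm k]

theorem d3_col (u' : O) (b : Fin 3) (X : MZ) (i : Fin 2) :
    3 * (d.N : ℤ) ∣ (X * (d.By u' b).adjugate) i 0 := by
  have k : ∀ j, 3 * (d.N : ℤ) ∣ d.By u' b 1 j := fun j =>
    ⟨bs d.M u' 1 j, by simp [By, Bx, hy, Matrix.mul_apply, Matrix.vecMul, dotProduct, mul_assoc]⟩
  rw [Matrix.mul_apply, Fin.sum_univ_two, Matrix.adjugate_fin_two]
  exact dvd_add ((k 1).mul_left _) ((k 0).neg_right.mul_left _)

theorem d3_Bx (u : O) (X : MZ) (j : Fin 2) : (d.Bx u * X) 1 j = d.N * (bs d.M u * X) 1 j := by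
  rw [Bx, mul_assoc, Matrix.mul_apply]
  simp

theorem d3_21 : (21 : ℤ) ∣ d.N :=
  (show (21 : ℤ) ∣ (63 : ℕ) by norm_num).trans (Int.natCast_dvd_natCast.2 d.dvd)

theorem d3_3 : (3 : O) ∣ d.N := by
  obtain ⟨k, e⟩ := d.dvd
  exact ⟨21 * k, by rw [e]; push_cast; ring⟩

theorem d3_row (hu' : u' ∈ d.U) (Z : MZ) (b : Fin 3) :
    (3 : O) ∣ row (Z * d.By u' b) 0 - Z 0 0 * u' := by
  rw [row_mul, (d.row_By u' b).2, add_sub_right_comm, ← mul_sub, mul_assoc]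
  exact dvd_add ((d.d3_3.trans (d.row_cong hu' b).2).mul_left _) ((dvd_mul_right _ _).mul_left _)

theorem d3_three (hu' : u' ∈ d.U) {Z : MZ} (h : 3 ∣ nm (row (Z * d.By u' b) 0)) : 3 ∣ Z 0 0 := by
  obtain ⟨h1, h2⟩ := CL.nat_dvd (q := 3).1 (d.d3_row hu' Z b)
  have h3 := (d.norm_mod (d.cop hu')).1
  have h4 := mt (CL.three_dvd_nm (α := u')).2 (by omega)
  rw [CL.three_dvd_nm] at h
  refine (Int.prime_three.dvd_or_dvd (b := u'.re + u'.im) ?_).resolve_right h4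
  simp [QuadraticAlgebra.re_mul, QuadraticAlgebra.im_mul] at h1 h2
  rw [mul_add]
  omega

theorem Phi0_eq (hu' : u' ∈ d.U) {g : MZ}
    (h : (3 * d.N : ℤ) • (g * d.By u' b) = d.Bx u * mb (CL.th * α) (CL.th * β)) :
    d.Phi0 u u' b α β = w0 g := by
  rw [Phi0, (d.d3_adj hu' (j := 9 * d.N ^ 2) (by ring)).1 h, sc_smul d.d3_k]

theorem Phi0_ne (hu' : u' ∈ d.U) (h : d.Phi0 u u' b α β ≠ 0) :
    ∃ g : MZ, (3 * d.N : ℤ) • (g * d.By u' b) = d.Bx u * mb (CL.th * α) (CL.th * β) :=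
  (sc_ne h).imp fun _ e => (d.d3_adj hu' (by ring)).2 e

/-- Every integer matrix comes from a pair of Eisenstein integers. -/
theorem exists_pair (hu : u ∈ d.U) (u' : O) (b : Fin 3) (g : MZ) :
    ∃ α β : O, (3 * d.N : ℤ) • (g * d.By u' b) = d.Bx u * mb (CL.th * α) (CL.th * β) := by
  obtain ⟨α, β, e⟩ := mb_surj ((d.Bx u).adjugate * (g * d.By u' b))
  refine ⟨α, β, ?_⟩
  rw [e, mul_smul_comm, ← mul_assoc, Matrix.mul_adjugate, d.Bx_det hu, smul_mul_assoc,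
    one_mul, smul_smul]

theorem pair_det (hu : u ∈ d.U) (hu' : u' ∈ d.U) {g : MZ}
    (h : (3 * d.N : ℤ) • (g * d.By u' b) = d.Bx u * mb (CL.th * α) (CL.th * β)) :
    nm α - nm β = 9 * d.N ^ 2 * g.det := by
  have e := congrArg Matrix.det h
  rw [Matrix.det_smul, Matrix.det_mul, Matrix.det_mul, d.Bx_det hu, d.By_det hu', mb_det,
    Fintype.card_fin, CL.nm_mul, CL.nm_mul, show nm CL.th = 3 by decide] at e
  exact mul_left_cancel₀ (mul_ne_zero three_ne_zero d.N_ne) (by linear_combination -e)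

theorem d3_aux (hu : u ∈ d.U) (hu' : u' ∈ d.U) (h : d.Phi0 u u' b α β ≠ 0) : α ≠ 0 ∧ β ≠ 0 := by
  obtain ⟨g, e⟩ := d.Phi0_ne hu' h
  obtain ⟨-, h2⟩ := w0_ne (d.Phi0_eq hu' e ▸ h)
  have h3 := d.pair_det hu hu' e
  have h4 := congrArg (fun X => nm (row X 0)) e
  simp only [row_smul, row_mb, CL.nm_mul, CL.nm_int] at h4
  have h5 : ¬ 3 ∣ nm (row (g * d.By u' b) 0) := fun k => by
    have := h2.isUnit_of_dvd' (d.d3_three hu' k) (by norm_num)
    revert this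
    decide
  have h0 : nm 0 = 0 := rfl
  have ht : nm CL.th = 3 := by decide
  constructor <;> rintro rfl
  · rw [mul_zero, zero_mul, zero_add, CL.nm_mul, CL.nm_mul, ht] at h4
    rw [h0] at h3
    exact h5 ⟨-g.det * nm (star (row (d.Bx u) 0)), mul_left_cancel₀ d.d3_k (by
      linear_combination h4 - 3 * nm (star (row (d.Bx u) 0)) * h3)⟩
  · rw [mul_zero, zero_mul, add_zero, CL.nm_mul, CL.nm_mul, ht] at h4
    rw [h0] at h3
    exact h5 ⟨g.det * nm (row (d.Bx u) 0), mul_left_cancel₀ d.d3_k (by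
      linear_combination h4 + 3 * nm (row (d.Bx u) 0) * h3)⟩

/-- The two families do not meet. -/
theorem Phi0_zero (hu : u ∈ d.U) (hu' : u' ∈ d.U) (b : Fin 3) (α : O) : d.Phi0 u u' b α 0 = 0 :=
  not_not.1 fun h => (d.d3_aux hu hu' h).2 rfl

theorem Phi0_zero' (hu : u ∈ d.U) (hu' : u' ∈ d.U) (b : Fin 3) (β : O) : d.Phi0 u u' b 0 β = 0 :=
  not_not.1 fun h => (d.d3_aux hu hu' h).1 rfl

theorem Phi0_per (hu : u ∈ d.U) (hu' : u' ∈ d.U) (b : Fin 3) (α β γ δ : O) :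
    d.Phi0 u u' b (α + (9 * d.N ^ 2 : ℕ) * γ) (β + (9 * d.N ^ 2 : ℕ) * δ) = d.Phi0 u u' b α β := by
  have k := fun i => (d.d3_21.mul_left 3).trans
    (d.d3_col u' b (d.Bx u * mb (CL.th * γ) (CL.th * δ)) i)
  rw [Phi0, Phi0, ← sc_add d.d3_k (fun g => w0_per g _ (k 0) (k 1))
    (d.Bx u * mb (CL.th * α) (CL.th * β) * _), mul_add, mul_add, mb_add, mul_left_comm CL.th,
    mul_left_comm CL.th, ← Int.cast_natCast (R := O), mb_smul, mul_add, add_mul, mul_smul_comm,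
    smul_mul_assoc]
  push_cast
  rfl

theorem Phi_per (α β γ δ : O) :
    d.Phi (α + (9 * d.N ^ 2 : ℕ) * γ) (β + (9 * d.N ^ 2 : ℕ) * δ) = d.Phi α β :=
  sum_congr rfl fun _ hu => sum_congr rfl fun _ hu' => sum_congr rfl fun b _ => by
    rw [d.Phi0_per hu hu']

theorem d3_cop (ht : IsCoprime t (d.N : O)) {k : ℤ} (hk : k ∣ (d.N : ℤ) ^ 3) : IsCoprime (nm t) k :=
  (cop_norm.1 ht).pow_right.of_isCoprime_of_dvd_right hk

theorem d3_dvd : 9 * (d.N : ℤ) ^ 2 ∣ (d.N : ℤ) ^ 3 := by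
  rw [pow_succ' _ 2]
  exact mul_dvd_mul_right d.nine_dvd _

theorem d3_cop' (ht : IsCoprime t (d.N : O)) : IsCoprime (nm t) 21 :=
  (cop_norm.1 ht).of_isCoprime_of_dvd_right d.d3_21

theorem d3_left {w : MZ → O} (hw : ∀ g : MZ, 21 ∣ g 1 0 → g.det = nm t → ∀ h,
    w (g * h) = w0 g * w h) {k : ℤ} (k0 : k ≠ 0) (hk : k ∣ (d.N : ℤ) ^ 3)
    (ht : IsCoprime t (d.N : O)) (hu : u ∈ d.U) (X Y : MZ) :
    sc w k (d.Bx u * (mb t 0 * X) * Y) = sc w k (d.Bx (red d.M (t * u)) * X * Y) := by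
  obtain ⟨g, h1, h2, h3⟩ := d.Bx_mul ht hu
  rw [← mul_assoc, h3, mul_assoc g, mul_assoc g, sc_mul_left k0 (h2 ▸ d.d3_cop ht hk)
    (hw g h1.c h2), h1.w0, one_mul]

theorem d3_sum (ht : IsCoprime t (d.N : O)) (F : O → O → Fin 3 → O) :
    ∑ u ∈ d.U, ∑ u' ∈ d.U, ∑ b : Fin 3, star (d.kap u) * d.kap u' * F (red d.M (t * u)) u' b =
      d.kap t * ∑ u ∈ d.U, ∑ u' ∈ d.U, ∑ b : Fin 3, star (d.kap u) * d.kap u' * F u u' b := by
  rw [← d.sum_red ht fun u => ∑ u' ∈ d.U, ∑ b : Fin 3, star (d.kap u) * d.kap u' * F u u' b]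
  simp only [mul_sum]
  refine sum_congr rfl fun u _ => sum_congr rfl fun u' _ => sum_congr rfl fun b _ => ?_
  rw [kap_red, kap_mul, star_mul']
  linear_combination -(star (d.kap u) * d.kap u' * F (red d.M (t * u)) u' b) * d.kap_star ht

theorem Phi_left (ht : IsCoprime t (d.N : O)) (α β : O) :
    d.Phi (t * α) (star t * β) = d.kap t * d.Phi α β := by
  rw [Phi, Phi, ← d.d3_sum ht fun u u' b => d.Phi0 u u' b α β]
  refine sum_congr rfl fun u hu => sum_congr rfl fun u' _ => sum_congr rfl fun b _ => ?_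
  rw [Phi0, Phi0, ← d.d3_left (fun _ h e => w0_mul_left h (e ▸ d.d3_cop' ht)) d.d3_k d.d3_dvd ht hu,
    mb_mul, mul_left_comm CL.th, mul_left_comm CL.th]
  simp

theorem d3_right (ht : IsCoprime t (d.N : O)) (u : O) (hu : u' ∈ d.U) (b : Fin 3) (α β : O) :
    d.Phi0 u u' b (t * α) (t * β) = ep (nm t : ℤ) * d.Phi0 u (red d.M (star t * u')) b α β := by
  obtain ⟨g, h1, h2, h3⟩ := d.By_mul (cop_star ht) hu b
  rw [CL.nm_star] at h2
  have h4 := (d.norm_mod ht).1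
  have h5 : g.adjugate.det = nm t := by rw [Matrix.det_adjugate, h2]; simp
  have h6 := congrArg Matrix.adjugate h3
  rw [Matrix.adjugate_mul_distrib, Matrix.adjugate_mul_distrib, mb_adj, star_star, neg_zero] at h6
  rw [Phi0, Phi0, show mb (CL.th * (t * α)) (CL.th * (t * β)) =
      mb (CL.th * α) (CL.th * β) * mb t 0 by simp [mb_mul, mul_comm, mul_left_comm], ← mul_assoc,
    mul_assoc _ (mb t 0), h6, ← mul_assoc, sc_mul_right d.d3_k (h5 ▸ d.d3_cop ht d.d3_dvd)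
      (w0_mul_right (by simpa [Matrix.adjugate_fin_two] using h1.c) (h5 ▸ d.d3_cop' ht)),
    h1.w0_adj (h2 ▸ h4), h2]

theorem Phi_right (ht : IsCoprime t (d.N : O)) (α β : O) :
    d.Phi (t * α) (t * β) = d.kap t * d.Phi α β := by
  rw [Phi, Phi, mul_sum]
  refine sum_congr rfl fun u _ => ?_
  rw [← d.sum_red (cop_star ht) fun u' => ∑ b : Fin 3, star (d.kap u) * d.kap u' * d.Phi0 u u' b α β,
    mul_sum]
  refine sum_congr rfl fun u' hu' => ?_
  rw [mul_sum]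
  refine sum_congr rfl fun b _ => ?_
  rw [d.d3_right ht u hu', kap_red, kap_mul, ← d.kap_conj ht]
  linear_combination -(star (d.kap u) * d.kap u' * ep (nm t : ℤ) *
    d.Phi0 u (red d.M (star t * u')) b α β) * d.kap_star (cop_star ht)

/-- Invariance under the units of norm one. -/
theorem Phi_inv (ht : IsCoprime t (d.N : O)) (α β : O) : d.Phi α (t * β) = d.Phi α (star t * β) := by
  obtain ⟨r, s, e⟩ : IsCoprime t ((9 * d.N ^ 2 : ℕ) : O) :=
    cop_norm.2 (d.d3_cop ht (by exact_mod_cast d.d3_dvd))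
  have k : ∀ β, d.Phi α β = d.Phi (t * (r * α)) β := fun β => by
    rw [← d.Phi_per (t * (r * α)) β (s * α) 0, mul_zero, add_zero]
    congr 1
    linear_combination -α * e
  rw [k, k (star t * β), d.Phi_left ht, d.Phi_right ht]

theorem Phi_det (h : d.Phi α β ≠ 0) : 9 * (d.N : ℤ) ^ 2 ∣ nm α - nm β := by
  obtain ⟨u, hu, h⟩ := exists_ne_zero_of_sum_ne_zero h
  obtain ⟨u', hu', h⟩ := exists_ne_zero_of_sum_ne_zero h
  obtain ⟨b, -, h⟩ := exists_ne_zero_of_sum_ne_zero h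
  obtain ⟨g, e⟩ := d.Phi0_ne hu' (right_ne_zero_of_mul h)
  exact ⟨_, d.pair_det hu hu' e⟩

theorem d3_adj' (hu' : u' ∈ d.U) {Y X : MZ} :
    Y * d.By u' b = (3 : ℤ) • X ↔ X * (d.By u' b).adjugate = (d.N : ℤ) • Y := by
  rw [← one_smul ℤ (Y * _), d.d3_adj hu' (one_mul _).symm, smul_mul_assoc, ← smul_smul]
  exact (smul_right_injective MZ three_ne_zero).eq_iff

theorem Psi0_eq (hu' : u' ∈ d.U) {Y : MZ} (h : Y * d.By u' b = (3 : ℤ) • (d.Bx u * mb y 0)) :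
    d.Psi0 u u' b y = wh Y := by
  rw [Psi0, (d.d3_adj' hu').1 h, sc_smul d.N_ne]

theorem Psi0_ne (hu' : u' ∈ d.U) (h : d.Psi0 u u' b y ≠ 0) :
    ∃ Y : MZ, Y * d.By u' b = (3 : ℤ) • (d.Bx u * mb y 0) :=
  (sc_ne h).imp fun _ e => (d.d3_adj' hu').2 e

theorem Psi0_per (hu : u ∈ d.U) (hu' : u' ∈ d.U) (b : Fin 3) : Per d.N (d.Psi0 u u' b) := by
  intro α γ
  have h := fun i => (d.d3_21.mul_left 3).trans (d.d3_col u' b (d.Bx u * mb γ 0) i)
  have h3 : 3 ∣ (d.Bx u * mb γ 0 * (d.By u' b).adjugate) 1 1 := by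
    rw [mul_assoc, d3_Bx]
    exact ((show (3 : ℤ) ∣ 9 by norm_num).trans d.nine_dvd).mul_right _
  have k := mb_smul (d.N : ℤ) γ 0
  rw [mul_zero, Int.cast_natCast] at k
  rw [Psi0, Psi0, ← sc_add d.N_ne (fun g => wh_per g _ (h 0) (h 1) h3) (d.Bx u * mb α 0 * _),
    ← add_zero (0 : O), mb_add, add_zero, k, mul_add, add_mul, mul_smul_comm, smul_mul_assoc]

theorem Psi_per : Per d.N d.Psi := fun _ _ =>
  sum_congr rfl fun _ hu => sum_congr rfl fun _ hu' => sum_congr rfl fun b _ => by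
    rw [d.Psi0_per hu hu']

theorem Psi0_left (ht : IsCoprime t (d.N : O)) (hu : u ∈ d.U) (u' : O) (b : Fin 3) (y : O) :
    d.Psi0 u u' b (t * y) = d.Psi0 (red d.M (t * u)) u' b y := by
  rw [Psi0, Psi0, ← d.d3_left (fun _ h e => wh_mul_left h (e ▸ (d.norm_mod ht).1)
    (e ▸ (d.norm_mod ht).2)) d.N_ne (dvd_pow_self _ three_ne_zero) ht hu, mb_mul]
  simp

theorem Psi_mul (ht : IsCoprime t (d.N : O)) (y : O) : d.Psi (t * y) = d.kap t * d.Psi y := by
  rw [Psi, Psi, ← d.d3_sum ht fun u u' b => d.Psi0 u u' b y]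
  exact sum_congr rfl fun u hu => sum_congr rfl fun u' _ => sum_congr rfl fun b _ => by
    rw [d.Psi0_left ht hu]

/-- The shape of the matrices that belong to an element. -/
theorem psi_shape (hu : u ∈ d.U) (hu' : u' ∈ d.U) {Y : MZ}
    (h : Y * d.By u' b = (3 : ℤ) • (d.Bx u * mb y 0)) : ∃ p r s : ℤ, Y 0 0 = 3 * p ∧
      Y 1 0 = 3 * d.N * r ∧ Y 1 1 = s ∧ (d.N : O) ∣ y * u - p * u' ∧ (d.N : ℤ) ∣ p * s - nm y ∧
      ((3 : O) ∣ y → 3 ∣ s) := by
  have e := (d.d3_adj' hu').1 h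
  have e1 : ∀ j, Y 1 j = (bs d.M u * mb y 0 * (d.By u' b).adjugate) 1 j := fun j => by
    have := congrFun (congrFun e 1) j
    rw [mul_assoc, d3_Bx, ← mul_assoc] at this
    exact (mul_left_cancel₀ d.N_ne this).symm
  obtain ⟨p, hp⟩ : 3 ∣ Y 0 0 := by
    have := d.d3_col u' b (d.Bx u * mb y 0) 0
    rwa [e, mul_comm, Matrix.smul_apply, smul_eq_mul, mul_dvd_mul_iff_left d.N_ne] at this
  obtain ⟨r, hr⟩ : 3 * (d.N : ℤ) ∣ Y 1 0 := e1 0 ▸ d.d3_col u' b _ 1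
  refine ⟨p, r, _, hp, hr, rfl, ?_, ?_, ?_⟩
  · have k := congrArg (row · 0) h
    simp only [row_mul Y, row_smul, row_mb, (d.row_By u' b).2, hp] at k
    obtain ⟨z, hz⟩ := (d.row_cong hu b).1
    obtain ⟨z', hz'⟩ := (d.row_cong hu' b).2
    refine ⟨p * z' - y * z + Y 0 1 * row (bs d.M u') 1,
      mul_left_cancel₀ (show (3 : O) ≠ 0 by decide) ?_⟩
    push_cast at k
    linear_combination -k + 3 * p * hz' - 3 * y * hz
  · have k := congrArg Matrix.det h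
    rw [Matrix.det_smul, Matrix.det_mul, Matrix.det_mul, d.Bx_det hu, d.By_det hu', mb_det,
      Fintype.card_fin, Matrix.det_fin_two, hp, hr, show nm 0 = 0 from rfl] at k
    exact ⟨Y 0 1 * r, mul_left_cancel₀ (mul_ne_zero (show (9 : ℤ) ≠ 0 by norm_num) d.N_ne)
      (by linear_combination k)⟩
  · rintro ⟨z, rfl⟩
    have k := mb_smul 3 z 0
    rw [mul_zero, Int.cast_ofNat] at k
    rw [e1, k, mul_smul_comm, smul_mul_assoc]
    exact dvd_mul_right _ _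

theorem pair_int (hu : u ∈ d.U) (hu' : u' ∈ d.U) {Z : MZ} {r : ℤ}
    (h : r • (Z * d.By u' b) = (3 : ℤ) • (d.Bx u * mb y 0)) : (r : O) ∣ y := by
  have three : (3 : O) ≠ 0 := by decide
  have k : ∀ i, r * row (Z * d.By u' b) i = 3 * y * row (d.Bx u) i := fun i => by
    have := congrArg (row · i) h
    simp only [row_smul, row_mb] at this
    push_cast at this
    linear_combination this
  obtain ⟨a, a', e⟩ := d.Bx_unit hu
  obtain ⟨c, hc⟩ : ∃ c, 3 * y = r * c := ⟨a * row (Z * d.By u' b) 0 + a' * row (Z * d.By u' b) 1,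
    by linear_combination -a * k 0 - a' * k 1 - 3 * y * e⟩
  rcases eq_or_ne r 0 with rfl | r0
  · rw [Int.cast_zero, zero_mul] at hc
    rw [(mul_eq_zero.1 hc).resolve_left three]
    exact dvd_zero _
  have k1 : row (Z * d.By u' b) 0 = c * row (d.Bx u) 0 :=
    mul_left_cancel₀ (Int.cast_ne_zero.2 r0) (by rw [k, hc, mul_assoc])
  have k2 := congrArg Matrix.det h
  rw [Matrix.det_smul, Matrix.det_smul, Matrix.det_mul, Matrix.det_mul, d.Bx_det hu, d.By_det hu',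
    mb_det, Fintype.card_fin, show nm 0 = 0 from rfl] at k2
  have k3 := congrArg nm hc
  rw [CL.nm_mul, CL.nm_mul, CL.nm_int, show nm 3 = 9 by decide] at k3
  have k4 : nm c = 3 * Z.det := mul_left_cancel₀ (mul_ne_zero (pow_ne_zero 2 r0) d.N_ne)
    (by linear_combination -k2 - d.N * k3)
  obtain ⟨p, hp⟩ := d.d3_three hu' (Z := Z) (b := b) (by
    rw [k1, CL.nm_mul, k4, mul_assoc]
    exact dvd_mul_right _ _)
  obtain ⟨z, hz⟩ := d.d3_row hu' Z b
  obtain ⟨z', hz'⟩ := d.d3_3.trans (d.row_cong hu b).1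
  rw [hp, k1] at hz
  push_cast at hz
  obtain ⟨c', rfl⟩ := ((d.cop hu).of_isCoprime_of_dvd_right d.d3_3).symm.dvd_of_dvd_mul_right
    (y := c) ⟨z + p * u' - c * z', by linear_combination hz - c * hz'⟩
  exact ⟨c', mul_left_cancel₀ three (by linear_combination hc)⟩

end Dat

end Pool.Agent.Lib.MP_696deb_nt.Y3
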