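import Pool.Agent.Lib.MP_696deb_nt.Y3.D3

/-! The function that defines the section is a multiple of the weight. -/

set_option autoImplicit false

open Finset
open scoped Classical

namespace Pool.Agent.Lib.MP_696deb_nt.Y3

open CL (O nm om wC Per Prim)

theorem d4_nm {M : ℕ} {α β : O} (h : (M : O) ∣ α - β) : (M : ℤ) ∣ nm α - nm β := by
  obtain ⟨⟨x, hx⟩, z, hz⟩ := CL.nat_dvd.1 h
  rw [QuadraticAlgebra.re_sub, sub_eq_iff_eq_add'] at hx
  rw [QuadraticAlgebra.im_sub, sub_eq_iff_eq_add'] at hz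
  exact ⟨2 * β.re * x + M * x ^ 2 - β.re * z - x * β.im - M * x * z + 2 * β.im * z + M * z ^ 2, by
    rw [nm, nm, hx, hz]; ring⟩

namespace Dat

variable (d : Dat) {u u' y : O} {b : Fin 3}

theorem d4_seven : 7 ∣ d.N := (show 7 ∣ 63 by norm_num).trans d.dvd

theorem d4_shape (hu : u ∈ d.U) (hu' : u' ∈ d.U) (h : d.Psi0 u u' b y ≠ 0) : ∃ p s : ℤ,
    d.Psi0 u u' b y = et s * ep p ∧ (d.N : O) ∣ y * u - p * u' ∧ (d.N : ℤ) ∣ p * s - nm y ∧
      ((3 : O) ∣ y → 3 ∣ s) := by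
  obtain ⟨Y, hY⟩ := d.Psi0_ne hu' h
  obtain ⟨p, r, s, h0, h1, h2, h3⟩ := d.psi_shape hu hu' hY
  obtain ⟨n, hn⟩ := d.d4_seven
  refine ⟨p, s, ?_, h3⟩
  rw [d.Psi0_eq hu' hY, wh, h0, h1, h2, if_pos ⟨dvd_mul_right _ _, n * r, by
    rw [hn]; push_cast; ring⟩, ep_congr (t := p) ⟨2 * p, by ring⟩]

/-- The terms at one. -/
theorem Psi0_one (hu : u ∈ d.U) (hu' : u' ∈ d.U) (b : Fin 3) :
    star (d.kap u) * d.kap u' * d.Psi0 u u' b 1 = 0 ∨
      star (d.kap u) * d.kap u' * d.Psi0 u u' b 1 = 1 := by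
  by_cases h : d.Psi0 u u' b 1 = 0
  · exact Or.inl (by rw [h, mul_zero])
  obtain ⟨p, s, h0, h1, h2, -⟩ := d.d4_shape hu hu' h
  rw [show nm 1 = 1 from rfl] at h2
  rw [one_mul] at h1
  have h3 : 3 ∣ p * s - 1 := ((show (3 : ℤ) ∣ 9 by norm_num).trans d.nine_dvd).trans h2
  have h4 : et s = et p := by
    have e := et_congr h3
    rw [et_mul, et_one] at e
    have e' := et_sq (a := p) fun k => by
      rw [et_zero k, zero_mul] at e
      exact zero_ne_one e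
    linear_combination et p * e - et s * e'
  obtain ⟨c, hc⟩ := h2
  right
  rw [h0, h4, ← nb_int, ← d.kap_int ⟨s, -c, by linear_combination hc⟩, mul_assoc, ← kap_mul,
    mul_comm u', ← d.kap_congr h1, d.kap_star (d.cop hu)]

theorem Psi0_self (hu : u ∈ d.U) (b : Fin 3) : d.Psi0 u u b 1 = 1 := by
  rw [d.Psi0_eq hu (Y := (hy b).adjugate) (by
    rw [By, ← mul_assoc, Matrix.adjugate_mul, mb_one, mul_one, smul_mul_assoc, one_mul, hy]
    simp)]
  revert b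
  decide

theorem Psi_one : ∃ c : ℕ, 0 < c ∧ d.Psi 1 = c := by
  refine ⟨∑ u ∈ d.U, ∑ u' ∈ d.U, ∑ b : Fin 3,
    if star (d.kap u) * d.kap u' * d.Psi0 u u' b 1 = 1 then 1 else 0,
    sum_pos' (fun _ _ => Nat.zero_le _) ⟨1, d.one_U, sum_pos' (fun _ _ => Nat.zero_le _)
      ⟨1, d.one_U, sum_pos' (fun _ _ => Nat.zero_le _) ⟨0, mem_univ _, ?_⟩⟩⟩, ?_⟩
  · rw [d.Psi0_self d.one_U, d.kap_one, if_pos (by simp)]
    exact one_pos
  · rw [Psi]
    push_cast
    refine sum_congr rfl fun u hu => sum_congr rfl fun u' hu' => sum_congr rfl fun b _ => ?_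
    rcases d.Psi0_one hu hu' b with e | e <;> simp [e]

theorem Psi_zero (h : ¬ IsCoprime y (d.N : O)) : d.Psi y = 0 := by
  by_contra h0
  obtain ⟨u, hu, k⟩ := exists_ne_zero_of_sum_ne_zero h0
  obtain ⟨u', hu', k⟩ := exists_ne_zero_of_sum_ne_zero k
  obtain ⟨b, -, k⟩ := exists_ne_zero_of_sum_ne_zero k
  have k := right_ne_zero_of_mul k
  obtain ⟨p, s, e, h1, -, h3⟩ := d.d4_shape hu hu' k
  rw [e] at k
  rw [cop_norm, Int.isCoprime_iff_gcd_eq_one] at h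
  obtain ⟨l, hl, l1, l2⟩ := Nat.Prime.not_coprime_iff_dvd.1 h
  rw [Int.natAbs_natCast] at l2
  have l3 : (l : ℤ) ∣ d.N := Int.natCast_dvd_natCast.2 l2
  have l4 : (l : O) ∣ d.N := Nat.cast_dvd_cast l2
  have lp : (l : ℤ) ∣ p := by
    have a := l3.trans (d4_nm h1)
    rw [CL.nm_mul, CL.nm_mul, CL.nm_int,
      dvd_sub_right ((Int.natCast_dvd.2 l1).mul_right _)] at a
    exact (Nat.prime_iff_prime_int.1 hl).dvd_of_dvd_pow
      (((cop_norm.1 (d.cop hu')).of_isCoprime_of_dvd_right l3).symm.dvd_of_dvd_mul_right a)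
  have ly : (l : O) ∣ y := by
    have a : (l : O) ∣ p := by simpa using map_dvd (Int.castRingHom O) lp
    exact ((d.cop hu).of_isCoprime_of_dvd_right l4).symm.dvd_of_dvd_mul_right
      ((dvd_sub_left (a.mul_right _)).1 (l4.trans h1))
  by_cases a3 : l = 3
  · subst a3
    exact k (by rw [et_zero (h3 ly), Int.cast_zero, zero_mul])
  by_cases a7 : l = 7
  · subst a7
    exact k (by rw [(ZMod.intCast_zmod_eq_zero_iff_dvd p 7).2 lp, ep_zero, mul_zero])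
  obtain ⟨t, t1, t2, t3⟩ := d.prim l hl l2 a3 a7
  obtain ⟨γ, hγ⟩ : (d.N : O) ∣ (t - 1) * y := by
    rw [← Nat.div_mul_cancel l2, Nat.cast_mul]
    exact mul_dvd_mul t2 ly
  have a := d.Psi_per y γ
  rw [← hγ, show y + (t - 1) * y = t * y by ring, d.Psi_mul t1, mul_left_eq_self₀,
    d.kap_unit t1] at a
  have s7 : 7 ∣ d.N / l := by
    obtain ⟨c, hc⟩ := l2
    rw [hc, Nat.mul_div_cancel_left _ hl.pos]
    exact ((Nat.coprime_primes (by norm_num) hl).2 (Ne.symm a7)).dvd_of_dvd_mul_left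
      (hc ▸ d.d4_seven)
  obtain ⟨δ, hδ⟩ := (Nat.cast_dvd_cast (α := O) s7).trans t2
  rw [r7_congr (β := 1) ⟨star δ, by
    rw [← star_one O, ← star_sub, hδ, star_mul', star_natCast, Nat.cast_ofNat]⟩,
    show ep (r7 1) = 1 by decide, mul_one] at a
  exact a.elim t3 h0

/-- The function that defines the section is a multiple of a character. -/
theorem Psi_eq : ∃ c : ℕ, 0 < c ∧ ∀ y, d.Psi y = c * d.kap y := by
  obtain ⟨c, h0, h1⟩ := d.Psi_one
  refine ⟨c, h0, fun y => ?_⟩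
  by_cases h : IsCoprime y (d.N : O)
  · rw [← mul_one y, d.Psi_mul h, h1, mul_one, mul_comm]
  · rw [d.Psi_zero h, d.kap_zero h, mul_zero]

end Dat

end Pool.Agent.Lib.MP_696deb_nt.Y3
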