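import Pool.Agent.Lib.MP_696deb_nt.Y3.B4
import Pool.Agent.Lib.MP_696deb_nt.Y3.B6
import Pool.Agent.Lib.MP_696deb_nt.Y3.C0
import Pool.Agent.Lib.MP_696deb_nt.Y3.D2
import Pool.Agent.Lib.MP_696deb_nt.ED.Q1

/-! The data that belong to a reduced pair. -/

set_option autoImplicit false

open scoped Classical

namespace Pool.Agent.Lib.MP_696deb_nt.Y3

open CL (O nm om Per)
open B2 (Qbar Gam GK)

/-- The data `x` belong to the pair `(d, n)` with the character `φ`. -/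
structure Dat.Of (x : Dat) (d : ℤ) (n : ℕ) (φ : O → O) : Prop where
  red : Red d n
  phi : EV.Phi n φ
  eq : ∀ a, IsCoprime a (x.N : O) → x.φ a = qt d φ a
  sup : ∀ p : ℕ, p.Prime → (p ∣ x.N ↔ p = 3 ∨ p = 7 ∨ p ∣ n ∨ (p : ℤ) ∣ d)

variable {x : Dat} {d d1 : ℤ} {n n1 : ℕ} {φ φ1 : O → O} {u : O} {δ : Qbar} {g : Gam}

theorem d5_cop {M N : ℕ} (h : ∀ p : ℕ, p.Prime → p ∣ M → p ∣ N) (k : IsCoprime u (N : O)) :
    IsCoprime u (M : O) := by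
  rw [cop_norm, Int.isCoprime_iff_nat_coprime, Int.natAbs_natCast] at k ⊢
  exact Nat.coprime_of_dvd fun p hp h1 h2 =>
    hp.one_lt.ne' (Nat.eq_one_of_dvd_coprimes k h1 (h p hp h2))

theorem d5_dvd {p : ℕ} (hp : p.Prime) :
    p ∣ 7 * (3 * n * d.natAbs) ↔ p = 3 ∨ p = 7 ∨ p ∣ n ∨ (p : ℤ) ∣ d := by
  rw [hp.dvd_mul, hp.dvd_mul, hp.dvd_mul, Nat.prime_dvd_prime_iff_eq hp Nat.prime_three,
    Nat.prime_dvd_prime_iff_eq hp (by norm_num : Nat.Prime 7), Int.natCast_dvd]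
  tauto

theorem d5_crt {p D c : ℕ} (hp : p.Prime) (hc : ¬ p ∣ c) (h : (D : O) ∣ u - 1)
    (k : IsCoprime u (p : O)) : ∃ t : O, IsCoprime t ((p * (D * c) : ℕ) : O) ∧
      ((D * c : ℕ) : O) ∣ t - 1 ∧ ((p * D : ℕ) : O) ∣ t - u := by
  obtain ⟨a, b, e⟩ : IsCoprime (p : O) (c : O) := ((Nat.Prime.coprime_iff_not_dvd hp).2 hc).cast
  obtain ⟨w, e1⟩ := h
  have h1 : ((p * D : ℕ) : O) ∣ 1 + D * c * (b * w) - u :=
    ⟨-(a * w), by push_cast; linear_combination D * w * e - e1⟩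
  have h2 : ((D * c : ℕ) : O) ∣ 1 + D * c * (b * w) - 1 := ⟨b * w, by push_cast; ring⟩
  refine ⟨_, ?_, h2, h1⟩
  rw [Nat.cast_mul]
  exact (Dat.d2_congr ((Nat.cast_dvd_cast (dvd_mul_right p D)).trans h1) k).mul_right
    (Dat.d2_congr h2 isCoprime_one_left)

theorem d5_phi (h : Red d n) (hφ : EV.Phi n φ) : ∃ (t K : ZMod 3) (X : ℕ → O → O) (v : ℕ → ℕ)
    (Q : Finset ℕ), φ = CL.f8phi t K X v Q ∧ (∀ q, q ∈ Q ↔ q.Prime ∧ q ≠ 3 ∧ q ∣ n) ∧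
    ∀ q ∈ Q, q.Prime ∧ q ≠ 3 ∧ CL.IsX q (X q) ∧ v q % 3 ≠ 0 := by
  have hX : ∀ q : ℕ, ∃ X, q.Prime → q ≠ 3 → CL.IsX q X := fun q => by
    by_cases k : q.Prime ∧ q ≠ 3
    · exact (CL.exists_X k.1 k.2).imp fun _ e _ _ => e
    · exact ⟨id, fun a b => absurd ⟨a, b⟩ k⟩
  choose X hX using hX
  obtain ⟨Q, hQ⟩ : ∃ Q, Q = (n.primeFactors.erase 3).filter fun q => n.factorization q % 3 ≠ 0 :=
    ⟨_, rfl⟩
  obtain ⟨K, N, h1, h2, -, h3⟩ := CQ.exists_phi0 h.ne (fun _ => rfl) hQ hX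
  have h4 : ∀ q, q ∈ Q ↔ q.Prime ∧ q ≠ 3 ∧ q ∣ n := fun q => by
    rw [hQ, Finset.mem_filter, Finset.mem_erase, Nat.mem_primeFactors]
    refine ⟨fun k => ⟨k.1.2.1, k.1.1, k.1.2.2.1⟩, fun k => ⟨⟨k.2.1, k.1, k.2.2, h.ne⟩, ?_⟩⟩
    have := k.1.factorization_pos_of_dvd h.ne k.2.2
    have := h.cf q
    omega
  have h5 : ∀ q ∈ Q, q.Prime ∧ q ≠ 3 ∧ CL.IsX q (X q) ∧ n.factorization q % 3 ≠ 0 := fun q k =>
    ⟨((h4 q).1 k).1, ((h4 q).1 k).2.1, hX q ((h4 q).1 k).1 ((h4 q).1 k).2.1, by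
      rw [hQ] at k
      exact (Finset.mem_filter.1 k).2⟩
  refine ⟨_, K, X, _, Q, phi_uniq hφ ⟨⟨h1.one, h1.mul, h1.unit, h1.neg, h1.conj,
    fun p hp k a e => ?_, dvd_mul_right _ _, fun p hp k => h1.int p hp fun e => k (e.trans h2),
    h1.bd⟩, CL.f8_per (CL.f8phi_per _ K h5) (Nat.mul_dvd_mul_left 9 (Finset.prod_primes_dvd _
      (fun q k => (h5 q k).1.prime) fun q k => ((h4 q).1 k).2.2)), h3⟩ h.ne, h4, h5⟩
  by_cases h6 : p = 3
  · subst h6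
    rw [CL.f8phi, CL.ph3_zero _ K e, zero_mul]
  have h7 : p ∈ Q := (h4 p).2 ⟨hp, h6, Int.natCast_dvd_natCast.1
    (((Nat.prime_iff_prime_int.1 hp).dvd_or_dvd k).resolve_left (CL.f8_ndvd hp Nat.prime_three h6))⟩
  rw [CL.f8phi, Finset.prod_eq_zero h7 (by
    rw [(h5 p h7).2.2.1.zero a e, star_zero, zero_pow fun c => (h5 p h7).2.2.2 (by rw [c])]),
    mul_zero]

theorem exists_dat (h : Red d n) (hφ : EV.Phi n φ) : ∃ x : Dat, x.Of d n φ := by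
  obtain ⟨t, K, X, v, Q, e, h4, h5⟩ := d5_phi h hφ
  obtain ⟨R, hR⟩ : ∃ R, R = Q.filter fun q => ¬ q ∣ d.natAbs := ⟨_, rfl⟩
  have hR' : ∀ q, q ∈ R ↔ q ∈ Q ∧ ¬ q ∣ d.natAbs := fun q => by rw [hR, Finset.mem_filter]
  have h6 : ∀ {p : ℕ} {S : Finset ℕ}, p.Prime → S ⊆ R → p ∣ ∏ q ∈ S, q → p ∈ S :=
    fun {p S} hp hS k => by
    obtain ⟨q, k1, k2⟩ := (hp.prime.dvd_finsetProd_iff _).1 k
    rwa [(Nat.prime_dvd_prime_iff_eq hp (h5 q ((hR' q).1 (hS k1)).1).1).1 k2]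
  have h7 : ∀ {p : ℕ}, p.Prime → (p ∣ 63 ↔ p = 3 ∨ p = 7) := fun {p} hp => by
    rw [show 63 = 3 ^ 2 * 7 by norm_num, hp.dvd_mul, hp.prime.dvd_pow_iff_dvd two_ne_zero,
      Nat.prime_dvd_prime_iff_eq hp Nat.prime_three,
      Nat.prime_dvd_prime_iff_eq hp (by norm_num : Nat.Prime 7)]
  have h8 : ∀ q ∈ Q, q ∣ d.natAbs * ∏ q ∈ R, q := fun q k => by
    by_cases c : q ∣ d.natAbs
    · exact c.mul_right _
    · exact (Finset.dvd_prod_of_mem _ ((hR' q).2 ⟨k, c⟩)).mul_left _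
  have sup : ∀ p : ℕ, p.Prime → (p ∣ 63 * (d.natAbs * ∏ q ∈ R, q) ↔
      p = 3 ∨ p = 7 ∨ p ∣ n ∨ (p : ℤ) ∣ d) := fun p hp => by
    rw [hp.dvd_mul, h7 hp, Int.natCast_dvd, or_assoc]
    refine or_congr_right' fun h3 => or_congr_right ⟨fun k => ?_, fun k => ?_⟩
    · exact (hp.dvd_mul.1 k).symm.imp_left fun c =>
        ((h4 p).1 ((hR' p).1 (h6 hp subset_rfl c)).1).2.2
    · exact k.elim (fun c => h8 p ((h4 p).2 ⟨hp, h3, c⟩)) fun c => c.mul_right _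
  have cop : ∀ {u : O}, IsCoprime u ((63 * (d.natAbs * ∏ q ∈ R, q) : ℕ) : O) →
      IsCoprime u ((3 * n * d.natAbs : ℕ) : O) :=
    d5_cop fun p hp k => (sup p hp).2 ((d5_dvd hp).1 (k.mul_left 7))
  have ph : ∀ {u : O} {c : ℕ}, 9 ∣ c → (c : O) ∣ u - 1 → CL.ph3 t K u = 1 := fun {u c} k k' => by
    rw [EW.per_dvd (CL.ph3_per t K) ((Nat.cast_dvd_cast k).trans k'), ← Nat.cast_one,
      CL.ph3_nat t K (by norm_num), if_pos rfl, Nat.cast_one]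
  have n9 : 9 ∣ 63 := by norm_num
  refine ⟨⟨63 * (d.natAbs * ∏ q ∈ R, q), qt d φ, ?_, dvd_mul_right _ _, h.qt_mul hφ,
    fun a c => ?_, h.qt_om hφ, h.qt_star hφ, fun k c => h.qt_int hφ ?_,
    fun u c => (h.qt_six hφ (cop c)).1, fun p hp k h3 h7' => ?_⟩, h, hφ, fun _ _ => rfl, sup⟩
  · exact Nat.mul_pos (by norm_num) (Nat.mul_pos (Int.natAbs_pos.2 h.d_ne)
      (Finset.prod_pos fun q k => (h5 q ((hR' q).1 k).1).1.pos))
  · rw [qt, qt, e, CL.f8_per (CL.f8phi_per t K h5) (Nat.mul_dvd_mul n9 (Finset.prod_primes_dvd _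
      (fun q k => (h5 q k).1.prime) h8)), h.kN_per (b := a) (EV.D.b1_dvd.1 (by
        rw [add_sub_cancel_left]
        exact (Nat.cast_dvd_cast ((dvd_mul_right _ _).mul_left 63)).mul_right c))]
  · have := cop_int.1 (cop (cop_int.2 c))
    rw [Int.isCoprime_iff_nat_coprime] at this ⊢
    rw [Int.natAbs_natCast] at this
    simpa [Int.natAbs_mul] using this
  have h63 : ¬ p ∣ 63 := fun c => ((h7 hp).1 c).elim h3 h7'
  by_cases c : p ∣ d.natAbs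
  · have hd : EV.D.Fd d := h.fd.resolve_left fun z => by
      rw [z] at c
      exact hp.not_dvd_one c
    obtain ⟨u, u1, u2⟩ := EV.D.kN_prim hd hp c
    have u3 : IsCoprime u (d : O) := by_contra fun z => by
      rw [h.kN_zero.2 z] at u2
      exact absurd u2 (by decide)
    obtain ⟨D, hD⟩ := c
    rw [hD, Nat.mul_div_cancel_left _ hp.pos] at u1
    obtain ⟨w, w1, w2, w3⟩ := d5_crt (c := 63 * ∏ q ∈ R, q) hp (fun z => (hp.dvd_mul.1 z).elim h63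
      fun z => ((hR' p).1 (h6 hp subset_rfl z)).2 ⟨D, hD⟩) u1
      ((EV.D.b1_cop.2 u3).of_isCoprime_of_dvd_right (Nat.cast_dvd_cast ⟨D, hD⟩))
    have e1 : 63 * (d.natAbs * ∏ q ∈ R, q) = p * (D * (63 * ∏ q ∈ R, q)) := by
      rw [hD]
      ring
    refine ⟨w, e1 ▸ w1, by rwa [e1, Nat.mul_div_cancel_left _ hp.pos], fun z => ?_⟩
    rw [qt, h.kN_per (EV.D.b1_dvd.1 (hD ▸ w3)), u2, Int.cast_neg, Int.cast_one, mul_neg_one,
      neg_eq_iff_eq_neg] at z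
    have e2 : φ w ^ 3 = 1 := by
      rw [e, CL.f8phi, ph ((n9.mul_right _).mul_left D) w2, one_mul, ← Finset.prod_pow]
      refine Finset.prod_eq_one fun q k => ?_
      rw [← pow_mul, mul_comm, pow_mul, ← star_pow, (h5 q k).2.2.1.cube w fun z =>
        (Nat.prime_iff_prime_int.1 (h5 q k).1).not_isUnit ((cop_norm.1 (e1 ▸ w1)).isUnit_of_dvd' z
          (Int.natCast_dvd_natCast.2 ((h8 q k).mul_left 63))), star_one, one_pow]
    rw [z] at e2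
    exact absurd e2 (by decide)
  · have hp' : p ∈ R := h6 hp subset_rfl
      ((hp.dvd_mul.1 ((hp.dvd_mul.1 k).resolve_left h63)).resolve_left c)
    have hq := ((hR' p).1 hp').1
    obtain ⟨u, u1, u2⟩ := (h5 p hq).2.2.1.ne
    obtain ⟨w, w1, w2, w3⟩ := d5_crt (u := u) (D := 1)
      (c := 63 * (d.natAbs * ∏ q ∈ R.erase p, q)) hp
      (fun z => (hp.dvd_mul.1 z).elim h63 fun z => (hp.dvd_mul.1 z).elim c fun z =>
        Finset.notMem_erase p R (h6 hp (Finset.erase_subset _ _) z)) (by simp)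
      (cop_norm.2 ((Nat.prime_iff_prime_int.1 hp).coprime_iff_not_dvd.2 u1).symm)
    rw [one_mul] at w1 w2
    rw [mul_one] at w3
    have e1 : 63 * (d.natAbs * ∏ q ∈ R, q) = p * (63 * (d.natAbs * ∏ q ∈ R.erase p, q)) := by
      rw [← Finset.mul_prod_erase R _ hp']
      ring
    refine ⟨w, e1 ▸ w1, by rwa [e1, Nat.mul_div_cancel_left _ hp.pos], fun z => u2 ?_⟩
    rw [qt, h.kN_per (b := 1) (EV.D.b1_dvd.1
      ((Nat.cast_dvd_cast ((dvd_mul_right _ _).mul_left 63)).trans w2)), EV.D.kN_one, Int.cast_one,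
      mul_one, e, CL.f8phi, ph (n9.mul_right _) w2, one_mul,
      Finset.prod_eq_single_of_mem p hq fun q k c => ?_, EW.per_dvd (h5 p hq).2.2.1.per w3] at z
    · refine star_injective (((pow_eq_one_iff_of_coprime (m := 3) ?_).1 ⟨?_, z⟩).trans
        (star_one _).symm)
      · exact (Nat.Prime.coprime_iff_not_dvd Nat.prime_three).2 fun z =>
          (h5 p hq).2.2.2 (Nat.mod_eq_zero_of_dvd z)
      · rw [← star_pow, (h5 p hq).2.2.1.cube u u1, star_one]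
    · have e2 : q ∣ p * (63 * (d.natAbs * ∏ q ∈ R.erase p, q)) := e1 ▸ (h8 q k).mul_left 63
      rw [EW.per_dvd (h5 q k).2.2.1.per ((Nat.cast_dvd_cast (((h5 q k).1.dvd_mul.1 e2).resolve_left
        fun z => c ((Nat.prime_dvd_prime_iff_eq (h5 q k).1 hp).1 z))).trans w2),
        (h5 q k).2.2.1.one (h5 q k).1, star_one, one_pow]

namespace Dat.Of

variable (h : x.Of d n φ)
include h

theorem cop : IsCoprime u (x.N : O) ↔
    IsCoprime u 7 ∧ IsCoprime u ((3 * n * d.natAbs : ℕ) : O) := by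
  rw [← IsCoprime.mul_right_iff, show (7 : O) = (7 : ℕ) from rfl, ← Nat.cast_mul]
  exact ⟨d5_cop fun p hp k => (h.sup p hp).2 ((d5_dvd hp).1 k),
    d5_cop fun p hp k => (d5_dvd hp).2 ((h.sup p hp).1 k)⟩

theorem kap (u : O) : x.kap u = if IsCoprime u 7 then qt d φ u * ep (r7 (star u)) else 0 := by
  rw [Dat.kap]
  by_cases k : IsCoprime u (x.N : O)
  · rw [if_pos k, if_pos (h.cop.1 k).1, h.eq u k]
  · rw [if_neg k]
    split_ifs with e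
    · rw [h.red.qt_zero h.phi fun c => k (h.cop.2 ⟨e, c⟩), zero_mul]
    · rfl

theorem cmp (c : Cmp d n d1 n1) (hφ : EV.Phi n1 φ1) : x.cmp.Of d1 n1 φ1 := by
  refine ⟨c.red1, hφ, fun a k => ?_, fun p hp => (h.sup p hp).trans ?_⟩
  · rw [c.eq h.phi hφ (h.cop.1 k).1, ← h.eq a k]
    rfl
  · exact or_congr_right (or_congr_right' fun e => by rw [c.dvd_n hp e, c.dvd_d hp e])

/-- The twisted action is the action on the points of the curve. -/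
theorem tw (hδ : δ ^ 2 = d) (hg : g ∈ GK 3) (P : CU.A) : tw x.N x.φ g P = CX.ac δ n g P := by
  have d0 := h.red.d_ne
  have h1 : 0 < x.N * (9 * n * d.natAbs) :=
    Nat.mul_pos x.pos (Nat.mul_pos (Nat.mul_pos (by norm_num) (Nat.pos_of_ne_zero h.red.ne))
      (Int.natAbs_pos.2 d0))
  obtain ⟨M, hM⟩ : ∃ M, M = x.N * (9 * n * d.natAbs) := ⟨_, rfl⟩
  rw [← hM] at h1
  have h2 : (M : O) ≠ 0 := Nat.cast_ne_zero.2 h1.ne'
  have h3 : (x.N : O) ∣ M := Nat.cast_dvd_cast ⟨_, hM⟩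
  have h4 : (d : O) ∣ M := EV.D.b1_dvd.1 (Nat.cast_dvd_cast (hM ▸ (dvd_mul_left _ _).mul_left _))
  have h5 : EV.D.kN d (EW.cm M g) = B2.chi d g := by
    rcases h.red.fd with rfl | k
    · rw [EV.D.kN, kr_one_left, show B2.chi 1 g = 1 from B2.chi_sq 1 g, Units.val_one]
    · rw [← EV.D.kN_cm k h2 h4 hg]
      exact (h.red.kN_per (h4.trans (EV.c7_cm h2 hg))).symm
  rw [tw_apply, EW.per_dvd x.per (EW.cm_dvd h2 h3 hg),
    h.eq _ ((EW.cm_cop h2 hg).of_isCoprime_of_dvd_right h3), qt, h5,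
    EW.link_phi h.red.ne h.phi.gch h1 (CL.f8_per h.phi.per
      (hM ▸ (dvd_mul_right _ _).mul_left _)) h.phi.qc hg, CX.ac_apply, CU.act_apply,
    one_add_one_eq_two, pow_two, CU.ep_sq, one_smul, CX.sg_eq (fun e => d0 (by
      rw [e, zero_pow two_ne_zero] at hδ
      exact_mod_cast hδ.symm)) hδ (B2.chi_spec hδ g), mul_comm, mul_smul, Int.cast_smul_eq_zsmul]

theorem tors (k : GroD d n 2) : Tors x.N x.φ := fun P hP =>
  isOfFinAddOrder_iff_nsmul_eq_zero.1 (tors_of_gro h.red.d_ne (B2.rt_sq d) h.red.ne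
    (k _ (B2.rt_sq d)) fun g hg => (h.tw (B2.rt_sq d) hg P).symm.trans (hP g hg))

end Dat.Of

end Pool.Agent.Lib.MP_696deb_nt.Y3
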