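import Pool.Agent.Lib.MP_23455a_nt.Mod
import Pool.Agent.Lib.MP_696deb_nt.UnifG
import Pool.Agent.Lib.MP_696deb_nt.EW.K5
import Pool.Agent.Lib.MP_696deb_nt.Y3.E0

/-! The modular curve of genus one over `X_0(21) / W_3`: definitions. -/

set_option autoImplicit false

open Filter Topology Complex PeriodPair ModularForm Pool.Agent.Shared.Weier
open scoped Real ComplexConjugate

namespace Pool.Agent.Lib.MP_696deb_nt.Y3

open CL (O nm om wC)

/-- The primary prime of norm seven. -/
def p7 : O := ⟨1, 3⟩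

/-- The eigenvalue of the involution at three. -/
def lamW : O := om

/-- The Hecke character of conductor `1 + 3 ω`. -/
def psi (α : O) : O := ep (r7 α) * α

/-- The coefficients of the newform of level twenty-one. -/
noncomputable def aG (m : ℕ) : O := ∑ α ∈ (CL.reps m).filter fun α => r7 α = 1, α

/-- The cusp form. -/
noncomputable def fY (τ : ℂ) : ℂ := ∑' m : ℕ, CL.toC (aG m) * q1 τ ^ m

/-- The primitive of the cusp form. -/
noncomputable def phi (τ : ℂ) : ℂ := ∑' m : ℕ, CL.toC (aG m) / m * q1 τ ^ m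

/-- The Hauptmodul of the group generated by `Γ₀(21)` and the involution at three. -/
noncomputable def tt (τ : ℂ) : ℂ := eta13 τ / eta13 (7 * τ)

/-- An eta product of weight twelve. -/
noncomputable def DD (τ : ℂ) : ℂ := (eta13 τ * eta13 (7 * τ)) ^ 6

/-- The Hauptmodul of level three. -/
noncomputable def t3 (τ : ℂ) : ℂ := (eta2 τ / eta2 (3 * τ)) ^ 6

/-- A sixth root of `(4 - ω) / 243` among the algebraic numbers. -/
noncomputable def rq : EW.Qbar :=
  (IsAlgClosed.exists_pow_nat_eq (EW.io ⟨4, -1⟩ / 243) (n := 6) (by norm_num)).choose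

theorem rq_six : rq ^ 6 = EW.io ⟨4, -1⟩ / 243 :=
  (IsAlgClosed.exists_pow_nat_eq (EW.io ⟨4, -1⟩ / 243) (n := 6) (by norm_num)).choose_spec

/-- A complex sixth root of `(4 - ω) / 243`. -/
noncomputable def rho : ℂ := EW.jc rq

theorem rho_six : rho ^ 6 = (4 - wC) / 243 := by
  rw [rho, ← map_pow, rq_six, map_div₀, EW.jc_io, map_ofNat, CL.toC_apply]
  simp [sub_eq_add_neg]

theorem rho_ne : rho ≠ 0 := fun h => by
  have := rho_six
  rw [h, zero_pow (by norm_num), eq_comm, div_eq_zero_iff, sub_eq_zero] at this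
  rcases this with e | e
  · exact EW.wC_im (by rw [← e]; simp)
  · norm_num at e

/-- The elliptic point of order six that is the origin of the curve. -/
noncomputable def e1 : ℂ := (wC - 4) / 21

/-- The uniformising function; its values are read modulo the lattice `EW.LG`. -/
noncomputable def uu (τ : ℂ) : ℂ := rho * (phi τ - phi e1)

/-- Equivalence under `Γ₀(21)`. -/
def Eq0 (z w : ℂ) : Prop := ∃ a b c d : ℤ, a * d - b * (21 * c) = 1 ∧ w = mob a b (21 * c) d z

/-- Equivalence under the group generated by `Γ₀(21)` and the involution at three. -/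
def EqS (z w : ℂ) : Prop := Eq0 z w ∨ Eq0 z (mob 3 (-1) 21 (-6) w)

/-- Equivalence under an element of this group with a given value of the character. -/
def EqX (χ : O) (z w : ℂ) : Prop := ∃ a b c d : ℤ, a * d - b * (21 * c) = 1 ∧
  (nb d = χ ∧ w = mob a b (21 * c) d z ∨
    nb d * om = χ ∧ w = mob a b (21 * c) d (mob 3 (-1) 21 (-6) z))

/-- Equivalence under the kernel of the character. -/
def EqY (z w : ℂ) : Prop := EqX 1 z w

/-- Cusp forms of weight two on `Γ₀(21)` with the character `nb`. -/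
structure SY (F : ℂ → ℂ) : Prop where
  hol : Hol F
  inv : ∀ a b c d : ℤ, a * d - b * (21 * c) = 1 → ∀ z : ℂ, 0 < z.im →
    sl a b (21 * c) d F z = CL.toC (nb d) * F z
  bd : ∃ C : ℝ, ∀ z : ℂ, 0 < z.im → ‖F z‖ * z.im ≤ C

/-- The Atkin-Lehner matrices; they send infinity to the cusps `∞`, `1 / 7`, `0`, `1 / 6`. -/
def alM : Fin 4 → ℤ × ℤ × ℤ × ℤ := ![(1, 0, 0, 1), (3, -1, 21, -6), (0, -1, 21, 0), (7, 1, 42, 7)]

/-- The Atkin-Lehner maps. -/
noncomputable def al (i : Fin 4) : ℂ → ℂ := mob (alM i).1 (alM i).2.1 (alM i).2.2.1 (alM i).2.2.2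

end Pool.Agent.Lib.MP_696deb_nt.Y3
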