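import Pool.Agent.Lib.MP_696deb_nt.Y3.N1
import Pool.Agent.Lib.MP_696deb_nt.Y3.M0
import Pool.Agent.Lib.MP_696deb_nt.Y3.A0

/-! Points whose conductor is divisible by nine have trivial stabilisers. -/

set_option autoImplicit false

open scoped Classical MatrixGroups
open Complex UpperHalfPlane CongruenceSubgroup

namespace Pool.Agent.Lib.MP_696deb_nt.Y3

variable {i j : ℕ} {τ τ' : ℂ}

theorem g1_lin (hτ : 0 < τ.im) {x y : ℤ} (h : x * τ + y = 0) : x = 0 ∧ y = 0 := by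
  have h1 : x = 0 := by simpa [hτ.ne'] using congrArg Complex.im h
  exact ⟨h1, by simpa [h1] using h⟩

theorem Lv.fix (h : Lv 3 (j + 1) τ) {a b c d : ℤ} (hd : a * d - b * c = 1)
    (e : a * τ + b = τ * (c * τ + d)) : b = 0 ∧ c = 0 ∧ (a = 1 ∧ d = 1 ∨ a = -1 ∧ d = -1) := by
  obtain ⟨-, hτ, ⟨A, B, C⟩, k, h1, h2, h3, h4, -⟩ := h
  simp only [Dih.Rt, fdisc, Dih.Prm] at h1 h2 h4
  obtain ⟨e1, e2⟩ := g1_lin hτ (x := B * c - A * (d - a)) (y := C * c + A * b) (by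
    push_cast
    linear_combination (c : ℂ) * h1 + (A : ℂ) * e)
  by_cases hc : c = 0
  · subst hc
    obtain ⟨e3, e4⟩ := g1_lin hτ (x := a - d) (y := b) (by
      push_cast at e ⊢
      linear_combination e)
    exact ⟨e4, rfl, Int.eq_one_or_neg_one_of_mul_eq_one' (by simpa using hd)⟩
  exfalso
  obtain ⟨l, hl⟩ : ∃ l : ℤ, l = k * 3 ^ j := ⟨_, rfl⟩
  have l0 : l ≠ 0 := hl ▸ mul_ne_zero (fun e => h3 (e ▸ dvd_zero _)) (by positivity)
  have h5 : B ^ 2 - 4 * A * C = -27 * l ^ 2 := by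
    rw [h2, hl]
    push_cast
    ring
  have h6 : A ^ 2 * (4 - (a + d) ^ 2) = 3 * (3 * c * l) ^ 2 := by
    linear_combination (-4 * A ^ 2) * hd - c ^ 2 * h5 + (B * c + A * (d - a)) * e1 -
      4 * A * c * e2
  have h7 : 0 < (3 * c * l) ^ 2 := by positivity
  have h8 : (a + d) ^ 2 < 4 := by nlinarith [sq_nonneg A]
  obtain h9 | h9 : a + d = 0 ∨ (a + d) ^ 2 = 1 := by
    have : -2 < a + d := by nlinarith
    have : a + d < 2 := by nlinarith
    rcases (by omega : a + d = 0 ∨ a + d = 1 ∨ a + d = -1) with k | k | k <;> simp [k]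
  · rw [h9] at h6
    obtain ⟨r, hr⟩ : 3 * c * l ∣ 2 * A := (Int.pow_dvd_pow_iff two_ne_zero).1
      ⟨3, by linear_combination h6⟩
    have h10 : r * r = 3 := mul_left_cancel₀ h7.ne' (by
      linear_combination h6 - (2 * A + 3 * c * l * r) * hr)
    have : -2 < r := by nlinarith
    have : r < 2 := by nlinarith
    interval_cases r <;> omega
  · obtain ⟨m, hm⟩ : ∃ m, A = c * (3 * m) := by
      rcases sq_eq_sq_iff_eq_or_eq_neg.1 (show A ^ 2 = (c * (3 * l)) ^ 2 by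
        rw [h9] at h6
        nlinarith) with k | k
      exacts [⟨l, k⟩, ⟨-l, by rw [k]; ring⟩]
    refine h4 ⟨⟨c * m, by rw [hm]; push_cast; ring⟩, ⟨m * (d - a), mul_left_cancel₀ hc ?_⟩,
      ⟨-(m * b), mul_left_cancel₀ hc ?_⟩⟩
    · push_cast
      linear_combination e1 + (d - a) * hm
    · push_cast
      linear_combination e2 - b * hm

theorem g1_smul (g : SL(2, ℤ)) (w : ℍ) :
    ((g • w : ℍ) : ℂ) = mob (g 0 0) (g 0 1) (g 1 0) (g 1 1) w := by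
  rw [specialLinearGroup_apply]
  simp [mob]

theorem g1_det (g : SL(2, ℤ)) : g 0 0 * g 1 1 - g 0 1 * g 1 0 = 1 := by
  rw [← Matrix.det_fin_two]
  exact g.det_coe

theorem g1_jf {a b c d : ℤ} (h : a * d - b * c = 1) (hz : 0 < τ.im) : jf (mob a b c d τ) = jf τ :=
  jf_act (g := !![a, b; c, d]) (by simpa using h) hz

theorem g1_den {c d : ℤ} (hτ : 0 < τ.im) (h : c ≠ 0 ∨ d ≠ 0) : (c : ℂ) * τ + d ≠ 0 := fun k =>
  h.elim (fun e => e (g1_lin hτ k).1) fun e => e (g1_lin hτ k).2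

theorem Lv.free {w : ℍ} (h : Lv 3 (j + 1) w) (g : SL(2, ℤ)) (e : g • w = w) : g = 1 ∨ g = -1 := by
  have e1 := g1_smul g w
  have h0 : (g 1 0 : ℂ) * w + g 1 1 ≠ 0 := fun k => by
    obtain ⟨a, b⟩ := g1_lin w.im_pos k
    simpa [a, b] using g1_det g
  rw [e, mob, eq_div_iff h0] at e1
  obtain ⟨a, b, c⟩ := h.fix (g1_det g) e1.symm
  refine c.imp (fun c => ?_) fun c => ?_ <;> ext x y <;> fin_cases x <;> fin_cases y <;>
    simp [a, b, c.1, c.2]

theorem Eq0.jf_eq (h : Eq0 τ τ') (hτ : 0 < τ.im) : jf τ = jf τ' ∧ jf (3 * τ) = jf (3 * τ') := by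
  obtain ⟨a, b, c, d, k, rfl⟩ := h
  have h3 : 0 < (3 * τ).im := by simpa using hτ
  refine ⟨(g1_jf k hτ).symm, ?_⟩
  rw [← g1_jf (a := a) (b := 3 * b) (c := 7 * c) (d := d) (by linear_combination k) h3, mob, mob,
    ← mul_div_assoc]
  congr 2 <;> push_cast <;> ring

theorem g1_W (hτ : 0 < τ.im) : jf (mob 3 (-1) 21 (-6) τ) = jf (3 * τ) ∧
    jf (3 * mob 3 (-1) 21 (-6) τ) = jf τ := by
  have h3 : 0 < (3 * τ).im := by simpa using hτ
  constructor
  · rw [← g1_jf (a := 1) (b := -1) (c := 7) (d := -6) (by norm_num) h3, mob, mob]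
    congr 2 <;> push_cast <;> ring
  · rw [← g1_jf (a := 3) (b := -1) (c := 7) (d := -2) (by norm_num) hτ, mob, mob]
    congr 1
    have h1 := g1_den (c := 7) (d := -2) hτ (by norm_num)
    have h2 := g1_den (c := 21) (d := -6) hτ (by norm_num)
    rw [← mul_div_assoc, div_eq_div_iff h2 h1]
    push_cast
    ring

theorem ET.not_W (h : ET i τ) : ¬ Eq0 τ (mob 3 (-1) 21 (-6) τ) := fun e =>
  h.down.jf_ne h.lv Nat.prime_three (Nat.lt_succ_self _)
    ((e.jf_eq h.pos).2.trans (g1_W h.pos).2)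

theorem ET.not_eqS (h : ET i τ) (h' : ET j τ') (hj : i < j) : ¬ EqS τ τ' := fun e =>
  e.elim (fun e => h.lv.jf_ne h'.lv Nat.prime_three (by omega) (e.jf_eq h.pos).1) fun e =>
    h.down.jf_ne h'.lv Nat.prime_three (by omega) ((e.jf_eq h.pos).2.trans (g1_W h'.pos).2)

theorem ET.not_eqS' (h : ET i τ) (h' : ET j τ') (hj : i < j) : ¬ EqS τ' τ := fun e =>
  e.elim (fun e => h.lv.jf_ne h'.lv Nat.prime_three (by omega) (e.jf_eq h'.pos).1.symm) fun e =>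
    h.down.jf_ne h'.lv Nat.prime_three (by omega)
      ((e.jf_eq h'.pos).1.trans (g1_W h.pos).1).symm

theorem g1_eq0 {g : SL(2, ℤ)} (hg : g ∈ Gamma0 21) (w : ℍ) : Eq0 w (g • w : ℍ) := by
  obtain ⟨c, hc⟩ := (ZMod.intCast_zmod_eq_zero_iff_dvd _ _).1 (Gamma0_mem.1 hg)
  have e : g 1 0 = 21 * c := hc
  exact ⟨g 0 0, g 0 1, c, g 1 1, e ▸ g1_det g, e ▸ g1_smul g w⟩

theorem g1_eq0' {g : SL(2, ℤ)} (hg : g ∈ Gamma0 21) {z w : ℍ} (e : z = g • w) : Eq0 z w := by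
  have := g1_eq0 (inv_mem hg) z
  rwa [show g⁻¹ • z = w by rw [e, inv_smul_smul]] at this

variable {Y : An.CrvW} {z w : ℍ}

/-- The stabiliser in the extended group is trivial. -/
theorem ET.fr (h : ET j w) (hN : Y.N = 21)
    (hW : ∀ z : ℍ, ((Y.W • z : ℍ) : ℂ) = mob 3 (-1) 21 (-6) z) : Y.Fr w :=
  ⟨fun g _ e => h.lv.free g e, fun _ hg e => h.not_W (hW w ▸ g1_eq0' (hN ▸ hg) e)⟩

/-- Points of different types are not equivalent under the extended group. -/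
theorem ET.sep (h : ET i z) (h' : ET j w) (hj : i < j) (hN : Y.N = 21)
    (hW : ∀ z : ℍ, ((Y.W • z : ℍ) : ℂ) = mob 3 (-1) 21 (-6) z) : Y.Sep z w := fun _ hg =>
  ⟨fun e => h.not_eqS h' hj (Or.inl (g1_eq0' (hN ▸ hg) e)),
    fun e => h.not_eqS h' hj (Or.inr (hW w ▸ g1_eq0' (hN ▸ hg) e))⟩

end Pool.Agent.Lib.MP_696deb_nt.Y3
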