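import Pool.Agent.Lib.MP_696deb_nt.Y3.N0
import Pool.Agent.Lib.MP_696deb_nt.Y3.D0

/-! The type of the quotient of two Eisenstein integers. -/

set_option autoImplicit false

open Complex
open scoped Classical

namespace Pool.Agent.Lib.MP_696deb_nt.Y3

open Pool.Agent.Dih
open CL (O nm wC)

variable {B : MZ} {l i : ℕ} {k : ℤ}

theorem n6_im : 0 < wC.im := by simp [wC]

theorem n6_rt : Rt (1, 1, 1) wC := by
  rw [Rt]
  push_cast
  linear_combination CL.wC_sq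

theorem ed_of (h0 : 0 < B.det) (hn : B.det = k * l ^ i) (hk : ¬ (l : ℤ) ∣ k)
    (h : ¬ (l : ℤ) ∣ nm (row B 0) ∨ ¬ (l : ℤ) ∣ nm (row B 1)) {fw : Prop}
    (hf : fw ↔ ¬ (l : ℤ) ∣ nm (row B 1)) : Ed l i fw (act B wC) := by
  have e1 : fval (1, 1, 1) (B 1 1) (-B 1 0) = nm (row B 1) := by
    simp only [fval, nm, row]
    ring
  have e0 : fval (1, 1, 1) (-B 0 1) (B 0 0) = nm (row B 0) := by
    simp only [fval, nm, row]
    ring
  refine ⟨act_pos h0 n6_im, _, k, n6_rt.act n6_im h0.ne', ?_, hk,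
    fun e => h.elim (fun a => a (e0 ▸ e.2.2)) fun a => a (e1 ▸ e.1),
    hf.trans (by rw [← e1]; rfl)⟩
  rw [fpe_disc, hn, fdisc]
  ring

theorem et_of (h0 : 0 < B.det) (hn : B.det = k * 3 ^ (i + 1)) (hk : ¬ 3 ∣ k) (h7 : 7 ∣ B.det)
    (h1 : IsCoprime (nm (row B 0)) 21) (h2 : 21 ∣ nm (row B 1)) : ET i (act B wC) := by
  obtain ⟨a, b⟩ : ¬ ((3 : ℕ) : ℤ) ∣ nm (row B 0) ∧ ¬ ((7 : ℕ) : ℤ) ∣ nm (row B 0) := by
    obtain ⟨a, b, h⟩ := h1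
    constructor <;> rintro ⟨c, e⟩ <;> rw [e, mul_left_comm] at h <;> omega
  obtain ⟨e, m, hm, he⟩ := WfDvdMonoid.max_power_factor h0.ne'
    (Nat.prime_iff_prime_int.1 n0_seven).irreducible
  obtain ⟨j, rfl⟩ : ∃ j, e = j + 1 := ⟨e - 1, by
    rcases e with _ | e
    · rw [pow_zero, one_mul] at he
      exact absurd (he ▸ h7) hm
    · rfl⟩
  exact ⟨ed_of h0 hn hk (Or.inl a) ⟨False.elim, fun c => c (Dvd.dvd.trans ⟨7, rfl⟩ h2)⟩, j,
    ed_of h0 (he.trans (mul_comm _ _)) hm (Or.inl b)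
      ⟨False.elim, fun c => c (Dvd.dvd.trans ⟨3, rfl⟩ h2)⟩⟩

end Pool.Agent.Lib.MP_696deb_nt.Y3
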