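import Pool.Agent.Lib.MP_696deb_nt.Y3.N4
import Pool.Agent.Lib.MP_60ff09_nt.Dih.FPa

/-! The local heights summed over a Hecke correspondence. -/

set_option autoImplicit false

open Complex
open scoped Classical

namespace Pool.Agent.Lib.MP_696deb_nt.Y3

open Pool.Agent.Dih
open Y2 (nv nv_coe)
open CL (wC)
open Finset

variable {v : AbsoluteValue ℂ ℝ} {τ τ' T T' : ℂ} {p i j a d : ℕ}

/-- The excess of the local height. -/
noncomputable def ex (v : AbsoluteValue ℂ ℝ) (T T' : ℂ) : ℝ := -Real.log (v (T - T'))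

/-- The size of the double of the point at the places above three. -/
noncomputable def qv (v : AbsoluteValue ℂ ℝ) (T : ℂ) : ℝ :=
  v (T - (1 + 3 * wC)) * v (T + (3 + wC)) ^ 3

/-- The local conditions on two values, with the bound `e` for the excess. -/
structure Lc (v : AbsoluteValue ℂ ℝ) (T T' : ℂ) (e : ℝ) : Prop where
  le : v T ≤ 1
  le' : v T' ≤ 1
  alt : (v 3 = 1 ∧ ex v T T' ≤ e) ∨
    (v 3 < 1 ∧ 0 ≤ e ∧ 0 < qv v T ∧ 0 < qv v T' ∧ qv v T ≠ qv v T')

theorem ET.hecke (h : ET j τ) (had : (a * d).Coprime 21) (b : ℤ) : ET j ((a * τ + b) / d) := by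
  have e : (!![(a : ℤ), b; 0, d] : MZ).det = (a * d : ℕ) := by
    rw [Matrix.det_fin_two_of, mul_zero, sub_zero, Nat.cast_mul]
  exact n4_act τ a d b ▸ h.act (by
    rw [e]
    exact_mod_cast Nat.pos_of_ne_zero fun e => by simp [e] at had) (by
    rw [e]
    exact Nat.isCoprime_iff_coprime.2 had) (dvd_zero _)

/-- No excess at three and at the split primes. -/
theorem lc_zero (hv : IsNonarchimedean v) (hp : p.Prime) (h4 : p = 3 ∨ p % 3 = 1) (hV : v p < 1)
    (hτ : ET i τ) (hτ' : ET j τ') (hj : i < j) (h : On τ T) (h' : On τ' T') : Lc v T T' 0 := by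
  rcases h4 with rfl | h4
  · obtain ⟨a1, a2⟩ := n4_three (V := nv v hv) hV hτ h
    obtain ⟨b1, b2⟩ := n4_three (V := nv v hv) hV hτ' h'
    simp only [← NNReal.coe_inj, NNReal.coe_pow, NNReal.coe_mul, nv_coe, NNReal.coe_one]
      at a1 a2 b1 b2
    rw [← qv] at a2 b2
    have p3 : 0 < v 3 := v.pos three_ne_zero
    have k : ∀ {T : ℂ} {i : ℕ}, qv v T ^ (2 * 3 ^ i) = v 3 → 0 < qv v T := fun {T i} e =>
      (show 0 ≤ qv v T by unfold qv; positivity).lt_of_ne fun c => by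
        rw [← c, zero_pow (by positivity)] at e
        exact p3.ne e
    refine ⟨a1.le, b1.le, .inr ⟨hV, le_rfl, k a2, k b2, fun e => ?_⟩⟩
    have l : qv v T' < 1 := not_le.1 fun c => ((one_le_pow₀ c).trans_eq b2).not_gt hV
    rw [e, ← b2] at a2
    have := Nat.pow_lt_pow_right (show 1 < 3 by norm_num) hj
    exact (pow_lt_pow_right_of_lt_one₀ (k b2) l (by omega)).ne' a2
  · obtain ⟨a1, a2, a3⟩ := n4_split (V := nv v hv) hp h4 hV hτ hτ' hj h h'
    have a4 := Y2.n4_cop (V := nv v hv) hp hV Nat.prime_three (by omega)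
    simp only [← NNReal.coe_inj, nv_coe, NNReal.coe_one] at a1 a2 a3 a4
    exact ⟨a1.le, a2.le, .inl ⟨a4, by rw [ex, a3, Real.log_one, neg_zero]⟩⟩

/-- The excess at an inert prime grows slowly along the powers of that prime. -/
theorem lc_sum (hp : p.Prime) (h3 : p % 3 = 2) (hτ : ET i τ) (hτ' : ET j τ') (hj : i < j) :
    ∃ n : ℕ, ∀ v : AbsoluteValue ℂ ℝ, IsNonarchimedean v → v p < 1 → ∀ s : ℕ,
      ∃ e : (Σ _ : ℕ × ℕ, ℕ) → ℝ, ∑ x ∈ HI (p ^ s), e x ≤ n * (s + 1) ^ 2 * -Real.log (v p) ∧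
        ∀ x ∈ HI (p ^ s), ∀ T T', On τ T → On ((x.1.1 * τ' + x.2) / x.1.2) T' →
          Lc v T T' (e x) := by
  obtain ⟨n, hn⟩ := n4_inert (Γ := NNReal) hp h3 hτ hτ'.lv hj
  refine ⟨n, fun v hv hV s => ⟨fun t => n * (hgc t : ℝ) ^ 2 / p ^ s * -Real.log (v p), ?_,
    fun t ht T T' h h' => ?_⟩⟩
  all_goals have p0 : (0 : ℝ) < p ^ s := pow_pos (by exact_mod_cast hp.pos) _
  · have h7 : (∑ t ∈ HI (p ^ s), (hgc t : ℝ) ^ 2) ≤ (s + 1) ^ 2 * p ^ s := by
      have := sum_hgc_le (p ^ s)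
      rw [Nat.divisors_prime_pow hp, card_map, card_range] at this
      exact_mod_cast this
    rw [← sum_mul, ← sum_div, ← mul_sum]
    refine mul_le_mul_of_nonneg_right ?_ (neg_nonneg.2 (Real.log_nonpos (v.nonneg _) hV.le))
    rw [div_le_iff₀ p0, mul_assoc]
    exact mul_le_mul_of_nonneg_left h7 n.cast_nonneg
  obtain ⟨e, -⟩ := Nat.mem_divisorsAntidiagonal.1 (mem_sigma.1 ht).1
  obtain ⟨t1, t2, t4⟩ := hn (nv v hv) hV T T' s t.1.1 t.1.2 t.2 e h (by exact_mod_cast h')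
  have a4 := Y2.n4_cop (V := nv v hv) hp hV Nat.prime_three (by omega)
  simp only [← NNReal.coe_inj, ← NNReal.coe_le_coe, NNReal.coe_pow, nv_coe, NNReal.coe_one,
    Int.natAbs_natCast] at t1 t2 t4 a4
  refine ⟨t1.le, t2.le, .inl ⟨a4, ?_⟩⟩
  have t6 := Real.log_le_log (pow_pos (v.pos (Nat.cast_ne_zero.2 hp.ne_zero)) _) t4
  rw [Real.log_pow, Real.log_pow] at t6
  push_cast at t6
  beta_reduce
  rw [ex, div_mul_eq_mul_div, le_div_iff₀ p0, hgc]
  linarith

end Pool.Agent.Lib.MP_696deb_nt.Y3
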