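import Pool.Agent.Lib.MP_696deb_nt.Y3.D2
import Pool.Agent.Lib.MP_696deb_nt.Y3.C0
import Pool.Agent.Lib.MP_696deb_nt.Y3.N6
import Pool.Agent.Lib.MP_696deb_nt.Y3.N7
import Pool.Agent.Lib.MP_696deb_nt.Y3.G1
import Pool.Agent.Lib.MP_696deb_nt.Y3.M7

/-! The two families of points attached to a datum. -/

set_option autoImplicit false

open scoped Classical ComplexConjugate
open Complex Finset

namespace Pool.Agent.Lib.MP_696deb_nt.Y3

open CL (O nm om wC Per Prim)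

/-- The basis attached to a matrix on `(ω, 1)`. -/
def rows (B : MZ) : O × O := (row B 0, row B 1)

theorem dt_rows (B : MZ) : dt (rows B) = B.det := by
  simp only [dt, rows, row, Matrix.det_fin_two]

theorem tb_rows (B : MZ) : tb (rows B) = act B wC := (act_row B).symm

theorem rows_mul (g B : MZ) : rows (g * B) = mv (g 0 0) (g 0 1) (g 1 0) (g 1 1) (rows B) := by
  simp only [rows, mv, row_mul]

theorem rows_mb (B : MZ) (t : O) : rows (B * mb t 0) = (t * (rows B).1, t * (rows B).2) := by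
  simp only [rows, row_mb, zero_mul, add_zero]

theorem Tri.tr {g B B' : MZ} {t : O} (h : Tri g) (e : B * mb t 0 = g * B') :
    Tr t (rows B) (rows B') 1 := by
  obtain ⟨c, hc⟩ := h.c
  obtain ⟨a, ha⟩ := h.a
  refine ⟨g 0 0, g 0 1, c, g 1 1, by rw [← rows_mb, e, rows_mul, hc],
    ⟨1, -a, by linear_combination ha⟩, ?_⟩
  rw [nb_congr h.a, Int.cast_one, nb_one, star_one]

theorem g0_e1 : 0 < e1.im := by simp [e1, wC]

theorem g0_lv : Lv 3 0 e1 ∧ Lv 3 0 (3 * e1) := by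
  have w := CL.wC_sq
  have h1 : act !![0, -1; 1, 5] wC = e1 := by
    have := g1_den (c := 1) (d := 5) n6_im (by norm_num)
    rw [act_of, mob, e1, div_eq_div_iff this (by norm_num)]
    push_cast
    linear_combination -w
  have h2 : act !![-2, -1; 3, 1] wC = 3 * e1 := by
    have := g1_den (c := 3) (d := 1) n6_im (by norm_num)
    rw [act_of, mob, e1, ← mul_div_assoc, div_eq_div_iff this (by norm_num)]
    push_cast
    linear_combination -9 * w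
  exact ⟨h1 ▸ (ed_of (k := 1) (by decide) (by decide) (by decide) (.inl (by decide)) Iff.rfl).lv,
    h2 ▸ (ed_of (k := 1) (by decide) (by decide) (by decide) (.inr (by decide)) Iff.rfl).lv⟩

/-- The points of positive conductor at three are not the origin. -/
theorem ET.nz {i : ℕ} {τ : ℂ} (h : ET i τ) : uu τ ∉ EW.LG.lattice := fun k =>
  (eqS_of h.pos g0_e1 (one_pow 6) (by simpa [uu] using k)).elim
    (fun e => g0_lv.1.jf_ne h.lv Nat.prime_three i.succ_pos (e.jf_eq h.pos).1.symm) fun e =>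
    g0_lv.2.jf_ne h.lv Nat.prime_three i.succ_pos
      ((e.jf_eq h.pos).1.trans (g1_W g0_e1).1).symm

/-- The matrix form of the trivial character. -/
theorem Tri.eq1 {g : MZ} (h : Tri g) (hd : g.det = 1) (z : ℂ) : ∃ a b c e : ℤ,
    a * e - b * (21 * c) = 1 ∧ nb e = 1 ∧ act g z = mob a b (21 * c) e z := by
  obtain ⟨c, hc⟩ := h.c
  obtain ⟨a, ha⟩ := h.a
  rw [Matrix.det_fin_two, hc] at hd
  refine ⟨g 0 0, g 0 1, c, g 1 1, hd, ?_, by rw [act, hc]⟩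
  rw [nb_congr (b := 1) ⟨g 0 1 * c - a * g 1 1, by linear_combination hd - g 1 1 * ha⟩,
    Int.cast_one, nb_one]

namespace Dat

variable (d : Dat) {m : ℕ} {u : O}

/-- The exponent of three in the level, minus one. -/
def lv : ℕ := d.N.factorization 3 - 1

/-- The first family. -/
noncomputable def FX : Fam d.U := ⟨fun u => rows (d.Bx u), fun u => d.kap u⟩

/-- The second family. -/
noncomputable def FY : Fam (d.U × Fin 3) := ⟨fun x => rows (d.By x.1 x.2), fun x => d.kap x.1⟩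

/-- The complex lift of the sum of the points of the first family. -/
noncomputable def pt : ℂ := ∑ u ∈ d.U, CL.toC (d.kap u) * uu (d.tx u)

/-- The archimedean pairing for the datum and its companion. -/
noncomputable def ar (m : ℕ) : ℂ := d.FX.arch (d.FY.hk m) + d.cmp.FX.arch (d.cmp.FY.hk m)

instance : Nonempty d.U := ⟨⟨1, d.one_U⟩⟩

theorem lk : Lk d.N d.φ := ⟨d.pos, d.per, d.six⟩

theorem cmp_lv : d.cmp.lv = d.lv := rfl

theorem tb_FX (u : d.U) : tb (d.FX.w u) = d.tx u := tb_rows _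

theorem tb_FY (x : d.U × Fin 3) : tb (d.FY.w x) = d.ty x.1 x.2 := tb_rows _

theorem FX_ok : d.FX.Ok d.N :=
  ⟨d.pos, fun u => (dt_rows _).trans (d.Bx_det u.2), fun u => d.kap_six (d.cop u.2)⟩

theorem FY_ok : d.FY.Ok (3 * d.N) :=
  ⟨mul_pos three_pos d.pos, fun x => (dt_rows _).trans ((d.By_det x.1.2 x.2).trans (by simp)),
    fun x => d.kap_six (d.cop x.1.2)⟩

theorem exists_perm {t : O} (ht : IsCoprime t (d.N : O)) :
    ∃ s : d.U ≃ d.U, ∀ u, (s u : O) = red d.M (t * u) :=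
  ⟨Equiv.ofBijective (fun u => ⟨_, d.red_U ht u.2⟩) (Finite.injective_iff_bijective.1
    fun u u' e => Subtype.ext (d.red_inj ht u.2 u'.2 (congrArg Subtype.val e))), fun _ => rfl⟩

theorem FX_stable : d.FX.Stable d.M fun a => d.φ a * eb a := fun t _ ht => by
  have h := d.cop_M.1 ht
  obtain ⟨s, hs⟩ := d.exists_perm h
  refine ⟨s, fun u => ?_⟩
  obtain ⟨g, g1, -, g3⟩ := d.Bx_mul h u.2
  refine ⟨1, ?_, ?_⟩
  · simpa only [FX, hs] using g1.tr g3
  · simp only [FX, hs, kap_red, kap_mul, d.kap_unit h, eb, mul_one]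

theorem FY_stable : d.FY.Stable d.M fun a => d.φ a * eb a := fun t _ ht => by
  have h := d.cop_M.1 ht
  obtain ⟨s, hs⟩ := d.exists_perm h
  refine ⟨s.prodCongr (Equiv.refl _), fun x => ?_⟩
  obtain ⟨g, g1, -, g3⟩ := d.By_mul h x.1.2 x.2
  refine ⟨1, ?_, ?_⟩
  · simpa only [FY, Equiv.prodCongr_apply, Prod.map_fst, Prod.map_snd, hs, Equiv.refl_apply]
      using g1.tr g3
  · simp only [FY, Equiv.prodCongr_apply, Prod.map_fst, hs, kap_red, kap_mul, d.kap_unit h, eb,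
      mul_one]

theorem lv_spec : ∃ k : ℤ, ¬ 3 ∣ k ∧ (d.N : ℤ) = k * 3 ^ (d.lv + 1) := by
  have h : 1 ≤ d.N.factorization 3 :=
    (Nat.prime_three.dvd_iff_one_le_factorization d.pos.ne').1 (Dvd.dvd.trans ⟨21, rfl⟩ d.dvd)
  refine ⟨(d.N / 3 ^ d.N.factorization 3 : ℕ), fun e => Nat.not_dvd_ordCompl Nat.prime_three
    d.pos.ne' (by exact_mod_cast e), ?_⟩
  rw [lv, Nat.sub_add_cancel h, mul_comm]
  exact_mod_cast (Nat.ordProj_mul_ordCompl_eq_self d.N 3).symm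

theorem lv_pos : 0 < d.lv := by
  have := (Nat.prime_three.pow_dvd_iff_le_factorization (k := 2) d.pos.ne').1
    (Dvd.dvd.trans ⟨7, rfl⟩ d.dvd)
  rw [lv]
  omega

theorem g0_dvd : (21 : ℤ) ∣ d.N := by exact_mod_cast Dvd.dvd.trans ⟨3, rfl⟩ d.dvd

theorem g0_cop (hu : u ∈ d.U) {y : O} (h : (d.N : O) ∣ y - u) : IsCoprime (nm y) 21 :=
  (cop_norm.1 (d2_congr h (d.cop hu))).of_isCoprime_of_dvd_right d.g0_dvd

theorem g0_nm (x y : O) : 21 ∣ nm (x * d.N * y) := by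
  rw [CL.nm_mul, CL.nm_mul, ← Int.cast_natCast, CL.nm_int]
  exact ((d.g0_dvd.trans (dvd_pow_self _ two_ne_zero)).mul_left _).mul_right _

theorem ET_tx (hu : u ∈ d.U) : ET d.lv (d.tx u) := by
  obtain ⟨k, h1, h2⟩ := d.lv_spec
  have e := d.Bx_det hu
  exact et_of (by rw [e]; exact_mod_cast d.pos) (e.trans h2) h1
    (e ▸ Dvd.dvd.trans ⟨3, rfl⟩ d.g0_dvd) (d.g0_cop hu (d.row_cong hu 0).1)
    (by simpa [(d.row_Bx u).2] using d.g0_nm 1 _)

theorem ET_ty (hu : u ∈ d.U) (b : Fin 3) : ET (d.lv + 1) (d.ty u b) := by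
  obtain ⟨k, h1, h2⟩ := d.lv_spec
  have e := d.By_det hu b
  exact et_of (by rw [e]; have := d.pos; omega) (by rw [e, h2]; ring) h1
    (e ▸ (Dvd.dvd.trans ⟨3, rfl⟩ d.g0_dvd).mul_left 3) (d.g0_cop hu (d.row_cong hu b).2)
    ((d.row_By u b).2 ▸ d.g0_nm 3 _)

theorem ET_FX (u : d.U) : ET d.lv (tb (d.FX.w u)) := d.tb_FX u ▸ d.ET_tx u.2

theorem ET_FY (x : d.U × Fin 3) : ET (d.lv + 1) (tb (d.FY.w x)) := d.tb_FY x ▸ d.ET_ty x.1.2 x.2

theorem hk_w (x : (d.U × Fin 3) × HI m) : (d.FY.hk m).w x =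
    rows (!![(x.2.1.1.1 : ℤ), x.2.1.2; 0, x.2.1.1.2] * d.By x.1.1 x.1.2) := by
  rw [rows_mul]
  rfl

theorem tb_hk (x : (d.U × Fin 3) × HI m) : tb ((d.FY.hk m).w x) =
    (x.2.1.1.1 * d.ty x.1.1 x.1.2 + x.2.1.2) / x.2.1.1.2 := by
  rw [hk_w, tb_rows, act_mul _ (by rw [d.By_det x.1.1.2]; have := d.pos; omega) d2_wC, act_of, ty]
  simp [mob]

theorem ET_hk (hm : m.Coprime 21) (x : (d.U × Fin 3) × HI m) :
    ET (d.lv + 1) (tb ((d.FY.hk m).w x)) := by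
  have h := (d.ET_ty x.1.1.2 x.1.2).hecke (a := x.2.1.1.1) (d := x.2.1.1.2) (by
    rwa [(Nat.mem_divisorsAntidiagonal.1 (mem_sigma.1 x.2.2).1).1]) x.2.1.2
  rw [tb_hk]
  exact_mod_cast h

theorem FX_nz : d.FX.Nz := fun u => (d.ET_FX u).nz

theorem FY_nz : d.FY.Nz := fun x => (d.ET_FY x).nz

theorem hk_nz (hm : m.Coprime 21) : (d.FY.hk m).Nz := fun x => (d.ET_hk hm x).nz

theorem not_eqS (u : d.U) (x : d.U × Fin 3) : ¬ EqS (tb (d.FX.w u)) (tb (d.FY.w x)) :=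
  (d.ET_FX u).not_eqS (d.ET_FY x) (Nat.lt_succ_self _)

theorem not_eqS_hk (hm : m.Coprime 21) (u : d.U) (x : (d.U × Fin 3) × HI m) :
    ¬ EqS (tb (d.FX.w u)) (tb ((d.FY.hk m).w x)) :=
  (d.ET_FX u).not_eqS (d.ET_hk hm x) (Nat.lt_succ_self _)

theorem sum_FX : ∑ u, d.FX.z u = d.pt := by
  rw [pt, ← sum_coe_sort d.U]
  exact sum_congr rfl fun u _ => by rw [Fam.z, tb_FX, FX]

theorem sum_wt_FX : ∑ u, d.FX.wt u = 0 := (sum_coe_sort d.U d.kap).trans d.sum_kap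

theorem sum_wt_FY : ∑ x, d.FY.wt x = 0 := by
  rw [Fintype.sum_prod_type_right]
  exact sum_eq_zero fun _ _ => d.sum_wt_FX

theorem sum_FY : ∑ x, d.FY.z x = CL.toC (aG 3) * d.pt := by
  obtain ⟨C, hC⟩ := uu_U3
  have h : ∀ u : d.U, ∑ b, d.FY.z (u, b) =
      CL.toC (aG 3) * d.FX.z u + CL.toC (d.FX.wt u) * C := fun u => by
    simp only [Fam.z, tb_FY, tb_FX, d.ty_eq u.2]
    rw [show ∑ b : Fin 3, CL.toC (d.FY.wt (u, b)) * uu ((d.tx u + (b : ℕ)) / 3) =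
      CL.toC (d.FX.wt u) * ∑ k ∈ range 3, uu ((d.tx u + k) / 3) by
        rw [mul_sum, sum_range]; rfl, hC _ (d.tx_pos u.2)]
    ring
  rw [Fintype.sum_prod_type, sum_congr rfl fun u _ => h u, sum_add_distrib, ← sum_mul, ← mul_sum,
    ← map_sum, sum_wt_FX, map_zero, zero_mul, add_zero, sum_FX]

theorem sum_hk (hm : 0 < m) : ∑ x, (d.FY.hk m).z x = CL.toC (aG m * aG 3) * d.pt := by
  obtain ⟨C, hC⟩ := uu_hecke hm
  have h : ∀ x : d.U × Fin 3, ∑ y, (d.FY.hk m).z (x, y) =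
      CL.toC (aG m) * d.FY.z x + CL.toC (d.FY.wt x) * C := fun x => by
    simp only [Fam.z, tb_hk, tb_FY]
    rw [mul_left_comm, ← mul_add, ← hC _ (d.ty_pos x.1.2 x.2), mul_sum]
    simp only [mul_sum, ← mul_assoc]
    rw [sum_sigma', ← HI, ← sum_coe_sort (HI m)]
    exact sum_congr rfl fun y _ => by rw [Fam.hk, map_mul, mul_comm (CL.toC _)]
  rw [Fintype.sum_prod_type, sum_congr rfl fun x _ => h x, sum_add_distrib, ← sum_mul, ← mul_sum,
    ← map_sum, sum_wt_FY, map_zero, zero_mul, add_zero, sum_FY, map_mul, mul_assoc]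

/-- The reflection of the first family. -/
theorem tx_cj (hu : u ∈ d.U) : ∃ g : MZ, Tri g ∧ g.det = 1 ∧
    -conj (d.tx u) = act g (d.tx (d.cj u)) := by
  obtain ⟨g, h1, h2, h3⟩ := d.Bx_cj hu
  exact ⟨g, h1, h2, by
    rw [tx, act_conj, h3, act_mul _ (by rw [d.Bx_det (d.cj_U hu)]; exact d.N_ne) d2_wC, tx]⟩

/-- The reflection of the second family. -/
theorem ty_cj (hu : u ∈ d.U) (b : Fin 3) : ∃ g : MZ, Tri g ∧ g.det = 1 ∧
    -conj (d.ty u b) = act g (d.ty (d.cj u) (-b)) := by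
  obtain ⟨g, h1, h2, h3⟩ := d.By_cj hu b
  exact ⟨g, h1, h2, by
    rw [ty, act_conj, h3, act_mul _ (by
      rw [d.By_det (d.cj_U hu)]; have := d.pos; omega) d2_wC, ty]⟩

theorem eqY_tx (hu : u ∈ d.U) : EqY (d.tx (d.cj u)) (-conj (d.tx u)) := by
  obtain ⟨g, h1, h2, h3⟩ := d.tx_cj hu
  obtain ⟨a, b, c, e, k1, k2, k3⟩ := h1.eq1 h2 (d.tx (d.cj u))
  exact ⟨a, b, c, e, k1, .inl ⟨k2, h3.trans k3⟩⟩

theorem eqY_ty (hu : u ∈ d.U) (b : Fin 3) : EqY (d.ty (d.cj u) (-b)) (-conj (d.ty u b)) := by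
  obtain ⟨g, h1, h2, h3⟩ := d.ty_cj hu b
  obtain ⟨a, b, c, e, k1, k2, k3⟩ := h1.eq1 h2 (d.ty (d.cj u) (-b))
  exact ⟨a, b, c, e, k1, .inl ⟨k2, h3.trans k3⟩⟩

theorem uu_tx_cj (hu : u ∈ d.U) : uu (-conj (d.tx u)) - uu (d.tx (d.cj u)) ∈ EW.LG.lattice := by
  simpa using uu_eqX (d.eqY_tx hu) (d.tx_pos (d.cj_U hu))

theorem uu_ty_cj (hu : u ∈ d.U) (b : Fin 3) :
    uu (-conj (d.ty u b)) - uu (d.ty (d.cj u) (-b)) ∈ EW.LG.lattice := by
  simpa using uu_eqX (d.eqY_ty hu b) (d.ty_pos (d.cj_U hu) _)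

end Dat

end Pool.Agent.Lib.MP_696deb_nt.Y3
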