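import Pool.Agent.Lib.MP_696deb_nt.Y3.TH0
import Pool.Agent.Lib.MP_696deb_nt.Y2.A1
import Pool.Agent.Lib.MP_696deb_nt.CL.F3

/-! The section attached to a periodic function on the Eisenstein integers: definitions. -/

set_option autoImplicit false

open Complex Finset
open scoped Real ComplexConjugate Classical MatrixGroups

namespace Pool.Agent.Lib.MP_696deb_nt.Y3

open CL (O nm om th op wC Per FT mem_reps)

/-- The sum over the residues. -/
noncomputable def sm (M : ℕ) (f : O → ℂ) : ℂ := ∑ x ∈ range M, ∑ y ∈ range M, f ⟨x, y⟩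

/-- The trace form. -/
def bil (x y : O) : ℤ := 2 * x.re * y.re - x.re * y.im - x.im * y.re + 2 * x.im * y.im

/-- The symplectic form. -/
def sp (x y : O) : ℤ := x.im * y.re - x.re * y.im

/-- The inverse Fourier transform. -/
noncomputable def iFT (M : ℕ) (ψ : O → ℂ) (x : O) : ℂ := FT M ψ x / M ^ 2

/-- The coefficients of a theta series with rational characteristics. -/
noncomputable def cf (M : ℕ) (c d : ℤ) (x A : O) : ℂ :=
  if (M : O) ∣ A - c * x then q1 (d * (bil A x - c * nm x : ℤ) / M ^ 2) else 0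

/-- The coefficient of the section without the weight of the row. -/
noncomputable def ph (M : ℕ) (a : O → ℂ) (c d : ℤ) (A : O) : ℂ :=
  sm M fun x => a x * cf M c d x A

/-- The weight of a row. -/
noncomputable def Wt (c d : ℤ) : ℂ := if ¬ 3 ∣ c ∧ 7 ∣ c then conj (CL.toC (ep d)) else 0

/-- The section. -/
noncomputable def sec (M : ℕ) (a : O → ℂ) : Y2.An.Sec :=
  ⟨M ^ 2, fun n c d => Wt c d * ∑ A ∈ CL.reps n, ph M a c d A⟩

/-- The Fourier transform in the second entry of the row, at one element. -/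
noncomputable def lamA (M : ℕ) (a : O → ℂ) (c l : ℤ) (A : O) : ℂ :=
  (∑ d ∈ range (M ^ 2), Wt c d * ph M a c d A * q1 (d * l / M ^ 2)) / M ^ 2

/-- The coefficients at the cusp `1 / 7`. -/
noncomputable def tk (M : ℕ) (a : O → ℂ) (k m : ℕ) : ℂ :=
  Wt (-7 * k) k / CL.toC th * ∑ y ∈ CL.reps m, FT M a (k * y)

/-- The level and the character. -/
noncomputable def levY : Y2.An.Lev := ⟨21, 1, fun g => CL.toC (nb (g 1 1))⟩

/-- The matrix of the cusp `1 / 7`. -/
def g7 : SL(2, ℤ) := ⟨!![-6, 1; -7, 1], by simp⟩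

/-- Periodic functions that are odd at three. -/
structure Adm (M : ℕ) (a : O → ℂ) : Prop where
  pos : 0 < M
  lev : 21 ∣ M
  per : Per M a
  odd : ∃ (k M' : ℕ) (u : ℤ), M = 3 ^ k * M' ∧ ¬ 3 ∣ M' ∧ (M' : ℤ) ^ 2 ∣ u - 1 ∧
    (M : ℤ) ^ 2 ∣ u ^ 2 - 1 ∧ ∀ x, a (u * x) = -a x

variable {M : ℕ} {f a : O → ℂ} {c d : ℤ} {z : ℂ}

theorem per_of_dvd (hf : Per M f) {x y : O} (h : (M : O) ∣ x - y) : f x = f y := by
  obtain ⟨γ, e⟩ := h
  rw [← hf y γ, ← e, add_sub_cancel]

theorem FT_eq (M : ℕ) (f : O → ℂ) (ξ : O) :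
    FT M f ξ = sm M fun x => f x * q1 ((sp x ξ : ℤ) / M) := by
  simp only [FT, sm, q1, sp, mul_div_assoc]

theorem sm_congr {g : O → ℂ} (h : ∀ x, f x = g x) : sm M f = sm M g := by rw [funext h]

theorem sm_mul_left (t : ℂ) : sm M (fun x => t * f x) = t * sm M f := by
  simp only [sm, mul_sum]

theorem sm_sub (f g : O → ℂ) : sm M (fun x => f x - g x) = sm M f - sm M g := by
  simp only [sm, sum_sub_distrib]

theorem sm_neg : sm M (fun x => -f x) = -sm M f := by simp only [sm, sum_neg_distrib]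

theorem sm_comm (F : O → O → ℂ) {N : ℕ} :
    sm M (fun x => sm N fun y => F x y) = sm N fun y => sm M fun x => F x y := by
  simp only [sm]
  exact (sum_congr rfl fun _ _ => sum_comm.trans (sum_congr rfl fun _ _ => sum_comm)).trans
    (sum_comm.trans (sum_congr rfl fun _ _ => sum_comm))

theorem norm_sm_le {B : O → ℝ} (h : ∀ x, ‖f x‖ ≤ B x) :
    ‖sm M f‖ ≤ ∑ x ∈ range M, ∑ y ∈ range M, B ⟨x, y⟩ :=
  norm_sum_le_of_le _ fun _ _ => norm_sum_le_of_le _ fun _ _ => h _

theorem hasSum_sm {ι : Type} {F : O → ι → ℂ} (h : ∀ x, HasSum (F x) (f x)) :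
    HasSum (fun i => sm M fun x => F x i) (sm M f) :=
  hasSum_sum fun _ _ => hasSum_sum fun _ _ => h _

/-- Sums over residues are invariant under permutations of the residues. -/
theorem sm_perm (hM : 0 < M) (hf : Per M f) {σ : O → O}
    (hσ : ∀ x y, (M : O) ∣ σ x - σ y → (M : O) ∣ x - y) : sm M (fun x => f (σ x)) = sm M f := by
  have M0 : (0 : ℤ) < M := by exact_mod_cast hM
  let r : O → ℕ × ℕ := fun x => ((x.re % M).toNat, (x.im % M).toNat)
  have e1 : ∀ t : ℤ, ((t % M).toNat : ℤ) = t % M := fun t =>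
    Int.toNat_of_nonneg (Int.emod_nonneg _ M0.ne')
  have h1 : ∀ x : O, (M : O) ∣ x - ⟨(r x).1, (r x).2⟩ := fun x => by
    rw [CL.nat_dvd]
    simp only [r, e1, QuadraticAlgebra.re_sub, QuadraticAlgebra.im_sub]
    exact ⟨Int.dvd_self_sub_emod, Int.dvd_self_sub_emod⟩
  have h2 : ∀ x : O, r x ∈ range M ×ˢ range M := fun x => by
    have := Int.emod_lt_of_pos x.re M0
    have := Int.emod_lt_of_pos x.im M0
    simp only [r, mem_product, mem_range]
    omega
  have key : ∀ s t : ℕ, s < M → t < M → (M : ℤ) ∣ s - t → s = t := fun s t hs ht h => by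
    have := Int.eq_zero_of_abs_lt_dvd h (by rw [abs_lt]; omega)
    omega
  rw [sm, sm, ← sum_product', ← sum_product']
  have inj : Set.InjOn (fun v : ℕ × ℕ => r (σ ⟨v.1, v.2⟩)) (range M ×ˢ range M : Finset _) := by
    intro v hv w hw e
    have h3 := dvd_sub (h1 (σ ⟨v.1, v.2⟩)) (h1 (σ ⟨w.1, w.2⟩))
    simp only at e
    rw [e, sub_sub_sub_cancel_right] at h3
    have h4 := hσ _ _ h3
    rw [CL.nat_dvd] at h4
    simp only [coe_product, Set.mem_prod, mem_coe, mem_range] at hv hw
    exact Prod.ext (key _ _ hv.1 hw.1 h4.1) (key _ _ hv.2 hw.2 h4.2)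
  have him : (range M ×ˢ range M).image (fun v : ℕ × ℕ => r (σ ⟨v.1, v.2⟩)) = range M ×ˢ range M :=
    eq_of_subset_of_card_le (fun v hv => by
      obtain ⟨w, -, rfl⟩ := mem_image.1 hv
      exact h2 _) (card_image_of_injOn inj).ge
  conv_rhs => rw [← him, sum_image inj]
  exact sum_congr rfl fun v _ => per_of_dvd hf (h1 _)

theorem sm_mul (hM : 0 < M) (hf : Per M f) {k k' : O} (h : (M : O) ∣ k' * k - 1) :
    sm M (fun x => f (k * x)) = sm M f :=
  sm_perm hM hf fun x y e => by
    rw [show x - y = k' * (k * x - k * y) - (k' * k - 1) * (x - y) by ring]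
    exact dvd_sub (e.mul_left _) (h.mul_right _)

theorem sm_add (hM : 0 < M) (hf : Per M f) (t : O) : sm M (fun x => f (x + t)) = sm M f :=
  sm_perm hM hf fun x y e => by rwa [add_sub_add_right_eq_sub] at e

theorem norm_eq_bil (x : O) : 2 * nm x = bil x x := by rw [nm, bil]; ring

theorem nm_add (x y : O) : nm (x + y) = nm x + nm y + bil x y := by
  simp only [nm, bil, QuadraticAlgebra.re_add, QuadraticAlgebra.im_add]
  ring

theorem bil_comm (x y : O) : bil x y = bil y x := by rw [bil, bil]; ring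

theorem sp_comm (x y : O) : sp x y = -sp y x := by rw [sp, sp]; ring

theorem bil_th (x y : O) : bil x (th * y) = 3 * sp x y := by
  simp [bil, sp, th]
  ring

theorem norm_cf_le (x A : O) : ‖cf M c d x A‖ ≤ 1 := by
  rw [cf]
  split_ifs
  · rw [norm_q1, Real.exp_le_one_iff]
    norm_cast
    simp
  · simp

theorem two_re (x y : O) : 2 * (CL.toC x * conj (CL.toC y)).re = bil x y := by
  have h := congrArg (Int.cast : ℤ → ℝ) (nm_add x y)
  push_cast at h
  rw [← CL.normSq_toC, ← CL.normSq_toC, ← CL.normSq_toC, map_add, normSq_add] at h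
  linarith

theorem thE_rat (hM : 0 < M) {r : ℂ} {n : ℕ} (hr : normSq r = n) (hn : 0 < n) (c d : ℤ)
    (x y : O) {t : O} (ht : CL.toC t = r) (z : ℂ) :
    thE 0 (CL.toC y / r) (c * CL.toC x / M) (d * CL.toC x / M) z =
      q1 (d * (bil (M * y + c * t * x) (t * x) - c * n * nm x : ℤ) / (n * M ^ 2)) *
        q1 (nm (M * y + c * t * x) * z / (n * M ^ 2)) := by
  have M0 : (M : ℝ) ≠ 0 := by exact_mod_cast hM.ne'
  have n0 : (n : ℝ) ≠ 0 := by exact_mod_cast hn.ne'
  have M1 : (M : ℂ) ≠ 0 := by exact_mod_cast hM.ne'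
  have n1 : (n : ℂ) ≠ 0 := by exact_mod_cast hn.ne'
  have r0 : r ≠ 0 := fun e => n0 (by rw [← hr, e, map_zero])
  have r1 : conj r ≠ 0 := (map_ne_zero _).2 r0
  have e1 : CL.toC y / r + c * CL.toC x / M = CL.toC (M * y + c * t * x) / (r * M) := by
    simp only [map_add, map_mul, map_natCast, map_intCast, ht]
    field_simp
  have e2 : (CL.toC y / r + c * CL.toC x / M / 2) * conj (d * CL.toC x / M) =
      (d / (n * M ^ 2) : ℝ) * (CL.toC (M * y + c * t * x) * conj (CL.toC (t * x))) -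
        (c * d * nm x / (2 * M ^ 2) : ℝ) := by
    have := mul_conj r
    rw [hr, ofReal_natCast] at this
    rw [← CL.normSq_toC]
    push_cast
    simp only [map_add, map_mul, map_natCast, map_intCast, map_div₀, ht, ← mul_conj, ← this]
    field_simp
    ring
  rw [thE, pow_zero, one_mul, ← q1_add, e1, e2, map_div₀, map_mul, CL.normSq_toC, hr,
    normSq_natCast, sub_re, re_ofReal_mul, ofReal_re, mul_sub, mul_left_comm (2 : ℝ), two_re]
  congr 1
  push_cast
  field_simp
  ring

theorem hasSum_cf (hM : 0 < M) (hz : 0 < z.im) (c d : ℤ) (x : O) :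
    HasSum (fun A : O => cf M c d x A * q1 (nm A * z / M ^ 2))
      (Th2 0 1 0 (c * CL.toC x / M) (d * CL.toC x / M) z) := by
  have M0 : (M : O) ≠ 0 := by exact_mod_cast hM.ne'
  have inj : Function.Injective fun b : O => M * b + c * x :=
    fun b b' e => mul_left_cancel₀ M0 (add_right_cancel e)
  refine (inj.hasSum_iff fun A hA => ?_).1
    ((hasSum_Th0 zero_le_one hz 1 _ _).congr_fun fun b => ?_)
  · rw [cf, if_neg, zero_mul]
    rintro ⟨b, e⟩
    exact hA ⟨b, by linear_combination -e⟩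
  · have := thE_rat hM (r := 1) (n := 1) (by simp) one_pos c d x b (map_one _) z
    simp only [div_one, mul_one, one_mul, Nat.cast_one] at this
    rw [Function.comp, cf, if_pos ⟨b, by ring⟩, one_mul, this]

theorem cf_per (hM : 0 < M) (c d : ℤ) (A : O) : Per M fun x => cf M c d x A := fun x γ => by
  have M0 : (M : ℂ) ≠ 0 := by exact_mod_cast hM.ne'
  simp only [cf]
  rw [show A - c * (x + M * γ) = A - c * x - M * (c * γ) by ring]
  refine if_ctx_congr (dvd_sub_left (dvd_mul_right _ _)) (fun ⟨β, hβ⟩ => ?_) fun _ => rfl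
  obtain rfl : A = c * x + M * β := by linear_combination hβ
  refine q1_congr (d * (bil β γ - c * nm γ)) ?_
  simp [bil, nm]
  field_simp
  ring

theorem card_reps_pow {p a : ℕ} (hp : p.Prime) (ha : ¬ p ∣ a) (k : ℕ) :
    (CL.reps (p ^ k * a)).card ≤ (k + 1) * (CL.reps a).card := by
  have h1 : ∀ α β : O, (fun _ => (1 : O)) (α * β) = (fun _ => 1) α * (fun _ => 1) β :=
    fun _ _ => (one_mul 1).symm
  have e : ∀ j, p ^ (j + 1) * a = p * (p ^ j * a) := fun j => by ring
  have hd : ∀ j, p ∣ p ^ (j + 1) * a := fun j => e j ▸ dvd_mul_right _ _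
  have hq : ∀ j, p ^ (j + 1) * a / p = p ^ j * a := fun j => by
    rw [e, Nat.mul_div_cancel_left _ hp.pos]
  rcases (by omega : p % 3 = 0 ∨ p % 3 = 1 ∨ p % 3 = 2) with h4 | h4 | h4
  · obtain rfl : 3 = p :=
      (Nat.prime_dvd_prime_iff_eq Nat.prime_three hp).1 (Nat.dvd_of_mod_eq_zero h4)
    refine le_trans (le_of_eq ?_) (Nat.le_mul_of_pos_left _ k.succ_pos)
    induction k with
    | zero => simp
    | succ k ih =>
      have h := CL.f3_div (ψ := fun _ => 1) h1 three_ne_zero (w := th) (by decide) (3 ^ k * a)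
      rw [filter_true_of_mem fun α hα => th_dvd.2 (CL.three_dvd_nm.1
        ⟨(3 ^ k * a : ℕ), by rw [mem_reps.1 hα]; push_cast; ring⟩)] at h
      rw [e, ← ih]
      simpa using h
  · obtain ⟨z, hz, -⟩ := CL.f3_exists hp h4
    have h := fun n => CL.f3_one (ψ := fun _ => 1) h1 hp h4 hz n
    suffices H : (CL.reps (p ^ k * a)).card = (k + 1) * (CL.reps a).card ∧
        (CL.reps (p ^ (k + 1) * a)).card = (k + 2) * (CL.reps a).card from H.1.le
    induction k with
    | zero =>
      have h0 := h a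
      simp only [if_neg ha, sum_const, nsmul_eq_mul, mul_one, add_zero, one_add_one_eq_two] at h0
      exact ⟨by simp, by rw [zero_add, pow_one]; exact_mod_cast h0⟩
    | succ k ih =>
      have h0 := h (p ^ (k + 1) * a)
      simp only [if_pos (hd k), hq, ← e, sum_const, nsmul_eq_mul, mul_one, one_mul,
        one_add_one_eq_two] at h0
      have h5 : (CL.reps (p ^ (k + 1 + 1) * a)).card + (CL.reps (p ^ k * a)).card =
        2 * (CL.reps (p ^ (k + 1) * a)).card := by exact_mod_cast h0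
      exact ⟨ih.2, by rw [ih.1, ih.2] at h5; nlinarith⟩
  · have h := fun n => CL.f3_three (ψ := fun _ => 1) h1 hp h4 n
    refine le_trans ?_ (Nat.le_mul_of_pos_left _ k.succ_pos)
    suffices H : (CL.reps (p ^ k * a)).card ≤ (CL.reps a).card ∧
        (CL.reps (p ^ (k + 1) * a)).card ≤ (CL.reps a).card from H.1
    induction k with
    | zero =>
      have h0 := h a
      simp only [if_neg ha, sum_const, nsmul_eq_mul, mul_one, Nat.cast_eq_zero] at h0
      exact ⟨by simp, by rw [zero_add, pow_one, h0]; exact Nat.zero_le _⟩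
    | succ k ih =>
      have h0 := h (p ^ (k + 1) * a)
      simp only [if_pos (hd k), hq, ← e, sum_const, nsmul_eq_mul, mul_one, one_mul,
        Nat.cast_inj] at h0
      exact ⟨ih.2, h0 ▸ ih.1⟩

theorem card_reps_le (n : ℕ) (hn : n ≠ 0) : (CL.reps n).card ≤ 6 * n.divisors.card := by
  induction n using Nat.recOnPrimePow with
  | zero => exact absurd rfl hn
  | one => decide +kernel
  | prime_pow_mul a p k hp ha hk ih =>
    have a0 : a ≠ 0 := fun e => ha (e ▸ dvd_zero p)
    rw [Nat.Coprime.card_divisors_mul (Nat.Coprime.pow_left _ (hp.coprime_iff_not_dvd.2 ha)),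
      Nat.divisors_prime_pow hp, card_map, card_range]
    nlinarith [card_reps_pow hp ha k, ih a0]

theorem reps_zero : CL.reps 0 = {0} := by
  ext x
  simp [mem_reps, CL.nm_eq_zero]

theorem card_reps_rpow {ε : ℝ} (hε : 0 < ε) :
    ∃ C : ℝ, 0 ≤ C ∧ ∀ n : ℕ, ((CL.reps n).card : ℝ) ≤ C * (1 + n : ℝ) ^ ε := by
  obtain ⟨C, hC, H⟩ := fdivisor_bound hε
  refine ⟨6 * C, by positivity, fun n => ?_⟩
  rcases eq_or_ne n 0 with rfl | hn
  · rw [reps_zero]
    simp
    linarith
  · have h1 : ((CL.reps n).card : ℝ) ≤ 6 * n.divisors.card := by exact_mod_cast card_reps_le n hn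
    have h2 : (n : ℝ) ^ ε ≤ (1 + n : ℝ) ^ ε := by gcongr; linarith
    nlinarith [H n hn]

end Pool.Agent.Lib.MP_696deb_nt.Y3
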