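import Pool.Agent.Lib.MP_696deb_nt.Y3.GC2
import Pool.Agent.Lib.MP_696deb_nt.Y3.G0
import Pool.Agent.Lib.MP_696deb_nt.Y3.D3
import Pool.Agent.Lib.MP_696deb_nt.Y3.P0

/-! The archimedean pairing as a limit of sums over pairs of Eisenstein integers. -/

set_option autoImplicit false

open Complex Finset Filter Topology CongruenceSubgroup
open UpperHalfPlane hiding I
open scoped Classical MatrixGroups ComplexConjugate

namespace Pool.Agent.Lib.MP_696deb_nt.Y3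

open CL (O nm wC)

variable {m : ℕ}

theorem gc_gr {z w : ℍ} (h : crvY.Sep z w) : crvY.gr (uu z) (uu w) = Gr (uu z) (uu w) := by
  rw [gc2_roots]
  refine sum_congr rfl fun ζ hζ => ?_
  rw [gc2_log fun k => ?_]
  · rfl
  obtain ⟨g, hg, e⟩ := (crvY_ok.mem_iff' ((Y2.An.mem_mu (by decide)).1 hζ) z w).1 k
  exact e.elim (fun e => (h g hg).1 e.2) fun e => (h g hg).2 e.2

theorem gc_green {i j : ℕ} {z w : ℍ} (hz : ET i z) (hw : ET j w) (h : i < j) :
    (∀ ε : ℝ, 0 < ε → HasSum (fun g : Gamma0 21 => levY.ξ g *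
      kerK ε (Real.cosh (dist z ((g : SL(2, ℤ)) • w)))) (levY.gsum z w ε)) ∧
    Tendsto (levY.gsum z w) (𝓝[>] 0)
      (𝓝 (-(Gr (uu z) (uu w) + Gr (uu (-conj (z : ℂ))) (uu (-conj (w : ℂ)))))) := by
  have hs : crvY.Sep z w := hz.sep hw h rfl WR_smul
  obtain ⟨h1, h2⟩ := greenY z w (hw.fr rfl WR_smul) hs
  refine ⟨fun ε hε => Summable.hasSum (.of_norm_bounded (h1 ε hε) fun g => ?_), ?_⟩
  · rw [norm_mul, levY_ok.norm _ g.2, one_mul, norm_real, Real.norm_of_nonneg (kerK_nonneg _ _)]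
  · have e := gc_gr (crvY_ok.sep_J hs)
    rw [coe_J_smul, coe_J_smul] at e
    rw [← gc_gr hs, ← e]
    exact h2

theorem gc_det (γ : Gamma0 21) : ∃ c : ℤ, γ.1 1 0 = 21 * c ∧
    γ.1 0 0 * γ.1 1 1 - γ.1 0 1 * (21 * c) = 1 :=
  (gc1_dvd γ).imp fun _ e => ⟨e, e ▸ g1_det γ.1⟩

theorem w0_hkM (γ : Gamma0 21) (x : Σ _ : ℕ × ℕ, ℕ) :
    w0 (((γ : SL(2, ℤ)) : MZ) * hkM x) = nb x.1.1 * star (nb (γ.1 1 1)) := by
  obtain ⟨c, e, h⟩ := gc_det γ
  have h1 := w0_gamma h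
  rw [← e, ← Matrix.eta_fin_two] at h1
  rw [w0_mul_left (gc1_dvd γ) (by rw [Matrix.SpecialLinearGroup.det_coe]; exact isCoprime_one_left),
    hkM, ut, w0_ut, h1, mul_comm, Int.cast_natCast]

theorem gc_tri {g : MZ} (h : Tri g) (hd : g.det = 1) {τ p : ℂ} (hτ : 0 < τ.im) :
    Gr (uu (act g τ)) p = Gr (uu τ) p := by
  obtain ⟨c, hc⟩ := h.c
  obtain ⟨a, ha⟩ := h.a
  rw [Matrix.det_fin_two, hc] at hd
  have e := uu_mob hd hτ
  rw [nb_congr (b := 1) ⟨c * g 0 1 - a * g 1 1, by linear_combination hd - g 1 1 * ha⟩,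
    Int.cast_one, nb_one, map_one, one_mul] at e
  rw [act, hc, ← gc2_left (p := uu τ) e, add_sub_cancel]

/-- The Green function summed over the points of a Hecke correspondence. -/
noncomputable def gcA (m : ℕ) (p τ : ℂ) : ℂ :=
  ∑ x : HI m, CL.toC (nb x.1.1.1) * conj (Gr p (uu (act (hkM x) τ)))

theorem gcA_mir (hm : m.Coprime 21) {t : MZ} (h : Tri t) (hd : t.det = 1) {σ τ : ℂ}
    (hτ : 0 < τ.im) (e : -conj σ = act t τ) (p : ℂ) :
    ∑ x : HI m, CL.toC (nb x.1.1.1) * conj (Gr p (uu (-conj (act (hkM x) σ)))) = gcA m p τ := by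
  have m0 : (0 : ℤ) < m := by exact_mod_cast gc1_pos hm
  have k := sum_mir hm (H := fun g => CL.toC (w0 g) * conj (Gr p (uu (act g τ)))) (fun γ x => by
    obtain ⟨c, e1, e2⟩ := gc_det γ
    have h1 := act_pos (M := hkM x) (hkM_det x ▸ m0) hτ
    have h2 := uu_mob e2 h1
    obtain ⟨h3, h4⟩ := nb_six (a := γ.1 1 1) ⟨γ.1 0 0, -(γ.1 0 1 * c), by linear_combination e2⟩
    have h5 := gc2_unit (p := p) (z := uu (act (hkM x) τ)) (one_pow 6) h3
    rw [map_one, one_mul, one_mul] at h5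
    rw [w0_hkM, act_mul _ (hkM_det x ▸ m0.ne') hτ, act.eq_1 (γ.1 : MZ), e1,
      ← add_sub_cancel (CL.toC (nb (γ.1 1 1)) * uu (act (hkM x) τ)) (uu (mob _ _ _ _ _)),
      gc2_right h2, h5, map_mul conj, ← CL.toC_star, star_star, ← mul_assoc, ← map_mul,
      mul_assoc, h4, mul_one, hkM, ut, w0_ut, Int.cast_natCast]) hd h.c
  refine Eq.trans (sum_congr rfl fun x _ => ?_) (k.trans (sum_congr rfl fun x _ => by
    rw [hkM, ut, w0_ut, Int.cast_natCast]))
  have e1 : !![-1, 0; 0, 1] * hkM x * !![-1, 0; 0, 1] = !![(x.1.1.1 : ℤ), -x.1.2; 0, x.1.1.2] := by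
    simp [hkM, ut]
  rw [w0_mul_right h.c (hd ▸ isCoprime_one_left), h.w0, one_mul, act_mul _ (hd ▸ one_ne_zero) hτ,
    ← e, e1, w0_ut, Int.cast_natCast]
  congr 4
  simp [hkM, ut, act, mob, ← neg_div, add_comm]

namespace Dat

variable (d : Dat)

theorem gc_inj {u' : O} (hu' : u' ∈ d.U) {b : Fin 3} {g g' : MZ}
    (h : (3 * d.N : ℤ) • (g * d.By u' b) = (3 * d.N : ℤ) • (g' * d.By u' b)) : g = g' := by
  have n : (3 * d.N : ℤ) ≠ 0 := mul_ne_zero (by norm_num) d.N_ne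
  have h1 := congrArg (· * (d.By u' b).adjugate) (smul_right_injective _ n h)
  simp only [mul_assoc, Matrix.mul_adjugate, mul_smul_comm, mul_one] at h1
  exact smul_right_injective _ (d.By_det hu' b ▸ n) h1

theorem gc_inj' {u α β γ δ : O} (hu : u ∈ d.U)
    (h : d.Bx u * mb (CL.th * α) (CL.th * β) = d.Bx u * mb (CL.th * γ) (CL.th * δ)) :
    (α, β) = (γ, δ) := by
  have h1 := congrArg ((d.Bx u).adjugate * ·) h
  simp only [← mul_assoc, Matrix.adjugate_mul, smul_mul_assoc, one_mul] at h1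
  obtain ⟨a, b⟩ := mb_inj (smul_right_injective _ (d.Bx_det hu ▸ d.N_ne) h1)
  rw [mul_left_cancel₀ (by decide) a, mul_left_cancel₀ (by decide) b]

theorem gc_ET (hm : m.Coprime 21) {u : O} (hu : u ∈ d.U) (b : Fin 3) (x : HI m) :
    ET (d.lv + 1) (act (hkM x) (d.ty u b)) :=
  (d.ET_ty hu b).act (by rw [hkM_det]; exact_mod_cast gc1_pos hm)
    (by rw [hkM_det]; exact Nat.isCoprime_iff_coprime.2 hm) (by simp [hkM, ut])

theorem gc_pair (hm : m.Coprime 21) {u u' : O} (hu : u ∈ d.U) (hu' : u' ∈ d.U) (b : Fin 3) {z : ℍ}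
    (hz : (z : ℂ) = d.tx u) {w : HI m → ℍ} (hw : ∀ x, (w x : ℂ) = act (hkM x) (d.ty u' b))
    {ε : ℝ} (hε : 0 < ε) :
    HasSum (fun k : ℕ => (∑ A ∈ CL.reps (d.mu m + k), ∑ β ∈ CL.reps k,
      CL.toC (d.Phi0 u u' b A β)) * kerK ε ((d.mu m + 2 * k) / d.mu m))
      (∑ x : HI m, CL.toC (nb x.1.1.1) * conj (levY.gsum z (w x) ε)) := by
  have m0 := gc1_pos hm
  have N0 := d.pos
  have hy := d.ty_pos hu' b
  have n3 : (3 * d.N : ℤ) ≠ 0 := mul_ne_zero (by norm_num) d.N_ne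
  have hB : (d.By u' b).det ≠ 0 := d.By_det hu' b ▸ n3
  set K : MZ → ℝ := fun g => kerK ε (Real.cosh (dist z (ofComplex (act g (d.ty u' b))))) with hK
  have h1 := hasSum_hecke hm (F := fun g => CL.toC (w0 g) * K g)
    (a := fun x => CL.toC (nb x.1.1.1) * conj (levY.gsum z (w x) ε)) fun x => by
      have k1 := ((gc_green (hz ▸ d.ET_tx hu) (hw x ▸ d.gc_ET hm hu' b x)
        (Nat.lt_succ_self _)).1 ε hε).star.mul_left (CL.toC (nb x.1.1.1))
      refine k1.congr_fun fun γ => ?_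
      simp only [hK]
      rw [w0_hkM, act_mul _ (by rw [hkM_det]; exact_mod_cast m0.ne') hy, ← hw, act, ← g1_smul,
        ofComplex_apply, star_mul', map_mul, CL.toC_star, mul_assoc]
      simp [levY]
  choose α β hp using d.exists_pair hu u' b
  have hi : Function.Injective fun g => (α g, β g) := fun g g' e => d.gc_inj hu' (by
    rw [hp, hp, (Prod.mk.inj e).1, (Prod.mk.inj e).2])
  have n3' : ∀ a : O, nm (CL.th * a) = 3 * nm a := fun a => by rw [CL.nm_mul]; rfl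
  have h2 := hasSum_reps (μ := d.mu m) (f := fun A B => CL.toC (d.Phi0 u u' b A B) *
      kerK ε ((nm A + nm B) / (nm A - nm B))) ((hi.hasSum_iff fun v hv => by
    refine ite_eq_right_iff.2 fun _ => mul_eq_zero_of_left ?_ _
    by_contra k
    obtain ⟨g, hg⟩ := d.Phi0_ne hu' fun e => k (by rw [e, map_zero])
    exact hv ⟨g, d.gc_inj' hu ((hp g).symm.trans hg)⟩).1 (h1.congr_fun fun g => by
    have k1 := d.pair_det hu hu' (hp g)
    simp only [Function.comp_apply, d.Phi0_eq hu' (hp g)]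
    by_cases k2 : g.det = m
    · have k3 : nm (CL.th * β g) < nm (CL.th * α g) := by
        rw [n3', n3', ← sub_pos, ← mul_sub, k1, k2]
        positivity
      have k4 : 0 < (act g (d.ty u' b)).im := act_pos (by rw [k2]; exact_mod_cast m0) hy
      have k6 := cosh_mb (by rw [d.Bx_det hu]; exact_mod_cast N0) k3 hz
        (w := ofComplex (act g (d.ty u' b))) (by
          rw [← hp, act_smul n3, act_mul _ hB d2_wC, ofComplex_apply_of_im_pos k4]
          rfl)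
      simp only [n3', Int.cast_mul, Int.cast_ofNat, ← mul_add, ← mul_sub,
        mul_div_mul_left _ _ (three_ne_zero' ℝ)] at k6
      rw [if_pos (show nm (α g) - nm (β g) = d.mu m by rw [k1, k2, mu]; push_cast; rfl), ← k6]
      split_ifs with k5
      · rfl
      · rw [w0, if_neg fun e => k5 ⟨k2, e⟩, map_zero, zero_mul]
    · rw [if_neg fun e => k2 (mul_left_cancel₀ d.d3_k ?_), if_neg fun e => k2 e.1]
      rw [← k1, e, mu]
      push_cast
      rfl))
  refine h2.congr_fun fun k => ?_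
  rw [sum_mul]
  refine sum_congr rfl fun A hA => ?_
  rw [sum_mul]
  refine sum_congr rfl fun B hB => ?_
  rw [CL.mem_reps.1 hA, CL.mem_reps.1 hB]
  congr 3
  push_cast
  ring

theorem gc_arch (hm : m.Coprime 21) : conj (d.FX.arch (d.FY.hk m)) = ∑ u ∈ d.U, ∑ u' ∈ d.U,
    ∑ b : Fin 3, CL.toC (star (d.kap u) * d.kap u') * gcA m (uu (d.tx u)) (d.ty u' b) := by
  rw [Fam.arch, map_sum, ← sum_coe_sort d.U]
  refine sum_congr rfl fun u _ => ?_
  rw [map_sum, Fintype.sum_prod_type, Fintype.sum_prod_type, ← sum_coe_sort d.U]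
  refine sum_congr rfl fun u' _ => sum_congr rfl fun b _ => ?_
  rw [gcA, mul_sum]
  refine sum_congr rfl fun x _ => ?_
  have k : (nb x.1.1.1 * d.kap u') ^ 6 = 1 := by
    have c := nb_six (a := x.1.1.1) (Nat.isCoprime_iff_coprime.2
      (Nat.Coprime.coprime_mul_right ((gc1_mem.1 x.2).1.1.symm ▸ hm)))
    rw [mul_pow, d.kap_six (d.cop u'.2), mul_one, ← Int.cast_natCast, c.1]
  rw [Fam.z, Fam.z, tb_FX, tb_hk]
  refine (congrArg conj (gc2_unit (d.kap_six (d.cop u.2)) k)).trans ?_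
  simp only [map_mul, ← CL.toC_star, star_star, hkM, ut, act_of, mob, Int.cast_natCast,
    Int.cast_zero, zero_mul, zero_add]
  ring

theorem gc_cmp (hm : m.Coprime 21) : conj (d.cmp.FX.arch (d.cmp.FY.hk m)) = ∑ u ∈ d.U, ∑ u' ∈ d.U,
    ∑ b : Fin 3, CL.toC (star (d.kap u) * d.kap u') * ∑ x : HI m, CL.toC (nb x.1.1.1) *
      conj (Gr (uu (-conj (d.tx u))) (uu (-conj (act (hkM x) (d.ty u' b))))) := by
  rw [d.cmp.gc_arch hm, cmp_U, ← d.sum_cj]
  refine sum_congr rfl fun u hu => ?_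
  rw [← d.sum_cj]
  refine sum_congr rfl fun u' hu' => ?_
  rw [← Equiv.sum_comp (Equiv.neg (Fin 3))]
  refine sum_congr rfl fun b _ => ?_
  obtain ⟨g, g1, g2, g3⟩ := d.Bx_cj hu
  obtain ⟨t, t1, t2, t3⟩ := d.By_cj hu' b
  have e1 : -conj (d.tx u) = act g (d.tx (d.cj u)) := by
    rw [tx, act_conj, g3, act_mul _ (d.Bx_det (d.cj_U hu) ▸ d.N_ne) d2_wC, tx]
  have e2 : -conj (d.ty u' b) = act t (d.ty (d.cj u') (-b)) := by
    rw [ty, act_conj, t3, act_mul _ (d.By_det (d.cj_U hu') _ ▸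
      mul_ne_zero (by norm_num) d.N_ne) d2_wC, ty]
  rw [← d.kap_cj, ← d.kap_cj, d.cj_cj hu, d.cj_cj hu', e1]
  simp only [gc_tri g1 g2 (d.tx_pos (d.cj_U hu))]
  rw [gcA_mir hm t1 t2 (d.ty_pos (d.cj_U hu') _) e2]
  rfl

/-- The count of matrices gives the archimedean pairing. -/
theorem gc (hm : m.Coprime 21) :
    Tendsto (fun ε : ℝ => ∑' k : ℕ, (∑ A ∈ CL.reps (d.mu m + k), ∑ β ∈ CL.reps k,
      CL.toC (d.Phi A β)) * kerK ε ((d.mu m + 2 * k) / d.mu m)) (𝓝[>] 0)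
      (𝓝 (-conj (d.ar m))) := by
  obtain ⟨z, hz⟩ : ∃ z : d.U → ℍ, ∀ u, (z u : ℂ) = d.tx u := ⟨fun u => ⟨_, d.tx_pos u.2⟩, fun _ => rfl⟩
  obtain ⟨w, hw⟩ : ∃ w : d.U → Fin 3 → HI m → ℍ, ∀ u b x, (w u b x : ℂ) = act (hkM x) (d.ty u b) :=
    ⟨fun u b x => ⟨_, (d.gc_ET hm u.2 b x).pos⟩, fun _ _ _ => rfl⟩
  have h1 := tendsto_finsetSum univ fun (u : d.U) _ => tendsto_finsetSum univ
    fun (u' : d.U) _ => tendsto_finsetSum univ fun (b : Fin 3) _ => (tendsto_finsetSum univ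
      fun (x : HI m) _ => ((continuous_conj.tendsto _).comp
      (gc_green (hz u ▸ d.ET_tx u.2) (hw u' b x ▸ d.gc_ET hm u'.2 b x)
        (Nat.lt_succ_self _)).2).const_mul (CL.toC (nb x.1.1.1))).const_mul
        (CL.toC (star (d.kap u) * d.kap u'))
  refine (Eq.symm ?_ : _ = -conj (d.ar m)) ▸
    h1.congr' (eventually_mem_nhdsWithin.mono fun ε (hε : 0 < ε) => ?_)
  · rw [ar, map_add, d.gc_arch hm, d.gc_cmp hm]
    simp only [gcA, hz, hw, map_neg, map_add, mul_neg, mul_add, sum_neg_distrib, sum_add_distrib,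
      ← sum_coe_sort d.U]
  · have h2 := hasSum_sum (s := univ) fun (u : d.U) _ => hasSum_sum (s := univ)
      fun (u' : d.U) _ => hasSum_sum (s := univ) fun (b : Fin 3) _ =>
        (d.gc_pair hm u.2 u'.2 b (hz u) (hw u' b) hε).mul_left (CL.toC (star (d.kap u) * d.kap u'))
    refine h2.tsum_eq.symm.trans (tsum_congr fun k => ?_)
    simp only [← mul_assoc, ← sum_mul, Phi, map_sum, mul_sum, ← map_mul]
    congr 1
    simp only [← sum_coe_sort d.U, ← Fintype.sum_prod_type']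
    exact sum_comm.trans (sum_congr rfl fun _ _ => sum_comm)

end Dat

end Pool.Agent.Lib.MP_696deb_nt.Y3
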