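import Pool.Agent.Lib.MP_696deb_nt.Y3.HT4
import Pool.Agent.Lib.MP_696deb_nt.Y3.G0

/-! The height side of the Gross-Zagier formula. -/

set_option autoImplicit false

open scoped Classical
open Finset

namespace Pool.Agent.Lib.MP_696deb_nt.Y3.Dat

variable (d : Dat) {p : ℕ}

/-- The canonical height of the sum of the points of the first family. -/
noncomputable def hgt : ℝ := HT.ht (∑ u, d.FX.pt u)

theorem hgt_nonneg : 0 ≤ d.hgt := HT.ht_nonneg _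

theorem ht_side (hp : p.Prime) :
    (p % 3 ≠ 2 → 9 * d.hgt + 2 * (d.FX.arch (d.FY.hk 1)).re ∈ LogS p) ∧
    (p % 3 = 2 → ∃ C : ℝ, ∀ s : ℕ, ∃ ρ : ℚ, |(ρ : ℝ)| ≤ C * (s + 1) ^ 2 ∧
      9 * p ^ (6 * s) * d.hgt + 2 * (d.FX.arch (d.FY.hk (p ^ (12 * s)))).re -
        ρ * Real.log p ∈ LogS p) :=
  (fam_side d.lk d.FX_ok d.FY_ok d.M_pos d.M_pos d.FX_stable d.FY_stable d.ET_FX d.ET_FY
    (Nat.lt_succ_self _) (fun m h => by rw [d.sum_hk h, d.sum_FX]) hp).imp_left fun a h => a <| by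
      by_cases e : p % 3 = 0
      · exact .inl ((Nat.prime_dvd_prime_iff_eq Nat.prime_three hp).1
          (Nat.dvd_of_mod_eq_zero e)).symm
      · omega

theorem tors_pt (h : d.hgt = 0) : ∃ n : ℕ, 0 < n ∧ n * d.pt ∈ EW.LG.lattice :=
  d.sum_FX ▸ d.FX_ok.tors h

theorem hgt_zero (h1 : ∀ p : ℕ, p.Prime → p % 3 ≠ 2 → (d.ar 1).re ∈ LogS p)
    (h2 : ∀ p : ℕ, p.Prime → p % 3 = 2 → ∃ (C : ℝ) (k : ℕ), ∀ s : ℕ, ∃ c : ℚ,
      |(c : ℝ)| ≤ C * (s + 1) ^ k ∧ (d.ar (p ^ (12 * s))).re - c * Real.log p ∈ LogS p) :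
    d.hgt + d.cmp.hgt = 0 := by
  refine HT.zero_of fun p hp => ?_
  obtain ⟨a, b⟩ := d.ht_side hp
  obtain ⟨a', b'⟩ := d.cmp.ht_side hp
  by_cases h : p % 3 = 2
  · obtain ⟨C, hC⟩ := b h
    obtain ⟨D, hD⟩ := b' h
    obtain ⟨C', k, hC'⟩ := h2 p hp h
    refine .inr ⟨|C| + |D| + 2 * |C'|, k + 2, fun s => ?_⟩
    obtain ⟨ρ, e2, e3⟩ := hC s
    obtain ⟨ρ', f2, f3⟩ := hD s
    obtain ⟨c, c1, c2⟩ := hC' s
    refine ⟨9 * p ^ (6 * s), ρ + ρ' - 2 * c, ?_, ?_, ?_⟩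
    · have p1 : (1 : ℝ) ≤ p := by exact_mod_cast hp.one_le
      have := pow_le_pow_right₀ p1 (show s ≤ 6 * s by omega)
      push_cast
      rw [abs_of_nonneg (by positivity)]
      linarith [pow_nonneg (zero_le_one.trans p1) (6 * s)]
    · have s1 : (1 : ℝ) ≤ s + 1 := by simp
      have k1 := mul_le_mul (le_abs_self C) (pow_le_pow_right₀ s1 (Nat.le_add_left 2 k))
        (by positivity) (abs_nonneg C)
      have k3 := mul_le_mul (le_abs_self D) (pow_le_pow_right₀ s1 (Nat.le_add_left 2 k))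
        (by positivity) (abs_nonneg D)
      have k2 := mul_le_mul (le_abs_self C') (pow_le_pow_right₀ s1 (Nat.le_add_right k 2))
        (by positivity) (abs_nonneg C')
      push_cast
      refine (abs_sub _ _).trans ?_
      rw [abs_mul, abs_two]
      linarith [abs_add_le (ρ : ℝ) ρ']
    · convert sub_mem (add_mem e3 f3) (LogS.int_mul 2 c2) using 1
      rw [ar, Complex.add_re]
      push_cast
      ring
  · refine .inl ⟨9, by norm_num, ?_⟩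
    convert sub_mem (add_mem (a h) (a' h)) (LogS.int_mul 2 (h1 p hp h)) using 1
    rw [ar, Complex.add_re]
    push_cast
    ring

/-- The point has finite order if the archimedean pairings are small sums of logarithms. -/
theorem tors_of_arch (h1 : ∀ p : ℕ, p.Prime → p % 3 ≠ 2 → (d.ar 1).re ∈ LogS p)
    (h2 : ∀ p : ℕ, p.Prime → p % 3 = 2 → ∃ (C : ℝ) (k : ℕ), ∀ s : ℕ, ∃ c : ℚ,
      |(c : ℝ)| ≤ C * (s + 1) ^ k ∧ (d.ar (p ^ (12 * s))).re - c * Real.log p ∈ LogS p) :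
    ∃ n : ℕ, 0 < n ∧ n * d.pt ∈ EW.LG.lattice :=
  d.tors_pt (by linarith [d.hgt_zero h1 h2, d.hgt_nonneg, d.cmp.hgt_nonneg])

end Pool.Agent.Lib.MP_696deb_nt.Y3.Dat
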