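import Pool.Agent.Lib.MP_696deb_nt.Y3.P0
import Pool.Agent.Lib.MP_696deb_nt.Y3.C0
import Pool.Agent.Lib.MP_696deb_nt.Y3.TLt

/-! From the complex identity to a congruence for the finite parts. -/

set_option autoImplicit false

open scoped Classical NNReal ComplexConjugate
open Finset Complex

namespace Pool.Agent.Lib.MP_696deb_nt.Y3

open CL (O nm om wC Prim)

/-- The statement on the symbol. -/
def SymS (y : O → O) (ar : ℕ → ℂ) : Prop :=
  ∃ (n : ℕ) (R1 R2 : ℚ) (B : Finset ℕ), 0 < n ∧ 0 < R1 ∧ 0 < R2 ∧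
    ((Real.log R1 : ℝ) + wC * (Real.log R2 : ℝ) : ℂ) = n * ar 1 ∧
    ∀ (l : ℕ) (r z : O), l.Prime → l ∉ B → Prim r → nm r = l → z = star (y r) →
      ∃ S1 S2 : ℚ, 0 < S1 ∧ 0 < S2 ∧
        ((Real.log S1 : ℝ) + wC * (Real.log S2 : ℝ) : ℂ) = n * ar l ∧
        ∀ (Z : Type) [AddCommGroup Z] (L : ℚ → Z), Lg l L →
          L S1 = z.re • L R1 - z.im • L R2 ∧ L S2 = z.im • L R1 + (z.re - z.im) • L R2

/-- The complex identity. -/
def GzaS (S : Y2.An.Sec) (mu : ℕ → ℕ) (a : ℕ → O) (ar : ℕ → ℂ) : Prop :=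
  ∃ (c0 : ℚ) (κ : ℂ), ∀ m : ℕ, m.Coprime 21 →
    c0 * conj (ar m) = κ * CL.toC (a m) - S.fin (mu m)

/-- The coefficients have bounded denominators. -/
def RatS (S : Y2.An.Sec) : Prop :=
  ∃ den : ℕ, 0 < den ∧ ∀ n c l, ∃ e : O, den * S.lam n c l = CL.toC e

theorem SymS.congr {y y' : O → O} {ar : ℕ → ℂ} (h : SymS y ar) {M : ℕ} (hM : M ≠ 0)
    (e : ∀ r, Prim r → (nm r).natAbs.Coprime M → y' r = y r) : SymS y' ar := by
  obtain ⟨n, R1, R2, B, n0, r1, r2, e1, h⟩ := h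
  refine ⟨n, R1, R2, B ∪ M.primeFactors, n0, r1, r2, e1, fun l r z hl hB hp hr hz => ?_⟩
  rw [notMem_union] at hB
  refine h l r z hl hB.1 hp hr (by
    rw [hz, e r hp (by
      rw [hr, Int.natAbs_natCast, hl.coprime_iff_not_dvd]
      exact fun k => hB.2 (Nat.mem_primeFactors.2 ⟨hl, k, hM⟩))])

theorem p1_log {a b : ℚ} (ha : 0 < a) (hb : 0 < b) (m n : ℕ) :
    Real.log ((a ^ m * b ^ n : ℚ) : ℝ) = m * Real.log a + n * Real.log b := by
  rw [Rat.cast_mul, Rat.cast_pow, Rat.cast_pow, Real.log_mul (pow_pos (Rat.cast_pos.2 ha) _).ne'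
    (pow_pos (Rat.cast_pos.2 hb) _).ne', Real.log_pow, Real.log_pow]

theorem p1_L {Z : Type} [AddCommGroup Z] {L : ℚ → Z} (hL : TL.Ad L) {a b : ℚ} (ha : 0 < a)
    (hb : 0 < b) (m n : ℕ) : L (a ^ m * b ^ n) = (m : ℤ) • L a + (n : ℤ) • L b := by
  rw [hL _ _ (pow_pos ha _) (pow_pos hb _), ← TL.tlt_zpow hL ha, ← TL.tlt_zpow hL hb, zpow_natCast,
    zpow_natCast]

theorem SymS.add {y : O → O} {ar ar' : ℕ → ℂ} (h : SymS y ar) (h' : SymS y ar') :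
    SymS y fun m => ar m + ar' m := by
  obtain ⟨n, R1, R2, B, n0, r1, r2, e1, h⟩ := h
  obtain ⟨n', R1', R2', B', n0', r1', r2', e1', h'⟩ := h'
  refine ⟨n * n', R1 ^ n' * R1' ^ n, R2 ^ n' * R2' ^ n, B ∪ B', by positivity, by positivity,
    by positivity, ?_, fun l r z hl hB hp hr hz => ?_⟩
  · rw [p1_log r1 r1', p1_log r2 r2']
    push_cast
    linear_combination (n' : ℂ) * e1 + n * e1'
  rw [notMem_union] at hB
  obtain ⟨S1, S2, s1, s2, e2, k⟩ := h l r z hl hB.1 hp hr hz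
  obtain ⟨S1', S2', s1', s2', e2', k'⟩ := h' l r z hl hB.2 hp hr hz
  refine ⟨S1 ^ n' * S1' ^ n, S2 ^ n' * S2' ^ n, by positivity, by positivity, ?_, fun Z _ L hL => ?_⟩
  · rw [p1_log s1 s1', p1_log s2 s2']
    push_cast
    linear_combination (n' : ℂ) * e2 + n * e2'
  · rw [p1_L hL.add s1 s1', p1_L hL.add s2 s2', p1_L hL.add r1 r1', p1_L hL.add r2 r2',
      (k Z L hL).1, (k Z L hL).2, (k' Z L hL).1, (k' Z L hL).2]
    constructor <;> module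

section
variable {N : ℕ} {L : ℚ → ZMod N}

theorem p1_inv (hL : TL.Ad L) {a : ℚ} (h : 0 < a) : L a⁻¹ = -L a := by
  rw [eq_neg_iff_add_eq_zero, ← hL _ _ (inv_pos.2 h) h, inv_mul_cancel₀ h.ne', TL.tlt_one hL]

/-- Logarithms and their discrete counterparts. -/
def RL (hL : TL.Ad L) : AddSubgroup (ℂ × O) where
  carrier := {p | ∃ a b : ℚ, 0 < a ∧ 0 < b ∧ p.1 = (Real.log a : ℝ) + wC * (Real.log b : ℝ) ∧
    (p.2.re : ZMod N) = L a ∧ (p.2.im : ZMod N) = L b}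
  zero_mem' := ⟨1, 1, one_pos, one_pos, by simp, by simp [TL.tlt_one hL], by simp [TL.tlt_one hL]⟩
  add_mem' := by
    rintro p q ⟨a, b, a0, b0, e1, e2, e3⟩ ⟨c, d, c0, d0, f1, f2, f3⟩
    refine ⟨a * c, b * d, mul_pos a0 c0, mul_pos b0 d0, ?_, ?_, ?_⟩
    · rw [Prod.fst_add, e1, f1, Rat.cast_mul, Rat.cast_mul,
        Real.log_mul (Rat.cast_pos.2 a0).ne' (Rat.cast_pos.2 c0).ne',
        Real.log_mul (Rat.cast_pos.2 b0).ne' (Rat.cast_pos.2 d0).ne']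
      push_cast
      ring
    · rw [hL _ _ a0 c0, ← e2, ← f2, Prod.snd_add, QuadraticAlgebra.re_add, Int.cast_add]
    · rw [hL _ _ b0 d0, ← e3, ← f3, Prod.snd_add, QuadraticAlgebra.im_add, Int.cast_add]
  neg_mem' := by
    rintro p ⟨a, b, a0, b0, e1, e2, e3⟩
    refine ⟨a⁻¹, b⁻¹, inv_pos.2 a0, inv_pos.2 b0, ?_, ?_, ?_⟩
    · rw [Prod.fst_neg, e1, Rat.cast_inv, Rat.cast_inv, Real.log_inv, Real.log_inv]
      push_cast
      ring
    · rw [p1_inv hL a0, ← e2, Prod.snd_neg, QuadraticAlgebra.re_neg, Int.cast_neg]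
    · rw [p1_inv hL b0, ← e3, Prod.snd_neg, QuadraticAlgebra.im_neg, Int.cast_neg]

variable (hL : TL.Ad L)

theorem RL_om {p : ℂ × O} (h : p ∈ RL hL) : (wC * p.1, om * p.2) ∈ RL hL := by
  obtain ⟨a, b, a0, b0, e1, e2, e3⟩ := h
  refine ⟨b⁻¹, a * b⁻¹, inv_pos.2 b0, by positivity, ?_, ?_, ?_⟩
  · rw [e1, Rat.cast_mul, Rat.cast_inv, Real.log_mul (Rat.cast_pos.2 a0).ne'
      (inv_pos.2 (Rat.cast_pos.2 b0)).ne', Real.log_inv]
    push_cast
    linear_combination (Real.log b : ℂ) * CL.wC_sq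
  · simp [p1_inv hL b0, ← e3, om]
  · simp [hL _ _ a0 (inv_pos.2 b0), p1_inv hL b0, ← e2, ← e3, om]

theorem RL_conj {p : ℂ × O} (h : p ∈ RL hL) : (conj p.1, star p.2) ∈ RL hL := by
  obtain ⟨a, b, a0, b0, e1, e2, e3⟩ := h
  refine ⟨a * b⁻¹, b⁻¹, by positivity, inv_pos.2 b0, ?_, ?_, ?_⟩
  · rw [e1, Rat.cast_mul, Rat.cast_inv, Real.log_mul (Rat.cast_pos.2 a0).ne'
      (inv_pos.2 (Rat.cast_pos.2 b0)).ne', Real.log_inv, map_add, map_mul, conj_ofReal, conj_ofReal,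
      CL.f0_conj]
    push_cast
    ring
  · simp [hL _ _ a0 (inv_pos.2 b0), p1_inv hL b0, ← e2, ← e3]
  · simp [p1_inv hL b0, ← e3]

theorem RL_mul {p : ℂ × O} (h : p ∈ RL hL) (e : O) : (CL.toC e * p.1, e * p.2) ∈ RL hL := by
  convert add_mem (zsmul_mem h e.re) (zsmul_mem (RL_om hL h) e.im) using 1
  refine Prod.ext ?_ ?_
  · change _ = e.re • p.1 + e.im • (wC * p.1)
    simp only [zsmul_eq_mul, CL.toC_apply e]
    ring
  · change _ = e.re • p.2 + e.im • (om * p.2)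
    simp only [zsmul_eq_mul, ← mul_assoc, ← add_mul]
    congr 1
    ext <;> simp [om]

theorem RL_zero {y : O} (h : ((0 : ℂ), y) ∈ RL hL) : (N : O) ∣ y := by
  obtain ⟨a, b, a0, b0, e1, e2, e3⟩ := h
  have k : ∀ a : ℚ, 0 < a → Real.log a = 0 → L a = 0 := fun a h e => by
    have := Real.eq_one_of_pos_of_log_eq_zero (Rat.cast_pos.2 h) e
    rw [show a = 1 by exact_mod_cast this, TL.tlt_one hL]
  have hb : Real.log b = 0 := by simpa [EW.wC_im] using (congrArg im e1).symm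
  rw [k a a0 (by simpa [hb] using (congrArg re e1).symm)] at e2
  rw [k b b0 hb] at e3
  obtain ⟨u, hu⟩ := (ZMod.intCast_zmod_eq_zero_iff_dvd _ _).1 e2
  obtain ⟨v, hv⟩ := (ZMod.intCast_zmod_eq_zero_iff_dvd _ _).1 e3
  exact ⟨⟨u, v⟩, by ext <;> simpa⟩

theorem RL_fin {S : Y2.An.Sec} {den : ℕ} (h : ∀ n c l, ∃ e : O, den * S.lam n c l = CL.toC e)
    {Lz : ℕ → ℤ} (hz : ∀ k : ℕ, 0 < k → (Lz k : ZMod N) = L k) (μ : ℕ) :
    ∃ F : O, den * finL S Lz μ = CL.toC F ∧ (den * S.fin μ, F) ∈ RL hL := by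
  choose e he using h
  have k : ∀ k : ℕ, 0 < k → (((Real.log k : ℝ) : ℂ), (Lz k : O)) ∈ RL hL := fun k h =>
    ⟨k, 1, Nat.cast_pos.2 h, one_pos, by simp, by simpa using hz k h, by simp [TL.tlt_one hL]⟩
  refine ⟨∑ k ∈ range (μ + 1), ∑ x ∈ k.divisorsAntidiagonal,
    e (μ - k) x.1 x.2 * ((Lz x.2 - Lz x.1 : ℤ) : O), ?_, ?_⟩
  · simp only [finL, mul_sum, ← mul_assoc, he, map_sum, map_mul, map_intCast]
  · simp only [Y2.An.Sec.fin, mul_sum, ← mul_assoc, he]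
    rw [prod_mk_sum]
    refine sum_mem fun j _ => ?_
    rw [prod_mk_sum]
    refine sum_mem fun x hx => ?_
    have := RL_mul hL (sub_mem
      (k _ (Nat.pos_of_ne_zero (Nat.right_ne_zero_of_mem_divisorsAntidiagonal hx)))
      (k _ (Nat.pos_of_ne_zero (Nat.left_ne_zero_of_mem_divisorsAntidiagonal hx))))
      (e (μ - j) x.1 x.2)
    simpa only [Prod.mk_sub_mk, ofReal_sub, Int.cast_sub] using this

end

/-- The congruence for the finite parts. -/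
theorem fin_cong {y : O → O} {ar : ℕ → ℂ} {S : Y2.An.Sec} {mu : ℕ → ℕ} {a : ℕ → O} (a1 : a 1 = 1)
    (h1 : SymS y ar) (h2 : GzaS S mu a ar) (h3 : RatS S) :
    ∃ (T : ℕ) (B : Finset ℕ), 0 < T ∧ ∀ (l N : ℕ) (r z : O) (L : ℚ → ZMod N) (Lz : ℕ → ℤ),
      l.Prime → l ∉ B → Prim r → nm r = l → Lg l L →
      (∀ k : ℕ, 0 < k → (Lz k : ZMod N) = L k) → (N : O) ∣ y r - a l → (N : O) ∣ z - a l →
      ∃ E : O, T * (finL S Lz (mu l) - CL.toC z * finL S Lz (mu 1)) = N * CL.toC E := by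
  obtain ⟨n, R1, R2, B, n0, r1, r2, e1, h1⟩ := h1
  obtain ⟨c, κ, h2⟩ := h2
  obtain ⟨den, d0, h3⟩ := h3
  refine ⟨n * c.den * den, B ∪ Nat.primeFactors 21, by positivity,
    fun l N r z L Lz hl hB hp hr hL hz k1 k2 => ?_⟩
  rw [notMem_union] at hB
  obtain ⟨S1, S2, s1, s2, e2, k⟩ := h1 l r _ hl hB.1 hp hr rfl
  obtain ⟨k3, k4⟩ := k _ L hL
  generalize y r = y at k1 k3 k4
  obtain ⟨F1, f1, g1⟩ := RL_fin hL.add h3 hz (mu 1)
  obtain ⟨F2, f2, g2⟩ := RL_fin hL.add h3 hz (mu l)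
  obtain ⟨x1, y1⟩ := ZMod.intCast_surjective (L R1)
  obtain ⟨x2, y2⟩ := ZMod.intCast_surjective (L R2)
  have p1 := RL_conj hL.add (p := (n * ar 1, ⟨x1, x2⟩)) ⟨R1, R2, r1, r2, e1.symm, y1, y2⟩
  have p2 := RL_conj hL.add (p := (n * ar l, star y * ⟨x1, x2⟩)) ⟨S1, S2, s1, s2, e2.symm,
    by rw [k3, ← y1, ← y2]; simp, by rw [k4, ← y1, ← y2]; simp; ring⟩
  rw [star_mul', star_star] at p2
  generalize star (⟨x1, x2⟩ : O) = x at p1 p2
  have q1 := h2 1 (by decide)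
  have q2 := h2 l (hl.coprime_iff_not_dvd.2 fun e =>
    hB.2 (Nat.mem_primeFactors.2 ⟨hl, e, by decide⟩))
  have p3 := sub_mem (add_mem (RL_mul _ p2 (c.num * den)) (RL_mul _ g2 (n * c.den)))
    (RL_mul _ (add_mem (RL_mul _ p1 (c.num * den)) (RL_mul _ g1 (n * c.den))) (a l))
  simp only [Prod.mk_add_mk, Prod.mk_sub_mk, map_mul, map_natCast, map_intCast] at p3
  have c1 : (c.num : ℂ) = c * c.den := by exact_mod_cast (Rat.mul_den_eq_num c).symm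
  rw [a1, map_one] at q1
  rw [show ∀ x : ℂ, x = 0 → ∀ y : O, (x, y) = (0, y) from fun x e y => by rw [e]] at p3
  swap
  · rw [c1]
    linear_combination (n * c.den * den : ℂ) * q2 - (n * c.den * den * CL.toC (a l) : ℂ) * q1
  obtain ⟨E1, j1⟩ := RL_zero _ p3
  obtain ⟨E2, j2⟩ := k1
  obtain ⟨E3, j3⟩ := k2
  refine ⟨E1 - c.num * den * x * E2 - n * c.den * F1 * E3, ?_⟩
  have j4 : (n * c.den * (F2 - z * F1) : O) =
      N * (E1 - c.num * den * x * E2 - n * c.den * F1 * E3) := by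
    linear_combination j1 - c.num * den * x * j2 - n * c.den * F1 * j3
  have j5 := congrArg CL.toC j4
  rw [map_mul _ (N : O), map_natCast, map_mul, map_mul, map_natCast, map_natCast, map_sub, map_mul,
    ← f1, ← f2] at j5
  rw [← j5]
  push_cast
  ring

end Pool.Agent.Lib.MP_696deb_nt.Y3
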