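import Pool.Agent.Lib.MP_696deb_nt.Y3.Wb
import Pool.Agent.Lib.MP_696deb_nt.Y3.D1
import Pool.Agent.Lib.MP_696deb_nt.EW.O0

/-! Factorisation and elements of norm one. -/

set_option autoImplicit false

open Complex Finset
open scoped Real ComplexConjugate Classical

namespace Pool.Agent.Lib.MP_696deb_nt.Y3.W

open CL (O nm om op wC Per FT mem_reps)

variable {M : ℕ} {Φ : O → O → O} {a : O → ℂ}

theorem wc1_norm_dvd {x y : O} (h : x ∣ y) : nm x ∣ nm y := by
  obtain ⟨c, rfl⟩ := h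
  exact ⟨nm c, CL.nm_mul _ _⟩

theorem wc1_ne {k : ℕ} (hk : 0 < k) {z : O} (h : nm z = k) : z ≠ 0 := fun e => by
  rw [CL.nm_eq_zero.2 e] at h
  omega

theorem wc1_gcd {k : ℕ} (hk : 0 < k) {β : O} {t : ℤ} (h : nm β = k * t)
    (ht : IsCoprime t (k : ℤ)) :
    ∃ g : O, nm g = k ∧ g ∣ β ∧ ∀ z : O, nm z = k → z ∣ β → z ∣ g := by
  have h1 := IsBezout.gcd_dvd_left β (k : O)
  have h2 := IsBezout.gcd_dvd_right β (k : O)
  obtain ⟨x, y, hg⟩ := IsBezout.gcd_eq_sum β (k : O)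
  generalize IsBezout.gcd β (k : O) = g at *
  refine ⟨g, ?_, h1, fun z hz hb => hg ▸ (hb.mul_left _).add (Dvd.dvd.mul_left ⟨star z, ?_⟩ _)⟩
  · have a1 : nm g ∣ k * t := h ▸ wc1_norm_dvd h1
    have a2 : nm g ∣ k ^ 2 := CL.nm_nat k ▸ wc1_norm_dvd h2
    obtain ⟨u, v, e⟩ := ht
    have a3 : nm g ∣ k := by
      rw [show (k : ℤ) = u * (k * t) + v * k ^ 2 by linear_combination (-(k : ℤ)) * e]
      exact (a1.mul_left _).add (a2.mul_left _)
    refine Int.dvd_antisymm (CL.nm_nonneg g) (by positivity) a3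
      ⟨t * nm x + bil (x * β) y + k * nm y, ?_⟩
    rw [← hg, nm_add, CL.nm_mul, CL.nm_mul, h, CL.nm_nat,
      show bil (x * β) (y * k) = k * bil (x * β) y by simp [bil]; ring]
    ring
  · rw [CL.mul_star_self, hz, Int.cast_natCast]

theorem card_div {k : ℕ} (hk : 0 < k) {β : O} {t : ℤ} (h : nm β = k * t) (ht : IsCoprime t (k : ℤ)) :
    ((CL.reps k).filter (· ∣ β)).card = 6 := by
  obtain ⟨g, g1, g2, g3⟩ := wc1_gcd hk h ht
  have g0 := wc1_ne hk g1
  have hk' : (k : ℤ) ≠ 0 := by positivity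
  rw [← show (CL.reps 1).card = 6 by decide]
  symm
  refine card_bij (fun u _ => u * g) (fun u hu => ?_) (fun u _ v _ e => mul_right_cancel₀ g0 e)
    fun z hz => ?_
  · have hu1 : nm u = 1 := mem_reps.1 hu
    refine mem_filter.2 ⟨mem_reps.2 (by rw [CL.nm_mul, hu1, one_mul, g1]), ?_⟩
    have : u * g ∣ g := ⟨star u, by
      rw [mul_right_comm, CL.mul_star_self, hu1, Int.cast_one, one_mul]⟩
    exact this.trans g2
  · obtain ⟨z1, z2⟩ := mem_filter.1 hz
    rw [mem_reps] at z1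
    obtain ⟨c, e⟩ := g3 z z1 z2
    have hc : nm c = 1 := by
      have := congrArg nm e
      rw [CL.nm_mul, g1, z1] at this
      exact (mul_left_cancel₀ hk' (this.symm.trans (mul_one _).symm))
    refine ⟨star c, mem_reps.2 (by rw [CL.nm_star, hc, Nat.cast_one]), ?_⟩
    rw [e, mul_comm z, ← mul_assoc, mul_comm (star c), CL.mul_star_self, hc, Int.cast_one, one_mul]

theorem sum_reps_mul {k₁ k₂ : ℕ} (h1 : 0 < k₁) (h : k₁.Coprime k₂) (f : O → ℂ) :
    6 * ∑ β ∈ CL.reps (k₁ * k₂), f β = ∑ z ∈ CL.reps k₁, ∑ y ∈ CL.reps k₂, f (z * y) := by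
  have hk' : (k₁ : ℤ) ≠ 0 := by positivity
  have e1 : ∀ z ∈ CL.reps k₁, ∑ y ∈ CL.reps k₂, f (z * y) =
      ∑ β ∈ CL.reps (k₁ * k₂), if z ∣ β then f β else 0 := fun z hz => by
    rw [mem_reps] at hz
    rw [← sum_filter]
    refine sum_bij (fun y _ => z * y) (fun y hy => ?_)
      (fun u _ v _ e => mul_left_cancel₀ (wc1_ne h1 hz) e) (fun β hβ => ?_) fun _ _ => rfl
    · exact mem_filter.2 ⟨mem_reps.2 (by rw [CL.nm_mul, hz, mem_reps.1 hy, Nat.cast_mul]),
        dvd_mul_right _ _⟩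
    · obtain ⟨b1, y, rfl⟩ := mem_filter.1 hβ
      rw [mem_reps, CL.nm_mul, hz, Nat.cast_mul] at b1
      exact ⟨y, mem_reps.2 (mul_left_cancel₀ hk' b1), rfl⟩
  rw [sum_congr rfl e1, sum_comm, mul_sum]
  refine sum_congr rfl fun β hβ => ?_
  rw [← sum_filter, sum_const, card_div h1 (t := k₂) (by rw [mem_reps.1 hβ, Nat.cast_mul])
    (Nat.isCoprime_iff_coprime.2 h.symm), nsmul_eq_mul, Nat.cast_ofNat]

theorem wc1_comb (hM : 0 < M) {x y : O}
    (h : ∀ p : ℕ, p.Prime → p ∣ M → (p : ℤ) ∣ nm x → ¬ (p : ℤ) ∣ nm y) :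
    ∃ c d : ℤ, IsCoprime (nm (c * x + d * y)) (M : ℤ) := by
  let c : ℕ := ∏ p ∈ M.primeFactors.filter fun p : ℕ => (p : ℤ) ∣ nm x, p
  let d : ℕ := ∏ p ∈ M.primeFactors.filter fun p : ℕ => ¬ (p : ℤ) ∣ nm x, p
  refine ⟨c, d, ?_⟩
  rw [Int.isCoprime_iff_gcd_eq_one, Int.gcd_comm]
  refine Nat.coprime_of_dvd fun p hp hpM hn => ?_
  rw [Int.natAbs_natCast] at hpM
  rw [← Int.natCast_dvd] at hn
  have pp : Prime (p : ℤ) := Nat.prime_iff_prime_int.1 hp
  have hm : p ∈ M.primeFactors := Nat.mem_primeFactors.2 ⟨hp, hpM, hM.ne'⟩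
  have key : ∀ (P : ℕ → Prop) [DecidablePred P], p ∣ ∏ q ∈ M.primeFactors.filter P, q → P p := by
    intro P _ hd
    obtain ⟨q, hq, e⟩ := (hp.prime.dvd_finsetProd_iff _).1 hd
    obtain ⟨q1, q2⟩ := mem_filter.1 hq
    rwa [(Nat.prime_dvd_prime_iff_eq hp (Nat.prime_of_mem_primeFactors q1)).1 e]
  rw [show nm (((c : ℤ) : O) * x + ((d : ℤ) : O) * y) = c * (c * nm x) + d * (d * nm y) +
    c * d * bil x y by simp [nm, bil]; ring] at hn
  by_cases hx : (p : ℤ) ∣ nm x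
  · have pc : (p : ℤ) ∣ c := Int.natCast_dvd_natCast.2 (dvd_prod_of_mem _ (mem_filter.2 ⟨hm, hx⟩))
    have pd : ¬ (p : ℤ) ∣ d := fun e => key _ (Int.natCast_dvd_natCast.1 e) hx
    rw [dvd_add_left ((pc.mul_right _).mul_right _), dvd_add_right (pc.mul_right _)] at hn
    exact (pp.dvd_or_dvd hn).elim pd fun e => (pp.dvd_or_dvd e).elim pd (h p hp hpM hx)
  · have pd : (p : ℤ) ∣ d := Int.natCast_dvd_natCast.2 (dvd_prod_of_mem _ (mem_filter.2 ⟨hm, hx⟩))
    have pc : ¬ (p : ℤ) ∣ c := fun e => hx (key _ (Int.natCast_dvd_natCast.1 e))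
    rw [dvd_add_left ((pd.mul_left _).mul_right _), dvd_add_left (pd.mul_right _)] at hn
    exact (pp.dvd_or_dvd hn).elim pc fun e => (pp.dvd_or_dvd e).elim pc hx

theorem wc1_per {P : ℕ} {f : O → O} (hf : Per P f) {x y : O} (h : (P : O) ∣ x - y) : f x = f y := by
  obtain ⟨γ, e⟩ := h
  rw [← hf y γ, ← e, add_sub_cancel]

theorem Ker.wc1_one (h : Ker M Φ a) {s : O} (hs : (M : ℤ) ^ 2 ∣ nm s - 1)
    (h3 : (s.re + s.im) % 3 = 1) (A β : O) : Φ A (s * β) = Φ A β := by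
  obtain ⟨c, d, hc⟩ := wc1_comb (M := M) h.adm.pos (x := 1 + s) (y := om + s * star om)
    fun p hp hM k1 k2 => by
      have pp : Prime (p : ℤ) := Nat.prime_iff_prime_int.1 hp
      have k0 := ((Int.natCast_dvd_natCast.2 hM).trans (dvd_pow_self _ two_ne_zero)).trans hs
      have k3 : (p : ℤ) ∣ 2 + 2 * s.re - s.im :=
        (k1.sub k0).trans (dvd_of_eq (by
          simp [nm, QuadraticAlgebra.re_one, QuadraticAlgebra.im_one]
          ring))
      have k4 : (p : ℤ) ∣ 2 - s.re - s.im :=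
        (k2.sub k0).trans (dvd_of_eq (by simp [nm, om]; ring))
      have k5 : (p : ℤ) ∣ 3 := (pp.dvd_or_dvd (a := 3) (b := s.re)
        ((k3.sub k4).trans (dvd_of_eq (by ring)))).elim id fun e =>
        ((k0.add (k4.mul_right (2 + s.re + s.im))).add (e.mul_right (3 * s.im))).trans
          (dvd_of_eq (by rw [nm]; ring))
      obtain rfl := (Nat.prime_dvd_prime_iff_eq hp Nat.prime_three).1 (Int.natCast_dvd_natCast.1 k5)
      omega
  obtain ⟨n, hn⟩ := hs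
  set u : O := c * (1 + s) + d * (om + s * star om) with hu
  have cu : IsCoprime u (M : O) := cop_norm.2 hc
  obtain ⟨w, v, e⟩ := cu.pow_right (n := 2)
  have e0 : s * star s = 1 + (M : O) ^ 2 * n := by
    rw [CL.mul_star_self, eq_add_of_sub_eq' hn]
    push_cast
    rfl
  have e1 : s * star u - u = (M : O) ^ 2 * (n * (c + d * om)) := by
    simp only [hu, star_add, star_mul', star_intCast, star_one, star_star]
    linear_combination (c + d * om) * e0
  have k := h.inv u cu A (s * β * w)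
  rw [wc1_per (h.per A) (y := s * β) ⟨-(v * (s * β)), by
      push_cast; linear_combination (s * β) * e⟩,
    wc1_per (h.per A) (x := star u * _) (y := β) ⟨n * (c + d * om) * β * w - v * β, by
      push_cast; linear_combination β * w * e1 + β * e⟩] at k
  exact k

theorem Ker.inv_norm (h : Ker M Φ a) {s : O} (hs : (M : ℤ) ^ 2 ∣ nm s - 1) :
    ∃ ζ : O, nm ζ = 1 ∧ ∀ A β, Φ A (s * β) = Φ A (ζ * β) := by
  have h3 : (3 : ℤ) ∣ M := by exact_mod_cast (show 3 ∣ 21 by norm_num).trans h.adm.lev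
  have k : ¬ 3 ∣ s.re + s.im := fun e => by
    have := (CL.three_dvd_nm.2 e).sub ((h3.trans (dvd_pow_self _ two_ne_zero)).trans hs)
    omega
  by_cases e : (s.re + s.im) % 3 = 1
  · exact ⟨1, rfl, fun A β => by rw [h.wc1_one hs e, one_mul]⟩
  · refine ⟨-1, rfl, fun A β => ?_⟩
    rw [neg_one_mul, ← h.wc1_one (s := -s) (by simpa [nm] using hs) ?_ A (-β), neg_mul_neg]
    simp only [QuadraticAlgebra.re_neg, QuadraticAlgebra.im_neg]
    omega

theorem Ker.sum_inv (h : Ker M Φ a) {y y' : O} (hy : IsCoprime (nm y) (M : ℤ))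
    (hs : (M : ℤ) ^ 2 ∣ nm y' - nm y) (k : ℕ) (A : O) :
    ∑ z ∈ CL.reps k, Φ A (z * y') = ∑ z ∈ CL.reps k, Φ A (z * y) := by
  obtain ⟨e, v, he⟩ : IsCoprime (nm y) ((M : ℤ) ^ 2) := hy.pow_right
  obtain ⟨n, hn⟩ := hs
  obtain ⟨ζ, z1, z2⟩ := h.inv_norm (s := y' * star y * e) ⟨n * nm y * e * e
      - v * (1 + e * nm y), by
    rw [CL.nm_mul, CL.nm_mul, CL.nm_star, CL.nm_int]
    linear_combination nm y * e * e * hn + (1 + e * nm y) * he⟩
  have he' : (e : O) * (y * star y) + v * (M : O) ^ 2 = 1 := by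
    rw [CL.mul_star_self]
    exact_mod_cast congrArg (Int.cast : ℤ → O) he
  have hz : ζ * star ζ = 1 := by rw [CL.mul_star_self, z1, Int.cast_one]
  have e1 : ∀ z, Φ A (z * y') = Φ A (ζ * z * y) := fun z => by
    rw [mul_assoc, ← z2]
    exact wc1_per (h.per A) ⟨z * y' * v, by push_cast; linear_combination (-(z * y')) * he'⟩
  rw [sum_congr rfl fun z _ => e1 z]
  refine sum_bij' (fun z _ => ζ * z) (fun z _ => star ζ * z) (fun z hz => ?_) (fun z hz => ?_)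
    (fun z _ => ?_) (fun z _ => ?_) fun _ _ => rfl
  · exact mem_reps.2 (by rw [CL.nm_mul, z1, one_mul, mem_reps.1 hz])
  · exact mem_reps.2 (by rw [CL.nm_mul, CL.nm_star, z1, one_mul, mem_reps.1 hz])
  · linear_combination z * hz
  · linear_combination z * hz

end Pool.Agent.Lib.MP_696deb_nt.Y3.W
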