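import Pool.Agent.Lib.MP_696deb_nt.Y3.Wh

/-! Divisor sums. -/

set_option autoImplicit false

open Complex Finset
open scoped Real ComplexConjugate Classical

namespace Pool.Agent.Lib.MP_696deb_nt.Y3.W

open CL (O nm om op wC Per FT mem_reps)

variable {M : ℕ} {Φ : O → O → O} {a : O → ℂ}

theorem exists_split (M : ℕ) {k : ℕ} (hk : 0 < k) :
    ∃ k₁ k₂ : ℕ, k = k₁ * k₂ ∧ Smo M k₁ ∧ k₂.Coprime M := by
  induction k using Nat.strong_induction_on with
  | _ k ih =>
    by_cases h : k.Coprime M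
    · exact ⟨1, k, (one_mul k).symm, fun p hp e => absurd e hp.not_dvd_one, h⟩
    obtain ⟨p, hp, ⟨j, rfl⟩, h2⟩ := Nat.Prime.not_coprime_iff_dvd.1 h
    have hj : 0 < j := Nat.pos_of_mul_pos_left hk
    obtain ⟨k₁, k₂, rfl, h3, h4⟩ := ih j (lt_mul_of_one_lt_left hj hp.one_lt) hj
    refine ⟨p * k₁, k₂, (mul_assoc _ _ _).symm, fun r hr e => ?_, h4⟩
    rcases hr.dvd_mul.1 e with e | e
    · exact e.trans h2
    · exact h3 r hr e

theorem Smo.coprime {k₁ k₂ : ℕ} (h1 : Smo M k₁) (h2 : k₂.Coprime M) : k₁.Coprime k₂ :=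
  Nat.eq_one_iff_not_exists_prime_dvd.2 fun p hp e =>
    hp.not_dvd_one (h2 ▸ Nat.dvd_gcd (e.trans (Nat.gcd_dvd_right _ _))
      (h1 p hp (e.trans (Nat.gcd_dvd_left _ _))))

theorem Smo.of_dvd {k c : ℕ} (h : Smo M k) (hc : c ∣ k) : Smo M c := fun p hp e => h p hp (e.trans hc)

theorem we_sum_mul {R : Type} [AddCommMonoid R] {m n : ℕ} (h : m.Coprime n) (f : ℕ → R) :
    ∑ c ∈ (m * n).divisors, f c = ∑ x ∈ m.divisors, ∑ y ∈ n.divisors, f (x * y) := by
  rw [Nat.divisors_mul, mul_def, sum_image h.mul_injOn_divisors, sum_product]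

theorem Ker.sum_split (h : Ker M Φ a) {k₁ k₂ : ℕ} (h1 : Smo M k₁) (h2 : k₂.Coprime M) (σ : ℤ)
    (A : O) (u : ℕ → ℂ) :
    ∑ x ∈ (k₁ * k₂).divisorsAntidiagonal, lamA M a x.1 (σ * x.2) A * u x.1 =
      ∑ c₁ ∈ k₁.divisors, ∑ c₂ ∈ k₂.divisors,
        et c₂ * lamA M a c₁ (σ * (k₁ * k₂) / c₁) A * u (c₁ * c₂) := by
  rw [Nat.sum_divisorsAntidiagonal fun x y : ℕ => lamA M a x (σ * y) A * u x,
    we_sum_mul (h1.coprime h2)]
  refine sum_congr rfl fun c₁ m₁ => sum_congr rfl fun c₂ m₂ => ?_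
  have p₁ := Nat.pos_of_mem_divisors m₁
  have p₂ := Nat.pos_of_mem_divisors m₂
  obtain ⟨d₁, rfl⟩ := Nat.dvd_of_mem_divisors m₁
  obtain ⟨d₂, rfl⟩ := Nat.dvd_of_mem_divisors m₂
  have e : c₁ * d₁ * (c₂ * d₂) / (c₁ * c₂) = d₁ * d₂ :=
    Nat.div_eq_of_eq_mul_right (Nat.mul_pos p₁ p₂) (by ring)
  have e' : σ * (((c₁ * d₁ : ℕ) : ℤ) * ((c₂ * d₂ : ℕ) : ℤ)) / c₁ = c₂ * (σ * (d₁ * d₂ : ℕ)) :=
    Int.ediv_eq_of_eq_mul_right (by exact_mod_cast p₁.ne') (by push_cast; ring)
  rw [e, e', Nat.cast_mul c₁ c₂, mul_comm (c₁ : ℤ),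
    h.hom c₂ (Nat.isCoprime_iff_coprime.2 (h2.coprime_mul_right))]

theorem we_et_pow (x : ℤ) (j : ℕ) : et (x ^ j) = et x ^ j := by
  induction j with
  | zero => rw [pow_zero, pow_zero, et_one]
  | succ j ih => rw [pow_succ, pow_succ, et_mul, ih]

theorem we_et_one {p : ℕ} (h : p % 3 = 1) : et p = 1 := (et_congr (b := 1) (by omega)).trans et_one

theorem we_et_three {p : ℕ} (h : p % 3 = 2) : et p = -1 :=
  (et_congr (b := -1) (by omega)).trans (by rw [et_neg, et_one])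

set_option linter.unusedVariables false in
theorem et_sum_zero {p q k : ℕ} (hp : p.Prime) (hq : q.Prime) (hpq : p ≠ q) (h4 : q % 3 = 2)
    (hk : Odd (k.factorization q)) (u : ℕ → ℂ) :
    ∑ c ∈ k.divisors, et c * u (c.factorization p) = 0 := by
  have k0 : k ≠ 0 := by
    rintro rfl
    simp at hk
  rw [← Nat.ordProj_mul_ordCompl_eq_self k q,
    we_sum_mul ((Nat.coprime_ordCompl hq k0).pow_left _), Nat.sum_divisors_prime_pow hq, sum_comm]
  refine sum_eq_zero fun c hc => ?_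
  rw [sum_congr rfl (g := fun j => (-1) ^ j * (et c * u (c.factorization p))) fun j _ => ?_,
    ← sum_mul, neg_one_geom_sum, if_pos hk.add_one, zero_mul]
  rw [Nat.factorization_mul (pow_ne_zero _ hq.ne_zero) (Nat.pos_of_mem_divisors hc).ne',
    hq.factorization_pow, Nat.cast_mul, Nat.cast_pow, et_mul, we_et_pow, we_et_three h4,
    Finsupp.add_apply, Finsupp.single_eq_of_ne hpq, zero_add]
  push_cast
  ring

theorem we_rec {p : ℕ} (hp : p.Prime) (n : ℕ) :
    ((CL.reps (p * n)).card : ℤ) + (if p ∣ n then et p * (CL.reps (n / p)).card else 0) =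
      (1 + et p) * (CL.reps n).card := by
  have h1 : ∀ α β : O, (fun _ => (1 : O)) (α * β) = (fun _ => 1) α * (fun _ => 1) β :=
    fun _ _ => (one_mul 1).symm
  obtain h4 | h4 | h4 : p % 3 = 0 ∨ p % 3 = 1 ∨ p % 3 = 2 := by omega
  · obtain rfl := (Nat.prime_dvd_prime_iff_eq Nat.prime_three hp).1 (Nat.dvd_of_mod_eq_zero h4)
    have h := CL.f3_div (ψ := fun _ => 1) h1 three_ne_zero (w := CL.th) rfl n
    rw [filter_true_of_mem fun α hα => th_dvd.2 (CL.three_dvd_nm.1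
      ⟨n, by rw [mem_reps.1 hα]; push_cast; rfl⟩)] at h
    have e : et 3 = 0 := by decide
    simpa [e] using h
  · obtain ⟨z, hz, -⟩ := CL.f3_exists hp h4
    have h := CL.f3_one (ψ := fun _ => 1) h1 hp h4 hz n
    simp only [sum_const, nsmul_eq_mul, mul_one, one_mul] at h
    rw [we_et_one h4, one_mul]
    exact_mod_cast h
  · have h := CL.f3_three (ψ := fun _ => 1) h1 hp h4 n
    simp only [sum_const, nsmul_eq_mul, mul_one, one_mul] at h
    rw [we_et_three h4]
    split_ifs at h ⊢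
    · rw [Nat.cast_injective h]
      ring
    · rw [Nat.cast_eq_zero.1 h]
      ring

theorem we_card_pow {p n : ℕ} (hp : p.Prime) (hn : ¬ p ∣ n) (j : ℕ) :
    ((CL.reps (p ^ j * n)).card : ℤ) = (∑ i ∈ range (j + 1), et p ^ i) * (CL.reps n).card := by
  have e : ∀ j, p ^ (j + 1) * n = p * (p ^ j * n) := fun j => by ring
  induction j using Nat.twoStepInduction with
  | zero => simp
  | one =>
    have h := we_rec hp n
    rw [if_neg hn, add_zero] at h
    simpa [sum_range_succ] using h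
  | more j h0 h1 =>
    have h := we_rec hp (p ^ (j + 1) * n)
    rw [if_pos (e j ▸ dvd_mul_right _ _), ← e, h1, e j, Nat.mul_div_cancel_left _ hp.pos, h0,
      sum_range_succ _ (j + 1)] at h
    rw [sum_range_succ, sum_range_succ]
    linear_combination h

/-- The number of elements of given norm. -/
theorem et_sum_card {k : ℕ} (hk : 0 < k) : 6 * ∑ c ∈ k.divisors, et c = (CL.reps k).card := by
  induction k using Nat.recOnPrimePow with
  | zero => exact absurd hk (lt_irrefl 0)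
  | one => decide +kernel
  | prime_pow_mul n p j hp hn hj ih =>
    rw [we_card_pow hp hn, ← ih (Nat.pos_of_mul_pos_left hk),
      we_sum_mul ((hp.coprime_iff_not_dvd.2 hn).pow_left _), Nat.sum_divisors_prime_pow hp,
      mul_left_comm, sum_mul_sum]
    simp only [Nat.cast_mul, Nat.cast_pow, et_mul, we_et_pow]

theorem we_three (v : ℕ) {m : ℤ} (hm : m % 3 = 2) (β : O) : nm β ≠ 3 ^ v * m := by
  induction v generalizing β with
  | zero =>
    intro h
    obtain ⟨s, r, hs, hr⟩ : ∃ s r : ℤ, β.re + β.im = 3 * s + r ∧ (r = 0 ∨ r = 1 ∨ r = -1) :=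
      ⟨(β.re + β.im + 1) / 3, (β.re + β.im + 1) % 3 - 1, by omega, by omega⟩
    have e : m = 3 * (3 * s * s + 2 * s * r - β.re * β.im) + r * r := by
      rw [nm] at h
      linear_combination -h + (β.re + β.im + 3 * s + r) * hs
    rcases hr with rfl | rfl | rfl <;> omega
  | succ v ih =>
    intro h
    obtain ⟨γ, rfl⟩ := th_dvd.2 (CL.three_dvd_nm.1 ⟨3 ^ v * m, h.trans (by ring)⟩)
    rw [CL.nm_mul, show nm CL.th = 3 from rfl] at h
    exact ih γ (by linear_combination (exp := 1) (mul_left_cancel₀ three_ne_zero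
      (h.trans (by ring)) : nm γ = 3 ^ v * m))

theorem we_inert {q : ℕ} (hq : q.Prime) (h4 : q % 3 = 2) (j : ℕ) {m : ℤ} (hm : ¬ (q : ℤ) ∣ m)
    (β : O) : nm β ≠ q ^ (2 * j + 1) * m := by
  have q0 : (q : ℤ) ≠ 0 := by exact_mod_cast hq.ne_zero
  induction j generalizing β with
  | zero =>
    intro h
    obtain ⟨γ, rfl⟩ := CL.dvd_of_nm hq h4 ⟨m, h.trans (by ring)⟩
    rw [CL.nm_mul, CL.nm_nat] at h
    exact hm ⟨nm γ, mul_left_cancel₀ q0 (by linear_combination -h)⟩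
  | succ j ih =>
    intro h
    obtain ⟨γ, rfl⟩ := CL.dvd_of_nm hq h4 ⟨q ^ (2 * j + 2) * m, h.trans (by ring)⟩
    rw [CL.nm_mul, CL.nm_nat] at h
    exact ih γ (mul_left_cancel₀ (pow_ne_zero 2 q0) (h.trans (by ring)))

theorem we_odd {m : ℕ} (h : m % 3 = 2) : ∃ q, q.Prime ∧ q % 3 = 2 ∧ Odd (m.factorization q) := by
  induction m using Nat.recOnPrimePow with
  | zero => simp at h
  | one => simp at h
  | prime_pow_mul n p j hp hn hj ih =>
    have n0 : n ≠ 0 := fun e => hn (e ▸ dvd_zero p)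
    rw [Nat.factorization_mul (pow_ne_zero _ hp.ne_zero) n0, hp.factorization_pow]
    by_cases e : n % 3 = 2
    · obtain ⟨q, h1, h2, h3⟩ := ih e
      refine ⟨q, h1, h2, ?_⟩
      rwa [Finsupp.add_apply, Finsupp.single_eq_of_ne, zero_add]
      rintro rfl
      rw [Nat.factorization_eq_zero_of_not_dvd hn] at h3
      exact absurd h3 (by decide)
    have h1 := we_et_three h
    rw [Nat.cast_mul, Nat.cast_pow, et_mul, we_et_pow] at h1
    have h2 : n % 3 = 1 := by
      by_contra h2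
      rw [et_zero (a := n) (by omega)] at h1
      simp at h1
    rw [we_et_one h2, mul_one] at h1
    obtain h4 | h4 | h4 : p % 3 = 0 ∨ p % 3 = 1 ∨ p % 3 = 2 := by omega
    · rw [et_zero (a := p) (by omega), zero_pow hj.ne'] at h1
      simp at h1
    · rw [we_et_one h4, one_pow] at h1
      simp at h1
    · refine ⟨p, hp, h4, ?_⟩
      rw [Finsupp.add_apply, Finsupp.single_eq_same, Nat.factorization_eq_zero_of_not_dvd hn,
        add_zero, ← Nat.not_even_iff_odd]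
      intro h5
      rw [we_et_three h4, h5.neg_one_pow] at h1
      simp at h1

theorem exists_obs {k : ℕ} (hk : 0 < k) : ∃ q, Obs q k := by
  by_cases h : k / 3 ^ k.factorization 3 % 3 = 1
  · exact ⟨3, Nat.prime_three, .inr ⟨rfl, h⟩⟩
  have h2 := Nat.not_dvd_ordCompl Nat.prime_three hk.ne'
  obtain ⟨q, h3, h4, h5⟩ := we_odd (m := k / 3 ^ k.factorization 3) (by omega)
  rw [Nat.factorization_ordCompl, Finsupp.erase_ne (by omega)] at h5
  exact ⟨q, h3, .inl ⟨h4, h5⟩⟩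

theorem Obs.not_dvd {q k : ℕ} (h : Obs q k) (β : O) :
    ¬ (q : ℤ) ^ (k.factorization q + 2) ∣ nm β + k := by
  rintro ⟨t, ht⟩
  obtain ⟨hq, h⟩ := h
  have k0 : k ≠ 0 := by
    rintro rfl
    simp at h
  have h1 := Nat.not_dvd_ordCompl hq k0
  have h2 := Nat.ordProj_mul_ordCompl_eq_self k q
  replace h : q % 3 = 2 ∧ Odd (k.factorization q) ∨ q = 3 ∧ k / q ^ k.factorization q % 3 = 1 :=
    h.imp_right fun ⟨e, e'⟩ => ⟨e, by rw [e]; exact e'⟩
  generalize k.factorization q = v at *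
  have h3 : nm β = q ^ v * (q ^ 2 * t - (k / q ^ v : ℕ)) := by
    have : (q : ℤ) ^ v * (k / q ^ v : ℕ) = k := by exact_mod_cast h2
    linear_combination ht + this
  rcases h with ⟨h4, j, rfl⟩ | ⟨rfl, h5⟩
  · exact we_inert hq h4 j (fun e => h1 (Int.natCast_dvd_natCast.1
      ((dvd_sub_right ((dvd_pow_self _ two_ne_zero).mul_right t)).1 e))) β h3
  · refine we_three v ?_ _ h3
    generalize k / 3 ^ v = m at h5 ⊢
    push_cast
    omega

end Pool.Agent.Lib.MP_696deb_nt.Y3.W
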