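import Pool.Agent.Lib.MP_696deb_nt.Y3.Wd
import Pool.Agent.Lib.MP_696deb_nt.Y3.We
import Pool.Agent.Lib.MP_696deb_nt.Y3.Wc1

/-! The divisor sums at negative indices count elements of given norm. -/

set_option autoImplicit false

open Complex Finset
open scoped Real ComplexConjugate Classical

namespace Pool.Agent.Lib.MP_696deb_nt.Y3.W

open CL (O nm om op wC Per FT mem_reps)

variable {M : ℕ} {Φ : O → O → O} {a : O → ℂ}

theorem wc_ind {n : ℕ} (t : ℤ) : Per n fun β : O => if (n : ℤ) ∣ nm β - t then (1 : ℂ) else 0 :=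
  pe_iff_per.1 (((cg_norm (AddMonoidHom.id O)).sub (cg_const t)).pe
    (F := fun a => if (n : ℤ) ∣ a then 1 else 0) fun _ _ e =>
      if_congr (dvd_iff_dvd_of_dvd_sub e) rfl rfl)

theorem wc_unit {n : ℕ} (hn : 0 < n) {y : O} (hy : IsCoprime (nm y) (n : ℤ)) :
    Av (fun β : O => if (n : ℤ) ∣ nm β - nm y then (1 : ℂ) else 0) =
      Av fun β : O => if (n : ℤ) ∣ nm β - 1 then (1 : ℂ) else 0 := by
  have c : IsCoprime y (n : O) := by
    have := hy.map (Int.castRingHom O)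
    rw [eq_intCast, eq_intCast, ← CL.mul_star_self, Int.cast_natCast] at this
    exact this.of_mul_left_left
  rw [← av_unit hn (wc_ind _) c]
  refine congrArg Av (funext fun β => if_congr ?_ rfl rfl)
  rw [CL.nm_mul, ← mul_sub_one]
  exact ⟨hy.symm.dvd_of_dvd_mul_left, fun e => e.mul_left _⟩

theorem Ker.wc_av (h : Ker M Φ a) {k₁ k₂ : ℕ} (h0 : 0 < k₁) (h1 : Smo M k₁) (h2 : k₂.Coprime M)
    (A : O) : 6 * (k₁ * Av fun β : O =>
      if (M : ℤ) ^ 2 * k₁ ∣ nm β + -(k₁ * k₂ : ℕ) then CL.toC (Φ A β) else 0) =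
    Av fun y : O => (∑ z ∈ CL.reps k₁, CL.toC (Φ A (z * y))) *
      if (M : ℤ) ^ 2 ∣ nm y - k₂ then 1 else 0 := by
  have M0 := h.adm.pos
  have k0 : (k₁ : ℤ) ≠ 0 := by omega
  have p : PP fun β : O =>
      if (M : ℤ) ^ 2 * k₁ ∣ nm β + -(k₁ * k₂ : ℕ) then CL.toC (Φ A β) else 0 :=
    ((cg_norm (AddMonoidHom.id O)).add (cg_const _)).pp_dvd (by positivity)
      ⟨M ^ 2, by positivity, pe_iff_per.2 fun x y => congrArg _ (h.per A x y)⟩
  generalize hF : (fun β : O =>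
    if (M : ℤ) ^ 2 * k₁ ∣ nm β + -(k₁ * k₂ : ℕ) then CL.toC (Φ A β) else 0) = F at p
  have e1 : ∀ β, 6 * F β = ∑ z ∈ CL.reps k₁, if z ∣ β then F β else 0 := fun β => by
    rw [← sum_filter, sum_const, nsmul_eq_mul]
    by_cases k : (M : ℤ) ^ 2 * k₁ ∣ nm β + -(k₁ * k₂ : ℕ)
    · obtain ⟨s, hs⟩ := k
      have c : IsCoprime (k₂ + M * (M * s) : ℤ) M :=
        (Nat.isCoprime_iff_coprime.2 h2).add_mul_left_left _
      rw [card_div h0 (t := k₂ + M * (M * s)) (by push_cast at hs; linear_combination hs)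
        (Int.isCoprime_iff_gcd_eq_one.2 (h1.coprime (Int.isCoprime_iff_gcd_eq_one.1 c)).symm),
        Nat.cast_ofNat]
    · simp only [← hF, if_neg k, mul_zero]
  have q : ∀ z ∈ CL.reps k₁, PP fun β => if z ∣ β then F β else 0 := fun z hz => by
    have : PP fun β => if z ∣ β then (1 : ℂ) else 0 := ⟨k₁, h0, fun x y =>
      if_congr (dvd_add_left (by
        rw [nsmul_eq_mul, ← Int.cast_natCast, ← mem_reps.1 hz, ← CL.mul_star_self, mul_assoc]
        exact dvd_mul_right _ _)) rfl rfl⟩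
    simpa using this.mul p
  rw [mul_left_comm, ← av_mul_left p, funext e1, av_sum q, mul_sum,
    sum_congr rfl (g := fun z => Av fun y => F (z * y)) fun z hz => by
      rw [av_dvd p fun e => k0 (by rw [← mem_reps.1 hz, CL.nm_eq_zero.2 e]), mem_reps.1 hz,
        Int.cast_natCast],
    ← av_sum (F := fun z y => F (z * y)) fun z _ => p.comp (AddMonoidHom.mulLeft z)]
  refine congrArg Av (funext fun y => ?_)
  rw [sum_mul]
  refine sum_congr rfl fun z hz => ?_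
  rw [← hF, mul_boole]
  refine if_congr ?_ rfl rfl
  rw [CL.nm_mul, mem_reps.1 hz, Nat.cast_mul, ← sub_eq_add_neg, ← mul_sub, mul_comm (k₁ : ℤ),
    mul_dvd_mul_iff_right k0]

theorem Ker.count (h : Ker M Φ a) : ∃ K : ℚ, 0 < K ∧ ∀ (k : ℕ) (A : O), 0 < k →
    ∑ x ∈ k.divisorsAntidiagonal, lamA M a x.1 (-x.2) A = K * ∑ β ∈ CL.reps k, CL.toC (Φ A β) := by
  have M0 := h.adm.pos
  have n0 : 0 < M ^ 2 := by positivity
  obtain ⟨K, K0, hK⟩ := av_ind (p := fun β : O => ((M ^ 2 : ℕ) : ℤ) ∣ nm β - 1) (a := 1)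
    (by convert! (pe_iff_per.2 (wc_ind (n := M ^ 2) 1)).pp n0) (by simp [CL.nm_eq])
  refine ⟨K / 6, by positivity, fun k A k0 => ?_⟩
  by_cases hk : (M : ℤ) ^ 2 ∣ nm A + -k
  swap
  · rw [sum_eq_zero, sum_eq_zero, mul_zero]
    · refine fun β hβ => by_contra fun e => hk ?_
      rw [← mem_reps.1 hβ]
      exact h.supp A β fun e' => e (by rw [e', map_zero])
    · refine fun x hx => by_contra fun e => hk ?_
      rw [← (Nat.mem_divisorsAntidiagonal.1 hx).1, Nat.cast_mul, ← mul_neg]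
      exact h.adm.lamA_supp e
  obtain ⟨k₁, k₂, rfl, h1, h2⟩ := exists_split M k0
  have a1 := Nat.pos_of_mul_pos_right k0
  have a2 := Nat.pos_of_mul_pos_left k0
  have e1 := h.sum_split h1 h2 (-1) A fun _ => 1
  have e2 := h.dens a1 h1 hk
  have e3 := h.wc_av a1 h1 h2 A
  have e4 := sum_reps_mul a1 (h1.coprime h2) fun β => CL.toC (Φ A β)
  have e5 := congrArg (Int.cast (R := ℂ)) (et_sum_card a2)
  rw [sum_congr rfl fun c hc => if_pos (dvd_neg.2 (Int.natCast_dvd_natCast.2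
    ((Nat.dvd_of_mem_divisors hc).mul_right _)))] at e2
  simp only [neg_one_mul, mul_one, ← sum_mul, ← mul_sum, ← Nat.cast_mul] at e1
  push_cast at e5 ⊢
  rw [e1, e2]
  rcases (CL.reps k₂).eq_empty_or_nonempty with e | ⟨y, hy⟩
  · simp only [e, sum_empty, sum_const_zero, card_empty, Nat.cast_zero, mul_eq_zero,
      OfNat.ofNat_ne_zero, false_or] at e4 e5
    rw [e4, e5, zero_mul, mul_zero]
  have c : IsCoprime (nm y) (M : ℤ) := mem_reps.1 hy ▸ Nat.isCoprime_iff_coprime.2 h2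
  have i : ∀ y' : O, (M : ℤ) ^ 2 ∣ nm y' - k₂ → ∑ z ∈ CL.reps k₁, CL.toC (Φ A (z * y')) =
      ∑ z ∈ CL.reps k₁, CL.toC (Φ A (z * y)) := fun y' e => by
    rw [← map_sum, ← map_sum, h.sum_inv c (mem_reps.1 hy ▸ e)]
  have u := wc_unit n0 (y := y) (by
    push_cast
    exact c.pow_right)
  rw [sum_comm, sum_congr rfl fun y' hy' => i y' (by simp [mem_reps.1 hy']), sum_const,
    nsmul_eq_mul] at e4
  have e6 := e3.trans ((congrArg Av (funext fun y' => by
    rw [mem_reps.1 hy]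
    push_cast
    split_ifs with e
    · rw [i y' e]
    · rw [mul_zero, mul_zero])).trans (av_mul_left ((pe_iff_per.2 (wc_ind (nm y))).pp n0)
      (∑ z ∈ CL.reps k₁, CL.toC (Φ A (z * y)))))
  have u' : _ = (K : ℂ) := u.trans (by convert! hK)
  rw [u'] at e6
  linear_combination (∑ c ∈ k₂.divisors, (et c : ℂ)) / 6 * e6 - (K : ℂ) / 36 * e4 +
    (K : ℂ) / 36 * (∑ z ∈ CL.reps k₁, CL.toC (Φ A (z * y))) * e5

theorem Ker.neg_eq (h : Ker M Φ a) : ∃ K : ℚ, 0 < K ∧ ∀ μ k : ℕ, 0 < k → (sec M a).neg μ k =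
    K * ∑ A ∈ CL.reps (μ + k), ∑ β ∈ CL.reps k, CL.toC (Φ A β) := by
  obtain ⟨K, K0, hK⟩ := h.count
  refine ⟨K, K0, fun μ k hk => ?_⟩
  simp only [Y2.An.Sec.neg, lam_sec]
  rw [sum_comm, mul_sum]
  exact sum_congr rfl fun A _ => hK k A hk

end Pool.Agent.Lib.MP_696deb_nt.Y3.W
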