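import Pool.Agent.Lib.MP_696deb_nt.Y3.Wd
import Pool.Agent.Lib.MP_696deb_nt.Y3.We

/-! The coefficients have bounded denominators. -/

set_option autoImplicit false

open Complex Finset
open scoped Real ComplexConjugate Classical

namespace Pool.Agent.Lib.MP_696deb_nt.Y3.W

open CL (O nm om op wC Per FT mem_reps)

variable {M : ℕ} {Φ : O → O → O} {a : O → ℂ}

theorem wq_add {z w : ℂ} (h : QI z) (k : QI w) : QI (z + w) := by
  obtain ⟨a, b, rfl⟩ := h
  obtain ⟨c, d, rfl⟩ := k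
  exact ⟨a + c, b + d, by push_cast; ring⟩

theorem wq_sub {z w : ℂ} (h : QI z) (k : QI w) : QI (z - w) := by
  obtain ⟨a, b, rfl⟩ := h
  obtain ⟨c, d, rfl⟩ := k
  exact ⟨a - c, b - d, by push_cast; ring⟩

theorem wq_mul {z w : ℂ} (h : QI z) (k : QI w) : QI (z * w) := by
  obtain ⟨a, b, rfl⟩ := h
  obtain ⟨c, d, rfl⟩ := k
  exact ⟨a * c - b * d, a * d + b * c - b * d, by
    push_cast
    linear_combination (b * d : ℂ) * CL.wC_sq⟩

theorem wq_int (n : ℤ) : QI n := ⟨n, 0, by simp⟩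

theorem wq_nat (n : ℕ) : QI n := ⟨n, 0, by simp⟩

theorem wq_zero : QI 0 := ⟨0, 0, by simp⟩

theorem wq_G (g : O) : QI (CL.toC g) := ⟨g.re, g.im, by rw [CL.toC_apply]; simp⟩

theorem wq_sum {ι : Type} {s : Finset ι} {f : ι → ℂ} (h : ∀ i ∈ s, QI (f i)) :
    QI (∑ i ∈ s, f i) :=
  sum_induction f QI (fun _ _ => wq_add) wq_zero h

theorem wq_w : IsIntegral ℤ wC := IsIntegral.of_pow three_pos (by
  rw [show wC ^ 3 = 1 by linear_combination (wC - 1) * CL.wC_sq]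
  exact isIntegral_one)

theorem wq_rat {x : ℚ} (h : IsIntegral ℤ (x : ℂ)) : ∃ n : ℤ, (x : ℂ) = n := by
  have h1 : IsIntegral ℤ x :=
    (isIntegral_algebraMap_iff (R := ℤ) (algebraMap ℚ ℂ).injective).1 h
  obtain ⟨n, hn⟩ := IsIntegrallyClosed.isIntegral_iff.1 h1
  exact ⟨n, by rw [← hn]; simp⟩

theorem QI.int {z : ℂ} (h : QI z) (hz : IsIntegral ℤ z) : ∃ g : O, 3 * z = CL.toC g := by
  obtain ⟨a, b, rfl⟩ := h
  have hc : IsIntegral ℤ ((a : ℂ) + b * (-1 - wC)) := by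
    have := hz.map (starRingEnd ℂ).toIntAlgHom
    simpa [CL.f0_conj] using this
  obtain ⟨m, hm⟩ := wq_rat (x := 2 * a - b) (by
    rw [show ((2 * a - b : ℚ) : ℂ) = a + b * wC + (a + b * (-1 - wC)) by push_cast; ring]
    exact hz.add hc)
  obtain ⟨n, hn⟩ := wq_rat (x := 2 * b - a) (by
    rw [show ((2 * b - a : ℚ) : ℂ) = (a + b * wC) * (-1 - wC) + (a + b * (-1 - wC)) * wC by
      push_cast; linear_combination (2 * b : ℂ) * CL.wC_sq]
    exact (hz.mul (isIntegral_one.neg.sub wq_w)).add (hc.mul wq_w))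
  refine ⟨⟨2 * m + n, m + 2 * n⟩, ?_⟩
  rw [CL.toC_apply]
  push_cast at hm hn ⊢
  rw [← hm, ← hn]
  ring

theorem wq_smooth (h : Ker M Φ a) (A : O) (P : ℕ) :
    0 < P → Smo M P → ∀ l : ℤ, QI (lamA M a P l A) := by
  induction P using Nat.strong_induction_on with
  | _ P ih =>
    intro hP hs l
    by_cases h0 : lamA M a P l A = 0
    · rw [h0]
      exact wq_zero
    have hM := h.adm.pos
    have hd := h.dens hP hs (h.adm.lamA_supp h0)
    have P0 : (P : ℤ) ≠ 0 := by exact_mod_cast hP.ne'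
    rw [← Nat.insert_self_properDivisors hP.ne', sum_insert Nat.self_notMem_properDivisors,
      if_pos (dvd_mul_right _ _), Int.mul_ediv_cancel_left _ P0] at hd
    rw [eq_sub_of_add_eq hd]
    refine wq_sub (wq_mul (wq_nat P) (av_QI ?_ fun β => ?_)) (wq_sum fun c hc => ?_)
    · refine Cg.pp_dvd (q := fun β : O => nm β + P * l)
        ((cg_norm (AddMonoidHom.id O)).add (cg_const _)) (by positivity) ?_
      exact ⟨M ^ 2, by positivity, pe_iff_per.2 fun x y => by rw [h.per A x y]⟩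
    · split_ifs
      · exact wq_G _
      · exact wq_zero
    · obtain ⟨h1, h2⟩ := Nat.mem_properDivisors.1 hc
      split_ifs
      · exact ih c h2 (Nat.pos_of_dvd_of_pos h1 hP) (hs.of_dvd h1) _
      · exact wq_zero

theorem wq_pos (h : Ker M Φ a) (A : O) {n : ℕ} (hn : 0 < n) (l : ℤ) : QI (lamA M a n l A) := by
  obtain ⟨k₁, k₂, rfl, h1, h2⟩ := exists_split M hn
  rw [Nat.cast_mul, mul_comm, h.hom k₂ (Nat.isCoprime_iff_coprime.2 h2)]
  exact wq_mul (wq_int _) (wq_smooth h A k₁ (Nat.pos_of_mul_pos_right hn) h1 _)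

theorem Ker.lam_QI (h : Ker M Φ a) (c l : ℤ) (A : O) : QI (lamA M a c l A) := by
  rcases lt_trichotomy c 0 with hc | rfl | hc
  · obtain ⟨n, hn⟩ := Int.eq_ofNat_of_zero_le (neg_nonneg.2 hc.le)
    rw [show c = -1 * n by omega, h.hom (-1) isCoprime_one_left.neg_left]
    exact wq_mul (wq_int _) (wq_pos h A (by omega) _)
  · rw [lamA_of_Wt (by simp)]
    exact wq_zero
  · obtain ⟨n, rfl⟩ := Int.eq_ofNat_of_zero_le hc.le
    exact wq_pos h A (by omega) _

theorem wq_Wt (c d : ℤ) : IsIntegral ℤ (Wt c d) := by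
  rw [Wt]
  split_ifs
  · exact (isIntegral_G _).map (starRingEnd ℂ).toIntAlgHom
  · exact isIntegral_zero

theorem wq_q1 (M : ℕ) (n : ℤ) : IsIntegral ℤ (q1 (n / M ^ 2)) := by
  have := isIntegral_q1 n (M ^ 2)
  push_cast at this
  exact this

theorem wq_cf (M : ℕ) (c d : ℤ) (x A : O) : IsIntegral ℤ (cf M c d x A) := by
  rw [cf]
  split_ifs
  · rw [← Int.cast_mul]
    exact wq_q1 M _
  · exact isIntegral_zero

theorem Ker.lam_alg (h : Ker M Φ a) (c l : ℤ) (A : O) :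
    IsIntegral ℤ ((M : ℂ) ^ 4 * lamA M a c l A) := by
  have M0 : (M : ℂ) ≠ 0 := by exact_mod_cast h.adm.pos.ne'
  have e : (M : ℂ) ^ 4 * lamA M a c l A = ∑ d ∈ range (M ^ 2),
      Wt c d * ((M : ℂ) ^ 2 * ph M a c d A) * q1 ((d * l : ℤ) / M ^ 2) := by
    rw [lamA, mul_div_assoc', div_eq_iff (by simp [M0]), mul_sum, sum_mul]
    refine sum_congr rfl fun d _ => ?_
    push_cast
    ring
  rw [e]
  refine IsIntegral.sum _ fun d _ => ((wq_Wt _ _).mul ?_).mul (wq_q1 M _)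
  rw [ph, ← sm_mul_left, sm]
  refine IsIntegral.sum _ fun x _ => IsIntegral.sum _ fun y _ => ?_
  rw [← mul_assoc]
  exact (h.alg _).mul (wq_cf _ _ _ _ _)

theorem Ker.lam_int (h : Ker M Φ a) (c l : ℤ) (A : O) :
    ∃ g : O, 3 * (M : ℂ) ^ 4 * lamA M a c l A = CL.toC g := by
  have q : QI ((M : ℂ) ^ 4 * lamA M a c l A) :=
    wq_mul (by exact_mod_cast wq_nat (M ^ 4)) (h.lam_QI c l A)
  obtain ⟨g, hg⟩ := q.int (h.lam_alg c l A)
  exact ⟨g, by rw [← hg, mul_assoc]⟩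

theorem Ker.cP_int (h : Ker M Φ a) (p μ : ℕ) :
    ∃ g : O, 3 * (M : ℂ) ^ 4 * cP M a p μ = CL.toC g := by
  choose g hg using h.lam_int
  refine ⟨∑ k ∈ range (μ + 1), ∑ A ∈ CL.reps (μ - k), ∑ x ∈ k.divisorsAntidiagonal,
    g x.1 x.2 A * ((x.2.factorization p : O) - x.1.factorization p), ?_⟩
  simp only [cP, cA, mul_sum, map_sum, map_mul, map_sub, map_natCast, ← mul_assoc, hg]

end Pool.Agent.Lib.MP_696deb_nt.Y3.W
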