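import Pool.Agent.Lib.MP_696deb_nt.Y3.Wr
import Pool.Agent.Lib.MP_696deb_nt.Y3.Wq
import Pool.Agent.Lib.MP_696deb_nt.Y3.Wf
import Pool.Agent.Lib.MP_696deb_nt.Y3.Wc

/-! The finite side of the kernel of a curve. -/

set_option autoImplicit false

open Complex Finset
open scoped Real ComplexConjugate Classical

namespace Pool.Agent.Lib.MP_696deb_nt.Y3.Dat

open CL (O)

variable (d : Dat)

theorem van (k : ℕ) (A : O) :
    ∑ x ∈ k.divisorsAntidiagonal, lamA (3 * d.N) (iFT (3 * d.N) d.ps) x.1 x.2 A = 0 :=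
  (W.dat_ker d).van_one k A

theorem hol_zero (μ : ℕ) : d.S.hol μ = 0 := (W.dat_ker d).hol_zero μ

theorem lamA_int (c l : ℤ) (A : O) : ∃ g : O,
    3 * ((3 * d.N : ℕ) : ℂ) ^ 4 * lamA (3 * d.N) (iFT (3 * d.N) d.ps) c l A = CL.toC g :=
  (W.dat_ker d).lam_int c l A

theorem count : ∃ K : ℚ, 0 < K ∧ ∀ μ k : ℕ, 0 < k →
    d.S.neg μ k = K * ∑ A ∈ CL.reps (μ + k), ∑ β ∈ CL.reps k, CL.toC (d.Phi A β) := by
  obtain ⟨K, hK, h⟩ := (W.dat_ker d).neg_eq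
  have := d.pos
  refine ⟨K * (3 * (3 * d.N) ^ 2), by positivity, fun μ k hk => (h μ k hk).trans ?_⟩
  simp only [map_mul, map_pow, map_natCast, map_ofNat, ← mul_sum]
  push_cast
  ring

/-- The finite part is a sum of logarithms of primes. -/
theorem fin_log : ∃ c : ℕ → ℕ → ℂ,
    (∀ μ, d.S.fin μ = ∑ p ∈ (range (μ + 1)).filter Nat.Prime, c p μ * (Real.log p : ℝ)) ∧
    (∀ p μ, W.QI (c p μ)) ∧ (∀ p μ, p.Prime → p % 3 ≠ 2 → c p μ = 0) ∧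
    ∀ p μ, p.Prime → p % 3 = 2 → ∃ C : ℝ, ∀ s : ℕ, ‖c p (μ * p ^ (2 * s))‖ ≤ C * (s + 1) ^ 2 := by
  refine ⟨W.cP (3 * d.N) (iFT (3 * d.N) d.ps), W.fin_eq _ _, fun p μ => ?_,
    fun p μ hp h => (W.dat_ker d).cP_zero hp h μ, fun p μ hp h => (W.dat_ker d).cP_bd hp h μ⟩
  obtain ⟨g, hg⟩ := (W.dat_ker d).cP_int p μ
  have h0 : ((3 * d.N : ℕ) : ℂ) ≠ 0 := Nat.cast_ne_zero.2 (by have := d.pos; omega)
  refine ⟨g.re / (3 * (3 * d.N : ℕ) ^ 4), g.im / (3 * (3 * d.N : ℕ) ^ 4), ?_⟩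
  rw [CL.toC_apply] at hg
  simp only [Rat.cast_div, Rat.cast_mul, Rat.cast_pow, Rat.cast_natCast, Rat.cast_intCast,
    Rat.cast_ofNat]
  field_simp
  linear_combination hg

end Pool.Agent.Lib.MP_696deb_nt.Y3.Dat
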