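import Pool.Agent.Lib.MP_696deb_nt.Y3.GL
import Pool.Agent.Lib.MP_696deb_nt.Y3.GH
import Pool.Agent.Lib.MP_696deb_nt.Y3.GC
import Pool.Agent.Lib.MP_696deb_nt.Y3.AI
import Pool.Agent.Lib.MP_696deb_nt.Y3.WF
import Pool.Agent.Lib.MP_696deb_nt.Y3.D5
import Pool.Agent.Lib.MP_696deb_nt.Y3.P1

/-! The archimedean pairing in terms of the derivative and of the finite part. -/

set_option autoImplicit false

open scoped Classical ComplexConjugate Topology
open Complex Finset Filter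

namespace Pool.Agent.Lib.MP_696deb_nt.Y3

open CL (O wC)

theorem ga_T (m : ℕ) : q1 (m / levY.h) = levY.ξ ModularGroup.T := by
  simp only [levY, ModularGroup.coe_T]
  rw [show nb (((!![1, 1; 0, 1] : Matrix _ _ ℤ) 1 1 : ℤ)) = 1 by decide, map_one]
  simpa [q1] using q1_congr (x := m) (y := 0) m (by simp)

theorem ga_re {z : ℂ} (h : W.QI z) : ∃ r : ℚ, z.re = r := by
  obtain ⟨a, b, rfl⟩ := h
  refine ⟨a - b / 2, ?_⟩
  simp [wC]
  ring

namespace Dat

variable (d : Dat)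

/-- The complex identity. -/
theorem gza : ∃ (c0 : ℚ) (Λ : ℂ → ℂ) (C : ℂ), c0 ≠ 0 ∧ Differentiable ℂ Λ ∧
    (∀ s : ℂ, 5 < s.re → Λ s = TL.RS d.ps (fun m => wC / 3 * CL.toC (aG m)) s) ∧
    ∀ m : ℕ, m.Coprime 21 →
      c0 * conj (d.ar m) = C * deriv Λ 0 * CL.toC (aG m) - d.S.fin (d.mu m) := by
  have ad := (W.dat_ker d).adm
  obtain ⟨C, C0, an⟩ := anY
  obtain ⟨Λ, k1, k2, k3⟩ := an _ _ ad.ok ad.at
  obtain ⟨K, K0, h1⟩ := d.count
  have m0 : ∀ m, 0 < m → 0 < d.mu m := fun m =>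
    mul_pos (mul_pos (by norm_num) (pow_pos d.pos 2))
  have k4 := fun m hm => k3 m (d.mu m) hm (by simp only [mu, levY, sec]; ring) (ga_T m) (ad.zero _)
  have l0 : Λ 0 = 0 := by
    have := (k4 1 one_pos).1.symm.trans (d.hol_zero _)
    simpa [aG_one, C0] using this
  refine ⟨-2 * K, Λ, C, mul_ne_zero (by norm_num) K0.ne', k1, fun s hs => ?_, fun m hm => ?_⟩
  · rw [k2 s hs]
    simp only [TL.RS, tk, FT_iFT ad.pos (W.dat_hom d).per]
  have m1 : 0 < m := Nat.pos_of_ne_zero (by rintro rfl; simp at hm)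
  have k5 := tendsto_nhds_unique (((d.gc hm).const_mul (2 * K : ℂ)).congr fun ε => ?_)
    ((k4 m m1).2 l0)
  · rw [S]
    push_cast
    linear_combination k5
  rw [Y2.An.Sec.arch, ← tsum_mul_left, ← tsum_mul_left]
  refine tsum_congr fun k => ?_
  rcases Nat.eq_zero_or_pos k with rfl | k0
  · simp [kerK, (m0 m m1).ne']
  · rw [← S, h1 _ k k0]
    ring

theorem gzaS : GzaS d.S d.mu aG d.ar := by
  obtain ⟨c, Λ, C, -, -, -, h⟩ := d.gza
  exact ⟨c, _, h⟩

/-- If the series vanishes to order two, the sum of the points has finite order. -/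
theorem tors_of_lam (hz : ∀ Λ : ℂ → ℂ, Differentiable ℂ Λ → (∀ s : ℂ, 5 < s.re →
    Λ s = TL.RS d.ps (fun m => wC / 3 * CL.toC (aG m)) s) → deriv Λ 0 = 0) :
    ∃ n : ℕ, 0 < n ∧ n * d.pt ∈ EW.LG.lattice := by
  obtain ⟨c0, Λ, C, h0, l1, l2, h⟩ := d.gza
  obtain ⟨a, a1, a2, a3, a4⟩ := d.fin_log
  choose r hr using fun p μ => ga_re (a2 p μ)
  have k : ∀ p m : ℕ, m.Coprime 21 → ∃ c : ℚ, |(c : ℝ)| ≤ |(c0⁻¹ : ℝ)| * ‖a p (d.mu m)‖ ∧
      (d.ar m).re - c * Real.log p ∈ LogS p := fun p m hm => by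
    have e := congrArg re (h m hm)
    rw [hz Λ l1 l2, mul_zero, zero_mul, zero_sub, ← ofReal_ratCast, re_ofReal_mul, conj_re, neg_re,
      a1, re_sum] at e
    simp only [re_mul_ofReal, hr] at e
    have h1 : (c0 : ℝ) ≠ 0 := by exact_mod_cast h0
    have h2 : ∑ q ∈ ((range (d.mu m + 1)).filter Nat.Prime).erase p,
        (r q (d.mu m) : ℝ) * Real.log q ∈ LogS p := sum_mem fun q hq =>
      LogS.rat_mul _ (log_prime_mem (mem_filter.1 (mem_erase.1 hq).2).2 (mem_erase.1 hq).1)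
    by_cases hp : p ∈ (range (d.mu m + 1)).filter Nat.Prime
    · refine ⟨-(c0⁻¹ * r p (d.mu m)), ?_, LogS.of_mul h0 ?_⟩
      · push_cast
        rw [abs_neg, abs_mul, ← hr]
        exact mul_le_mul_of_nonneg_left (abs_re_le_norm _) (abs_nonneg _)
      · rw [← add_sum_erase _ _ hp] at e
        refine (congrArg (· ∈ LogS p) ?_).mp (neg_mem h2)
        push_cast
        rw [mul_sub, e]
        field_simp
        ring
    · rw [erase_eq_of_notMem hp] at h2
      exact ⟨0, by simp; positivity, LogS.of_mul h0 (by simpa [e] using h2)⟩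
  refine d.tors_of_arch (fun p hp h4 => ?_) fun p hp h3 => ?_
  · obtain ⟨c, c1, c2⟩ := k p 1 (by decide)
    rw [a3 p _ hp h4, norm_zero, mul_zero, abs_nonpos_iff] at c1
    simpa [c1] using c2
  · obtain ⟨B, hB⟩ := a4 p (9 * d.N ^ 2) hp h3
    refine ⟨|(c0⁻¹ : ℝ)| * (|B| * 36), 2, fun s => ?_⟩
    obtain ⟨c, c1, c2⟩ := k p (p ^ (12 * s)) (Nat.Coprime.pow_left _
      (Nat.Coprime.mul_right (m := 3) (n := 7)
        ((Nat.coprime_primes hp Nat.prime_three).2 (by omega))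
        ((Nat.coprime_primes hp (by norm_num)).2 (by omega))))
    refine ⟨c, c1.trans ?_, c2⟩
    have := hB (6 * s)
    rw [← mul_assoc 2, show 2 * 6 = 12 from rfl] at this
    rw [mul_assoc]
    refine mul_le_mul_of_nonneg_left (this.trans ?_) (abs_nonneg _)
    push_cast
    have s0 : (0 : ℝ) ≤ s := s.cast_nonneg
    calc B * (6 * s + 1 : ℝ) ^ 2 ≤ |B| * (6 * s + 6 : ℝ) ^ 2 := by
          gcongr
          exacts [le_abs_self B, by norm_num]
      _ = _ := by ring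

/-- If the L-function vanishes to order two, the sum of the points has finite order. -/
theorem Of.tors_of_deriv {x : Dat} {e : ℤ} {n : ℕ} {φ : O → O} (h : x.Of e n φ) {L : ℂ → ℂ}
    (hL : IsL (qt e φ) L) (h1 : L 1 = 0) (hz : deriv L 1 = 0) :
    ∃ k : ℕ, 0 < k ∧ k * x.pt ∈ EW.LG.lattice :=
  x.tors_of_lam fun _ => x.lam_deriv (h.red.qt_mul h.phi) h.kap hL h1 hz fun _ => rfl

end Dat

end Pool.Agent.Lib.MP_696deb_nt.Y3
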