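import Pool.Agent.Lib.MP_696deb_nt.Y3.D2
import Pool.Agent.Lib.MP_696deb_nt.Y3.C0
import Pool.Agent.Lib.MP_696deb_nt.ModPoly

/-! Sums over matrices of given determinant and over pairs of Eisenstein integers. -/

set_option autoImplicit false

open Complex Finset CongruenceSubgroup
open UpperHalfPlane hiding I
open scoped Classical MatrixGroups

namespace Pool.Agent.Lib.MP_696deb_nt.Y3

open CL (O nm wC)

variable {m : ℕ}

/-- The matrix of a representative of the Hecke operator. -/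
def hkM (x : Σ _ : ℕ × ℕ, ℕ) : MZ := ut x.1.1 x.2 x.1.2

theorem gc1_mem {x : Σ _ : ℕ × ℕ, ℕ} : x ∈ HI m ↔ (x.1.1 * x.1.2 = m ∧ m ≠ 0) ∧ x.2 < x.1.2 := by
  rw [HI, mem_sigma, Nat.mem_divisorsAntidiagonal, mem_range]

theorem hkM_det (x : HI m) : (hkM x).det = m := by
  rw [hkM, det_ut, ← Nat.cast_mul, (gc1_mem.1 x.2).1.1]

theorem gc1_pos (hm : m.Coprime 21) : 0 < m := Nat.pos_of_ne_zero fun e => by simp [e] at hm

theorem gc1_dvd (γ : Gamma0 21) : (21 : ℤ) ∣ ((γ : SL(2, ℤ)) : MZ) 1 0 :=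
  (ZMod.intCast_zmod_eq_zero_iff_dvd _ 21).1 (Gamma0_mem.1 γ.2)

theorem exists_coset (hm : m.Coprime 21) {g : MZ} (hd : g.det = m) (hc : 21 ∣ g 1 0) :
    ∃ x : HI m, ∃ γ : Gamma0 21, g = ((γ : SL(2, ℤ)) : MZ) * hkM x := by
  have m0 := gc1_pos hm
  obtain ⟨a, b, e, T, h1, h2, h3⟩ := exists_ut (M := g) (by rw [hd]; exact_mod_cast m0)
  have h4 : a * e = m := by
    rw [h3, Matrix.det_mul, h2, det_ut, one_mul] at hd
    exact_mod_cast hd
  have h5 : (21 : ℤ) ∣ T 1 0 := by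
    refine IsCoprime.dvd_of_dvd_mul_right (Nat.isCoprime_iff_coprime.2
      (Nat.Coprime.coprime_mul_right (h4 ▸ hm : (a * e).Coprime 21)).symm) ?_
    simpa [h3, ut, Matrix.mul_apply] using hc
  exact ⟨⟨⟨(a, e), b⟩, gc1_mem.2 ⟨⟨h4, m0.ne'⟩, h1⟩⟩,
    ⟨⟨T, h2⟩, Gamma0_mem.2 ((ZMod.intCast_zmod_eq_zero_iff_dvd _ 21).2 h5)⟩, h3⟩

theorem coset_uniq {x y : HI m} {γ δ : Gamma0 21}
    (h : ((γ : SL(2, ℤ)) : MZ) * hkM x = ((δ : SL(2, ℤ)) : MZ) * hkM y) : x = y := by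
  have e : hkM x = (((γ⁻¹ * δ : Gamma0 21) : SL(2, ℤ)) : MZ) * hkM y := by
    rw [Subgroup.coe_mul, Matrix.SpecialLinearGroup.coe_mul, Matrix.mul_assoc, ← h,
      ← Matrix.mul_assoc, ← Matrix.SpecialLinearGroup.coe_mul, ← Subgroup.coe_mul, inv_mul_cancel]
    simp
  obtain ⟨⟨⟨a, e1⟩, b⟩, hx⟩ := x
  obtain ⟨⟨⟨a', e2⟩, b'⟩, hy⟩ := y
  obtain ⟨⟨x1, x0⟩, x2⟩ := gc1_mem.1 hx
  obtain ⟨rfl, rfl, rfl⟩ := ut_inj (Nat.pos_of_ne_zero (left_ne_zero_of_mul (x1 ▸ x0))) x2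
    (gc1_mem.1 hy).2 (Matrix.SpecialLinearGroup.det_coe _) e
  rfl

/-- The matrices of determinant `m` and level twenty-one, coset by coset. -/
theorem hasSum_hecke (hm : m.Coprime 21) {F : MZ → ℂ} {a : HI m → ℂ}
    (h : ∀ x : HI m, HasSum (fun γ : Gamma0 21 => F (((γ : SL(2, ℤ)) : MZ) * hkM x)) (a x)) :
    HasSum (fun g : MZ => if g.det = m ∧ 21 ∣ g 1 0 then F g else 0) (∑ x, a x) := by
  have m0 : (m : ℤ) ≠ 0 := by exact_mod_cast (gc1_pos hm).ne'
  let e : HI m → Gamma0 21 → MZ := fun x γ => ((γ : SL(2, ℤ)) : MZ) * hkM x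
  have inj : ∀ x, Function.Injective (e x) := fun x γ γ' k => by
    have := congrArg (· * (hkM x).adjugate) k
    simp only [e, Matrix.mul_assoc, Matrix.mul_adjugate, hkM_det, Matrix.mul_smul,
      Matrix.mul_one] at this
    exact Subtype.ext (Subtype.ext (smul_right_injective _ m0 this))
  have k : ∀ x, HasSum (fun g => if g ∈ Set.range (e x) then F g else 0) (a x) := fun x =>
    ((inj x).hasSum_iff fun g hg => if_neg hg).1 ((h x).congr_fun fun γ => if_pos ⟨γ, rfl⟩)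
  refine (hasSum_sum fun x (_ : x ∈ univ) => k x).congr_fun fun g => ?_
  split_ifs with hg
  · obtain ⟨x, γ, e5⟩ := exists_coset hm hg.1 hg.2
    rw [sum_eq_single x (fun y _ hy => if_neg ?_) (by simp), if_pos ⟨γ, e5.symm⟩]
    rintro ⟨δ, hδ⟩
    exact hy (coset_uniq (hδ.trans e5))
  · refine (sum_eq_zero fun x _ => if_neg ?_).symm
    rintro ⟨γ, rfl⟩
    refine hg ⟨by rw [Matrix.det_mul, hkM_det, Matrix.SpecialLinearGroup.det_coe, one_mul], ?_⟩
    simpa [e, hkM, ut, Matrix.mul_apply] using (gc1_dvd γ).mul_right _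

/-- The reflection permutes the cosets. -/
theorem sum_mir (hm : m.Coprime 21) {H : MZ → ℂ}
    (hH : ∀ (γ : Gamma0 21) (x : HI m), H (((γ : SL(2, ℤ)) : MZ) * hkM x) = H (hkM x)) {t : MZ}
    (ht : t.det = 1) (hc : 21 ∣ t 1 0) :
    ∑ x : HI m, H (!![-1, 0; 0, 1] * hkM x * !![-1, 0; 0, 1] * t) = ∑ x : HI m, H (hkM x) := by
  have jj : (!![-1, 0; 0, 1] : MZ) * !![-1, 0; 0, 1] = 1 := by decide
  have jd : (!![-1, 0; 0, 1] : MZ).det = -1 := by decide
  choose s γ hs using fun x : HI m => exists_coset hm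
    (g := !![-1, 0; 0, 1] * hkM x * !![-1, 0; 0, 1] * t)
    (by simp only [Matrix.det_mul, hkM_det, ht, jd]; ring) (by
      simpa [hkM, ut, Matrix.mul_apply, Matrix.vecMul, dotProduct] using hc.mul_left _)
  have inj : Function.Injective s := fun x y e => by
    obtain ⟨δ, hδ⟩ : ∃ δ : Gamma0 21, δ = γ x * (γ y)⁻¹ := ⟨_, rfl⟩
    have e1 : !![-1, 0; 0, 1] * hkM x * !![-1, 0; 0, 1] * t =
        ((δ : SL(2, ℤ)) : MZ) * (!![-1, 0; 0, 1] * hkM y * !![-1, 0; 0, 1] * t) := by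
      rw [hs, hs, e, ← Matrix.mul_assoc, ← Matrix.SpecialLinearGroup.coe_mul, ← Subgroup.coe_mul,
        hδ, inv_mul_cancel_right]
    have e2 := congrArg (fun X => !![-1, 0; 0, 1] * X * t.adjugate * !![-1, 0; 0, 1]) e1
    simp only [Matrix.mul_assoc, Matrix.mul_adjugate, ht, one_smul, jj, Matrix.mul_one] at e2
    simp only [← Matrix.mul_assoc, jj, Matrix.one_mul] at e2
    refine coset_uniq (γ := 1) (δ := ⟨⟨!![-1, 0; 0, 1] * ((δ : SL(2, ℤ)) : MZ) * !![-1, 0; 0, 1],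
      by simp only [Matrix.det_mul, jd, Matrix.SpecialLinearGroup.det_coe]; ring⟩,
      Gamma0_mem.2 ((ZMod.intCast_zmod_eq_zero_iff_dvd _ 21).2 ?_)⟩)
      (by simpa using e2)
    simpa [Matrix.mul_apply, Matrix.vecMul, dotProduct] using gc1_dvd δ
  rw [← (Equiv.ofBijective s (Finite.injective_iff_bijective.1 inj)).sum_comp fun x => H (hkM x)]
  exact sum_congr rfl fun x _ => by rw [hs, hH]; rfl

/-- The distance of two points in terms of the pair. -/
theorem cosh_mb {B : MZ} (hB : 0 < B.det) {α β : O} (h : nm β < nm α) {z w : ℍ}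
    (hz : (z : ℂ) = act B wC) (hw : (w : ℂ) = act (B * mb α β) wC) :
    Real.cosh (dist z w) = (nm α + nm β) / (nm α - nm β) := by
  have hI := Dat.d2_wC
  have d1 : (B * mb α β).det = B.det * (nm α - nm β) := by rw [Matrix.det_mul, mb_det]
  have n1 := den_ne' hB.ne' hI
  have n2 := den_ne' (d1 ▸ mul_pos hB (sub_pos.2 h)).ne' hI
  have i1 : ∀ M : MZ, (act M wC).im = M.det * wC.im / ‖den M wC‖ ^ 2 := fun M => by
    rw [act, im_mob, Matrix.det_fin_two, den]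
  have e : (z - w : ℂ) = (2 * wC + 1) * CL.toC β * B.det / (den B wC * den (B * mb α β) wC) := by
    rw [hz, hw, act, act, mob, mob, ← den, ← den, div_sub_div _ _ n1 n2]
    congr 1
    simp only [den, Matrix.mul_apply, Fin.sum_univ_two, Matrix.det_fin_two, mb, CL.toC_apply,
      Matrix.of_apply, Matrix.cons_val', Matrix.cons_val_zero, Matrix.cons_val_one,
      Matrix.cons_val_fin_one]
    push_cast
    linear_combination (B 0 0 * B 1 1 - B 0 1 * B 1 0 : ℂ) * (α.im - β.im) * CL.wC_sq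
  have e0 : ‖2 * wC + 1‖ ^ 2 = 4 * wC.im ^ 2 := by
    rw [Complex.sq_norm, normSq_apply]
    simp [wC]
    ring
  have e1 : ‖CL.toC β‖ ^ 2 = nm β := by rw [Complex.sq_norm, CL.normSq_toC]
  have p1 : (0 : ℝ) < B.det := by exact_mod_cast hB
  have p2 : (0 : ℝ) < nm α - nm β := by exact_mod_cast sub_pos.2 h
  have p3 := norm_pos_iff.2 n1
  have p4 := norm_pos_iff.2 n2
  rw [cosh_dist, Complex.dist_eq, e, ← coe_im, ← coe_im, hz, hw, i1, i1, d1]
  simp only [norm_div, norm_mul, div_pow, mul_pow, e0, e1, Complex.norm_intCast, sq_abs]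
  rw [Int.cast_mul, Int.cast_sub]
  field_simp
  ring

/-- Pairs with given difference of norms, sorted by the second norm. -/
theorem hasSum_reps {μ : ℕ} {f : O → O → ℂ} {a : ℂ}
    (h : HasSum (fun v : O × O => if nm v.1 - nm v.2 = μ then f v.1 v.2 else 0) a) :
    HasSum (fun k : ℕ => ∑ A ∈ CL.reps (μ + k), ∑ β ∈ CL.reps k, f A β) a := by
  refine (h.tsum_fiberwise fun v => (nm v.2).toNat).congr_fun fun k => ?_
  rw [_root_.tsum_subtype _ fun v : O × O => if nm v.1 - nm v.2 = μ then f v.1 v.2 else 0,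
    tsum_eq_sum (s := CL.reps (μ + k) ×ˢ CL.reps k), sum_product]
  · refine sum_congr rfl fun A hA => sum_congr rfl fun β hβ => ?_
    rw [CL.mem_reps] at hA hβ
    rw [Set.indicator_of_mem (by simp [hβ]), if_pos (by simp [hA, hβ])]
  · intro v hv
    refine Set.indicator_apply_eq_zero.2 fun h1 => if_neg fun h2 => hv ?_
    have := CL.nm_nonneg v.2
    simp only [Set.mem_preimage, Set.mem_singleton_iff, mem_product, CL.mem_reps] at h1 ⊢
    omega

end Pool.Agent.Lib.MP_696deb_nt.Y3
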