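import Pool.Agent.Lib.MP_696deb_nt.Y3.GC1
import Pool.Agent.Lib.MP_696deb_nt.Y3.AI

/-! The Green function and the roots of unity. -/

set_option autoImplicit false

open Complex Finset
open scoped Classical ComplexConjugate

namespace Pool.Agent.Lib.MP_696deb_nt.Y3

open CL (O wC)
open EW (LG)

variable {p q l z ζ : ℂ}

theorem gc2_add (hl : l ∈ LG.lattice) : ‖kl (z + l)‖ = ‖kl z‖ := Shared.Weier.norm_klein_add hl z

theorem gc2_left (hl : l ∈ LG.lattice) : Gr (p + l) z = Gr p z :=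
  sum_congr rfl fun k _ => by rw [mul_add, add_sub_right_comm, gc2_add (EW.mul_mem_LG _ hl)]

theorem gc2_right (hl : l ∈ LG.lattice) : Gr p (z + l) = Gr p z :=
  sum_congr rfl fun k _ => by rw [← sub_sub, sub_eq_add_neg _ l, gc2_add (neg_mem hl)]

theorem gc2_rot (h : ζ ^ 6 = 1) (z : ℂ) : ‖kl (ζ * z)‖ = ‖kl z‖ := by
  have r : Y2.An.Rot LG ζ := crvY_ok.rot' h
  rw [kl, kl, r.sig_mul, r.eta_mul, mul_assoc, norm_mul, r.norm, one_mul, mul_mul_mul_comm,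
    mul_comm (conj ζ), (crvY_ok.conj_pow h).2, one_mul]

theorem gc2_roots (p q : ℂ) :
    Gr p q = ∑ ζ ∈ Y2.An.mu 6, conj ζ * (Real.log ‖kl (ζ * p - q)‖ : ℝ) := by
  have k : ∀ k : ZMod 6, ip k ^ 6 = 1 := by decide
  have k' : ∀ x : ZMod 21, nb x = 0 ∨ ∃ k, ip k = nb x := by decide +kernel
  refine sum_bij (fun k _ => CL.toC (ip k)) (fun j _ => ?_) (fun a _ b _ e => ?_)
    (fun ζ h => ?_) fun k _ => by rw [CL.toC_star]
  · rw [Y2.An.mem_mu (by norm_num), ← map_pow, k, map_one]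
  · exact ip_inj a b (CL.toC_inj e)
  · obtain ⟨d, hd, rfl⟩ := exists_unit ((Y2.An.mem_mu (by norm_num)).1 h)
    obtain ⟨j, e⟩ := (k' d).resolve_left (nb_ne.2 hd)
    exact ⟨j, mem_univ _, by rw [e]⟩

theorem gc2_unit {a b : O} (ha : a ^ 6 = 1) (hb : b ^ 6 = 1) :
    Gr (CL.toC a * p) (CL.toC b * z) = CL.toC a * CL.toC (star b) * Gr p z := by
  have h1 : CL.toC a ^ 6 = 1 := by rw [← map_pow, ha, map_one]
  have h2 : CL.toC b ^ 6 = 1 := by rw [← map_pow, hb, map_one]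
  obtain ⟨a1, a2⟩ := crvY_ok.conj_pow h1
  obtain ⟨b1, b2⟩ := crvY_ok.conj_pow h2
  rw [gc2_roots, gc2_roots, CL.toC_star, mul_sum, ← Y2.An.sum_mu_mul (by norm_num)
    (show (conj (CL.toC a) * CL.toC b) ^ 6 = 1 by rw [mul_pow, h2, mul_one]; exact a1)]
  refine sum_congr rfl fun ζ _ => ?_
  rw [show ζ * (conj (CL.toC a) * CL.toC b) * (CL.toC a * p) - CL.toC b * z =
    CL.toC b * (ζ * p - z) by linear_combination ζ * CL.toC b * p * a2, gc2_rot h2, map_mul,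
    map_mul, conj_conj]
  ring

theorem gc2_log (h : z ∉ LG.lattice) : Real.log ‖kl z‖ = Y2.An.lamL LG z := by
  rw [kl, norm_mul, Real.log_mul (norm_ne_zero_iff.2 (Shared.Weier.sig_ne h))
    (norm_ne_zero_iff.2 (exp_ne_zero _)), norm_exp, Real.log_exp, neg_re, div_ofNat_re, mul_comm _ z]
  rfl

end Pool.Agent.Lib.MP_696deb_nt.Y3
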