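import Pool.Agent.Lib.MP_696deb_nt.Y3.MF
import Pool.Agent.Lib.MP_696deb_nt.Y2.M6
import Pool.Agent.Lib.MP_696deb_nt.CL.F3
import Pool.Agent.Lib.MP_696deb_nt.CL.F6

/-! The coefficients, the primitive and the Hecke operators. -/

set_option autoImplicit false

open Filter Topology Complex PeriodPair ModularForm PowerSeries Pool.Agent.Shared.Weier
open scoped Real ComplexConjugate

namespace Pool.Agent.Lib.MP_696deb_nt.Y3

open CL (O nm om wC mem_reps)

variable {τ z w : ℂ} {a b c d : ℤ}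

theorem psi_mul (α β : O) : psi (α * β) = psi α * psi β := by
  rw [psi, psi, psi, r7_mul, ep_mul, mul_mul_mul_comm]

theorem r7_nat (p : ℕ) : r7 p = p := by simpa using r7_int p

theorem six_aG (m : ℕ) : ∑ α ∈ CL.reps m, psi α = 6 * aG m := by
  have key : ∀ r : ZMod 7, r ≠ 0 → ∑ α ∈ (CL.reps m).filter fun α => r7 α = r, psi α = aG m :=
    fun r hr => by
      obtain ⟨u1, -, u3, u4⟩ := ep_unit r hr
      have e : ∀ α : O, ep r * (star (ep r) * α) = α := fun α => by rw [← mul_assoc, u1, one_mul]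
      have u5 : r7 (star (ep r)) = r := by
        have := congrArg r7 u1
        rw [r7_mul, show r7 1 = 1 by decide] at this
        linear_combination r * this - r7 (star (ep r)) * u4
      refine Finset.sum_bij (fun α _ => ep r * α) (fun α h => ?_)
        (fun _ _ _ _ h => mul_left_cancel₀ (left_ne_zero_of_mul_eq_one u1) h)
        (fun α h => ⟨star (ep r) * α, ?_, e α⟩) fun α h => ?_
      · rw [Finset.mem_filter, mem_reps] at h ⊢
        exact ⟨by rw [CL.nm_mul, u3, h.1, one_mul], by rw [r7_mul, h.2, u4]⟩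
      · rw [Finset.mem_filter, mem_reps] at h ⊢
        exact ⟨by rw [CL.nm_mul, CL.nm_star, u3, h.1, one_mul], by rw [r7_mul, h.2, u5, mul_one]⟩
      · rw [psi, (Finset.mem_filter.1 h).2]
  have k0 : ∑ α ∈ (CL.reps m).filter fun α => r7 α = 0, psi α = 0 :=
    Finset.sum_eq_zero fun α h => by rw [psi, (Finset.mem_filter.1 h).2, ep_zero, zero_mul]
  rw [← Finset.sum_fiberwise (CL.reps m) r7, ← Finset.add_sum_erase _ _ (Finset.mem_univ 0), k0,
    Finset.sum_congr rfl fun r hr => key r (Finset.ne_of_mem_erase hr), Finset.sum_const,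
    show (Finset.univ.erase (0 : ZMod 7)).card = 6 by decide, zero_add, nsmul_eq_mul,
    Nat.cast_ofNat]

theorem aG_zero : aG 0 = 0 := by decide +kernel

theorem aG_one : aG 1 = 1 := by decide +kernel

theorem aG_three : aG 3 = ⟨-1, 1⟩ := by decide +kernel

theorem m6_inj {x y : O} (h : 6 * x = 6 * y) : x = y := mul_left_cancel₀ (by decide) h

theorem aG_inert {p : ℕ} (hp : p.Prime) (h : p % 3 = 2) : aG p = 0 := by
  have e := CL.f3_three psi_mul hp h 1
  rw [if_neg hp.not_dvd_one, mul_one, six_aG, ← mul_zero 6] at e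
  exact m6_inj e

theorem aG_split {p : ℕ} (hp : p.Prime) (h : p % 3 = 1) {l : O} (hl : nm l = p) :
    aG p = psi l + psi (star l) := by
  have e := CL.f3_one psi_mul hp h hl 1
  rw [if_neg hp.not_dvd_one, mul_one, add_zero, six_aG, six_aG, aG_one, mul_one, mul_comm _ 6] at e
  exact m6_inj e

theorem aG_seven : aG 7 = -star p7 :=
  (aG_split (l := p7) (by norm_num) rfl (by decide)).trans (by decide)

theorem aG_two : aG 2 = 0 := aG_inert Nat.prime_two rfl

theorem aG_five : aG 5 = 0 := aG_inert Nat.prime_five rfl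

theorem aG_mul (m n : ℕ) (hm : 0 < m) (hn : 0 < n) : aG m * aG n =
    ∑ e ∈ (Nat.gcd m n).divisors, nb e * e * aG (m / e * (n / e)) := by
  classical
  refine Y2.m6_hecke (v := fun e : ℕ => nb e * e) (fun x y => ?_) (by decide) aG_one
    (fun p hp => ?_) m hm n hn
  · rw [Nat.cast_mul, Nat.cast_mul, nb_mul, mul_mul_mul_comm]
  have t : nb p = c3 p * ep p := by simpa [et] using nb_int p
  rw [← ZMod.natCast_mod p 3] at t
  suffices h : ∃ T, ∀ n, 6 * aG (p * n) + (if p ∣ n then nb p * p * (6 * aG (n / p)) else 0) =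
      T * (6 * aG n) by
    obtain ⟨T, hT⟩ := h
    intro n
    have e1 := hT 1
    have e2 := hT n
    rw [if_neg hp.not_dvd_one, mul_one, add_zero, aG_one, mul_one, mul_comm T] at e1
    rw [← m6_inj e1] at e2
    refine m6_inj ?_
    split_ifs at e2 ⊢ <;> linear_combination e2
  simp only [← six_aG]
  rcases (by omega : p % 3 = 0 ∨ p % 3 = 1 ∨ p % 3 = 2) with h | h | h <;> rw [h] at t
  · obtain rfl := (Nat.prime_dvd_prime_iff_eq Nat.prime_three hp).1 (Nat.dvd_of_mod_eq_zero h)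
    refine ⟨psi CL.th, fun n => ?_⟩
    rw [← CL.f3_div psi_mul three_ne_zero (by decide), Finset.filter_true_of_mem fun α hα => ?_,
      show nb (3 : ℕ) = 0 by decide]
    · simp
    · obtain ⟨x, hx⟩ := CL.three_dvd_nm.1 ⟨n, by rw [mem_reps.1 hα]; push_cast; rfl⟩
      refine ⟨⟨α.im - x, α.im - 2 * x⟩, ?_⟩
      ext <;> simp [CL.th] <;> omega
  · obtain ⟨z, hz, -⟩ := CL.f3_exists hp h
    refine ⟨_, fun n => Eq.trans ?_ (CL.f3_one psi_mul hp h hz n)⟩
    rw [psi, r7_nat, t, show c3 (1 : ℕ) = 1 by decide, Int.cast_one, one_mul]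
  · refine ⟨0, fun n => ?_⟩
    rw [CL.f3_three psi_mul hp h, psi, r7_nat, t, show c3 (2 : ℕ) = -1 by decide]
    split_ifs <;> simp

theorem aG_level {p : ℕ} (hp : p.Prime) (h : nb p = 0) (n : ℕ) : aG (p * n) = aG p * aG n := by
  rcases Nat.eq_zero_or_pos n with rfl | hn
  · rw [mul_zero, aG_zero, mul_zero]
  rw [aG_mul p n hp.pos hn, Finset.sum_eq_single 1]
  · simp [nb_one]
  · intro e he h1
    rcases (Nat.dvd_prime hp).1 ((Nat.dvd_of_mem_divisors he).trans
      (Nat.gcd_dvd_left p n)) with rfl | rfl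
    · exact absurd rfl h1
    · rw [h, zero_mul, zero_mul]
  · simp [hp.ne_zero]

theorem aG_four : aG 4 = ⟨-2, -2⟩ := by
  have e := aG_mul 2 2 two_pos two_pos
  rw [aG_two, Nat.gcd_self, Nat.prime_two.sum_divisors, show 2 / 2 * (2 / 2) = 1 from rfl, aG_one,
    show 2 / 1 * (2 / 1) = 4 from rfl, show nb (1 : ℕ) * (1 : ℕ) = 1 by decide, one_mul,
    eq_comm, ← sub_eq_zero, add_sub_right_comm, add_comm, add_eq_zero_iff_eq_neg] at e
  exact e.trans (by decide)

theorem aG_six : aG 6 = 0 := by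
  rw [show 6 = 3 * 2 from rfl, aG_level Nat.prime_three (by decide), aG_two, mul_zero]

theorem norm_ep_le (r : ZMod 7) : ‖CL.toC (ep r)‖ ≤ 1 := by
  have k : ∀ r : ZMod 7, nm (ep r) ≤ 1 := by decide
  have : ((nm (ep r) : ℤ) : ℝ) ≤ 1 := by exact_mod_cast k r
  rw [← CL.normSq_toC, Complex.normSq_eq_norm_sq] at this
  exact (sq_le_one_iff₀ (norm_nonneg _)).1 this

theorem summable_psi (h : 0 < τ.im) : Summable fun α : O => CL.toC (psi α) / 6 * q1 (nm α * τ) := by
  refine .of_norm_bounded ((CL.summable_tht (f := fun α => CL.toC (ep (r7 α)))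
    (fun α => norm_ep_le _) (t := 2 * τ.im) (by positivity)).div_const 6) fun α => le_of_eq ?_
  rw [norm_mul, norm_div, norm_q1, psi, map_mul, norm_mul (_ * _), Complex.norm_real,
    Real.norm_of_nonneg (Real.exp_pos _).le]
  simp only [norm_mul, norm_ofNat, mul_im, intCast_re, intCast_im, zero_mul, add_zero]
  ring_nf

theorem m6_fib (h : 0 < τ.im) : HasSum (fun m : ℕ => CL.toC (aG m) * q1 τ ^ m)
    (∑' α : O, CL.toC (psi α) / 6 * q1 (nm α * τ)) := by
  convert! (summable_psi h).hasSum.tsum_fiberwise fun α => (nm α).natAbs using 2 with n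
  have e : (fun α : O => (nm α).natAbs) ⁻¹' {n} = CL.reps n := by
    ext α
    have := CL.nm_nonneg α
    simp only [Set.mem_preimage, Set.mem_singleton_iff, Finset.mem_coe, mem_reps]
    omega
  rw [e, Finset.tsum_subtype' (CL.reps n) fun α => CL.toC (psi α) / 6 * q1 (nm α * τ),
    Finset.sum_congr rfl (g := fun α => CL.toC (psi α) * (q1 τ ^ n / 6)) fun α hα => by
      rw [mem_reps.1 hα, Int.cast_natCast, q1_nat_mul]; ring,
    ← Finset.sum_mul, ← map_sum, six_aG, map_mul, map_ofNat]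
  ring

/-- The cusp form as a theta series. -/
theorem hasSum_psi (h : 0 < τ.im) :
    HasSum (fun α : O => CL.toC (psi α) / 6 * q1 (nm α * τ)) (fY τ) := by
  rw [fY, (m6_fib h).tsum_eq]
  exact (summable_psi h).hasSum

theorem qe_phi : QE phi (PowerSeries.mk fun m => CL.toC (aG m) / m) :=
  QE.of_hasSum fun z hz => by
    obtain ⟨H, hH, _⟩ := qe_fY
    simp only [coeff_mk]
    refine (Summable.of_norm_bounded (hH.summable_norm (norm_q1_lt hz)) fun n => ?_).hasSum
    rw [norm_mul, norm_mul, norm_div, coeff_mk]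
    gcongr
    rcases Nat.eq_zero_or_pos n with rfl | hn
    · simp
    · exact div_le_self (norm_nonneg _) (by simpa using Nat.succ_le_of_lt hn)

theorem hasDerivAt_phi (h : 0 < τ.im) : HasDerivAt phi (2 * π * I * fY τ) τ := by
  obtain ⟨F₁, h1, h2⟩ := qe_phi.hasDerivAt
  have h3 : X * d⁄dX ℂ (PowerSeries.mk fun n => CL.toC (aG n) / n) =
      PowerSeries.mk fun n => CL.toC (aG n) := by
    ext n
    rcases n with _ | n
    · simp [aG_zero]
    · have : (n + 1 : ℂ) ≠ 0 := Nat.cast_add_one_ne_zero n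
      simp [coeff_succ_X_mul, coeff_derivative, this]
  rw [h3] at h1
  exact qe_fY.eq_of_eq h1 h ▸ h2 τ h

theorem tendsto_phi : Tendsto (fun z => phi z / q1 z) atI (𝓝 1) := by
  have h1 : (PowerSeries.mk fun n => CL.toC (aG n) / n) =
      X ^ 1 * PowerSeries.mk fun n => CL.toC (aG (n + 1)) / (n + 1 : ℕ) := by
    ext n
    rcases n with _ | n <;> simp [coeff_succ_X_mul]
  have := (h1 ▸ qe_phi).of_X_pow_mul.tendsto
  simpa [aG_one] using this

theorem tendsto_fY : Tendsto (fun z => fY z / q1 z) atI (𝓝 1) := by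
  have h1 : (PowerSeries.mk fun n => CL.toC (aG n)) =
      X ^ 1 * PowerSeries.mk fun n => CL.toC (aG (n + 1)) := by
    ext n
    rcases n with _ | n <;> simp [coeff_succ_X_mul, aG_zero]
  have := (h1 ▸ qe_fY).of_X_pow_mul.tendsto
  simpa [aG_one] using this

/-- The Hecke operators. -/
theorem phi_hecke {m : ℕ} (hm : 0 < m) (h : 0 < τ.im) :
    ∑ x ∈ m.divisorsAntidiagonal, CL.toC (nb x.1) * ∑ k ∈ Finset.range x.2,
      phi ((x.1 * τ + k) / x.2) = CL.toC (aG m) * phi τ := by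
  have h1 : ∀ x ∈ m.divisorsAntidiagonal, HasSum (fun n => (if x.1 ∣ n then
      CL.toC (nb x.1 * x.1 * aG (m / x.1 * (n / x.1))) else 0 : ℂ) / n * q1 τ ^ n)
      (CL.toC (nb x.1) * ∑ k ∈ Finset.range x.2, phi ((x.1 * τ + k) / x.2)) := fun x hx => by
    obtain ⟨n1, n2⟩ := Nat.ne_zero_of_mem_divisorsAntidiagonal hx
    have c1 : (x.1 : ℂ) ≠ 0 := by exact_mod_cast n1
    have c2 : (x.2 : ℂ) ≠ 0 := by exact_mod_cast n2
    convert! ((((Y2.m6_U qe_phi n2).expand x.1 n1).hasSum h).mul_left (CL.toC (nb x.1)))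
      using 2 with n
    rw [coeff_expand, ← (Nat.mem_divisorsAntidiagonal.1 hx).1, Nat.mul_div_cancel_left _ n1.bot_lt]
    split_ifs with k
    · obtain ⟨l, rfl⟩ := k
      simp only [Nat.mul_div_cancel_left _ n1.bot_lt, coeff_mk, map_mul, map_natCast, Nat.cast_mul]
      field_simp
    · simp
  refine (hasSum_sum h1).unique ?_
  convert! (qe_phi.hasSum h).mul_left (CL.toC (aG m)) using 2 with n
  rw [← Finset.sum_mul, ← Finset.sum_div, coeff_mk, ← mul_assoc, ← mul_div_assoc]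
  rcases n.eq_zero_or_pos with rfl | hn
  · simp
  rw [← map_mul, aG_mul m n hm hn, map_sum, Nat.sum_divisorsAntidiagonal fun x _ => if x ∣ n then
    CL.toC (nb x * x * aG (m / x * (n / x))) else 0, ← Finset.sum_filter]
  congr 3
  ext e
  simp [Nat.dvd_gcd_iff, hm.ne']

/-- The Hecke operators act on the uniformising function up to a constant. -/
theorem uu_hecke {m : ℕ} (hm : 0 < m) : ∃ C : ℂ, ∀ τ : ℂ, 0 < τ.im →
    ∑ x ∈ m.divisorsAntidiagonal, CL.toC (nb x.1) * ∑ k ∈ Finset.range x.2,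
      uu ((x.1 * τ + k) / x.2) = CL.toC (aG m) * uu τ + C := by
  refine ⟨rho * phi e1 * (CL.toC (aG m) - ∑ x ∈ m.divisorsAntidiagonal, CL.toC (nb x.1) * x.2),
    fun τ h => ?_⟩
  have e : ∀ x : ℕ × ℕ, CL.toC (nb x.1) * ∑ k ∈ Finset.range x.2, uu ((x.1 * τ + k) / x.2) =
      rho * (CL.toC (nb x.1) * ∑ k ∈ Finset.range x.2, phi ((x.1 * τ + k) / x.2)) -
        rho * phi e1 * (CL.toC (nb x.1) * x.2) := fun x => by
    simp only [uu, ← Finset.mul_sum, Finset.sum_sub_distrib, Finset.sum_const, Finset.card_range,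
      nsmul_eq_mul]
    ring
  simp only [e, Finset.sum_sub_distrib, ← Finset.mul_sum, phi_hecke hm h]
  rw [uu]
  ring

/-- The Hecke operators at the primes that divide the level. -/
theorem uu_U {p : ℕ} (hp : p.Prime) (h0 : nb p = 0) : ∃ C : ℂ, ∀ τ : ℂ, 0 < τ.im →
    ∑ k ∈ Finset.range p, uu ((τ + k) / p) = CL.toC (aG p) * uu τ + C := by
  obtain ⟨C, hC⟩ := uu_hecke hp.pos
  refine ⟨C, fun τ h => ?_⟩
  rw [← hC τ h, Nat.sum_divisorsAntidiagonal fun a d => CL.toC (nb a) * ∑ k ∈ Finset.range d,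
    uu ((a * τ + k) / d), hp.sum_divisors, h0]
  simp [nb_one]

theorem uu_U3 : ∃ C : ℂ, ∀ τ : ℂ, 0 < τ.im →
    ∑ k ∈ Finset.range 3, uu ((τ + k) / 3) = CL.toC (aG 3) * uu τ + C := by
  simpa using uu_U Nat.prime_three (by decide)

theorem uu_U7 : ∃ C : ℂ, ∀ τ : ℂ, 0 < τ.im →
    ∑ k ∈ Finset.range 7, uu ((τ + k) / 7) = CL.toC (aG 7) * uu τ + C := by
  simpa using uu_U (p := 7) (by norm_num) (by decide)

end Pool.Agent.Lib.MP_696deb_nt.Y3
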