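import Pool.Agent.Lib.MP_696deb_nt.Y3.TLr
import Pool.Agent.Lib.MP_696deb_nt.Y3.TH1
import Pool.Agent.Lib.MP_696deb_nt.Y3.M6

/-! The series of the analytic side as a sum over pairs. -/

set_option autoImplicit false

open scoped Classical NNReal ComplexConjugate
open Finset

namespace Pool.Agent.Lib.MP_696deb_nt.Y3.TL

open EV

/-- The conjugate of the character of the cusp form. -/
noncomputable def U0 (a : O) : ℂ := conj (CL.toC (psi a))

/-- The series of the analytic side. -/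
noncomputable def RS (ψ : O → ℂ) (b : ℕ → ℂ) (s : ℂ) : ℂ := ∑' k : ℕ, (k : ℂ) ^ (-(2 * s + 1)) *
  LSeries (fun m => (Wt (-7 * k) k / CL.toC CL.th * ∑ y ∈ CL.reps m, ψ (k * y)) * conj (b m))
    (s + 1)

theorem U0_mul (a b : O) : U0 (a * b) = U0 a * U0 b := by
  rw [U0, U0, U0, psi_mul, map_mul, map_mul]

theorem U0_om (a : O) : U0 (-om * a) = U0 a := by
  rw [U0_mul, U0, show psi (-om) = 1 by decide, map_one, map_one, one_mul]

theorem U0_le (a : O) : ‖U0 a‖ ≤ ‖CL.toC a‖ := by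
  rw [U0, Complex.norm_conj, psi, map_mul, norm_mul]
  exact mul_le_of_le_one_left (norm_nonneg _) (norm_ep_le _)

theorem t8_three {k : ℕ} (hk : 3 ∣ k) (y : O) : w ∣ k * y := by
  obtain ⟨j, rfl⟩ := hk
  push_cast
  exact (Dvd.dvd.mul_right (⟨-w, by decide⟩ : w ∣ 3) _).mul_right y

theorem t8_fib {ψ : O → ℂ} (o : ∀ a, w ∣ a → ψ a = 0) {b : ℕ → ℂ} {β : ℂ}
    (hb : ∀ m, b m = β * CL.toC (aG m)) {s Z : ℂ}
    (h : HasSum (fun x : ℕ × O => ψ (x.1 * x.2) *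
      (∑ y ∈ CL.reps (nm x.2), U0 (x.1 * y)) / (nm (x.1 * x.2) : ℂ) ^ (s + 1)) Z) :
    RS ψ b s = conj β / (6 * CL.toC CL.th) * Z := by
  refine ((h.mul_left _).prod_fiberwise fun k => ?_).tsum_eq
  have h1 := ((h.mul_left (conj β / (6 * CL.toC CL.th))).summable.prod_factor k).hasSum
  refine Eq.subst (motive := fun x => HasSum _ x) (Eq.symm ?_) h1
  rw [LSeries, ← tsum_mul_left]
  refine ((h1.tsum_fiberwise nm).congr_fun fun m => ?_).tsum_eq
  rw [show nm ⁻¹' {m} = (CL.reps m : Set O) from Set.ext fun y => mem_reps.symm,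
    Finset.tsum_subtype' (CL.reps m) fun y : O => conj β / (6 * CL.toC CL.th) *
      (ψ (k * y) * (∑ y ∈ CL.reps (nm y), U0 (k * y)) / (nm (k * y) : ℂ) ^ (s + 1))]
  by_cases hk : 3 ∣ k
  · simp [o _ (t8_three hk _), LSeries.term_def]
  have k0 : (k : ℂ) ≠ 0 := Nat.cast_ne_zero.2 fun e => hk (e ▸ dvd_zero _)
  have e1 : ∑ y ∈ CL.reps m, U0 (k * y) = Wt (-7 * k) k * k * (6 * conj (CL.toC (aG m))) := by
    simp only [U0_mul, ← mul_sum]
    rw [Wt, if_pos ⟨by omega, by omega⟩, U0, psi, r7_nat]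
    simp only [U0, ← map_sum, six_aG]
    simp [map_ofNat]
  rw [sum_congr rfl (g := fun y => conj β / (6 * CL.toC CL.th) * (ψ (k * y) *
    (Wt (-7 * k) k * k * (6 * conj (CL.toC (aG m)))) / ((k * k * m : ℕ) : ℂ) ^ (s + 1)))
    fun y hy => by rw [g1_nm_mul, g1_nm_nat, mem_reps.1 hy, e1, sq], ← mul_sum, ← sum_div,
    ← sum_mul]
  rcases eq_or_ne m 0 with rfl | m0
  · simp [aG_zero]
  rw [LSeries.term_of_ne_zero m0, hb, Nat.cast_mul, Complex.natCast_mul_natCast_cpow, Nat.cast_mul,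
    Complex.natCast_mul_natCast_cpow, show -(2 * s + 1) = 1 - (s + 1) - (s + 1) by ring,
    Complex.cpow_sub _ _ k0, Complex.cpow_sub _ _ k0, Complex.cpow_one, map_mul]
  have := Complex.cpow_ne_zero_iff.2 (.inl k0 : _ ∨ s + 1 = 0)
  have := Complex.cpow_ne_zero_iff.2 (.inl (Nat.cast_ne_zero.2 m0) : (m : ℂ) ≠ 0 ∨ s + 1 = 0)
  have := th_ne
  field_simp

/-- The series as a sum over pairs. -/
theorem rs_one {ψ : O → ℂ} {K : ℝ} (hψ : ∀ a, ‖ψ a‖ ≤ K) (o : ∀ a, w ∣ a → ψ a = 0) {b : ℕ → ℂ}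
    {β : ℂ} (hb : ∀ m, b m = β * CL.toC (aG m)) {s : ℂ} (hs : 1 / 2 < s.re) :
    RS ψ b s = conj β / (6 * CL.toC CL.th) *
      ∑' p : O × O, ψ (p.1 * p.2) * U0 (p.1 * star p.2) / (nm (p.1 * p.2) : ℂ) ^ (s + 1) :=
  t8_fib o hb (rp (fun a => (hψ a).trans (le_max_left _ 1)) (fun a =>
    (U0_le a).trans (le_mul_of_one_le_left (norm_nonneg _) (le_max_right _ _))) o U0_om
    (by rw [Complex.add_re, Complex.one_re]; linarith))

end Pool.Agent.Lib.MP_696deb_nt.Y3.TL
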