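import Pool.Agent.Lib.MP_696deb_nt.Y3.D4
import Pool.Agent.Lib.MP_696deb_nt.Y3.P0
import Pool.Agent.Lib.MP_696deb_nt.Y3.B0
import Pool.Agent.Lib.MP_696deb_nt.Y3.TL8a

/-! The series of the analytic side is a multiple of the L-function of the character. -/

set_option autoImplicit false

open scoped Classical ComplexConjugate
open Complex Finset

namespace Pool.Agent.Lib.MP_696deb_nt.Y3

open CL (O nm)
open TL (RS U0 DS)

theorem gl_ext {F L : ℂ → ℂ} (hF : Differentiable ℂ F) (hL : Differentiable ℂ L) {σ : ℝ}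
    (h : ∀ s : ℂ, σ < s.re → F s = L s) : F = L := by
  refine AnalyticOnNhd.eq_of_eventuallyEq (fun z _ => hF.analyticAt z)
    (fun z _ => hL.analyticAt z) (z₀ := σ + 1) ?_
  filter_upwards [(isOpen_lt continuous_const continuous_re).mem_nhds
    (show (σ + 1 : ℂ) ∈ {s : ℂ | σ < s.re} by simp)] with s hs using h s hs

theorem gl_cut {T : O → ℂ} (hT : ∀ a b, T (a * b) = T a * T b) {z : O} (hz : z ≠ 0) {Z : ℂ}
    (h : HasSum T Z) : HasSum (fun a => if z ∣ a then 0 else T a) ((1 - T z) * Z) := by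
  have k : HasSum (fun a => if z ∣ a then T a else 0) (T z * Z) :=
    ((mul_right_injective₀ hz).hasSum_iff fun a ha => if_neg fun ⟨c, e⟩ => ha ⟨c, e.symm⟩).1
      ((h.mul_left _).congr_fun fun a => by simp [hT])
  rw [sub_mul, one_mul]
  exact (h.sub k).congr_fun fun a => by split_ifs <;> simp

theorem gl_r7 (a : O) : p7 ∣ a ↔ r7 a = 0 := by
  rw [show (0 : ZMod 7) = r7 0 by decide, r7_eq]
  exact exists_congr fun c => by rw [add_zero, eq_comm]

theorem gl_r7' (a : O) : star p7 ∣ a ↔ r7 (star a) = 0 := by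
  rw [← gl_r7]
  exact ⟨fun h => star_star p7 ▸ CL.f3_star (by rwa [star_star]), fun h => CL.f3_star h⟩

theorem gl_cop (a : O) : IsCoprime a 7 ↔ r7 a ≠ 0 ∧ r7 (star a) ≠ 0 := by
  refine ⟨r7_ne, fun ⟨h1, h2⟩ => ?_⟩
  have p : Prime p7 := CL.f3_prime (p := 7) (by norm_num) rfl (by decide)
  rw [show (7 : O) = p7 * star p7 by decide]
  exact .mul_right (p.irreducible.coprime_iff_not_dvd.2 (mt (gl_r7 a).1 h1)).symm
    ((CL.f3_pstar p).irreducible.coprime_iff_not_dvd.2 (mt (gl_r7' a).1 h2)).symm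

theorem gl_nm (a : O) : ((nm a : ℤ) : ℂ) = (EV.nm a : ℂ) := by
  rw [← TL.nm_cast, Int.cast_natCast]

/-- The series without the two primes above seven. -/
theorem gl_seven {ψ : O → O} (hψ : ∀ a b, ψ (a * b) = ψ a * ψ b) {s Z : ℂ}
    (h : HasSum (fun α : O => CL.toC (ψ α) * CL.toC α / (nm α : ℂ) ^ s) Z) :
    HasSum (fun α : O => CL.toC (if IsCoprime α 7 then ψ α else 0) * CL.toC α / (EV.nm α : ℂ) ^ s)
      ((1 - CL.toC (ψ (star p7)) * CL.toC (star p7) / 7 ^ s) *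
        ((1 - CL.toC (ψ p7) * CL.toC p7 / 7 ^ s) * Z)) := by
  simp only [gl_nm] at h
  have m : ∀ a b : O, CL.toC (ψ (a * b)) * CL.toC (a * b) / (EV.nm (a * b) : ℂ) ^ s =
      CL.toC (ψ a) * CL.toC a / (EV.nm a : ℂ) ^ s *
        (CL.toC (ψ b) * CL.toC b / (EV.nm b : ℂ) ^ s) := fun a b => by
    rw [hψ, EV.g1_nm_mul, Nat.cast_mul, natCast_mul_natCast_cpow, map_mul,
      map_mul, div_mul_div_comm, mul_mul_mul_comm]
  have k := gl_cut (z := star p7) (fun a b => by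
    simp only [gl_r7, r7_mul, (by decide : ∀ a b : ZMod 7, a * b = 0 ↔ a = 0 ∨ b = 0), m]
    by_cases h1 : r7 a = 0 <;> by_cases h2 : r7 b = 0 <;> simp [h1, h2]) (by decide)
    (gl_cut m (z := p7) (by decide) h)
  rw [if_neg (by rw [gl_r7]; decide), show EV.nm p7 = 7 by decide,
    show EV.nm (star p7) = 7 by decide, Nat.cast_ofNat] at k
  refine k.congr_fun fun a => ?_
  rw [gl_r7, gl_r7', gl_cop]
  by_cases h1 : r7 a = 0 <;> by_cases h2 : r7 (star a) = 0 <;> simp [h1, h2]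

namespace Dat

variable (d : Dat)

theorem kap_le (α : O) : ‖CL.toC (d.kap α)‖ ≤ 1 := by
  by_cases h : IsCoprime α (d.N : O)
  · have := congrArg (fun x => ‖CL.toC x‖) (d.kap_six h)
    simp only [map_pow, norm_pow, map_one, norm_one] at this
    exact ((pow_eq_one_iff_of_nonneg (norm_nonneg _) (by norm_num)).1 this).le
  · simp [d.kap_zero h]

theorem gl_kap {a : O} (h : EV.w ∣ a) : d.kap a = 0 := d.kap_zero fun k =>
  EV.g1_w.not_isUnit (k.isUnit_of_dvd' h (Dvd.dvd.trans (⟨-EV.w, by decide⟩ : EV.w ∣ 3) d.d3_3))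

/-- The factorisation of the series of the analytic side. -/
theorem rs_fac {ψ : O → O} (hψ : ∀ a b, ψ (a * b) = ψ a * ψ b)
    (hk : ∀ u, d.kap u = if IsCoprime u 7 then ψ u * ep (r7 (star u)) else 0) {L : ℂ → ℂ}
    (hL : IsL ψ L) {b : ℕ → ℂ} {β : ℂ} (hb : ∀ m, b m = β * CL.toC (aG m)) :
    ∃ E : ℂ → ℂ, Differentiable ℂ E ∧ ∀ s : ℂ, 1 < s.re → RS d.ps b s = E s * L (s + 1) := by
  obtain ⟨c, -, hc⟩ := d.Psi_eq
  have b1 : ∀ a b : O, ‖CL.toC (d.kap a) * conj (CL.toC (ep (r7 b)))‖ ≤ 1 := fun a b => by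
    rw [norm_mul, norm_conj]
    exact mul_le_one₀ (d.kap_le a) (norm_nonneg _) (norm_ep_le _)
  obtain ⟨L2, l1, l2⟩ := TL.DS_ent (n := d.N) (by exact_mod_cast d.pos.ne')
    (g := fun a => CL.toC (d.kap a) * conj (CL.toC (ep (r7 a)))) fun a b e => by
      simp only [d.kap_congr e, r7_congr (d.seven_dvd.trans e)]
  have p2 : ∀ x : ℂ, Differentiable ℂ fun s : ℂ => x / 7 ^ (s + 1) :=
    fun x => (differentiable_const _).div
      ((differentiable_id.add_const 1).const_cpow (Or.inl (by norm_num))) fun s e => by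
        simpa using ((cpow_eq_zero_iff _ _).1 e).1
  refine ⟨fun s => conj β / (6 * CL.toC CL.th) * (CL.toC CL.th * c) * L2 (s + 1) *
    ((1 - CL.toC (ψ (star p7)) * CL.toC (star p7) / 7 ^ (s + 1)) *
      (1 - CL.toC (ψ p7) * CL.toC p7 / 7 ^ (s + 1))), ?_, fun s hs => ?_⟩
  · exact ((l1.comp (differentiable_id.add_const 1)).const_mul _).mul
      (((p2 _).const_sub _).mul ((p2 _).const_sub _))
  have s1 : (3 : ℝ) / 2 < (s + 1).re := by simp; linarith
  have e0 : ∀ y, d.ps y = CL.toC CL.th * c * CL.toC (d.kap y) := fun y => by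
    rw [ps, hc, map_mul, map_natCast, mul_assoc]
  have e1 : ∀ a : O, CL.toC (d.kap a) * conj (CL.toC (ep (r7 (star a)))) =
      CL.toC (if IsCoprime a 7 then ψ a else 0) := fun a => by
    rw [← CL.toC_star, ← map_mul, hk]
    split_ifs with k
    · rw [mul_assoc, (ep_unit _ (Y3.r7_ne k).2).1, mul_one]
    · rw [zero_mul]
  have k : ∑' p : O × O, d.ps (p.1 * p.2) * U0 (p.1 * star p.2) /
      (EV.nm (p.1 * p.2) : ℂ) ^ (s + 1) = CL.toC CL.th * c * (L2 (s + 1) *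
        ((1 - CL.toC (ψ (star p7)) * CL.toC (star p7) / 7 ^ (s + 1)) *
          ((1 - CL.toC (ψ p7) * CL.toC p7 / 7 ^ (s + 1)) * L (s + 1)))) := by
    rw [← (gl_seven hψ (hL.2 _ s1)).tsum_eq, l2 _ (by simp; linarith)]
    simp only [← e1]
    rw [← TL.t3a_DS fun a => CL.toC (d.kap a) * conj (CL.toC (ep (r7 (star a)))),
      ← TL.DD_one (fun a => b1 a a) (fun a => b1 a (star a)) s1, TL.DD, ← tsum_mul_left]
    refine tsum_congr fun p => ?_
    simp only [e0, kap_mul, U0, psi, r7_mul, ep_mul, map_mul, CL.toC_star, conj_conj]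
    ring
  rw [TL.rs_one (ψ := d.ps) (K := ‖CL.toC CL.th * c‖) (fun a => by
    rw [e0, norm_mul]
    exact mul_le_of_le_one_right (norm_nonneg _) (d.kap_le a))
    (fun a h => by rw [e0, d.gl_kap h, map_zero, mul_zero]) hb (by linarith), k]
  ring

/-- The order of vanishing of the series of the analytic side. -/
theorem lam_deriv {ψ : O → O} (hψ : ∀ a b, ψ (a * b) = ψ a * ψ b)
    (hk : ∀ u, d.kap u = if IsCoprime u 7 then ψ u * ep (r7 (star u)) else 0) {L : ℂ → ℂ}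
    (hL : IsL ψ L) (h0 : L 1 = 0) (h1 : deriv L 1 = 0) {b : ℕ → ℂ} {β : ℂ}
    (hb : ∀ m, b m = β * CL.toC (aG m)) {Λ : ℂ → ℂ} (hΛ : Differentiable ℂ Λ)
    (h : ∀ s : ℂ, 5 < s.re → Λ s = RS d.ps b s) : deriv Λ 0 = 0 := by
  obtain ⟨E, e1, e2⟩ := d.rs_fac hψ hk hL hb
  have l5 : Differentiable ℂ fun s => L (s + 1) := hL.1.comp (differentiable_id.add_const 1)
  obtain rfl : Λ = fun s => E s * L (s + 1) :=
    gl_ext hΛ (e1.mul l5) fun s hs => (h s hs).trans (e2 s (by linarith))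
  rw [deriv_fun_mul (e1 0) (l5 0), deriv_comp_add_const, zero_add, h0, h1]
  simp

end Dat

end Pool.Agent.Lib.MP_696deb_nt.Y3
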