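import Pool.Agent.Lib.MP_696deb_nt.Y2.HT3
import Pool.Agent.Lib.MP_696deb_nt.EW.K5
import Pool.Agent.Lib.MP_696deb_nt.Y3.N7

/-! Local heights on the curve `y ^ 2 + y = x ^ 3 - 7`. -/

set_option autoImplicit false

open Complex WeierstrassCurve WeierstrassCurve.Affine Finset
open scoped Classical

namespace Pool.Agent.Lib.MP_696deb_nt.Y3.HT

open Pool.Agent.Shared.Weier Pool.Agent.B5
open Y2.HT (lamL lamA lamA_unif neron_lamA neron_vc)
open MP_23455a_nt (W27 pm)
open H3.TA (taeOm tae_ext tae_add)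
open CL (wC wC_sq)
open EW (wC_cube wC_ne)

/-- The curve over a field. -/
abbrev E27 (K : Type) [Field K] : WeierstrassCurve K := W27.baseChange K

/-- Its points. -/
abbrev P27 (K : Type) [Field K] : Type := MP_23455a_nt.Pt K

theorem e27 (K : Type) [Field K] : E27 K = ⟨0, 0, 1, 0, -7⟩ := by
  ext <;> simp [W27, WeierstrassCurve.baseChange]

theorem e27_disc (K : Type) [Field K] : (E27 K).Δ = -3 ^ 9 := by
  rw [e27]
  norm_num [Δ, b₂, b₄, b₆, b₈]

instance ell (K : Type) [Field K] [CharZero K] : (E27 K).IsElliptic :=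
  ⟨by
    rw [e27_disc]
    exact IsUnit.mk0 _ (by norm_num)⟩

theorem vcz {K L : Type} [Field K] [Field L] (f : K →+* L) {u : L} (hu : u ^ 3 = 1) :
    VC f (E27 K) (E27 L) u 0 0 0 := by
  rw [e27, e27]
  refine ⟨H3.TA.tae_ne hu, by simp, by simp, by simp [hu], by simp, ?_⟩
  simp only [map_neg, map_ofNat]
  linear_combination -7 * (u ^ 3 + 1) * hu

theorem neron_z {K L : Type} [Field K] [CharZero K] [Field L] (f : K →+* L) {u : L}
    (hu : u ^ 3 = 1) {v : AbsoluteValue L ℝ} {Λ : P27 L → ℝ} (hΛ : NeronLocal v Λ) :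
    NeronLocal (fun x => v (f x)) fun P : P27 K => Λ ((vcz f hu).hom P) := by
  have e : v u = 1 := (pow_eq_one_iff_of_nonneg (v.nonneg u) three_ne_zero).1
    (by rw [← map_pow, hu, map_one])
  simpa [e] using neron_vc (vcz f hu) hΛ

theorem vcz_one {K L : Type} [Field K] [Field L] (f : K →+* L) (P : P27 K) :
    (vcz f (one_pow 3)).hom P = pm f P := by
  rcases P with _ | ⟨x, y, h⟩
  · exact (map_zero _).trans (map_zero _).symm
  · exact tae_ext (by simp) (by simp)

/-- The automorphism of order three on the complex points. -/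
noncomputable def JC : P27 ℂ →+ P27 ℂ := AddMonoidHom.mk' (taeOm wC_cube) (tae_add wC_cube)

theorem w_sq : (wC ^ 2) ^ 3 = 1 := by rw [pow_right_comm, wC_cube, one_pow]

theorem vcz_J (P : P27 ℂ) : (vcz (RingHom.id ℂ) w_sq).hom P = JC P := by
  rcases P with _ | ⟨x, y, h⟩
  · rfl
  · refine tae_ext ?_ ?_ <;> simp only [RingHom.id_apply]
    · linear_combination wC * x * wC_cube
    · linear_combination y * w_sq

theorem xco_J (P : P27 ℂ) : xco (JC P) = wC * xco P := by
  rcases P with _ | ⟨x, y, h⟩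
  · exact (mul_zero _).symm
  · rfl

theorem J_ne {P : P27 ℂ} (h : P ≠ 0) : JC P ≠ 0 := by
  rcases P with _ | ⟨x, y, k⟩
  · exact absurd rfl h
  · exact Point.some_ne_zero _

theorem neron_J {v : AbsoluteValue ℂ ℝ} {Λ : P27 ℂ → ℝ} (h : NeronLocal v Λ) (R : P27 ℂ) :
    Λ (JC R) = Λ R := by
  rw [← vcz_J]
  exact congrFun ((neron_z (RingHom.id ℂ) w_sq h).unique h) R

theorem neron_neg {v : ℂ → ℝ} {Λ : P27 ℂ → ℝ} (h : NeronLocal v Λ) (R : P27 ℂ) :
    Λ (-R) = Λ R := by
  have e : ∀ P : P27 ℂ, dupc (-P) = dupc P := by rintro (_ | ⟨x, y, k⟩) <;> rfl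
  refine congrFun (NeronLocal.unique (Λ := fun R => Λ (-R)) ⟨h.bdd.imp fun C hC P => ?_,
    fun P => ?_⟩ h) R
  · simpa using hC (-P)
  · rw [← smul_neg, h.dup, e]

/-- The archimedean local height. -/
noncomputable abbrev La : P27 ℂ → ℝ := lamA EW.isPer

theorem La_un {z : ℂ} (hz : z ∉ EW.LG.lattice) : La (EW.un z) = lamL EW.LG z := lamA_unif _ hz

theorem La_J (R : P27 ℂ) : La (JC R) = La R :=
  neron_J (v := NormedField.toAbsoluteValue ℂ) (neron_lamA EW.isPer) R

theorem La_neg (R : P27 ℂ) : La (-R) = La R := neron_neg (neron_lamA EW.isPer) R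

theorem La_pm {f : ℂ →+* ℂ} (hf : ∀ x, ‖f x‖ = ‖x‖) (R : P27 ℂ) : La (pm f R) = La R := by
  have := neron_z f (one_pow 3) (v := NormedField.toAbsoluteValue ℂ) (neron_lamA EW.isPer)
  rw [← vcz_one]
  exact congrFun (NeronLocal.unique (funext hf ▸ this) (neron_lamA EW.isPer)) R

variable {v : AbsoluteValue ℂ ℝ} {R S : P27 ℂ} {r T T' : ℂ} {e : ℝ}

theorem intW (hv : IsNonarchimedean v) : IntW v (E27 ℂ) := by
  rw [e27]
  refine ⟨hv, ?_, ?_, ?_, ?_⟩ <;> norm_num [b₂, b₄, b₆, b₈]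
  exact na_nat hv 27

theorem v_w : v wC = 1 := (pow_eq_one_iff_of_nonneg (v.nonneg _) three_ne_zero).1
  (by rw [← map_pow, wC_cube, map_one])

theorem th_sq : (1 + 2 * wC) ^ 2 = -3 := by linear_combination 4 * wC_sq

theorem th_ne : 1 + 2 * wC ≠ 0 := fun e => by simpa [e] using th_sq

/-- A model with good reduction everywhere. -/
theorem good (hv : IsNonarchimedean v) (hr : r ^ 3 = -2) :
    ∃ (W' : WeierstrassCurve ℂ) (φ : W'.toAffine.Point →+ P27 ℂ), IntW v W' ∧
      Function.Injective φ ∧ ∀ R ≠ 0, ∃ P, φ P = R ∧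
      lamV v R = Real.log (hx v P * v (3 * (1 + 2 * wC))) ∧
        xco R - 3 * r = xco P * (3 * (1 + 2 * wC)) := by
  have a2 := th_sq
  have a0 := th_ne
  generalize 1 + 2 * wC = a at a2 a0
  obtain ⟨u, hu⟩ := IsAlgClosed.exists_pow_nat_eq (3 * a) two_pos
  have va : v a ≤ 1 := (pow_le_one_iff_of_nonneg (v.nonneg a) two_ne_zero).1
    (by rw [← map_pow, a2, v.map_neg]; exact na_nat hv 3)
  have vr : v r ≤ 1 := (pow_le_one_iff_of_nonneg (v.nonneg r) three_ne_zero).1
    (by rw [← map_pow, hr, v.map_neg]; exact na_nat hv 2)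
  let W' : WeierstrassCurve ℂ := ⟨0, -r * a, 0, -r ^ 2, -a / 4⟩
  have h : VC (RingHom.id ℂ) W' (E27 ℂ) u (3 * r) 0 (-1 / 2) := by
    rw [e27]
    refine ⟨fun e => by simp [e, a0] at hu, by simp [W'], ?_, by norm_num [W'], ?_, ?_⟩ <;>
      simp only [W', RingHom.id_apply]
    · linear_combination (-r * a) * hu - 3 * r * a2
    · linear_combination -r ^ 2 * (u ^ 2 + 3 * a) * hu - 9 * r ^ 2 * a2
    · linear_combination -a / 4 * (u ^ 4 + 3 * a * u ^ 2 + 9 * a ^ 2) * hu -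
        27 / 4 * (a ^ 2 - 3) * a2 - 27 * hr
  have c2 : W'.b₂ = -(4 * (r * a)) := by simp only [W', b₂]; ring
  have c4 : W'.b₄ = -(2 * r ^ 2) := by simp only [W', b₄]; ring
  have c6 : W'.b₆ = -a := by simp only [W', b₆]; ring
  have c8 : W'.b₈ = -r := by
    simp only [W', b₈]
    linear_combination r * a2 - r * hr
  have cd : W'.Δ = 1 := by
    rw [Δ, c2, c4, c6, c8]
    linear_combination (-56 * r ^ 3 - 27) * a2 + (64 * r ^ 3 + 40) * hr
  have : W'.IsElliptic := ⟨cd ▸ isUnit_one⟩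
  have i : IntW v W' := ⟨hv, by
      simpa [c2] using mul_le_one₀ (na_nat hv 4) (by positivity) (mul_le_one₀ vr (v.nonneg a) va),
    by simpa [c4] using mul_le_one₀ (na_nat hv 2) (by positivity) (pow_le_one₀ (v.nonneg r) vr),
    by simpa [c6] using va, by simpa [c8] using vr⟩
  refine ⟨W', h.hom, i, h.hom_injective, ?_⟩
  rintro (_ | ⟨x, y, k⟩) hR
  · exact absurd rfl hR
  obtain ⟨_ | ⟨x', y', k'⟩, e⟩ := h.mem_range k (x := (x - 3 * r) / u ^ 2)
    (y := (y + 1 / 2) / u ^ 3)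
    (by have := h.hu; simp only [RingHom.id_apply]; field_simp; ring)
    (by have := h.hu; simp only [RingHom.id_apply]; field_simp; ring)
  · exact absurd e.symm (Point.some_ne_zero _)
  have e1 := congrFun ((neron_vc h (intW hv).neron).unique i.neron) (.some x' y' k')
  rw [e, if_neg (Point.some_ne_zero _), i.lam_good (by rw [cd, map_one]), sub_eq_iff_eq_add,
    ← Nat.cast_ofNat, ← Real.log_pow, ← map_pow, hu,
    ← Real.log_mul (by positivity) (v.pos (mul_ne_zero three_ne_zero a0)).ne'] at e1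
  refine ⟨_, e, e1, ?_⟩
  rw [xco_some, ← (Point.some.inj e).1, hu, mul_comm]
  simp [mul_comm]

/-- The local height at the finite places. -/
theorem lam_all (hv : IsNonarchimedean v) (hr : r ^ 3 = -2) (hR : R ≠ 0) :
    lamV v R = Real.log (max (v (xco R - 3 * r)) (v (3 * (1 + 2 * wC)))) := by
  obtain ⟨W', φ, -, -, h⟩ := good hv hr
  obtain ⟨P, -, e1, e2⟩ := h R hR
  rw [e1, e2, map_mul v (xco P), hx, max_mul_of_nonneg _ _ (v.nonneg _), one_mul, max_comm]

theorem lam_cube (hv : IsNonarchimedean v) (hR : R ≠ 0) :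
    3 * lamV v R = Real.log (max (v (xco R ^ 3 + 54)) (v (81 * (1 + 2 * wC)))) := by
  obtain ⟨r, hr⟩ := IsAlgClosed.exists_pow_nat_eq (-2 : ℂ) three_pos
  have h1 := lam_all hv hr hR
  have h2 := lam_all (r := wC * r) hv (by rw [mul_pow, wC_cube, one_mul, hr]) hR
  have h3 := lam_all (r := wC ^ 2 * r) hv (by rw [mul_pow, w_sq, one_mul, hr]) hR
  have p := v.pos (mul_ne_zero three_ne_zero th_ne)
  have e := Real.log_injOn_pos (lt_max_of_lt_right p) (lt_max_of_lt_right p) (h1.symm.trans h2)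
  have e' := Real.log_injOn_pos (lt_max_of_lt_right p) (lt_max_of_lt_right p) (h1.symm.trans h3)
  rw [h1, ← Nat.cast_ofNat, ← Real.log_pow, show xco R ^ 3 + 54 =
    (xco R - 3 * r) * (xco R - 3 * (wC * r)) * (xco R - 3 * (wC ^ 2 * r)) by
      linear_combination (3 * r * xco R ^ 2 - 9 * r ^ 2 * wC * xco R) * wC_sq + 27 * r ^ 3 * wC_cube
        + 27 * hr, show v (81 * (1 + 2 * wC)) = v (3 * (1 + 2 * wC)) ^ 3 by
      rw [← map_pow, ← v.map_neg]
      congr 1
      linear_combination (-27 * (1 + 2 * wC)) * th_sq, map_mul v _ (_ - _), map_mul v (_ - _)]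
  congr 1
  have n1 := v.nonneg (xco R - 3 * r)
  have n2 := v.nonneg (xco R - 3 * (wC * r))
  have n3 := v.nonneg (xco R - 3 * (wC ^ 2 * r))
  generalize v (xco R - 3 * r) = a at *
  generalize v (xco R - 3 * (wC * r)) = b at *
  generalize v (xco R - 3 * (wC ^ 2 * r)) = b' at *
  generalize v (3 * (1 + 2 * wC)) = c at *
  rcases le_or_gt a c with k | k
  · rw [max_eq_right k] at e e' ⊢
    have k1 : b ≤ c := e ▸ le_max_left _ _
    have k2 : b' ≤ c := e' ▸ le_max_left _ _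
    refine (max_eq_right ?_).symm
    rw [pow_three']
    gcongr
  · rw [max_eq_left k.le] at e e' ⊢
    rw [(max_eq_iff.1 e.symm).elim (·.1) fun a => absurd a.1 k.ne,
      (max_eq_iff.1 e'.symm).elim (·.1) fun a => absurd a.1 k.ne, ← pow_three', max_eq_left]
    gcongr

theorem lam_min (hv : IsNonarchimedean v) (hR : R ≠ 0) (hS : S ≠ 0) (h0 : R - S ≠ 0) :
    min (lamV v R) (lamV v S) ≤ lamV v (R - S) := by
  obtain ⟨r, hr⟩ := IsAlgClosed.exists_pow_nat_eq (-2 : ℂ) three_pos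
  obtain ⟨W', φ, i, j, h⟩ := good hv hr
  obtain ⟨P, rfl, a1, -⟩ := h R hR
  obtain ⟨Q, rfl, b1, -⟩ := h S hS
  obtain ⟨T, c0, c1, -⟩ := h _ h0
  obtain rfl : T = P - Q := j (by rw [c0, map_sub])
  have p := v.pos (mul_ne_zero three_ne_zero th_ne)
  generalize v (3 * (1 + 2 * wC)) = c at *
  have k : ∀ X : W'.toAffine.Point, Real.log (hx v (P - Q) * c) < Real.log (hx v X * c) →
      Big v (hx v (P - Q)) X := fun X e => .inr ((lt_max_iff.1 (lt_of_mul_lt_mul_right
    ((Real.log_lt_log_iff (mul_pos (hx_pos _) p) (mul_pos (hx_pos _) p)).1 e) p.le)).resolve_left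
      (one_le_hx _).not_gt)
  by_contra! e
  rw [a1, b1, c1, lt_min_iff] at e
  rcases i.big_sub (one_le_hx _) (k P e.1) (k Q e.2) with e | e
  · exact h0 (by rw [← c0, e, map_zero])
  · exact e.not_ge (le_max_right _ _)

theorem xco_ne (h : xco R ≠ xco S) : R - S ≠ 0 ∧ R + S ≠ 0 :=
  ⟨fun e => h (by rw [sub_eq_zero.1 e]), fun e => h (by rw [eq_neg_of_add_eq_zero_left e, xco_neg])⟩

theorem lam_min' (hv : IsNonarchimedean v) (hR : R ≠ 0) (hS : S ≠ 0) (h0 : R + S ≠ 0) :
    min (lamV v R) (lamV v S) ≤ lamV v (R + S) := by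
  have := lam_min hv hR (neg_ne_zero.2 hS) (by rwa [sub_neg_eq_add])
  rwa [(intW hv).lam_neg, sub_neg_eq_add] at this

theorem lam_lt (hv : IsNonarchimedean v) (hR : R ≠ 0) (hS : S ≠ 0) (h0 : R + S ≠ 0)
    (h : lamV v R < lamV v S) : lamV v (R + S) = lamV v R := by
  have a := lam_min' hv hR hS h0
  have b := lam_min hv h0 hS (by rwa [add_sub_cancel_right])
  rw [add_sub_cancel_right] at b
  rw [min_eq_left h.le] at a
  exact le_antisymm ((min_le_iff.1 b).resolve_right h.not_ge) a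

theorem lam_eq (hv : IsNonarchimedean v) (h : xco R ≠ xco S) (hR : 2 • R ≠ 0) (hS : 2 • S ≠ 0)
    (n : lamV v (2 • R) ≠ lamV v (2 • S)) : lamV v (R - S) = lamV v (R + S) := by
  obtain ⟨a, b⟩ := xco_ne h
  have i := intW hv
  have e1 : R - S + (R + S) = 2 • R := by abel
  have e2 : -(R - S) + (R + S) = 2 • S := by abel
  by_contra c
  refine n ?_
  rw [← e1] at hR ⊢
  rw [← e2] at hS ⊢
  rcases lt_or_gt_of_ne c with c | c
  · rw [lam_lt hv a b hR c, lam_lt hv (neg_ne_zero.2 a) b hS (by rwa [i.lam_neg]), i.lam_neg]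
  · rw [add_comm] at hR hS
    rw [add_comm (R - S), add_comm (-(R - S)), lam_lt hv b a hR c,
      lam_lt hv b (neg_ne_zero.2 a) hS (by rwa [i.lam_neg])]

/-- The relation between the first coordinate and the value of the Hauptmodul. -/
def Xt (x T : ℂ) : Prop :=
  (-2 - 3 * wC) * (T - (1 + 3 * wC)) * x ^ 3 = 27 * (T - (-2 - 3 * wC))

theorem pb_ne : -2 - 3 * wC ≠ 0 := fun e => by
  have : (7 : ℂ) = 0 := by linear_combination (1 + 3 * wC) * e + 9 * wC_sq
  norm_num at this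

theorem Xt.ne {x : ℂ} (h : Xt x T) : T - (1 + 3 * wC) ≠ 0 := fun e => th_ne (by
  rw [Xt, e] at h
  linear_combination -h / 81 - e / 3)

theorem Xt.sub {x x' : ℂ} (h : Xt x T) (h' : Xt x' T') :
    (-2 - 3 * wC) * (T - (1 + 3 * wC)) * (T' - (1 + 3 * wC)) * (x ^ 3 - x' ^ 3) =
      -(81 * (1 + 2 * wC) * (T - T')) := by
  rw [Xt] at h h'
  linear_combination (T' - (1 + 3 * wC)) * h - (T - (1 + 3 * wC)) * h'

theorem Xt.cube_ne {x x' : ℂ} (h : Xt x T) (h' : Xt x' T') (n : T ≠ T') : x ^ 3 ≠ x' ^ 3 :=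
  fun e => by
    have := h.sub h'
    rw [e, sub_self, mul_zero, eq_comm, neg_eq_zero] at this
    exact mul_ne_zero (mul_ne_zero (by norm_num) th_ne) (sub_ne_zero.2 n) this

theorem v_lin (hv : IsNonarchimedean v) (a b : ℕ) : v (a + b * wC) ≤ 1 :=
  na_add hv (hv.apply_natCast_le_one) (by
    rw [map_mul, v_w, mul_one]
    exact hv.apply_natCast_le_one)

theorem v_pi (hv : IsNonarchimedean v) : v (1 + 3 * wC) ≤ 1 := by simpa using v_lin hv 1 3

theorem v_pb (hv : IsNonarchimedean v) : v (-2 - 3 * wC) ≤ 1 := by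
  rw [← v.map_neg]
  convert v_lin hv 2 3 using 2
  push_cast
  ring

theorem lam_T (hv : IsNonarchimedean v) (hR : R ≠ 0) (a : Xt (xco R) T) : 3 * lamV v R =
    Real.log (v (81 * (1 + 2 * wC))) + Real.log (max (v (T + (-2 - 3 * wC)))
      (v (-2 - 3 * wC) * v (T - (1 + 3 * wC)))) - Real.log (v (-2 - 3 * wC)) -
        Real.log (v (T - (1 + 3 * wC))) := by
  have p1 := v.pos pb_ne
  have p2 := v.pos a.ne
  have p3 := v.pos (mul_ne_zero (show (81 : ℂ) ≠ 0 by norm_num) th_ne)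
  have e : v (-2 - 3 * wC) * v (T - (1 + 3 * wC)) * v (xco R ^ 3 + 54) =
      v (81 * (1 + 2 * wC)) * v (T + (-2 - 3 * wC)) := by
    rw [← map_mul, ← map_mul, ← map_mul, ← v.map_neg]
    congr 1
    rw [Xt] at a
    linear_combination -a
  rw [lam_cube hv hR, sub_sub, ← Real.log_mul p1.ne' p2.ne', ← Real.log_mul p3.ne' (by positivity),
    ← Real.log_div (by positivity) (by positivity), mul_max_of_nonneg _ _ p3.le, ← e,
    mul_comm (v (81 * (1 + 2 * wC))), ← mul_max_of_nonneg _ _ (by positivity),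
    mul_div_cancel_left₀ _ (by positivity)]

theorem lam_dbl (hv : IsNonarchimedean v) (h3 : v 3 < 1) (hR : R ≠ 0) (a : Xt (xco R) T)
    (hT : v T ≤ 1) (q : 0 < qv v T) : 2 • R ≠ 0 ∧
      3 * lamV v (2 • R) = Real.log (v (81 * (1 + 2 * wC))) - Real.log (qv v T) := by
  have p2 := v.pos a.ne
  have p3 := v.pos (mul_ne_zero (show (81 : ℂ) ≠ 0 by norm_num) th_ne)
  have p4 : 0 < v (T + (3 + wC)) := (v.nonneg _).lt_of_ne fun e => by simp [qv, ← e] at q
  have b : v (-2 - 3 * wC) = 1 := by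
    rw [show -2 - 3 * wC = 1 - 3 * (1 + wC) by ring, na_sub_eq hv, map_one]
    rw [map_mul, map_one]
    exact (mul_le_of_le_one_right (v.nonneg _) (by simpa using v_lin hv 1 1)).trans_lt h3
  have m : max (v (T + (-2 - 3 * wC))) (v (T - (1 + 3 * wC))) = 1 := le_antisymm
    (max_le (na_add hv hT b.le) (na_sub hv hT (v_pi hv))) (by
      have := na_sub hv (le_max_right (v (T + (-2 - 3 * wC))) (v (T - (1 + 3 * wC))))
        (le_max_left _ _)
      rwa [show T - (1 + 3 * wC) - (T + (-2 - 3 * wC)) = 1 by ring, map_one] at this)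
  have l := lam_T hv hR a
  rw [b, one_mul, m, Real.log_one] at l
  have d := (intW hv).neron.dup R
  rcases R with _ | ⟨x, y, k⟩
  · exact absurd rfl hR
  have e : v (T - (1 + 3 * wC)) * v (dup2 (E27 ℂ) x) =
      v (81 * (1 + 2 * wC)) * v (T + (3 + wC)) := by
    rw [← one_mul (v (T - _)), ← b, ← one_mul (v (81 * _)), ← v_w (v := v), ← map_mul, ← map_mul,
      ← map_mul, ← map_mul, ← v.map_neg, dup2, e27]
    congr 1
    rw [Xt, xco_some] at a
    simp only [b₂, b₄, b₆]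
    linear_combination -4 * a - 162 * (wC + 1 + T) * wC_sq
  have n : dup2 (E27 ℂ) x ≠ 0 := fun c => by
    rw [c, map_zero, mul_zero] at e
    exact (mul_pos p3 p4).ne e
  obtain ⟨y', h', e'⟩ := two_nsmul_some k n
  refine ⟨e' ▸ Point.some_ne_zero _, ?_⟩
  have e2 := congrArg Real.log e
  rw [Real.log_mul p2.ne' (v.pos n).ne', Real.log_mul p3.ne' p4.ne'] at e2
  rw [d, dupc_some, if_neg n, qv, Real.log_mul p2.ne' (by positivity), Real.log_pow]
  push_cast
  linarith

/-- The bound for the local terms. -/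
theorem lam_six (hv : IsNonarchimedean v) (hR : R ≠ 0) (hS : S ≠ 0) (a : Xt (xco R) T)
    (b : Xt (xco S) T') (n : T ≠ T') (h : Lc v T T' e) :
    |2 * (lamV v (R - S) - lamV v (R + S)) - (lamV v (JC R - S) - lamV v (JC R + S)) -
      (lamV v (JC (JC R) - S) - lamV v (JC (JC R) + S))| ≤ 4 * e := by
  have i := intW hv
  have x1 : xco (JC R) ^ 3 = xco R ^ 3 := by rw [xco_J, mul_pow, wC_cube, one_mul]
  have x2 : xco (JC (JC R)) ^ 3 = xco R ^ 3 := by rw [xco_J, mul_pow, wC_cube, one_mul, x1]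
  have c := a.cube_ne b n
  have n0 : xco R ≠ xco S := fun k => c (by rw [k])
  have n1 : xco (JC R) ≠ xco S := fun k => c (by rw [← k, x1])
  have n2 : xco (JC (JC R)) ≠ xco S := fun k => c (by rw [← k, x2])
  have r1 := J_ne hR
  have r2 := J_ne r1
  rcases h.alt with ⟨h3, h⟩ | ⟨h3, h0, q, q', h⟩
  · have l1 := neron_J i.neron R
    have l2 := (neron_J i.neron _).trans l1
    have p0 := i.par' hR hS n0
    have p1 := i.par' r1 hS n1
    have p2 := i.par' r2 hS n2
    have m0 := lam_min hv hR hS (xco_ne n0).1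
    have m0' := lam_min' hv hR hS (xco_ne n0).2
    have m1 := lam_min hv r1 hS (xco_ne n1).1
    have m1' := lam_min' hv r1 hS (xco_ne n1).2
    have m2 := lam_min hv r2 hS (xco_ne n2).1
    have m2' := lam_min' hv r2 hS (xco_ne n2).2
    rw [l1] at p1 m1 m1'
    rw [l2] at p2 m2 m2'
    have k : ∀ {R : P27 ℂ} {T : ℂ}, R ≠ 0 → Xt (xco R) T → v T ≤ 1 → 3 * lamV v R ≤
        Real.log (v (81 * (1 + 2 * wC))) - Real.log (v (-2 - 3 * wC)) -
          Real.log (v (T - (1 + 3 * wC))) ∧ Real.log (v (T - (1 + 3 * wC))) ≤ 0 :=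
      fun {R T} hR a hT => by
        have t := na_sub hv hT (v_pi hv)
        have := Real.log_nonpos (le_max_of_le_left (v.nonneg _))
          (max_le (na_add hv hT (v_pb hv)) (mul_le_one₀ (v_pb hv) (v.nonneg _) t))
        exact ⟨by linarith [lam_T hv hR a], Real.log_nonpos (v.nonneg _) t⟩
    obtain ⟨k1, k2⟩ := k hR a ‹Lc v T T' e›.le
    obtain ⟨k3, k4⟩ := k hS b ‹Lc v T T' e›.le'
    have s := congrArg (fun z => Real.log (v z)) (a.sub b)
    have z0 := (v.pos (sub_ne_zero.2 n0)).ne'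
    have z1 := (v.pos (sub_ne_zero.2 n1)).ne'
    have z2 := (v.pos (sub_ne_zero.2 n2)).ne'
    have z3 := (v.pos pb_ne).ne'
    have z4 := (v.pos a.ne).ne'
    have z5 := (v.pos b.ne).ne'
    have z6 := (v.pos (mul_ne_zero (show (81 : ℂ) ≠ 0 by norm_num) th_ne)).ne'
    have z7 := (v.pos (sub_ne_zero.2 n)).ne'
    rw [show xco R ^ 3 - xco S ^ 3 =
      (xco R - xco S) * (xco (JC R) - xco S) * (xco (JC (JC R)) - xco S) by
        simp only [xco_J]
        linear_combination -xco R ^ 3 * wC_cube + (wC * xco R ^ 2 * xco S - xco R * xco S ^ 2) *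
          wC_sq, v.map_neg, map_mul v _ (T - T'), map_mul, map_mul, map_mul,
      map_mul, map_mul, Real.log_mul z6 z7, Real.log_mul (by positivity) (by positivity),
      Real.log_mul (by positivity) z5, Real.log_mul z3 z4, Real.log_mul (by positivity) z2,
      Real.log_mul z0 z1] at s
    rw [ex] at h
    rw [abs_le]
    rcases le_total (lamV v R) (lamV v S) with k | k
    · rw [min_eq_left k] at m0 m0' m1 m1' m2 m2'
      constructor <;> linarith
    · rw [min_eq_right k] at m0 m0' m1 m1' m2 m2'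
      constructor <;> linarith
  · obtain ⟨s0, s1⟩ := lam_dbl hv h3 hS b ‹Lc v T T' e›.le' q'
    have k : ∀ {R : P27 ℂ}, R ≠ 0 → Xt (xco R) T → xco R ≠ xco S →
        lamV v (R - S) = lamV v (R + S) := fun hR a n => by
      obtain ⟨t0, t1⟩ := lam_dbl hv h3 hR a ‹Lc v T T' e›.le q
      exact lam_eq hv n t0 s0 fun c => h (Real.log_injOn_pos q q' (by linarith))
    rw [k hR a n0, k r1 (by rwa [Xt, x1]) n1, k r2 (by rwa [Xt, x2]) n2]
    simpa using h0

end Pool.Agent.Lib.MP_696deb_nt.Y3.HT
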