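import Pool.Agent.Lib.MP_696deb_nt.Y3.HT2
import Pool.Agent.Lib.MP_696deb_nt.Y3.C0

/-! The canonical height on the curve `y ^ 2 + y = x ^ 3 - 7` and its local decomposition. -/

set_option autoImplicit false

open Complex WeierstrassCurve WeierstrassCurve.Affine Finset Height NumberField
open scoped Classical PeriodPair

namespace Pool.Agent.Lib.MP_696deb_nt.Y3.HT

open Pool.Agent.Shared.Weier Pool.Agent.B5
open EW hiding om Pt
open Y2.HT (lamL neron_lamA neron_vc)
open MP_23455a_nt (W27 pm)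
open H3.TA (tae_ext zeta_cube)
open CL (wC wC_sq)

export Y2.HT (zero_of mem_of_growth)

theorem vcq : VC (RingHom.id ℂ) (E27 ℂ) ((E27 ℚ).baseChange ℂ) 1 0 0 0 := by
  constructor <;> simp [W27, WeierstrassCurve.baseChange]

theorem vcb : VC (RingHom.id ℂ) ((E27 ℚ).baseChange ℂ) (E27 ℂ) 1 0 0 0 := by
  constructor <;> simp [W27, WeierstrassCurve.baseChange]

theorem zw : ZW (E27 ℚ) := ⟨W27, rfl⟩

theorem pmap_vcq (f : ℂ →+* ℂ) (R : P27 ℂ) : vcb.hom (pmap f (vcq.hom R)) = pm f R := by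
  rcases R with _ | ⟨x, y, h⟩
  · exact (map_zero _).symm
  · exact tae_ext (by simp) (by simp)

theorem co_vcq (R : P27 ℂ) : xco (vcq.hom R) = xco R ∧ yco (vcq.hom R) = yco R := by
  rcases R with _ | ⟨x, y, h⟩
  · exact ⟨rfl, rfl⟩
  · simp [VC.hom_some]

theorem pm_pm {K L M : Type} [Field K] [Field L] [Field M] (f : K →+* L) (g : L →+* M)
    (P : P27 K) : pm g (pm f P) = pm (g.comp f) P := by
  cases P <;> rfl

theorem alg_jc (x : Qbar) : IsAlgebraic ℚ (EW.jc x) :=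
  (Algebra.IsAlgebraic.isAlgebraic x).algHom EW.jc.toRatAlgHom

/-- The algebraic points inside the complex points of the rational model. -/
noncomputable def tc : A →+ Alg (E27 ℚ) :=
  (vcq.hom.comp cp).codRestrict _ fun P => by
    have h := xco_pm EW.jc P
    refine ⟨?_, ?_⟩
    · rw [AddMonoidHom.comp_apply, (co_vcq _).1, cp, h.1]
      exact alg_jc _
    · rw [AddMonoidHom.comp_apply, (co_vcq _).2, cp, h.2]
      exact alg_jc _

theorem tc_val (P : A) : (tc P).1 = vcq.hom (cp P) := rfl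

/-- The canonical height. -/
noncomputable def ht (P : A) : ℝ := hhat (tc P).1

theorem tor_of_ht {P : A} (h : ht P = 0) : IsOfFinAddOrder P := by
  have := isOfFinAddOrder_of_hpair (tc P).2 (by rw [hpair_self (tc P).2, ← ht, h, mul_zero])
  rwa [tc_val, vcq.hom_injective.isOfFinAddOrder_iff, cp_inj.isOfFinAddOrder_iff] at this

theorem ht_nonneg (P : A) : 0 ≤ ht P := by
  obtain ⟨H, _, P', -, -, e, -, -⟩ := exists_field₃ (tc P).2 (tc P).2 (tc P).2
  obtain ⟨C, h1, h2⟩ := hrel_spec (E27 ℚ) H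
  rw [ht, ← e, hhat_pmap]
  exact div_nonneg (ge_of_tendsto' (tendsto_of_dup h1 h2 P') fun n => by positivity)
    (Nat.cast_nonneg _)

theorem cp_J (P : A) : cp (JJ P) = JC (cp P) := by
  rcases P with _ | ⟨x, y, k⟩
  · rfl
  · exact tae_ext ((map_mul EW.jc _ _).trans (congrArg (· * _) jc_zeta)) rfl

theorem xco_cp (P : A) : xco (cp P) = EW.jc (xco P) := (xco_pm EW.jc P).1

theorem ht_JJ (P : A) : ht (JJ P) = ht P := by
  have k : ∀ x : Qbar, absLogHeight₁ (wC * EW.jc x) = absLogHeight₁ (EW.jc x) := fun x => by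
    obtain ⟨H, _, h, -⟩ := exists_field (W := E27 ℚ) Set.finite_empty (by simp)
      (Set.toFinite {EW.jc x, wC}) (by
        rintro _ (rfl | rfl)
        · exact alg_jc x
        · exact jc_zeta ▸ alg_jc _)
    have : NumberField H := {}
    let a : H := ⟨_, h _ (.inl rfl)⟩
    let w : H := ⟨_, h _ (.inr rfl)⟩
    have e : logHeight₁ (w * a) = logHeight₁ a := by
      have := logHeight₁_pow (w * a) 3
      rw [mul_pow, show w ^ 3 = 1 from Subtype.ext wC_cube, one_mul, logHeight₁_pow] at this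
      exact (mul_left_cancel₀ (by norm_num) this).symm
    exact (absLogHeight₁_ringHom H.val.toRingHom (w * a)).trans
      (e ▸ (absLogHeight₁_ringHom H.val.toRingHom a).symm)
  simp only [ht, hhat, tate, ← map_nsmul, tc_val, (co_vcq _).1]
  simp only [cp_J, xco_J, xco_cp, k]

theorem hb_eq (P Q : A) : hbil (tc P) (tc Q) = ht (P + Q) - ht P - ht Q := by
  rw [ht, map_add]
  rfl

theorem ht_neg (P : A) : ht (-P) = ht P := by
  have := hhat_sub (tc 0).2 (tc P).2
  rw [← hbil_apply, map_zero, map_zero, AddMonoidHom.zero_apply, ZeroMemClass.coe_zero, hhat_zero,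
    zero_sub, zero_add, sub_zero] at this
  rwa [ht, map_neg]

/-- The trace of an Eisenstein integer. -/
def trO (b : O) : ℤ := 2 * b.re - b.im

theorem hb_smul (b : O) (P : A) : hbil (tc P) (tc (b • P)) = trO b * ht P := by
  have h1 : hbil (tc P) (tc (JJ P)) = -ht P := by
    rw [hb_eq, show P + JJ P = -JJ (JJ P) by rw [CU.JJ_JJ]; abel, ht_neg, ht_JJ, ht_JJ]
    ring
  rw [CU.smul_def, map_add, map_add, map_zsmul, map_zsmul, map_zsmul, map_zsmul, h1, hbil_apply,
    hpair_self (tc P).2, ht, trO]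
  simp
  ring

theorem exists_ip {u : O} (hu : u ^ 6 = 1) : ∃ k, u = ip k := by
  have e : nm u ^ 6 = 1 := by rw [CL.nm_eq, ← map_pow, hu, map_one]
  obtain ⟨k, rfl | rfl⟩ := CL.nm_eq_one
    ((pow_eq_one_iff_of_nonneg (CL.nm_nonneg u) (by norm_num)).1 e) <;> revert k <;> decide

theorem ip_six : ∀ k, ip k ^ 6 = 1 := by decide

theorem unit_inv {β : Type} {f : A → β} (h1 : ∀ P, f (-P) = f P) (h2 : ∀ P, f (JJ P) = f P) {u : O}
    (hu : u ^ 6 = 1) (P : A) : f (u • P) = f P := by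
  obtain ⟨k, rfl⟩ := exists_ip hu
  rw [ip]
  induction k.val with
  | zero => rw [pow_zero, one_smul]
  | succ n ih =>
    rw [pow_succ', mul_smul, ← ih]
    generalize (⟨1, 1⟩ : O) ^ n • P = Q
    rw [← h1, ← h2 Q, ← h2 (JJ Q), CU.JJ_JJ, CU.smul_def]
    congr 1
    module

theorem cube_smul {u : O} (hu : u ^ 6 = 1) (P : A) : xco (cp (u • P)) ^ 3 = xco (cp P) ^ 3 :=
  unit_inv (f := fun P => xco (cp P) ^ 3) (fun P => by rw [map_neg, xco_neg])
    (fun P => by rw [cp_J, xco_J, mul_pow, wC_cube, one_mul]) hu P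

/-- The sum over the six rotations. -/
noncomputable def Dk (f : A → ℝ) (R S : A) : ℝ := ∑ k : ZMod 6, trO (ip k) * f (ip k • R - S)

theorem Dk_eq {f : A → ℝ} (h : ∀ P, f (-P) = f P) (R S : A) : Dk f R S =
    2 * (f (R - S) - f (R + S)) - (f (JJ R - S) - f (JJ R + S)) -
      (f (JJ (JJ R) - S) - f (JJ (JJ R) + S)) := by
  have e : ∀ {k : ZMod 6} {a b : ℤ} {Q : A}, ip k = ⟨a, b⟩ → a • R + b • JJ R - S = Q →
      trO (ip k) * f (ip k • R - S) = (2 * a - b) * f Q := fun h1 h2 => by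
    rw [h1, ← h2, trO]
    push_cast
    rfl
  rw [Dk, show (univ : Finset (ZMod 6)) = {0, 1, 2, 3, 4, 5} by decide, sum_insert (by decide),
    sum_insert (by decide), sum_insert (by decide), sum_insert (by decide), sum_insert (by decide),
    sum_singleton, e (a := 1) (b := 0) (Q := R - S) (by decide) (by module),
    e (a := 1) (b := 1) (Q := -(JJ (JJ R) + S)) (by decide) (by rw [CU.JJ_JJ]; module),
    e (a := 0) (b := 1) (Q := JJ R - S) (by decide) (by module),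
    e (a := -1) (b := 0) (Q := -(R + S)) (by decide) (by module),
    e (a := -1) (b := -1) (Q := JJ (JJ R) - S) (by decide) (by rw [CU.JJ_JJ]; module),
    e (a := 0) (b := -1) (Q := -(JJ R + S)) (by decide) (by module), h, h, h]
  push_cast
  ring

theorem Dk_ht (R S : A) : Dk ht R S = -6 * hbil (tc R) (tc S) := by
  have e : ∀ P : A, ht (P - S) - ht (P + S) = -2 * hbil (tc P) (tc S) := fun P => by
    have := hb_eq P (-S)
    rw [map_neg, map_neg, ← sub_eq_add_neg, ht_neg] at this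
    linarith [hb_eq P S]
  rw [Dk_eq ht_neg, e, e, e, CU.JJ_JJ, map_sub, map_neg, map_sub, map_neg,
    AddMonoidHom.sub_apply, AddMonoidHom.neg_apply]
  ring

theorem log_kl' {z : ℂ} (h : z ∉ LG.lattice) : Real.log ‖kl z‖ = -lamL LG z / 2 := by
  rw [kl, norm_mul, Real.log_mul (norm_ne_zero_iff.2 (sig_ne h))
    (norm_ne_zero_iff.2 (exp_ne_zero _)), norm_exp, Real.log_exp, lamL, neg_re, div_ofNat_re]
  ring

theorem Dk_La {R S : A} {x y : ℂ} (hx : cp R = un x) (hy : cp S = un y)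
    (h : xco (cp R) ^ 3 ≠ xco (cp S) ^ 3) : Dk (fun P => La (cp P)) R S = -4 * (Gr x y).re := by
  rw [Dk, Gr, re_sum, mul_sum]
  refine sum_congr rfl fun k _ => ?_
  have e : cp (ip k • R - S) = un (CL.toC (ip k) * x - y) := by
    rw [map_sub, map_sub, cp_smul _ hx, hy]
  have n : CL.toC (ip k) * x - y ∉ LG.lattice := fun c => h (by
    rw [← sub_eq_zero.1 ((cp_ne e).1 c), cube_smul (ip_six k)])
  rw [e, La_un n, log_kl' n, re_mul_ofReal, CL.toC_star, conj_re, CL.toC_apply, trO]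
  simp [wC]
  ring

theorem restr {σ : ℂ ≃+* ℂ} (h : σ wC = wC) :
    ∃ g ∈ GK 3, (σ : ℂ →+* ℂ).comp EW.jc = EW.jc.comp g := by
  let _ : Algebra Qbar ℂ := EW.jc.toAlgebra
  have : IsScalarTower ℚ Qbar ℂ :=
    IsScalarTower.of_algebraMap_eq fun q => (map_ratCast EW.jc q).symm
  let t : ℂ ≃ₐ[ℚ] ℂ := AlgEquiv.ofRingEquiv (f := σ) fun q => by simp
  have k : ∀ x, EW.jc (t.restrictNormal Qbar x) = σ (EW.jc x) :=
    AlgEquiv.restrictNormal_commutes t Qbar
  refine ⟨t.restrictNormal Qbar, H3.mem_GK3.2 ((H3.b1b_cy_eq (k := 1) ?_).trans Nat.cast_one),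
    RingHom.ext fun x => (k x).symm⟩
  have e : t.restrictNormal Qbar (zeta 1 ^ 2) = zeta 1 ^ 2 :=
    EW.jc.injective (by rw [k, jc_zeta, h])
  have e' : zeta 1 = (zeta 1 ^ 2) ^ 2 := by linear_combination -zeta 1 * zeta_cube
  rw [pow_one, e', map_pow, ← e', e]
  exact e'.symm

variable {ι κ : Type} {p : ℕ} {B G : ℝ}

theorem dec0 {s : Finset ι} {n : ι → ℤ} {R : ι → A}
    (hG : ∀ g ∈ GK 3, ∑ i ∈ s, n i * La (cp (g • R i)) = G) (hp : p.Prime) (hB0 : 0 ≤ B)
    (hB : ∀ v : AbsoluteValue ℂ ℝ, IsNonarchimedean v → v p < 1 →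
      |∑ i ∈ s, n i * lamV v (cp (R i))| ≤ B * -Real.log (v p)) :
    ∃ ρ : ℚ, |(ρ : ℝ)| ≤ B ∧ ∑ i ∈ s, n i * ht (R i) - G - ρ * Real.log p ∈ LogS p := by
  have h1 : ∀ σ : ℂ ≃+* ℂ, σ wC = wC → ∑ i ∈ s, n i * La (pm (σ : ℂ →+* ℂ) (cp (R i))) = G :=
    fun σ h => by
      obtain ⟨g, a, b⟩ := restr h
      simp only [← hG g a, cp, H3.smul_pw, pm_pm, b]
  refine G5.htd_dec (H := 1) (Λ := fun P => La (vcb.hom P)) zw (by
    have := neron_vc vcb (v := NormedField.toAbsoluteValue ℂ) (neron_lamA isPer)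
    simp only [map_one, Real.log_one, mul_zero, ite_self, sub_zero] at this
    exact this)
    (fun i _ => (tc (R i)).2) one_ne_zero (fun σ => ?_) hp hB0 fun v i hv => ?_
  · simp only [map_one, norm_one, Real.log_one, zero_add, tc_val, pmap_vcq]
    have e := congrArg σ wC_sq
    rw [map_mul, map_sub, map_neg, map_one] at e
    rcases mul_eq_zero.1 (show (σ wC - wC) * (σ wC - (-1 - wC)) = 0 by
      linear_combination e - wC_sq) with e | e
    · exact h1 σ (sub_eq_zero.1 e)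
    rw [← h1 (σ.trans conjAe.toRingEquiv) (by
      change starRingEnd ℂ (σ wC) = wC
      rw [sub_eq_zero.1 e, ← CL.f0_conj, conj_conj])]
    refine sum_congr rfl fun i _ => ?_
    rw [← La_pm (f := starRingEnd ℂ) norm_conj, pm_pm]
    rfl
  · have e := (neron_vc vcq i.neron).unique (intW i.na).neron
    simp only [map_one, Real.log_one, mul_zero, ite_self, sub_zero] at e
    simpa only [map_one, Real.log_one, zero_add, tc_val, congrFun e] using hB v i.na hv

/-- Families of points that the Galois group permutes up to a common rotation. -/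
def Gl (s : Finset ι) (t : Finset κ) (X : ι → A) (Y : κ → A) : Prop :=
  ∀ g ∈ GK 3, ∃ u : O, u ^ 6 = 1 ∧
    (∀ f : A → ℝ, ∑ i ∈ s, f (u • g • X i) = ∑ i ∈ s, f (X i)) ∧
      ∀ f : A → ℝ, ∑ j ∈ t, f (u • g • Y j) = ∑ j ∈ t, f (Y j)

/-- The decomposition of the height. -/
theorem dec {s : Finset ι} {t : Finset κ} {X : ι → A} {Y : κ → A} {x T : ι → ℂ} {y T' : κ → ℂ}
    {b : O} (hx : ∀ i ∈ s, cp (X i) = un (x i)) (hy : ∀ j ∈ t, cp (Y j) = un (y j))
    (x0 : ∀ i ∈ s, X i ≠ 0) (y0 : ∀ j ∈ t, Y j ≠ 0) (xt : ∀ i ∈ s, Xt (xco (cp (X i))) (T i))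
    (yt : ∀ j ∈ t, Xt (xco (cp (Y j))) (T' j)) (hne : ∀ i ∈ s, ∀ j ∈ t, T i ≠ T' j)
    (hG : Gl s t X Y) (hs : ∑ j ∈ t, Y j = b • ∑ i ∈ s, X i) (hp : p.Prime) (hB0 : 0 ≤ B)
    (hB : ∀ v : AbsoluteValue ℂ ℝ, IsNonarchimedean v → v p < 1 → ∃ e : ι → κ → ℝ,
      ∑ i ∈ s, ∑ j ∈ t, e i j ≤ B * -Real.log (v p) ∧
        ∀ i ∈ s, ∀ j ∈ t, Lc v (T i) (T' j) (e i j)) :
    ∃ ρ : ℚ, |(ρ : ℝ)| ≤ 2 * B ∧ -3 * trO b * ht (∑ i ∈ s, X i) +
      2 * (∑ i ∈ s, ∑ j ∈ t, Gr (x i) (y j)).re - ρ * Real.log p ∈ LogS p := by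
  have S : ∀ F : A → ℝ, ∑ k ∈ (s ×ˢ t) ×ˢ (univ : Finset (ZMod 6)),
      (trO (ip k.2) : ℝ) * F (ip k.2 • X k.1.1 - Y k.1.2) =
      ∑ i ∈ s, ∑ j ∈ t, Dk F (X i) (Y j) := fun F => by
    rw [sum_product, sum_product]
    rfl
  obtain ⟨ρ, h1, h2⟩ := dec0 (s := (s ×ˢ t) ×ˢ (univ : Finset (ZMod 6))) (n := fun k => trO (ip k.2))
    (R := fun k => ip k.2 • X k.1.1 - Y k.1.2) (B := 4 * B)
    (G := -4 * (∑ i ∈ s, ∑ j ∈ t, Gr (x i) (y j)).re) (fun g hg => by
      obtain ⟨u, hu, k1, k2⟩ := hG g hg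
      have e : ∀ R S : A, Dk (fun P => La (cp (g • P))) R S =
          Dk (fun P => La (cp P)) (u • g • R) (u • g • S) := fun R S =>
        sum_congr rfl fun k _ => by
          beta_reduce
          rw [← unit_inv (f := fun P => La (cp P)) (fun P => by rw [map_neg, La_neg])
            (fun P => by rw [cp_J, La_J]) hu, smul_sub g, vm_smul hg, smul_sub, smul_comm u]
      rw [S fun P => La (cp (g • P))]
      simp only [e]
      rw [k1 fun P => ∑ j ∈ t, Dk (fun P => La (cp P)) P (u • g • Y j), re_sum, mul_sum]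
      refine sum_congr rfl fun i hi => ?_
      rw [k2 fun Q => Dk (fun P => La (cp P)) (X i) Q, re_sum, mul_sum]
      exact sum_congr rfl fun j hj => Dk_La (hx i hi) (hy j hj)
        ((xt i hi).cube_ne (yt j hj) (hne i hi j hj))) hp (by positivity) fun v hv hv' => by
      obtain ⟨e, e1, e2⟩ := hB v hv hv'
      rw [S fun P => lamV v (cp P), mul_assoc]
      refine ((abs_sum_le_sum_abs _ _).trans ?_).trans
        (mul_le_mul_of_nonneg_left e1 four_pos.le)
      rw [mul_sum]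
      refine sum_le_sum fun i hi => (abs_sum_le_sum_abs _ _).trans ?_
      rw [mul_sum]
      refine sum_le_sum fun j hj => ?_
      rw [Dk_eq fun P => by rw [map_neg, (intW hv).lam_neg]]
      simp only [map_sub, map_add, cp_J]
      exact lam_six hv ((map_ne_zero_iff _ cp_inj).2 (x0 i hi))
        ((map_ne_zero_iff _ cp_inj).2 (y0 j hj)) (xt i hi) (yt j hj) (hne i hi j hj) (e2 i hi j hj)
  refine ⟨ρ / 2, ?_, ?_⟩
  · push_cast
    rw [abs_div, abs_two]
    linarith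
  · rw [S ht] at h2
    have e := hb_smul b (∑ i ∈ s, X i)
    rw [← hs] at e
    simp only [map_sum, AddMonoidHom.finsetSum_apply] at e
    simp only [Dk_ht, ← mul_sum] at h2
    rw [sum_comm, e] at h2
    convert LogS.rat_mul (1 / 2) h2 using 1
    push_cast
    ring

end Pool.Agent.Lib.MP_696deb_nt.Y3.HT
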