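import Pool.Agent.Lib.MP_696deb_nt.Y3.MS1
import Pool.Agent.Lib.MP_696deb_nt.Y3.N0

/-! The modular invariant in terms of the Hauptmodul of level three. -/

set_option autoImplicit false

open Filter Topology Complex ModularForm
open scoped Real

namespace Pool.Agent.Lib.MP_696deb_nt.Y3

open MP_23455a_nt.ModA (tendsto_eul tendsto_eul_mul)

variable {z : ℂ} {a b c d : ℤ}

theorem jf_mob (h : a * d - b * c = 1) (hz : 0 < z.im) : jf (mob a b c d z) = jf z :=
  jf_act (g := !![a, b; c, d]) (by simpa using h) hz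

theorem jf_W (hz : 0 < z.im) : jf (-1 / (3 * z)) = jf (3 * z) := by
  rw [← jf_mob (a := 0) (b := -1) (c := 1) (d := 0) (by norm_num) (im_mul_pos hz)]
  simp [mob]

/-- The difference of the two sides. -/
noncomputable def H3 (z : ℂ) : ℂ := jf z - (t3 z + 27) * (t3 z + 243) ^ 3 / t3 z ^ 3

theorem H3_mob (h : a * d - b * (3 * c) = 1) (hz : 0 < z.im) : H3 (mob a b (3 * c) d z) = H3 z := by
  rw [H3, jf_mob h hz, t3_mob h hz, H3]

theorem H3_W (hz : 0 < z.im) :
    H3 (-1 / (3 * z)) = jf (3 * z) - (t3 z + 27) * (t3 z + 3) ^ 3 / t3 z := by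
  have := t3_ne hz
  rw [H3, jf_W hz, t3_W hz]
  field_simp
  ring

theorem tendsto_H3 : Tendsto H3 atI (𝓝 0) := by
  have hx := qt_x.mono (k := 4) (by norm_num)
  have hy := qt_y.mono (k := 4) (by norm_num)
  have h1 := hx.add 243 hy.q_mul
  have h2 := (((qt_E4.mul qt_E4.sq).mul (hx.mul hy)).add (-1)
    ((hx.add 27 hy.q_mul).mul (h1.mul h1.sq))).zero (k := 1) (by norm_num) (by decide +kernel)
  have h3 := h2.div (((tendsto_eul.pow 12).pow 3).mul ((tendsto_eul_mul 3).pow 12)) (by simp)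
  rw [zero_div] at h3
  refine h3.congr' (ev_pos.mono fun z hz => ?_)
  have := q1_ne z
  have := eul_ne hz
  have := eul_ne (z := 3 * z) (im_mul_pos hz)
  simp only [Pi.div_apply, H3, jf, Dl_eq, t3_eul, eq_intCast]
  push_cast
  field_simp
  ring

theorem bdd_H3 : Bdd fun z => H3 (-1 / (3 * z)) := by
  have hx := qt_x.mono (k := 4) (by norm_num)
  have hy := qt_y.mono (k := 4) (by norm_num)
  have hE := qt_E4.expand 3 (by norm_num)
  have h1 := hx.add 3 hy.q_mul
  have h2 := (((hE.mul hE.sq).mul (hx.mul hy)).add (-1)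
    ((hx.add 27 hy.q_mul).mul (h1.mul h1.sq))).tendsto (k := 3) (by norm_num) (by decide +kernel)
  refine (Bdd.of_tendsto (h2.div ((tendsto_eul.pow 12).mul (((tendsto_eul_mul 3).pow 12).pow 3))
    (by simp))).congr fun z hz => ?_
  have := q1_ne z
  have := eul_ne hz
  have := eul_ne (z := 3 * z) (im_mul_pos hz)
  have e : q1 (3 * z) = q1 z ^ 3 := q1_nat_mul 3 z
  simp only [Pi.div_apply, H3_W hz, jf, Dl_eq, t3_eul, eq_intCast, Nat.cast_ofNat]
  generalize eul (q1 (3 * z)) = y at *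
  rw [e]
  push_cast
  field_simp
  ring

theorem H3_eq (hz : 0 < z.im) : H3 z = 0 := by
  have hol : Hol H3 := fun z hz => by
    have := hol_t3 z hz
    have := pow_ne_zero 3 (t3_ne hz)
    have : DifferentiableAt ℂ jf z := ((qe_E4.hol z hz).pow 3).div (qe_Dl.hol z hz) (Dl_ne hz)
    unfold H3
    fun_prop (disch := assumption)
  obtain ⟨k, hk⟩ := const_of_inv 3 hol (fun a b c d h z hz => H3_mob h hz) fun a b c d h => by
    by_cases h3 : 3 ∣ c
    · obtain ⟨c, rfl⟩ := h3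
      exact (Bdd.of_tendsto tendsto_H3).congr fun z hz => H3_mob h hz
    · obtain ⟨e, he⟩ : 3 ∣ c * c - 1 := by
        obtain ⟨r, rfl | rfl⟩ : ∃ r, c = 3 * r + 1 ∨ c = 3 * r + 2 := ⟨c / 3, by omega⟩
        exacts [⟨3 * r * r + 2 * r, by ring⟩, ⟨3 * r * r + 4 * r + 1, by ring⟩]
      refine (bdd_H3.comp_affine (r := 1 / 3) (by norm_num) (c * d / 3)).congr fun z hz => ?_
      have e1 : -1 / (3 * ((1 / 3 : ℝ) * z + c * d / 3)) = mob 0 (-1) 1 (c * d) z := by
        simp only [mob]; push_cast; ring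
      have k := H3_mob (a := a * (c * d) - b) (b := a) (c := d * e) (d := c)
        (z := mob 0 (-1) 1 (c * d) z) (by linear_combination h + a * d * he)
        (im_mob_pos (by norm_num) hz)
      rw [mob_mob (by norm_num) _ _ _ _ hz] at k
      rw [e1, ← k]
      congr 2
      · ring
      · ring
      · ring
      · linear_combination -d * he
  rw [hk z hz]
  exact tendsto_nhds_unique
    (tendsto_const_nhds.congr' (ev_pos.mono fun z hz => (hk z hz).symm)) tendsto_H3

theorem jf_t3 (hz : 0 < z.im) : jf z * t3 z ^ 3 = (t3 z + 27) * (t3 z + 243) ^ 3 := by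
  have h := H3_eq hz
  rwa [H3, sub_eq_zero, eq_div_iff (pow_ne_zero 3 (t3_ne hz))] at h

theorem jf_t3' (hz : 0 < z.im) : jf (3 * z) * t3 z = (t3 z + 27) * (t3 z + 3) ^ 3 := by
  have h := H3_eq (z := -1 / (3 * z)) (W_eq z ▸ im_mob_pos (by norm_num) hz)
  rwa [H3_W hz, sub_eq_zero, eq_div_iff (t3_ne hz)] at h

theorem t3_sq (hz : 0 < z.im) : t3 z ^ 2 * Dl (3 * z) = Dl z := by
  have := eta_ne (z := 3 * z) (im_mul_pos hz)
  rw [t3, eta2, eta2, Dl, Dl]
  field_simp

theorem on_tt (hz : 0 < z.im) : On z (tt z) := by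
  refine ⟨⟨t3 z, t3_sq hz, jf_t3 hz, jf_t3' hz, S1 hz⟩, ?_⟩
  have := eta_ne (z := 7 * z) (im_mul_pos hz)
  have := eta_ne (z := 21 * z) (im_mul_pos hz)
  rw [tt, eta13, eta13, Dl, Dl, Dl, Dl, show 3 * (7 * z) = 21 * z by ring]
  generalize η (7 * z) = x, η (21 * z) = y at *
  field_simp

end Pool.Agent.Lib.MP_696deb_nt.Y3
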