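import Pool.Agent.Lib.MP_696deb_nt.Y3.HT3
import Pool.Agent.Lib.MP_696deb_nt.Y3.C3
import Pool.Agent.Lib.MP_696deb_nt.Y3.C5
import Pool.Agent.Lib.MP_696deb_nt.Y3.M7
import Pool.Agent.Lib.MP_696deb_nt.Y3.MS3

/-! The decomposition of the height for families of points with complex multiplication. -/

set_option autoImplicit false

open scoped Classical
open Complex Finset PeriodPair Pool.Agent.Shared.Weier

namespace Pool.Agent.Lib.MP_696deb_nt.Y3

open EW hiding om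
open CL (om wC Per)
open HT

variable {ι κ : Type} {F : Fam ι} {F' : Fam κ} {d d' M N N' p i j : ℕ} {φ : O → O} {B : ℝ} {τ : ℂ}

theorem ht4_p7 : CL.toC p7 = 1 + 3 * wC := by simp [CL.toC_apply, p7]

theorem ht4_pb : CL.toC (star p7) = -2 - 3 * wC := by
  rw [show star p7 = ⟨-2, -3⟩ by decide, CL.toC_apply]
  push_cast
  ring

theorem ht4_nz (h : ET i τ) : uu τ ∉ LG.lattice := fun k => na_pi h (on_tt h.pos) (by
  rw [(uu_mem h.pos).1 k, ht4_p7]
  linear_combination 9 * CL.wC_sq)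

theorem Fam.Ok.xt (h : F.Ok d) (k : ι) (e : ET i (tb (F.w k))) :
    F.pt k ≠ 0 ∧ Xt (xco (cp (F.pt k))) (tt (tb (F.w k))) := by
  have a : cp (F.wt k ^ 5 • F.pt k) = un (uu (tb (F.w k))) := by
    rw [cp_smul _ (h.cp_pt k), Fam.z, ← mul_assoc, ← map_mul, ← pow_succ, h.six, map_one, one_mul]
  have b := mt (cp_ne a).2 (ht4_nz e)
  refine ⟨fun c => b (by rw [c, smul_zero]), ?_⟩
  rw [Xt, ← cube_smul (u := F.wt k ^ 5) (by rw [pow_right_comm, h.six, one_pow]), xco_cp,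
    (cp_co a b).1, ← ht4_p7, ← ht4_pb]
  exact tt_wp e.pos (ht4_nz e)

variable [Fintype ι] [Fintype κ]

theorem Fam.Ok.cp_sum (h : F.Ok d) : cp (∑ j, F.pt j) = un (∑ j, F.z j) := by
  simp only [map_sum, h.cp_pt]

theorem Fam.Ok.tors (h : F.Ok d) (h0 : ht (∑ j, F.pt j) = 0) :
    ∃ n : ℕ, 0 < n ∧ n * ∑ j, F.z j ∈ LG.lattice := by
  obtain ⟨n, hn, e⟩ := isOfFinAddOrder_iff_nsmul_eq_zero.1 (tor_of_ht h0)
  exact ⟨n, hn, by rw [← un_eq_zero, ← nsmul_eq_mul, map_nsmul, ← h.cp_sum, ← map_nsmul, e,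
    map_zero]⟩

theorem fam_dec (hL : Lk M φ) (ok : F.Ok d) (ok' : F'.Ok d') (hN : 0 < N) (hN' : 0 < N')
    (st : F.Stable N fun a => φ a * eb a) (st' : F'.Stable N' fun a => φ a * eb a)
    (hx : ∀ k, ET i (tb (F.w k))) (hy : ∀ k, ET j (tb (F'.w k))) (hij : i < j) {b : O}
    (hs : ∑ k, F'.z k = CL.toC b * ∑ k, F.z k) (hp : p.Prime) (hB0 : 0 ≤ B)
    (hB : ∀ v : AbsoluteValue ℂ ℝ, IsNonarchimedean v → v p < 1 → ∃ e : ι → κ → ℝ,
      ∑ a, ∑ b, e a b ≤ B * -Real.log (v p) ∧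
        ∀ a b, Lc v (tt (tb (F.w a))) (tt (tb (F'.w b))) (e a b)) :
    ∃ ρ : ℚ, |(ρ : ℝ)| ≤ 2 * B ∧
      -3 * trO b * ht (∑ k, F.pt k) + 2 * (F.arch F').re - ρ * Real.log p ∈ LogS p := by
  refine dec (s := univ) (t := univ) (fun a _ => ok.cp_pt a) (fun a _ => ok'.cp_pt a)
    (fun a _ => (ok.xt a (hx a)).1) (fun a _ => (ok'.xt a (hy a)).1)
    (fun a _ => (ok.xt a (hx a)).2) (fun a _ => (ok'.xt a (hy a)).2)
    (fun a _ b _ => na_ne (hx a) (hy b).lv hij (on_tt (hx a).pos) (on_tt (hy b).pos))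
    (fun g hg => ?_) (cp_inj (by rw [ok'.cp_sum, cp_smul b ok.cp_sum, hs])) hp hB0
    fun v hv h => (hB v hv h).imp fun e k => ⟨k.1, fun a _ b _ => k.2 a b⟩
  obtain ⟨s, hs⟩ := Fam.gal hL ok hN st hg
  obtain ⟨s', hs'⟩ := Fam.gal hL ok' hN' st' hg
  exact ⟨φ (cm M g), hL.six _ (cm_cop (Nat.cast_ne_zero.2 hL.pos.ne') hg),
    fun f => (sum_congr rfl fun j _ => congrArg f (hs j)).trans (s.sum_comp fun j => f (F.pt j)),
    fun f => (sum_congr rfl fun j _ => congrArg f (hs' j)).trans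
      (s'.sum_comp fun j => f (F'.pt j))⟩

theorem ht4_cop (hp : p.Prime) (h3 : p % 3 = 2) : p.Coprime 21 :=
  Nat.Coprime.mul_right (k := p) (m := 3) (n := 7)
    ((Nat.coprime_primes hp Nat.prime_three).2 (by omega))
    ((Nat.coprime_primes hp n0_seven).2 (by omega))

theorem ht4_aG (hp : p.Prime) (h3 : p % 3 = 2) (s : ℕ) : aG (p ^ (2 * s)) = (-nb p * p) ^ s := by
  induction s with
  | zero => simpa using aG_one
  | succ s ih =>
    have e := aG_mul p (p ^ (2 * s) * p) hp.pos (by have := hp.pos; positivity)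
    rw [aG_inert hp h3, zero_mul, Nat.gcd_mul_left_right, hp.sum_divisors, Nat.div_self hp.pos,
      Nat.mul_div_cancel _ hp.pos, one_mul, ih, Nat.div_one, Nat.div_one, Nat.cast_one, nb_one,
      Nat.cast_one, show p * (p ^ (2 * s) * p) = p ^ (2 * (s + 1)) by ring] at e
    linear_combination -e

theorem aG_twelve (hp : p.Prime) (h3 : p % 3 = 2) (s : ℕ) : aG (p ^ (12 * s)) = p ^ (6 * s) := by
  have u := (ZMod.unitOfCoprime p (ht4_cop hp h3)).inv_mul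
  rw [show 12 * s = 2 * (6 * s) by ring, ht4_aG hp h3, mul_pow, pow_mul, Even.neg_pow (by decide),
    show nb p ^ 6 = 1 from (nb_inv _ _ u).2.2, one_pow, one_mul]

/-- The height side for two families and the Hecke images of the second. -/
theorem fam_side (hL : Lk M φ) (ok : F.Ok d) (ok' : F'.Ok d') (hN : 0 < N) (hN' : 0 < N')
    (st : F.Stable N fun a => φ a * eb a) (st' : F'.Stable N' fun a => φ a * eb a)
    (hx : ∀ k, ET i (tb (F.w k))) (hy : ∀ k, ET j (tb (F'.w k))) (hij : i < j)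
    (hs : ∀ m, 0 < m → ∑ k, (F'.hk m).z k = CL.toC (aG m * aG 3) * ∑ k, F.z k) (hp : p.Prime) :
    (p = 3 ∨ p % 3 = 1 → 9 * ht (∑ k, F.pt k) + 2 * (F.arch (F'.hk 1)).re ∈ LogS p) ∧
    (p % 3 = 2 → ∃ C : ℝ, ∀ s : ℕ, ∃ ρ : ℚ, |(ρ : ℝ)| ≤ C * (s + 1) ^ 2 ∧
      9 * p ^ (6 * s) * ht (∑ k, F.pt k) + 2 * (F.arch (F'.hk (p ^ (12 * s)))).re -
        ρ * Real.log p ∈ LogS p) := by
  have e : ∀ m (x : κ × HI m), tb ((F'.hk m).w x) =
      (x.2.1.1.1 * tb (F'.w x.1) + x.2.1.2) / x.2.1.1.2 := fun m x => by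
    simp [Fam.hk, tb_mv (ok'.dpos _).ne', mob]
  have y : ∀ m, m.Coprime 21 → ∀ x, ET j (tb ((F'.hk m).w x)) := fun m hm x => by
    have := (hy x.1).hecke ((Nat.mem_divisorsAntidiagonal.1 (mem_sigma.1 x.2.2).1).1 ▸ hm) x.2.1.2
    rw [e]
    exact_mod_cast this
  have D : ∀ m, m.Coprime 21 → 0 < m → ∀ B : ℝ, 0 ≤ B → _ → _ := fun m h h0 B => fam_dec
    (B := B) (b := aG m * aG 3) hL ok (Fam.hk_ok ok' h) hN (Nat.mul_pos h0 hN') st
    (Fam.hk_stable ok' h st') hx (y m h) hij (hs m h0) hp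
  refine ⟨fun h => ?_, fun h => ?_⟩
  · obtain ⟨ρ, h1, h2⟩ := D 1 (by decide) one_pos 0 le_rfl fun v hv h' => ⟨0, by simp, fun a b =>
      lc_zero hv hp h h' (hx a) (y 1 (by decide) b) hij (on_tt (hx a).pos)
        (on_tt (y 1 (by decide) b).pos)⟩
    rw [mul_zero, abs_nonpos_iff] at h1
    rw [h1, aG_one, aG_three, show trO (1 * ⟨-1, 1⟩) = -3 by decide] at h2
    convert h2 using 1
    push_cast
    ring
  choose n hn using fun a b => lc_sum hp h (hx a) (hy b) hij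
  refine ⟨2 * (144 * ∑ a, ∑ b, (n a b : ℝ)), fun s => ?_⟩
  have c := (ht4_cop hp h).pow_left (12 * s)
  obtain ⟨ρ, h1, h2⟩ := D _ c (pow_pos hp.pos _)
    ((∑ a, ∑ b, (n a b : ℝ)) * ((12 * s : ℕ) + 1) ^ 2) (by positivity) fun v hv h' => by
      choose f f1 f2 using fun a b => hn a b v hv h' (12 * s)
      refine ⟨fun a x => f a x.1 x.2, ?_, fun a x => f2 a x.1 _ x.2.2 _ _ (on_tt (hx a).pos)
        (e _ x ▸ on_tt (y _ c x).pos)⟩
      rw [mul_assoc, sum_mul]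
      refine sum_le_sum fun a _ => ?_
      rw [sum_mul, Fintype.sum_prod_type]
      exact sum_le_sum fun b _ => (sum_coe_sort _ (f a b)).trans_le
        ((f1 a b).trans_eq (mul_assoc _ _ _))
  refine ⟨ρ, h1.trans ?_, ?_⟩
  · rw [mul_assoc, mul_assoc 144, mul_left_comm 144]
    gcongr
    push_cast
    nlinarith [s.cast_nonneg (α := ℝ)]
  · rw [aG_twelve hp h, aG_three, ← Nat.cast_pow, show trO ((p ^ (6 * s) : ℕ) * ⟨-1, 1⟩) =
      -3 * (p ^ (6 * s) : ℕ) by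
        generalize p ^ (6 * s) = k
        simp [trO]
        ring] at h2
    convert h2 using 1
    push_cast
    ring

end Pool.Agent.Lib.MP_696deb_nt.Y3
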