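import Pool.Agent.Lib.MP_696deb_nt.EV.TopD

/-! The limit argument without an assumption on the rank: duality. -/

set_option autoImplicit false

open scoped Classical NNReal
open Finset Matrix PowerSeries

namespace Pool.Agent.Lib.MP_696deb_nt.EV

namespace Dat

section

variable {Γ κ : Type} [Group Γ] [Fintype κ] (D : Dat Γ κ)

/-- The properties that do not depend on the rank. -/
structure Ok0 : Prop where
  vp : ∀ b I, Pr I → D.ρ b D.g0 - 1 ∉ I
  ne : ∀ I, Pr I → ∃ i, D.ρ false (D.e i) - 1 ∉ I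
  pres : ∀ {n : ℕ} (s : D.St n) (b : Bool), Pres (D.ρ b) (D.gen s) (D.φ s) (D.L s b) (D.Z s b)
  deep : ∀ {n : ℕ} (s : D.St n) (b : Bool) (i : Jx κ n), i.deep →
    D.ρ b (D.φ s i) = 1 ∧ D.ρ b (D.gen s (.inl i)) = 1
  W_mem : ∀ {n : ℕ} (s : D.St n) (I : Ideal La), ∀ c ∈ D.Z s false I, (fun i => c (D.e i)) ∈ D.W I
  lw : ∀ I, Pr I → ∀ d ∉ I, ¬ ∀ y : Fin 4 → La, ∃ v ∈ D.W I, ∀ i, v i - d * y i ∈ I
  unit : ∀ {n : ℕ} (s : D.St n) (i : Jx κ n), i.deep → IsUnit (D.u s i)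
  recip : ∀ I, Pr I → ∀ {n : ℕ} (s : D.St n), ∀ c ∈ D.Z s true I, ∀ c' ∈ D.Z s false I,
    (∀ i, c' (D.e i) ∈ I) → ∑ i : Jx κ n with i.deep, D.u s i *
      (c' (D.φ s i) * c (D.gen s (.inl i)) - c' (D.gen s (.inl i)) * c (D.φ s i)) ∈ I
  N_ρ : ∀ {n : ℕ} (s : D.St n) (b : Bool), ∀ x ∈ D.N s, D.ρ b x = 1
  comm : ∀ {n : ℕ} (s : D.St n) (g : Γ), cmt D.g0 (cmt D.g0 g) ∈ D.N s
  step : ∀ {n : ℕ} (s : D.St n), ∀ x ∈ D.N s, ∀ (m : ℕ) (c : Fin m → Γ → La) (b : Fin m → Bool)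
    (J : Fin m → Ideal La), (∀ i, Pr (J i) ∧ c i ∈ D.Z s (b i) (J i)) →
    ∃ (s' : D.St (n + 1)) (t : La), D.Ext s s' ∧ IsUnit t ∧
      ∀ i, c i (D.φ s' none) - t * c i x ∈ J i
  kap_mem : ∀ {n : ℕ} (s : D.St n) (b : Bool), D.kap s b ∈ D.Z s true ⊥
  kap_φ : ∀ {n : ℕ} (s : D.St n) (b : Bool) (i : Jx κ n), i.deep → D.kap s b (D.φ s i) = 0
  F_mem : ∀ b, D.F b ∈ D.Z D.s0 true ⊥
  kap0 : ∀ b g, D.kap D.s0 b g = D.hat true (D.F b) g
  σ_w : ∀ i : κ, ww ∣ D.ρ true (D.gen D.s0 (.inl (some i))) - 1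
  φ_T : ∀ i : κ, Tu 1 (D.ρ true (D.φ D.s0 (some i)) - 1)
  σ_lam : D.ρ true (D.gen D.s0 (.inl none)) = 1 + X
  L_lam : IsUnit (D.L D.s0 true (D.φ D.s0 none) (.inr 1))
  gi_w : ww ∣ D.ρ true (D.gen D.s0 (.inr 0)) - 1
  F_T : Tu (Fintype.card κ + 1) (D.F true (D.gen D.s0 (.inr 0)))
  sym : ∃ x, ∀ g, D.cc false * D.F true g - D.cc true * D.F false g = (D.ρ true g - 1) * x
  cc_T : Tu 1 (D.cc true)
  cc_0 : constantCoeff (D.cc true) ≠ 0
  cc_ev : ∀ ev : La →+* Ow, (∀ a, ev (C a) = a) → ev (D.cc false) ≠ 0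
  k_mem : D.k ∈ D.W (Ideal.span {X})
  ind : ∀ x y : La, (∀ i, x * (D.ρ false (D.e i) - 1) + y * D.k i ∈ Ideal.span {(X : La)}) →
    y ∈ Ideal.span {(X : La)}

end

variable {Γ κ : Type} [Group Γ] [Fintype κ] {D : Dat Γ κ} {n : ℕ} {s : D.St n} {b : Bool}
  {I : Ideal La} {c c' : Γ → La}

theorem Ok0.val_cmt (h : D.Ok0) (hc : c ∈ D.Z s b I) (g : Γ) :
    c (cmt D.g0 (cmt D.g0 g)) - (D.ρ b D.g0 - 1) * D.hat b c g ∈ I := by
  have k := (h.pres s b).coc I c hc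
  have h1 := topA_cmt k D.g0 (cmt D.g0 g)
  rw [topA_one] at h1
  convert I.add_mem h1 (I.mul_mem_left (D.ρ b D.g0 - 1) (topA_cmt k D.g0 g)) using 1
  rw [hat]
  ring

theorem Ok0.topA_pow (h : D.Ok0) (hc : c ∈ D.Z s b I) {x y : Γ} (hx : x ∈ D.N s) (hy : y ∈ D.N s)
    (t : ℕ) : c (x * y ^ t) - (c x + t * c y) ∈ I := by
  induction t with
  | zero => simp
  | succ t ih =>
    have k := (h.pres s b).coc I c hc (x * y ^ t) y
    rw [h.N_ρ s b _ (mul_mem hx (pow_mem hy t))] at k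
    rw [pow_succ, ← mul_assoc]
    convert I.add_mem k ih using 1
    push_cast
    ring

theorem Ok0.topA_sub (h : D.Ok0) (hI : Pr I) (hc : c ∈ D.Z s b I) {x y : Γ} (hx : x ∈ D.N s)
    (hy : y ∈ D.N s) (k : c x ∉ I ∨ c y ∉ I) : {t : ℕ | c (x * y ^ t) ∈ I}.Subsingleton := by
  have k1 : ∀ t t' : ℕ, c (x * y ^ t) ∈ I → c (x * y ^ t') ∈ I → ¬ t < t' := fun t t' a a' e => by
    obtain ⟨d, rfl⟩ := Nat.exists_eq_add_of_lt e
    have b1 := (I.sub_mem_iff_right a).1 (h.topA_pow hc hx hy t)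
    have b2 := (I.sub_mem_iff_right a').1 (h.topA_pow hc hx hy (t + d + 1))
    have b3 : ((d + 1 : ℕ) : La) * c y ∈ I := by
      convert I.sub_mem b2 b1 using 1
      push_cast
      ring
    have b4 := (hI.1.mem_or_mem b3).resolve_left (topA_nat hI d.succ_ne_zero)
    exact k.elim (fun k => k ((I.add_mem_iff_left (I.mul_mem_left _ b4)).1 b1)) fun k => k b4
  exact fun t a t' a' => le_antisymm (not_lt.1 (k1 t' t a' a)) (not_lt.1 (k1 t t' a a'))

theorem Ok0.common (h : D.Ok0) (s : D.St n) {m : ℕ} (c : Fin m → Γ → La) (b : Fin m → Bool)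
    (J : Fin m → Ideal La) (hc : ∀ i, Pr (J i) ∧ c i ∈ D.Z s (b i) (J i))
    (h0 : ∀ i, ∃ g, D.hat (b i) (c i) g ∉ J i) : ∃ x ∈ D.N s, ∀ i, c i x ∉ J i := by
  suffices k : ∀ T : Finset (Fin m), ∃ x ∈ D.N s, ∀ i ∈ T, c i x ∉ J i from
    (k univ).imp fun x hx => ⟨hx.1, fun i => hx.2 i (mem_univ i)⟩
  intro T
  induction T using Finset.induction_on with
  | empty => exact ⟨1, one_mem _, fun i hi => absurd hi (notMem_empty i)⟩
  | insert j T _ ih =>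
    obtain ⟨x, hx, k⟩ := ih
    obtain ⟨g, hg⟩ := h0 j
    have hy := h.comm s g
    have k1 : c j (cmt D.g0 (cmt D.g0 g)) ∉ J j := fun e =>
      ((hc j).1.1.mem_or_mem (((J j).sub_mem_iff_right e).1 (h.val_cmt (hc j).2 g))).elim
        (h.vp _ _ (hc j).1) hg
    obtain ⟨t, ht⟩ := ((insert j T).finite_toSet.biUnion fun i hi =>
      (h.topA_sub (hc i).1 (hc i).2 hx hy ((mem_insert.1 hi).symm.imp (k i)
        fun e : i = j => e ▸ k1)).finite).exists_notMem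
    exact ⟨_, mul_mem hx (pow_mem hy t), fun i hi e => ht (Set.mem_biUnion hi e)⟩

/-- A new prime at which the given cocycles do not vanish. -/
theorem Ok0.new (h : D.Ok0) (s : D.St n) {m : ℕ} (c : Fin m → Γ → La) (b : Fin m → Bool)
    (J : Fin m → Ideal La) (hc : ∀ i, Pr (J i) ∧ c i ∈ D.Z s (b i) (J i))
    (h0 : ∀ i, ∃ g, D.hat (b i) (c i) g ∉ J i) :
    ∃ s' : D.St (n + 1), D.Ext s s' ∧ ∀ i, c i (D.φ s' none) ∉ J i := by
  obtain ⟨x, hx, k⟩ := h.common s c b J hc h0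
  obtain ⟨s', t, h1, h2, h3⟩ := h.step s x hx m c b J hc
  exact ⟨s', h1, fun i e =>
    k i (((J i).unit_mul_mem_iff_mem h2).1 (((J i).sub_mem_iff_right e).1 (h3 i)))⟩

theorem Ok0.two (h : D.Ok0) (hI : Pr I) (c : Fin 3 → Γ → La) (hc : ∀ i, c i ∈ D.Z s b I)
    (hx : Indep I fun i j => c i (D.gen s j)) : ∃ i j, D.Two b I (c i) (c j) := by
  have _ := hc
  have z : ∀ v : Fin 3 → La, (∀ g, ∑ i, v i * D.hat b (c i) g ∈ I) → ∑ i, v i * c i D.g0 ∈ I →
      ∀ i, v i ∈ I := fun v h1 h2 => hx v fun j => by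
    refine (hI.1.mem_or_mem ?_).resolve_left (h.vp b I hI)
    convert I.add_mem (h1 (D.gen s j)) (I.mul_mem_left (D.ρ b (D.gen s j) - 1) h2) using 1
    simp only [hat, Fin.sum_univ_three]
    ring
  have key : ∀ u u' : Fin 3 → La, (∀ g, ∑ i, u i * D.hat b (c i) g ∈ I) →
      (∀ g, ∑ i, u' i * D.hat b (c i) g ∈ I) → (¬ ∀ i, u i ∈ I) → ∀ k, u k ∈ I → u' k ∈ I :=
    fun u u' h1 h2 h3 k h4 => by
      have h5 := z (fun k => (∑ i, u i * c i D.g0) * u' k - (∑ i, u' i * c i D.g0) * u k)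
        (fun g => by
          convert I.sub_mem (I.mul_mem_left (∑ i, u i * c i D.g0) (h2 g))
            (I.mul_mem_left (∑ i, u' i * c i D.g0) (h1 g)) using 1
          simp only [Fin.sum_univ_three]
          ring)
        (by
          convert I.zero_mem using 1
          simp only [Fin.sum_univ_three]
          ring) k
      exact (hI.1.mem_or_mem ((I.sub_mem_iff_left (I.mul_mem_left _ h4)).1 h5)).resolve_left
        fun e => h3 (z u h1 e)
  by_contra hn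
  simp only [not_exists, Two, not_forall] at hn
  obtain ⟨t1, t2, a1, a2⟩ := hn 0 1
  obtain ⟨s1, s2, b1, b2⟩ := hn 0 2
  obtain ⟨r1, r2, c1, c2⟩ := hn 1 2
  have e : ∀ g, ∑ i, ![0, r1, r2] i * D.hat b (c i) g ∈ I := fun g => by
    simpa [Fin.sum_univ_three] using c1 g
  exact c2 ⟨key ![s1, 0, s2] _ (fun g => by simpa [Fin.sum_univ_three] using b1 g) e
      (fun k => b2 ⟨k 0, k 2⟩) 1 I.zero_mem,
    key ![t1, t2, 0] _ (fun g => by simpa [Fin.sum_univ_three] using a1 g) e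
      (fun k => a2 ⟨k 0, k 1⟩) 2 I.zero_mem⟩

theorem Ok0.ker (h : D.Ok0) (hI : Pr I) (hc : c ∈ D.Z s true I) (ht : D.Tr s I c) (i : Jx κ n) :
    (D.B s *ᵥ fun j => c (D.gen s j)) i ∈ I := by
  have k := (h.pres s true).val I hI c hc (D.φ s i)
  change D.B s i ⬝ᵥ _ ∈ I
  rw [B]
  split_ifs with e
  · exact (I.sub_mem_iff_right (ht i e)).1 k
  · rw [topA_rel]
    convert I.sub_mem ((h.pres s true).rel I hI c hc i)
      (I.mul_mem_left (D.ρ true (D.gen s (.inl i)) - 1) k) using 1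
    ring

theorem Ok0.of_ker (h : D.Ok0) (hI : Pr I) {x : Jx κ n ⊕ Fin 2 → La} (hx : ∀ i, (D.B s *ᵥ x) i ∈ I) :
    ∃ c ∈ D.Z s true I, D.Tr s I c ∧ ∀ j, c (D.gen s j) - x j ∈ I := by
  have k : ∀ i, D.B s i ⬝ᵥ x ∈ I := hx
  obtain ⟨c, hc, k1⟩ := (h.pres s true).ex I hI x fun i => by
    by_cases e : i.deep
    · rw [topA_rel, (h.deep s true i e).1, (h.deep s true i e).2]
      simp
    · simpa only [B, if_neg e] using k i
  refine ⟨c, hc, fun i e => ?_, k1⟩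
  have k2 := k i
  simp only [B, if_pos e] at k2
  convert I.add_mem (I.add_mem ((h.pres s true).val I hI c hc (D.φ s i))
    (topA_dot (D.L s true (D.φ s i)) k1)) k2 using 1
  simp only [dotProduct, mul_sub, sum_sub_distrib]
  ring

theorem Ok0.hat_wd (h : D.Ok0) (hI : Pr I) (k : ∀ g, D.hat true c g ∈ I)
    (l l' : Jx κ n ⊕ Fin 2 → La) :
    wd (fun j => D.ρ true (D.gen s j) - 1) (fun j => c (D.gen s j)) l l' ∈ I := by
  have e : ∀ l : Jx κ n ⊕ Fin 2 → La, (D.ρ true D.g0 - 1) * (l ⬝ᵥ fun j => c (D.gen s j)) -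
      (l ⬝ᵥ fun j => D.ρ true (D.gen s j) - 1) * c D.g0 ∈ I := fun l => by
    convert topA_dot l fun j => k (D.gen s j) using 1
    simp only [dotProduct, mul_sum, sum_mul, ← sum_sub_distrib, hat]
    exact sum_congr rfl fun j _ => by ring
  refine (hI.1.mem_or_mem ?_).resolve_left (h.vp true I hI)
  convert I.sub_mem (I.mul_mem_left (l ⬝ᵥ fun j => D.ρ true (D.gen s j) - 1) (e l'))
    (I.mul_mem_left (l' ⬝ᵥ fun j => D.ρ true (D.gen s j) - 1) (e l)) using 1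
  rw [wd]
  ring

/-- A nonzero dual cocycle that is trivial at three and at the Frobenius elements of the old primes. -/
theorem Ok0.count (h : D.Ok0) (hI : Pr I) (s : D.St (n + 2)) :
    ∃ c ∈ D.Z s false I, (∃ j, c (D.gen s j) ∉ I) ∧ (∀ i, c (D.e i) ∈ I) ∧
      ∀ i : Jx κ n, i.deep → c (D.φ s (some (some i))) ∈ I := by
  obtain ⟨x, x1, x2⟩ := exists_indep (m := 4) hI.1 (Matrix.of fun i : Jx κ n =>
    if i.deep then D.L s false (D.φ s (some (some i)))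
    else relR (D.ρ false) (D.gen s) (D.φ s) (D.L s false) (some (some i))) (by
      simp only [Fintype.card_sum, Jx.card, Fintype.card_fin]
      omega)
  have z (i : Jx κ (n + 2)) (hi : i.deep) (a : Fin 4) :
      relR (D.ρ false) (D.gen s) (D.φ s) (D.L s false) i ⬝ᵥ x a ∈ I :=
    I.sum_mem fun j _ => I.mul_mem_right _ (by
      rw [relR, (h.deep s false i hi).1, (h.deep s false i hi).2, sub_self, zero_mul, zero_mul,
        sub_self]
      exact I.zero_mem)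
  choose c c1 c2 using fun a => (h.pres s false).ex I hI (x a) fun i => by
    by_cases hi : i.deep
    · exact z i hi a
    rcases i with _ | _ | i
    · exact absurd trivial hi
    · exact absurd trivial hi
    · have := x2 a i
      rwa [mulVec, show (Matrix.of _ : Matrix _ _ La) i = _ from if_neg hi] at this
  have nI : ¬ Indep I fun a i => c a (D.e i) := fun k => by
    obtain ⟨d, d1, d2⟩ := k.span hI.1
    refine h.lw I hI d d1 fun y => (d2 y).elim fun t ht => ⟨∑ a, t a • fun i => c a (D.e i),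
      Submodule.sum_mem _ fun a _ => Submodule.smul_mem _ _ (h.W_mem s I _ (c1 a)), fun i => ?_⟩
    simpa only [Finset.sum_apply, Pi.smul_apply, smul_eq_mul] using ht i
  obtain ⟨t, ht⟩ := not_forall.1 nI
  obtain ⟨t1, t2⟩ := Classical.not_imp.1 ht
  have ev (g : Γ) : (∑ a, t a • c a) g = ∑ a, t a * c a g := by
    simp only [Finset.sum_apply, Pi.smul_apply, smul_eq_mul]
  refine ⟨∑ a, t a • c a, Submodule.sum_mem _ fun a _ => Submodule.smul_mem _ _ (c1 a),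
    not_forall.1 fun k => t2 (topb_indep x1 c2 t fun j => ev _ ▸ k j), fun i => ev _ ▸ t1 i,
    fun i hi => ev _ ▸ I.sum_mem fun a _ => I.mul_mem_left _ ?_⟩
  have k1 := x2 a i
  rw [mulVec, show (Matrix.of _ : Matrix _ _ La) i = _ from if_pos hi] at k1
  have k2 : D.L s false (D.φ s (some (some i))) ⬝ᵥ ((fun j => c a (D.gen s j)) - x a) ∈ I :=
    I.sum_mem fun j _ => I.mul_mem_left _ (c2 a j)
  rw [dotProduct_sub] at k2
  have k3 := I.add_mem (I.add_mem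
    ((h.pres s false).val I hI _ (c1 a) (D.φ s (some (some i)))) k2) k1
  rwa [sub_add_sub_cancel, sub_add_cancel] at k3

theorem Ok0.hat_ne (h : D.Ok0) (hI : Pr I) (hc : c ∈ D.Z s false I) (h0 : ∃ j, c (D.gen s j) ∉ I)
    (he : ∀ i, c (D.e i) ∈ I) : ∃ g, D.hat false c g ∉ I := by
  have _ := hc
  by_contra! k
  obtain ⟨j, hj⟩ := h0
  obtain ⟨i, hi⟩ := h.ne I hI
  have k1 : c D.g0 ∈ I := (hI.1.mem_or_mem (by
    simpa [hat] using
      I.sub_mem (I.mul_mem_left (D.ρ false D.g0 - 1) (he i)) (k (D.e i)))).resolve_left hi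
  exact hj ((hI.1.mem_or_mem (by
    simpa [hat] using I.add_mem (k (D.gen s j))
      (I.mul_mem_left (D.ρ false (D.gen s j) - 1) k1))).resolve_left (h.vp false I hI))

/-- The reciprocity law removes the ramification at the new prime. -/
theorem Ok0.topb_unr (h : D.Ok0) (hI : Pr I) {s' : D.St (n + 1)} (E : D.Ext s s')
    (hc : c ∈ D.Z s true I) (hc' : c' ∈ D.Z s' false I) (he : ∀ i, c' (D.e i) ∈ I)
    (h0 : c (D.φ s' none) ∉ I) (ht : ∀ i : Jx κ n, i.deep → c (D.φ s i) ∈ I ∧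
      (c' (D.φ s i) ∈ I ∨ c (D.gen s (.inl i)) ∈ I)) : c' ∈ D.Z s false I := by
  have k := h.recip I hI s' c (E.le _ _ hc) c' hc' he
  rw [sum_deep_succ, I.add_mem_iff_left (I.sum_mem fun i hi => I.mul_mem_left _ ?_),
    I.unit_mul_mem_iff_mem (h.unit s' none trivial),
    I.sub_mem_iff_right (I.mul_mem_left _ (E.zero _ _ c hc))] at k
  · exact E.unr _ _ hI c' hc' ((hI.1.mem_or_mem k).resolve_right h0)
  · obtain ⟨k1, k2⟩ := ht i (mem_filter.1 hi).2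
    rw [E.φ, show D.gen s' (.inl (some i)) = _ from E.gen (.inl i)]
    exact I.sub_mem (k2.elim (I.mul_mem_right _) (I.mul_mem_left _)) (I.mul_mem_left _ k1)

theorem Ok0.dual (h : D.Ok0) (hI : Pr I) (hz : D.Zr s I 3) :
    (∃ c ∈ D.Z s true I, D.Tr s I c ∧ ∃ g, D.hat true c g ∉ I) ∧
    ∃ c ∈ D.Z s false I, D.Tr s I c ∧ (∀ i, c (D.e i) ∈ I) ∧ ∃ g, D.hat false c g ∉ I := by
  obtain ⟨x, x1, x2⟩ := hz
  choose y y1 y2 y3 using fun a => h.of_ker hI (x2 a)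
  obtain ⟨a, a', T⟩ := h.two hI y y1 (topb_indep x1 y3)
  have n1 : ∃ g, D.hat true (y a) g ∉ I := not_forall.1 fun k =>
    hI.ne_top ((Ideal.eq_top_iff_one I).2 (T 1 0 fun g => by simpa using k g).1)
  refine ⟨⟨_, y1 a, y2 a, n1⟩, ?_⟩
  obtain ⟨s₁, E₁, e₁⟩ := h.new s (fun _ : Fin 1 => y a) (fun _ => true) (fun _ => I)
    (fun _ => ⟨hI, y1 a⟩) fun _ => n1
  let c := y a (D.φ s₁ none) • y a' - y a' (D.φ s₁ none) • y a
  have c1 : c ∈ D.Z s true I :=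
    sub_mem (Submodule.smul_mem _ _ (y1 a')) (Submodule.smul_mem _ _ (y1 a))
  have n2 : ∃ g, D.hat true c g ∉ I := not_forall.1 fun k =>
    e₁ 0 (T (-y a' (D.φ s₁ none)) _ fun g => by
      convert k g using 1
      simp only [hat, c, Pi.sub_apply, Pi.smul_apply, smul_eq_mul]
      ring).2
  obtain ⟨s₂, E₂, e₂⟩ := h.new s₁ (fun _ : Fin 1 => c) (fun _ => true) (fun _ => I)
    (fun _ => ⟨hI, E₁.le _ _ c1⟩) fun _ => n2
  obtain ⟨d, d1, d2, d3, d4⟩ := h.count hI s₂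
  have d5 : D.Tr s I d := fun i hi => ((E₂.φ (some i)).trans (E₁.φ i)) ▸ d4 i hi
  have d6 : d ∈ D.Z s₁ false I := by
    refine h.topb_unr hI E₂ (E₁.le _ _ c1) d1 d3 (e₂ 0) ?_
    rintro (_ | i) hi
    · refine ⟨?_, .inr (E₁.zero _ _ c c1)⟩
      change _ * _ - _ * _ ∈ I
      rw [mul_comm, sub_self]
      exact I.zero_mem
    · rw [E₁.φ]
      exact ⟨I.sub_mem (I.mul_mem_left _ (y2 a' i hi)) (I.mul_mem_left _ (y2 a i hi)),
        .inl (d5 i hi)⟩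
  exact ⟨d, h.topb_unr hI E₁ (y1 a) d6 d3 (e₁ 0) fun i hi => ⟨y2 a i hi, .inl (d5 i hi)⟩, d5, d3,
    h.hat_ne hI d1 d2 d3⟩

end Dat

end Pool.Agent.Lib.MP_696deb_nt.EV
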