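import Pool.Agent.Lib.MP_696deb_nt.Y3.KA

/-! The limit argument without an assumption on the rank: the ratio. -/

set_option autoImplicit false

open scoped Classical NNReal
open Finset Matrix PowerSeries

namespace Pool.Agent.Lib.MP_696deb_nt.EV

namespace Dat

variable {Γ κ : Type} [Group Γ] [Fintype κ] {D : Dat Γ κ} {n : ℕ} {s : D.St n} {b : Bool}
  {I : Ideal La} {c c' : Γ → La}

/-- A cocycle that vanishes at the generators vanishes. -/
theorem Ok0.topc_van (h : D.Ok0) (hI : Pr I) (hc : c ∈ D.Z s b I) (k : ∀ j, c (D.gen s j) ∈ I)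
    (g : Γ) : c g ∈ I :=
  (I.sub_mem_iff_left (I.sum_mem fun j _ => I.mul_mem_left _ (k j))).1
    ((h.pres s b).val I hI c hc g)

theorem Ok0.drop (h : D.Ok0) (hI : Pr I) (hz : D.Zr s I 3) (h0 : ∃ g, D.hat true (D.kap s b) g ≠ 0) :
    ∃ s' : D.St (n + 1), D.Ext s s' ∧ D.kap s b (D.φ s' none) ≠ 0 ∧
      ∀ m, D.Zr s' I m → D.Zr s I (m + 1) := by
  obtain ⟨⟨c, hc, tc, c0⟩, c', hc', tc', e', c0'⟩ := h.dual hI hz
  obtain ⟨s', he, hn⟩ := h.new s ![c, c', D.kap s b] ![true, false, true] ![I, I, ⊥]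
    (fun i => by
      fin_cases i
      exacts [⟨hI, hc⟩, ⟨hI, hc'⟩, ⟨pr_bot, h.kap_mem s b⟩])
    (fun i => by
      fin_cases i
      exacts [c0, c0', h0])
  have n0 : c (D.φ s' none) ∉ I := hn 0
  have n1 : c' (D.φ s' none) ∉ I := hn 1
  refine ⟨s', he, hn 2, fun m ⟨x, hx, kx⟩ => ?_⟩
  choose y hy ty ey using fun i => h.of_ker hI (kx i)
  have h1 : ∀ i, y i (D.gen s' (.inl none)) ∈ I := fun i => by
    have r := h.recip I hI s' _ (hy i) c' (he.le _ _ hc') e'
    rw [sum_deep_succ] at r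
    have r := (I.add_mem_iff_left (I.sum_mem fun j hj => I.mul_mem_left _ (I.sub_mem
      (I.mul_mem_right _ ((he.φ j).symm ▸ tc' j (mem_filter.1 hj).2))
      (I.mul_mem_left _ (ty i (some j) (mem_filter.1 hj).2))))).1 r
    have r := (I.sub_mem_iff_left (I.mul_mem_left _ (ty i none trivial))).1
      ((I.unit_mul_mem_iff_mem (h.unit s' none trivial)).1 r)
    exact (hI.1.mem_or_mem r).resolve_left n1
  have h2 : ∀ i, y i ∈ D.Z s true I := fun i => he.unr _ _ hI _ (hy i) (h1 i)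
  have h3 : ∀ i, D.Tr s I (y i) := fun i j hj => by
    rw [← he.φ]
    exact ty i (some j) hj
  have h4 : Indep I fun i j => y i (D.gen s j) := fun t ht => hx t fun j => by
    have k : ∑ i, t i * y i (D.gen s' j) ∈ I := by
      rcases topc_old j with rfl | ⟨j, rfl⟩
      · exact I.sum_mem fun i _ => I.mul_mem_left _ (h1 i)
      · simpa only [he.gen] using ht j
    have := I.sub_mem k (I.sum_mem fun i (_ : i ∈ univ) => I.mul_mem_left (t i) (ey i j))
    simpa only [mul_sub, sum_sub_distrib, sub_sub_cancel] using this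
  refine ⟨Fin.cons (fun j => c (D.gen s j)) fun i j => y i (D.gen s j),
    h4.cons hI.1 fun d t k => ?_, fun i => ?_⟩
  · have := h.topc_van hI (c := d • c - ∑ i, t i • y i) (Submodule.sub_mem _
      (Submodule.smul_mem _ _ hc) (Submodule.sum_mem _ fun i _ => Submodule.smul_mem _ _ (h2 i)))
      (fun j => by simpa using k j) (D.φ s' none)
    simp only [Pi.sub_apply, Pi.smul_apply, Finset.sum_apply, smul_eq_mul] at this
    rw [I.sub_mem_iff_left (I.sum_mem fun i _ => I.mul_mem_left _ (ty i none trivial))] at this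
    exact (hI.1.mem_or_mem this).resolve_right n0
  · refine Fin.cases ?_ (fun i => ?_) i
    exacts [h.ker hI hc tc, h.ker hI (h2 i) (h3 i)]

theorem Ok0.topc_cob (h : D.Ok0) (s : D.St n) :
    (D.B s *ᵥ fun j => D.ρ true (D.gen s j) - 1) = 0 :=
  funext fun i => h.ker pr_bot ((h.pres s true).cob ⊥)
    (fun j hj => sub_eq_zero.2 (h.deep s true j hj).1) i

theorem Ok0.nopole (h : D.Ok0) {P p q : La} (hP : Prime P) (hw : ¬ P ∣ ww) (hq : q ≠ 0) (h1 : P ∣ q)
    (h2 : ¬ P ∣ p) (h0 : ∃ l l', Dt (D.B D.s0) l l' ≠ 0)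
    (hr : Rat (D.B D.s0) (fun j => D.ρ true (D.gen D.s0 j) - 1)
      (fun j => D.kap D.s0 b (D.gen D.s0 j)) p q) : False := by
  have hI := pr_span hP hw
  have three : ∀ {n : ℕ} {s : D.St n} {p : La} {a c : Jx κ n ⊕ Fin 2 → La}, ¬ P ∣ p →
      Rat (D.B s) a c p q → D.Zr s (Ideal.span {P}) 3 := fun k r =>
    three_of_dt hI.1 fun l l' => Ideal.mem_span_singleton.2
      ((hP.dvd_or_dvd (r l l' ▸ h1.mul_right _)).resolve_left k)
  have key : ∀ n, ∃ (s : D.St n) (p : La), ¬ P ∣ p ∧ (∃ l l', Dt (D.B s) l l' ≠ 0) ∧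
      Rat (D.B s) (fun j => D.ρ true (D.gen s j) - 1) (fun j => D.kap s b (D.gen s j)) p q ∧
      ∀ m, D.Zr s (Ideal.span {P}) m → D.Zr D.s0 (Ideal.span {P}) (m + n) := by
    intro n
    induction n with
    | zero => exact ⟨D.s0, p, h2, h0, hr, fun _ k => k⟩
    | succ n ih =>
      obtain ⟨s, p, k1, ⟨l, l', k2⟩, k3, k4⟩ := ih
      have w0 : wd (fun j => D.ρ true (D.gen s j) - 1) (fun j => D.kap s b (D.gen s j)) l l' ≠ 0 :=
        fun e => mul_ne_zero (fun e' : p = 0 => k1 (e' ▸ dvd_zero P)) k2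
          (by rw [← k3 l l', e, mul_zero])
      obtain ⟨s', he, n0, hz⟩ := h.drop (b := b) hI (three k1 k3) (by
        by_contra! e
        exact w0 (h.hat_wd pr_bot e l l'))
      obtain ⟨r1, ε, r2, r3⟩ := rat_step (B := D.B s) (B' := D.B s')
        (a' := fun j => D.ρ true (D.gen s' j) - 1) (c' := fun j => D.kap s' b (D.gen s' j))
        he.B (h.topc_cob s')
        (funext fun i => h.ker pr_bot (h.kap_mem s' b) (h.kap_φ s' b) i)
        (fun e => w0 (by rw [e]; simp [wd])) (fun j => by rw [he.gen])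
        (sub_eq_zero.2 (h.deep s' true none trivial).2)
        ((he.kap b).trans (congrArg Neg.neg ((sub_eq_zero.1 ((h.pres s true).val ⊥ pr_bot _
          (h.kap_mem s b) _)).trans (congrArg (· ⬝ᵥ _) (funext he.B_none).symm))))
        ((he.kap b).trans_ne (neg_ne_zero.2 n0)) hq k3
      refine ⟨s', ε * p, fun e => k1 ((hP.dvd_or_dvd e).resolve_left fun e' =>
        hP.not_isUnit (isUnit_of_dvd_unit e' r2)), r1, r3, fun m k => ?_⟩
      have := k4 _ (hz m k)
      rwa [add_right_comm] at this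
  obtain ⟨s, p, k1, -, k3, k4⟩ := key (Fintype.card (Jx κ 0 ⊕ Fin 2))
  obtain ⟨x, hx, -⟩ := k4 3 (three k1 k3)
  have := hx.le hI.1
  omega

theorem Ok0.dt0 (h : D.Ok0) : Tu (Fintype.card κ + 1)
    (Dt (D.B D.s0) (Pi.single (.inl none) 1) (Pi.single (.inr 0) 1)) := by
  have e : ∀ i j, D.B D.s0 i j = relR (D.ρ true) (D.gen D.s0) (D.φ D.s0) (D.L D.s0 true) i j :=
    fun i => congrFun (if_neg id)
  have e1 := fun i => (e i _).trans (topc_self _ _ _ _ i)
  have e2 := fun i j (k : j ≠ .inl i) => (e i j).trans (topc_ne _ _ _ _ k)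
  have h1 : ∀ i : κ, Tu 1 (D.B D.s0 (some i) (.inl (some i))) := fun i =>
    (congrArg (Tu 1) (e1 (some i))).mpr ((h.φ_T i).neg.add ((h.σ_w i).mul_right _))
  have h2 : ∀ (i : κ) (j : Jx κ 0 ⊕ Fin 2), j ≠ .inl (some i) → ww ∣ D.B D.s0 (some i) j :=
    fun i j hj => by
      rw [e2 (some i) j hj]
      exact (h.σ_w i).mul_right _
  have h3 : Tu 1 (D.B D.s0 none (.inr 1)) := by
    refine (congrArg (Tu 1) (e2 none (.inr 1) Sum.inr_ne_inl)).mpr ?_
    exact Tu.mul (m := 1) (n := 0) ((congrArg (Tu 1) (sub_eq_iff_eq_add'.2 h.σ_lam)).mpr tu_X)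
      (.unit h.L_lam)
  clear e e1 e2
  generalize D.B D.s0 = B at h1 h2 h3 ⊢
  have := dt_base (κ := κ) B h1 h2 h3
  have k : ∀ (d d' : DecidableEq (Option κ ⊕ Fin 2)) (j : Option κ ⊕ Fin 2),
      @Pi.single _ (fun _ => La) _ d j 1 = @Pi.single _ (fun _ => La) _ d' j 1 := fun d d' j => by
    rw [Subsingleton.elim d d']
  exact (congrArg (Tu _) (congrArg₂ (Dt (ι := Option κ) B) (k _ _ _) (k _ _ _))).mp this

theorem Ok0.ratio (h : D.Ok0) (b : Bool) : ∃ R : La, ∀ l l',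
    wd (fun j => D.ρ true (D.gen D.s0 j) - 1) (fun j => D.F b (D.gen D.s0 j)) l l' =
      R * Dt (D.B D.s0) l l' := by
  have d1 := h.dt0.not_dvd
  have d0 : Dt (D.B D.s0) (Pi.single (.inl none) 1) (Pi.single (.inr 0) 1) ≠ 0 :=
    fun e => d1 (e ▸ dvd_zero _)
  have r := rat_of (h.topc_cob D.s0)
    (funext fun i => h.ker pr_bot (h.F_mem b) (fun _ k => k.elim) i) d0 (mul_comm _ _)
  obtain ⟨q, p, t, k1, k2, k3⟩ := UniqueFactorizationMonoid.exists_reduced_factors _ d0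
    (wd (fun j => D.ρ true (D.gen D.s0 j) - 1) (fun j => D.F b (D.gen D.s0 j))
      (Pi.single (.inl none) 1) (Pi.single (.inr 0) 1))
  have t0 : t ≠ 0 := left_ne_zero_of_mul (k2.trans_ne d0)
  have q0 : q ≠ 0 := right_ne_zero_of_mul (k2.trans_ne d0)
  have r' : Rat (D.B D.s0) (fun j => D.ρ true (D.gen D.s0 j) - 1)
      (fun j => D.F b (D.gen D.s0 j)) p q := fun l l' => mul_left_cancel₀ t0 (by
    rw [← mul_assoc, ← mul_assoc, k2, k3]
    exact r l l')
  by_cases u : IsUnit q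
  · obtain ⟨v, hv⟩ := u.exists_left_inv
    exact ⟨v * p, fun l l' => by rw [mul_assoc, ← r' l l', ← mul_assoc, hv, one_mul]⟩
  obtain ⟨P, hP, hq⟩ := WfDvdMonoid.exists_irreducible_factor u q0
  have hw : ¬ P ∣ ww := fun e => d1 (k2 ▸
    ((hP.associated_of_dvd prime_ww.irreducible e).symm.dvd.trans hq).mul_left t)
  refine (h.nopole (b := b) (p := (D.ρ true D.g0 - 1) * p) hP.prime hw q0 hq (fun e => ?_)
    ⟨_, _, d0⟩ fun l l' => ?_).elim
  · rcases hP.prime.dvd_or_dvd e with e | e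
    · exact h.vp true _ (pr_span hP.prime hw) (Ideal.mem_span_singleton.2 e)
    · exact hP.not_isUnit (k1 hq e)
  · have e : (fun j => D.kap D.s0 b (D.gen D.s0 j)) =
        (D.ρ true D.g0 - 1) • (fun j => D.F b (D.gen D.s0 j)) -
          D.F b D.g0 • fun j => D.ρ true (D.gen D.s0 j) - 1 := funext fun j => by
      rw [h.kap0, hat, mul_comm _ (D.F b D.g0)]
      rfl
    rw [mul_assoc, ← r' l l', e]
    simp only [wd, dotProduct_sub, dotProduct_smul, smul_eq_mul]
    ring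

theorem Ok0.ratio_ne (h : D.Ok0) {R : La} (hR : ∀ l l',
    wd (fun j => D.ρ true (D.gen D.s0 j) - 1) (fun j => D.F true (D.gen D.s0 j)) l l' =
      R * Dt (D.B D.s0) l l') : constantCoeff R ≠ 0 := by
  intro h0
  obtain ⟨R', hR'⟩ := h.ratio false
  obtain ⟨x, hx⟩ := h.sym
  have h1 := (hR (Pi.single (.inl none) 1) (Pi.single (.inr 0) 1)).symm
  have h2 := (hR' (Pi.single (.inl none) 1) (Pi.single (.inr 0) 1)).symm
  rw [topd_single] at h1 h2
  have h3 := h.dt0
  generalize Dt (D.B D.s0) (Pi.single (.inl none) 1) (Pi.single (.inr 0) 1) = d at h1 h2 h3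
  have h4 : Tu 1 R := by
    refine Tu.cancel ?_ h3
    rw [h1, h.σ_lam, add_sub_cancel_left, sub_eq_add_neg]
    exact (tu_X.mul h.F_T).add (h.gi_w.mul_right _).neg_right
  have h5 : D.cc false * R = D.cc true * R' :=
    mul_right_cancel₀ (b := d) (fun e => h3.not_dvd (e ▸ dvd_zero _)) (by
      linear_combination D.cc false * h1 - D.cc true * h2 +
        (D.ρ true (D.gen D.s0 (.inl none)) - 1) * hx (D.gen D.s0 (.inr 0)) -
        (D.ρ true (D.gen D.s0 (.inr 0)) - 1) * hx (D.gen D.s0 (.inl none)))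
  obtain ⟨ev, e1, e2⟩ := h.cc_T.exists_ev
  have h6 := congrArg ev h5
  rw [map_mul, map_mul, e2, zero_mul, mul_eq_zero, or_iff_right (h.cc_ev ev e1)] at h6
  obtain ⟨S, rfl⟩ := X_dvd_iff.2 h0
  have h7 : IsUnit S := (Tu.cancel (m := 0) (by rwa [mul_comm]) tu_X).isUnit
  rw [map_mul, mul_eq_zero, or_iff_left (h7.map ev).ne_zero] at h6
  obtain ⟨T, hT⟩ := X_dvd_iff.2 (show constantCoeff (D.cc true - C (constantCoeff (D.cc true))) = 0
    by rw [map_sub, constantCoeff_C, sub_self])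
  have h8 := congrArg ev hT
  rw [map_sub, map_mul, e1, e2, h6, zero_mul, zero_sub, neg_eq_zero] at h8
  exact h.cc_0 h8

theorem Ok0.topd_four (h : D.Ok0) (hI : Pr I) {x : Fin 4 → Fin 4 → La} (hx : ∀ i, x i ∈ D.W I) :
    ¬ Indep I x := fun k => by
  obtain ⟨d, d1, d2⟩ := k.span hI.1
  refine h.lw I hI d d1 fun y => ?_
  obtain ⟨t, ht⟩ := d2 y
  exact ⟨∑ i, t i • x i, Submodule.sum_mem _ fun i _ => Submodule.smul_mem _ _ (hx i), fun j => by
    simpa only [Finset.sum_apply, Pi.smul_apply, smul_eq_mul] using ht j⟩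

end Dat

end Pool.Agent.Lib.MP_696deb_nt.EV
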