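import Pool.Agent.Lib.MP_696deb_nt.Y3.K0
import Pool.Agent.Lib.MP_696deb_nt.EV.Erl
import Pool.Agent.Lib.MP_696deb_nt.Y3.KS6

/-! The explicit reciprocity law for the derived class. -/

set_option autoImplicit false

open scoped Classical NNReal
open Finset PowerSeries

namespace Pool.Agent.Lib.MP_696deb_nt.EV

namespace Cx

theorem erl_fin1 (c : Cx) : ∃ a : ℕ, ∀ j k τ, j ≤ k → 2 * j + a ≤ 3 * τ → ∀ r : DP (k + 1),
    ¬ r.t.π ∣ (c.t.N : O) → r.t.π ≠ (c.α true).π → r.x.ind w = 0 →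
    w3.V (kur c.φ (c.m0 (j + 1)) (c.α true).π r.x) < w3.V (3 ^ (2 * j + a)) →
    ∀ (f : ZMod (3 ^ (k + 1)) →+* La ⧸ JX j) (l : La ⧸ JX j →+ ZMod (3 ^ (j + 1))) (z : La ⧸ JX j),
    Spl (j + 1) Hw (cupR l (md (JX j) (c.ρ true k))
      (fun g => z * (3 ^ (τ + 1) * c.t.N * md (JX j) (c.ks k) g))
      (FE f (c.m0 (j + 1) * r.t.π) (c.α true).π (WJ f (c.Wq (JX j) k) {r}))) := by
  obtain ⟨a, ha⟩ := erl_core2 c.phi (c.α true).red
    ((c.α true).prime.irreducible.coprime_iff_not_dvd.2 (c.α_2 true)).symm (c.tp c.i0).prime (c.tp c.i0).red (c.dvd _)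
    (fun h => c.α_nd true (((c.tp c.i0).prime.irreducible.dvd_symm (c.α true).prime.irreducible
      h).trans (c.dvd _))) c.Q_mem c.Q_fix
  refine ⟨a + 6, fun j k τ hj hτ r _ hr hw hL f l z => ?_⟩
  have kb := (c.kb0 true hj).up r.t.prime.ne_zero
    (r.t.prime.irreducible.coprime_iff_not_dvd.2 (r.t.not_dvd _ hr))
  have hm : c.m0 (j + 1) * r.t.π = c.t.N * r.t.π * 3 ^ (j + 1 + 3) := by
    rw [c.m0_eq, mul_right_comm]
  have h8 := (c.dvd_m0 (j + 1)).2.1.mul_right r.t.π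
  have hπ : r.t.π ∣ c.m0 (j + 1) * r.t.π := dvd_mul_left _ _
  rw [kur] at hL
  generalize c.m0 (j + 1) * r.t.π = m at *
  have hH : Hw ≤ G := inf_le_left
  have fm := (fam_Im kb.ne kb.w3 kb.red (k + 1)).mono hH
  have e2 : (3 : O) ^ (j + 1) * 3 ^ (k - j) = 3 ^ (k + 1) := by
    rw [← pow_add]; congr 1; omega
  have od : ∀ P ∈ Im m, ¬ w ∣ co m P := fun P hP h =>
    g1_w.not_isUnit ((co_cop kb.ne hP).isUnit_of_dvd' h (w_dvd_three.trans kb.w3))
  have iv : ∀ g ∈ Hw, ∀ P ∈ Im m, r.x.ind (co m (g⁻¹ • P)) = r.x.ind (co m P) := fun g hg P hP => by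
    rw [r.x.per _ _ (kol_co kb.ne hπ (hH (inv_mem hg)) hP), r.x.mul _ _ (c5_cm _ (hH (inv_mem hg)))
      fun h => r.t.prime.not_isUnit ((co_cop kb.ne hP).isUnit_of_dvd' h hπ)]
    exact (congrArg (· + _) (r.x.ig_Hw hw _ (inv_mem hg))).trans (zero_add _)
  have n1 : oq (JX j) r.t.π * oq (JX j) (star r.t.π) = 1 := by
    rw [← map_mul, ← sub_eq_zero, ← map_one (oq (JX j)), ← map_sub, oq_zero,
      CL.mul_star_self, ← Int.natAbs_of_nonneg (CL.nm_nonneg _), Int.cast_natCast]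
    obtain ⟨u, hu⟩ := (pow_dvd_pow 3 (show j + 1 ≤ k + 1 + 1 by omega)).trans r.x.dvd
    have := r.t.nm_mod
    refine ⟨u, ?_⟩
    rw [← nm, show nm r.t.π = 3 ^ (j + 1) * u + 1 by omega]
    push_cast
    ring
  refine spl_congr (ha (j + 1) (j + 1 + 3) τ _ _ hm kb.ne (by omega) h8 (by omega)
    (fun P => (r.x.ind (co m P)).val) (fun g hg P hP => by rw [iv g hg P hP])
    (hL.trans_le (by
      rw [map_pow, map_pow]
      exact pow_le_pow_of_le_one zero_le V_three_lt.le (by omega)))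
    ((3 : O) ^ (k - j) • c.Q1 (k + 1)) (by rw [← mul_smul, e2, c.Q1_spec])
    (l.comp ((AddMonoidHom.mulLeft (z * oq (JX j) r.t.π)).comp (oq (JX j)).toAddMonoidHom))
    (fun P => Tht c.φ (k + 1) (co m P))
    (fun P hP => (Dvd.intro _ e2).trans (tht_spec c.φ (od P hP))) _
    ((fm.kf.congr fun P _ => (es_pow _ _ P).symm).down' (by omega))) fun g hg h _ => ?_
  have a0 : oq (JX j) (star (co (3 ^ (j + 1)) (c.t.cob ((3 : O) ^ (k - j) • c.Q1 (k + 1)) g))) =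
      md (JX j) (c.ks k) g := by
    have a4 : ((3 : O) ^ (j + 1) * 3 ^ (k - j)) • c.t.cob (c.Q1 (k + 1)) g = 0 := by
      rw [e2, Tw.cob, smul_sub, ← tw_smul _ (hH hg), c.Q1_spec, c.Q_fix g hg, sub_self]
    obtain ⟨u, hu⟩ := co_down (two_ne _) (two_ne _) a4
    rw [e2, Tw.cob, smul_sub, ← tw_smul _ (hH hg)] at hu
    refine sub_eq_zero.1 ((map_sub (oq (JX j)) _ _).symm.trans (oq_zero.2 ⟨star u, ?_⟩))
    rw [← star_sub]
    refine (congrArg star hu).trans ?_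
    rw [star_mul', star_pow, star_ofNat]
  rw [cupR, FE, FF, SS, ← fm.sum_act (inv_mem hg), mul_sum, mul_sum, map_sum, mul_sum]
  refine sum_congr rfl fun P hP => ?_
  have a1 := kb.act (hH hg) (fm.stab _ (inv_mem hg) P hP)
  rw [smul_inv_smul] at a1
  change _ = _ * (l (z * _ * oq (JX j) _) * _ * _)
  rw [WJ, prod_singleton, iv g hg P hP, hom_val f (r.x.ind _), star_mul', star_natCast,
    map_mul (oq _), map_mul (oq _), map_mul (oq _), map_mul (oq _), map_natCast, map_natCast, a0,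
    ← c.Wq_JX, a1, ← c.cy_θ f (hH hg), ← erl_cy (Nat.succ_le_succ hj), ← erl_lin f]
  congr 1
  linear_combination -(z * 3 ^ (τ + 1) * c.t.N * md (JX j) (c.ks k) g * f (cy (k + 1) g) *
    md (JX j) (c.θ k) g * f (kc (k + 1) (yb (c.α true).π (k + 1)) h (g⁻¹ • P)) *
      c.Wq (JX j) k (co m (g⁻¹ • P)) * (r.x.ind (co m P)).val) * n1

end Cx

end Pool.Agent.Lib.MP_696deb_nt.EV
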