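import Pool.Agent.Lib.MP_696deb_nt.Y3.L0
import Pool.Agent.Lib.MP_696deb_nt.Y2.MK

/-! The orders of the unit at the cusps. -/

set_option autoImplicit false

open Filter Topology Complex PeriodPair Pool.Agent.Shared.Weier
open scoped Real

namespace Pool.Agent.Lib.MP_696deb_nt.Y3

open Klein

/-- `F` has order `n / 42` at infinity, with leading coefficient in `S`. -/
def Od (S : Subfield ℂ) (F : ℂ → ℂ) (n : ℤ) : Prop :=
  ∃ c ∈ S, c ≠ 0 ∧ Tendsto (fun z => F z / q1 (n * z / 42)) atI (𝓝 c)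

/-- The Klein forms. -/
noncomputable def KF (N : ℕ) (m t : ℤ) (z : ℂ) : ℂ :=
  q1 (m ^ 2 * z / (2 * N)) * Th (N * z) (m * z + t / 21)

/-- The order of a Klein form. -/
def oK (N M m : ℤ) : ℤ := M * ((m % N) ^ 2 - N * (m % N))

/-- The order of the unit. -/
def oP (N M a k : ℤ) : ℤ :=
  oK N M (k * 6 * a) + oK N M (k * 13 * a) - (oK N M (k * 3 * a) + oK N M (k * 14 * a))

variable {S : Subfield ℂ} {F G : ℂ → ℂ} {n n' m t a s k : ℤ} {N M : ℕ} {z : ℂ}

theorem q1_sub (z w : ℂ) : q1 (z - w) = q1 z / q1 w := by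
  rw [eq_div_iff (q1_ne w), ← q1_add, sub_add_cancel]

theorem q1_int_mul (k : ℤ) (z : ℂ) : q1 (k * z) = q1 z ^ k := by
  rw [q1, q1, ← exp_int_mul, mul_left_comm]

theorem Od.congr (h : Od S F n) (e : ∀ z : ℂ, 0 < z.im → G z = F z) : Od S G n :=
  h.imp fun _ k => ⟨k.1, k.2.1, k.2.2.congr' (ev_pos.mono fun z hz => by simp only [e z hz])⟩

theorem Od.mul (h : Od S F n) (h' : Od S G n') : Od S (fun z => F z * G z) (n + n') := by
  obtain ⟨c, c1, c2, c3⟩ := h
  obtain ⟨d, d1, d2, d3⟩ := h'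
  exact ⟨_, mul_mem c1 d1, mul_ne_zero c2 d2, (c3.mul d3).congr fun z => by
    rw [div_mul_div_comm, ← q1_add, Int.cast_add, add_mul, add_div]⟩

theorem Od.div (h : Od S F n) (h' : Od S G n') : Od S (fun z => F z / G z) (n - n') := by
  obtain ⟨c, c1, c2, c3⟩ := h
  obtain ⟨d, d1, d2, d3⟩ := h'
  exact ⟨_, div_mem c1 d1, div_ne_zero c2 d2, (c3.div d3 d2).congr fun z => by
    rw [Pi.div_apply, div_div_div_comm, ← q1_sub, Int.cast_sub, sub_mul, sub_div]⟩

theorem Od.bdd (h : Od S G n) (hF : Bdd fun z => F z / q1 (n * z / 42)) :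
    Bdd fun z => F z / G z := by
  obtain ⟨c, -, c2, c3⟩ := h
  exact (hF.mul (.of_tendsto (c3.inv₀ c2))).congr fun z _ => by
    rw [← div_eq_mul_inv, div_div_div_cancel_right₀ (q1_ne _)]

theorem tendsto_poch (hN : N ≠ 0) {r : ℕ} (hr : r ≠ 0) (c : ℂ) :
    Tendsto (fun z => poch (q1 (N * z)) (q1 (r * z + c))) atI (𝓝 1) := by
  have h := (differentiableAt_poch (x := fun u => u ^ N) (w := fun u => u ^ r * q1 c) (s := 0)
    (by fun_prop) (by fun_prop) (by simp [hN])).continuousAt.tendsto.comp tendsto_q1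
  rw [zero_pow hr, zero_mul, poch_zero] at h
  exact h.congr fun z => by simp only [Function.comp, q1_add, q1_nat_mul]

theorem KF_add (hN : 0 < N) (hz : 0 < z.im) (j : ℤ) :
    KF N (m + N * j) t z = (-q1 (-t / 21)) ^ j * KF N m t z := by
  have n0 : (N : ℂ) ≠ 0 := Nat.cast_ne_zero.2 hN.ne'
  have c0 := neg_ne_zero.2 (q1_ne (-t / 21))
  have h : ∀ m : ℤ, KF N (m + N) t z = -q1 (-t / 21) * KF N m t z := fun m => by
    rw [KF, KF, Int.cast_add, Int.cast_natCast, add_mul, add_right_comm,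
      Th_add_omega (im_nat hN hz), ← mul_assoc, ← mul_assoc, mul_neg, neg_mul (q1 _), ← q1_add,
      ← q1_add]
    congr 3
    field_simp
    ring
  induction j with
  | zero => simp
  | succ j ih => rw [mul_add, mul_one, ← add_assoc, h, ih, zpow_add_one₀ c0]; ring
  | pred j ih =>
    refine mul_left_cancel₀ c0 ?_
    rw [← h, show m + N * (-j - 1) + N = m + N * -j by ring, ih, ← mul_assoc, ← zpow_one_add₀ c0]
    ring_nf

theorem l1_pos (h : N * M = 21) : 0 < N := Nat.pos_of_ne_zero fun e => by simp [e] at h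

theorem od_KF (h : N * M = 21) (hS : q1 (t / 42) ∈ S) (h0 : ¬ ((N : ℤ) ∣ m ∧ 21 ∣ t)) :
    Od S (KF N m t) (oK N M m) := by
  have hN : 0 < N := l1_pos h
  have n0 : (N : ℂ) ≠ 0 := Nat.cast_ne_zero.2 hN.ne'
  have hM : (N : ℂ) * M = 21 := by exact_mod_cast h
  have mS : ∀ j : ℤ, q1 (j * (t / 42)) ∈ S := fun j => q1_int_mul j _ ▸ zpow_mem hS j
  obtain ⟨r, hr⟩ : ∃ r : ℕ, m % N = r := Int.eq_ofNat_of_zero_le (Int.emod_nonneg m (by omega))
  obtain ⟨r', hr'⟩ : ∃ r' : ℕ, N = r + (r' + 1) :=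
    Nat.exists_eq_add_of_lt (by have := Int.emod_lt_of_pos m (show (0 : ℤ) < N by omega); omega)
  have e1 : m = r + N * (m / N) := hr ▸ (Int.emod_add_mul_ediv m N).symm
  have e2 : q1 (t / 21) ∈ S := by convert mS 2 using 2; push_cast; ring
  refine ⟨(-q1 (-t / 21)) ^ (m / N) * (q1 (-t / 42) * ((1 - 0 ^ r * q1 (t / 21)) * 1) * 1),
    mul_mem (zpow_mem (neg_mem (by convert mS (-2) using 2; push_cast; ring)) _) (mul_mem (mul_mem
      (by convert mS (-1) using 2; push_cast; ring) (mul_mem (sub_mem (one_mem _)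
        (mul_mem (pow_mem (zero_mem _) _) e2)) (one_mem _))) (one_mem _)), ?_, ?_⟩
  · refine mul_ne_zero (zpow_ne_zero _ (neg_ne_zero.2 (q1_ne _))) ?_
    rw [mul_one, mul_one]
    refine mul_ne_zero (q1_ne _) (sub_ne_zero.2 fun e => h0 ?_)
    rcases eq_or_ne r 0 with rfl | k
    · rw [pow_zero, one_mul, eq_comm, q1, exp_eq_one_iff] at e
      obtain ⟨j, e⟩ := e
      have := mul_left_cancel₀ two_pi_I_ne_zero (e.trans (mul_comm _ _))
      exact ⟨Int.dvd_of_emod_eq_zero hr, j, by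
        exact_mod_cast (show (t : ℂ) = 21 * j by linear_combination 21 * this)⟩
    · simp [k] at e
  · refine ((((((tendsto_q1.pow r).mul_const _).const_sub 1).mul (tendsto_poch (r := N + r) hN.ne'
      (by omega) (t / 21))).const_mul _).mul (tendsto_poch hN.ne' r'.succ_ne_zero
        (-t / 21))).const_mul _ |>.congr' (ev_pos.mono fun z hz => ?_)
    have e3 : (N : ℂ) = r + (r' + 1) := by exact_mod_cast hr'
    have e4 : q1 (r ^ 2 * z / (2 * N)) * q1 (-(r * z + t / 21) / 2) =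
        q1 (-t / 42) * q1 (M * (r ^ 2 - N * r) * z / 42) := by
      rw [← q1_add, ← q1_add]
      congr 1
      field_simp
      linear_combination 42 * (r * N - r ^ 2) * z * hM
    beta_reduce
    rw [oK, hr, e1, KF_add hN hz, ← e1, mul_div_assoc, KF, Th, eq_comm, poch_step (norm_q1_lt
      (im_nat hN hz)), ← q1_add, ← q1_nat_mul, ← q1_add, ← mul_assoc (q1 _), ← mul_assoc (q1 _)]
    push_cast
    rw [e4, mul_right_comm (q1 _), mul_right_comm (_ * _), mul_div_cancel_right₀ _ (q1_ne _),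
      show N * z - (r * z + t / 21) = (r' + 1) * z + -t / 21 by rw [e3]; ring, add_mul (N : ℂ),
      add_assoc]

theorem hol_KF (hN : 0 < N) : Hol (KF N m t) := fun τ h => by
  have h1 := norm_q1_lt (im_nat hN h)
  have hq : ∀ g : ℂ → ℂ, AnalyticAt ℂ g τ → AnalyticAt ℂ (fun z => q1 (g z)) τ := fun g hg =>
    (analyticAt_q1 _).comp hg
  exact (hq _ (by fun_prop)).differentiableAt.mul (((hq _ (by fun_prop)).differentiableAt.mul
    (differentiableAt_poch (hq _ (by fun_prop)) (hq _ (by fun_prop)) h1)).mul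
    (differentiableAt_poch (hq _ (by fun_prop)) (hq _ (by fun_prop)) h1))

theorem KF_ne (hN : 0 < N) (hz : 0 < z.im) (h0 : ¬ ((N : ℤ) ∣ m ∧ 21 ∣ t)) : KF N m t z ≠ 0 :=
  mul_ne_zero (q1_ne _) (Th_ne (im_nat hN hz) fun i j e =>
    h0 ((mem_lp hN hz).1 ((MP_23455a_nt.mem_lat (im_nat hN hz)).2 ⟨i, j, e⟩)))

theorem lp_sub (hN : 0 < N) (hz : 0 < z.im) {i j : ℤ} (hi : ¬ ((N : ℤ) ∣ i * a ∧ 21 ∣ i * s))
    (hj : ¬ ((N : ℤ) ∣ j * a ∧ 21 ∣ j * s)) : lp N a s z i - lp N a s z j =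
      -(deriv (Th (N * z)) 0 ^ 2 * (KF N ((i + j) * a) ((i + j) * s) z *
        KF N ((i - j) * a) ((i - j) * s) z)) /
      (KF N (i * a) (i * s) z ^ 2 * KF N (j * a) (j * s) z ^ 2) := by
  have e := Y2.wp_sub_Th (im_nat hN hz) (mt (mem_lp hN hz).1 hi) (mt (mem_lp hN hz).1 hj)
  have e2 : q1 (((i + j) * a) ^ 2 * z / (2 * N)) * q1 (((i - j) * a) ^ 2 * z / (2 * N)) =
      q1 ((i * a) ^ 2 * z / (2 * N)) ^ 2 * q1 ((j * a) ^ 2 * z / (2 * N)) ^ 2 := by
    simp only [sq (q1 _), ← q1_add]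
    ring_nf
  have e3 : ∀ i : ℂ, i * (a * z + s / 21) = i * a * z + i * s / 21 := fun i => by ring
  rw [eq_div_iff (mul_ne_zero (pow_ne_zero 2 (KF_ne hN hz hi)) (pow_ne_zero 2 (KF_ne hN hz hj)))]
  simp only [KF, lp]
  push_cast at e ⊢
  simp only [← e3] at e ⊢
  rw [← add_mul, ← sub_mul] at e
  linear_combination
    q1 ((i * a) ^ 2 * z / (2 * N)) ^ 2 * q1 ((j * a) ^ 2 * z / (2 * N)) ^ 2 * e +
    deriv (Th (N * z)) 0 ^ 2 * Th (N * z) ((i + j) * (a * z + s / 21)) *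
      Th (N * z) ((i - j) * (a * z + s / 21)) * e2

theorem KF_neg (hN : 0 < N) (hz : 0 < z.im) : KF N (-m) (-t) z = -KF N m t z := by
  rw [KF, KF, ← mul_neg, ← Th_neg (im_nat hN hz)]
  push_cast
  congr 2 <;> ring

section
variable (hN : N * M = 21) (hg : ∀ j, (N : ℤ) ∣ j * a → 21 ∣ j * s → 21 ∣ j) (hk : IsCoprime k 21)
include hg hk

theorem l1_gen {j : ℤ} (hj : ¬ 21 ∣ j) : ¬ ((N : ℤ) ∣ k * j * a ∧ 21 ∣ k * j * s) := fun h =>
  hj (hk.symm.dvd_of_dvd_mul_left (hg _ h.1 h.2))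

include hN

theorem kU_lp (hz : 0 < z.im) : kU (fun j => lp N a s z (k * j)) =
    KF N (k * 6 * a) (k * 6 * s) z * KF N (k * 13 * a) (k * 13 * s) z /
      (KF N (k * 3 * a) (k * 3 * s) z * KF N (k * 14 * a) (k * 14 * s) z) := by
  have h0 : 0 < N := l1_pos hN
  have n := fun j hj => KF_ne h0 hz (l1_gen hg hk (j := j) hj)
  have e : ∀ i j : ℤ, ¬ 21 ∣ i → ¬ 21 ∣ j → _ := fun i j hi hj =>
    lp_sub h0 hz (l1_gen hg hk (j := i) hi) (l1_gen hg hk (j := j) hj)
  have := deriv_Th_ne (im_nat h0 hz)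
  have := n 1 (by decide)
  have := n 3 (by decide)
  have := n 4 (by decide)
  have := n 5 (by decide)
  have := n 9 (by decide)
  have := n 14 (by decide)
  simp (disch := decide) only [kU, e, ← mul_add, ← mul_sub]
  norm_num only [mul_neg, neg_mul, KF_neg h0 hz]
  field_simp

theorem od_kU (hS : q1 (s / 42) ∈ S) :
    Od S (fun z => kU fun j => lp N a s z (k * j)) (oP N M a k) := by
  have h := fun j hj => od_KF (S := S) hN (by
    rw [Int.cast_mul, mul_div_assoc, q1_int_mul]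
    exact zpow_mem hS _) (l1_gen hg hk (j := j) hj)
  exact (((h 6 (by decide)).mul (h 13 (by decide))).div
    ((h 3 (by decide)).mul (h 14 (by decide)))).congr fun z hz => kU_lp hN hg hk hz

theorem hol_kU (hz : 0 < z.im) : DifferentiableAt ℂ (fun z => kU fun j => lp N a s z (k * j)) z ∧
    kU (fun j => lp N a s z (k * j)) ≠ 0 := by
  have h0 : 0 < N := l1_pos hN
  have n := fun j hj => KF_ne h0 hz (l1_gen hg hk (j := j) hj)
  have d := mul_ne_zero (n 3 (by decide)) (n 14 (by decide))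
  have f := fun j => hol_KF (m := k * j * a) (t := k * j * s) h0 z hz
  refine ⟨(((f 6).mul (f 13)).div ((f 3).mul (f 14)) d).congr_of_eventuallyEq ?_, kU_lp hN hg hk hz ▸
      div_ne_zero (mul_ne_zero (n 6 (by decide)) (n 13 (by decide))) d⟩
  filter_upwards [(isOpen_lt continuous_const continuous_im).mem_nhds hz] with w hw
  exact kU_lp hN hg hk hw

end

theorem hol_VU (hk : IsCoprime k 21) (hz : 0 < z.im) :
    DifferentiableAt ℂ (VU k) z ∧ VU k z ≠ 0 := by
  have h1 := hol_kU (N := 21) (M := 1) (a := 1) (s := 0) rfl (by omega) hk hz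
  have h2 := hol_kU (N := 7) (M := 3) (a := 3) (s := 28) rfl (by omega) hk hz
  refine ⟨(h1.1.mul h2.1).congr_of_eventuallyEq ?_, VU_inf hz ▸ mul_ne_zero h1.2 h2.2⟩
  filter_upwards [(isOpen_lt continuous_const continuous_im).mem_nhds hz] with w hw
  exact VU_inf hw

theorem od_inf (hS : q1 (2 / 3) ∈ S) (hk : IsCoprime k 21) :
    Od S (VU k) (oP 21 1 1 k + oP 7 3 3 k) :=
  ((od_kU (N := 21) (M := 1) (a := 1) (s := 0) rfl (by omega) hk (by simp [q1_zero])).mul
    (od_kU (N := 7) (M := 3) (a := 3) (s := 28) rfl (by omega) hk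
      (by convert hS using 2; norm_num))).congr fun _ => VU_inf

theorem od_zero (hk : IsCoprime k 21) :
    Od ⊤ (fun z => VU k (mob 0 (-1) 21 0 z)) (oP 1 21 0 k + oP 3 7 4 k) :=
  ((od_kU (N := 1) (M := 21) (a := 0) (s := -1) rfl (by omega) hk (Subfield.mem_top _)).mul
    (od_kU (N := 3) (M := 7) (a := 4) (s := -9) rfl (by omega) hk (Subfield.mem_top _))).congr fun _ => VU_zero

end Pool.Agent.Lib.MP_696deb_nt.Y3
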