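import Pool.Agent.Lib.MP_696deb_nt.Y3.M0

/-! The cusps of `Γ₀(21)`. -/

set_option autoImplicit false

open Filter Topology Complex PeriodPair ModularForm PowerSeries Pool.Agent.Shared.Weier
open scoped Real ComplexConjugate

namespace Pool.Agent.Lib.MP_696deb_nt.Y3

open CL (O nm om wC)

variable {τ z w : ℂ} {a b c d : ℤ}

theorem Eq0.refl (z : ℂ) : Eq0 z z := ⟨1, 0, 0, 1, by norm_num, by simp [mob]⟩

theorem Eq0.im_pos (h : Eq0 z w) (hz : 0 < z.im) : 0 < w.im := by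
  obtain ⟨a, b, c, d, h, rfl⟩ := h
  exact im_mob_pos (by omega) hz

theorem Eq0.symm (h : Eq0 z w) (hz : 0 < z.im) : Eq0 w z := by
  obtain ⟨a, b, c, d, h, rfl⟩ := h
  exact ⟨d, -b, -c, a, by linear_combination h, by
    rw [mul_neg, Unif.mob_adj (by omega) hz]⟩

theorem Eq0.trans {v : ℂ} (h : Eq0 z w) (h' : Eq0 w v) (hz : 0 < z.im) : Eq0 z v := by
  obtain ⟨a, b, c, d, h, rfl⟩ := h
  obtain ⟨a', b', c', d', h', rfl⟩ := h'
  refine ⟨a' * a + b' * (21 * c), a' * b + b' * d, c' * a + d' * c, 21 * c' * b + d' * d,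
    by linear_combination (a' * d' - b' * (21 * c')) * h + h', ?_⟩
  rw [mob_mob (by omega) _ _ _ _ hz]
  congr 1
  ring

theorem alM_det : ∀ i, 0 < (alM i).1 * (alM i).2.2.2 - (alM i).2.1 * (alM i).2.2.1 := by decide

theorem al_zero (z : ℂ) : al 0 z = z := by simp [al, alM, mob]

theorem al_im_pos (i : Fin 4) (hz : 0 < z.im) : 0 < (al i z).im := im_mob_pos (alM_det i) hz

theorem mob_of_decomp {α β γ δ Q k : ℤ} (i : Fin 4) (hQ : 0 < Q)
    (e1 : α * (alM i).1 + β * (alM i).2.2.1 = Q * a)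
    (e2 : α * (alM i).2.1 + β * (alM i).2.2.2 = b - k * a)
    (e3 : 21 * γ * (alM i).1 + δ * (alM i).2.2.1 = Q * c)
    (e4 : 21 * γ * (alM i).2.1 + δ * (alM i).2.2.2 = d - k * c) (z : ℂ) (hz : 0 < z.im) :
    mob a b c d z = mob α β (21 * γ) δ (al i ((z + k) / Q)) := by
  have hu : 0 < 1 * Q - k * 0 := by simpa using hQ
  have h4 : (z + k) / Q = mob 1 k 0 Q z := by simp [mob]
  rw [h4, al, mob_mob (alM_det i).ne' _ _ _ _ (im_mob_pos hu hz), e1, e2, e3, e4,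
    mob_mob hu.ne' _ _ _ _ hz, ← mob_scale hQ.ne' a b c d]
  congr 1 <;> ring

/-- Every matrix of determinant one is a matrix of `Γ₀(21)` times an Atkin-Lehner matrix times an
affine map. -/
theorem exists_decomp (hd : a * d - b * c = 1) : ∃ (i : Fin 4) (Q k α β γ δ : ℤ),
    0 < Q ∧ Q ≤ 21 ∧ 0 ≤ k ∧ k < 21 ∧ (i = 0 → 21 ∣ c) ∧ α * δ - β * (21 * γ) = 1 ∧
      ∀ z : ℂ, 0 < z.im → mob a b c d z = mob α β (21 * γ) δ (al i ((z + k) / Q)) := by
  have f3 : ¬ 3 ∣ c → 3 ∣ d - d * c ^ 5 * c := fun hc => by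
    rw [show (3 : ℤ) = (3 : ℕ) from rfl, ← ZMod.intCast_zmod_eq_zero_iff_dvd] at hc ⊢
    push_cast
    generalize (c : ZMod 3) = x at hc ⊢
    generalize (d : ZMod 3) = y
    revert x y
    decide
  have f7 : ¬ 7 ∣ c → 7 ∣ d - d * c ^ 5 * c := fun hc => by
    rw [show (7 : ℤ) = (7 : ℕ) from rfl, ← ZMod.intCast_zmod_eq_zero_iff_dvd] at hc ⊢
    push_cast
    generalize (c : ZMod 7) = x at hc ⊢
    generalize (d : ZMod 7) = y
    revert x y
    decide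
  generalize d * c ^ 5 = k at f3 f7
  rw [← Int.emod_add_mul_ediv k 21, add_mul, mul_assoc] at f3 f7
  have k0 := Int.emod_nonneg k (b := 21) (by norm_num)
  have k1 := Int.emod_lt_of_pos k (b := 21) (by norm_num)
  generalize k / 21 * c = l at f3 f7
  generalize k % 21 = k at f3 f7 k0 k1
  by_cases h3 : 3 ∣ c <;> by_cases h7 : 7 ∣ c
  · obtain ⟨c, rfl⟩ : 21 ∣ c := by omega
    exact ⟨0, 1, 0, a, b, c, d, by norm_num, by norm_num, by norm_num, by norm_num,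
      fun _ => ⟨c, rfl⟩, hd, fun z _ => by simp [al_zero]⟩
  · obtain ⟨c, rfl⟩ := h3
    obtain ⟨e, he⟩ : 7 ∣ d - k * (3 * c) := by have := f7 h7; omega
    exact ⟨3, 7, k, 7 * a - 6 * (b - k * a), b - k * a - a, c - 2 * e, 7 * e - 3 * c, by norm_num,
      by norm_num, k0, k1, by simp, by linear_combination hd - a * he,
      mob_of_decomp 3 (by norm_num) (by simp [alM]; ring) (by simp [alM]; ring)
      (by simp [alM]; ring) (by simp [alM]; linear_combination -he)⟩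
  · obtain ⟨c, rfl⟩ := h7
    obtain ⟨e, he⟩ : 3 ∣ d - k * (7 * c) := by have := f3 h3; omega
    exact ⟨1, 3, k, -(6 * a) - 7 * (b - k * a), b - k * a + a, -(2 * c) - e, 3 * e + 7 * c,
      by norm_num, by norm_num, k0, k1, by simp, by linear_combination hd - a * he,
      mob_of_decomp 1 (by norm_num) (by simp [alM]; ring) (by simp [alM]; ring)
      (by simp [alM]; ring) (by simp [alM]; linear_combination -he)⟩
  · obtain ⟨e, he⟩ : 21 ∣ d - k * c := by have := f3 h3; have := f7 h7; omega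
    exact ⟨2, 21, k, -(b - k * a), a, -e, c, by norm_num, by norm_num, k0, k1, by simp,
      by linear_combination hd - a * he,
      mob_of_decomp 2 (by norm_num) (by simp [alM]; ring) (by simp [alM])
      (by simp [alM]; ring) (by simp [alM]; linear_combination -he)⟩

/-- An invariant holomorphic function that is bounded at the four cusps is constant. -/
theorem const21 {F : ℂ → ℂ} (hF : Hol F)
    (hinv : ∀ a b c d : ℤ, a * d - b * (21 * c) = 1 → ∀ z : ℂ, 0 < z.im →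
      F (mob a b (21 * c) d z) = F z) (hb : ∀ i, Bdd fun z => F (al i z)) :
    ∃ c, ∀ z : ℂ, 0 < z.im → F z = c := by
  refine const_of_inv 21 hF hinv fun a b c d hd => ?_
  obtain ⟨i, Q, k, α, β, γ, δ, q0, -, -, -, -, h3, H⟩ := exists_decomp hd
  have hQ : (0 : ℝ) < (Q : ℝ)⁻¹ := inv_pos.2 (by exact_mod_cast q0)
  refine ((hb i).comp_affine hQ (k / Q)).congr fun z hz => ?_
  have h4 : (((Q : ℝ)⁻¹ : ℝ) : ℂ) * z + k / Q = (z + k) / Q := by
    push_cast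
    ring
  have h5 : 0 < ((z + k) / Q).im := by
    rw [div_intCast_im]
    exact div_pos (by simpa using hz) (by exact_mod_cast q0)
  rw [h4, H z hz, hinv _ _ _ _ h3 _ (al_im_pos i h5)]

/-- Inequivalent points have inequivalent neighbourhoods. -/
theorem ev_not_eq0 (hz : 0 < z.im) (hw : 0 < w.im) (h : ¬ Eq0 z w) :
    ∀ᶠ p in 𝓝 z ×ˢ 𝓝 w, ¬ Eq0 p.1 p.2 := by
  obtain ⟨K, k1, k2, k3⟩ := local_compact_nhds (Unif.upper_mem_nhds hz)
  obtain ⟨K', l1, l2, l3⟩ := local_compact_nhds (Unif.upper_mem_nhds hw)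
  have h1 := (Unif.finite_SL (k3.union l3) (Set.union_subset k2 l2)).inter_of_left
    {g | 21 ∣ g.2.2.1}
  have h2 := (eventually_all_finite (l := 𝓝 z ×ˢ 𝓝 w)
      (p := fun g p => mob g.1 g.2.1 g.2.2.1 g.2.2.2 p.1 ≠ p.2) h1).mpr <| by
    rintro ⟨a, b, _, d⟩ ⟨⟨hg, -⟩, c, rfl⟩
    exact (((hol_mob (by simp only at hg; omega) z hz).continuousAt.tendsto.comp
      tendsto_fst).sub tendsto_snd).eventually_ne
        (sub_ne_zero.mpr fun h' => h ⟨a, b, c, d, hg, h'.symm⟩) |>.mono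
      fun p hp => sub_ne_zero.mp hp
  filter_upwards [h2, prod_mem_prod k1 l1]
  rintro p hp ⟨p1, p2⟩ ⟨a, b, c, d, h, e⟩
  exact hp (a, b, 21 * c, d) ⟨⟨h, p.1, Or.inl p1, Or.inr (e ▸ p2)⟩, c, rfl⟩ e.symm

/-- A Siegel set. -/
theorem exists_rep (hτ : 0 < τ.im) :
    ∃ (i : Fin 4) (z : ℂ), |z.re| ≤ 22 ∧ 1 / 42 ≤ z.im ∧ Eq0 (al i z) τ := by
  obtain ⟨g, hg⟩ := ModularGroup.exists_smul_mem_fd ⟨τ, hτ⟩
  have h1 := ModularGroup.three_le_four_mul_im_sq_of_mem_fd hg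
  have h2 := hg.2
  have h3 := (g • (⟨τ, hτ⟩ : UpperHalfPlane)).im_pos
  have h4 := det_SL g
  rw [← UpperHalfPlane.coe_im, coe_smul_eq_mob] at h1 h3
  rw [← UpperHalfPlane.coe_re, coe_smul_eq_mob] at h2
  obtain ⟨i, Q, k, α, β, γ, δ, q0, q1, k0, k1, -, hd, H⟩ := exists_decomp (a := g 1 1)
    (b := -g 0 1) (c := -g 1 0) (d := g 0 0) (by linear_combination h4)
  have h5 := H _ h3
  rw [Unif.mob_adj (by omega) hτ] at h5
  generalize mob (g 0 0) (g 0 1) (g 1 0) (g 1 1) _ = w at h1 h2 h3 h5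
  have r0 : (1 : ℝ) ≤ Q := by exact_mod_cast q0
  have r1 : (Q : ℝ) ≤ 21 := by exact_mod_cast q1
  have s0 : (0 : ℝ) ≤ k := by exact_mod_cast k0
  have s1 : (k : ℝ) < 21 := by exact_mod_cast k1
  refine ⟨i, _, ?_, ?_, α, β, γ, δ, hd, h5⟩
  · rw [div_intCast_re, abs_div, abs_of_pos (by linarith : (0 : ℝ) < Q), div_le_iff₀ (by linarith),
      abs_le]
    simp only [add_re, intCast_re]
    constructor <;> linarith [abs_le.mp h2]
  · rw [div_intCast_im, le_div_iff₀ (by linarith)]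
    simp only [add_im, intCast_im]
    nlinarith

theorem al_one (z : ℂ) : al 1 z = mob 3 (-1) 21 (-6) z := rfl

theorem al_two (z : ℂ) : al 2 z = mob 0 (-1) 21 0 z := rfl

theorem W3_pos (hz : 0 < z.im) : 0 < (mob 3 (-1) 21 (-6) z).im := al_im_pos 1 hz

theorem W21_pos (hz : 0 < z.im) : 0 < (mob 0 (-1) 21 0 z).im := al_im_pos 2 hz

theorem al_three (hz : 0 < z.im) : al 3 z = mob 3 (-1) 21 (-6) (mob 0 (-1) 21 0 z) := by
  rw [mob_mob (by norm_num) _ _ _ _ hz, show al 3 z = mob 7 1 42 7 z from rfl,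
    ← mob_scale (Q := -3) (by norm_num) 7 1 42 7]
  norm_num

theorem W3_W3 (hz : 0 < z.im) :
    mob 3 (-1) 21 (-6) (mob 3 (-1) 21 (-6) z) = mob (-4) 1 (21 * -1) 5 z := by
  rw [mob_mob (by norm_num) _ _ _ _ hz, ← mob_scale (Q := 3) (by norm_num) (-4) 1]
  norm_num

/-- The involution normalises the group. -/
theorem W3_mob (hd : a * d - b * (21 * c) = 1) (hz : 0 < z.im) :
    mob 3 (-1) 21 (-6) (mob a b (21 * c) d z) =
      mob (-6 * a + 42 * c - 21 * b + 7 * d) (a - 7 * c + 3 * b - d)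
        (21 * (-2 * a + 12 * c - 7 * b + 2 * d)) (7 * a - 42 * c + 21 * b - 6 * d)
        (mob 3 (-1) 21 (-6) z) := by
  rw [mob_mob (by omega) _ _ _ _ hz, mob_mob (by norm_num) _ _ _ _ hz]
  congr 1 <;> ring

theorem W3_det (hd : a * d - b * (21 * c) = 1) :
    (-6 * a + 42 * c - 21 * b + 7 * d) * (7 * a - 42 * c + 21 * b - 6 * d) -
      (a - 7 * c + 3 * b - d) * (21 * (-2 * a + 12 * c - 7 * b + 2 * d)) = 1 := by
  linear_combination hd

theorem det_cast (hd : a * d - b * (21 * c) = 1) : (a : ZMod 21) * d = 1 := by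
  have := congrArg (Int.cast (R := ZMod 21)) hd
  push_cast at this
  rw [← this, show (21 : ZMod 21) = 0 from rfl, zero_mul, mul_zero, sub_zero]

theorem W3_nb (hd : a * d - b * (21 * c) = 1) :
    nb (7 * a - 42 * c + 21 * b - 6 * d : ℤ) = nb d := by
  have k : ∀ a d : ZMod 21, a * d = 1 → 7 * a - 6 * d = d := by decide +kernel
  congr 1
  push_cast
  rw [← k _ _ (det_cast hd), show (42 : ZMod 21) = 0 from rfl, show (21 : ZMod 21) = 0 from rfl,
    k _ _ (det_cast hd)]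
  linear_combination k _ _ (det_cast hd)

theorem nb_det_six (hd : a * d - b * (21 * c) = 1) : nb d ^ 6 = 1 := (nb_inv _ _ (det_cast hd)).2.2

theorem Eq0.W3 (h : Eq0 z w) (hz : 0 < z.im) :
    Eq0 (mob 3 (-1) 21 (-6) z) (mob 3 (-1) 21 (-6) w) := by
  obtain ⟨a, b, c, d, h, rfl⟩ := h
  exact ⟨_, _, _, _, W3_det h, W3_mob h hz⟩

theorem eq0_W3_W3 (hz : 0 < z.im) : Eq0 z (mob 3 (-1) 21 (-6) (mob 3 (-1) 21 (-6) z)) :=
  ⟨-4, 1, -1, 5, by norm_num, W3_W3 hz⟩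

theorem EqS.refl (z : ℂ) : EqS z z := .inl (.refl z)

theorem EqS.symm (h : EqS z w) (hz : 0 < z.im) (hw : 0 < w.im) : EqS w z := by
  rcases h with h | h
  · exact .inl (h.symm hz)
  · exact .inr ((eq0_W3_W3 hw).trans ((h.symm hz).W3 (W3_pos hw)) hw)

theorem EqS.trans {v : ℂ} (h : EqS z w) (h' : EqS w v) (hz : 0 < z.im) (hw : 0 < w.im)
    (hv : 0 < v.im) : EqS z v := by
  rcases h with h | h <;> rcases h' with h' | h'
  · exact .inl (h.trans h' hz)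
  · exact .inr (h.trans h' hz)
  · exact .inr (h.trans (h'.W3 hw) hz)
  · exact .inl ((h.trans (h'.W3 hw) hz).trans ((eq0_W3_W3 hv).symm hv) hz)

theorem nb_comp {c' d' : ℤ} : nb (21 * c' * b + d' * d : ℤ) = nb d' * nb d := by
  rw [← nb_mul]
  congr 1
  push_cast
  rw [show (21 : ZMod 21) = 0 from rfl, zero_mul, zero_mul, zero_add]

theorem EqX.im_pos {χ : O} (h : EqX χ z w) (hz : 0 < z.im) : 0 < w.im := by
  obtain ⟨a, b, c, d, h, ⟨-, rfl⟩ | ⟨-, rfl⟩⟩ := h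
  exacts [im_mob_pos (by omega) hz, im_mob_pos (by omega) (W3_pos hz)]

theorem EqX.six {χ : O} (h : EqX χ z w) : χ ^ 6 = 1 := by
  obtain ⟨a, b, c, d, h, ⟨rfl, -⟩ | ⟨rfl, -⟩⟩ := h
  · exact nb_det_six h
  · rw [mul_pow, nb_det_six h]
    decide

theorem EqX.mob {χ : O} (h : EqX χ z w) (hz : 0 < z.im) (hd : a * d - b * (21 * c) = 1) :
    EqX (nb d * χ) z (mob a b (21 * c) d w) := by
  obtain ⟨a', b', c', d', h', H⟩ := h
  refine ⟨a * a' + b * (21 * c'), a * b' + b * d', c * a' + d * c', 21 * c * b' + d * d',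
    by linear_combination (a * d - b * (21 * c)) * h' + hd, H.imp ?_ ?_⟩ <;> rintro ⟨rfl, rfl⟩
  · refine ⟨nb_comp, ?_⟩
    rw [mob_mob (by omega) _ _ _ _ hz]
    congr 1
    ring
  · refine ⟨by rw [nb_comp, mul_assoc], ?_⟩
    rw [mob_mob (by omega) _ _ _ _ (W3_pos hz)]
    congr 1
    ring

theorem EqX.one (z : ℂ) : EqX 1 z z :=
  ⟨1, 0, 0, 1, by norm_num, .inl ⟨by decide, by simp [Pool.Agent.Lib.MP_696deb_nt.mob]⟩⟩

theorem EqX.W3 {χ : O} (h : EqX χ z w) (hz : 0 < z.im) :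
    EqX (om * χ) z (Pool.Agent.Lib.MP_696deb_nt.mob 3 (-1) 21 (-6) w) := by
  obtain ⟨a, b, c, d, h, ⟨rfl, rfl⟩ | ⟨rfl, rfl⟩⟩ := h
  · exact ⟨_, _, _, _, W3_det h, .inr ⟨by rw [W3_nb h, mul_comm], W3_mob h hz⟩⟩
  · have := ((EqX.one z).mob hz (a := -4) (b := 1) (c := -1) (d := 5) (by norm_num)).mob hz
      (W3_det h)
    rwa [← W3_W3 hz, ← W3_mob h (W3_pos hz), W3_nb h, show nb (5 : ℤ) * 1 = om * om by decide,
      mul_left_comm] at this

theorem EqX.trans {χ χ' : O} {v : ℂ} (h : EqX χ z w) (h' : EqX χ' w v) (hz : 0 < z.im) :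
    EqX (χ' * χ) z v := by
  obtain ⟨a, b, c, d, hd, ⟨rfl, rfl⟩ | ⟨rfl, rfl⟩⟩ := h'
  · exact h.mob hz hd
  · exact mul_assoc (nb d) om χ ▸ (h.W3 hz).mob hz hd

theorem EqX.symm {χ : O} (h : EqX χ z w) (hz : 0 < z.im) : ∃ χ', χ * χ' = 1 ∧ EqX χ' w z := by
  have k : ∀ {a b c d : ℤ} {z : ℂ}, 0 < z.im → a * d - b * (21 * c) = 1 →
      EqX (nb a) (Pool.Agent.Lib.MP_696deb_nt.mob a b (21 * c) d z) z := fun {a b c d z} hz h =>
    ⟨d, -b, -c, a, by linear_combination h, .inl ⟨rfl, by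
      rw [mul_neg, Unif.mob_adj (by omega) hz]⟩⟩
  obtain ⟨a, b, c, d, h, ⟨rfl, rfl⟩ | ⟨rfl, rfl⟩⟩ := h
  · exact ⟨_, by rw [← nb_mul, mul_comm, det_cast h, nb_one], k hz h⟩
  · have h1 := im_mob_pos (by omega : 0 < a * d - b * (21 * c)) (W3_pos hz)
    have h2 := (k (W3_pos hz) h).W3 h1
    rw [W3_W3 hz] at h2
    refine ⟨_, ?_, h2.trans (k (a := -4) (b := 1) (c := -1) (d := 5) hz (by norm_num)) h1⟩
    have e : nb d * nb a = 1 := by rw [← nb_mul, mul_comm, det_cast h, nb_one]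
    have e' : om * (nb (-4 : ℤ) * om) = 1 := by decide
    linear_combination (om * (nb (-4 : ℤ) * om)) * e + e'

theorem EqX.eqS {χ : O} (h : EqX χ z w) (hz : 0 < z.im) : EqS z w := by
  have hw := h.im_pos hz
  obtain ⟨a, b, c, d, h, ⟨-, e⟩ | ⟨-, e⟩⟩ := h
  · exact .inl ⟨a, b, c, d, h, e⟩
  · exact EqS.symm (.inr (Eq0.symm ⟨a, b, c, d, h, e⟩ (W3_pos hz))) hw hz

theorem EqS.eqX (h : EqS z w) (hz : 0 < z.im) (hw : 0 < w.im) : ∃ χ, EqX χ z w := by
  rcases h.symm hz hw with h | h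
  · obtain ⟨a, b, c, d, h, e⟩ := h.symm hw
    exact ⟨_, a, b, c, d, h, .inl ⟨rfl, e⟩⟩
  · obtain ⟨a, b, c, d, h, e⟩ := h.symm hw
    exact ⟨_, a, b, c, d, h, .inr ⟨rfl, e⟩⟩

/-- An invariant holomorphic function that is bounded at the two cusps is constant. -/
theorem constS {F : ℂ → ℂ} (hF : Hol F)
    (hinv : ∀ a b c d : ℤ, a * d - b * (21 * c) = 1 → ∀ z : ℂ, 0 < z.im →
      F (mob a b (21 * c) d z) = F z) (hW : ∀ z : ℂ, 0 < z.im → F (mob 3 (-1) 21 (-6) z) = F z)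
    (h0 : Bdd F) (h1 : Bdd fun z => F (mob 0 (-1) 21 0 z)) : ∃ c, ∀ z : ℂ, 0 < z.im → F z = c := by
  refine const21 hF hinv fun i => ?_
  fin_cases i
  · exact h0.congr fun z _ => congrArg F (al_zero z)
  · exact h0.congr hW
  · exact h1
  · exact h1.congr fun z hz => (congrArg F (al_three hz)).trans (hW _ (W21_pos hz))

/-- Inequivalent points have inequivalent neighbourhoods. -/
theorem ev_not_eqS (hz : 0 < z.im) (hw : 0 < w.im) (h : ¬ EqS z w) :
    ∀ᶠ p in 𝓝 z ×ˢ 𝓝 w, ¬ EqS p.1 p.2 := by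
  rw [EqS, not_or] at h
  have h1 := (tendsto_id.prodMap (hol_mob (a := 3) (b := -1) (c := 21) (d := -6) (by norm_num) w
    hw).continuousAt.tendsto).eventually (ev_not_eq0 hz (W3_pos hw) h.2)
  filter_upwards [ev_not_eq0 hz hw h.1, h1] with p p1 p2 e using e.elim p1 p2

end Pool.Agent.Lib.MP_696deb_nt.Y3
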