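import Pool.Agent.Lib.MP_696deb_nt.Y3.M2
import Pool.Agent.Lib.MP_696deb_nt.Param

/-! The eta quotients of level twenty-one. -/

set_option autoImplicit false

open Filter Topology Complex PeriodPair ModularForm PowerSeries Pool.Agent.Shared.Weier
open scoped Real ComplexConjugate

namespace Pool.Agent.Lib.MP_696deb_nt.Y3

open CL (O nm om wC)
open MP_23455a_nt.ModA (tendsto_eul tendsto_eul_mul)

variable {τ z w : ℂ} {a b c d : ℤ}

theorem hol_eta13 : Hol eta13 := fun z hz =>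
  (hol_eta z hz).mul ((hol_eta _ (im_mul_pos hz)).comp z (by fun_prop))

theorem hol_eta7 : Hol fun z => eta13 (7 * z) := fun z hz =>
  (hol_eta13 _ (im_mul_pos hz)).comp z (by fun_prop)

theorem eta13_ne (h : 0 < τ.im) : eta13 τ ≠ 0 := mul_ne_zero (eta_ne h) (eta_ne (im_mul_pos h))

theorem hol_tt : Hol tt := fun z hz =>
  (hol_eta13 z hz).div (hol_eta7 z hz) (eta13_ne (im_mul_pos hz))

theorem tt_ne (h : 0 < τ.im) : tt τ ≠ 0 := div_ne_zero (eta13_ne h) (eta13_ne (im_mul_pos h))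

theorem hol_DD : Hol DD := fun z hz => ((hol_eta13 z hz).mul (hol_eta7 z hz)).pow 6

theorem DD_ne (h : 0 < τ.im) : DD τ ≠ 0 :=
  pow_ne_zero _ (mul_ne_zero (eta13_ne h) (eta13_ne (im_mul_pos h)))

theorem hol_t3 : Hol t3 := fun z hz => (((hol_eta z hz).pow 2).div
  (((hol_eta _ (im_mul_pos hz)).comp z (by fun_prop)).pow 2) (eta2_ne (im_mul_pos hz))).pow 6

theorem t3_ne (h : 0 < τ.im) : t3 τ ≠ 0 :=
  pow_ne_zero _ (div_ne_zero (eta2_ne h) (eta2_ne (im_mul_pos h)))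

theorem e12_pow (k : ZMod 12) (n : ℕ) : e12 k ^ n = e12 (n * k) := by
  rw [← nsmul_eq_mul, e12.eq_1 (n • k), AddChar.map_nsmul_eq_pow, e12]

/-- The two factors have the same multiplier. -/
theorem eta_mob (hd : a * d - b * (21 * c) = 1) (h : 0 < τ.im) : ∃ κ : ℂ, κ ^ 12 = 1 ∧
    eta13 (mob a b (21 * c) d τ) = κ * (21 * c * τ + d) * eta13 τ ∧
    eta13 (7 * mob a b (21 * c) d τ) = κ * (21 * c * τ + d) * eta13 (7 * τ) := by
  have h1 := eta13_tr a b (7 * c) d (by linear_combination hd) τ h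
  have h2 := eta13_tr a (7 * b) c d (by linear_combination hd) (7 * τ) (im_mul_pos h)
  have h3 := mul_mob (m := 7) a b (3 * c) d τ
  have h4 : ∀ a b c d : ZMod 12, PhiE a (7 * b) c d = PhiE a b (7 * c) d := by decide +kernel
  rw [show 3 * (7 * c) = 21 * c by ring] at h1
  rw [show 7 * (3 * c) = 21 * c by ring] at h3
  push_cast at h1 h2 h3
  refine ⟨_, ?_, h1, ?_⟩
  · rw [e12_pow, show ((12 : ℕ) : ZMod 12) = 0 from rfl, zero_mul, e12_zero]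
  · rw [h3, h2, h4]
    ring

theorem eta_W3 (h : 0 < τ.im) : ∃ κ : ℂ, κ ^ 12 = 729 ∧
    eta13 (mob 3 (-1) 21 (-6) τ) = κ * (7 * τ - 2) * eta13 τ ∧
    eta13 (7 * mob 3 (-1) 21 (-6) τ) = κ * (7 * τ - 2) * eta13 (7 * τ) := by
  have h1 := ((eta13_tr 1 1 2 7 (by norm_num)).comp eta13_trW (by norm_num)) τ h
  have h2 := ((eta13_tr 7 1 2 1 (by norm_num)).comp eta13_trW (by norm_num)) (7 * τ) (im_mul_pos h)
  have h3 := mul_mob (m := 7) 3 (-1) 3 (-6) τ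
  have e1 : PhiE ((7 : ℤ) : ZMod 12) ((1 : ℤ) : ZMod 12) ((2 : ℤ) : ZMod 12) ((1 : ℤ) : ZMod 12) =
      PhiE ((1 : ℤ) : ZMod 12) ((1 : ℤ) : ZMod 12) ((2 : ℤ) : ZMod 12) ((7 : ℤ) : ZMod 12) := by
    decide
  rw [e1] at h2
  have h4 := e12_pow (PhiE ((1 : ℤ) : ZMod 12) ((1 : ℤ) : ZMod 12) ((2 : ℤ) : ZMod 12)
    ((7 : ℤ) : ZMod 12)) 12
  rw [show ((12 : ℕ) : ZMod 12) = 0 from rfl, zero_mul, e12_zero] at h4
  generalize e12 _ = κ at h1 h2 h4
  norm_num at h1 h2 h3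
  refine ⟨κ * (-I * (√3 : ℝ)), ?_, ?_, ?_⟩
  · rw [mul_pow, h4, mul_pow, show 12 = 2 * 6 from rfl, pow_mul, pow_mul, sqrt3_sq, neg_sq, I_sq]
    norm_num
  · rw [h1]
    ring
  · rw [h3, h2]
    ring

theorem eta_W21 (h : 0 < τ.im) :
    eta13 (mob 0 (-1) 21 0 τ) = -I * (√3 : ℝ) * (7 * τ) * eta13 (7 * τ) ∧
    eta13 (7 * mob 0 (-1) 21 0 τ) = -I * (√3 : ℝ) * τ * eta13 τ := by
  have h0 : τ ≠ 0 := fun e => by simp [e] at h
  have h3 : mob 0 (-1) 21 0 τ = -1 / (3 * (7 * τ)) := by simp [mob]; ring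
  rw [h3, show 7 * (-1 / (3 * (7 * τ))) = -1 / (3 * τ) by field_simp]
  exact ⟨eta13_W (im_mul_pos h), eta13_W h⟩

theorem tt_mob (hd : a * d - b * (21 * c) = 1) (h : 0 < τ.im) :
    tt (mob a b (21 * c) d τ) = tt τ := by
  obtain ⟨κ, k, e1, e2⟩ := eta_mob hd h
  have h0 := den_ne (a := a) (b := b) (by omega : a * d - b * (21 * c) ≠ 0) h
  push_cast at h0
  rw [tt, e1, e2, mul_div_mul_left _ _ (mul_ne_zero (fun e => by simp [e] at k) h0), tt]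

theorem W3_den (h : 0 < τ.im) : 7 * τ - 2 ≠ 0 := by
  simpa [sub_eq_add_neg] using den_ne (a := 1) (b := 0) (c := 7) (d := -2) (by norm_num) h

theorem tt_W3 (h : 0 < τ.im) : tt (mob 3 (-1) 21 (-6) τ) = tt τ := by
  obtain ⟨κ, k, e1, e2⟩ := eta_W3 h
  rw [tt, e1, e2, mul_div_mul_left _ _ (mul_ne_zero (fun e => by simp [e] at k) (W3_den h)), tt]

theorem tt_W21 (h : 0 < τ.im) : tt (mob 0 (-1) 21 0 τ) = 7 / tt τ := by
  have h0 : τ ≠ 0 := fun e => by simp [e] at h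
  have h1 : ((√3 : ℝ) : ℂ) ≠ 0 := fun e => by simpa [e] using sqrt3_sq
  have := eta13_ne h
  rw [tt, (eta_W21 h).1, (eta_W21 h).2, tt]
  field_simp

theorem DD_mob (hd : a * d - b * (21 * c) = 1) (h : 0 < τ.im) :
    DD (mob a b (21 * c) d τ) = (21 * c * τ + d) ^ 12 * DD τ := by
  obtain ⟨κ, k, e1, e2⟩ := eta_mob hd h
  rw [DD, e1, e2, DD]
  linear_combination ((21 * c * τ + d) ^ 12 * (eta13 τ * eta13 (7 * τ)) ^ 6) * k

theorem DD_W3 (h : 0 < τ.im) : DD (mob 3 (-1) 21 (-6) τ) = 729 * (7 * τ - 2) ^ 12 * DD τ := by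
  obtain ⟨κ, k, e1, e2⟩ := eta_W3 h
  rw [DD, e1, e2, DD]
  linear_combination ((7 * τ - 2) ^ 12 * (eta13 τ * eta13 (7 * τ)) ^ 6) * k

theorem DD_W21 (h : 0 < τ.im) : DD (mob 0 (-1) 21 0 τ) = 21 ^ 6 * τ ^ 12 * DD τ := by
  have e : (-I * (√3 : ℝ)) ^ 2 = -3 := by rw [mul_pow, sqrt3_sq, neg_sq, I_sq]; ring
  rw [DD, (eta_W21 h).1, (eta_W21 h).2, DD]
  generalize -I * (√3 : ℝ) = s at e
  rw [show s * (7 * τ) * eta13 (7 * τ) * (s * τ * eta13 τ) =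
    s ^ 2 * (7 * τ ^ 2 * (eta13 τ * eta13 (7 * τ))) by ring, e]
  ring

theorem EqS.tt (h : EqS z w) (hz : 0 < z.im) (hw : 0 < w.im) : tt z = tt w := by
  rcases h with ⟨a, b, c, d, h, e⟩ | ⟨a, b, c, d, h, e⟩
  · rw [e, tt_mob h hz]
  · rw [← tt_W3 hw, e, tt_mob h hz]

theorem t3_mob (hd : a * d - b * (3 * c) = 1) (h : 0 < τ.im) :
    t3 (mob a b (3 * c) d τ) = t3 τ := by
  have h0 := den_ne (a := a) (b := b) (by omega : a * d - b * (3 * c) ≠ 0) h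
  have h1 := eta2_tr a b (3 * c) d hd τ h
  have h2 := eta2_tr a (3 * b) c d (by linear_combination hd) (3 * τ) (im_mul_pos h)
  have h3 := mul_mob (m := 3) a b c d τ
  have h4 : ∀ a b c d : ZMod 12, a * d - b * (3 * c) = 1 →
      (6 : ℕ) * PsiE a b (3 * c) d = (6 : ℕ) * PsiE a (3 * b) c d := by decide +kernel
  have h5 := congr_arg e12 (h4 a b c d (by exact_mod_cast congr_arg (Int.cast : ℤ → ZMod 12) hd))
  rw [← e12_pow, ← e12_pow] at h5
  push_cast at h0 h1 h2 h3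
  have := eta2_ne (z := 3 * τ) (im_mul_pos h)
  have := e12_ne (PsiE a (3 * b) c d)
  rw [t3, h3, h1, h2, t3, show c * (3 * τ) = 3 * c * τ by ring, div_pow, mul_pow, mul_pow, h5]
  field_simp

theorem t3_W (h : 0 < τ.im) : t3 (-1 / (3 * τ)) = 729 / t3 τ := by
  have h0 : τ ≠ 0 := fun e => by simp [e] at h
  have := eta2_ne h
  rw [t3, show 3 * (-1 / (3 * τ)) = -1 / τ by field_simp, eta2_S h, eta2_S (im_mul_pos h), t3]
  field_simp
  ring

theorem tt_eul (τ : ℂ) : q1 τ * tt τ =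
    eul (q1 τ) * eul (q1 (3 * τ)) / (eul (q1 (7 * τ)) * eul (q1 (21 * τ))) := by
  have e : q1 (7 * τ / 24) * q1 (21 * τ / 24) = q1 τ * (q1 (τ / 24) * q1 (3 * τ / 24)) := by
    simp only [← q1_add]
    congr 1
    ring
  have := q1_ne τ
  rw [tt, eta13, eta13, show 3 * (7 * τ) = 21 * τ by ring]
  simp only [MP_23455a_nt.ModA.eta_q]
  rw [mul_mul_mul_comm (q1 _), mul_mul_mul_comm (q1 (7 * τ / 24)), e, ← mul_div_assoc, ← mul_assoc,
    mul_div_mul_left _ _ (mul_ne_zero this (mul_ne_zero (q1_ne _) (q1_ne _)))]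

theorem DD_eul (τ : ℂ) : DD τ =
    q1 τ ^ 8 * (eul (q1 τ) * eul (q1 (3 * τ)) * eul (q1 (7 * τ)) * eul (q1 (21 * τ))) ^ 6 := by
  have e : (q1 (τ / 24) * q1 (3 * τ / 24) * q1 (7 * τ / 24) * q1 (21 * τ / 24)) ^ 6 = q1 τ ^ 8 := by
    simp only [← q1_add, ← q1_nat_mul]
    congr 1
    push_cast
    ring
  rw [DD, eta13, eta13, show 3 * (7 * τ) = 21 * τ by ring, ← e]
  simp only [MP_23455a_nt.ModA.eta_q]
  ring

theorem tendsto_tt : Tendsto (fun z => q1 z * tt z) atI (𝓝 1) := by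
  simpa using ((tendsto_eul.mul (tendsto_eul_mul 3)).div
    ((tendsto_eul_mul 7).mul (tendsto_eul_mul 21)) (by simp)).congr fun z => (tt_eul z).symm

theorem tt_inf : Tendsto (fun z => (tt z)⁻¹) atI (𝓝 0) := by
  have := tendsto_q1.div tendsto_tt one_ne_zero
  rw [zero_div] at this
  exact this.congr fun z => by rw [Pi.div_apply, div_mul_cancel_left₀ (q1_ne z)]

theorem tt_zero : Tendsto (fun z => tt (mob 0 (-1) 21 0 z)) atI (𝓝 0) := by
  have := tt_inf.const_mul 7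
  rw [mul_zero] at this
  exact this.congr' (ev_pos.mono fun z hz => (tt_W21 hz).symm)

end Pool.Agent.Lib.MP_696deb_nt.Y3
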