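import Pool.Agent.Lib.MP_696deb_nt.Y3.MS3
import Pool.Agent.Lib.MP_696deb_nt.Y2.M3j

/-! The injectivity of the Hauptmodul. -/

set_option autoImplicit false

open Filter Topology Complex PeriodPair ModularForm PowerSeries Pool.Agent.Shared.Weier
open scoped Real ComplexConjugate

namespace Pool.Agent.Lib.MP_696deb_nt.Y3

open CL (O nm om wC)

variable {τ z w : ℂ} {a b c d a' b' c' d' : ℤ}

theorem jf_inv (hz : 0 < z.im) : jf (-1 / z) = jf z := by
  rw [← jf_mob (a := 0) (b := -1) (c := 1) (d := 0) (by norm_num) hz]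
  simp [mob]

theorem jf_of_t3 (hz : 0 < z.im) (hw : 0 < w.im) (h : t3 z = t3 w) :
    jf w = jf z ∧ jf (3 * w) = jf (3 * z) :=
  ⟨mul_right_cancel₀ (pow_ne_zero 3 (t3_ne hw)) (by rw [jf_t3 hw, ← h, jf_t3 hz]),
    mul_right_cancel₀ (t3_ne hw) (by rw [jf_t3' hw, ← h, jf_t3' hz])⟩

theorem jf_of_tt (hz : 0 < z.im) (hw : 0 < w.im) (h : tt z = tt w) :
    jf w = jf z ∧ jf (3 * w) = jf (3 * z) ∨ jf w = jf (3 * z) ∧ jf (3 * w) = jf z := by
  have h1 := S1 hz
  have h2 := S1 hw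
  rw [← h] at h2
  have h3 : (t3 z - t3 w) * (t3 z * t3 w - 729) = 0 :=
    mul_left_cancel₀ (pow_ne_zero 7 (tt_ne hz)) (by linear_combination t3 w * h1 - t3 z * h2)
  refine (mul_eq_zero.1 h3).imp (fun e => jf_of_t3 hz hw (sub_eq_zero.1 e)) fun e => ?_
  have z0 : z ≠ 0 := fun e => by simp [e] at hz
  have := jf_of_t3 (z := -1 / (3 * z)) (W_eq z ▸ im_mob_pos (by norm_num) hz) hw
    (by rw [t3_W hz, div_eq_iff (t3_ne hz)]; linear_combination -e)
  rwa [jf_W hz, show 3 * (-1 / (3 * z)) = -1 / z by field_simp, jf_inv hz] at this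

theorem jf_W21 (hz : 0 < z.im) : jf (mob 0 (-1) 21 0 z) = jf (21 * z) ∧
    jf (3 * mob 0 (-1) 21 0 z) = jf (7 * z) := by
  have z0 : z ≠ 0 := fun e => by simp [e] at hz
  rw [← jf_inv (z := 21 * z) (im_mul_pos hz), ← jf_inv (z := 7 * z) (im_mul_pos hz)]
  constructor <;> congr 1 <;> simp [mob]
  field_simp
  norm_num

theorem jf_W3 (hz : 0 < z.im) : jf (mob 3 (-1) 21 (-6) z) = jf (3 * z) := by
  rw [← jf_mob (a := 1) (b := -1) (c := 7) (d := -6) (by norm_num) (im_mul_pos hz)]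
  congr 1
  simp only [mob]
  push_cast
  ring

/-- Two matrices that agree at a transcendental point are proportional. -/
theorem prop_of_trans (hz : 0 < z.im) (ht : ¬ IsAlgebraic ℤ z) (h1 : a * d - b * c ≠ 0)
    (h2 : a' * d' - b' * c' ≠ 0) (h : mob a b c d z = mob a' b' c' d' z) :
    a * c' = a' * c ∧ a * d' + b * c' = a' * d + b' * c ∧ b * d' = b' * d := by
  rw [mob, mob, div_eq_div_iff (den_ne h1 hz) (den_ne h2 hz)] at h
  have hP : Polynomial.C (a * c' - a' * c) * Polynomial.X ^ 2 +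
      Polynomial.C (a * d' + b * c' - (a' * d + b' * c)) * Polynomial.X +
      Polynomial.C (b * d' - b' * d) = 0 := by
    by_contra hP
    refine ht ⟨_, hP, ?_⟩
    simp only [map_add, map_mul, map_pow, Polynomial.aeval_X, eq_intCast, map_intCast]
    push_cast
    linear_combination h
  have k2 := congr_arg (Polynomial.coeff · 2) hP
  have k1 := congr_arg (Polynomial.coeff · 1) hP
  have k0 := congr_arg (Polynomial.coeff · 0) hP
  simp only [Polynomial.coeff_add, Polynomial.coeff_C_mul, Polynomial.coeff_X_pow,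
    Polynomial.coeff_X, Polynomial.coeff_C, Polynomial.coeff_zero] at k0 k1 k2
  norm_num at k0 k1 k2
  exact ⟨sub_eq_zero.1 k2, sub_eq_zero.1 k1, sub_eq_zero.1 k0⟩

theorem eq0_of_trans (hz : 0 < z.im) (hw : 0 < w.im) (h : tt z = tt w) (hj : jf w = jf z)
    (ht : ¬ IsAlgebraic ℤ z) : Eq0 z w := by
  obtain ⟨a, b, c, d, h1, h2⟩ := Y2.J2.exists_sl hz hw hj
  have h0 := jf_of_tt (W21_pos hz) (W21_pos hw) (by rw [tt_W21 hz, tt_W21 hw, h])
  rw [(jf_W21 hz).1, (jf_W21 hz).2, (jf_W21 hw).1, (jf_W21 hw).2] at h0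
  have e : ∀ m : ℤ, ∀ a' b' c' d' : ℤ, m ≠ 0 → a' * d' - b' * c' = 1 →
      m * w = mob a' b' c' d' (21 * z) → m * a * (21 * c') = 21 * a' * c ∧
        m * a * d' + m * b * (21 * c') = 21 * a' * d + b' * c ∧ m * b * d' = b' * d :=
    fun m a' b' c' d' hm h3 h4 => prop_of_trans hz ht
      (fun e => hm (by linear_combination e - m * h1))
      (fun e => by linarith [show 21 * a' * d' - b' * (21 * c') = 21 by linear_combination 21 * h3])
      (by
        rw [h2] at h4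
        simp only [mob] at h4 ⊢
        push_cast
        linear_combination h4)
  rcases h0 with ⟨h0, -⟩ | ⟨-, h0⟩
  · obtain ⟨a', b', c', d', h3, h4⟩ := Y2.J2.exists_sl (im_mul_pos hz) (im_mul_pos hw) h0
    obtain ⟨k2, k1, -⟩ := e 21 a' b' c' d' (by norm_num) h3 (by exact_mod_cast h4)
    obtain ⟨l, rfl⟩ : 21 ∣ c := by
      have k3 : a' * c = 21 * (a * c') := by linarith
      exact ⟨a * c' * d' - (a * d' + 21 * b * c' - a' * d) * c',
        by linear_combination -c * h3 + d' * k3 + c' * k1⟩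
    exact ⟨a, b, l, d, h1, h2⟩
  · obtain ⟨a', b', c', d', h3, h4⟩ := Y2.J2.exists_sl (im_mul_pos hz) (im_mul_pos hw) h0
    obtain ⟨k2, k1, -⟩ := e 7 a' b' c' d' (by norm_num) h3 (by exact_mod_cast h4)
    have k : (7 * a * d' - b' * c) ^ 2 = 147 := by
      linear_combination (7 * a * d' - b' * c) * k1 - (7 * b * d' - b' * d) * k2 +
        147 * (a' * d' - b' * c') * h1 + 147 * h3
    rcases Int.even_or_odd' (7 * a * d' - b' * c) with ⟨l, e | e⟩ <;> rw [e] at k <;>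
      ring_nf at k <;> omega

theorem eqS_of_trans (hz : 0 < z.im) (hw : 0 < w.im) (h : tt z = tt w) (ht : ¬ IsAlgebraic ℤ z) :
    EqS z w :=
  (jf_of_tt hz hw h).imp (fun e => eq0_of_trans hz hw h e.1 ht) fun e =>
    eq0_of_trans hz (W3_pos hw) (h.trans (tt_W3 hw).symm) ((jf_W3 hw).trans e.2) ht

theorem eqS_of_tt (hz : 0 < z.im) (hw : 0 < w.im) (h : tt z = tt w) : EqS z w := by
  by_contra hn
  obtain ⟨p, hp, r, hr, hpr⟩ := eventually_prod_iff.mp (ev_not_eqS hz hw hn)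
  have ho : IsOpen {v : ℂ | 0 < v.im} := isOpen_lt continuous_const continuous_im
  have ha : AnalyticOnNhd ℂ tt {v : ℂ | 0 < v.im} :=
    DifferentiableOn.analyticOnNhd (fun v hv => (hol_tt v hv).differentiableWithinAt) ho
  rcases ha.is_constant_or_isOpen (convex_halfSpace_im_gt 0).isPreconnected with ⟨k, hk⟩ | hop
  · have h1 : Tendsto (fun v => q1 v * tt v) atI (𝓝 (0 * k)) :=
      (tendsto_q1.mul_const k).congr' (ev_pos.mono fun v hv => by simp only [hk v hv])
    simpa using tendsto_nhds_unique h1 tendsto_tt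
  obtain ⟨V, hV, hVo, hwV⟩ := eventually_nhds_iff.mp (hr.and (ho.mem_nhds hw))
  have h2 : ∀ᶠ v in 𝓝 z, tt v ∈ tt '' V := (hol_tt z hz).continuousAt.eventually
    ((hop V (fun v hv => (hV v hv).2) hVo).mem_nhds ⟨w, hwV, h.symm⟩)
  obtain ⟨v, h3, h4, h5, u, h6, h7⟩ := ((mem_closure_iff_frequently.mp
    ((Algebraic.countable ℤ ℂ).dense_compl ℝ z)).and_eventually
    (hp.and ((show ∀ᶠ v in 𝓝 z, 0 < v.im from ho.mem_nhds hz).and h2))).exists
  exact hpr h4 (hV u h6).1 (eqS_of_trans h5 (hV u h6).2 h7.symm h3)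

theorem tt_surj {x : ℂ} (h0 : x ≠ 0) : ∃ z : ℂ, 0 < z.im ∧ tt z = x := by
  by_contra hn
  have hx : ∀ z : ℂ, 0 < z.im → tt z - x ≠ 0 := fun z hz h => hn ⟨z, hz, sub_eq_zero.mp h⟩
  have hi : Tendsto (fun z => (tt z - x)⁻¹) atI (𝓝 0) := by
    have := tendsto_q1.div (tendsto_tt.sub (tendsto_q1.mul_const x)) (by simp)
    rw [zero_div] at this
    refine this.congr fun z => ?_
    have := q1_ne z
    simp only [Pi.div_apply, ← mul_sub]
    rw [div_mul_cancel_left₀ this]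
  exact inv_ne_zero (hx I (by simp)) (zeroS (F := fun z => (tt z - x)⁻¹)
    (fun z hz => ((hol_tt z hz).sub_const x).inv (hx z hz))
    (fun a b c d h z hz => by simp only [tt_mob h hz]) (fun z hz => by simp only [tt_W3 hz]) hi
    (Bdd.of_tendsto ((tt_zero.sub_const x).inv₀ (by simpa using h0))) (by simp))

end Pool.Agent.Lib.MP_696deb_nt.Y3
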