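import Pool.Agent.Lib.MP_696deb_nt.Param
import Pool.Agent.Lib.MP_696deb_nt.JFun

/-! Truncated expansions at infinity as lists of coefficients. -/

set_option autoImplicit false

open Filter Topology Complex PowerSeries Finset

namespace Pool.Agent.Lib.MP_696deb_nt.Y3

variable {R : Type} [CommRing R]

/-- The product of two lists of coefficients, cut after `n` terms. -/
def msCv (n : ℕ) (l m : List R) : List R :=
  (List.range n).map fun k => ∑ i ∈ range (k + 1), l.getD i 0 * m.getD (k - i) 0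

/-- A linear combination of two lists of coefficients. -/
def msLc (n : ℕ) (l : List R) (c : R) (m : List R) : List R :=
  (List.range n).map fun k => l.getD k 0 + c * m.getD k 0

/-- The substitution of a power of the variable. -/
def msEx (n d : ℕ) (l : List R) : List R :=
  (List.range n).map fun k => if d ∣ k then l.getD (k / d) 0 else 0

theorem getD_map {n k : ℕ} (f : ℕ → R) (h : k < n) : ((List.range n).map f).getD k 0 = f k := by
  simp [List.getD, h]

/-- The first `n` coefficients of the expansion of `F` are given by the list. -/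
def QT (φ : R →+* ℂ) (n : ℕ) (F : ℂ → ℂ) (l : List R) : Prop :=
  ∃ A, QE F A ∧ ∀ i < n, coeff i A = φ (l.getD i 0)

namespace QT

variable {φ : R →+* ℂ} {n : ℕ} {F F' : ℂ → ℂ} {l m : List R}

theorem congr (h : QT φ n F l) (hF : ∀ z : ℂ, 0 < z.im → F' z = F z) : QT φ n F' l :=
  h.imp fun _ k => ⟨k.1.congr hF, k.2⟩

theorem eq (h : QT φ n F l) (m : List R) (e : l = m) : QT φ n F m := e ▸ h

theorem mono (h : QT φ n F l) {k : ℕ} (e : k ≤ n) : QT φ k F l :=
  h.imp fun _ a => ⟨a.1, fun i hi => a.2 i (hi.trans_le e)⟩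

theorem mul (h : QT φ n F l) (h' : QT φ n F' m) : QT φ n (fun z => F z * F' z) (msCv n l m) := by
  obtain ⟨A, a1, a2⟩ := h
  obtain ⟨B, b1, b2⟩ := h'
  refine ⟨_, a1.mul b1, fun k hk => ?_⟩
  rw [msCv, getD_map _ hk, coeff_mul, Nat.sum_antidiagonal_eq_sum_range_succ_mk, map_sum]
  refine sum_congr rfl fun i hi => ?_
  rw [mem_range] at hi
  rw [map_mul, a2 i (by omega), b2 _ (by omega)]

theorem add (h : QT φ n F l) (c : R) (h' : QT φ n F' m) :
    QT φ n (fun z => F z + φ c * F' z) (msLc n l c m) := by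
  obtain ⟨A, a1, a2⟩ := h
  obtain ⟨B, b1, b2⟩ := h'
  refine ⟨_, a1.add (b1.smul (φ c)), fun k hk => ?_⟩
  rw [msLc, getD_map _ hk, map_add, coeff_C_mul, map_add, map_mul, a2 k hk, b2 k hk]

theorem const (c : R) : QT φ n (fun _ => φ c) [c] :=
  ⟨_, QE.const _, fun i _ => by cases i <;> simp [coeff_C]⟩

theorem q_mul (h : QT φ n F l) : QT φ n (fun z => q1 z * F z) (0 :: l) := by
  obtain ⟨A, a1, a2⟩ := h
  refine ⟨_, QE.q.mul a1, fun k hk => ?_⟩
  cases k with
  | zero => simp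
  | succ k => rw [coeff_succ_X_mul, a2 k (by omega)]; simp

theorem sq (h : QT φ n F l) : QT φ n (fun z => F z ^ 2) (msCv n l l) :=
  (h.mul h).congr fun _ _ => pow_two _

theorem expand (h : QT φ n F l) (d : ℕ) (hd : d ≠ 0) : QT φ n (fun z => F (d * z)) (msEx n d l) := by
  obtain ⟨A, a1, a2⟩ := h
  refine ⟨_, a1.expand d hd, fun k hk => ?_⟩
  rw [msEx, getD_map _ hk, coeff_expand]
  split_ifs
  · exact a2 _ ((Nat.div_le_self _ _).trans_lt hk)
  · simp

theorem map {S : Type} [CommRing S] {ψ : S →+* ℂ} (h : QT φ n F l) (σ : R →+* S)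
    (e : ∀ x, ψ (σ x) = φ x) : QT ψ n F (l.map σ) := by
  obtain ⟨A, a1, a2⟩ := h
  refine ⟨A, a1, fun i hi => ?_⟩
  rw [a2 i hi, ← e, ← map_zero σ, List.getD_map]

theorem dvd (h : QT φ n F l) {k : ℕ} (hk : k < n) (e : ∀ i < k, l.getD i 0 = 0) :
    ∃ B, QE F (X ^ k * B) ∧ coeff 0 B = φ (l.getD k 0) := by
  obtain ⟨A, a1, a2⟩ := h
  obtain ⟨B, rfl⟩ : X ^ k ∣ A :=
    X_pow_dvd_iff.2 fun i hi => by rw [a2 i (hi.trans hk), e i hi, map_zero]
  exact ⟨B, a1, by rw [← a2 k hk, ← coeff_X_pow_mul B k 0, zero_add]⟩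

theorem div_q (h : QT φ (n + 1) F (0 :: l)) : QT φ n (fun z => F z / q1 z) l := by
  obtain ⟨A, a1, a2⟩ := h
  obtain ⟨B, rfl⟩ : X ∣ A := X_dvd_iff.2 (by simpa using a2 0 n.succ_pos)
  refine ⟨B, by simpa using QE.of_X_pow_mul (m := 1) (by simpa using a1), fun i hi => ?_⟩
  simpa [coeff_succ_X_mul] using a2 (i + 1) (by omega)

/-- The limit of `F / q ^ k`. -/
theorem tendsto (h : QT φ n F l) {k : ℕ} (hk : k < n) (e : ∀ i < k, l.getD i 0 = 0) :
    Tendsto (fun z => F z / q1 z ^ k) atI (𝓝 (φ (l.getD k 0))) := by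
  obtain ⟨B, b1, b2⟩ := h.dvd hk e
  have := QE.tendsto_div (B' := 1) b1 (by simpa using QE.q.pow k) (by simp)
  simpa [b2] using this

theorem zero (h : QT φ n F l) {k : ℕ} (hk : k < n) (e : ∀ i < k + 1, l.getD i 0 = 0) :
    Tendsto (fun z => F z / q1 z ^ k) atI (𝓝 0) := by
  have := h.tendsto hk fun i hi => e i (by omega)
  rwa [e k (by omega), map_zero] at this

end QT

/-- The ring of integers in the complex numbers. -/
abbrev ZC : ℤ →+* ℂ := Int.castRingHom ℂ

theorem qt_of {F : ℂ → ℂ} {A : ℤ⟦X⟧} (h : QE F (toC A)) {n : ℕ} {l : List ℤ}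
    (e : ∀ i < n, coeff i A = l.getD i 0) : QT ZC n F l :=
  ⟨_, h, fun i hi => by rw [← e i hi, coeff_map]⟩

theorem qt_eul : QT ZC 17 (fun z => eul (q1 z))
    [1, -1, -1, 0, 0, 1, 0, 1, 0, 0, 0, 0, -1, 0, 0, -1, 0] := by
  refine qt_of qe_P1 fun i hi => ?_
  by_cases h : i ∈ Set.range pentagonal
  · obtain ⟨k, rfl⟩ := h
    have := two_mul_natCast_pentagonal k
    have h4 : -4 < k := by nlinarith
    have h5 : k < 4 := by nlinarith
    rw [P1, coeff_pentagonalSeries_pentagonal]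
    interval_cases k <;> decide
  · rw [P1, coeff_pentagonalSeries_eq_zero ℤ h]
    have k : i ∉ [0, 1, 2, 3, -1, -2, -3].map pentagonal := fun e => by
      obtain ⟨j, -, e⟩ := List.mem_map.1 e
      exact h ⟨j, e⟩
    revert k
    interval_cases i <;> decide

theorem qt_Le : QT ZC 17 (fun z => 1 / 24 - Le z)
    [0, 1, 3, 4, 7, 6, 12, 8, 15, 13, 18, 12, 28, 14, 24, 24, 31] := by
  refine qt_of qe_Le fun i hi => ?_
  rw [Sg, coeff_mk]
  interval_cases i <;> decide

theorem qt_E4 : QT ZC 4 E4 [1, 240, 2160, 6720] := by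
  refine qt_of qe_E4 fun i hi => ?_
  rw [E4s, coeff_mk]
  interval_cases i <;> decide

end Pool.Agent.Lib.MP_696deb_nt.Y3
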