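import Pool.Agent.Lib.MP_696deb_nt.Y3.MS
import Pool.Agent.Lib.MP_696deb_nt.Y3.M2e

/-! Two identities between the Hauptmodul of level twenty-one and other modular forms. -/

set_option autoImplicit false

open Filter Topology Complex ModularForm
open scoped Real

namespace Pool.Agent.Lib.MP_696deb_nt.Y3

open MP_23455a_nt.ModA (tendsto_eul tendsto_eul_mul)

variable {z : ℂ} {a b c d : ℤ}

/-- An invariant function that vanishes at infinity and is bounded at zero is zero. -/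
theorem zeroS {F : ℂ → ℂ} (hF : Hol F)
    (hinv : ∀ a b c d : ℤ, a * d - b * (21 * c) = 1 → ∀ z : ℂ, 0 < z.im →
      F (mob a b (21 * c) d z) = F z) (hW : ∀ z : ℂ, 0 < z.im → F (mob 3 (-1) 21 (-6) z) = F z)
    (h0 : Tendsto F atI (𝓝 0)) (h1 : Bdd fun z => F (mob 0 (-1) 21 0 z)) (hz : 0 < z.im) :
    F z = 0 := by
  obtain ⟨k, hk⟩ := constS hF hinv hW (Bdd.of_tendsto h0) h1
  rw [hk z hz]
  exact tendsto_nhds_unique (tendsto_const_nhds.congr' (ev_pos.mono fun z hz => (hk z hz).symm)) h0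

/-- The numerator of the Hauptmodul. -/
noncomputable def ea (z : ℂ) : ℂ := eul (q1 z) * eul (q1 (3 * z))

/-- The denominator of the Hauptmodul. -/
noncomputable def eb7 (z : ℂ) : ℂ := eul (q1 (7 * z)) * eul (q1 (21 * z))

theorem ea_ne (hz : 0 < z.im) : ea z ≠ 0 := mul_ne_zero (eul_ne hz) (eul_ne (im_mul_pos hz))

theorem eb7_ne (hz : 0 < z.im) : eb7 z ≠ 0 :=
  mul_ne_zero (eul_ne (im_mul_pos hz)) (eul_ne (im_mul_pos hz))

theorem tendsto_ea : Tendsto ea atI (𝓝 1) := one_mul (1 : ℂ) ▸ tendsto_eul.mul (tendsto_eul_mul 3)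

theorem tendsto_eb7 : Tendsto eb7 atI (𝓝 1) :=
  one_mul (1 : ℂ) ▸ (tendsto_eul_mul 7).mul (tendsto_eul_mul 21)

theorem tt_ab (z : ℂ) : tt z = ea z / (q1 z * eb7 z) := by
  rw [← div_div, div_right_comm, ea, eb7, ← tt_eul, mul_div_cancel_left₀ _ (q1_ne z)]

theorem DD_ab (z : ℂ) : DD z = q1 z ^ 8 * (ea z * eb7 z) ^ 6 := by
  rw [DD_eul, ea, eb7, mul_assoc (_ * _)]

theorem t3_eul (z : ℂ) : t3 z = eul (q1 z) ^ 12 / (q1 z * eul (q1 (3 * z)) ^ 12) := by
  have e : q1 (3 * z / 24) ^ 12 = q1 (z / 24) ^ 12 * q1 z := by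
    simp only [← q1_add, ← q1_nat_mul]
    congr 1
    push_cast
    ring
  rw [t3, eta2, eta2, div_pow, ← pow_mul, ← pow_mul]
  simp only [MP_23455a_nt.ModA.eta_q, mul_pow]
  rw [e, mul_assoc, mul_div_mul_left _ _ (pow_ne_zero _ (q1_ne _))]

theorem qt_e3 : QT ZC 17 (fun z => eul (q1 (3 * z)))
    [1, 0, 0, -1, 0, 0, -1, 0, 0, 0, 0, 0, 0, 0, 0, 1, 0] :=
  ((qt_eul.expand 3 (by norm_num)).eq _ (by decide +kernel)).congr fun z _ => by norm_num

theorem qt_ea : QT ZC 17 ea [1, -1, -1, -1, 1, 2, -1, 2, 0, 0, -1, -1, -1, -1, 0, 1, -1] :=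
  (qt_eul.mul qt_e3).eq _ (by decide +kernel)

theorem qt_eb7 : QT ZC 17 eb7 [1, 0, 0, 0, 0, 0, 0, -1, 0, 0, 0, 0, 0, 0, -1, 0, 0] :=
  (((qt_eul.expand 7 (by norm_num)).mul (qt_eul.expand 21 (by norm_num))).eq _
    (by decide +kernel)).congr fun z _ => by norm_num [eb7]

theorem QT.pow12 {n : ℕ} {F : ℂ → ℂ} {l : List ℤ} (h : QT ZC n F l) (m : List ℤ)
    (e : msCv n (msCv n l (msCv n l l)) (msCv n l (msCv n l l)) = m) :
    QT ZC n (fun z => F z ^ 12) (msCv n m m) :=
  ((h.mul h.sq).sq.eq m e).sq.congr fun _ _ => by ring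

theorem qt_x : QT ZC 9 (fun z => eul (q1 z) ^ 12) [1, -12, 54, -88, -99, 540, -418, -648, 594] :=
  ((qt_eul.mono (by norm_num)).pow12 [1, -6, 9, 10, -30, 0, 11, 42, 0] (by decide +kernel)).eq _
    (by decide +kernel)

theorem qt_y : QT ZC 9 (fun z => eul (q1 (3 * z)) ^ 12) [1, 0, 0, -12, 0, 0, 54, 0, 0] :=
  ((qt_x.expand 3 (by norm_num)).eq _ (by decide +kernel)).congr fun z _ => by norm_num

/-- The Hauptmodul of the group generated by `Γ₀(3)` and the involution. -/
noncomputable def u3 (z : ℂ) : ℂ := (t3 z + 27) ^ 2 / t3 z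

theorem u3_W (hz : 0 < z.im) : u3 (-1 / (3 * z)) = u3 z := by
  have := t3_ne hz
  rw [u3, t3_W hz, u3]
  field_simp
  ring

theorem u3_mob (hd : a * d - b * (3 * c) = 1) (hz : 0 < z.im) :
    u3 (mob a b (3 * c) d z) = u3 z := by rw [u3, t3_mob hd hz, u3]

theorem W_eq (z : ℂ) : -1 / (3 * z) = mob 0 (-1) 3 0 z := by simp [mob]

theorem tendsto_t3 : Tendsto (fun z => q1 z * t3 z) atI (𝓝 1) := by
  have := (tendsto_eul.pow 12).div ((tendsto_eul_mul 3).pow 12) (by simp)
  rw [one_pow, div_one] at this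
  exact this.congr fun z => by
    rw [t3_eul, ← mul_div_assoc, mul_div_mul_left _ _ (q1_ne z), Pi.div_apply]

theorem tendsto_u3 : Tendsto (fun z => q1 z * u3 z) atI (𝓝 1) := by
  have := ((tendsto_t3.add (tendsto_q1.const_mul 27)).pow 2).div tendsto_t3 one_ne_zero
  rw [mul_zero, add_zero, one_pow, div_one] at this
  refine this.congr' (ev_pos.mono fun z hz => ?_)
  have := t3_ne hz
  have := q1_ne z
  simp only [Pi.div_apply, u3]
  field_simp

theorem S1' (hz : 0 < z.im) : u3 z * tt z ^ 7 - (tt z ^ 2 + tt z + 7) * (tt z + 7) ^ 6 = 0 := by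
  refine zeroS (F := fun z => u3 z * tt z ^ 7 - (tt z ^ 2 + tt z + 7) * (tt z + 7) ^ 6)
    (fun z hz => ?_) (fun a b c d h z hz => ?_) (fun z hz => ?_) ?_ ?_ hz
  · have := hol_tt z hz
    have := hol_t3 z hz
    have := t3_ne hz
    unfold u3
    fun_prop (disch := assumption)
  · have := u3_mob (a := a) (b := b) (c := 7 * c) (d := d) (by linear_combination h) hz
    rw [tt_mob h hz, ← this, show 3 * (7 * c) = 21 * c by ring]
  · have := u3_mob (a := 1) (b := 1) (c := 2) (d := 7) (z := mob 0 (-1) 3 0 z) (by norm_num)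
      (im_mob_pos (by norm_num) hz)
    rw [mob_mob (by norm_num) _ _ _ _ hz, ← W_eq, u3_W hz] at this
    rw [tt_W3 hz, ← this]
    norm_num
  · have ha := qt_ea.mono (k := 9) (by norm_num)
    have hb := qt_eb7.mono (k := 9) (by norm_num)
    have h1 := ((qt_x.add 27 qt_y.q_mul).sq.mul hb).eq
      [1, 30, 333, 1444, -570, -21114, -22576, 121847, 64203] (by decide +kernel)
    have h2 := (ha.add 7 hb.q_mul).eq [1, 6, -1, -1, 1, 2, -1, 2, -7] (by decide +kernel)
    have h3 := ((ha.sq.sq.mul ha).mul ((ha.mul (ha.add 1 hb.q_mul)).add 7 hb.q_mul.sq)).eq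
      [1, -6, 15, -26, 39, -36, 16, 29, -183] (by decide +kernel)
    have h4 := (h1.add (-1) (h3.mul (h2.mul h2.sq).sq)).zero (k := 8) (by norm_num)
      (by decide +kernel)
    have h5 := h4.div ((tendsto_ea.pow 5).mul (tendsto_eb7.pow 8)) (by simp)
    rw [zero_div] at h5
    refine h5.congr' (ev_pos.mono fun z hz => ?_)
    have := ea_ne hz
    have := eb7_ne hz
    have := q1_ne z
    have := eul_ne hz
    have := eul_ne (z := 3 * z) (im_mul_pos hz)
    simp only [Pi.div_apply, u3, t3_eul, tt_ab, eq_intCast]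
    push_cast
    rw [ea]
    field_simp
    ring
  · have h1 := tendsto_u3.comp (tendsto_affine (r := 7) (by norm_num) 0)
    have h2 := ((h1.const_mul (7 ^ 7)).div (tendsto_tt.pow 7) (by simp)).sub
      ((((tt_zero.pow 2).add tt_zero).add_const 7).mul ((tt_zero.add_const 7).pow 6))
    refine (Bdd.of_tendsto h2).congr fun z hz => ?_
    have := tt_ne hz
    have := q1_ne z
    have e : mob 0 (-1) 21 0 z = -1 / (3 * (7 * z)) := by simp [mob]; ring
    have e2 : u3 (mob 0 (-1) 21 0 z) = u3 (7 * z) := e ▸ u3_W (im_mul_pos hz)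
    have e3 : q1 (7 * z) = q1 z ^ 7 := q1_nat_mul 7 z
    simp only [Pi.div_apply, Function.comp, e2, ofReal_ofNat, add_zero, e3]
    congr 1
    rw [tt_W21 hz]
    field_simp

theorem S1 (hz : 0 < z.im) :
    (t3 z + 27) ^ 2 * tt z ^ 7 = t3 z * (tt z ^ 2 + tt z + 7) * (tt z + 7) ^ 6 := by
  have h := S1' hz
  have := t3_ne hz
  rw [u3] at h
  field_simp at h
  linear_combination h

/-- The logarithmic derivative of the Hauptmodul. -/
noncomputable def EE (z : ℂ) : ℂ := Le z + 3 * Le (3 * z) - 7 * Le (7 * z) - 21 * Le (21 * z)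

theorem hasDerivAt_tt (hz : 0 < z.im) : HasDerivAt tt (2 * π * I * EE z * tt z) z := by
  have h1 := hasDerivAt_eta_zpow 1 1 (z := z) (by simpa using hz)
  have h := ((h1.mul (hasDerivAt_eta_zpow 3 1 (im_mul_pos hz))).mul
    (hasDerivAt_eta_zpow 7 (-1) (im_mul_pos hz))).mul (hasDerivAt_eta_zpow 21 (-1) (im_mul_pos hz))
  have e : ∀ w, tt w = η (1 * w) ^ (1 : ℤ) * η (3 * w) ^ (1 : ℤ) * η (7 * w) ^ (-1 : ℤ) *
      η (21 * w) ^ (-1 : ℤ) := fun w => by
    rw [tt, eta13, eta13, show 3 * (7 * w) = 21 * w by ring]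
    simp [div_eq_mul_inv, mul_assoc, mul_comm]
  convert! h using 1
  · exact funext e
  · simp only [e, EE, Pi.mul_apply, one_mul]
    push_cast
    ring

theorem EE_of {κ : ℂ} (h : 0 < a * d - b * c)
    (hM : ∀ z : ℂ, 0 < z.im → tt (mob a b c d z) = tt z) (hz : 0 < z.im)
    (e : κ * (a * d - b * c : ℤ) = (c * z + d) ^ 2) : EE (mob a b c d z) = κ * EE z := by
  have := sl_logDeriv h one_ne_zero (fun _ => hasDerivAt_tt) (fun _ => hasDerivAt_tt)
    (fun _ => tt_ne) (by simpa using hM) hz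
  rw [sl, ← e, div_eq_iff (e ▸ pow_ne_zero 2 (den_ne h.ne' hz))] at this
  refine mul_left_cancel₀ (a := ((a * d - b * c : ℤ) : ℂ)) (by exact_mod_cast h.ne') ?_
  linear_combination this

theorem EE_W21 (hz : 0 < z.im) : EE (mob 0 (-1) 21 0 z) = -(21 * z ^ 2) * EE z := by
  have := sl_logDeriv (a := 0) (b := -1) (c := 21) (d := 0) (κ := 7) (g' := fun z => (tt z)⁻¹)
    (E' := fun z => -EE z) (by norm_num) (by norm_num) (fun _ => hasDerivAt_tt)
    (fun z hz => by
      have := tt_ne hz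
      exact ((hasDerivAt_tt hz).inv this).congr_deriv (by field_simp))
    (fun _ h => inv_ne_zero (tt_ne h)) (fun _ => tt_W21) hz
  have z0 : z ≠ 0 := fun e => by simp [e] at hz
  rw [sl, div_eq_iff (pow_ne_zero 2 (den_ne (a := 0) (b := -1) (by norm_num) hz))] at this
  push_cast at this
  linear_combination this / 21

theorem qt_EE : QT ZC 17 EE
    [-1, -1, -3, -7, -7, -6, -21, -1, -15, -25, -18, -12, -49, -14, -3, -42, -31] :=
  ((((((QT.const (-1)).add (-1) qt_Le).add (-3) (qt_Le.expand 3 (by norm_num))).add 7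
    (qt_Le.expand 7 (by norm_num))).add 21 (qt_Le.expand 21 (by norm_num))).eq _
      (by decide +kernel)).congr fun z _ => by
    simp only [EE, eq_intCast]
    push_cast
    ring

theorem hol_EE : Hol EE := qt_EE.choose_spec.1.hol

theorem ODE' (hz : 0 < z.im) : EE z ^ 6 * tt z ^ 8 / DD z -
    (tt z ^ 2 + tt z + 7) ^ 5 * (tt z ^ 2 + 5 * tt z + 7) ^ 3 = 0 := by
  refine zeroS (F := fun z => EE z ^ 6 * tt z ^ 8 / DD z -
      (tt z ^ 2 + tt z + 7) ^ 5 * (tt z ^ 2 + 5 * tt z + 7) ^ 3)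
    (fun z hz => ?_) (fun a b c d h z hz => ?_) (fun z hz => ?_) ?_ ?_ hz
  · have := hol_tt z hz
    have := hol_EE z hz
    have := hol_DD z hz
    have := DD_ne hz
    fun_prop (disch := assumption)
  · have h0 := den_ne (a := a) (b := b) (c := 21 * c) (d := d) (by omega) hz
    rw [EE_of (κ := _ ^ 2) (by omega) (fun _ => tt_mob h) hz (by rw [h, Int.cast_one, mul_one]), tt_mob h hz,
      DD_mob h hz]
    push_cast at h0 ⊢
    field_simp
  · have h0 := W3_den hz
    rw [EE_of (κ := 3 * (7 * z - 2) ^ 2) (by norm_num) (fun _ => tt_W3) hz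
      (by push_cast; ring), tt_W3 hz, DD_W3 hz]
    field_simp
    ring
  · have h1 := ((qt_EE.mul qt_EE.sq).eq
      [-1, -3, -12, -40, -99, -234, -546, -1011, -1923, -3484, -5496, -8739, -14209, -19341,
      -29100, -42816, -55407]
      (by decide +kernel)).mul (qt_ea.mul qt_eb7)
    have h2 := (qt_ea.sq.add 7 qt_eb7.q_mul.sq).eq
      [1, -2, 6, 0, 5, 4, -7, 0, -5, -12, -4, 0, 11, 0, 8, 0, -13]
      (by decide +kernel)
    have h3 := (qt_ea.mul qt_eb7).q_mul
    have h4 := (h2.add 1 h3).eq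
      [1, -1, 5, -1, 4, 5, -5, -1, -4, -11, -3, 0, 9, -3, 8, -3, -11]
      (by decide +kernel)
    have h5 := (h2.add 5 h3).eq
      [1, 3, 1, -5, 0, 9, 3, -5, 0, -7, 1, 0, 1, -15, 8, -15, -3]
      (by decide +kernel)
    have h6 := (h4.sq.sq.mul h4).eq
      [1, -5, 35, -115, 445, -1036, 2750, -4450, 8425, -7445, 8325, 8380, -17960, 43770, -37735,
      1129, 45940]
      (by decide +kernel)
    have h7 := (h5.sq.mul h5).eq
      [1, 9, 30, 30, -60, -129, 157, 546, -24, -1130, -351, 1698, 981, -1677, -1716, -90, 1041]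
      (by decide +kernel)
    have h8 := (h1.sq.add (-1) (h6.mul h7)).zero (k := 16) (by norm_num) (by decide +kernel)
    have h9 := h8.div (tendsto_eb7.pow 16) (by simp)
    rw [zero_div] at h9
    refine h9.congr' (ev_pos.mono fun z hz => ?_)
    have := ea_ne hz
    have := eb7_ne hz
    have := q1_ne z
    simp only [Pi.div_apply, DD_ab, tt_ab, eq_intCast]
    push_cast
    field_simp
    ring
  · have h2 := ((((qt_EE.choose_spec.1.tendsto.pow 6).const_mul (7 ^ 8)).mul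
      (tendsto_eb7.pow 2)).div (tendsto_ea.pow 14) (by simp)).sub
      (((((tt_zero.pow 2).add tt_zero).add_const 7).pow 5).mul
        ((((tt_zero.pow 2).add (tt_zero.const_mul 5)).add_const 7).pow 3))
    refine (Bdd.of_tendsto h2).congr fun z hz => ?_
    have := ea_ne hz
    have := eb7_ne hz
    have := q1_ne z
    have z0 : z ≠ 0 := fun e => by simp [e] at hz
    simp only [Pi.div_apply]
    congr 1
    rw [tt_W21 hz, DD_W21 hz, EE_W21 hz, DD_ab, tt_ab]
    field_simp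

/-- The differential equation of the Hauptmodul. -/
theorem ODE (hz : 0 < z.im) : (deriv tt z / (2 * π * I)) ^ 6 * tt z ^ 2 =
    DD z * (tt z ^ 2 + tt z + 7) ^ 5 * (tt z ^ 2 + 5 * tt z + 7) ^ 3 := by
  have h := ODE' hz
  rw [sub_eq_zero, div_eq_iff (DD_ne hz)] at h
  rw [(hasDerivAt_tt hz).deriv, mul_assoc, mul_div_cancel_left₀ _ two_pi_I]
  linear_combination h

end Pool.Agent.Lib.MP_696deb_nt.Y3
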