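import Pool.Agent.Lib.MP_696deb_nt.Y3.N0
import Pool.Agent.Lib.MP_696deb_nt.Y2.N1

/-! Valuations of the isogenies in the tree at a prime. -/

set_option autoImplicit false

open Complex
open scoped Classical

namespace Pool.Agent.Lib.MP_696deb_nt.Y3

open Pool.Agent.Dih

variable {Γ : Type*} [LinearOrderedCommGroupWithZero Γ] {V : Valuation ℂ Γ} {P : ℕ} {D : ℤ}
  {Q : Fm} {τ τ' : ℂ}

theorem n1_mod (h : D % 4 = 0 ∨ D % 4 = 1) (x : ℤ) : D * x ^ 2 % 4 = 0 ∨ D * x ^ 2 % 4 = 1 := by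
  have k : x ^ 2 % 4 = 0 ∨ x ^ 2 % 4 = 1 := by
    rcases Int.even_or_odd' x with ⟨y, rfl | rfl⟩
    · exact .inl (Int.emod_eq_zero_of_dvd ⟨y ^ 2, by ring⟩)
    · rw [show (2 * y + 1) ^ 2 = 1 + 4 * (y ^ 2 + y) by ring]
      omega
  rw [Int.mul_emod]
  rcases h with h | h <;> rcases k with k | k <;> simp [h, k]

theorem n1_ind (hP : P.Prime) (hV : V P < 1) (d0 : D < 0) (d4 : D % 4 = 0 ∨ D % 4 = 1) {N : ℕ}
    (h0 : ∀ (Q : Fm) (τ : ℂ), 0 < τ.im → Rt Q τ → fdisc Q = D → Prm P Q →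
      ∀ k, ¬ (P : ℤ) ∣ Dih.ev P Q k → V (ph P k τ) ^ N = V P ^ 12) (i : ℕ) :
    ∀ (Q : Fm) (τ : ℂ), 0 < τ.im → Rt Q τ → fdisc Q = D * P ^ (2 * i) → Prm P Q →
      ∀ k, ¬ (P : ℤ) ∣ Dih.ev P Q k → V (ph P k τ) ^ (N * P ^ i) = V P ^ 12 := by
  have hp0 : (0 : ℤ) < P := by exact_mod_cast hP.pos
  induction i with
  | zero =>
    intro Q τ hτ hQ hD hq k hk
    simpa using h0 Q τ hτ hQ (by simpa using hD) hq k hk
  | succ i ih =>
    intro Q τ hτ hQ hD hq k hk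
    have hD0 : fdisc Q < 0 := hD ▸ mul_neg_of_neg_of_pos d0 (pow_pos hp0 _)
    have hD2 : fdisc Q = D * P ^ (2 * i) * P ^ 2 := by rw [hD]; ring
    obtain ⟨j, hj⟩ := exists_back hP hq ⟨D * P ^ (2 * i) * P, by rw [hD2]; ring⟩
    obtain ⟨R, l, r1, r2, r3, r4, r5⟩ := exists_down hP hτ hQ hq hD2
      (by rw [pow_mul']; exact n1_mod d4 _) ((hj j).mpr rfl)
    have e1 := Y2.n1_fwd hP hV hτ hQ hD0 hj hk
    have e2 := congr_arg V r5
    rw [map_mul, map_pow, ← e1, mul_comm] at e2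
    have e3 := mul_left_cancel₀ (V.ne_zero_iff.mpr (phi_ne (rP_pos hP j) hτ)) e2
    rw [← ih R _ (act_pos (rP_pos hP j) hτ) r1 r2 r3 l r4, e3, ← pow_mul]
    congr 1
    ring

theorem n1_ram (hP : P.Prime) (hV : V P < 1) (hτ : 0 < τ.im) (h : Rt Q τ) (hD : fdisc Q < 0)
    (h1 : (P : ℤ) ∣ fdisc Q) (h2 : ¬ (P : ℤ) ^ 2 ∣ fdisc Q)
    {i : Option (Fin P)} (hi : (P : ℤ) ∣ Dih.ev P Q i) : V (ph P i τ) ^ 2 = V P ^ 12 := by
  have hj := (h.isCM hτ hD).val_jf V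
  have hp := Nat.prime_iff_prime_int.mp hP
  have hp0 : (P : ℤ) ≠ 0 := by exact_mod_cast hP.ne_zero
  obtain ⟨a, b, c⟩ := Q
  simp only [fdisc, Rt] at h hD h1 h2
  have hS : (!![-b, -(2 * c); 2 * a, b] : MZ).det = -(b ^ 2 - 4 * a * c) := by
    rw [Matrix.det_fin_two_of]; ring
  have hS0 : 0 < (!![-b, -(2 * c); 2 * a, b] : MZ).det := by rw [hS]; omega
  obtain ⟨N, hN⟩ : ∃ N : MZ, !![-b, -(2 * c); 2 * a, b] = N * rP P i := by
    rcases i with _ | k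
    · simp only [Dih.ev] at hi
      obtain ⟨v, hv⟩ : (P : ℤ) ∣ b := hp.dvd_of_dvd_pow (n := 2) (by
        simpa using dvd_add h1 ((hi.mul_left 4).mul_right c))
      obtain ⟨u, hu⟩ := hi
      refine ⟨!![-v, -(2 * c); 2 * u, b], ?_⟩
      ext x y
      fin_cases x <;> fin_cases y <;> simp [rP, ut, Matrix.mul_apply, Fin.sum_univ_two]
      · linear_combination hv
      · linear_combination 2 * hu
    · simp only [Dih.ev, fval] at hi
      obtain ⟨v, hv⟩ : (P : ℤ) ∣ b - 2 * a * (k : ℕ) := hp.dvd_of_dvd_pow (n := 2) (by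
        convert dvd_add h1 (hi.mul_left (4 * a)) using 1
        ring)
      obtain ⟨u, hu⟩ := hi
      refine ⟨!![-b, -(2 * u) - (k : ℕ) * v; 2 * a, v], ?_⟩
      ext x y
      fin_cases x <;> fin_cases y <;> simp [rP, ut, Matrix.mul_apply, Fin.sum_univ_two]
      · linear_combination -2 * hu - ((k : ℕ) : ℤ) * hv
      · linear_combination hv
  obtain ⟨e, he⟩ := h1
  have hN1 : N.det = -e := by
    have := congr_arg Matrix.det hN
    rw [hS, Matrix.det_mul, (isReps_rP hP).det, he] at this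
    exact mul_right_cancel₀ hp0 (by linear_combination -this)
  have he1 : ¬ (P : ℤ) ∣ e := fun ⟨f, hf⟩ => h2 ⟨f, by rw [he, hf]; ring⟩
  have hN0 : 0 < N.det := by
    rw [hN, Matrix.det_mul] at hS0
    exact pos_of_mul_pos_left hS0 (rP_pos hP i).le
  have hF : act !![-b, -(2 * c); 2 * a, b] τ = τ := by
    rw [act_eq_iff hS0.ne' hτ]
    simp
    linear_combination 2 * h
  have h5 : phiJ !![-b, -(2 * c); 2 * a, b] τ = ((P : ℂ) * e) ^ 6 := by
    have hd := den_ne' hS0.ne' hτ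
    have he' : (b : ℂ) ^ 2 - 4 * a * c = P * e := by exact_mod_cast he
    have hd2 : den !![-b, -(2 * c); 2 * a, b] τ ^ 2 = P * e := by
      simp [den]
      linear_combination 4 * a * h + he'
    rw [phi_of_fixed hτ hF, hS, he, ← hd2]
    have : ((-((P : ℤ) * e) : ℤ) : ℂ) = -den !![-b, -(2 * c); 2 * a, b] τ ^ 2 := by
      rw [hd2]; push_cast; ring
    rw [this]
    field_simp
  rw [hN, phi_mul _ (rP_pos hP i) hτ] at h5
  replace h5 := congr_arg V h5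
  rw [map_mul, val_phi_eq_one hN0 (act_pos (rP_pos hP i) hτ) (val_isog (rP_pos hP i) hτ hj).2
    (val_int_eq_one hP hV (by rwa [hN1, dvd_neg])), one_mul, map_pow, map_mul,
    val_int_eq_one hP hV he1, mul_one] at h5
  rw [ph, h5, ← pow_mul]

theorem n1_three (hV : V (3 : ℕ) < 1) {k : ℤ} (hk : ¬ ((3 : ℕ) : ℤ) ∣ k) {i : ℕ} (hτ : 0 < τ.im)
    (h : Rt Q τ) (hD : fdisc Q = -3 * k ^ 2 * (3 : ℕ) ^ (2 * i)) (hq : Prm 3 Q)
    {j : Option (Fin 3)} (hj : ¬ ((3 : ℕ) : ℤ) ∣ Dih.ev 3 Q j) :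
    V (ph 3 j τ) ^ (6 * 3 ^ i) = V (3 : ℕ) ^ 12 := by
  have k2 := sq_pos_of_ne_zero (show k ≠ 0 from fun e => hk (e ▸ dvd_zero _))
  refine n1_ind Nat.prime_three hV (by omega) (n1_mod (.inr rfl) k) ?_ i Q τ hτ h hD hq j hj
  intro Q τ hτ h hD hq j hj
  have d3 : ((3 : ℕ) : ℤ) ∣ fdisc Q := ⟨-k ^ 2, by rw [hD]; push_cast; ring⟩
  obtain ⟨m, hm⟩ := exists_back Nat.prime_three hq d3
  have h2 := n1_ram Nat.prime_three hV hτ h (by omega) d3 (fun ⟨c, e⟩ => hk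
    (Int.prime_three.dvd_of_dvd_pow (n := 2) ⟨-c, by
      rw [hD] at e
      push_cast at e
      omega⟩)) ((hm m).2 rfl)
  have e := congrArg (· ^ 2) (Y2.n1_fwd Nat.prime_three hV hτ h (by omega) hm hj)
  simp only [mul_pow, h2, sq (V (3 : ℕ) ^ 12), ← pow_mul] at e
  exact mul_left_cancel₀ (pow_pos (fpg_pos Nat.prime_three) 12).ne' e

/-- The valuation of the square root of the quotient of the discriminants. -/
theorem Ed.three {i : ℕ} (h : Ed 3 (i + 1) False τ) (hV : V 3 < 1) {t : ℂ}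
    (ht : t ^ 2 * Dl (3 * τ) = Dl τ) : V t ^ 3 ^ i = V 3 := by
  obtain ⟨hτ, Q, k, h1, h2, h3, h4, h5⟩ := h
  have k2 := sq_pos_of_ne_zero (show k ≠ 0 from fun e => h3 (e ▸ dvd_zero _))
  have d0 : fdisc Q < 0 := h2 ▸ mul_neg_of_neg_of_pos (by omega) (by positivity)
  obtain ⟨m, hm⟩ := exists_back Nat.prime_three h4
    ⟨-k ^ 2 * (3 : ℕ) ^ (2 * (i + 1)), by rw [h2]; push_cast; ring⟩
  obtain rfl : none = m := (hm none).1 (not_not.1 fun e => h5.2 e)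
  have hk : ¬ ((3 : ℕ) : ℤ) ∣ Dih.ev 3 Q (some 0) := fun e => Option.some_ne_none _ ((hm _).1 e)
  have e1 := Y2.n1_fwd Nat.prime_three hV hτ h1 d0 hm hk
  have e2 := n1_three hV h3 hτ h1 h2 h4 hk
  have e3 : ph 3 none τ * t ^ 2 = (3 : ℕ) ^ 12 := by
    have := Dl_ne hτ
    rw [ph_none]
    push_cast
    field_simp
    linear_combination ht
  have e4 := congrArg V e3
  rw [map_mul, map_pow, map_pow, ← e1] at e4
  have e5 := mul_left_cancel₀ (V.ne_zero_iff.mpr (phi_ne (rP_pos Nat.prime_three none) hτ)) e4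
  rw [show 6 * 3 ^ (i + 1) = 3 * (6 * 3 ^ i) by ring, pow_mul, ← e5, ← pow_mul,
    show 2 * (6 * 3 ^ i) = 3 ^ i * 12 by ring, pow_mul] at e2
  exact (pow_left_inj₀ zero_le zero_le (by norm_num)).1 e2

theorem Ed.down {i : ℕ} (h : Ed 3 (i + 1) False τ) : Lv 3 i (3 * τ) := by
  obtain ⟨hτ, ⟨a, b, c⟩, k, h1, h2, h3, h4, h5⟩ := h
  simp only [fdisc, Rt, Prm] at h1 h2 h4 h5
  obtain ⟨a, rfl⟩ : (3 : ℤ) ∣ a := not_not.1 fun e => h5.2 e
  obtain ⟨x, hx⟩ : ∃ x, x = k ^ 2 * 3 ^ (2 * i) := ⟨_, rfl⟩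
  replace h2 : b ^ 2 - 12 * (a * c) = -27 * x := by
    rw [hx]
    push_cast at h2
    linear_combination h2
  obtain ⟨b, rfl⟩ : (3 : ℤ) ∣ b := Int.prime_three.dvd_of_dvd_pow (n := 2) (by omega)
  have hc : ¬ (3 : ℤ) ∣ c := fun e => h4 ⟨dvd_mul_right _ _, dvd_mul_right _ _, e⟩
  obtain ⟨a, rfl⟩ : (3 : ℤ) ∣ a := (Int.prime_three.dvd_or_dvd (by
    rw [mul_pow] at h2
    omega)).resolve_right hc
  refine ⟨_, by simpa using hτ, (a, b, c), k, ?_, ?_, h3, fun e => hc e.2.2, Iff.rfl⟩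
  · push_cast at h1
    simp only [Rt]
    linear_combination h1
  · simp only [fdisc]
    push_cast
    linarith

theorem ET.down {i : ℕ} (h : ET i τ) : Lv 3 i (3 * τ) := h.1.down

theorem Lv.ord {l i : ℕ} (h : Lv l i τ) (hl : l.Prime) (hP : P.Prime) (h4 : P % 3 = 1)
    (hV : V P < 1) : Ord V P τ := by
  obtain ⟨k, -, h1⟩ := h.isCM hl
  have := Fact.mk hP
  obtain ⟨u, hu⟩ := exists_prime_orderOf_dvd_card (G := (ZMod P)ˣ) 3 (by
    rw [ZMod.card_units]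
    omega)
  obtain ⟨x, hx⟩ := ZMod.intCast_surjective (u : ZMod P)
  obtain ⟨c, hc⟩ : (P : ℤ) ∣ x ^ 2 + x + 1 := (ZMod.intCast_zmod_eq_zero_iff_dvd _ _).1 (by
    have h3 : (u : ZMod P) ^ 3 = 1 := by rw [← Units.val_pow_eq_pow_val, ← hu, pow_orderOf_eq_one]; rfl
    have h0 : (u : ZMod P) - 1 ≠ 0 := sub_ne_zero.2 fun e => by
      rw [Units.val_eq_one.1 e, orderOf_one] at hu
      omega
    push_cast
    rw [hx]
    exact mul_left_cancel₀ h0 (by linear_combination h3))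
  refine h1.ord hP hV ⟨k, -3, 2 * x + 1, by ring, fun e => ?_, c, by linear_combination 4 * hc⟩
  have := (Nat.prime_dvd_prime_iff_eq hP Nat.prime_three).1 (by exact_mod_cast dvd_neg.1 e)
  omega

theorem Lv.val_sub {i j : ℕ} (h : Lv 3 i τ) (h' : Lv 3 j τ') (hj : i < j) (hP : P.Prime)
    (h4 : P % 3 = 1) (hV : V P < 1) : V (jf τ - jf τ') = 1 :=
  h.yv.val_sub (h'.zv Nat.prime_three hj) Nat.prime_three (n0_neg Nat.prime_three) hP hV (by omega)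
    (h.ord Nat.prime_three hP h4 hV)

theorem Ed.can {j : ℕ} (h : Ed P (j + 1) False τ) (hP : P.Prime) (h4 : P % 3 = 1)
    (hV : V P < 1) : V (ph P none τ) = V P ^ 12 := by
  obtain ⟨i, hi⟩ := h.lv.ord hP hP h4 hV
  obtain ⟨hτ, Q, k, h1, h2, h3, h5, h6⟩ := h
  have k2 := sq_pos_of_ne_zero (show k ≠ 0 from fun e => h3 (e ▸ dvd_zero _))
  have p0 := hP.pos
  have d0 : fdisc Q < 0 := h2 ▸ mul_neg_of_neg_of_pos (by omega) (by positivity)
  obtain ⟨m, hm⟩ := exists_back hP h5 (h2 ▸ (dvd_pow_self _ (by omega)).mul_left _)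
  obtain rfl : none = m := (hm none).1 (not_not.1 fun e => h6.2 e)
  rcases i with _ | i
  · exact hi.val
  have : Nontrivial (Fin P) := Fin.nontrivial_iff_two_le.2 hP.two_le
  obtain ⟨k, hk⟩ := exists_ne i
  have := val_ph_eq hP hV hτ h1 d0 (i := some i) (k := some k)
    (fun e => Option.some_ne_none _ ((hm _).1 e)) fun e => Option.some_ne_none _ ((hm _).1 e)
  exact absurd (this.trans (hi.unit _ fun e => hk (Option.some.inj e))) (hi.lt hV).ne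

end Pool.Agent.Lib.MP_696deb_nt.Y3
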