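import Pool.Agent.Lib.MP_696deb_nt.Y3.N1
import Pool.Agent.Lib.MP_696deb_nt.Y2.N2
import Pool.Agent.Lib.MP_696deb_nt.CL.F0

/-! Congruences between supersingular points at an inert prime. -/

set_option autoImplicit false

open Complex
open scoped Classical

namespace Pool.Agent.Lib.MP_696deb_nt.Y3

open Pool.Agent.Dih

open Finset

variable {P : ℕ} {D D' : ℤ} {τ τ' : ℂ}

/-- The prime is inert and does not divide the conductor. -/
def NI (P : ℕ) (D : ℤ) : Prop := D < 0 ∧ (D % 4 = 0 ∨ D % 4 = 1) ∧ ∀ b k : ℤ, b ^ 2 - D ≠ 4 * P * k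

theorem NI.neg (h : NI P D) (hP : P.Prime) (i : ℕ) : D * P ^ (2 * i) < 0 :=
  mul_neg_of_neg_of_pos h.1 (pow_pos (Int.natCast_pos.2 hP.pos) _)

section
variable {Γ : Type*} [LinearOrderedCommGroupWithZero Γ] {V : Valuation ℂ Γ}

theorem NI.edge (h : NI P D) (hP : P.Prime) (hV : V P < 1) (i : ℕ) :
    ∀ (Q : Fm) (τ : ℂ), 0 < τ.im → Rt Q τ → fdisc Q = D * P ^ (2 * i) → Prm P Q →
      ∀ k, ¬ (P : ℤ) ∣ Dih.ev P Q k → V (ph P k τ) ^ ((P + 1) * P ^ i) = V P ^ 12 := by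
  obtain ⟨d0, d4, h⟩ := h
  refine n1_ind hP hV d0 d4 ?_ i
  rintro Q τ hτ hQ rfl - k hk
  rw [← val_prod_ph hP hτ ((hQ.isCM hτ d0).val_jf V), map_prod,
    Finset.prod_congr rfl (g := fun _ => V (ph P k τ)) fun l _ =>
      val_ph_eq hP hV hτ hQ d0 (not_dvd_ev h l) hk, Finset.prod_const]
  simp

theorem NI.hasse_zero (h : NI P D) (hP : P.Prime) (hV : V P < 1) (hτ : Dp P D τ) :
    V (hasse P τ) ≤ V P ^ 6 := by
  rw [hasse, sp]
  refine V.map_sum_le fun i _ => ?_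
  have hj := (hτ.fpg_isCM h.1).val_jf V
  have h1 := val_ph_mul hP hτ.1 hj i
  have h2 : V P ^ 6 ≤ V (ph P i τ) := by
    obtain ⟨h0, Q, hQ, rfl, hq⟩ := hτ
    rw [← pow_le_pow_iff_left₀ zero_le zero_le two_ne_zero, ← pow_mul,
      ← h.edge hP hV 0 Q τ h0 hQ (by simp) hq i (not_dvd_ev h.2.2 i)]
    exact pow_le_pow_right_of_le_one' (val_ph_le hP h0 hj i) (by have := hP.pos; simp; omega)
  rw [one_mul, ← mul_le_mul_iff_right₀ (pow_pos (fpg_pos (V := V) hP) 6), ← pow_add, ← h1]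
  exact mul_le_mul_left h2 _

theorem NI.hasse_succ (h : NI P D) (hP : P.Prime) (hV : V P < 1) {i : ℕ}
    (hτ : Dp P (D * P ^ (2 * (i + 1))) τ) : V (hasse P τ) ^ ((P + 1) * P ^ i) = V P ^ 12 := by
  have hj := (hτ.fpg_isCM (h.neg hP _)).val_jf V
  obtain ⟨h0, Q, h1, h2, h3⟩ := hτ
  obtain ⟨i₀, hi⟩ := exists_back hP h3 (h2 ▸ (dvd_pow_self _ (by omega)).mul_left _)
  have : Nonempty (Fin P) := ⟨⟨0, hP.pos⟩⟩
  obtain ⟨k₀, hk⟩ := exists_ne i₀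
  have hx := h.edge hP hV (i + 1) Q τ h0 h1 h2 h3 k₀ fun e => hk ((hi _).1 e)
  have hall : ∀ k, k ≠ i₀ → V (ph P k τ) = V (ph P k₀ τ) := fun k e =>
    val_ph_eq hP hV h0 h1 (h2 ▸ h.neg hP _) (fun e' => e ((hi _).1 e')) fun e => hk ((hi _).1 e)
  generalize V (ph P k₀ τ) = x at hx hall
  have hπ := fpg_pos (V := V) hP
  have hlt : P + 1 < (P + 1) * P ^ (i + 1) :=
    lt_mul_of_one_lt_right (by omega) (Nat.one_lt_pow (by omega) hP.one_lt)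
  have x0 : 0 < x := zero_lt_iff.2 fun e => by
    rw [e, zero_pow (by omega)] at hx
    exact (pow_pos hπ 12).ne hx
  have x1 : x < 1 := not_le.1 fun e =>
    ((one_le_pow₀ e).trans_eq hx).not_gt (pow_lt_one₀ zero_le hV (by norm_num))
  have t0 : V (1 * ∏ k ∈ univ.erase i₀, ph P k τ) = x ^ P := by
    rw [one_mul, map_prod, prod_congr rfl fun k hk => hall k (ne_of_mem_erase hk), prod_const,
      card_erase_of_mem (mem_univ _), card_univ, Fintype.card_option, Fintype.card_fin,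
      Nat.add_sub_cancel]
  have hh : V (hasse P τ) = x ^ P := by
    rw [hasse, sp, ← add_sum_erase _ _ (mem_univ i₀), ← t0]
    refine V.map_add_eq_of_lt_left (V.map_sum_lt (t0 ▸ (pow_pos x0 P).ne') fun k hk => ?_)
    have h4 := val_ph_mul hP h0 hj k
    rw [hall k (ne_of_mem_erase hk), ← hx] at h4
    rw [t0, one_mul, ← mul_lt_mul_iff_right₀ x0, h4, ← pow_succ']
    exact pow_lt_pow_right_of_lt_one₀ x0 x1 hlt
  rw [hh, ← pow_mul, ← hx]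
  congr 1
  ring

theorem NI.near_succ (h : NI P D) (h' : NI P D') (hP : P.Prime) (hV : V P < 1) {e i : ℕ}
    (he : e ≤ i) (hτ : Dp P (D * P ^ (2 * e)) τ) (hτ' : Dp P (D' * P ^ (2 * (i + 1))) τ') :
    V P ^ 12 ≤ V (jf τ - jf τ') ^ P ^ (i + 1) := by
  have h1 := h'.hasse_succ hP hV hτ'
  have h2 : V (hasse P τ - hasse P τ') ≤ V (jf τ - jf τ') :=
    LE.val_sub_le hP.ne_zero (LE.congr (sp (fun _ => 1) (Ph V hP)).2 fun z _ => by
      rw [← evz_apply, map_sp]; rfl) (inv1_hasse hP) hτ.1 hτ'.1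
      ((hτ.fpg_isCM (h.neg hP _)).val_jf V) ((hτ'.fpg_isCM (h'.neg hP _)).val_jf V)
  have hπ := fpg_pos (V := V) hP
  have p2 := hP.two_le
  have pi : 0 < P ^ i := by positivity
  have x0 : 0 < V (hasse P τ') := zero_lt_iff.2 fun e => by
    rw [e, zero_pow (by positivity)] at h1
    exact (pow_pos hπ 12).ne h1
  have x1 : V (hasse P τ') < 1 := not_le.1 fun e =>
    ((one_le_pow₀ e).trans_eq h1).not_gt (pow_lt_one₀ zero_le hV (by norm_num))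
  have h3 : V (hasse P τ) < V (hasse P τ') := by
    rcases e with _ | e
    · rw [mul_zero, pow_zero, mul_one] at hτ
      refine lt_of_pow_lt_pow_left₀ 2 zero_le
        ((pow_le_pow_left₀ zero_le (h.hasse_zero hP hV hτ) 2).trans_lt ?_)
      rw [← pow_mul, ← h1]
      exact pow_lt_pow_right_of_lt_one₀ x0 x1 (by nlinarith)
    · refine lt_of_pow_lt_pow_left₀ ((P + 1) * P ^ e) zero_le ?_
      rw [h.hasse_succ hP hV hτ, ← h1]
      exact pow_lt_pow_right_of_lt_one₀ x0 x1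
        (Nat.mul_lt_mul_of_pos_left (Nat.pow_lt_pow_right p2 he) (by omega))
  rw [V.map_sub_eq_of_lt_right h3] at h2
  refine le_trans ?_ (pow_le_pow_left₀ zero_le h2 _)
  rw [← h1]
  exact pow_le_pow_of_le_one zero_le x1.le (by rw [pow_succ']; nlinarith)

theorem NI.near (h : NI P D) (h' : NI P D') (hP : P.Prime) (E : ℕ) :
    ∃ a : ℕ, ∀ V : Valuation ℂ Γ, V P < 1 → ∀ (e i : ℕ) (τ τ' : ℂ), e ≤ E →
      Dp P (D * P ^ (2 * e)) τ → Dp P (D' * P ^ (2 * i)) τ' → jf τ ≠ jf τ' →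
      V P ^ a ≤ V (jf τ - jf τ') ^ P ^ i := by
  have H : ∀ x : ℂ, ∃ a : ℕ, IsAlgebraic ℚ x → x ≠ 0 → ∀ V : Valuation ℂ Γ,
      V P < 1 → V P ^ a ≤ V x := fun x => by
    by_cases hx : IsAlgebraic ℚ x ∧ x ≠ 0
    · obtain ⟨a, ha⟩ := Y2.n2_pow_le (Γ := Γ) hP hx.1 hx.2
      exact ⟨a, fun _ _ => ha⟩
    · exact ⟨0, fun h1 h2 => absurd ⟨h1, h2⟩ hx⟩
  choose f hf using H
  have fin : ∀ D : ℤ, (⋃ e ∈ Set.Iic E, {x | ∃ τ, IsCM (D * P ^ (2 * e)) τ ∧ x = jf τ}).Finite :=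
    fun D => (Set.finite_Iic E).biUnion fun e _ => finite_jf_cm _
  obtain ⟨b, hb⟩ := ((fin D).image2 (fun x y => f (x - y)) (fin D')).bddAbove
  refine ⟨b * P ^ E + 12, fun A hA e i τ τ' he hτ hτ' hne => ?_⟩
  rcases le_or_gt i E with hi | hi
  · have c1 := hτ.fpg_isCM (h.neg hP _)
    have c2 := hτ'.fpg_isCM (h'.neg hP _)
    have h1 : f (jf τ - jf τ') ≤ b := hb (Set.mem_image2_of_mem
      (Set.mem_biUnion he ⟨τ, c1, rfl⟩) (Set.mem_biUnion hi ⟨τ', c2, rfl⟩))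
    refine le_trans ?_ (pow_le_pow_left₀ zero_le
      (hf _ ((fpg_alg c1).sub (fpg_alg c2)) (sub_ne_zero.2 hne) A hA) _)
    rw [← pow_mul]
    exact pow_le_pow_of_le_one zero_le hA.le
      ((Nat.mul_le_mul h1 (Nat.pow_le_pow_right hP.pos hi)).trans (Nat.le_add_right _ _))
  · obtain ⟨i, rfl⟩ : ∃ j, i = j + 1 := ⟨i - 1, by omega⟩
    exact (pow_le_pow_of_le_one zero_le hA.le (Nat.le_add_left _ _)).trans
      (h.near_succ h' hP hA (by omega) hτ hτ')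

end

theorem n2_sq (hP : P.Prime) (h3 : P % 3 = 2) {x y : ℤ} (h : 4 * (P : ℤ) ∣ x ^ 2 + 3 * y ^ 2) :
    (P : ℤ) ∣ y := by
  obtain ⟨c, e⟩ := h
  obtain ⟨a, rfl⟩ : ∃ a, x = 2 * a - y := by
    obtain ⟨a, ha⟩ : (2 : ℤ) ∣ x + y := Int.prime_two.dvd_of_dvd_pow (n := 2)
      ⟨2 * P * c + x * y - y ^ 2, by linear_combination e⟩
    exact ⟨a, by omega⟩
  exact (CL.nat_dvd.1 (CL.dvd_of_nm hP h3 (α := ⟨a, y⟩) ⟨c, by
    simp only [CL.nm]
    linarith⟩)).2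

theorem n2_three (hP : P.Prime) (h3 : P % 3 = 2) {x : ℤ} (h : (P : ℤ) ∣ 3 * x ^ 2) : (P : ℤ) ∣ x :=
  (Nat.prime_iff_prime_int.1 hP).dvd_of_dvd_pow (((Nat.prime_iff_prime_int.1 hP).dvd_or_dvd
    h).resolve_left fun e => by
      have := (Nat.prime_dvd_prime_iff_eq hP Nat.prime_three).1 (by exact_mod_cast e)
      omega)

theorem ni_of (hP : P.Prime) (h3 : P % 3 = 2) {k : ℤ} (hk : ¬ (P : ℤ) ∣ k) : NI P (-3 * k ^ 2) := by
  have k2 := sq_pos_of_ne_zero (show k ≠ 0 from fun e => hk (e ▸ dvd_zero _))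
  exact ⟨by omega, n1_mod (.inr rfl) k, fun b c e => hk (n2_sq hP h3 (x := b)
    ⟨c, by linear_combination e⟩)⟩

theorem n2_pow (hP : P.Prime) (h3 : P % 3 = 2) (u : ℕ) {x y : ℤ}
    (h : 4 * (P : ℤ) ^ (2 * u) ∣ x ^ 2 + 3 * y ^ 2) : (P : ℤ) ^ u ∣ y := by
  induction u generalizing x y with
  | zero => simp
  | succ u ih =>
    have h1 : 4 * (P : ℤ) ∣ x ^ 2 + 3 * y ^ 2 :=
      (mul_dvd_mul_left _ (dvd_pow_self _ (by omega))).trans h
    obtain ⟨y, rfl⟩ := n2_sq hP h3 h1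
    obtain ⟨x, rfl⟩ : (P : ℤ) ∣ x := (Nat.prime_iff_prime_int.1 hP).dvd_of_dvd_pow (n := 2)
      ((dvd_add_left ⟨3 * P * y ^ 2, by ring⟩).1 ((dvd_mul_left _ _).trans h1))
    rw [show (P * x) ^ 2 + 3 * (P * y) ^ 2 = P ^ 2 * (x ^ 2 + 3 * y ^ 2) by ring, mul_add, pow_add,
      mul_one, ← mul_assoc, mul_comm,
      mul_dvd_mul_iff_left (pow_ne_zero _ (by exact_mod_cast hP.ne_zero))] at h
    rw [pow_succ']
    exact mul_dvd_mul_left _ (ih h)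

theorem n2_dp (hP : P.Prime) (h3 : P % 3 = 2) {k : ℤ} (hk : ¬ (P : ℤ) ∣ k) {e j a d : ℕ} {b : ℤ}
    {Q : Fm} (hτ : 0 < τ.im) (h : Rt Q τ) (hD : fdisc Q = -3 * (P ^ e * k) ^ 2)
    (had : a * d = P ^ j) : ∃ i, i ≤ e + j ∧
      Dp P (-3 * k ^ 2 * P ^ (2 * i)) (act !![(a : ℤ), b; 0, d] τ) ∧
      P ^ j ≤ P ^ (1 + 2 * e) * (a.gcd (d.gcd b.natAbs)) ^ 2 * P ^ i := by
  have hp := Nat.prime_iff_prime_int.1 hP
  have hg : (!![(a : ℤ), b; 0, d] : MZ).det = P ^ j := by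
    rw [Matrix.det_fin_two_of, mul_zero, sub_zero]
    exact_mod_cast had
  have hg0 : 0 < (!![(a : ℤ), b; 0, d] : MZ).det := hg ▸ pow_pos (by exact_mod_cast hP.pos) _
  have h4 := h.act hτ hg0.ne'
  have h5 := fpe_disc Q !![(a : ℤ), b; 0, d]
  have k0 : k ≠ 0 := fun e => hk (e ▸ dvd_zero _)
  obtain ⟨ε, R, r1, r2, r3, r4⟩ := Y2.n2_prim hP (h5.trans_ne (mul_ne_zero (hD.trans_ne (mul_ne_zero
    (by norm_num) (pow_ne_zero _ (mul_ne_zero (pow_ne_zero _ hp.ne_zero) k0))))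
    (pow_ne_zero _ hg0.ne')))
  have p0 : (P : ℤ) ^ ε ≠ 0 := pow_ne_zero _ hp.ne_zero
  have h6 : (P ^ ε) ^ 2 * fdisc R = -3 * k ^ 2 * (P ^ (e + j)) ^ 2 := by
    rw [fdisc, r2, r3, r4, hD, hg] at h5
    rw [fdisc]
    linear_combination h5
  obtain ⟨i, hi⟩ : ∃ i, e + j = ε + i := Nat.exists_eq_add_of_le (not_lt.1 fun c => by
    obtain ⟨i, rfl⟩ := Nat.exists_eq_add_of_lt c
    refine hk (n2_three hP h3 ⟨-(P * (P ^ i) ^ 2 * fdisc R),
      mul_left_cancel₀ (pow_ne_zero 2 (pow_ne_zero (e + j) hp.ne_zero)) ?_⟩)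
    linear_combination h6)
  have key : ∀ x y : ℤ, (P : ℤ) ^ ε ∣ fval Q x y →
      P ^ (ε / 2) ∣ P ^ e * x.natAbs ∧ P ^ (ε / 2) ∣ P ^ e * y.natAbs := fun x y hv => by
    have d : (P : ℤ) ^ (2 * (ε / 2)) ∣ fval Q x y := (pow_dvd_pow _ (by omega)).trans hv
    have c : ∀ z : ℤ, (P : ℤ) ^ (ε / 2) ∣ P ^ e * k * z → P ^ (ε / 2) ∣ P ^ e * z.natAbs :=
      fun z hz => by
        rw [show P ^ e * k * z = k * (P ^ e * z) by ring] at hz
        have := Int.natAbs_dvd_natAbs.2 (hp.pow_dvd_of_dvd_mul_left _ hk hz)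
        simpa [Int.natAbs_mul, Int.natAbs_pow] using this
    rw [fdisc] at hD
    refine ⟨c _ (n2_pow hP h3 _ (x := Q.2.1 * x + 2 * Q.2.2 * y) ?_),
      c _ (n2_pow hP h3 _ (x := 2 * Q.1 * x + Q.2.1 * y) ?_)⟩
    · refine (mul_dvd_mul_left 4 (d.mul_left Q.2.2)).trans (dvd_of_eq ?_)
      rw [fval]
      linear_combination -x ^ 2 * hD
    · refine (mul_dvd_mul_left 4 (d.mul_left Q.1)).trans (dvd_of_eq ?_)
      rw [fval]
      linear_combination -y ^ 2 * hD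
  have d1 := (key _ _ ⟨_, r2⟩).1
  obtain ⟨d2, d3⟩ := key _ _ ⟨_, r4⟩
  have a0 : 0 < a := Nat.pos_of_mul_pos_right (had ▸ pow_pos hP.pos j)
  have d4 : P ^ (ε / 2) ≤ P ^ e * a.gcd (d.gcd b.natAbs) := Nat.le_of_dvd
    (Nat.mul_pos (pow_pos hP.pos e) (Nat.gcd_pos_of_pos_left _ a0)) (by
      rw [← Nat.gcd_mul_left, ← Nat.gcd_mul_left]
      exact Nat.dvd_gcd (by simpa using d3) (Nat.dvd_gcd (by simpa using d1) (by simpa using d2)))
  refine ⟨i, by omega, ⟨act_pos hg0 hτ, R, ?_, mul_left_cancel₀ (pow_ne_zero 2 p0) (by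
    rw [h6, hi]; ring), r1⟩, ?_⟩
  · rw [Rt, r2, r3, r4] at h4
    push_cast at h4
    exact mul_left_cancel₀ (a := (P : ℂ) ^ ε) (by exact_mod_cast p0) (by linear_combination h4)
  · calc P ^ j ≤ P ^ (1 + ε / 2 * 2 + i) := Nat.pow_le_pow_right hP.pos (by omega)
      _ = P * (P ^ (ε / 2)) ^ 2 * P ^ i := by ring
      _ ≤ P * (P ^ e * a.gcd (d.gcd b.natAbs)) ^ 2 * P ^ i := by gcongr
      _ = _ := by ring

end Pool.Agent.Lib.MP_696deb_nt.Y3
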