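import Pool.Agent.Lib.MP_696deb_nt.Y3.N2
import Pool.Agent.Lib.MP_696deb_nt.Y2.N4

/-! The local heights at the finite places. -/

set_option autoImplicit false

open Complex
open scoped Classical

namespace Pool.Agent.Lib.MP_696deb_nt.Y3

open Pool.Agent.Dih
open Y2 (Cg n3_nat n4_pos n4_cop nv nv_coe)
open CL (wC wC_sq)

variable {Γ : Type*} [LinearOrderedCommGroupWithZero Γ] {V : Valuation ℂ Γ} {τ τ' T T' t t' : ℂ}
  {p i j : ℕ}

/-- The relations with the generator of level three. -/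
structure Ot (τ t T : ℂ) : Prop where
  pos : 0 < τ.im
  dl : t ^ 2 * Dl (3 * τ) = Dl τ
  j1 : jf τ * t ^ 3 = (t + 27) * (t + 243) ^ 3
  j3 : jf (3 * τ) * t = (t + 27) * (t + 3) ^ 3
  gt : (t + 27) ^ 2 * T ^ 7 = t * (T ^ 2 + T + 7) * (T + 7) ^ 6

theorem On.ot (h : On τ T) (hτ : 0 < τ.im) : ∃ t, Ot τ t T :=
  h.h3.imp fun _ k => ⟨hτ, k.1, k.2.1, k.2.2.1, k.2.2.2⟩

/-- The invariant as a function of the generator of level three. -/
noncomputable def jt (t : ℂ) : ℂ := (t + 27) * (t + 243) ^ 3 * t⁻¹ ^ 3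

/-- The quotient by the involution. -/
noncomputable def gT (T : ℂ) : ℂ := (T ^ 2 + T + 7) * (T + 7) ^ 6 * T⁻¹ ^ 7

theorem jt_cg (ht : V t = 1) (ht' : V t' = 1) : V (jt t - jt t') ≤ V (t - t') := by
  have c : Cg V (V (t - t')) t t' := ⟨ht.le, ht'.le, le_rfl⟩
  exact (((c.add (.const (n3_nat V 27))).mul ((c.add (.const (n3_nat V 243))).pow 3)).mul
    ((c.inv ht ht').pow 3)).2.2

theorem gT_cg (hT : V T = 1) (hT' : V T' = 1) : V (gT T - gT T') ≤ V (T - T') := by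
  have c : Cg V (V (T - T')) T T' := ⟨hT.le, hT'.le, le_rfl⟩
  exact (((((c.pow 2).add c).add (.const (n3_nat V 7))).mul
    ((c.add (.const (n3_nat V 7))).pow 6)).mul ((c.inv hT hT').pow 7)).2.2

namespace Ot

theorem ne (h : Ot τ t T) : t ≠ 0 := by
  rintro rfl
  exact Dl_ne h.pos (by simpa using h.dl.symm)

theorem T_ne (h : Ot τ t T) : T ≠ 0 := by
  rintro rfl
  have := h.gt
  norm_num [h.ne] at this

theorem e1 (h : Ot τ t T) : jf τ = jt t := by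
  rw [jt, ← h.j1, mul_assoc, ← mul_pow, mul_inv_cancel₀ h.ne, one_pow, mul_one]

theorem e3 (h : Ot τ t T) : jf (3 * τ) = jt (729 / t) := by
  have := h.ne
  rw [jt, eq_div_of_mul_eq this h.j3]
  field_simp
  ring

theorem eg (h : Ot τ t T) (h' : Ot τ' t' T') :
    (t - t') * (729 / t - t') = -(t' * (gT T - gT T')) := by
  have k : ∀ {τ t T : ℂ}, Ot τ t T → gT T = (t + 27) ^ 2 / t := fun {_ t T} h => by
    have := h.ne
    have := h.T_ne
    rw [gT]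
    field_simp
    linear_combination -h.gt
  have := h.ne
  have := h'.ne
  rw [k h, k h']
  field_simp
  ring

theorem one (h : Ot τ t T) (hj : V (jf τ) ≤ 1) (h3 : V 3 = 1) : V t = 1 := by
  have e3 : ph 3 none τ * t ^ 2 = 3 ^ 12 := by
    have := Dl_ne h.pos
    rw [ph_none]
    push_cast
    field_simp
    linear_combination h.dl
  have := congrArg V e3
  rw [map_mul, map_pow, map_pow, h3, one_pow, ph, val_phi_eq_one (rP_pos Nat.prime_three none) h.pos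
    hj (by rw [(isReps_rP Nat.prime_three).det]; exact_mod_cast h3), one_mul] at this
  exact (pow_eq_one_iff_of_nonneg zero_le two_ne_zero).1 this

theorem le (h : Ot τ t T) (h1 : V (t + 27) ^ 2 ≤ V t) : V T ≤ 1 := not_lt.1 fun k => by
  have e := congrArg V h.gt
  have k0 := zero_lt_one.trans k
  have k2 : V T < V (T ^ 2) := by
    rw [map_pow]
    exact lt_self_pow₀ k one_lt_two
  have k7 : V 7 < V T := (n3_nat V 7).trans_lt k
  rw [map_mul, map_mul, map_mul, map_pow, map_pow, map_pow, V.map_add_eq_of_lt_left k7, add_assoc,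
    V.map_add_eq_of_lt_left ((V.map_add_eq_of_lt_left k7).trans_lt k2), map_pow, mul_assoc,
    ← pow_add] at e
  exact ((mul_le_mul_left h1 _).trans_lt (mul_lt_mul_of_pos_left (pow_lt_pow_right₀ k
    (by norm_num)) (zero_lt_iff.2 (V.ne_zero_iff.2 h.ne)))).ne e

theorem unit (h : Ot τ t T) (h1 : V (t + 27) ^ 2 ≤ V t) (h7 : V 7 = 1) : V T = 1 :=
  (h.le h1).eq_of_not_lt fun k => by
    have e := congrArg V h.gt
    have k2 : V (T ^ 2 + T) < V 7 := h7 ▸ V.map_add_lt (by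
      rw [map_pow]
      exact pow_lt_one₀ zero_le k two_ne_zero) k
    rw [map_mul, map_mul, map_mul, map_pow, map_pow, map_pow,
      V.map_add_eq_of_lt_right (k.trans_eq h7.symm), V.map_add_eq_of_lt_right k2, h7, one_pow,
      mul_one, mul_one] at e
    exact ((mul_le_mul_left h1 _).trans_lt (mul_lt_of_lt_one_right
      (zero_lt_iff.2 (V.ne_zero_iff.2 h.ne)) (pow_lt_one₀ zero_le k (by norm_num)))).ne e

theorem sq_le (ht : V t = 1) : V (t + 27) ^ 2 ≤ V t :=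
  ht ▸ pow_le_one₀ zero_le (V.map_add_le ht.le (n3_nat V 27))

theorem cg (h : Ot τ t T) (h' : Ot τ' t' T') (h3 : V 3 = 1) (ht : V t = 1) (ht' : V t' = 1)
    (hT : V T = 1) (hT' : V T' = 1) :
    V (jf τ - jf τ') * V (jf (3 * τ) - jf τ') ≤ V (T - T') := by
  have e := congrArg V (h.eg h')
  rw [V.map_neg, map_mul, map_mul, ht', one_mul] at e
  rw [h.e1, h.e3, h'.e1]
  refine (mul_le_mul' (jt_cg ht ht') (jt_cg ?_ ht')).trans (e ▸ gT_cg hT hT')
  rw [map_div₀, ht, show (729 : ℂ) = 3 ^ 6 by norm_num, map_pow, h3, one_pow, div_one]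

end Ot

theorem On.unit_seven (h : On τ T) (he : Ed 7 (j + 1) False τ) (h7 : V 7 < 1) : V T = 1 := by
  have hτ := he.1
  have he' : Ed 7 (j + 1) False (3 * τ) := by
    simpa [act_of, mob] using he.act (g := !![3, 0; 0, 1]) n0_seven (by decide) (by decide)
      (by decide)
  have k : ∀ {τ : ℂ}, Ed 7 (j + 1) False τ → V (Dl (7 * τ)) = V (Dl τ) := fun he => by
    have e1 := he.can n0_seven rfl h7
    rwa [ph_none, map_mul, map_pow, mul_eq_left₀ (pow_pos (fpg_pos n0_seven) _).ne', map_mul,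
      map_inv₀, mul_inv_eq_one₀ (V.ne_zero_iff.2 (Dl_ne he.1)), Nat.cast_ofNat] at e1
  have e := congrArg V h.h7
  rw [map_mul, map_mul, map_mul, map_pow, show 21 * τ = 7 * (3 * τ) by ring, k he, k he', mul_assoc,
    mul_eq_right₀ (mul_ne_zero (V.ne_zero_iff.2 (Dl_ne hτ)) (V.ne_zero_iff.2 (Dl_ne he'.1)))] at e
  exact (pow_eq_one_iff_of_nonneg zero_le (by norm_num)).1 e

theorem Lv.int {l : ℕ} (h : Lv l i τ) (hl : l.Prime) (V : Valuation ℂ Γ) : V (jf τ) ≤ 1 :=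
  (h.isCM hl).choose_spec.2.val_jf V

theorem na_ne (hτ : ET i τ) (hτ' : Lv 3 (j + 1) τ') (hj : i < j) (h : On τ T) (h' : On τ' T') :
    T ≠ T' := by
  rintro rfl
  obtain ⟨t, h⟩ := h.ot hτ.pos
  obtain ⟨t', h'⟩ := h'.ot hτ'.pos
  have e := h.eg h'
  rw [sub_self, mul_zero, neg_zero, mul_eq_zero, sub_eq_zero, sub_eq_zero] at e
  rcases e with e | e
  · exact hτ.lv.jf_ne hτ' Nat.prime_three (by omega) (by rw [h.e1, h'.e1, e])
  · exact hτ.down.jf_ne hτ' Nat.prime_three (by omega) (by rw [h.e3, h'.e1, e])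

theorem na_pi (hτ : ET i τ) (h : On τ T) : T ^ 2 + T + 7 ≠ 0 := fun e => by
  obtain ⟨t, h⟩ := h.ot hτ.pos
  have k := h.gt
  rw [e, mul_zero, zero_mul, mul_eq_zero, pow_eq_zero_iff two_ne_zero,
    pow_eq_zero_iff (by norm_num)] at k
  have k1 := h.j1
  have k3 := h.j3
  rw [k.resolve_right h.T_ne, zero_mul] at k1 k3
  exact hτ.down.jf_ne hτ.lv Nat.prime_three (Nat.lt_succ_self _)
    (((mul_eq_zero.1 k3).resolve_right h.ne).trans
      ((mul_eq_zero.1 k1).resolve_right (pow_ne_zero _ h.ne)).symm)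

theorem n4_split (hp : p.Prime) (h4 : p % 3 = 1) (hV : V p < 1) (hτ : ET i τ) (hτ' : ET j τ')
    (hj : i < j) (h : On τ T) (h' : On τ' T') : V T = 1 ∧ V T' = 1 ∧ V (T - T') = 1 := by
  have h3 : V 3 = 1 := n4_cop hp hV Nat.prime_three (show p ≠ 3 by omega)
  obtain ⟨t, k⟩ := h.ot hτ.pos
  obtain ⟨t', k'⟩ := h'.ot hτ'.pos
  have a := k.one (hτ.lv.int Nat.prime_three V) h3
  have a' := k'.one (hτ'.lv.int Nat.prime_three V) h3
  obtain ⟨hT, hT'⟩ : V T = 1 ∧ V T' = 1 := by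
    by_cases h7 : p = 7
    · subst h7
      exact ⟨h.unit_seven hτ.2.choose_spec hV, h'.unit_seven hτ'.2.choose_spec hV⟩
    · have h7 : V 7 = 1 := n4_cop hp hV n0_seven h7
      exact ⟨k.unit (Ot.sq_le a) h7, k'.unit (Ot.sq_le a') h7⟩
  have e := k.cg k' h3 a a' hT hT'
  rw [hτ.lv.val_sub hτ'.lv (by omega) hp h4 hV, hτ.down.val_sub hτ'.lv (by omega) hp h4 hV,
    one_mul] at e
  exact ⟨hT, hT', (V.map_sub_le hT.le hT'.le).antisymm e⟩

theorem n4_w (V : Valuation ℂ Γ) : V wC = 1 := (pow_eq_one_iff_of_nonneg zero_le three_ne_zero).1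
  (by rw [← map_pow, show wC ^ 3 = 1 by linear_combination (wC - 1) * wC_sq, map_one])

theorem n4_int (V : Valuation ℂ Γ) (a b : ℕ) : V (a + b * wC) ≤ 1 :=
  V.map_add_le (n3_nat V a) (by rw [map_mul, n4_w, mul_one]; exact n3_nat V b)

theorem n4_three (hV : V 3 < 1) (hτ : ET i τ) (h : On τ T) :
    V T = 1 ∧ (V (T - (1 + 3 * wC)) * V (T + (3 + wC)) ^ 3) ^ (2 * 3 ^ i) = V 3 := by
  obtain ⟨t, k⟩ := h.ot hτ.pos
  have e := hτ.1.three hV k.dl
  have p3 : 0 < V 3 := fpg_pos Nat.prime_three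
  have t1 : V t < 1 := not_le.1 fun c => ((one_le_pow₀ c).trans_eq e).not_gt hV
  obtain ⟨θ, hθ⟩ : ∃ θ, θ = V (1 + 2 * wC) := ⟨_, rfl⟩
  have θ2 : θ ^ 2 = V 3 := by
    rw [hθ, ← map_pow, show (1 + 2 * wC) ^ 2 = -3 by linear_combination 4 * wC_sq, V.map_neg]
  have v27 : V 27 = θ ^ 6 := by
    rw [show (27 : ℂ) = 3 ^ 3 by norm_num, map_pow, ← θ2, ← pow_mul]
  have t2 : θ ^ 6 < V t := by
    rw [show 6 = 2 * 3 from rfl, pow_mul, θ2]
    exact (pow_lt_self_of_lt_one₀ p3 hV (by norm_num)).trans_le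
      (e ▸ pow_le_of_le_one zero_le t1.le (by positivity))
  have t3 : V (t + 27) = V t := V.map_add_eq_of_lt_left (v27 ▸ t2)
  have h7 : V 7 = 1 := n4_cop Nat.prime_three hV n0_seven (by norm_num)
  have hT := k.unit (V := V) (by
    rw [t3]
    exact pow_le_of_le_one zero_le t1.le two_ne_zero) h7
  have g := congrArg V k.gt
  rw [show T ^ 2 + T + 7 = (T - (1 + 3 * wC)) * (T + (2 + 3 * wC)) by
    linear_combination 9 * wC_sq, map_mul, map_mul, map_mul, map_mul, map_pow, map_pow, map_pow,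
    hT, one_pow, mul_one, t3, sq, mul_assoc] at g
  replace g := mul_left_cancel₀ (V.ne_zero_iff.2 k.ne) g
  have a1 : V (T - (1 + 3 * wC)) ≤ 1 := V.map_sub_le hT.le (by simpa using n4_int V 1 3)
  have b1 : V (T + (2 + 3 * wC)) ≤ 1 := V.map_add_le hT.le (n4_int V 2 3)
  have c1 : V (T + 7) ≤ 1 := V.map_add_le hT.le h7.le
  have d1 : V (T + (3 + wC)) = V (T + 7) := by
    rw [show T + (3 + wC) = T + 7 + (1 + 2 * wC) * (2 + 3 * wC) by linear_combination -6 * wC_sq]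
    refine V.map_add_eq_of_lt_left ?_
    rw [map_mul, ← hθ]
    refine (mul_le_of_le_one_right' (n4_int V 2 3)).trans_lt
      (lt_of_pow_lt_pow_left₀ 6 zero_le (t2.trans_le ?_))
    exact g ▸ mul_le_of_le_one_left' (mul_le_one' a1 b1)
  have d2 : V (T + (2 + 3 * wC)) = V (T - (1 + 3 * wC)) := by
    have u : V (3 * (1 + 2 * wC)) = θ ^ 3 := by rw [map_mul, ← θ2, ← hθ, pow_succ θ 2]
    have u1 : θ ^ 3 * θ ^ 3 < V (T - (1 + 3 * wC)) * V (T + (2 + 3 * wC)) := by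
      rw [← pow_add]
      exact t2.trans_le (g ▸ mul_le_of_le_one_right' (pow_le_one₀ zero_le c1))
    have u2 : T + (2 + 3 * wC) = T - (1 + 3 * wC) + 3 * (1 + 2 * wC) := by ring
    rcases lt_or_ge (θ ^ 3) (V (T - (1 + 3 * wC))) with c | c
    · rw [u2]
      exact V.map_add_eq_of_lt_left (u ▸ c)
    · exact absurd (mul_le_mul' c (u2 ▸ V.map_add_le c u.le)) u1.not_ge
  refine ⟨hT, ?_⟩
  rw [← e, g, d1, d2, pow_mul, mul_pow, ← pow_mul, sq]

theorem Lv.exists_form {l : ℕ} (h : Lv l i τ) (hl : l.Prime) :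
    ∃ (Q : Fm) (f : ℤ), f ≠ 0 ∧ Rt Q τ ∧ fdisc Q = -3 * f ^ 2 := by
  obtain ⟨-, -, Q, k, h1, h2, h3, -⟩ := h
  exact ⟨Q, k * l ^ i, mul_ne_zero (fun e => h3 (e ▸ dvd_zero _))
    (pow_ne_zero _ (by exact_mod_cast hl.ne_zero)), h1, by rw [h2]; ring⟩

theorem n4_act (τ : ℂ) (a d : ℕ) (b : ℤ) : act !![(a : ℤ), b; 0, d] τ = (a * τ + b) / d := by
  simp [act_of, mob]

theorem Lv.hecke (h : Lv 3 j τ) (hp : p.Prime) (h3 : p ≠ 3) {a d s : ℕ} (had : a * d = p ^ s)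
    (b : ℤ) : Lv 3 j ((a * τ + b) / d) := by
  have hg : (!![(a : ℤ), b; 0, d] : MZ).det = p ^ s := by
    rw [Matrix.det_fin_two_of, mul_zero, sub_zero]
    exact_mod_cast had
  exact n4_act τ a d b ▸ h.act Nat.prime_three (hg ▸ pow_pos (by exact_mod_cast hp.pos) _) fun c =>
    h3 ((Nat.prime_dvd_prime_iff_eq Nat.prime_three hp).1
      (Nat.prime_three.dvd_of_dvd_pow (by exact_mod_cast hg ▸ c))).symm

theorem n4_near (hp : p.Prime) (h3 : p % 3 = 2) (l1 : Lv 3 i τ) (l2 : Lv 3 j τ') (hi : i < j) :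
    ∃ n : ℕ, ∀ V : Valuation ℂ Γ, V p < 1 → ∀ (s a d : ℕ) (b : ℤ), a * d = p ^ s →
      V p ^ (n * a.gcd (d.gcd b.natAbs) ^ 2) ≤ V (jf τ - jf ((a * τ' + b) / d)) ^ p ^ s := by
  obtain ⟨Q, f, hf, q1, q2⟩ := l1.exists_form Nat.prime_three
  obtain ⟨Q', f', hf', q3, q4⟩ := l2.exists_form Nat.prime_three
  have hq := (Nat.prime_iff_prime_int.1 hp).irreducible
  obtain ⟨e, k, hk, rfl⟩ := WfDvdMonoid.max_power_factor hf hq
  obtain ⟨e', k', hk', rfl⟩ := WfDvdMonoid.max_power_factor hf' hq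
  obtain ⟨n, hn⟩ := (ni_of hp h3 hk).near (Γ := Γ) (ni_of hp h3 hk') hp e
  refine ⟨n * p ^ (1 + 2 * e'), fun V hA s a d b had => ?_⟩
  obtain ⟨u, u1, u2, -⟩ := n2_dp (a := 1) (d := 1) (j := 0) (b := 0) hp h3 hk l1.pos q1 q2 rfl
  obtain ⟨w, -, w2, w3⟩ := n2_dp (b := b) hp h3 hk' l2.pos q3 q4 had
  have l3 := l2.hecke hp (by omega) had b
  rw [n4_act] at w2
  rw [show act !![((1 : ℕ) : ℤ), 0; 0, (1 : ℕ)] τ = τ by simp [act_of, mob]] at u2
  have e1 := hn V hA u w _ _ u1 u2 w2 (l1.jf_ne l3 Nat.prime_three hi)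
  refine le_trans ?_ (pow_le_pow_of_le_one zero_le
    (V.map_sub_le (l1.int Nat.prime_three V) (l3.int Nat.prime_three V)) w3)
  rw [mul_assoc, pow_mul, mul_comm _ (p ^ w), pow_mul (V (_ - _))]
  exact pow_le_pow_left₀ zero_le e1 _

theorem n4_inert (hp : p.Prime) (h3 : p % 3 = 2) (l1 : ET i τ) (l2 : Lv 3 (j + 1) τ') (hi : i < j) :
    ∃ n : ℕ, ∀ V : Valuation ℂ Γ, V p < 1 → ∀ (T T' : ℂ) (s a d : ℕ) (b : ℤ), a * d = p ^ s →
      On τ T → On ((a * τ' + b) / d) T' → V T = 1 ∧ V T' = 1 ∧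
        V p ^ (n * a.gcd (d.gcd b.natAbs) ^ 2) ≤ V (T - T') ^ p ^ s := by
  obtain ⟨n, hn⟩ := n4_near (Γ := Γ) hp h3 l1.lv l2 (by omega)
  obtain ⟨m, hm⟩ := n4_near (Γ := Γ) hp h3 l1.down l2 (by omega)
  refine ⟨n + m, fun V hA T T' s a d b had h h' => ?_⟩
  have l3 := l2.hecke hp (by omega) had b
  have v3 : V 3 = 1 := n4_cop hp hA Nat.prime_three (show p ≠ 3 by omega)
  have v7 : V 7 = 1 := n4_cop hp hA n0_seven (show p ≠ 7 by omega)
  obtain ⟨t, k⟩ := h.ot l1.pos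
  obtain ⟨t', k'⟩ := h'.ot l3.pos
  have a1 := k.one (l1.lv.int Nat.prime_three V) v3
  have a2 := k'.one (l3.int Nat.prime_three V) v3
  have t1 := k.unit (Ot.sq_le a1) v7
  have t2 := k'.unit (Ot.sq_le a2) v7
  refine ⟨t1, t2, le_trans ?_ (pow_le_pow_left₀ zero_le (k.cg k' v3 a1 a2 t1 t2) _)⟩
  rw [add_mul, pow_add, mul_pow]
  exact mul_le_mul' (hn V hA s a d b had) (hm V hA s a d b had)

end Pool.Agent.Lib.MP_696deb_nt.Y3
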