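import Pool.Agent.Lib.MP_696deb_nt.Y3.WT4
import Pool.Agent.Lib.MP_696deb_nt.Y3.WF

/-! The tame formula for the section of a curve. -/

set_option autoImplicit false

namespace Pool.Agent.Lib.MP_696deb_nt.Y3.Dat

open CL (O)

variable (d : Dat)

theorem lam_rat : ∃ den : ℕ, 0 < den ∧ ∀ n c l, ∃ e : O, den * d.S.lam n c l = CL.toC e :=
  (W.dat_ker d).lam_rat

/-- The tame formula. -/
theorem tame : ∃ den B : ℕ, 0 < den ∧ ∀ (π : O) (l u : ℕ) (W : O → ℤ), B < l → TWt π l u W →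
    ∃ (z : O) (X : EV.Qbar), z ^ 6 = 1 ∧ EV.w3.V X ≤ 1 ∧
      den * (2 * l * (d.St l W).hol (d.mu (l ^ 2)) - CL.toC z * (finL d.S (lgN l W) (d.mu l) -
        CL.toC (d.kap π + d.kap (star π)) * finL d.S (lgN l W) (d.mu 1))) = EW.jc (3 ^ u * X) :=
  d.tame_of (W.dat_hom d) (W.dat_ker d)

end Pool.Agent.Lib.MP_696deb_nt.Y3.Dat
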