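import Pool.Agent.Lib.MP_696deb_nt.Y3.TLw
import Pool.Agent.Lib.MP_696deb_nt.Y3.WT5
import Pool.Agent.Lib.MP_696deb_nt.Y3.AI

/-! The tame formula against the first derivative of the elliptic units. -/

set_option autoImplicit false

open scoped Classical NNReal ComplexConjugate
open Finset Complex

namespace Pool.Agent.Lib.MP_696deb_nt.Y3

open CL (O Prim Per wC)
open EV (nm Qbar Hk Kur)
open TL (RS Lq ch)

section
variable {M : ℕ} {ψ : O → ℂ} {κ : O → O} (g : W.Hom M ψ κ) {π : O} {l u : ℕ} {V : O → ℤ}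
  (h : TWt π l u V)
include g h

theorem tame_per : Per (M * l) fun y => ψ y * V y := fun a γ => by
  have k : π ∣ (l : O) := ⟨star π, h.mul_star.symm⟩
  beta_reduce
  rw [h.per _ a (by
    rw [add_sub_cancel_left, Nat.cast_mul]
    exact (k.mul_left _).mul_right _), Nat.cast_mul, mul_assoc, g.per]

theorem tame_adm : Adm (M * l) (iFT (M * l) fun y => ψ y * V y) := by
  obtain ⟨k, N, h3, e⟩ := Nat.exists_eq_pow_mul_and_not_dvd g.pos.ne' 3 (by norm_num)
  have h7 : 7 ∣ N := (Nat.Coprime.pow_right k (by norm_num)).dvd_of_dvd_mul_left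
    (e ▸ Dvd.dvd.trans ⟨3, rfl⟩ g.lev : 7 ∣ 3 ^ k * N)
  refine adm_iFT (k := k) (M' := N * l) (by rw [e, mul_assoc])
    (fun c => (Nat.prime_three.dvd_mul.1 c).elim h3 fun c => by have := h.one; omega)
    (g.lev.mul_right l) (tame_per g h) fun v hv hN hc y => ?_
  rw [Nat.cast_mul] at hN hc
  replace hN := (dvd_pow_self _ two_ne_zero).trans hN
  have c := hc.of_mul_right_left
  rw [g.eq v (cop_int.2 c), g.int v c, et_congr (b := -1) (by omega), ep_congr (t := 1)
    (((Int.natCast_dvd_natCast.2 h7).mul_right _).trans hN), et_neg, et_one, Int.cast_one, ep_one,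
    h.per _ y (by
      rw [← sub_one_mul]
      exact Dvd.dvd.mul_right (by simpa using (h.dvd_int _).2 ((dvd_mul_left _ _).trans hN)) y)]
  simp

end

theorem Dat.p2_a (d : Dat) {r : O} {l N : ℕ} (hl : l.Prime) (h3 : l % 3 = 1) (hr : CL.nm r = l)
    (c : IsCoprime r (d.N : O)) (e : d.φ r = 1) (h : (N : O) ∣ r - 1) :
    (N : O) ∣ d.kap r + d.kap (star r) - aG l := by
  have h' : (N : O) ∣ star r - 1 := by simpa [starRingEnd_apply] using map_dvd (starRingEnd O) h
  rw [aG_split hl h3 hr, psi, psi, d.kap_unit c, d.kap_unit (cop_star c), d.conj, e, star_star,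
    star_one]
  exact (dvd_add (h.mul_left (-ep (r7 r))) (h'.mul_left (-ep (r7 (star r))))).trans
    (dvd_of_eq (by ring))

/-- The sums of the points are not both of finite order: the contradiction. -/
theorem Dat.point_core (d : Dat) {m m' : O} {φ φ' : O → O} (hφ : Hk m φ) (hφ' : Hk m' φ')
    (e : ∀ a, IsCoprime a (d.N : O) → d.φ a = φ a)
    (e' : ∀ a, IsCoprime a (d.N : O) → d.cmp.φ a = φ' a) (hK : Kur φ) (hz : Lq (ch φ) = 0)
    (nz : Lq (ch φ') ≠ 0) {ar : ℕ → ℂ} (sy : SymS (fun r => d.kap r + d.kap (star r)) ar)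
    (gz : GzaS d.S d.mu aG ar) : False := by
  obtain ⟨C, C0, an⟩ := anY
  obtain ⟨T, B, T0, fc⟩ := fin_cong aG_one sy gz d.lam_rat
  obtain ⟨den, B', d0, ta⟩ := d.tame
  obtain ⟨δ, p0, h⟩ := TL.tl_lam d hφ hφ' e e' hK hz nz (β := wC / 3)
    (div_ne_zero (fun e => by simpa [e] using CL.wC_sq) three_ne_zero) (fun _ => rfl)
    (C := (T * den * 2 : ℕ) * C) (mul_ne_zero (Nat.cast_ne_zero.2 (by positivity)) C0)
  obtain ⟨v0, hv0⟩ := TL.small (K := 1) p0
  obtain ⟨u, hu, r, x, a1, f1, f2, h⟩ := h (v0 + (B.sup id + B' + d.N))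
  have tw1 := TL.twt x a1
  have hl := tw1.prime
  have l1 := TL.nm_gt x
  have hr := (TL.nm_cast r.π).symm
  have cp : IsCoprime r.π (d.N : O) := cop_norm.2 (by
    rw [hr, Nat.isCoprime_iff_coprime, hl.coprime_iff_not_dvd]
    exact Nat.not_dvd_of_pos_of_lt d.pos (by omega))
  have g1 := d.p2_a hl tw1.one hr cp ((e _ cp).trans f1) (N := 3 ^ u) (by exact_mod_cast f2)
  obtain ⟨L, L1, L2⟩ := TL.p2_L x a1
  obtain ⟨E, hE⟩ := fc _ _ r.π (d.kap (star r.π) + d.kap (star (star r.π))) L _ hl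
    (fun k => by have := le_sup (f := id) k; simp only [id] at this; omega) r.prim hr L1 L2 g1
    (by rwa [star_star, add_comm])
  obtain ⟨z, X, -, X1, hX⟩ := ta _ _ u _ (by omega) tw1
  have ad := tame_adm (W.dat_hom d) tw1
  obtain ⟨Λ, k1, k2, k3⟩ := an _ _ ad.ok ad.at
  have k4 := (k3 1 (d.mu (nm r.π ^ 2)) one_pos (by simp only [Dat.mu, levY, sec]; ring) (by
    simp [levY, ModularGroup.coe_T, nb_one, q1]) (ad.zero _)).1
  have l0 : (nm r.π : ℂ) ≠ 0 := Nat.cast_ne_zero.2 hl.ne_zero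
  have k5 := h Λ k1 (fun s hs => by
    rw [k2 s hs]
    simp only [RS, tk, FT_iFT ad.pos (tame_per (W.dat_hom d) tw1)]
    simp only [Int.cast_natCast])
    (3 ^ u * (T * X + den * EW.io (z * E)) / nm r.π) (by
      simp only [aG_one, map_one, mul_one] at k4
      rw [map_mul, map_pow, map_ofNat, Dat.St, k4] at hX
      simp only [map_div₀, map_mul, map_add, map_natCast, map_pow, map_ofNat, EW.jc_io]
      rw [div_eq_iff l0]
      simp only [map_add] at hE hX
      push_cast at hE hX ⊢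
      linear_combination -(T : ℂ) * hX - den * CL.toC z * hE)
  refine (hv0 u (by omega)).not_ge (k5.trans ?_)
  have l2 : EV.w3.V (nm r.π : Qbar) = 1 := by
    have := tw1.one
    rw [← Int.cast_natCast, EV.w3.V_int_eq_one, EV.w3_p]
    omega
  have m : ∀ (n : ℕ) {y : Qbar}, EV.w3.V y ≤ 1 → EV.w3.V (n * y) ≤ 1 := fun n y h => by
    rw [map_mul]
    exact mul_le_one' (by simpa using EV.w3.V_int_le n) h
  rw [map_div₀, l2, div_one, map_mul, one_mul]
  exact mul_le_of_le_one_right zero_le (EV.w3.V.map_add_le (m _ X1) (m _ (EW.V_io_le _ _)))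

end Pool.Agent.Lib.MP_696deb_nt.Y3
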