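import Pool.Agent.Lib.MP_696deb_nt.Y3.B3
import Pool.Agent.Lib.MP_696deb_nt.Y3.B5
import Pool.Agent.Lib.MP_696deb_nt.Y3.B7
import Pool.Agent.Lib.MP_696deb_nt.Y3.D5
import Pool.Agent.Lib.MP_696deb_nt.Y3.G0
import Pool.Agent.Lib.MP_696deb_nt.CX.Final
import Pool.Agent.Lib.MP_696deb_nt.CY.Top

/-! The converse theorems for the curves `y ^ 2 = x ^ 3 + b`: assembly. -/

set_option autoImplicit false

open scoped Classical
open Filter Topology Module Finset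

namespace Pool.Agent.Lib.MP_696deb_nt.Y3

open CL (O)
open B2 (Qbar Gam GK)
open CX (ac GroA Ek Tw Eul Alm Cnv)
open CQ (Wq rootNumber)

/-- The sum of the points has finite order. -/
def Dat.Fin (x : Dat) : Prop := ∃ k : ℕ, 0 < k ∧ k * x.pt ∈ EW.LG.lattice

/-- A sum of infinite order gives a point that is fixed by the twisted action. -/
def T0 : Prop := ∀ x : Dat, ¬ x.Fin →
  ∃ P : CU.A, (∀ g ∈ GK 3, tw x.N x.φ g P = P) ∧ ¬ IsOfFinAddOrder P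

/-- The sum has infinite order. -/
def T1 : Prop := ∀ (x : Dat) (d d1 : ℤ) (n n1 : ℕ) (φ φ1 : O → O), x.Of d n φ → Cmp d n d1 n1 →
  EV.Phi n1 φ1 → EV.Kur (qt d φ) → EV.Hz (9 * n * d.natAbs) (qt d φ) →
  ¬ EV.Hz (9 * n1 * d1.natAbs) (qt d1 φ1) → x.cmp.Fin → ¬ x.Fin

/-- The sum has finite order if the derivative vanishes. -/
def T2 : Prop := ∀ (x : Dat) (d : ℤ) (n : ℕ) (φ : O → O) (L : ℂ → ℂ), x.Of d n φ →
  IsL (qt d φ) L → L 1 = 0 → deriv L 1 = 0 → x.Fin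

/-- The inputs. -/
structure Inp : Prop where
  t0 : T0
  t1 : T1
  t2 : T2
  nz : NzD
  ku : KuD

/-- Rank one and a simple zero. -/
def R1 (b : ℤ) : Prop := rootNumber b ≠ 1 → Module.Finite ℤ (Ek b).toAffine.Point →
  1 ≤ finrank ℤ (Ek b).toAffine.Point ∧
    ∀ F : ℂ → ℂ, Differentiable ℂ F → Eul 0 b F → analyticOrderAt F 1 = 1

/-- The number has a prime factor other than three and seven with an exponent prime to three. -/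
def Gen (m : ℕ) : Prop := ¬ ∃ i ≤ 441, ∃ t : ℕ, m = i * t ^ 3

variable {b d d1 D k : ℤ} {n n1 m q t : ℕ} {φ : O → O} {L : ℂ → ℂ} {δ δ1 : Qbar}

theorem Inp.core (I : Inp) (c : Cmp d n d1 n1) (hφ : EV.Phi n φ) (hq : q.Prime) (h3 : q ≠ 3)
    (h7 : q ≠ 7) (hv : q ∣ n) (g : GroD d n 3) (g1 : GroD d1 n1 3) (hw : ¬ Wq d n)
    (hL : IsL (qt d φ) L) (h1 : L 1 = 0) (hδ : δ ^ 2 = d) :
    deriv L 1 ≠ 0 ∧ ∃ P : CU.A, (∀ g ∈ GK 3, ac δ n g P = P) ∧ ¬ IsOfFinAddOrder P := by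
  obtain ⟨x, hx⟩ := exists_dat c.red hφ
  obtain ⟨φ1, hφ1⟩ := c.red1.exists_phi
  have g2 := g1.two c.red1.d_ne c.red1.ne (c.wq.2 hw)
  have hz := c.red.hz hφ hL h1
  have k := I.t1 x d d1 n n1 φ φ1 hx c hφ1 (I.ku.all c.red hφ hq h3 h7 hv g hz) hz
    (I.nz.all c.red1 hφ1 hq h3 ((c.dvd_n hq h7).2 hv) g2) (by
      by_contra e
      obtain ⟨P, p1, p2⟩ := I.t0 _ e
      obtain ⟨j, j0, j1⟩ := (hx.cmp c hφ1).tors g2 P p1
      exact p2 (isOfFinAddOrder_iff_nsmul_eq_zero.2 ⟨j, j0, j1⟩))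
  obtain ⟨P, p1, p2⟩ := I.t0 x k
  exact ⟨fun e => k (I.t2 x d n φ L hx hL h1 e), P,
    fun g hg => (hx.tw hδ hg P).symm.trans (p1 g hg), p2⟩

theorem Gen.prime (h : Gen (n * t ^ 3)) (r : Red d n) : ∃ q : ℕ, q.Prime ∧ q ≠ 3 ∧ q ≠ 7 ∧ q ∣ n := by
  by_contra e
  refine h ⟨n, Nat.le_of_dvd (by norm_num) ((Nat.factorization_prime_le_iff_dvd r.ne
    (by norm_num)).1 fun p hp => ?_), t, rfl⟩
  by_cases k : p ∣ n
  · have := r.cf p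
    refine le_trans (by omega) ((hp.pow_dvd_iff_le_factorization (k := 2) (by norm_num)).1 ?_)
    rcases (by_contra fun c => e ⟨p, hp, fun a => c (.inl a), fun a => c (.inr a), k⟩ :
      p = 3 ∨ p = 7) with rfl | rfl <;> norm_num
  · rw [Nat.factorization_eq_zero_of_not_dvd k]
    exact Nat.zero_le _

/-- The reduction. -/
theorem exists_red (w : Tw b D m) : ∃ (d : ℤ) (n t : ℕ) (φ : O → O) (L : ℂ → ℂ), t ≠ 0 ∧
    m = n * t ^ 3 ∧ Red d n ∧ RelD D d ∧ EV.Phi n φ ∧ IsL (qt d φ) L := by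
  obtain ⟨d, h1, h2⟩ := exists_relD w.D_ne
  obtain ⟨n, t, h3, h4, h5, h6⟩ := exists_cf w.ne
  have r : Red d n := ⟨h3, h4, h1⟩
  obtain ⟨φ, hφ⟩ := r.exists_phi
  obtain ⟨L, hL⟩ := r.exists_isL hφ
  exact ⟨d, n, t, φ, L, h5, h6, r, h2, hφ, hL⟩

theorem NzD.cnv (I : NzD) (w : Tw b D m) (hm : Gen m) : Cnv b := fun h0 F hF e => by
  obtain ⟨d, n, t, φ, L, t0, rfl, r, l, hφ, hL⟩ := exists_red w
  obtain ⟨q, q1, q2, -, q3⟩ := hm.prime r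
  obtain ⟨E, -, E1, E2⟩ := exists_E w l r hφ hL hF e
  have hδ := B2.rt_sq D
  obtain ⟨s, -, s2⟩ := CX.exists_groA w.D_ne hδ w.ne
  have g := (CX.lnk w hδ).gro (fun j => (((s2 s).2 le_rfl).choose_spec j).1) h0
  rw [ac_cube r.ne t0, l.gro w.D_ne hδ r.ne] at g
  rw [E2]
  exact mul_ne_zero E1 (I.cv0 d n q φ L r hφ q1 q2 q3 g hL)

theorem Inp.r1 (I : Inp) (w : Tw b D m) (hm : Gen m) (hδ : δ ^ 2 = D) (g : GroA (ac δ m) 3)
    (hδ1 : δ1 ^ 2 = (-7 * D : ℤ)) (g1 : GroA (ac δ1 (49 * m ^ 2)) 3) : R1 b := fun hw hf => by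
  obtain ⟨d, n, t, φ, L, t0, rfl, r, l, hφ, hL⟩ := exists_red w
  obtain ⟨q, q1, q2, q3, q4⟩ := hm.prime r
  obtain ⟨d1, n1, c⟩ := r.exists_cmp
  obtain ⟨h0, F0, f1, f2, f3⟩ := CX.feS _ _ _ w
  replace hw := mt h0.1 hw
  obtain ⟨E0, -, e1, e2⟩ := exists_E w l r hφ hL f1 f2
  have h1 := (mul_eq_zero.1 ((e2 1).symm.trans (f3 hw))).resolve_left e1
  obtain ⟨u, hu⟩ := c.cb
  obtain ⟨v, hv⟩ := c.sq
  have u0 : u ≠ 0 := fun k => r.ne (by simpa [k] using hu)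
  have v0 : v ≠ 0 := fun k => r.d_ne (by simpa [k] using hv)
  have l1 : RelD (-7 * D) d1 := by
    obtain ⟨s, a, s0, a0, e⟩ := l
    exact ⟨s, v * a, s0, mul_ne_zero v0 a0, e.imp (fun e => by linear_combination -7 * e - a ^ 2 * hv)
      fun e => by linear_combination -7 * e + 3 * a ^ 2 * hv⟩
  rw [show 49 * (n * t ^ 3) ^ 2 = n1 * (u * t ^ 2) ^ 3 by rw [mul_pow u, ← mul_assoc, hu]; ring,
    ac_cube c.red1.ne (mul_ne_zero u0 (pow_ne_zero _ t0)),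
    l1.gro (mul_ne_zero (by norm_num) w.D_ne) hδ1 c.red1.ne] at g1
  rw [ac_cube r.ne t0, l.gro w.D_ne hδ r.ne] at g
  rw [wq_cube r.ne t0, l.wq w.D_ne] at hw
  obtain ⟨k1, P, p1, p2⟩ := I.core c hφ q1 q2 q3 q4 g g1 hw hL h1 (B2.rt_sq d)
  refine ⟨rank_pos w hδ (fun g hg => ?_) p2, fun F hF e => ?_⟩
  · rw [ac_cube r.ne t0, l.ac w.D_ne hδ (B2.rt_sq d) hg, p1 g hg]
  · obtain ⟨E, E0, E1, E2⟩ := exists_E w l r hφ hL hF e
    refine (hF.analyticAt 1).analyticOrderAt_eq_one_of_zero_deriv_ne_zero (by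
      rw [E2, h1, mul_zero]) ?_
    rw [funext E2, deriv_fun_mul (E0 1) (hL.1 1), h1, mul_zero, zero_add]
    exact mul_ne_zero E1 k1

theorem alm_cube (B : ℕ) : Alm fun n => ¬ ∃ i ≤ B, ∃ t : ℕ, n = i * t ^ 3 := fun ε hε => by
  obtain ⟨K, hK⟩ := exists_nat_ge ((B + 1) / ε)
  refine ⟨K ^ 2, fun X hX => ?_⟩
  have s1 : {n : ℕ | 1 ≤ n ∧ n ≤ X ∧ ¬ ¬ ∃ i ≤ B, ∃ t : ℕ, n = i * t ^ 3} ⊆
      ((range (B + 1) ×ˢ Icc 1 X.sqrt).image fun x => x.1 * x.2 ^ 3 : Finset ℕ) := by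
    rintro n ⟨a, b, h⟩
    obtain ⟨i, hi, m, c⟩ := not_not.1 h
    have m1 : 1 ≤ m := Nat.pos_of_ne_zero fun e => by simp [e] at c; omega
    have m0 : 1 ≤ i := Nat.pos_of_ne_zero fun e => by simp [e] at c; omega
    have m2 : m ^ 2 ≤ m ^ 3 := Nat.pow_le_pow_right m1 (by norm_num)
    have m4 : m ^ 3 ≤ i * m ^ 3 := Nat.le_mul_of_pos_left _ m0
    have m3 : m ∈ Icc 1 X.sqrt := mem_Icc.2 ⟨m1, Nat.le_sqrt'.2 (by omega)⟩
    exact mem_coe.2 (mem_image.2 ⟨(i, m), mem_product.2 ⟨mem_range.2 (Nat.lt_succ_of_le hi), m3⟩,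
      c.symm⟩)
  have s2 := ((Set.ncard_le_ncard s1 (finite_toSet _)).trans_eq (Set.ncard_coe_finset _)).trans
    card_image_le
  rw [card_product, card_range, Nat.card_Icc, Nat.add_sub_cancel] at s2
  refine (Nat.cast_le.2 s2).trans ?_
  have k1 : (K : ℝ) ≤ X.sqrt := by exact_mod_cast Nat.le_sqrt'.2 hX
  have k2 : (X.sqrt : ℝ) ^ 2 ≤ X := by exact_mod_cast Nat.sqrt_le' X
  have k3 : B + 1 ≤ (X.sqrt : ℝ) * ε := (div_le_iff₀ hε).1 (hK.trans k1)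
  have k4 : (0 : ℝ) ≤ X.sqrt := Nat.cast_nonneg _
  push_cast
  nlinarith

/-- The property of the curve `y ^ 2 = x ^ 3 + c` that is counted. -/
def Bsd (c : ℤ) (r : ℕ) : Prop :=
  ∀ a b : ℤ, a = 0 → b = c → (r = 0 ↔ rootNumber b = 1) ∧ ∀ W : WeierstrassCurve ℚ,
    W = { a₁ := 0, a₂ := 0, a₃ := 0, a₄ := (a : ℚ), a₆ := (b : ℚ) } →
    ∃ F : ℂ → ℂ, Differentiable ℂ F ∧ Eul a b F ∧
      IsLeast {j : ℕ | CK.CorankLE3 W j} r ∧ Module.Finite ℤ W.toAffine.Point ∧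
      finrank ℤ W.toAffine.Point = r ∧ analyticOrderAt F 1 = (finrank ℤ W.toAffine.Point : ℕ∞)

theorem Inp.bsd (I : Inp) (w : Tw b D m) (hm : Gen m) (hδ : δ ^ 2 = D) (g : GroA (ac δ m) 3)
    (hδ1 : δ1 ^ 2 = (-7 * D : ℤ)) (g1 : GroA (ac δ1 (49 * m ^ 2)) 3) :
    Bsd b (if Wq D m then 0 else 1) := by
  rintro _ b rfl rfl
  have w' : Tw (b * ((1 : ℕ) : ℤ) ^ 2) D m := by simpa using w
  obtain ⟨h1, h2⟩ := CX.goodK (c := True) CX.parS CX.feS w' hδ g (fun _ => I.nz.cnv w' hm) 0 b rfl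
    (by simp)
  refine ⟨h1, ?_⟩
  rintro _ rfl
  obtain ⟨F, f1, f2, f3, f4, f5, -, f6⟩ := h2 _ rfl
  refine ⟨F, f1, f2, f3, f4, ?_⟩
  split_ifs at * with e
  · exact ⟨Nat.le_zero.1 f5, f6 trivial rfl⟩
  · obtain ⟨k1, k2⟩ := I.r1 w hm hδ g hδ1 g1 h1.2 f4
    have k3 := le_antisymm f5 k1
    exact ⟨k3, by rw [k2 F f1 f2, k3, Nat.cast_one]⟩

/-- Every family of cubic twists. -/
theorem Inp.tend (I : Inp) (hk : k ≠ 0) {r : ℕ} (hr : r ≤ 1) :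
    Tendsto (fun X : ℕ => (Set.ncard {n : ℕ | 1 ≤ n ∧ n ≤ X ∧ Bsd (k * (n : ℤ) ^ 2) r} : ℝ) / X)
      atTop (𝓝 (1 / 2)) := by
  have c0 : 2 * k.natAbs ^ 2 ≠ 0 :=
    mul_ne_zero two_ne_zero (pow_ne_zero 2 (Int.natAbs_ne_zero.2 hk))
  have D0 : -3 * k ≠ 0 := mul_ne_zero (by norm_num) hk
  obtain ⟨δ, h1, h2⟩ := CX.alm_gro CU.CV.core
    (fun δ _ l hn => CU.CV.finite_Zs (δ := δ) hn 1 l) D0
  obtain ⟨δ1, h3, h4⟩ := CX.alm_gro4 (D := -7 * (-3 * k)) (c := 49 * (2 * k.natAbs ^ 2) ^ 2)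
    (mul_ne_zero (by norm_num) D0) (mul_ne_zero (by norm_num) (pow_ne_zero 2 c0))
  exact CX.half (P := fun r n => Bsd (k * (n : ℤ) ^ 2) r)
    (V := fun n => Wq (-3 * k) (2 * k.natAbs ^ 2 * n)) (fun ε => CX.hf_est _ c0)
    (fun r n hn h => (h _ _ rfl rfl).1.trans (CX.feS _ _ _ (CX.tw hk hn)).1.symm)
    ((((h2.and (alm_cube 441)).mul c0).and h4).mono fun n hn e =>
      I.bsd (CX.tw hk hn) e.1.2 h1 e.1.1 h3 (by rw [mul_pow, ← mul_assoc]; exact e.2)) hr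

end Pool.Agent.Lib.MP_696deb_nt.Y3
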