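import Pool.Agent.Lib.MP_696deb_nt.Y3.P2
import Pool.Agent.Lib.MP_696deb_nt.Y3.CG
import Pool.Agent.Lib.MP_696deb_nt.Y3.GA
import Pool.Agent.Lib.MP_696deb_nt.Y3.To0

/-! The point has infinite order. -/

set_option autoImplicit false

namespace Pool.Agent.Lib.MP_696deb_nt.Y3

open CL (O)

/-- The symbol for a sum of finite order. -/
theorem Dat.symS (d : Dat) (h : d.Fin) :
    SymS (fun r => d.kap r + d.kap (star r)) fun m => d.FX.arch (d.FY.hk m) :=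
  SymS.congr (y := fun r => d.φ r * eb r + d.φ (star r) * eb (star r))
    (sym_end d.lk d.FX_ok d.FX_nz d.M_pos d.FX_stable d.M_pos d.FY_ok d.FY_nz d.FY_stable d.not_eqS
      (d.sum_FX ▸ h)) d.pos.ne' fun r _ k => by
    have c : IsCoprime r (d.N : O) :=
      cop_norm.2 (TL.nm_cast r ▸ Nat.isCoprime_iff_coprime.2 k)
    rw [d.kap_unit c, d.kap_unit (cop_star c), eb, eb]

theorem t0 : T0 := fun x h => exists_inf x.lk x.FX_ok x.M_pos x.FX_stable (x.sum_FX ▸ h)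

theorem t2 : T2 := fun _ _ _ _ _ h => h.tors_of_deriv

theorem Red.hz_iff {d : ℤ} {n : ℕ} {φ : O → O} (h : Red d n) (hφ : EV.Phi n φ) :
    EV.Hz (9 * n * d.natAbs) (qt d φ) ↔ TL.Lq (TL.ch (qt d φ)) = 0 :=
  TL.hz_iff (h.hk hφ) (Nat.mul_pos (Nat.mul_pos (by norm_num) (Nat.pos_of_ne_zero h.ne))
    (Int.natAbs_pos.2 h.d_ne)) ((Dvd.intro 3 rfl : 3 ∣ 9).mul_right _ |>.mul_right _) (h.qt_per hφ)

theorem t1 : T1 := fun x _ _ _ _ _ _ h c hφ hK hz nz h1 h2 =>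
  x.point_core (h.red.hk h.phi) (c.red1.hk hφ) h.eq (h.cmp c hφ).eq hK
    ((h.red.hz_iff h.phi).1 hz) (mt (c.red1.hz_iff hφ).2 nz)
    ((x.symS h2).add (by
      simpa only [Dat.kap_cmp, star_star, add_comm] using x.cmp.symS h1)) x.gzaS

end Pool.Agent.Lib.MP_696deb_nt.Y3
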