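import Pool.Agent.Lib.MP_696deb_nt.Y3.TH2

/-! The section at the cusp, its singular terms and its homogeneity. -/

set_option autoImplicit false

open Complex Finset CongruenceSubgroup
open UpperHalfPlane hiding I
open scoped Real ComplexConjugate Classical MatrixGroups Modular

namespace Pool.Agent.Lib.MP_696deb_nt.Y3

open CL (O nm om th op wC Per FT mem_reps)

variable {M : ℕ} {a ψ : O → ℂ} {c d l : ℤ}

theorem q1_sp_per (hM : 0 < M) (ξ : O) : Per M fun x => q1 ((sp x ξ : ℤ) / M) := fun x γ => by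
  have M0 : (M : ℂ) ≠ 0 := by exact_mod_cast hM.ne'
  refine q1_congr (sp γ ξ) ?_
  simp [sp]
  field_simp
  ring

theorem q1_sp_per' (hM : 0 < M) (x : O) : Per M fun ξ => q1 ((sp x ξ : ℤ) / M) := fun ξ γ => by
  have M0 : (M : ℂ) ≠ 0 := by exact_mod_cast hM.ne'
  refine q1_congr (sp x γ) ?_
  simp [sp]
  field_simp
  ring

theorem sm_char (hM : 0 < M) (ξ : O) :
    sm M (fun x => q1 ((sp x ξ : ℤ) / M)) = if (M : O) ∣ ξ then (M : ℂ) ^ 2 else 0 := by
  have M0 : (M : ℂ) ≠ 0 := by exact_mod_cast hM.ne'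
  split_ifs with h
  · obtain ⟨γ, rfl⟩ := h
    rw [sm_congr (g := fun _ => 1) fun x => by
      have := q1_sp_per' hM x 0 γ
      simp only [zero_add] at this
      rw [this]
      simp [sp, q1]]
    simp [sm, sq]
  · by_contra h0
    have key : ∀ t : O, (M : ℤ) ∣ sp t ξ := fun t => by
      have h1 := sm_add hM (q1_sp_per hM ξ) t
      rw [sm_congr (g := fun x => q1 ((sp t ξ : ℤ) / M) * q1 ((sp x ξ : ℤ) / M)) fun x => by
        rw [← q1_add]
        congr 1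
        simp [sp]
        ring, sm_mul_left] at h1
      obtain ⟨k, hk⟩ := exists_of_q1 ((mul_left_eq_self₀.1 h1).resolve_right h0)
      rw [div_eq_iff M0] at hk
      exact ⟨k, by rw [mul_comm]; exact_mod_cast hk⟩
    exact h (CL.nat_dvd.2 ⟨by simpa [sp] using key ⟨0, 1⟩, by simpa [sp] using key ⟨1, 0⟩⟩)

theorem sm_delta (hM : 0 < M) (h : Per M ψ) (x : O) (t : ℂ) :
    sm M (fun y => ψ y * if (M : O) ∣ x - y then t else 0) = ψ x * t := by
  rw [← sm_add hM (fun y γ => by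
    rw [h, ← sub_sub, if_congr (dvd_sub_left (dvd_mul_right _ _)) rfl rfl]) x]
  simp only [sub_add_cancel_right, dvd_neg]
  have key : ∀ s : ℕ, s < M → (M : ℤ) ∣ s → s = 0 := fun s hs e =>
    Nat.eq_zero_of_dvd_of_lt (Int.natCast_dvd_natCast.1 e) hs
  rw [sm, sum_eq_single_of_mem 0 (mem_range.2 hM) fun s hs s0 => sum_eq_zero fun r _ => ?_,
    sum_eq_single_of_mem 0 (mem_range.2 hM) fun s hs s0 => ?_]
  · rw [show (⟨(0 : ℕ), (0 : ℕ)⟩ : O) = 0 from rfl, zero_add, if_pos (dvd_zero _)]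
  all_goals rw [if_neg, mul_zero]
  all_goals rw [CL.nat_dvd]
  exacts [fun e => s0 (key s (mem_range.1 hs) e.2), fun e => s0 (key s (mem_range.1 hs) e.1)]

theorem FT_per (hM : 0 < M) (a : O → ℂ) : Per M (FT M a) := fun ξ γ => by
  rw [FT_eq, FT_eq]
  exact sm_congr fun x => congrArg _ (q1_sp_per' hM x ξ γ)

theorem iFT_per (hM : 0 < M) (ψ : O → ℂ) : Per M (iFT M ψ) := fun ξ γ => by
  rw [iFT, iFT, FT_per hM]

theorem FT_FT (hM : 0 < M) (h : Per M ψ) (y : O) : FT M (FT M ψ) y = ψ y * M ^ 2 := by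
  rw [FT_eq, ← sm_delta hM h]
  simp only [FT_eq, mul_comm (sm M _), ← sm_mul_left]
  rw [sm_comm]
  refine sm_congr fun x => ?_
  rw [← sm_char hM, ← sm_mul_left]
  refine sm_congr fun t => ?_
  rw [mul_left_comm, ← q1_add]
  congr 2
  simp [sp]
  ring

theorem iFT_FT (hM : 0 < M) (h : Per M a) (x : O) : iFT M (FT M a) x = a x := by
  have M0 : (M : ℂ) ≠ 0 := by exact_mod_cast hM.ne'
  rw [iFT, FT_FT hM h, mul_div_cancel_right₀ _ (pow_ne_zero 2 M0)]

theorem iFT_mul (hM : 0 < M) (h : Per M ψ) {k k' : ℤ} (hk : (M : ℤ) ∣ k' * k - 1) (x : O) :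
    iFT M (fun y => ψ (k * y)) x = iFT M ψ (k' * x) := by
  have M0 : (M : ℂ) ≠ 0 := by exact_mod_cast hM.ne'
  obtain ⟨t, ht⟩ := hk
  have ht' : (k' : ℂ) * k - 1 = M * t := by exact_mod_cast ht
  rw [iFT, iFT, FT_eq, FT_eq, ← sm_mul hM (k := k) (k' := k')
    (f := fun y => ψ y * q1 ((sp y (k' * x) : ℤ) / M)) (fun y γ =>
      congrArg₂ _ (h y γ) (q1_sp_per hM _ y γ)) ⟨t, by exact_mod_cast ht⟩]
  refine congrArg (· / _) (sm_congr fun y => congrArg _ (q1_congr (-(t * sp y x)) ?_))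
  simp [sp]
  field_simp
  linear_combination (y.re * x.im - y.im * x.re : ℂ) * ht'

theorem FT_iFT (hM : 0 < M) (h : Per M ψ) (y : O) : FT M (iFT M ψ) y = ψ y := by
  have M0 : (M : ℂ) ≠ 0 := by exact_mod_cast hM.ne'
  rw [FT_eq, eq_comm, ← mul_div_cancel_right₀ (ψ y) (pow_ne_zero 2 M0), ← FT_FT hM h, FT_eq,
    div_eq_inv_mul, ← sm_mul_left]
  refine sm_congr fun x => ?_
  rw [iFT]
  ring

theorem adm_iFT {k M' : ℕ} (hM : M = 3 ^ k * M') (h3 : ¬ 3 ∣ M') (h21 : 21 ∣ M) (h : Per M ψ)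
    (ho : ∀ u : ℤ, u % 3 = 2 → (M' : ℤ) ^ 2 ∣ u - 1 → IsCoprime u M → ∀ y, ψ (u * y) = -ψ y) :
    Adm M (iFT M ψ) := by
  have M0 : 0 < M := by
    rw [hM]
    exact Nat.mul_pos (by positivity) (by omega)
  obtain ⟨s, t, e⟩ : IsCoprime ((3 : ℤ) ^ (2 * k + 1)) ((M' : ℤ) ^ 2) :=
    IsCoprime.pow (Nat.isCoprime_iff_coprime.2 (Nat.prime_three.coprime_iff_not_dvd.2 h3))
  have hM' : (M : ℤ) = 3 ^ k * M' := by exact_mod_cast hM
  have h3 : (M : ℤ) ^ 2 ∣ (2 * s * 3 ^ (2 * k + 1) - 1) ^ 2 - 1 :=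
    ⟨-12 * s * t, by rw [hM']; linear_combination 4 * s * 3 ^ (2 * k + 1) * e⟩
  have h4 : (M' : ℤ) ^ 2 ∣ 2 * s * 3 ^ (2 * k + 1) - 1 - 1 := ⟨-2 * t, by linear_combination 2 * e⟩
  have h5 : (M : ℤ) ∣ (2 * s * 3 ^ (2 * k + 1) - 1) * (2 * s * 3 ^ (2 * k + 1) - 1) - 1 :=
    (dvd_pow_self _ two_ne_zero).trans (sq (2 * s * 3 ^ (2 * k + 1) - 1) ▸ h3)
  refine ⟨M0, h21, iFT_per M0 ψ, k, M', _, hM, ‹_›, h4, h3, fun x => ?_⟩
  rw [← iFT_mul M0 h h5, funext (ho _ ?_ h4 ?_), iFT, iFT, FT_eq, FT_eq, ← neg_div, ← sm_neg]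
  · simp only [neg_mul]
  · rw [show 2 * s * 3 ^ (2 * k + 1) = 3 * (2 * s * 3 ^ (2 * k)) by ring]
    omega
  · obtain ⟨r, hr⟩ := h5
    exact ⟨2 * s * 3 ^ (2 * k + 1) - 1, -r, by linear_combination hr⟩

theorem lam_sec (M : ℕ) (a : O → ℂ) (n : ℕ) (c l : ℤ) :
    (sec M a).lam n c l = ∑ A ∈ CL.reps n, lamA M a c l A := by
  simp only [Y2.An.Sec.lam, sec, lamA, mul_sum, sum_mul]
  rw [sum_comm, sum_div]
  push_cast
  rfl

theorem lamA_of_Wt (h : ¬ (¬ 3 ∣ c ∧ 7 ∣ c)) (A : O) : lamA M a c l A = 0 := by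
  simp only [lamA, Wt, if_neg h, zero_mul, sum_const_zero, zero_div]

theorem norm_lamA_le (hM : 0 < M) (a : O → ℂ) : ∃ C : ℝ, ∀ c l A, ‖lamA M a c l A‖ ≤ C := by
  obtain ⟨K, K0, hK⟩ := norm_ph_le M a
  have M0 : (0 : ℝ) < M := by exact_mod_cast hM
  refine ⟨K, fun c l A => ?_⟩
  rw [lamA, norm_div, div_le_iff₀ (by simp; positivity)]
  refine (norm_sum_le_of_le (n := fun _ => K) _ fun d _ => ?_).trans (by simp [mul_comm])
  rw [norm_mul, norm_mul, show (d * l / M ^ 2 : ℂ) = (d * l / M ^ 2 : ℝ) by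
    push_cast; ring, norm_q1_real, mul_one]
  exact (mul_le_of_le_one_left (norm_nonneg _) (norm_Wt_le c d)).trans (hK c d A)

theorem sum_range_perm {n : ℕ} (hn : 0 < n) {φ : ℤ → ℂ} (hφ : ∀ x t, φ (x + n * t) = φ x)
    {k k' : ℤ} (hk : (n : ℤ) ∣ k' * k - 1) (t : ℤ) :
    ∑ x ∈ range n, φ (k * x + t) = ∑ x ∈ range n, φ x := by
  have n0 : (n : ℂ) ≠ 0 := by exact_mod_cast hn.ne'
  obtain ⟨s, hs⟩ := hk
  have h1 := sm_perm hn (f := fun x => φ x.re) (fun x γ => by simp [hφ]) (σ := fun x => k * x + t)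
    fun x y e => by
      rw [show x - y = k' * (k * x + t - (k * y + t)) - (k' * k - 1 : ℤ) * (x - y) by
        push_cast; ring, hs]
      exact dvd_sub (e.mul_left _) ⟨s * (x - y), by push_cast; ring⟩
  simpa [sm, ← mul_sum, n0] using h1

theorem Adm.term_per (h : Adm M a) (c l : ℤ) (A : O) (x t : ℤ) :
    Wt c (x + (M ^ 2 : ℕ) * t) * ph M a c (x + (M ^ 2 : ℕ) * t) A *
      q1 ((x + (M ^ 2 : ℕ) * t : ℤ) * l / M ^ 2) = Wt c x * ph M a c x A * q1 (x * l / M ^ 2) := by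
  have M0 : (M : ℂ) ≠ 0 := by exact_mod_cast h.pos.ne'
  obtain ⟨N, hN⟩ := h.lev
  rw [Wt_congr (c := c) (d := x) (by simp) ⟨63 * N ^ 2 * t, by rw [hN]; push_cast; ring⟩,
    ph_congr (c := c) (d := x) h.pos (by simp) (by simp),
    q1_congr (y := x * l / M ^ 2) (t * l) (by push_cast; field_simp)]

theorem Adm.lamA_supp (h : Adm M a) {A : O} (h0 : lamA M a c l A ≠ 0) :
    (M : ℤ) ^ 2 ∣ nm A + c * l := by
  have hc : ¬ 3 ∣ c ∧ 7 ∣ c := by_contra fun e => h0 (lamA_of_Wt e A)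
  have M0 : (M : ℂ) ≠ 0 := by exact_mod_cast h.pos.ne'
  have h1 := sum_range_perm (n := M ^ 2) (pow_pos h.pos 2)
    (φ := fun d => Wt c d * ph M a c d A * q1 (d * l / M ^ 2)) (h.term_per c l A)
    (k := 1) (k' := 1) (by simp) c
  have h2 : ∀ d : ℤ, ph M a c (d + c) A = q1 (nm A / M ^ 2) * ph M a c d A := by
    intro d
    rw [ph, ph, ← sm_mul_left]
    refine sm_congr fun x => ?_
    rw [mul_left_comm, cf, cf]
    congr 1
    split_ifs with e
    · obtain ⟨β, hβ⟩ := e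
      obtain rfl : A = c * x + M * β := by linear_combination hβ
      rw [← q1_add]
      refine q1_congr (-nm β) ?_
      simp [bil, nm]
      field_simp
      ring
    · simp
  rw [sum_congr rfl (g := fun d : ℕ => q1 ((nm A + c * l) / M ^ 2) *
    (Wt c d * ph M a c d A * q1 (d * l / M ^ 2))) fun d _ => by
      rw [one_mul, h2, Wt_congr (c := c) (d := d) (by simp) (by simpa using hc.2), add_div, q1_add,
        show ((d + c : ℤ) * l / M ^ 2 : ℂ) = c * l / M ^ 2 + d * l / M ^ 2 by push_cast; ring,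
        q1_add]
      ring, ← mul_sum] at h1
  obtain ⟨k, hk⟩ := exists_of_q1 ((mul_left_eq_self₀.1 h1).resolve_right fun e => h0 (by
    rw [lamA, div_eq_zero_iff]
    exact .inl (by simpa using e)))
  rw [div_eq_iff (pow_ne_zero 2 M0), mul_comm (k : ℂ)] at hk
  exact ⟨k, by exact_mod_cast hk⟩

theorem th3_three (j : ℕ) : ∀ A : O, (3 ^ j) ^ 2 ∣ nm A → ∃ B : O, A = 3 ^ j * B := by
  induction j with
  | zero => exact fun A _ => ⟨A, by simp⟩
  | succ j ih =>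
    rintro A ⟨t, e⟩
    obtain ⟨B, rfl⟩ := th_dvd.2 (CL.three_dvd_nm.1 ⟨3 * (3 ^ j) ^ 2 * t, e.trans (by ring)⟩)
    rw [CL.nm_mul, show nm th = 3 from rfl] at e
    obtain ⟨C, rfl⟩ := th_dvd.2 ((CL.three_dvd_nm (α := B)).1
      ⟨(3 ^ j) ^ 2 * t, mul_left_cancel₀ three_ne_zero (e.trans (by ring))⟩)
    rw [CL.nm_mul, show nm th = 3 from rfl] at e
    obtain ⟨D, rfl⟩ := ih C ⟨t, mul_left_cancel₀ three_ne_zero
      (mul_left_cancel₀ three_ne_zero (e.trans (by ring)))⟩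
    exact ⟨-D, by linear_combination 3 ^ j * D * (by decide : th * th = -3)⟩

theorem Adm.lamA_zero (h : Adm M a) (c : ℤ) (A : O) : lamA M a c 0 A = 0 := by
  by_contra h0
  have hc : ¬ 3 ∣ c ∧ 7 ∣ c := by_contra fun e => h0 (lamA_of_Wt e A)
  obtain ⟨s, hs⟩ := h.lamA_supp h0
  obtain ⟨k, M', u, hM, -, hu, -, ho⟩ := h.odd
  obtain ⟨B, hB⟩ := th3_three k A ⟨M' ^ 2 * s, by
    rw [hM] at hs
    push_cast at hs
    linear_combination hs⟩
  have hM' : (M : O) = 3 ^ k * M' := by exact_mod_cast hM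
  refine h0 ?_
  rw [lamA, sum_eq_zero fun d _ => ?_, zero_div]
  rw [ph, sm_congr (g := fun _ => 0) fun x => ?_]
  · simp [sm]
  rw [cf]
  split_ifs with e
  · obtain ⟨β, hβ⟩ := e
    obtain ⟨r, hr⟩ := hu
    obtain ⟨s, t, hst⟩ : IsCoprime c (3 ^ k) :=
      IsCoprime.pow_right (Int.prime_three.coprime_iff_not_dvd.2 hc.1).symm
    have hr' : (u : O) - 1 = M' ^ 2 * r := by exact_mod_cast hr
    have hst' : (s : O) * c + t * 3 ^ k = 1 := by exact_mod_cast hst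
    have h3 := per_of_dvd h.per (x := u * x) (y := x)
      ⟨M' * r * (s * (B - M' * β) + t * x), by
        rw [hB, hM'] at hβ
        rw [hM']
        linear_combination x * hr' - M' ^ 2 * r * x * hst' - M' ^ 2 * r * s * hβ⟩
    rw [ho] at h3
    rw [show a x = 0 by linear_combination -h3 / 2, zero_mul]
  · simp

theorem Adm.zero (h : Adm M a) (μ : ℕ) : (sec M a).Zero μ := fun c => by
  rw [lam_sec, lam_sec]
  exact ⟨sum_eq_zero fun A _ => h.lamA_zero c A, sum_eq_zero fun A _ => lamA_of_Wt (by simp) A⟩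

theorem Adm.ph_mul (h : Adm M a) {k k' : ℤ} (hk : (M : ℤ) ∣ k' * k - 1) (A : O) :
    ph M a (k * c) (k * d) A = ph M (fun x => a (k' * x)) c d A := by
  obtain ⟨t, ht⟩ := hk
  have ht' : (k' : O) * k - 1 = M * t := by exact_mod_cast ht
  rw [ph, ph, ← sm_mul h.pos (k := k) (k' := k') (f := fun x => a (k' * x) * cf M c d x A)
    (fun x γ => congrArg₂ _ (by rw [mul_add, mul_left_comm, h.per]) (cf_per h.pos c d A x γ))
    ⟨t, ht'⟩]
  refine sm_congr fun x => congrArg₂ _ (per_of_dvd h.per ⟨-t * x, by linear_combination -x * ht'⟩) ?_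
  rw [cf, cf, show ((k * c : ℤ) : O) * x = c * (k * x) by push_cast; ring]
  refine if_congr Iff.rfl (congrArg _ ?_) rfl
  simp [nm, bil]
  ring

/-- Homogeneity of the Fourier transform for eigenfunctions. -/
theorem Adm.lamA_mul (h : Adm M a) {k k' : ℤ} (hk : (M : ℤ) ^ 2 ∣ k' * k - 1) {t : ℂ}
    (ht : ∀ x, a (k' * x) = t * a x) (c l : ℤ) (A : O) :
    lamA M a (k * c) l A = conj (CL.toC (ep k)) * t * lamA M a c (k * l) A := by
  have hk' : (M : ℤ) ∣ k' * k - 1 := (dvd_pow_self _ two_ne_zero).trans hk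
  obtain ⟨s, hs⟩ := (Int.natCast_dvd_natCast.2 h.lev).trans hk'
  have e0 : ∀ p q : ℤ, p * q = 21 → (p ∣ k * c ↔ p ∣ c) := fun p q e =>
    ⟨fun e' => by
      rw [show c = k' * (k * c) - p * (q * s * c) by linear_combination -c * hs + s * c * e]
      exact (e'.mul_left _).sub (dvd_mul_right _ _), fun e' => e'.mul_left _⟩
  have e := and_congr (not_congr (e0 3 7 rfl)) (e0 7 3 rfl)
  by_cases hc : ¬ 3 ∣ c ∧ 7 ∣ c
  swap
  · rw [lamA_of_Wt hc, lamA_of_Wt (mt e.1 hc), mul_zero]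
  have h1 := sum_range_perm (n := M ^ 2) (pow_pos h.pos 2)
    (φ := fun d => Wt (k * c) d * ph M a (k * c) d A * q1 (d * l / M ^ 2))
    (h.term_per _ l A) (k := k) (k' := k') (by exact_mod_cast hk) 0
  simp only [Int.cast_natCast] at h1
  rw [lamA, lamA, ← h1, ← mul_div_assoc, mul_sum]
  refine congrArg (· / _) (sum_congr rfl fun d _ => ?_)
  rw [add_zero, h.ph_mul hk', Wt, Wt, if_pos hc, if_pos (e.2 hc), Int.cast_mul, ep_mul, map_mul,
    map_mul, ph, ph]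
  simp only [ht, mul_assoc t, sm_mul_left]
  push_cast
  ring_nf

theorem g7_inv : g7⁻¹ 0 0 = 1 ∧ g7⁻¹ 0 1 = -1 ∧ g7⁻¹ 1 0 = 7 ∧ g7⁻¹ 1 1 = -6 := by
  simp [g7, Matrix.SpecialLinearGroup.SL2_inv_expl]

theorem Adm.at (h : Adm M a) : (sec M a).At 21 g7 3 (tk M a) := by
  have M0 : (M : ℂ) ≠ 0 := by exact_mod_cast h.pos.ne'
  refine ⟨fun g => ?_, ?_, fun k _ w => ?_⟩
  · by_cases hc : ¬ 3 ∣ g 1 0 ∧ 7 ∣ g 1 0
    · refine .inr ⟨-(g 0 0 * g 1 0), ?_⟩
      rw [Gamma0_mem, ZMod.intCast_zmod_eq_zero_iff_dvd]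
      have : (g7⁻¹ * ModularGroup.T ^ (-(g 0 0 * g 1 0)) * g) 1 0 =
          7 * g 0 0 * ((1 - g 1 0) * (1 + g 1 0)) - 6 * g 1 0 := by
        rw [mul_assoc]
        simp only [Matrix.SpecialLinearGroup.coe_mul, ModularGroup.coe_T_zpow, Matrix.mul_apply,
          Fin.sum_univ_two, g7_inv]
        simp
        ring
      obtain ⟨t, ht⟩ : 3 ∣ (1 - g 1 0) * (1 + g 1 0) := by
        rcases (by have := hc.1; omega : g 1 0 % 3 = 1 ∨ g 1 0 % 3 = 2) with e | e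
        exacts [Dvd.dvd.mul_right (by omega) _, Dvd.dvd.mul_left (by omega) _]
      obtain ⟨r, hr⟩ := hc.2
      rw [this, ht, hr]
      exact ⟨g 0 0 * t - 2 * r, by push_cast; ring⟩
    · refine .inl fun k z => ?_
      rw [h.sec_F z.im_pos, Wt]
      split_ifs with e
      · have h7 : (7 : ℤ) ∣ k := (Int.prime_iff_natAbs_prime.2 (by norm_num)).dvd_or_dvd e.2
          |>.resolve_right fun e' => hc ⟨fun e2 => e.1 (e2.mul_left _), e'⟩
        rw [(ZMod.intCast_zmod_eq_zero_iff_dvd _ 7).2 (h7.mul_right _), ep_zero]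
        simp
      · simp
  · obtain ⟨C, C0, hC⟩ := card_reps_rpow two_pos
    refine ⟨(∑ x ∈ range M, ∑ y ∈ range M, ‖a ⟨x, y⟩‖) * C, fun k m => ?_⟩
    have h1 := norm_div_th_le (x := 1) (by decide)
    rw [tk, norm_mul, mul_assoc, div_eq_mul_one_div, norm_mul, ← map_one CL.toC]
    refine (mul_le_of_le_one_left (norm_nonneg _) (mul_le_one₀ (norm_Wt_le _ _) (norm_nonneg _)
      h1)).trans ((norm_sum_le_of_le (n := fun _ => ∑ x ∈ range M, ∑ y ∈ range M, ‖a ⟨x, y⟩‖) _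
        fun A _ => ?_).trans ?_)
    · rw [FT_eq]
      refine norm_sm_le (B := fun x => ‖a x‖) fun x => ?_
      rw [norm_mul, show ((sp x (k * A) : ℤ) / M : ℂ) = ((sp x (k * A) : ℤ) / M : ℝ) by
        push_cast; rfl, norm_q1_real, mul_one]
    · rw [sum_const, nsmul_eq_mul, mul_comm]
      exact mul_le_mul_of_nonneg_left (by simpa using hC m) (by positivity)
  · obtain ⟨a1, a2, a3, a4⟩ := g7_inv
    have e1 : g7 1 0 = -7 ∧ g7 1 1 = 1 := by simp [g7]
    have hj : Y2.An.jac g7⁻¹ w * Y2.An.jac g7 (g7⁻¹ • w : ℍ) = 1 := by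
      rw [mul_comm, ← Y2.An.jac_mul, mul_inv_cancel, Y2.An.jac_one]
    have h1 : ∀ x : O, HasSum (fun y : O => q1 ((sp x (k * y) : ℤ) / M) * q1 (nm y * w / 3))
        (Th2 0 1 1 ((0 : ℤ) * CL.toC x / M) ((k : ℤ) * CL.toC x / M) w) := fun x =>
      ((Equiv.neg O).hasSum_iff.2 (hasSum_Th2 zero_le_one w.im_pos 1 1 _ _)).congr_fun fun y => by
        rw [Function.comp, thT, ite_self, one_mul,
          thE_rat h.pos (n := 3) (CL.normSq_toC th) three_pos 0 k x _ rfl]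
        congr 2
        all_goals
          simp [nm, bil, sp, th]
          field_simp
        all_goals ring
    have h2 := hasSum_norm (g := fun y => FT M a (k * y)) (F := fun n => q1 (n * w / 3))
      ((hasSum_sm (M := M) fun x => (h1 x).mul_left (a x)).congr_fun fun y => by
        rw [FT_eq, mul_comm, ← sm_mul_left]
        exact sm_congr fun x => by ring)
    rw [show (sec M a).Th k g7 w = Wt (-7 * k) k / CL.toC th * sm M fun x => a x *
      Th2 0 1 1 ((0 : ℤ) * CL.toC x / M) ((k : ℤ) * CL.toC x / M) w from ?_]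
    swap
    · rw [Y2.An.Sec.Th, h.sec_F (g7⁻¹ • w).im_pos, F0, e1.1, e1.2, mul_one, mul_comm (k : ℤ),
        mul_assoc, mul_comm (sm M _), ← sm_mul_left, div_eq_mul_inv (Wt _ _), mul_assoc (Wt _ _),
        ← sm_mul_left (CL.toC th)⁻¹]
      refine congrArg _ (sm_congr fun x => ?_)
      rw [Y2.An.jac, coe_smul_eq_mob, a3, a4] at hj
      rw [coe_smul_eq_mob, law_dual zero_le_one (det_SL g7⁻¹) (by rw [a4]; decide) _ _ w.im_pos,
        a3, a4, show et 7 = 1 by decide, a1, a2, zero_add, pow_one]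
      rw [a1, a2] at hj
      rw [show ((-7 * k : ℤ) * CL.toC x / M * (1 : ℤ) + (k : ℤ) * CL.toC x / M * (7 : ℤ) : ℂ) =
        (0 : ℤ) * CL.toC x / M by push_cast; ring,
        show ((-7 * k : ℤ) * CL.toC x / M * (-1 : ℤ) + (k : ℤ) * CL.toC x / M * (-6 : ℤ) : ℂ) =
        (k : ℤ) * CL.toC x / M by push_cast; ring, Int.cast_one]
      linear_combination (a x * (CL.toC th)⁻¹ *
        Th2 0 1 1 ((0 : ℤ) * CL.toC x / M) ((k : ℤ) * CL.toC x / M) w) * hj
    · refine (h2.mul_left (Wt (-7 * k) k / CL.toC th)).congr_fun fun m => ?_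
      rw [tk]
      push_cast
      ring

end Pool.Agent.Lib.MP_696deb_nt.Y3
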