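import Pool.Agent.Lib.MP_696deb_nt.Y3.K0
import Pool.Agent.Lib.MP_696deb_nt.Y3.TLa

/-! The algebraic part of the values at one of the series of periodic functions. -/

set_option autoImplicit false

open scoped Classical NNReal ComplexConjugate Real
open Finset Filter Topology

namespace Pool.Agent.Lib.MP_696deb_nt.Y3.TL

export EW (jc cp Om LG IsRep Ph exists_rep)
export EA (Es)

open EV

/-- The algebraic value of the Eisenstein-Kronecker function at a torsion point. -/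
noncomputable def Zt (P : A) : Qbar :=
  if h : ∃ ζ : Qbar, ∀ z, cp P = EW.un z → jc ζ = Es LG z then h.choose else 0

/-- The algebraic part of the value at one. -/
noncomputable def Lq (g : O → Qbar) : Qbar :=
  if h : ∃ B : Qbar, Lc (fun a => jc (g a)) = Om * jc B then h.choose else 0

/-- The tame weight. -/
noncomputable def iw {r : TP} {u : ℕ} (x : Ix r u) (a : O) : ℕ :=
  if r.π ∣ a then 0 else (x.ind a).val

/-- The conjugate character with algebraic values. -/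
noncomputable def ch (φ : O → O) (a : O) : Qbar := io (star (φ a))

/-- A function with the multiples of an element removed from the support. -/
noncomputable def cut (δ : O) (ψ : O → Qbar) (a : O) : Qbar := if δ ∣ a then 0 else ψ a

/-- A function with the support restricted to the elements prime to `n`. -/
noncomputable def cq (n : O) (ψ : O → Qbar) (a : O) : Qbar := if IsCoprime a n then ψ a else 0

/-- Periodic multiplicative functions with integral values. -/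
structure Mu (m : O) (ψ : O → Qbar) : Prop where
  per : Pd m ψ
  mul : ∀ a b, ψ (a * b) = ψ a * ψ b
  zero : ψ 0 = 0
  le : ∀ a, w3.V (ψ a) ≤ 1
  eul : ∀ δ, Prime δ → ψ δ ≠ io δ

/-- A bound for the algebraic parts at level `m` times an element prime to three. -/
def Bd (m : O) (K : ℝ≥0) : Prop := ∀ n : O, CU.red n ≠ 0 → ∀ g : O → Qbar, Pd (m * n) g → g 0 = 0 →
  ∀ ε : ℝ≥0, (∀ a, w3.V (g a) ≤ ε) → w3.V (Lq g) ≤ K * ε

/-- Numbers that stay large along a family of admissible primes. -/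
def Big (φ : O → O) (f : ∀ (u : ℕ) (r : TP), Ix r u → Qbar) : Prop :=
  ∃ δ : ℝ≥0, 0 < δ ∧ ∀ v, ∃ u ≥ v, ∃ (r : TP) (x : Ix r u), AdmR φ r u ∧ δ ≤ w3.V (f u r x)

theorem iw_pd {r : TP} {u : ℕ} (x : Ix r u) : Pd r.π (iw x) := fun a b e => by
  have k : r.π ∣ a ↔ r.π ∣ b := ⟨fun k => by simpa using dvd_sub k e, fun k => by
    simpa using dvd_add e k⟩
  simp only [iw, k, x.per a b e]

theorem iw_mul {r : TP} {u : ℕ} (x : Ix r u) {a b : O} (ha : ¬ r.π ∣ a) (hb : ¬ r.π ∣ b) :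
    ∃ e : ℤ, (iw x (a * b) : ℤ) = iw x a + iw x b + 3 ^ u * e := by
  have k : ¬ r.π ∣ a * b := fun e => (r.prime.dvd_or_dvd e).elim ha hb
  have : ((3 ^ u : ℕ) : ℤ) ∣ (iw x (a * b) : ℤ) - (iw x a + iw x b) := by
    rw [← ZMod.intCast_zmod_eq_zero_iff_dvd]
    simp [iw, k, ha, hb, x.mul a b ha hb]
  obtain ⟨e, he⟩ := this
  exact ⟨e, by rw [Nat.cast_pow, Nat.cast_ofNat] at he; linear_combination he⟩

theorem tl1_Ph {n : O} {R : Finset O} (hR : IsRep n R) {g : O → ℂ} (hg : Pd n g) (h0 : g 0 = 0) :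
    Tendsto (Ph fun a => g (star a)) (𝓝[>] 0)
      (𝓝 (Om / CL.toC n * ∑ a ∈ R, g a * Es LG (Om * CL.toC a / CL.toC n))) := by
  have n0 := EW.coe_ne hR.ne
  have n1 := norm_pos_iff.2 n0
  have O1 := EW.Om_ne
  have O0 := norm_pos_iff.2 O1
  have hc : 0 < ‖CL.toC n‖ ^ 2 / ‖Om‖ ^ 2 := by positivity
  have sc : Tendsto (fun t : ℝ => ‖CL.toC n‖ ^ 2 / ‖Om‖ ^ 2 * t) (𝓝[>] 0) (𝓝[>] 0) :=
    tendsto_nhdsWithin_iff.2 ⟨(Continuous.tendsto' (by fun_prop) 0 _ (mul_zero _)).mono_left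
      nhdsWithin_le_nhds, eventually_mem_nhdsWithin.mono fun t ht => mul_pos hc ht⟩
  have h1 : Tendsto (fun t : ℝ => Om / CL.toC n * ∑ a ∈ R,
      g a * EA.St LG (‖CL.toC n‖ ^ 2 / ‖Om‖ ^ 2 * t) (Om * CL.toC a / CL.toC n)) (𝓝[>] 0)
      (𝓝 (Om / CL.toC n * ∑ a ∈ R, g a * Es LG (Om * CL.toC a / CL.toC n))) := by
    refine Tendsto.const_mul _ (tendsto_finsetSum _ fun a _ => ?_)
    by_cases e : n ∣ a
    · simp [hg a 0 (by rwa [sub_zero]), h0]
    · exact Tendsto.const_mul _ ((EA.tendsto_St fun k => e ((EW.div_mem_LG hR.ne).1 k)).comp sc)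
  refine h1.congr' ((sc.eventually (Ioc_mem_nhdsGT one_pos)).mono fun t ht => ?_)
  have h2 := hR.split (F := fun α => g α * conj (CL.toC α) *
      (Real.exp (-π * t * (CL.nm α : ℝ)) : ℝ) / (CL.nm α : ℝ))
    (s := fun a => Om / CL.toC n *
      (g a * EA.St LG (‖CL.toC n‖ ^ 2 / ‖Om‖ ^ 2 * t) (Om * CL.toC a / CL.toC n)))
    fun a _ => by
    refine (((EW.hasSum_St ht.1 ht.2 (Om * CL.toC a / CL.toC n)).mul_left _).mul_left _).congr_fun
      fun γ => ?_
    have e : Om * CL.toC a / CL.toC n + Om * CL.toC γ = Om / CL.toC n * CL.toC (a + n * γ) := by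
      rw [map_add, map_mul]
      field_simp
    rw [e, ← hg (a + n * γ) a ⟨γ, add_sub_cancel_left _ _⟩]
    generalize a + n * γ = α
    have e2 : EA.gs (‖CL.toC n‖ ^ 2 / ‖Om‖ ^ 2 * t) (Om / CL.toC n * CL.toC α) =
        Real.exp (-π * t * (CL.nm α : ℝ)) := by
      rw [EA.gs, ← CL.normSq_toC, Complex.normSq_eq_norm_sq, norm_mul, norm_div]
      congr 1
      field_simp
    rw [e2, ← CL.normSq_toC, ← Complex.mul_conj]
    rcases eq_or_ne (CL.toC α) 0 with k | k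
    · simp [k]
    · have k2 : conj (CL.toC α) ≠ 0 := (map_ne_zero _).2 k
      field_simp
  simp only [← mul_sum] at h2
  rw [← h2.tsum_eq, Ph, ← (Function.Involutive.toPerm _ star_star).tsum_eq]
  simp only [Function.Involutive.coe_toPerm, CL.toC_star, Complex.conj_conj, CL.nm_star]

theorem Lc_rep {n : O} {R : Finset O} (hR : IsRep n R) {g : O → ℂ} (hg : Pd n g) (h0 : g 0 = 0) :
    Lc g = Om / CL.toC n * ∑ a ∈ R, g a * Es LG (Om * CL.toC a / CL.toC n) := by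
  obtain ⟨L, h1, h2, h3⟩ := DS_ent' hR.ne hg
  rw [Lc, val1_eq h1 fun s hs => h2 s (by linarith)]
  exact tendsto_nhds_unique h3 (tl1_Ph hR hg h0)

theorem tl2a_es {P : A} (h0 : P ≠ 0) {z z' : ℂ} (hz : cp P = EW.un z) (hz' : cp P = EW.un z') :
    Es LG z' = Es LG z := by
  have := EA.Es_add (L := LG) (mt (EW.cp_ne hz).1 h0) (w := z' - z)
    (EW.un_eq_zero.1 (by rw [map_sub, ← hz, ← hz', sub_self]))
  rwa [add_sub_cancel] at this

theorem tl2a_red (n : O) : CU.red (1 + 3 * n) ≠ 0 := EW.prim_red (g1_prim.2 ⟨n, by ring⟩)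

theorem red_star {n : O} (h : CU.red n ≠ 0) : CU.red (star n) ≠ 0 := fun e => h (by
  rw [EW.red_zero] at e ⊢
  rw [QuadraticAlgebra.re_star, QuadraticAlgebra.im_star] at e
  omega)

theorem tl2a_fix {n : O} {P : A} (hP : n • P = 0) : (1 + 3 * n) • P = P := by
  rw [add_smul, one_smul, mul_smul, hP, smul_zero, add_zero]

theorem tl2a_key {n : O} {P : A} (hP : n • P = 0) (h0 : P ≠ 0) {z : ℂ} (hz : cp P = EW.un z) :
    jc (io ((1 + 3 * n) * (-3 * star n))) * Es LG z = jc (dl (1 + 3 * n) P) := by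
  have h := EW.dlog_alg (EW.ne_of_red (tl2a_red n)) hz (by rwa [tl2a_fix hP])
  rw [tl2a_es h0 hz (tl2a_fix hP ▸ EW.cp_smul (1 + 3 * n) hz)] at h
  rw [EW.dl, ← h, EW.jc_io, show (1 + 3 * n) * (-3 * star n) = 1 + 3 * n - CL.nm (1 + 3 * n) by
    rw [← CL.mul_star_self, star_add, star_mul', star_one, star_ofNat]
    ring, map_sub, map_intCast, sub_mul]

theorem tl2a_ne {n : O} (hn : n ≠ 0) : io ((1 + 3 * n) * (-3 * star n)) ≠ 0 :=
  EW.io_ne (mul_ne_zero (EW.ne_of_red (tl2a_red n)) (mul_ne_zero (by decide) (star_ne_zero.2 hn)))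

theorem Zt_spec {n : O} (hn : n ≠ 0) {P : A} (hP : n • P = 0) (h0 : P ≠ 0) {z : ℂ}
    (hz : cp P = EW.un z) : jc (Zt P) = Es LG z := by
  have h : ∃ ζ : Qbar, ∀ z, cp P = EW.un z → jc ζ = Es LG z :=
    ⟨dl (1 + 3 * n) P / io ((1 + 3 * n) * (-3 * star n)), fun z hz => by
      rw [map_div₀, ← tl2a_key hP h0 hz,
        mul_div_cancel_left₀ _ ((map_ne_zero jc).2 (tl2a_ne hn))]⟩
  rw [Zt, dif_pos h]
  exact h.choose_spec z hz

theorem dl_Zt {n b : O} (hn : n ≠ 0) (hb : b ≠ 0) {P : A} (hP : n • P = 0) (h0 : b • P ≠ 0) :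
    dl b P = io b * Zt (b • P) - (nm b : Qbar) * Zt P := by
  obtain ⟨z, hz⟩ := EW.un_surj (cp P)
  refine jc.injective ?_
  rw [EW.dl, ← EW.dlog_alg hb hz.symm h0, map_sub, map_mul, map_mul, EW.jc_io, map_natCast,
    Zt_spec hn hP (fun e => h0 (by rw [e, smul_zero])) hz.symm,
    Zt_spec hn (by rw [smul_comm, hP, smul_zero]) h0 (EW.cp_smul b hz.symm), ← nm_cast,
    Int.cast_natCast]

theorem tl2a_dl {b : O} (hb : CU.red b ≠ 0) {P : A} (hP : b • P = P) (h : P ∉ Kr w3) :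
    w3.V (dl b P) ≤ 1 := by
  refine w3.V.map_sum_le fun T hT => ?_
  obtain ⟨t0, t1⟩ := (EW.mem_En0 (EW.ne_of_red hb)).1 hT
  have k := EW.sep (fun e => t0 (EW.Kr_tors (V_w3_odd hb) e t1)) h
    (fun e => h (by simpa [t1, hP] using (Kr w3).smul_mem b e))
    fun e => h (by simpa [smul_sub, t1, hP] using (Kr w3).smul_mem b e)
  rw [w3.V.map_sub_swap, ← EW.V_yh_eq w3_two] at k
  rw [map_div₀]
  exact div_le_one_of_le₀ k zero_le

theorem Zt_bd {m : O} (hm : m ≠ 0) : ∃ K : ℝ≥0, ∀ n : O, CU.red n ≠ 0 → ∀ P : A,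
    (m * n) • P = 0 → P ≠ 0 → w3.V (Zt P) ≤ K := by
  refine ⟨((En m).sup fun S => w3.V (Zt S)) + (w3.V (io (-3 * star m)))⁻¹ * 1,
    fun n hn P hP h0 => ?_⟩
  by_cases h : P ∈ Kr w3
  · refine le_add_right (le_sup (f := fun S => w3.V (Zt S)) ((EW.mem_En hm).2 ?_))
    exact EW.Kr_tors (V_w3_odd hn) ((Kr w3).smul_mem m h) (by rwa [smul_smul, mul_comm])
  obtain ⟨z, hz⟩ := EW.un_surj (cp P)
  have k := tl2a_key hP h0 hz.symm
  rw [← Zt_spec (mul_ne_zero hm (EW.ne_of_red hn)) hP h0 hz.symm, ← map_mul] at k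
  have k1 := tl2a_dl (tl2a_red _) (tl2a_fix hP) h
  rw [← jc.injective k, star_mul', ← mul_assoc (-3), map_mul, map_mul, map_mul, map_mul, map_mul,
    V_w3_odd (tl2a_red _), V_w3_odd (red_star hn), one_mul, mul_one] at k1
  exact le_add_left ((le_inv_mul_iff₀ (pos_iff_ne_zero.2 ((map_ne_zero _).2
    (EW.io_ne (mul_ne_zero (by decide) (star_ne_zero.2 hm)))))).2 k1)

section
variable {n : O} {g h : O → Qbar}

theorem tl2_tors (hn : n ≠ 0) (a : O) : n • tq a n = 0 := by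
  rw [EW.smul_tq _ _ hn, EW.tq_eq_zero hn]
  exact dvd_mul_right _ _

theorem tl2_zero (hn : n ≠ 0) (hg : Pd n g) (h0 : g 0 = 0) {a : O} (e : tq a n = 0) : g a = 0 :=
  (hg a 0 (by simpa using (EW.tq_eq_zero hn).1 e)).trans h0

theorem Lq_both {R : Finset O} (hR : IsRep n R) (hg : Pd n g) (h0 : g 0 = 0) :
    Lc (fun a => jc (g a)) = Om * jc (Lq g) ∧
      Lq g = (∑ a ∈ R, g a * Zt (tq a n)) / io n := by
  have e : Lc (fun a => jc (g a)) = Om * jc ((∑ a ∈ R, g a * Zt (tq a n)) / io n) := by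
    rw [Lc_rep hR (g := fun a => jc (g a)) (fun a b k => congrArg jc (hg a b k))
      (by rw [h0, map_zero]), map_div₀, map_sum, EW.jc_io, div_mul_eq_mul_div, mul_div_assoc]
    refine congrArg (fun x => Om * (x / CL.toC n)) (sum_congr rfl fun a _ => ?_)
    rw [map_mul]
    by_cases k : tq a n = 0
    · rw [tl2_zero hR.ne hg h0 k, map_zero, zero_mul, zero_mul]
    · rw [Zt_spec hR.ne (tl2_tors hR.ne a) k (EW.cp_tq a hR.ne)]
  have ex : ∃ B : Qbar, Lc (fun a => jc (g a)) = Om * jc B := ⟨_, e⟩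
  have k : Lc (fun a => jc (g a)) = Om * jc (Lq g) := by
    rw [Lq, dif_pos ex]
    exact ex.choose_spec
  exact ⟨k, jc.injective (mul_left_cancel₀ EW.Om_ne (k.symm.trans e))⟩

theorem Lq_spec (hn : n ≠ 0) (hg : Pd n g) (h0 : g 0 = 0) :
    Lc (fun a => jc (g a)) = Om * jc (Lq g) :=
  (exists_rep hn).elim fun _ k => (Lq_both k.1 hg h0).1

theorem Lq_rep {R : Finset O} (hR : IsRep n R) (hg : Pd n g) (h0 : g 0 = 0) :
    Lq g = (∑ a ∈ R, g a * Zt (tq a n)) / io n := (Lq_both hR hg h0).2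

theorem Lq_add (hn : n ≠ 0) (hg : Pd n g) (g0 : g 0 = 0) (hh : Pd n h) (h0 : h 0 = 0) :
    Lq (fun a => g a + h a) = Lq g + Lq h := by
  obtain ⟨R, hR, -⟩ := exists_rep hn
  rw [Lq_rep hR hg g0, Lq_rep hR hh h0, Lq_rep hR (g := fun a => g a + h a)
    (fun a b k => by simp only [hg a b k, hh a b k]) (by simp only [g0, h0, add_zero]),
    ← add_div, ← sum_add_distrib]
  simp only [add_mul]

theorem Lq_mul (hn : n ≠ 0) (hg : Pd n g) (g0 : g 0 = 0) (c : Qbar) :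
    Lq (fun a => c * g a) = c * Lq g := by
  obtain ⟨R, hR, -⟩ := exists_rep hn
  rw [Lq_rep hR hg g0, Lq_rep hR (g := fun a => c * g a)
    (fun a b k => by simp only [hg a b k]) (by simp only [g0, mul_zero]), ← mul_div_assoc, mul_sum]
  simp only [mul_assoc]

theorem Lq_sum (hn : n ≠ 0) {ι : Type} (s : Finset ι) {f : ι → O → Qbar} (hf : ∀ i ∈ s, Pd n (f i))
    (f0 : ∀ i ∈ s, f i 0 = 0) : Lq (fun a => ∑ i ∈ s, f i a) = ∑ i ∈ s, Lq (f i) := by
  obtain ⟨R, hR, -⟩ := exists_rep hn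
  rw [sum_congr rfl fun i hi => Lq_rep hR (hf i hi) (f0 i hi),
    Lq_rep hR (g := fun a => ∑ i ∈ s, f i a)
      (fun a b k => sum_congr rfl fun i hi => hf i hi a b k) (sum_eq_zero f0), ← sum_div, sum_comm]
  simp only [sum_mul]

theorem Lq_div (hn : n ≠ 0) (hg : Pd n g) (g0 : g 0 = 0) {δ : O} (hδ : δ ≠ 0) :
    Lq (fun a => if δ ∣ a then g a else 0) = Lq (fun a => g (δ * a)) / io δ := by
  obtain ⟨R, hR, -⟩ := exists_rep (mul_ne_zero hδ hn)
  have inj : Set.InjOn (δ * ·) ((δ * ·) ⁻¹' (R : Set O)) := (mul_right_injective₀ hδ).injOn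
  have hS : IsRep n (R.preimage (δ * ·) inj) := by
    refine ⟨hn, fun a => ?_, fun r hr r' hr' k => mul_left_cancel₀ hδ
      (hR.uq _ (mem_preimage.1 hr) _ (mem_preimage.1 hr') ?_)⟩
    · obtain ⟨r, hr, t, e⟩ := hR.ex (δ * a)
      refine ⟨a - n * t, mem_preimage.2 ?_, t, by ring⟩
      rwa [show δ * (a - n * t) = r by linear_combination e]
    · rw [← mul_sub]
      exact mul_dvd_mul_left δ k
  have p1 : Pd (δ * n) fun a => if δ ∣ a then g a else 0 := fun a b k => by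
    have k1 : δ ∣ a - b := (dvd_mul_right δ n).trans k
    have k2 : δ ∣ a ↔ δ ∣ b := ⟨fun j => by simpa using dvd_sub j k1, fun j => by
      simpa using dvd_add k1 j⟩
    simp only [k2, hg a b ((dvd_mul_left n δ).trans k)]
  have p2 : Pd n fun a => g (δ * a) := fun a b k => hg _ _ (by
    rw [← mul_sub]; exact k.mul_left δ)
  rw [Lq_rep hR p1 (by simp [g0]), Lq_rep hS p2 (by simp [g0]), div_div, map_mul, mul_comm (io δ),
    ← sum_preimage (δ * ·) R inj _ fun a _ k => by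
      rw [if_neg fun ⟨t, e⟩ => k ⟨t, e.symm⟩, zero_mul]]
  simp only [dvd_mul_right, if_true, EW.tq_mul hδ _ hn]

end

theorem exists_bd {m : O} (hm : m ≠ 0) : ∃ K, 1 ≤ K ∧ Bd m K := by
  obtain ⟨K, hK⟩ := Zt_bd hm
  refine ⟨max 1 (K / w3.V (io m)), le_max_left _ _, fun n hn g hg g0 ε hε => ?_⟩
  have n0 := mul_ne_zero hm (EW.ne_of_red hn)
  obtain ⟨R, hR, -⟩ := exists_rep n0
  rw [Lq_rep hR hg g0, map_div₀, map_mul io, map_mul, V_w3_odd hn, mul_one]
  refine le_trans ?_ (mul_le_mul_left (le_max_right _ _) ε)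
  rw [div_mul_eq_mul_div]
  refine div_le_div_of_nonneg_right (w3.V.map_sum_le fun a _ => ?_) zero_le
  by_cases k : tq a (m * n) = 0
  · rw [tl2_zero n0 hg g0 k, zero_mul, map_zero]
    exact zero_le
  · rw [map_mul, mul_comm]
    exact mul_le_mul' (hK n hn _ (tl2_tors n0 a) k) (hε a)

end Pool.Agent.Lib.MP_696deb_nt.Y3.TL
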