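import Pool.Agent.Lib.MP_696deb_nt.Y3.TL0

/-! The tame double series and Euler factors. -/

set_option autoImplicit false

open scoped Classical NNReal ComplexConjugate
open Finset

namespace Pool.Agent.Lib.MP_696deb_nt.Y3.TL

open EV

theorem tl3_dvd {n a b : O} (e : n ∣ a - b) : n ∣ a ↔ n ∣ b :=
  ⟨fun k => by simpa using dvd_sub k e, fun k => by simpa using dvd_add e k⟩

theorem tl3_star {n a : O} : star n ∣ a ↔ n ∣ star a :=
  ⟨fun ⟨c, e⟩ => ⟨star c, by rw [e, star_mul', star_star]⟩,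
    fun ⟨c, e⟩ => ⟨star c, by rw [← star_mul', ← e, star_star]⟩⟩

/-- The restriction of a function to a residue class. -/
noncomputable def tl3g (n y : O) (ψ : O → Qbar) (a : O) : Qbar := if n ∣ a - y then ψ a else 0

theorem tl3g_pd {m n : O} (y : O) {ψ : O → Qbar} (h : Pd m ψ) : Pd (m * n) (tl3g n y ψ) :=
  fun a b e => by
    have k : n ∣ a - y ↔ n ∣ b - y := tl3_dvd (by
      rw [sub_sub_sub_cancel_right]
      exact (dvd_mul_left n m).trans e)
    simp only [tl3g, k, h a b ((dvd_mul_right m n).trans e)]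

theorem tl3g_zero (n y : O) {ψ : O → Qbar} (h : ψ 0 = 0) : tl3g n y ψ 0 = 0 := by
  simp only [tl3g, h, ite_self]

theorem tl3g_sum {m n : O} (hm : m ≠ 0) {R : Finset O} (hR : IsRep n R) {ψ F : O → Qbar}
    (h : Pd m ψ) (h0 : ψ 0 = 0) (hF : Pd n F) :
    ∑ y ∈ R, F y * Lq (tl3g n y ψ) = Lq fun a => F a * ψ a := by
  have n0 := mul_ne_zero hm hR.ne
  rw [sum_congr rfl fun y _ => (Lq_mul n0 (tl3g_pd y h) (tl3g_zero n y h0) (F y)).symm,
    ← Lq_sum n0 R (f := fun y a => F y * tl3g n y ψ a)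
      (fun y _ a b e => congrArg _ (tl3g_pd y h a b e)) fun y _ => by
        rw [tl3g_zero n y h0, mul_zero]]
  refine congrArg Lq (funext fun a => ?_)
  obtain ⟨y, hy, e⟩ := hR.ex a
  rw [sum_eq_single_of_mem y hy fun z hz k => ?_, tl3g, if_pos e, hF a y e]
  rw [tl3g, if_neg fun e' => k (hR.uq z hz y hy (by simpa using dvd_sub e e')), mul_zero]

/-- The value of the tame double series. -/
theorem DD_iw {m : O} (hm : m ≠ 0) {K : ℝ≥0} (hK : Bd m K) {ψ ψ' : O → Qbar} (h1 : Mu m ψ)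
    (h2 : Mu m ψ') {r : TP} {u : ℕ} (x : Ix r u) (hz : Lq (cut r.π ψ) = 0)
    {a0 : O} (h0 : ¬ r.π ∣ a0) :
    ∃ B : Qbar, val1 (DD (fun a => (iw x (a0 * a) : ℂ)) (fun a => jc (ψ a))
      fun a => jc (ψ' (star a))) = Om ^ 2 * jc B ∧
        w3.V (B - Lq (cut (star r.π) ψ') * Lq fun a => ψ a * iw x a) ≤ K * K * w3.V (3 ^ u) := by
  obtain ⟨R, hR, -⟩ := exists_rep r.prime.ne_zero
  have n1 := mul_ne_zero hm r.prime.ne_zero
  have n2 := mul_ne_zero hm (star_ne_zero.2 r.prime.ne_zero)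
  have o2 := red_star r.red
  let h : O → O → Qbar := fun y a => iw x (y * star a) * ψ' a
  have hp : ∀ y, Pd (m * star r.π) (h y) := fun y a b e => by
    have k : r.π ∣ y * star a - y * star b := by
      rw [← mul_sub, ← star_sub]
      exact (tl3_star.1 ((dvd_mul_left _ m).trans e)).mul_left y
    simp only [h, iw_pd x _ _ k, h2.per a b ((dvd_mul_right m _).trans e)]
  have hz0 : ∀ y, h y 0 = 0 := fun y => by simp only [h, h2.zero, mul_zero]
  have cp : Pd (m * star r.π) (cut (star r.π) ψ') := fun a b e => by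
    simp only [cut, tl3_dvd ((dvd_mul_left _ m).trans e), h2.per a b ((dvd_mul_right m _).trans e)]
  have c0 : cut (star r.π) ψ' 0 = 0 := if_pos (dvd_zero _)
  let c : O → Qbar := fun y => if r.π ∣ y then 0 else 1
  let e : O → O → Qbar := fun y a => h (a0 * y) a - (iw x y * cut (star r.π) ψ' a + c y * h a0 a)
  have ep : ∀ y, Pd (m * star r.π) (e y) := fun y a b k => by
    simp only [e, hp _ a b k, cp a b k]
  have e0 : ∀ y, e y 0 = 0 := fun y => by simp only [e, hz0, c0, mul_zero, add_zero, sub_zero]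
  have eb : ∀ y a, w3.V (e y a) ≤ w3.V (3 ^ u) := fun y a => by
    by_cases k : r.π ∣ y
    · simp [e, h, c, iw, k, (k.mul_left a0).mul_right (star a)]
    by_cases l : r.π ∣ star a
    · simp [e, h, iw, cut, tl3_star, l, l.mul_left]
    obtain ⟨t, ht⟩ := iw_mul x k fun j => (r.prime.dvd_or_dvd (a := a0) (b := star a) j).elim h0 l
    have ht' : (iw x (y * (a0 * star a)) : Qbar) = iw x y + iw x (a0 * star a) + 3 ^ u * t := by
      exact_mod_cast congrArg (Int.cast : ℤ → Qbar) ht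
    have : e y a = 3 ^ u * (t * ψ' a) := by
      simp only [e, h, c, cut, tl3_star, if_neg k, if_neg l, show a0 * y * star a =
        y * (a0 * star a) by ring, ht']
      ring
    rw [this, map_mul, map_mul]
    exact mul_le_of_le_one_right' (mul_le_one' (w3.V_int_le t) (h2.le a))
  have hq : ∀ y, Lq (h (a0 * y)) =
      iw x y * Lq (cut (star r.π) ψ') + c y * Lq (h a0) + Lq (e y) := fun y => by
    rw [← Lq_mul n2 cp c0, ← Lq_mul n2 (hp a0) (hz0 a0), ← Lq_add n2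
      (fun a b k => by simp only [cp a b k]) (by rw [c0, mul_zero])
      (fun a b k => by simp only [hp _ a b k]) (by rw [hz0, mul_zero]), ← Lq_add n2
      (fun a b k => by simp only [cp a b k, hp _ a b k]) (by rw [c0, hz0]; simp) (ep y) (e0 y)]
    exact congrArg Lq (funext fun a => (add_sub_cancel _ _).symm)
  refine ⟨∑ y ∈ R, Lq (tl3g r.π y ψ) * Lq (h (a0 * y)), ?_, ?_⟩
  · rw [(DD_val hR (mul_ne_zero hm (star_ne_zero.2 hm)) (fun a b k => ?_) (fun a b k => ?_)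
      fun a b k => ?_).2, map_sum, mul_sum]
    · refine sum_congr rfl fun y _ => ?_
      have k1 := Lq_spec n1 (tl3g_pd y h1.per) (tl3g_zero r.π y h1.zero)
      have k2 := Lq_spec n2 (hp (a0 * y)) (hz0 _)
      simp only [tl3g, apply_ite jc, map_zero] at k1
      simp only [h, map_mul, map_natCast, mul_assoc] at k2
      simp only [star_star]
      rw [k1, k2, map_mul]
      simp only [h, mul_assoc]
      ring
    · rw [iw_pd x (a0 * a) (a0 * b) (by rw [← mul_sub]; exact k.mul_left _)]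
    · rw [h1.per a b ((dvd_mul_right m _).trans k)]
    · rw [h2.per (star a) (star b) (by
        rw [← star_sub]
        exact tl3_star.1 ((dvd_mul_left _ m).trans k))]
  · have s1 := tl3g_sum hm hR h1.per h1.zero (F := fun a => iw x a) fun a b k => by
      simp only [iw_pd x a b k]
    have s2 := tl3g_sum hm hR h1.per h1.zero (F := c) fun a b k => by simp only [c, tl3_dvd k]
    rw [show (fun a => c a * ψ a) = cut r.π ψ from funext fun a => by
      simp only [c, cut, ite_mul, zero_mul, one_mul], hz] at s2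
    have s3 : (∑ y ∈ R, Lq (tl3g r.π y ψ) * Lq (h (a0 * y))) -
        Lq (cut (star r.π) ψ') * Lq (fun a => ψ a * iw x a) =
        ∑ y ∈ R, Lq (tl3g r.π y ψ) * Lq (e y) + Lq (h a0) * ∑ y ∈ R, c y * Lq (tl3g r.π y ψ) := by
      simp only [mul_comm (ψ _)]
      rw [← s1, mul_sum, mul_sum, ← sum_sub_distrib, ← sum_add_distrib]
      refine sum_congr rfl fun y _ => ?_
      rw [hq]
      ring
    rw [s3, s2, mul_zero, add_zero]
    refine w3.V.map_sum_le fun y _ => ?_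
    rw [map_mul, mul_assoc]
    refine mul_le_mul' ((hK _ r.red _ (tl3g_pd y h1.per) (tl3g_zero _ y h1.zero) 1
      fun a => ?_).trans_eq (mul_one K)) (hK _ o2 _ (ep y) (e0 y) _ (eb y))
    rw [tl3g]
    split_ifs
    · exact h1.le a
    · simp

theorem Big.of {φ : O → O} {f g : ∀ (u : ℕ) (r : TP), Ix r u → Qbar}
    (h : Big φ f) {K κ : ℝ≥0} (hκ : 0 < κ) {v1 : ℕ} (k : ∀ u ≥ v1, ∀ (r : TP) (x : Ix r u),
      AdmR φ r u → ∃ c, κ ≤ w3.V c ∧ w3.V (g u r x - c * f u r x) ≤ K * w3.V (3 ^ u)) :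
    Big φ g := by
  obtain ⟨δ, hδ, H⟩ := h
  obtain ⟨v0, hv⟩ := NNReal.exists_pow_lt_of_lt_one (a := κ * δ / (K + 1)) (b := w3.V 3)
    (by positivity) V_three_lt
  refine ⟨κ * δ, mul_pos hκ hδ, fun v => ?_⟩
  obtain ⟨u, hu, r, x, ha, hf⟩ := H (v + v0 + v1)
  obtain ⟨c, c1, c2⟩ := k u (by omega) r x ha
  have k1 : κ * δ ≤ w3.V (c * f u r x) := by
    rw [map_mul]
    exact mul_le_mul' c1 hf
  refine ⟨u, by omega, r, x, ha, k1.trans_eq (w3.V.map_eq_of_sub_lt ?_).symm⟩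
  rw [lt_div_iff₀ (by positivity), mul_comm] at hv
  rw [map_pow] at c2
  exact (c2.trans_lt ((mul_le_mul' le_self_add (pow_le_pow_of_le_one zero_le
    V_three_lt.le (by omega))).trans_lt hv)).trans_le k1

theorem tl4_iff {δ a b : O} (e : δ ∣ a - b) : δ ∣ a ↔ δ ∣ b :=
  ⟨fun k => by simpa using dvd_sub k e, fun k => by simpa using dvd_add e k⟩

theorem tl4_cut {n δ : O} {g : O → Qbar} (hn : n ≠ 0) (hg : Pd n g) (g0 : g 0 = 0) (hδ : δ ≠ 0) :
    Lq (cut δ g) = Lq g - Lq (fun a => g (δ * a)) / io δ := by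
  have p1 : Pd (n * δ) fun a => if δ ∣ a then g a else 0 := fun a b e => by
    simp only [tl4_iff ((Dvd.intro_left _ rfl).trans e), hg a b ((Dvd.intro _ rfl).trans e)]
  have e : cut δ g = fun a => g a + -1 * if δ ∣ a then g a else 0 := funext fun a => by
    rw [cut]
    split_ifs <;> ring
  rw [e, Lq_add (mul_ne_zero hn hδ) (hg.mono (Dvd.intro _ rfl)) g0
    (fun a b k => congr_arg (-1 * ·) (p1 a b k)) (by simp [g0]), Lq_mul (mul_ne_zero hn hδ) p1 (by simp [g0]),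
    Lq_div hn hg g0 hδ]
  ring

section
variable {m : O} {ψ : O → Qbar}

theorem Mu.mono (h : Mu m ψ) {n : O} (k : m ∣ n) : Mu n ψ := 
  ⟨h.per.mono k, h.mul, h.zero, h.le, h.eul⟩

theorem Mu.cut (h : Mu m ψ) {δ : O} (hδ : Prime δ) (k : δ ∣ m) : Mu m (cut δ ψ) := by
  refine ⟨fun a b e => ?_, fun a b => ?_, if_pos (dvd_zero _), fun a => ?_, fun a ha => ?_⟩
  · simp only [TL.cut, tl4_iff (k.trans e), h.per a b e]
  · simp only [TL.cut, hδ.dvd_mul, h.mul]
    by_cases h1 : δ ∣ a <;> by_cases h2 : δ ∣ b <;> simp [h1, h2]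
  · rw [TL.cut]
    split_ifs
    exacts [by simp, h.le a]
  · rw [TL.cut]
    split_ifs
    exacts [(EW.io_ne ha.ne_zero).symm, h.eul a ha]

theorem Lq_cut (hm : m ≠ 0) (h : Mu m ψ) {δ : O} (hδ : δ ≠ 0) :
    Lq (cut δ ψ) = (1 - ψ δ / io δ) * Lq ψ := by
  rw [tl4_cut hm h.per h.zero hδ]
  simp only [h.mul]
  rw [Lq_mul hm h.per h.zero]
  ring

theorem Lq_cut_iw (hm : m ≠ 0) (h : Mu m ψ) (hz : Lq ψ = 0) {K : ℝ≥0} (hK : Bd m K) {δ : O}
    (d0 : δ ≠ 0) {r : TP} {u : ℕ} (x : Ix r u) (hr : ¬ r.π ∣ δ) :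
    w3.V (Lq (fun a => cut δ ψ a * iw x a) - (1 - ψ δ / io δ) * Lq fun a => ψ a * iw x a) ≤
      K / w3.V (io δ) * w3.V (3 ^ u) := by
  have hn := mul_ne_zero hm r.prime.ne_zero
  have l1 : m ∣ m * r.π := Dvd.intro _ rfl
  have l2 : r.π ∣ m * r.π := Dvd.intro_left _ rfl
  have p1 : Pd (m * r.π) fun a => ψ a * iw x a := fun a b e => by
    simp only [h.per a b (l1.trans e), iw_pd x a b (l2.trans e)]
  have p2 : Pd (m * r.π) (cut r.π ψ) := ((h.mono l1).cut r.prime l2).per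
  have z1 : ψ 0 * (iw x 0 : Qbar) = 0 := by rw [h.zero, zero_mul]
  have z2 : cut r.π ψ 0 = 0 := if_pos (dvd_zero _)
  obtain ⟨E, hE⟩ : ∃ E : O → Qbar, ∀ a,
      E a = ψ a * iw x (δ * a) - ψ a * iw x a - iw x δ * cut r.π ψ a := ⟨_, fun _ => rfl⟩
  have p3 : Pd (m * r.π) E := fun a b e => by
    rw [hE, hE, p2 a b e, h.per a b (l1.trans e), iw_pd x a b (l2.trans e),
      iw_pd x (δ * a) (δ * b) (mul_sub δ a b ▸ (l2.trans e).mul_left δ)]
  have z3 : E 0 = 0 := by simp [hE, h.zero, z2]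
  have b3 := hK _ r.red E p3 z3 (w3.V (3 ^ u)) fun a => by
    rw [hE, cut]
    split_ifs with k
    · simp [iw, k, k.mul_left δ]
    · obtain ⟨e, he⟩ := iw_mul x hr k
      have he' : (iw x (δ * a) : Qbar) = iw x δ + iw x a + 3 ^ u * io e := by
        rw [map_intCast]
        exact_mod_cast congr_arg (Int.cast : ℤ → Qbar) he
      rw [show _ - _ - _ = 3 ^ u * (ψ a * io e) by rw [he']; ring, map_mul, map_mul]
      exact mul_le_of_le_one_right' (mul_le_one' (h.le a) (EW.V_io_le _ _))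
  have e1 : (fun a => cut δ ψ a * iw x a) = cut δ fun a => ψ a * iw x a := funext fun a => by
    simp only [cut, ite_mul, zero_mul]
  have e2 : (fun a => ψ (δ * a) * iw x (δ * a)) =
      fun a => ψ δ * (ψ a * iw x a + (iw x δ * cut r.π ψ a + E a)) := funext fun a => by
    rw [hE, h.mul]
    ring
  have p4 : Pd (m * r.π) fun a => iw x δ * cut r.π ψ a := fun a b e => by simp only [p2 a b e]
  have p5 : Pd (m * r.π) fun a => iw x δ * cut r.π ψ a + E a := fun a b e => by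
    simp only [p2 a b e, p3 a b e]
  rw [e1, tl4_cut hn p1 z1 d0, e2, Lq_mul hn (fun a b e => by
      rw [p2 a b e, p3 a b e, h.per a b (l1.trans e), iw_pd x a b (l2.trans e)])
      (by simp [h.zero, z2, z3]), Lq_add hn p1 z1 p5 (by simp [z2, z3]),
    Lq_add hn p4 (by simp [z2]) p3 z3, Lq_mul hn p2 z2, Lq_cut hm h r.prime.ne_zero, hz,
    show _ - _ - _ = -(ψ δ / io δ * Lq E) by ring, Valuation.map_neg, map_mul, map_div₀,
    div_mul_eq_mul_div, div_mul_eq_mul_div]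
  exact div_le_div_of_nonneg_right ((mul_le_of_le_one_left' (h.le δ)).trans b3) zero_le

end

theorem nm_big {r : TP} {u : ℕ} (x : Ix r u) {δ : O} (d0 : δ ≠ 0) (hu : nm δ ≤ u) : ¬ r.π ∣ δ := by
  rintro ⟨c, rfl⟩
  have h1 : 1 < nm r.π := by
    have := mt g1_nm_one.1 r.prime.not_isUnit
    have := r.nm_mod
    omega
  have h2 := (Nat.le_of_dvd (Nat.sub_pos_of_lt h1) x.dvd).trans_lt'
    (Nat.lt_pow_self (n := u + 1) (by norm_num : 1 < 3))
  have h3 : nm c ≠ 0 := Int.natAbs_ne_zero.2 (EW.nm_pos (right_ne_zero_of_mul d0)).ne'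
  have := Nat.le_mul_of_pos_right (nm r.π) (Nat.pos_of_ne_zero h3)
  rw [g1_nm_mul] at hu
  omega

theorem cq_mul (ψ : O → Qbar) {p : O} (hp : Prime p) (n : O) : cq (p * n) ψ = cut p (cq n ψ) := by
  funext a
  simp only [cq, cut, IsCoprime.mul_right_iff, isCoprime_comm (x := a) (y := p),
    hp.irreducible.coprime_iff_not_dvd]
  by_cases h : p ∣ a <;> simp [h]

theorem eul_ne {m : O} {ψ : O → Qbar} (h : Mu m ψ) {δ : O} (hδ : Prime δ) :
    1 - ψ δ / io δ ≠ 0 := fun e => by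
  rw [sub_eq_zero, eq_div_iff (EW.io_ne hδ.ne_zero), one_mul] at e
  exact h.eul δ hδ e.symm

/-- Removing the Euler factors at the primes that divide `n`. -/
theorem cq_all {m : O} (hm : m ≠ 0) {ψ : O → Qbar} (h : Mu m ψ) {n : O} (hn : n ≠ 0) :
    Mu (m * n) (cq n ψ) ∧ (Lq (cq n ψ) = 0 ↔ Lq ψ = 0) ∧ ∀ φ : O → O, Lq ψ = 0 →
      (Big φ fun _ _ x => Lq fun a => ψ a * iw x a) →
        Big φ fun _ _ x => Lq fun a => cq n ψ a * iw x a := by
  induction n using UniqueFactorizationMonoid.induction_on_prime with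
  | h₁ => exact absurd rfl hn
  | h₂ u hu =>
    rw [show cq u ψ = ψ from funext fun a => if_pos
      (isCoprime_one_right.of_isCoprime_of_dvd_right hu.dvd)]
    exact ⟨h.mono (dvd_mul_right _ _), Iff.rfl, fun _ _ k => k⟩
  | h₃ a p a0 hp ih =>
    obtain ⟨i1, i2, i3⟩ := ih a0
    have n0 := mul_ne_zero hm a0
    rw [cq_mul ψ hp]
    refine ⟨(i1.mono (mul_dvd_mul_left m (dvd_mul_left a p))).cut hp
      ((dvd_mul_right p a).mul_left m), ?_, fun φ z k => ?_⟩
    · rw [Lq_cut n0 i1 hp.ne_zero, mul_eq_zero, or_iff_right (eul_ne i1 hp), i2]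
    · obtain ⟨K, -, hK⟩ := exists_bd n0
      exact (i3 φ z k).of (B2.b3a_pos w3 (eul_ne i1 hp)) (v1 := nm p) fun u hu r x _ =>
        ⟨_, le_rfl, Lq_cut_iw n0 i1 (i2.2 z) hK hp.ne_zero x (nm_big x hp.ne_zero hu)⟩

section
variable {m : O} {φ : O → O} (h : Hk m φ)
include h

theorem hk_one : φ 1 = 1 := by simpa [h.neg] using h.mul (-1) (-1)

theorem hk_unit {a : O} (ha : IsCoprime a m) : IsUnit (φ a) := by
  obtain ⟨s, t, e⟩ := ha
  refine .of_mul_eq_one (φ s) ?_
  rw [← h.mul, ← hk_one h]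
  exact h.per _ _ ⟨-t, by linear_combination e⟩

theorem hk_w {a : O} (ha : w ∣ a) : φ a = 0 := h.zero a fun k =>
  g1_w.not_isUnit (k.isUnit_of_dvd' ha (Dvd.dvd.trans ⟨-w, by decide⟩ h.three))

theorem mu_ch : Mu m (ch φ) := by
  refine ⟨fun a b e => ?_, fun a b => ?_, ?_, fun a => EW.V_io_le _ _, fun δ hδ e => ?_⟩
  · rw [ch, ch, h.per a b e]
  · rw [ch, h.mul, star_mul', map_mul, ch, ch]
  · rw [ch, hk_w h (dvd_zero _), star_zero, map_zero]
  · have k := EW.io_inj e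
    by_cases c : IsCoprime δ m
    · exact hδ.not_isUnit (k ▸ (hk_unit h c).star)
    · exact hδ.ne_zero (by rw [← k, h.zero δ c, star_zero])

end

end Pool.Agent.Lib.MP_696deb_nt.Y3.TL
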