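import Pool.Agent.Lib.MP_696deb_nt.Y3.TL3
import Pool.Agent.Lib.MP_696deb_nt.EV.C1

/-! The link with the elliptic units. -/

set_option autoImplicit false

open scoped Classical NNReal ComplexConjugate
open Finset

namespace Pool.Agent.Lib.MP_696deb_nt.Y3.TL

open EV

/-- A sum over all residues is six times the sum over the primary residues. -/
theorem tl5_six {n : O} {R : Finset O} (hR : IsRep n R) (k : 3 ∣ n) {t : O → Qbar}
    (hp : Pd n t) (t1 : ∀ a, t (om * a) = t a) (t2 : ∀ a, t (-1 * a) = t a)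
    (t0 : ∀ a : O, w ∣ a → t a = 0) : 6 * ∑ a ∈ R with Prim a, t a = ∑ a ∈ R, t a := by
  have t3 := fun u (hu : IsUnit u) => hR.sum_mul hR (F := fun a => if Prim a then t a else 0)
    (c := u) (by
      obtain ⟨u, rfl⟩ := hu
      exact ⟨↑u⁻¹, 0, by simp⟩) fun a γ => by
      have e : n ∣ a + n * γ - a := ⟨γ, add_sub_cancel_left _ _⟩
      exact if_congr ⟨prim_of_dvd k (dvd_sub_comm.1 e), prim_of_dvd k e⟩ (hp _ _ e) rfl
  have u1 : IsUnit (-1 : O) := isUnit_one.neg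
  have u2 := EW.isUnit_om
  rw [sum_filter, show ∀ x : Qbar, 6 * x = x + x + x + x + x + x from fun x => by ring]
  nth_rw 1 [← t3 _ u2, ← t3 _ (u2.mul u2), ← t3 _ u1, ← t3 _ (u1.mul u2),
    ← t3 _ (u1.mul (u2.mul u2))]
  simp only [← sum_add_distrib, mul_assoc, t1, t2]
  refine sum_congr rfl fun a _ => ?_
  by_cases e : w ∣ a
  · simp [t0 a e]
  rw [EW.w_dvd_iff, EW.red_zero] at e
  have q : ∀ x : O, om * x = ⟨-x.im, x.re - x.im⟩ := fun x => by
    ext <;> simp [CU.om, sub_eq_add_neg]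
  have q' : ∀ x : O, -1 * x = ⟨-x.re, -x.im⟩ := fun x => by rw [neg_one_mul]; rfl
  have h5 : a.re % 3 = 0 ∨ a.re % 3 = 1 ∨ a.re % 3 = 2 := by omega
  by_cases e0 : Prim a <;> simp only [e0, if_true, if_false] <;>
    simp only [q, q', CL.Prim] at e0 ⊢ <;> split_ifs <;> rcases h5 with _ | _ | _ <;>
    first | omega | simp only [add_zero, zero_add]

theorem hk_om {m : O} {φ : O → O} (h : Hk m φ) (a : O) : ch φ (om * a) * zeta 1 = ch φ a := by
  have p2 : φ om = om ^ 2 := mul_right_cancel₀ EW.isUnit_om.ne_zero (h.unit.trans (by decide))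
  rw [(mu_ch h).mul, ch, p2, show star (om ^ 2) = om by decide, EW.io_om]
  linear_combination ch φ a * H3.TA.zeta_cube

theorem hk_neg {m : O} {φ : O → O} (h : Hk m φ) (a : O) : ch φ (-1 * a) = -ch φ a := by
  rw [(mu_ch h).mul, ch, h.neg, star_neg, star_one, map_neg, map_one, neg_one_mul]

section
variable {r : TP} {u : ℕ} (x : Ix r u)

theorem ind_neg : x.ind (-1) = 0 := by
  have n1 := r.prime.not_dvd_one
  have n2 : ¬ r.π ∣ -1 := by rwa [dvd_neg]
  have e1 := x.mul 1 1 n1 n1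
  have e2 := x.mul (-1) (-1) n2 n2
  rw [one_mul] at e1
  rw [neg_mul_neg, one_mul, left_eq_add.1 e1, ← two_mul] at e2
  have k : IsUnit ((2 : ℕ) : ZMod (3 ^ u)) :=
    (ZMod.isUnit_iff_coprime 2 _).2 (Nat.Coprime.pow_right _ (by norm_num))
  exact k.mul_right_eq_zero.1 (by exact_mod_cast e2.symm)

theorem tl5_unit {c : O} (hc : IsUnit c) (h0 : x.ind c = 0) (a : O) : iw x (c * a) = iw x a := by
  have k : ¬ r.π ∣ c := fun e => r.prime.not_isUnit (isUnit_of_dvd_unit e hc)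
  by_cases h : r.π ∣ a
  · rw [iw, iw, if_pos h, if_pos (h.mul_left _)]
  · rw [iw, iw, if_neg h, if_neg fun e => (r.prime.dvd_or_dvd e).elim k h, x.mul _ _ k h, h0,
      zero_add]

variable {φ : O → O} {m : O}

theorem tl5_pd (h : Mu m (ch φ)) (c : O) : Pd (m * r.π) fun a => ch φ a * iw x (c * a) :=
  fun a b e => by
    simp only [h.per a b ((dvd_mul_right _ _).trans e), iw_pd x (c * a) (c * b)
      (mul_sub c a b ▸ ((dvd_mul_left _ _).trans e).mul_left c)]

/-- The derivative as a sum over all residues. -/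
theorem tl5_kur (hφ : Hk m φ) {b : O} (b0 : b ≠ 0) {R : Finset O} (hR : IsRep (m * r.π) R) :
    6 * kur φ m b x = ∑ a ∈ R, ch φ a * iw x a * dl b (tq a (m * r.π)) := by
  have h := mu_ch hφ
  have k := hφ.three
  have n0 := hR.ne
  have p := tl5_pd x h 1
  simp only [one_mul] at p
  rw [← tl5_six hR (k.mul_right _) (fun a a' e => by
      simp only [p a a' e, (tq_eq_iff n0).2 e]) (fun a => by
      rw [tl5_unit x EW.isUnit_om x.unit, ← EW.smul_tq _ _ n0, EW.dl_om b0, ← hk_om hφ a]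
      ring) (fun a => by
      rw [tl5_unit x isUnit_one.neg (ind_neg x), ← EW.smul_tq _ _ n0, neg_one_smul, EW.dl_neg,
        hk_neg hφ]
      ring) fun a e => by
      rw [ch, hk_w hφ e, star_zero, map_zero, zero_mul, zero_mul], kur]
  congr 1
  refine (sum_congr rfl fun P hP => by rw [co_spec n0 (Im_kill n0 hP), ch]).trans ((sum_Im n0
    (k.mul_right _) hR (fun a => ch φ a * ((x.ind a).val : Qbar) * dl b (tq a (m * r.π)))
      fun a a' e => by
        simp only [h.per a a' ((dvd_mul_right _ _).trans e),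
          x.per a a' ((dvd_mul_left _ _).trans e), (tq_eq_iff n0).2 e]).trans ?_)
  rw [← filter_filter, sum_filter]
  refine sum_congr rfl fun a _ => ?_
  by_cases e : r.π ∣ a
  · rw [iw, if_pos e, if_neg fun j => r.prime.not_isUnit (j.isUnit_of_dvd' e (dvd_mul_left _ _))]
    simp
  · rw [iw, if_neg e]
    refine ite_eq_left_iff.2 fun j => ?_
    rw [ch, hφ.zero a fun l => j (l.mul_right (r.prime.irreducible.coprime_iff_not_dvd.2 e).symm)]
    simp

/-- Changing the weight. -/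
theorem tl5_err (hm : m ≠ 0) (h : Mu m (ch φ)) (hz : Lq (ch φ) = 0) {K : ℝ≥0} (hK : Bd m K) {c : O}
    (hc : ¬ r.π ∣ c) : w3.V ((Lq fun a => ch φ a * iw x (c * a)) - Lq fun a => ch φ a * iw x a) ≤
      K * w3.V (3 ^ u) := by
  have n0 := mul_ne_zero hm r.prime.ne_zero
  have p1 := tl5_pd x h 1
  simp only [one_mul] at p1
  have p2 : Pd (m * r.π) (cut r.π (ch φ)) :=
    ((h.mono (dvd_mul_right _ _)).cut r.prime (dvd_mul_left _ _)).per
  have c0 : cut r.π (ch φ) 0 = 0 := if_pos (dvd_zero _)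
  obtain ⟨E, hE⟩ : ∃ E : O → Qbar, ∀ a, E a = ch φ a * iw x (c * a) -
    (ch φ a * iw x a + iw x c * cut r.π (ch φ) a) := ⟨_, fun _ => rfl⟩
  have p3 : Pd (m * r.π) E := fun a b e => by
    simp only [hE, tl5_pd x h c a b e, p1 a b e, p2 a b e]
  have E0 : E 0 = 0 := by simp [hE, h.zero, c0]
  have p4 : Pd (m * r.π) fun a => iw x c * cut r.π (ch φ) a := fun a b e => by
    simp only [p2 a b e]
  have e1 : (fun a => ch φ a * iw x (c * a)) =
      fun a => (ch φ a * iw x a + iw x c * cut r.π (ch φ) a) + E a := funext fun a => by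
    rw [hE, add_sub_cancel]
  rw [e1, Lq_add n0 (fun a b e => by simp only [p1 a b e, p2 a b e]) (by simp [h.zero, c0]) p3 E0,
    Lq_add n0 p1 (by simp [h.zero]) p4 (by simp [c0]), Lq_mul n0 p2 c0,
    Lq_cut hm h r.prime.ne_zero, hz, mul_zero, mul_zero, add_zero, add_sub_cancel_left]
  refine hK _ r.red E p3 E0 _ fun a => ?_
  by_cases e : r.π ∣ a
  · simp [hE, iw, cut, e, e.mul_left c]
  · obtain ⟨j, hj⟩ := iw_mul x hc e
    have k : (iw x (c * a) : Qbar) = iw x c + iw x a + 3 ^ u * j := by exact_mod_cast hj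
    rw [hE, k, cut, if_neg e, show ch φ a * (iw x c + iw x a + 3 ^ u * j) -
      (ch φ a * iw x a + iw x c * ch φ a) = ch φ a * j * 3 ^ u by ring, map_mul, map_mul]
    exact mul_le_of_le_one_left' (mul_le_one' (h.le a) (w3.V_int_le j))

end

theorem kur_Lq {φ : O → O} {m b : O} (hφ : Hk m φ) (hz : Lq (ch φ) = 0) (hb : Prime b)
    (hm : ¬ b ∣ m) : ∃ K κ : ℝ≥0, 0 < κ ∧ ∀ u ≥ nm b, ∀ (r : TP) (x : Ix r u),
      ∃ c, κ ≤ w3.V c ∧ w3.V ((Lq fun a => ch φ a * iw x a) - c * kur φ m b x) ≤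
        K * w3.V (3 ^ u) := by
  have m0 := hφ.ne
  have h := mu_ch hφ
  have m3 : IsCoprime b m := hb.irreducible.coprime_iff_not_dvd.2 hm
  have b0 := hb.ne_zero
  have b1 : b * star b = nm b := by rw [CL.mul_star_self, ← nm_cast, Int.cast_natCast]
  have b3 : w3.V (ch φ b) = 1 := g1_unit (hk_unit hφ m3).star
  obtain ⟨Δ, hΔ⟩ : ∃ Δ : O, Δ = b - star (φ b) * nm b := ⟨_, rfl⟩
  have d0 : io Δ ≠ 0 := EW.io_ne fun k => hb.not_isUnit (isUnit_star.1
    (IsUnit.of_mul_eq_one_right (star (φ b)) (mul_left_cancel₀ b0 (by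
      rw [← b1] at hΔ
      linear_combination hΔ - k))))
  have d1 : io Δ = io b - ch φ b * nm b := by rw [hΔ, map_sub, map_mul, map_natCast, ch]
  have d2 := (Valuation.pos_iff w3.V).2 d0
  obtain ⟨K, -, hK⟩ := exists_bd m0
  refine ⟨K / w3.V (io Δ), w3.V 6, (Valuation.pos_iff _).2 (by norm_num), fun u hu r x => ?_⟩
  have n0 := mul_ne_zero m0 r.prime.ne_zero
  have n1 := EW.io_ne n0
  have r1 := nm_big x b0 hu
  have r2 : IsCoprime b (m * r.π) :=
    m3.mul_right (r.prime.irreducible.coprime_iff_not_dvd.2 r1).symm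
  obtain ⟨c, s, hc⟩ := id r2
  have r3 : ¬ r.π ∣ c := fun k => r.prime.not_dvd_one
    (hc ▸ dvd_add (k.mul_right _) ((dvd_mul_left _ _).mul_left _))
  obtain ⟨R, hR, -⟩ := exists_rep n0
  have p1 := tl5_pd x h 1
  simp only [one_mul] at p1
  have s1 := (eq_div_iff n1).1 (Lq_rep hR p1 (by simp [h.zero]))
  have s2 := (eq_div_iff n1).1 (Lq_rep hR (tl5_pd x h c) (by simp [h.zero]))
  rw [← hR.sum_mul hR r2 fun a γ => by
    have e : m * r.π ∣ a + m * r.π * γ - a := ⟨γ, add_sub_cancel_left _ _⟩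
    simp only [tl5_pd x h c _ _ e, (tq_eq_iff n0).2 e]] at s2
  have s3 : ch φ b * (6 * kur φ m b x) =
      io b * ((Lq fun a => ch φ a * iw x (c * a)) * io (m * r.π)) -
        ch φ b * nm b * ((Lq fun a => ch φ a * iw x a) * io (m * r.π)) := by
    rw [tl5_kur x hφ b0 hR, s1, s2, mul_sum, mul_sum, mul_sum, ← sum_sub_distrib]
    refine sum_congr rfl fun a _ => ?_
    rw [iw_pd x (c * (b * a)) a ⟨-(s * m * a), by linear_combination a * hc⟩, h.mul]
    by_cases k : r.π ∣ a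
    · simp [iw, k]
    · rw [dl_Zt n0 b0 (m_tq n0 a) (by
        rw [EW.smul_tq _ _ n0, ne_eq, EW.tq_eq_zero n0]
        exact fun j => (r.prime.dvd_or_dvd ((dvd_mul_left _ _).trans j)).elim r1 k),
        EW.smul_tq _ _ n0]
      ring
  refine ⟨6 * ch φ b / (io Δ * io (m * r.π)), ?_, ?_⟩
  · rw [map_div₀, map_mul, b3, mul_one, le_div_iff₀ ((Valuation.pos_iff _).2 (mul_ne_zero d0 n1)),
      ← map_mul io]
    exact mul_le_of_le_one_right' (EW.V_io_le _ _)
  · rw [show (Lq fun a => ch φ a * iw x a) - 6 * ch φ b / (io Δ * io (m * r.π)) * kur φ m b x =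
      -(io b * ((Lq fun a => ch φ a * iw x (c * a)) - Lq fun a => ch φ a * iw x a) / io Δ) by
        field_simp
        rw [d1]
        linear_combination -s3, Valuation.map_neg, map_div₀, map_mul, div_mul_eq_mul_div]
    exact div_le_div_of_nonneg_right ((mul_le_of_le_one_left' (EW.V_io_le _ _)).trans
      (tl5_err x m0 h hz hK r3)) zero_le

theorem Kur.big {φ : O → O} (h : Kur φ) (hz : Lq (ch φ) = 0) :
    Big φ fun _ _ x => Lq fun a => ch φ a * iw x a := by
  obtain ⟨m, b, a, h1, h2, h3, h4⟩ := h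
  obtain ⟨K, κ, k0, k1⟩ := kur_Lq h1 hz h2 h3
  exact Big.of (f := fun _ _ x => kur φ m b x)
    ⟨_, B2.b3a_pos w3 (pow_ne_zero a three_ne_zero), h4⟩ k0 fun u hu r x _ => k1 u hu r x

theorem hz_key {m0 m b d : O} {φ : O → O} (h : Hk m0 φ) (per : Pd m φ) (h3 : 3 ∣ m) {R : Finset O}
    (hR : IsRep m R) (hb : IsCoprime b m) (hd : IsCoprime d m) :
    ch φ (b * d) * (6 * ∑ a ∈ R with Prim a, io (star (φ a)) * dl b (a • tq d m)) =
      (io b - ch φ b * nm b) * (Lq (ch φ) * io m) := by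
  have m0 := hR.ne
  have mu := mu_ch h
  have pd : Pd m (ch φ) := fun a b e => by rw [ch, ch, per a b e]
  have b0 : b ≠ 0 := fun e => g1_w.not_isUnit (hb.isUnit_of_dvd' (e ▸ dvd_zero _)
    (Dvd.dvd.trans ⟨-w, by decide⟩ h3))
  have s1 := (eq_div_iff (EW.io_ne m0)).1 (Lq_rep hR pd mu.zero)
  have s2 : ∀ c, IsCoprime c m → ∑ a ∈ R, ch φ (c * a) * Zt (tq (c * a) m) =
      Lq (ch φ) * io m := fun c hc => by
    rw [s1]
    refine hR.sum_mul hR hc (F := fun a => ch φ a * Zt (tq a m)) fun a γ => ?_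
    have e : m ∣ a + m * γ - a := ⟨γ, add_sub_cancel_left _ _⟩
    simp only [pd _ _ e, (tq_eq_iff m0).2 e]
  change _ * (6 * ∑ a ∈ R with Prim a, ch φ a * dl b (a • tq d m)) = _
  rw [tl5_six hR h3 (t := fun a => ch φ a * dl b (a • tq d m)) (fun a a' e => by
      simp only [pd a a' e, EW.smul_tq _ _ m0, (tq_eq_iff m0).2 (sub_mul a a' d ▸ e.mul_right d)])
    (fun a => by
      rw [mul_smul, EW.dl_om b0, ← hk_om h a]
      ring) (fun a => by
      rw [mul_smul, neg_one_smul, EW.dl_neg, hk_neg h]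
      ring) fun a e => by rw [ch, hk_w h e, star_zero, map_zero, zero_mul], sub_mul]
  nth_rw 1 [← s2 _ (hb.mul_left hd), ← s2 _ hd]
  rw [mul_sum, mul_sum, mul_sum, ← sum_sub_distrib]
  refine sum_congr rfl fun a _ => ?_
  by_cases e : m ∣ a
  · simp only [mu.mul, pd a 0 (by rwa [sub_zero]), mu.zero, mul_zero, zero_mul, sub_zero]
  rw [EW.smul_tq _ _ m0, dl_Zt m0 b0 (m_tq m0 _) (by
    rw [EW.smul_tq _ _ m0, ne_eq, EW.tq_eq_zero m0]
    exact fun k => e (hd.symm.dvd_of_dvd_mul_right (hb.symm.dvd_of_dvd_mul_left k))),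
    EW.smul_tq _ _ m0, mul_comm a d, ← mul_assoc b d a]
  simp only [mu.mul]
  ring

theorem hz_iff {m0 : O} {φ : O → O} (h : Hk m0 φ) {M : ℕ} (hM : 0 < M) (h3 : 3 ∣ M)
    (per : Per M φ) : Hz M φ ↔ Lq (ch φ) = 0 := by
  have pd : ∀ m : ℕ, M ∣ m → Pd (m : O) φ := fun m k a b e => by
    obtain ⟨γ, e⟩ := (Nat.cast_dvd_cast (α := O) k).trans e
    rw [← per b γ, ← e, add_sub_cancel]
  have t3 : ∀ m : ℕ, M ∣ m → (3 : O) ∣ m := fun m k => by
    exact_mod_cast Nat.cast_dvd_cast (α := O) (h3.trans k)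
  have c1 : ch φ 1 = 1 := by rw [ch, hk_one h, star_one, map_one]
  refine ⟨fun k => ?_, fun k m hm l b d R hb hd hR => ?_⟩
  · have m0 : (M : O) ≠ 0 := Nat.cast_ne_zero.2 hM.ne'
    obtain ⟨R, hR, -⟩ := exists_rep m0
    have c : IsCoprime ((1 + M : ℕ) : O) M := ⟨1, -1, by push_cast; ring⟩
    have e := hz_key h (pd M dvd_rfl) (t3 M dvd_rfl) hR c isCoprime_one_left
    rw [k M hM dvd_rfl _ 1 R c isCoprime_one_left hR, mul_zero, mul_zero, ch,
      pd M dvd_rfl _ 1 ⟨1, by push_cast; ring⟩, hk_one h, star_one, map_one, one_mul, g1_nm_nat,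
      map_natCast, eq_comm, mul_eq_zero, mul_eq_zero, sub_eq_zero, Nat.cast_inj] at e
    exact (e.resolve_left (by nlinarith)).resolve_right (EW.io_ne m0)
  · have e := hz_key h (pd m l) (t3 m l) hR hb hd
    rw [k, zero_mul, mul_zero, mul_eq_zero, mul_eq_zero] at e
    refine (e.resolve_left fun z => ?_).resolve_left (by norm_num)
    obtain ⟨s, t, j⟩ := hb.mul_left hd
    have := (mu_ch h).mul s (b * d)
    rw [z, mul_zero, ch, pd m l _ 1 ⟨-t, by linear_combination j⟩, ← ch, c1] at this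
    exact one_ne_zero this

end Pool.Agent.Lib.MP_696deb_nt.Y3.TL
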