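import Pool.Agent.Lib.MP_696deb_nt.Y3.TL5
import Pool.Agent.Lib.MP_696deb_nt.Y3.TL8a
import Pool.Agent.Lib.MP_696deb_nt.Y3.D4
import Pool.Agent.Lib.MP_696deb_nt.Y3.P0

/-! The central value of the tame series of the analytic side has bounded valuation. -/

set_option autoImplicit false

open scoped Classical NNReal ComplexConjugate
open Finset

namespace Pool.Agent.Lib.MP_696deb_nt.Y3.TL

open EV

theorem t7_eul {z ζ y : O} (h : (3 : O) ^ 2 ∣ z - 1) (hy : (1 - ζ) * y = 6) :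
    w3.V 3 ≤ w3.V (1 - io ζ / io z) := by
  obtain ⟨c, e⟩ := h
  have z1 : w3.V (io z) = 1 := V_w3_odd (by
    rw [show z = 1 + 3 * (3 * c) by linear_combination e]
    exact tl2a_red _)
  have z0 : io z ≠ 0 := fun e => by simp [e] at z1
  have k1 : (z - ζ) * -y = 3 * (1 + 3 * (-1 - c * y)) := by linear_combination -hy - y * e
  have k2 := congrArg (fun a => w3.V (io a)) k1
  simp only [map_mul, V_w3_odd (tl2a_red _), mul_one, map_ofNat] at k2
  rw [one_sub_div z0, map_div₀, z1, div_one, ← map_sub, ← k2]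
  exact mul_le_of_le_one_right zero_le (EW.V_io_le _ _)

theorem t7_x7 {z : O} (h : IsCoprime z 7) (k : ¬ (7 : ℤ) ∣ z.im) : ∃ y, (1 - x7 z) * y = 6 := by
  have e : r7 z ≠ r7 (star z) := fun e => k (by
    rw [r7, r7, QuadraticAlgebra.re_star, QuadraticAlgebra.im_star] at e
    push_cast at e
    exact (ZMod.intCast_zmod_eq_zero_iff_dvd _ 7).1 (by
      linear_combination 3 * e - 2 * z.im * (by decide : (7 : ZMod 7) = 0)))
  obtain ⟨y, -, hy⟩ := (by decide : ∀ s t : ZMod 7, s ≠ 0 → t ≠ 0 → s ≠ t →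
    ∃ y ∈ ({3, ⟨4, 2⟩, ⟨2, -2⟩, ⟨0, -6⟩, ⟨6, 6⟩} : Finset O), (1 - ep s * star (ep t)) * y = 6) _ _
      (r7_ne h).1 (r7_ne h).2 e
  exact ⟨y, hy⟩

theorem adm_one {m : O} {φ : O → O} (h : Hk m φ) {r : TP} {u : ℕ} (a : AdmR φ r u) (hu : 0 < u) :
    φ r.π = 1 ∧ (3 : O) ^ u ∣ r.π - 1 := by
  have k := (dvd_pow_self (3 : O) hu.ne').trans a.one
  have c : IsCoprime r.π m := by_contra fun c => absurd (g1_prim.2 (h.zero _ c ▸ k)) (by
    rw [zero_mul, CL.Prim]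
    decide)
  have e1 : φ r.π = 1 := prim_assoc (g1_prim.2 (by
      have := k.sub ((g1_prim.1 r.prim).mul_left (φ r.π))
      rwa [show φ r.π * r.π - 1 - φ r.π * (r.π - 1) = φ r.π - 1 by ring] at this))
    (g1_prim.2 (by simp)) (associated_one_iff_isUnit.2 (hk_unit h c))
  exact ⟨e1, by simpa only [e1, one_mul] using a.one⟩

theorem RS_star (ψ : O → ℂ) (b : ℕ → ℂ) : RS (fun y => ψ (star y)) b = RS ψ b := by
  have : ∀ k m : ℕ, ∑ y ∈ CL.reps m, ψ (star (k * y)) = ∑ y ∈ CL.reps m, ψ (k * y) := fun k m =>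
    sum_nbij' star star (fun y h => by rwa [mem_reps, nm_star, ← mem_reps]) (fun y h => by
      rwa [mem_reps, nm_star, ← mem_reps]) (fun y _ => star_star y) (fun y _ => star_star y)
      fun y _ => by rw [star_mul', star_natCast]
  funext s
  simp only [RS, this]

theorem small {K δ : ℝ≥0} (h : 0 < δ) : ∃ v0, ∀ u ≥ v0, K * w3.V (3 ^ u) < δ := by
  have := (NNReal.tendsto_pow_atTop_nhds_zero_of_lt_one V_three_lt).const_mul K
  rw [mul_zero] at this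
  simpa only [map_pow] using Filter.eventually_atTop.1 (this.eventually (gt_mem_nhds h))

/-- The tame double series. -/
noncomputable def TD (N : O) (φ φ' : O → O) {r : TP} {u : ℕ} (x : Ix r u) : ℂ → ℂ :=
  DD (fun a => (iw x a : ℂ)) (fun a => jc (cq N (ch φ) a)) fun a => jc (cq N (ch φ') (star a))

section
variable (d : Dat) {m m' : O} {φ φ' : O → O} (hφ : Hk m φ) (hφ' : Hk m' φ')
  (e : ∀ a, IsCoprime a (d.N : O) → d.φ a = φ a)
  (e' : ∀ a, IsCoprime a (d.N : O) → d.cmp.φ a = φ' a)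
include hφ hφ'

theorem t7_mu : m * m' * d.N ≠ 0 ∧ Mu (m * m' * d.N) (cq d.N (ch φ)) ∧
    Mu (m * m' * d.N) (cq d.N (ch φ')) := by
  have n0 : (d.N : O) ≠ 0 := Nat.cast_ne_zero.2 d.pos.ne'
  have m0 := mul_ne_zero hφ.ne hφ'.ne
  exact ⟨mul_ne_zero m0 n0, (cq_all m0 ((mu_ch hφ).mono (dvd_mul_right _ _)) n0).1,
    (cq_all m0 ((mu_ch hφ').mono (dvd_mul_left _ _)) n0).1⟩

theorem TD_ent {r : TP} {u : ℕ} (x : Ix r u) : Ent (TD d.N φ φ' x) := by
  obtain ⟨hm, a1, a2⟩ := t7_mu d hφ hφ'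
  obtain ⟨R, hR, -⟩ := exists_rep r.prime.ne_zero
  exact (DD_val hR (mul_ne_zero hm (star_ne_zero.2 hm)) (fun a b e => by rw [iw_pd x _ _ e])
    (fun a b k => by rw [a1.per a b ((dvd_mul_right _ _).trans k)]) fun a b k => by
      rw [a2.per (star a) (star b) (by
        rw [← star_sub]
        exact tl3_star.1 ((dvd_mul_left _ _).trans k))]).1

include e e'

omit hφ in
theorem t7_val {a : O} (h : IsCoprime a (d.N : O)) :
    cq d.N (ch φ') (star a) = io (star (φ a) * x7 a) := by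
  rw [cq, if_pos (cop_star h), ch, hφ'.conj, star_star, ← e' a h, ← e a h]
  rfl

theorem t8_fac (a b : O) : CL.toC (d.kap (star (a * b))) * U0 (a * star b) =
    jc (cq d.N (ch φ) a) * conj (CL.toC a) * (jc (cq d.N (ch φ') (star b)) * CL.toC b) := by
  have z : ∀ a, ¬ IsCoprime a (d.N : O) → ¬ IsCoprime (star a) (d.N : O) := fun a h k =>
    h (star_star a ▸ cop_star k)
  rw [star_mul', d.kap_mul]
  by_cases ha : IsCoprime a (d.N : O)
  swap
  · simp [cq, ha, d.kap_zero (z a ha)]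
  by_cases hb : IsCoprime b (d.N : O)
  swap
  · simp [cq, z b hb, d.kap_zero (z b hb)]
  rw [t7_val d hφ' e e' hb, cq, if_pos ha, ch, EW.jc_io, EW.jc_io, d.kap_unit (cop_star ha),
    d.kap_unit (cop_star hb), d.conj, d.conj, e a ha, e b hb, star_star, star_star, U0,
    ← CL.toC_star, ← CL.toC_star, ← map_mul, ← map_mul, ← map_mul, ← map_mul, psi, r7_mul, ep_mul, x7]
  simp only [star_mul', star_star]
  congr 1
  linear_combination star (φ a) * star (φ b) * ep (r7 b) * star (ep (r7 (star b))) * star a * b *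
    (ep_unit _ (d.r7_ne ha).1).1

variable (hK : Kur φ) (hz : Lq (ch φ) = 0) (nz : Lq (ch φ') ≠ 0)
include hK hz nz

theorem tl_main : ∃ δ : ℝ≥0, 0 < δ ∧ ∀ v, ∃ u ≥ v, ∃ (r : TP) (x : Ix r u), AdmR φ r u ∧
    ∃ B : Qbar, val1 (TD d.N φ φ' x) = Om ^ 2 * jc B ∧ δ ≤ w3.V B := by
  have n0 : (d.N : O) ≠ 0 := Nat.cast_ne_zero.2 d.pos.ne'
  obtain ⟨hm, a1, a2⟩ := t7_mu d hφ hφ'
  obtain ⟨-, b1, b2⟩ := cq_all hφ.ne (mu_ch hφ) n0
  have y2 := mt (cq_all hφ'.ne (mu_ch hφ') n0).2.1.1 nz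
  obtain ⟨δ, d0, B3⟩ := b2 φ hz (Kur.big hK hz)
  obtain ⟨K, -, hK⟩ := exists_bd hm
  have p0 : 0 < w3.V 3 * w3.V (Lq (cq d.N (ch φ'))) * δ :=
    mul_pos (mul_pos (B2.b3a_pos w3 three_ne_zero) (B2.b3a_pos w3 y2)) d0
  obtain ⟨v0, hv0⟩ := small (K := K * K) p0
  refine ⟨_, p0, fun v => ?_⟩
  obtain ⟨u, hu, r, x, h, k⟩ := B3 (v + v0 + nm d.N + 2)
  obtain ⟨r0, r1⟩ := adm_one hφ h (by omega)
  have c := (r.prime.irreducible.coprime_iff_not_dvd.2 (nm_big x n0 (by omega)))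
  obtain ⟨y, hy⟩ := t7_x7 (c.of_isCoprime_of_dvd_right d.seven_dvd) h.seven
  obtain ⟨B, k1, k2⟩ := DD_iw hm hK a1 a2 x (by
    rw [Lq_cut hm a1 r.prime.ne_zero, b1.2 hz, mul_zero]) r.prime.not_dvd_one
  have k3 : w3.V 3 * w3.V (Lq (cq d.N (ch φ'))) * δ ≤ w3.V (Lq (cut (star r.π) (cq d.N (ch φ'))) *
      Lq fun a => cq d.N (ch φ) a * iw x a) := by
    rw [map_mul, Lq_cut hm a2 (star_ne_zero.2 r.prime.ne_zero), map_mul, t7_val d hφ' e e' c, r0,
      star_one, one_mul]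
    refine mul_le_mul' (mul_le_mul' (t7_eul ?_ hy) le_rfl) k
    simpa [starRingEnd_apply] using
      map_dvd (starRingEnd O) ((pow_dvd_pow 3 (by omega : 2 ≤ u)).trans r1)
  refine ⟨u, by omega, r, x, h, B, by simpa only [TD, one_mul] using k1, ?_⟩
  rw [w3.V.map_eq_of_sub_lt ((k2.trans_lt (hv0 u (by omega))).trans_le k3)]
  exact k3

/-- The end statement on the side of the series. -/
theorem tl_lam {b : ℕ → ℂ} {β : ℂ} (hβ : β ≠ 0) (hb : ∀ m, b m = β * CL.toC (aG m)) {C : ℂ}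
    (hC : C ≠ 0) : ∃ δ : ℝ≥0, 0 < δ ∧ ∀ v, ∃ u ≥ v, ∃ (r : TP) (x : Ix r u), nm r.π = r.v.p ∧
      φ r.π = 1 ∧ (3 : O) ^ u ∣ r.π - 1 ∧ ∀ Λ : ℂ → ℂ, Differentiable ℂ Λ →
        (∀ s : ℂ, 5 < s.re → Λ s = RS (fun y => d.ps y * iw x (star y)) b s) →
        ∀ X : Qbar, jc X = C * Λ 0 → δ ≤ w3.V X := by
  obtain ⟨δ, d0, h⟩ := tl_main d hφ hφ' e e' hK hz nz
  obtain ⟨c, c0, hc⟩ := d.Psi_eq
  have t0 := th_ne
  have n0 : C * (conj β / 6 * c) * Om ^ 2 ≠ 0 := mul_ne_zero (mul_ne_zero hC (mul_ne_zero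
    (div_ne_zero ((map_ne_zero _).2 hβ) (by norm_num)) (Nat.cast_ne_zero.2 c0.ne')))
    (pow_ne_zero 2 EW.Om_ne)
  obtain ⟨κ, k0, k1⟩ : ∃ κ : Qbar, κ ≠ 0 ∧ ∀ y, jc y = C * (conj β / 6 * c) * Om ^ 2 → y = κ := by
    by_cases e : ∃ y, jc y = C * (conj β / 6 * c) * Om ^ 2
    · obtain ⟨y, e⟩ := e
      exact ⟨y, fun k => n0 (by rw [← e, k, map_zero]), fun y' e' => jc.injective (e'.trans e.symm)⟩
    · exact ⟨1, one_ne_zero, fun y k => (e ⟨y, k⟩).elim⟩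
  refine ⟨w3.V κ * δ, mul_pos (B2.b3a_pos w3 k0) d0, fun v => ?_⟩
  obtain ⟨u, hu, r, x, a1, B, b1, b2⟩ := h (v + 1)
  obtain ⟨r0, r1⟩ := adm_one hφ a1 (by omega)
  refine ⟨u, by omega, r, x, a1.split, r0, r1, fun Λ hΛ hs X k => ?_⟩
  have e0 : ∀ y, d.ps y = CL.toC CL.th * c * CL.toC (d.kap y) := fun y => by
    rw [Dat.ps, hc, map_mul, map_natCast, mul_assoc]
  obtain ⟨K, -, hK⟩ := (show Pd (d.N * r.π) fun a => d.ps (star a) * iw x a from fun a b e => by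
    have k := tl3_star.1 (star_natCast (R := O) d.N ▸ (dvd_mul_right _ _).trans e)
    rw [star_sub] at k
    simp only [e0, d.kap_congr k, iw_pd x a b ((dvd_mul_left _ _).trans e)]).bd
      (mul_ne_zero (Nat.cast_ne_zero.2 d.pos.ne') r.prime.ne_zero)
  have v1 := val1_mul (TD_ent d hφ hφ' x) (Λ := fun s => Λ (s - 1)) (hΛ.comp (by fun_prop))
    (differentiableOn_const (conj β / 6 * c)) (σ := 6) fun s h => by
      have s1 : 5 < (s - 1).re := by rw [Complex.sub_re, Complex.one_re]; linarith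
      rw [hs _ s1, ← RS_star]
      simp only [star_star]
      rw [rs_one hK (fun a h => by
        rw [e0, d.kap_zero fun k => g1_w.not_isUnit (k.isUnit_of_dvd'
          (tl3_star.1 (Dvd.dvd.trans ⟨-1, by decide⟩ h))
          (Dvd.dvd.trans (⟨-w, by decide⟩ : w ∣ 3) d.d3_3)), map_zero, mul_zero, zero_mul]) hb
        (by linarith), sub_add_cancel, TD, DD, ← tsum_mul_left, ← tsum_mul_left]
      refine tsum_congr fun p => ?_
      rw [e0, mul_assoc (iw x _ : ℂ), ← t8_fac d hφ hφ' e e']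
      field_simp
  have b4 : B ≠ 0 := fun e => by simp [e, d0.ne'] at b2
  have b5 := k1 (X / B) (by
    simp only [sub_self] at v1
    rw [map_div₀, k, v1, b1, div_eq_iff ((map_ne_zero jc).2 b4)]
    ring)
  rw [(div_eq_iff b4).1 b5, map_mul]
  exact mul_le_mul' le_rfl b2

end

end Pool.Agent.Lib.MP_696deb_nt.Y3.TL
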