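import Pool.Agent.Lib.MP_696deb_nt.Y3.TLra

/-! Pairs of elements of equal norm. -/

set_option autoImplicit false

open scoped Classical NNReal ComplexConjugate
open Finset

namespace Pool.Agent.Lib.MP_696deb_nt.Y3.TL

open EV

theorem tlr_six (k : ℕ) : (-om : O) ^ (5 * k) * (-om) ^ k = 1 := by
  rw [← pow_add, show 5 * k + k = 6 * k by ring, pow_mul, show (-om : O) ^ 6 = 1 by decide, one_pow]

/-- Rotations of pairs with a primary second entry. -/
def tlrI (y : {y : O × O × Fin 6 // ¬ w ∣ y.1 ∧ Prim y.2.1}) : O × O :=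
  ((-om) ^ (5 * y.1.2.2 : ℕ) * y.1.1, (-om) ^ (y.1.2.2 : ℕ) * y.1.2.1)

theorem tlr_inj : Function.Injective tlrI := by
  rintro ⟨⟨a, b, j⟩, ha, hb⟩ ⟨⟨a', b', j'⟩, ha', hb'⟩ e
  obtain ⟨e1, e2⟩ := Prod.mk.inj e
  obtain rfl : b = b' := prim_assoc hb hb' ((associated_unit_mul_left b _
    (ra_isUnit.pow j)).symm.trans (e2 ▸ associated_unit_mul_left b' _ (ra_isUnit.pow j')))
  obtain rfl : j = j' := ra_inj _ _
    (mul_right_cancel₀ (EW.ne_of_red (EW.prim_red hb)) e2)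
  obtain rfl : a = a' := mul_left_cancel₀ (ra_isUnit.pow _).ne_zero e1
  rfl

theorem tlr_range {p : O × O} (h : ¬ w ∣ p.1 * p.2) : p ∈ Set.range tlrI := by
  obtain ⟨n, hn⟩ := exists_prim (ra_red fun e => h (e.mul_left p.1))
  obtain ⟨j, hj⟩ : ∃ j : Fin 6, (-om : O) ^ (j : ℕ) * (-om) ^ n = 1 :=
    ⟨⟨5 * n % 6, Nat.mod_lt _ (by norm_num)⟩, by
      rw [← pow_eq_pow_mod _ (by decide), tlr_six]⟩
  refine ⟨⟨((-om) ^ (j : ℕ) * p.1, (-om) ^ n * p.2, j), fun e => h (.mul_right ?_ _), hn⟩, ?_⟩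
  · exact (ra_isUnit.pow _).dvd_mul_left.1 e
  · rw [tlrI, ← mul_assoc, ← mul_assoc, tlr_six, hj, one_mul, one_mul]

theorem rp {V U : O → ℂ} {K : ℝ} (hV : ∀ a, ‖V a‖ ≤ K) (hU : ∀ a, ‖U a‖ ≤ K * ‖CL.toC a‖)
    (odd : ∀ a, w ∣ a → V a = 0) (inv : ∀ a, U (-om * a) = U a) {s : ℂ} (hs : 3 / 2 < s.re) :
    HasSum (fun x : ℕ × O => V (x.1 * x.2) * (∑ β ∈ CL.reps (nm x.2), U (x.1 * β)) /
      (nm (x.1 * x.2) : ℂ) ^ s)
      (∑' p : O × O, V (p.1 * p.2) * U (p.1 * star p.2) / (nm (p.1 * p.2) : ℂ) ^ s) := by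
  have K0 : 0 ≤ K := (norm_nonneg _).trans (hV 0)
  have inv' : ∀ k a, U ((-om) ^ k * a) = U a := fun k a => by
    induction k with
    | zero => rw [pow_zero, one_mul]
    | succ k ih => rw [pow_succ', mul_assoc, inv, ih]
  have h1 : Summable fun p : O × O =>
      V (p.1 * p.2) * U (p.1 * star p.2) / (nm (p.1 * p.2) : ℂ) ^ s := by
    refine .of_norm_bounded (DD_sum (W := V) (g := fun _ => K) (h := fun _ => 1) (K := max K 1)
      (fun a => le_max_of_le_left (hV a)) (fun _ => by simp [abs_of_nonneg K0])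
      (fun _ => by simp) hs) fun p => ?_
    have := hU (p.1 * star p.2)
    rw [map_mul, CL.toC_star, norm_mul, Complex.norm_conj] at this
    simp only [norm_div, norm_mul, Complex.norm_conj, Complex.norm_real, one_mul, mul_assoc,
      Real.norm_of_nonneg K0]
    gcongr
  obtain ⟨e, he⟩ := rp_bij
  have h2 := e.hasSum_iff.2 ((tlr_inj.hasSum_iff fun p hp => by
    rw [odd _ (by_contra fun k => hp (tlr_range k)), zero_mul, zero_div]).2 h1.hasSum)
  have h3 : HasSum (fun x : ℕ × O × O => if nm x.2.2 = nm x.2.1 then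
      V (x.1 * x.2.1) * U (x.1 * x.2.2) / (nm (x.1 * x.2.1) : ℂ) ^ s else 0) _ :=
    (Subtype.val_injective.hasSum_iff fun x hx => by
      split_ifs with k
      · rw [odd _ (by_contra fun d => hx ⟨⟨x, d, k⟩, rfl⟩), zero_mul, zero_div]
      · rfl).1 (h2.congr_fun fun x => by
        obtain ⟨e1, e2⟩ := he x
        simp only [Function.comp, tlrI, if_pos x.2.2, e1, e2, inv']
        rw [mul_mul_mul_comm, tlr_six, one_mul, star_mul', star_pow,
          show star (-om : O) = (-om) ^ 5 by decide, ← pow_mul, mul_mul_mul_comm, ← pow_add, inv'])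
  refine ((Equiv.prodAssoc ℕ O O).hasSum_iff.2 h3).prod_fiberwise fun x => ?_
  have m : ∀ β, β ∈ CL.reps (nm x.2) ↔ nm β = nm x.2 := fun β => mem_reps
  rw [mul_sum, sum_div, ← sum_congr rfl fun β h => if_pos ((m β).1 h)]
  exact hasSum_sum_of_ne_finset_zero fun β h => if_neg (mt (m β).2 h)

end Pool.Agent.Lib.MP_696deb_nt.Y3.TL
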