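import Pool.Agent.Lib.MP_696deb_nt.Y3.TLa

/-! A parametrisation of pairs of elements of equal norm. -/

set_option autoImplicit false

open scoped Classical NNReal ComplexConjugate
open Finset

namespace Pool.Agent.Lib.MP_696deb_nt.Y3.TL

open EV

theorem ra_isUnit : IsUnit (-om : O) := g1_nm_one.1 (by decide)

theorem ra_unit {u : O} (h : IsUnit u) : ∃ j : Fin 6, u = (-om) ^ (j : ℕ) := by
  obtain ⟨k, e⟩ := CL.nm_eq_one (EW.isUnit_iff.1 h)
  clear h
  rcases e with rfl | rfl <;> revert k <;> decide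

theorem ra_red {d : O} (k : ¬ w ∣ d) : CU.red d ≠ 0 := fun e => k (EW.w_dvd e)

theorem ra_cop {d : O} (h : Int.gcd d.re d.im = 1) (k : ¬ w ∣ d) : IsCoprime d (star d) := by
  refine isRelPrime_iff_isCoprime.1 fun g h1 h2 => ?_
  obtain ⟨u, v, e⟩ := Int.isCoprime_iff_gcd_eq_one.2 h
  have h3 : g ∣ w := by
    have e1 : w = u * (om * d - star om * star d) + (u + v) * (d - star d) := by
      ext <;> simp [CU.th, CU.om]
      · linear_combination -e
      · linear_combination -2 * e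
    rw [e1]
    exact ((dvd_sub (h1.mul_left _) (h2.mul_left _)).mul_left _).add ((dvd_sub h1 h2).mul_left _)
  obtain ⟨c, hc⟩ := h3
  rcases g1_w.irreducible.isUnit_or_isUnit hc with a | a
  · exact a
  · exact absurd ((dvd_of_eq hc).trans (a.mul_right_dvd.2 h1)) k

/-- The relation between the two kinds of parameters. -/
def RaR (x : ℕ × O × O) (y : O × O × Fin 6) : Prop :=
  ∃ d : O, y.2.1 = x.1 * d ∧ IsCoprime d (star d) ∧ x.2.1 = y.1 * d ∧
    x.2.2 = (-om) ^ (y.2.2 : ℕ) * (y.1 * star d)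

theorem ra_dvd {a b d : O} (h : IsCoprime d (star d)) (h1 : a ∣ b * d) (h2 : a ∣ b * star d) :
    a ∣ b := by
  obtain ⟨u, v, e⟩ := h
  have := (h1.mul_left u).add (h2.mul_left v)
  rwa [show u * (b * d) + v * (b * star d) = b by linear_combination b * e] at this

theorem ra_odd {a : O} (h : Prim a) : ¬ w ∣ a := fun e => EW.prim_red h (EW.w_dvd_iff.1 e)

theorem ra_star (n : ℕ) : star ((-om : O) ^ n) * (-om) ^ n = 1 := by
  rw [star_pow, ← mul_pow, show star (-om : O) * -om = 1 by decide, one_pow]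

theorem ra_ex {x : ℕ × O × O} (h1 : ¬ w ∣ x.1 * x.2.1) (h2 : nm x.2.2 = nm x.2.1) :
    ∃ y : O × O × Fin 6, (¬ w ∣ y.1 ∧ Prim y.2.1) ∧ RaR x y := by
  obtain ⟨k, α, β⟩ := x
  have h0 : α ≠ 0 := fun e => h1 (by simp [e])
  obtain ⟨d, d', g, hc, rfl, rfl⟩ := UniqueFactorizationMonoid.exists_reduced_factors α h0 β
  replace hc := isRelPrime_iff_isCoprime.1 hc
  have g0 : nm g ≠ 0 := fun e => left_ne_zero_of_mul h0 (by simpa [nm, CL.nm_eq_zero] using e)
  have d0 : nm d ≠ 0 := fun e => right_ne_zero_of_mul h0 (by simpa [nm, CL.nm_eq_zero] using e)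
  simp only [g1_nm_mul] at h2
  replace h2 := mul_left_cancel₀ g0 h2
  have h3 : d' * star d' = d * star d := by
    rw [CL.mul_star_self, CL.mul_star_self, ← nm_cast, ← nm_cast, h2]
  obtain ⟨u, hu⟩ := hc.dvd_of_dvd_mul_left ⟨_, h3⟩
  have hu' : IsUnit u := g1_nm_one.1 (mul_left_cancel₀ d0 (by
    rw [← g1_nm_mul, ← hu, nm_star, h2, mul_one]))
  obtain rfl : d' = star u * star d := by rw [← star_star d', hu, star_mul]
  obtain ⟨n, hn⟩ := exists_prim (ra_red (d := k * d) fun e => h1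
    (e.trans ⟨g, by simp only; ring⟩))
  have e1 := ra_star n
  have ui := ra_isUnit.pow n
  generalize (-om : O) ^ n = z at hn e1 ui
  obtain ⟨j, hj⟩ := ra_unit ((hu'.star.mul ui).mul ui)
  refine ⟨(g * star z, z * (k * d), j), ⟨fun e => h1 (e.trans ⟨k * z * d, ?_⟩), hn⟩,
    z * d, by simp only; ring, ?_, ?_, ?_⟩
  · simp only
    linear_combination -k * g * d * e1
  · rw [star_mul', isCoprime_mul_unit_left_left ui, isCoprime_mul_unit_left_right ui.star]
    exact (isCoprime_mul_unit_left_right hu'.star _ _).1 hc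
  · simp only
    linear_combination -g * d * e1
  · simp only
    rw [star_mul', ← hj]
    linear_combination -g * star u * star d * (1 + star z * z) * e1

theorem ra_ex' {y : O × O × Fin 6} (h1 : ¬ w ∣ y.1) (h2 : Prim y.2.1) :
    ∃ x : ℕ × O × O, (¬ w ∣ x.1 * x.2.1 ∧ nm x.2.2 = nm x.2.1) ∧ RaR x y := by
  obtain ⟨g, c, j⟩ := y
  have h3 := ra_odd h2
  have h0 : 0 < Int.gcd c.re c.im := Nat.pos_of_ne_zero fun e => by
    obtain ⟨a, b⟩ := Int.gcd_eq_zero_iff.1 e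
    exact h3 (by rw [show c = 0 from QuadraticAlgebra.ext a b]; exact dvd_zero _)
  obtain ⟨a, b, h4, h5, h6⟩ := Int.exists_gcd_one h0
  generalize Int.gcd c.re c.im = k at h5 h6
  obtain rfl : c = k * (⟨a, b⟩ : O) := by
    ext
    · simp [h5, mul_comm]
    · simp [h6, mul_comm]
  refine ⟨(k, g * ⟨a, b⟩, (-om) ^ (j : ℕ) * (g * star ⟨a, b⟩)), ⟨fun e => ?_, ?_⟩, ⟨a, b⟩, rfl,
    ra_cop h4 fun e => h3 (e.mul_left _), rfl, rfl⟩
  · simp only at e
    rw [mul_left_comm] at e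
    exact (g1_w.dvd_or_dvd e).elim h1 h3
  · simp only [g1_nm_mul, nm_star, g1_nm_one.2 (ra_isUnit.pow _), one_mul]

theorem ra_left {x x' : ℕ × O × O} {y : O × O × Fin 6} (h2 : Prim y.2.1) (h : RaR x y)
    (h' : RaR x' y) : x = x' := by
  obtain ⟨k, α, β⟩ := x
  obtain ⟨k', α', β'⟩ := x'
  obtain ⟨d, a1, a2, rfl, rfl⟩ := h
  obtain ⟨d', b1, b2, rfl, rfl⟩ := h'
  simp only at a1 b1
  have key : ∀ {k k' : ℕ} {d d' : O}, IsCoprime d' (star d') → (k : O) * d = k' * d' → k ∣ k' :=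
    fun {k k' d d'} c e => by
      have := ra_dvd (a := k) c ⟨d, e.symm⟩ ⟨star d, by
        have := congrArg star e
        rw [star_mul', star_mul', star_natCast, star_natCast] at this
        exact this.symm⟩
      obtain ⟨z, hz⟩ := this
      exact Int.natCast_dvd_natCast.1 ⟨z.re, by simpa using congrArg QuadraticAlgebra.re hz⟩
  obtain rfl := Nat.dvd_antisymm (key b2 (a1.symm.trans b1)) (key a2 (b1.symm.trans a1))
  have k0 : (k : O) ≠ 0 := fun e => ra_odd h2 (by simp [a1, e])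
  rw [mul_left_cancel₀ k0 (a1.symm.trans b1)]

theorem ra_inj : ∀ j j' : Fin 6, (-om : O) ^ (j : ℕ) = (-om) ^ (j' : ℕ) → j = j' := by decide

theorem ra_right {x : ℕ × O × O} {y y' : O × O × Fin 6} (h1 : ¬ w ∣ y.1) (h2 : Prim y.2.1)
    (h3 : Prim y'.2.1) (h : RaR x y) (h' : RaR x y') : y = y' := by
  obtain ⟨g, c, j⟩ := y
  obtain ⟨g', c', j'⟩ := y'
  obtain ⟨d, rfl, a2, a3, a4⟩ := h
  obtain ⟨d', rfl, b2, b3, b4⟩ := h'
  simp only at *
  have key : ∀ {g g' d d' : O} {j j' : ℕ}, IsCoprime d (star d) → g * d = g' * d' →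
      (-om) ^ j * (g * star d) = (-om) ^ j' * (g' * star d') → g' ∣ g :=
    fun {g g' d d' j j'} c e e' => ra_dvd c ⟨d', e⟩
      ((ra_isUnit.pow j).dvd_mul_left.1 ⟨(-om) ^ j' * star d', by rw [e']; ring⟩)
  have e := a3.symm.trans b3
  have e' := a4.symm.trans b4
  have g0 : g ≠ 0 := fun z => h1 (by simp [z])
  have hd : Associated d d' := Associated.of_mul_left (e ▸ Associated.refl _)
    (associated_of_dvd_dvd (key b2 e.symm e'.symm) (key a2 e e')) g0
  have c0 : (x.1 : O) * d ≠ 0 := fun z => ra_odd h2 (by simp [z])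
  obtain rfl := mul_left_cancel₀ (left_ne_zero_of_mul c0) (prim_assoc h2 h3 (hd.mul_left _))
  have d0 := right_ne_zero_of_mul c0
  obtain rfl := mul_right_cancel₀ d0 e
  have := mul_right_cancel₀ (mul_ne_zero g0 (star_ne_zero.2 d0)) e'
  rw [ra_inj j j' this]

/-- The parametrisation of the pairs of elements prime to three of equal norm. -/
theorem rp_bij : ∃ e : {x : ℕ × O × O // ¬ w ∣ x.1 * x.2.1 ∧ nm x.2.2 = nm x.2.1} ≃
      {y : O × O × Fin 6 // ¬ w ∣ y.1 ∧ Prim y.2.1}, ∀ x,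
    (x.1.1 : O) * x.1.2.1 = (e x).1.1 * (e x).1.2.1 ∧
      (x.1.1 : O) * x.1.2.2 = (-om) ^ ((e x).1.2.2 : ℕ) * ((e x).1.1 * star (e x).1.2.1) := by
  choose f h1 h2 using fun x : {x : ℕ × O × O // ¬ w ∣ x.1 * x.2.1 ∧ nm x.2.2 = nm x.2.1} =>
    ra_ex x.2.1 x.2.2
  refine ⟨Equiv.ofBijective (fun x => ⟨f x, h1 x⟩) ⟨fun x x' e => Subtype.ext
    (ra_left (h1 x).2 (h2 x) ((show f x' = f x from (congrArg Subtype.val e).symm) ▸ h2 x')),
    fun y => ?_⟩, fun x => ?_⟩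
  · obtain ⟨x, a, b⟩ := ra_ex' y.2.1 y.2.2
    exact ⟨⟨x, a⟩, Subtype.ext (ra_right (h1 _).1 (h1 _).2 y.2.2 (h2 _) b)⟩
  · obtain ⟨d, a1, -, a3, a4⟩ := h2 x
    change _ = (f x).1 * (f x).2.1 ∧ _ = (-om) ^ ((f x).2.2 : ℕ) * ((f x).1 * star (f x).2.1)
    rw [a1, a3, a4, star_mul', star_natCast]
    exact ⟨by ring, by ring⟩

end Pool.Agent.Lib.MP_696deb_nt.Y3.TL
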