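import Pool.Agent.Lib.MP_696deb_nt.Y3.TL9
import Pool.Agent.Lib.MP_696deb_nt.Y3.P1
import Pool.Agent.Lib.MP_696deb_nt.EV.C8

/-! The tame weight and the discrete logarithm on the rational numbers. -/

set_option autoImplicit false

open scoped Classical NNReal ComplexConjugate
open Finset

namespace Pool.Agent.Lib.MP_696deb_nt.Y3.TL

open EV

variable {r : TP} {u : ℕ} (x : Ix r u) (hs : nm r.π = r.v.p)
include hs

theorem twt : TWt (star r.π) (nm r.π) u fun y => iw x (star y) := by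
  have k : ∀ a, ¬ star r.π ∣ a → ¬ r.π ∣ star a := fun a h e => h (tl3_star.2 e)
  have z : iw x 1 = 0 := by
    have := x.mul 1 1 r.prime.not_dvd_one r.prime.not_dvd_one
    rw [one_mul] at this
    rw [iw, if_neg r.prime.not_dvd_one, left_eq_add.1 this, ZMod.val_zero]
  refine ⟨hs ▸ r.v.prime, by rw [CL.nm_star, nm_cast], r.nm_mod, fun a b e => ?_, by simp [iw],
    fun a b ha hb => ?_, ?_, ?_⟩
  · rw [iw_pd x _ _ (star_sub a b ▸ tl3_star.1 e)]
  · obtain ⟨e, he⟩ := iw_mul x (k a ha) (k b hb)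
    exact ⟨e, by rw [star_mul', he]; ring⟩
  · rw [show star CL.om = om * (om * 1) by decide, tl5_unit x EW.isUnit_om x.unit,
      tl5_unit x EW.isUnit_om x.unit, z]
    exact dvd_zero _
  · rw [show star (-1 : O) = -1 * 1 by decide, tl5_unit x isUnit_one.neg (ind_neg x), z]
    exact dvd_zero _

theorem p2_L : ∃ L : ℚ → ZMod (3 ^ u), Lg (nm r.π) L ∧ ∀ k : ℕ, 0 < k →
    (lgN (nm r.π) (fun y => iw x (star y)) k : ZMod (3 ^ u)) = L k := by
  obtain ⟨L, h1, h2, h3, h4⟩ := exists_L x hs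
  have hp : (nm r.π).Prime := hs ▸ r.v.prime
  refine ⟨L, ⟨h1, fun a c hc e => ?_⟩, fun k k0 => ?_⟩
  · have c0 : c ≠ 0 := fun e => hc (e ▸ dvd_zero _)
    have a0 : a ≠ 0 := fun k => hc (by simpa [k, Int.natCast_dvd_natCast] using e)
    refine h4 _ (by positivity) (((Nat.prime_iff_prime_int.1 hp).dvd_or_dvd (b := c) ?_).resolve_right
      fun k => hc (Int.natCast_dvd_natCast.1 k))
    have k : ((a : ℚ) / c).num * c = a * ((a : ℚ) / c).den := by
      have := Rat.mul_den_eq_num ((a : ℚ) / c)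
      rw [div_mul_eq_mul_div, div_eq_iff (Nat.cast_ne_zero.2 c0)] at this
      exact_mod_cast this.symm
    rw [sub_mul, k, mul_comm _ (c : ℤ), ← sub_mul]
    exact e.mul_right _
  · have n := Nat.not_dvd_ordCompl hp k0.ne'
    have e := Nat.ordProj_mul_ordCompl_eq_self k (nm r.π)
    have p : 0 < k / nm r.π ^ k.factorization (nm r.π) := Nat.ordCompl_pos _ k0.ne'
    rw [lgN]
    generalize k / nm r.π ^ k.factorization (nm r.π) = j at n e p
    have z : ∀ i : ℕ, L (nm r.π ^ i) = 0 := fun i => by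
      induction i with
      | zero => exact tlt_one h1
      | succ i ih => rw [pow_succ, h1 _ _ (pow_pos (Nat.cast_pos.2 hp.pos) _) (Nat.cast_pos.2 hp.pos),
          ih, h2, add_zero]
    rw [← e, Nat.cast_mul, Nat.cast_pow, h1 _ _ (pow_pos (Nat.cast_pos.2 hp.pos) _)
      (Nat.cast_pos.2 p), z, zero_add, h3 j n, star_natCast, iw,
      if_neg fun k => n (hs ▸ c8_dvd r k)]
    simp

include x in
omit hs in
theorem nm_gt : u < nm r.π := by
  have h1 : 1 < nm r.π := by
    have := mt g1_nm_one.1 r.prime.not_isUnit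
    have := r.nm_mod
    omega
  have h2 := (Nat.le_of_dvd (Nat.sub_pos_of_lt h1) x.dvd).trans_lt'
    (Nat.lt_pow_self (n := u + 1) (by norm_num : 1 < 3))
  omega

end Pool.Agent.Lib.MP_696deb_nt.Y3.TL
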