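import Pool.Agent.Lib.MP_696deb_nt.Y3.P3
import Pool.Agent.Lib.MP_696deb_nt.ED.KMain

/-! Rank and order of vanishing for almost all curves of a family of cubic twists. -/

set_option autoImplicit false

open Filter Topology

namespace Pool.Agent.Lib.MP_696deb_nt.Y3

theorem inp : Inp := ⟨t0, t1, t2, EV.D.nz_gro, EV.D.kur_gro⟩

/-- Every family of cubic twists. -/
theorem tend {k : ℤ} (hk : k ≠ 0) {r : ℕ} (hr : r ≤ 1) :
    Tendsto (fun X : ℕ => (Set.ncard {n : ℕ | 1 ≤ n ∧ n ≤ X ∧ Bsd (k * (n : ℤ) ^ 2) r} : ℝ) / X)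
      atTop (𝓝 (1 / 2)) :=
  inp.tend hk hr

end Pool.Agent.Lib.MP_696deb_nt.Y3
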