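import Pool.Agent.Lib.MP_696deb_nt.Y3.Wa
import Pool.Agent.Lib.MP_696deb_nt.Y3.D0
import Pool.Agent.Lib.MP_696deb_nt.Y3.TH1

/-! The finite side of the kernel: definitions. -/

set_option autoImplicit false

open Complex Finset
open scoped Real ComplexConjugate Classical

namespace Pool.Agent.Lib.MP_696deb_nt.Y3.W

open CL (O nm om op wC Per FT mem_reps)

instance : Module.Finite ℤ O :=
  Module.Finite.of_surjective
    (AddMonoidHom.mk' (fun p : ℤ × ℤ => (⟨p.1, p.2⟩ : O)) fun _ _ => rfl).toIntLinearMap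
    fun x => ⟨(x.re, x.im), rfl⟩

/-- All prime factors of `c` divide `M`. -/
def Smo (M c : ℕ) : Prop := ∀ p : ℕ, p.Prime → p ∣ c → p ∣ M

/-- Elements of the field of the cube roots of unity. -/
def QI (z : ℂ) : Prop := ∃ a b : ℚ, z = a + b * wC

/-- The prime `q` shows that `-k` is not a norm. -/
def Obs (q k : ℕ) : Prop := q.Prime ∧
  (q % 3 = 2 ∧ Odd (k.factorization q) ∨ q = 3 ∧ k / 3 ^ k.factorization 3 % 3 = 1)

/-- Eigenfunctions of the units modulo `M`. -/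
structure Hom (M : ℕ) (ψ : O → ℂ) (κ : O → O) : Prop where
  pos : 0 < M
  lev : 21 ∣ M
  per : Per M ψ
  eq : ∀ t : O, IsCoprime t (M : O) → ∀ y, ψ (t * y) = CL.toC (κ t) * ψ y
  int : ∀ k : ℤ, IsCoprime k (M : ℤ) → κ k = et k * ep k
  six : ∀ t : O, IsCoprime t (M : O) → κ t ^ 6 = 1
  nrm : ∀ t : O, IsCoprime t (M : O) → star (κ (star t)) * ep (nm t : ℤ) = κ t
  zero : ∀ p : ℕ, p.Prime → p ∣ M → p ≠ 3 → p ≠ 7 → ∀ y : O, (p : O) ∣ y → ψ y = 0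
  alg : ∀ y, ∃ g : O, ψ y = CL.toC g

/-- A section that matches the function `Φ`. -/
structure Ker (M : ℕ) (Φ : O → O → O) (a : O → ℂ) : Prop where
  adm : Adm M a
  prim : ∀ (p : ℕ) (c d : ℤ) (A : O), p.Prime → p ∣ M → (p : ℤ) ∣ c → (p : ℤ) ∣ d →
    Wt c d * ph M a c d A = 0
  hom : ∀ k : ℤ, IsCoprime k (M : ℤ) → ∀ c l A, lamA M a (k * c) l A = et k * lamA M a c (k * l) A
  per : ∀ A, Per (M ^ 2) (Φ A)
  supp : ∀ A β, Φ A β ≠ 0 → (M : ℤ) ^ 2 ∣ nm A - nm β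
  inv : ∀ t : O, IsCoprime t (M : O) → ∀ A β, Φ A (t * β) = Φ A (star t * β)
  mat : ∀ (c : ℕ) (d : ℤ), 0 < c → IsCoprime (c : ℤ) d → ∀ A, Wt c d * ph M a c d A =
    c * Av fun β => CL.toC (Φ A β) * q1 (d * nm β / (c * M ^ 2))
  alg : ∀ x, IsIntegral ℤ ((M : ℂ) ^ 2 * a x)

/-- A pair of bases and the weights of the matrices between them. -/
structure Pair (M : ℕ) (X Y : MZ) (Φ : O → O → O) (Ψ : O → O) : Prop where
  pos : 0 < M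
  det : X.det ≠ 0
  det2 : Y.det = 3 * X.det
  ex : ∀ g : MZ, ∃ α β : O, (M : ℤ) • (g * Y) = X * mb (CL.th * α) (CL.th * β)
  Phi_eq : ∀ (g : MZ) (α β : O), (M : ℤ) • (g * Y) = X * mb (CL.th * α) (CL.th * β) → Φ α β = w0 g
  Phi_ne : ∀ α β, Φ α β ≠ 0 → ∃ g : MZ, (M : ℤ) • (g * Y) = X * mb (CL.th * α) (CL.th * β)
  Phi_per : ∀ α β γ δ, Φ (α + (M ^ 2 : ℕ) * γ) (β + (M ^ 2 : ℕ) * δ) = Φ α β
  Psi_eq : ∀ (Z : MZ) (y : O), Z * Y = (3 : ℤ) • (X * mb y 0) → Ψ y = wh Z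
  Psi_ne : ∀ y, Ψ y ≠ 0 → ∃ Z : MZ, Z * Y = (3 : ℤ) • (X * mb y 0)
  Psi_per : Per M Ψ
  int : ∀ (Z : MZ) (y : O) (r : ℤ), r • (Z * Y) = (3 : ℤ) • (X * mb y 0) → (r : O) ∣ y
  three : ∀ (Z : MZ) (y : O), Z * Y = X * mb y 0 → 3 ∣ Z 0 0
  seven : ∀ (Z : MZ) (y : O), Z * Y = (3 : ℤ) • (X * mb y 0) → 7 ∣ Z 0 0 → 7 ∣ Z 1 1

/-- The bilinear form of the determinant. -/
def pr (g Z : MZ) : ℤ := g 0 0 * Z 1 1 - g 0 1 * Z 1 0 - g 1 0 * Z 0 1 + g 1 1 * Z 0 0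

/-- The Gauss sum on the matrices at the frequency `Z / T`. -/
noncomputable def Gs (c d : ℤ) (Z : MZ) (T : ℤ) : ℂ :=
  Av fun g : MZ => CL.toC (w0 g) * q1 ((-(3 * d * g.det : ℤ) - (pr g Z : ℤ) / T) / (3 * c))

/-- The coefficient of `log p` at one element. -/
noncomputable def cA (M : ℕ) (a : O → ℂ) (p k : ℕ) (A : O) : ℂ :=
  ∑ x ∈ k.divisorsAntidiagonal,
    lamA M a x.1 x.2 A * ((x.2.factorization p : ℂ) - x.1.factorization p)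

/-- The coefficient of `log p` in the finite part. -/
noncomputable def cP (M : ℕ) (a : O → ℂ) (p μ : ℕ) : ℂ :=
  ∑ k ∈ range (μ + 1), ∑ A ∈ CL.reps (μ - k), cA M a p k A

end Pool.Agent.Lib.MP_696deb_nt.Y3.W
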