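import Pool.Agent.Lib.MP_696deb_nt.Y3.TH3

/-! The terms of the Fourier transform of a section. -/

set_option autoImplicit false

open Complex Finset
open scoped ComplexConjugate Classical

namespace Pool.Agent.Lib.MP_696deb_nt.Y3

open CL (O nm om th op wC Per FT mem_reps)

/-- The average of the character modulo seven against an additive character. -/
noncomputable def wtE (n : ℕ) (k : ℤ) : ℂ :=
  (∑ d ∈ range n, conj (CL.toC (ep (d : ℤ))) * q1 ((d : ℤ) * k / n)) / n

/-- One term of the Fourier transform. -/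
noncomputable def wtT (M : ℕ) (c L : ℤ) (A x : O) : ℂ :=
  if (¬ 3 ∣ c ∧ 7 ∣ c) ∧ (M : O) ∣ A - c * x then wtE (M ^ 2) (bil A x - c * nm x + L) else 0

variable {M n m l : ℕ} {a ψ : O → ℂ} {c L K : ℤ} {A x : O}

theorem wtT_eq (M : ℕ) (c L : ℤ) (A x : O) : wtT M c L A x = (∑ d ∈ range (M ^ 2),
    Wt c d * cf M c d x A * q1 (d * L / M ^ 2)) / M ^ 2 := by
  rw [wtT]
  split_ifs with h
  · rw [wtE]
    push_cast
    refine congrArg (· / _) (sum_congr rfl fun d _ => ?_)
    rw [Wt, if_pos h.1, cf, if_pos h.2, mul_assoc, ← q1_add]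
    push_cast
    congr 2
    ring
  · rw [sum_eq_zero fun d _ => ?_, zero_div]
    by_cases e : ¬ 3 ∣ c ∧ 7 ∣ c
    · rw [cf, if_neg fun k => h ⟨e, k⟩, mul_zero, zero_mul]
    · rw [Wt, if_neg e, zero_mul, zero_mul]

theorem lamA_eq (M : ℕ) (a : O → ℂ) (c L : ℤ) (A : O) :
    lamA M a c L A = sm M fun x => a x * wtT M c L A x := by
  simp only [lamA, ph, wtT_eq, sm, mul_sum, sum_mul, sum_div]
  rw [sum_comm]
  refine sum_congr rfl fun x _ => sum_comm.trans (sum_congr rfl fun y _ => sum_congr rfl fun d _ => ?_)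
  ring

theorem wtT_per (hM : 0 < M) (c L : ℤ) (A : O) : Per M (wtT M c L A) := fun x γ => by
  rw [wtT_eq, wtT_eq]
  exact congrArg (· / _) (sum_congr rfl fun d _ => by
    rw [show cf M c d (x + M * γ) A = cf M c d x A from cf_per hM c d A x γ])

theorem wtE_mul (hn : 0 < n) (h5 : 7 ∣ n) {k k' : ℤ} (hk : (n : ℤ) ∣ k' * k - 1) (K : ℤ) :
    wtE n (k * K) = CL.toC (ep k) * wtE n K := by
  have n0 : (n : ℂ) ≠ 0 := by exact_mod_cast hn.ne'
  have h5' : (7 : ℤ) ∣ n := by exact_mod_cast h5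
  have h1 := sum_range_perm hn (φ := fun d => conj (CL.toC (ep (k' * d : ℤ))) * q1 (d * K / n))
    (fun x t => by
      rw [ep_congr (t := k' * x) (by
        rw [← mul_sub, add_sub_cancel_left]; exact (h5'.mul_right _).mul_left _),
        q1_congr (y := x * K / n) (t * K) (by push_cast; field_simp)]) hk 0
  have h2 : star (ep k') = ep k := ep_inv _ _
    (by exact_mod_cast ((ZMod.intCast_eq_intCast_iff_dvd_sub 1 _ 7).2 (h5'.trans hk)).symm)
  rw [wtE, wtE, ← mul_div_assoc, mul_sum]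
  refine congrArg (· / _) ((sum_congr rfl fun d _ => ?_).trans (h1.trans (sum_congr rfl fun d _ => ?_)))
  · rw [add_zero, ep_congr (s := k' * (k * d)) (t := d) (by
      rw [show k' * (k * d) - d = (k' * k - 1) * d by ring]
      exact (h5'.trans hk).mul_right _)]
    push_cast
    ring_nf
  · rw [Int.cast_mul, ep_mul, map_mul, map_mul, ← h2, CL.toC_star, mul_assoc]

theorem wt_sum_mul {φ : ℤ → ℂ} (hφ : ∀ x t, φ (x + n * t) = φ x) (m : ℕ) :
    ∑ d ∈ range (n * m), φ d = m * ∑ d ∈ range n, φ d := by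
  induction m with
  | zero => simp
  | succ m ih =>
    rw [Nat.mul_succ, sum_range_add, ih]
    push_cast
    simp only [add_comm (n * m : ℤ), hφ]
    ring

theorem wtE_scale (hn : 0 < n) (h5 : 7 ∣ n) (hm : 0 < m) (K : ℤ) : wtE (n * m) (m * K) = wtE n K := by
  have n0 : (n : ℂ) ≠ 0 := by exact_mod_cast hn.ne'
  have m0 : (m : ℂ) ≠ 0 := by exact_mod_cast hm.ne'
  have h5' : (7 : ℤ) ∣ n := by exact_mod_cast h5
  have h1 := wt_sum_mul (n := n) (φ := fun d => conj (CL.toC (ep d)) * q1 (d * K / n))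
    (fun x t => by
      rw [ep_congr (t := x) (by rw [add_sub_cancel_left]; exact h5'.mul_right _),
        q1_congr (y := x * K / n) (t * K) (by push_cast; field_simp)]) m
  rw [wtE, wtE, sum_congr rfl fun d _ => by
    rw [show (((d : ℤ) : ℂ) * (m * K : ℤ) / (n * m : ℕ)) = (d : ℤ) * K / n by push_cast; field_simp], h1,
    Nat.cast_mul, mul_comm (n : ℂ), mul_div_mul_left _ _ m0]

theorem wtE_dvd (hn : 0 < n) (h5 : 7 ∣ n) (hm : 0 < m) (h : wtE (n * m) K ≠ 0) : (m : ℤ) ∣ K := by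
  have n0 : (n : ℂ) ≠ 0 := by exact_mod_cast hn.ne'
  have m0 : (m : ℂ) ≠ 0 := by exact_mod_cast hm.ne'
  have h5' : (7 : ℤ) ∣ n := by exact_mod_cast h5
  have h1 := sum_range_perm (Nat.mul_pos hn hm)
    (φ := fun d => conj (CL.toC (ep d)) * q1 (d * K / (n * m : ℕ))) (fun x t => by
      rw [ep_congr (t := x) (by
        rw [add_sub_cancel_left, Nat.cast_mul]; exact (h5'.mul_right _).mul_right _),
        q1_congr (y := x * K / (n * m : ℕ)) (t * K) (by push_cast; field_simp)])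
    (k := 1) (k' := 1) (by simp) n
  rw [sum_congr rfl (g := fun d : ℕ => q1 (K / m) *
    (conj (CL.toC (ep (d : ℤ))) * q1 ((d : ℤ) * K / (n * m : ℕ)))) fun d _ => by
      rw [one_mul, ep_congr (t := d) (by rwa [add_sub_cancel_left]), mul_left_comm, ← q1_add]
      congr 2
      push_cast
      field_simp
      ring, ← mul_sum] at h1
  obtain ⟨k, hk⟩ := exists_of_q1 ((mul_left_eq_self₀.1 h1).resolve_right fun e => h (by
    rw [wtE, e, zero_div]))
  rw [div_eq_iff m0] at hk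
  exact ⟨k, by rw [mul_comm]; exact_mod_cast hk⟩

theorem wt_seven (h : 21 ∣ M) : 7 ∣ M ^ 2 :=
  (Dvd.dvd.trans ⟨3, rfl⟩ h).trans (dvd_pow_self _ two_ne_zero)

/-- Raising the level. -/
theorem wtT_up (hM : 0 < M) (h21 : 21 ∣ M) (hl : 0 < l) {γ A' : O} {L' : ℤ}
    (h1 : A - c * M * γ = l * A') (h2 : L + M * bil A γ - c * M ^ 2 * nm γ = l ^ 2 * L') (x : O) :
    wtT (M * l) c L A (l * x + M * γ) = wtT M c L' A' x := by
  have l0 : (l : O) ≠ 0 := by exact_mod_cast hl.ne'
  have e : A - c * (l * x + M * γ) = l * (A' - c * x) := by linear_combination h1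
  rw [wtT, wtT, e, Nat.cast_mul, mul_comm (M : O), mul_dvd_mul_iff_left l0, mul_pow,
    ← wtE_scale (n := M ^ 2) (m := l ^ 2) (by positivity) (wt_seven h21) (by positivity)]
  congr 2
  obtain rfl : A = l * A' + c * M * γ := by linear_combination h1
  simp [nm, bil] at h2 ⊢
  linear_combination h2

theorem wtT_supp (hM : 0 < M) (h21 : 21 ∣ M) (hl : 0 < l) {γ : O}
    (h : wtT (M * l) c L A (l * x + M * γ) ≠ 0) : ∃ (A' : O) (L' : ℤ), A - c * M * γ = l * A' ∧
      L + M * bil A γ - c * M ^ 2 * nm γ = l ^ 2 * L' := by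
  rw [wtT] at h
  split_ifs at h with e
  swap
  · exact absurd rfl h
  obtain ⟨β, hβ⟩ := e.2
  rw [Nat.cast_mul] at hβ
  rw [mul_pow] at h
  obtain ⟨s, hs⟩ := wtE_dvd (by positivity) (wt_seven h21) (by positivity) h
  refine ⟨c * x + M * β, s - bil (c * x + M * β) x + c * nm x, by linear_combination hβ, ?_⟩
  obtain rfl : A = l * (c * x + M * β) + c * M * γ := by linear_combination hβ
  generalize c * x + M * β = B at hs ⊢
  simp [nm, bil] at hs ⊢
  linear_combination hs

theorem Adm.lamA_shift (h : Adm M a) {γ A' : O} {L' : ℤ} (h1 : A - c * M * γ = A')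
    (h2 : L + M * bil A γ - c * M ^ 2 * nm γ = L') : lamA M a c L A = lamA M a c L' A' := by
  rw [lamA_eq, lamA_eq]
  refine sm_congr fun x => congrArg _ ?_
  have := wtT_up (l := 1) (A' := A') (L' := L') h.pos h.lev one_pos (by simpa using h1)
    (by simpa using h2) x
  rwa [mul_one, Nat.cast_one, one_mul, wtT_per h.pos] at this

/-- Homogeneity in the Eisenstein variable. -/
theorem Adm.lamA_hom (h : Adm M a) {t : O} {k : ℤ} (hk : (M : ℤ) ^ 2 ∣ k * nm t - 1) {τ : ℂ}
    (ht : ∀ x, a (t * x) = τ * a x) (c L : ℤ) (A : O) :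
    lamA M a c (nm t * L) (t * A) = τ * CL.toC (ep (nm t)) * lamA M a c L A := by
  have hk' : (M : O) ∣ k * star t * t - 1 := by
    obtain ⟨s, hs⟩ := (dvd_pow_self _ two_ne_zero).trans hk
    refine ⟨s, ?_⟩
    rw [mul_assoc, mul_comm (star t), CL.mul_star_self]
    exact_mod_cast hs
  rw [lamA_eq, lamA_eq, ← sm_mul h.pos (f := fun x => a x * wtT M c (nm t * L) (t * A) x)
    (fun x γ => congrArg₂ _ (h.per x γ) (wtT_per h.pos _ _ _ x γ)) hk', ← sm_mul_left]
  refine sm_congr fun x => ?_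
  have e : (M : O) ∣ t * A - c * (t * x) ↔ (M : O) ∣ A - c * x := by
    rw [show t * A - c * (t * x) = t * (A - c * x) by ring]
    refine ⟨fun e => ?_, fun e => e.mul_left _⟩
    generalize A - c * x = B at e
    rw [show B = k * star t * (t * B) - (k * star t * t - 1) * B by ring]
    exact (e.mul_left _).sub (hk'.mul_right _)
  rw [ht, wtT, wtT, e]
  split_ifs
  · rw [show bil (t * A) (t * x) - c * nm (t * x) + nm t * L =
      nm t * (bil A x - c * nm x + L) by simp [nm, bil]; ring,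
      wtE_mul (by have := h.pos; positivity) (wt_seven h.lev) (k' := k) (by exact_mod_cast hk)]
    ring
  · simp

theorem Adm.lamA_at_zero (h : Adm M a) (c L : ℤ) : lamA M a c L 0 = 0 := by
  obtain ⟨k, M', u, hM, -, ⟨r, hr⟩, -, ho⟩ := h.odd
  rw [lamA_eq, sm_congr (g := fun _ => 0) fun x => ?_]
  · simp [sm]
  rw [wtT]
  split_ifs with e
  swap
  · exact mul_zero _
  obtain ⟨β, hβ⟩ := e.2
  obtain ⟨s, t, hst⟩ : IsCoprime c (3 ^ k) :=
    (Int.prime_three.irreducible.coprime_iff_not_dvd.2 e.1.1).symm.pow_right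
  have hM' : (M : O) = 3 ^ k * M' := by exact_mod_cast hM
  have hr' : (u : O) - 1 = M' ^ 2 * r := by exact_mod_cast hr
  have hst' : (s : O) * c + t * 3 ^ k = 1 := by exact_mod_cast hst
  have h3 := per_of_dvd h.per (x := u * x) (y := x) ⟨M' * r * (t * x - M' * s * β), by
    linear_combination x * hr' - M' ^ 2 * r * x * hst' - M' ^ 2 * r * s * hβ - M' * r * t * x * hM'⟩
  rw [ho] at h3
  rw [show a x = 0 by linear_combination -h3 / 2, zero_mul]

theorem wt_int_q1 (hn : 0 < n) (k : ℤ) : IsIntegral ℤ (q1 (k / n)) := by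
  have n0 : (n : ℂ) ≠ 0 := by exact_mod_cast hn.ne'
  refine IsIntegral.of_pow hn ?_
  rw [← q1_nat_mul, mul_div_cancel₀ _ n0, q1_int]
  exact isIntegral_one

theorem wt_int_O (γ : O) : IsIntegral ℤ (CL.toC γ) := by
  rw [CL.toC_apply]
  refine (isIntegral_intCast _).add ((isIntegral_intCast _).mul (IsIntegral.of_pow three_pos ?_))
  rw [show wC ^ 3 = 1 by linear_combination (wC - 1) * CL.wC_sq]
  exact isIntegral_one

theorem wt_int_sm {f : O → ℂ} (h : ∀ x, IsIntegral ℤ (f x)) : IsIntegral ℤ (sm M f) :=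
  IsIntegral.sum _ fun _ _ => IsIntegral.sum _ fun _ _ => h _

theorem wt_int_lamA (hM : 0 < M) (h : ∀ x, IsIntegral ℤ (ψ x)) (c L : ℤ) (A : O) :
    IsIntegral ℤ ((M ^ 4 : ℕ) * lamA M (iFT M ψ) c L A) := by
  have M0 : (M : ℂ) ≠ 0 := by exact_mod_cast hM.ne'
  rw [lamA_eq, ← sm_mul_left]
  refine wt_int_sm fun x => ?_
  rw [show ((M ^ 4 : ℕ) : ℂ) * (iFT M ψ x * wtT M c L A x) =
    FT M ψ x * ((M ^ 2 : ℕ) * wtT M c L A x) by rw [iFT]; push_cast; field_simp, FT_eq]
  refine (wt_int_sm fun y => (h y).mul (wt_int_q1 hM _)).mul ?_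
  rw [wtT]
  split_ifs
  · rw [wtE, mul_div_cancel₀ _ (Nat.cast_ne_zero.2 (by positivity))]
    refine IsIntegral.sum _ fun d _ => IsIntegral.mul ?_ ?_
    · rw [← CL.toC_star]
      exact wt_int_O _
    · rw [← Int.cast_mul]
      exact wt_int_q1 (by positivity) _
  · rw [mul_zero]
    exact isIntegral_zero

end Pool.Agent.Lib.MP_696deb_nt.Y3
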