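import Pool.Agent.Lib.MP_696deb_nt.Y3.WT0
import Pool.Agent.Lib.MP_696deb_nt.Y3.P0

/-! The Fourier expansion of a tame weight. -/

set_option autoImplicit false

open Complex Finset
open scoped ComplexConjugate Classical

namespace Pool.Agent.Lib.MP_696deb_nt.Y3

open CL (O nm Per FT mem_reps)

/-- The Fourier coefficients of a tame weight. -/
noncomputable def wtO (π : O) (l : ℕ) (W : O → ℤ) (r : ℤ) : ℂ :=
  ∑ j ∈ range l, (W (j : ℤ) : ℂ) * q1 ((j : ℤ) * (-(r * π.im) : ℤ) / l)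

/-- The multiples of a power of three in the ring of algebraic integers. -/
def wtI (u : ℕ) : AddSubgroup ℂ where
  carrier := {x | ∃ e, IsIntegral ℤ e ∧ x = 3 ^ u * e}
  zero_mem' := ⟨0, isIntegral_zero, (mul_zero _).symm⟩
  add_mem' := fun ⟨a, ha, e⟩ ⟨b, hb, f⟩ => ⟨a + b, ha.add hb, by rw [e, f, mul_add]⟩
  neg_mem' := fun ⟨a, ha, e⟩ => ⟨-a, ha.neg, by rw [e, mul_neg]⟩

variable {M l u : ℕ} {ψ : O → ℂ} {π : O} {W : O → ℤ}

theorem wtI_mul {x y : ℂ} (hx : x ∈ wtI u) (hy : IsIntegral ℤ y) : x * y ∈ wtI u := by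
  obtain ⟨a, ha, e⟩ := hx
  exact ⟨a * y, ha.mul hy, by rw [e, mul_assoc]⟩

theorem wtI_int {n : ℤ} (h : 3 ^ u ∣ n) : (n : ℂ) ∈ wtI u := by
  obtain ⟨k, rfl⟩ := h
  exact ⟨k, isIntegral_intCast _, by push_cast; rfl⟩

theorem wt_q1_per (hl : 0 < l) (s x t : ℤ) : q1 ((x + l * t : ℤ) * s / l) = q1 (x * s / l) := by
  have l0 : (l : ℂ) ≠ 0 := by exact_mod_cast hl.ne'
  exact q1_congr (t * s) (by push_cast; field_simp)

theorem wt_char (hl : 0 < l) (s : ℤ) :
    ∑ r ∈ range l, q1 ((r : ℤ) * s / l) = if (l : ℤ) ∣ s then (l : ℂ) else 0 := by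
  have l0 : (l : ℂ) ≠ 0 := by exact_mod_cast hl.ne'
  split_ifs with h
  · obtain ⟨t, rfl⟩ := h
    rw [sum_congr rfl (g := fun _ => 1) fun r _ => by
      rw [← q1_int (r * t)]
      congr 1
      push_cast
      field_simp]
    simp
  · have h1 := sum_range_perm hl (φ := fun x => q1 (x * s / l)) (wt_q1_per hl s) (k := 1) (k' := 1) (by simp) 1
    rw [sum_congr rfl (g := fun r : ℕ => q1 (s / l) * q1 ((r : ℤ) * s / l)) fun r _ => by
      rw [← q1_add]
      congr 1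
      push_cast
      ring, ← mul_sum] at h1
    refine (mul_left_eq_self₀.1 h1).resolve_left fun e => h ?_
    obtain ⟨k, hk⟩ := exists_of_q1 e
    rw [div_eq_iff l0] at hk
    exact ⟨k, by rw [mul_comm]; exact_mod_cast hk⟩

theorem wt_single (hl : 0 < l) {φ S : ℤ → ℂ} (hφ : ∀ x t, φ (x + l * t) = φ x) {v : ℂ} (s : ℤ)
    (h1 : ∀ r, (l : ℤ) ∣ r - s → S r = v) (h0 : ∀ r, S r ≠ 0 → (l : ℤ) ∣ r - s) :
    ∑ r ∈ range l, φ r * S r = φ s * v := by
  have l0 : (0 : ℤ) < l := by exact_mod_cast hl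
  have e0 := Int.emod_nonneg s l0.ne'
  have e1 := Int.emod_lt_of_pos s l0
  have e2 : (((s % l).toNat : ℕ) : ℤ) + l * (s / l) = s := by
    rw [Int.toNat_of_nonneg e0, Int.emod_add_mul_ediv]
  rw [sum_eq_single_of_mem (s % l).toNat (mem_range.2 (by omega)) fun r hr e => ?_,
    h1 _ ⟨-(s / l), by linear_combination e2⟩, ← hφ _ (s / l), e2]
  refine mul_eq_zero_of_right _ (by_contra fun k => e ?_)
  have h2 : (l : ℤ) ∣ r - (s % l).toNat := by
    rw [show (r : ℤ) - (s % l).toNat = r - s + l * (s / l) by linear_combination -e2]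
    exact (h0 r k).add (dvd_mul_right _ _)
  have := Int.eq_zero_of_abs_lt_dvd h2 (by have := mem_range.1 hr; rw [abs_lt]; omega)
  omega

theorem wtO_per (hl : 0 < l) (x t : ℤ) : wtO π l W (x + l * t) = wtO π l W x := by
  have l0 : (l : ℂ) ≠ 0 := by exact_mod_cast hl.ne'
  exact sum_congr rfl fun j _ => congrArg _ (q1_congr (-(j * t * π.im)) (by push_cast; field_simp; ring))

theorem wtO_int (hl : 0 < l) (r : ℤ) : IsIntegral ℤ (wtO π l W r) :=
  IsIntegral.sum _ fun j _ => (isIntegral_intCast _).mul (by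
    rw [← Int.cast_mul]
    exact wt_int_q1 hl _)

namespace TWt

variable (h : TWt π l u W)
include h

theorem pr : Prime π := CL.f3_prime h.prime h.one h.norm

theorem prZ : Prime (l : ℤ) := Nat.prime_iff_prime_int.1 h.prime

theorem mul_star : π * star π = l := CL.f3_mul h.norm

theorem dvd_int (n : ℤ) : π ∣ (n : O) ↔ (l : ℤ) ∣ n := by
  refine ⟨fun ⟨c, hc⟩ => ?_, fun ⟨c, hc⟩ => ⟨star π * c, by rw [hc, ← mul_assoc, h.mul_star]; simp⟩⟩
  have e := congrArg nm hc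
  rw [CL.nm_mul, CL.nm_int, h.norm, sq] at e
  exact (h.prZ.dvd_or_dvd ⟨_, e⟩).elim id id

theorem inv {n : ℤ} (hn : ¬ (l : ℤ) ∣ n) : ∃ k : ℤ, (l : ℤ) ∣ k * n - 1 := by
  obtain ⟨s, t, e⟩ := (h.prZ.irreducible.coprime_iff_not_dvd).2 hn
  exact ⟨t, -s, by linear_combination e⟩

theorem per_int (x t : ℤ) : W (x + l * t : ℤ) = W x :=
  h.per _ _ (by rw [← Int.cast_sub, h.dvd_int]; simp)

theorem nd : ¬ π ∣ star π := fun e => by
  have e1 := (CL.f3_both h.prime h.one h.norm).1 ⟨e, dvd_rfl⟩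
  rw [← h.mul_star] at e1
  exact h.pr.not_dvd_one ((mul_dvd_mul_iff_right (star_ne_zero.2 h.pr.ne_zero)).1
    (by rwa [one_mul]))

theorem dvd_bil (w : O) : (l : ℤ) ∣ bil π w ↔ π ∣ w := by
  refine ⟨fun e => (h.pr.dvd_or_dvd (a := star π) ?_).resolve_left h.nd, fun ⟨γ, e⟩ =>
    ⟨2 * γ.re - γ.im, by rw [e, ← h.norm]; simp [nm, bil]; ring⟩⟩
  obtain ⟨k, hk⟩ := (h.dvd_int _).2 e
  generalize hb : bil π w = b at hk
  rw [show star π * w = b - π * star w by
    rw [bil] at hb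
    ext <;> simp <;> linarith, hk]
  exact (dvd_mul_right _ _).sub (dvd_mul_right _ _)

theorem dvd_sp (w : O) : (l : ℤ) ∣ sp π w ↔ π ∣ w := by
  refine ⟨fun e => (h.pr.dvd_or_dvd (a := star π) ?_).resolve_left h.nd, fun ⟨γ, e⟩ =>
    ⟨-γ.im, by rw [e, ← h.norm]; simp [nm, sp]; ring⟩⟩
  rw [show star π * w = π * star w - CL.th * (sp π w : ℤ) by ext <;> simp [sp, CL.th] <;> ring]
  exact (dvd_mul_right _ _).sub (((h.dvd_int _).2 e).mul_left _)

theorem nd_im : ¬ (l : ℤ) ∣ π.im := fun e =>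
  h.pr.not_dvd_one ((h.dvd_sp 1).1 (by
    simpa [sp, QuadraticAlgebra.re_one, QuadraticAlgebra.im_one] using e))

theorem ex (y : O) : ∃ j : ℤ, π ∣ y - j := by
  obtain ⟨k, hk⟩ := h.inv (h.nd_im)
  refine ⟨k * sp π y, (h.dvd_sp _).1 ?_⟩
  rw [show sp π (y - (k * sp π y : ℤ)) = (k * π.im - 1) * -sp π y by simp [sp]; ring]
  exact hk.mul_right _

theorem four (y : O) : ∑ r ∈ range l, wtO π l W r * q1 ((r : ℤ) * (sp π y : ℤ) / l) = W y * l := by
  obtain ⟨j, hj⟩ := h.ex y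
  have e : ∀ i : ℤ, (l : ℤ) ∣ sp π (y - i) ↔ (l : ℤ) ∣ i - j := fun i => by
    rw [h.dvd_sp, ← h.dvd_int, show y - i = y - j - (i - j : ℤ) by push_cast; ring,
      dvd_sub_right hj]
  simp only [wtO, sum_mul]
  rw [sum_comm, h.per _ _ hj, ← wt_single h.prime.pos (φ := fun i => (W i : ℂ))
    (S := fun i => if (l : ℤ) ∣ sp π (y - i) then (l : ℂ) else 0) (fun x t => by rw [h.per_int]) j
    (fun r k => if_pos ((e r).2 k)) fun r k => (e r).1 (by_contra fun k' => k (if_neg k'))]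
  refine sum_congr rfl fun i _ => ?_
  rw [← wt_char h.prime.pos, mul_sum]
  refine sum_congr rfl fun r _ => ?_
  rw [mul_assoc, ← q1_add]
  congr 2
  simp [sp]
  ring

theorem expand (hM : 0 < M) (hψ : Per M ψ) {T : O → ℂ} (hT : Per (M * l) T) :
    sm (M * l) (fun x => iFT (M * l) (fun y => ψ y * W y) x * T x) =
      ∑ r ∈ range l, wtO π l W r / l * sm M fun x => iFT M ψ x * T (l * x + M * (π * (r : ℤ))) := by
  have hl := h.prime.pos
  have l0 : (l : ℂ) ≠ 0 := by exact_mod_cast hl.ne'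
  have M0 : (M : ℂ) ≠ 0 := by exact_mod_cast hM.ne'
  let b : O → ℂ := fun x => ∑ r ∈ range l, wtO π l W r / l * sm M fun x' =>
    if ((M * l : ℕ) : O) ∣ l * x' + M * (π * (r : ℤ)) - x then iFT M ψ x' else 0
  have hb : Per (M * l) b := fun x γ => sum_congr rfl fun r _ => congrArg _ (sm_congr fun x' => by
    rw [← sub_sub, if_congr (dvd_sub_left (dvd_mul_right _ _)) rfl rfl])
  have key : ∀ T : O → ℂ, Per (M * l) T → sm (M * l) (fun x => b x * T x) =
      ∑ r ∈ range l, wtO π l W r / l * sm M fun x => iFT M ψ x * T (l * x + M * (π * (r : ℤ))) := by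
    intro T hT
    have e : ∀ F : ℕ → O → ℂ, sm (M * l) (fun x => ∑ r ∈ range l, F r x) =
        ∑ r ∈ range l, sm (M * l) (F r) := fun F =>
      (sum_congr rfl fun _ _ => sum_comm).trans sum_comm
    simp only [b, sum_mul, e, mul_assoc, sm_mul_left]
    refine sum_congr rfl fun r _ => congrArg _ ?_
    simp only [mul_comm (sm M _), ← sm_mul_left]
    rw [sm_comm]
    exact sm_congr fun x => by rw [sm_delta (Nat.mul_pos hM hl) hT, mul_comm]
  have e : (fun y => ψ y * W y) = FT (M * l) b := funext fun y => by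
    rw [FT_eq, key _ (q1_sp_per (Nat.mul_pos hM hl) y), ← FT_iFT hM hψ y, FT_eq,
      ← mul_div_cancel_right₀ (W y : ℂ) l0, ← h.four, sum_div, mul_sum]
    refine sum_congr rfl fun r _ => ?_
    rw [mul_div_right_comm, mul_left_comm, mul_comm (sm M _), ← sm_mul_left]
    refine congrArg _ (sm_congr fun x => ?_)
    rw [mul_left_comm, ← q1_add]
    congr 2
    simp [sp]
    field_simp
    ring
  rw [e, funext (iFT_FT (Nat.mul_pos hM hl) hb), key T hT]

theorem cong {r : ℤ} (hr : ¬ (l : ℤ) ∣ r * π.im) : wtO π l W r - wtO π l W 1 - W r ∈ wtI u := by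
  have hl := h.prime.pos
  have hr' : ¬ (l : ℤ) ∣ r := fun e => hr (e.mul_right _)
  obtain ⟨k, hk⟩ := h.inv hr'
  have h1 := sum_range_perm hl (φ := fun j => (W j : ℂ) * q1 (j * (-(1 * π.im) : ℤ) / l))
    (fun x t => by rw [h.per_int, wt_q1_per hl]) hk 0
  have h2 := wt_char hl (-(r * π.im))
  rw [if_neg (by rwa [dvd_neg])] at h2
  have h3 : ∑ j ∈ range l, (if j = 0 then (W r : ℂ) else 0) * q1 ((j : ℤ) * (-(r * π.im) : ℤ) / l) =
      W r := by
    rw [sum_eq_single_of_mem 0 (mem_range.2 hl) fun j _ e => by rw [if_neg e, zero_mul]]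
    simp [q1]
  rw [show wtO π l W r - wtO π l W 1 - W r = ∑ j ∈ range l,
    ((W (j : ℤ) - W (r * j : ℤ) + W r - if j = 0 then W r else 0 : ℤ) : ℂ) *
      q1 ((j : ℤ) * (-(r * π.im) : ℤ) / l) by
    rw [wtO, wtO, ← h1]
    simp only [Int.cast_sub, Int.cast_add, Int.cast_ite, Int.cast_zero, sub_mul, add_mul,
      sum_sub_distrib, sum_add_distrib, h3, ← mul_sum, h2, mul_zero, add_zero]
    congr 2
    exact sum_congr rfl fun j _ => by push_cast; ring_nf]
  refine sum_mem fun j hj => wtI_mul (wtI_int ?_) (by rw [← Int.cast_mul]; exact wt_int_q1 hl _)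
  split_ifs with e
  · simp [e]
  · have := h.mul r (j : ℤ) (mt (h.dvd_int _).1 hr') (mt (h.dvd_int _).1 fun k =>
      e (Nat.eq_zero_of_dvd_of_lt (Int.natCast_dvd_natCast.1 k) (mem_range.1 hj)))
    rw [← dvd_neg, Int.cast_mul, show ∀ a b c : ℤ, -(a - b + c - 0) = b - c - a from
      fun a b c => by ring]
    exact this

end TWt

end Pool.Agent.Lib.MP_696deb_nt.Y3
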