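import Pool.Agent.Lib.MP_696deb_nt.Y3.WT2

/-! The sum over the cells of the tame coefficient. -/

set_option autoImplicit false

open Complex Finset
open scoped ComplexConjugate Classical

namespace Pool.Agent.Lib.MP_696deb_nt.Y3

open CL (O nm Per FT mem_reps)

/-- The divisor sum with logarithms. -/
noncomputable def wtF (l : ℕ) (W : O → ℤ) (f : ℤ → ℤ → O → ℂ) (k : ℕ) (A : O) : ℂ :=
  ∑ x ∈ k.divisorsAntidiagonal, f x.1 x.2 A * ((lgN l W x.2 - lgN l W x.1 : ℤ) : ℂ)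

/-- The divisor sum of the tame coefficients. -/
noncomputable def wtS (l : ℕ) (π : O) (W : O → ℤ) (S : ℤ → ℤ → O → ℤ → ℂ) (k : ℕ) (A : O) : ℂ :=
  ∑ x ∈ k.divisorsAntidiagonal, wtH l π W S x.1 x.2 A

namespace WtC

variable {M l u μ k : ℕ} {π : O} {W : O → ℤ} {z z' y : ℂ} {f : ℤ → ℤ → O → ℂ}
  {S : ℤ → ℤ → O → ℤ → ℂ} (h : WtC M l u π W z z' y f S) {A : O}
include h

theorem half (hk : ∀ x ∈ k.divisorsAntidiagonal, ¬ l ∣ x.1 * x.2) {H : ℕ × ℕ → ℂ} {t K : ℂ}
    (ht : IsIntegral ℤ t)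
    (hH : (∀ x ∈ k.divisorsAntidiagonal, H x - (K - W (x.1 : ℤ)) * (t * f x.1 x.2 A) ∈ wtI u) ∨
      ∀ x ∈ k.divisorsAntidiagonal, H x - (K + W (x.2 : ℤ)) * (t * f x.1 x.2 A) ∈ wtI u) :
    2 * ∑ x ∈ k.divisorsAntidiagonal, H x - t * wtF l W f k A ∈ wtI u := by
  have key : ∀ K' : ℂ, (∀ x ∈ k.divisorsAntidiagonal, 2 * H x -
      (K' + W (x.2 : ℤ) - W (x.1 : ℤ)) * (t * f x.1 x.2 A) ∈ wtI u) →
      2 * ∑ x ∈ k.divisorsAntidiagonal, H x - t * wtF l W f k A ∈ wtI u := fun K' e => by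
    convert sum_mem e using 1
    rw [wtF, mul_sum, mul_sum, ← sub_zero (_ - _), ← mul_zero (K' * t), ← h.van k A, mul_sum,
      ← sum_sub_distrib, ← sum_sub_distrib]
    refine sum_congr rfl fun x hx => ?_
    rw [lgN_of_not W fun e => hk x hx (e.mul_left _), lgN_of_not W fun e => hk x hx (e.mul_right _)]
    push_cast
    ring
  have e : ∀ x ∈ k.divisorsAntidiagonal, ((W (k : ℤ) : ℂ) - W (x.1 : ℤ) - W (x.2 : ℤ)) *
      (t * f x.1 x.2 A) ∈ wtI u := fun x hx => by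
    refine wtI_mul ?_ (ht.mul (h.int _ _ _))
    have := h.wmul (a := x.1) (b := x.2) (by exact_mod_cast hk x hx)
    rw [← Nat.cast_mul, (Nat.mem_divisorsAntidiagonal.1 hx).1] at this
    exact_mod_cast this
  rcases hH with hH | hH
  · refine key (2 * K - W (k : ℤ)) fun x hx => ?_
    convert add_mem (add_mem (hH x hx) (hH x hx)) (e x hx) using 1
    ring
  · refine key (2 * K + W (k : ℤ)) fun x hx => ?_
    convert sub_mem (add_mem (hH x hx) (hH x hx)) (e x hx) using 1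
    ring

theorem s1 (hA : ¬ star π ∣ A) (k : ℕ) : wtS l π W S (l * k) (π * A) =
    ∑ x ∈ k.divisorsAntidiagonal, if l ∣ x.1 then 0 else wtH l π W S x.1 (l * x.2) (π * A) := by
  rw [wtS, wt_div h.tw.prime k fun c L => wtH l π W S c L (π * A), sum_eq_zero (s := k.divisorsAntidiagonal)
    (f := fun x => wtH l π W S (l * x.1 : ℕ) x.2 (π * A)) fun x _ => ?_, add_zero]
  · simp only [Nat.cast_mul]
  · rw [Nat.cast_mul, h.c3 fun e => hA ?_]
    have := e.1
    rwa [← h.tw.mul_star, mul_dvd_mul_iff_left h.tw.pr.ne_zero] at this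

theorem q1 (h1 : ¬ π ∣ A) (h2 : ¬ star π ∣ A) (hi : nm A + k = μ * l) :
    2 * wtS l π W S (l * k) (π * A) - y * wtF l W f k A ∈ wtI u := by
  have hk : ∀ x ∈ k.divisorsAntidiagonal, ¬ l ∣ x.1 * x.2 := fun x hx ⟨j, hj⟩ => by
    rw [(Nat.mem_divisorsAntidiagonal.1 hx).1] at hj
    have := (h.tw.dvd_int (nm A)).2 ⟨μ - j, by rw [hj] at hi; push_cast at hi; linear_combination hi⟩
    rw [← CL.mul_star_self] at this
    exact (h.tw.pr.dvd_or_dvd this).elim h1 fun e => h2 (CL.f3_star e)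
  obtain ⟨K, hK⟩ := h.t1 (μ := μ) h2
  rw [h.s1 h2]
  refine h.half hk (K := K) h.iy (.inl fun x hx => ?_)
  rw [if_neg fun e => hk x hx (e.mul_right _)]
  refine hK _ _ (fun e => hk x hx ((Int.natCast_dvd_natCast.1 e).mul_right _)) ?_
  rw [← hi, ← (Nat.mem_divisorsAntidiagonal.1 hx).1, Nat.cast_mul]

theorem q2 (hμ : μ < l) (h2 : ¬ star π ∣ A) (hi : nm A + k = μ) :
    2 * wtS l π W S (l * (l * k)) (π * (π * A)) - y * z * wtF l W f k A ∈ wtI u := by
  have hk : ∀ x ∈ k.divisorsAntidiagonal, ¬ l ∣ x.1 * x.2 := fun x hx =>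
    wt_nd (by have := CL.nm_nonneg A; omega) hx
  have h3 : ¬ star π ∣ π * A := fun e =>
    ((CL.f3_pstar h.tw.pr).dvd_or_dvd e).elim
      (fun e => h.tw.nd (by
        simpa only [star_star] using CL.f3_star (z := star π) (α := star π) (by simpa using e))) h2
  obtain ⟨K, hK⟩ := h.t1 (μ := μ) h3
  rw [h.s1 h3, wt_div h.tw.prime k fun c L => if l ∣ c then 0 else wtH l π W S c (l * L) (π * (π * A))]
  simp only [dvd_mul_right, if_true, sum_const_zero, add_zero]
  refine h.half hk (K := K) (h.iy.mul h.iz) (.inl fun x hx => ?_)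
  rw [if_neg fun e => hk x hx (e.mul_right _), if_neg fun e => hk x hx (e.mul_right _), mul_assoc y,
    ← h.h1, Nat.cast_mul]
  refine hK _ _ (fun e => hk x hx ((Int.natCast_dvd_natCast.1 e).mul_right _)) ?_
  rw [← hi, ← (Nat.mem_divisorsAntidiagonal.1 hx).1, CL.nm_mul, h.tw.norm]
  push_cast
  ring

theorem small (hμ : μ < l) (hi : nm A + k = μ) {w : O} (hw : nm w = l) (e : w ∣ A) : A = 0 := by
  obtain ⟨B, rfl⟩ := e
  rw [CL.nm_mul, hw] at hi
  have := CL.nm_nonneg B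
  rw [CL.nm_eq_zero.1 (show nm B = 0 by
    by_contra e
    have : (l : ℤ) * 1 ≤ l * nm B := by gcongr; omega
    omega), mul_zero]

theorem q3 (hμ : μ < l) (hi : nm A + k = μ) :
    2 * wtS l π W S (l * (l * k)) (l * A) - wtF l W f k A ∈ wtI u := by
  have hk : ∀ x ∈ k.divisorsAntidiagonal, ¬ l ∣ x.1 * x.2 := fun x hx =>
    wt_nd (by have := CL.nm_nonneg A; omega) hx
  obtain ⟨K, hK⟩ := h.t2 (A := A) (or_not_of_imp (h.small hμ hi h.tw.norm))
  rw [wtS, wt_div h.tw.prime _ fun c L => wtH l π W S c L (l * A),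
    wt_div h.tw.prime k fun c L => if l ∣ c then 0 else wtH l π W S c (l * L : ℕ) (l * A),
    wt_div h.tw.prime k fun c L => wtH l π W S (l * c : ℕ) L (l * A)]
  simp only [dvd_mul_right, if_true, sum_const_zero, add_zero, Nat.cast_mul]
  rw [sum_congr rfl (g := fun x => wtO π l W 0 * f x.1 x.2 A) fun x hx => by
    rw [if_neg fun e => hk x hx (e.mul_right _), if_neg fun e => hk x hx (e.mul_right _),
      h.t3 (μ := μ) (fun e => hk x hx ((Int.natCast_dvd_natCast.1 e).mul_right _)) (by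
        rw [← hi, ← (Nat.mem_divisorsAntidiagonal.1 hx).1, Nat.cast_mul])], ← mul_sum, h.van,
    mul_zero, zero_add, sum_eq_zero (s := k.divisorsAntidiagonal)
      (f := fun x => wtH l π W S (l * (l * x.1)) x.2 (l * A)) fun x hx =>
        h.c3 (fun e => hk x hx ((Int.natCast_dvd_natCast.1 e.2).mul_left _)) _, add_zero,
    ← one_mul (wtF l W f k A)]
  refine h.half hk (K := K) isIntegral_one (.inr fun x hx => ?_)
  rw [if_neg fun e => hk x hx (e.mul_right _), one_mul]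
  exact hK _ _ fun e => hk x hx ((Int.natCast_dvd_natCast.1 e).mul_left _)

theorem q4 (hμ : μ < l) (hi : nm A + k = μ) {B : O} {t : ℂ} (ht : ∀ c L, f c (l * L) B = t * f c L A) :
    wtF l W f (l * k) B = 2 * t * wtF l W f k A := by
  have hk : ∀ x ∈ k.divisorsAntidiagonal, ¬ l ∣ x.1 * x.2 := fun x hx =>
    wt_nd (by have := CL.nm_nonneg A; omega) hx
  rw [wtF, wt_div h.tw.prime k fun c L => f c L B * ((lgN l W L - lgN l W c : ℤ) : ℂ), wtF, mul_sum,
    ← sum_add_distrib]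
  refine sum_congr rfl fun x hx => ?_
  have e1 : ¬ l ∣ x.1 := fun e => hk x hx (e.mul_right _)
  have e2 : ¬ l ∣ x.2 := fun e => hk x hx (e.mul_left _)
  rw [if_neg e1, lgN_mul h.tw.prime W e1, lgN_mul h.tw.prime W e2, lgN_of_not W e1, lgN_of_not W e2,
    Nat.cast_mul, Nat.cast_mul, h.mul, ht]
  ring

theorem F_zero (k : ℕ) : wtF l W f k 0 = 0 := by simp [wtF, h.zero]

/-- The tame congruence. -/
theorem main (hμ : μ < l) : 2 * ∑ p ∈ wtP (μ * l * l), wtS l π W S p.1 p.2 -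
    y * (∑ p ∈ wtP (μ * l), wtF l W f p.1 p.2 - (z + z') * ∑ p ∈ wtP μ, wtF l W f p.1 p.2) ∈ wtI u := by
  have hl := h.tw.prime.pos
  have hs := (CL.nm_star π).trans h.tw.norm
  let D : ℕ → O → ℂ := fun k A => 2 * wtS l π W S (l * k) (π * A) - y * wtF l W f k A
  have e1 := wtP_div hl h.tw.norm (μ * l) (wtS l π W S)
  rw [sum_congr rfl (g := fun p => wtS l π W S p.1 p.2) fun p _ => by
    split_ifs with e
    exacts [rfl, (sum_eq_zero fun x _ => h.c0 e _ _).symm]] at e1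
  have e2 : ∑ p ∈ wtP (μ * l), D p.1 p.2 = ∑ p ∈ wtP (μ * l),
      (if π ∣ p.2 ∨ star π ∣ p.2 then 0 else D p.1 p.2) + ∑ p ∈ wtP μ, D (l * p.1) (π * p.2) +
        ∑ p ∈ wtP μ, if π ∣ star π * p.2 then 0 else D (l * p.1) (star π * p.2) := by
    rw [← wtP_div hl h.tw.norm μ D, ← wtP_div hl hs μ fun k A => if π ∣ A then 0 else D k A,
      ← sum_add_distrib, ← sum_add_distrib]
    refine sum_congr rfl fun p _ => ?_
    by_cases a : π ∣ p.2 <;> by_cases b : star π ∣ p.2 <;> simp [a, b]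
  have a1 : ∑ p ∈ wtP (μ * l), (if π ∣ p.2 ∨ star π ∣ p.2 then 0 else D p.1 p.2) ∈ wtI u :=
    sum_mem fun p hp => by
      split_ifs with e
      exacts [zero_mem _, h.q1 (μ := μ) (fun k => e (.inl k)) (fun k => e (.inr k)) (by
        rw [mem_wtP.1 hp, Nat.cast_mul])]
  have a2 : ∑ p ∈ wtP μ, (D (l * p.1) (π * p.2) + y * z * wtF l W f p.1 p.2) ∈ wtI u :=
    sum_mem fun p hp => by
      have hi := mem_wtP.1 hp
      simp only [D]
      rw [h.q4 hμ hi fun c L => h.h1 c L _]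
      by_cases e : star π ∣ p.2
      · have := h.q3 hμ hi
        rw [h.small hμ hi hs e] at this ⊢
        simpa [h.F_zero] using this
      · convert h.q2 hμ e hi using 1
        ring
  have a3 : ∑ p ∈ wtP μ, ((if π ∣ star π * p.2 then 0 else D (l * p.1) (star π * p.2)) +
      y * z' * wtF l W f p.1 p.2) ∈ wtI u := sum_mem fun p hp => by
    have hi := mem_wtP.1 hp
    split_ifs with e
    · rw [h.small hμ hi h.tw.norm ((h.tw.pr.dvd_or_dvd e).resolve_left (h.tw.nd)), h.F_zero]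
      simp
    · simp only [D]
      rw [h.q4 hμ hi fun c L => h.h2 c L _, ← mul_assoc π, h.tw.mul_star]
      convert h.q3 hμ hi using 1
      linear_combination -wtF l W f p.1 p.2 * h.yz
  convert add_mem (add_mem a1 a2) a3 using 1
  simp only [D, sum_sub_distrib, sum_add_distrib, ← mul_sum] at e2 ⊢
  linear_combination 2 * e1 + e2

end WtC

end Pool.Agent.Lib.MP_696deb_nt.Y3
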