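import Pool.Agent.Lib.MP_696deb_nt.Y3.Wd
import Pool.Agent.Lib.MP_696deb_nt.Y3.We

/-! The divisor sums at positive indices vanish. -/

set_option autoImplicit false

open Complex Finset
open scoped Real ComplexConjugate Classical

namespace Pool.Agent.Lib.MP_696deb_nt.Y3.W

open CL (O nm om op wC Per FT mem_reps)

variable {M : ℕ} {Φ : O → O → O} {a : O → ℂ} {p q k : ℕ}

theorem wv_slice {D : Finset ℕ} {L : ℕ → ℂ} {v : ℕ → ℕ}
    (h : ∀ j, ∑ c ∈ D, (if v c ≤ j then L c else 0) = 0) (w : ℕ → ℂ) :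
    ∑ c ∈ D, L c * w (v c) = 0 := by
  have k : ∀ j, ∑ c ∈ D, (if v c = j then L c else 0) = 0 := fun j => by
    cases j with
    | zero => simpa using h 0
    | succ j =>
      have e := congrArg₂ (· - ·) (h (j + 1)) (h j)
      simp only [sub_zero, ← sum_sub_distrib] at e
      refine Eq.trans (sum_congr rfl fun c _ => ?_) e
      split_ifs <;> first | omega | simp
  rw [← sum_fiberwise_of_maps_to (g := v) fun c hc => mem_image_of_mem v hc]
  refine sum_eq_zero fun j _ => ?_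
  rw [sum_congr rfl fun c hc => by rw [(mem_filter.1 hc).2], ← sum_mul, sum_filter, k, zero_mul]

theorem wv_dvd (hp : p.Prime) (hk : k ≠ 0) {c : ℕ} (hc : c ∣ k) (j : ℕ) :
    c ∣ p ^ j * ordCompl[p] k ↔ c.factorization p ≤ j := by
  have h0 : ordCompl[p] k ≠ 0 := (Nat.ordCompl_pos p hk).ne'
  have h1 : p ^ j ≠ 0 := pow_ne_zero _ hp.ne_zero
  refine ⟨fun h => ?_, fun h => ?_⟩
  · have := (Nat.factorization_le_iff_dvd (ne_zero_of_dvd_ne_zero hk hc) (mul_ne_zero h1 h0)).2 h p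
    rwa [Nat.factorization_mul h1 h0, Finsupp.add_apply, hp.factorization_pow,
      Finsupp.single_eq_same, Nat.factorization_eq_zero_of_not_dvd (Nat.not_dvd_ordCompl hp hk),
      add_zero] at this
  · rw [← Nat.ordProj_mul_ordCompl_eq_self c p]
    exact mul_dvd_mul (pow_dvd_pow p h) (Nat.ordCompl_dvd_ordCompl_of_dvd hc p)

theorem Ker.van_obs (h : Ker M Φ a) (hq : Obs q k) (hp : p.Prime) (hpq : p ≠ q) (A : O)
    (u : ℕ → ℂ) :
    ∑ x ∈ k.divisorsAntidiagonal, lamA M a x.1 x.2 A * u (x.1.factorization p) = 0 := by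
  rcases k.eq_zero_or_pos with rfl | k0
  · simp
  by_cases hk : (M : ℤ) ^ 2 ∣ nm A + k
  swap
  · refine sum_eq_zero fun x hx => mul_eq_zero_of_left (by_contra fun e => hk ?_) _
    rw [← (Nat.mem_divisorsAntidiagonal.1 hx).1, Nat.cast_mul]
    exact h.adm.lamA_supp e
  obtain ⟨k₁, k₂, rfl, h1, h2⟩ := exists_split M k0
  have n1 : k₁ ≠ 0 := left_ne_zero_of_mul k0.ne'
  have n2 : k₂ ≠ 0 := right_ne_zero_of_mul k0.ne'
  have e := h.sum_split h1 h2 1 A fun c => u (c.factorization p)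
  simp only [one_mul] at e
  rw [e, sum_congr rfl fun c₁ hc₁ => sum_congr rfl fun c₂ hc₂ => by
    rw [Nat.factorization_mul (Nat.pos_of_mem_divisors hc₁).ne' (Nat.pos_of_mem_divisors hc₂).ne',
      Finsupp.add_apply]]
  have hv : (k₁ * k₂).factorization q = k₁.factorization q + k₂.factorization q := by
    rw [Nat.factorization_mul n1 n2, Finsupp.add_apply]
  by_cases hM : q ∣ M
  · rw [sum_comm]
    refine sum_eq_zero fun c₂ _ => ?_
    simp only [mul_assoc, ← mul_sum]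
    refine mul_eq_zero_of_right _ (wv_slice (fun j => ?_) fun i => u (i + c₂.factorization p))
    have P0 : 0 < Nat.gcd k₁ (p ^ j * ordCompl[p] k₁) := Nat.gcd_pos_of_pos_left _ n1.bot_lt
    have e1 := h.dens P0 (h1.of_dvd (Nat.gcd_dvd_left _ _)) hk
    have e2 : q ^ (k₁ * k₂).factorization q ∣ Nat.gcd k₁ (p ^ j * ordCompl[p] k₁) := by
      rw [hv, Nat.factorization_eq_zero_of_not_dvd (n := k₂) fun k =>
        hq.1.one_lt.ne' (Nat.eq_one_of_dvd_coprimes h2 k hM), add_zero]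
      refine Nat.dvd_gcd (Nat.ordProj_dvd _ _) ((wv_dvd hp n1 (Nat.ordProj_dvd _ _) j).2 ?_)
      rw [hq.1.factorization_pow, Finsupp.single_eq_of_ne hpq]
      exact j.zero_le
    rw [funext fun β : O => if_neg fun k => hq.not_dvd β (Dvd.dvd.trans ?_ k), av_const,
      mul_zero] at e1
    · rw [← sum_filter]
      refine Eq.trans (sum_congr (Finset.ext fun c => ?_) fun c hc => ?_) e1
      · simp only [mem_filter, Nat.mem_divisors, Nat.dvd_gcd_iff, ne_eq, n1, P0.ne', not_false_iff,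
          and_true]
        exact and_congr_right fun hc => (wv_dvd hp n1 hc j).symm
      · rw [if_pos (Int.natCast_dvd_natCast.2
          (((Nat.dvd_of_mem_divisors hc).trans (Nat.gcd_dvd_left _ _)).mul_right _)), Nat.cast_mul]
    · rw [pow_add, mul_comm]
      exact mul_dvd_mul (pow_dvd_pow_of_dvd (Int.natCast_dvd_natCast.2 hM) 2)
        (by exact_mod_cast e2)
  · refine sum_eq_zero fun c₁ _ => ?_
    obtain ⟨h3, h4⟩ := hq.2.resolve_right fun k => hM (k.1 ▸ Dvd.dvd.trans ⟨7, rfl⟩ h.adm.lev)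
    rw [hv, Nat.factorization_eq_zero_of_not_dvd (n := k₁) fun k => hM (h1 q hq.1 k), zero_add] at h4
    simp only [mul_comm (et _ : ℂ) (lamA _ _ _ _ _), mul_assoc, ← mul_sum]
    exact mul_eq_zero_of_right _ (et_sum_zero hp hq.1 hpq h3 h4 fun i => u (c₁.factorization p + i))

theorem Ker.van (h : Ker M Φ a) (hp : p.Prime) (h3 : ¬ (p % 3 = 2 ∧ Odd (k.factorization p)))
    (A : O) (u : ℕ → ℂ) :
    ∑ x ∈ k.divisorsAntidiagonal, lamA M a x.1 x.2 A * u (x.1.factorization p) = 0 := by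
  rcases k.eq_zero_or_pos with rfl | k0
  · simp
  obtain ⟨q, hq⟩ := exists_obs k0
  rcases ne_or_eq p q with e | rfl
  · exact h.van_obs hq hp e A u
  obtain ⟨rfl, -⟩ := hq.2.resolve_left h3
  refine Eq.trans (sum_congr rfl fun x _ => ?_)
    (h.van_obs hq Nat.prime_two (by decide) A fun _ => u 0)
  by_cases e : 3 ∣ x.1
  · rw [lamA_of_Wt (by omega), zero_mul, zero_mul]
  · rw [Nat.factorization_eq_zero_of_not_dvd e]

theorem Ker.van_one (h : Ker M Φ a) (k : ℕ) (A : O) :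
    ∑ x ∈ k.divisorsAntidiagonal, lamA M a x.1 x.2 A = 0 := by
  simpa using h.van (k := k) Nat.prime_three (by simp) A fun _ => 1

theorem Ker.van_not_dvd (h : Ker M Φ a) (hp : p.Prime) (h3 : p % 3 ≠ 2) (k : ℕ) (A : O) :
    ∑ x ∈ k.divisorsAntidiagonal, (if p ∣ x.1 then 0 else lamA M a x.1 x.2 A) = 0 := by
  refine Eq.trans (sum_congr rfl fun x hx => ?_)
    (h.van (k := k) hp (fun e => h3 e.1) A fun j => if j = 0 then 1 else 0)
  have := Nat.left_ne_zero_of_mem_divisorsAntidiagonal hx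
  by_cases e : p ∣ x.1
  · rw [if_pos e, if_neg (hp.factorization_pos_of_dvd this e).ne', mul_zero]
  · rw [if_neg e, if_pos (Nat.factorization_eq_zero_of_not_dvd e), mul_one]

theorem Ker.hol_zero (h : Ker M Φ a) (μ : ℕ) : (sec M a).hol μ = 0 := by
  refine sum_eq_zero fun k _ => ?_
  simp only [lam_sec]
  rw [sum_comm]
  exact sum_eq_zero fun A _ => h.van_one k A

theorem Ker.cA_zero (h : Ker M Φ a) (hp : p.Prime)
    (h3 : ¬ (p % 3 = 2 ∧ Odd (k.factorization p))) (A : O) : cA M a p k A = 0 := by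
  refine Eq.trans (sum_congr rfl fun x hx => ?_)
    (h.van hp h3 A fun j => k.factorization p - 2 * j)
  rw [← (Nat.mem_divisorsAntidiagonal.1 hx).1, Nat.factorization_mul
    (Nat.left_ne_zero_of_mem_divisorsAntidiagonal hx)
    (Nat.right_ne_zero_of_mem_divisorsAntidiagonal hx), Finsupp.add_apply]
  push_cast
  ring

theorem Ker.cP_zero (h : Ker M Φ a) (hp : p.Prime) (h3 : p % 3 ≠ 2) (μ : ℕ) : cP M a p μ = 0 :=
  sum_eq_zero fun _ _ => sum_eq_zero fun A _ => h.cA_zero hp (fun e => h3 e.1) A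

end Pool.Agent.Lib.MP_696deb_nt.Y3.W
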