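import Pool.Agent.Lib.MP_696deb_nt.Y3.WT3
import Pool.Agent.Lib.MP_696deb_nt.Y3.Wv
import Pool.Agent.Lib.MP_696deb_nt.Y3.Wq
import Pool.Agent.Lib.MP_696deb_nt.Y3.D1
import Pool.Agent.Lib.MP_696deb_nt.EV.G0a

/-! The tame formula. -/

set_option autoImplicit false

open Complex Finset
open scoped ComplexConjugate Classical

namespace Pool.Agent.Lib.MP_696deb_nt.Y3

open CL (O nm Per FT mem_reps)

theorem wt_jc {e : ℂ} (h : IsIntegral ℤ e) : ∃ X : EV.Qbar, EV.w3.V X ≤ 1 ∧ EW.jc X = e := by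
  obtain ⟨p, hp, he⟩ := h
  obtain ⟨X, rfl⟩ := (IsAlgClosed.splits (p.map (algebraMap ℤ EV.Qbar))).mem_range_of_isRoot
    (hp.map _).ne_zero (i := EW.jc) (x := e) (by
      rw [Polynomial.map_map, Polynomial.IsRoot, Polynomial.eval_map,
        Subsingleton.elim (EW.jc.comp _) (algebraMap ℤ ℂ)]
      exact he)
  exact ⟨X, EV.w3.V_le_one_of_isIntegral ((isIntegral_algHom_iff EW.jc.toIntAlgHom
    EW.jc.injective).1 ⟨p, hp, he⟩), rfl⟩

theorem wt_unit {g : O} (h : g ^ 6 = 1) : star g * g = 1 := by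
  have e : nm g ^ 6 = 1 := by rw [CL.nm_eq, ← map_pow, h, map_one]
  rw [mul_comm, CL.mul_star_self,
    (pow_eq_one_iff_of_nonneg (CL.nm_nonneg g) (by norm_num)).1 e, Int.cast_one]

theorem hol_sec (M : ℕ) (a : O → ℂ) (μ : ℕ) : (sec M a).hol μ =
    ∑ p ∈ wtP μ, ∑ x ∈ p.1.divisorsAntidiagonal, lamA M a x.1 x.2 p.2 := by
  rw [sum_wtP μ fun k A => ∑ x ∈ k.divisorsAntidiagonal, lamA M a x.1 x.2 A, Y2.An.Sec.hol]
  exact sum_congr rfl fun k _ => by simp only [lam_sec]; exact sum_comm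

theorem finL_sec (M : ℕ) (a : O → ℂ) (l : ℕ) (W : O → ℤ) (t : ℂ) (μ : ℕ) :
    ∑ p ∈ wtP μ, wtF l W (fun c L A => t * lamA M a c L A) p.1 p.2 =
      t * finL (sec M a) (lgN l W) μ := by
  rw [sum_wtP, finL, mul_sum]
  refine sum_congr rfl fun k _ => ?_
  simp only [lam_sec, wtF, sum_mul, mul_sum, mul_assoc]
  exact sum_comm

namespace W

variable {M : ℕ} {ψ a : O → ℂ} {κ : O → O} {Φ : O → O → O}

theorem Hom.wt_hom (h : Hom M ψ κ) (ha : Adm M (iFT M ψ)) {t : O} (ht : IsCoprime t (M : O))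
    (c L : ℤ) (A : O) :
    lamA M (iFT M ψ) c (nm t * L) (t * A) = CL.toC (κ t) * lamA M (iFT M ψ) c L A := by
  have hs := cop_star ht
  obtain ⟨k, s, e⟩ : IsCoprime (nm t) ((M : ℤ) ^ 2) := (cop_norm.1 ht).pow_right
  obtain ⟨p, q, e'⟩ := hs
  rw [ha.lamA_hom (k := k) ⟨-s, by linear_combination e⟩ (τ := CL.toC (star (κ (star t))))
    fun x => ?_, ← map_mul, h.nrm t ht]
  rw [iFT, iFT, FT_eq, FT_eq, ← mul_div_assoc, ← sm_mul ha.pos (k := star t) (k' := p)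
    (f := fun y => ψ y * q1 ((sp y x : ℤ) / M)) (fun y γ =>
      congrArg₂ _ (h.per y γ) (q1_sp_per ha.pos _ y γ)) ⟨-q, by linear_combination e'⟩, ← sm_mul_left]
  refine congrArg (· / _) (sm_congr fun y => ?_)
  rw [h.eq _ ⟨p, q, e'⟩, ← mul_assoc, ← mul_assoc, ← map_mul, wt_unit (h.six _ ⟨p, q, e'⟩), map_one,
    one_mul, show sp (star t * y) x = sp y (t * x) by simp [sp]; ring]

theorem Ker.lam_rat (h : Ker M Φ a) :
    ∃ den : ℕ, 0 < den ∧ ∀ n c l, ∃ e : O, den * (sec M a).lam n c l = CL.toC e := by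
  refine ⟨3 * M ^ 4, by have := h.adm.pos; positivity, fun n c l => ?_⟩
  choose g hg using h.lam_int c l
  refine ⟨∑ A ∈ CL.reps n, g A, ?_⟩
  rw [lam_sec, mul_sum, map_sum, Nat.cast_mul, Nat.cast_pow]
  exact sum_congr rfl fun A _ => hg A

/-- The tame formula for an eigenfunction. -/
theorem Hom.tame (hh : Hom M ψ κ) (hk : Ker M Φ (iFT M ψ)) {π : O} {l u : ℕ} {W : O → ℤ}
    (hB : M ^ 2 < l) (h : TWt π l u W) : ∃ (z : O) (X : EV.Qbar), z ^ 6 = 1 ∧ EV.w3.V X ≤ 1 ∧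
      (M ^ 4 : ℕ) * (2 * l * (sec (M * l) (iFT (M * l) fun y => ψ y * W y)).hol (M ^ 2 * l ^ 2) -
        CL.toC z * (finL (sec M (iFT M ψ)) (lgN l W) (M ^ 2 * l) - CL.toC (κ π + κ (star π)) *
          finL (sec M (iFT M ψ)) (lgN l W) (M ^ 2))) = EW.jc (3 ^ u * X) := by
  have ha := hk.adm
  have M0 := ha.pos
  have l0 : (l : ℂ) ≠ 0 := by exact_mod_cast h.prime.ne_zero
  have nM : ¬ (l : ℤ) ∣ M := fun e => by
    have := Nat.le_of_dvd M0 (Int.natCast_dvd_natCast.1 e)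
    nlinarith
  have c0 : IsCoprime (l : ℤ) (M : ℤ) := h.prZ.irreducible.coprime_iff_not_dvd.2 nM
  have c1 : IsCoprime π (M : O) := cop_norm.2 (h.norm ▸ c0)
  have c2 := cop_star c1
  let a := iFT M ψ
  let t : ℂ := (M ^ 4 : ℕ)
  let S : ℤ → ℤ → O → ℤ → ℂ := fun c L A r =>
    t * sm M fun x => a x * wtT (M * l) c L A (l * x + M * (π * r))
  have hc : WtC M l u π W (CL.toC (κ π)) (CL.toC (κ (star π))) (CL.toC (star (κ (star π))))
      (fun c L A => t * lamA M a c L A) S := by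
    refine ⟨h, nM, wt_int_O _, wt_int_O _, by rw [← map_mul, wt_unit (hh.six _ c2), map_one],
      wt_int_lamA ha.pos fun x => ?_, fun k A => by rw [← mul_sum, hk.van_one, mul_zero],
      fun c L A => by rw [← h.norm, hh.wt_hom ha c1, mul_left_comm],
      fun c L A => by rw [← h.norm, ← CL.nm_star, hh.wt_hom ha c2, mul_left_comm],
      fun c L A => by
        rw [hk.hom l c0, et_congr (b := 1) (by have := h.one; omega), et_one, Int.cast_one, one_mul],
      fun c L => by rw [ha.lamA_at_zero, mul_zero],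
      fun c L A γ A' L' e1 e2 => by rw [ha.lamA_shift e1 e2],
      fun c L A r A' L' e1 e2 => by
        simp only [S, wtT_up ha.pos ha.lev h.prime.pos e1 e2, lamA_eq], fun c L A r e => ?_⟩
    · obtain ⟨g, e⟩ := hh.alg x
      exact e ▸ wt_int_O g
    · by_contra k
      refine e (mul_eq_zero_of_right _ ?_)
      rw [sm_congr (g := fun _ => 0) fun x => mul_eq_zero_of_right _
        (by_contra fun e => k (wtT_supp ha.pos ha.lev h.prime.pos e))]
      simp [sm]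
  obtain ⟨e, he, e1⟩ := hc.main hB
  obtain ⟨X, hX, rfl⟩ := wt_jc he
  refine ⟨star (κ (star π)), X, by rw [← star_pow, hh.six _ c2, star_one], hX, ?_⟩
  have e2 : ∀ c L A, wtH l π W S c L A =
      t * l * lamA (M * l) (iFT (M * l) fun y => ψ y * W y) c L A := fun c L A => by
    rw [lamA_eq, h.expand ha.pos hh.per (wtT_per (Nat.mul_pos ha.pos h.prime.pos) c L A), mul_sum]
    refine sum_congr rfl fun r _ => ?_
    simp only [S]
    field_simp
    rfl
  rw [finL_sec, finL_sec] at e1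
  simp only [wtS, e2, ← mul_sum] at e1
  rw [map_mul, map_pow, map_ofNat, ← e1, hol_sec, sq l, ← mul_assoc, map_add]
  ring

end W

namespace Dat

variable (d : Dat) {Φ : O → O → O}

/-- The tame formula. -/
theorem tame_of (hh : W.Hom (3 * d.N) d.ps d.kap) (hk : W.Ker (3 * d.N) Φ (iFT (3 * d.N) d.ps)) :
    ∃ den B : ℕ, 0 < den ∧ ∀ (π : O) (l u : ℕ) (W : O → ℤ), B < l → TWt π l u W →
      ∃ (z : O) (X : EV.Qbar), z ^ 6 = 1 ∧ EV.w3.V X ≤ 1 ∧
        den * (2 * l * (d.St l W).hol (d.mu (l ^ 2)) - CL.toC z * (finL d.S (lgN l W) (d.mu l) -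
          CL.toC (d.kap π + d.kap (star π)) * finL d.S (lgN l W) (d.mu 1))) = EW.jc (3 ^ u * X) := by
  refine ⟨(3 * d.N) ^ 4, (3 * d.N) ^ 2, by have := d.pos; positivity, fun π l u W hB h => ?_⟩
  have e : ∀ m, d.mu m = (3 * d.N) ^ 2 * m := fun m => by rw [mu]; ring
  rw [e, e, e, mul_one]
  exact hh.tame hk hB h

end Dat

end Pool.Agent.Lib.MP_696deb_nt.Y3
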