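import Pool.Agent.Lib.MP_696deb_nt.Y3.W0
import Pool.Agent.Lib.MP_696deb_nt.Y3.TH3

/-! Mean values on the Eisenstein integers. -/

set_option autoImplicit false

open Complex Finset
open scoped Real ComplexConjugate Classical

namespace Pool.Agent.Lib.MP_696deb_nt.Y3.W

open CL (O nm om op wC Per FT mem_reps)

variable {Γ : Type} [AddCommGroup Γ] {P : ℕ}

theorem pe_iff_per {f : O → ℂ} : Pe P f ↔ Per P f := by simp only [Pe, Per, nsmul_eq_mul]

theorem cg_bil {φ φ' : Γ →+ O} : Cg fun x => bil (φ x) (φ' x) := fun P x y =>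
  ⟨bil (φ x) (φ' y) + bil (φ y) (φ' x) + P * bil (φ y) (φ' y), by simp [bil]; ring⟩

theorem cg_bil_left (φ : Γ →+ O) (z : O) : Cg fun x => bil (φ x) z := fun P x y =>
  ⟨bil (φ y) z, by simp [bil]; ring⟩

theorem cg_sp_left (φ : Γ →+ O) (z : O) : Cg fun x => sp (φ x) z := fun P x y =>
  ⟨sp (φ y) z, by simp [sp]; ring⟩

theorem cg_norm (φ : Γ →+ O) : Cg fun x => nm (φ x) := fun P x y =>
  ⟨bil (φ x) (φ y) + P * nm (φ y), by simp [bil, nm]; ring⟩

theorem av_QI [Module.Finite ℤ Γ] {f : Γ → ℂ} (hf : PP f) (h : ∀ x, QI (f x)) : QI (Av f) := by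
  obtain ⟨P, hP, k⟩ := hf
  obtain ⟨R, -, -, e⟩ := exists_rep (Γ := Γ) hP
  choose a b hab using h
  refine ⟨(∑ r ∈ R, a r) / R.card, (∑ r ∈ R, b r) / R.card, ?_⟩
  simp only [e f k, hab, sum_add_distrib, ← sum_mul]
  push_cast
  ring

theorem av_G {f : O → ℂ} (hP : 0 < P) (h : Per P f) : Av f = sm P f / P ^ 2 := by
  have r := EW.isRep_box hP
  have i : Function.Injective fun p : ℕ × ℕ => (⟨p.1, p.2⟩ : O) := fun p q e => by
    simpa [Prod.ext_iff] using e
  rw [wa_rep (fun x => ?_) (pe_iff_per.2 h), sum_image i.injOn, card_image_of_injective _ i,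
    sum_product, card_product, card_range, Nat.cast_mul, sm, sq]
  obtain ⟨a, a1, y, a2⟩ := r.ex x
  refine ⟨a, ⟨a1, y, by rw [nsmul_eq_mul, ← a2, add_sub_cancel]⟩, fun b ⟨b1, z, b2⟩ =>
    r.uq _ b1 _ a1 ⟨y - z, ?_⟩⟩
  rw [nsmul_eq_mul] at b2
  linear_combination a2 - b2

theorem av_unit {f : O → ℂ} (hP : 0 < P) (hf : Per P f) {t : O} (ht : IsCoprime t (P : O)) :
    Av (fun x => f (t * x)) = Av f := by
  obtain ⟨a, b, k⟩ := ht
  exact av_comp hP (pe_iff_per.2 hf) (AddMonoidHom.mulLeft t) fun x => ⟨a * x, b * x, by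
    rw [AddMonoidHom.coe_mulLeft, nsmul_eq_mul]
    linear_combination -x * k⟩

theorem av_dvd {f : O → ℂ} (hf : PP f) {z : O} (hz : z ≠ 0) :
    Av (fun x => f (z * x)) = nm z * Av fun x => if z ∣ x then f x else 0 := by
  have e : ((AddMonoidHom.mulLeft z).range.index : ℤ) = nm z := by
    rw [← EW.card_quot, show (AddMonoidHom.mulLeft z).range = (Ideal.span {z}).toAddSubgroup from
      AddSubgroup.ext fun x => (Ideal.mem_span_singleton.trans ⟨fun ⟨y, h⟩ => ⟨y, h.symm⟩,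
        fun ⟨y, h⟩ => ⟨y, h.symm⟩⟩).symm]
    rfl
  have n : (AddMonoidHom.mulLeft z).range.index ≠ 0 := fun k =>
    hz (CL.nm_eq_zero.1 (by rw [← e, k, Nat.cast_zero]))
  have p : PP fun x => if z ∣ x then (1 : ℂ) else 0 := ⟨_, Nat.pos_of_ne_zero n, fun x y =>
    if_congr (dvd_add_left (by
      rw [nsmul_eq_mul, ← Int.cast_natCast, e, ← CL.mul_star_self, mul_assoc]
      exact dvd_mul_right _ _)) rfl rfl⟩
  have h := av_sub (p.mul hf) (AddMonoidHom.mulLeft z) n fun x k => by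
    by_contra k0
    exact k (by rw [if_neg (show ¬ z ∣ x from k0), zero_mul])
  rw [← Int.cast_natCast, e] at h
  simpa using h

/-- A periodic function is determined by its Fourier coefficients. -/
theorem fourier_zero {f : O → ℂ} (hP : 0 < P) (hf : Per P f)
    (h : ∀ y, Av (fun x => f x * q1 ((sp x y : ℤ) / P)) = 0) (x : O) : f x = 0 := by
  have n : (P : ℂ) ^ 2 ≠ 0 := pow_ne_zero 2 (Nat.cast_ne_zero.2 hP.ne')
  have e : FT P f = fun _ => 0 := funext fun y => by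
    have k := h y
    rwa [av_G hP fun a b => congrArg₂ (· * ·) (hf a b) (q1_sp_per hP y a b), div_eq_zero_iff,
      or_iff_left n, ← FT_eq] at k
  rw [← iFT_FT hP hf, e, iFT, FT_eq]
  simp [sm]

end Pool.Agent.Lib.MP_696deb_nt.Y3.W
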