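import Pool.Agent.Lib.MP_696deb_nt.Y3.Wh

/-! Divisor sums of the coefficients are densities. -/

set_option autoImplicit false

open Complex Finset
open scoped Real ComplexConjugate Classical

namespace Pool.Agent.Lib.MP_696deb_nt.Y3.W

open CL (O nm om op wC Per FT mem_reps)

variable {M : ℕ} {Φ : O → O → O} {a : O → ℂ}

theorem sum_coprime {P : ℕ} (hP : 0 < P) (t : ℤ) :
    ∑ c ∈ P.divisors, ∑ d ∈ (range c).filter c.Coprime, q1 (d * t / c) =
      if (P : ℤ) ∣ t then (P : ℂ) else 0 := by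
  rw [← sum_char hP, ← Nat.sum_div_divisors P fun c =>
    ∑ d ∈ (range c).filter c.Coprime, q1 (d * t / c),
    ← sum_fiberwise_of_maps_to (s := range P) (t := P.divisors) (g := fun j => P.gcd j)
      fun j _ => Nat.mem_divisors.2 ⟨Nat.gcd_dvd_left _ _, hP.ne'⟩]
  refine sum_congr rfl fun g hg => ?_
  obtain ⟨c, rfl⟩ := Nat.dvd_of_mem_divisors hg
  have g0 : 0 < g := Nat.pos_of_mul_pos_right hP
  have g1 : (g : ℂ) ≠ 0 := Nat.cast_ne_zero.2 g0.ne'
  rw [Nat.mul_div_cancel_left _ g0]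
  refine sum_bij (fun d _ => g * d) (fun d hd => ?_) (fun d _ d' _ e => Nat.eq_of_mul_eq_mul_left g0 e)
    (fun j hj => ?_) fun d _ => ?_
  · rw [mem_filter, mem_range] at hd ⊢
    exact ⟨Nat.mul_lt_mul_of_pos_left hd.1 g0, by rw [Nat.gcd_mul_left, hd.2, mul_one]⟩
  · rw [mem_filter, mem_range] at hj
    obtain ⟨d, rfl⟩ : g ∣ j := hj.2 ▸ Nat.gcd_dvd_right _ _
    refine ⟨d, mem_filter.2 ⟨mem_range.2 (Nat.lt_of_mul_lt_mul_left hj.1), ?_⟩, rfl⟩
    have := hj.2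
    rw [Nat.gcd_mul_left] at this
    exact Nat.eq_of_mul_eq_mul_left g0 (this.trans (mul_one g).symm)
  · push_cast
    rw [mul_assoc, mul_div_mul_left _ _ g1]

theorem wd_pp (h : Ker M Φ a) (A : O) : PP fun β : O => CL.toC (Φ A β) :=
  (pe_iff_per (P := M ^ 2) (f := fun β => CL.toC (Φ A β)).2 fun α γ =>
    congrArg CL.toC (h.per A α γ)).pp (pow_pos h.adm.pos 2)

theorem wd_q (hM : 0 < M) {c : ℕ} (hc : 0 < c) (d k : ℤ) :
    PP fun β : O => q1 (d * (nm β + k : ℤ) / (c * M ^ 2)) := by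
  have := ((cg_const d).mul ((cg_norm (AddMonoidHom.id O)).add (cg_const k))).pp_q1
    (n := c * M ^ 2) (by positivity)
  simpa only [Int.cast_mul, Int.cast_natCast, Int.cast_pow, Int.cast_ofNat,
    AddMonoidHom.id_apply] using this

theorem wd_dvd (h : Ker M Φ a) {k : ℤ} {A β : O}
    (hk : (M : ℤ) ^ 2 ∣ nm A + k) (h0 : Φ A β ≠ 0) :
    (M : ℤ) ^ 2 ∣ nm β + k := by
  obtain ⟨u, hu⟩ := dvd_sub hk (h.supp A β h0)
  exact ⟨u, by linarith⟩

theorem wd_mat (h : Ker M Φ a) {c : ℕ} (hc : 0 < c) {d : ℤ} (hd : IsCoprime (c : ℤ) d) (k : ℤ)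
    (A : O) : Wt c d * ph M a c d A * q1 (d * k / (c * M ^ 2)) =
      c * Av fun β : O => CL.toC (Φ A β) * q1 (d * (nm β + k : ℤ) / (c * M ^ 2)) := by
  have := (wd_pp h A).mul (wd_q h.adm.pos hc d 0)
  simp only [add_zero] at this
  rw [h.mat c d hc hd, mul_assoc, mul_comm (Av _), ← av_mul_left this]
  congr 2
  funext β
  rw [mul_left_comm, ← q1_add]
  congr 2
  push_cast
  ring

theorem wd_zero (h : Ker M Φ a) {c : ℕ} (hs : Smo M c) {d : ℤ} (hd : ¬ IsCoprime (c : ℤ) d)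
    (A : O) : Wt c d * ph M a c d A = 0 := by
  rw [Int.isCoprime_iff_gcd_eq_one] at hd
  obtain ⟨p, hp, k⟩ := Nat.exists_prime_and_dvd hd
  have k1 : (p : ℤ) ∣ c := (Int.natCast_dvd_natCast.2 k).trans (Int.gcd_dvd_left _ _)
  exact h.prim p c d A hp (hs p hp (Int.natCast_dvd_natCast.1 k1)) k1
    ((Int.natCast_dvd_natCast.2 k).trans (Int.gcd_dvd_right _ _))

theorem wd_pe (h : Ker M Φ a) {c : ℕ} (hc : 0 < c) (hs : Smo M c) {k : ℤ} {A : O}
    (hk : (M : ℤ) ^ 2 ∣ nm A + k) :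
    Pe c fun d : ℤ => Wt c d * ph M a c d A * q1 (d * k / (c * M ^ 2)) := fun d y => by
  have c0 : (c : ℂ) ≠ 0 := Nat.cast_ne_zero.2 hc.ne'
  have M0 : (M : ℂ) ≠ 0 := Nat.cast_ne_zero.2 h.adm.pos.ne'
  rw [nsmul_eq_mul]
  by_cases hd : IsCoprime (c : ℤ) d
  · simp only
    rw [wd_mat h hc hd, wd_mat h hc (hd.add_mul_left_right y)]
    congr 2
    funext β
    by_cases h0 : Φ A β = 0
    · simp [h0]
    obtain ⟨t, ht⟩ := wd_dvd h hk h0
    rw [ht]
    refine congrArg _ (q1_congr (y * t) ?_)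
    push_cast
    field_simp
  · simp only
    rw [wd_zero h hs hd, wd_zero h hs fun e => hd e.of_add_mul_left_right, zero_mul, zero_mul]

theorem Ker.lam_av (h : Ker M Φ a) {c : ℕ} (hc : 0 < c) (hs : Smo M c) {k : ℤ} {A : O}
    (hk : (M : ℤ) ^ 2 ∣ nm A + k) :
    Av (fun β : O => CL.toC (Φ A β) * ∑ d ∈ (range c).filter c.Coprime,
      q1 (d * (nm β + k : ℤ) / (c * M ^ 2))) =
        if (c : ℤ) ∣ k then lamA M a c (k / c) A else 0 := by
  have c0 : (c : ℂ) ≠ 0 := Nat.cast_ne_zero.2 hc.ne'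
  have M0 : (M : ℂ) ≠ 0 := Nat.cast_ne_zero.2 h.adm.pos.ne'
  have h7 : 7 ∣ M := Dvd.dvd.trans (by norm_num) h.adm.lev
  have hp := wd_pe h hc hs hk
  trans Av fun d : ℤ => Wt c d * ph M a c d A * q1 (d * k / (c * M ^ 2))
  · simp only [mul_sum]
    rw [av_sum fun d _ => by
      simpa only [Int.cast_natCast] using (wd_pp h A).mul (wd_q h.adm.pos hc (d : ℕ) k),
      av_int hc hp, eq_div_iff c0, sum_mul, sum_filter]
    refine sum_congr rfl fun d _ => ?_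
    split_ifs with hd
    · rw [wd_mat h hc (Nat.isCoprime_iff_coprime.2 hd), mul_comm, Int.cast_natCast]
    · rw [wd_zero h hs fun e => hd (Nat.isCoprime_iff_coprime.1 e), zero_mul]
  split_ifs with hd
  · obtain ⟨l, rfl⟩ := hd
    rw [Int.mul_ediv_cancel_left _ (Int.natCast_ne_zero.2 hc.ne'), lamA_av h.adm.pos h7]
    congr 2 with d
    congr 2
    push_cast
    field_simp
  · refine av_zero_of_shift (hp.pp hc) (s := (M ^ 2 : ℕ) • 1) (ζ := q1 (k / (c : ℤ)))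
      (fun d => ?_) fun e => hd ((q1_div_eq_one (Int.natCast_ne_zero.2 hc.ne')).1 e)
    have := pe_Wt_ph h.adm.pos h7 a c A d 1
    simp only at this
    rw [this, mul_left_comm (q1 _), ← q1_add]
    congr 2
    rw [nsmul_eq_mul]
    push_cast
    field_simp
    ring

theorem Ker.dens (h : Ker M Φ a) {P : ℕ} (hP : 0 < P) (hs : Smo M P) {k : ℤ} {A : O}
    (hk : (M : ℤ) ^ 2 ∣ nm A + k) :
    ∑ c ∈ P.divisors, (if (c : ℤ) ∣ k then lamA M a c (k / c) A else 0) =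
      P * Av fun β : O => if (M : ℤ) ^ 2 * P ∣ nm β + k then CL.toC (Φ A β) else 0 := by
  have M0 : (M : ℂ) ≠ 0 := Nat.cast_ne_zero.2 h.adm.pos.ne'
  have M1 : (M : ℤ) ^ 2 ≠ 0 := by have := h.adm.pos; positivity
  have pp : PP fun β : O => if (M : ℤ) ^ 2 * P ∣ nm β + k then CL.toC (Φ A β) else 0 :=
    ((cg_norm (AddMonoidHom.id O)).add (cg_const k)).pp_dvd
      (mul_ne_zero M1 (Int.natCast_ne_zero.2 hP.ne')) (wd_pp h A)
  rw [← sum_congr rfl fun c hc => h.lam_av (Nat.pos_of_mem_divisors hc)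
    (fun p hp k => hs p hp (k.trans (Nat.dvd_of_mem_divisors hc))) hk,
    ← av_sum fun c hc => (wd_pp h A).mul (PP.sum fun d _ => by
      simpa only [Int.cast_natCast] using wd_q h.adm.pos (Nat.pos_of_mem_divisors hc) (d : ℕ) k),
    ← av_mul_left pp]
  congr 1 with β
  by_cases h0 : Φ A β = 0
  · simp [h0]
  obtain ⟨t, ht⟩ := wd_dvd h hk h0
  have e : ∀ c d : ℕ, (d : ℂ) * ((M : ℤ) ^ 2 * t : ℤ) / (c * M ^ 2) = d * t / c :=
    fun c d => by
      push_cast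
      rw [mul_left_comm, mul_comm (c : ℂ),
        mul_div_mul_left _ _ (pow_ne_zero 2 M0)]
  rw [ht]
  simp only [e, ← mul_sum, sum_coprime hP, mul_dvd_mul_iff_left M1]
  split_ifs
  exacts [mul_comm _ _, by simp]

end Pool.Agent.Lib.MP_696deb_nt.Y3.W
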