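import Pool.Agent.Lib.MP_696deb_nt.Y3.Wb
import Pool.Agent.Lib.MP_696deb_nt.Y3.D1

/-! Gauss sums on the matrices that vanish. -/

set_option autoImplicit false

open Complex Finset
open scoped Real ComplexConjugate Classical

namespace Pool.Agent.Lib.MP_696deb_nt.Y3.W

open CL (O nm om op wC Per FT mem_reps)

variable {c d T : ℤ} {Z : MZ}

theorem wg1_det (g h : MZ) (k : ℤ) :
    (g + k • h).det = g.det + k * (pr g h + k * h.det) := by
  simp only [Matrix.det_fin_two, pr, Matrix.add_apply, Matrix.smul_apply, smul_eq_mul]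
  ring

theorem wg1_pr (g h Z : MZ) (k : ℤ) : pr (g + k • h) Z = pr g Z + k * pr h Z := by
  simp only [pr, Matrix.add_apply, Matrix.smul_apply, smul_eq_mul]
  ring

theorem wg1_smul (g Z : MZ) (k : ℤ) : pr g (k • Z) = k * pr g Z := by
  simp only [pr, Matrix.smul_apply, smul_eq_mul]
  ring

theorem wg1_left (g Z : MZ) (k : ℤ) : pr (k • g) Z = k * pr g Z := by
  simp only [pr, Matrix.smul_apply, smul_eq_mul]
  ring

/-- The phase after a shift by a multiple of `c`. -/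
theorem wg1_sh (hc : c ≠ 0) (d : ℤ) (Z : MZ) (T : ℤ) (g h : MZ) :
    q1 ((-(3 * d * (g + c • h).det : ℤ) - (pr (g + c • h) Z : ℤ) / T) / (3 * c)) =
      q1 ((-pr h Z : ℤ) / (3 * T : ℤ)) *
        q1 ((-(3 * d * g.det : ℤ) - (pr g Z : ℤ) / T) / (3 * c)) := by
  have c0 : (c : ℂ) ≠ 0 := Int.cast_ne_zero.2 hc
  rw [← q1_add, wg1_det, wg1_pr]
  refine wa_q1 (-(d * (pr g h + c * h.det))) ?_
  push_cast
  simp only [div_eq_mul_inv _ (T : ℂ), div_eq_mul_inv _ (3 * T : ℂ), mul_inv]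
  field_simp
  ring

theorem pp_w0 : PP fun g : MZ => CL.toC (w0 g) :=
  ⟨21, by norm_num, fun x y => congrArg _ (w0_per x _ ⟨y 0 0, by simp⟩ ⟨y 1 0, by simp⟩)⟩

theorem pp_gs (hc : c ≠ 0) (hT : T ≠ 0) (d : ℤ) (Z : MZ) : PP fun g : MZ =>
    CL.toC (w0 g) * q1 ((-(3 * d * g.det : ℤ) - (pr g Z : ℤ) / T) / (3 * c)) := by
  have c0 : (c : ℂ) ≠ 0 := Int.cast_ne_zero.2 hc
  have T0 : (T : ℂ) ≠ 0 := Int.cast_ne_zero.2 hT
  have k : Cg fun g : MZ => -(3 * d * g.det) * T - pr g Z := fun P x y =>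
    ⟨-(3 * d * (pr x y + P * y.det)) * T - pr y Z, by
      simp only [← natCast_zsmul, wg1_det, wg1_pr]
      ring⟩
  have l := pp_w0.mul (k.pp_q1 (n := 3 * c * T) (mul_ne_zero (mul_ne_zero three_ne_zero hc) hT))
  convert l using 4 with g
  push_cast
  field_simp

theorem gs_scale {k : ℤ} (hk : k ≠ 0) (c d : ℤ) (Z : MZ) (T : ℤ) :
    Gs c d (k • Z) (k * T) = Gs c d Z T := by
  have k0 : (k : ℂ) ≠ 0 := Int.cast_ne_zero.2 hk
  simp only [Gs, wg1_smul, Int.cast_mul k, mul_div_mul_left _ _ k0]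

theorem wg1_dvd (hc : c ≠ 0) (hT : T ≠ 0) (h : Gs c d Z T ≠ 0) (δ : MZ) (h0 : 21 ∣ c * δ 0 0)
    (h1 : 21 ∣ c * δ 1 0) : 3 * T ∣ pr δ Z := by
  by_contra e
  refine h (av_zero_of_shift (pp_gs hc hT d Z) (s := c • δ) (fun g => ?_)
    (mt (q1_div_eq_one (mul_ne_zero three_ne_zero hT)).1 (mt dvd_neg.1 e)))
  rw [wg1_sh hc, w0_per g _ h0 h1, mul_left_comm]

theorem wg1_all (h : ∀ δ, T ∣ pr δ Z) : ∃ Z' : MZ, Z = T • Z' := by
  refine d1_smul fun i j => ?_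
  fin_cases i <;> fin_cases j
  · simpa [pr] using h !![0, 0; 0, 1]
  · simpa [pr] using h !![0, 0; 1, 0]
  · simpa [pr] using h !![0, 1; 0, 0]
  · simpa [pr] using h !![1, 0; 0, 0]

theorem wg1_mul (hc : c ≠ 0) (hT : T ≠ 0) (h : Gs c d Z T ≠ 0) {k : ℤ} (hk : 21 ∣ c * k)
    (δ : MZ) : 3 * T ∣ k * pr δ Z := by
  rw [← wg1_left]
  exact wg1_dvd hc hT h _ (mul_assoc c k _ ▸ hk.mul_right _) (mul_assoc c k _ ▸ hk.mul_right _)

theorem gs_int (hc : c ≠ 0) (h7 : 7 ∣ c) (hT : T ≠ 0) (h : Gs c d Z T ≠ 0) :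
    ∃ Z' : MZ, Z = T • Z' :=
  wg1_all fun δ => (mul_dvd_mul_iff_left three_ne_zero).1 (wg1_mul hc hT h (by omega) δ)

theorem gs_seven (hc : c ≠ 0) (hT : T ≠ 0) (h : Gs c d Z T ≠ 0) :
    ∃ Z' : MZ, (7 : ℤ) • Z = T • Z' := by
  refine wg1_all fun δ => (mul_dvd_mul_iff_left three_ne_zero).1 ?_
  rw [wg1_smul, ← mul_assoc]
  exact wg1_mul hc hT h (k := 3 * 7) (by omega) δ

theorem wg1_cube {a : ℤ} (h : ¬ 3 ∣ a) : ∑ k ∈ range 3, q1 (k * (a / (3 : ℤ))) = 0 := by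
  have h1 := mt (q1_div_eq_one (n := 3) three_ne_zero).1 h
  have h3 : q1 (a / (3 : ℤ)) ^ 3 = 1 := by
    rw [← q1_nat_mul, ← q1_int a]
    congr 1
    push_cast
    ring
  simp only [q1_nat_mul]
  rw [geom_sum_eq h1, h3, sub_self, zero_div]

theorem gs_three (hc : c ≠ 0) (h3 : 3 ∣ c) (hd : ¬ 3 ∣ d)
    (hZ : ∀ Z' : MZ, Z = (3 : ℤ) • Z' → 3 ∣ Z' 0 0) : Gs c d Z 7 = 0 := by
  by_contra e
  obtain ⟨Y, rfl⟩ := wg1_all (T := 3) (Z := Z) fun δ => by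
    have := wg1_mul hc (by norm_num) e (k := 7) (by omega) δ
    omega
  obtain ⟨z, hz⟩ := hZ Y rfl
  obtain ⟨c, rfl⟩ := h3
  have c0 : (c : ℂ) ≠ 0 := Int.cast_ne_zero.2 (right_ne_zero_of_mul hc)
  have l := av_shifts (pp_gs hc (T := 7) (by norm_num) d ((3 : ℤ) • Y)) (range 3)
    fun k : ℕ => (7 * c * k) • (!![0, 0; 0, 1] : MZ)
  refine e ((mul_eq_zero.1 (l.symm.trans ((congrArg Av (funext fun g => ?_)).trans
    (av_const 0)))).resolve_left (by simp))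
  by_cases w : w0 g = 0
  · exact sum_eq_zero fun k _ => by rw [w0_per g _ (by simp) (by simp), w, map_zero, zero_mul]
  have h0 : ¬ 3 ∣ -(7 * d * g 0 0) := fun h => by
    obtain ⟨a, b, hab⟩ := (w0_ne w).2
    rcases Int.prime_three.dvd_or_dvd (dvd_neg.1 h) with h | ⟨m, h⟩
    · omega
    · rw [h, mul_left_comm] at hab
      omega
  refine (sum_congr rfl fun k _ => ?_).trans ((mul_sum _ _ (CL.toC (w0 g) *
    q1 ((-(3 * d * g.det : ℤ) - (pr g ((3 : ℤ) • Y) : ℤ) / (7 : ℤ)) / (3 * (3 * c : ℤ))))).symm.trans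
      (by rw [wg1_cube h0, mul_zero]))
  rw [w0_per g _ (by simp) (by simp), mul_assoc (CL.toC _), ← q1_add, wg1_det, wg1_pr]
  refine congrArg _ (wa_q1 (-(k * z)) ?_)
  have p1 : pr g !![0, 0; 0, 1] = g 0 0 := by simp [pr]
  have p2 : pr !![0, 0; 0, 1] ((3 : ℤ) • Y) = 9 * z := by
    simp [pr, hz]
    ring
  rw [p1, p2, Matrix.det_fin_two_of]
  push_cast
  field_simp
  ring

theorem wg1_ep : ∀ a b : ZMod 7, b ≠ 0 → ∑ k ∈ range 7, ep (a + b * (3 * k)) = 0 := by decide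

theorem gs_not7 (h7 : ¬ 7 ∣ c) (hZ : 7 ∣ Z 0 0 → 7 ∣ Z 1 1) : Gs c d Z 7 = 0 := by
  have hc : c ≠ 0 := fun e => h7 (e ▸ dvd_zero _)
  by_cases h0 : 7 ∣ Z 0 0
  swap
  · by_contra e
    have := wg1_dvd hc (by norm_num) e !![0, 0; 0, 3] (by simp) (by simp)
    simp [pr] at this
    omega
  have l := av_shifts (pp_gs hc (T := 7) (by norm_num) d Z) (range 7)
    fun k : ℕ => c • (!![3 * k, 0; 0, 0] : MZ)
  refine (mul_eq_zero.1 (l.symm.trans ((congrArg Av (funext fun g => ?_)).trans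
    (av_const 0)))).resolve_left (by simp)
  have e : ∀ k : ℕ, q1 ((-pr !![3 * k, 0; 0, 0] Z : ℤ) / (3 * 7 : ℤ)) = 1 := fun k =>
    (q1_div_eq_one (by norm_num)).2 (by
      obtain ⟨z, hz⟩ := hZ h0
      exact ⟨-(k * z), by simp [pr, hz]; ring⟩)
  have w : ∀ k : ℕ, w0 (g + c • (!![3 * k, 0; 0, 0] : MZ)) =
      (if 21 ∣ g 1 0 then (et (g 0 0) : O) else 0) * ep ((g 0 0 : ℤ) + c * (3 * k)) := fun k => by
    have : et (g 0 0 + c * (3 * k)) = et (g 0 0) := et_congr ⟨c * k, by ring⟩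
    simp [w0, nb_int, -Int.cast_add, this]
    push_cast
    rfl
  simp only [wg1_sh hc, e, one_mul, w]
  rw [← sum_mul, ← map_sum CL.toC, ← mul_sum,
    wg1_ep _ _ (mt (ZMod.intCast_zmod_eq_zero_iff_dvd c 7).1 h7), mul_zero, map_zero, zero_mul]

end Pool.Agent.Lib.MP_696deb_nt.Y3.W
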