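import Pool.Agent.Lib.MP_696deb_nt.Y3.Wg1

/-! The value of the Gauss sum on the matrices. -/

set_option autoImplicit false

open Complex Finset
open scoped Real ComplexConjugate Classical

namespace Pool.Agent.Lib.MP_696deb_nt.Y3.W

open CL (O nm om op wC Per FT mem_reps)

theorem wg2_fin {Γ Q : Type} [AddCommGroup Γ] [AddCommGroup Q] [Fintype Q] (ρ : Γ →+ Q)
    (hρ : Function.Surjective ρ) (f : Q → ℂ) :
    Av (fun x => f (ρ x)) = (∑ q, f q) / Fintype.card Q := by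
  have e := Function.surjInv_eq hρ
  have i := Function.injective_surjInv hρ
  rw [av_rep ρ.ker (fun s hs x => by rw [map_add, hs, add_zero])
    (R := univ.image (Function.surjInv hρ)) fun x => ⟨_, ⟨mem_image_of_mem _ (mem_univ (ρ x)), by
      rw [AddMonoidHom.mem_ker, map_sub, e, sub_self]⟩, ?_⟩, sum_image i.injOn,
    card_image_of_injective _ i, card_univ]
  · simp only [e]
  · rintro _ ⟨hr, h⟩
    obtain ⟨q, -, rfl⟩ := mem_image.1 hr
    rw [AddMonoidHom.mem_ker, map_sub, e, sub_eq_zero] at h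
    rw [h]

theorem wg2_pp {Γ Γ' : Type} [AddCommGroup Γ] [AddCommGroup Γ'] {f : Γ → ℂ} {g : Γ' → ℂ}
    (hf : PP f) (hg : PP g) : PP fun p : Γ × Γ' => f p.1 * g p.2 :=
  (hf.comp (AddMonoidHom.fst Γ Γ')).mul (hg.comp (AddMonoidHom.snd Γ Γ'))

theorem wg2_prod {Γ Γ' : Type} [AddCommGroup Γ] [AddCommGroup Γ'] [Module.Finite ℤ Γ]
    [Module.Finite ℤ Γ'] {f : Γ → ℂ} {g : Γ' → ℂ} (hf : PP f) (hg : PP g) :
    Av (fun p : Γ × Γ' => f p.1 * g p.2) = Av f * Av g := by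
  rw [av_prod (wg2_pp hf hg)]
  simp only [av_mul_left hg]
  simp only [mul_comm (f _), av_mul_left hf, mul_comm (Av f)]

theorem wg2_dvd {a b : ℤ} (h : IsCoprime a b) (x : ℤ) : a ∣ b * x ↔ a ∣ x :=
  ⟨h.dvd_of_dvd_mul_left, fun k => k.mul_left _⟩

theorem wg2_ent (i j : Fin 2) : Cg fun g : MZ => g i j := cg_hom (Matrix.entryAddMonoidHom ℤ i j)

theorem wg2_det : Cg fun g : MZ => g.det := by
  simpa only [Matrix.det_fin_two] using
    ((wg2_ent 0 0).mul (wg2_ent 1 1)).sub ((wg2_ent 0 1).mul (wg2_ent 1 0))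

theorem wg2_pr (Z : MZ) : Cg fun g : MZ => pr g Z :=
  ((((wg2_ent 0 0).mul (cg_const _)).sub ((wg2_ent 0 1).mul (cg_const _))).sub
    ((wg2_ent 1 0).mul (cg_const _))).add ((wg2_ent 1 1).mul (cg_const _))

theorem wg2_ind {c : ℕ} (hc : 0 < c) : (PP fun a : ℤ => if (c : ℤ) ∣ a then (1 : ℂ) else 0) ∧
    Av (fun a : ℤ => if (c : ℤ) ∣ a then (1 : ℂ) else 0) = 1 / c := by
  have p : Pe c fun a : ℤ => if (c : ℤ) ∣ a then (1 : ℂ) else 0 := fun x y =>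
    if_congr (dvd_add_left (dvd_mul_right _ _)) rfl rfl
  refine ⟨p.pp hc, ?_⟩
  rw [av_int hc p, sum_eq_single_of_mem 0 (mem_range.2 hc) fun b hb b0 => if_neg fun e =>
    b0 (Nat.eq_zero_of_dvd_of_lt (Int.natCast_dvd_natCast.1 e) (mem_range.1 hb))]
  simp

theorem wg2_c {c : ℕ} (hc : 0 < c) {m : ℤ} (hm : IsCoprime (c : ℤ) m) {w : ℤ × ℤ → ℂ}
    (hw : Pe c w) :
    Av (fun g : MZ => w (g 0 0, g 1 0) * q1 ((m * g.det : ℤ) / (c : ℤ))) = w 0 / c ^ 2 := by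
  have c0 : (c : ℤ) ≠ 0 := Nat.cast_ne_zero.2 hc.ne'
  let φ : (ℤ × ℤ) × (ℤ × ℤ) →+ MZ := AddMonoidHom.mk' (fun p => !![p.1.1, p.2.1; p.1.2, p.2.2])
    fun _ _ => by simp
  have p : Pe c fun g : MZ => w (g 0 0, g 1 0) * q1 ((m * g.det : ℤ) / (c : ℤ)) :=
    Pe.mul (fun x y => hw (x 0 0, x 1 0) (y 0 0, y 1 0))
      (((cg_const m).mul wg2_det).pe (F := fun a => q1 (a / (c : ℤ))) fun _ _ => q1_div_congr)
  have q : ∀ t : ℤ, PP fun y : ℤ => q1 (y * t / (c : ℤ)) := fun t => by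
    simpa only [AddMonoidHom.id_apply, Int.cast_mul] using
      ((cg_hom (AddMonoidHom.id ℤ)).mul (cg_const t)).pp_q1 c0
  rw [← av_comp hc p φ fun g => ⟨((g 0 0, g 1 0), (g 0 1, g 1 1)), 0, by
    rw [smul_zero, add_zero]; exact Matrix.eta_fin_two g⟩, av_prod ((p.pp hc).comp φ),
    show (fun x : ℤ × ℤ => _) = fun x : ℤ × ℤ => w 0 * ((if (c : ℤ) ∣ x.1 then 1 else 0) *
      if (c : ℤ) ∣ x.2 then 1 else 0) from funext fun x => ?_,
    av_mul_left (wg2_pp (wg2_ind hc).1 (wg2_ind hc).1), wg2_prod (wg2_ind hc).1 (wg2_ind hc).1,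
    (wg2_ind hc).2]
  · ring
  rw [show (fun y : ℤ × ℤ => _) = fun y : ℤ × ℤ => w x * (q1 (y.1 * (-(m * x.2) : ℤ) / (c : ℤ)) *
      q1 (y.2 * (m * x.1 : ℤ) / (c : ℤ))) from funext fun y => by
        rw [← q1_add]
        simp only [φ, AddMonoidHom.mk'_apply, Matrix.det_fin_two_of]
        congr 2
        push_cast
        ring,
    av_mul_left (wg2_pp (q _) (q _)), wg2_prod (q _) (q _), av_char c0, av_char c0]
  simp only [dvd_neg, wg2_dvd hm]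
  split_ifs with h1 h2 h2
  · obtain ⟨a, h1⟩ := h1
    obtain ⟨b, h2⟩ := h2
    rw [← hw 0 (b, a), zero_add]
    congr 2
    exact Prod.ext h2 h1
  all_goals simp

theorem wg2_q (k : ℤ) : q1 (k / 3) = CL.toC (op k) := by
  have e : ∀ n : ℕ, q1 (n / 3) = CL.toC om ^ n := fun n => by
    rw [CL.toC_om, ← exp_nat_mul, q1]
    congr 1
    ring
  obtain ⟨j, hj⟩ := (ZMod.intCast_eq_intCast_iff_dvd_sub ((k : ZMod 3).val : ℤ) k 3).1 (by simp)
  rw [op, map_pow, ← e]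
  refine q1_congr j ?_
  have : (k : ℂ) - ((k : ZMod 3).val : ℕ) = 3 * j := by exact_mod_cast hj
  linear_combination this / 3

theorem wg2_sum : ∀ s x y z u : ZMod 3, s * s = 1 → ∑ a : ZMod 3, ∑ b : ZMod 3, ∑ c : ZMod 3,
    ∑ d : ZMod 3, (if c = 0 then (c3 a : O) else 0) * op (-(s * (a * u - b * z - c * y + d * x))) =
      -9 * c3 s * CL.th * if x = 0 ∧ z = 0 then (c3 u : O) else 0 := by
  decide +kernel

theorem wg2_three {s : ℤ} (hs : (s : ZMod 3) * s = 1) (Z : MZ) :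
    Av (fun g : MZ => CL.toC ((if 3 ∣ g 1 0 then (et (g 0 0) : O) else 0) *
      op (-(s * pr g Z) : ℤ))) =
      -et s * CL.toC CL.th * (if 3 ∣ Z 0 0 ∧ 3 ∣ Z 1 0 then (et (Z 1 1) : ℂ) else 0) / 9 := by
  let ρ : MZ →+ ZMod 3 × ZMod 3 × ZMod 3 × ZMod 3 :=
    AddMonoidHom.mk' (fun g => (g 0 0, g 0 1, g 1 0, g 1 1)) fun _ _ => by simp
  have z : ∀ a : ℤ, (a : ZMod 3) = 0 ↔ 3 ∣ a := fun a => ZMod.intCast_zmod_eq_zero_iff_dvd a 3
  have := wg2_fin ρ (fun ⟨a, b, c, d⟩ => ⟨!![a.cast, b.cast; c.cast, d.cast], by simp [ρ]⟩)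
    fun x => CL.toC ((if x.2.2.1 = 0 then (c3 x.1 : O) else 0) * op (-(s * (x.1 * (Z 1 1 : ℤ) -
      x.2.1 * (Z 1 0 : ℤ) - x.2.2.1 * (Z 0 1 : ℤ) + x.2.2.2 * (Z 0 0 : ℤ)))))
  rw [← map_sum] at this
  simp only [Fintype.sum_prod_type] at this
  rw [wg2_sum _ _ _ _ _ hs] at this
  convert this using 1
  · congr 1
    funext g
    simp only [ρ, AddMonoidHom.mk'_apply, z, et, pr]
    push_cast
    rfl
  · simp only [z, map_mul, map_neg, map_ofNat, map_intCast, apply_ite CL.toC, map_zero, et,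
      Fintype.card_prod, ZMod.card]
    push_cast
    ring

theorem wg2_ep : ∀ d e z : ZMod 7, 9 * d * e = 1 → ep (-(3 * e) * z) = -star (ep d) * ep (5 * z) := by
  decide +kernel

theorem gs_val {c : ℕ} (hc : ¬ 3 ∣ c) (h7 : 7 ∣ c) {d e : ℤ} (he : (c : ℤ) ∣ 9 * d * e - 1)
    (Z : MZ) : Gs c d Z 1 = et c * conj (CL.toC (ep d)) * q1 ((e * Z.det : ℤ) / c) *
      (CL.toC CL.th * CL.toC (wh Z)) / (9 * c ^ 2) := by
  have cp : 0 < c := Nat.pos_of_ne_zero fun e => hc (e ▸ dvd_zero 3)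
  have c0 : (c : ℂ) ≠ 0 := Nat.cast_ne_zero.2 cp.ne'
  obtain ⟨t, ht⟩ : ∃ t : ℤ, (c : ℤ) * c + 3 * t = 1 := by
    obtain ⟨k, h | h⟩ : ∃ k : ℤ, (c : ℤ) = 3 * k + 1 ∨ (c : ℤ) = 3 * k - 1 :=
      ⟨(c + 1) / 3, by omega⟩
    · exact ⟨-(3 * k * k + 2 * k), by rw [h]; ring⟩
    · exact ⟨-(3 * k * k - 2 * k), by rw [h]; ring⟩
  have h7' : (7 : ℤ) ∣ c := by exact_mod_cast h7
  have cg := ((cg_const (3 * d)).mul wg2_det).neg.sub (wg2_pr Z)
  let w : ℤ × ℤ → ℂ := fun x => CL.toC (if 7 ∣ x.2 then ep (x.1 : ℤ) else 0)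
  have hw : Pe c w := fun x y => by
    obtain ⟨k, rfl⟩ := h7
    have e7 : (7 : ZMod 7) = 0 := rfl
    simp [w, mul_assoc, e7, dvd_add_left]
  have pB : Pe c fun g : MZ =>
      w (g 0 0, g 1 0) * q1 ((t * (-(3 * d * g.det) - pr g Z) : ℤ) / (c : ℤ)) :=
    Pe.mul (fun x y => hw (x 0 0, x 1 0) (y 0 0, y 1 0))
      (((cg_const t).mul cg).pe (F := fun a => q1 (a / (c : ℤ))) fun _ _ => q1_div_congr)
  have pA : Pe 3 fun g : MZ => CL.toC ((if 3 ∣ g 1 0 then (et (g 0 0) : O) else 0) *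
      op (-(c * pr g Z) : ℤ)) := fun x y => by
    have e3 : (3 : ZMod 3) = 0 := rfl
    simp only [(ZMod.intCast_eq_intCast_iff_dvd_sub _ _ 3).2
      (dvd_sub_comm.1 (((cg_const c).mul (wg2_pr Z)).neg 3 x y)), Matrix.add_apply,
      Matrix.smul_apply]
    simp [e3, et, dvd_add_left]
  rw [Gs, show (fun g : MZ => _) = _ from funext fun g => ?_,
    av_indep three_pos cp ((Nat.Prime.coprime_iff_not_dvd Nat.prime_three).2 hc) pA pB,
    wg2_three (by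
      have := congrArg (Int.cast : ℤ → ZMod 3) ht
      push_cast at this ⊢
      rwa [show (3 : ZMod 3) = 0 from rfl, zero_mul, add_zero] at this),
    ← av_shift (pB.pp cp) ((-(3 * e)) • Z),
    show (fun g : MZ => _) = fun g : MZ =>
      w ((g 0 0, g 1 0) + (-(3 * e) * Z 0 0, -(3 * e) * Z 1 0)) * q1 ((e * Z.det : ℤ) / c) *
        q1 ((-(3 * t * d) * g.det : ℤ) / (c : ℤ)) from funext fun g => ?_,
    wg2_c (w := fun x => w (x + (-(3 * e) * Z 0 0, -(3 * e) * Z 1 0)) * q1 ((e * Z.det : ℤ) / c))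
      cp ?_ fun x y => by simp only [add_right_comm x (c • y), hw _ y], zero_add]
  · obtain ⟨k, hk⟩ := h7'.trans he
    have e1 : (9 * d * e : ZMod 7) = 1 := by
      have := congrArg (Int.cast : ℤ → ZMod 7) hk
      push_cast at this
      rwa [show (7 : ZMod 7) = 0 from rfl, zero_mul, sub_eq_zero] at this
    have e2 : IsCoprime (7 : ℤ) (-(3 * e)) := ⟨-k, -(3 * d), by linear_combination hk⟩
    have e3 : (21 : ℤ) ∣ Z 1 0 ↔ 3 ∣ Z 1 0 ∧ 7 ∣ Z 1 0 := by omega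
    simp only [w, wh, wg2_dvd e2, e3]
    push_cast
    rw [wg2_ep _ _ _ e1, ← CL.toC_star]
    by_cases h1 : 3 ∣ Z 0 0 <;> by_cases h2 : 3 ∣ Z 1 0 <;> by_cases h3 : 7 ∣ Z 1 0 <;>
      simp only [h1, h2, h3, and_self, and_true, and_false, if_true, if_false,
        map_mul, map_neg, map_zero, map_intCast] <;> ring
  · obtain ⟨k, hk⟩ := he
    exact ⟨c - 3 * t * k, -9 * e, by linear_combination ht + 3 * t * hk⟩
  · obtain ⟨k, hk⟩ := he
    rw [mul_assoc (w _), ← q1_add]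
    refine congrArg _ (q1_congr (t * k * (pr g Z - 3 * e * Z.det) - c * e * Z.det) ?_)
    have h1 : (9 * d * e - 1 : ℂ) = c * k := by exact_mod_cast hk
    have h2 : (c * c + 3 * t : ℂ) = 1 := by exact_mod_cast ht
    simp only [Matrix.det_fin_two, pr, Matrix.add_apply, Matrix.smul_apply, smul_eq_mul]
    push_cast
    field_simp
    linear_combination (e * (Z 0 0 * Z 1 1 - Z 0 1 * Z 1 0)) * h2 +
      (t * (g 0 0 * Z 1 1 - g 0 1 * Z 1 0 - g 1 0 * Z 0 1 + g 1 1 * Z 0 0 -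
        3 * e * (Z 0 0 * Z 1 1 - Z 0 1 * Z 1 0))) * h1
  · have h2 : (c * c + 3 * t : ℂ) = 1 := by exact_mod_cast ht
    have e3 : (21 : ℤ) ∣ g 1 0 ↔ 3 ∣ g 1 0 ∧ 7 ∣ g 1 0 := by omega
    have e4 : w0 g = (if 3 ∣ g 1 0 then (et (g 0 0) : O) else 0) *
        if 7 ∣ g 1 0 then ep (g 0 0 : ℤ) else 0 := by
      rw [w0, nb_int, ite_zero_mul_ite_zero]
      exact if_congr e3 rfl rfl
    rw [e4, map_mul, map_mul, ← wg2_q, mul_mul_mul_comm, ← q1_add]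
    generalize g.det = n
    refine congrArg _ (q1_congr (-(c * d * n)) ?_)
    push_cast
    field_simp
    linear_combination (3 * d * n + pr g Z) * h2

end Pool.Agent.Lib.MP_696deb_nt.Y3.W
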