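import Pool.Agent.Lib.MP_696deb_nt.Y3.Wb
import Pool.Agent.Lib.MP_696deb_nt.Y3.D1
import Pool.Agent.Lib.MP_696deb_nt.Y3.WT0

/-! The section of an eigenfunction. -/

set_option autoImplicit false

open Complex Finset
open scoped Real ComplexConjugate Classical

namespace Pool.Agent.Lib.MP_696deb_nt.Y3.W

open CL (O nm om op wC Per FT mem_reps)

variable {M : ℕ} {a ψ : O → ℂ} {κ : O → O}

theorem ph_per_d (hM : 0 < M) (a : O → ℂ) (c : ℤ) (A : O) {d d' : ℤ}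
    (h : (M : ℤ) ^ 2 ∣ d - d') : ph M a c d A = ph M a c d' A := ph_congr hM (by simp) h A

theorem ph_per_A (hM : 0 < M) (a : O → ℂ) (c d : ℤ) {A A' : O} (h : (M : O) ^ 2 ∣ A - A') :
    ph M a c d A = ph M a c d A' := by
  obtain ⟨γ, e⟩ := h
  obtain rfl : A = A' + M ^ 2 * γ := by linear_combination e
  have M0 : (M : ℂ) ≠ 0 := by exact_mod_cast hM.ne'
  refine sm_congr fun x => congrArg _ ?_
  rw [cf, cf, show A' + M ^ 2 * γ - c * x = A' - c * x + M * (M * γ) by ring]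
  refine if_congr (dvd_add_left (dvd_mul_right _ _)) (q1_congr (d * bil γ x) ?_) rfl
  simp [sq, bil]
  field_simp
  ring

theorem pe_Wt_ph (hM : 0 < M) (h7 : 7 ∣ M) (a : O → ℂ) (c : ℤ) (A : O) :
    Pe (M ^ 2) fun d : ℤ => Wt c d * ph M a c d A := fun x y => by
  obtain ⟨N, hN⟩ := h7
  simp only [nsmul_eq_mul]
  rw [Wt_congr (c := c) (d := x) (by simp) ⟨7 * N ^ 2 * y, by rw [hN]; push_cast; ring⟩,
    ph_per_d hM a c A (d' := x) (by simp)]

theorem lamA_av (hM : 0 < M) (h7 : 7 ∣ M) (a : O → ℂ) (c l : ℤ) (A : O) : lamA M a c l A =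
    Av fun d : ℤ => Wt c d * ph M a c d A * q1 (d * l / M ^ 2) := by
  have M0 : (M : ℂ) ≠ 0 := by exact_mod_cast hM.ne'
  rw [av_int (P := M ^ 2) (by positivity) ((pe_Wt_ph hM h7 a c A).mul fun x y =>
    q1_congr (y * l) (by
      simp only [nsmul_eq_mul]
      push_cast
      field_simp)), lamA]
  push_cast
  rfl

theorem lamA_congr (hM : 0 < M) (a : O → ℂ) (c : ℤ) {l l' : ℤ} {A A' : O}
    (hl : (M : ℤ) ^ 2 ∣ l - l') (hA : (M : O) ^ 2 ∣ A - A') :
    lamA M a c l A = lamA M a c l' A' := by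
  have M0 : (M : ℂ) ≠ 0 := by exact_mod_cast hM.ne'
  obtain ⟨s, hs⟩ := hl
  obtain rfl : l = l' + M ^ 2 * s := by omega
  refine congrArg (· / _) (sum_congr rfl fun d _ => ?_)
  rw [ph_per_A hM a c d hA, q1_congr (y := d * l' / M ^ 2) (d * s) (by push_cast; field_simp)]

theorem iFT_av (hM : 0 < M) (h : Per M ψ) (x : O) :
    iFT M ψ x = Av fun y => ψ y * q1 ((sp y x : ℤ) / M) := by
  rw [av_G hM fun y γ => congrArg₂ (· * ·) (h y γ) (q1_sp_per hM _ y γ), iFT, FT_eq]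

theorem wh_cop {k : ℤ} (h : IsCoprime k (M : ℤ)) : IsCoprime (k : O) (M : O) := by
  simpa using h.map (Int.castRingHom O)

theorem wh_cop_star {t : O} (h : IsCoprime t (M : O)) : IsCoprime (star t) (M : O) := by
  have e := h.map (starRingEnd O)
  rwa [map_natCast] at e

theorem wh_cop_norm {t : O} (h : IsCoprime t (M : O)) : IsCoprime (nm t) (M : ℤ) := by
  obtain ⟨u, v, e⟩ := h.mul_left (wh_cop_star h)
  rw [CL.mul_star_self] at e
  exact ⟨u.re, v.re, by simpa [QuadraticAlgebra.re_one] using congrArg QuadraticAlgebra.re e⟩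

theorem wh_inv {k : ℤ} (h : IsCoprime k (M : ℤ)) : ∃ k' : ℤ, (M : ℤ) ^ 2 ∣ k' * k - 1 := by
  obtain ⟨u, v, e⟩ := h.pow_right (n := 2)
  exact ⟨u, -v, by linear_combination e⟩

theorem wh_conj_mul {z : O} (h : z ^ 6 = 1) : conj (CL.toC z) * CL.toC z = 1 := by
  have h1 : CL.toC z ^ 6 = 1 := by rw [← map_pow, h, map_one]
  rw [conj_mul', norm_eq_one_of_pow_eq_one h1 (by norm_num)]
  simp

theorem Hom.adm (h : Hom M ψ κ) : Adm M (iFT M ψ) := by
  obtain ⟨k, N, h3, e⟩ := Nat.exists_eq_pow_mul_and_not_dvd h.pos.ne' 3 (by norm_num)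
  have h7 : 7 ∣ N := (Nat.Coprime.pow_right k (by norm_num)).dvd_of_dvd_mul_left
    (e ▸ Dvd.dvd.trans ⟨3, rfl⟩ h.lev : 7 ∣ 3 ^ k * N)
  refine adm_iFT e h3 h.lev h.per fun u hu hN hc y => ?_
  rw [h.eq u (wh_cop hc), h.int u hc, et_congr (b := -1) (by omega), ep_congr (t := 1)
    (((Int.natCast_dvd_natCast.2 h7).trans (dvd_pow_self _ two_ne_zero)).trans hN),
    et_neg, et_one, Int.cast_one, ep_one]
  simp

theorem Hom.iFT_mul (h : Hom M ψ κ) {t : O} (ht : IsCoprime t (M : O)) (x : O) :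
    iFT M ψ (t * x) = conj (CL.toC (κ (star t))) * iFT M ψ x := by
  have hs := wh_cop_star ht
  have p : ∀ z : O, Per M fun y => ψ y * q1 ((sp y z : ℤ) / M) := fun z y γ =>
    congrArg₂ (· * ·) (h.per y γ) (q1_sp_per h.pos _ y γ)
  rw [iFT_av h.pos h.per, iFT_av h.pos h.per, ← av_unit h.pos (p x) hs]
  refine Eq.trans (congrArg Av (funext fun y => ?_)) (av_mul_left
    (((pe_iff_per.2 (p x)).pp h.pos).comp (AddMonoidHom.mulLeft (star t))) _)
  rw [AddMonoidHom.coe_mulLeft, h.eq _ hs, ← mul_assoc, ← mul_assoc, wh_conj_mul (h.six _ hs),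
    one_mul, show sp (star t * y) x = sp y (t * x) by simp [sp]; ring]

theorem Hom.hom (h : Hom M ψ κ) {k : ℤ} (hk : IsCoprime k (M : ℤ)) (c l : ℤ) (A : O) :
    lamA M (iFT M ψ) (k * c) l A = et k * lamA M (iFT M ψ) c (k * l) A := by
  obtain ⟨k', hk'⟩ := wh_inv hk
  have h1 : (M : ℤ) ∣ k' * k - 1 := (dvd_pow_self _ two_ne_zero).trans hk'
  have h0 : (21 : ℤ) ∣ k' * k - 1 := (Int.natCast_dvd_natCast.2 h.lev).trans h1
  have h2 : IsCoprime k' (M : ℤ) := by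
    obtain ⟨s, hs⟩ := h1
    exact ⟨k, -s, by linear_combination hs⟩
  have h3 : star (ep k) * star (ep k') = 1 :=
    (by decide : ∀ a b : ZMod 7, a * b = 1 → star (ep b) * star (ep a) = 1) _ _
      (by exact_mod_cast ((ZMod.intCast_eq_intCast_iff_dvd_sub 1 _ 7).2
        (Dvd.dvd.trans ⟨3, rfl⟩ h0)).symm)
  have h4 : et k' = et k :=
    (by decide : ∀ a b : ZMod 3, a * b = 1 → c3 a = c3 b) _ _
      (by exact_mod_cast ((ZMod.intCast_eq_intCast_iff_dvd_sub 1 _ 3).2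
        (Dvd.dvd.trans ⟨7, rfl⟩ h0)).symm)
  rw [h.adm.lamA_mul hk' (h.iFT_mul (wh_cop h2)), star_intCast, h.int k' h2, h4,
    ← CL.toC_star, ← CL.toC_star, ← map_mul, star_mul, star_intCast,
    ← mul_assoc, h3, one_mul, map_intCast]

theorem Hom.lam_mul (h : Hom M ψ κ) {t : O} (ht : IsCoprime t (M : O)) (c l : ℤ) (A : O) :
    lamA M (iFT M ψ) c (nm t * l) (t * A) = CL.toC (κ t) * lamA M (iFT M ψ) c l A := by
  obtain ⟨k, hk⟩ := wh_inv (wh_cop_norm ht)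
  rw [h.adm.lamA_hom hk (h.iFT_mul ht), ← CL.toC_star, ← map_mul, h.nrm t ht]

theorem isIntegral_q1 (a n : ℤ) : IsIntegral ℤ (q1 (a / n)) := by
  obtain rfl | h := eq_or_ne n 0
  · simpa [q1] using isIntegral_one
  obtain ⟨m, rfl | rfl⟩ := n.eq_nat_or_neg
  · exact_mod_cast wt_int_q1 (n := m) (by omega) a
  · have := wt_int_q1 (n := m) (by omega) (-a)
    rwa [Int.cast_neg, neg_div, ← div_neg, ← Int.cast_natCast, ← Int.cast_neg] at this

theorem isIntegral_G (g : O) : IsIntegral ℤ (CL.toC g) := wt_int_O g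

theorem Hom.int_iFT (h : Hom M ψ κ) (x : O) : IsIntegral ℤ ((M : ℂ) ^ 2 * iFT M ψ x) := by
  rw [iFT, mul_div_cancel₀ _ (pow_ne_zero 2 (Nat.cast_ne_zero.2 h.pos.ne')), FT_eq]
  refine wt_int_sm fun y => IsIntegral.mul ?_ (wt_int_q1 h.pos _)
  obtain ⟨g, hg⟩ := h.alg y
  rw [hg]
  exact wt_int_O g

end Pool.Agent.Lib.MP_696deb_nt.Y3.W
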