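import Pool.Agent.Lib.MP_696deb_nt.Y3.Wh

/-! The section lives on primitive rows. -/

set_option autoImplicit false

open Complex Finset
open scoped Real ComplexConjugate Classical

namespace Pool.Agent.Lib.MP_696deb_nt.Y3.W

open CL (O nm om op wC Per FT mem_reps)

theorem wh1_cf {p M : ℕ} (h0 : 0 < p * M) (c d : ℤ) (A x g : O) :
    cf (p * M) (p * c) (p * d) (x + M * g) A = cf (p * M) (p * c) (p * d) x A := by
  have p0 : (p : ℂ) ≠ 0 := by exact_mod_cast (Nat.pos_of_mul_pos_right h0).ne'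
  have M0 : (M : ℂ) ≠ 0 := by exact_mod_cast (Nat.pos_of_mul_pos_left h0).ne'
  have e : A - (p * c : ℤ) * (x + M * g) = A - (p * c : ℤ) * x - (p * M : ℕ) * (c * g) := by
    push_cast
    ring
  simp only [cf]
  rw [e]
  refine if_ctx_congr (dvd_sub_left (dvd_mul_right _ _)) (fun ⟨β, hβ⟩ => ?_) fun _ => rfl
  obtain rfl : A = (p * c : ℤ) * x + (p * M : ℕ) * β := by linear_combination hβ
  refine q1_congr (d * (bil β g - c * nm g)) ?_
  simp only [nm, bil, QuadraticAlgebra.re_add, QuadraticAlgebra.im_add, QuadraticAlgebra.re_mul,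
    QuadraticAlgebra.im_mul, QuadraticAlgebra.re_intCast, QuadraticAlgebra.im_intCast,
    QuadraticAlgebra.re_natCast, QuadraticAlgebra.im_natCast]
  push_cast
  field_simp
  ring

theorem wh1_sum {p M : ℕ} (h0 : 0 < p * M) {ψ : O → ℂ} (hz : ∀ y : O, (p : O) ∣ y → ψ y = 0)
    (x : O) : sm p (fun g => iFT (p * M) ψ (x + M * g)) = 0 := by
  have hp := Nat.pos_of_mul_pos_right h0
  have p0 : (p : ℂ) ≠ 0 := by exact_mod_cast hp.ne'
  have M0 : (M : ℂ) ≠ 0 := by exact_mod_cast (Nat.pos_of_mul_pos_left h0).ne'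
  have e : ∀ g, iFT (p * M) ψ (x + M * g) = (((p * M : ℕ) : ℂ) ^ 2)⁻¹ * sm (p * M) fun y =>
      ψ y * q1 ((sp y x : ℤ) / (p * M : ℕ)) * q1 ((sp g (-y) : ℤ) / p) := fun g => by
    rw [iFT, FT_eq, div_eq_inv_mul]
    refine congrArg _ (sm_congr fun y => ?_)
    rw [mul_assoc (ψ y), ← q1_add]
    congr 2
    simp only [sp, QuadraticAlgebra.re_add, QuadraticAlgebra.im_add, QuadraticAlgebra.re_mul,
      QuadraticAlgebra.re_neg, QuadraticAlgebra.im_neg, QuadraticAlgebra.im_mul,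
      QuadraticAlgebra.re_natCast, QuadraticAlgebra.im_natCast]
    push_cast
    field_simp
    ring
  rw [sm_congr e, sm_mul_left, sm_comm, sm_congr (g := fun _ => 0) fun y => ?_]
  · simp [sm]
  · rw [sm_mul_left, sm_char hp]
    split_ifs with h
    · rw [hz y (dvd_neg.1 h), zero_mul, zero_mul]
    · exact mul_zero _

theorem Hom.prim {M : ℕ} {ψ : O → ℂ} {κ : O → O} (h : Hom M ψ κ) {p : ℕ} {c d : ℤ} (A : O)
    (hp : p.Prime) (hM : p ∣ M) (hc : (p : ℤ) ∣ c) (hd : (p : ℤ) ∣ d) :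
    Wt c d * ph M (iFT M ψ) c d A = 0 := by
  by_cases hw : ¬ 3 ∣ c ∧ 7 ∣ c
  swap
  · rw [Wt, if_neg hw, zero_mul]
  rcases eq_or_ne p 7 with rfl | h7
  · rw [Wt, if_pos hw, (ZMod.intCast_zmod_eq_zero_iff_dvd d 7).2 hd, ep_zero]
    simp
  have hz := h.zero p hp hM (fun e => hw.1 (by subst e; exact hc)) h7
  have hper := h.adm.per
  have h0 := h.pos
  obtain ⟨M, rfl⟩ := hM
  obtain ⟨c, rfl⟩ := hc
  obtain ⟨d, rfl⟩ := hd
  have p0 : (p : ℂ) ≠ 0 := by exact_mod_cast hp.ne_zero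
  have e : ∀ g : O, ph (p * M) (iFT (p * M) ψ) (p * c) (p * d) A = sm (p * M) fun x =>
      cf (p * M) (p * c) (p * d) x A * iFT (p * M) ψ (x + M * g) := fun g => by
    rw [ph, ← sm_add h0 (fun x γ => by
      simp only [hper x γ, cf_per h0 (p * c) (p * d) A x γ]) (M * g)]
    exact sm_congr fun x => by rw [wh1_cf h0, mul_comm]
  have k := sm_congr (M := p) e
  rw [sm_comm, sm_congr (M := p * M) (g := fun _ => 0) fun x => by
    rw [sm_mul_left, wh1_sum h0 hz, mul_zero]] at k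
  simp only [sm, sum_const, card_range, nsmul_eq_mul, mul_zero, mul_eq_zero, p0, false_or] at k
  rw [k, mul_zero]

end Pool.Agent.Lib.MP_696deb_nt.Y3.W
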