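import Pool.Agent.Lib.MP_696deb_nt.Y3.W0
import Pool.Agent.Lib.MP_696deb_nt.Y3.D1

/-! The lattice of the integer matrices. -/

set_option autoImplicit false

open Complex Finset
open scoped Real ComplexConjugate Classical

namespace Pool.Agent.Lib.MP_696deb_nt.Y3.W

open CL (O nm om op wC Per FT mem_reps)

variable {X Y : MZ} {k : ℕ}

theorem wi_uniq (hX : X.det ≠ 0) {α β γ δ : O}
    (h : X * mb (CL.th * α) (CL.th * β) = X * mb (CL.th * γ) (CL.th * δ)) : (α, β) = (γ, δ) := by
  have := mb_inj ((Matrix.isRegular_of_isLeftRegular_det (IsRegular.of_ne_zero hX).left).left h)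
  have t : ∀ {a b : O}, CL.th * a = CL.th * b → a = b := fun {a b} e => by
    have e1 := congrArg QuadraticAlgebra.re e
    have e2 := congrArg QuadraticAlgebra.im e
    simp [CL.th] at e1 e2
    exact QuadraticAlgebra.ext (by omega) (by omega)
  rw [t this.1, t this.2]

/-- The index of the image of an endomorphism of a lattice. -/
theorem wi_idx {M : Type} [AddCommGroup M] [Module.Free ℤ M] [Module.Finite ℤ M] (f : M →+ M)
    (h : LinearMap.det f.toIntLinearMap ≠ 0) :
    f.range.index = (LinearMap.det f.toIntLinearMap).natAbs :=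
  (Submodule.natAbs_det_equiv (LinearMap.range f.toIntLinearMap)
    (LinearEquiv.ofInjective f.toIntLinearMap (LinearMap.ker_eq_bot.1
      (by_contra fun e => h (LinearMap.det_eq_zero_iff_ker_ne_bot.2 e))))).symm

/-- Coordinates of pairs of Eisenstein integers. -/
def wiD : O × O ≃+ (Fin 4 → ℤ) where
  toFun p := ![p.1.re, p.1.im, p.2.re, p.2.im]
  invFun v := (⟨v 0, v 1⟩, ⟨v 2, v 3⟩)
  left_inv _ := rfl
  right_inv v := by
    funext i
    fin_cases i <;> rfl
  map_add' p q := by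
    funext i
    fin_cases i <;> rfl

/-- Coordinates of matrices. -/
def wiC : (Fin 4 → ℤ) →+ MZ :=
  AddMonoidHom.mk' (fun v => !![v 0, v 1; v 2, v 3]) fun p q => by
    ext i j
    fin_cases i <;> fin_cases j <;> rfl

theorem index_pair (hX : X.det ≠ 0) (hY : Y.det = 3 * X.det) (ι : MZ →+ O × O)
    (h : ∀ g, (k : ℤ) • (g * Y) = X * mb (CL.th * (ι g).1) (CL.th * (ι g).2)) :
    3 * ι.range.index = k ^ 4 := by
  rcases k.eq_zero_or_pos with rfl | hk
  · have : ι.range = ⊥ := AddMonoidHom.range_eq_bot_iff.2 (AddMonoidHom.ext fun g =>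
      wi_uniq hX (α := (ι g).1) (β := (ι g).2) (γ := 0) (δ := 0) (by
        rw [← h, mul_zero, show mb 0 0 = 0 by simpa using mb_smul 0 0 0]
        simp))
    have i : Infinite O := Infinite.of_injective (fun n : ℤ => (⟨n, 0⟩ : O))
      fun _ _ e => congrArg QuadraticAlgebra.re e
    rw [this, AddSubgroup.index_bot, Nat.card_eq_zero_of_infinite]
    rfl
  set J := ((wiD : O × O →+ (Fin 4 → ℤ)).comp ι).comp wiC with hJ
  have e1 : J.range.index = ι.range.index := by
    rw [hJ, AddMonoidHom.range_comp, AddMonoidHom.range_eq_top.2 fun g =>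
      ⟨![g 0 0, g 0 1, g 1 0, g 1 1], (Matrix.eta_fin_two g).symm⟩, ← AddMonoidHom.range_eq_map,
      AddMonoidHom.range_comp, AddSubgroup.index_map_equiv]
  have e2 : Matrix.toLin' !![2 * X 0 1 - X 0 0, -X 0 0 - X 0 1, 2 * X 0 1 - X 0 0, 2 * X 0 0 - X 0 1;
      X 0 1 - 2 * X 0 0, X 0 0 - 2 * X 0 1, X 0 0 + X 0 1, X 0 0 - 2 * X 0 1;
      2 * X 1 1 - X 1 0, -X 1 0 - X 1 1, 2 * X 1 1 - X 1 0, 2 * X 1 0 - X 1 1;
      X 1 1 - 2 * X 1 0, X 1 0 - 2 * X 1 1, X 1 0 + X 1 1, X 1 0 - 2 * X 1 1] ∘ₗ J.toIntLinearMap =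
      Matrix.toLin' !![k * Y 0 0, k * Y 1 0, 0, 0; k * Y 0 1, k * Y 1 1, 0, 0;
        0, 0, k * Y 0 0, k * Y 1 0; 0, 0, k * Y 0 1, k * Y 1 1] := LinearMap.ext fun v => by
    have a := fun i j => congrFun (congrFun (h (wiC v)) i) j
    have a0 := a 0 0
    have a1 := a 0 1
    have a2 := a 1 0
    have a3 := a 1 1
    change Matrix.mulVec _ (wiD (ι (wiC v))) = Matrix.mulVec _ v
    generalize ι (wiC v) = p at a0 a1 a2 a3
    simp [wiC, mb, CL.th, Matrix.mul_apply, Fin.sum_univ_two, Matrix.vecMul, dotProduct]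
      at a0 a1 a2 a3
    funext i
    fin_cases i <;> simp [wiD, Matrix.mulVec, dotProduct, Fin.sum_univ_four] <;> linarith
  have e3 := congrArg LinearMap.det e2
  rw [LinearMap.det_comp, LinearMap.det_toLin', LinearMap.det_toLin'] at e3
  have e4 : 9 * X.det ^ 2 * (3 * LinearMap.det J.toIntLinearMap) = 9 * X.det ^ 2 * k ^ 4 := by
    rw [show 9 * X.det ^ 2 * (k : ℤ) ^ 4 = k ^ 4 * Y.det ^ 2 by rw [hY]; ring, Matrix.det_fin_two,
      Matrix.det_fin_two]
    simp [Matrix.det_succ_row_zero, Fin.sum_univ_succ, Fin.succAbove] at e3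
    linear_combination e3
  have e5 := mul_left_cancel₀ (by positivity) e4
  have e6 := congrArg Int.natAbs e5
  rw [Int.natAbs_mul, Int.natAbs_pow, Int.natAbs_natCast] at e6
  rw [← e1, wi_idx J fun z => by
    rw [z, mul_zero] at e5
    exact absurd e5.symm (by positivity)]
  exact e6

theorem rel_det (hX : X.det ≠ 0) (hY : Y.det = 3 * X.det) {g : MZ} {α β : O}
    (h : (k : ℤ) • (g * Y) = X * mb (CL.th * α) (CL.th * β)) : nm α - nm β = k ^ 2 * g.det := by
  have e := congrArg Matrix.det h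
  rw [Matrix.det_smul, Matrix.det_mul, Matrix.det_mul, mb_det, hY, Fintype.card_fin, CL.nm_mul,
    CL.nm_mul, show nm CL.th = 3 from rfl] at e
  exact mul_left_cancel₀ (mul_ne_zero three_ne_zero hX) (by linear_combination -e)

theorem wi_left (A B C : MZ) : pr (A * B) (A * C) = A.det * pr B C := by
  simp only [pr, Matrix.mul_apply, Fin.sum_univ_two, Matrix.det_fin_two]
  ring

theorem wi_right (A B C : MZ) (r s : ℤ) :
    pr (r • (B * A)) (s • (C * A)) = r * s * A.det * pr B C := by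
  simp only [pr, Matrix.smul_apply, smul_eq_mul, Matrix.mul_apply, Fin.sum_univ_two,
    Matrix.det_fin_two]
  ring

theorem wi_adj (A B C : MZ) (r : ℤ) : r * pr B (C * A.adjugate) = pr (r • (B * A)) C := by
  simp [pr, Matrix.mul_apply, Fin.sum_univ_two, Matrix.adjugate_fin_two]
  ring

theorem wi_mb (α β y : O) : pr (mb (CL.th * α) (CL.th * β)) (mb y 0) = -(3 * sp α y) := by
  simp [pr, mb, sp, CL.th]
  ring

theorem rel_pr {g : MZ} {α β : O} (h : (k : ℤ) • (g * Y) = X * mb (CL.th * α) (CL.th * β)) (y : O) :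
    k * pr g (X * mb y 0 * Y.adjugate) = -(3 * X.det * sp α y) := by
  rw [wi_adj, h, wi_left, wi_mb]
  ring

theorem rel_adj (hX : X.det ≠ 0) (hY : Y.det = 3 * X.det) (Z : MZ) (y : O) (r : ℤ) :
    X * mb y 0 * Y.adjugate = (r * X.det) • Z ↔ r • (Z * Y) = (3 : ℤ) • (X * mb y 0) := by
  refine ⟨fun h => smul_right_injective MZ hX ?_,
    fun h => smul_right_injective MZ (three_ne_zero (α := ℤ)) ?_⟩
  · have e := congrArg (· * Y) h
    simp only [mul_assoc _ _ Y, Matrix.adjugate_mul, Matrix.mul_smul, mul_one, hY,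
      Matrix.smul_mul] at e
    simp only [smul_smul, mul_comm X.det, e]
  · have e := congrArg (· * Y.adjugate) h
    simp only [Matrix.smul_mul, mul_assoc Z, Matrix.mul_adjugate, Matrix.mul_smul, mul_one,
      hY] at e
    simp only [smul_smul, ← e, mul_left_comm r]

theorem rel_det2 (hX : X.det ≠ 0) (hY : Y.det = 3 * X.det) {Z : MZ} {y : O}
    (h : Z * Y = (3 : ℤ) • (X * mb y 0)) : Z.det = 3 * nm y := by
  have e := congrArg Matrix.det h
  rw [Matrix.det_smul, Matrix.det_mul, Matrix.det_mul, mb_det, hY, Fintype.card_fin,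
    show nm 0 = 0 from rfl] at e
  exact mul_left_cancel₀ (mul_ne_zero three_ne_zero hX) (by linear_combination e)

theorem Pair.hom {M : ℕ} {Φ : O → O → O} {Ψ : O → O} (h : Pair M X Y Φ Ψ) :
    ∃ ι : MZ →+ O × O, (∀ g, (M : ℤ) • (g * Y) = X * mb (CL.th * (ι g).1) (CL.th * (ι g).2)) ∧
      ∀ (g : MZ) (α β : O), (M : ℤ) • (g * Y) = X * mb (CL.th * α) (CL.th * β) → (α, β) = ι g := by
  choose a b e using h.ex
  refine ⟨AddMonoidHom.mk' (fun g => (a g, b g)) fun g g' =>
    wi_uniq h.det (γ := a g + a g') (δ := b g + b g') ?_, e,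
    fun g α β e' => wi_uniq h.det (e'.symm.trans (e g))⟩
  rw [← e, mul_add, mul_add, mb_add, mul_add, ← e, ← e, add_mul, smul_add]

end Pool.Agent.Lib.MP_696deb_nt.Y3.W
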