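import Pool.Agent.Lib.MP_696deb_nt.Y3.Wg

/-! The Fourier transform of the side of the section. -/

set_option autoImplicit false

open Complex Finset
open scoped Real ComplexConjugate Classical

namespace Pool.Agent.Lib.MP_696deb_nt.Y3.W

open CL (O nm om op wC Per FT mem_reps)

variable {M c : ℕ} {ψ : O → ℂ} {d e : ℤ}

/-- The kernel of the convolution. -/
noncomputable def wjK (M c : ℕ) (d : ℤ) (z : O) : ℂ :=
  if (M : O) ∣ z then q1 (-(d * nm z) / (c * M ^ 2)) else 0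

theorem wj_eq (hM : 0 < M) (hc : 0 < c) (a : O → ℂ) (d : ℤ) (α : O) :
    q1 (-(d * nm α) / (c * M ^ 2)) * ph M a c d α =
      sm M fun x => a x * wjK M c d (α - c * x) := by
  have M0 : (M : ℂ) ≠ 0 := by exact_mod_cast hM.ne'
  have c0 : (c : ℂ) ≠ 0 := by exact_mod_cast hc.ne'
  rw [ph, ← sm_mul_left]
  refine sm_congr fun x => ?_
  rw [mul_left_comm, cf, wjK, Int.cast_natCast, mul_ite, mul_zero, ← q1_add]
  refine congrArg (a x * ·) (if_congr Iff.rfl (congrArg q1 ?_) rfl)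
  simp [bil, nm]
  field_simp
  ring

theorem wj_mul (hM : 0 < M) (c : ℕ) (d : ℤ) (β : O) :
    wjK M c d (M * β) = q1 ((-d * nm β : ℤ) / c) := by
  have M0 : (M : ℂ) ^ 2 ≠ 0 := pow_ne_zero 2 (by exact_mod_cast hM.ne')
  rw [wjK, if_pos (dvd_mul_right _ _), CL.nm_mul, CL.nm_nat, ← mul_div_mul_right _ (c : ℂ) M0]
  push_cast
  congr 2
  ring

theorem wj_per (hM : 0 < M) (hc : 0 < c) (d : ℤ) : Per (c * M) (wjK M c d) := fun x γ => by
  have c0 : (c : ℂ) ≠ 0 := by exact_mod_cast hc.ne'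
  have e : x + (c * M : ℕ) * γ = x + M * (c * γ) := by
    push_cast
    ring
  rw [e]
  by_cases h : (M : O) ∣ x
  · obtain ⟨β, rfl⟩ := h
    rw [← mul_add, wj_mul hM, wj_mul hM]
    refine q1_congr (-d * (bil β γ + c * nm γ)) ?_
    simp [bil, nm]
    field_simp
    ring
  · rw [wjK, wjK, if_neg h, if_neg (mt (dvd_add_left (dvd_mul_right _ _)).1 h)]

theorem wj_av_sm {F : O → O → ℂ} (h : ∀ x, PP (F x)) :
    Av (fun α => sm M fun x => F x α) = sm M fun x => Av (F x) :=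
  (av_sum fun _ _ => PP.sum fun _ _ => h _).trans (sum_congr rfl fun _ _ => av_sum fun _ _ => h _)

theorem wj_phase (hM : 0 < M) (hc : 0 < c) {j : ℤ} (he : 3 * d * e - 1 = c * j) (y β : O) :
    q1 ((-d * nm (β + e * (CL.th * y)) : ℤ) / c) *
      q1 ((sp (M * (β + e * (CL.th * y))) y : ℤ) / (c * M : ℕ)) =
      q1 ((e * nm y : ℤ) / c) * q1 ((-d * nm β : ℤ) / c) := by
  have M0 : (M : ℂ) ≠ 0 := by exact_mod_cast hM.ne'
  have c0 : (c : ℂ) ≠ 0 := by exact_mod_cast hc.ne'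
  have he' : (3 * d * e - 1 : ℂ) = c * j := by exact_mod_cast he
  rw [← q1_add, ← q1_add]
  refine q1_congr (-j * (sp β y + e * nm y)) ?_
  simp [sp, nm, CL.th]
  field_simp
  linear_combination
    (-(β.im * y.re - β.re * y.im + e * (y.re ^ 2 - y.re * y.im + y.im ^ 2)) : ℂ) * he'

theorem wj_av (hM : 0 < M) (hc : ¬ 3 ∣ c) (he : (c : ℤ) ∣ 3 * d * e - 1) (y : O) :
    Av (fun z : O => wjK M c d z * q1 ((sp z y : ℤ) / (c * M : ℕ))) =
      et c * q1 ((e * nm y : ℤ) / c) / (M ^ 2 * c) := by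
  have c1 : 0 < c := Nat.pos_of_ne_zero fun k => hc (k ▸ dvd_zero 3)
  have M0 : (M : ℂ) ≠ 0 := by exact_mod_cast hM.ne'
  have c0 : (c : ℂ) ≠ 0 := by exact_mod_cast c1.ne'
  have hP := mul_pos c1 hM
  set T : O → ℂ := fun z => wjK M c d z * q1 ((sp z y : ℤ) / (c * M : ℕ)) with hT
  have ppT : PP T := (pe_iff_per.2 fun x γ => congrArg₂ (· * ·) (wj_per hM c1 d x γ)
    (q1_sp_per hP y x γ)).pp hP
  have e1 := av_dvd ppT (z := M) (by exact_mod_cast hM.ne')
  have e2 : (fun x : O => if (M : O) ∣ x then T x else 0) = T := funext fun x => by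
    split_ifs with h
    · rfl
    · simp [hT, wjK, h]
  rw [e2, CL.nm_nat] at e1
  obtain ⟨j, hj⟩ := he
  have e4 := gauss_O hc (r := -d) ⟨-(3 * e), -j, by linear_combination hj⟩
  have pq : PP fun β : O => q1 ((-d * nm β : ℤ) / c) := by
    simpa using ((cg_const (-d)).mul (cg_norm (AddMonoidHom.id O))).pp_q1 (n := c)
      (by exact_mod_cast c1.ne')
  have e3 := av_shift (f := fun b => T (M * b)) (ppT.comp (AddMonoidHom.mulLeft (M : O)))
    (e * (CL.th * y))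
  have e5 : ∀ β : O, T (M * (β + e * (CL.th * y))) = _ := fun β =>
    (congrArg (· * _) (wj_mul hM c d _)).trans (wj_phase hM c1 hj y β)
  rw [funext e5, av_mul_left pq, e4, e1, mul_div_assoc', div_eq_iff c0] at e3
  rw [eq_div_iff (mul_ne_zero (pow_ne_zero 2 M0) c0)]
  push_cast at e3 ⊢
  linear_combination -e3

theorem hs_per (hM : 0 < M) (hc : 0 < c) (a : O → ℂ) (d : ℤ) :
    Per (c * M) fun α => q1 (-(d * nm α) / (c * M ^ 2)) * ph M a c d α := fun α γ => by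
  simp only [wj_eq hM hc]
  exact sm_congr fun x => by rw [add_sub_right_comm, wj_per hM hc]

theorem hs_val (hM : 0 < M) (hc : ¬ 3 ∣ c) (hψ : Per M ψ) (he : (c : ℤ) ∣ 3 * d * e - 1) (y : O) :
    Av (fun α : O => q1 (-(d * nm α) / (c * M ^ 2)) * ph M (iFT M ψ) c d α *
      q1 ((sp α y : ℤ) / (c * M : ℕ))) =
        ψ y * et c * q1 ((e * nm y : ℤ) / c) / (M ^ 2 * c) := by
  have c1 : 0 < c := Nat.pos_of_ne_zero fun k => hc (k ▸ dvd_zero 3)
  have M0 : (M : ℂ) ≠ 0 := by exact_mod_cast hM.ne'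
  have c0 : (c : ℂ) ≠ 0 := by exact_mod_cast c1.ne'
  have hP := mul_pos c1 hM
  have e1 := wj_av hM hc he y
  set T : O → ℂ := fun z => wjK M c d z * q1 ((sp z y : ℤ) / (c * M : ℕ)) with hT
  have ppT : PP T := (pe_iff_per.2 fun x γ => congrArg₂ (· * ·) (wj_per hM c1 d x γ)
    (q1_sp_per hP y x γ)).pp hP
  have e2 : ∀ α : O, q1 (-(d * nm α) / (c * M ^ 2)) * ph M (iFT M ψ) c d α *
      q1 ((sp α y : ℤ) / (c * M : ℕ)) =
      sm M fun x => iFT M ψ x * q1 ((sp x y : ℤ) / M) * T (α + -(c * x)) := fun α => by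
    rw [wj_eq hM c1, mul_comm, ← sm_mul_left]
    refine sm_congr fun x => ?_
    have : q1 ((sp α y : ℤ) / (c * M : ℕ)) =
        q1 ((sp x y : ℤ) / M) * q1 ((sp (α - c * x) y : ℤ) / (c * M : ℕ)) := by
      rw [← q1_add]
      congr 1
      simp [sp]
      field_simp
      ring
    rw [this, hT, ← sub_eq_add_neg]
    ring
  rw [funext e2, wj_av_sm fun x => (ppT.shift _).const_mul _,
    sm_congr fun x => by rw [av_mul_left (ppT.shift _), av_shift ppT, mul_comm], sm_mul_left,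
    ← FT_eq, FT_iFT hM hψ, e1]
  ring

end Pool.Agent.Lib.MP_696deb_nt.Y3.W
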