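import Pool.Agent.Lib.MP_696deb_nt.Y3.Wg1
import Pool.Agent.Lib.MP_696deb_nt.Y3.Wi

/-! The Fourier transform of the geometric side. -/

set_option autoImplicit false

open Complex Finset
open scoped Real ComplexConjugate Classical

namespace Pool.Agent.Lib.MP_696deb_nt.Y3.W

open CL (O nm om op wC Per FT mem_reps)

variable {M : ℕ} {X Y : MZ} {Φ : O → O → O} {Ψ : O → O}

theorem Pair.wk_pp (h : Pair M X Y Φ Ψ) {c : ℕ} (hc : 0 < c) (d : ℤ) : PP fun v : O × O =>
    CL.toC (Φ v.1 v.2) * q1 (d * nm v.2 / (c * M ^ 2)) := by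
  have := h.pos
  have h1 : PP fun v : O × O => CL.toC (Φ v.1 v.2) := ⟨M ^ 2, by positivity, fun x y => by
    have e := h.Phi_per x.1 x.2 y.1 y.2
    rw [← nsmul_eq_mul, ← nsmul_eq_mul] at e
    exact congrArg CL.toC e⟩
  have h2 := ((cg_const d).mul (cg_norm (AddMonoidHom.snd O O))).pp_q1
    (n := c * M ^ 2) (by positivity)
  simp only [Int.cast_mul, Int.cast_pow, Int.cast_natCast, AddMonoidHom.coe_snd] at h2
  exact h1.mul h2

theorem Pair.pp (h : Pair M X Y Φ Ψ) {c : ℕ} (hc : 0 < c) (d : ℤ) : PP fun v : O × O =>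
    q1 (-(d * nm v.1) / (c * M ^ 2)) * (CL.toC (Φ v.1 v.2) * q1 (d * nm v.2 / (c * M ^ 2))) := by
  have := h.pos
  have h2 := ((cg_const d).mul (cg_norm (AddMonoidHom.fst O O))).neg.pp_q1
    (n := c * M ^ 2) (by positivity)
  simp only [Int.cast_mul, Int.cast_pow, Int.cast_natCast, Int.cast_neg,
    AddMonoidHom.coe_fst] at h2
  exact h2.mul (h.wk_pp hc d)

theorem Pair.ft (h : Pair M X Y Φ Ψ) {c R : ℕ} (hc : 0 < c) (hR : 0 < R) (d : ℤ) (y : O) :
    Av (fun α : O => q1 (-(d * nm α) / (c * M ^ 2)) *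
      Av (fun β : O => CL.toC (Φ α β) * q1 (d * nm β / (c * M ^ 2))) *
        q1 ((sp α y : ℤ) / (c * M * R : ℕ))) =
      3 * Gs c d (X * mb y 0 * Y.adjugate) (R * X.det) / M ^ 4 := by
  have N0 := h.pos
  have h2 := (cg_sp_left (AddMonoidHom.fst O O) y).pp_q1 (n := (c * M * R : ℕ)) (by positivity)
  simp only [Int.cast_natCast, AddMonoidHom.coe_fst] at h2
  have hF := (h.pp hc d).mul h2
  obtain ⟨ι, i1, i2⟩ := h.hom
  have hi := index_pair h.det h.det2 ι i1
  have e := av_sub hF ι (fun k => (pow_pos N0 4).ne' (by rw [← hi, k, mul_zero])) fun v hv => by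
    obtain ⟨g, hg⟩ := h.Phi_ne v.1 v.2 fun k => hv (by simp [k])
    exact ⟨g, i2 g _ _ hg⟩
  have n1 : (M : ℂ) ≠ 0 := Nat.cast_ne_zero.2 N0.ne'
  have n2 : (c : ℂ) ≠ 0 := Nat.cast_ne_zero.2 hc.ne'
  have n3 : (R : ℂ) ≠ 0 := Nat.cast_ne_zero.2 hR.ne'
  have n4 : (X.det : ℂ) ≠ 0 := Int.cast_ne_zero.2 h.det
  rw [av_prod hF] at e
  rw [eq_div_iff (pow_ne_zero _ n1), mul_comm, ← Nat.cast_pow, ← hi, Nat.cast_mul, Nat.cast_ofNat,
    mul_assoc]
  refine congrArg _ (Eq.trans ?_ (e.symm.trans (congrArg Av (funext fun g => ?_))))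
  · refine congrArg _ (congrArg Av (funext fun α => ?_))
    have p : PP fun β : O => CL.toC (Φ α β) * q1 (d * nm β / (c * M ^ 2)) := by
      simpa using ((h.wk_pp hc d).shift (α, 0)).comp (AddMonoidHom.inr O O)
    rw [mul_right_comm, ← av_mul_left p]
    exact congrArg Av (funext fun β => by ring)
  · have a1 := congrArg (Int.cast : ℤ → ℂ) (rel_det h.det h.det2 (i1 g))
    have a2 := congrArg (Int.cast : ℤ → ℂ) (rel_pr (i1 g) y)
    rw [h.Phi_eq g _ _ (i1 g), mul_left_comm, mul_assoc, ← q1_add, ← q1_add]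
    congr 2
    generalize pr g (X * mb y 0 * Y.adjugate) = t at a2 ⊢
    generalize X.det = D at a2 n4 ⊢
    generalize g.det = E at a1 ⊢
    push_cast at a1 a2 ⊢
    field_simp
    linear_combination (-3 * d * R * D) * a1 + M * a2

end Pool.Agent.Lib.MP_696deb_nt.Y3.W
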