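import Pool.Agent.Lib.MP_696deb_nt.Y3.Wg2
import Pool.Agent.Lib.MP_696deb_nt.Y3.Wk
import Pool.Agent.Lib.MP_696deb_nt.Y3.Wj

/-! The section matches the geometric side. -/

set_option autoImplicit false

open Complex Finset
open scoped Real ComplexConjugate Classical

namespace Pool.Agent.Lib.MP_696deb_nt.Y3.W

open CL (O nm om op wC Per FT mem_reps)

variable {M : ℕ} {X Y : MZ} {Φ : O → O → O} {Ψ : O → O}

theorem wm_mb (k : ℤ) (y : O) : mb (k * y) 0 = k • mb y 0 := by rw [← mb_smul, mul_zero]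

theorem wm_cancel {r : ℤ} (hr : r ≠ 0) {Z : MZ} {y : O}
    (h : r • (Z * Y) = (3 : ℤ) • (X * mb (r * y) 0)) : Z * Y = (3 : ℤ) • (X * mb y 0) := by
  rw [wm_mb, Matrix.mul_smul, smul_comm] at h
  exact smul_right_injective _ hr h

/-- The case of a vanishing weight. -/
theorem wm_zero (h : Pair M X Y Φ Ψ) {c R : ℕ} {d : ℤ} (hc : 0 < c) (hR : 0 < R)
    (hd : IsCoprime (c : ℤ) d) (k : ¬ (¬ (3 : ℤ) ∣ c ∧ (7 : ℤ) ∣ c)) (y : O) :
    Gs c d (X * mb y 0 * Y.adjugate) (R * X.det) = 0 := by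
  by_contra e
  have c0 : (c : ℤ) ≠ 0 := by omega
  have R0 : (R : ℤ) ≠ 0 := by omega
  have T0 := mul_ne_zero R0 h.det
  obtain ⟨Z, hZ⟩ := gs_seven c0 T0 e
  have h1 := hZ
  rw [← Matrix.smul_mul, ← Matrix.mul_smul, ← wm_mb, rel_adj h.det h.det2] at h1
  obtain ⟨z, hz⟩ := h.int _ _ _ h1
  rw [hz] at h1
  replace h1 := wm_cancel R0 h1
  rw [← gs_scale (k := 7) (by norm_num), hZ, mul_comm 7, gs_scale T0] at e
  refine e ?_
  by_cases h7 : (7 : ℤ) ∣ c
  · have h3 : (3 : ℤ) ∣ c := by omega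
    refine gs_three c0 h3 (fun e => Int.prime_three.not_isUnit (hd.isUnit_of_dvd' h3 e)) ?_
    rintro Z rfl
    rw [Matrix.smul_mul] at h1
    exact h.three _ _ (smul_right_injective _ three_ne_zero h1)
  · exact gs_not7 h7 (h.seven _ _ h1)

theorem wm_main (h : Pair M X Y Φ Ψ) {c R : ℕ} {d : ℤ} (hc : 0 < c) (hR : 0 < R)
    (hd : IsCoprime (c : ℤ) d) (ho : ¬ 3 ∣ c) (h7 : 7 ∣ c) (y : O) :
    3 * M ^ 2 * c * (3 * Gs c d (X * mb y 0 * Y.adjugate) (R * X.det) / M ^ 4) =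
      conj (CL.toC (ep d)) * Av fun α : O => q1 (-(d * nm α) / (c * M ^ 2)) *
        ph M (iFT M fun y => CL.toC CL.th * CL.toC (Ψ y)) c d α *
          q1 ((sp α y : ℤ) / (c * M * R : ℕ)) := by
  have c0 : (c : ℤ) ≠ 0 := by omega
  have R0 : (R : ℤ) ≠ 0 := by omega
  have T0 := mul_ne_zero R0 h.det
  have M0 := h.pos
  have h7' : (7 : ℤ) ∣ c := by exact_mod_cast h7
  have c1 : (c : ℂ) ≠ 0 := by exact_mod_cast c0
  have R1 : (R : ℂ) ≠ 0 := by exact_mod_cast R0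
  have N1 : (M : ℂ) ≠ 0 := Nat.cast_ne_zero.2 M0.ne'
  by_cases hy : ((R : ℤ) : O) ∣ y
  · obtain ⟨y, rfl⟩ := hy
    obtain ⟨u, e, he⟩ : IsCoprime (c : ℤ) (3 ^ 2 * d) :=
      ((Int.prime_three.coprime_iff_not_dvd.2 (by exact_mod_cast ho)).symm).pow_right.mul_right hd
    have e1 : ∀ α : O, ((sp α ((R : ℤ) * y) : ℤ) : ℂ) / (c * M * R : ℕ) =
        (sp α y : ℤ) / (c * M : ℕ) := fun α => by
      rw [show sp α ((R : ℤ) * y) = sp α y * R by simp [sp]; ring, Nat.cast_mul _ R,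
        Int.cast_mul, Int.cast_natCast, mul_div_mul_right _ _ R1]
    simp only [e1]
    rw [hs_val (e := 3 * e) M0 ho (fun α γ => by simp only [h.Psi_per α γ])
      ⟨-u, by linear_combination he⟩]
    by_cases k : ∃ Z : MZ, Z * Y = (3 : ℤ) • (X * mb y 0)
    · obtain ⟨Z, hZ⟩ := k
      have := gs_scale T0 c d Z 1
      rw [mul_one] at this
      rw [(rel_adj h.det h.det2 Z _ R).2 (by rw [hZ, wm_mb, Matrix.mul_smul, smul_comm]), this,
        gs_val (e := e) ho h7 ⟨-u, by linear_combination he⟩, rel_det2 h.det h.det2 hZ,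
        h.Psi_eq _ _ hZ, show e * (3 * nm y) = 3 * e * nm y by ring]
      field_simp
      ring
    · have : Gs c d (X * mb ((R : ℤ) * y) 0 * Y.adjugate) (R * X.det) = 0 := by_contra fun e =>
        (gs_int c0 h7' T0 e).elim fun Z hZ => k ⟨Z, wm_cancel R0 ((rel_adj h.det h.det2 _ _ _).1 hZ)⟩
      rw [this, not_not.1 (mt (h.Psi_ne y) k)]
      simp
  · have : Gs c d (X * mb y 0 * Y.adjugate) (R * X.det) = 0 := by_contra fun e =>
      (gs_int c0 h7' T0 e).elim fun Z hZ => hy (h.int _ _ _ ((rel_adj h.det h.det2 _ _ _).1 hZ))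
    obtain ⟨γ, hγ⟩ : ∃ γ : O, ¬ (R : ℤ) ∣ sp γ y := by
      rw [Int.cast_natCast, CL.nat_dvd, not_and_or] at hy
      exact hy.elim (fun k => ⟨⟨0, 1⟩, by simpa [sp] using k⟩) fun k =>
        ⟨⟨1, 0⟩, by simpa [sp] using k⟩
    have p := hs_per M0 hc (iFT M fun y => CL.toC CL.th * CL.toC (Ψ y)) d
    have P0 : ((c * M * R : ℕ) : ℤ) ≠ 0 := by positivity
    rw [this, av_zero_of_shift (s := (c * M : ℕ) * γ) (ζ := q1 ((sp γ y : ℤ) / (R : ℤ)))
      (((pe_iff_per.2 p).pp (by positivity)).mul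
        (by simpa using (cg_sp_left (AddMonoidHom.id O) y).pp_q1 P0))
      (fun x => ?_) (mt (q1_div_eq_one R0).1 hγ)]
    · simp
    · have := p x γ
      simp only at this
      rw [this, mul_left_comm (q1 _) (_ * _), ← q1_add]
      congr 2
      rw [show sp (x + (c * M : ℕ) * γ) y = sp x y + c * M * sp γ y by simp [sp]; ring]
      push_cast
      field_simp
      ring

theorem Pair.mat (h : Pair M X Y Φ Ψ) {c : ℕ} {d : ℤ} (hc : 0 < c) (hd : IsCoprime (c : ℤ) d)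
    (A : O) : Wt c d * ph M (iFT M fun y => CL.toC CL.th * CL.toC (Ψ y)) c d A =
      3 * M ^ 2 * c * Av fun β : O => CL.toC (Φ A β) * q1 (d * nm β / (c * M ^ 2)) := by
  have M0 := h.pos
  have F := h.pp hc d
  have q0 : ∀ z, q1 z ≠ 0 := fun z => Complex.exp_ne_zero _
  have pf : PP fun α : O => q1 (-(d * nm α) / (c * M ^ 2)) *
      Av fun β : O => CL.toC (Φ α β) * q1 (d * nm β / (c * M ^ 2)) := by
    convert pp_av F using 2 with α
    refine (av_mul_left ?_ _).symm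
    convert ((F.shift (α, 0)).comp (AddMonoidHom.inr O O)).const_mul
      (q1 (-(d * nm α) / (c * M ^ 2)))⁻¹ using 2 with β
    rw [eq_inv_mul_iff_mul_eq₀ (q0 _)]
    simp
  obtain ⟨R, hR, hf⟩ := pf
  have P0 : 0 < c * M * R := by positivity
  have ph0 := pe_iff_per.2 (hs_per M0 hc (iFT M fun y => CL.toC CL.th * CL.toC (Ψ y)) d)
  have pg : Pe (c * M * R) fun α : O => Wt c d * (q1 (-(d * nm α) / (c * M ^ 2)) *
      ph M (iFT M fun y => CL.toC CL.th * CL.toC (Ψ y)) c d α) := fun x y =>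
    congrArg _ (ph0.mono (dvd_mul_right _ R) x y)
  have hf' := hf.mono (dvd_mul_left R (c * M))
  have hs : ∀ {P : ℕ} {f g : O → ℂ} (k : ℂ), Pe P f → Pe P g → Pe P fun x => f x - k * g x :=
    fun k a b x y => by simp only [a x y, b x y]
  have key := fourier_zero P0 (pe_iff_per.1 (hs (3 * M ^ 2 * c) pg hf')) (fun y => ?_) A
  · refine mul_left_cancel₀ (q0 (-(d * nm A) / (c * M ^ 2))) ?_
    linear_combination key
  have pq : PP fun x : O => q1 ((sp x y : ℤ) / (c * M * R : ℕ)) := by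
    simpa using (cg_sp_left (AddMonoidHom.id O) y).pp_q1 (Int.natCast_ne_zero.2 P0.ne')
  simp only [sub_mul, mul_assoc (3 * _ * _ : ℂ)]
  rw [av_minus ((pg.pp P0).mul pq) (((hf'.pp P0).mul pq).const_mul _),
    av_mul_left ((hf'.pp P0).mul pq), h.ft hc hR, sub_eq_zero]
  by_cases k : ¬ (3 : ℤ) ∣ c ∧ (7 : ℤ) ∣ c
  · rw [wm_main h hc hR hd (by omega) (by omega), ← av_mul_left ((ph0.pp (by positivity)).mul pq)]
    simp only [Wt, if_pos k, mul_assoc]
  · rw [wm_zero h hc hR hd k]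
    simp only [Wt, if_neg k]
    simp [av_const]

end Pool.Agent.Lib.MP_696deb_nt.Y3.W
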