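import Pool.Agent.Lib.MP_696deb_nt.Y3.Wi
import Pool.Agent.Lib.MP_696deb_nt.Y3.D4
import Pool.Agent.Lib.MP_696deb_nt.Y3.P0

/-! The data of a curve give pairs of bases and an eigenfunction. -/

set_option autoImplicit false

open Complex Finset
open scoped Real ComplexConjugate Classical

namespace Pool.Agent.Lib.MP_696deb_nt.Y3.W

open CL (O nm om op wC Per FT mem_reps)

variable (d : Dat)

theorem wp_per {β : Type} {M k : ℕ} {f : O → β} (h : Per M f) : Per (k * M) f := fun α γ => by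
  rw [← h α (k * γ), Nat.cast_mul, mul_right_comm, mul_comm (M : O)]

theorem wp_three {u u' : O} (hu : u ∈ d.U) (hu' : u' ∈ d.U) {b : Fin 3} {Z : MZ} {y : O}
    (h : Z * d.By u' b = d.Bx u * mb y 0) : 3 ∣ Z 0 0 := by
  have k := congrArg Matrix.det h
  rw [Matrix.det_mul, Matrix.det_mul, d.Bx_det hu, d.By_det hu', mb_det,
    show nm 0 = 0 from rfl] at k
  refine d.d3_three hu' (b := b) ?_
  rw [h, row_mb, zero_mul, add_zero, CL.nm_mul,
    mul_left_cancel₀ d.N_ne (show (d.N : ℤ) * nm y = d.N * (3 * Z.det) by linear_combination -k),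
    mul_assoc]
  exact dvd_mul_right _ _

theorem wp_seven {u u' : O} (hu : u ∈ d.U) (hu' : u' ∈ d.U) {b : Fin 3} {Z : MZ} {y : O}
    (h : Z * d.By u' b = (3 : ℤ) • (d.Bx u * mb y 0)) (h7 : 7 ∣ Z 0 0) : 7 ∣ Z 1 1 := by
  obtain ⟨p, -, -, hp, -, -, h1, -⟩ := d.psi_shape hu hu' h
  obtain ⟨c, rfl⟩ : 7 ∣ p := by omega
  have h2 : (7 : O) ∣ y * u := by
    have := (d.seven_dvd.trans h1).add (dvd_mul_right (7 : O) (c * u'))
    push_cast at this
    exact this.trans (dvd_of_eq (by ring))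
  obtain ⟨z, rfl⟩ := ((d.cop hu).of_isCoprime_of_dvd_right d.seven_dvd).symm.dvd_of_dvd_mul_right h2
  have e := congrFun (congrFun ((d.d3_adj' hu').1 h) 1) 1
  have k := mb_smul 7 z 0
  rw [mul_zero, Int.cast_ofNat] at k
  rw [mul_assoc, d.d3_Bx, k, smul_mul_assoc, mul_smul_comm] at e
  exact ⟨_, (mul_left_cancel₀ d.N_ne e).symm⟩

theorem dat_pair {u u' : O} (hu : u ∈ d.U) (hu' : u' ∈ d.U) (b : Fin 3) :
    Pair (3 * d.N) (d.Bx u) (d.By u' b) (d.Phi0 u u' b) (d.Psi0 u u' b) := by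
  have e : ((3 * d.N : ℕ) : ℤ) = 3 * d.N := by push_cast; rfl
  have e' : (3 * d.N) ^ 2 = 9 * d.N ^ 2 := by ring
  exact ⟨Nat.mul_pos three_pos d.pos, d.Bx_det hu ▸ d.N_ne, by rw [d.By_det hu', d.Bx_det hu],
    e ▸ d.exists_pair hu u' b, fun _ _ _ => e ▸ d.Phi0_eq hu', fun _ _ => e ▸ d.Phi0_ne hu',
    e' ▸ d.Phi0_per hu hu' b, fun _ _ => d.Psi0_eq hu', fun _ => d.Psi0_ne hu',
    wp_per (d.Psi0_per hu hu' b), fun _ _ _ => d.pair_int hu hu', fun _ _ => wp_three d hu hu',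
    fun _ _ => wp_seven d hu hu'⟩

theorem dat_hom : Hom (3 * d.N) d.ps d.kap := by
  refine ⟨Nat.mul_pos three_pos d.pos, mul_dvd_mul_left 3 d.d4_seven, fun a γ => ?_,
    fun t ht y => ?_, fun k hk => ?_, fun t ht => d.kap_six (d.cop_three.1 ht),
    fun t ht => d.kap_conj (d.cop_three.1 ht), fun p hp hN h3 _ y hy => ?_,
    fun y => ⟨CL.th * d.Psi y, (map_mul _ _ _).symm⟩⟩
  · rw [Dat.ps, Dat.ps, wp_per d.Psi_per a γ]
  · rw [Dat.ps, Dat.ps, d.Psi_mul (d.cop_three.1 ht), map_mul, mul_left_comm]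
  · rw [d.kap_int (cop_int.1 (d.cop_three.1 (cop_int.2 hk))), nb_int]
  · rw [Dat.ps, d.Psi_zero fun c => ?_, map_zero, mul_zero]
    have h : p ∣ d.N := ((Nat.coprime_primes hp Nat.prime_three).2 h3).dvd_of_dvd_mul_left hN
    have := cop_int.1 (show IsCoprime ((p : ℤ) : O) (d.N : O) from by
      simpa using c.of_isCoprime_of_dvd_left hy)
    exact hp.one_lt.ne' ((Nat.isCoprime_iff_coprime.1 this).eq_one_of_dvd h)

end Pool.Agent.Lib.MP_696deb_nt.Y3.W
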