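import Pool.Agent.Lib.MP_696deb_nt.Y3.Wm
import Pool.Agent.Lib.MP_696deb_nt.Y3.Wh1
import Pool.Agent.Lib.MP_696deb_nt.Y3.Wp

/-! The section of a curve matches the coefficients of the kernel. -/

set_option autoImplicit false

open Complex Finset
open scoped Real ComplexConjugate Classical

namespace Pool.Agent.Lib.MP_696deb_nt.Y3.W

open CL (O nm om op wC Per FT mem_reps)

theorem wr_sm {ι : Type} (s : Finset ι) (w : ι → ℂ) (F : ι → O → ℂ) (g : O → ℂ) (M : ℕ) :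
    sm M (fun x => (∑ i ∈ s, w i * F i x) * g x) = ∑ i ∈ s, w i * sm M fun x => F i x * g x := by
  simp only [sm, sum_mul, mul_sum, mul_assoc]
  exact (sum_congr rfl fun _ _ => sum_comm).trans sum_comm

theorem wr_ph {ι : Type} (s : Finset ι) (w : ι → ℂ) (ψ : ι → O → ℂ) (M : ℕ) (c e : ℤ) (A : O) :
    ph M (iFT M fun y => ∑ i ∈ s, w i * ψ i y) c e A = ∑ i ∈ s, w i * ph M (iFT M (ψ i)) c e A := by
  have : (iFT M fun y => ∑ i ∈ s, w i * ψ i y) = fun x => ∑ i ∈ s, w i * iFT M (ψ i) x :=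
    funext fun x => by simp only [iFT, FT_eq, wr_sm, sum_div, mul_div_assoc]
  rw [this, ph, wr_sm]
  rfl

theorem wr_mat (d : Dat) {c : ℕ} {e : ℤ} (hc : 0 < c) (he : IsCoprime (c : ℤ) e) (A : O) :
    Wt c e * ph (3 * d.N) (iFT (3 * d.N) d.ps) c e A =
      c * Av fun β => CL.toC (3 * (3 * d.N) ^ 2 * d.Phi A β) *
        q1 (e * nm β / (c * (3 * d.N : ℕ) ^ 2)) := by
  let s : Finset (O × O × Fin 3) := d.U ×ˢ d.U ×ˢ univ
  let w : O × O × Fin 3 → ℂ := fun v => CL.toC (star (d.kap v.1) * d.kap v.2.1)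
  have hs : ∀ v ∈ s, v.1 ∈ d.U ∧ v.2.1 ∈ d.U := fun v hv =>
    ⟨(mem_product.1 hv).1, (mem_product.1 (mem_product.1 hv).2).1⟩
  have e1 : d.ps = fun y => ∑ v ∈ s, w v *
      (CL.toC CL.th * CL.toC (d.Psi0 v.1 v.2.1 v.2.2 y)) := funext fun y => by
    simp only [Dat.ps, Dat.Psi, s, w, sum_product, map_sum, map_mul, mul_sum, mul_left_comm]
  have n : (c * (3 * d.N : ℕ) ^ 2 : ℤ) ≠ 0 := by
    have := d.pos
    positivity
  have p : ∀ v ∈ s, PP fun β : O => CL.toC (d.Phi0 v.1 v.2.1 v.2.2 A β) *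
      q1 (e * nm β / (c * (3 * d.N : ℕ) ^ 2)) := fun v hv => by
    refine PP.mul ⟨9 * d.N ^ 2, by have := d.pos; positivity, fun x y => ?_⟩ ?_
    · have := d.Phi0_per (hs v hv).1 (hs v hv).2 v.2.2 A x 0 y
      rw [mul_zero, add_zero] at this
      simp only [nsmul_eq_mul, this]
    · simpa using ((cg_const e).mul (cg_norm (AddMonoidHom.id O))).pp_q1 n
  have e2 : (fun β => CL.toC (3 * (3 * d.N) ^ 2 * d.Phi A β) *
      q1 (e * nm β / (c * (3 * d.N : ℕ) ^ 2))) = fun β => ∑ v ∈ s,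
        3 * (3 * d.N) ^ 2 * w v * (CL.toC (d.Phi0 v.1 v.2.1 v.2.2 A β) *
          q1 (e * nm β / (c * (3 * d.N : ℕ) ^ 2))) := funext fun β => by
    simp only [Dat.Phi, s, w, sum_product, map_sum, map_mul, map_pow, map_ofNat, map_natCast,
      mul_sum, sum_mul, mul_assoc]
  rw [e1, wr_ph, e2, av_sum fun v hv => (p v hv).const_mul _, mul_sum, mul_sum]
  refine sum_congr rfl fun v hv => ?_
  rw [av_mul_left (p v hv), mul_left_comm,
    (dat_pair d (hs v hv).1 (hs v hv).2 v.2.2).mat hc he A]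
  push_cast
  ring

theorem dat_ker (d : Dat) : Ker (3 * d.N) (fun A β => 3 * (3 * d.N) ^ 2 * d.Phi A β)
    (iFT (3 * d.N) d.ps) where
  adm := (dat_hom d).adm
  prim _ _ _ A hp hM hc he := (dat_hom d).prim A hp hM hc he
  hom _ hk c l A := (dat_hom d).hom hk c l A
  per A β γ := by
    have := d.Phi_per A β 0 γ
    rw [mul_zero, add_zero] at this
    simp only [show (3 * d.N) ^ 2 = 9 * d.N ^ 2 by ring, this]
  supp A β h := by
    have := d.Phi_det (right_ne_zero_of_mul h)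
    rwa [show ((3 * d.N : ℕ) : ℤ) ^ 2 = 9 * (d.N : ℤ) ^ 2 by push_cast; ring]
  inv t ht A β := by rw [d.Phi_inv (d.cop_three.1 ht)]
  mat _ _ hc he A := wr_mat d hc he A
  alg := (dat_hom d).int_iFT

end Pool.Agent.Lib.MP_696deb_nt.Y3.W
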